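import Pool.Agent.Helper95.DomSym

/-!
Independence of the two coordinates; sums over the values of a countable function.
-/

namespace Pool.Agent.Helper95.Dom

open MeasureTheory ProbabilityTheory Filter
open scoped Topology ENNReal

theorem indep_fst_snd (μ μ' : ℕ → ℝ) {β γ : Type*} [MeasurableSpace β] [MeasurableSpace γ]
    (I J : Finset ℕ) {f : Om → β} {g : Om → γ}
    (hf : ∀ ω ω' : Om, (∀ s ∈ I, (ω s).1 = (ω' s).1) → f ω = f ω')
    (hg : ∀ ω ω' : Om, (∀ s ∈ J, (ω s).2 = (ω' s).2) → g ω = g ω') :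
    IndepFun f g (PP μ μ') := by
  classical
  set K := I ∪ J with hK
  let U : Om → (↥K → ℕ) := fun ω s => (ω s).1
  let V : Om → (↥K → ℕ) := fun ω s => (ω s).2
  have mU : Measurable U := measurable_pi_lambda _ fun s => meas_fst s
  have mV : Measurable V := measurable_pi_lambda _ fun s => meas_snd s
  have hUV : IndepFun U V (PP μ μ') := by
    rw [indepFun_iff_map_prod_eq_prod_map_map mU.aemeasurable mV.aemeasurable]
    apply Measure.ext_of_singleton
    rintro ⟨y, z⟩
    have e1 : ({(y, z)} : Set ((↥K → ℕ) × (↥K → ℕ))) = {y} ×ˢ {z} := by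
      rw [Set.singleton_prod_singleton]
    rw [e1, Measure.prod_prod, Measure.map_apply mU (measurableSet_singleton y),
      Measure.map_apply mV (measurableSet_singleton z),
      Measure.map_apply (mU.prodMk mV) ((measurableSet_singleton y).prod (measurableSet_singleton z))]
    let Y : ℕ → ℕ := fun s => if hs : s ∈ K then y ⟨s, hs⟩ else 0
    let Z : ℕ → ℕ := fun s => if hs : s ∈ K then z ⟨s, hs⟩ else 0
    have a1 : (fun ω => (U ω, V ω)) ⁻¹' ({y} ×ˢ {z}) = Set.pi K (fun s => {Y s} ×ˢ {Z s}) := by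
      ext ω
      simp only [Set.mem_preimage, Set.mem_prod, Set.mem_singleton_iff, Set.mem_pi, Finset.mem_coe]
      constructor
      · rintro ⟨h1, h2⟩ s hs
        have h3 := congrFun h1 ⟨s, hs⟩
        have h4 := congrFun h2 ⟨s, hs⟩
        simp only [Y, Z, hs, dif_pos]
        exact ⟨h3, h4⟩
      · intro h
        constructor
        · funext s
          have := (h s s.2).1
          simp only [Y, s.2, dif_pos] at this
          exact this
        · funext s
          have := (h s s.2).2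
          simp only [Z, s.2, dif_pos] at this
          exact this
    have a2 : U ⁻¹' {y} = Set.pi K (fun s => {Y s} ×ˢ Set.univ) := by
      ext ω
      simp only [Set.mem_preimage, Set.mem_prod, Set.mem_singleton_iff, Set.mem_pi, Finset.mem_coe,
        Set.mem_univ, and_true]
      constructor
      · intro h1 s hs
        have h3 := congrFun h1 ⟨s, hs⟩
        simp only [Y, hs, dif_pos]
        exact h3
      · intro h
        funext s
        have := h s s.2
        simp only [Y, s.2, dif_pos] at this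
        exact this
    have a3 : V ⁻¹' {z} = Set.pi K (fun s => Set.univ ×ˢ {Z s}) := by
      ext ω
      simp only [Set.mem_preimage, Set.mem_prod, Set.mem_singleton_iff, Set.mem_pi, Finset.mem_coe,
        Set.mem_univ, true_and]
      constructor
      · intro h1 s hs
        have h3 := congrFun h1 ⟨s, hs⟩
        simp only [Z, hs, dif_pos]
        exact h3
      · intro h
        funext s
        have := h s s.2
        simp only [Z, s.2, dif_pos] at this
        exact this
    rw [a1, a2, a3]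
    unfold PP
    rw [Measure.infinitePi_pi _ (fun s _ => (measurableSet_singleton _).prod (measurableSet_singleton _)),
      Measure.infinitePi_pi _ (fun s _ => (measurableSet_singleton _).prod MeasurableSet.univ),
      Measure.infinitePi_pi _ (fun s _ => MeasurableSet.univ.prod (measurableSet_singleton _)),
      ← Finset.prod_mul_distrib]
    apply Finset.prod_congr rfl
    intro s _
    rw [Measure.prod_prod, Measure.prod_prod, Measure.prod_prod]
    simp
  let f1 : (↥K → ℕ) → β := fun y => f (fun s => if hs : s ∈ K then (y ⟨s, hs⟩, 0) else (0, 0))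
  let g1 : (↥K → ℕ) → γ := fun y => g (fun s => if hs : s ∈ K then (0, y ⟨s, hs⟩) else (0, 0))
  have hf1 : f = f1 ∘ U := by
    funext ω
    apply hf
    intro s hs
    have hs' : s ∈ K := Finset.mem_union_left _ hs
    simp [hs', U]
  have hg1 : g = g1 ∘ V := by
    funext ω
    apply hg
    intro s hs
    have hs' : s ∈ K := Finset.mem_union_right _ hs
    simp [hs', V]
  rw [hf1, hg1]
  exact hUV.comp (measurable_of_countable f1) (measurable_of_countable g1)

theorem indep_sets_fs (μ μ' : ℕ → ℝ) (I J : Finset ℕ) {A B : Set Om}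
    (hA : ∀ ω ω' : Om, (∀ s ∈ I, (ω s).1 = (ω' s).1) → (ω ∈ A ↔ ω' ∈ A))
    (hB : ∀ ω ω' : Om, (∀ s ∈ J, (ω s).2 = (ω' s).2) → (ω ∈ B ↔ ω' ∈ B)) :
    (PP μ μ').real (A ∩ B) = (PP μ μ').real A * (PP μ μ').real B := by
  have h := indep_fst_snd μ μ' I J (f := fun ω => (ω ∈ A : Prop)) (g := fun ω => (ω ∈ B : Prop))
    (fun ω ω' hh => propext (hA ω ω' hh)) (fun ω ω' hh => propext (hB ω ω' hh))
  have h2 := h.measure_inter_preimage_eq_mul {True} {True} (measurableSet_singleton _)
    (measurableSet_singleton _)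
  have e1 : (fun ω => (ω ∈ A : Prop)) ⁻¹' {True} = A := by ext ω; simp
  have e2 : (fun ω => (ω ∈ B : Prop)) ⁻¹' {True} = B := by ext ω; simp
  rw [e1, e2] at h2
  simp only [Measure.real, h2, ENNReal.toReal_mul]

/-- Decomposition over the values of a countable-valued function: upper bound. -/
theorem sum_values_le {κ : Type*} [Countable κ] (μ μ' : ℕ → ℝ) (I J : Finset ℕ)
    (hIJ : Disjoint I J) (v : Om → κ) (hv : ∀ ω ω' : Om, (∀ s ∈ I, ω s = ω' s) → v ω = v ω')
    {E : Set Om} (hE : ∀ ω ω' : Om, (∀ s ∈ I, ω s = ω' s) → (ω ∈ E ↔ ω' ∈ E))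
    (G : κ → Set Om) (hG : ∀ k, ∀ ω ω' : Om, (∀ s ∈ J, ω s = ω' s) → (ω ∈ G k ↔ ω' ∈ G k))
    {c : ℝ} (hc : 0 ≤ c) (hGc : ∀ k, (PP μ μ').real (G k) ≤ c) :
    (PP μ μ').real {ω | ω ∈ E ∧ ω ∈ G (v ω)} ≤ (PP μ μ').real E * c := by
  classical
  have hdepEk : ∀ k, ∀ ω ω' : Om, (∀ s ∈ I, ω s = ω' s) → (ω ∈ E ∩ v ⁻¹' {k} ↔ ω' ∈ E ∩ v ⁻¹' {k}) := by
    intro k ω ω' h
    simp only [Set.mem_inter_iff, Set.mem_preimage, Set.mem_singleton_iff]
    rw [hE ω ω' h, hv ω ω' h]
  have mEk : ∀ k, MeasurableSet (E ∩ v ⁻¹' {k}) := fun k => measSet_of_dep I (hdepEk k)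
  have hdj : Pairwise (Function.onFun Disjoint fun k => E ∩ v ⁻¹' {k}) := by
    intro k k' hkk
    rw [Function.onFun, Set.disjoint_left]
    rintro ω ⟨_, h1⟩ ⟨_, h2⟩
    exact hkk (h1.symm.trans h2)
  have hEU : E = ⋃ k, (E ∩ v ⁻¹' {k}) := by
    ext ω
    simp
  have key : (PP μ μ') {ω | ω ∈ E ∧ ω ∈ G (v ω)} ≤ (PP μ μ') E * ENNReal.ofReal c := by
    calc (PP μ μ') {ω | ω ∈ E ∧ ω ∈ G (v ω)}
        ≤ (PP μ μ') (⋃ k, (E ∩ v ⁻¹' {k}) ∩ G k) := by
          apply measure_mono
          rintro ω ⟨h1, h2⟩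
          rw [Set.mem_iUnion]
          exact ⟨v ω, ⟨h1, rfl⟩, h2⟩
      _ ≤ ∑' k, (PP μ μ') ((E ∩ v ⁻¹' {k}) ∩ G k) := measure_iUnion_le _
      _ ≤ ∑' k, (PP μ μ') (E ∩ v ⁻¹' {k}) * ENNReal.ofReal c := by
          apply ENNReal.tsum_le_tsum
          intro k
          have h1 := indep_sets μ μ' I J hIJ (hdepEk k) (hG k)
          have h2 : (PP μ μ').real (E ∩ v ⁻¹' {k} ∩ G k) ≤ (PP μ μ').real (E ∩ v ⁻¹' {k}) * c := by
            rw [h1]
            exact mul_le_mul_of_nonneg_left (hGc k) measureReal_nonneg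
          rw [← ofReal_measureReal, ← ofReal_measureReal (s := E ∩ v ⁻¹' {k}),
            ← ENNReal.ofReal_mul measureReal_nonneg]
          exact ENNReal.ofReal_le_ofReal h2
      _ = (PP μ μ') E * ENNReal.ofReal c := by
          rw [ENNReal.tsum_mul_right]
          congr 1
          conv_rhs => rw [hEU]
          rw [measure_iUnion hdj mEk]
  have := ENNReal.toReal_mono (ENNReal.mul_ne_top (measure_ne_top _ _) ENNReal.ofReal_ne_top) key
  rw [ENNReal.toReal_mul, ENNReal.toReal_ofReal hc] at this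
  exact this

/-- Decomposition over the values of a countable-valued function: lower bound. -/
theorem le_sum_values {κ : Type*} [Countable κ] (μ μ' : ℕ → ℝ) (I J : Finset ℕ)
    (hIJ : Disjoint I J) (v : Om → κ) (hv : ∀ ω ω' : Om, (∀ s ∈ I, ω s = ω' s) → v ω = v ω')
    {E : Set Om} (hE : ∀ ω ω' : Om, (∀ s ∈ I, ω s = ω' s) → (ω ∈ E ↔ ω' ∈ E))
    (G : κ → Set Om) (hG : ∀ k, ∀ ω ω' : Om, (∀ s ∈ J, ω s = ω' s) → (ω ∈ G k ↔ ω' ∈ G k))
    {c : ℝ} (hc : 0 ≤ c) (hGc : ∀ ω ∈ E, c ≤ (PP μ μ').real (G (v ω))) :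
    (PP μ μ').real E * c ≤ (PP μ μ').real {ω | ω ∈ E ∧ ω ∈ G (v ω)} := by
  classical
  have hdepEk : ∀ k, ∀ ω ω' : Om, (∀ s ∈ I, ω s = ω' s) → (ω ∈ E ∩ v ⁻¹' {k} ↔ ω' ∈ E ∩ v ⁻¹' {k}) := by
    intro k ω ω' h
    simp only [Set.mem_inter_iff, Set.mem_preimage, Set.mem_singleton_iff]
    rw [hE ω ω' h, hv ω ω' h]
  have mEk : ∀ k, MeasurableSet (E ∩ v ⁻¹' {k}) := fun k => measSet_of_dep I (hdepEk k)
  have mG : ∀ k, MeasurableSet (G k) := fun k => measSet_of_dep J (hG k)
  have hdj : Pairwise (Function.onFun Disjoint fun k => E ∩ v ⁻¹' {k}) := by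
    intro k k' hkk
    rw [Function.onFun, Set.disjoint_left]
    rintro ω ⟨_, h1⟩ ⟨_, h2⟩
    exact hkk (h1.symm.trans h2)
  have hdj2 : Pairwise (Function.onFun Disjoint fun k => (E ∩ v ⁻¹' {k}) ∩ G k) := by
    intro k k' hkk
    exact (hdj hkk).mono Set.inter_subset_left Set.inter_subset_left
  have hEU : E = ⋃ k, (E ∩ v ⁻¹' {k}) := by
    ext ω
    simp
  have key : (PP μ μ') E * ENNReal.ofReal c ≤ (PP μ μ') {ω | ω ∈ E ∧ ω ∈ G (v ω)} := by
    calc (PP μ μ') E * ENNReal.ofReal c = ∑' k, (PP μ μ') (E ∩ v ⁻¹' {k}) * ENNReal.ofReal c := by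
          rw [ENNReal.tsum_mul_right]
          congr 1
          conv_lhs => rw [hEU]
          rw [measure_iUnion hdj mEk]
      _ ≤ ∑' k, (PP μ μ') ((E ∩ v ⁻¹' {k}) ∩ G k) := by
          apply ENNReal.tsum_le_tsum
          intro k
          rcases (E ∩ v ⁻¹' {k}).eq_empty_or_nonempty with h0 | ⟨ω0, h01, h02⟩
          · rw [h0]; simp
          have h1 := indep_sets μ μ' I J hIJ (hdepEk k) (hG k)
          have h3 := hGc ω0 h01
          have h4 : v ω0 = k := h02
          rw [h4] at h3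
          have h2 : (PP μ μ').real (E ∩ v ⁻¹' {k}) * c ≤ (PP μ μ').real (E ∩ v ⁻¹' {k} ∩ G k) := by
            rw [h1]
            exact mul_le_mul_of_nonneg_left h3 measureReal_nonneg
          rw [← ofReal_measureReal, ← ofReal_measureReal (s := E ∩ v ⁻¹' {k} ∩ G k),
            ← ENNReal.ofReal_mul measureReal_nonneg]
          exact ENNReal.ofReal_le_ofReal h2
      _ = (PP μ μ') (⋃ k, (E ∩ v ⁻¹' {k}) ∩ G k) :=
          (measure_iUnion hdj2 fun k => (mEk k).inter (mG k)).symm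
      _ ≤ _ := by
          apply measure_mono
          intro ω hω
          rw [Set.mem_iUnion] at hω
          obtain ⟨k, ⟨h1, h2⟩, h3⟩ := hω
          have h4 : v ω = k := h2
          exact ⟨h1, by rw [h4]; exact h3⟩
  have := ENNReal.toReal_mono (measure_ne_top _ _) key
  rw [ENNReal.toReal_mul, ENNReal.toReal_ofReal hc] at this
  exact this

end Pool.Agent.Helper95.Dom
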