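import Pool.Agent.Helper95.DomDefs

/-!
Combinatorial reduction: dominance in terms of multiplicities, and the monotonicity maps.
-/

namespace Pool.Agent.Helper95.Dom

open Finset

/-! ### Sorted lists -/

theorem take_sum_le (l : List ℕ) (k t : ℕ) :
    (l.take k).sum ≤ k * t + (l.map (fun a => a - t)).sum := by
  induction l generalizing k with
  | nil => simp
  | cons a l ih =>
    cases k with
    | zero => simp
    | succ k =>
      simp only [List.take_succ_cons, List.sum_cons, List.map_cons]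
      have := ih k
      have h2 : a ≤ t + (a - t) := by omega
      have h3 : (k + 1) * t = k * t + t := by ring
      omega

theorem exists_take_ge (l : List ℕ) (hl : l.Pairwise (· ≥ ·)) (t : ℕ) :
    ∃ k, k * t + (l.map (fun a => a - t)).sum ≤ (l.take k).sum := by
  induction l with
  | nil => exact ⟨0, by simp⟩
  | cons a l ih =>
    rw [List.pairwise_cons] at hl
    by_cases h : t ≤ a
    · obtain ⟨k, hk⟩ := ih hl.2
      refine ⟨k + 1, ?_⟩
      simp only [List.take_succ_cons, List.sum_cons, List.map_cons]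
      have h3 : (k + 1) * t = k * t + t := by ring
      omega
    · refine ⟨0, ?_⟩
      simp only [zero_mul, List.take_zero, List.sum_nil, zero_add, Nat.le_zero, List.sum_eq_zero_iff,
        List.mem_map, forall_exists_index, and_imp]
      rintro _ b hb rfl
      rcases List.mem_cons.1 hb with rfl | hb
      · omega
      · have := hl.1 b hb
        omega

theorem exists_t_le (l : List ℕ) (hl : l.Pairwise (· ≥ ·)) (k : ℕ) :
    ∃ t, k * t + (l.map (fun a => a - t)).sum ≤ (l.take k).sum := by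
  induction l generalizing k with
  | nil => exact ⟨0, by simp⟩
  | cons a l ih =>
    rw [List.pairwise_cons] at hl
    cases k with
    | zero =>
      refine ⟨a, ?_⟩
      simp only [zero_mul, List.take_zero, List.sum_nil, zero_add, Nat.le_zero, List.sum_eq_zero_iff,
        List.mem_map, forall_exists_index, and_imp]
      rintro _ b hb rfl
      rcases List.mem_cons.1 hb with rfl | hb
      · omega
      · have := hl.1 b hb
        omega
    | succ k =>
      obtain ⟨t, ht⟩ := ih hl.2 k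
      by_cases hta : t ≤ a
      · refine ⟨t, ?_⟩
        simp only [List.take_succ_cons, List.sum_cons, List.map_cons]
        have h3 : (k + 1) * t = k * t + t := by ring
        omega
      · -- replace t by a
        refine ⟨a, ?_⟩
        simp only [List.take_succ_cons, List.sum_cons, List.map_cons, Nat.sub_self, zero_add]
        have h3 : (k + 1) * a = k * a + a := by ring
        have h4 : (l.map (fun b => b - a)).sum = 0 := by
          simp only [List.sum_eq_zero_iff, List.mem_map, forall_exists_index, and_imp]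
          rintro _ b hb rfl
          have := hl.1 b hb
          omega
        have h5 : k * a ≤ k * t := Nat.mul_le_mul_left _ (by omega)
        omega

/-- `tailSum p t = ∑ (part - t)⁺`. -/
def tailSum {n : ℕ} (p : n.Partition) (t : ℕ) : ℕ := (p.parts.map (fun a => a - t)).sum

theorem tailSum_eq {n : ℕ} (p : n.Partition) (t : ℕ) :
    tailSum p t = ((p.parts.sort (· ≥ ·)).map (fun a => a - t)).sum := by
  unfold tailSum
  conv_lhs => rw [← Multiset.sort_eq p.parts (· ≥ ·)]
  rw [Multiset.map_coe, Multiset.sum_coe]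

theorem dominates_iff {n : ℕ} (l m : n.Partition) :
    Dominates l m ↔ ∀ t, tailSum m t ≤ tailSum l t := by
  constructor
  · intro h t
    rw [tailSum_eq, tailSum_eq]
    obtain ⟨k, hk⟩ := exists_take_ge (m.parts.sort (· ≥ ·)) (Multiset.pairwise_sort _ _) t
    have h1 := h k
    have h2 := take_sum_le (l.parts.sort (· ≥ ·)) k t
    omega
  · intro h k
    obtain ⟨t, ht⟩ := exists_t_le (l.parts.sort (· ≥ ·)) (Multiset.pairwise_sort _ _) k
    have h1 := h t
    rw [tailSum_eq, tailSum_eq] at h1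
    have h2 := take_sum_le (m.parts.sort (· ≥ ·)) k t
    omega

theorem tailSum_zero {n : ℕ} (p : n.Partition) : tailSum p 0 = n := by
  simp [tailSum, p.parts_sum]

/-! ### Multiplicity vectors -/

/-- Multiplicity vectors with parts of size at most `S`. -/
abbrev Cf (S : ℕ) := (↥(Finset.Icc 1 S)) → ℕ

/-- `∑ (s - t)⁺ m_s`. -/
def At {S : ℕ} (t : ℕ) (m : Cf S) : ℕ := ∑ s : ↥(Finset.Icc 1 S), (s.1 - t) * m s

theorem At_add {S : ℕ} (t : ℕ) (m m' : Cf S) : At t (m + m') = At t m + At t m' := by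
  simp only [At, Pi.add_apply, mul_add, Finset.sum_add_distrib]

/-- `k` parts equal to one. -/
def ones (S : ℕ) (hS : 1 ≤ S) (k : ℕ) : Cf S := Pi.single ⟨1, Finset.mem_Icc.2 ⟨le_rfl, hS⟩⟩ k

theorem At_ones {S : ℕ} (hS : 1 ≤ S) (t k : ℕ) : At t (ones S hS k) = (1 - t) * k := by
  unfold At ones
  rw [Finset.sum_eq_single ⟨1, Finset.mem_Icc.2 ⟨le_rfl, hS⟩⟩]
  · simp
  · intro b _ hb
    simp [hb]
  · simp

theorem At_zero_ones {S : ℕ} (hS : 1 ≤ S) (k : ℕ) : At 0 (ones S hS k) = k := by
  rw [At_ones]; simp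

theorem At_pos_ones {S : ℕ} (hS : 1 ≤ S) (t k : ℕ) (ht : 1 ≤ t) : At t (ones S hS k) = 0 := by
  rw [At_ones, Nat.sub_eq_zero_of_le ht, zero_mul]

theorem coord_le {S : ℕ} (m : Cf S) (s : ↥(Finset.Icc 1 S)) : m s ≤ At 0 m := by
  unfold At
  have h1 : (s.1 - 0) * m s ≤ ∑ s : ↥(Finset.Icc 1 S), (s.1 - 0) * m s :=
    Finset.single_le_sum (f := fun s : ↥(Finset.Icc 1 S) => (s.1 - 0) * m s)
      (fun _ _ => Nat.zero_le _) (Finset.mem_univ s)
  have h2 : 1 ≤ s.1 := (Finset.mem_Icc.1 s.2).1
  have h3 : m s ≤ (s.1 - 0) * m s := by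
    rw [Nat.sub_zero]; exact Nat.le_mul_of_pos_left _ h2
  exact h3.trans h1

theorem finite_size_le (S n : ℕ) : {m : Cf S | At 0 m ≤ n}.Finite := by
  apply Set.Finite.subset (Set.Finite.pi' (t := fun _ : ↥(Finset.Icc 1 S) => {k : ℕ | k ≤ n})
    (fun _ => Set.finite_le_nat n))
  intro m hm s
  exact (coord_le m s).trans hm

/-- multiplicity vector of a partition. -/
def toCf (S : ℕ) {n : ℕ} (p : n.Partition) : Cf S := fun s => p.parts.count s.1

theorem At_toCf (S : ℕ) {n : ℕ} (p : n.Partition) (hn : n ≤ S) (t : ℕ) :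
    At t (toCf S p) = tailSum p t := by
  classical
  unfold At toCf tailSum
  rw [Finset.sum_multiset_map_count]
  have h1 : ∑ s : ↥(Finset.Icc 1 S), (s.1 - t) * p.parts.count s.1
      = ∑ s ∈ Finset.Icc 1 S, (s - t) * p.parts.count s :=
    Finset.sum_coe_sort (Finset.Icc 1 S) (fun s => (s - t) * p.parts.count s)
  rw [h1]
  symm
  have h2 : p.parts.toFinset ⊆ Finset.Icc 1 S := by
    intro a ha
    rw [Multiset.mem_toFinset] at ha
    rw [Finset.mem_Icc]
    refine ⟨p.parts_pos ha, ?_⟩
    have := Multiset.single_le_sum (fun x _ => Nat.zero_le x) a ha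
    rw [p.parts_sum] at this
    exact this.trans hn
  rw [Finset.sum_subset h2]
  · apply Finset.sum_congr rfl
    intro s _
    rw [smul_eq_mul, mul_comm]
  · intro s _ hs
    rw [Multiset.mem_toFinset] at hs
    rw [Multiset.count_eq_zero_of_notMem hs]
    simp

theorem toCf_injective (S : ℕ) {n : ℕ} (hn : n ≤ S) :
    Function.Injective (toCf S : n.Partition → Cf S) := by
  classical
  intro p q h
  ext1
  ext a
  by_cases ha : a ∈ Finset.Icc 1 S
  · exact congrFun h ⟨a, ha⟩
  · have key : ∀ p : n.Partition, p.parts.count a = 0 := by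
      intro p
      apply Multiset.count_eq_zero_of_notMem
      intro hm
      apply ha
      rw [Finset.mem_Icc]
      refine ⟨p.parts_pos hm, ?_⟩
      have := Multiset.single_le_sum (fun x _ => Nat.zero_le x) a hm
      rw [p.parts_sum] at this
      exact this.trans hn
    rw [key p, key q]

theorem exists_toCf (S : ℕ) {n : ℕ} (m : Cf S) (hm : At 0 m = n) :
    ∃ p : n.Partition, toCf S p = m := by
  classical
  let M : Multiset ℕ := ∑ s : ↥(Finset.Icc 1 S), Multiset.replicate (m s) s.1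
  have hpos : ∀ i ∈ M, 0 < i := by
    intro i hi
    rw [Multiset.mem_sum] at hi
    obtain ⟨s, _, hs⟩ := hi
    rw [Multiset.eq_of_mem_replicate hs]
    exact (Finset.mem_Icc.1 s.2).1
  have hsum : M.sum = n := by
    rw [← hm]
    have : M.sum = ∑ s : ↥(Finset.Icc 1 S), (Multiset.replicate (m s) s.1).sum := by
      show Multiset.sumAddMonoidHom _ = _
      rw [map_sum]
      rfl
    rw [this]
    unfold At
    apply Finset.sum_congr rfl
    intro s _
    rw [Multiset.sum_replicate, smul_eq_mul, Nat.sub_zero, mul_comm]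
  refine ⟨⟨M, fun {i} hi => hpos i hi, hsum⟩, ?_⟩
  funext s
  show M.count s.1 = m s
  have : M.count s.1 = ∑ u : ↥(Finset.Icc 1 S), (Multiset.replicate (m u) u.1).count s.1 :=
    Multiset.count_sum'
  rw [this, Finset.sum_eq_single s]
  · simp
  · intro b _ hb
    rw [Multiset.count_replicate, if_neg]
    intro h
    exact hb (Subtype.ext h)
  · simp

/-- number of multiplicity vectors of size `n`. -/
noncomputable def pc (S n : ℕ) : ℕ := Nat.card {m : Cf S // At 0 m = n}

theorem card_partition (S : ℕ) {n : ℕ} (hn : n ≤ S) : Nat.card n.Partition = pc S n := by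
  unfold pc
  apply Nat.card_congr
  refine Equiv.ofBijective
    (fun p : n.Partition => (⟨toCf S p, by rw [At_toCf S p hn, tailSum_zero]⟩ :
      {m : Cf S // At 0 m = n})) ⟨?_, ?_⟩
  · intro p q h
    exact toCf_injective S hn (congrArg Subtype.val h)
  · rintro ⟨m, hm⟩
    obtain ⟨p, hp⟩ := exists_toCf S m hm
    exact ⟨p, Subtype.ext hp⟩

/-- pairs of multiplicity vectors of size `n`, the second being dominated by the first. -/
def Cset (S n : ℕ) : Set (Cf S × Cf S) :=
  {p | At 0 p.1 = n ∧ At 0 p.2 = n ∧ ∀ t, 1 ≤ t → At t p.2 ≤ At t p.1}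

/-- the relaxed set. -/
def Qset (S n W : ℕ) : Set (Cf S × Cf S) :=
  {p | n ≤ At 0 p.1 ∧ At 0 p.1 ≤ n + W ∧ At 0 p.2 ≤ At 0 p.1 ∧ At 0 p.1 ≤ At 0 p.2 + W ∧
    ∀ t, 1 ≤ t → At t p.2 ≤ At t p.1}

theorem finite_Qset (S n W : ℕ) : (Qset S n W).Finite := by
  apply ((finite_size_le S (n + W)).prod (finite_size_le S (n + W))).subset
  rintro ⟨m, m'⟩ ⟨_, h2, h3, _, _⟩
  exact ⟨h2, h3.trans h2⟩

theorem finite_Cset (S n : ℕ) : (Cset S n).Finite := by
  apply ((finite_size_le S n).prod (finite_size_le S n)).subset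
  rintro ⟨m, m'⟩ ⟨h1, h2, _⟩
  exact ⟨h1.le, h2.le⟩

theorem cardC_le (S : ℕ) {n : ℕ} (hn : n ≤ S) : (Cset S n).ncard ≤ comparablePairs n := by
  classical
  unfold comparablePairs
  rw [← Nat.card_coe_set_eq]
  have e : ∀ c : ↥(Cset S n), ∃ pq : n.Partition × n.Partition,
      (toCf S pq.1, toCf S pq.2) = c.1 := by
    rintro ⟨⟨a, b⟩, ha, hb, _⟩
    obtain ⟨p, hp⟩ := exists_toCf S a ha
    obtain ⟨q, hq⟩ := exists_toCf S b hb
    exact ⟨(p, q), by rw [hp, hq]⟩
  choose f hf using e
  refine Nat.card_le_card_of_injective (fun c => ⟨f c, ?_⟩) ?_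
  · left
    rw [dominates_iff]
    intro t
    rw [← At_toCf S _ hn, ← At_toCf S _ hn]
    have h1 : toCf S (f c).1 = c.1.1 := congrArg Prod.fst (hf c)
    have h2 : toCf S (f c).2 = c.1.2 := congrArg Prod.snd (hf c)
    rw [h1, h2]
    rcases Nat.eq_zero_or_pos t with rfl | ht
    · rw [c.2.1, c.2.2.1]
    · exact c.2.2.2 t ht
  · intro c d h
    have h1 : f c = f d := congrArg Subtype.val h
    apply Subtype.ext
    rw [← hf c, ← hf d, h1]

theorem comparable_le (S : ℕ) {n : ℕ} (hn : n ≤ S) : comparablePairs n ≤ 2 * (Cset S n).ncard := by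
  classical
  unfold comparablePairs
  have h1 : Nat.card {p : n.Partition × n.Partition // Dominates p.1 p.2}
      ≤ (Cset S n).ncard := by
    rw [← Nat.card_coe_set_eq]
    have := (finite_Cset S n).to_subtype
    refine Nat.card_le_card_of_injective
      (fun p => (⟨(toCf S p.1.1, toCf S p.1.2), ?_, ?_, ?_⟩ : ↥(Cset S n))) ?_
    · show At 0 (toCf S p.1.1) = n
      rw [At_toCf S _ hn, tailSum_zero]
    · show At 0 (toCf S p.1.2) = n
      rw [At_toCf S _ hn, tailSum_zero]
    · intro t _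
      show At t (toCf S p.1.2) ≤ At t (toCf S p.1.1)
      rw [At_toCf S _ hn, At_toCf S _ hn]
      exact (dominates_iff _ _).1 p.2 t
    · intro p q h
      have h2 : (toCf S p.1.1, toCf S p.1.2) = (toCf S q.1.1, toCf S q.1.2) :=
        congrArg Subtype.val h
      have h3 := toCf_injective S hn (congrArg Prod.fst h2)
      have h4 := toCf_injective S hn (congrArg Prod.snd h2)
      apply Subtype.ext
      exact Prod.ext h3 h4
  have h2 : Nat.card {p : n.Partition × n.Partition // Dominates p.2 p.1}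
      ≤ Nat.card {p : n.Partition × n.Partition // Dominates p.1 p.2} := by
    refine Nat.card_le_card_of_injective (fun p => ⟨(p.1.2, p.1.1), p.2⟩) ?_
    intro p q h
    have h2 : (p.1.2, p.1.1) = (q.1.2, q.1.1) := congrArg Subtype.val h
    apply Subtype.ext
    exact Prod.ext (congrArg Prod.snd h2) (congrArg Prod.fst h2)
  have h3 : Nat.card {p : n.Partition × n.Partition // Dominates p.1 p.2 ∨ Dominates p.2 p.1}
      ≤ Nat.card {p : n.Partition × n.Partition // Dominates p.1 p.2}
        + Nat.card {p : n.Partition × n.Partition // Dominates p.2 p.1} := by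
    rw [Nat.card_eq_fintype_card, Nat.card_eq_fintype_card, Nat.card_eq_fintype_card]
    exact Fintype.card_subtype_or _ _
  omega

/-! ### The monotonicity maps -/

theorem add_ones_injective {S : ℕ} (hS : 1 ≤ S) {a b : ℕ} {m m' : Cf S}
    (hab : a = b) (h : m + ones S hS a = m' + ones S hS b) : m = m' := by
  subst hab
  exact add_right_cancel h

theorem C_up (S n W : ℕ) (hS : 1 ≤ S) :
    (W + 1) ^ 2 * (Cset S n).ncard ≤ (Qset S (n + W) W).ncard := by
  classical
  rw [← Nat.card_coe_set_eq, ← Nat.card_coe_set_eq]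
  have hfin := (finite_Qset S (n + W) W).to_subtype
  have hfin2 := (finite_Cset S n).to_subtype
  have e : (W + 1) ^ 2 * Nat.card ↥(Cset S n)
      = Nat.card ((Fin (W + 1) × Fin (W + 1)) × ↥(Cset S n)) := by
    rw [Nat.card_prod, Nat.card_prod, Nat.card_fin]
    ring
  rw [e]
  refine Nat.card_le_card_of_injective
    (fun z => (⟨(z.2.1.1 + ones S hS (z.1.1 + W), z.2.1.2 + ones S hS (z.1.1 + W - z.1.2)),
      ?_⟩ : ↥(Qset S (n + W) W))) ?_
  · have hi := z.1.1.2
    have hj := z.1.2.2
    have h1 : At 0 z.2.1.1 = n := z.2.2.1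
    have h2 : At 0 z.2.1.2 = n := z.2.2.2.1
    refine ⟨?_, ?_, ?_, ?_, ?_⟩
    · show n + W ≤ At 0 (z.2.1.1 + ones S hS (z.1.1 + W))
      rw [At_add, At_zero_ones]; omega
    · show At 0 (z.2.1.1 + ones S hS (z.1.1 + W)) ≤ n + W + W
      rw [At_add, At_zero_ones]; omega
    · show At 0 (z.2.1.2 + ones S hS (z.1.1 + W - z.1.2)) ≤ At 0 (z.2.1.1 + ones S hS (z.1.1 + W))
      rw [At_add, At_zero_ones, At_add, At_zero_ones]; omega
    · show At 0 (z.2.1.1 + ones S hS (z.1.1 + W))
        ≤ At 0 (z.2.1.2 + ones S hS (z.1.1 + W - z.1.2)) + W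
      rw [At_add, At_zero_ones, At_add, At_zero_ones]; omega
    · intro t ht
      show At t (z.2.1.2 + ones S hS (z.1.1 + W - z.1.2)) ≤ At t (z.2.1.1 + ones S hS (z.1.1 + W))
      rw [At_add, At_pos_ones hS _ _ ht, At_add, At_pos_ones hS _ _ ht]
      exact z.2.2.2.2 t ht
  · rintro ⟨⟨i, j⟩, ⟨⟨a, b⟩, hab⟩⟩ ⟨⟨i', j'⟩, ⟨⟨a', b'⟩, hab'⟩⟩ h
    have h0 : (a + ones S hS (i + W), b + ones S hS (i + W - j))
        = (a' + ones S hS (i' + W), b' + ones S hS (i' + W - j')) := congrArg Subtype.val h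
    have h1 : a + ones S hS (i + W) = a' + ones S hS (i' + W) := congrArg Prod.fst h0
    have h2 : b + ones S hS (i + W - j) = b' + ones S hS (i' + W - j') := congrArg Prod.snd h0
    have s1 := congrArg (At 0) h1
    have s2 := congrArg (At 0) h2
    rw [At_add, At_add, At_zero_ones, At_zero_ones] at s1 s2
    have e1 : At 0 a = n := hab.1
    have e2 : At 0 b = n := hab.2.1
    have e3 : At 0 a' = n := hab'.1
    have e4 : At 0 b' = n := hab'.2.1
    have hj := j.2
    have hj' := j'.2
    have hii : (i : ℕ) = i' := by omega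
    have hjj : (j : ℕ) = j' := by omega
    have ha : a = a' := add_ones_injective hS (by omega) h1
    have hb : b = b' := add_ones_injective hS (by omega) h2
    subst ha hb
    have hi2 : i = i' := Fin.ext hii
    have hj2 : j = j' := Fin.ext hjj
    subst hi2 hj2
    rfl

theorem C_low (S n W : ℕ) (hS : 1 ≤ S) (hn : W ≤ n) :
    (Qset S (n - W) W).ncard ≤ (W + 1) ^ 2 * (Cset S n).ncard := by
  classical
  rw [← Nat.card_coe_set_eq, ← Nat.card_coe_set_eq]
  have hfin := (finite_Qset S (n - W) W).to_subtype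
  have hfin2 := (finite_Cset S n).to_subtype
  have e : (W + 1) ^ 2 * Nat.card ↥(Cset S n)
      = Nat.card ((Fin (W + 1) × Fin (W + 1)) × ↥(Cset S n)) := by
    rw [Nat.card_prod, Nat.card_prod, Nat.card_fin]
    ring
  rw [e]
  have bd : ∀ z : ↥(Qset S (n - W) W), At 0 z.1.1 ≤ n ∧ n - At 0 z.1.1 ≤ W ∧
      At 0 z.1.2 ≤ At 0 z.1.1 ∧ At 0 z.1.1 - At 0 z.1.2 ≤ W := by
    rintro ⟨⟨a, b⟩, h1, h2, h3, h4, h5⟩
    dsimp only at h1 h2 h3 h4 ⊢
    omega
  refine Nat.card_le_card_of_injective
    (fun z => (((⟨n - At 0 z.1.1, by have := bd z; omega⟩ : Fin (W + 1)),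
      (⟨At 0 z.1.1 - At 0 z.1.2, by have := bd z; omega⟩ : Fin (W + 1))),
      (⟨(z.1.1 + ones S hS (n - At 0 z.1.1), z.1.2 + ones S hS (n - At 0 z.1.2)), ?_⟩ :
        ↥(Cset S n)))) ?_
  · have hb := bd z
    refine ⟨?_, ?_, ?_⟩
    · show At 0 (z.1.1 + ones S hS (n - At 0 z.1.1)) = n
      rw [At_add, At_zero_ones]; omega
    · show At 0 (z.1.2 + ones S hS (n - At 0 z.1.2)) = n
      rw [At_add, At_zero_ones]; omega
    · intro t ht
      show At t (z.1.2 + ones S hS (n - At 0 z.1.2)) ≤ At t (z.1.1 + ones S hS (n - At 0 z.1.1))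
      rw [At_add, At_pos_ones hS _ _ ht, At_add, At_pos_ones hS _ _ ht]
      exact z.2.2.2.2.2 t ht
  · intro z z' h
    have hb := bd z
    have hb' := bd z'
    have h1 : n - At 0 z.1.1 = n - At 0 z'.1.1 := congrArg (fun x => (x.1.1 : ℕ)) h
    have h2 : At 0 z.1.1 - At 0 z.1.2 = At 0 z'.1.1 - At 0 z'.1.2 :=
      congrArg (fun x => (x.1.2 : ℕ)) h
    have h3 : z.1.1 + ones S hS (n - At 0 z.1.1) = z'.1.1 + ones S hS (n - At 0 z'.1.1) :=
      congrArg (fun x => x.2.1.1) h
    have h4 : z.1.2 + ones S hS (n - At 0 z.1.2) = z'.1.2 + ones S hS (n - At 0 z'.1.2) :=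
      congrArg (fun x => x.2.1.2) h
    apply Subtype.ext
    apply Prod.ext
    · exact add_ones_injective hS h1 h3
    · exact add_ones_injective hS (by omega) h4

/-- vectors with size in a window. -/
def Wset (S n W : ℕ) : Set (Cf S) := {m | n ≤ At 0 m ∧ At 0 m ≤ n + W}

theorem finite_Wset (S n W : ℕ) : (Wset S n W).Finite :=
  (finite_size_le S (n + W)).subset fun _ h => h.2

theorem p_up (S n W : ℕ) (hS : 1 ≤ S) : (W + 1) * pc S n ≤ (Wset S n W).ncard := by
  classical
  unfold pc
  rw [← Nat.card_coe_set_eq]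
  have hfin := (finite_Wset S n W).to_subtype
  have e : (W + 1) * Nat.card {m : Cf S // At 0 m = n}
      = Nat.card (Fin (W + 1) × {m : Cf S // At 0 m = n}) := by
    rw [Nat.card_prod, Nat.card_fin]
  rw [e]
  refine Nat.card_le_card_of_injective
    (fun z => (⟨z.2.1 + ones S hS z.1, ?_, ?_⟩ : ↥(Wset S n W))) ?_
  · rw [At_add, At_zero_ones, z.2.2]; omega
  · rw [At_add, At_zero_ones, z.2.2]
    have := z.1.2
    omega
  · rintro ⟨i, ⟨a, ha⟩⟩ ⟨i', ⟨a', ha'⟩⟩ h
    have h0 : a + ones S hS i = a' + ones S hS i' := congrArg Subtype.val h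
    have s1 := congrArg (At 0) h0
    rw [At_add, At_add, At_zero_ones, At_zero_ones, ha, ha'] at s1
    have hii : (i : ℕ) = i' := by omega
    have haa : a = a' := add_ones_injective hS hii h0
    subst haa
    have hi2 : i = i' := Fin.ext hii
    subst hi2
    rfl

theorem p_low (S n W : ℕ) (hS : 1 ≤ S) (hn : W ≤ n) :
    (Wset S (n - W) W).ncard ≤ (W + 1) * pc S n := by
  classical
  unfold pc
  rw [← Nat.card_coe_set_eq]
  have hfin : Finite {m : Cf S // At 0 m = n} :=
    ((finite_size_le S n).subset (fun m (hm : At 0 m = n) => hm.le)).to_subtype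
  have e : (W + 1) * Nat.card {m : Cf S // At 0 m = n}
      = Nat.card (Fin (W + 1) × {m : Cf S // At 0 m = n}) := by
    rw [Nat.card_prod, Nat.card_fin]
  rw [e]
  have bd : ∀ z : ↥(Wset S (n - W) W), At 0 z.1 ≤ n ∧ n - At 0 z.1 ≤ W := by
    rintro ⟨a, h1, h2⟩
    dsimp only
    omega
  refine Nat.card_le_card_of_injective
    (fun z => ((⟨n - At 0 z.1, by have := bd z; omega⟩ : Fin (W + 1)),
      (⟨z.1 + ones S hS (n - At 0 z.1), ?_⟩ : {m : Cf S // At 0 m = n}))) ?_
  · have := bd z
    rw [At_add, At_zero_ones]; omega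
  · intro z z' h
    have h1 : n - At 0 z.1 = n - At 0 z'.1 := congrArg (fun x => (x.1 : ℕ)) h
    have h3 : z.1 + ones S hS (n - At 0 z.1) = z'.1 + ones S hS (n - At 0 z'.1) :=
      congrArg (fun x => x.2.1) h
    exact Subtype.ext (add_ones_injective hS h1 h3)

end Pool.Agent.Helper95.Dom
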