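import Pool.Agent.Helper95.DomMesh
import Pool.Agent.Helper95.DomComb

/-!
Passage between partitions and the product measure.
-/

namespace Pool.Agent.Helper95.Dom

open MeasureTheory ProbabilityTheory Filter
open scoped Topology ENNReal

/-- size of the first configuration restricted to `I`. -/
def wa (I : Finset ℕ) (ω : Om) : ℕ := ∑ s ∈ I, s * (ω s).1

/-- size of the second configuration restricted to `I`. -/
def wb (I : Finset ℕ) (ω : Om) : ℕ := ∑ s ∈ I, s * (ω s).2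

/-- first multiplicity vector. -/
def cf1 (S : ℕ) (ω : Om) : Cf S := fun s => (ω s.1).1

/-- second multiplicity vector. -/
def cf2 (S : ℕ) (ω : Om) : Cf S := fun s => (ω s.1).2

theorem wa_dep (I : Finset ℕ) (ω ω' : Om) (h : ∀ s ∈ I, ω s = ω' s) : wa I ω = wa I ω' :=
  Finset.sum_congr rfl fun s hs => by rw [h s hs]

theorem wb_dep (I : Finset ℕ) (ω ω' : Om) (h : ∀ s ∈ I, ω s = ω' s) : wb I ω = wb I ω' :=
  Finset.sum_congr rfl fun s hs => by rw [h s hs]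

theorem At_cf1 (S : ℕ) (ω : Om) : At 0 (cf1 S ω) = wa (Finset.Icc 1 S) ω := by
  unfold At cf1 wa
  simp only [Nat.sub_zero]
  exact Finset.sum_coe_sort (Finset.Icc 1 S) (fun s => s * (ω s).1)

theorem At_cf2 (S : ℕ) (ω : Om) : At 0 (cf2 S ω) = wb (Finset.Icc 1 S) ω := by
  unfold At cf2 wb
  simp only [Nat.sub_zero]
  exact Finset.sum_coe_sort (Finset.Icc 1 S) (fun s => s * (ω s).2)

theorem DA_eq_At (S t : ℕ) (ω : Om) :
    DA S t ω = ((At t (cf1 S ω) : ℕ) : ℝ) - ((At t (cf2 S ω) : ℕ) : ℝ) := by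
  unfold At cf1 cf2 DA
  rw [Finset.sum_coe_sort (Finset.Icc 1 S) (fun s => (s - t) * (ω s).1),
    Finset.sum_coe_sort (Finset.Icc 1 S) (fun s => (s - t) * (ω s).2)]
  push_cast
  rw [← Finset.sum_sub_distrib]
  apply Finset.sum_congr rfl
  intro s _
  unfold xs ma mb
  ring

theorem DA_nonneg_iff (S t : ℕ) (ω : Om) :
    0 ≤ DA S t ω ↔ At t (cf2 S ω) ≤ At t (cf1 S ω) := by
  rw [DA_eq_At, sub_nonneg]
  exact_mod_cast Iff.rfl

theorem PP_pi (μ μ' : ℕ → ℝ) (I : Finset ℕ) (t : ℕ → Set (ℕ × ℕ)) :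
    (PP μ μ').real {ω | ∀ s ∈ I, ω s ∈ t s}
      = ∏ s ∈ I, ((geo (μ s)).prod (geo (μ' s))).real (t s) := by
  have h : ({ω | ∀ s ∈ I, ω s ∈ t s} : Set Om) = Set.pi (I : Set ℕ) t := by
    ext ω; simp [Set.mem_pi]
  rw [h, measureReal_def]
  unfold PP
  rw [Measure.infinitePi_pi _ (fun s _ => (Set.to_countable (t s)).measurableSet),
    ENNReal.toReal_prod]
  rfl

theorem real_fst (m m' : ℝ) (k : ℕ) :
    ((geo m).prod (geo m')).real {p | p.1 = k} = gw m k := by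
  have h : ({p | p.1 = k} : Set (ℕ × ℕ)) = {k} ×ˢ Set.univ := by
    ext p; simp
  rw [h, measureReal_prod_prod, probReal_univ, mul_one, measureReal_def, geo_singleton,
    ENNReal.toReal_ofReal (gw_nonneg _ _)]

theorem real_pair (m m' : ℝ) (k k' : ℕ) :
    ((geo m).prod (geo m')).real {p | p.1 = k ∧ p.2 = k'} = gw m k * gw m' k' := by
  have h : ({p | p.1 = k ∧ p.2 = k'} : Set (ℕ × ℕ)) = {k} ×ˢ {k'} := by
    ext p; simp [Prod.ext_iff]
  rw [h, measureReal_prod_prod, measureReal_def, geo_singleton, measureReal_def, geo_singleton,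
    ENNReal.toReal_ofReal (gw_nonneg _ _), ENNReal.toReal_ofReal (gw_nonneg _ _)]

theorem gw_mu' {a : ℝ} (ha : 0 < a) {s : ℕ} (hs : 1 ≤ s) (k : ℕ) :
    gw (mu a s) k = (1 + mu a s)⁻¹ * Real.exp (-(((s * k : ℕ) : ℝ) / a)) := by
  have hs' : (0 : ℝ) < s := by exact_mod_cast hs
  have h := exp_sub_pos (div_pos hs' ha)
  have hr : mu a s / (1 + mu a s) = Real.exp (-((s : ℝ) / a)) := by
    unfold mu
    have h2 := (Real.exp_pos ((s : ℝ) / a)).ne'
    rw [Real.exp_neg]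
    field_simp
    ring
  rw [gw_eq (mu_nonneg ha s), hr, ← Real.exp_nat_mul]
  congr 2
  push_cast
  ring

/-- partition function. -/
noncomputable def Zp (a : ℝ) (S : ℕ) : ℝ := ∏ s ∈ Finset.Icc 1 S, (1 + mu a s)

theorem Zp_pos {a : ℝ} (ha : 0 < a) (S : ℕ) : 0 < Zp a S :=
  Finset.prod_pos fun s _ => by have := mu_nonneg ha s; linarith

theorem prod_gw {a : ℝ} (ha : 0 < a) (S : ℕ) (m : Cf S) (mm : ℕ → ℕ)
    (hm : ∀ s : ↥(Finset.Icc 1 S), mm s.1 = m s) :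
    ∏ s ∈ Finset.Icc 1 S, gw (mu a s) (mm s) = (Zp a S)⁻¹ * Real.exp (-((At 0 m : ℕ) : ℝ) / a) := by
  have h1 : ∏ s ∈ Finset.Icc 1 S, gw (mu a s) (mm s)
      = ∏ s ∈ Finset.Icc 1 S, ((1 + mu a s)⁻¹ * Real.exp (-(((s * mm s : ℕ) : ℝ) / a))) := by
    apply Finset.prod_congr rfl
    intro s hs
    exact gw_mu' ha (Finset.mem_Icc.1 hs).1 _
  rw [h1, Finset.prod_mul_distrib, ← Real.exp_sum, Finset.prod_inv_distrib]
  congr 2
  have h2 : At 0 m = ∑ s ∈ Finset.Icc 1 S, s * mm s := by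
    unfold At
    rw [← Finset.sum_coe_sort (Finset.Icc 1 S) (fun s => s * mm s)]
    apply Finset.sum_congr rfl
    intro s _
    rw [hm s, Nat.sub_zero]
  rw [h2, Finset.sum_neg_distrib, neg_div]
  congr 1
  push_cast
  rw [Finset.sum_div]

theorem exists_ext (S : ℕ) (m : Cf S) : ∃ mm : ℕ → ℕ, ∀ s : ↥(Finset.Icc 1 S), mm s.1 = m s :=
  ⟨fun s => if h : s ∈ Finset.Icc 1 S then m ⟨s, h⟩ else 0, fun s => by simp [s.2]⟩

theorem conf1 {a : ℝ} (ha : 0 < a) (S : ℕ) (m : Cf S) :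
    (PA a).real {ω | cf1 S ω = m} = (Zp a S)⁻¹ * Real.exp (-((At 0 m : ℕ) : ℝ) / a) := by
  obtain ⟨mm, hmm⟩ := exists_ext S m
  have h : ({ω | cf1 S ω = m} : Set Om)
      = {ω | ∀ s ∈ Finset.Icc 1 S, ω s ∈ (fun s => ({p | p.1 = mm s} : Set (ℕ × ℕ))) s} := by
    ext ω
    constructor
    · intro hω s hs
      have h2 : cf1 S ω = m := hω
      have h3 := congrFun h2 ⟨s, hs⟩
      show (ω s).1 = mm s
      rw [hmm ⟨s, hs⟩, ← h3]
      rfl
    · intro hω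
      show cf1 S ω = m
      funext s
      have h3 : (ω s.1).1 = mm s.1 := hω s.1 s.2
      rw [← hmm s, ← h3]
      rfl
  unfold PA
  rw [h, PP_pi, ← prod_gw ha S m mm hmm]
  apply Finset.prod_congr rfl
  intro s _
  exact real_fst _ _ _

theorem conf2 {a : ℝ} (ha : 0 < a) (S : ℕ) (m m' : Cf S) :
    (PA a).real {ω | (cf1 S ω, cf2 S ω) = (m, m')}
      = ((Zp a S)⁻¹ * Real.exp (-((At 0 m : ℕ) : ℝ) / a))
        * ((Zp a S)⁻¹ * Real.exp (-((At 0 m' : ℕ) : ℝ) / a)) := by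
  obtain ⟨mm, hmm⟩ := exists_ext S m
  obtain ⟨mm', hmm'⟩ := exists_ext S m'
  have h : ({ω | (cf1 S ω, cf2 S ω) = (m, m')} : Set Om)
      = {ω | ∀ s ∈ Finset.Icc 1 S, ω s ∈ (fun s => ({p | p.1 = mm s ∧ p.2 = mm' s} : Set (ℕ × ℕ))) s} := by
    ext ω
    constructor
    · intro hω s hs
      have h2 : (cf1 S ω, cf2 S ω) = (m, m') := hω
      have h3 := congrFun (congrArg Prod.fst h2) ⟨s, hs⟩
      have h4 := congrFun (congrArg Prod.snd h2) ⟨s, hs⟩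
      show (ω s).1 = mm s ∧ (ω s).2 = mm' s
      rw [hmm ⟨s, hs⟩, hmm' ⟨s, hs⟩]
      exact ⟨h3, h4⟩
    · intro hω
      have hω' : ∀ s ∈ Finset.Icc 1 S, (ω s).1 = mm s ∧ (ω s).2 = mm' s := hω
      show (cf1 S ω, cf2 S ω) = (m, m')
      refine Prod.ext ?_ ?_
      · funext s
        have h3 := (hω' s.1 s.2).1
        show (ω s.1).1 = m s
        rw [h3, hmm s]
      · funext s
        have h3 := (hω' s.1 s.2).2
        show (ω s.1).2 = m' s
        rw [h3, hmm' s]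
  unfold PA
  rw [h, PP_pi, ← prod_gw ha S m mm hmm, ← prod_gw ha S m' mm' hmm', ← Finset.prod_mul_distrib]
  apply Finset.prod_congr rfl
  intro s _
  exact real_pair _ _ _ _

theorem sum_fibre {κ : Type*} (a : ℝ) (I : Finset ℕ) (v : Om → κ)
    (hv : ∀ ω ω' : Om, (∀ s ∈ I, ω s = ω' s) → v ω = v ω') {Q : Set κ} (hQ : Q.Finite) :
    (PA a).real {ω | v ω ∈ Q} = ∑ p ∈ hQ.toFinset, (PA a).real {ω | v ω = p} := by
  have h : ({ω | v ω ∈ Q} : Set Om) = ⋃ p ∈ hQ.toFinset, {ω | v ω = p} := by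
    ext ω
    simp
  rw [h, measureReal_biUnion_finset]
  · intro p _ q _ hpq
    rw [Function.onFun, Set.disjoint_left]
    intro ω h1 h2
    exact hpq (h1.symm.trans h2)
  · intro p _
    apply measSet_of_dep I
    intro ω ω' hh
    simp only [Set.mem_ofPred_eq, hv ω ω' hh]

theorem cf1_dep (S : ℕ) (ω ω' : Om) (h : ∀ s ∈ Finset.Icc 1 S, ω s = ω' s) :
    cf1 S ω = cf1 S ω' := by
  funext s
  unfold cf1
  rw [h s.1 s.2]

theorem cf2_dep (S : ℕ) (ω ω' : Om) (h : ∀ s ∈ Finset.Icc 1 S, ω s = ω' s) :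
    cf2 S ω = cf2 S ω' := by
  funext s
  unfold cf2
  rw [h s.1 s.2]

theorem Wset_prob {a : ℝ} (ha : 0 < a) (S n W : ℕ) :
    ((Wset S n W).ncard : ℝ) * ((Zp a S)⁻¹ * Real.exp (-((n : ℝ) + W) / a))
      ≤ (PA a).real {ω | n ≤ wa (Finset.Icc 1 S) ω ∧ wa (Finset.Icc 1 S) ω ≤ n + W}
    ∧ (PA a).real {ω | n ≤ wa (Finset.Icc 1 S) ω ∧ wa (Finset.Icc 1 S) ω ≤ n + W}
      ≤ ((Wset S n W).ncard : ℝ) * ((Zp a S)⁻¹ * Real.exp (-(n : ℝ) / a)) := by
  have h := sum_fibre a (Finset.Icc 1 S) (cf1 S) (cf1_dep S) (finite_Wset S n W)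
  have h2 : ({ω | cf1 S ω ∈ Wset S n W} : Set Om)
      = {ω | n ≤ wa (Finset.Icc 1 S) ω ∧ wa (Finset.Icc 1 S) ω ≤ n + W} := by
    ext ω
    simp only [Wset, Set.mem_ofPred_eq, At_cf1]
  rw [h2] at h
  rw [h, Set.ncard_eq_toFinset_card _ (finite_Wset S n W)]
  have hZ := inv_pos.2 (Zp_pos ha S)
  constructor
  · rw [← nsmul_eq_mul]
    apply Finset.card_nsmul_le_sum
    intro m hm
    rw [Set.Finite.mem_toFinset] at hm
    rw [conf1 ha]
    apply mul_le_mul_of_nonneg_left _ hZ.le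
    apply Real.exp_le_exp.2
    apply div_le_div_of_nonneg_right _ ha.le
    have : ((At 0 m : ℕ) : ℝ) ≤ n + W := by exact_mod_cast hm.2
    linarith
  · rw [← nsmul_eq_mul]
    apply Finset.sum_le_card_nsmul
    intro m hm
    rw [Set.Finite.mem_toFinset] at hm
    rw [conf1 ha]
    apply mul_le_mul_of_nonneg_left _ hZ.le
    apply Real.exp_le_exp.2
    apply div_le_div_of_nonneg_right _ ha.le
    have : (n : ℝ) ≤ ((At 0 m : ℕ) : ℝ) := by exact_mod_cast hm.1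
    linarith

/-- the relaxed comparability event. -/
def Qev (S n W : ℕ) : Set Om :=
  {ω | n ≤ wa (Finset.Icc 1 S) ω ∧ wa (Finset.Icc 1 S) ω ≤ n + W
    ∧ wb (Finset.Icc 1 S) ω ≤ wa (Finset.Icc 1 S) ω
    ∧ wa (Finset.Icc 1 S) ω ≤ wb (Finset.Icc 1 S) ω + W ∧ ∀ t, 1 ≤ t → 0 ≤ DA S t ω}

theorem Qset_prob {a : ℝ} (ha : 0 < a) (S n W : ℕ) :
    ((Qset S n W).ncard : ℝ) * ((Zp a S)⁻¹ ^ 2 * Real.exp (-(2 * (n : ℝ) + 2 * W) / a))
      ≤ (PA a).real (Qev S n W)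
    ∧ (PA a).real (Qev S n W)
      ≤ ((Qset S n W).ncard : ℝ) * ((Zp a S)⁻¹ ^ 2 * Real.exp (-(2 * (n : ℝ) - W) / a)) := by
  have h := sum_fibre a (Finset.Icc 1 S) (fun ω => (cf1 S ω, cf2 S ω))
    (fun ω ω' hh => by rw [cf1_dep S ω ω' hh, cf2_dep S ω ω' hh]) (finite_Qset S n W)
  have h2 : ({ω | (cf1 S ω, cf2 S ω) ∈ Qset S n W} : Set Om) = Qev S n W := by
    ext ω
    simp only [Qset, Qev, Set.mem_ofPred_eq, At_cf1, At_cf2, DA_nonneg_iff]
  rw [h2] at h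
  rw [h, Set.ncard_eq_toFinset_card _ (finite_Qset S n W)]
  have hZ := inv_pos.2 (Zp_pos ha S)
  have hval : ∀ m : Cf S × Cf S, (PA a).real {ω | (cf1 S ω, cf2 S ω) = m}
      = (Zp a S)⁻¹ ^ 2 * Real.exp ((-((At 0 m.1 : ℕ) : ℝ) - ((At 0 m.2 : ℕ) : ℝ)) / a) := by
    rintro ⟨m, m'⟩
    rw [conf2 ha]
    have : (-((At 0 m : ℕ) : ℝ) - ((At 0 m' : ℕ) : ℝ)) / a
        = -((At 0 m : ℕ) : ℝ) / a + -((At 0 m' : ℕ) : ℝ) / a := by ring
    simp only [this, Real.exp_add]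
    ring
  constructor
  · rw [← nsmul_eq_mul]
    apply Finset.card_nsmul_le_sum
    intro m hm
    rw [Set.Finite.mem_toFinset] at hm
    rw [hval]
    apply mul_le_mul_of_nonneg_left _ (by positivity)
    apply Real.exp_le_exp.2
    apply div_le_div_of_nonneg_right _ ha.le
    have h1 : ((At 0 m.1 : ℕ) : ℝ) ≤ n + W := by exact_mod_cast hm.2.1
    have h3 : ((At 0 m.2 : ℕ) : ℝ) ≤ At 0 m.1 := by exact_mod_cast hm.2.2.1
    linarith
  · rw [← nsmul_eq_mul]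
    apply Finset.sum_le_card_nsmul
    intro m hm
    rw [Set.Finite.mem_toFinset] at hm
    rw [hval]
    apply mul_le_mul_of_nonneg_left _ (by positivity)
    apply Real.exp_le_exp.2
    apply div_le_div_of_nonneg_right _ ha.le
    have h1 : (n : ℝ) ≤ ((At 0 m.1 : ℕ) : ℝ) := by exact_mod_cast hm.1
    have h3 : ((At 0 m.1 : ℕ) : ℝ) ≤ At 0 m.2 + W := by exact_mod_cast hm.2.2.2.1
    linarith

theorem r_upper {a : ℝ} (ha : 0 < a) {S n W : ℕ} (hS : 1 ≤ S) (hn : n ≤ S) (hW : W ≤ n) :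
    r n * (PA a).real {ω | n - W ≤ wa (Finset.Icc 1 S) ω ∧ wa (Finset.Icc 1 S) ω ≤ n - W + W} ^ 2
      ≤ 2 * Real.exp (6 * W / a) * (PA a).real (Qev S (n + W) W) := by
  have hZ := inv_pos.2 (Zp_pos ha S)
  have h1 := (Wset_prob ha S (n - W) W).2
  have h2 := (Qset_prob ha S (n + W) W).1
  have h3 := comparable_le S hn
  have h4 := C_up S n W hS
  have h5 := p_low S n W hS hW
  have h6 : (pc S n : ℝ) = (Nat.card n.Partition : ℝ) := by rw [card_partition S hn]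
  have hB : (0 : ℝ) < Nat.card n.Partition := by
    exact_mod_cast Nat.card_pos
  set B : ℝ := (Nat.card n.Partition : ℝ) with hBdef
  set Z := (Zp a S)⁻¹ with hZdef
  have h3' : (comparablePairs n : ℝ) ≤ 2 * ((Cset S n).ncard : ℝ) := by exact_mod_cast h3
  have h4' : ((W : ℝ) + 1) ^ 2 * ((Cset S n).ncard : ℝ) ≤ ((Qset S (n + W) W).ncard : ℝ) := by
    exact_mod_cast h4
  have h5' : ((Wset S (n - W) W).ncard : ℝ) ≤ ((W : ℝ) + 1) * B := by
    rw [← h6]; exact_mod_cast h5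
  have hnW : ((n - W : ℕ) : ℝ) = (n : ℝ) - W := by push_cast [Nat.cast_sub hW]; ring
  rw [hnW] at h1
  set p := (PA a).real {ω | n - W ≤ wa (Finset.Icc 1 S) ω ∧ wa (Finset.Icc 1 S) ω ≤ n - W + W} with hp
  have hp0 : 0 ≤ p := measureReal_nonneg
  have h7 : p ≤ ((W : ℝ) + 1) * B * (Z * Real.exp (-((n : ℝ) - W) / a)) :=
    h1.trans (mul_le_mul_of_nonneg_right h5' (by positivity))
  have h8 : p ^ 2 ≤ (((W : ℝ) + 1) * B * (Z * Real.exp (-((n : ℝ) - W) / a))) ^ 2 :=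
    pow_le_pow_left₀ hp0 h7 2
  have hr : r n ≤ 2 * ((Cset S n).ncard : ℝ) / B ^ 2 := by
    unfold r
    exact div_le_div_of_nonneg_right h3' (by positivity)
  have he : Real.exp (-((n : ℝ) - W) / a) ^ 2
      = Real.exp (6 * W / a) * Real.exp (-(2 * ((n + W : ℕ) : ℝ) + 2 * W) / a) := by
    rw [sq, ← Real.exp_add, ← Real.exp_add]
    congr 1
    push_cast
    ring
  calc r n * p ^ 2 ≤ 2 * ((Cset S n).ncard : ℝ) / B ^ 2
        * (((W : ℝ) + 1) * B * (Z * Real.exp (-((n : ℝ) - W) / a))) ^ 2 :=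
        mul_le_mul hr h8 (sq_nonneg _) (by positivity)
    _ = 2 * Real.exp (6 * W / a) * (((W : ℝ) + 1) ^ 2 * ((Cset S n).ncard : ℝ)
          * (Z ^ 2 * Real.exp (-(2 * ((n + W : ℕ) : ℝ) + 2 * W) / a))) := by
        have : 2 * ((Cset S n).ncard : ℝ) / B ^ 2
            * (((W : ℝ) + 1) * B * (Z * Real.exp (-((n : ℝ) - W) / a))) ^ 2
            = 2 * ((Cset S n).ncard : ℝ) * ((W : ℝ) + 1) ^ 2 * Z ^ 2
              * Real.exp (-((n : ℝ) - W) / a) ^ 2 := by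
          field_simp
        rw [this, he]
        ring
    _ ≤ 2 * Real.exp (6 * W / a) * (((Qset S (n + W) W).ncard : ℝ)
          * (Z ^ 2 * Real.exp (-(2 * ((n + W : ℕ) : ℝ) + 2 * W) / a))) := by
        apply mul_le_mul_of_nonneg_left _ (by positivity)
        exact mul_le_mul_of_nonneg_right h4' (by positivity)
    _ ≤ _ := mul_le_mul_of_nonneg_left h2 (by positivity)

theorem r_lower {a : ℝ} (ha : 0 < a) {S n W : ℕ} (hS : 1 ≤ S) (hn : n ≤ S) (hW : W ≤ n) :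
    (PA a).real (Qev S (n - W) W) ≤ Real.exp (5 * W / a) * (r n
      * (PA a).real {ω | n ≤ wa (Finset.Icc 1 S) ω ∧ wa (Finset.Icc 1 S) ω ≤ n + W} ^ 2) := by
  have hZ := inv_pos.2 (Zp_pos ha S)
  have h1 := (Wset_prob ha S n W).1
  have h2 := (Qset_prob ha S (n - W) W).2
  have h3 := cardC_le S hn
  have h4 := C_low S n W hS hW
  have h5 := p_up S n W hS
  have h6 : (pc S n : ℝ) = (Nat.card n.Partition : ℝ) := by rw [card_partition S hn]
  have hB : (0 : ℝ) < Nat.card n.Partition := by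
    exact_mod_cast Nat.card_pos
  set B : ℝ := (Nat.card n.Partition : ℝ) with hBdef
  set Z := (Zp a S)⁻¹ with hZdef
  have h3' : ((Cset S n).ncard : ℝ) ≤ (comparablePairs n : ℝ) := by exact_mod_cast h3
  have h4' : ((Qset S (n - W) W).ncard : ℝ) ≤ ((W : ℝ) + 1) ^ 2 * ((Cset S n).ncard : ℝ) := by
    exact_mod_cast h4
  have h5' : ((W : ℝ) + 1) * B ≤ ((Wset S n W).ncard : ℝ) := by
    rw [← h6]; exact_mod_cast h5
  have hnW : ((n - W : ℕ) : ℝ) = (n : ℝ) - W := by push_cast [Nat.cast_sub hW]; ring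
  rw [hnW] at h2
  set p := (PA a).real {ω | n ≤ wa (Finset.Icc 1 S) ω ∧ wa (Finset.Icc 1 S) ω ≤ n + W} with hp
  have hp0 : 0 ≤ p := measureReal_nonneg
  have h7 : ((W : ℝ) + 1) * B * (Z * Real.exp (-((n : ℝ) + W) / a)) ≤ p :=
    (mul_le_mul_of_nonneg_right h5' (by positivity)).trans h1
  have h8 : (((W : ℝ) + 1) * B * (Z * Real.exp (-((n : ℝ) + W) / a))) ^ 2 ≤ p ^ 2 :=
    pow_le_pow_left₀ (by positivity) h7 2
  have hr : ((Cset S n).ncard : ℝ) / B ^ 2 ≤ r n := by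
    unfold r
    exact div_le_div_of_nonneg_right h3' (by positivity)
  have he : Real.exp (-(2 * ((n : ℝ) - W) - W) / a)
      = Real.exp (5 * W / a) * Real.exp (-((n : ℝ) + W) / a) ^ 2 := by
    rw [sq, ← Real.exp_add, ← Real.exp_add]
    congr 1
    ring
  calc (PA a).real (Qev S (n - W) W)
      ≤ ((Qset S (n - W) W).ncard : ℝ) * (Z ^ 2 * Real.exp (-(2 * ((n : ℝ) - W) - W) / a)) := h2
    _ ≤ (((W : ℝ) + 1) ^ 2 * ((Cset S n).ncard : ℝ))
          * (Z ^ 2 * Real.exp (-(2 * ((n : ℝ) - W) - W) / a)) :=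
        mul_le_mul_of_nonneg_right h4' (by positivity)
    _ = Real.exp (5 * W / a) * (((Cset S n).ncard : ℝ) / B ^ 2
          * (((W : ℝ) + 1) * B * (Z * Real.exp (-((n : ℝ) + W) / a))) ^ 2) := by
        rw [he]
        field_simp
    _ ≤ _ := by
        apply mul_le_mul_of_nonneg_left _ (Real.exp_pos _).le
        exact mul_le_mul hr h8 (sq_nonneg _) ((by positivity : (0:ℝ) ≤ ((Cset S n).ncard : ℝ) / B ^ 2).trans hr)

end Pool.Agent.Helper95.Dom
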