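import Pool.Agent.Helper95.DomTail2

/-!
A maximal inequality for weighted sums of the centred multiplicities, under any product law.
-/

namespace Pool.Agent.Helper95.Dom

open MeasureTheory ProbabilityTheory Filter
open scoped Topology ENNReal

theorem mu_small' {a : ℝ} (ha : 0 < a) {s : ℕ} (hs : 2 * a ≤ s) : mu a s ≤ 0.3 := by
  have h1 := mu_le_exp ha (by linarith : a ≤ s)
  have h2 : (2 : ℝ) ≤ (s : ℝ) / a := by rwa [le_div_iff₀ ha]
  have h3 : Real.exp (-((s : ℝ) / a)) ≤ Real.exp (-2) := Real.exp_le_exp.2 (by linarith)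
  have h4 : Real.exp (-2) ≤ 0.15 := by
    have h5 : Real.exp (-2) = Real.exp (-1) * Real.exp (-1) := by rw [← Real.exp_add]; norm_num
    have h6 : Real.exp (-1) < 0.3678794412 := Real.exp_neg_one_lt_d9
    have h7 := Real.exp_pos (-1)
    rw [h5]
    norm_num at h6 ⊢
    nlinarith
  norm_num at h1 h4 ⊢
  linarith

theorem kolm_gen {μ μ' : ℕ → ℝ} (hμ : ∀ s, 0 ≤ μ s) (hμ' : ∀ s, 0 ≤ μ' s) (c c' : ℕ → ℝ)
    {T t0 : ℕ} (hT : t0 ≤ T) {x : ℝ} (hx : 0 < x) :
    (PP μ μ').real {ω | ∃ t, t0 ≤ t ∧ t ≤ T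
      ∧ x ≤ |∑ s ∈ Finset.Ioc t T, (c s * (ma s ω - μ s) + c' s * (mb s ω - μ' s))|}
      ≤ (∑ s ∈ Finset.Ioc t0 T, (2 * (c s) ^ 2 * (μ s * (1 + μ s))
        + 2 * (c' s) ^ 2 * (μ' s * (1 + μ' s)))) / x ^ 2 := by
  have m1 : ∀ s, MemLp (fun ω => ma s ω - μ s) 2 (PP μ μ') := fun s =>
    (memLp_ma s (hμ s)).sub (memLp_const _)
  have m2 : ∀ s, MemLp (fun ω => mb s ω - μ' s) 2 (PP μ μ') := fun s =>
    (memLp_mb s (hμ' s)).sub (memLp_const _)
  have i1 : ∀ s, ∫ ω, (ma s ω - μ s) ∂PP μ μ' = 0 := fun s => by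
    rw [integral_sub ((memLp_ma s (hμ s)).integrable (by norm_num)) (integrable_const _),
      integral_ma s (hμ s)]
    simp
  have i2 : ∀ s, ∫ ω, (mb s ω - μ' s) ∂PP μ μ' = 0 := fun s => by
    rw [integral_sub ((memLp_mb s (hμ' s)).integrable (by norm_num)) (integrable_const _),
      integral_mb s (hμ' s)]
    simp
  have v1 : ∀ s, ∫ ω, (ma s ω - μ s) ^ 2 ∂PP μ μ' = μ s * (1 + μ s) := fun s => by
    have h := var_ma (μ' := μ') s (hμ s)
    rw [variance_eq_integral (memLp_ma s (hμ s)).aemeasurable, integral_ma s (hμ s)] at h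
    exact h
  have v2 : ∀ s, ∫ ω, (mb s ω - μ' s) ^ 2 ∂PP μ μ' = μ' s * (1 + μ' s) := fun s => by
    have h := var_mb (μ := μ) s (hμ' s)
    rw [variance_eq_integral (memLp_mb s (hμ' s)).aemeasurable, integral_mb s (hμ' s)] at h
    exact h
  have h := hajek μ μ' (fun s p => c s * ((p.1 : ℝ) - μ s) + c' s * ((p.2 : ℝ) - μ' s)) T
    (fun s => 2 * (c s) ^ 2 * (μ s * (1 + μ s)) + 2 * (c' s) ^ 2 * (μ' s * (1 + μ' s)))
    (fun _ => 1 / x ^ 2) t0 hT
    (fun s _ => ((m1 s).const_mul _).add ((m2 s).const_mul _))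
    (fun s _ => by
      have : ∫ ω : Om, (c s * (((ω s).1 : ℝ) - μ s) + c' s * (((ω s).2 : ℝ) - μ' s)) ∂PP μ μ'
          = c s * ∫ ω, (ma s ω - μ s) ∂PP μ μ' + c' s * ∫ ω, (mb s ω - μ' s) ∂PP μ μ' := by
        rw [← integral_const_mul, ← integral_const_mul, ← integral_add]
        · rfl
        · exact ((m1 s).integrable (by norm_num)).const_mul _
        · exact ((m2 s).integrable (by norm_num)).const_mul _
      rw [this, i1, i2]
      simp)
    (fun s _ => by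
      have e1 : Integrable (fun ω => (ma s ω - μ s) ^ 2) (PP μ μ') := (m1 s).integrable_sq
      have e2 : Integrable (fun ω => (mb s ω - μ' s) ^ 2) (PP μ μ') := (m2 s).integrable_sq
      calc ∫ ω : Om, (c s * (((ω s).1 : ℝ) - μ s) + c' s * (((ω s).2 : ℝ) - μ' s)) ^ 2 ∂PP μ μ'
          ≤ ∫ ω : Om, (2 * (c s) ^ 2 * (ma s ω - μ s) ^ 2
            + 2 * (c' s) ^ 2 * (mb s ω - μ' s) ^ 2) ∂PP μ μ' := by
            apply integral_mono
            · exact (((m1 s).const_mul (c s)).add ((m2 s).const_mul (c' s))).integrable_sq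
            · exact (e1.const_mul _).add (e2.const_mul _)
            · intro ω
              show (c s * (ma s ω - μ s) + c' s * (mb s ω - μ' s)) ^ 2 ≤ _
              nlinarith [sq_nonneg (c s * (ma s ω - μ s) - c' s * (mb s ω - μ' s))]
        _ = _ := by
            rw [integral_add (e1.const_mul _) (e2.const_mul _), integral_const_mul,
              integral_const_mul, v1, v2])
    (fun _ => by positivity) (fun _ _ _ => le_rfl)
  have h1 : {ω | ∃ t, t0 ≤ t ∧ t ≤ T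
      ∧ x ≤ |∑ s ∈ Finset.Ioc t T, (c s * (ma s ω - μ s) + c' s * (mb s ω - μ' s))|}
      = {ω | ∃ t, t0 ≤ t ∧ t ≤ T ∧ 1 ≤ 1 / x ^ 2
        * (rS (fun s p => c s * ((p.1 : ℝ) - μ s) + c' s * ((p.2 : ℝ) - μ' s)) T t ω) ^ 2} := by
    ext ω
    have key : ∀ t, x ≤ |∑ s ∈ Finset.Ioc t T, (c s * (ma s ω - μ s) + c' s * (mb s ω - μ' s))|
        ↔ 1 ≤ 1 / x ^ 2
        * (rS (fun s p => c s * ((p.1 : ℝ) - μ s) + c' s * ((p.2 : ℝ) - μ' s)) T t ω) ^ 2 := by
      intro t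
      have hr : rS (fun s p => c s * ((p.1 : ℝ) - μ s) + c' s * ((p.2 : ℝ) - μ' s)) T t ω
          = ∑ s ∈ Finset.Ioc t T, (c s * (ma s ω - μ s) + c' s * (mb s ω - μ' s)) := rfl
      rw [hr, one_div, inv_mul_eq_div, one_le_div (by positivity),
        ← sq_abs (∑ s ∈ Finset.Ioc t T, (c s * (ma s ω - μ s) + c' s * (mb s ω - μ' s)))]
      exact (sq_le_sq₀ hx.le (abs_nonneg _)).symm
    simp only [Set.mem_ofPred_eq, key]
  rw [h1]
  refine h.trans (le_of_eq ?_)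
  rw [← Finset.mul_sum]
  ring

end Pool.Agent.Helper95.Dom
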