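import Pool.Agent.Helper95.DomTail2

/-!
The choice of the parameter.
-/

namespace Pool.Agent.Helper95.Dom

open MeasureTheory ProbabilityTheory Filter
open scoped Topology ENNReal

theorem s_mu_le {a : ℝ} (ha : 0 < a) (s : ℕ) : (s : ℝ) * mu a s ≤ a * Real.exp (-(s / (2 * a))) := by
  rcases Nat.eq_zero_or_pos s with rfl | hs
  · simp [mu_zero, ha.le]
  have hs' : (0 : ℝ) < s := by exact_mod_cast hs
  have h6 := exp_sub_pos (div_pos hs' ha)
  unfold mu
  have h1 : (s : ℝ) / (2 * a) = (s : ℝ) / a / 2 := by field_simp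
  rw [h1]
  set x := (s : ℝ) / a with hx
  have hx0 : 0 < x := div_pos hs' ha
  have hsx : (s : ℝ) = a * x := by rw [hx]; field_simp
  have h2 := (Real.self_le_sinh_iff (x := x / 2)).2 (by positivity)
  rw [Real.sinh_eq] at h2
  have h3 : Real.exp (x / 2) * Real.exp (-(x / 2)) = 1 := by rw [← Real.exp_add]; simp
  have h4 : Real.exp x * Real.exp (-(x / 2)) = Real.exp (x / 2) := by
    rw [← Real.exp_add]; congr 1; ring
  have h5 : x ≤ Real.exp (-(x / 2)) * (Real.exp x - 1) := by nlinarith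
  rw [hsx, mul_assoc, ← div_eq_mul_inv]
  apply mul_le_mul_of_nonneg_left _ ha.le
  rw [div_le_iff₀ h6]
  exact h5

theorem s_mu_ge {a : ℝ} (ha : 0 < a) {s : ℕ} (hs : 1 ≤ s) :
    a * Real.exp (-(s / a)) ≤ (s : ℝ) * mu a s := by
  have hs' : (0 : ℝ) < s := by exact_mod_cast hs
  have h6 := exp_sub_pos (div_pos hs' ha)
  unfold mu
  set x := (s : ℝ) / a with hx
  have hx0 : 0 < x := div_pos hs' ha
  have hsx : (s : ℝ) = a * x := by rw [hx]; field_simp
  have h2 := exp_sub_one_le' hx0.le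
  have h3 : Real.exp x * Real.exp (-x) = 1 := by rw [← Real.exp_add]; simp
  have h5 : Real.exp (-x) * (Real.exp x - 1) ≤ x := by
    have := mul_le_mul_of_nonneg_left h2 (Real.exp_pos (-x)).le
    nlinarith
  rw [hsx, mul_assoc, ← div_eq_mul_inv]
  apply mul_le_mul_of_nonneg_left _ ha.le
  rw [le_div_iff₀ h6]
  exact h5

/-- expected size. -/
noncomputable def EX (a : ℝ) (I : Finset ℕ) : ℝ := ∑ s ∈ I, (s : ℝ) * mu a s

theorem EX_le {a : ℝ} (ha : 1 ≤ a) (n : ℕ) : EX a (Finset.Icc 1 n) ≤ 3 * a ^ 2 := by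
  have hpos : 0 < a := by linarith
  calc EX a (Finset.Icc 1 n) ≤ ∑ s ∈ Finset.Icc 1 n, a * Real.exp (-(s / (2 * a))) :=
        Finset.sum_le_sum fun s _ => s_mu_le hpos s
    _ = a * ∑ s ∈ Finset.Icc 1 n, Real.exp (-((s : ℝ) / (2 * a))) := by rw [Finset.mul_sum]
    _ ≤ a * (1 + 2 * a) := mul_le_mul_of_nonneg_left (sum_exp_le (by linarith) _) hpos.le
    _ ≤ 3 * a ^ 2 := by nlinarith

theorem EX_ge {a : ℝ} (ha : 1 ≤ a) {n : ℕ} (hn : a ≤ n) : a ^ 2 / 6 ≤ EX a (Finset.Icc 1 n) := by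
  have hpos : 0 < a := by linarith
  have hfl : (⌊a⌋₊ : ℝ) ≤ a := Nat.floor_le hpos.le
  have hfl2 : a < ⌊a⌋₊ + 1 := Nat.lt_floor_add_one a
  have hfl1 : (1 : ℝ) ≤ ⌊a⌋₊ := by exact_mod_cast Nat.one_le_iff_ne_zero.2 (by
    intro h; rw [Nat.floor_eq_zero] at h; linarith)
  have hsub : Finset.Icc 1 ⌊a⌋₊ ⊆ Finset.Icc 1 n := by
    apply Finset.Icc_subset_Icc_right
    have : (⌊a⌋₊ : ℝ) ≤ n := hfl.trans hn
    exact_mod_cast this
  have h1 : Real.exp (-1) > 0.3678794 := by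
    have := Real.exp_neg_one_gt_d9
    norm_num at this ⊢
    linarith
  calc a ^ 2 / 6 ≤ (⌊a⌋₊ : ℝ) * (a * Real.exp (-1)) := by
        have h2 : a / 2 ≤ ⌊a⌋₊ := by linarith
        have h3 : (a / 2) * (a * Real.exp (-1)) ≤ (⌊a⌋₊ : ℝ) * (a * Real.exp (-1)) :=
          mul_le_mul_of_nonneg_right h2 (by positivity)
        have h4 : a ^ 2 * (1 / 3) ≤ a ^ 2 * Real.exp (-1) :=
          mul_le_mul_of_nonneg_left (by norm_num at h1 ⊢; linarith) (sq_nonneg _)
        nlinarith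
    _ = ∑ s ∈ Finset.Icc 1 ⌊a⌋₊, a * Real.exp (-1) := by
        rw [Finset.sum_const, Nat.card_Icc, nsmul_eq_mul]
        simp
    _ ≤ ∑ s ∈ Finset.Icc 1 ⌊a⌋₊, (s : ℝ) * mu a s := by
        apply Finset.sum_le_sum
        intro s hs
        rw [Finset.mem_Icc] at hs
        refine le_trans ?_ (s_mu_ge hpos hs.1)
        apply mul_le_mul_of_nonneg_left _ hpos.le
        apply Real.exp_le_exp.2
        have h5 : (s : ℝ) ≤ a := le_trans (by exact_mod_cast hs.2) hfl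
        have h6 : (s : ℝ) / a ≤ 1 := (div_le_one hpos).2 h5
        linarith
    _ ≤ EX a (Finset.Icc 1 n) := by
        unfold EX
        apply Finset.sum_le_sum_of_subset_of_nonneg hsub
        intro s _ _
        exact mul_nonneg (Nat.cast_nonneg _) (mu_nonneg hpos s)

theorem exists_a {n : ℕ} (hn : 6 ≤ n) : ∃ a : ℝ, 1 ≤ a ∧ (n : ℝ) ≤ 3 * a ^ 2 ∧ a ^ 2 ≤ 6 * n ∧
    EX a (Finset.Icc 1 n) = n := by
  have hn' : (6 : ℝ) ≤ n := by exact_mod_cast hn
  have h1 : 1 ≤ √((n : ℝ) / 3) := by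
    rw [Real.one_le_sqrt]; linarith
  have h2 : √((n : ℝ) / 3) ≤ √(6 * n) := Real.sqrt_le_sqrt (by linarith)
  have h3 : √(6 * (n : ℝ)) ≤ n := by
    rw [Real.sqrt_le_left (by linarith)]
    nlinarith
  have hcont : ContinuousOn (fun a : ℝ => EX a (Finset.Icc 1 n)) (Set.Icc (√((n : ℝ) / 3)) (√(6 * n))) := by
    unfold EX
    apply continuousOn_finsetSum
    intro s hs
    rw [Finset.mem_Icc] at hs
    have hs' : (0 : ℝ) < s := by exact_mod_cast hs.1
    apply ContinuousOn.mul continuousOn_const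
    unfold mu
    apply ContinuousOn.inv₀
    · apply ContinuousOn.sub _ continuousOn_const
      apply Real.continuous_exp.comp_continuousOn
      apply ContinuousOn.div continuousOn_const continuousOn_id
      intro x hx
      have : 1 ≤ x := h1.trans hx.1
      simp only [id]
      linarith
    · intro x hx
      have : 1 ≤ x := h1.trans hx.1
      exact (exp_sub_pos (div_pos hs' (by linarith))).ne'
  have hlo : EX (√((n : ℝ) / 3)) (Finset.Icc 1 n) ≤ n := by
    refine (EX_le h1 n).trans ?_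
    rw [Real.sq_sqrt (by positivity)]
    linarith
  have hhi : (n : ℝ) ≤ EX (√(6 * n)) (Finset.Icc 1 n) := by
    refine le_trans ?_ (EX_ge (h1.trans h2) h3)
    rw [Real.sq_sqrt (by positivity)]
    linarith
  obtain ⟨a, ha, hfa⟩ := intermediate_value_Icc h2 hcont ⟨hlo, hhi⟩
  have ha1 : 1 ≤ a := h1.trans ha.1
  refine ⟨a, ha1, ?_, ?_, hfa⟩
  · have : √((n : ℝ) / 3) ^ 2 ≤ a ^ 2 := pow_le_pow_left₀ (by positivity) ha.1 2
    rw [Real.sq_sqrt (by positivity)] at this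
    linarith
  · have : a ^ 2 ≤ √(6 * (n : ℝ)) ^ 2 := pow_le_pow_left₀ (by linarith) ha.2 2
    rw [Real.sq_sqrt (by positivity)] at this
    exact this

end Pool.Agent.Helper95.Dom
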