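import Pool.Agent.Helper95.DomTail2

/-!
Logarithmic forms of the tail bounds.
-/

namespace Pool.Agent.Helper95.Dom

open MeasureTheory ProbabilityTheory Filter
open scoped Topology ENNReal

theorem exists_log_le {c : ℝ} (hc : 0 < c) : ∃ a0 : ℝ, 1 ≤ a0 ∧ ∀ a, a0 ≤ a →
    Real.log a ≤ c ^ 2 * a := by
  have h := Real.isLittleO_log_id_atTop.def (show 0 < c ^ 2 by positivity)
  obtain ⟨a0, ha0⟩ := eventually_atTop.1 (h.and (eventually_ge_atTop 1))
  refine ⟨max a0 1, le_max_right _ _, fun a ha => ?_⟩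
  have h1 := ha0 a ((le_max_left _ _).trans ha)
  have h2 := h1.1
  simp only [Real.norm_eq_abs, id] at h2
  rw [abs_of_nonneg (by linarith [h1.2] : (0:ℝ) ≤ a)] at h2
  exact (le_abs_self _).trans h2

/-- `c√(log a) ≤ √a` eventually. -/
theorem exists_sqrt_log_le {c : ℝ} (hc : 0 < c) : ∃ a0 : ℝ, 1 ≤ a0 ∧ ∀ a, a0 ≤ a →
    √(Real.log a) ≤ c * √a := by
  obtain ⟨a0, h0, h1⟩ := exists_log_le hc
  refine ⟨a0, h0, fun a ha => ?_⟩
  have h2 := Real.sqrt_le_sqrt (h1 a ha)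
  rw [Real.sqrt_mul (by positivity), Real.sqrt_sq hc.le] at h2
  exact h2

theorem tail_one_log {k v0 K' : ℝ} (hk : 0 < k) (hv : 0 < v0) (hK : K' ≤ k ^ 2 / (32 * v0)) :
    ∃ a0 : ℝ, 1 ≤ a0 ∧ ∀ (a : ℝ) (T S : ℕ), a0 ≤ a → a ≤ T + 1 → Real.exp (-(T / a)) ≤ v0 →
      (PA a).real {ω | k * √(Real.log a) * √a ≤ |∑ s ∈ Finset.Ioc T S, (ma s ω - mu a s)|}
        ≤ 2 * Real.exp (-(K' * Real.log a)) := by
  obtain ⟨a0, h0, h1⟩ := exists_sqrt_log_le (show 0 < 2 * v0 / k by positivity)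
  refine ⟨a0, h0, fun a T S ha hT hv0 => ?_⟩
  have ha1 : 1 ≤ a := h0.trans ha
  have hpos : 0 < a := by linarith
  have hsa : 0 < √a := Real.sqrt_pos.2 hpos
  have hlog : 0 ≤ Real.log a := Real.log_nonneg ha1
  set Λ := √(Real.log a) with hΛ
  have hΛ2 : Λ ^ 2 = Real.log a := Real.sq_sqrt hlog
  have hΛ0 : 0 ≤ Λ := Real.sqrt_nonneg _
  have hsa2 : √a ^ 2 = a := Real.sq_sqrt hpos.le
  have h2 := h1 a ha
  have hθ : 0 ≤ k * Λ / (16 * v0 * √a) := by positivity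
  have hθ8 : 8 * (k * Λ / (16 * v0 * √a)) ≤ 1 := by
    rw [← mul_div_assoc, div_le_one (by positivity)]
    have h3 : k * Λ ≤ 2 * v0 * √a := by
      have := mul_le_mul_of_nonneg_left h2 hk.le
      refine this.trans (le_of_eq ?_)
      field_simp
    linarith
  refine (tail_high_one ha1 hT hθ hθ8 _).trans ?_
  apply mul_le_mul_of_nonneg_left _ zero_le_two
  apply Real.exp_le_exp.2
  have h4 : 8 * (k * Λ / (16 * v0 * √a)) ^ 2 * a * Real.exp (-(T / a))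
      ≤ 8 * (k * Λ / (16 * v0 * √a)) ^ 2 * a * v0 :=
    mul_le_mul_of_nonneg_left hv0 (by positivity)
  have h5 : 8 * (k * Λ / (16 * v0 * √a)) ^ 2 * a * v0 = k ^ 2 / (32 * v0) * Real.log a := by
    rw [← hΛ2]
    have : (k * Λ / (16 * v0 * √a)) ^ 2 = k ^ 2 * Λ ^ 2 / (256 * v0 ^ 2 * a) := by
      rw [div_pow, mul_pow, mul_pow, mul_pow, hsa2]; norm_num
    rw [this]
    field_simp
    ring
  have h6 : k * Λ / (16 * v0 * √a) * (k * Λ * √a) = 2 * (k ^ 2 / (32 * v0) * Real.log a) := by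
    rw [← hΛ2]
    field_simp
    ring
  have h7 := mul_le_mul_of_nonneg_right hK hlog
  linarith

theorem tail_high_log {k v0 K' : ℝ} (hk : 0 < k) (hv : 0 < v0) (hK : K' ≤ k ^ 2 / (480 * v0)) :
    ∃ a0 : ℝ, 1 ≤ a0 ∧ ∀ (a : ℝ) (T S : ℕ), a0 ≤ a → a ≤ T + 1 → Real.exp (-(T / (4 * a))) ≤ v0 →
      (PA a).real {ω | k * √(Real.log a) * (a * √a)
        ≤ |∑ s ∈ Finset.Ioc T S, (s : ℝ) * (ma s ω - mu a s)|}
        ≤ 2 * Real.exp (-(K' * Real.log a)) := by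
  obtain ⟨a0, h0, h1⟩ := exists_sqrt_log_le (show 0 < 30 * v0 / k by positivity)
  refine ⟨a0, h0, fun a T S ha hT hv0 => ?_⟩
  have ha1 : 1 ≤ a := h0.trans ha
  have hpos : 0 < a := by linarith
  have hsa : 0 < √a := Real.sqrt_pos.2 hpos
  have hlog : 0 ≤ Real.log a := Real.log_nonneg ha1
  set Λ := √(Real.log a) with hΛ
  have hΛ2 : Λ ^ 2 = Real.log a := Real.sq_sqrt hlog
  have hΛ0 : 0 ≤ Λ := Real.sqrt_nonneg _
  have hsa2 : √a ^ 2 = a := Real.sq_sqrt hpos.le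
  have h2 := h1 a ha
  have hθ : 0 ≤ k * Λ / (240 * v0 * (a * √a)) := by positivity
  have hθ8 : 8 * (k * Λ / (240 * v0 * (a * √a)) * a) ≤ 1 := by
    have h3 : k * Λ ≤ 30 * v0 * √a := by
      have := mul_le_mul_of_nonneg_left h2 hk.le
      refine this.trans (le_of_eq ?_)
      field_simp
    have h4 : 8 * (k * Λ / (240 * v0 * (a * √a)) * a) = k * Λ / (30 * v0 * √a) := by
      field_simp
      ring
    rw [h4, div_le_one (by positivity)]
    exact h3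
  refine (tail_high ha1 hT hθ hθ8 _).trans ?_
  apply mul_le_mul_of_nonneg_left _ zero_le_two
  apply Real.exp_le_exp.2
  have h4 : 120 * (k * Λ / (240 * v0 * (a * √a))) ^ 2 * a ^ 3 * Real.exp (-(T / (4 * a)))
      ≤ 120 * (k * Λ / (240 * v0 * (a * √a))) ^ 2 * a ^ 3 * v0 :=
    mul_le_mul_of_nonneg_left hv0 (by positivity)
  have h5 : 120 * (k * Λ / (240 * v0 * (a * √a))) ^ 2 * a ^ 3 * v0
      = k ^ 2 / (480 * v0) * Real.log a := by
    rw [← hΛ2]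
    have : (k * Λ / (240 * v0 * (a * √a))) ^ 2 = k ^ 2 * Λ ^ 2 / (57600 * v0 ^ 2 * a ^ 3) := by
      rw [div_pow, mul_pow, mul_pow, mul_pow, mul_pow, hsa2]; norm_num; ring
    rw [this]
    field_simp
    ring
  have h6 : k * Λ / (240 * v0 * (a * √a)) * (k * Λ * (a * √a))
      = 2 * (k ^ 2 / (480 * v0) * Real.log a) := by
    rw [← hΛ2]
    field_simp
    ring
  have h7 := mul_le_mul_of_nonneg_right hK hlog
  linarith

theorem tail_low_log {k e K' : ℝ} (hk : 0 < k) (he : 0 < e) (he1 : e ≤ 1)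
    (hK : K' ≤ k ^ 2 / (8 * e)) :
    ∃ a0 : ℝ, 1 ≤ a0 ∧ ∀ (a : ℝ) (T : ℕ), a0 ≤ a → (T : ℝ) ≤ e * a →
      (PA a).real {ω | k * √(Real.log a) * (a * √a)
        ≤ |∑ s ∈ Finset.Icc 1 T, (s : ℝ) * (ma s ω - mu a s)|}
        ≤ 2 * Real.exp (-(K' * Real.log a)) := by
  obtain ⟨a0, h0, h1⟩ := exists_sqrt_log_le (show 0 < e / k by positivity)
  refine ⟨a0, h0, fun a T ha hT => ?_⟩
  have ha1 : 1 ≤ a := h0.trans ha
  have hpos : 0 < a := by linarith
  have hsa : 0 < √a := Real.sqrt_pos.2 hpos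
  have hlog : 0 ≤ Real.log a := Real.log_nonneg ha1
  set Λ := √(Real.log a) with hΛ
  have hΛ2 : Λ ^ 2 = Real.log a := Real.sq_sqrt hlog
  have hΛ0 : 0 ≤ Λ := Real.sqrt_nonneg _
  have hsa2 : √a ^ 2 = a := Real.sq_sqrt hpos.le
  have h2 := h1 a ha
  have hθ : 0 ≤ k * Λ / (4 * e * (a * √a)) := by positivity
  have hθ8 : 4 * (k * Λ / (4 * e * (a * √a)) * a) ≤ 1 := by
    have h3 : k * Λ ≤ e * √a := by
      have := mul_le_mul_of_nonneg_left h2 hk.le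
      refine this.trans (le_of_eq ?_)
      field_simp
    have h4 : 4 * (k * Λ / (4 * e * (a * √a)) * a) = k * Λ / (e * √a) := by
      field_simp
    rw [h4, div_le_one (by positivity)]
    exact h3
  refine (tail_low ha1 (hT.trans (by nlinarith)) hθ hθ8 _).trans ?_
  apply mul_le_mul_of_nonneg_left _ zero_le_two
  apply Real.exp_le_exp.2
  have h4 : 2 * (k * Λ / (4 * e * (a * √a))) ^ 2 * a ^ 2 * T
      ≤ 2 * (k * Λ / (4 * e * (a * √a))) ^ 2 * a ^ 2 * (e * a) :=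
    mul_le_mul_of_nonneg_left hT (by positivity)
  have h5 : 2 * (k * Λ / (4 * e * (a * √a))) ^ 2 * a ^ 2 * (e * a)
      = k ^ 2 / (8 * e) * Real.log a := by
    rw [← hΛ2]
    have : (k * Λ / (4 * e * (a * √a))) ^ 2 = k ^ 2 * Λ ^ 2 / (16 * e ^ 2 * a ^ 3) := by
      rw [div_pow, mul_pow, mul_pow, mul_pow, mul_pow, hsa2]; norm_num; ring
    rw [this]
    field_simp
    ring
  have h6 : k * Λ / (4 * e * (a * √a)) * (k * Λ * (a * √a))
      = 2 * (k ^ 2 / (8 * e) * Real.log a) := by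
    rw [← hΛ2]
    field_simp
    ring
  have h7 := mul_le_mul_of_nonneg_right hK hlog
  linarith

/-- the law of the second coordinates is the same. -/
theorem swp_ma (a : ℝ) (I : Finset ℕ) (c : ℕ → ℝ) (x : ℝ) :
    (PA a).real {ω | x ≤ |∑ s ∈ I, c s * (mb s ω - mu a s)|}
      = (PA a).real {ω | x ≤ |∑ s ∈ I, c s * (ma s ω - mu a s)|} := by
  have hm : MeasurableSet {ω : Om | x ≤ |∑ s ∈ I, c s * (ma s ω - mu a s)|} := by
    apply measSet_of_dep I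
    intro ω ω' h
    have : ∑ s ∈ I, c s * (ma s ω - mu a s) = ∑ s ∈ I, c s * (ma s ω' - mu a s) :=
      Finset.sum_congr rfl fun s hs => by unfold ma; rw [h s hs]
    simp only [Set.mem_ofPred_eq, this]
  have h := swp_real (mu a) hm
  unfold PA
  rw [← h]
  rfl

theorem swp_ma_one (a : ℝ) (I : Finset ℕ) (x : ℝ) :
    (PA a).real {ω | x ≤ |∑ s ∈ I, (mb s ω - mu a s)|}
      = (PA a).real {ω | x ≤ |∑ s ∈ I, (ma s ω - mu a s)|} := by
  have := swp_ma a I (fun _ => 1) x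
  simpa only [one_mul] using this

end Pool.Agent.Helper95.Dom
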