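import Pool.Agent.Helper95.DomBlock

/-!
The persistence exponent exists.
-/

namespace Pool.Agent.Helper95.Dom

open MeasureTheory ProbabilityTheory Filter
open scoped Topology

theorem pers_nonneg (l : ℕ) : 0 ≤ pers l := le_ciInf fun _ => gam_nonneg _ _ _

theorem pers_le_one (l : ℕ) : pers l ≤ 1 := (pers_le le_rfl l).trans (gam_le_one _ _ _)

theorem pers_super {l l' : ℕ} (hl : 1 ≤ l) (hl' : 1 ≤ l') : pers l * pers l' ≤ pers (l + l') := by
  apply le_ciInf
  intro m
  refine le_trans ?_ (persGrid_super (Nat.le_add_left 1 m) hl hl')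
  exact mul_le_mul (pers_le (Nat.le_add_left 1 m) l) (pers_le (Nat.le_add_left 1 m) l')
    (pers_nonneg _) (gam_nonneg _ _ _)

theorem blkA_one : ∃ c : ℝ, 0 < c ∧ ∃ K0 : ℝ, 1 ≤ K0 ∧ ∀ (a u : ℝ) (S : ℕ), K0 ≤ u →
    K0 ≤ a * Real.exp (-u) → K0 ≤ S / a - u → c ≤ (PA a).real (blkA a u S 1) := by
  have hg := gam_pos (m := 1) (l := 1) le_rfl le_rfl 16
  obtain ⟨K1, hK1, h1⟩ := meshA_lower 1 1 (x := 15) (x' := 16) (by norm_num)
    (η := gam 1 1 16 / 2) (by linarith)
  refine ⟨gam 1 1 16 / 8, by linarith, max K1 2, le_trans hK1 (le_max_left _ _), ?_⟩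
  intro a u S hu hau hS
  have hKa : K1 ≤ max K1 2 := le_max_left _ _
  have hKb : (2 : ℝ) ≤ max K1 2 := le_max_right _ _
  have he0 := Real.exp_pos (-u)
  have he1 : Real.exp (-u) ≤ 1 := Real.exp_le_one_iff.2 (by linarith)
  have ha : 0 < a := by
    by_contra hcon
    push Not at hcon
    have := mul_nonpos_of_nonpos_of_nonneg hcon he0.le
    linarith
  have ha1 : 1 ≤ a := by nlinarith
  have hmesh := h1 a u S (by linarith) (by linarith) (by linarith)
  set t0 := ⌊a * u⌋₊ with ht0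
  set t1 := ⌊a * (u + (1 : ℕ))⌋₊ with ht1
  have h01 : t0 ≤ t1 := by
    apply Nat.floor_le_floor
    apply mul_le_mul_of_nonneg_left _ ha.le
    push_cast
    linarith
  have hf0 : (t0 : ℝ) ≤ a * u := Nat.floor_le (mul_nonneg ha.le (by linarith))
  have hf0' : a * u - 1 < t0 := by
    have := Nat.lt_floor_add_one (a * u)
    linarith
  have hf1 : (t1 : ℝ) ≤ a * (u + (1 : ℕ)) :=
    Nat.floor_le (mul_nonneg ha.le (by push_cast; linarith))
  have hgap : (t1 : ℝ) - t0 ≤ 2 * a := by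
    push_cast at hf1
    nlinarith
  have hlow : a ≤ (t0 : ℝ) := by nlinarith
  have hS1 : t1 ≤ S := by
    have h2 : u + 1 ≤ S / a := by linarith
    rw [le_div_iff₀ ha] at h2
    have h3 : (t1 : ℝ) ≤ S := by
      push_cast at hf1
      linarith
    exact_mod_cast h3
  set y := 15 * bA a t1 / (2 * a) with hy
  have hy0 : 0 < y := by
    have := bA_pos ha t1
    rw [hy]; positivity
  -- events
  set E1 : Set Om := {ω | 15 * bA a t1 ≤ DA S t1 ω} with hE1
  set E2 : Set Om := {ω | 0 ≤ NS t1 S ω} with hE2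
  set E3 : Set Om := {ω | ∃ t, t0 ≤ t ∧ t ≤ t1 ∧ y ≤ |NS t t1 ω|} with hE3
  have i1 : Inc (Finset.Ioc t1 S) E1 := fun ω hω ω' h => le_trans hω (DA_mono S t1 ω ω' h)
  have i2 : Inc (Finset.Ioc t1 S) E2 := fun ω hω ω' h => le_trans hω (NS_mono t1 S ω ω' h)
  have d3 : ∀ ω ω' : Om, (∀ s ∈ Finset.Ioc t0 t1, ω s = ω' s) → (ω ∈ E3 ↔ ω' ∈ E3) := by
    intro ω ω' h
    have hN : ∀ t, t0 ≤ t → NS t t1 ω = NS t t1 ω' := by
      intro t ht
      apply NS_dep
      intro s hs
      apply h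
      simp only [Finset.mem_Ioc] at hs ⊢
      omega
    constructor
    · rintro ⟨t, h1, h2, h3⟩
      exact ⟨t, h1, h2, by rw [← hN t h1]; exact h3⟩
    · rintro ⟨t, h1, h2, h3⟩
      exact ⟨t, h1, h2, by rw [hN t h1]; exact h3⟩
  have m3 : MeasurableSet E3 := measSet_of_dep _ d3
  have p1 : gam 1 1 16 / 2 ≤ (PA a).real E1 := by
    have h2 : meshA a u S 1 1 15 ⊆ E1 := by
      intro ω hω
      have h3 := hω 1 (by norm_num)
      have h4 : tA a u 1 1 = t1 := by
        have := tA_last (m := 1) le_rfl a u 1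
        rw [one_mul] at this
        exact this
      rw [h4] at h3
      exact h3
    have h5 : (PA a).real (meshA a u S 1 1 15) ≤ (PA a).real E1 :=
      measureReal_mono h2 (measure_ne_top _ _)
    linarith
  have p2 : 1 / 2 ≤ (PA a).real E2 := by
    apply half_le (Finset.Ioc t1 S) (NS t1 S) (NS_dep t1 S)
    intro ω
    unfold NS
    rw [← Finset.sum_neg_distrib]
    exact Finset.sum_congr rfl fun s _ => xs_swp s ω
  have p12 : gam 1 1 16 / 4 ≤ (PA a).real (E1 ∩ E2) := by
    have h2 := harris (mu a) (mu a) i1 i2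
    have h3 : gam 1 1 16 / 2 * (1 / 2) ≤ (PA a).real E1 * (PA a).real E2 :=
      mul_le_mul p1 p2 (by norm_num) measureReal_nonneg
    have h4 : (PA a).real E1 * (PA a).real E2 ≤ (PA a).real (E1 ∩ E2) := h2
    linarith
  have p3 : (PA a).real E3 ≤ 1 / 2 := by
    refine (cellA ha h01 hlow hgap hy0).trans ?_
    have h1 : y ^ 2 = 225 * (4 * a ^ 3 * Real.exp (-(t1 / a))) / (4 * a ^ 2) := by
      rw [hy, div_pow, mul_pow, mul_pow]
      have : bA a t1 ^ 2 = 4 * a ^ 3 * Real.exp (-(t1 / a)) := by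
        rw [sq, bA_mul ha]
        congr 2
        field_simp
        ring
      rw [this]
      ring
    rw [h1]
    have h2 : Real.exp (-((t0 : ℝ) / a)) ≤ 7.4 * Real.exp (-((t1 : ℝ) / a)) := by
      have h3 : Real.exp (-((t0 : ℝ) / a)) = Real.exp (((t1 : ℝ) - t0) / a)
          * Real.exp (-((t1 : ℝ) / a)) := by
        rw [← Real.exp_add]
        congr 1
        ring
      rw [h3]
      apply mul_le_mul_of_nonneg_right _ (Real.exp_pos _).le
      refine le_trans (Real.exp_le_exp.2 ?_) exp_two_lt.le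
      rw [div_le_iff₀ ha]
      exact hgap
    set E := Real.exp (-((t1 : ℝ) / a)) with hE
    have hE0 : 0 < E := Real.exp_pos _
    calc 2 * a * (6 * Real.exp (-((t0 : ℝ) / a))) / (225 * (4 * a ^ 3 * E) / (4 * a ^ 2))
        ≤ 2 * a * (6 * (7.4 * E)) / (225 * (4 * a ^ 3 * E) / (4 * a ^ 2)) := by
          apply div_le_div_of_nonneg_right _ (by positivity)
          apply mul_le_mul_of_nonneg_left _ (by positivity)
          linarith
      _ = 88.8 / 225 := by field_simp; norm_num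
      _ ≤ _ := by norm_num
  have p3' : 1 / 2 ≤ (PA a).real E3ᶜ := by
    rw [probReal_compl_eq_one_sub m3]
    linarith
  have hind := indep_sets (mu a) (mu a) (Finset.Ioc t1 S) (Finset.Ioc t0 t1) (by
      rw [Finset.disjoint_left]
      intro s h1 h2
      simp only [Finset.mem_Ioc] at h1 h2
      omega) (A := E1 ∩ E2) (B := E3ᶜ) (i1.inter i2).dep
      (fun ω ω' h => not_congr (d3 ω ω' h))
  have hfin : E1 ∩ E2 ∩ E3ᶜ ⊆ blkA a u S 1 := by
    rintro ω ⟨⟨w1, w2⟩, w3⟩ t h1 h2
    have hnb : ∀ t, t0 ≤ t → t ≤ t1 → |NS t t1 ω| ≤ y := by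
      intro t h3 h4
      by_contra h5
      push Not at h5
      exact w3 ⟨t, h3, h4, h5.le⟩
    rw [DA_split h2 hS1]
    have h3 := RR_bound hy0.le ω hnb t h1 h2
    have h4 : ((t1 : ℝ) - t0) * y ≤ 15 * bA a t1 := by
      calc ((t1 : ℝ) - t0) * y ≤ 2 * a * y := mul_le_mul_of_nonneg_right hgap hy0.le
        _ = 15 * bA a t1 := by rw [hy]; field_simp
    have h5 : 0 ≤ ((t1 : ℝ) - t) * NS t1 S ω := by
      apply mul_nonneg _ w2
      have : (t : ℝ) ≤ t1 := Nat.cast_le.2 h2
      linarith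
    have h6 := neg_abs_le (RR t t1 ω)
    have h7 : 15 * bA a t1 ≤ DA S t1 ω := w1
    linarith
  have hlast : (PA a).real (E1 ∩ E2 ∩ E3ᶜ) ≤ (PA a).real (blkA a u S 1) :=
    measureReal_mono hfin (measure_ne_top _ _)
  have h8 : (PA a).real (E1 ∩ E2 ∩ E3ᶜ) = (PA a).real (E1 ∩ E2) * (PA a).real E3ᶜ := hind
  have h9 : gam 1 1 16 / 4 * (1 / 2) ≤ (PA a).real (E1 ∩ E2) * (PA a).real E3ᶜ :=
    mul_le_mul p12 p3' (by norm_num) measureReal_nonneg
  linarith

theorem pers_one_pos : 0 < pers 1 := by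
  obtain ⟨c, hc, K0, hK0, h⟩ := blkA_one
  refine lt_of_lt_of_le hc (le_ciInf fun m => ?_)
  apply le_of_forall_pos_le_add
  intro η hη
  obtain ⟨K1, hK1, h1⟩ := meshA_upper (m + 1) 1 0 hη
  obtain ⟨a, u, S, ha, hu, hau, hS⟩ := exists_params (max K0 K1) (hK0.trans (le_max_left _ _)) 1
  have hKa : K0 ≤ max K0 K1 := le_max_left _ _
  have hKb : K1 ≤ max K0 K1 := le_max_right _ _
  have hau' : max K0 K1 ≤ a * Real.exp (-u) := by
    refine hau.trans ?_
    apply mul_le_mul_of_nonneg_left _ ha.le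
    apply Real.exp_le_exp.2
    push_cast
    linarith
  push_cast at hS
  have h2 := h a u S (by linarith) (by linarith) (by linarith)
  have h3 := h1 a u S (by linarith) (by linarith) (by linarith)
  have h4 : blkA a u S 1 ⊆ meshA a u S (m + 1) 1 0 := by
    intro ω hω i hi
    rw [zero_mul]
    apply hω
    · rw [← tA_zero a u (m + 1)]
      exact tA_mono ha _ (Nat.zero_le i)
    · have := tA_last (m := m + 1) (Nat.le_add_left 1 m) a u 1
      rw [← this]
      exact tA_mono ha _ hi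
  have h5 : (PA a).real (blkA a u S 1) ≤ (PA a).real (meshA a u S (m + 1) 1 0) :=
    measureReal_mono h4 (measure_ne_top _ _)
  have h6 : persGrid (m + 1) 1 = gam (m + 1) 1 0 := rfl
  linarith

theorem pers_pos {l : ℕ} (hl : 1 ≤ l) : 0 < pers l := by
  induction l, hl using Nat.le_induction with
  | base => exact pers_one_pos
  | succ n hn ih => exact lt_of_lt_of_le (mul_pos ih pers_one_pos) (pers_super hn le_rfl)

/-- minus the logarithm of the persistence probability. -/
noncomputable def npl (l : ℕ) : ℝ := -Real.log (pers l)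

theorem npl_nonneg (l : ℕ) : 0 ≤ npl l := by
  unfold npl
  have := Real.log_nonpos (pers_nonneg l) (pers_le_one l)
  linarith

theorem npl_sub : Subadditive npl := by
  intro l l'
  rcases Nat.eq_zero_or_pos l with rfl | hl
  · rw [zero_add]; linarith [npl_nonneg 0]
  rcases Nat.eq_zero_or_pos l' with rfl | hl'
  · rw [add_zero]; linarith [npl_nonneg 0]
  unfold npl
  have h := Real.log_le_log (mul_pos (pers_pos hl) (pers_pos hl')) (pers_super hl hl')
  rw [Real.log_mul (pers_pos hl).ne' (pers_pos hl').ne'] at h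
  linarith

/-- the persistence exponent. -/
noncomputable def theta : ℝ := npl_sub.lim

theorem npl_bdd : BddBelow (Set.range fun n => npl n / n) :=
  ⟨0, by rintro x ⟨n, rfl⟩; have := npl_nonneg n; positivity⟩

theorem theta_tendsto : Tendsto (fun l => npl l / l) atTop (𝓝 theta) :=
  npl_sub.tendsto_lim npl_bdd

theorem theta_nonneg : 0 ≤ theta :=
  ge_of_tendsto' theta_tendsto fun n => by have := npl_nonneg n; positivity

theorem pers_le_exp {l : ℕ} (hl : 1 ≤ l) : pers l ≤ Real.exp (-(theta * l)) := by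
  have h := npl_sub.lim_le_div npl_bdd (n := l) (by omega)
  have hl0 : (0 : ℝ) < l := by exact_mod_cast hl
  have h2 : theta ≤ npl l / l := h
  rw [le_div_iff₀ hl0] at h2
  rw [← Real.log_le_iff_le_exp (pers_pos hl)]
  unfold npl at h2
  linarith

theorem pers_ge_exp {δ : ℝ} (hδ : 0 < δ) : ∀ᶠ l : ℕ in atTop,
    Real.exp (-((theta + δ) * l)) < pers l := by
  have h := theta_tendsto.eventually_lt_const (show theta < theta + δ by linarith)
  filter_upwards [h, eventually_ge_atTop 1] with l h1 h2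
  have hl0 : (0 : ℝ) < l := by exact_mod_cast h2
  rw [div_lt_iff₀ hl0] at h1
  rw [← Real.lt_log_iff_exp_lt (pers_pos h2)]
  unfold npl at h1
  linarith

end Pool.Agent.Helper95.Dom
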