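import Pool.Agent.Helper95.DomUpB
import Pool.Agent.Helper95.DomTheta

/-!
Polynomial upper bounds.
-/

namespace Pool.Agent.Helper95.Dom

open MeasureTheory ProbabilityTheory Filter
open scoped Topology ENNReal

theorem exists_mesh (l : ℕ) (hl : 1 ≤ l) : ∃ m : ℕ, 1 ≤ m ∧ persGrid m l < 2 * pers l := by
  have h := pers_pos hl
  have h1 : (⨅ m : ℕ, persGrid (m + 1) l) < 2 * pers l := by
    show pers l < 2 * pers l
    linarith
  obtain ⟨m, hm⟩ := exists_lt_of_ciInf_lt h1
  exact ⟨m + 1, Nat.le_add_left 1 m, hm⟩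

theorem log_small (C D c : ℝ) (hC : 0 < C) (hc : 0 < c) (k : ℝ) :
    ∀ᶠ l : ℕ in atTop, D + k * Real.log (C * (l : ℝ) ^ 2) ≤ c * l := by
  have h1 : Tendsto (fun l : ℕ => Real.log (l : ℝ) / (l : ℝ)) atTop (𝓝 0) := by
    have h2 := Real.isLittleO_log_id_atTop.tendsto_div_nhds_zero
    exact h2.comp tendsto_natCast_atTop_atTop
  have h3 : Tendsto (fun l : ℕ => (D + k * Real.log C) * (1 / (l : ℝ))
      + 2 * k * (Real.log (l : ℝ) / (l : ℝ))) atTop (𝓝 0) := by
    have h4 : Tendsto (fun l : ℕ => 1 / (l : ℝ)) atTop (𝓝 0) := tendsto_one_div_atTop_nhds_zero_nat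
    simpa using (h4.const_mul (D + k * Real.log C)).add (h1.const_mul (2 * k))
  filter_upwards [h3.eventually_le_const hc, eventually_ge_atTop 1] with l h5 h6
  have hl0 : (0 : ℝ) < l := by exact_mod_cast h6
  have h7 : Real.log (C * (l : ℝ) ^ 2) = Real.log C + 2 * Real.log l := by
    rw [Real.log_mul hC.ne' (by positivity), Real.log_pow]
    push_cast
    ring
  rw [h7]
  have h8 := mul_le_mul_of_nonneg_right h5 hl0.le
  have h9 : ((D + k * Real.log C) * (1 / (l : ℝ)) + 2 * k * (Real.log (l : ℝ) / (l : ℝ))) * l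
      = D + k * (Real.log C + 2 * Real.log l) := by
    field_simp
    ring
  linarith

theorem params {δ : ℝ} (hδ : 0 < δ) (hθ : δ ≤ theta) : ∃ ε κ M p : ℝ, ∃ l m : ℕ, 0 < ε ∧ 0 < κ ∧
    0 ≤ M ∧ 1 ≤ l ∧ 1 ≤ m ∧ 4 ≤ (l : ℝ) + M ∧ gam m l (-(3 * ε)) < p / 2 ∧
    480 * (12 * Real.exp (-(M / 4))) ≤ ε ∧ κ * (12 * Real.exp (-(M / 4))) ≤ 1 / 160 ∧
    Real.exp (-(κ * ε)) ≤ p ∧ Real.exp (-(1 / 160 / (κ * (12 * Real.exp (-(M / 4)))))) ≤ p ∧
    12 * p ≤ Real.exp (-((theta - δ) * ((l : ℝ) + 2 * M))) := by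
  have hth : 0 < theta := by linarith
  set θ' := 1 - δ / (4 * (theta + 1)) with hθ'
  have hq : 0 < δ / (4 * (theta + 1)) := by positivity
  have hq1 : δ / (4 * (theta + 1)) < 1 := by
    rw [div_lt_one (by positivity)]
    linarith
  have hθ0 : 0 < θ' := by rw [hθ']; linarith
  have hθ1 : θ' < 1 := by rw [hθ']; linarith
  have hθθ : theta - δ / 4 ≤ theta * θ' := by
    have h1 : theta * θ' = theta - δ / 4 * (theta / (theta + 1)) := by
      rw [hθ']
      field_simp
    rw [h1]
    have h2 : theta / (theta + 1) ≤ 1 := by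
      rw [div_le_one (by linarith)]
      linarith
    nlinarith
  set ε := min 1 (δ * (1 - θ') / 2880) with hε
  have hε0 : 0 < ε := by
    apply lt_min one_pos
    have : 0 < 1 - θ' := by linarith
    positivity
  have hε1 : ε ≤ 1 := min_le_left _ _
  have hε2 : 720 * ε ^ 2 * θ' / (1 - θ') ≤ δ / 4 := by
    have h1 : ε ≤ δ * (1 - θ') / 2880 := min_le_right _ _
    have h2 : 0 < 1 - θ' := by linarith
    rw [div_le_iff₀ h2]
    have h3 : ε ^ 2 ≤ ε := by nlinarith
    have h4 : ε ^ 2 * θ' ≤ ε := by nlinarith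
    nlinarith
  set C := 5760 * (theta + 1) ^ 2 / ε with hC
  have hC0 : 0 < C := by positivity
  have hev := log_small C (Real.log 60) (δ / 2) hC0 (by linarith) (8 * (theta - δ))
  obtain ⟨l, h1, h2⟩ := (hev.and (eventually_ge_atTop 4)).exists
  have hl1 : 1 ≤ l := by omega
  have hl4 : (4 : ℝ) ≤ l := by exact_mod_cast h2
  obtain ⟨m, hm, hm2⟩ := exists_mesh l hl1
  set M := 4 * Real.log (C * (l : ℝ) ^ 2) with hM
  have hCl : 1 ≤ C * (l : ℝ) ^ 2 := by
    have h3 : 1 ≤ C := by
      rw [hC, le_div_iff₀ hε0]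
      nlinarith
    nlinarith
  have hM0 : 0 ≤ M := by
    rw [hM]
    have := Real.log_nonneg hCl
    linarith
  have hE : 12 * Real.exp (-(M / 4)) = ε / (480 * (theta + 1) ^ 2 * (l : ℝ) ^ 2) := by
    have h3 : M / 4 = Real.log (C * (l : ℝ) ^ 2) := by rw [hM]; ring
    rw [h3, Real.exp_neg, Real.exp_log (by positivity), hC]
    field_simp
    norm_num
  have hth1 : 1 ≤ theta + 1 := by linarith
  have hlt : 1 ≤ (theta + 1) * l := by nlinarith
  have hlt2 : 1 ≤ (theta + 1) ^ 2 * (l : ℝ) ^ 2 := by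
    have : (theta + 1) ^ 2 * (l : ℝ) ^ 2 = ((theta + 1) * l) ^ 2 := by ring
    rw [this]
    nlinarith
  refine ⟨ε, (theta + 1) * l / ε, M, 5 * Real.exp (-((theta - δ / 2) * l)), l, m, hε0, by positivity,
    hM0, hl1, hm, by linarith, ?_, ?_, ?_, ?_, ?_, ?_⟩
  · -- gam
    have h3 := gam_shift hm hl1 (covGrid_psd m l) 0 (3 * ε) θ' (by positivity) hθ0 hθ1
    rw [zero_sub] at h3
    have h4 : gam m l 0 ≤ 2 * Real.exp (-(theta * l)) := by
      rw [gam_zero]
      have := pers_le_exp hl1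
      linarith
    have h5 : (gam m l 0) ^ θ' ≤ 2 * Real.exp (-(theta * θ' * l)) := by
      calc (gam m l 0) ^ θ' ≤ (2 * Real.exp (-(theta * l))) ^ θ' :=
            Real.rpow_le_rpow (gam_nonneg _ _ _) h4 hθ0.le
        _ = 2 ^ θ' * Real.exp (-(theta * θ' * l)) := by
            rw [Real.mul_rpow (by norm_num) (Real.exp_pos _).le, ← Real.exp_mul]
            congr 2
            ring
        _ ≤ 2 * Real.exp (-(theta * θ' * l)) := by
            apply mul_le_mul_of_nonneg_right _ (Real.exp_pos _).le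
            calc (2 : ℝ) ^ θ' ≤ 2 ^ (1 : ℝ) := Real.rpow_le_rpow_of_exponent_le (by norm_num) hθ1.le
              _ = 2 := Real.rpow_one 2
    have h6 : Real.exp (80 * l * (3 * ε) ^ 2 * θ' / (1 - θ')) ≤ Real.exp (δ / 4 * l) := by
      apply Real.exp_le_exp.2
      have h7 := mul_le_mul_of_nonneg_right hε2 (by linarith : (0 : ℝ) ≤ l)
      refine (le_of_eq ?_).trans h7
      ring
    calc gam m l (-(3 * ε)) ≤ (gam m l 0) ^ θ' * Real.exp (80 * l * (3 * ε) ^ 2 * θ' / (1 - θ')) := h3
      _ ≤ (2 * Real.exp (-(theta * θ' * l))) * Real.exp (δ / 4 * l) :=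
          mul_le_mul h5 h6 (Real.exp_pos _).le (by positivity)
      _ = 2 * Real.exp (-(theta * θ' * l) + δ / 4 * l) := by rw [mul_assoc, ← Real.exp_add]
      _ ≤ 2 * Real.exp (-((theta - δ / 2) * l)) := by
          apply mul_le_mul_of_nonneg_left _ (by norm_num)
          apply Real.exp_le_exp.2
          nlinarith
      _ < 5 * Real.exp (-((theta - δ / 2) * l)) / 2 := by
          have := Real.exp_pos (-((theta - δ / 2) * l))
          linarith
  · rw [hE]
    rw [mul_div_assoc', div_le_iff₀ (by positivity)]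
    nlinarith
  · rw [hE]
    have h3 : (theta + 1) * (l : ℝ) / ε * (ε / (480 * (theta + 1) ^ 2 * (l : ℝ) ^ 2))
        = 1 / 480 / ((theta + 1) * l) := by
      field_simp
    rw [h3, div_le_iff₀ (by positivity)]
    nlinarith
  · have h3 : (theta + 1) * (l : ℝ) / ε * ε = (theta + 1) * l := by field_simp
    rw [h3]
    have h4 : Real.exp (-((theta + 1) * l)) ≤ Real.exp (-((theta - δ / 2) * l)) := by
      apply Real.exp_le_exp.2
      nlinarith
    have h5 := Real.exp_pos (-((theta - δ / 2) * l))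
    linarith
  · rw [hE]
    have h3 : 1 / 160 / ((theta + 1) * (l : ℝ) / ε * (ε / (480 * (theta + 1) ^ 2 * (l : ℝ) ^ 2)))
        = 3 * ((theta + 1) * l) := by
      field_simp
      norm_num
    rw [h3]
    have h4 : Real.exp (-(3 * ((theta + 1) * l))) ≤ Real.exp (-((theta - δ / 2) * l)) := by
      apply Real.exp_le_exp.2
      nlinarith
    have h5 := Real.exp_pos (-((theta - δ / 2) * l))
    linarith
  · have h3 : 12 * (5 * Real.exp (-((theta - δ / 2) * l)))
        = Real.exp (Real.log 60 + -((theta - δ / 2) * l)) := by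
      rw [Real.exp_add, Real.exp_log (by norm_num)]
      ring
    rw [h3]
    apply Real.exp_le_exp.2
    rw [hM]
    nlinarith

/-- Upper bound for the large parts. -/
theorem hi_upper {δ : ℝ} (hδ : 0 < δ) (b : ℝ) : ∃ C a0 b1 : ℝ, 0 < C ∧ 1 ≤ a0 ∧ 0 ≤ b1 ∧
    ∀ (a : ℝ) (S : ℕ), a0 ≤ a → b1 + Real.log a ≤ S / a →
      (PA a).real {ω | ∀ t, ⌊a * b⌋₊ ≤ t → 0 ≤ DA S t ω}
        ≤ C * Real.exp (-((theta - δ) * Real.log a)) := by
  rcases lt_or_ge theta δ with hθ | hθ
  · refine ⟨1, 1, 0, one_pos, le_rfl, le_rfl, fun a S ha _ => ?_⟩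
    have h1 : (PA a).real {ω | ∀ t, ⌊a * b⌋₊ ≤ t → 0 ≤ DA S t ω} ≤ 1 := measureReal_le_one
    have h2 : 1 ≤ Real.exp (-((theta - δ) * Real.log a)) := by
      apply Real.one_le_exp
      have := Real.log_nonneg ha
      nlinarith
    linarith
  obtain ⟨ε, κ, M, p, l, m, hε, hκ, hM, hl, hm, hlam, hgam, c1, c2, c3, c4, c5⟩ := params hδ hθ
  obtain ⟨K0, hK0, hmesh⟩ := meshA_upper m l (-(3 * ε)) (η := p / 2 - gam m l (-(3 * ε)))
    (by linarith)
  set lam := (l : ℝ) + M with hlamdef
  set u0 := max (max K0 2) b with hu0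
  have hu0K : K0 ≤ u0 := (le_max_left _ _).trans (le_max_left _ _)
  have hu02 : 2 ≤ u0 := (le_max_right _ _).trans (le_max_left _ _)
  have hu0b : b ≤ u0 := le_max_right _ _
  refine ⟨Real.exp ((theta - δ) * (Real.log K0 + u0 + lam)), max 1 (K0 * Real.exp u0), K0,
    Real.exp_pos _, le_max_left _ _, by linarith, ?_⟩
  intro a S ha hS
  have ha1 : 1 ≤ a := (le_max_left _ _).trans ha
  have hpos : 0 < a := by linarith
  have haK : K0 * Real.exp u0 ≤ a := (le_max_right _ _).trans ha
  have hlogK : u0 ≤ Real.log (a / K0) := by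
    rw [Real.le_log_iff_exp_le (by positivity), le_div_iff₀ (by linarith)]
    linarith
  have hlogdiv : Real.log (a / K0) = Real.log a - Real.log K0 :=
    Real.log_div hpos.ne' (by linarith)
  have hlogK0 : 0 ≤ Real.log K0 := Real.log_nonneg hK0
  set B := ⌊(Real.log (a / K0) - u0) / lam⌋₊ with hB
  have hB0 : 0 ≤ (Real.log (a / K0) - u0) / lam := div_nonneg (by linarith) (by linarith)
  have hB1 : (B : ℝ) * lam ≤ Real.log (a / K0) - u0 := by
    have := Nat.floor_le hB0
    rw [le_div_iff₀ (by linarith)] at this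
    exact this
  have hB2 : Real.log (a / K0) - u0 < ((B : ℝ) + 1) * lam := by
    have := Nat.lt_floor_add_one ((Real.log (a / K0) - u0) / lam)
    rw [div_lt_iff₀ (by linarith)] at this
    exact this
  have huj : ∀ j < B, u0 + j * lam ≤ Real.log (a / K0) := by
    intro j hj
    have : (j : ℝ) ≤ B := by exact_mod_cast hj.le
    nlinarith
  have hKj : ∀ j < B, K0 ≤ a * Real.exp (-(u0 + j * lam)) := by
    intro j hj
    have h2 : Real.exp (-(Real.log (a / K0))) ≤ Real.exp (-(u0 + j * lam)) :=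
      Real.exp_le_exp.2 (by linarith [huj j hj])
    rw [Real.exp_neg, Real.exp_log (by positivity)] at h2
    have h3 := mul_le_mul_of_nonneg_left h2 hpos.le
    have h4 : a * (a / K0)⁻¹ = K0 := by field_simp
    linarith
  have hcore := upA_core (a := a) (u0 := u0) (M := M) (ε := ε) (κ := κ) (p := p) (S := S) (B := B)
    (l := l) (m := m) ha1 hu02 hm hM hlam (fun j hj => hK0.trans (hKj j hj)) ?_ ?_ hε hκ c1 c2 c3 c4
  · have hsub : {ω | ∀ t, ⌊a * b⌋₊ ≤ t → 0 ≤ DA S t ω}
        ⊆ ⋂ j ∈ Finset.range B, meshA a (u0 + j * lam) S m l (-ε) := by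
      intro ω hω
      simp only [Set.mem_iInter]
      intro j _ i _
      have h1 : ⌊a * b⌋₊ ≤ tA a (u0 + j * lam) m i := by
        rw [tA]
        apply Nat.floor_le_floor
        apply mul_le_mul_of_nonneg_left _ hpos.le
        have h2 : (0 : ℝ) ≤ j * lam := by positivity
        have h3 : (0 : ℝ) ≤ (i : ℝ) / m := by positivity
        linarith
      have h2 := hω _ h1
      have h3 := bA_pos hpos (tA a (u0 + j * lam) m i)
      nlinarith
    refine (measureReal_mono hsub (measure_ne_top _ _)).trans (hcore.trans ?_)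
    have hp0 : 0 < p := (Real.exp_pos _).trans_le c3
    calc (12 * p) ^ B ≤ (Real.exp (-((theta - δ) * ((l : ℝ) + 2 * M)))) ^ B :=
          pow_le_pow_left₀ (by positivity) c5 B
      _ = Real.exp (-((theta - δ) * ((l : ℝ) + 2 * M) * B)) := by
          rw [← Real.exp_nat_mul]
          congr 1
          ring
      _ ≤ Real.exp ((theta - δ) * (Real.log K0 + u0 + lam) + -((theta - δ) * Real.log a)) := by
          apply Real.exp_le_exp.2
          have h1 : Real.log a - Real.log K0 - u0 - lam ≤ ((l : ℝ) + 2 * M) * B := by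
            have h2 : lam * B ≤ ((l : ℝ) + 2 * M) * B := by
              apply mul_le_mul_of_nonneg_right _ (Nat.cast_nonneg B)
              rw [hlamdef]
              linarith
            nlinarith
          have h3 := mul_le_mul_of_nonneg_left h1 (by linarith : 0 ≤ theta - δ)
          nlinarith
      _ = _ := Real.exp_add _ _
  · have h1 : a * (u0 + B * lam) ≤ S := by
      have h2 : u0 + B * lam ≤ S / a := by linarith
      rw [le_div_iff₀ hpos] at h2
      linarith
    have h0 : 0 ≤ a * (u0 + B * lam) := by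
      have : (0 : ℝ) ≤ B * lam := by positivity
      apply mul_nonneg hpos.le (by linarith)
    exact_mod_cast (Nat.floor_le h0).trans h1
  · intro j hj
    have h0 : (0 : ℝ) ≤ j * lam := by positivity
    have h1 := hmesh a (u0 + j * lam) S (by linarith) (hKj j hj) (by
      have := huj j hj
      linarith)
    linarith

/-- Upper bound for the small parts. -/
theorem lo_upper {δ : ℝ} (hδ : 0 < δ) : ∃ ε : ℝ, 0 < ε ∧ ∀ t1 : ℝ, ∃ C K : ℝ, 0 < C ∧ 1 ≤ K ∧
    ∀ (a Tm : ℝ) (T : ℕ), 1 ≤ Tm → K * Tm ≤ T → (T : ℝ) ≤ a →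
      (PA a).real {ω | ∀ t : ℕ, t1 ≤ t → (t : ℝ) ≤ Tm → -ε * bB a t ≤ GB T t ω}
        ≤ C * Real.exp (-((theta - δ) * Real.log Tm)) := by
  rcases lt_or_ge theta δ with hθ | hθ
  · refine ⟨1, one_pos, fun t1 => ⟨1, 1, one_pos, le_rfl, fun a Tm T hTm _ _ => ?_⟩⟩
    have h1 : (PA a).real {ω | ∀ t : ℕ, t1 ≤ t → (t : ℝ) ≤ Tm → -1 * bB a t ≤ GB T t ω} ≤ 1 :=
      measureReal_le_one
    have h2 : 1 ≤ Real.exp (-((theta - δ) * Real.log Tm)) := by
      apply Real.one_le_exp
      have := Real.log_nonneg hTm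
      nlinarith
    linarith
  obtain ⟨ε, κ, M, p, l, m, hε, hκ, hM, hl, hm, hlam, hgam, c1, c2, c3, c4, c5⟩ := params hδ hθ
  refine ⟨ε, hε, fun t1 => ?_⟩
  obtain ⟨K0, hK0, hmesh⟩ := meshB_upper m l (-(3 * ε)) (η := p / 2 - gam m l (-(3 * ε)))
    (by linarith)
  set lam := (l : ℝ) + 2 * M with hlamdef
  set u0 := max (max K0 1) t1 with hu0
  have hu0K : K0 ≤ u0 := (le_max_left _ _).trans (le_max_left _ _)
  have hu02 : 1 ≤ u0 := (le_max_right _ _).trans (le_max_left _ _)
  have hu0b : t1 ≤ u0 := le_max_right _ _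
  refine ⟨Real.exp ((theta - δ) * (u0 + lam)), K0, Real.exp_pos _, hK0, ?_⟩
  intro a Tm T hTm hK hTa
  have hTm0 : 0 < Tm := by linarith
  have hTmT : Tm ≤ T := by nlinarith
  have ha1 : 1 ≤ a := by linarith
  have hpos : 0 < a := by linarith
  set B := ⌊(Real.log Tm - u0) / lam⌋₊ with hB
  have hB2 : Real.log Tm - u0 < ((B : ℝ) + 1) * lam := by
    have := Nat.lt_floor_add_one ((Real.log Tm - u0) / lam)
    rw [div_lt_iff₀ (by linarith)] at this
    exact this
  have hfinal : Real.exp (-((theta - δ) * ((l : ℝ) + 2 * M) * B))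
      ≤ Real.exp ((theta - δ) * (u0 + lam)) * Real.exp (-((theta - δ) * Real.log Tm)) := by
    rw [← Real.exp_add]
    apply Real.exp_le_exp.2
    have h1 : Real.log Tm - u0 - lam ≤ lam * B := by nlinarith
    have h3 := mul_le_mul_of_nonneg_left h1 (by linarith : 0 ≤ theta - δ)
    nlinarith
  rcases Nat.eq_zero_or_pos B with hB0 | hB0
  · rw [hB0] at hfinal
    simp only [Nat.cast_zero, mul_zero, neg_zero, Real.exp_zero] at hfinal
    exact measureReal_le_one.trans hfinal
  have hB1 : (B : ℝ) * lam ≤ Real.log Tm - u0 := by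
    have h1 : 0 ≤ (Real.log Tm - u0) / lam := by
      by_contra hcon
      push Not at hcon
      have : B = 0 := Nat.floor_of_nonpos hcon.le
      omega
    have := Nat.floor_le h1
    rw [le_div_iff₀ (by linarith)] at this
    exact this
  have huj : ∀ j ≤ B, u0 + j * lam ≤ Real.log Tm := by
    intro j hj
    have : (j : ℝ) ≤ B := by exact_mod_cast hj
    nlinarith
  have hcore := upB_core (a := a) (u0 := u0) (M := M) (ε := ε) (κ := κ) (p := p) (T := T) (B := B)
    (l := l) (m := m) ha1 hTa hu02 hm hl hM (by linarith) ?_ ?_ hε hκ c1 c2 c3 c4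
  · have hsub : {ω | ∀ t : ℕ, t1 ≤ t → (t : ℝ) ≤ Tm → -ε * bB a t ≤ GB T t ω}
        ⊆ ⋂ j ∈ Finset.range B, meshB a (u0 + j * lam) T m l (-ε) := by
      intro ω hω
      simp only [Set.mem_iInter]
      intro j hj i hi
      have hj' := Finset.mem_range.1 hj
      apply hω
      · have h1 := (tB_bounds (u0 + j * lam) m i).1
        have h2 := Real.add_one_le_exp (u0 + j * lam + (i : ℝ) / m)
        have h3 : (0 : ℝ) ≤ j * lam := by positivity
        have h4 : (0 : ℝ) ≤ (i : ℝ) / m := by positivity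
        linarith
      · refine (tB_bounds (u0 + j * lam) m i).2.trans ?_
        rw [← Real.le_log_iff_exp_le hTm0]
        have h4 : (i : ℝ) / m ≤ l := by
          rw [div_le_iff₀ (by exact_mod_cast hm)]
          exact_mod_cast hi
        have h5 := huj (j + 1) (by omega)
        push_cast at h5
        have h6 : (l : ℝ) ≤ lam := by rw [hlamdef]; linarith
        linarith
    refine (measureReal_mono hsub (measure_ne_top _ _)).trans (hcore.trans ?_)
    have hp0 : 0 < p := (Real.exp_pos _).trans_le c3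
    calc (12 * p) ^ B ≤ (Real.exp (-((theta - δ) * ((l : ℝ) + 2 * M)))) ^ B :=
          pow_le_pow_left₀ (by positivity) c5 B
      _ = Real.exp (-((theta - δ) * ((l : ℝ) + 2 * M) * B)) := by
          rw [← Real.exp_nat_mul]
          congr 1
          ring
      _ ≤ _ := hfinal
  · have h1 : Real.exp (u0 + B * lam) ≤ T := by
      refine le_trans ?_ hTmT
      rw [← Real.le_log_iff_exp_le hTm0]
      exact huj B le_rfl
    exact_mod_cast (Nat.floor_le (Real.exp_pos _).le).trans h1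
  · intro j hj
    have h0 : (0 : ℝ) ≤ j * lam := by positivity
    have h1 := hmesh a (u0 + j * lam) T (by linarith) (by
      have h2 : Real.exp (-(Real.log Tm)) ≤ Real.exp (-(u0 + j * lam)) :=
        Real.exp_le_exp.2 (by linarith [huj j hj.le])
      rw [Real.exp_neg, Real.exp_log hTm0] at h2
      have h3 := mul_le_mul_of_nonneg_left h2 (Nat.cast_nonneg T : (0 : ℝ) ≤ T)
      refine le_trans ?_ h3
      rw [← div_eq_mul_inv, le_div_iff₀ hTm0]
      exact hK) hTa
    linarith

end Pool.Agent.Helper95.Dom
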