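import Pool.Agent.Helper95.DomPers

/-!
Deterministic part of the lower bound.
-/

namespace Pool.Agent.Helper95.Dom

open MeasureTheory ProbabilityTheory Filter
open scoped Topology ENNReal

theorem DA_step {S t t' : ℕ} (h1 : t ≤ t') (h2 : t' ≤ S) (ω : Om) :
    DA S t ω = DA S t' ω + ∑ i ∈ Finset.Ico t t', NS i S ω := by
  have h := DA_split h1 h2 ω
  rw [h, add_assoc]
  congr 1
  rw [RR_eq]
  have h3 : ((t' : ℝ) - t) * NS t' S ω = ∑ i ∈ Finset.Ico t t', NS t' S ω := by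
    rw [Finset.sum_const, Nat.card_Ico, nsmul_eq_mul, Nat.cast_sub h1]
  rw [h3, ← Finset.sum_add_distrib]
  apply Finset.sum_congr rfl
  intro i hi
  rw [Finset.mem_Ico] at hi
  unfold NS
  rw [← Finset.Ioc_union_Ioc_eq_Ioc hi.2.le h2, Finset.sum_union, add_comm]
  rw [Finset.disjoint_left]
  intro x hx hx'
  rw [Finset.mem_Ioc] at hx hx'
  omega

theorem NS_split {t t1 S : ℕ} (h1 : t ≤ t1) (h2 : t1 ≤ S) (ω : Om) :
    NS t S ω = NS t t1 ω + NS t1 S ω := by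
  unfold NS
  rw [← Finset.Ioc_union_Ioc_eq_Ioc h1 h2, Finset.sum_union]
  rw [Finset.disjoint_left]
  intro x hx hx'
  rw [Finset.mem_Ioc] at hx hx'
  omega

theorem DA_low {S T t : ℕ} (h1 : t ≤ T) (h2 : T ≤ S) (ω : Om) :
    DA S t ω = DA S 0 ω - GB T t ω - t * NS T S ω := by
  unfold DA GB NS
  have e1 : ∀ f : ℕ → ℝ, ∑ s ∈ Finset.Icc 1 S, f s
      = ∑ s ∈ Finset.Icc 1 T, f s + ∑ s ∈ Finset.Ioc T S, f s := by
    intro f
    rw [Icc_eq_Ioc, Icc_eq_Ioc, ← Finset.Ioc_union_Ioc_eq_Ioc (Nat.zero_le T) h2, Finset.sum_union]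
    rw [Finset.disjoint_left]
    intro x hx hx'
    rw [Finset.mem_Ioc] at hx hx'
    omega
  rw [e1, e1]
  have e2 : ∑ s ∈ Finset.Icc 1 T, ((s - t : ℕ) : ℝ) * xs s ω
      = ∑ s ∈ Finset.Icc 1 T, ((s - 0 : ℕ) : ℝ) * xs s ω
        - ∑ s ∈ Finset.Icc 1 T, ((min s t : ℕ) : ℝ) * xs s ω := by
    rw [← Finset.sum_sub_distrib]
    apply Finset.sum_congr rfl
    intro s _
    have : ((s - t : ℕ) : ℝ) = ((s - 0 : ℕ) : ℝ) - ((min s t : ℕ) : ℝ) := by
      have : s - 0 = (s - t) + min s t := by omega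
      rw [this]; push_cast; ring
    rw [this]
    ring
  have e3 : ∑ s ∈ Finset.Ioc T S, ((s - t : ℕ) : ℝ) * xs s ω
      = ∑ s ∈ Finset.Ioc T S, ((s - 0 : ℕ) : ℝ) * xs s ω - t * ∑ s ∈ Finset.Ioc T S, xs s ω := by
    rw [Finset.mul_sum, ← Finset.sum_sub_distrib]
    apply Finset.sum_congr rfl
    intro s hs
    rw [Finset.mem_Ioc] at hs
    have : ((s - t : ℕ) : ℝ) = ((s - 0 : ℕ) : ℝ) - (t : ℝ) := by
      have : s - 0 = (s - t) + t := by omega
      rw [this]; push_cast; ring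
    rw [this]
    ring
  rw [e2, e3]
  ring

theorem verify {S N TA TB : ℕ} {A g y : ℝ} (ω : Om) (hTB : TB ≤ 2 * N) (hTA : 4 * N ≤ TA)
    (hS : TA ≤ S) (hA : 4 * g ≤ A) (hA0 : 0 ≤ A) (hg : 0 ≤ g)
    (h1 : ∀ t, TA ≤ t → 0 ≤ DA S t ω)
    (h2 : ∀ t, 3 * N ≤ t → t ≤ TA → 0 ≤ NS t S ω)
    (h3 : ∀ t, 3 * N ≤ t → t ≤ 4 * N → A * (4 * N - t) ≤ NS t S ω)
    (h4 : ∀ t, 2 * N ≤ t → t ≤ 3 * N → -(2 * g * N) ≤ NS t S ω)
    (h5 : ∀ t, TB ≤ t → t ≤ 2 * N → NS t S ω ≤ 0)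
    (h6 : NS TB S ω ≤ -y)
    (h7 : 0 ≤ DA S 0 ω)
    (h8 : ∀ t, t ≤ TB → GB TB t ω ≤ t * y) (t : ℕ) : 0 ≤ DA S t ω := by
  have p1 : ∀ t, 3 * N ≤ t → t ≤ TA → 0 ≤ DA S t ω := by
    intro t ht ht'
    rw [DA_step ht' hS]
    have := h1 TA le_rfl
    have h9 : 0 ≤ ∑ i ∈ Finset.Ico t TA, NS i S ω := by
      apply Finset.sum_nonneg
      intro i hi
      rw [Finset.mem_Ico] at hi
      exact h2 i (by omega) hi.2.le
    linarith
  have p2 : A * (N : ℝ) ^ 2 / 2 ≤ DA S (3 * N) ω := by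
    rw [DA_step (by omega : 3 * N ≤ 4 * N) (by omega)]
    have h9 := p1 (4 * N) (by omega) hTA
    have h10 : ∑ i ∈ Finset.Ico (3 * N) (4 * N), A * ((4 * N : ℝ) - i)
        ≤ ∑ i ∈ Finset.Ico (3 * N) (4 * N), NS i S ω := by
      apply Finset.sum_le_sum
      intro i hi
      rw [Finset.mem_Ico] at hi
      exact h3 i hi.1 hi.2.le
    have h11 : ∑ i ∈ Finset.Ico (3 * N) (4 * N), A * ((4 * N : ℝ) - i)
        = A * (N * (N + 1) / 2) := by
      rw [← Finset.mul_sum]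
      congr 1
      have h12 : ∀ M : ℕ, ∑ i ∈ Finset.Ico (3 * N) (3 * N + M), ((4 * N : ℝ) - i)
          = M * N - M * (M - 1) / 2 := by
        intro M
        induction M with
        | zero => simp
        | succ M ih =>
          rw [← add_assoc, Finset.sum_Ico_succ_top (by omega), ih]
          push_cast
          ring
      have h13 := h12 N
      have h14 : 3 * N + N = 4 * N := by ring
      rw [h14] at h13
      rw [h13]
      ring
    have h15 : A * (N : ℝ) ^ 2 / 2 ≤ A * (N * (N + 1) / 2) := by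
      have : 0 ≤ A * (N : ℝ) := by positivity
      nlinarith
    linarith
  have p3 : ∀ t, 2 * N ≤ t → t ≤ 3 * N → 0 ≤ DA S t ω := by
    intro t ht ht'
    rw [DA_step ht' (by omega)]
    have h9 : ∑ i ∈ Finset.Ico t (3 * N), -(2 * g * N) ≤ ∑ i ∈ Finset.Ico t (3 * N), NS i S ω := by
      apply Finset.sum_le_sum
      intro i hi
      rw [Finset.mem_Ico] at hi
      exact h4 i (by omega) hi.2.le
    rw [Finset.sum_const, Nat.card_Ico, nsmul_eq_mul] at h9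
    have h10 : ((3 * N - t : ℕ) : ℝ) ≤ N := by
      have : 3 * N - t ≤ N := by omega
      exact_mod_cast this
    have h11 : ((3 * N - t : ℕ) : ℝ) * (2 * g * N) ≤ N * (2 * g * N) :=
      mul_le_mul_of_nonneg_right h10 (by positivity)
    have h12 : 4 * g * (N : ℝ) ^ 2 ≤ A * (N : ℝ) ^ 2 := mul_le_mul_of_nonneg_right hA (sq_nonneg _)
    nlinarith
  have p4 : ∀ t, t ≤ TB → 0 ≤ DA S t ω := by
    intro t ht
    rw [DA_low ht (by omega)]
    have h9 := h8 t ht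
    have h10 : (t : ℝ) * NS TB S ω ≤ t * (-y) := mul_le_mul_of_nonneg_left h6 (Nat.cast_nonneg _)
    linarith
  have p5 : ∀ t, TB ≤ t → t ≤ 2 * N → 0 ≤ DA S t ω := by
    intro t ht ht'
    have h9 := p4 TB le_rfl
    rw [DA_step ht (by omega)] at h9
    have h10 : ∑ i ∈ Finset.Ico TB t, NS i S ω ≤ 0 := by
      apply Finset.sum_nonpos
      intro i hi
      rw [Finset.mem_Ico] at hi
      exact h5 i hi.1 (by omega)
    linarith
  rcases le_or_gt t TB with h | h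
  · exact p4 t h
  rcases le_or_gt t (2 * N) with h' | h'
  · exact p5 t h.le h'
  rcases le_or_gt t (3 * N) with h'' | h''
  · exact p3 t h'.le h''
  rcases le_or_gt t TA with h3' | h3'
  · exact p1 t h''.le h3'
  · exact h1 t h3'.le

end Pool.Agent.Helper95.Dom
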