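import Mathlib

set_option autoImplicit false

open scoped ENNReal

namespace Pool.Agent.Helper95.ARW

variable {d : ℕ}

/-- sup norm on `ℤ^d` as a natural number -/
def nrm (x : Fin d → ℤ) : ℕ := Finset.univ.sup fun i => (x i).natAbs

lemma nrm_le_iff {x : Fin d → ℤ} {m : ℕ} : nrm x ≤ m ↔ ∀ i, (x i).natAbs ≤ m := by
  simp [nrm, Finset.sup_le_iff]

lemma natAbs_le_nrm (x : Fin d → ℤ) (i : Fin d) : (x i).natAbs ≤ nrm x :=
  Finset.le_sup (f := fun i => (x i).natAbs) (Finset.mem_univ i)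

lemma nrm_zero : nrm (0 : Fin d → ℤ) = 0 := by
  have : nrm (0 : Fin d → ℤ) ≤ 0 := nrm_le_iff.2 fun i => by simp
  omega

lemma nrm_neg (x : Fin d → ℤ) : nrm (-x) = nrm x := by simp [nrm]

lemma nrm_sub_comm (x y : Fin d → ℤ) : nrm (x - y) = nrm (y - x) := by
  rw [← nrm_neg (x - y), neg_sub]

lemma nrm_add_le (x y : Fin d → ℤ) : nrm (x + y) ≤ nrm x + nrm y := by
  rw [nrm_le_iff]
  intro i
  have h1 := natAbs_le_nrm x i
  have h2 := natAbs_le_nrm y i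
  simp only [Pi.add_apply]
  omega

lemma nrm_le_add_sub (x y : Fin d → ℤ) : nrm x ≤ nrm y + nrm (x - y) := by
  have := nrm_add_le y (x - y)
  rwa [add_sub_cancel] at this

/-- the ball of radius `m` -/
noncomputable def ball (d m : ℕ) : Finset (Fin d → ℤ) := Fintype.piFinset fun _ => Finset.Icc (-(m:ℤ)) m

lemma mem_ball {m : ℕ} {x : Fin d → ℤ} : x ∈ ball d m ↔ nrm x ≤ m := by
  rw [ball, Fintype.mem_piFinset, nrm_le_iff]
  refine forall_congr' fun i => ?_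
  rw [Finset.mem_Icc]; omega

lemma card_ball (m : ℕ) : (ball d m).card = (2 * m + 1) ^ d := by
  rw [ball, Fintype.card_piFinset]
  simp only [Int.card_Icc, Finset.prod_const, Finset.card_univ, Fintype.card_fin]
  congr 1; omega

/-- dyadic level -/
def lev (x : Fin d → ℤ) : ℕ := Nat.log 2 (1 + nrm x)

lemma two_pow_lev_le (x : Fin d → ℤ) : 2 ^ lev x ≤ 1 + nrm x :=
  Nat.pow_log_le_self 2 (by omega)

lemma lt_two_pow_lev (x : Fin d → ℤ) : 1 + nrm x < 2 ^ (lev x + 1) :=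
  Nat.lt_pow_succ_log_self (by norm_num) _

lemma tsum_dyadic (F : (Fin d → ℤ) → ℝ≥0∞) (c : ℕ → ℝ≥0∞) (h : ∀ x, F x ≤ c (lev x)) :
    ∑' x, F x ≤ ∑' j, ((2 : ℝ≥0∞) ^ (j + 2)) ^ d * c j := by
  classical
  calc ∑' x, F x ≤ ∑' x, c (lev x) := ENNReal.tsum_le_tsum h
    _ = ∑' (x : Fin d → ℤ) (j : ℕ), if lev x = j then c j else 0 := by
        refine tsum_congr fun x => ?_
        rw [tsum_eq_single (lev x)]
        · simp
        · intro j hj; rw [if_neg hj.symm]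
    _ = ∑' (j : ℕ) (x : Fin d → ℤ), if lev x = j then c j else 0 := ENNReal.tsum_comm
    _ ≤ _ := by
        refine ENNReal.tsum_le_tsum fun j => ?_
        calc ∑' x : Fin d → ℤ, (if lev x = j then c j else 0)
            = ∑ x ∈ ball d (2 ^ (j + 1) - 1), (if lev x = j then c j else 0) := by
              refine tsum_eq_sum fun x hx => if_neg fun hj => hx ?_
              rw [mem_ball]
              have := lt_two_pow_lev x
              rw [hj] at this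
              omega
          _ ≤ ∑ x ∈ ball d (2 ^ (j + 1) - 1), c j := by
              refine Finset.sum_le_sum fun x _ => ?_
              split_ifs
              · exact le_rfl
              · exact zero_le
          _ = ((2 * (2 ^ (j + 1) - 1) + 1) ^ d : ℕ) * c j := by
              rw [Finset.sum_const, card_ball, nsmul_eq_mul]
          _ ≤ _ := by
              gcongr
              have h1 : 2 * (2 ^ (j + 1) - 1) + 1 ≤ (2:ℕ) ^ (j + 2) := by
                have h3 : (2:ℕ) ^ (j + 2) = 2 * 2 ^ (j + 1) := by ring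
                have h4 : 0 < (2:ℕ) ^ (j + 1) := by positivity
                rw [h3]
                omega
              have h2 : (2 * (2 ^ (j + 1) - 1) + 1) ^ d ≤ (2 ^ (j + 2)) ^ d := by gcongr
              exact_mod_cast h2

/-- the kernel `(1 + |x|)^{-s}` -/
noncomputable def kk (s : ℝ) (x : Fin d → ℤ) : ℝ≥0∞ := ((((1 + nrm x : ℕ)) : ℝ≥0∞)⁻¹) ^ s

lemma kk_neg (s : ℝ) (x : Fin d → ℤ) : kk s (-x) = kk s x := by rw [kk, nrm_neg, kk]

lemma kk_sub_comm (s : ℝ) (x y : Fin d → ℤ) : kk s (x - y) = kk s (y - x) := by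
  rw [kk, nrm_sub_comm, kk]

lemma kk_zero (s : ℝ) : kk s (0 : Fin d → ℤ) = 1 := by rw [kk, nrm_zero]; simp

lemma inv_cast_le_one (n : ℕ) : (((1 + n : ℕ) : ℝ≥0∞)⁻¹) ≤ 1 := by
  rw [ENNReal.inv_le_one]
  exact_mod_cast (by omega : 1 ≤ 1 + n)

lemma kk_le_one {s : ℝ} (hs : 0 ≤ s) (x : Fin d → ℤ) : kk s x ≤ 1 :=
  ENNReal.rpow_le_one (inv_cast_le_one _) hs

lemma kk_ne_top {s : ℝ} (hs : 0 ≤ s) (x : Fin d → ℤ) : kk s x ≠ ∞ :=
  ne_top_of_le_ne_top ENNReal.one_ne_top (kk_le_one hs x)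

lemma kk_pos {s : ℝ} (hs : 0 ≤ s) (x : Fin d → ℤ) : 0 < kk s x := by
  rw [kk, ENNReal.inv_rpow]
  exact ENNReal.inv_pos.2 (ENNReal.rpow_ne_top_of_nonneg hs (ENNReal.natCast_ne_top _))

lemma kk_add (s t : ℝ) (x : Fin d → ℤ) : kk (s + t) x = kk s x * kk t x := by
  rw [kk, kk, kk]
  refine ENNReal.rpow_add _ _ ?_ ?_
  · exact ENNReal.inv_ne_zero.2 (ENNReal.natCast_ne_top _)
  · rw [ENNReal.inv_ne_top]
    exact_mod_cast (by omega : 1 + nrm x ≠ 0)

/-- comparison: if `1 + |x| ≤ C (1 + |y|)` then `kk y ≤ C^s kk x`. -/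
lemma kk_le_of_le {s : ℝ} (hs : 0 ≤ s) {x y : Fin d → ℤ} {C : ℕ} (h : 1 + nrm x ≤ C * (1 + nrm y)) :
    kk s y ≤ (C : ℝ≥0∞) ^ s * kk s x := by
  rw [kk, kk, ← ENNReal.mul_rpow_of_nonneg _ _ hs]
  refine ENNReal.rpow_le_rpow ?_ hs
  have hC : C ≠ 0 := by
    rintro rfl; omega
  have hx : ((1 + nrm x : ℕ) : ℝ≥0∞) ≠ 0 := by exact_mod_cast (by omega : 1 + nrm x ≠ 0)
  have hy : ((1 + nrm y : ℕ) : ℝ≥0∞) ≠ 0 := by exact_mod_cast (by omega : 1 + nrm y ≠ 0)
  rw [ENNReal.inv_le_iff_inv_le, ENNReal.mul_inv (Or.inr (ENNReal.inv_ne_top.2 hx))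
    (Or.inr (ENNReal.inv_ne_zero.2 (ENNReal.natCast_ne_top _))), inv_inv,
    ENNReal.inv_mul_le_iff (by exact_mod_cast hC) (ENNReal.natCast_ne_top _)]
  exact_mod_cast h

/-- power of two in the kernel -/
lemma kk_le_lev {s : ℝ} (hs : 0 ≤ s) (x : Fin d → ℤ) : kk s x ≤ (((2:ℝ≥0∞) ^ s)⁻¹) ^ lev x := by
  rw [kk, ENNReal.inv_rpow, ← ENNReal.inv_pow]
  refine ENNReal.inv_le_inv.2 ?_
  rw [← ENNReal.rpow_natCast, ← ENNReal.rpow_mul, mul_comm, ENNReal.rpow_mul, ENNReal.rpow_natCast]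
  refine ENNReal.rpow_le_rpow ?_ hs
  exact_mod_cast two_pow_lev_le x

end Pool.Agent.Helper95.ARW
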