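import Mathlib
import Pool.Agent.Helper95.ARWLat

set_option autoImplicit false

open scoped ENNReal

namespace Pool.Agent.Helper95.ARW

variable {d : ℕ}

lemma pow_identity (d : ℕ) (s : ℝ) (j : ℕ) :
    ((2 : ℝ≥0∞) ^ (j + 2)) ^ d * (((2:ℝ≥0∞) ^ s)⁻¹) ^ j = 4 ^ d * ((2:ℝ≥0∞) ^ ((d:ℝ) - s)) ^ j := by
  have h1 : ((2 : ℝ≥0∞) ^ (j + 2)) ^ d = 4 ^ d * ((2:ℝ≥0∞) ^ d) ^ j := by
    rw [pow_add, mul_pow, mul_comm, ← pow_mul, ← pow_mul, mul_comm j d, pow_mul]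
    norm_num
    rw [pow_mul]
  have h2 : (2:ℝ≥0∞) ^ ((d:ℝ) - s) = 2 ^ d * ((2:ℝ≥0∞) ^ s)⁻¹ := by
    rw [sub_eq_add_neg, ENNReal.rpow_add _ _ (by norm_num) (by norm_num), ENNReal.rpow_natCast,
      ENNReal.rpow_neg]
  rw [h1, h2, mul_assoc, ← mul_pow]

lemma sum_le_geom {q : ℝ≥0∞} (hq0 : q ≠ 0) (hq : q ≠ ∞) (J : ℕ) :
    ∑' j, (if j ≤ J then q ^ j else 0) ≤ q ^ J * (1 - q⁻¹)⁻¹ := by
  rw [tsum_eq_sum (s := Finset.range (J + 1)) (fun j hj => if_neg (by simpa using hj))]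
  have h1 : ∑ j ∈ Finset.range (J + 1), (if j ≤ J then q ^ j else 0) =
      ∑ j ∈ Finset.range (J + 1), q ^ J * (q⁻¹) ^ j := by
    rw [← Finset.sum_range_reflect]
    refine Finset.sum_congr rfl fun j hj => ?_
    have hj' : j ≤ J := by simpa [Nat.lt_succ_iff] using hj
    rw [if_pos (by omega)]
    have h2 : J = (J + 1 - 1 - j) + j := by omega
    conv_rhs => rw [h2, pow_add, mul_assoc, ← mul_pow, ENNReal.mul_inv_cancel hq0 hq, one_pow, mul_one]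
  rw [h1, ← Finset.mul_sum, ← ENNReal.tsum_geometric]
  gcongr
  exact ENNReal.sum_le_tsum _

lemma sum_ge_geom (q : ℝ≥0∞) (J : ℕ) :
    ∑' j, (if J ≤ j then q ^ j else 0) = q ^ J * (1 - q)⁻¹ := by
  rw [← ENNReal.tsum_geometric, ← ENNReal.tsum_mul_left]
  have h := (Function.Injective.tsum_eq (f := fun j => if J ≤ j then q ^ j else 0)
    (g := fun i => J + i) (fun a b hab => by simpa using hab) ?_)
  · rw [← h]
    refine tsum_congr fun i => ?_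
    rw [if_pos (by omega), pow_add]
  · intro j hj
    have : J ≤ j := by
      by_contra hc
      exact hj (by simp [hc])
    exact ⟨j - J, by simp; omega⟩

/-- `∑_{|x| ≤ ρ} (1+|x|)^{-s} ≤ C (1+ρ)^{d-s}` -/
lemma sum_ball_le {s : ℝ} (hs0 : 0 ≤ s) (hsd : s < d) :
    ∃ C : ℝ≥0∞, C ≠ ∞ ∧ ∀ ρ : ℕ,
      ∑' x : Fin d → ℤ, (if nrm x ≤ ρ then kk s x else 0) ≤
        C * ((1 + ρ : ℕ) : ℝ≥0∞) ^ ((d:ℝ) - s) := by
  set q := (2:ℝ≥0∞) ^ ((d:ℝ) - s) with hq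
  have hq0 : q ≠ 0 := by rw [hq]; simp
  have hq1 : q ≠ ∞ := by rw [hq]; simp [ENNReal.rpow_eq_top_iff]
  have hqgt : 1 < q := ENNReal.one_lt_rpow (by norm_num) (by linarith)
  refine ⟨4 ^ d * (1 - q⁻¹)⁻¹, ?_, fun ρ => ?_⟩
  · refine ENNReal.mul_ne_top (by simp) (ENNReal.inv_ne_top.2 ?_)
    exact (tsub_pos_of_lt (ENNReal.inv_lt_one.2 hqgt)).ne'
  · set J := Nat.log 2 (1 + ρ) with hJ
    have h1 := tsum_dyadic (d := d) (fun x => if nrm x ≤ ρ then kk s x else 0)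
      (fun j => if j ≤ J then (((2:ℝ≥0∞) ^ s)⁻¹) ^ j else 0) (by
        intro x
        split_ifs with h1 h2 h2
        · exact kk_le_lev hs0 x
        · exact absurd (Nat.log_mono_right (b := 2) (by omega : 1 + nrm x ≤ 1 + ρ)) h2
        · exact zero_le
        · exact le_rfl)
    refine h1.trans ?_
    have h2 : ∀ j, ((2 : ℝ≥0∞) ^ (j + 2)) ^ d * (if j ≤ J then (((2:ℝ≥0∞) ^ s)⁻¹) ^ j else 0) =
        4 ^ d * (if j ≤ J then q ^ j else 0) := by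
      intro j
      split_ifs
      · exact pow_identity d s j
      · simp
    simp_rw [h2]
    rw [ENNReal.tsum_mul_left]
    calc 4 ^ d * ∑' j, (if j ≤ J then q ^ j else 0) ≤ 4 ^ d * (q ^ J * (1 - q⁻¹)⁻¹) := by
          gcongr; exact sum_le_geom hq0 hq1 J
      _ = 4 ^ d * (1 - q⁻¹)⁻¹ * q ^ J := by ring
      _ ≤ _ := by
          gcongr
          rw [hq, ← ENNReal.rpow_natCast, ← ENNReal.rpow_mul, mul_comm, ENNReal.rpow_mul,
            ENNReal.rpow_natCast]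
          refine ENNReal.rpow_le_rpow ?_ (by linarith)
          exact_mod_cast Nat.pow_log_le_self 2 (by omega)

/-- `∑_{|x| ≥ ρ} (1+|x|)^{-s} ≤ C (1+ρ)^{d-s}` -/
lemma sum_tail_le {s : ℝ} (hsd : (d:ℝ) < s) :
    ∃ C : ℝ≥0∞, C ≠ ∞ ∧ ∀ ρ : ℕ,
      ∑' x : Fin d → ℤ, (if ρ ≤ nrm x then kk s x else 0) ≤
        C * (((1 + ρ : ℕ) : ℝ≥0∞)⁻¹) ^ (s - (d:ℝ)) := by
  have hs0 : 0 ≤ s := le_trans (Nat.cast_nonneg d) hsd.le
  set q := (2:ℝ≥0∞) ^ ((d:ℝ) - s) with hq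
  have hqlt : q < 1 := ENNReal.rpow_lt_one_of_one_lt_of_neg (by norm_num) (by linarith)
  refine ⟨4 ^ d * (1 - q)⁻¹ * 2 ^ (s - (d:ℝ)), ?_, fun ρ => ?_⟩
  · refine ENNReal.mul_ne_top (ENNReal.mul_ne_top (by simp) (ENNReal.inv_ne_top.2 ?_)) ?_
    · exact (tsub_pos_of_lt hqlt).ne'
    · exact ENNReal.rpow_ne_top_of_nonneg (by linarith) (by norm_num)
  · set J := Nat.log 2 (1 + ρ) with hJ
    have h1 := tsum_dyadic (d := d) (fun x => if ρ ≤ nrm x then kk s x else 0)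
      (fun j => if J ≤ j then (((2:ℝ≥0∞) ^ s)⁻¹) ^ j else 0) (by
        intro x
        split_ifs with h1 h2 h2
        · exact kk_le_lev hs0 x
        · exact absurd (Nat.log_mono_right (b := 2) (by omega : 1 + ρ ≤ 1 + nrm x)) h2
        · exact zero_le
        · exact le_rfl)
    refine h1.trans ?_
    have h2 : ∀ j, ((2 : ℝ≥0∞) ^ (j + 2)) ^ d * (if J ≤ j then (((2:ℝ≥0∞) ^ s)⁻¹) ^ j else 0) =
        4 ^ d * (if J ≤ j then q ^ j else 0) := by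
      intro j
      split_ifs
      · exact pow_identity d s j
      · simp
    simp_rw [h2]
    rw [ENNReal.tsum_mul_left, sum_ge_geom]
    have h3 : q ^ J ≤ 2 ^ (s - (d:ℝ)) * (((1 + ρ : ℕ) : ℝ≥0∞)⁻¹) ^ (s - (d:ℝ)) := by
      rw [← ENNReal.mul_rpow_of_nonneg _ _ (by linarith), hq, ← neg_sub s, ENNReal.rpow_neg,
        ← ENNReal.inv_rpow, ← ENNReal.rpow_natCast, ← ENNReal.rpow_mul, mul_comm, ENNReal.rpow_mul,
        ENNReal.rpow_natCast]
      refine ENNReal.rpow_le_rpow ?_ (by linarith)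
      rw [← ENNReal.inv_pow, ENNReal.inv_le_iff_inv_le, ENNReal.mul_inv (Or.inl (by norm_num))
        (Or.inl (by norm_num)), inv_inv, ENNReal.inv_mul_le_iff (by norm_num) (by norm_num)]
      have h4 : 1 + ρ < 2 ^ (J + 1) := Nat.lt_pow_succ_log_self (by norm_num) _
      have h5 : 1 + ρ ≤ 2 * 2 ^ J := by rw [pow_succ] at h4; omega
      exact_mod_cast h5
    calc 4 ^ d * (q ^ J * (1 - q)⁻¹) = 4 ^ d * (1 - q)⁻¹ * q ^ J := by ring
      _ ≤ 4 ^ d * (1 - q)⁻¹ * (2 ^ (s - (d:ℝ)) * (((1 + ρ : ℕ) : ℝ≥0∞)⁻¹) ^ (s - (d:ℝ))) := by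
          gcongr
      _ = _ := by ring

lemma kk_mul_rpow (s t : ℝ) (x : Fin d → ℤ) :
    kk s x * ((1 + nrm x : ℕ) : ℝ≥0∞) ^ t = kk (s - t) x := by
  have h0 : ((1 + nrm x : ℕ) : ℝ≥0∞) ≠ 0 := by exact_mod_cast (by omega : 1 + nrm x ≠ 0)
  rw [sub_eq_add_neg, kk_add]
  congr 1
  rw [kk, ENNReal.inv_rpow, ENNReal.rpow_neg, inv_inv]

lemma kk_anti {s : ℝ} (hs : 0 ≤ s) {x y : Fin d → ℤ} (h : nrm x ≤ nrm y) : kk s y ≤ kk s x := by
  rw [kk, kk]
  refine ENNReal.rpow_le_rpow (ENNReal.inv_le_inv.2 ?_) hs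
  exact_mod_cast (by omega : 1 + nrm x ≤ 1 + nrm y)

lemma conv_half {s t : ℝ} (hs0 : 0 ≤ s) (hs : s < d) (ht0 : 0 ≤ t) (hst : (d:ℝ) < s + t) :
    ∃ C : ℝ≥0∞, C ≠ ∞ ∧ ∀ x : Fin d → ℤ,
      ∑' w : Fin d → ℤ, (if nrm (x - w) ≤ nrm w then kk s (x - w) * kk t w else 0) ≤
        C * kk (s + t - d) x := by
  obtain ⟨C1, hC1, h1⟩ := sum_ball_le hs0 hs
  obtain ⟨C2, hC2, h2⟩ := sum_tail_le hst
  refine ⟨2 ^ t * C1 + C2, ?_, fun x => ?_⟩
  · exact ENNReal.add_ne_top.2 ⟨ENNReal.mul_ne_top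
      (ENNReal.rpow_ne_top_of_nonneg ht0 (by norm_num)) hC1, hC2⟩
  · have hpt : ∀ w : Fin d → ℤ, (if nrm (x - w) ≤ nrm w then kk s (x - w) * kk t w else 0) ≤
        2 ^ t * kk t x * (if nrm (x - w) ≤ nrm x then kk s (x - w) else 0) +
        (if nrm x ≤ nrm (x - w) then kk (s + t) (x - w) else 0) := by
      intro w
      split_ifs with h3 h4 h5 h5
      · refine le_trans ?_ le_self_add
        have h6 : kk t w ≤ 2 ^ t * kk t x := by
          have := nrm_le_add_sub x w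
          exact kk_le_of_le (C := 2) ht0 (by omega)
        calc kk s (x - w) * kk t w ≤ kk s (x - w) * (2 ^ t * kk t x) := by gcongr
          _ = _ := by ring
      · rw [add_zero]
        have h6 : kk t w ≤ 2 ^ t * kk t x := by
          have := nrm_le_add_sub x w
          exact kk_le_of_le (C := 2) ht0 (by omega)
        calc kk s (x - w) * kk t w ≤ kk s (x - w) * (2 ^ t * kk t x) := by gcongr
          _ = _ := by ring
      · rw [mul_zero, zero_add, kk_add]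
        gcongr
        exact kk_anti ht0 h3
      · omega
      all_goals exact zero_le
    refine (ENNReal.tsum_le_tsum hpt).trans ?_
    rw [ENNReal.tsum_add, ENNReal.tsum_mul_left]
    have e1 : ∑' w : Fin d → ℤ, (if nrm (x - w) ≤ nrm x then kk s (x - w) else 0) =
        ∑' v : Fin d → ℤ, (if nrm v ≤ nrm x then kk s v else 0) :=
      (Equiv.subLeft x).tsum_eq (fun v : Fin d → ℤ => if nrm v ≤ nrm x then kk s v else 0)
    have e2 : ∑' w : Fin d → ℤ, (if nrm x ≤ nrm (x - w) then kk (s + t) (x - w) else 0) =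
        ∑' v : Fin d → ℤ, (if nrm x ≤ nrm v then kk (s + t) v else 0) :=
      (Equiv.subLeft x).tsum_eq (fun v : Fin d → ℤ => if nrm x ≤ nrm v then kk (s + t) v else 0)
    rw [e1, e2]
    calc _ ≤ 2 ^ t * kk t x * (C1 * ((1 + nrm x : ℕ) : ℝ≥0∞) ^ ((d:ℝ) - s)) +
          C2 * (((1 + nrm x : ℕ) : ℝ≥0∞)⁻¹) ^ (s + t - (d:ℝ)) := by
          gcongr
          · exact h1 _
          · exact h2 _
      _ = 2 ^ t * C1 * (kk t x * ((1 + nrm x : ℕ) : ℝ≥0∞) ^ ((d:ℝ) - s)) +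
          C2 * kk (s + t - d) x := by rw [kk.eq_1 (s + t - d)]; ring
      _ = _ := by
          rw [kk_mul_rpow]
          have : t - ((d:ℝ) - s) = s + t - d := by ring
          rw [this]; ring

/-- convolution upper bound -/
lemma conv_le {s t : ℝ} (hs0 : 0 ≤ s) (hs : s < d) (ht0 : 0 ≤ t) (ht : t < d)
    (hst : (d:ℝ) < s + t) :
    ∃ C : ℝ≥0∞, C ≠ ∞ ∧ ∀ x : Fin d → ℤ,
      ∑' w : Fin d → ℤ, kk s (x - w) * kk t w ≤ C * kk (s + t - d) x := by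
  obtain ⟨C1, hC1, h1⟩ := conv_half hs0 hs ht0 hst
  obtain ⟨C2, hC2, h2⟩ := conv_half ht0 ht hs0 (by linarith : (d:ℝ) < t + s)
  refine ⟨C1 + C2, ENNReal.add_ne_top.2 ⟨hC1, hC2⟩, fun x => ?_⟩
  have hpt : ∀ w : Fin d → ℤ, kk s (x - w) * kk t w ≤
      (if nrm (x - w) ≤ nrm w then kk s (x - w) * kk t w else 0) +
      (if nrm w ≤ nrm (x - w) then kk s (x - w) * kk t w else 0) := by
    intro w
    rcases le_total (nrm (x - w)) (nrm w) with h | h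
    · rw [if_pos h]; exact le_self_add
    · rw [if_pos h]; exact le_add_self
  refine (ENNReal.tsum_le_tsum hpt).trans ?_
  rw [ENNReal.tsum_add, add_mul]
  have e1 : ∑' w : Fin d → ℤ, (if nrm w ≤ nrm (x - w) then kk s (x - w) * kk t w else 0) =
      ∑' w : Fin d → ℤ, (if nrm (x - w) ≤ nrm w then kk t (x - w) * kk s w else 0) := by
    rw [← (Equiv.subLeft x).tsum_eq
      (fun w : Fin d → ℤ => if nrm (x - w) ≤ nrm w then kk t (x - w) * kk s w else 0)]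
    refine tsum_congr fun w => ?_
    simp only [Equiv.subLeft_apply, sub_sub_cancel]
    rw [mul_comm]
  rw [e1]
  have h3 := h2 x
  rw [show t + s - (d:ℝ) = s + t - d by ring] at h3
  exact add_le_add (h1 x) h3

/-- convolution lower bound -/
lemma conv_ge {s t : ℝ} (hs0 : 0 ≤ s) (ht0 : 0 ≤ t) (x : Fin d → ℤ) :
    kk (s + t - d) x ≤ 2 ^ s * ∑' w : Fin d → ℤ, kk s (x - w) * kk t w := by
  have h1 : ∑ w ∈ ball d (nrm x), kk s x * kk t x ≤
      ∑ w ∈ ball d (nrm x), 2 ^ s * (kk s (x - w) * kk t w) := by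
    refine Finset.sum_le_sum fun w hw => ?_
    rw [mem_ball] at hw
    have h2 : kk s x ≤ 2 ^ s * kk s (x - w) := by
      have := nrm_add_le x (-w)
      rw [nrm_neg, ← sub_eq_add_neg] at this
      exact kk_le_of_le (C := 2) hs0 (by omega)
    have h3 := kk_anti ht0 hw
    calc kk s x * kk t x ≤ (2 ^ s * kk s (x - w)) * kk t w := by gcongr
      _ = _ := by ring
  have h2 : ((1 + nrm x : ℕ) : ℝ≥0∞) ^ (d:ℝ) * (kk s x * kk t x) ≤
      ∑ w ∈ ball d (nrm x), kk s x * kk t x := by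
    rw [Finset.sum_const, card_ball, nsmul_eq_mul, ENNReal.rpow_natCast]
    gcongr
    have : (1 + nrm x) ^ d ≤ (2 * nrm x + 1) ^ d := Nat.pow_le_pow_left (by omega) d
    exact_mod_cast this
  have h3 : kk (s + t - d) x = ((1 + nrm x : ℕ) : ℝ≥0∞) ^ (d:ℝ) * (kk s x * kk t x) := by
    rw [← kk_add, mul_comm, kk_mul_rpow]
  rw [h3]
  refine h2.trans (h1.trans ?_)
  rw [← Finset.mul_sum]
  gcongr
  exact ENNReal.sum_le_tsum _

end Pool.Agent.Helper95.ARW
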