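import Mathlib

set_option autoImplicit false

open MeasureTheory ProbabilityTheory
open scoped ENNReal

namespace Pool.Agent.Helper95.ARW

/-- Green function `∑_n P(X_n = x)` of the random walk with step law `μ` started at the origin
(the steps are the coordinates of the infinite product space). -/
noncomputable def green {d : ℕ} (μ : Measure (Fin d → ℤ)) (x : Fin d → ℤ) : ℝ≥0∞ :=
  ∑' n : ℕ, Measure.infinitePi (fun _ : ℕ => μ) {w | ∑ k ∈ Finset.range n, w k = x}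

/-- The Barlow–Taylor condition with index `α` (sup norm on `ℤ^d`; all norms are equivalent). -/
def BarlowTaylor {d : ℕ} (μ : Measure (Fin d → ℤ)) (α : ℝ) : Prop :=
  ∃ A B : ℝ, 0 < A ∧ A ≤ B ∧ ∀ x : Fin d → ℤ, x ≠ 0 →
    ENNReal.ofReal (A * ‖x‖ ^ (-(d:ℝ) + α)) ≤ green μ x ∧
    green μ x ≤ ENNReal.ofReal (B * ‖x‖ ^ (-(d:ℝ) + α))

/-- The step law `μ` is symmetric and transient, and satisfies the Barlow–Taylor condition with
index `α ∈ (0, 2]`. -/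
structure StepLaw {d : ℕ} (μ : Measure (Fin d → ℤ)) (α : ℝ) : Prop where
  prob : IsProbabilityMeasure μ
  symm : μ.map (fun x => -x) = μ
  transient : ∀ x, green μ x ≠ ∞
  pos : 0 < α
  le_two : α ≤ 2
  bt : BarlowTaylor μ α

/-- `ξ i k` (`i < N`, `k ∈ ℕ`) are the i.i.d. steps, of law `μ`, of `N` independent walks. -/
structure IsSteps {Ω : Type*} {mΩ : MeasurableSpace Ω} {d N : ℕ} (P : Measure Ω)
    (μ : Measure (Fin d → ℤ)) (ξ : Fin N → ℕ → Ω → (Fin d → ℤ)) : Prop where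
  meas : ∀ i k, Measurable (ξ i k)
  indep : iIndepFun (fun p : Fin N × ℕ => ξ p.1 p.2) P
  law : ∀ i k, P.map (ξ i k) = μ

/-- The additive random walk `𝔛(n) = X^{(1)}_{n_1} + ⋯ + X^{(N)}_{n_N}`. -/
def addWalk {Ω : Type*} {d N : ℕ} (ξ : Fin N → ℕ → Ω → (Fin d → ℤ)) (n : Fin N → ℕ) (ω : Ω) :
    Fin d → ℤ := ∑ i, ∑ k ∈ Finset.range (n i), ξ i k ω

/-- The range of the additive random walk. -/
def addRange {Ω : Type*} {d N : ℕ} (ξ : Fin N → ℕ → Ω → (Fin d → ℤ)) (ω : Ω) :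
    Set (Fin d → ℤ) := Set.range fun n : Fin N → ℕ => addWalk ξ n ω

/-- `V_k = [-2^k, 2^k)^d`. -/
def boxV (d k : ℕ) : Set (Fin d → ℤ) := {x | ∀ i, -(2:ℤ) ^ k ≤ x i ∧ x i < 2 ^ k}

/-- The shells `S_0 = V_0`, `S_{k+1} = V_{k+1} \ V_k`. -/
def shell (d : ℕ) : ℕ → Set (Fin d → ℤ)
  | 0 => boxV d 0
  | k + 1 => boxV d (k + 1) \ boxV d k

/-- The dyadic cube `∏_j [a_j 2^l, (a_j + 1) 2^l)`. -/
def dyCube {d : ℕ} (l : ℕ) (a : Fin d → ℤ) : Set (Fin d → ℤ) :=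
  {x | ∀ j, a j * 2 ^ l ≤ x j ∧ x j < (a j + 1) * 2 ^ l}

/-- `𝒩_γ(A, S_k)`: the infimum over finite covers of `A ∩ S_k` by dyadic cubes (given by pairs
`(l, a)`) of `∑ 2^{γ (l - k - 1)}`. -/
noncomputable def cover {d : ℕ} (γ : ℝ) (A : Set (Fin d → ℤ)) (k : ℕ) : ℝ≥0∞ :=
  ⨅ (𝒞 : Finset (ℕ × (Fin d → ℤ))) (_ : ∀ x ∈ A ∩ shell d k, ∃ Q ∈ 𝒞, x ∈ dyCube Q.1 Q.2),
    ∑ Q ∈ 𝒞, ENNReal.ofReal ((2:ℝ) ^ (γ * ((Q.1:ℝ) - k - 1)))

/-- The macroscopic Hausdorff dimension. -/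
noncomputable def macroDim {d : ℕ} (A : Set (Fin d → ℤ)) : ℝ :=
  sInf {γ : ℝ | 0 < γ ∧ ∑' k : ℕ, cover γ A (k + 1) < ∞}

end Pool.Agent.Helper95.ARW
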