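import Mathlib
import Pool.Agent.Helper95.ARWConv
import Pool.Agent.Helper95.ARWDefs

set_option autoImplicit false
set_option linter.unusedSectionVars false

open MeasureTheory ProbabilityTheory
open scoped ENNReal

namespace Pool.Agent.Helper95.ARW

variable {Ω : Type*} {mΩ : MeasurableSpace Ω} {P : Measure Ω} [IsProbabilityMeasure P]
  {d : ℕ} {ι : Type*} {μ : Measure (Fin d → ℤ)} {ξ : ι → Ω → (Fin d → ℤ)}

/-- an i.i.d. family with law `μ` -/
structure Fam (P : Measure Ω) (μ : Measure (Fin d → ℤ)) (ξ : ι → Ω → (Fin d → ℤ)) : Prop where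
  meas : ∀ i, Measurable (ξ i)
  indep : iIndepFun ξ P
  law : ∀ i, P.map (ξ i) = μ

lemma Fam.precomp {ι' : Type*} (h : Fam P μ ξ) {e : ι' → ι} (he : Function.Injective e) :
    Fam P μ (fun j => ξ (e j)) :=
  ⟨fun _ => h.meas _, h.indep.precomp he, fun _ => h.law _⟩

/-- sigma algebra generated by the steps in `S` -/
abbrev sig (ξ : ι → Ω → (Fin d → ℤ)) (S : Set ι) : MeasurableSpace Ω :=
  ⨆ i ∈ S, MeasurableSpace.comap (ξ i) inferInstance

lemma Fam.sig_le (h : Fam P μ ξ) (S : Set ι) : sig ξ S ≤ mΩ :=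
  iSup_le fun i => iSup_le fun _ => (h.meas i).comap_le

lemma sig_mono {S T : Set ι} (hST : S ⊆ T) : sig ξ S ≤ sig ξ T :=
  biSup_mono hST

lemma meas_sig {S : Set ι} {i : ι} (hi : i ∈ S) : Measurable[sig ξ S] (ξ i) := by
  have h1 : MeasurableSpace.comap (ξ i) inferInstance ≤ sig ξ S :=
    le_biSup (fun i => MeasurableSpace.comap (ξ i) inferInstance) hi
  exact (comap_measurable (ξ i)).mono h1 le_rfl

lemma Fam.indep_sig (h : Fam P μ ξ) {S T : Set ι} (hST : Disjoint S T) :
    Indep (sig ξ S) (sig ξ T) P :=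
  indep_iSup_of_disjoint (fun i => (h.meas i).comap_le) h.indep.iIndep hST

lemma Fam.indep_inter (h : Fam P μ ξ) {S T : Set ι} (hST : Disjoint S T) {A B : Set Ω}
    (hA : MeasurableSet[sig ξ S] A) (hB : MeasurableSet[sig ξ T] B) :
    P (A ∩ B) = P A * P B := (Indep_iff _ _ _).1 (h.indep_sig hST) A B hA hB

/-- the walk along the sequence of indices `e` -/
def wlk (ξ : ι → Ω → (Fin d → ℤ)) (e : ℕ → ι) (n : ℕ) (ω : Ω) : Fin d → ℤ :=
  ∑ k ∈ Finset.range n, ξ (e k) ω

lemma meas_wlk_sig {S : Set ι} {e : ℕ → ι} {n : ℕ} (h : ∀ k < n, e k ∈ S) :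
    Measurable[sig ξ S] (wlk ξ e n) := by
  refine Finset.measurable_sum _ fun k hk => ?_
  exact meas_sig (h k (Finset.mem_range.1 hk))

lemma Fam.meas_wlk (h : Fam P μ ξ) (e : ℕ → ι) (n : ℕ) : Measurable (wlk ξ e n) :=
  Finset.measurable_sum _ fun _ _ => h.meas _

/-- probability that the walk is at `x` at time `n` -/
noncomputable def pn (μ : Measure (Fin d → ℤ)) (n : ℕ) (x : Fin d → ℤ) : ℝ≥0∞ :=
  Measure.infinitePi (fun _ : ℕ => μ) {w | ∑ k ∈ Finset.range n, w k = x}

lemma green_eq (x : Fin d → ℤ) : green μ x = ∑' n, pn μ n x := rfl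

lemma Fam.map_eq (h : Fam P μ ξ) : P.map (fun ω i => ξ i ω) = Measure.infinitePi (fun _ => μ) := by
  have h1 := (iIndepFun_iff_map_fun_eq_infinitePi_map h.meas).1 h.indep
  rw [h1]
  congr 1
  ext1 i
  rw [h.law i]

lemma Fam.prob_wlk (h : Fam P μ ξ) {e : ℕ → ι} (he : Function.Injective e) (n : ℕ)
    (x : Fin d → ℤ) : P {ω | wlk ξ e n ω = x} = pn μ n x := by
  have h2 := (h.precomp he).map_eq
  rw [pn, ← h2, Measure.map_apply (measurable_pi_lambda _ fun i => h.meas _)]
  · rfl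
  · have : Measurable (fun w : ℕ → (Fin d → ℤ) => ∑ k ∈ Finset.range n, w k) := by fun_prop
    exact this (measurableSet_singleton x)

lemma wlk_add (e : ℕ → ι) (m k : ℕ) (ω : Ω) :
    wlk ξ e (m + k) ω = wlk ξ e m ω + wlk ξ (fun j => e (m + j)) k ω := by
  rw [wlk, Finset.sum_range_add]; rfl

/-- first hitting at time `m` -/
def fh (ξ : ι → Ω → (Fin d → ℤ)) (e : ℕ → ι) (C : Finset (Fin d → ℤ)) (m : ℕ) : Set Ω :=
  {ω | wlk ξ e m ω ∈ C ∧ ∀ j < m, wlk ξ e j ω ∉ C}

lemma fh_disj (e : ℕ → ι) (C : Finset (Fin d → ℤ)) :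
    Pairwise (Function.onFun Disjoint (fh ξ e C)) := by
  intro i j hij
  rw [Function.onFun, Set.disjoint_left]
  intro ω hi hj
  rcases lt_or_gt_of_ne hij with h | h
  · exact hj.2 i h hi.1
  · exact hi.2 j h hj.1

lemma iUnion_fh (e : ℕ → ι) (C : Finset (Fin d → ℤ)) :
    ⋃ m, fh ξ e C m = {ω | ∃ n, wlk ξ e n ω ∈ C} := by
  classical
  ext ω
  simp only [Set.mem_iUnion]
  constructor
  · rintro ⟨m, hm⟩; exact ⟨m, hm.1⟩
  · intro hex
    exact ⟨Nat.find hex, Nat.find_spec hex, fun j hj => Nat.find_min hex hj⟩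

lemma meas_fh_sig {S : Set ι} {e : ℕ → ι} {m : ℕ} (h : ∀ k < m, e k ∈ S)
    (C : Finset (Fin d → ℤ)) : MeasurableSet[sig ξ S] (fh ξ e C m) := by
  have h1 : fh ξ e C m = (wlk ξ e m ⁻¹' (C : Set (Fin d → ℤ))) ∩
      ⋂ j ∈ Finset.range m, (wlk ξ e j ⁻¹' (C : Set (Fin d → ℤ)))ᶜ := by
    ext ω; simp [fh]
  rw [h1]
  refine MeasurableSet.inter (meas_wlk_sig h (Finset.measurableSet C)) ?_
  refine Finset.measurableSet_biInter _ fun j hj => MeasurableSet.compl ?_
  exact meas_wlk_sig (fun k hk => h k (hk.trans (Finset.mem_range.1 hj))) (Finset.measurableSet C)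

lemma Fam.first_hit (h : Fam P μ ξ) {e : ℕ → ι} (he : Function.Injective e)
    (C : Finset (Fin d → ℤ)) {L : ℝ≥0∞} (hL : ∀ z ∈ C, L ≤ ∑ y ∈ C, green μ (y - z)) :
    P {ω | ∃ n, wlk ξ e n ω ∈ C} * L ≤ ∑ y ∈ C, green μ y := by
  classical
  have hmF : ∀ m, MeasurableSet (fh ξ e C m) := fun m =>
    h.sig_le Set.univ _ (meas_fh_sig (fun k _ => Set.mem_univ _) C)
  have hmC : ∀ n, MeasurableSet {ω | wlk ξ e n ω ∈ C} := fun n =>
    h.meas_wlk e n (Finset.measurableSet C)
  -- step 1: after first hitting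
  have h1 : ∀ m, P (fh ξ e C m) * L ≤ ∑' k, P (fh ξ e C m ∩ {ω | wlk ξ e (m + k) ω ∈ C}) := by
    intro m
    have hterm : ∀ z ∈ C, ∀ k, ∀ y ∈ C,
        P (fh ξ e C m ∩ {ω | wlk ξ e m ω = z} ∩ {ω | wlk ξ (fun j => e (m + j)) k ω = y - z}) =
        P (fh ξ e C m ∩ {ω | wlk ξ e m ω = z}) * pn μ k (y - z) := by
      intro z _ k y _
      have hinj : Function.Injective fun j => e (m + j) := fun a b hab => by
        have := he hab; omega
      rw [← h.prob_wlk hinj k (y - z)]
      have hS : ∀ k < m, e k ∈ e '' {j | j < m} := fun k hk => ⟨k, hk, rfl⟩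
      have hT : ∀ i < k, e (m + i) ∈ e '' {j | m ≤ j} := fun i _ => ⟨m + i, by simp, rfl⟩
      refine h.indep_inter (S := e '' {j | j < m}) (T := e '' {j | m ≤ j}) ?_ ?_ ?_
      · rw [Set.disjoint_left]
        rintro _ ⟨i, hi, rfl⟩ ⟨j, hj, hij⟩
        have := he hij
        simp only [Set.mem_ofPred_eq] at hi hj
        omega
      · refine MeasurableSet.inter (meas_fh_sig hS C) ?_
        exact meas_wlk_sig hS (measurableSet_singleton z)
      · exact meas_wlk_sig (e := fun j => e (m + j)) hT (measurableSet_singleton (y - z))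
    have hdec : ∀ k, P (fh ξ e C m ∩ {ω | wlk ξ e (m + k) ω ∈ C}) =
        ∑ z ∈ C, ∑ y ∈ C, P (fh ξ e C m ∩ {ω | wlk ξ e m ω = z}) * pn μ k (y - z) := by
      intro k
      have e1 : fh ξ e C m ∩ {ω | wlk ξ e (m + k) ω ∈ C} = ⋃ p ∈ C ×ˢ C,
          (fh ξ e C m ∩ {ω | wlk ξ e m ω = p.1} ∩
            {ω | wlk ξ (fun j => e (m + j)) k ω = p.2 - p.1}) := by
        ext ω
        simp only [Set.mem_inter_iff, Set.mem_ofPred_eq, Set.mem_iUnion, Finset.mem_product,
          exists_prop, Prod.exists]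
        constructor
        · rintro ⟨h2, h3⟩
          refine ⟨wlk ξ e m ω, wlk ξ e (m + k) ω, ⟨h2.1, h3⟩, ⟨h2, rfl⟩, ?_⟩
          rw [wlk_add]; abel
        · rintro ⟨z, y, ⟨_, hy⟩, ⟨h2, h3⟩, h4⟩
          refine ⟨h2, ?_⟩
          rw [wlk_add, h3, h4, add_sub_cancel]
          exact hy
      rw [e1, measure_biUnion_finset]
      · rw [Finset.sum_product]
        refine Finset.sum_congr rfl fun z hz => Finset.sum_congr rfl fun y hy => ?_
        exact hterm z hz k y hy
      · rintro ⟨z, y⟩ _ ⟨z', y'⟩ _ hne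
        rw [Function.onFun, Set.disjoint_left]
        rintro ω ⟨⟨_, h3⟩, h4⟩ ⟨⟨_, h5⟩, h6⟩
        simp only [Set.mem_ofPred_eq] at h3 h4 h5 h6
        apply hne
        have hz : z = z' := h3.symm.trans h5
        subst hz
        have : y - z = y' - z := h4.symm.trans h6
        rw [sub_left_inj.1 this]
      · rintro ⟨z, y⟩ _
        refine ((hmF m).inter ?_).inter ?_
        · exact h.meas_wlk e m (measurableSet_singleton z)
        · exact h.meas_wlk _ k (measurableSet_singleton (y - z))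
    simp_rw [hdec]
    rw [Summable.tsum_finsetSum fun _ _ => ENNReal.summable]
    have e2 : P (fh ξ e C m) = ∑ z ∈ C, P (fh ξ e C m ∩ {ω | wlk ξ e m ω = z}) := by
      rw [← measure_biUnion_finset]
      · congr 1
        ext ω
        simp only [Set.mem_iUnion, Set.mem_inter_iff, Set.mem_ofPred_eq, exists_prop]
        constructor
        · intro h2; exact ⟨_, h2.1, h2, rfl⟩
        · rintro ⟨z, _, h2, _⟩; exact h2
      · intro z _ z' _ hne
        rw [Function.onFun, Set.disjoint_left]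
        rintro ω ⟨_, h3⟩ ⟨_, h4⟩
        exact hne (h3.symm.trans h4)
      · intro z _
        exact (hmF m).inter (h.meas_wlk e m (measurableSet_singleton z))
    rw [e2, Finset.sum_mul]
    refine Finset.sum_le_sum fun z hz => ?_
    rw [Summable.tsum_finsetSum fun _ _ => ENNReal.summable]
    calc P (fh ξ e C m ∩ {ω | wlk ξ e m ω = z}) * L
        ≤ P (fh ξ e C m ∩ {ω | wlk ξ e m ω = z}) * ∑ y ∈ C, green μ (y - z) := by
          gcongr; exact hL z hz
      _ = _ := by
          rw [Finset.mul_sum]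
          refine Finset.sum_congr rfl fun y _ => ?_
          rw [green_eq, ENNReal.tsum_mul_left]
  -- step 2: summation over first hitting times
  calc P {ω | ∃ n, wlk ξ e n ω ∈ C} * L = (∑' m, P (fh ξ e C m)) * L := by
        rw [← iUnion_fh, measure_iUnion (fh_disj e C) hmF]
    _ = ∑' m, P (fh ξ e C m) * L := ENNReal.tsum_mul_right.symm
    _ ≤ ∑' m, ∑' k, P (fh ξ e C m ∩ {ω | wlk ξ e (m + k) ω ∈ C}) := ENNReal.tsum_le_tsum h1
    _ ≤ ∑' m, ∑' n, P (fh ξ e C m ∩ {ω | wlk ξ e n ω ∈ C}) := by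
        refine ENNReal.tsum_le_tsum fun m => ?_
        exact ENNReal.tsum_comp_le_tsum_of_injective (f := fun k => m + k)
          (fun a b hab => by simpa using hab) fun n => P (fh ξ e C m ∩ {ω | wlk ξ e n ω ∈ C})
    _ = ∑' n, ∑' m, P (fh ξ e C m ∩ {ω | wlk ξ e n ω ∈ C}) := ENNReal.tsum_comm
    _ ≤ ∑' n, P {ω | wlk ξ e n ω ∈ C} := by
        refine ENNReal.tsum_le_tsum fun n => ?_
        rw [← measure_iUnion]
        · refine measure_mono ?_
          intro ω hω
          simp only [Set.mem_iUnion] at hω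
          obtain ⟨m, hm⟩ := hω
          exact hm.2
        · intro i j hij
          exact (fh_disj e C hij).mono Set.inter_subset_left Set.inter_subset_left
        · exact fun m => (hmF m).inter (hmC n)
    _ = ∑' n, ∑ y ∈ C, pn μ n y := by
        refine tsum_congr fun n => ?_
        have : {ω | wlk ξ e n ω ∈ C} = ⋃ y ∈ C, {ω | wlk ξ e n ω = y} := by
          ext ω; simp
        rw [this, measure_biUnion_finset]
        · exact Finset.sum_congr rfl fun y _ => h.prob_wlk he n y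
        · intro z _ z' _ hne
          rw [Function.onFun, Set.disjoint_left]
          intro ω h3 h4
          exact hne (h3.symm.trans h4)
        · exact fun y _ => h.meas_wlk e n (measurableSet_singleton y)
    _ = ∑ y ∈ C, green μ y := by
        rw [Summable.tsum_finsetSum fun _ _ => ENNReal.summable]; rfl

end Pool.Agent.Helper95.ARW
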