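import Mathlib
import Pool.Agent.Helper95.ARWProb

set_option autoImplicit false
set_option linter.unusedSectionVars false

open MeasureTheory ProbabilityTheory
open scoped ENNReal

namespace Pool.Agent.Helper95.ARW

section
variable {d : ℕ}

lemma norm_eq_nrm (x : Fin d → ℤ) : ‖x‖ = (nrm x : ℝ) := by
  refine le_antisymm ?_ ?_
  · refine (pi_norm_le_iff_of_nonneg (Nat.cast_nonneg _)).2 fun i => ?_
    rw [Int.norm_eq_abs]
    have h := natAbs_le_nrm x i
    have h2 : ((x i).natAbs : ℝ) = |(x i : ℝ)| := by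
      rw [Nat.cast_natAbs, Int.cast_abs]
    rw [← h2]
    exact_mod_cast h
  · obtain ⟨m, hm⟩ : ∃ m : ℕ, m = ⌊‖x‖⌋₊ := ⟨_, rfl⟩
    have h1 : nrm x ≤ m := by
      rw [nrm_le_iff]
      intro i
      have h3 := norm_le_pi_norm x i
      rw [Int.norm_eq_abs] at h3
      have h2 : ((x i).natAbs : ℝ) = |(x i : ℝ)| := by
        rw [Nat.cast_natAbs, Int.cast_abs]
      rw [← h2] at h3
      rw [hm]
      exact Nat.le_floor h3
    calc (nrm x : ℝ) ≤ m := by exact_mod_cast h1
      _ ≤ ‖x‖ := by rw [hm]; exact Nat.floor_le (norm_nonneg _)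

lemma kk_eq_ofReal (s : ℝ) (x : Fin d → ℤ) :
    kk s x = ENNReal.ofReal (((1 + nrm x : ℕ) : ℝ) ^ (-s)) := by
  have h0 : (0:ℝ) < ((1 + nrm x : ℕ) : ℝ) := by positivity
  rw [← ENNReal.ofReal_rpow_of_pos h0, ENNReal.ofReal_natCast, ENNReal.rpow_neg, kk,
    ENNReal.inv_rpow]

lemma green_zero_ge (μ : Measure (Fin d → ℤ)) [IsProbabilityMeasure μ] : 1 ≤ green μ 0 := by
  have h1 : pn μ 0 (0 : Fin d → ℤ) = 1 := by
    rw [pn]
    have : {w : ℕ → (Fin d → ℤ) | ∑ k ∈ Finset.range 0, w k = 0} = Set.univ := by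
      ext w; simp
    rw [this]; exact measure_univ
  calc (1:ℝ≥0∞) = pn μ 0 (0 : Fin d → ℤ) := h1.symm
    _ ≤ _ := ENNReal.le_tsum (f := fun n => pn μ n (0 : Fin d → ℤ)) 0

lemma nrm_pos {x : Fin d → ℤ} (hx : x ≠ 0) : 0 < nrm x := by
  by_contra h
  apply hx
  ext i
  have := natAbs_le_nrm x i
  simp only [Pi.zero_apply]
  omega

/-- two-sided bounds for the Green function by the kernel -/
lemma green_bounds {μ : Measure (Fin d → ℤ)} {α : ℝ} (h : StepLaw μ α) (hα : α ≤ d) :
    ∃ c C : ℝ≥0∞, c ≠ 0 ∧ C ≠ ∞ ∧ ∀ x : Fin d → ℤ,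
      c * kk (d - α) x ≤ green μ x ∧ green μ x ≤ C * kk (d - α) x := by
  have := h.prob
  obtain ⟨A, B, hA, hAB, hbt⟩ := h.bt
  have hs : 0 ≤ (d:ℝ) - α := by linarith
  refine ⟨min 1 (ENNReal.ofReal A), max (green μ 0) (ENNReal.ofReal (B * 2 ^ ((d:ℝ) - α))), ?_, ?_,
    fun x => ?_⟩
  · exact (lt_min one_pos (ENNReal.ofReal_pos.2 hA)).ne'
  · exact (max_lt (h.transient 0).lt_top ENNReal.ofReal_lt_top).ne
  · rcases eq_or_ne x 0 with rfl | hx
    · rw [kk_zero, mul_one, mul_one]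
      exact ⟨(min_le_left _ _).trans (green_zero_ge μ), le_max_left _ _⟩
    · obtain ⟨h1, h2⟩ := hbt x hx
      have hn := nrm_pos hx
      have hn' : (0:ℝ) < nrm x := by exact_mod_cast hn
      rw [norm_eq_nrm] at h1 h2
      have e : -(d:ℝ) + α = -((d:ℝ) - α) := by ring
      rw [e] at h1 h2
      constructor
      · refine le_trans ?_ h1
        calc min 1 (ENNReal.ofReal A) * kk (d - α) x ≤ ENNReal.ofReal A * kk (d - α) x := by
              gcongr; exact min_le_right _ _
          _ = ENNReal.ofReal (A * ((1 + nrm x : ℕ) : ℝ) ^ (-((d:ℝ) - α))) := by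
              rw [kk_eq_ofReal, ← ENNReal.ofReal_mul hA.le]
          _ ≤ _ := by
              refine ENNReal.ofReal_le_ofReal ?_
              have : ((1 + nrm x : ℕ) : ℝ) ^ (-((d:ℝ) - α)) ≤ (nrm x : ℝ) ^ (-((d:ℝ) - α)) := by
                refine Real.rpow_le_rpow_of_nonpos hn' ?_ (by linarith)
                push_cast; linarith
              gcongr
      · refine h2.trans ?_
        calc ENNReal.ofReal (B * (nrm x : ℝ) ^ (-((d:ℝ) - α)))
            ≤ ENNReal.ofReal (B * 2 ^ ((d:ℝ) - α) * ((1 + nrm x : ℕ) : ℝ) ^ (-((d:ℝ) - α))) := by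
              refine ENNReal.ofReal_le_ofReal ?_
              have h3 : (nrm x : ℝ) ^ (-((d:ℝ) - α)) ≤
                  2 ^ ((d:ℝ) - α) * ((1 + nrm x : ℕ) : ℝ) ^ (-((d:ℝ) - α)) := by
                rw [Real.rpow_neg hn'.le, Real.rpow_neg (by positivity), ← div_eq_mul_inv,
                  ← Real.inv_rpow hn'.le, ← Real.div_rpow (by norm_num) (by positivity)]
                refine Real.rpow_le_rpow (by positivity) ?_ hs
                rw [inv_eq_one_div, div_le_div_iff₀ hn' (by positivity)]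
                have : (1:ℝ) ≤ nrm x := by exact_mod_cast hn
                push_cast; linarith
              have hB : 0 ≤ B := hA.le.trans hAB
              rw [mul_assoc]
              gcongr
          _ = ENNReal.ofReal (B * 2 ^ ((d:ℝ) - α)) * kk (d - α) x := by
              have hB : 0 ≤ B := hA.le.trans hAB
              rw [kk_eq_ofReal, ← ENNReal.ofReal_mul (by positivity)]
          _ ≤ _ := by
              gcongr; exact le_max_right _ _

/-- cell of side `r` with index `a` -/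
noncomputable def cel (r : ℕ) (a : Fin d → ℤ) : Finset (Fin d → ℤ) :=
  Fintype.piFinset fun j => Finset.Ico (a j * r) ((a j + 1) * r)

lemma mem_cel {r : ℕ} {a x : Fin d → ℤ} : x ∈ cel r a ↔ ∀ j, a j * r ≤ x j ∧ x j < (a j + 1) * r := by
  simp [cel, Fintype.mem_piFinset]

lemma card_cel (r : ℕ) (a : Fin d → ℤ) : (cel r a).card = r ^ d := by
  rw [cel, Fintype.card_piFinset]
  have : ∀ j, (Finset.Ico (a j * r) ((a j + 1) * r)).card = r := by
    intro j
    rw [Int.card_Ico]
    have : (a j + 1) * (r:ℤ) - a j * r = r := by ring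
    rw [this]; simp
  simp [this]

lemma nrm_le_of_mem_cel {r : ℕ} {a x : Fin d → ℤ} (h : x ∈ cel r a) : nrm x ≤ r * (1 + nrm a) := by
  rw [mem_cel] at h
  rw [nrm_le_iff]
  intro j
  obtain ⟨h1, h2⟩ := h j
  have h3 := natAbs_le_nrm a j
  zify at h3 ⊢
  rw [abs_le] at h3
  rw [abs_le]
  constructor <;> nlinarith

lemma le_nrm_of_mem_cel {r : ℕ} {a x : Fin d → ℤ} (h : x ∈ cel r a) : r * nrm a ≤ nrm x + r := by
  rw [mem_cel] at h
  by_cases ha : nrm a = 0
  · rw [ha]; omega
  · obtain ⟨j, hj⟩ : ∃ j, nrm a = (a j).natAbs := by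
      have hne : (Finset.univ : Finset (Fin d)).Nonempty := by
        by_contra hc
        rw [Finset.not_nonempty_iff_eq_empty] at hc
        apply ha
        simp [nrm, hc]
      obtain ⟨j, _, hj⟩ := Finset.exists_mem_eq_sup _ hne (fun i => (a i).natAbs)
      exact ⟨j, hj⟩
    obtain ⟨h1, h2⟩ := h j
    have h3 := natAbs_le_nrm x j
    rw [hj]
    zify at h3 ⊢
    rcases le_total 0 (a j) with h4 | h4
    · rw [abs_of_nonneg h4]
      have := (abs_le.1 h3).2
      nlinarith
    · rw [abs_of_nonpos h4]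
      have := (abs_le.1 h3).1
      nlinarith

lemma nrm_sub_of_mem_cel {r : ℕ} {a x y : Fin d → ℤ} (hx : x ∈ cel r a) (hy : y ∈ cel r a) :
    1 + nrm (x - y) ≤ r ∨ d = 0 := by
  rw [mem_cel] at hx hy
  rcases Nat.eq_zero_or_pos d with hd | hd
  · right; exact hd
  left
  have hr : 0 < r := by
    obtain ⟨h1, h2⟩ := hx ⟨0, hd⟩
    have : (0:ℤ) < r := by nlinarith
    exact_mod_cast this
  have : nrm (x - y) ≤ r - 1 := by
    rw [nrm_le_iff]
    intro j
    obtain ⟨h1, h2⟩ := hx j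
    obtain ⟨h3, h4⟩ := hy j
    have h5 : (a j + 1) * (r:ℤ) = a j * r + r := by ring
    rw [h5] at h2 h4
    simp only [Pi.sub_apply]
    omega
  omega

end

end Pool.Agent.Helper95.ARW
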