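import Mathlib
import Pool.Agent.Helper95.ARWCell

set_option autoImplicit false
set_option linter.unusedSectionVars false

open MeasureTheory ProbabilityTheory
open scoped ENNReal

namespace Pool.Agent.Helper95.ARW

variable {Ω : Type*} {mΩ : MeasurableSpace Ω} {P : Measure Ω} [IsProbabilityMeasure P]
  {d : ℕ} {ι : Type*} {μ : Measure (Fin d → ℤ)} {ξ : ι → Ω → (Fin d → ℤ)} {α : ℝ}

/-- hitting probability of a cell by one walk -/
lemma hit_cell (hμ : StepLaw μ α) (hα : α < d) (h : Fam P μ ξ) :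
    ∃ C : ℝ≥0∞, C ≠ ∞ ∧ ∀ e : ℕ → ι, Function.Injective e → ∀ r : ℕ, 0 < r → ∀ a : Fin d → ℤ,
      P {ω | ∃ n, wlk ξ e n ω ∈ cel r a} ≤ C * kk (d - α) a := by
  obtain ⟨c, C0, hc, hC0, hg⟩ := green_bounds hμ hα.le
  have hs : 0 ≤ (d:ℝ) - α := by linarith
  have hd : d ≠ 0 := by
    rintro rfl
    have := hμ.pos
    simp only [Nat.cast_zero] at hα
    linarith
  set s := (d:ℝ) - α with hsdef
  have h3 : (3:ℝ≥0∞) ^ s ≠ ∞ := ENNReal.rpow_ne_top_of_nonneg hs (by norm_num)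
  have h2 : (2:ℝ≥0∞) ^ s ≠ ∞ := ENNReal.rpow_ne_top_of_nonneg hs (by norm_num)
  refine ⟨c⁻¹ * (C0 * 3 ^ s) + 2 ^ s, ?_, fun e he r hr a => ?_⟩
  · exact ENNReal.add_ne_top.2 ⟨ENNReal.mul_ne_top (ENNReal.inv_ne_top.2 hc)
      (ENNReal.mul_ne_top hC0 h3), h2⟩
  rcases Nat.lt_or_ge (nrm a) 2 with ha | ha
  · calc P {ω | ∃ n, wlk ξ e n ω ∈ cel r a} ≤ 1 := prob_le_one
      _ = kk s (0 : Fin d → ℤ) := (kk_zero s).symm
      _ ≤ 2 ^ s * kk s a := by
          refine kk_le_of_le (C := 2) hs ?_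
          rw [nrm_zero]; omega
      _ ≤ _ := by gcongr; exact le_add_self
  · have hr0 : (r:ℝ≥0∞) ≠ 0 := by exact_mod_cast hr.ne'
    have hrt : (r:ℝ≥0∞) ≠ ∞ := ENNReal.natCast_ne_top r
    set t : ℝ≥0∞ := (r:ℝ≥0∞) ^ d * ((r:ℝ≥0∞)⁻¹) ^ s with ht
    have ht0 : t ≠ 0 := by
      refine mul_ne_zero (pow_ne_zero _ hr0) ?_
      rw [ENNReal.inv_rpow]
      exact ENNReal.inv_ne_zero.2 (ENNReal.rpow_ne_top_of_nonneg hs hrt)
    have htt : t ≠ ∞ := by
      refine ENNReal.mul_ne_top (ENNReal.pow_ne_top hrt) ?_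
      exact ENNReal.rpow_ne_top_of_nonneg hs (ENNReal.inv_ne_top.2 hr0)
    have hL : ∀ z ∈ cel r a, c * t ≤ ∑ y ∈ cel r a, green μ (y - z) := by
      intro z hz
      calc c * t = ∑ _y ∈ cel r a, c * ((r:ℝ≥0∞)⁻¹) ^ s := by
            rw [Finset.sum_const, card_cel, nsmul_eq_mul, ht]
            push_cast; ring
        _ ≤ ∑ y ∈ cel r a, green μ (y - z) := by
            refine Finset.sum_le_sum fun y hy => le_trans ?_ (hg (y - z)).1
            gcongr
            rw [kk]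
            refine ENNReal.rpow_le_rpow (ENNReal.inv_le_inv.2 ?_) hs
            have := (nrm_sub_of_mem_cel hy hz).resolve_right hd
            exact_mod_cast this
    have hU : ∑ y ∈ cel r a, green μ y ≤ C0 * 3 ^ s * t * kk s a := by
      have hpt : ∀ y ∈ cel r a, green μ y ≤ C0 * (3 ^ s * (((r:ℝ≥0∞)⁻¹) ^ s * kk s a)) := by
        intro y hy
        refine (hg y).2.trans ?_
        gcongr
        rw [kk, kk, ← ENNReal.mul_rpow_of_nonneg _ _ hs, ← ENNReal.mul_rpow_of_nonneg _ _ hs]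
        refine ENNReal.rpow_le_rpow ?_ hs
        have h4 : r * (1 + nrm a) ≤ 3 * (1 + nrm y) := by
          have := le_nrm_of_mem_cel hy
          nlinarith
        have h5 : ((1 + nrm a : ℕ) : ℝ≥0∞) ≠ 0 := by exact_mod_cast (by omega : 1 + nrm a ≠ 0)
        rw [← ENNReal.mul_inv (Or.inl hr0) (Or.inl hrt), ENNReal.inv_le_iff_inv_le,
          ENNReal.mul_inv (Or.inl (by norm_num)) (Or.inl (by norm_num)), inv_inv,
          ENNReal.inv_mul_le_iff (by norm_num) (by norm_num)]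
        exact_mod_cast h4
      calc ∑ y ∈ cel r a, green μ y ≤ ∑ _y ∈ cel r a, C0 * (3 ^ s * (((r:ℝ≥0∞)⁻¹) ^ s * kk s a)) :=
            Finset.sum_le_sum hpt
        _ = _ := by
            rw [Finset.sum_const, card_cel, nsmul_eq_mul, ht]
            push_cast; ring
    have hmain := (h.first_hit he (cel r a) hL).trans hU
    have h6 : P {ω | ∃ n, wlk ξ e n ω ∈ cel r a} * c ≤ C0 * 3 ^ s * kk s a := by
      have h7 : (P {ω | ∃ n, wlk ξ e n ω ∈ cel r a} * c) * t ≤ (C0 * 3 ^ s * kk s a) * t := by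
        calc _ = P {ω | ∃ n, wlk ξ e n ω ∈ cel r a} * (c * t) := by ring
          _ ≤ _ := hmain
          _ = _ := by ring
      exact (ENNReal.mul_le_mul_iff_left ht0 htt).1 h7
    have hct : c ≠ ∞ := by
      have h8 := (hg 0).1
      rw [kk_zero, mul_one] at h8
      exact ne_top_of_le_ne_top (hμ.transient 0) h8
    calc P {ω | ∃ n, wlk ξ e n ω ∈ cel r a}
        = c⁻¹ * (P {ω | ∃ n, wlk ξ e n ω ∈ cel r a} * c) := by
          rw [mul_comm (P _) c, ← mul_assoc, ENNReal.inv_mul_cancel hc hct, one_mul]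
      _ ≤ c⁻¹ * (C0 * 3 ^ s * kk s a) := by gcongr
      _ = c⁻¹ * (C0 * 3 ^ s) * kk s a := by ring
      _ ≤ _ := by gcongr; exact le_self_add

/-- cell index of a point -/
def cidx (r : ℕ) (x : Fin d → ℤ) : Fin d → ℤ := fun j => x j / r

lemma mem_cel_cidx {r : ℕ} (hr : 0 < r) (x : Fin d → ℤ) : x ∈ cel r (cidx r x) := by
  rw [mem_cel]
  intro j
  have hr' : (0:ℤ) < r := by exact_mod_cast hr
  exact ⟨Int.ediv_mul_le _ hr'.ne', Int.lt_ediv_add_one_mul_self _ hr'⟩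

lemma cidx_eq {r : ℕ} (hr : 0 < r) {a x : Fin d → ℤ} (h : x ∈ cel r a) : cidx r x = a := by
  rw [mem_cel] at h
  ext j
  have hr' : (0:ℤ) < r := by exact_mod_cast hr
  obtain ⟨h1, h2⟩ := h j
  rw [cidx, Int.ediv_eq_iff_of_pos hr']
  constructor <;> nlinarith

/-- corners `{0,1}^d` -/
noncomputable def corners (d : ℕ) : Finset (Fin d → ℤ) := Fintype.piFinset fun _ => Finset.Icc 0 1

lemma card_corners (d : ℕ) : (corners d).card = 2 ^ d := by
  simp [corners, Fintype.card_piFinset]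

lemma nrm_corner {ε : Fin d → ℤ} (h : ε ∈ corners d) : nrm ε ≤ 1 := by
  rw [corners, Fintype.mem_piFinset] at h
  rw [nrm_le_iff]
  intro j
  have := Finset.mem_Icc.1 (h j)
  omega

lemma cidx_add {r : ℕ} (hr : 0 < r) (x y : Fin d → ℤ) :
    cidx r (x + y) - cidx r x - cidx r y ∈ corners d := by
  rw [corners, Fintype.mem_piFinset]
  intro j
  have hr' : (0:ℤ) < r := by exact_mod_cast hr
  simp only [cidx, Pi.sub_apply, Pi.add_apply, Finset.mem_Icc]
  have h1 := Int.ediv_mul_le (x j) hr'.ne'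
  have h2 := Int.lt_ediv_add_one_mul_self (x j) hr'
  have h3 := Int.ediv_mul_le (y j) hr'.ne'
  have h4 := Int.lt_ediv_add_one_mul_self (y j) hr'
  have h5 := Int.ediv_mul_le (x j + y j) hr'.ne'
  have h6 := Int.lt_ediv_add_one_mul_self (x j + y j) hr'
  constructor
  · by_contra hc
    push Not at hc
    have : (x j + y j) / (r:ℤ) + 1 ≤ x j / r + y j / r := by omega
    nlinarith
  · by_contra hc
    push Not at hc
    have : x j / (r:ℤ) + y j / r + 2 ≤ (x j + y j) / r := by omega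
    nlinarith

end Pool.Agent.Helper95.ARW
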