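import Mathlib
import Pool.Agent.Helper95.ARWHit

set_option autoImplicit false
set_option linter.unusedSectionVars false

open MeasureTheory ProbabilityTheory
open scoped ENNReal

namespace Pool.Agent.Helper95.ARW

variable {Ω : Type*} {mΩ : MeasurableSpace Ω} {P : Measure Ω} [IsProbabilityMeasure P]
  {d N : ℕ} {μ : Measure (Fin d → ℤ)} {ξ : Fin N → ℕ → Ω → (Fin d → ℤ)} {α : ℝ}

/-- uncurried family of steps -/
def unc (ξ : Fin N → ℕ → Ω → (Fin d → ℤ)) (p : Fin N × ℕ) : Ω → (Fin d → ℤ) := ξ p.1 p.2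

lemma IsSteps.fam (h : IsSteps P μ ξ) : Fam P μ (unc ξ) :=
  ⟨fun _ => h.meas _ _, h.indep, fun _ => h.law _ _⟩

/-- index sequence of walk `i` -/
def ee (i : Fin N) (k : ℕ) : Fin N × ℕ := (i, k)

lemma ee_inj (i : Fin N) : Function.Injective (ee i) := fun a b h => by
  simpa [ee] using h

/-- sum of the first `n` walks -/
def paw (ξ : Fin N → ℕ → Ω → (Fin d → ℤ)) (n : ℕ) (m : Fin N → ℕ) (ω : Ω) : Fin d → ℤ :=
  ∑ i ∈ Finset.univ.filter (fun i : Fin N => i.val < n), wlk (unc ξ) (ee i) (m i) ω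

lemma paw_full (m : Fin N → ℕ) (ω : Ω) : paw ξ N m ω = addWalk ξ m ω := by
  rw [paw, addWalk, Finset.filter_true_of_mem (fun i _ => i.isLt)]
  rfl

lemma paw_succ {n : ℕ} (hn : n < N) (m : Fin N → ℕ) (ω : Ω) :
    paw ξ (n + 1) m ω = paw ξ n m ω + wlk (unc ξ) (ee ⟨n, hn⟩) (m ⟨n, hn⟩) ω := by
  rw [paw, paw]
  have : Finset.univ.filter (fun i : Fin N => i.val < n + 1) =
      insert (⟨n, hn⟩ : Fin N) (Finset.univ.filter (fun i : Fin N => i.val < n)) := by
    ext i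
    simp only [Finset.mem_filter, Finset.mem_univ, true_and, Finset.mem_insert, Fin.ext_iff]
    omega
  rw [this, Finset.sum_insert (by simp), add_comm]

/-- the sum of the first `n` walks hits the cell -/
def Hit (ξ : Fin N → ℕ → Ω → (Fin d → ℤ)) (n r : ℕ) (a : Fin d → ℤ) : Set Ω :=
  {ω | ∃ m : Fin N → ℕ, paw ξ n m ω ∈ cel r a}

lemma meas_paw_sig (n : ℕ) (m : Fin N → ℕ) :
    Measurable[sig (unc ξ) {p | p.1.val < n}] (paw ξ n m) := by
  refine Finset.measurable_sum _ fun i hi => ?_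
  refine meas_wlk_sig fun k _ => ?_
  simpa [ee] using hi

lemma meas_Hit_sig (n r : ℕ) (a : Fin d → ℤ) :
    MeasurableSet[sig (unc ξ) {p | p.1.val < n}] (Hit ξ n r a) := by
  have : Hit ξ n r a = ⋃ m : Fin N → ℕ, paw ξ n m ⁻¹' (cel r a : Set (Fin d → ℤ)) := by
    ext ω; simp [Hit]
  rw [this]
  exact MeasurableSet.iUnion fun m => meas_paw_sig n m (Finset.measurableSet _)

lemma meas_one_sig (i : Fin N) (r : ℕ) (a : Fin d → ℤ) :
    MeasurableSet[sig (unc ξ) {p | p.1 = i}] {ω | ∃ k, wlk (unc ξ) (ee i) k ω ∈ cel r a} := by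
  have : {ω | ∃ k, wlk (unc ξ) (ee i) k ω ∈ cel r a} =
      ⋃ k : ℕ, wlk (unc ξ) (ee i) k ⁻¹' (cel r a : Set (Fin d → ℤ)) := by
    ext ω; simp
  rw [this]
  refine MeasurableSet.iUnion fun k => ?_
  have h1 : Measurable[sig (unc ξ) {p | p.1 = i}] (wlk (unc ξ) (ee i) k) :=
    meas_wlk_sig fun k _ => rfl
  exact h1 (Finset.measurableSet _)

lemma Hit_step (h : IsSteps P μ ξ) {n : ℕ} (hn : n < N) {r : ℕ} (hr : 0 < r) (a : Fin d → ℤ) :
    P (Hit ξ (n + 1) r a) ≤ ∑' b : Fin d → ℤ, ∑ ε ∈ corners d,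
      P (Hit ξ n r b) * P {ω | ∃ k, wlk (unc ξ) (ee ⟨n, hn⟩) k ω ∈ cel r (a - b - ε)} := by
  have hsub : Hit ξ (n + 1) r a ⊆ ⋃ b : Fin d → ℤ, ⋃ ε ∈ corners d,
      (Hit ξ n r b ∩ {ω | ∃ k, wlk (unc ξ) (ee ⟨n, hn⟩) k ω ∈ cel r (a - b - ε)}) := by
    rintro ω ⟨m, hm⟩
    rw [paw_succ hn] at hm
    set x := paw ξ n m ω
    set y := wlk (unc ξ) (ee ⟨n, hn⟩) (m ⟨n, hn⟩) ω with hy
    simp only [Set.mem_iUnion]
    refine ⟨cidx r x, cidx r (x + y) - cidx r x - cidx r y, cidx_add hr x y,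
      ⟨m, mem_cel_cidx hr x⟩, ⟨m ⟨n, hn⟩, ?_⟩⟩
    rw [← cidx_eq hr hm]
    have : cidx r (x + y) - cidx r x - (cidx r (x + y) - cidx r x - cidx r y) = cidx r y := by abel
    rw [this, ← hy]
    exact mem_cel_cidx hr y
  refine (measure_mono hsub).trans ((measure_iUnion_le _).trans ?_)
  refine ENNReal.tsum_le_tsum fun b => (measure_biUnion_finset_le _ _).trans ?_
  refine Finset.sum_le_sum fun ε _ => le_of_eq ?_
  refine h.fam.indep_inter (S := {p | p.1.val < n}) (T := {p | p.1 = ⟨n, hn⟩}) ?_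
    (meas_Hit_sig n r b) (meas_one_sig _ r _)
  rw [Set.disjoint_left]
  intro p hp hp2
  have h2 : p.1 = ⟨n, hn⟩ := hp2
  have h1 : p.1.val < n := hp
  rw [h2] at h1
  exact lt_irrefl _ h1

/-- hitting probability of a cell by the sum of the first `n` walks -/
lemma hit_multi (hμ : StepLaw μ α) (hα : α * N < d) (h : IsSteps P μ ξ) (n : ℕ) (h1 : 1 ≤ n)
    (hn : n ≤ N) :
    ∃ C : ℝ≥0∞, C ≠ ∞ ∧ ∀ r : ℕ, 0 < r → ∀ a : Fin d → ℤ,
      P (Hit ξ n r a) ≤ C * kk (d - α * n) a := by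
  have hpos := hμ.pos
  have hN1 : (1:ℝ) ≤ N := by exact_mod_cast h1.trans hn
  have hα1 : α < d := by nlinarith
  obtain ⟨C1, hC1, hc1⟩ := hit_cell hμ hα1 h.fam
  induction n, h1 using Nat.le_induction with
  | base =>
    refine ⟨C1, hC1, fun r hr a => ?_⟩
    have e1 : Hit ξ 1 r a = {ω | ∃ k, wlk (unc ξ) (ee ⟨0, hn⟩) k ω ∈ cel r a} := by
      ext ω
      simp only [Hit, Set.mem_ofPred_eq]
      have e2 : ∀ m : Fin N → ℕ, paw ξ 1 m ω = wlk (unc ξ) (ee ⟨0, hn⟩) (m ⟨0, hn⟩) ω := by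
        intro m
        rw [show (1:ℕ) = 0 + 1 from rfl, paw_succ (n := 0) hn]
        have : paw ξ 0 m ω = 0 := by simp [paw]
        rw [this, zero_add]
      constructor
      · rintro ⟨m, hm⟩
        rw [e2] at hm; exact ⟨_, hm⟩
      · rintro ⟨k, hk⟩
        refine ⟨fun _ => k, ?_⟩
        rw [e2]; exact hk
    rw [e1]
    have := hc1 (ee ⟨0, hn⟩) (ee_inj _) r hr a
    simpa using this
  | succ n hn1 ih =>
    obtain ⟨C2, hC2, hc2⟩ := ih (by omega)
    have hnN : (n:ℝ) + 1 ≤ N := by exact_mod_cast hn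
    have hn1' : (1:ℝ) ≤ n := by exact_mod_cast hn1
    have hαn : α * n < d := by nlinarith
    have hαn1 : α * (n + 1) < d := by nlinarith
    obtain ⟨C3, hC3, hc3⟩ := conv_le (d := d) (s := (d:ℝ) - α) (t := (d:ℝ) - α * n)
      (by linarith) (by linarith) (by linarith) (by nlinarith) (by nlinarith)
    have h2 : (2:ℝ≥0∞) ^ ((d:ℝ) - α) ≠ ∞ := ENNReal.rpow_ne_top_of_nonneg (by linarith) (by norm_num)
    refine ⟨2 ^ d * (C2 * (C1 * 2 ^ ((d:ℝ) - α))) * C3, ?_, fun r hr a => ?_⟩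
    · exact ENNReal.mul_ne_top (ENNReal.mul_ne_top (by simp)
        (ENNReal.mul_ne_top hC2 (ENNReal.mul_ne_top hC1 h2))) hC3
    refine (Hit_step h (n := n) (by omega) hr a).trans ?_
    have hpt : ∀ b : Fin d → ℤ, ∑ ε ∈ corners d,
        P (Hit ξ n r b) * P {ω | ∃ k, wlk (unc ξ) (ee ⟨n, by omega⟩) k ω ∈ cel r (a - b - ε)} ≤
        2 ^ d * (C2 * (C1 * 2 ^ ((d:ℝ) - α))) * (kk (d - α) (a - b) * kk (d - α * n) b) := by
      intro b
      calc _ ≤ ∑ _ε ∈ corners d, C2 * kk (d - α * n) b *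
            (C1 * (2 ^ ((d:ℝ) - α) * kk (d - α) (a - b))) := by
            refine Finset.sum_le_sum fun ε hε => ?_
            gcongr
            · exact hc2 r hr b
            · refine (hc1 (ee ⟨n, by omega⟩) (ee_inj _) r hr (a - b - ε)).trans ?_
              gcongr
              refine kk_le_of_le (C := 2) (by linarith) ?_
              have h3 := nrm_corner hε
              have h4 := nrm_add_le (a - b - ε) ε
              rw [sub_add_cancel] at h4
              omega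
        _ = _ := by
            rw [Finset.sum_const, card_corners, nsmul_eq_mul]
            push_cast; ring
    refine (ENNReal.tsum_le_tsum hpt).trans ?_
    rw [ENNReal.tsum_mul_left]
    calc _ ≤ 2 ^ d * (C2 * (C1 * 2 ^ ((d:ℝ) - α))) * (C3 * kk ((d:ℝ) - α + (d - α * n) - d) a) := by
          gcongr
          exact hc3 a
      _ = _ := by
          have : (d:ℝ) - α + (d - α * n) - d = d - α * ((n + 1 : ℕ) : ℝ) := by push_cast; ring
          rw [this]; ring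

end Pool.Agent.Helper95.ARW
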