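import Mathlib
import Pool.Agent.Helper95.ARWMulti

set_option autoImplicit false
set_option linter.unusedSectionVars false

open MeasureTheory ProbabilityTheory Filter
open scoped ENNReal

namespace Pool.Agent.Helper95.ARW

section
variable {d : ℕ}

/-- cost of a cover -/
noncomputable def cost (γ : ℝ) (k : ℕ) (𝒞 : Finset (ℕ × (Fin d → ℤ))) : ℝ≥0∞ :=
  ∑ Q ∈ 𝒞, ENNReal.ofReal ((2:ℝ) ^ (γ * ((Q.1:ℝ) - k - 1)))

lemma cover_le {γ : ℝ} {A : Set (Fin d → ℤ)} {k : ℕ} {𝒞 : Finset (ℕ × (Fin d → ℤ))}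
    (h : ∀ x ∈ A ∩ shell d k, ∃ Q ∈ 𝒞, x ∈ dyCube Q.1 Q.2) : cover γ A k ≤ cost γ k 𝒞 :=
  iInf₂_le 𝒞 h

lemma le_cover {γ : ℝ} {A : Set (Fin d → ℤ)} {k : ℕ} {c : ℝ≥0∞}
    (h : ∀ 𝒞 : Finset (ℕ × (Fin d → ℤ)), (∀ x ∈ A ∩ shell d k, ∃ Q ∈ 𝒞, x ∈ dyCube Q.1 Q.2) →
      c ≤ cost γ k 𝒞) : c ≤ cover γ A k := le_iInf₂ h

lemma le_mul_cover {γ : ℝ} {A : Set (Fin d → ℤ)} {k : ℕ} {c C : ℝ≥0∞} (hC0 : C ≠ 0) (hC : C ≠ ∞)
    (h : ∀ 𝒞 : Finset (ℕ × (Fin d → ℤ)), (∀ x ∈ A ∩ shell d k, ∃ Q ∈ 𝒞, x ∈ dyCube Q.1 Q.2) →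
      c ≤ C * cost γ k 𝒞) : c ≤ C * cover γ A k := by
  have h1 : C⁻¹ * c ≤ cover γ A k := by
    refine le_cover fun 𝒞 h𝒞 => ?_
    calc C⁻¹ * c ≤ C⁻¹ * (C * cost γ k 𝒞) := by gcongr; exact h 𝒞 h𝒞
      _ = _ := by rw [← mul_assoc, ENNReal.inv_mul_cancel hC0 hC, one_mul]
  calc c = C * (C⁻¹ * c) := by rw [← mul_assoc, ENNReal.mul_inv_cancel hC0 hC, one_mul]
    _ ≤ _ := by gcongr

lemma shell_sub (k : ℕ) : shell d k ⊆ boxV d k := by
  cases k with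
  | zero => exact subset_rfl
  | succ k => exact Set.sdiff_subset

lemma mem_dyCube_iff {l : ℕ} {a x : Fin d → ℤ} : x ∈ dyCube l a ↔ x ∈ cel (2 ^ l) a := by
  rw [mem_cel]
  simp only [dyCube, Set.mem_ofPred_eq]
  push_cast
  rfl

/-- pairing with a level -/
def lvl (d k : ℕ) : (Fin d → ℤ) ↪ ℕ × (Fin d → ℤ) where
  toFun a := (k, a)
  inj' _ _ h := (Prod.mk.inj h).2

lemma lvl_apply (k : ℕ) (a : Fin d → ℤ) : lvl d k a = (k, a) := rfl

/-- the `2^d` cubes of side `2^k` covering `V_k` -/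
noncomputable def fullCover (d k : ℕ) : Finset (ℕ × (Fin d → ℤ)) :=
  (Fintype.piFinset fun _ : Fin d => Finset.Icc (-1:ℤ) 0).map (lvl d k)

lemma card_fullCover (d k : ℕ) : (fullCover d k).card = 2 ^ d := by
  simp [fullCover, Fintype.card_piFinset]

lemma fullCover_covers {k : ℕ} {x : Fin d → ℤ} (hx : x ∈ boxV d k) :
    ∃ Q ∈ fullCover d k, x ∈ dyCube Q.1 Q.2 := by
  refine ⟨(k, fun j => if 0 ≤ x j then 0 else -1), ?_, ?_⟩
  · rw [fullCover, Finset.mem_map]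
    refine ⟨fun j => if 0 ≤ x j then 0 else -1, ?_, rfl⟩
    rw [Fintype.mem_piFinset]
    intro j
    rw [Finset.mem_Icc]
    split_ifs <;> simp
  · intro j
    obtain ⟨h1, h2⟩ := hx j
    simp only
    split_ifs with h3
    · constructor
      · simpa using h3
      · simpa using h2
    · constructor
      · simpa using h1
      · push Not at h3
        simpa using h3

lemma cost_fullCover_le {γ : ℝ} (hγ : 0 ≤ γ) (k : ℕ) : cost γ k (fullCover d k) ≤ 2 ^ d := by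
  rw [cost]
  calc _ ≤ ∑ _Q ∈ fullCover d k, (1:ℝ≥0∞) := by
        refine Finset.sum_le_sum fun Q hQ => ?_
        have h1 : Q.1 = k := by
          rw [fullCover, Finset.mem_map] at hQ
          obtain ⟨a, _, rfl⟩ := hQ
          rfl
        rw [h1, ← ENNReal.ofReal_one]
        refine ENNReal.ofReal_le_ofReal ?_
        refine Real.rpow_le_one_of_one_le_of_nonpos (by norm_num) ?_
        nlinarith
    _ = _ := by rw [Finset.sum_const, card_fullCover]; simp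

/-- monotonicity of the covers in the exponent, up to a constant -/
lemma cover_mono {γ γ' : ℝ} (h0 : 0 ≤ γ) (h : γ ≤ γ') (A : Set (Fin d → ℤ)) (k : ℕ) :
    cover γ' A k ≤ 2 ^ d * cover γ A k := by
  refine le_mul_cover (by simp) (by simp) fun 𝒞 h𝒞 => ?_
  by_cases hall : ∀ Q ∈ 𝒞, Q.1 ≤ k + 1
  · calc cover γ' A k ≤ cost γ' k 𝒞 := cover_le h𝒞
      _ ≤ cost γ k 𝒞 := by
          refine Finset.sum_le_sum fun Q hQ => ENNReal.ofReal_le_ofReal ?_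
          refine Real.rpow_le_rpow_of_exponent_le (by norm_num) ?_
          have h1 : (Q.1:ℝ) ≤ k + 1 := by exact_mod_cast hall Q hQ
          nlinarith
      _ ≤ 2 ^ d * cost γ k 𝒞 := by
          calc cost γ k 𝒞 = 1 * cost γ k 𝒞 := (one_mul _).symm
            _ ≤ _ := by gcongr; exact one_le_pow₀ (by norm_num)
  · push Not at hall
    obtain ⟨Q, hQ, hQ2⟩ := hall
    have h1 : 1 ≤ cost γ k 𝒞 := by
      refine le_trans ?_ (Finset.single_le_sum (fun _ _ => zero_le) hQ)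
      rw [← ENNReal.ofReal_one]
      refine ENNReal.ofReal_le_ofReal (Real.one_le_rpow (by norm_num) ?_)
      have h1 : (k:ℝ) + 1 ≤ Q.1 := by exact_mod_cast hQ2.le
      nlinarith
    calc cover γ' A k ≤ cost γ' k (fullCover d k) :=
          cover_le fun x hx => fullCover_covers (shell_sub k hx.2)
      _ ≤ 2 ^ d := cost_fullCover_le (h0.trans h) k
      _ = 2 ^ d * 1 := (mul_one _).symm
      _ ≤ _ := by gcongr

/-- the defining set of the dimension -/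
def dimSet (A : Set (Fin d → ℤ)) : Set ℝ := {γ : ℝ | 0 < γ ∧ ∑' k : ℕ, cover γ A (k + 1) < ∞}

lemma macroDim_eq (A : Set (Fin d → ℤ)) : macroDim A = sInf (dimSet A) := rfl

lemma dimSet_up {A : Set (Fin d → ℤ)} {γ γ' : ℝ} (hγ : γ ∈ dimSet A) (h : γ ≤ γ') :
    γ' ∈ dimSet A := by
  refine ⟨hγ.1.trans_le h, ?_⟩
  calc ∑' k : ℕ, cover γ' A (k + 1) ≤ ∑' k : ℕ, 2 ^ d * cover γ A (k + 1) :=
        ENNReal.tsum_le_tsum fun k => cover_mono hγ.1.le h A _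
    _ = 2 ^ d * ∑' k : ℕ, cover γ A (k + 1) := ENNReal.tsum_mul_left
    _ < ∞ := ENNReal.mul_lt_top (by simp) hγ.2

/-- cover by unit cubes -/
noncomputable def unitCover (d k : ℕ) : Finset (ℕ × (Fin d → ℤ)) :=
  (ball d (2 ^ k)).map (lvl d 0)

lemma dimSet_nonempty (A : Set (Fin d → ℤ)) : (dimSet A).Nonempty := by
  refine ⟨(d:ℝ) + 1, by positivity, ?_⟩
  have h1 : ∀ k : ℕ, cover ((d:ℝ) + 1) A (k + 1) ≤ 2 ^ d * (2⁻¹) ^ k := by
    intro k
    have h2 : cover ((d:ℝ) + 1) A (k + 1) ≤ cost ((d:ℝ) + 1) (k + 1) (unitCover d (k + 1)) := by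
      refine cover_le fun x hx => ⟨(0, x), ?_, ?_⟩
      · rw [unitCover, Finset.mem_map]
        refine ⟨x, ?_, rfl⟩
        rw [mem_ball, nrm_le_iff]
        intro i
        obtain ⟨h3, h4⟩ := shell_sub _ hx.2 i
        zify
        rw [abs_le]
        exact ⟨h3, h4.le⟩
      · intro j
        simp
    refine h2.trans ?_
    have h3 : cost ((d:ℝ) + 1) (k + 1) (unitCover d (k + 1)) =
        ((ball d (2 ^ (k + 1))).card : ℝ≥0∞) * ENNReal.ofReal ((2:ℝ) ^ (-(((d:ℝ) + 1) * (k + 2)))) := by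
      rw [cost, unitCover, Finset.sum_map, Finset.sum_congr rfl
        (g := fun _ => ENNReal.ofReal ((2:ℝ) ^ (-(((d:ℝ) + 1) * (k + 2))))), Finset.sum_const,
        nsmul_eq_mul]
      intro x _
      congr 2
      rw [lvl_apply]
      push_cast; ring
    rw [h3, card_ball]
    have h4 : (2:ℝ) ^ (-(((d:ℝ) + 1) * (k + 2))) = ((2:ℝ) ^ ((d + 1) * (k + 2)))⁻¹ := by
      rw [Real.rpow_neg (by norm_num)]
      congr 1
      rw [← Real.rpow_natCast]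
      push_cast; rfl
    have h5 : ((2 * 2 ^ (k + 1) + 1 : ℕ) : ℝ) ^ d ≤ (2:ℝ) ^ (d * (k + 3)) := by
      rw [mul_comm d, pow_mul]
      gcongr
      have h6 : 2 * 2 ^ (k + 1) + 1 ≤ 2 ^ (k + 3) := by
        have h7 : (2:ℕ) ^ (k + 3) = 2 * 2 ^ (k + 1) + 2 * 2 ^ (k + 1) := by ring
        have h8 : 0 < (2:ℕ) ^ (k + 1) := by positivity
        omega
      exact_mod_cast h6
    calc (((2 * 2 ^ (k + 1) + 1) ^ d : ℕ) : ℝ≥0∞) * ENNReal.ofReal ((2:ℝ) ^ (-(((d:ℝ) + 1) * (k + 2))))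
        = ENNReal.ofReal (((2 * 2 ^ (k + 1) + 1 : ℕ) : ℝ) ^ d * ((2:ℝ) ^ ((d + 1) * (k + 2)))⁻¹) := by
          rw [h4, ENNReal.ofReal_mul (by positivity)]
          congr 1
          rw [← ENNReal.ofReal_natCast]
          push_cast; rfl
      _ ≤ ENNReal.ofReal ((2:ℝ) ^ d * (2⁻¹) ^ k) := by
          refine ENNReal.ofReal_le_ofReal ?_
          calc ((2 * 2 ^ (k + 1) + 1 : ℕ) : ℝ) ^ d * ((2:ℝ) ^ ((d + 1) * (k + 2)))⁻¹
              ≤ (2:ℝ) ^ (d * (k + 3)) * ((2:ℝ) ^ ((d + 1) * (k + 2)))⁻¹ := by gcongr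
            _ ≤ (2:ℝ) ^ d * (2⁻¹) ^ k := by
                rw [inv_pow, ← div_eq_mul_inv, ← div_eq_mul_inv,
                  div_le_div_iff₀ (by positivity) (by positivity), ← pow_add, ← pow_add]
                refine pow_le_pow_right₀ (by norm_num) ?_
                nlinarith
      _ = 2 ^ d * (2⁻¹) ^ k := by
          rw [ENNReal.ofReal_mul (by positivity), ENNReal.ofReal_pow (by norm_num),
            ENNReal.ofReal_pow (by norm_num), ENNReal.ofReal_inv_of_pos (by norm_num)]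
          simp
  calc ∑' k : ℕ, cover ((d:ℝ) + 1) A (k + 1) ≤ ∑' k : ℕ, 2 ^ d * (2⁻¹ : ℝ≥0∞) ^ k :=
        ENNReal.tsum_le_tsum h1
    _ = 2 ^ d * ∑' k : ℕ, (2⁻¹ : ℝ≥0∞) ^ k := ENNReal.tsum_mul_left
    _ < ∞ := by
        rw [ENNReal.tsum_geometric]
        refine ENNReal.mul_lt_top (by simp) ?_
        rw [ENNReal.one_sub_inv_two, inv_inv]
        norm_num

lemma of_dim_lt {A : Set (Fin d → ℤ)} {γ : ℝ} (h : macroDim A < γ) :
    ∑' k : ℕ, cover γ A (k + 1) < ∞ := by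
  obtain ⟨γ', h1, h2⟩ := exists_lt_of_csInf_lt (dimSet_nonempty A) h
  exact (dimSet_up h1 h2.le).2

lemma of_lt_dim {A : Set (Fin d → ℤ)} {γ : ℝ} (hγ : 0 < γ) (h : γ < macroDim A) :
    ∑' k : ℕ, cover γ A (k + 1) = ∞ := by
  by_contra hc
  have h1 : γ ∈ dimSet A := ⟨hγ, lt_top_iff_ne_top.2 hc⟩
  have h2 : macroDim A ≤ γ := csInf_le ⟨0, fun x hx => hx.1.le⟩ h1
  linarith

lemma two_pow_le_of_shell {k : ℕ} {x : Fin d → ℤ} (hx : x ∈ shell d (k + 1)) : 2 ^ k ≤ nrm x := by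
  by_contra hc
  push Not at hc
  apply hx.2
  intro i
  have := natAbs_le_nrm x i
  have h2 : (x i).natAbs < 2 ^ k := lt_of_le_of_lt this hc
  zify at h2
  rw [abs_lt] at h2
  exact ⟨h2.1.le, h2.2⟩

end

section
variable {Ω : Type*} {mΩ : MeasurableSpace Ω} {P : Measure Ω} [IsProbabilityMeasure P]
  {d N : ℕ} {μ : Measure (Fin d → ℤ)} {ξ : Fin N → ℕ → Ω → (Fin d → ℤ)} {α : ℝ}

lemma prob_shell_le (hμ : StepLaw μ α) (hN : 1 ≤ N) (hα : α * N < d) (h : IsSteps P μ ξ)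
    (A : Set (Fin d → ℤ)) :
    ∃ C : ℝ≥0∞, C ≠ ∞ ∧ ∀ k : ℕ,
      P {ω | (addRange ξ ω ∩ (A ∩ shell d (k + 1))).Nonempty} ≤
        C * cover (d - α * N) A (k + 1) := by
  obtain ⟨C, hC, hc⟩ := hit_multi hμ hα h N hN le_rfl
  have hγ : 0 < (d:ℝ) - α * N := by linarith
  set γ := (d:ℝ) - α * N with hγdef
  refine ⟨C * 4 ^ γ + 1, ?_, fun k => ?_⟩
  · exact ENNReal.add_ne_top.2 ⟨ENNReal.mul_ne_top hC
      (ENNReal.rpow_ne_top_of_nonneg hγ.le (by norm_num)), ENNReal.one_ne_top⟩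
  refine le_mul_cover (by simp) ?_ fun 𝒞 h𝒞 => ?_
  · exact ENNReal.add_ne_top.2 ⟨ENNReal.mul_ne_top hC
      (ENNReal.rpow_ne_top_of_nonneg hγ.le (by norm_num)), ENNReal.one_ne_top⟩
  classical
  have hsub : {ω | (addRange ξ ω ∩ (A ∩ shell d (k + 1))).Nonempty} ⊆
      ⋃ Q ∈ 𝒞.filter (fun Q => (dyCube Q.1 Q.2 ∩ shell d (k + 1)).Nonempty),
        Hit ξ N (2 ^ Q.1) Q.2 := by
    rintro ω ⟨x, ⟨m, hm⟩, hx⟩
    obtain ⟨Q, hQ, hxQ⟩ := h𝒞 x hx
    simp only [Set.mem_iUnion, Finset.mem_filter]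
    refine ⟨Q, ⟨hQ, x, hxQ, hx.2⟩, m, ?_⟩
    rw [paw_full]
    have hm' : addWalk ξ m ω = x := hm
    rw [hm']
    exact mem_dyCube_iff.1 hxQ
  refine (measure_mono hsub).trans ((measure_biUnion_finset_le _ _).trans ?_)
  calc ∑ Q ∈ 𝒞.filter (fun Q => (dyCube Q.1 Q.2 ∩ shell d (k + 1)).Nonempty),
        P (Hit ξ N (2 ^ Q.1) Q.2)
      ≤ ∑ Q ∈ 𝒞.filter (fun Q => (dyCube Q.1 Q.2 ∩ shell d (k + 1)).Nonempty),
        C * 4 ^ γ * ENNReal.ofReal ((2:ℝ) ^ (γ * ((Q.1:ℝ) - (k + 1 : ℕ) - 1))) := by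
        refine Finset.sum_le_sum fun Q hQ => ?_
        obtain ⟨_, x, hx1, hx2⟩ := Finset.mem_filter.1 hQ
        refine (hc (2 ^ Q.1) (by positivity) Q.2).trans ?_
        rw [mul_assoc]
        gcongr
        have h1 := nrm_le_of_mem_cel (mem_dyCube_iff.1 hx1)
        have h2 := two_pow_le_of_shell hx2
        have h3 : 2 ^ k ≤ 2 ^ Q.1 * (1 + nrm Q.2) := h2.trans h1
        have h4 : (4:ℝ≥0∞) ^ γ = ENNReal.ofReal ((4:ℝ) ^ γ) := by
          rw [← ENNReal.ofReal_rpow_of_pos (by norm_num)]; simp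
        rw [kk_eq_ofReal, h4, ← ENNReal.ofReal_mul (by positivity)]
        refine ENNReal.ofReal_le_ofReal ?_
        have h5 : (4:ℝ) ^ γ * (2:ℝ) ^ (γ * ((Q.1:ℝ) - (k + 1 : ℕ) - 1)) =
            ((2:ℝ) ^ k / 2 ^ Q.1) ^ (-γ) := by
          have h6 : (4:ℝ) = 2 ^ (2:ℝ) := by norm_num
          rw [h6, ← Real.rpow_mul (by norm_num), ← Real.rpow_add (by norm_num),
            ← Real.rpow_natCast 2 k, ← Real.rpow_natCast 2 Q.1, ← Real.rpow_sub (by norm_num),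
            ← Real.rpow_mul (by norm_num)]
          congr 1
          push_cast; ring
        rw [h5]
        refine Real.rpow_le_rpow_of_nonpos (by positivity) ?_ (by linarith)
        rw [div_le_iff₀ (by positivity)]
        have h7 : (2:ℝ) ^ k ≤ 2 ^ Q.1 * ((1 + nrm Q.2 : ℕ) : ℝ) := by exact_mod_cast h3
        linarith
    _ ≤ ∑ Q ∈ 𝒞, C * 4 ^ γ * ENNReal.ofReal ((2:ℝ) ^ (γ * ((Q.1:ℝ) - (k + 1 : ℕ) - 1))) :=
        Finset.sum_le_sum_of_subset (Finset.filter_subset _ _)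
    _ = C * 4 ^ γ * cost γ (k + 1) 𝒞 := by rw [cost, Finset.mul_sum]
    _ ≤ _ := by gcongr; exact le_self_add

lemma exists_boxV (x : Fin d → ℤ) : ∃ k, x ∈ boxV d k := by
  refine ⟨nrm x, fun i => ?_⟩
  have h1 := natAbs_le_nrm x i
  have h2 : nrm x < 2 ^ nrm x := Nat.lt_two_pow_self
  have h3 : (x i).natAbs < 2 ^ nrm x := by omega
  zify at h3
  rw [abs_lt] at h3
  exact ⟨h3.1.le, h3.2⟩

lemma boxV_bounded (k : ℕ) : Bornology.IsBounded (boxV d k) := by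
  refine (Metric.isBounded_iff_subset_closedBall 0).2 ⟨2 ^ k, fun x hx => ?_⟩
  rw [mem_closedBall_zero_iff, norm_eq_nrm]
  have : nrm x ≤ 2 ^ k := by
    rw [nrm_le_iff]
    intro i
    obtain ⟨h1, h2⟩ := hx i
    zify
    rw [abs_le]
    exact ⟨h1, h2.le⟩
  exact_mod_cast this

/-- **Q2**: if `Dim A < d - α N` then the range meets `A` in a bounded set almost surely. -/
theorem q2 (hμ : StepLaw μ α) (hN : 1 ≤ N) (hα : α * N < d) (h : IsSteps P μ ξ)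
    {A : Set (Fin d → ℤ)} (hA : macroDim A < d - α * N) :
    ∀ᵐ ω ∂P, Bornology.IsBounded (addRange ξ ω ∩ A) := by
  obtain ⟨C, hC, hc⟩ := prob_shell_le hμ hN hα h A
  have hsum : ∑' k, P {ω | (addRange ξ ω ∩ (A ∩ shell d (k + 1))).Nonempty} ≠ ∞ := by
    refine ne_top_of_le_ne_top ?_ (ENNReal.tsum_le_tsum hc)
    rw [ENNReal.tsum_mul_left]
    exact ENNReal.mul_ne_top hC (of_dim_lt hA).ne
  filter_upwards [ae_eventually_notMem hsum] with ω hω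
  obtain ⟨K, hK⟩ := eventually_atTop.1 hω
  refine (boxV_bounded K).subset fun x hx => ?_
  classical
  by_contra hxK
  have hex := exists_boxV x
  set k := Nat.find hex with hk
  have h1 : x ∈ boxV d k := Nat.find_spec hex
  have hmono : ∀ i j : ℕ, i ≤ j → boxV d i ⊆ boxV d j := by
    intro i j hij y hy l
    have h3 : (2:ℤ) ^ i ≤ 2 ^ j := pow_le_pow_right₀ (by norm_num) hij
    obtain ⟨h4, h5⟩ := hy l
    constructor <;> linarith
  have h2 : K < k := by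
    by_contra hc2
    exact hxK (hmono k K (not_lt.1 hc2) h1)
  obtain ⟨j, hj⟩ : ∃ j, k = j + 1 := ⟨k - 1, by omega⟩
  have h3 : x ∉ boxV d j := Nat.find_min hex (by omega)
  exact hK j (by omega) ⟨x, hx.1, hx.2, by rw [hj] at h1; exact ⟨h1, h3⟩⟩

end

end Pool.Agent.Helper95.ARW
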