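import Mathlib
import Pool.Agent.Helper95.ARWDim

set_option autoImplicit false
set_option linter.unusedSectionVars false

open scoped ENNReal

namespace Pool.Agent.Helper95.ARW

variable {d : ℕ}

lemma mem_cel_iff {r : ℕ} (hr : 0 < r) {a x : Fin d → ℤ} : x ∈ cel r a ↔ cidx r x = a :=
  ⟨cidx_eq hr, fun h => h ▸ mem_cel_cidx hr x⟩

lemma cidx_mul {r s : ℕ} (x : Fin d → ℤ) : cidx (r * s) x = cidx s (cidx r x) := by
  ext j
  simp only [cidx]
  push_cast
  rw [Int.ediv_ediv_of_nonneg (by positivity)]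

lemma cidx_pow {l' l : ℕ} (h : l' ≤ l) (x : Fin d → ℤ) :
    cidx (2 ^ l) x = cidx (2 ^ (l - l')) (cidx (2 ^ l') x) := by
  rw [← cidx_mul, ← pow_add, Nat.add_sub_cancel' h]

lemma cidx_succ (l : ℕ) (x : Fin d → ℤ) (j : Fin d) :
    cidx (2 ^ (l + 1)) x j = cidx (2 ^ l) x j / 2 := by
  rw [cidx_pow (Nat.le_succ l)]
  have : l + 1 - l = 1 := by omega
  rw [Nat.succ_eq_add_one, this]
  simp [cidx]

/-- children of a cube -/
lemma cidx_child (l : ℕ) (x : Fin d → ℤ) :
    cidx (2 ^ l) x - (fun j => 2 * cidx (2 ^ (l + 1)) x j) ∈ corners d := by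
  rw [corners, Fintype.mem_piFinset]
  intro j
  simp only [Pi.sub_apply, Finset.mem_Icc, cidx_succ]
  omega

/-- capacity of level `l` in the shell `k` -/
noncomputable def cp (γ : ℝ) (k l : ℕ) : ℝ≥0∞ := ENNReal.ofReal ((2:ℝ) ^ (γ * ((l:ℝ) - k - 1)))

lemma cp_ne_top (γ : ℝ) (k l : ℕ) : cp γ k l ≠ ∞ := ENNReal.ofReal_ne_top

lemma cp_mono {γ : ℝ} (hγ : 0 ≤ γ) (k : ℕ) {l l' : ℕ} (h : l ≤ l') : cp γ k l ≤ cp γ k l' := by
  refine ENNReal.ofReal_le_ofReal (Real.rpow_le_rpow_of_exponent_le (by norm_num) ?_)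
  have : (l:ℝ) ≤ l' := by exact_mod_cast h
  nlinarith

lemma cost_eq (γ : ℝ) (k : ℕ) (𝒞 : Finset (ℕ × (Fin d → ℤ))) :
    cost γ k 𝒞 = ∑ Q ∈ 𝒞, cp γ k Q.1 := rfl

lemma cost_biUnion_le [DecidableEq (ℕ × (Fin d → ℤ))] {β : Type*} (γ : ℝ) (k : ℕ) (s : Finset β)
    (f : β → Finset (ℕ × (Fin d → ℤ))) :
    cost γ k (s.biUnion f) ≤ ∑ b ∈ s, cost γ k (f b) := by
  classical
  induction s using Finset.induction_on with
  | empty => simp [cost]
  | insert a s ha ih =>
    rw [Finset.biUnion_insert, Finset.sum_insert ha]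
    refine le_trans ?_ (add_le_add le_rfl ih)
    rw [cost_eq, cost_eq, cost_eq, ← Finset.sum_union_inter]
    exact le_self_add

/-- the tree recursion -/
lemma frost_tree {γ : ℝ} (hγ : 0 ≤ γ) (k : ℕ) (F : Set (Fin d → ℤ)) (l : ℕ) (a : Fin d → ℤ) :
    ∃ ν : (Fin d → ℤ) → ℝ≥0∞, (∀ x, ν x ≠ 0 → x ∈ F ∧ cidx (2 ^ l) x = a) ∧
      (∀ l' ≤ l, ∀ a', ∑ x ∈ cel (2 ^ l') a', ν x ≤ cp γ k l') ∧
      ∃ 𝒞 : Finset (ℕ × (Fin d → ℤ)),
        (∀ x ∈ F, cidx (2 ^ l) x = a → ∃ Q ∈ 𝒞, x ∈ dyCube Q.1 Q.2) ∧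
        cost γ k 𝒞 ≤ ∑ x ∈ cel (2 ^ l) a, ν x := by
  classical
  induction l generalizing a with
  | zero =>
    have hc : ∀ x : Fin d → ℤ, cidx (2 ^ 0) x = x := by
      intro x; ext j; simp [cidx]
    have hcel : ∀ b : Fin d → ℤ, cel (2 ^ 0) b = {b} := by
      intro b
      ext x
      rw [mem_cel_iff (by positivity), hc, Finset.mem_singleton]
    by_cases ha : a ∈ F
    · refine ⟨fun x => if x = a then cp γ k 0 else 0, ?_, ?_, {(0, a)}, ?_, ?_⟩
      · intro x hx
        have : x = a := by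
          by_contra h; exact hx (if_neg h)
        rw [this]; exact ⟨ha, hc a⟩
      · intro l' hl' a'
        obtain rfl : l' = 0 := by omega
        rw [hcel, Finset.sum_singleton]
        split_ifs
        · exact le_rfl
        · exact zero_le
      · intro x _ hxa
        rw [hc] at hxa
        subst hxa
        exact ⟨(0, x), Finset.mem_singleton_self _, mem_dyCube_iff.2 (by
          rw [hcel]; exact Finset.mem_singleton_self _)⟩
      · rw [hcel, Finset.sum_singleton, if_pos rfl, cost_eq, Finset.sum_singleton]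
    · refine ⟨fun _ => 0, fun x hx => absurd rfl hx, ?_, ∅, ?_, ?_⟩
      · intro l' _ a'; simp
      · intro x hx hxa
        rw [hc] at hxa
        subst hxa
        exact absurd hx ha
      · simp [cost]
  | succ l ih =>
    choose ν hν1 hν2 C hC1 hC2 using ih
    -- children indices
    set ch : (Fin d → ℤ) → (Fin d → ℤ) := fun ε => (fun j => 2 * a j) + ε with hch
    have hchild : ∀ x : Fin d → ℤ, cidx (2 ^ (l + 1)) x = a →
        ∃ ε ∈ corners d, cidx (2 ^ l) x = ch ε := by
      intro x hx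
      refine ⟨_, cidx_child l x, ?_⟩
      rw [hch, hx]
      simp
    have hchild2 : ∀ ε ∈ corners d, ∀ x : Fin d → ℤ, cidx (2 ^ l) x = ch ε →
        cidx (2 ^ (l + 1)) x = a := by
      intro ε hε x hx
      rw [corners, Fintype.mem_piFinset] at hε
      ext j
      have h1 := Finset.mem_Icc.1 (hε j)
      rw [cidx_succ, hx]
      simp only [hch, Pi.add_apply]
      omega
    set νs : (Fin d → ℤ) → ℝ≥0∞ := fun x => ∑ ε ∈ corners d, ν (ch ε) x with hνs
    have hνs1 : ∀ x, νs x ≠ 0 → x ∈ F ∧ cidx (2 ^ (l + 1)) x = a := by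
      intro x hx
      obtain ⟨ε, hε, hne⟩ := Finset.exists_ne_zero_of_sum_ne_zero hx
      obtain ⟨h1, h2⟩ := hν1 (ch ε) x hne
      exact ⟨h1, hchild2 ε hε x h2⟩
    have hinj : ∀ ε ε' : Fin d → ℤ, ch ε = ch ε' → ε = ε' := by
      intro ε ε' h
      exact add_left_cancel h
    have hνs2 : ∀ l' ≤ l, ∀ a', ∑ x ∈ cel (2 ^ l') a', νs x ≤ cp γ k l' := by
      intro l' hl' a'
      rw [hνs]
      simp only
      rw [Finset.sum_comm]
      -- only one child contributes
      by_cases hb : ∃ ε ∈ corners d, cidx (2 ^ (l - l')) a' = ch ε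
      · obtain ⟨ε, hε, hb⟩ := hb
        rw [Finset.sum_eq_single ε]
        · exact hν2 (ch ε) l' hl' a'
        · intro ε' _ hne
          refine Finset.sum_eq_zero fun x hx => ?_
          by_contra hx0
          have h1 := (hν1 (ch ε') x hx0).2
          rw [mem_cel_iff (by positivity)] at hx
          rw [cidx_pow hl', hx, hb] at h1
          exact hne (hinj _ _ h1).symm
        · intro h; exact absurd hε h
      · rw [Finset.sum_eq_zero]
        · exact zero_le
        · intro ε hε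
          refine Finset.sum_eq_zero fun x hx => ?_
          by_contra hx0
          have h1 := (hν1 (ch ε) x hx0).2
          rw [mem_cel_iff (by positivity)] at hx
          rw [cidx_pow hl', hx] at h1
          exact hb ⟨ε, hε, h1⟩
    set St : ℝ≥0∞ := ∑ x ∈ cel (2 ^ (l + 1)) a, νs x with hSt
    have hStv : ∑ ε ∈ corners d, ∑ x ∈ cel (2 ^ l) (ch ε), ν (ch ε) x ≤ St := by
      rw [hSt, hνs]
      simp only
      rw [Finset.sum_comm]
      refine Finset.sum_le_sum fun ε hε => Finset.sum_le_sum_of_subset ?_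
      intro x hx
      rw [mem_cel_iff (by positivity)] at hx ⊢
      exact hchild2 ε hε x hx
    have hStop : St ≠ ∞ := by
      rw [hSt]
      refine (ENNReal.sum_lt_top.2 fun x _ => ?_).ne
      refine ENNReal.sum_lt_top.2 fun ε _ => ?_
      have h1 := hν2 (ch ε) 0 (Nat.zero_le _) (cidx (2 ^ 0) x)
      refine lt_of_le_of_lt (le_trans ?_ h1) (cp_ne_top γ k 0).lt_top
      exact Finset.single_le_sum (f := fun x => ν (ch ε) x) (fun _ _ => zero_le)
        (mem_cel_cidx (by positivity) x)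
    have htot : ∀ a' : Fin d → ℤ, a' ≠ a → ∑ x ∈ cel (2 ^ (l + 1)) a', νs x = 0 := by
      intro a' hne
      refine Finset.sum_eq_zero fun x hx => ?_
      by_contra hx0
      have h1 := (hνs1 x hx0).2
      rw [mem_cel_iff (by positivity)] at hx
      exact hne (hx.symm.trans h1)
    rcases le_total St (cp γ k (l + 1)) with hle | hle
    · refine ⟨νs, hνs1, ?_, (corners d).biUnion fun ε => C (ch ε), ?_, ?_⟩
      · intro l' hl' a'
        rcases Nat.lt_or_ge l' (l + 1) with h | h
        · exact hνs2 l' (by omega) a'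
        · obtain rfl : l' = l + 1 := by omega
          rcases eq_or_ne a' a with rfl | hne
          · exact hle
          · rw [htot a' hne]; exact zero_le
      · intro x hx hxa
        obtain ⟨ε, hε, hxε⟩ := hchild x hxa
        obtain ⟨Q, hQ, hQx⟩ := hC1 (ch ε) x hx hxε
        exact ⟨Q, Finset.mem_biUnion.2 ⟨ε, hε, hQ⟩, hQx⟩
      · refine (cost_biUnion_le γ k _ _).trans (le_trans ?_ hStv)
        exact Finset.sum_le_sum fun ε _ => hC2 (ch ε)
    · rcases eq_or_ne St 0 with h0 | h0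
      · -- then the capacity is zero, impossible, but handle uniformly
        exfalso
        rw [h0] at hle
        have : 0 < cp γ k (l + 1) := ENNReal.ofReal_pos.2 (by positivity)
        exact absurd hle (not_le.2 this)
      set θ : ℝ≥0∞ := cp γ k (l + 1) / St with hθ
      have hθ1 : θ ≤ 1 := ENNReal.div_le_of_le_mul (by rw [one_mul]; exact hle)
      have hθS : θ * St = cp γ k (l + 1) := ENNReal.div_mul_cancel h0 hStop
      refine ⟨fun x => θ * νs x, ?_, ?_, {(l + 1, a)}, ?_, ?_⟩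
      · intro x hx
        exact hνs1 x (fun h => hx (by simp [h]))
      · intro l' hl' a'
        rw [← Finset.mul_sum]
        rcases Nat.lt_or_ge l' (l + 1) with h | h
        · calc θ * ∑ x ∈ cel (2 ^ l') a', νs x ≤ 1 * cp γ k l' := by
                gcongr
                exact hνs2 l' (by omega) a'
            _ = _ := one_mul _
        · obtain rfl : l' = l + 1 := by omega
          rcases eq_or_ne a' a with rfl | hne
          · exact hθS.le
          · rw [htot a' hne, mul_zero]; exact zero_le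
      · intro x _ hxa
        exact ⟨(l + 1, a), Finset.mem_singleton_self _, mem_dyCube_iff.2
          ((mem_cel_iff (by positivity)).2 hxa)⟩
      · rw [← Finset.mul_sum, hθS, cost_eq, Finset.sum_singleton]

/-- Frostman measure on a shell -/
lemma frostman {γ : ℝ} (hγ : 0 ≤ γ) (A : Set (Fin d → ℤ)) (k : ℕ) :
    ∃ ν : (Fin d → ℤ) → ℝ≥0∞, (∀ x, ν x ≠ 0 → x ∈ A ∩ shell d k) ∧
      (∀ l ≤ k, ∀ a, ∑ x ∈ cel (2 ^ l) a, ν x ≤ cp γ k l) ∧
      cover γ A k ≤ ∑' x, ν x ∧ ∑' x, ν x ≤ 2 ^ d := by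
  classical
  choose ν hν1 hν2 C hC1 hC2 using frost_tree hγ k (A ∩ shell d k) k
  set I : Finset (Fin d → ℤ) := Fintype.piFinset fun _ : Fin d => Finset.Icc (-1:ℤ) 0 with hI
  have hcardI : I.card = 2 ^ d := by simp [hI, Fintype.card_piFinset]
  have hidx : ∀ x ∈ boxV d k, cidx (2 ^ k) x ∈ I := by
    intro x hx
    rw [hI, Fintype.mem_piFinset]
    intro j
    obtain ⟨h1, h2⟩ := hx j
    simp only [cidx, Finset.mem_Icc]
    push_cast
    have hp : (0:ℤ) < 2 ^ k := by positivity
    constructor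
    · rw [Int.le_ediv_iff_mul_le hp]; linarith
    · have : x j / (2:ℤ) ^ k < 1 := by
        rw [Int.ediv_lt_iff_lt_mul hp]; linarith
      omega
  set νt : (Fin d → ℤ) → ℝ≥0∞ := fun x => ∑ a ∈ I, ν a x with hνt
  have hsup : ∀ a x, ν a x ≠ 0 → cidx (2 ^ k) x = a := fun a x hx => (hν1 a x hx).2
  have hone : ∀ l ≤ k, ∀ b, ∑ x ∈ cel (2 ^ l) b, νt x ≤ cp γ k l := by
    intro l hl b
    rw [hνt]
    simp only
    rw [Finset.sum_comm]
    by_cases hb : cidx (2 ^ (k - l)) b ∈ I
    · rw [Finset.sum_eq_single (cidx (2 ^ (k - l)) b)]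
      · exact hν2 _ l hl b
      · intro a _ hne
        refine Finset.sum_eq_zero fun x hx => ?_
        by_contra hx0
        have h1 := hsup a x hx0
        rw [mem_cel_iff (by positivity)] at hx
        rw [cidx_pow hl, hx] at h1
        exact hne h1.symm
      · intro h; exact absurd hb h
    · rw [Finset.sum_eq_zero]
      · exact zero_le
      · intro a ha
        refine Finset.sum_eq_zero fun x hx => ?_
        by_contra hx0
        have h1 := hsup a x hx0
        rw [mem_cel_iff (by positivity)] at hx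
        rw [cidx_pow hl, hx] at h1
        exact hb (h1 ▸ ha)
  have htot : ∑' x, νt x = ∑ a ∈ I, ∑ x ∈ cel (2 ^ k) a, ν a x := by
    rw [hνt]
    rw [Summable.tsum_finsetSum fun _ _ => ENNReal.summable]
    refine Finset.sum_congr rfl fun a _ => ?_
    refine tsum_eq_sum fun x hx => ?_
    by_contra hx0
    exact hx ((mem_cel_iff (by positivity)).2 (hsup a x hx0))
  refine ⟨νt, ?_, hone, ?_, ?_⟩
  · intro x hx
    obtain ⟨a, ha, hne⟩ := Finset.exists_ne_zero_of_sum_ne_zero hx
    exact (hν1 a x hne).1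
  · rw [htot]
    calc cover γ A k ≤ cost γ k (I.biUnion C) := by
          refine cover_le fun x hx => ?_
          obtain ⟨Q, hQ, hQx⟩ := hC1 (cidx (2 ^ k) x) x hx rfl
          exact ⟨Q, Finset.mem_biUnion.2 ⟨_, hidx x (shell_sub k hx.2), hQ⟩, hQx⟩
      _ ≤ ∑ a ∈ I, cost γ k (C a) := cost_biUnion_le γ k _ _
      _ ≤ _ := Finset.sum_le_sum fun a _ => hC2 a
  · rw [htot]
    calc _ ≤ ∑ _a ∈ I, (1:ℝ≥0∞) := by
          refine Finset.sum_le_sum fun a _ => (hν2 a k le_rfl a).trans ?_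
          rw [cp, ← ENNReal.ofReal_one]
          refine ENNReal.ofReal_le_ofReal (Real.rpow_le_one_of_one_le_of_nonpos (by norm_num) ?_)
          nlinarith
      _ = _ := by rw [Finset.sum_const, hcardI]; simp

end Pool.Agent.Helper95.ARW
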