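import Mathlib
import Pool.Agent.Helper95.ARWFrost

set_option autoImplicit false
set_option linter.unusedSectionVars false

open scoped ENNReal

namespace Pool.Agent.Helper95.ARW

variable {d : ℕ}

/-- a measure with regular dyadic masses -/
structure Frost (γ : ℝ) (k : ℕ) (ν : (Fin d → ℤ) → ℝ≥0∞) : Prop where
  cap : ∀ l ≤ k, ∀ a, ∑ x ∈ cel (2 ^ l) a, ν x ≤ cp γ k l
  tot : ∑' x, ν x ≤ 2 ^ d

/-- `{-1,0,1}^d` -/
noncomputable def nb (d : ℕ) : Finset (Fin d → ℤ) := Fintype.piFinset fun _ => Finset.Icc (-1:ℤ) 1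

lemma card_nb (d : ℕ) : (nb d).card = 3 ^ d := by simp [nb, Fintype.card_piFinset]

lemma cidx_sub_mem {R : ℕ} (hR : 0 < R) {x y : Fin d → ℤ} (h : nrm (x - y) < R) :
    cidx R x - cidx R y ∈ nb d := by
  rw [nb, Fintype.mem_piFinset]
  intro j
  have hr' : (0:ℤ) < R := by exact_mod_cast hR
  have h0 := natAbs_le_nrm (x - y) j
  have h9 : ((x - y) j).natAbs < R := lt_of_le_of_lt h0 h
  zify at h9
  rw [Pi.sub_apply, abs_lt] at h9
  simp only [cidx, Pi.sub_apply, Finset.mem_Icc]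
  have h1 := Int.ediv_mul_le (x j) hr'.ne'
  have h2 := Int.lt_ediv_add_one_mul_self (x j) hr'
  have h3 := Int.ediv_mul_le (y j) hr'.ne'
  have h4 := Int.lt_ediv_add_one_mul_self (y j) hr'
  constructor
  · by_contra hc
    push Not at hc
    have : x j / (R:ℤ) - y j / (R:ℤ) + 2 ≤ 0 := by omega
    nlinarith
  · by_contra hc
    push Not at hc
    have : 0 ≤ x j / (R:ℤ) - y j / (R:ℤ) - 2 := by omega
    nlinarith

lemma mass_lev {γ : ℝ} {k : ℕ} {ν : (Fin d → ℤ) → ℝ≥0∞} (h : Frost γ k ν) {j : ℕ}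
    (hj : j + 1 ≤ k) (y : Fin d → ℤ) :
    ∑' x, (if lev (x - y) = j then ν x else 0) ≤ 3 ^ d * cp γ k (j + 1) := by
  classical
  set R := 2 ^ (j + 1) with hR
  have hR0 : 0 < R := by positivity
  calc ∑' x, (if lev (x - y) = j then ν x else 0)
      ≤ ∑' x, ∑ ε ∈ nb d, (if x ∈ cel R (cidx R y + ε) then ν x else 0) := by
        refine ENNReal.tsum_le_tsum fun x => ?_
        split_ifs with hx
        · have h1 : nrm (x - y) < R := by
            have := lt_two_pow_lev (x - y)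
            rw [hx] at this
            omega
          have h2 := cidx_sub_mem hR0 h1
          refine le_trans (le_of_eq ?_) (Finset.single_le_sum (fun _ _ => zero_le) h2)
          rw [if_pos]
          rw [add_sub_cancel]
          exact mem_cel_cidx hR0 x
        · exact zero_le
    _ = ∑ ε ∈ nb d, ∑ x ∈ cel R (cidx R y + ε), ν x := by
        rw [Summable.tsum_finsetSum fun _ _ => ENNReal.summable]
        refine Finset.sum_congr rfl fun ε _ => ?_
        rw [tsum_eq_sum (s := cel R (cidx R y + ε)) (fun x hx => if_neg hx)]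
        exact Finset.sum_congr rfl fun x hx => if_pos hx
    _ ≤ ∑ _ε ∈ nb d, cp γ k (j + 1) := Finset.sum_le_sum fun ε _ => h.cap _ hj _
    _ = _ := by rw [Finset.sum_const, card_nb, nsmul_eq_mul]; push_cast; rfl

lemma inv_two_rpow (g : ℝ) : ((2:ℝ≥0∞) ^ g)⁻¹ = ENNReal.ofReal ((2:ℝ) ^ (-g)) := by
  rw [← ENNReal.ofReal_rpow_of_pos (by norm_num), ENNReal.rpow_neg]
  simp

lemma ofReal_two_pow (g : ℝ) (j : ℕ) :
    ENNReal.ofReal ((2:ℝ) ^ (-g)) ^ j = ENNReal.ofReal ((2:ℝ) ^ (-g * j)) := by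
  rw [← ENNReal.ofReal_pow (by positivity), ← Real.rpow_natCast, ← Real.rpow_mul (by norm_num)]

lemma near_identity (g γ : ℝ) (i j : ℕ) :
    (((2:ℝ≥0∞) ^ g)⁻¹) ^ j * cp γ (i + j + 1) (j + 1) =
      (((2:ℝ≥0∞) ^ g)⁻¹) ^ (i + j + 1) * (((2:ℝ≥0∞) ^ (γ - g))⁻¹) ^ (i + 1) := by
  rw [inv_two_rpow, inv_two_rpow, ofReal_two_pow, ofReal_two_pow, ofReal_two_pow,
    cp, ← ENNReal.ofReal_mul (by positivity), ← ENNReal.ofReal_mul (by positivity),
    ← Real.rpow_add (by norm_num), ← Real.rpow_add (by norm_num)]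
  congr 2
  push_cast; ring

/-- potential of a Frostman measure -/
lemma near_bound {g γ : ℝ} (hg : 0 < g) (hgγ : g < γ) :
    ∃ C : ℝ≥0∞, C ≠ ∞ ∧ ∀ (k : ℕ) (ν : (Fin d → ℤ) → ℝ≥0∞), Frost γ k ν → ∀ y,
      ∑' x, ν x * kk g (x - y) ≤ C * (((2:ℝ≥0∞) ^ g)⁻¹) ^ k := by
  have hni := near_identity g γ
  have hkl : ∀ x : Fin d → ℤ, kk g x ≤ (((2:ℝ≥0∞) ^ g)⁻¹) ^ lev x := kk_le_lev hg.le
  have hq1 : ((2:ℝ≥0∞) ^ g)⁻¹ < 1 := by
    rw [ENNReal.inv_lt_one]; exact ENNReal.one_lt_rpow (by norm_num) hg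
  have hr1 : ((2:ℝ≥0∞) ^ (γ - g))⁻¹ < 1 := by
    rw [ENNReal.inv_lt_one]; exact ENNReal.one_lt_rpow (by norm_num) (by linarith)
  generalize ((2:ℝ≥0∞) ^ g)⁻¹ = q at *
  generalize ((2:ℝ≥0∞) ^ (γ - g))⁻¹ = r at *
  refine ⟨3 ^ d * (1 - r)⁻¹ + 2 ^ d * (1 - q)⁻¹, ?_, fun k ν hν y => ?_⟩
  · refine ENNReal.add_ne_top.2 ⟨ENNReal.mul_ne_top (by simp) ?_, ENNReal.mul_ne_top (by simp) ?_⟩
    · exact ENNReal.inv_ne_top.2 (tsub_pos_of_lt hr1).ne'
    · exact ENNReal.inv_ne_top.2 (tsub_pos_of_lt hq1).ne'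
  set M : ℕ → ℝ≥0∞ := fun j => ∑' x, (if lev (x - y) = j then ν x else 0) with hM
  have hM2 : ∀ j, M j ≤ 2 ^ d := fun j => by
    refine le_trans (ENNReal.tsum_le_tsum fun x => ?_) hν.tot
    split_ifs
    · exact le_rfl
    · exact zero_le
  have h1 : ∑' x, ν x * kk g (x - y) ≤ ∑' j, q ^ j * M j := by
    calc ∑' x, ν x * kk g (x - y) ≤ ∑' x, ∑' j, (if lev (x - y) = j then q ^ j * ν x else 0) := by
          refine ENNReal.tsum_le_tsum fun x => ?_
          rw [tsum_eq_single (lev (x - y)) (fun j hj => if_neg hj.symm), if_pos rfl, mul_comm]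
          gcongr
          exact hkl _
      _ = ∑' j, ∑' x, (if lev (x - y) = j then q ^ j * ν x else 0) := ENNReal.tsum_comm
      _ = _ := by
          refine tsum_congr fun j => ?_
          rw [hM, ← ENNReal.tsum_mul_left]
          refine tsum_congr fun x => ?_
          split_ifs <;> simp
  refine h1.trans ?_
  rw [← Summable.sum_add_tsum_nat_add' (f := fun j => q ^ j * M j) (k := k) ENNReal.summable,
    add_mul]
  refine add_le_add ?_ ?_
  · rw [← Finset.sum_range_reflect]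
    calc ∑ i ∈ Finset.range k, q ^ (k - 1 - i) * M (k - 1 - i)
        ≤ ∑ i ∈ Finset.range k, 3 ^ d * q ^ k * r ^ i := by
          refine Finset.sum_le_sum fun i hi => ?_
          have hi' : i < k := Finset.mem_range.1 hi
          obtain ⟨j, hj⟩ : ∃ j, k = i + j + 1 := ⟨k - 1 - i, by omega⟩
          have hj2 : k - 1 - i = j := by omega
          rw [hj2]
          have h2 : M j ≤ 3 ^ d * cp γ k (j + 1) := mass_lev hν (by omega) y
          have h3 : q ^ j * cp γ k (j + 1) = q ^ k * r ^ (i + 1) := by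
            rw [hj]; exact hni i j
          have h4 : r ^ (i + 1) ≤ r ^ i := pow_le_pow_right_of_le_one' hr1.le (Nat.le_succ i)
          calc q ^ j * M j ≤ q ^ j * (3 ^ d * cp γ k (j + 1)) := mul_le_mul_right h2 _
            _ = 3 ^ d * (q ^ j * cp γ k (j + 1)) := by ring
            _ = 3 ^ d * q ^ k * r ^ (i + 1) := by rw [h3]; ring
            _ ≤ 3 ^ d * q ^ k * r ^ i := mul_le_mul_right h4 _
      _ = 3 ^ d * q ^ k * ∑ i ∈ Finset.range k, r ^ i := by rw [Finset.mul_sum]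
      _ ≤ 3 ^ d * q ^ k * (1 - r)⁻¹ := by
          gcongr
          rw [← ENNReal.tsum_geometric]
          exact ENNReal.sum_le_tsum _
      _ = _ := by ring
  · calc ∑' i, q ^ (i + k) * M (i + k) ≤ ∑' i, q ^ k * 2 ^ d * q ^ i := by
          refine ENNReal.tsum_le_tsum fun i => ?_
          rw [pow_add]
          calc q ^ i * q ^ k * M (i + k) ≤ q ^ i * q ^ k * 2 ^ d := by gcongr; exact hM2 _
            _ = _ := by ring
      _ = _ := by rw [ENNReal.tsum_mul_left, ENNReal.tsum_geometric]; ring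

end Pool.Agent.Helper95.ARW
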