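import Mathlib
import Pool.Agent.Helper95.ARWNear

set_option autoImplicit false
set_option linter.unusedSectionVars false

open scoped ENNReal

namespace Pool.Agent.Helper95.ARW

variable {d : ℕ}

/-- family of Frostman measures on the shells -/
structure FF (γ : ℝ) (A : Set (Fin d → ℤ)) (ν : ℕ → (Fin d → ℤ) → ℝ≥0∞) : Prop where
  sup : ∀ k x, ν k x ≠ 0 → x ∈ A ∩ shell d (k + 1)
  fr : ∀ k, Frost γ (k + 1) (ν k)
  ge : ∀ k, cover γ A (k + 1) ≤ ∑' x, ν k x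

lemma exists_FF {γ : ℝ} (hγ : 0 ≤ γ) (A : Set (Fin d → ℤ)) : ∃ ν, FF γ A ν := by
  choose ν h1 h2 h3 h4 using fun k => frostman hγ A (k + 1)
  exact ⟨ν, h1, fun k => ⟨h2 k, h4 k⟩, h3⟩

lemma nrm_le_of_boxV {k : ℕ} {x : Fin d → ℤ} (hx : x ∈ boxV d k) : nrm x ≤ 2 ^ k := by
  rw [nrm_le_iff]
  intro i
  obtain ⟨h1, h2⟩ := hx i
  zify
  rw [abs_le]
  exact ⟨h1, h2.le⟩

lemma nrm_le_of_shell {k : ℕ} {x : Fin d → ℤ} (hx : x ∈ shell d k) : nrm x ≤ 2 ^ k :=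
  nrm_le_of_boxV (shell_sub k hx)

/-- total measure -/
noncomputable def tot (ν : ℕ → (Fin d → ℤ) → ℝ≥0∞) (I : Finset ℕ) (x : Fin d → ℤ) : ℝ≥0∞ :=
  ∑ k ∈ I, ν k x

lemma kk_mul_inv {g : ℝ} (hg : 0 ≤ g) (x : Fin d → ℤ) : (kk g x)⁻¹ * kk g x = 1 :=
  ENNReal.inv_mul_cancel (kk_pos hg x).ne' (kk_ne_top hg x)

lemma qk_le {g : ℝ} (hg : 0 ≤ g) {k : ℕ} {y : Fin d → ℤ} (h : nrm y ≤ 2 ^ (k + 1)) :
    (((2:ℝ≥0∞) ^ g)⁻¹) ^ k ≤ 4 ^ g * kk g y := by
  have h0 : (0:ℝ) < ((1 + nrm y : ℕ) : ℝ) := by positivity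
  have h4 : (4:ℝ≥0∞) ^ g = ENNReal.ofReal ((4:ℝ) ^ g) := by
    rw [← ENNReal.ofReal_rpow_of_pos (by norm_num)]; simp
  rw [inv_two_rpow, ofReal_two_pow, kk_eq_ofReal, h4, ← ENNReal.ofReal_mul (by positivity)]
  refine ENNReal.ofReal_le_ofReal ?_
  have h1 : ((1 + nrm y : ℕ) : ℝ) ≤ 4 * 2 ^ k := by
    have h2 : 1 + nrm y ≤ 4 * 2 ^ k := by
      have h3 : (2:ℕ) ^ (k + 1) = 2 * 2 ^ k := by ring
      have h5 : 0 < (2:ℕ) ^ k := by positivity
      rw [h3] at h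
      omega
    exact_mod_cast h2
  calc (2:ℝ) ^ (-g * k) = 4 ^ g * (4 * 2 ^ k) ^ (-g) := by
        rw [Real.mul_rpow (by norm_num) (by positivity), ← mul_assoc, ← Real.rpow_add (by norm_num),
          add_neg_cancel, Real.rpow_zero, one_mul, ← Real.rpow_natCast 2 k,
          ← Real.rpow_mul (by norm_num)]
        congr 1; ring
    _ ≤ _ := by
        gcongr ?_ * ?_
        exact Real.rpow_le_rpow_of_nonpos h0 h1 (by linarith)

lemma near_idx {j k : ℕ} {x y : Fin d → ℤ} (hx : x ∈ shell d (j + 1)) (hy : y ∈ shell d (k + 1))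
    (h : 4 * (1 + nrm (x - y)) < 1 + nrm y) : j ∈ Finset.Icc (k - 1) (k + 1) := by
  have hx1 := two_pow_le_of_shell hx
  have hx2 := nrm_le_of_shell hx
  have hy1 := two_pow_le_of_shell hy
  have hy2 := nrm_le_of_shell hy
  have h1 := nrm_le_add_sub x y
  have h2 := nrm_le_add_sub y x
  rw [nrm_sub_comm y x] at h2
  rw [Finset.mem_Icc]
  have e1 : (2:ℕ) ^ (j + 1) = 2 * 2 ^ j := by ring
  have e2 : (2:ℕ) ^ (k + 1) = 2 * 2 ^ k := by ring
  constructor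
  · by_contra hc
    push Not at hc
    have h3 : (2:ℕ) ^ (j + 2) ≤ 2 ^ k := Nat.pow_le_pow_right (by norm_num) (by omega)
    have e3 : (2:ℕ) ^ (j + 2) = 4 * 2 ^ j := by ring
    omega
  · by_contra hc
    push Not at hc
    have h3 : (2:ℕ) ^ (k + 2) ≤ 2 ^ j := Nat.pow_le_pow_right (by norm_num) (by omega)
    have e3 : (2:ℕ) ^ (k + 2) = 4 * 2 ^ k := by ring
    omega

lemma energy_point {g γ : ℝ} (hg : 0 < g) (hgγ : g < γ) :
    ∃ C : ℝ≥0∞, C ≠ ∞ ∧ ∀ (A : Set (Fin d → ℤ)) (ν : ℕ → (Fin d → ℤ) → ℝ≥0∞), FF γ A ν →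
      ∀ (I : Finset ℕ) (y : Fin d → ℤ), tot ν I y ≠ 0 →
      (kk g y)⁻¹ * ∑' x, tot ν I x * kk g (x - y) ≤ C * (1 + ∑' x, tot ν I x) := by
  obtain ⟨C, hC, hc⟩ := near_bound (d := d) hg hgγ
  have h4t : (4:ℝ≥0∞) ^ g ≠ ∞ := ENNReal.rpow_ne_top_of_nonneg hg.le (by norm_num)
  refine ⟨4 ^ g + 3 * C * 4 ^ g, ENNReal.add_ne_top.2 ⟨h4t, ENNReal.mul_ne_top
    (ENNReal.mul_ne_top (by norm_num) hC) h4t⟩, fun A ν h I y hy => ?_⟩
  obtain ⟨k, hk, hky⟩ := Finset.exists_ne_zero_of_sum_ne_zero hy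
  have hys := (h.sup k y hky).2
  have hq1 : ((2:ℝ≥0∞) ^ g)⁻¹ ≤ 1 := by
    rw [ENNReal.inv_le_one]; exact ENNReal.one_le_rpow (by norm_num) hg
  have hqk := qk_le hg.le (nrm_le_of_shell hys)
  generalize ((2:ℝ≥0∞) ^ g)⁻¹ = q at *
  have hpt : ∀ x, tot ν I x * kk g (x - y) ≤
      4 ^ g * kk g y * tot ν I x + ∑ j ∈ Finset.Icc (k - 1) (k + 1), ν j x * kk g (x - y) := by
    intro x
    rcases Nat.lt_or_ge (4 * (1 + nrm (x - y))) (1 + nrm y) with hn | hf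
    · refine le_trans ?_ le_add_self
      rw [← Finset.sum_mul]
      gcongr
      refine Finset.sum_le_sum_of_ne_zero fun j _ hj => ?_
      exact near_idx (h.sup j x hj).2 hys hn
    · refine le_trans ?_ le_self_add
      have h1 := kk_le_of_le hg.le (x := y) (y := x - y) (C := 4) hf
      rw [mul_comm (tot ν I x)]
      gcongr
      exact_mod_cast h1
  have hsum : ∑' x, tot ν I x * kk g (x - y) ≤
      4 ^ g * kk g y * ∑' x, tot ν I x + 3 * (C * q ^ k) := by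
    refine (ENNReal.tsum_le_tsum hpt).trans ?_
    rw [ENNReal.tsum_add, ENNReal.tsum_mul_left]
    gcongr
    rw [Summable.tsum_finsetSum fun _ _ => ENNReal.summable]
    calc ∑ j ∈ Finset.Icc (k - 1) (k + 1), ∑' x, ν j x * kk g (x - y)
        ≤ ∑ _j ∈ Finset.Icc (k - 1) (k + 1), C * q ^ k := by
          refine Finset.sum_le_sum fun j hj => (hc (j + 1) (ν j) (h.fr j) y).trans ?_
          have hj' := Finset.mem_Icc.1 hj
          refine mul_le_mul_right ?_ _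
          exact pow_le_pow_right_of_le_one' hq1 (by omega)
      _ ≤ 3 * (C * q ^ k) := by
          rw [Finset.sum_const, nsmul_eq_mul]
          gcongr
          rw [Nat.card_Icc]
          exact_mod_cast (by omega : k + 1 + 1 - (k - 1) ≤ 3)
  calc (kk g y)⁻¹ * ∑' x, tot ν I x * kk g (x - y)
      ≤ (kk g y)⁻¹ * (4 ^ g * kk g y * ∑' x, tot ν I x + 3 * (C * (4 ^ g * kk g y))) := by
        gcongr
        refine hsum.trans ?_
        gcongr
    _ = ((kk g y)⁻¹ * kk g y) * (4 ^ g * ∑' x, tot ν I x + 3 * C * 4 ^ g) := by ring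
    _ = 4 ^ g * ∑' x, tot ν I x + 3 * C * 4 ^ g := by rw [kk_mul_inv hg.le, one_mul]
    _ ≤ _ := by
        generalize ∑' x, tot ν I x = S
        have : (4 ^ g + 3 * C * 4 ^ g) * (1 + S) =
            (4 ^ g * S + 3 * C * 4 ^ g) + (4 ^ g + 3 * C * 4 ^ g * S) := by ring
        rw [this]
        exact le_self_add

end Pool.Agent.Helper95.ARW
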