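import Mathlib
import Pool.Agent.Helper95.ARWConv

set_option autoImplicit false

open scoped ENNReal

namespace Pool.Agent.Helper95.ARW

variable {d : ℕ}

lemma kk_eq_base (s : ℝ) (x : Fin d → ℤ) : kk s x = ((((1 + nrm x : ℕ)) : ℝ≥0∞)⁻¹) ^ s := rfl

lemma base_ne_zero (n : ℕ) : (((1 + n : ℕ) : ℝ≥0∞)⁻¹) ≠ 0 :=
  ENNReal.inv_ne_zero.2 (ENNReal.natCast_ne_top _)

lemma base_ne_top (n : ℕ) : (((1 + n : ℕ) : ℝ≥0∞)⁻¹) ≠ ∞ :=
  ENNReal.inv_ne_top.2 (by exact_mod_cast (by omega : 1 + n ≠ 0))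

lemma three_case {s t : ℝ} (hs : s < d)
    (hst : (d:ℝ) < s + t) {x y : Fin d → ℤ} (hxy : nrm x ≤ nrm y) {C : ℝ≥0∞}
    (hC : ∀ ρ : ℕ, ∑' w : Fin d → ℤ, (if nrm w ≤ ρ then kk (s + t - d) w else 0) ≤
        C * ((1 + ρ : ℕ) : ℝ≥0∞) ^ ((d:ℝ) - (s + t - d))) :
    kk s x * kk t y * ∑' w : Fin d → ℤ, (if nrm w ≤ nrm x then kk (s + t - d) w else 0) ≤
      C * (2 ^ (s + t - d) * (kk (s + t - d) x * kk (s + t - d) (x - y))) := by
  set u := s + t - d with hu
  have hu0 : 0 ≤ u := by linarith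
  have h1 : kk u y ≤ 2 ^ u * kk u (x - y) := by
    refine kk_le_of_le (C := 2) hu0 ?_
    have := nrm_add_le x (-y)
    rw [nrm_neg, ← sub_eq_add_neg] at this
    omega
  have h2 : kk s x * kk t y * ((1 + nrm x : ℕ) : ℝ≥0∞) ^ ((d:ℝ) - u) ≤ kk u x * kk u y := by
    have e1 : kk s x * kk t y * ((1 + nrm x : ℕ) : ℝ≥0∞) ^ ((d:ℝ) - u) =
        kk (s - (d - u)) x * kk t y := by
      rw [← kk_mul_rpow]; ring
    rw [e1]
    have e2 : kk t y = kk u y * kk (d - s) y := by rw [← kk_add]; congr 1; rw [hu]; ring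
    have e3 : kk u x = kk (s - (d - u)) x * kk (d - s) x := by rw [← kk_add]; congr 1; ring
    rw [e2, e3]
    have h3 : kk (d - s) y ≤ kk (d - s) x := kk_anti (by linarith) hxy
    calc kk (s - (d - u)) x * (kk u y * kk (d - s) y)
        ≤ kk (s - (d - u)) x * (kk u y * kk (d - s) x) := by gcongr
      _ = _ := by ring
  calc kk s x * kk t y * ∑' w : Fin d → ℤ, (if nrm w ≤ nrm x then kk u w else 0)
      ≤ kk s x * kk t y * (C * ((1 + nrm x : ℕ) : ℝ≥0∞) ^ ((d:ℝ) - u)) := by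
        gcongr; exact hC _
    _ = C * (kk s x * kk t y * ((1 + nrm x : ℕ) : ℝ≥0∞) ^ ((d:ℝ) - u)) := by ring
    _ ≤ C * (kk u x * kk u y) := by gcongr
    _ ≤ C * (kk u x * (2 ^ u * kk u (x - y))) := by gcongr
    _ = _ := by ring

/-- the three-term sum -/
lemma three_term {s t : ℝ} (hs0 : 0 ≤ s) (hs : s < d) (ht0 : 0 ≤ t) (ht : t < d)
    (hst : (d:ℝ) < s + t) :
    ∃ C : ℝ≥0∞, C ≠ ∞ ∧ ∀ x y : Fin d → ℤ,
      ∑' w : Fin d → ℤ, kk s (x - w) * kk t (y - w) * kk (s + t - d) w ≤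
        C * ((kk (s + t - d) x + kk (s + t - d) y) * kk (s + t - d) (x - y)) := by
  obtain ⟨C1, hC1, hc1⟩ := conv_le hs0 hs ht0 ht hst
  have hu0 : 0 ≤ s + t - (d:ℝ) := by linarith
  obtain ⟨C2, hC2, hc2⟩ := sum_ball_le (d := d) hu0 (by linarith)
  set u := s + t - (d:ℝ) with hu
  have p2 : ∀ v : ℝ, 0 ≤ v → (2:ℝ≥0∞) ^ v ≠ ∞ := fun v hv =>
    ENNReal.rpow_ne_top_of_nonneg hv (by norm_num)
  have hconv : ∀ x y : Fin d → ℤ, ∑' w : Fin d → ℤ, kk s (x - w) * kk t (y - w) ≤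
      C1 * kk u (x - y) := by
    intro x y
    have e1 : ∑' w : Fin d → ℤ, kk s (x - w) * kk t (y - w) =
        ∑' v : Fin d → ℤ, kk s (x - y - v) * kk t v := by
      rw [← (Equiv.subRight y).tsum_eq (fun v : Fin d → ℤ => kk s (x - y - v) * kk t v)]
      refine tsum_congr fun w => ?_
      simp only [Equiv.subRight_apply]
      rw [kk_sub_comm t y w]
      congr 2
      abel
    rw [e1]
    exact hc1 _
  refine ⟨2 ^ u * C1 + 2 ^ u * C1 + 2 ^ s * 2 ^ t * (C2 * 2 ^ u) + 2 ^ s * 2 ^ t * (C2 * 2 ^ u),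
    ?_, fun x y => ?_⟩
  · have h1 := ENNReal.mul_ne_top (p2 u hu0) hC1
    have h2 := ENNReal.mul_ne_top (ENNReal.mul_ne_top (p2 s hs0) (p2 t ht0))
      (ENNReal.mul_ne_top hC2 (p2 u hu0))
    exact ENNReal.add_ne_top.2 ⟨ENNReal.add_ne_top.2 ⟨ENNReal.add_ne_top.2 ⟨h1, h1⟩, h2⟩, h2⟩
  have hpt : ∀ w : Fin d → ℤ, kk s (x - w) * kk t (y - w) * kk u w ≤
      2 ^ u * kk u x * (kk s (x - w) * kk t (y - w)) +
      2 ^ u * kk u y * (kk s (x - w) * kk t (y - w)) +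
      2 ^ s * 2 ^ t * (kk s x * kk t y * (if nrm w ≤ min (nrm x) (nrm y) then kk u w else 0)) := by
    intro w
    by_cases h1 : nrm x ≤ 2 * nrm w
    · refine le_trans ?_ (le_self_add.trans le_self_add)
      have : kk u w ≤ 2 ^ u * kk u x := kk_le_of_le (C := 2) hu0 (by omega)
      calc _ ≤ kk s (x - w) * kk t (y - w) * (2 ^ u * kk u x) := by gcongr
        _ = _ := by ring
    by_cases h2 : nrm y ≤ 2 * nrm w
    · refine le_trans ?_ (le_trans (b := 2 ^ u * kk u x * (kk s (x - w) * kk t (y - w)) +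
        2 ^ u * kk u y * (kk s (x - w) * kk t (y - w))) le_add_self le_self_add)
      have : kk u w ≤ 2 ^ u * kk u y := kk_le_of_le (C := 2) hu0 (by omega)
      calc _ ≤ kk s (x - w) * kk t (y - w) * (2 ^ u * kk u y) := by gcongr
        _ = _ := by ring
    · refine le_trans ?_ le_add_self
      rw [if_pos (by omega)]
      have h3 := nrm_le_add_sub x w
      have h4 := nrm_le_add_sub y w
      have h5 : kk s (x - w) ≤ 2 ^ s * kk s x := kk_le_of_le (C := 2) hs0 (by omega)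
      have h6 : kk t (y - w) ≤ 2 ^ t * kk t y := kk_le_of_le (C := 2) ht0 (by omega)
      calc _ ≤ (2 ^ s * kk s x) * (2 ^ t * kk t y) * kk u w := by gcongr
        _ = _ := by ring
  refine (ENNReal.tsum_le_tsum hpt).trans ?_
  rw [ENNReal.tsum_add, ENNReal.tsum_add, ENNReal.tsum_mul_left, ENNReal.tsum_mul_left,
    ENNReal.tsum_mul_left, ENNReal.tsum_mul_left]
  have h7 : kk s x * kk t y * ∑' w : Fin d → ℤ, (if nrm w ≤ min (nrm x) (nrm y) then kk u w else 0) ≤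
      C2 * 2 ^ u * ((kk u x + kk u y) * kk u (x - y)) := by
    rcases le_total (nrm x) (nrm y) with h | h
    · rw [min_eq_left h]
      refine (three_case hs hst h hc2).trans ?_
      calc C2 * (2 ^ u * (kk u x * kk u (x - y))) = C2 * 2 ^ u * (kk u x * kk u (x - y)) := by ring
        _ ≤ _ := by gcongr; exact le_self_add
    · rw [min_eq_right h]
      have h8 := three_case (d := d) ht (by linarith : (d:ℝ) < t + s) h (C := C2) (by
        rw [show t + s - (d:ℝ) = u by rw [hu]; ring]; exact hc2)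
      rw [show t + s - (d:ℝ) = u by rw [hu]; ring] at h8
      rw [mul_comm (kk s x) (kk t y)]
      refine h8.trans ?_
      rw [kk_sub_comm u y x]
      calc C2 * (2 ^ u * (kk u y * kk u (x - y))) = C2 * 2 ^ u * (kk u y * kk u (x - y)) := by ring
        _ ≤ _ := by gcongr; exact le_add_self
  calc _ ≤ 2 ^ u * kk u x * (C1 * kk u (x - y)) + 2 ^ u * kk u y * (C1 * kk u (x - y)) +
        2 ^ s * 2 ^ t * (C2 * 2 ^ u * ((kk u x + kk u y) * kk u (x - y))) := by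
        gcongr
        · exact hconv x y
        · exact hconv x y
    _ ≤ _ := by
        set X := kk u x
        set Y := kk u y
        set D := kk u (x - y)
        have e : (2 ^ u * C1 + 2 ^ u * C1 + 2 ^ s * 2 ^ t * (C2 * 2 ^ u) +
          2 ^ s * 2 ^ t * (C2 * 2 ^ u)) * ((X + Y) * D) =
          (2 ^ u * X * (C1 * D) + 2 ^ u * Y * (C1 * D) +
            2 ^ s * 2 ^ t * (C2 * 2 ^ u * ((X + Y) * D))) +
          (2 ^ u * C1 * ((X + Y) * D) + 2 ^ s * 2 ^ t * (C2 * 2 ^ u) * ((X + Y) * D)) := by ring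
        rw [e]
        exact le_self_add

end Pool.Agent.Helper95.ARW
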