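import Mathlib
import Pool.Agent.Helper95.ARWThree
import Pool.Agent.Helper95.ARWMulti

set_option autoImplicit false
set_option linter.unusedSectionVars false

open MeasureTheory ProbabilityTheory
open scoped ENNReal

namespace Pool.Agent.Helper95.ARW

lemma tsum_ge_shift (f : ℕ → ℝ≥0∞) (m : ℕ) :
    ∑' n, (if m ≤ n then f n else 0) = ∑' k, f (m + k) := by
  have h := (Function.Injective.tsum_eq (f := fun j => if m ≤ j then f j else 0)
    (g := fun i => m + i) (fun a b hab => by simpa using hab) ?_)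
  · rw [← h]
    refine tsum_congr fun i => ?_
    rw [if_pos (by omega)]
  · intro j hj
    have : m ≤ j := by
      by_contra hc
      exact hj (by simp [hc])
    exact ⟨j - m, by simp; omega⟩

lemma tsum_pair_le (f : ℕ → ℕ → ℝ≥0∞) :
    ∑' m, ∑' n, f m n ≤ (∑' m, ∑' k, f m (m + k)) + ∑' n, ∑' k, f (n + k) n := by
  have h1 : ∀ m n, f m n ≤ (if m ≤ n then f m n else 0) + (if n ≤ m then f m n else 0) := by
    intro m n
    rcases le_total m n with h | h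
    · rw [if_pos h]; exact le_self_add
    · refine le_trans (le_of_eq ?_) le_add_self
      rw [if_pos h]
  calc ∑' m, ∑' n, f m n ≤ ∑' m, ∑' n, ((if m ≤ n then f m n else 0) + (if n ≤ m then f m n else 0)) :=
        ENNReal.tsum_le_tsum fun m => ENNReal.tsum_le_tsum fun n => h1 m n
    _ = (∑' m, ∑' n, (if m ≤ n then f m n else 0)) + ∑' m, ∑' n, (if n ≤ m then f m n else 0) := by
        rw [← ENNReal.tsum_add]
        exact tsum_congr fun m => ENNReal.tsum_add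
    _ = _ := by
        congr 1
        · exact tsum_congr fun m => tsum_ge_shift (f m) m
        · rw [ENNReal.tsum_comm]
          exact tsum_congr fun n => tsum_ge_shift (fun m => f m n) n

variable {Ω : Type*} {mΩ : MeasurableSpace Ω} {P : Measure Ω} [IsProbabilityMeasure P]
  {d : ℕ} {μ : Measure (Fin d → ℤ)} {α : ℝ}

section
variable {ι : Type*} {ξ : ι → Ω → (Fin d → ℤ)}

lemma Fam.two_point (h : Fam P μ ξ) {e : ℕ → ι} (he : Function.Injective e) (m k : ℕ)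
    (u v : Fin d → ℤ) :
    P {ω | wlk ξ e m ω = u ∧ wlk ξ e (m + k) ω = v} = pn μ m u * pn μ k (v - u) := by
  have hinj : Function.Injective fun j => e (m + j) := fun a b hab => by
    have := he hab; omega
  have e1 : {ω | wlk ξ e m ω = u ∧ wlk ξ e (m + k) ω = v} =
      {ω | wlk ξ e m ω = u} ∩ {ω | wlk ξ (fun j => e (m + j)) k ω = v - u} := by
    ext ω
    simp only [Set.mem_ofPred_eq, Set.mem_inter_iff]
    constructor
    · rintro ⟨h1, h2⟩
      refine ⟨h1, ?_⟩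
      rw [wlk_add, h1] at h2
      rw [← h2]; abel
    · rintro ⟨h1, h2⟩
      refine ⟨h1, ?_⟩
      rw [wlk_add, h1, h2]; abel
  rw [e1, ← h.prob_wlk he m u, ← h.prob_wlk hinj k (v - u)]
  have hS : ∀ k < m, e k ∈ e '' {j | j < m} := fun k hk => ⟨k, hk, rfl⟩
  have hT : ∀ i < k, e (m + i) ∈ e '' {j | m ≤ j} := fun i _ => ⟨m + i, by simp, rfl⟩
  refine h.indep_inter (S := e '' {j | j < m}) (T := e '' {j | m ≤ j}) ?_
    (meas_wlk_sig hS (measurableSet_singleton u))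
    (meas_wlk_sig (e := fun j => e (m + j)) hT (measurableSet_singleton (v - u)))
  rw [Set.disjoint_left]
  rintro _ ⟨i, hi, rfl⟩ ⟨j, hj, hij⟩
  have := he hij
  simp only [Set.mem_ofPred_eq] at hi hj
  omega

/-- two-point sum for one walk -/
lemma Fam.K_one (h : Fam P μ ξ) {e : ℕ → ι} (he : Function.Injective e) (u v : Fin d → ℤ) :
    ∑' r : ℕ × ℕ, P {ω | wlk ξ e r.1 ω = u ∧ wlk ξ e r.2 ω = v} ≤
      green μ u * green μ (v - u) + green μ v * green μ (u - v) := by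
  rw [ENNReal.tsum_prod']
  refine (tsum_pair_le _).trans (le_of_eq ?_)
  congr 1
  · simp_rw [h.two_point he, ENNReal.tsum_mul_left, ENNReal.tsum_mul_right]
    rfl
  · have e1 : ∀ n k, P {ω | wlk ξ e (n + k) ω = u ∧ wlk ξ e n ω = v} = pn μ n v * pn μ k (u - v) := by
      intro n k
      rw [← h.two_point he n k v u]
      congr 1
      ext ω
      exact and_comm
    simp_rw [e1, ENNReal.tsum_mul_left, ENNReal.tsum_mul_right]
    rfl

end

variable {N : ℕ}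

/-- two-point function of the additive walk -/
noncomputable def KK (P : Measure Ω) (ξ : Fin N → ℕ → Ω → (Fin d → ℤ)) (x y : Fin d → ℤ) : ℝ≥0∞ :=
  ∑' q : (Fin N → ℕ) × (Fin N → ℕ), P {ω | addWalk ξ q.1 ω = x ∧ addWalk ξ q.2 ω = y}

/-- Green function of the additive walk -/
noncomputable def GG (P : Measure Ω) (ξ : Fin N → ℕ → Ω → (Fin d → ℤ)) (x : Fin d → ℤ) : ℝ≥0∞ :=
  ∑' q : Fin N → ℕ, P {ω | addWalk ξ q ω = x}

/-- dropping the first walk -/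
def tl (ξ : Fin (N + 1) → ℕ → Ω → (Fin d → ℤ)) : Fin N → ℕ → Ω → (Fin d → ℤ) := fun i => ξ i.succ

lemma IsSteps.tl {ξ : Fin (N + 1) → ℕ → Ω → (Fin d → ℤ)} (h : IsSteps P μ ξ) :
    IsSteps P μ (tl ξ) := by
  refine ⟨fun i k => h.meas _ _, ?_, fun i k => h.law _ _⟩
  have hinj : Function.Injective (fun p : Fin N × ℕ => ((p.1.succ, p.2) : Fin (N + 1) × ℕ)) := by
    rintro ⟨i, k⟩ ⟨j, l⟩ h
    simpa using h
  exact h.indep.precomp hinj

lemma addWalk_cons (ξ : Fin (N + 1) → ℕ → Ω → (Fin d → ℤ)) (a : ℕ) (f : Fin N → ℕ) (ω : Ω) :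
    addWalk ξ (Fin.cons a f) ω = wlk (unc ξ) (ee 0) a ω + addWalk (tl ξ) f ω := by
  rw [addWalk, Fin.sum_univ_succ]
  rfl

lemma meas_addWalk_tl_sig (ξ : Fin (N + 1) → ℕ → Ω → (Fin d → ℤ)) (f : Fin N → ℕ) :
    Measurable[sig (unc ξ) {p | p.1 ≠ 0}] (addWalk (tl ξ) f) := by
  refine Finset.measurable_sum _ fun i _ => Finset.measurable_sum _ fun k _ => ?_
  exact meas_sig (ξ := unc ξ) (i := (i.succ, k)) (Fin.succ_ne_zero i)

lemma meas_first_sig (ξ : Fin (N + 1) → ℕ → Ω → (Fin d → ℤ)) (a : ℕ) :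
    Measurable[sig (unc ξ) {p | p.1 = 0}] (wlk (unc ξ) (ee 0) a) :=
  meas_wlk_sig fun _ _ => rfl

lemma disj_zero : Disjoint {p : Fin (N + 1) × ℕ | p.1 = 0} {p | p.1 ≠ 0} := by
  rw [Set.disjoint_left]
  intro p h1 h2
  exact h2 h1

lemma KK_point {ξ : Fin (N + 1) → ℕ → Ω → (Fin d → ℤ)} (h : IsSteps P μ ξ) (a b : ℕ)
    (f g : Fin N → ℕ) (x y : Fin d → ℤ) :
    P {ω | addWalk ξ (Fin.cons a f) ω = x ∧ addWalk ξ (Fin.cons b g) ω = y} =
      ∑' p : (Fin d → ℤ) × (Fin d → ℤ),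
        P {ω | wlk (unc ξ) (ee 0) a ω = p.1 ∧ wlk (unc ξ) (ee 0) b ω = p.2} *
        P {ω | addWalk (tl ξ) f ω = x - p.1 ∧ addWalk (tl ξ) g ω = y - p.2} := by
  have hm1 : ∀ a p, MeasurableSet[sig (unc ξ) {p | p.1 = 0}] {ω | wlk (unc ξ) (ee 0) a ω = p} :=
    fun a p => meas_first_sig ξ a (measurableSet_singleton p)
  have hm2 : ∀ f p, MeasurableSet[sig (unc ξ) {p | p.1 ≠ 0}] {ω | addWalk (tl ξ) f ω = p} :=
    fun f p => meas_addWalk_tl_sig ξ f (measurableSet_singleton p)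
  have e1 : {ω | addWalk ξ (Fin.cons a f) ω = x ∧ addWalk ξ (Fin.cons b g) ω = y} =
      ⋃ p : (Fin d → ℤ) × (Fin d → ℤ),
        ({ω | wlk (unc ξ) (ee 0) a ω = p.1 ∧ wlk (unc ξ) (ee 0) b ω = p.2} ∩
        {ω | addWalk (tl ξ) f ω = x - p.1 ∧ addWalk (tl ξ) g ω = y - p.2}) := by
    ext ω
    simp only [Set.mem_ofPred_eq, Set.mem_iUnion, Set.mem_inter_iff, Prod.exists]
    rw [addWalk_cons, addWalk_cons]
    constructor
    · rintro ⟨h1, h2⟩
      refine ⟨_, _, ⟨rfl, rfl⟩, ?_, ?_⟩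
      · rw [← h1]; abel
      · rw [← h2]; abel
    · rintro ⟨u, v, ⟨h1, h2⟩, h3, h4⟩
      rw [h1, h2, h3, h4]
      constructor <;> abel
  rw [e1, measure_iUnion]
  · refine tsum_congr fun p => ?_
    exact h.fam.indep_inter disj_zero ((hm1 a p.1).inter (hm1 b p.2))
      ((hm2 f _).inter (hm2 g _))
  · rintro ⟨u, v⟩ ⟨u', v'⟩ hne
    rw [Function.onFun, Set.disjoint_left]
    rintro ω ⟨⟨h1, h2⟩, _⟩ ⟨⟨h3, h4⟩, _⟩
    exact hne (Prod.ext (h1.symm.trans h3) (h2.symm.trans h4))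
  · intro p
    refine MeasurableSet.inter ?_ ?_
    · exact h.fam.sig_le _ _ ((hm1 a p.1).inter (hm1 b p.2))
    · exact h.fam.sig_le _ _ ((hm2 f _).inter (hm2 g _))

/-- splitting of index pairs -/
def pairEquiv (N : ℕ) : (ℕ × ℕ) × ((Fin N → ℕ) × (Fin N → ℕ)) ≃
    (Fin (N + 1) → ℕ) × (Fin (N + 1) → ℕ) :=
  (Equiv.prodProdProdComm ℕ ℕ (Fin N → ℕ) (Fin N → ℕ)).trans
    (Equiv.prodCongr (Fin.consEquiv fun _ => ℕ) (Fin.consEquiv fun _ => ℕ))

lemma KK_succ {ξ : Fin (N + 1) → ℕ → Ω → (Fin d → ℤ)} (h : IsSteps P μ ξ) (x y : Fin d → ℤ) :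
    KK P ξ x y = ∑' p : (Fin d → ℤ) × (Fin d → ℤ),
      (∑' r : ℕ × ℕ, P {ω | wlk (unc ξ) (ee 0) r.1 ω = p.1 ∧ wlk (unc ξ) (ee 0) r.2 ω = p.2}) *
      KK P (tl ξ) (x - p.1) (y - p.2) := by
  rw [KK, ← (pairEquiv N).tsum_eq, ENNReal.tsum_prod']
  have e1 : ∀ (r : ℕ × ℕ) (q : (Fin N → ℕ) × (Fin N → ℕ)),
      P {ω | addWalk ξ ((pairEquiv N) (r, q)).1 ω = x ∧ addWalk ξ ((pairEquiv N) (r, q)).2 ω = y} =
      ∑' p : (Fin d → ℤ) × (Fin d → ℤ),
        P {ω | wlk (unc ξ) (ee 0) r.1 ω = p.1 ∧ wlk (unc ξ) (ee 0) r.2 ω = p.2} *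
        P {ω | addWalk (tl ξ) q.1 ω = x - p.1 ∧ addWalk (tl ξ) q.2 ω = y - p.2} :=
    fun r q => KK_point h r.1 r.2 q.1 q.2 x y
  simp_rw [e1]
  calc _ = ∑' (r : ℕ × ℕ) (p : (Fin d → ℤ) × (Fin d → ℤ)) (q : (Fin N → ℕ) × (Fin N → ℕ)),
        P {ω | wlk (unc ξ) (ee 0) r.1 ω = p.1 ∧ wlk (unc ξ) (ee 0) r.2 ω = p.2} *
        P {ω | addWalk (tl ξ) q.1 ω = x - p.1 ∧ addWalk (tl ξ) q.2 ω = y - p.2} :=
        tsum_congr fun r => ENNReal.tsum_comm
    _ = ∑' (r : ℕ × ℕ) (p : (Fin d → ℤ) × (Fin d → ℤ)),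
        P {ω | wlk (unc ξ) (ee 0) r.1 ω = p.1 ∧ wlk (unc ξ) (ee 0) r.2 ω = p.2} *
        KK P (tl ξ) (x - p.1) (y - p.2) := by
        refine tsum_congr fun r => tsum_congr fun p => ?_
        rw [ENNReal.tsum_mul_left]; rfl
    _ = _ := by
        rw [ENNReal.tsum_comm]
        exact tsum_congr fun p => ENNReal.tsum_mul_right

lemma GG_point {ξ : Fin (N + 1) → ℕ → Ω → (Fin d → ℤ)} (h : IsSteps P μ ξ) (a : ℕ)
    (f : Fin N → ℕ) (x : Fin d → ℤ) :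
    P {ω | addWalk ξ (Fin.cons a f) ω = x} =
      ∑' p : (Fin d → ℤ), pn μ a p * P {ω | addWalk (tl ξ) f ω = x - p} := by
  have hm1 : ∀ a p, MeasurableSet[sig (unc ξ) {p | p.1 = 0}] {ω | wlk (unc ξ) (ee 0) a ω = p} :=
    fun a p => meas_first_sig ξ a (measurableSet_singleton p)
  have hm2 : ∀ f p, MeasurableSet[sig (unc ξ) {p | p.1 ≠ 0}] {ω | addWalk (tl ξ) f ω = p} :=
    fun f p => meas_addWalk_tl_sig ξ f (measurableSet_singleton p)
  have e1 : {ω | addWalk ξ (Fin.cons a f) ω = x} =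
      ⋃ p : (Fin d → ℤ),
        ({ω | wlk (unc ξ) (ee 0) a ω = p} ∩ {ω | addWalk (tl ξ) f ω = x - p}) := by
    ext ω
    simp only [Set.mem_ofPred_eq, Set.mem_iUnion, Set.mem_inter_iff]
    rw [addWalk_cons]
    constructor
    · intro h1
      refine ⟨_, rfl, ?_⟩
      rw [← h1]; abel
    · rintro ⟨u, h1, h3⟩
      rw [h1, h3]; abel
  rw [e1, measure_iUnion]
  · refine tsum_congr fun p => ?_
    rw [h.fam.indep_inter disj_zero (hm1 a p) (hm2 f _), h.fam.prob_wlk (ee_inj _)]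
  · intro u u' hne
    rw [Function.onFun, Set.disjoint_left]
    rintro ω ⟨h1, _⟩ ⟨h3, _⟩
    exact hne (h1.symm.trans h3)
  · intro p
    exact (h.fam.sig_le _ _ (hm1 a p)).inter (h.fam.sig_le _ _ (hm2 f _))

lemma GG_succ {ξ : Fin (N + 1) → ℕ → Ω → (Fin d → ℤ)} (h : IsSteps P μ ξ) (x : Fin d → ℤ) :
    GG P ξ x = ∑' p : (Fin d → ℤ), green μ p * GG P (tl ξ) (x - p) := by
  rw [GG, ← (Fin.consEquiv fun _ => ℕ).tsum_eq, ENNReal.tsum_prod']
  have e1 : ∀ (r : ℕ) (q : Fin N → ℕ),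
      P {ω | addWalk ξ ((Fin.consEquiv fun _ => ℕ) (r, q)) ω = x} =
      ∑' p : (Fin d → ℤ), pn μ r p * P {ω | addWalk (tl ξ) q ω = x - p} :=
    fun r q => GG_point h r q x
  simp_rw [e1]
  calc _ = ∑' (r : ℕ) (p : (Fin d → ℤ)) (q : Fin N → ℕ),
        pn μ r p * P {ω | addWalk (tl ξ) q ω = x - p} :=
        tsum_congr fun r => ENNReal.tsum_comm
    _ = ∑' (r : ℕ) (p : (Fin d → ℤ)), pn μ r p * GG P (tl ξ) (x - p) := by
        refine tsum_congr fun r => tsum_congr fun p => ?_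
        rw [ENNReal.tsum_mul_left]; rfl
    _ = _ := by
        rw [ENNReal.tsum_comm]
        exact tsum_congr fun p => ENNReal.tsum_mul_right

end Pool.Agent.Helper95.ARW
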