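import Mathlib
import Pool.Agent.Helper95.ARWMom

set_option autoImplicit false
set_option linter.unusedSectionVars false

open MeasureTheory ProbabilityTheory
open scoped ENNReal

namespace Pool.Agent.Helper95.ARW

section
variable {d : ℕ}

/-- two-point kernel -/
noncomputable def Phi (γ : ℝ) (x y : Fin d → ℤ) : ℝ≥0∞ := (kk γ x + kk γ y) * kk γ (x - y)

lemma Phi_comm (γ : ℝ) (x y : Fin d → ℤ) : Phi γ x y = Phi γ y x := by
  rw [Phi, Phi, add_comm, kk_sub_comm]

lemma step_half {s γ : ℝ} (hs0 : 0 ≤ s) (hs : s < d) (hγ0 : 0 ≤ γ) (hγ : γ < d)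
    (hsg : (d:ℝ) < s + γ) :
    ∃ C : ℝ≥0∞, C ≠ ∞ ∧ ∀ x y : Fin d → ℤ,
      ∑' p : (Fin d → ℤ) × (Fin d → ℤ),
        kk s p.1 * kk s (p.2 - p.1) * Phi γ (x - p.1) (y - p.2) ≤ C * Phi (s + γ - d) x y := by
  obtain ⟨C1, hC1, hc1⟩ := conv_le hγ0 hγ hs0 hs (by linarith : (d:ℝ) < γ + s)
  obtain ⟨C2, hC2, hc2⟩ := three_term hγ0 hγ hs0 hs (by linarith : (d:ℝ) < γ + s)
  have e0 : γ + s - (d:ℝ) = s + γ - d := by ring
  rw [e0] at hc1 hc2
  set γ' := s + γ - (d:ℝ) with hγ'
  refine ⟨C1 * C1 + C1 * C2, ENNReal.add_ne_top.2 ⟨ENNReal.mul_ne_top hC1 hC1,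
    ENNReal.mul_ne_top hC1 hC2⟩, fun x y => ?_⟩
  have e1 : ∑' p : (Fin d → ℤ) × (Fin d → ℤ),
        kk s p.1 * kk s (p.2 - p.1) * Phi γ (x - p.1) (y - p.2) =
      ∑' u : Fin d → ℤ, ∑' w : Fin d → ℤ,
        (kk γ (x - u) * kk s u * (kk γ (y - x - w) * kk s w) +
          kk γ (y - w - u) * kk s u * (kk γ (y - x - w) * kk s w)) := by
    rw [ENNReal.tsum_prod']
    refine tsum_congr fun u => ?_
    rw [← (Equiv.addLeft u).tsum_eq]
    refine tsum_congr fun w => ?_
    simp only [Equiv.coe_addLeft, Phi, add_sub_cancel_left]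
    have h1 : x - u - (y - (u + w)) = -(y - x - w) := by abel
    have h2 : y - (u + w) = y - w - u := by abel
    rw [h1, h2, kk_neg]
    ring
  rw [e1]
  simp_rw [ENNReal.tsum_add]
  rw [add_mul]
  have hxy : kk γ' (y - x) = kk γ' (x - y) := kk_sub_comm _ _ _
  refine add_le_add ?_ ?_
  · simp_rw [ENNReal.tsum_mul_left, ENNReal.tsum_mul_right]
    calc _ ≤ (C1 * kk γ' x) * (C1 * kk γ' (y - x)) := by
          gcongr
          · exact hc1 x
          · exact hc1 (y - x)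
      _ = C1 * C1 * (kk γ' x * kk γ' (x - y)) := by rw [hxy]; ring
      _ ≤ _ := by
          rw [Phi]; gcongr; exact le_self_add
  · rw [ENNReal.tsum_comm]
    simp_rw [ENNReal.tsum_mul_right]
    calc ∑' w : Fin d → ℤ, (∑' u : Fin d → ℤ, kk γ (y - w - u) * kk s u) *
          (kk γ (y - x - w) * kk s w)
        ≤ ∑' w : Fin d → ℤ, C1 * kk γ' (y - w) * (kk γ (y - x - w) * kk s w) := by
          refine ENNReal.tsum_le_tsum fun w => ?_
          gcongr
          exact hc1 _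
      _ = ∑' z : Fin d → ℤ, C1 * (kk γ (x - z) * kk s (y - z) * kk γ' z) := by
          rw [← (Equiv.subLeft y).tsum_eq]
          refine tsum_congr fun z => ?_
          simp only [Equiv.subLeft_apply, sub_sub_cancel]
          have h1 : y - x - (y - z) = -(x - z) := by abel
          rw [h1, kk_neg]
          ring
      _ = C1 * ∑' z : Fin d → ℤ, kk γ (x - z) * kk s (y - z) * kk γ' z := ENNReal.tsum_mul_left
      _ ≤ C1 * (C2 * ((kk γ' x + kk γ' y) * kk γ' (x - y))) := by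
          gcongr; exact hc2 x y
      _ = _ := by rw [Phi]; ring

lemma step_full {s γ : ℝ} (hs0 : 0 ≤ s) (hs : s < d) (hγ0 : 0 ≤ γ) (hγ : γ < d)
    (hsg : (d:ℝ) < s + γ) :
    ∃ C : ℝ≥0∞, C ≠ ∞ ∧ ∀ x y : Fin d → ℤ,
      ∑' p : (Fin d → ℤ) × (Fin d → ℤ),
        (kk s p.1 * kk s (p.2 - p.1) + kk s p.2 * kk s (p.1 - p.2)) *
          Phi γ (x - p.1) (y - p.2) ≤ C * Phi (s + γ - d) x y := by
  obtain ⟨C, hC, hc⟩ := step_half hs0 hs hγ0 hγ hsg
  refine ⟨C + C, ENNReal.add_ne_top.2 ⟨hC, hC⟩, fun x y => ?_⟩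
  simp_rw [add_mul]
  rw [ENNReal.tsum_add]
  refine add_le_add (hc x y) ?_
  rw [← (Equiv.prodComm (Fin d → ℤ) (Fin d → ℤ)).tsum_eq, Phi_comm _ x y]
  refine le_trans (le_of_eq (tsum_congr fun p => ?_)) (hc y x)
  simp only [Equiv.prodComm_apply, Prod.fst_swap, Prod.snd_swap]
  rw [Phi_comm γ (x - p.2)]

end

variable {Ω : Type*} {mΩ : MeasurableSpace Ω} {P : Measure Ω} [IsProbabilityMeasure P]
  {d : ℕ} {μ : Measure (Fin d → ℤ)} {α : ℝ}

lemma addWalk_zero (ξ : Fin 0 → ℕ → Ω → (Fin d → ℤ)) (n : Fin 0 → ℕ) (ω : Ω) :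
    addWalk ξ n ω = 0 := by simp [addWalk]

lemma KK_zero (ξ : Fin 0 → ℕ → Ω → (Fin d → ℤ)) (x y : Fin d → ℤ) :
    KK P ξ x y = if x = 0 ∧ y = 0 then 1 else 0 := by
  rw [KK, tsum_eq_single (default : (Fin 0 → ℕ) × (Fin 0 → ℕ)) (fun q hq => absurd (Subsingleton.elim _ _) hq)]
  simp only [addWalk_zero]
  split_ifs with h
  · rw [h.1, h.2]; simp
  · have : {_ω : Ω | (0 : Fin d → ℤ) = x ∧ (0 : Fin d → ℤ) = y} = ∅ := by
      ext ω
      simp only [Set.mem_ofPred_eq, Set.mem_empty_iff_false, iff_false]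
      rintro ⟨h1, h2⟩
      exact h ⟨h1.symm, h2.symm⟩
    rw [this]; simp

lemma GG_zero (ξ : Fin 0 → ℕ → Ω → (Fin d → ℤ)) (x : Fin d → ℤ) :
    GG P ξ x = if x = 0 then 1 else 0 := by
  rw [GG, tsum_eq_single (default : (Fin 0 → ℕ)) (fun q hq => absurd (Subsingleton.elim _ _) hq)]
  simp only [addWalk_zero]
  split_ifs with h
  · rw [h]; simp
  · have : {_ω : Ω | (0 : Fin d → ℤ) = x} = ∅ := by
      ext ω
      simp only [Set.mem_ofPred_eq, Set.mem_empty_iff_false, iff_false]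
      exact fun h1 => h h1.symm
    rw [this]; simp

/-- two-point bound -/
lemma KK_bound (hμ : StepLaw μ α) (N : ℕ) (hN : 1 ≤ N) (hα : α * N < d) :
    ∃ C : ℝ≥0∞, C ≠ ∞ ∧ ∀ ξ : Fin N → ℕ → Ω → (Fin d → ℤ), IsSteps P μ ξ → ∀ x y : Fin d → ℤ,
      KK P ξ x y ≤ C * Phi (d - α * N) x y := by
  have hpos := hμ.pos
  induction N, hN using Nat.le_induction with
  | base =>
    have hα1 : α < d := by simpa using hα
    obtain ⟨c, C0, hc, hC0, hg⟩ := green_bounds hμ hα1.le
    refine ⟨C0 * C0, ENNReal.mul_ne_top hC0 hC0, fun ξ h x y => ?_⟩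
    rw [KK_succ h, tsum_eq_single (x, y)]
    · rw [KK_zero, if_pos ⟨sub_self _, sub_self _⟩, mul_one]
      refine (h.fam.K_one (ee_inj 0) x y).trans ?_
      calc green μ x * green μ (y - x) + green μ y * green μ (x - y)
          ≤ (C0 * kk (d - α) x) * (C0 * kk (d - α) (y - x)) +
            (C0 * kk (d - α) y) * (C0 * kk (d - α) (x - y)) := by
            gcongr
            · exact (hg _).2
            · exact (hg _).2
            · exact (hg _).2
            · exact (hg _).2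
        _ = _ := by
            rw [kk_sub_comm _ y x, Phi]
            have : (d:ℝ) - α * ((1:ℕ):ℝ) = d - α := by simp
            rw [this]; ring
    · rintro ⟨u, v⟩ hne
      rw [KK_zero, if_neg, mul_zero]
      rintro ⟨h1, h2⟩
      apply hne
      rw [sub_eq_zero] at h1 h2
      simp only at h1 h2
      rw [h1, h2]
  | succ N hN ih =>
    have hN' : (1:ℝ) ≤ N := by exact_mod_cast hN
    push_cast at hα
    have hαN : α * N < d := by nlinarith
    have hα1 : α < d := by nlinarith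
    obtain ⟨C1, hC1, hc1⟩ := ih hαN
    obtain ⟨c, C0, hc, hC0, hg⟩ := green_bounds hμ hα1.le
    obtain ⟨C2, hC2, hc2⟩ := step_full (d := d) (s := (d:ℝ) - α) (γ := (d:ℝ) - α * N)
      (by linarith) (by linarith) (by linarith) (by nlinarith) (by nlinarith)
    refine ⟨C0 * C0 * C1 * C2, ENNReal.mul_ne_top (ENNReal.mul_ne_top (ENNReal.mul_ne_top hC0 hC0)
      hC1) hC2, fun ξ h x y => ?_⟩
    rw [KK_succ h]
    calc _ ≤ ∑' p : (Fin d → ℤ) × (Fin d → ℤ), C0 * C0 * C1 *
          ((kk (d - α) p.1 * kk (d - α) (p.2 - p.1) + kk (d - α) p.2 * kk (d - α) (p.1 - p.2)) *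
            Phi (d - α * N) (x - p.1) (y - p.2)) := by
          refine ENNReal.tsum_le_tsum fun p => ?_
          calc _ ≤ (green μ p.1 * green μ (p.2 - p.1) + green μ p.2 * green μ (p.1 - p.2)) *
                (C1 * Phi (d - α * N) (x - p.1) (y - p.2)) := by
                gcongr
                · exact h.fam.K_one (ee_inj 0) p.1 p.2
                · exact hc1 _ h.tl _ _
            _ ≤ ((C0 * kk (d - α) p.1) * (C0 * kk (d - α) (p.2 - p.1)) +
                (C0 * kk (d - α) p.2) * (C0 * kk (d - α) (p.1 - p.2))) *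
                (C1 * Phi (d - α * N) (x - p.1) (y - p.2)) := by
                gcongr
                · exact (hg _).2
                · exact (hg _).2
                · exact (hg _).2
                · exact (hg _).2
            _ = _ := by ring
      _ = C0 * C0 * C1 * ∑' p : (Fin d → ℤ) × (Fin d → ℤ),
          ((kk (d - α) p.1 * kk (d - α) (p.2 - p.1) + kk (d - α) p.2 * kk (d - α) (p.1 - p.2)) *
            Phi (d - α * N) (x - p.1) (y - p.2)) := ENNReal.tsum_mul_left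
      _ ≤ C0 * C0 * C1 * (C2 * Phi ((d:ℝ) - α + (d - α * N) - d) x y) := by
          gcongr; exact hc2 x y
      _ = _ := by
          have : (d:ℝ) - α + (d - α * N) - d = d - α * ((N + 1 : ℕ) : ℝ) := by push_cast; ring
          rw [this]; ring

/-- lower bound for the Green function of the additive walk -/
lemma GG_bound (hμ : StepLaw μ α) (N : ℕ) (hN : 1 ≤ N) (hα : α * N < d) :
    ∃ c : ℝ≥0∞, c ≠ 0 ∧ c ≠ ∞ ∧ ∀ ξ : Fin N → ℕ → Ω → (Fin d → ℤ), IsSteps P μ ξ →
      ∀ x : Fin d → ℤ, c * kk (d - α * N) x ≤ GG P ξ x := by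
  have hpos := hμ.pos
  induction N, hN using Nat.le_induction with
  | base =>
    have hα1 : α < d := by simpa using hα
    obtain ⟨c, C0, hc, hC0, hg⟩ := green_bounds hμ hα1.le
    have hct : c ≠ ∞ := by
      have h8 := (hg 0).1
      rw [kk_zero, mul_one] at h8
      exact ne_top_of_le_ne_top (hμ.transient 0) h8
    refine ⟨c, hc, hct, fun ξ h x => ?_⟩
    rw [GG_succ h, tsum_eq_single x]
    · rw [GG_zero, if_pos (sub_self _), mul_one]
      have : (d:ℝ) - α * ((1:ℕ):ℝ) = d - α := by simp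
      rw [this]
      exact (hg x).1
    · intro u hne
      rw [GG_zero, if_neg, mul_zero]
      rw [sub_eq_zero]; exact hne.symm
  | succ N hN ih =>
    have hN' : (1:ℝ) ≤ N := by exact_mod_cast hN
    push_cast at hα
    have hαN : α * N < d := by nlinarith
    have hα1 : α < d := by nlinarith
    obtain ⟨c1, hc1, hc1t, hb⟩ := ih hαN
    obtain ⟨c, C0, hc, hC0, hg⟩ := green_bounds hμ hα1.le
    have hct : c ≠ ∞ := by
      have h8 := (hg 0).1
      rw [kk_zero, mul_one] at h8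
      exact ne_top_of_le_ne_top (hμ.transient 0) h8
    have h2 : (2:ℝ≥0∞) ^ ((d:ℝ) - α * N) ≠ ∞ :=
      ENNReal.rpow_ne_top_of_nonneg (by linarith) (by norm_num)
    have h20 : (2:ℝ≥0∞) ^ ((d:ℝ) - α * N) ≠ 0 := by simp
    refine ⟨c * c1 * (2 ^ ((d:ℝ) - α * N))⁻¹, mul_ne_zero (mul_ne_zero hc hc1)
      (ENNReal.inv_ne_zero.2 h2), ENNReal.mul_ne_top (ENNReal.mul_ne_top hct hc1t)
      (ENNReal.inv_ne_top.2 h20), fun ξ h x => ?_⟩
    rw [GG_succ h]
    have h3 := conv_ge (d := d) (s := (d:ℝ) - α * N) (t := (d:ℝ) - α) (by linarith) (by linarith) x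
    have e1 : (d:ℝ) - α * N + (d - α) - d = d - α * ((N + 1 : ℕ) : ℝ) := by push_cast; ring
    rw [e1] at h3
    calc c * c1 * (2 ^ ((d:ℝ) - α * N))⁻¹ * kk (d - α * ((N + 1 : ℕ) : ℝ)) x
        ≤ c * c1 * (2 ^ ((d:ℝ) - α * N))⁻¹ * (2 ^ ((d:ℝ) - α * N) *
          ∑' w : Fin d → ℤ, kk ((d:ℝ) - α * N) (x - w) * kk (d - α) w) := by gcongr
      _ = c * c1 * ∑' w : Fin d → ℤ, kk ((d:ℝ) - α * N) (x - w) * kk (d - α) w := by
          rw [mul_assoc (c * c1), ← mul_assoc (2 ^ ((d:ℝ) - α * N))⁻¹,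
            ENNReal.inv_mul_cancel h20 h2, one_mul]
      _ = ∑' w : Fin d → ℤ, c * c1 * (kk ((d:ℝ) - α * N) (x - w) * kk (d - α) w) :=
          ENNReal.tsum_mul_left.symm
      _ ≤ _ := by
          refine ENNReal.tsum_le_tsum fun w => ?_
          calc c * c1 * (kk ((d:ℝ) - α * N) (x - w) * kk (d - α) w)
              = (c * kk (d - α) w) * (c1 * kk ((d:ℝ) - α * N) (x - w)) := by ring
            _ ≤ _ := by
                gcongr
                · exact (hg w).1
                · exact hb _ h.tl _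

end Pool.Agent.Helper95.ARW
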