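import Mathlib
import Pool.Agent.Helper95.ARWNear
import Pool.Agent.Helper95.ARWKb

set_option autoImplicit false
set_option linter.unusedSectionVars false

open MeasureTheory ProbabilityTheory
open scoped ENNReal

namespace Pool.Agent.Helper95.ARW

section
variable {Ω : Type*} {mΩ : MeasurableSpace Ω} {P : Measure Ω} [IsProbabilityMeasure P]

/-- Cauchy–Schwarz / Paley–Zygmund -/
lemma cs_pz {f : Ω → ℝ≥0∞} (hf : Measurable f) :
    (∫⁻ ω, f ω ∂P) ^ 2 ≤ P {ω | f ω ≠ 0} * ∫⁻ ω, f ω ^ 2 ∂P := by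
  have hS : MeasurableSet {ω | f ω ≠ 0} := (hf (measurableSet_singleton 0)).compl
  have h1 := ENNReal.lintegral_mul_le_Lp_mul_Lq P (p := 2) (q := 2) Real.HolderConjugate.two_two
    hf.aemeasurable ((measurable_const (a := (1:ℝ≥0∞))).indicator hS).aemeasurable
  have h2 : ∫⁻ ω, (f * {ω | f ω ≠ 0}.indicator fun _ => (1:ℝ≥0∞)) ω ∂P = ∫⁻ ω, f ω ∂P := by
    refine lintegral_congr fun ω => ?_
    rw [Pi.mul_apply]
    by_cases h : f ω = 0
    · rw [h]; simp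
    · rw [Set.indicator_of_mem (show ω ∈ {ω | f ω ≠ 0} from h), mul_one]
  have h3 : ∫⁻ ω, ({ω | f ω ≠ 0}.indicator (fun _ => (1:ℝ≥0∞)) ω) ^ (2:ℝ) ∂P = P {ω | f ω ≠ 0} := by
    rw [← lintegral_indicator_one hS]
    refine lintegral_congr fun ω => ?_
    by_cases h : ω ∈ {ω | f ω ≠ 0}
    · rw [Set.indicator_of_mem h, Set.indicator_of_mem h]; simp
    · rw [Set.indicator_of_notMem h, Set.indicator_of_notMem h]; simp
  rw [h2, h3] at h1
  calc (∫⁻ ω, f ω ∂P) ^ 2 ≤ ((∫⁻ ω, f ω ^ (2:ℝ) ∂P) ^ (1 / (2:ℝ)) * P {ω | f ω ≠ 0} ^ (1 / (2:ℝ))) ^ 2 := by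
        gcongr
    _ = _ := by
        rw [mul_pow, ← ENNReal.rpow_natCast, ← ENNReal.rpow_natCast, ← ENNReal.rpow_mul,
          ← ENNReal.rpow_mul]
        norm_num
        rw [mul_comm]

end

variable {Ω : Type*} {mΩ : MeasurableSpace Ω} {P : Measure Ω} [IsProbabilityMeasure P]
  {d N : ℕ} {μ : Measure (Fin d → ℤ)} {ξ : Fin N → ℕ → Ω → (Fin d → ℤ)} {α : ℝ}

/-- number of visits -/
noncomputable def VV (ξ : Fin N → ℕ → Ω → (Fin d → ℤ)) (x : Fin d → ℤ) (ω : Ω) : ℝ≥0∞ :=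
  ∑' n : Fin N → ℕ, {ω | addWalk ξ n ω = x}.indicator (fun _ => (1:ℝ≥0∞)) ω

lemma IsSteps.meas_addWalk (h : IsSteps P μ ξ) (n : Fin N → ℕ) : Measurable (addWalk ξ n) :=
  Finset.measurable_sum _ fun i _ => Finset.measurable_sum _ fun k _ => h.meas i k

lemma IsSteps.meas_set (h : IsSteps P μ ξ) (n : Fin N → ℕ) (x : Fin d → ℤ) :
    MeasurableSet {ω | addWalk ξ n ω = x} := h.meas_addWalk n (measurableSet_singleton x)

lemma IsSteps.meas_ind (h : IsSteps P μ ξ) (n : Fin N → ℕ) (x : Fin d → ℤ) :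
    Measurable ({ω | addWalk ξ n ω = x}.indicator (fun _ => (1:ℝ≥0∞))) :=
  measurable_const.indicator (h.meas_set n x)

lemma IsSteps.meas_VV (h : IsSteps P μ ξ) (x : Fin d → ℤ) : Measurable (VV ξ x) :=
  Measurable.tsum fun n => h.meas_ind n x

lemma IsSteps.lint_VV (h : IsSteps P μ ξ) (x : Fin d → ℤ) : ∫⁻ ω, VV ξ x ω ∂P = GG P ξ x := by
  unfold VV
  rw [lintegral_tsum fun n => (h.meas_ind n x).aemeasurable, GG]
  refine tsum_congr fun n => ?_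
  exact lintegral_indicator_one (h.meas_set n x)

lemma IsSteps.lint_VV2 (h : IsSteps P μ ξ) (x y : Fin d → ℤ) :
    ∫⁻ ω, VV ξ x ω * VV ξ y ω ∂P = KK P ξ x y := by
  have h1 : ∀ ω, VV ξ x ω * VV ξ y ω = ∑' q : (Fin N → ℕ) × (Fin N → ℕ),
      ({ω | addWalk ξ q.1 ω = x ∧ addWalk ξ q.2 ω = y}).indicator (fun _ => (1:ℝ≥0∞)) ω := by
    intro ω
    rw [ENNReal.tsum_prod', VV, VV, ← ENNReal.tsum_mul_right]
    refine tsum_congr fun n => ?_
    rw [← ENNReal.tsum_mul_left]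
    refine tsum_congr fun m => ?_
    by_cases h1 : addWalk ξ n ω = x <;> by_cases h2 : addWalk ξ m ω = y <;>
      simp [Set.indicator, h1, h2]
  simp_rw [h1]
  have hm : ∀ q : (Fin N → ℕ) × (Fin N → ℕ),
      MeasurableSet {ω | addWalk ξ q.1 ω = x ∧ addWalk ξ q.2 ω = y} := fun q =>
    (h.meas_set q.1 x).inter (h.meas_set q.2 y)
  rw [lintegral_tsum fun q => (measurable_const.indicator (hm q)).aemeasurable, KK]
  refine tsum_congr fun q => ?_
  exact lintegral_indicator_one (hm q)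

/-- weighted visits -/
noncomputable def WW (ξ : Fin N → ℕ → Ω → (Fin d → ℤ)) (w : (Fin d → ℤ) → ℝ≥0∞) (z : Fin d → ℤ)
    (ω : Ω) : ℝ≥0∞ := ∑' x, w x * VV ξ (x - z) ω

lemma IsSteps.meas_WW (h : IsSteps P μ ξ) (w : (Fin d → ℤ) → ℝ≥0∞) (z : Fin d → ℤ) :
    Measurable (WW ξ w z) := Measurable.tsum fun x => (h.meas_VV _).const_mul _

lemma IsSteps.lint_WW (h : IsSteps P μ ξ) (w : (Fin d → ℤ) → ℝ≥0∞) (z : Fin d → ℤ) :
    ∫⁻ ω, WW ξ w z ω ∂P = ∑' x, w x * GG P ξ (x - z) := by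
  unfold WW
  rw [lintegral_tsum fun x => ((h.meas_VV _).const_mul _).aemeasurable]
  refine tsum_congr fun x => ?_
  rw [lintegral_const_mul _ (h.meas_VV _), h.lint_VV]

lemma IsSteps.lint_WW2 (h : IsSteps P μ ξ) (w : (Fin d → ℤ) → ℝ≥0∞) (z : Fin d → ℤ) :
    ∫⁻ ω, WW ξ w z ω ^ 2 ∂P = ∑' y, ∑' x, w x * w y * KK P ξ (x - z) (y - z) := by
  have h1 : ∀ ω, WW ξ w z ω ^ 2 = ∑' y, ∑' x, w x * w y * (VV ξ (x - z) ω * VV ξ (y - z) ω) := by
    intro ω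
    rw [sq, WW, ← ENNReal.tsum_mul_left]
    refine tsum_congr fun y => ?_
    rw [← ENNReal.tsum_mul_right]
    refine tsum_congr fun x => ?_
    ring
  have hm0 : ∀ x y : Fin d → ℤ, Measurable fun ω => VV ξ (x - z) ω * VV ξ (y - z) ω :=
    fun x y => (h.meas_VV _).mul (h.meas_VV _)
  have hm : ∀ x y : Fin d → ℤ,
      Measurable fun ω => w x * w y * (VV ξ (x - z) ω * VV ξ (y - z) ω) := fun x y =>
    ((h.meas_VV _).mul (h.meas_VV _)).const_mul _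
  have hm2 : ∀ y : Fin d → ℤ,
      Measurable fun ω => ∑' x, w x * w y * (VV ξ (x - z) ω * VV ξ (y - z) ω) := fun y =>
    Measurable.tsum fun x => hm x y
  simp_rw [h1]
  rw [lintegral_tsum fun y => (hm2 y).aemeasurable]
  refine tsum_congr fun y => ?_
  rw [lintegral_tsum fun x => (hm x y).aemeasurable]
  refine tsum_congr fun x => ?_
  rw [lintegral_const_mul _ (hm0 x y), h.lint_VV2]

lemma WW_ne_zero {w : (Fin d → ℤ) → ℝ≥0∞} {z : Fin d → ℤ} {ω : Ω} (h : WW ξ w z ω ≠ 0) :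
    ∃ x, w x ≠ 0 ∧ x - z ∈ addRange ξ ω := by
  by_contra hc
  push Not at hc
  apply h
  rw [WW, ENNReal.tsum_eq_zero]
  intro x
  by_cases hw : w x = 0
  · rw [hw, zero_mul]
  · have h1 := hc x hw
    have h2 : VV ξ (x - z) ω = 0 := by
      rw [VV, ENNReal.tsum_eq_zero]
      intro n
      exact Set.indicator_of_notMem (s := {ω | addWalk ξ n ω = x - z}) (fun hn => h1 ⟨n, hn⟩) _
    rw [h2, mul_zero]

end Pool.Agent.Helper95.ARW
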