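import Mathlib
import Pool.Agent.Helper95.ARWEnergy
import Pool.Agent.Helper95.ARWTwo

set_option autoImplicit false
set_option linter.unusedSectionVars false

open MeasureTheory ProbabilityTheory
open scoped ENNReal

namespace Pool.Agent.Helper95.ARW

lemma exists_window {d : ℕ} {γ : ℝ} (hγ : 0 ≤ γ) {A : Set (Fin d → ℤ)}
    (h : ∑' k : ℕ, cover γ A (k + 1) = ∞) (K : ℕ) :
    ∃ n, 1 ≤ ∑ k ∈ Finset.Ico K (K + n), cover γ A (k + 1) := by
  by_contra hc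
  push Not at hc
  have hfin : ∀ k, cover γ A k ≠ ∞ := fun k =>
    ne_top_of_le_ne_top (by simp) ((cover_le fun x hx => fullCover_covers (shell_sub k hx.2)).trans
      (cost_fullCover_le hγ k) : cover γ A k ≤ 2 ^ d)
  have h1 : ∑' k : ℕ, cover γ A (k + K + 1) ≤ 1 := by
    refine ENNReal.tsum_le_of_sum_range_le fun n => ?_
    have h2 := (hc n).le
    rw [Finset.sum_Ico_eq_sum_range, Nat.add_sub_cancel_left] at h2
    refine le_trans (le_of_eq (Finset.sum_congr rfl fun k _ => ?_)) h2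
    rw [add_comm k K]
  rw [← Summable.sum_add_tsum_nat_add' (f := fun k => cover γ A (k + 1)) (k := K)
    ENNReal.summable] at h
  refine absurd h (ENNReal.add_ne_top.2 ⟨?_, ne_top_of_le_ne_top ENNReal.one_ne_top h1⟩)
  exact (ENNReal.sum_lt_top.2 fun k _ => (hfin _).lt_top).ne

variable {Ω : Type*} {mΩ : MeasurableSpace Ω} {P : Measure Ω} [IsProbabilityMeasure P]
  {d N : ℕ} {μ : Measure (Fin d → ℤ)} {α : ℝ}

lemma cmp_one {g : ℝ} (hg : 0 ≤ g) {x z : Fin d → ℤ} (h : 2 * nrm z ≤ nrm x) :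
    (2 ^ g)⁻¹ ≤ (kk g x)⁻¹ * kk g (x - z) := by
  have h1 : 1 + nrm (x - z) ≤ 2 * (1 + nrm x) := by
    have := nrm_add_le x (-z)
    rw [nrm_neg, ← sub_eq_add_neg] at this
    omega
  have h2 := kk_le_of_le hg h1
  have h2t : (2:ℝ≥0∞) ^ g ≠ ∞ := ENNReal.rpow_ne_top_of_nonneg hg (by norm_num)
  have h20 : (2:ℝ≥0∞) ^ g ≠ 0 := by simp
  calc (2 ^ g)⁻¹ = (2 ^ g)⁻¹ * ((kk g x)⁻¹ * kk g x) := by rw [kk_mul_inv hg, mul_one]
    _ ≤ (2 ^ g)⁻¹ * ((kk g x)⁻¹ * (2 ^ g * kk g (x - z))) := by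
        gcongr; exact_mod_cast h2
    _ = ((2 ^ g)⁻¹ * 2 ^ g) * ((kk g x)⁻¹ * kk g (x - z)) := by ring
    _ = _ := by rw [ENNReal.inv_mul_cancel h20 h2t, one_mul]

lemma cmp_two {g : ℝ} (hg : 0 ≤ g) {x z : Fin d → ℤ} (h : 2 * nrm z ≤ nrm x) :
    (kk g x)⁻¹ * kk g (x - z) ≤ 2 ^ g := by
  have h1 : 1 + nrm x ≤ 2 * (1 + nrm (x - z)) := by
    have := nrm_le_add_sub x z
    omega
  have h2 := kk_le_of_le hg h1
  calc (kk g x)⁻¹ * kk g (x - z) ≤ (kk g x)⁻¹ * (2 ^ g * kk g x) := by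
        gcongr; exact_mod_cast h2
    _ = 2 ^ g * ((kk g x)⁻¹ * kk g x) := by ring
    _ = _ := by rw [kk_mul_inv hg, mul_one]

/-- uniform lower bound for the probability to hit `A` far away -/
lemma hit_lower (hμ : StepLaw μ α) (hN : 1 ≤ N) (hα : α * N < d) {A : Set (Fin d → ℤ)}
    (hA : d - α * N < macroDim A) :
    ∃ c : ℝ≥0∞, c ≠ 0 ∧ ∀ ξ : Fin N → ℕ → Ω → (Fin d → ℤ), IsSteps P μ ξ →
      ∀ (z : Fin d → ℤ) (K : ℕ),
      c ≤ P {ω | ∃ k, K ≤ k ∧ ∃ x ∈ A ∩ shell d (k + 1), x - z ∈ addRange ξ ω} := by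
  have hg : 0 < (d:ℝ) - α * N := by linarith
  obtain ⟨c1, hc1, _, hG⟩ := GG_bound (P := P) hμ N hN hα
  obtain ⟨C1, hC1, hK⟩ := KK_bound (P := P) hμ N hN hα
  set g := (d:ℝ) - α * N with hgdef
  set γ := (g + macroDim A) / 2 with hγdef
  have hgγ : g < γ := by rw [hγdef]; linarith
  have hγA : γ < macroDim A := by rw [hγdef]; linarith
  have hγ0 : 0 < γ := hg.trans hgγ
  obtain ⟨ν, hν⟩ := exists_FF hγ0.le A
  obtain ⟨C, hC, hE⟩ := energy_point (d := d) hg hgγ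
  have h2t : (2:ℝ≥0∞) ^ g ≠ ∞ := ENNReal.rpow_ne_top_of_nonneg hg.le (by norm_num)
  have h20 : (2:ℝ≥0∞) ^ g ≠ 0 := by simp
  set a : ℝ≥0∞ := c1 * (2 ^ g)⁻¹ with ha
  have ha0 : a ≠ 0 := mul_ne_zero hc1 (ENNReal.inv_ne_zero.2 h2t)
  set D : ℝ≥0∞ := C1 * 2 ^ g * 2 * (C * 2) with hD
  have hDt : D ≠ ∞ := ENNReal.mul_ne_top (ENNReal.mul_ne_top (ENNReal.mul_ne_top hC1 h2t)
    (by norm_num)) (ENNReal.mul_ne_top hC (by norm_num))
  refine ⟨a ^ 2 / D, ?_, fun ξ hξ z K => ?_⟩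
  · exact (ENNReal.div_pos (pow_ne_zero 2 ha0) hDt).ne'
  -- choose the window
  obtain ⟨n, hn⟩ := exists_window hγ0.le (of_lt_dim hγ0 hγA) (max K (2 * nrm z))
  set I := Finset.Ico (max K (2 * nrm z)) (max K (2 * nrm z) + n) with hI
  have hIK : ∀ k ∈ I, K ≤ k ∧ 2 * nrm z ≤ k := fun k hk => by
    have := (Finset.mem_Ico.1 hk).1
    exact ⟨(le_max_left _ _).trans this, (le_max_right _ _).trans this⟩
  set σ := ∑' x, tot ν I x with hσ
  have hσe : σ = ∑ k ∈ I, ∑' x, ν k x := by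
    rw [hσ]; unfold tot
    exact Summable.tsum_finsetSum fun _ _ => ENNReal.summable
  have hσ1 : 1 ≤ σ := by
    rw [hσe]; exact hn.trans (Finset.sum_le_sum fun k _ => hν.ge k)
  have hσt : σ ≠ ∞ := by
    rw [hσe]
    exact (ENNReal.sum_lt_top.2 fun k _ => lt_of_le_of_lt (hν.fr k).tot (by simp)).ne
  have hsup : ∀ x, tot ν I x ≠ 0 → ∃ k ∈ I, x ∈ A ∩ shell d (k + 1) := fun x hx => by
    obtain ⟨k, hk, hkx⟩ := Finset.exists_ne_zero_of_sum_ne_zero hx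
    exact ⟨k, hk, hν.sup k x hkx⟩
  have hzx : ∀ x, tot ν I x ≠ 0 → 2 * nrm z ≤ nrm x := fun x hx => by
    obtain ⟨k, hk, hkx⟩ := hsup x hx
    have h1 := two_pow_le_of_shell hkx.2
    have h2 := (hIK k hk).2
    have h3 : k < 2 ^ k := Nat.lt_two_pow_self
    omega
  set w : (Fin d → ℤ) → ℝ≥0∞ := fun x => tot ν I x * (kk g x)⁻¹ with hw
  -- first moment
  have hfirst : a * σ ≤ ∫⁻ ω, WW ξ w z ω ∂P := by
    rw [hξ.lint_WW, hσ, ← ENNReal.tsum_mul_left]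
    refine ENNReal.tsum_le_tsum fun x => ?_
    by_cases hx : tot ν I x = 0
    · simp [hx]
    · calc a * tot ν I x = tot ν I x * c1 * (2 ^ g)⁻¹ := by rw [ha]; ring
        _ ≤ tot ν I x * c1 * ((kk g x)⁻¹ * kk g (x - z)) := by
            gcongr; exact cmp_one hg.le (hzx x hx)
        _ = w x * (c1 * kk g (x - z)) := by rw [hw]; ring
        _ ≤ _ := by
            gcongr
            exact hG ξ hξ _
  -- second moment
  have hwx : ∀ x, w x * kk g (x - z) ≤ 2 ^ g * tot ν I x := by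
    intro x
    by_cases hx : tot ν I x = 0
    · simp [hw, hx]
    · calc w x * kk g (x - z) = ((kk g x)⁻¹ * kk g (x - z)) * tot ν I x := by rw [hw]; ring
        _ ≤ _ := by gcongr; exact cmp_two hg.le (hzx x hx)
  have hen : ∑' y, w y * ∑' x, tot ν I x * kk g (x - y) ≤ C * (1 + σ) * σ := by
    rw [hσ, ← ENNReal.tsum_mul_left]
    refine ENNReal.tsum_le_tsum fun y => ?_
    by_cases hy : tot ν I y = 0
    · simp [hw, hy]
    · calc w y * ∑' x, tot ν I x * kk g (x - y)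
          = ((kk g y)⁻¹ * ∑' x, tot ν I x * kk g (x - y)) * tot ν I y := by rw [hw]; ring
        _ ≤ _ := mul_le_mul' (hE A ν hν I y hy) le_rfl
  have hen2 : ∑' y, ∑' x, w x * tot ν I y * kk g (x - y) =
      ∑' y, w y * ∑' x, tot ν I x * kk g (x - y) := by
    rw [ENNReal.tsum_comm]
    refine tsum_congr fun y => ?_
    rw [← ENNReal.tsum_mul_left]
    refine tsum_congr fun x => ?_
    rw [kk_sub_comm]; ring
  have hen3 : ∑' y, ∑' x, tot ν I x * w y * kk g (x - y) =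
      ∑' y, w y * ∑' x, tot ν I x * kk g (x - y) := by
    refine tsum_congr fun y => ?_
    rw [← ENNReal.tsum_mul_left]
    refine tsum_congr fun x => ?_
    ring
  have hsecond : ∫⁻ ω, WW ξ w z ω ^ 2 ∂P ≤ D * σ ^ 2 := by
    rw [hξ.lint_WW2]
    calc ∑' y, ∑' x, w x * w y * KK P ξ (x - z) (y - z)
        ≤ ∑' y, ∑' x, C1 * 2 ^ g * (tot ν I x * w y * kk g (x - y) +
          w x * tot ν I y * kk g (x - y)) := by
          refine ENNReal.tsum_le_tsum fun y => ENNReal.tsum_le_tsum fun x => ?_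
          calc w x * w y * KK P ξ (x - z) (y - z)
              ≤ w x * w y * (C1 * Phi g (x - z) (y - z)) := by gcongr; exact hK ξ hξ _ _
            _ = C1 * ((w x * kk g (x - z)) * w y * kk g (x - y) +
                w x * (w y * kk g (y - z)) * kk g (x - y)) := by
                rw [Phi, sub_sub_sub_cancel_right]; ring
            _ ≤ C1 * ((2 ^ g * tot ν I x) * w y * kk g (x - y) +
                w x * (2 ^ g * tot ν I y) * kk g (x - y)) := by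
                refine mul_le_mul' le_rfl (add_le_add ?_ ?_)
                · exact mul_le_mul' (mul_le_mul' (hwx x) le_rfl) le_rfl
                · exact mul_le_mul' (mul_le_mul' le_rfl (hwx y)) le_rfl
            _ = _ := by ring
      _ = C1 * 2 ^ g * (∑' y, ∑' x, tot ν I x * w y * kk g (x - y) +
          ∑' y, ∑' x, w x * tot ν I y * kk g (x - y)) := by
          simp_rw [ENNReal.tsum_mul_left, ENNReal.tsum_add]
      _ ≤ C1 * 2 ^ g * (C * (1 + σ) * σ + C * (1 + σ) * σ) := by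
          rw [hen2, hen3]; gcongr
      _ ≤ C1 * 2 ^ g * (C * (σ + σ) * σ + C * (σ + σ) * σ) := by gcongr
      _ = _ := by rw [hD]; ring
  have hcs := cs_pz (P := P) (hξ.meas_WW w z)
  have hfin : a ^ 2 ≤ D * P {ω | WW ξ w z ω ≠ 0} := by
    have hσ20 : σ ^ 2 ≠ 0 := pow_ne_zero 2 (by
      intro h0; rw [h0] at hσ1; exact absurd hσ1 (by norm_num))
    have hσ2t : σ ^ 2 ≠ ∞ := ENNReal.pow_ne_top hσt
    have h1 : a ^ 2 * σ ^ 2 ≤ (D * P {ω | WW ξ w z ω ≠ 0}) * σ ^ 2 := by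
      calc a ^ 2 * σ ^ 2 = (a * σ) ^ 2 := by ring
        _ ≤ (∫⁻ ω, WW ξ w z ω ∂P) ^ 2 := by gcongr
        _ ≤ _ := hcs
        _ ≤ P {ω | WW ξ w z ω ≠ 0} * (D * σ ^ 2) := by gcongr
        _ = _ := by ring
    exact (ENNReal.mul_le_mul_iff_left hσ20 hσ2t).1 h1
  refine le_trans (ENNReal.div_le_of_le_mul' hfin) (measure_mono ?_)
  intro ω hω
  obtain ⟨x, hx1, hx2⟩ := WW_ne_zero hω
  have hx3 : tot ν I x ≠ 0 := fun h => hx1 (by simp [hw, h])
  obtain ⟨k, hk, hkx⟩ := hsup x hx3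
  exact ⟨k, (hIK k hk).1, x, hkx, hx2⟩

end Pool.Agent.Helper95.ARW
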