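import Mathlib
import Pool.Agent.Helper95.ARWLower

set_option autoImplicit false
set_option linter.unusedSectionVars false

open MeasureTheory ProbabilityTheory Filter
open scoped ENNReal

namespace Pool.Agent.Helper95.ARW

/-- zero-one law from Lévy's upward theorem -/
lemma zero_one {Ω : Type*} {mΩ : MeasurableSpace Ω} {P : Measure Ω} [IsProbabilityMeasure P]
    (ℱ : Filtration ℕ mΩ) {E : Set Ω} (hE : MeasurableSet[⨆ n, ℱ n] E) {c : ℝ≥0∞} (hc : c ≠ 0)
    (h : ∀ m, ∀ F, MeasurableSet[ℱ m] F → c * P F ≤ P (F ∩ E)) : ∀ᵐ ω ∂P, ω ∈ E := by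
  have hEm : MeasurableSet E := (iSup_le fun n => ℱ.le n : (⨆ n, (ℱ n : MeasurableSpace Ω)) ≤ mΩ) _ hE
  set c' : ℝ := (min c 1).toReal with hc'
  have hmt : min c 1 ≠ ∞ := ne_top_of_le_ne_top ENNReal.one_ne_top (min_le_right _ _)
  have hc0 : 0 < c' := ENNReal.toReal_pos (by
    intro h0
    rcases min_eq_iff.1 h0 with h1 | h1
    · exact hc h1.1
    · exact one_ne_zero h1.1) hmt
  set g : Ω → ℝ := E.indicator fun _ => (1:ℝ) with hg
  have hgi : Integrable g P := (integrable_const (1:ℝ)).indicator hEm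
  have hgs : StronglyMeasurable[⨆ n, ℱ n] g :=
    (@stronglyMeasurable_const _ _ (⨆ n, (ℱ n : MeasurableSpace Ω)) _ (1:ℝ)).indicator hE
  have hlow : ∀ m, ∀ᵐ ω ∂P, c' ≤ (P[g | ℱ m]) ω := by
    intro m
    have hs : StronglyMeasurable[ℱ m] fun ω => (P[g | ℱ m]) ω - c' :=
      stronglyMeasurable_condExp.sub stronglyMeasurable_const
    have hi : Integrable (fun ω => (P[g | ℱ m]) ω - c') P :=
      integrable_condExp.sub (integrable_const _)
    have h1 : 0 ≤ᵐ[P.trim (ℱ.le m)] fun ω => (P[g | ℱ m]) ω - c' := by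
      refine ae_nonneg_of_forall_setIntegral_nonneg (hi.trim (ℱ.le m) hs) fun F hF _ => ?_
      rw [← setIntegral_trim (ℱ.le m) hs hF]
      have hFm : MeasurableSet F := ℱ.le m _ hF
      rw [integral_sub integrable_condExp.integrableOn (integrable_const _).integrableOn,
        setIntegral_condExp (ℱ.le m) hgi hF, setIntegral_const, hg, integral_indicator hEm,
        Measure.restrict_restrict hEm, setIntegral_const, smul_eq_mul, smul_eq_mul, mul_one,
        sub_nonneg, Set.inter_comm, measureReal_def, measureReal_def, mul_comm, hc',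
        ← ENNReal.toReal_mul]
      refine ENNReal.toReal_mono (measure_ne_top _ _) (le_trans ?_ (h m F hF))
      gcongr
      exact min_le_left _ _
    filter_upwards [ae_of_ae_trim (ℱ.le m) h1] with ω hω
    simp only [Pi.zero_apply] at hω
    linarith
  filter_upwards [hgi.tendsto_ae_condExp (ℱ := ℱ) hgs, ae_all_iff.2 hlow] with ω h1 h2
  have h3 : c' ≤ g ω := ge_of_tendsto' h1 h2
  by_contra hc2
  rw [hg, Set.indicator_of_notMem hc2] at h3
  linarith

variable {Ω : Type*} {mΩ : MeasurableSpace Ω} {P : Measure Ω} [IsProbabilityMeasure P]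
  {d N : ℕ} {μ : Measure (Fin d → ℤ)} {ξ : Fin N → ℕ → Ω → (Fin d → ℤ)} {α : ℝ}

/-- `z` plus the range hits `A` beyond level `K` -/
def BB (A : Set (Fin d → ℤ)) (ξ : Fin N → ℕ → Ω → (Fin d → ℤ)) (z : Fin d → ℤ) (K : ℕ) : Set Ω :=
  {ω | ∃ k, K ≤ k ∧ ∃ x ∈ A ∩ shell d (k + 1), x - z ∈ addRange ξ ω}

/-- `z` plus the range hits `A` at arbitrarily high levels -/
def EE (A : Set (Fin d → ℤ)) (ξ : Fin N → ℕ → Ω → (Fin d → ℤ)) (z : Fin d → ℤ) : Set Ω :=
  ⋂ K, BB A ξ z K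

lemma meas_BB {m : MeasurableSpace Ω} (hm : ∀ n, Measurable[m] (addWalk ξ n))
    (A : Set (Fin d → ℤ)) (z : Fin d → ℤ) (K : ℕ) : MeasurableSet[m] (BB A ξ z K) := by
  have : BB A ξ z K = ⋃ k : ℕ, ⋃ (_ : K ≤ k), ⋃ x : Fin d → ℤ, ⋃ (_ : x ∈ A ∩ shell d (k + 1)),
      ⋃ n : Fin N → ℕ, addWalk ξ n ⁻¹' {x - z} := by
    ext ω
    simp only [BB, addRange, Set.mem_ofPred_eq, Set.mem_iUnion, Set.mem_range, Set.mem_preimage,
      Set.mem_singleton_iff, exists_prop]
  rw [this]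
  refine MeasurableSet.iUnion fun k => MeasurableSet.iUnion fun _ => MeasurableSet.iUnion fun x =>
    MeasurableSet.iUnion fun _ => MeasurableSet.iUnion fun n => ?_
  exact hm n (measurableSet_singleton _)

lemma meas_EE {m : MeasurableSpace Ω} (hm : ∀ n, Measurable[m] (addWalk ξ n))
    (A : Set (Fin d → ℤ)) (z : Fin d → ℤ) : MeasurableSet[m] (EE A ξ z) :=
  MeasurableSet.iInter fun K => meas_BB hm A z K

/-- shifted steps -/
def shf (m : ℕ) (ξ : Fin N → ℕ → Ω → (Fin d → ℤ)) : Fin N → ℕ → Ω → (Fin d → ℤ) :=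
  fun i k => ξ i (m + k)

lemma IsSteps.shf (h : IsSteps P μ ξ) (m : ℕ) : IsSteps P μ (shf m ξ) := by
  refine ⟨fun i k => h.meas _ _, ?_, fun i k => h.law _ _⟩
  have hinj : Function.Injective (fun p : Fin N × ℕ => ((p.1, m + p.2) : Fin N × ℕ)) := by
    rintro ⟨i, k⟩ ⟨j, l⟩ h
    simpa using h
  exact h.indep.precomp hinj

lemma addWalk_shift (m : ℕ) (n : Fin N → ℕ) (ω : Ω) :
    addWalk ξ (fun i => m + n i) ω = addWalk ξ (fun _ => m) ω + addWalk (shf m ξ) n ω := by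
  rw [addWalk, addWalk, addWalk, ← Finset.sum_add_distrib]
  refine Finset.sum_congr rfl fun i _ => ?_
  rw [Finset.sum_range_add]
  rfl

lemma EE_shift (A : Set (Fin d → ℤ)) (m : ℕ) {ω : Ω}
    (h : ω ∈ EE A (shf m ξ) (addWalk ξ (fun _ => m) ω)) : ω ∈ EE A ξ 0 := by
  rw [EE, Set.mem_iInter] at h ⊢
  intro K
  obtain ⟨k, hk, x, hx, n, hn⟩ := h K
  refine ⟨k, hk, x, hx, fun i => m + n i, ?_⟩
  simp only at hn ⊢
  rw [addWalk_shift, hn]
  abel

lemma EE_lower (hμ : StepLaw μ α) (hN : 1 ≤ N) (hα : α * N < d) {A : Set (Fin d → ℤ)}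
    (hA : d - α * N < macroDim A) :
    ∃ c : ℝ≥0∞, c ≠ 0 ∧ ∀ ξ : Fin N → ℕ → Ω → (Fin d → ℤ), IsSteps P μ ξ →
      ∀ z : Fin d → ℤ, c ≤ P (EE A ξ z) := by
  obtain ⟨c, hc, h⟩ := hit_lower (P := P) hμ hN hα hA
  refine ⟨c, hc, fun ξ hξ z => ?_⟩
  have hanti : Antitone (BB A ξ z) := by
    intro K L hKL ω hω
    obtain ⟨k, hk, hx⟩ := hω
    exact ⟨k, hKL.trans hk, hx⟩
  rw [EE, hanti.measure_iInter (fun K => (meas_BB hξ.meas_addWalk A z K).nullMeasurableSet)
    ⟨0, measure_ne_top _ _⟩]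
  exact le_iInf fun K => h ξ hξ z K

/-- the step filtration -/
def flt (h : IsSteps P μ ξ) : Filtration ℕ mΩ where
  seq m := sig (unc ξ) {p | p.2 < m}
  mono' m n hmn := sig_mono fun p (hp : p.2 < m) => (lt_of_lt_of_le hp hmn : p.2 < n)
  le' m := h.fam.sig_le _

lemma addWalk_sig {S : Set (Fin N × ℕ)} (n : Fin N → ℕ) (h : ∀ i, ∀ k < n i, (i, k) ∈ S) :
    Measurable[sig (unc ξ) S] (addWalk ξ n) := by
  refine Finset.measurable_sum _ fun i _ => Finset.measurable_sum _ fun k hk => ?_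
  exact meas_sig (ξ := unc ξ) (i := (i, k)) (h i k (Finset.mem_range.1 hk))

lemma shf_sig (m : ℕ) (n : Fin N → ℕ) :
    Measurable[sig (unc ξ) {p | m ≤ p.2}] (addWalk (shf m ξ) n) := by
  refine Finset.measurable_sum _ fun i _ => Finset.measurable_sum _ fun k _ => ?_
  exact meas_sig (ξ := unc ξ) (i := (i, m + k)) (Nat.le_add_right m k)

lemma EE_ae (hμ : StepLaw μ α) (hN : 1 ≤ N) (hα : α * N < d) (h : IsSteps P μ ξ)
    {A : Set (Fin d → ℤ)} (hA : d - α * N < macroDim A) : ∀ᵐ ω ∂P, ω ∈ EE A ξ 0 := by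
  obtain ⟨c, hc, hlow⟩ := EE_lower (P := P) hμ hN hα hA
  refine zero_one (flt h) ?_ hc fun m F hF => ?_
  · refine meas_EE (fun n => ?_) A 0
    set M := Finset.univ.sup n with hM
    have h1 : Measurable[sig (unc ξ) {p | p.2 < M}] (addWalk ξ n) :=
      addWalk_sig n fun i k hk => lt_of_lt_of_le hk (Finset.le_sup (Finset.mem_univ i))
    have h2 : (flt h M : MeasurableSpace Ω) ≤ ⨆ n, flt h n := le_iSup (fun n => (flt h n)) M
    exact h1.mono h2 le_rfl
  · have hz : Measurable[sig (unc ξ) {p | p.2 < m}] (addWalk ξ fun _ => m) :=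
      addWalk_sig _ fun i k hk => hk
    have hdisj : Disjoint {p : Fin N × ℕ | p.2 < m} {p | m ≤ p.2} := by
      rw [Set.disjoint_left]
      intro p (h1 : p.2 < m) (h2 : m ≤ p.2)
      omega
    have hF' : MeasurableSet[sig (unc ξ) {p | p.2 < m}] F := hF
    have hzs : ∀ z, MeasurableSet[sig (unc ξ) {p | p.2 < m}]
        (F ∩ {ω | addWalk ξ (fun _ => m) ω = z}) := fun z =>
      hF'.inter (hz (measurableSet_singleton z))
    have hEs : ∀ z, MeasurableSet[sig (unc ξ) {p | m ≤ p.2}] (EE A (shf m ξ) z) := fun z =>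
      meas_EE (fun n => shf_sig m n) A z
    have hFdec : P F = ∑' z, P (F ∩ {ω | addWalk ξ (fun _ => m) ω = z}) := by
      rw [← measure_iUnion]
      · congr 1
        ext ω
        simp
      · intro z z' hne
        rw [Function.onFun, Set.disjoint_left]
        rintro ω ⟨_, h1⟩ ⟨_, h2⟩
        exact hne (h1.symm.trans h2)
      · exact fun z => h.fam.sig_le _ _ (hzs z)
    calc c * P F = ∑' z, P (F ∩ {ω | addWalk ξ (fun _ => m) ω = z}) * c := by
          rw [hFdec, mul_comm, ENNReal.tsum_mul_right]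
      _ ≤ ∑' z, P (F ∩ {ω | addWalk ξ (fun _ => m) ω = z}) * P (EE A (shf m ξ) z) := by
          refine ENNReal.tsum_le_tsum fun z => ?_
          gcongr
          exact hlow _ (h.shf m) z
      _ = ∑' z, P (F ∩ {ω | addWalk ξ (fun _ => m) ω = z} ∩ EE A (shf m ξ) z) := by
          refine tsum_congr fun z => ?_
          exact (h.fam.indep_inter hdisj (hzs z) (hEs z)).symm
      _ = P (⋃ z, F ∩ {ω | addWalk ξ (fun _ => m) ω = z} ∩ EE A (shf m ξ) z) := by
          rw [measure_iUnion]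
          · intro z z' hne
            rw [Function.onFun, Set.disjoint_left]
            rintro ω ⟨⟨_, h1⟩, _⟩ ⟨⟨_, h2⟩, _⟩
            exact hne (h1.symm.trans h2)
          · exact fun z => (h.fam.sig_le _ _ (hzs z)).inter (h.fam.sig_le _ _ (hEs z))
      _ ≤ P (F ∩ EE A ξ 0) := by
          refine measure_mono ?_
          intro ω hω
          simp only [Set.mem_iUnion] at hω
          obtain ⟨z, ⟨h1, h2⟩, h3⟩ := hω
          have h2' : addWalk ξ (fun _ => m) ω = z := h2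
          rw [← h2'] at h3
          exact ⟨h1, EE_shift A m h3⟩

/-- **Q1**: if `Dim A > d - α N` then the range meets `A` in an unbounded set almost surely. -/
theorem q1 (hμ : StepLaw μ α) (hN : 1 ≤ N) (hα : α * N < d) (h : IsSteps P μ ξ)
    {A : Set (Fin d → ℤ)} (hA : d - α * N < macroDim A) :
    ∀ᵐ ω ∂P, ¬ Bornology.IsBounded (addRange ξ ω ∩ A) := by
  filter_upwards [EE_ae hμ hN hα h hA] with ω hω hb
  obtain ⟨R, hR⟩ := (Metric.isBounded_iff_subset_closedBall 0).1 hb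
  obtain ⟨K, hK⟩ := pow_unbounded_of_one_lt R (by norm_num : (1:ℝ) < 2)
  rw [EE, Set.mem_iInter] at hω
  obtain ⟨k, hk, x, hx, hxr⟩ := hω K
  rw [sub_zero] at hxr
  have h1 := hR ⟨hxr, hx.1⟩
  rw [mem_closedBall_zero_iff, norm_eq_nrm] at h1
  have h2 : (2:ℝ) ^ k ≤ nrm x := by exact_mod_cast two_pow_le_of_shell hx.2
  have h3 : (2:ℝ) ^ K ≤ 2 ^ k := pow_le_pow_right₀ (by norm_num) hk
  linarith

end Pool.Agent.Helper95.ARW
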