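import Mathlib

set_option autoImplicit false

open MeasureTheory ProbabilityTheory Filter Topology Set
open scoped NNReal ENNReal

namespace Pool.Agent.Helper95.BSDE

universe u

variable {Ω : Type u} {mΩ : MeasurableSpace Ω}

/-- `B = (B 0, B 1)` is a two-dimensional standard Brownian motion under `P`: the coordinates are
standard real Brownian motions (Mathlib's `IsBrownianReal`), independent of each other. -/
structure IsBM2 (B : Fin 2 → ℝ≥0 → Ω → ℝ) (P : Measure Ω) : Prop where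
  meas : ∀ i t, Measurable (B i t)
  bm : ∀ i, IsBrownianReal (B i) P
  indep : IndepFun (fun ω t => B 0 t ω) (fun ω t => B 1 t ω) P

/-- The completed natural filtration of `B`: `𝓕 t` is generated by the `B i s` with `s ≤ t` and by
the measurable `P`-null sets. -/
def augFiltration (B : Fin 2 → ℝ≥0 → Ω → ℝ) (P : Measure Ω) (hB : ∀ i t, Measurable (B i t)) :
    Filtration ℝ≥0 mΩ where
  seq t := (⨆ (i : Fin 2) (s : ℝ≥0) (_ : s ≤ t), MeasurableSpace.comap (B i s) inferInstance) ⊔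
    MeasurableSpace.generateFrom {A | MeasurableSet[mΩ] A ∧ P A = 0}
  mono' := by
    intro s t hst
    refine sup_le_sup (iSup_mono fun i => iSup_mono fun r => ?_) le_rfl
    exact iSup_mono' fun hr => ⟨hr.trans hst, le_rfl⟩
  le' := by
    intro t
    refine sup_le (iSup_le fun i => iSup_le fun r => iSup_le fun _ => (hB i r).comap_le) ?_
    exact MeasurableSpace.generateFrom_le fun A hA => hA.1

/-- An elementary process `η 1_(s, r]`. -/
structure Elem (Ω : Type u) where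
  s : ℝ≥0
  r : ℝ≥0
  η : Ω → ℝ

/-- The elementary process is admissible if `s ≤ r` and `η` is bounded and `𝓕 s`-measurable. -/
def Elem.Adm (𝓕 : Filtration ℝ≥0 mΩ) (e : Elem Ω) : Prop :=
  e.s ≤ e.r ∧ Measurable[𝓕 e.s] e.η ∧ ∃ C : ℝ, ∀ ω, |e.η ω| ≤ C

/-- Value at time `t` of the elementary process. -/
noncomputable def Elem.val (e : Elem Ω) (t : ℝ≥0) (ω : Ω) : ℝ :=
  if e.s < t ∧ t ≤ e.r then e.η ω else 0

/-- Elementary stochastic integral over `(0, t]` with respect to `W`. -/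
noncomputable def Elem.int (W : ℝ≥0 → Ω → ℝ) (e : Elem Ω) (t : ℝ≥0) (ω : Ω) : ℝ :=
  e.η ω * (W (min e.r t) ω - W (min e.s t) ω)

/-- Value of a simple process (a finite sum of elementary processes). -/
noncomputable def sval (l : List (Elem Ω)) (t : ℝ≥0) (ω : Ω) : ℝ := (l.map fun e => e.val t ω).sum

/-- Stochastic integral of a simple process. -/
noncomputable def sint (W : ℝ≥0 → Ω → ℝ) (l : List (Elem Ω)) (t : ℝ≥0) (ω : Ω) : ℝ :=
  (l.map fun e => e.int W t ω).sum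

/-- `M` is (a continuous version of) the Itô integral `∫ H dW` on `[0, T]`: `H` is progressive with
`∫ H² ds < ∞` a.s., `M` is progressive and a.s. continuous, and there are simple processes `S n`
with `∫_0^T (S n - H)² ds → 0` in probability and whose elementary integrals converge in
probability to `M t` for all `t ≤ T`. -/
structure IsItoIntegral (𝓕 : Filtration ℝ≥0 mΩ) (P : Measure Ω) (W : ℝ≥0 → Ω → ℝ) (T : ℝ≥0)
    (H M : ℝ≥0 → Ω → ℝ) : Prop where
  progH : IsProgressive 𝓕 H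
  sq_int : ∀ᵐ ω ∂P, IntervalIntegrable (fun s : ℝ => H s.toNNReal ω ^ 2) volume 0 T
  progM : IsProgressive 𝓕 M
  cont : ∀ᵐ ω ∂P, ContinuousOn (fun t => M t ω) (Icc 0 T)
  approx : ∃ S : ℕ → List (Elem Ω), (∀ n, ∀ e ∈ S n, e.Adm 𝓕) ∧
    TendstoInMeasure P
      (fun n ω => ∫ s in (0:ℝ)..T, (sval (S n) s.toNNReal ω - H s.toNNReal ω) ^ 2)
      atTop (fun _ => 0) ∧
    ∀ t ≤ T, TendstoInMeasure P (fun n ω => sint W (S n) t ω) atTop (M t)

/-- `(Y, Z)` solves, on `[0, T]`, the BSDE with terminal value `ξ` and generator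
`|z 0|² - |z 1|²`. -/
structure IsSolution (𝓕 : Filtration ℝ≥0 mΩ) (P : Measure Ω) (B : Fin 2 → ℝ≥0 → Ω → ℝ) (T : ℝ≥0)
    (ξ : Ω → ℝ) (Y : ℝ≥0 → Ω → ℝ) (Z : Fin 2 → ℝ≥0 → Ω → ℝ) : Prop where
  progY : IsProgressive 𝓕 Y
  contY : ∀ᵐ ω ∂P, ContinuousOn (fun t => Y t ω) (Icc 0 T)
  progZ : ∀ i, IsProgressive 𝓕 (Z i)
  sqZ : ∀ i, ∀ᵐ ω ∂P, IntervalIntegrable (fun s : ℝ => Z i s.toNNReal ω ^ 2) volume 0 T
  eqn : ∃ M : Fin 2 → ℝ≥0 → Ω → ℝ, (∀ i, IsItoIntegral 𝓕 P (B i) T (Z i) (M i)) ∧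
    ∀ᵐ ω ∂P, ∀ t ≤ T, Y t ω = ξ ω
      + (∫ s in (t:ℝ)..T, (Z 0 s.toNNReal ω ^ 2 - Z 1 s.toNNReal ω ^ 2))
      - ((M 0 T ω - M 0 t ω) + (M 1 T ω - M 1 t ω))

/-- The process `X` on `[0, T]` is of class (D): the family of all `X τ`, with `τ` a stopping time
with values in `[0, T]`, is uniformly integrable. -/
def ClassD (𝓕 : Filtration ℝ≥0 mΩ) (P : Measure Ω) (T : ℝ≥0) (X : ℝ≥0 → Ω → ℝ) : Prop :=
  UniformIntegrable
    (fun (τ : {τ : Ω → ℝ≥0 // (∀ t, MeasurableSet[𝓕 t] {ω | τ ω ≤ t}) ∧ ∀ ω, τ ω ≤ T}) (ω : Ω) =>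
      X (τ.1 ω) ω) 1 P

end Pool.Agent.Helper95.BSDE
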