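import Mathlib

set_option autoImplicit false

open MeasureTheory ProbabilityTheory Filter Topology Set
open scoped NNReal ENNReal

namespace Pool.Agent.Helper95.BSDE

/-- Gaussian density with variance `τ`. -/
noncomputable def p (τ : ℝ≥0) (x : ℝ) : ℝ := gaussianPDFReal 0 τ x

/-- Gaussian distribution function with variance `τ`. -/
noncomputable def q (τ : ℝ≥0) (x : ℝ) : ℝ := (gaussianReal 0 τ).real (Iic x)

lemma q_nonneg (τ : ℝ≥0) (x : ℝ) : 0 ≤ q τ x := measureReal_nonneg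

lemma q_le_one (τ : ℝ≥0) (x : ℝ) : q τ x ≤ 1 := measureReal_le_one

lemma p_nonneg (τ : ℝ≥0) (x : ℝ) : 0 ≤ p τ x := gaussianPDFReal_nonneg _ _ _

lemma p_eq (τ : ℝ≥0) (x : ℝ) :
    p τ x = (√(2 * Real.pi * τ))⁻¹ * Real.exp (-(x ^ 2 / (2 * τ))) := by
  simp only [p, gaussianPDFReal, sub_zero]
  congr 2
  ring

lemma p_zero (x : ℝ) : p 0 x = 0 := by simp [p]

lemma continuous_p (τ : ℝ≥0) : Continuous (p τ) := by
  have : p τ = fun x => (√(2 * Real.pi * τ))⁻¹ * Real.exp (-(x ^ 2 / (2 * τ))) := by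
    ext x; exact p_eq τ x
  rw [this]
  fun_prop

lemma q_sub (τ : ℝ≥0) (hτ : τ ≠ 0) {x y : ℝ} (h : x ≤ y) :
    q τ y - q τ x = ∫ u in x..y, p τ u := by
  have h1 : Iic y \ Iic x = Ioc x y := by
    ext z; simp [and_comm]
  have h2 : (gaussianReal 0 τ).real (Ioc x y) = q τ y - q τ x := by
    rw [← h1, measureReal_sdiff (Iic_subset_Iic.2 h) measurableSet_Iic]
    rfl
  rw [← h2, intervalIntegral.integral_of_le h, measureReal_def, gaussianReal_apply_eq_integral _ hτ,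
    ENNReal.toReal_ofReal]
  · rfl
  · exact integral_nonneg fun u => gaussianPDFReal_nonneg _ _ _

lemma q_sub' (τ : ℝ≥0) (hτ : τ ≠ 0) (x y : ℝ) :
    q τ y - q τ x = ∫ u in x..y, p τ u := by
  rcases le_total x y with h | h
  · exact q_sub τ hτ h
  · rw [intervalIntegral.integral_symm, ← q_sub τ hτ h]; ring

lemma hasDerivAt_q (τ : ℝ≥0) (hτ : τ ≠ 0) (x : ℝ) : HasDerivAt (q τ) (p τ x) x := by
  have h1 : q τ = fun y => q τ 0 + ∫ u in (0:ℝ)..y, p τ u := by
    ext y; rw [← q_sub' τ hτ 0 y]; ring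
  rw [h1]
  have := intervalIntegral.integral_hasDerivAt_right
    ((continuous_p τ).intervalIntegrable 0 x)
    ((continuous_p τ).stronglyMeasurableAtFilter _ _) (continuous_p τ).continuousAt
  simpa using this.const_add (q τ 0)

lemma q_zero_right (τ : ℝ≥0) (hτ : τ ≠ 0) : q τ 0 = 1 / 2 := by
  have hsymm : (gaussianReal 0 τ).real (Ici 0) = (gaussianReal 0 τ).real (Iic 0) := by
    have h := gaussianReal_map_neg (μ := 0) (v := τ)
    rw [neg_zero] at h
    have h2 : (gaussianReal 0 τ).real (Ici 0) = ((gaussianReal 0 τ).map (fun x => -x)).real (Ici 0) := by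
      rw [h]
    rw [h2, map_measureReal_apply measurable_neg measurableSet_Ici]
    congr 1
    ext x; simp
  have := nullSingletonClass_gaussianReal (μ := 0) hτ
  have hIoi : (gaussianReal 0 τ).real (Ioi 0) = (gaussianReal 0 τ).real (Ici 0) := by
    rw [measureReal_def, measureReal_def, measure_congr Ioi_ae_eq_Ici]
  have htot : (gaussianReal 0 τ).real (Iic 0) + (gaussianReal 0 τ).real (Ioi 0) = 1 := by
    rw [← measureReal_union (by rw [Set.disjoint_left]; intro x; simp) measurableSet_Ioi,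
      Iic_union_Ioi]
    simp
  rw [q]
  linarith

/-- `q` at variance `0`. -/
lemma q_zero_var (x : ℝ) : q 0 x = if 0 ≤ x then 1 else 0 := by
  rw [q, gaussianReal_zero_var, measureReal_def]
  by_cases h : 0 ≤ x
  · simp [h]
  · simp [h]

/-- semigroup property -/
lemma q_semigroup (τ δ : ℝ≥0) (x : ℝ) :
    ∫ u, q τ (x + u) ∂(gaussianReal 0 δ) = q (τ + δ) x := by
  have h1 : q (τ + δ) x = ((gaussianReal 0 τ) ∗ (gaussianReal 0 δ)).real (Iic x) := by
    rw [q, gaussianReal_conv_gaussianReal, add_zero]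
  have hneg : ∫ u, q τ (x + u) ∂(gaussianReal 0 δ) = ∫ u, q τ (x - u) ∂(gaussianReal 0 δ) := by
    have h := gaussianReal_map_neg (μ := 0) (v := δ)
    rw [neg_zero] at h
    conv_lhs => rw [← h]
    rw [integral_map measurable_neg.aemeasurable]
    · rfl
    · have : Measurable fun u => q τ (x + u) := by
        have hm : Monotone (q τ) := fun a b hab => measureReal_mono (Iic_subset_Iic.2 hab)
        exact hm.measurable.comp (measurable_const_add x)
      exact this.aestronglyMeasurable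
  rw [hneg, h1]
  rw [measureReal_def, Measure.conv, Measure.map_apply (by fun_prop) measurableSet_Iic,
    Measure.prod_apply_symm (measurableSet_Iic.preimage (by fun_prop))]
  rw [← integral_toReal]
  · refine integral_congr_ae (ae_of_all _ fun u => ?_)
    simp only [q, measureReal_def]
    congr 2
    ext v
    simp [le_sub_iff_add_le]
  · exact (measurable_measure_prodMk_right
      (measurableSet_Iic.preimage (by fun_prop))).aemeasurable
  · exact ae_of_all _ fun u => measure_lt_top _ _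


lemma mul_exp_neg_le (z : ℝ) : z * Real.exp (-z) ≤ 1 := by
  rw [Real.exp_neg, ← div_eq_mul_inv, div_le_one (Real.exp_pos z)]
  linarith [Real.add_one_le_exp z]

/-- Uniform bound for `p`. -/
lemma p_le {ε τ : ℝ≥0} (hε : 0 < ε) (hτ : ε ≤ τ) (x : ℝ) : p τ x ≤ (√(2 * Real.pi * ε))⁻¹ := by
  rw [p_eq]
  have h1 : (0 : ℝ) < ε := hε
  have h2 : (ε : ℝ) ≤ τ := hτ
  have h3 : Real.exp (-(x ^ 2 / (2 * τ))) ≤ 1 := by
    rw [Real.exp_le_one_iff]
    have : 0 ≤ x ^ 2 / (2 * (τ : ℝ)) := by positivity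
    linarith
  have h4 : (√(2 * Real.pi * τ))⁻¹ ≤ (√(2 * Real.pi * ε))⁻¹ := by
    apply inv_anti₀ (by positivity)
    apply Real.sqrt_le_sqrt
    gcongr
  calc (√(2 * Real.pi * τ))⁻¹ * Real.exp (-(x ^ 2 / (2 * τ))) ≤ (√(2 * Real.pi * τ))⁻¹ * 1 :=
        mul_le_mul_of_nonneg_left h3 (by positivity)
    _ ≤ _ := by rw [mul_one]; exact h4

/-- Lipschitz bound for `p` in space. -/
lemma p_lip_space {ε τ : ℝ≥0} (hε : 0 < ε) (hτ : ε ≤ τ) (x y : ℝ) :
    |p τ x - p τ y| ≤ (√(2 * Real.pi * ε))⁻¹ * (1 + 1 / (ε:ℝ)) * |x - y| := by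
  have h1 : (0 : ℝ) < ε := hε
  have h2 : (ε : ℝ) ≤ τ := hτ
  have hτ0 : (0 : ℝ) < τ := h1.trans_le h2
  have hfun : p τ = fun x => (√(2 * Real.pi * τ))⁻¹ * Real.exp (-(x ^ 2 / (2 * τ))) := by
    ext x; exact p_eq τ x
  have hder : ∀ z, HasDerivAt (p τ) (-(z / τ) * p τ z) z := by
    intro z
    rw [p_eq, hfun]
    have h3 : HasDerivAt (fun x : ℝ => -(x ^ 2 / (2 * (τ:ℝ)))) (-(z / τ)) z := by
      have := ((hasDerivAt_pow 2 z).div_const (2 * (τ:ℝ))).neg
      convert! this using 1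
      field_simp
      norm_num
      ring
    have := (h3.exp).const_mul ((√(2 * Real.pi * τ))⁻¹)
    convert! this using 1
    ring
  have hbound : ∀ z, ‖-(z / τ) * p τ z‖ ≤ (√(2 * Real.pi * ε))⁻¹ * (1 + 1 / (ε:ℝ)) := by
    intro z
    rw [Real.norm_eq_abs, abs_mul, abs_neg, abs_of_nonneg (p_nonneg τ z), p_eq]
    have h4 : |z / τ| ≤ (1 + z ^ 2 / (2 * τ)) * (1 + 1 / (ε:ℝ)) := by
      rw [abs_div, abs_of_pos hτ0, div_le_iff₀ hτ0]
      have h5 : |z| ≤ (τ + z ^ 2 / 2) * (1 + 1 / (ε:ℝ)) := by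
        have h6 : |z| ≤ (1 + z ^ 2) / 2 := by
          have := sq_nonneg (|z| - 1)
          have h7 : |z| ^ 2 = z ^ 2 := sq_abs z
          nlinarith
        have h8 : (1:ℝ) ≤ τ * (1 / ε) := by
          rw [mul_one_div, le_div_iff₀ h1]; linarith
        have h9 : 0 ≤ 1 / (ε:ℝ) := by positivity
        nlinarith [sq_nonneg z, mul_nonneg (sq_nonneg z) h9, hτ0]
      have : (1 + z ^ 2 / (2 * τ)) * (1 + 1 / (ε:ℝ)) * τ = (τ + z ^ 2 / 2) * (1 + 1 / (ε:ℝ)) := by
        field_simp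
      rw [this]; exact h5
    have h5 : (1 + z ^ 2 / (2 * τ)) * Real.exp (-(z ^ 2 / (2 * τ))) ≤ 1 := by
      rw [Real.exp_neg, ← div_eq_mul_inv, div_le_one (Real.exp_pos _)]
      linarith [Real.add_one_le_exp (z ^ 2 / (2 * (τ:ℝ)))]
    have h6 : (√(2 * Real.pi * τ))⁻¹ ≤ (√(2 * Real.pi * ε))⁻¹ := by
      apply inv_anti₀ (by positivity)
      apply Real.sqrt_le_sqrt
      gcongr
    calc |z / τ| * ((√(2 * Real.pi * τ))⁻¹ * Real.exp (-(z ^ 2 / (2 * τ))))
        ≤ (1 + z ^ 2 / (2 * τ)) * (1 + 1 / (ε:ℝ)) *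
            ((√(2 * Real.pi * τ))⁻¹ * Real.exp (-(z ^ 2 / (2 * τ)))) :=
          mul_le_mul_of_nonneg_right h4 (by positivity)
      _ = (√(2 * Real.pi * τ))⁻¹ * (1 + 1 / (ε:ℝ)) *
            ((1 + z ^ 2 / (2 * τ)) * Real.exp (-(z ^ 2 / (2 * τ)))) := by ring
      _ ≤ (√(2 * Real.pi * τ))⁻¹ * (1 + 1 / (ε:ℝ)) * 1 :=
          mul_le_mul_of_nonneg_left h5 (by positivity)
      _ ≤ _ := by rw [mul_one]; exact mul_le_mul_of_nonneg_right h6 (by positivity)
  have := Convex.norm_image_sub_le_of_norm_hasDerivWithin_le (s := univ) (f := p τ)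
    (fun z _ => (hder z).hasDerivWithinAt) (fun z _ => hbound z) convex_univ
    (mem_univ y) (mem_univ x)
  simpa [Real.norm_eq_abs] using this

/-- Lipschitz bound for `p` in time. -/
lemma p_lip_time {ε τ σ : ℝ≥0} (hε : 0 < ε) (hτ : ε ≤ τ) (hσ : ε ≤ σ) (x : ℝ) :
    |p τ x - p σ x| ≤ (√(2 * Real.pi * ε))⁻¹ * (3 / (2 * (ε:ℝ))) * |(τ:ℝ) - σ| := by
  have h1 : (0 : ℝ) < ε := hε
  set F : ℝ → ℝ := fun t => (√(2 * Real.pi * t))⁻¹ * Real.exp (-(x ^ 2 / (2 * t))) with hF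
  have hder : ∀ t ∈ Ici (ε : ℝ), HasDerivWithinAt F (F t * (x ^ 2 / (2 * t ^ 2) - 1 / (2 * t)))
      (Ici (ε:ℝ)) t := by
    intro t ht
    have ht0 : 0 < t := h1.trans_le ht
    apply HasDerivAt.hasDerivWithinAt
    have ha : HasDerivAt (fun t : ℝ => 2 * Real.pi * t) (2 * Real.pi) t := by
      simpa using (hasDerivAt_id t).const_mul (2 * Real.pi)
    have hb : HasDerivAt (fun t : ℝ => √(2 * Real.pi * t))
        ((2 * Real.pi) / (2 * √(2 * Real.pi * t))) t := ha.sqrt (by positivity)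
    have hc := hb.inv (by positivity)
    have hd : HasDerivAt (fun t : ℝ => -(x ^ 2 / (2 * t))) (x ^ 2 / (2 * t ^ 2)) t := by
      have h3 : HasDerivAt (fun t : ℝ => 2 * t) 2 t := by
        simpa using (hasDerivAt_id t).const_mul (2:ℝ)
      have := ((hasDerivAt_const t (x ^ 2)).div h3 (by positivity)).neg
      convert! this using 1
      field_simp
      ring
    have he := hc.mul hd.exp
    convert! he using 1
    simp only [hF, Pi.inv_apply]
    have hs : √(2 * Real.pi * t) ^ 2 = 2 * Real.pi * t := Real.sq_sqrt (by positivity)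
    have hs0 : 0 < √(2 * Real.pi * t) := Real.sqrt_pos.2 (by positivity)
    rw [hs]
    field_simp
    ring
  have hbound : ∀ t ∈ Ici (ε : ℝ), ‖F t * (x ^ 2 / (2 * t ^ 2) - 1 / (2 * t))‖ ≤
      (√(2 * Real.pi * ε))⁻¹ * (3 / (2 * (ε:ℝ))) := by
    intro t ht
    have ht' : (ε:ℝ) ≤ t := ht
    have ht0 : 0 < t := h1.trans_le ht
    have h6 : (√(2 * Real.pi * t))⁻¹ ≤ (√(2 * Real.pi * ε))⁻¹ := by
      apply inv_anti₀ (by positivity)
      apply Real.sqrt_le_sqrt
      gcongr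
    rw [Real.norm_eq_abs, abs_mul]
    have hFn : 0 ≤ F t := by simp only [hF]; positivity
    rw [abs_of_nonneg hFn]
    have h7 : |x ^ 2 / (2 * t ^ 2) - 1 / (2 * t)| ≤ x ^ 2 / (2 * t ^ 2) + 1 / (2 * t) := by
      refine (abs_sub _ _).trans (le_of_eq ?_)
      rw [abs_of_nonneg (by positivity), abs_of_nonneg (by positivity)]
    have h8 : Real.exp (-(x ^ 2 / (2 * t))) * (x ^ 2 / (2 * t ^ 2) + 1 / (2 * t)) ≤ 3 / (2 * (ε:ℝ)) := by
      have e1 : Real.exp (-(x ^ 2 / (2 * t))) * (x ^ 2 / (2 * t ^ 2) + 1 / (2 * t)) =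
          (x ^ 2 / (2 * t) * Real.exp (-(x ^ 2 / (2 * t)))) * (1 / t) +
            Real.exp (-(x ^ 2 / (2 * t))) * (1 / (2 * t)) := by
        field_simp
      rw [e1]
      have e2 := mul_exp_neg_le (x ^ 2 / (2 * t))
      have e3 : Real.exp (-(x ^ 2 / (2 * t))) ≤ 1 := by
        rw [Real.exp_le_one_iff]
        have : 0 ≤ x ^ 2 / (2 * t) := by positivity
        linarith
      have e4 : 1 / t ≤ 1 / (ε:ℝ) := one_div_le_one_div_of_le h1 ht'
      have e5 : 0 ≤ 1 / t := by positivity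
      have e6 : 1 / (2 * t) = (1 / 2) * (1 / t) := by field_simp
      have e7 : 3 / (2 * (ε:ℝ)) = 1 / ε + (1 / 2) * (1 / ε) := by field_simp; ring
      rw [e6, e7]
      have e8 : (x ^ 2 / (2 * t) * Real.exp (-(x ^ 2 / (2 * t)))) * (1 / t) ≤ 1 * (1 / t) :=
        mul_le_mul_of_nonneg_right e2 e5
      have e9 : Real.exp (-(x ^ 2 / (2 * t))) * ((1 / 2) * (1 / t)) ≤ 1 * ((1 / 2) * (1 / t)) :=
        mul_le_mul_of_nonneg_right e3 (by positivity)
      linarith
    calc F t * |x ^ 2 / (2 * t ^ 2) - 1 / (2 * t)|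
        ≤ F t * (x ^ 2 / (2 * t ^ 2) + 1 / (2 * t)) := mul_le_mul_of_nonneg_left h7 hFn
      _ = (√(2 * Real.pi * t))⁻¹ *
            (Real.exp (-(x ^ 2 / (2 * t))) * (x ^ 2 / (2 * t ^ 2) + 1 / (2 * t))) := by
          simp only [hF]; ring
      _ ≤ (√(2 * Real.pi * ε))⁻¹ * (3 / (2 * (ε:ℝ))) := by
          apply mul_le_mul h6 h8 (by positivity) (by positivity)
  have := Convex.norm_image_sub_le_of_norm_hasDerivWithin_le (s := Ici (ε:ℝ)) (f := F)
    hder hbound (convex_Ici _) (show (σ:ℝ) ∈ Ici (ε:ℝ) from hσ) (show (τ:ℝ) ∈ Ici (ε:ℝ) from hτ)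
  simpa [hF, ← p_eq, Real.norm_eq_abs] using this


/-- Second order Taylor bound for `q` in space. -/
lemma q_taylor {ε τ : ℝ≥0} (hε : 0 < ε) (hτ : ε ≤ τ) (x y : ℝ) :
    |q τ y - q τ x - p τ x * (y - x)| ≤
      (√(2 * Real.pi * ε))⁻¹ * (1 + 1 / (ε:ℝ)) * (y - x) ^ 2 := by
  have hτ0 : τ ≠ 0 := (hε.trans_le hτ).ne'
  have h1 : q τ y - q τ x - p τ x * (y - x) = ∫ u in x..y, (p τ u - p τ x) := by
    rw [intervalIntegral.integral_sub ((continuous_p τ).intervalIntegrable _ _) (by simp),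
      ← q_sub' τ hτ0 x y]
    simp [mul_comm]
  rw [h1]
  have h2 := intervalIntegral.norm_integral_le_of_norm_le_const (a := x) (b := y)
    (f := fun u => p τ u - p τ x)
    (C := (√(2 * Real.pi * ε))⁻¹ * (1 + 1 / (ε:ℝ)) * |y - x|) ?_
  · rw [Real.norm_eq_abs] at h2
    refine h2.trans (le_of_eq ?_)
    rw [mul_assoc, ← pow_two, sq_abs]
  · intro u hu
    rw [Real.norm_eq_abs]
    refine (p_lip_space hε hτ u x).trans ?_
    have hu' : |u - x| ≤ |y - x| := by
      rw [uIoc] at hu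
      rcases le_total x y with hxy | hxy
      · rw [min_eq_left hxy, max_eq_right hxy] at hu
        rw [abs_of_nonneg (by linarith [hu.1]), abs_of_nonneg (by linarith)]
        linarith [hu.2]
      · rw [min_eq_right hxy, max_eq_left hxy] at hu
        rw [abs_of_nonpos (by linarith [hu.2]), abs_of_nonpos (by linarith)]
        linarith [hu.1]
    exact mul_le_mul_of_nonneg_left hu' (by positivity)

/-- `q` is Lipschitz in space. -/
lemma q_lip_space {ε τ : ℝ≥0} (hε : 0 < ε) (hτ : ε ≤ τ) (x y : ℝ) :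
    |q τ x - q τ y| ≤ (√(2 * Real.pi * ε))⁻¹ * |x - y| := by
  have hτ0 : τ ≠ 0 := (hε.trans_le hτ).ne'
  have := Convex.norm_image_sub_le_of_norm_hasDerivWithin_le (s := univ) (f := q τ)
    (fun z _ => (hasDerivAt_q τ hτ0 z).hasDerivWithinAt)
    (C := (√(2 * Real.pi * ε))⁻¹)
    (fun z _ => by rw [Real.norm_eq_abs, abs_of_nonneg (p_nonneg _ _)]; exact p_le hε hτ z)
    convex_univ (mem_univ y) (mem_univ x)
  simpa [Real.norm_eq_abs] using this

lemma integral_sq_gaussian (δ : ℝ≥0) : ∫ u, u ^ 2 ∂(gaussianReal 0 δ) = δ := by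
  have h := variance_id_gaussianReal (μ := 0) (v := δ)
  rw [variance_eq_integral (by fun_prop)] at h
  simpa using h

lemma integrable_pow_gaussian (δ : ℝ≥0) (k : ℕ) :
    Integrable (fun u : ℝ => u ^ k) (gaussianReal 0 δ) := by
  by_cases hk : k = 0
  · subst hk; simp
  · have h := (memLp_id_gaussianReal (μ := 0) (v := δ) (k : ℝ≥0)).integrable_norm_pow hk
    refine (integrable_norm_iff (by fun_prop)).1 ?_
    simpa [norm_pow] using h

lemma monotone_q (τ : ℝ≥0) : Monotone (q τ) := fun _ _ hab => measureReal_mono (Iic_subset_Iic.2 hab)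

lemma measurable_q (τ : ℝ≥0) : Measurable (q τ) := (monotone_q τ).measurable

/-- `q` is Lipschitz in time. -/
lemma q_lip_time_aux {ε τ δ : ℝ≥0} (hε : 0 < ε) (hτ : ε ≤ τ) (x : ℝ) :
    |q (τ + δ) x - q τ x| ≤ (√(2 * Real.pi * ε))⁻¹ * (1 + 1 / (ε:ℝ)) * δ := by
  have hint : Integrable (fun u => q τ (x + u)) (gaussianReal 0 δ) := by
    refine Integrable.of_bound ((measurable_q τ).comp (measurable_const_add x)).aestronglyMeasurable
      1 (ae_of_all _ fun u => ?_)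
    rw [Real.norm_eq_abs, abs_of_nonneg (q_nonneg _ _)]
    exact q_le_one _ _
  have hid : Integrable (fun u : ℝ => p τ x * u) (gaussianReal 0 δ) := by
    have := integrable_pow_gaussian δ 1
    simp only [pow_one] at this
    exact this.const_mul _
  have h1 : q (τ + δ) x - q τ x =
      ∫ u, (q τ (x + u) - q τ x - p τ x * u) ∂(gaussianReal 0 δ) := by
    have ha : ∫ u, (q τ (x + u) - q τ x - p τ x * u) ∂(gaussianReal 0 δ) =
        ∫ u, (q τ (x + u) - q τ x) ∂(gaussianReal 0 δ) - ∫ u, p τ x * u ∂(gaussianReal 0 δ) :=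
      integral_sub (hint.sub (integrable_const _)) hid
    rw [ha, integral_sub hint (integrable_const _),
      q_semigroup, integral_const_mul, integral_id_gaussianReal]
    simp
  rw [h1]
  calc |∫ u, (q τ (x + u) - q τ x - p τ x * u) ∂(gaussianReal 0 δ)|
      ≤ ∫ u, |q τ (x + u) - q τ x - p τ x * u| ∂(gaussianReal 0 δ) := abs_integral_le_integral_abs
    _ ≤ ∫ u, (√(2 * Real.pi * ε))⁻¹ * (1 + 1 / (ε:ℝ)) * u ^ 2 ∂(gaussianReal 0 δ) := by
        refine integral_mono_of_nonneg (ae_of_all _ fun u => abs_nonneg _)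
          ((integrable_pow_gaussian δ 2).const_mul _) (ae_of_all _ fun u => ?_)
        have := q_taylor hε hτ x (x + u)
        simpa using this
    _ = _ := by rw [integral_const_mul, integral_sq_gaussian]

lemma q_lip_time {ε τ σ : ℝ≥0} (hε : 0 < ε) (hτ : ε ≤ τ) (hσ : ε ≤ σ) (x : ℝ) :
    |q τ x - q σ x| ≤ (√(2 * Real.pi * ε))⁻¹ * (1 + 1 / (ε:ℝ)) * |(τ:ℝ) - σ| := by
  rcases le_total τ σ with h | h
  · obtain ⟨δ, rfl⟩ := exists_add_of_le h
    rw [abs_sub_comm]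
    refine (q_lip_time_aux hε hτ x).trans (le_of_eq ?_)
    congr 1
    push_cast
    rw [abs_sub_comm]
    simp
  · obtain ⟨δ, rfl⟩ := exists_add_of_le h
    refine (q_lip_time_aux hε hσ x).trans (le_of_eq ?_)
    congr 1
    push_cast
    simp

/-- Chebyshev bound on the right. -/
lemma one_sub_q_le (τ : ℝ≥0) {x : ℝ} (hx : 0 < x) : 1 - q τ x ≤ τ / x ^ 2 := by
  have h1 : 1 - q τ x = (gaussianReal 0 τ).real (Ioi x) := by
    have : (gaussianReal 0 τ).real (Iic x) + (gaussianReal 0 τ).real (Ioi x) = 1 := by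
      rw [← measureReal_union (by rw [Set.disjoint_left]; intro x; simp) measurableSet_Ioi,
        Iic_union_Ioi]
      simp
    rw [q]; linarith
  rw [h1]
  have h2 := mul_meas_ge_le_integral_of_nonneg (μ := gaussianReal 0 τ)
    (f := fun u : ℝ => u ^ 2) (ae_of_all _ fun u => sq_nonneg u) (integrable_pow_gaussian τ 2) (x ^ 2)
  rw [integral_sq_gaussian] at h2
  have h3 : (gaussianReal 0 τ).real (Ioi x) ≤ (gaussianReal 0 τ).real {u : ℝ | x ^ 2 ≤ u ^ 2} := by
    refine measureReal_mono (fun u hu => ?_) (measure_ne_top _ _)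
    have hu' : x < u := hu
    change x ^ 2 ≤ u ^ 2
    nlinarith
  rw [le_div_iff₀ (by positivity)]
  nlinarith [sq_nonneg x]

/-- Chebyshev bound on the left. -/
lemma q_le_of_neg (τ : ℝ≥0) {x : ℝ} (hx : x < 0) : q τ x ≤ τ / x ^ 2 := by
  have h2 := mul_meas_ge_le_integral_of_nonneg (μ := gaussianReal 0 τ)
    (f := fun u : ℝ => u ^ 2) (ae_of_all _ fun u => sq_nonneg u) (integrable_pow_gaussian τ 2) (x ^ 2)
  rw [integral_sq_gaussian] at h2
  have h3 : (gaussianReal 0 τ).real (Iic x) ≤ (gaussianReal 0 τ).real {u : ℝ | x ^ 2 ≤ u ^ 2} := by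
    refine measureReal_mono (fun u hu => ?_) (measure_ne_top _ _)
    have hu' : u ≤ x := hu
    change x ^ 2 ≤ u ^ 2
    nlinarith
  have hx2 : 0 < x ^ 2 := by nlinarith
  rw [q, le_div_iff₀ hx2]
  nlinarith [sq_nonneg x]

/-- The density tends to `0` away from the origin when the variance vanishes. -/
lemma p_mul_sq_le (τ : ℝ≥0) (x : ℝ) : p τ x * x ^ 2 ≤ 2 * √(τ:ℝ) := by
  rcases eq_or_ne τ 0 with rfl | hτ
  · simp [p_zero]
  have h1 : (0:ℝ) < τ := by positivity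
  rw [p_eq]
  have h2 := mul_exp_neg_le (x ^ 2 / (2 * (τ:ℝ)))
  have h3 : (√(2 * Real.pi * τ))⁻¹ ≤ (√(τ:ℝ))⁻¹ := by
    apply inv_anti₀ (by positivity)
    apply Real.sqrt_le_sqrt
    have := Real.pi_gt_three
    nlinarith
  have h4 : (√(τ:ℝ))⁻¹ * (2 * τ) = 2 * √(τ:ℝ) := by
    have h6 : √(τ:ℝ) * √(τ:ℝ) = τ := Real.mul_self_sqrt h1.le
    have h5 : √(τ:ℝ) ≠ 0 := by positivity
    rw [inv_mul_eq_div, div_eq_iff h5, mul_assoc, h6]
  calc (√(2 * Real.pi * τ))⁻¹ * Real.exp (-(x ^ 2 / (2 * τ))) * x ^ 2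
      = (√(2 * Real.pi * τ))⁻¹ * (2 * τ) * (x ^ 2 / (2 * (τ:ℝ)) * Real.exp (-(x ^ 2 / (2 * τ)))) := by
        field_simp
    _ ≤ (√(2 * Real.pi * τ))⁻¹ * (2 * τ) * 1 := mul_le_mul_of_nonneg_left h2 (by positivity)
    _ ≤ (√(τ:ℝ))⁻¹ * (2 * τ) := by
        rw [mul_one]; exact mul_le_mul_of_nonneg_right h3 (by positivity)
    _ = _ := h4

lemma measurable_p_uncurry : Measurable (fun z : ℝ≥0 × ℝ => p z.1 z.2) := by
  have := measurable_uncurry_gaussianPDFReal
  exact this.comp (f := fun z : ℝ≥0 × ℝ => ((0:ℝ), z.1, z.2)) (by fun_prop)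

lemma measurable_q_uncurry : Measurable (fun z : ℝ≥0 × ℝ => q z.1 z.2) := by
  have h1 : Measurable (fun τ : ℝ≥0 => gaussianReal 0 τ) :=
    measurable_gaussianReal.comp (f := fun τ : ℝ≥0 => ((0:ℝ), τ)) (by fun_prop)
  let κ : Kernel ℝ≥0 ℝ := ⟨fun τ => gaussianReal 0 τ, h1⟩
  have : IsMarkovKernel κ := ⟨fun τ => by change IsProbabilityMeasure (gaussianReal 0 τ); infer_instance⟩
  let κ' : Kernel (ℝ≥0 × ℝ) ℝ := κ.comap Prod.fst measurable_fst
  have h2 : MeasurableSet {z : (ℝ≥0 × ℝ) × ℝ | z.2 ≤ z.1.2} :=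
    measurableSet_le measurable_snd (measurable_snd.comp measurable_fst)
  have h3 := Kernel.measurable_kernel_prodMk_left (κ := κ') h2
  exact h3.ennreal_toReal

end Pool.Agent.Helper95.BSDE


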