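import Mathlib
import Pool.Agent.Helper95.BSDEGauss

set_option autoImplicit false

open MeasureTheory ProbabilityTheory Filter Topology Set
open scoped NNReal ENNReal

namespace Pool.Agent.Helper95.BSDE

/-- `|log (1+r) - r + r²/2| ≤ |r|³/c` when `1 + r ≥ c`, `0 < c ≤ 1`. -/
lemma log_taylor {c r : ℝ} (hc0 : 0 < c) (hc1 : c ≤ 1) (hr : c ≤ 1 + r) :
    |Real.log (1 + r) - r + r ^ 2 / 2| ≤ |r| ^ 3 / c := by
  set φ : ℝ → ℝ := fun t => Real.log (1 + t) - t + t ^ 2 / 2 with hφ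
  have hpos : ∀ t ∈ uIcc 0 r, c ≤ 1 + t := by
    intro t ht
    rw [mem_uIcc] at ht
    rcases ht with ht | ht <;> linarith [ht.1, ht.2]
  have hder : ∀ t ∈ uIcc 0 r, HasDerivWithinAt φ (t ^ 2 / (1 + t)) (uIcc 0 r) t := by
    intro t ht
    have h1 : 0 < 1 + t := hc0.trans_le (hpos t ht)
    apply HasDerivAt.hasDerivWithinAt
    have ha : HasDerivAt (fun t : ℝ => Real.log (1 + t)) (1 / (1 + t)) t := by
      have := ((hasDerivAt_id t).const_add 1).log (by simpa using h1.ne')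
      simpa using this
    have hb : HasDerivAt (fun t : ℝ => t ^ 2 / 2) t t := by
      have := (hasDerivAt_pow 2 t).div_const 2
      convert! this using 1
      norm_num
    have := (ha.sub (hasDerivAt_id t)).add hb
    convert! this using 1
    field_simp
    ring
  have hbound : ∀ t ∈ uIcc 0 r, ‖t ^ 2 / (1 + t)‖ ≤ r ^ 2 / c := by
    intro t ht
    have h1 := hpos t ht
    have h2 : t ^ 2 ≤ r ^ 2 := by
      rw [mem_uIcc] at ht
      rcases ht with ht | ht <;> nlinarith [ht.1, ht.2]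
    rw [Real.norm_eq_abs, abs_of_nonneg (div_nonneg (sq_nonneg t) (by linarith))]
    exact div_le_div₀ (sq_nonneg r) h2 hc0 h1
  have := Convex.norm_image_sub_le_of_norm_hasDerivWithin_le hder hbound (convex_uIcc 0 r)
    left_mem_uIcc right_mem_uIcc
  simp only [hφ, Real.norm_eq_abs] at this
  norm_num at this
  calc |Real.log (1 + r) - r + r ^ 2 / 2| ≤ r ^ 2 / c * |r| := this
    _ = |r| ^ 3 / c := by rw [← sq_abs]; ring

lemma integral_comb {μ : Measure ℝ} [IsProbabilityMeasure μ] {f g k : ℝ → ℝ}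
    (hf : Integrable f μ) (hg : Integrable g μ) (hk : Integrable k μ) (a b c d : ℝ) :
    ∫ x, (a * f x + b * g x + c * k x + d) ∂μ
      = a * ∫ x, f x ∂μ + b * ∫ x, g x ∂μ + c * ∫ x, k x ∂μ + d := by
  have h1 : ∫ x, (a * f x + b * g x + c * k x + d) ∂μ
      = ∫ x, (a * f x + b * g x + c * k x) ∂μ + ∫ x, d ∂μ :=
    integral_add (((hf.const_mul a).add (hg.const_mul b)).add (hk.const_mul c)) (integrable_const d)
  have h2 : ∫ x, (a * f x + b * g x + c * k x) ∂μ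
      = ∫ x, (a * f x + b * g x) ∂μ + ∫ x, c * k x ∂μ :=
    integral_add ((hf.const_mul a).add (hg.const_mul b)) (hk.const_mul c)
  have h3 : ∫ x, (a * f x + b * g x) ∂μ = ∫ x, a * f x ∂μ + ∫ x, b * g x ∂μ :=
    integral_add (hf.const_mul a) (hg.const_mul b)
  rw [h1, h2, h3, integral_const_mul, integral_const_mul, integral_const_mul]
  simp

/-- The exponential of twice the solution in a stage, as a function of remaining time and space. -/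
noncomputable def NN (w y : ℝ) (τ : ℝ≥0) (x : ℝ) : ℝ := w + (y - w) * q τ x

/-- Logarithmic derivative of `NN`. -/
noncomputable def Gm (w y : ℝ) (τ : ℝ≥0) (x : ℝ) : ℝ := (y - w) * p τ x / NN w y τ x

/-- Martingale part of the one step expansion. -/
noncomputable def mst (w y : ℝ) (τ δ : ℝ≥0) (x ξ : ℝ) : ℝ :=
  (NN w y τ (x + ξ) - NN w y (τ + δ) x - (y - w) * p (τ + δ) x * ξ) / NN w y (τ + δ) x
    - 1 / 2 * Gm w y (τ + δ) x ^ 2 * (ξ ^ 2 - δ)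

/-- Remainder of the one step expansion. -/
noncomputable def rst (w y : ℝ) (τ δ : ℝ≥0) (x ξ : ℝ) : ℝ :=
  Real.log (NN w y τ (x + ξ)) - Real.log (NN w y (τ + δ) x) - Gm w y (τ + δ) x * ξ
    + 1 / 2 * Gm w y (τ + δ) x ^ 2 * δ - mst w y τ δ x ξ

/-- Constants controlling one stage up to remaining time `ε`. -/
structure Bd (w y : ℝ) (ε : ℝ≥0) (K : ℝ) : Prop where
  one_le : 1 ≤ K
  eps : 0 < ε
  h1 : (√(2 * Real.pi * ε))⁻¹ * (1 + 1 / (ε:ℝ)) ≤ K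
  h2 : (√(2 * Real.pi * ε))⁻¹ * (3 / (2 * (ε:ℝ))) ≤ K
  w1 : 1 / K ≤ w
  w2 : w ≤ K
  y1 : 1 / K ≤ y
  y2 : y ≤ K

section
variable {w y : ℝ} {ε : ℝ≥0} {K : ℝ} (h : Bd w y ε K)
include h

lemma Bd.h3 : (√(2 * Real.pi * ε))⁻¹ ≤ K := by
  have h1 : (0:ℝ) < ε := h.eps
  refine le_trans ?_ h.h1
  have : (1:ℝ) ≤ 1 + 1 / ε := by
    have : 0 < 1 / (ε:ℝ) := by positivity
    linarith
  nlinarith [show 0 ≤ (√(2 * Real.pi * ε))⁻¹ by positivity]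

lemma Bd.Kpos : 0 < K := by linarith [h.one_le]

lemma Bd.NN_ge (τ : ℝ≥0) (x : ℝ) : 1 / K ≤ NN w y τ x := by
  have h1 := q_nonneg τ x
  have h2 := q_le_one τ x
  have : NN w y τ x = (1 - q τ x) * w + q τ x * y := by rw [NN]; ring
  rw [this]
  nlinarith [h.w1, h.y1, mul_le_mul_of_nonneg_left h.w1 (by linarith : 0 ≤ 1 - q τ x),
    mul_le_mul_of_nonneg_left h.y1 h1]

lemma Bd.NN_le (τ : ℝ≥0) (x : ℝ) : NN w y τ x ≤ K := by
  have h1 := q_nonneg τ x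
  have h2 := q_le_one τ x
  have : NN w y τ x = (1 - q τ x) * w + q τ x * y := by rw [NN]; ring
  rw [this]
  nlinarith [h.w2, h.y2, mul_le_mul_of_nonneg_left h.w2 (by linarith : 0 ≤ 1 - q τ x),
    mul_le_mul_of_nonneg_left h.y2 h1]

lemma Bd.NN_pos (τ : ℝ≥0) (x : ℝ) : 0 < NN w y τ x :=
  lt_of_lt_of_le (by have := h.Kpos; positivity) (h.NN_ge τ x)

lemma Bd.inv_NN_le (τ : ℝ≥0) (x : ℝ) : (NN w y τ x)⁻¹ ≤ K := by
  rw [inv_le_comm₀ (h.NN_pos τ x) h.Kpos]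
  simpa using h.NN_ge τ x

lemma Bd.abs_sub_le : |y - w| ≤ K := by
  have h1 : 0 < 1 / K := by have := h.Kpos; positivity
  rw [abs_le]; constructor <;> linarith [h.w1, h.w2, h.y1, h.y2]

lemma Bd.Gm_le {τ : ℝ≥0} (hτ : ε ≤ τ) (x : ℝ) : |Gm w y τ x| ≤ K ^ 3 := by
  rw [Gm, abs_div, abs_mul, abs_of_nonneg (p_nonneg τ x), abs_of_pos (h.NN_pos τ x),
    div_eq_mul_inv]
  have h1 := h.abs_sub_le
  have h2 := (p_le h.eps hτ x).trans h.h3
  have h3 := h.inv_NN_le τ x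
  have hK := h.Kpos
  calc |y - w| * p τ x * (NN w y τ x)⁻¹ ≤ K * K * K := by
        have := h.NN_pos τ x
        have := p_nonneg τ x
        gcongr
    _ = K ^ 3 := by ring

/-- The first order error. -/
lemma Bd.e_le {τ δ : ℝ≥0} (hτ : ε ≤ τ) (hδ : (δ:ℝ) ≤ K) (x ξ : ℝ) :
    |NN w y τ (x + ξ) - NN w y (τ + δ) x - (y - w) * p (τ + δ) x * ξ| ≤
      2 * K ^ 3 * (ξ ^ 2 + δ) := by
  have hK := h.one_le
  have hτ' : ε ≤ τ + δ := hτ.trans (by simp)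
  have e1 : NN w y τ (x + ξ) - NN w y (τ + δ) x - (y - w) * p (τ + δ) x * ξ =
      (y - w) * ((q τ (x + ξ) - q τ x - p τ x * ((x + ξ) - x)) + (q τ x - q (τ + δ) x)
        + (p τ x - p (τ + δ) x) * ξ) := by
    simp only [NN]; ring
  have e2 := (q_taylor h.eps hτ x (x + ξ)).trans (mul_le_mul_of_nonneg_right h.h1 (sq_nonneg _))
  have e3 := (q_lip_time h.eps hτ hτ' x).trans (mul_le_mul_of_nonneg_right h.h1 (abs_nonneg _))
  have e4 := (p_lip_time h.eps hτ hτ' x).trans (mul_le_mul_of_nonneg_right h.h2 (abs_nonneg _))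
  have e5 : |(τ:ℝ) - ((τ + δ : ℝ≥0) : ℝ)| = δ := by
    push_cast
    rw [show (τ:ℝ) - (τ + δ) = -δ by ring, abs_neg, abs_of_nonneg (NNReal.coe_nonneg δ)]
  rw [e5] at e3 e4
  have hδ0 : (0:ℝ) ≤ δ := δ.2
  rw [e1, abs_mul]
  have e6 : |(q τ (x + ξ) - q τ x - p τ x * ((x + ξ) - x)) + (q τ x - q (τ + δ) x)
        + (p τ x - p (τ + δ) x) * ξ| ≤ K * ξ ^ 2 + K * δ + K * δ * |ξ| := by
    refine (abs_add_le _ _).trans (add_le_add ((abs_add_le _ _).trans (add_le_add ?_ e3)) ?_)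
    · refine e2.trans (le_of_eq ?_); ring
    · rw [abs_mul]; exact mul_le_mul_of_nonneg_right e4 (abs_nonneg _)
  have e7 : (δ:ℝ) * |ξ| ≤ 1 / 2 * (K * δ + ξ ^ 2) := by
    have := sq_nonneg ((δ:ℝ) - |ξ|)
    have h8 : |ξ| ^ 2 = ξ ^ 2 := sq_abs ξ
    nlinarith
  calc |y - w| * |(q τ (x + ξ) - q τ x - p τ x * ((x + ξ) - x)) + (q τ x - q (τ + δ) x)
        + (p τ x - p (τ + δ) x) * ξ|
      ≤ K * (K * ξ ^ 2 + K * δ + K * δ * |ξ|) :=
        mul_le_mul h.abs_sub_le e6 (abs_nonneg _) (by linarith)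
    _ = K ^ 2 * (ξ ^ 2 + δ + δ * |ξ|) := by ring
    _ ≤ K ^ 2 * (ξ ^ 2 + δ + 1 / 2 * (K * δ + ξ ^ 2)) := by gcongr
    _ ≤ K ^ 2 * (2 * K * (ξ ^ 2 + δ)) := by
        apply mul_le_mul_of_nonneg_left _ (by positivity)
        nlinarith [sq_nonneg ξ]
    _ = _ := by ring

lemma Bd.m_le {τ δ : ℝ≥0} (hτ : ε ≤ τ) (hδ : (δ:ℝ) ≤ K) (x ξ : ℝ) :
    |mst w y τ δ x ξ| ≤ 3 * K ^ 6 * (ξ ^ 2 + δ) := by
  have hK := h.one_le
  have hτ' : ε ≤ τ + δ := hτ.trans (by simp)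
  have hδ0 : (0:ℝ) ≤ δ := δ.2
  have e1 := h.e_le hτ hδ x ξ
  have e2 := h.inv_NN_le (τ + δ) x
  have e3 := h.Gm_le hτ' x
  have hN := h.NN_pos (τ + δ) x
  rw [mst]
  have a1 : |(NN w y τ (x + ξ) - NN w y (τ + δ) x - (y - w) * p (τ + δ) x * ξ) /
      NN w y (τ + δ) x| ≤ 2 * K ^ 4 * (ξ ^ 2 + δ) := by
    rw [abs_div, abs_of_pos hN, div_eq_mul_inv]
    calc _ ≤ (2 * K ^ 3 * (ξ ^ 2 + δ)) * K := by gcongr
      _ = _ := by ring
  have a2 : |1 / 2 * Gm w y (τ + δ) x ^ 2 * (ξ ^ 2 - δ)| ≤ K ^ 6 * (ξ ^ 2 + δ) := by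
    rw [abs_mul, abs_mul, abs_pow]
    have b1 : |ξ ^ 2 - (δ:ℝ)| ≤ ξ ^ 2 + δ := by
      rw [abs_le]; constructor <;> nlinarith [sq_nonneg ξ]
    have b2 : |Gm w y (τ + δ) x| ^ 2 ≤ K ^ 6 := by
      calc |Gm w y (τ + δ) x| ^ 2 ≤ (K ^ 3) ^ 2 := by gcongr
        _ = K ^ 6 := by ring
    have b3 : |(1 / 2 : ℝ)| ≤ 1 := by rw [abs_of_pos] <;> norm_num
    calc |(1 / 2 : ℝ)| * |Gm w y (τ + δ) x| ^ 2 * |ξ ^ 2 - (δ:ℝ)| ≤ 1 * K ^ 6 * (ξ ^ 2 + δ) := by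
          gcongr
      _ = _ := by ring
  have a3 : K ^ 4 ≤ K ^ 6 := pow_le_pow_right₀ hK (by norm_num)
  have a4 : 0 ≤ ξ ^ 2 + (δ:ℝ) := by positivity
  calc _ ≤ 2 * K ^ 4 * (ξ ^ 2 + δ) + K ^ 6 * (ξ ^ 2 + δ) :=
        (abs_sub _ _).trans (add_le_add a1 a2)
    _ ≤ 2 * K ^ 6 * (ξ ^ 2 + δ) + K ^ 6 * (ξ ^ 2 + δ) := by gcongr
    _ = _ := by ring

lemma Bd.rst_le {τ δ : ℝ≥0} (hτ : ε ≤ τ) (hδ : (δ:ℝ) ≤ K) (x ζ : ℝ) :
    |rst w y τ δ x (√(δ:ℝ) * ζ)| ≤ 31 * K ^ 17 * (δ * √(δ:ℝ)) * (1 + ζ ^ 2) ^ 3 := by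
  have hK := h.one_le
  have hK0 := h.Kpos
  have hτ' : ε ≤ τ + δ := hτ.trans (by simp)
  have hδ0 : (0:ℝ) ≤ δ := δ.2
  set s : ℝ := √(δ:ℝ) with hs
  have hs0 : 0 ≤ s := Real.sqrt_nonneg _
  have hss : s ^ 2 = δ := Real.sq_sqrt hδ0
  have hsK : s ≤ K := by
    have : s ≤ √(K ^ 2) := Real.sqrt_le_sqrt (by nlinarith)
    rwa [Real.sqrt_sq hK0.le] at this
  set ξ := s * ζ with hξ
  set z := 1 + ζ ^ 2 with hz
  have hz1 : 1 ≤ z := by rw [hz]; nlinarith [sq_nonneg ζ]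
  have hζz : |ζ| ≤ z := by
    have h8 : |ζ| ^ 2 = ζ ^ 2 := sq_abs ζ
    rw [hz]; nlinarith [sq_nonneg (|ζ| - 1), abs_nonneg ζ]
  set N0 := NN w y (τ + δ) x with hN0
  set N1 := NN w y τ (x + ξ) with hN1
  have hN0p := h.NN_pos (τ + δ) x
  have hN1p := h.NN_pos τ (x + ξ)
  rw [← hN0] at hN0p
  rw [← hN1] at hN1p
  set g := Gm w y (τ + δ) x with hg
  set r := (N1 - N0) / N0 with hr
  set e := (N1 - N0 - (y - w) * p (τ + δ) x * ξ) / N0 with he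
  have hge : r = g * ξ + e := by
    rw [hr, he, hg, Gm, ← hN0]; field_simp; ring
  have hlog : Real.log N1 - Real.log N0 = Real.log (1 + r) := by
    rw [← Real.log_div hN1p.ne' hN0p.ne', hr]; congr 1; field_simp; ring
  have hrst : rst w y τ δ x ξ = (Real.log (1 + r) - r + r ^ 2 / 2) - 1 / 2 * (r ^ 2 - (g * ξ) ^ 2) := by
    rw [rst, mst, ← hN0, ← hN1, hlog, ← he, ← hg, hge]; ring
  have b1 : |e| ≤ 2 * K ^ 4 * (s ^ 2 * z) := by
    rw [he, abs_div, abs_of_pos hN0p, div_eq_mul_inv]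
    have e1 := h.e_le hτ hδ x ξ
    have e2 := h.inv_NN_le (τ + δ) x
    rw [← hN0] at e1 e2
    rw [← hN1] at e1
    have e3 : ξ ^ 2 + δ = s ^ 2 * z := by rw [hξ, hz, ← hss]; ring
    rw [e3] at e1
    calc _ ≤ (2 * K ^ 3 * (s ^ 2 * z)) * K := by gcongr
      _ = _ := by ring
  have b2 : |g * ξ| ≤ K ^ 3 * (s * z) := by
    rw [abs_mul, hξ, abs_mul, abs_of_nonneg hs0]
    have := h.Gm_le hτ' x
    gcongr
  have b1' : |e| ≤ 2 * K ^ 5 * (s * z) := by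
    refine b1.trans ?_
    have : s ^ 2 * z ≤ K * (s * z) := by
      have : 0 ≤ s * z := by positivity
      nlinarith
    calc 2 * K ^ 4 * (s ^ 2 * z) ≤ 2 * K ^ 4 * (K * (s * z)) := by gcongr
      _ = _ := by ring
  have hsz : 0 ≤ s * z := by positivity
  have k35 : K ^ 3 ≤ K ^ 5 := pow_le_pow_right₀ hK (by norm_num)
  have b2' : |g * ξ| ≤ K ^ 5 * (s * z) := b2.trans (mul_le_mul_of_nonneg_right k35 hsz)
  have b3 : |r| ≤ 3 * K ^ 5 * (s * z) := by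
    rw [hge]; refine (abs_add_le _ _).trans ?_; linarith
  have b4 : |r ^ 2 - (g * ξ) ^ 2| ≤ 8 * K ^ 9 * (s ^ 3 * z ^ 2) := by
    have : r ^ 2 - (g * ξ) ^ 2 = e * (r + g * ξ) := by rw [hge]; ring
    rw [this, abs_mul]
    have : |r + g * ξ| ≤ 4 * K ^ 5 * (s * z) := by
      refine (abs_add_le _ _).trans ?_; linarith
    calc |e| * |r + g * ξ| ≤ (2 * K ^ 4 * (s ^ 2 * z)) * (4 * K ^ 5 * (s * z)) := by gcongr
      _ = _ := by ring
  have hratio : 1 / K ^ 2 ≤ 1 + r := by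
    have h1 : 1 + r = N1 / N0 := by rw [hr]; field_simp; ring
    rw [h1, div_eq_mul_inv N1]
    have h2 : 1 / K ≤ N1 := h.NN_ge τ (x + ξ)
    have h3 : 1 / K ≤ N0⁻¹ := by
      rw [one_div]
      exact inv_anti₀ hN0p (h.NN_le (τ + δ) x)
    calc 1 / K ^ 2 = (1 / K) * (1 / K) := by field_simp
      _ ≤ _ := by gcongr
  have b5 := log_taylor (c := 1 / K ^ 2) (by positivity)
    (by rw [div_le_one (by positivity)]; exact one_le_pow₀ hK) hratio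
  have b6 : |r| ^ 3 / (1 / K ^ 2) ≤ 27 * K ^ 17 * (s ^ 3 * z ^ 3) := by
    rw [div_div_eq_mul_div, div_one]
    calc |r| ^ 3 * K ^ 2 ≤ (3 * K ^ 5 * (s * z)) ^ 3 * K ^ 2 := by gcongr
      _ = _ := by ring
  rw [hrst]
  have b7 : |1 / 2 * (r ^ 2 - (g * ξ) ^ 2)| ≤ 4 * K ^ 9 * (s ^ 3 * z ^ 2) := by
    rw [abs_mul, abs_of_pos (by norm_num : (0:ℝ) < 1 / 2)]; linarith
  have b8 : 4 * K ^ 9 * (s ^ 3 * z ^ 2) ≤ 4 * K ^ 17 * (s ^ 3 * z ^ 3) := by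
    have c1 : K ^ 9 ≤ K ^ 17 := pow_le_pow_right₀ hK (by norm_num)
    have c2 : z ^ 2 ≤ z ^ 3 := pow_le_pow_right₀ hz1 (by norm_num)
    gcongr
  have e9 : (δ:ℝ) * s = s ^ 3 := by rw [← hss]; ring
  rw [e9]
  calc _ ≤ |Real.log (1 + r) - r + r ^ 2 / 2| + |1 / 2 * (r ^ 2 - (g * ξ) ^ 2)| := abs_sub _ _
    _ ≤ 27 * K ^ 17 * (s ^ 3 * z ^ 3) + 4 * K ^ 17 * (s ^ 3 * z ^ 3) := by linarith
    _ = _ := by ring

lemma Bd.integral_m {τ δ : ℝ≥0} (x : ℝ) :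
    ∫ ξ, mst w y τ δ x ξ ∂(gaussianReal 0 δ) = 0 := by
  have hN := (h.NN_pos (τ + δ) x).ne'
  have hint : Integrable (fun u => q τ (x + u)) (gaussianReal 0 δ) := by
    refine Integrable.of_bound ((measurable_q τ).comp (measurable_const_add x)).aestronglyMeasurable
      1 (ae_of_all _ fun u => ?_)
    rw [Real.norm_eq_abs, abs_of_nonneg (q_nonneg _ _)]
    exact q_le_one _ _
  have hid : Integrable (fun u : ℝ => u) (gaussianReal 0 δ) := by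
    have := integrable_pow_gaussian δ 1
    simpa only [pow_one] using this
  have hsq := integrable_pow_gaussian δ 2
  have e1 : ∀ ξ, mst w y τ δ x ξ =
      (y - w) / NN w y (τ + δ) x * q τ (x + ξ)
        + (-((y - w) * p (τ + δ) x) / NN w y (τ + δ) x) * ξ
        + (-(1 / 2) * Gm w y (τ + δ) x ^ 2) * ξ ^ 2
        + ((w - NN w y (τ + δ) x) / NN w y (τ + δ) x + 1 / 2 * Gm w y (τ + δ) x ^ 2 * δ) := by
    intro ξ
    rw [mst]
    have : NN w y τ (x + ξ) = w + (y - w) * q τ (x + ξ) := rfl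
    rw [this]
    field_simp
    ring
  simp_rw [e1]
  rw [integral_comb hint hid hsq, q_semigroup, integral_id_gaussianReal, integral_sq_gaussian]
  have : (y - w) / NN w y (τ + δ) x * q (τ + δ) x = (NN w y (τ + δ) x - w) / NN w y (τ + δ) x := by
    simp only [NN]; ring
  rw [this]
  ring

end

end Pool.Agent.Helper95.BSDE
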