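import Mathlib
import Pool.Agent.Helper95.BSDEStep

set_option autoImplicit false
set_option linter.unusedSectionVars false

open MeasureTheory ProbabilityTheory Filter Topology Set
open scoped NNReal ENNReal

namespace Pool.Agent.Helper95.BSDE

/-- fourth-moment type constant. -/
noncomputable def c4 : ℝ := ∫ ζ, (1 + ζ ^ 2) ^ 2 ∂(gaussianReal 0 1)

/-- sixth-moment type constant. -/
noncomputable def c6 : ℝ := ∫ ζ, (1 + ζ ^ 2) ^ 3 ∂(gaussianReal 0 1)

lemma c4_nonneg : 0 ≤ c4 := integral_nonneg fun _ => by positivity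

lemma c6_nonneg : 0 ≤ c6 := integral_nonneg fun _ => by positivity

lemma integrable_c4 : Integrable (fun ζ : ℝ => (1 + ζ ^ 2) ^ 2) (gaussianReal 0 1) := by
  have : (fun ζ : ℝ => (1 + ζ ^ 2) ^ 2) = fun ζ => 1 + 2 * ζ ^ 2 + ζ ^ 4 := by ext ζ; ring
  rw [this]
  exact ((integrable_const _).add ((integrable_pow_gaussian 1 2).const_mul 2)).add
    (integrable_pow_gaussian 1 4)

lemma integrable_c6 : Integrable (fun ζ : ℝ => (1 + ζ ^ 2) ^ 3) (gaussianReal 0 1) := by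
  have : (fun ζ : ℝ => (1 + ζ ^ 2) ^ 3) = fun ζ => 1 + 3 * ζ ^ 2 + 3 * ζ ^ 4 + ζ ^ 6 := by
    ext ζ; ring
  rw [this]
  exact (((integrable_const _).add ((integrable_pow_gaussian 1 2).const_mul 3)).add
    ((integrable_pow_gaussian 1 4).const_mul 3)).add (integrable_pow_gaussian 1 6)

lemma gaussian_scale (δ : ℝ≥0) :
    (gaussianReal 0 1).map (fun ζ => √(δ:ℝ) * ζ) = gaussianReal 0 δ := by
  rw [gaussianReal_map_const_mul]
  congr 1
  · simp
  · ext
    simp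

lemma integral_gaussian_scale (δ : ℝ≥0) {F : ℝ → ℝ} (hF : Measurable F) :
    ∫ u, F u ∂(gaussianReal 0 δ) = ∫ ζ, F (√(δ:ℝ) * ζ) ∂(gaussianReal 0 1) := by
  rw [← gaussian_scale δ, integral_map (by fun_prop) hF.aestronglyMeasurable]

lemma integral_c4 (δ : ℝ≥0) : ∫ u, (u ^ 2 + δ) ^ 2 ∂(gaussianReal 0 δ) = c4 * δ ^ 2 := by
  rw [integral_gaussian_scale δ (by fun_prop), c4, ← integral_mul_const]
  refine integral_congr_ae (ae_of_all _ fun ζ => ?_)
  have : √(δ:ℝ) ^ 2 = δ := Real.sq_sqrt δ.2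
  simp only
  rw [mul_pow, this]
  ring

lemma integrable_c4' (δ : ℝ≥0) : Integrable (fun u : ℝ => (u ^ 2 + δ) ^ 2) (gaussianReal 0 δ) := by
  have : (fun u : ℝ => (u ^ 2 + (δ:ℝ)) ^ 2) = fun u => u ^ 4 + 2 * δ * u ^ 2 + (δ:ℝ) ^ 2 := by
    ext u; ring
  rw [this]
  exact ((integrable_pow_gaussian δ 4).add ((integrable_pow_gaussian δ 2).const_mul _)).add
    (integrable_const _)

variable {Ω : Type*} {mΩ : MeasurableSpace Ω} {P : Measure Ω} [IsProbabilityMeasure P]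
  {W : ℝ≥0 → Ω → ℝ}

lemma hasLaw_incr (hW : IsPreBrownianReal W P) {s t : ℝ≥0} (h : s ≤ t) :
    HasLaw (fun ω => W t ω - W s ω) (gaussianReal 0 (t - s)) P := by
  have h1 := hW.hasLaw_sub t s
  have h2 : nndist (t:ℝ) (s:ℝ) = t - s := by
    ext
    rw [coe_nndist, Real.dist_eq, NNReal.coe_sub h, abs_of_nonneg]
    exact sub_nonneg.2 h
  rw [show (fun ω => W t ω - W s ω) = W t - W s from rfl, ← h2]
  exact h1

lemma integral_incr (hW : IsPreBrownianReal W P) {s t : ℝ≥0} (h : s ≤ t) {F : ℝ → ℝ}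
    (hF : Measurable F) :
    ∫ ω, F (W t ω - W s ω) ∂P = ∫ u, F u ∂(gaussianReal 0 (t - s)) := by
  rw [← (hasLaw_incr hW h).map_eq,
    integral_map (hasLaw_incr hW h).aemeasurable hF.aestronglyMeasurable]

lemma integrable_incr (hW : IsPreBrownianReal W P) {s t : ℝ≥0} (h : s ≤ t) {F : ℝ → ℝ}
    (hF : Integrable F (gaussianReal 0 (t - s))) :
    Integrable (fun ω => F (W t ω - W s ω)) P := by
  rw [← (hasLaw_incr hW h).map_eq] at hF
  exact hF.comp_aemeasurable (hasLaw_incr hW h).aemeasurable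

/-- partial sums of martingale differences along a deterministic grid -/
noncomputable def Sm (W : ℝ≥0 → Ω → ℝ) (a : ℝ≥0) (v : ℕ → ℝ≥0) (f : ℕ → ℝ → ℝ → ℝ) (n : ℕ) (ω : Ω) : ℝ :=
  ∑ j ∈ Finset.range n, f j (W (v j) ω - W a ω) (W (v (j + 1)) ω - W (v j) ω)

lemma indep_Sm (hW : IsPreBrownianReal W P) {a : ℝ≥0} {v : ℕ → ℝ≥0} (hv : Monotone v)
    (hav : a ≤ v 0) {f : ℕ → ℝ → ℝ → ℝ} (hf : ∀ j, Measurable (Function.uncurry (f j))) (n : ℕ) :
    IndepFun (fun ω => (Sm W a v f n ω, W (v n) ω - W a ω)) (fun ω => W (v (n+1)) ω - W (v n) ω) P := by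
  have h := hW.indepFun_shift (v n)
  have hn : ∀ j, j ≤ n → v j ≤ v n := fun j hj => hv hj
  have han : a ≤ v n := hav.trans (hv (Nat.zero_le n))
  let F : ((Set.Iic (v n)) → ℝ) → ℝ × ℝ := fun g =>
    (∑ j : Fin n, f j (g ⟨v j, hn j j.2.le⟩ - g ⟨a, han⟩) (g ⟨v (j + 1), hn (j+1) j.2⟩ - g ⟨v j, hn j j.2.le⟩),
      g ⟨v n, Set.mem_Iic.2 le_rfl⟩ - g ⟨a, han⟩)
  have hF : Measurable F := by
    refine Measurable.prodMk ?_ ((measurable_pi_apply _).sub (measurable_pi_apply _))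
    refine Finset.measurable_sum _ fun j _ => ?_
    exact (hf j).comp (f := fun g : ((Set.Iic (v n)) → ℝ) =>
      (g ⟨v j, hn j j.2.le⟩ - g ⟨a, han⟩, g ⟨v (j + 1), hn (j+1) j.2⟩ - g ⟨v j, hn j j.2.le⟩))
      (by fun_prop)
  let G : (ℝ≥0 → ℝ) → ℝ := fun g => g (v (n + 1) - v n)
  have hG : Measurable G := measurable_pi_apply _
  have h2 := (h.comp hG hF).symm
  have e1 : (F ∘ fun ω (t : Set.Iic (v n)) => W t ω) = fun ω => (Sm W a v f n ω, W (v n) ω - W a ω) := by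
    ext1 ω
    simp only [Function.comp, F, Sm]
    congr 1
    exact Fin.sum_univ_eq_sum_range
      (fun j => f j (W (v j) ω - W a ω) (W (v (j + 1)) ω - W (v j) ω)) n
  have e2 : (G ∘ fun ω t => W (v n + t) ω - W (v n) ω) = fun ω => W (v (n+1)) ω - W (v n) ω := by
    ext1 ω
    simp only [Function.comp, G]
    rw [add_tsub_cancel_of_le (hv (Nat.le_succ n))]
  rw [e1, e2] at h2
  exact h2

variable (hWm : ∀ t, Measurable (W t))
include hWm

lemma measurable_Sm {a : ℝ≥0} {v : ℕ → ℝ≥0} {f : ℕ → ℝ → ℝ → ℝ}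
    (hf : ∀ j, Measurable (Function.uncurry (f j))) (n : ℕ) : Measurable (Sm W a v f n) := by
  refine Finset.measurable_sum _ fun j _ => ?_
  exact (hf j).comp (((hWm _).sub (hWm _)).prodMk ((hWm _).sub (hWm _)))

lemma memLp_term (hW : IsPreBrownianReal W P) {a : ℝ≥0} {v : ℕ → ℝ≥0} (hv : Monotone v)
    {f : ℕ → ℝ → ℝ → ℝ} (hf : ∀ j, Measurable (Function.uncurry (f j))) {C : ℝ}
    (hC : ∀ j x u, |f j x u| ≤ C * (u ^ 2 + (v (j+1) - v j : ℝ≥0))) (j : ℕ) :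
    MemLp (fun ω => f j (W (v j) ω - W a ω) (W (v (j + 1)) ω - W (v j) ω)) 2 P := by
  have hm : Measurable (fun ω => f j (W (v j) ω - W a ω) (W (v (j + 1)) ω - W (v j) ω)) :=
    (hf j).comp (((hWm _).sub (hWm _)).prodMk ((hWm _).sub (hWm _)))
  have hC0 : ∀ u : ℝ, 0 ≤ C * (u ^ 2 + (v (j+1) - v j : ℝ≥0)) := fun u => (abs_nonneg _).trans (hC j 0 u)
  rw [memLp_two_iff_integrable_sq hm.aestronglyMeasurable]
  have h1 := integrable_incr hW (hv (Nat.le_succ j)) ((integrable_c4' (v (j+1) - v j)).const_mul (C ^ 2))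
  refine h1.mono' (hm.pow_const 2).aestronglyMeasurable (ae_of_all _ fun ω => ?_)
  rw [Real.norm_eq_abs, abs_pow, ← mul_pow]
  exact pow_le_pow_left₀ (abs_nonneg _) (hC j _ _) 2

lemma memLp_Sm (hW : IsPreBrownianReal W P) {a : ℝ≥0} {v : ℕ → ℝ≥0} (hv : Monotone v)
    {f : ℕ → ℝ → ℝ → ℝ} (hf : ∀ j, Measurable (Function.uncurry (f j))) {C : ℝ}
    (hC : ∀ j x u, |f j x u| ≤ C * (u ^ 2 + (v (j+1) - v j : ℝ≥0))) (n : ℕ) :
    MemLp (Sm W a v f n) 2 P :=
  memLp_finsetSum _ fun j _ => memLp_term hWm hW hv hf hC j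

/-- `L²` bound for a martingale sum along a grid. -/
lemma Sm_sq_le (hW : IsPreBrownianReal W P) {a : ℝ≥0} {v : ℕ → ℝ≥0} (hv : Monotone v)
    (hav : a ≤ v 0) {f : ℕ → ℝ → ℝ → ℝ} (hf : ∀ j, Measurable (Function.uncurry (f j))) {C : ℝ}
    (hC : ∀ j x u, |f j x u| ≤ C * (u ^ 2 + (v (j+1) - v j : ℝ≥0)))
    (hmean : ∀ j x, ∫ u, f j x u ∂(gaussianReal 0 (v (j+1) - v j)) = 0) (n : ℕ) :
    ∫ ω, (Sm W a v f n ω) ^ 2 ∂P ≤
      ∑ j ∈ Finset.range n, C ^ 2 * (c4 * ((v (j+1) - v j : ℝ≥0) : ℝ) ^ 2) := by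
  induction n with
  | zero => simp [Sm]
  | succ n ih =>
    set X : Ω → ℝ := fun ω => f n (W (v n) ω - W a ω) (W (v (n + 1)) ω - W (v n) ω) with hX
    have hS := memLp_Sm hWm hW hv hf hC n (a := a)
    have hXp : MemLp X 2 P := memLp_term hWm hW hv hf hC n
    have e1 : ∀ ω, (Sm W a v f (n+1) ω) ^ 2 =
        (Sm W a v f n ω) ^ 2 + (2 * (Sm W a v f n ω * X ω) + X ω ^ 2) := by
      intro ω
      have : Sm W a v f (n+1) ω = Sm W a v f n ω + X ω := by
        simp [Sm, Finset.sum_range_succ, hX]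
      rw [this]; ring
    have hSX : Integrable (fun ω => Sm W a v f n ω * X ω) P := hS.integrable_mul hXp
    have hzero : ∫ ω, Sm W a v f n ω * X ω ∂P = 0 := by
      have hind := indep_Sm hW hv hav hf n
      have hm1 : Measurable (fun ω => (Sm W a v f n ω, W (v n) ω - W a ω)) :=
        (measurable_Sm hWm hf n).prodMk ((hWm _).sub (hWm _))
      have hm2 : Measurable (fun ω => W (v (n+1)) ω - W (v n) ω) := (hWm _).sub (hWm _)
      have hmap := (indepFun_iff_map_prod_eq_prod_map_map hm1.aemeasurable hm2.aemeasurable).1 hind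
      have hlaw := (hasLaw_incr hW (hv (Nat.le_succ n))).map_eq
      set Φ : (ℝ × ℝ) × ℝ → ℝ := fun z => z.1.1 * f n z.1.2 z.2 with hΦ
      have hΦm : Measurable Φ := by
        have : Measurable (fun z : (ℝ × ℝ) × ℝ => f n z.1.2 z.2) :=
          (hf n).comp (f := fun z : (ℝ × ℝ) × ℝ => (z.1.2, z.2)) (by fun_prop)
        exact (by fun_prop : Measurable fun z : (ℝ × ℝ) × ℝ => z.1.1).mul this
      have h3 : ∫ ω, Sm W a v f n ω * X ω ∂P =
          ∫ z, Φ z ∂(P.map fun ω => ((Sm W a v f n ω, W (v n) ω - W a ω), W (v (n+1)) ω - W (v n) ω)) := by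
        rw [integral_map (hm1.prodMk hm2).aemeasurable hΦm.aestronglyMeasurable]
      rw [h3, hmap, hlaw]
      have hint : Integrable Φ ((P.map fun ω => (Sm W a v f n ω, W (v n) ω - W a ω)).prod
          (gaussianReal 0 (v (n+1) - v n))) := by
        rw [← hlaw, ← hmap]
        exact (integrable_map_measure hΦm.aestronglyMeasurable (hm1.prodMk hm2).aemeasurable).2 hSX
      rw [integral_prod _ hint]
      refine integral_eq_zero_of_ae (ae_of_all _ fun z => ?_)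
      simp only [hΦ, Pi.zero_apply]
      rw [integral_const_mul, hmean, mul_zero]
    have hX2 : ∫ ω, X ω ^ 2 ∂P ≤ C ^ 2 * (c4 * ((v (n+1) - v n : ℝ≥0) : ℝ) ^ 2) := by
      rw [← integral_c4, ← integral_const_mul,
        ← integral_incr hW (hv (Nat.le_succ n)) (F := fun u => C ^ 2 * (u ^ 2 + ((v (n+1) - v n : ℝ≥0) : ℝ)) ^ 2)
          (by fun_prop)]
      refine integral_mono hXp.integrable_sq
        (integrable_incr hW (hv (Nat.le_succ n)) ((integrable_c4' (v (n+1) - v n)).const_mul (C ^ 2)))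
        fun ω => ?_
      simp only
      rw [← sq_abs, ← mul_pow]
      exact pow_le_pow_left₀ (abs_nonneg _) (hC n _ _) 2
    have e2 : ∫ ω, ((Sm W a v f n ω) ^ 2 + (2 * (Sm W a v f n ω * X ω) + X ω ^ 2)) ∂P =
        ∫ ω, (Sm W a v f n ω) ^ 2 ∂P + ∫ ω, (2 * (Sm W a v f n ω * X ω) + X ω ^ 2) ∂P :=
      integral_add hS.integrable_sq ((hSX.const_mul 2).add hXp.integrable_sq)
    have e3 : ∫ ω, (2 * (Sm W a v f n ω * X ω) + X ω ^ 2) ∂P =
        ∫ ω, 2 * (Sm W a v f n ω * X ω) ∂P + ∫ ω, X ω ^ 2 ∂P :=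
      integral_add (hSX.const_mul 2) hXp.integrable_sq
    simp_rw [e1]
    rw [e2, e3, integral_const_mul, hzero, Finset.sum_range_succ]
    linarith

end Pool.Agent.Helper95.BSDE
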