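import Mathlib
import Pool.Agent.Helper95.BSDEMart

set_option autoImplicit false
set_option linter.unusedSectionVars false

open MeasureTheory ProbabilityTheory Filter Topology Set
open scoped NNReal ENNReal

namespace Pool.Agent.Helper95.BSDE

lemma measurable_NN_uncurry (w y : ℝ) : Measurable (fun z : ℝ≥0 × ℝ => NN w y z.1 z.2) := by
  have := measurable_q_uncurry
  simp only [NN]
  fun_prop

lemma measurable_Gm_uncurry (w y : ℝ) : Measurable (fun z : ℝ≥0 × ℝ => Gm w y z.1 z.2) := by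
  have h1 := measurable_p_uncurry
  have h2 := measurable_NN_uncurry w y
  simp only [Gm]
  fun_prop

lemma measurable_NN (w y : ℝ) (τ : ℝ≥0) : Measurable (NN w y τ) :=
  (measurable_NN_uncurry w y).comp (f := fun x : ℝ => (τ, x)) (by fun_prop)

lemma measurable_Gm (w y : ℝ) (τ : ℝ≥0) : Measurable (Gm w y τ) :=
  (measurable_Gm_uncurry w y).comp (f := fun x : ℝ => (τ, x)) (by fun_prop)

lemma measurable_mst (w y : ℝ) (τ δ : ℝ≥0) : Measurable (Function.uncurry (mst w y τ δ)) := by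
  have h1 : Measurable (p (τ + δ)) := (continuous_p _).measurable
  have h2 := measurable_NN w y (τ + δ)
  have h3 := measurable_NN w y τ
  have h4 := measurable_Gm w y (τ + δ)
  simp only [mst, Function.uncurry_def]
  fun_prop

lemma measurable_rst (w y : ℝ) (τ δ : ℝ≥0) : Measurable (Function.uncurry (rst w y τ δ)) := by
  have h1 := measurable_mst w y τ δ
  simp only [Function.uncurry_def] at h1
  have h2 := measurable_NN w y (τ + δ)
  have h3 := measurable_NN w y τ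
  have h4 := measurable_Gm w y (τ + δ)
  simp only [rst, Function.uncurry_def]
  fun_prop

/-- bounding function for the remainder -/
noncomputable def Bf (δ : ℝ≥0) (u : ℝ) : ℝ := (δ * √(δ:ℝ)) * (1 + (u / √(δ:ℝ)) ^ 2) ^ 3

lemma Bf_nonneg (δ : ℝ≥0) (u : ℝ) : 0 ≤ Bf δ u := by rw [Bf]; positivity

lemma measurable_Bf (δ : ℝ≥0) : Measurable (Bf δ) := by unfold Bf; fun_prop

lemma Bf_scale (δ : ℝ≥0) (ζ : ℝ) : Bf δ (√(δ:ℝ) * ζ) = (δ * √(δ:ℝ)) * (1 + ζ ^ 2) ^ 3 := by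
  rcases eq_or_ne δ 0 with rfl | hδ
  · simp [Bf]
  · have : √(δ:ℝ) ≠ 0 := by
      have : (0:ℝ) < δ := by positivity
      positivity
    rw [Bf, mul_div_cancel_left₀ _ this]

lemma integral_Bf (δ : ℝ≥0) : ∫ u, Bf δ u ∂(gaussianReal 0 δ) = (δ * √(δ:ℝ)) * c6 := by
  rw [integral_gaussian_scale δ (measurable_Bf δ), c6, ← integral_const_mul]
  simp_rw [Bf_scale]

lemma integrable_Bf (δ : ℝ≥0) : Integrable (Bf δ) (gaussianReal 0 δ) := by
  rw [← gaussian_scale δ, integrable_map_measure (measurable_Bf δ).aestronglyMeasurable (by fun_prop)]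
  have : Bf δ ∘ (fun ζ => √(δ:ℝ) * ζ) = fun ζ => (δ * √(δ:ℝ)) * (1 + ζ ^ 2) ^ 3 := by
    ext ζ; exact Bf_scale δ ζ
  rw [this]
  exact integrable_c6.const_mul _

section
variable {w y : ℝ} {ε : ℝ≥0} {K : ℝ} (h : Bd w y ε K)
include h

lemma Bd.rst_le' {τ δ : ℝ≥0} (hτ : ε ≤ τ) (hδ : (δ:ℝ) ≤ K) (x u : ℝ) (hu : δ = 0 → u = 0) :
    |rst w y τ δ x u| ≤ 31 * K ^ 17 * Bf δ u := by
  rcases eq_or_ne δ 0 with rfl | hδ0
  · have := h.rst_le hτ hδ x 0
    rw [hu rfl]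
    simpa [Bf] using this
  · have hpos : √(δ:ℝ) ≠ 0 := by
      have : (0:ℝ) < δ := by positivity
      positivity
    have := h.rst_le hτ hδ x (u / √(δ:ℝ))
    rw [mul_div_cancel₀ _ hpos] at this
    rw [Bf]
    linarith

lemma Bd.Gm_lip {τ σ : ℝ≥0} (hτ : ε ≤ τ) (hσ : ε ≤ σ) (x x' : ℝ) :
    |Gm w y τ x - Gm w y σ x'| ≤ 2 * K ^ 6 * (|(τ:ℝ) - σ| + |x - x'|) := by
  have hK := h.one_le
  have hK0 := h.Kpos
  have hN := h.NN_pos τ x
  have hN' := h.NN_pos σ x'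
  have hi := h.inv_NN_le τ x
  have hi' := h.inv_NN_le σ x'
  set D := |(τ:ℝ) - σ| + |x - x'| with hD
  have hD0 : 0 ≤ D := by positivity
  have e1 : |p τ x - p σ x'| ≤ K * D := by
    have a1 := (p_lip_time h.eps hτ hσ x).trans (mul_le_mul_of_nonneg_right h.h2 (abs_nonneg _))
    have a2 := (p_lip_space h.eps hσ x x').trans (mul_le_mul_of_nonneg_right h.h1 (abs_nonneg _))
    have := abs_add_le (p τ x - p σ x) (p σ x - p σ x')
    rw [sub_add_sub_cancel] at this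
    rw [hD]; linarith
  have e2 : |q τ x - q σ x'| ≤ K * D := by
    have a1 := (q_lip_time h.eps hτ hσ x).trans (mul_le_mul_of_nonneg_right h.h1 (abs_nonneg _))
    have a2 := (q_lip_space h.eps hσ x x').trans (mul_le_mul_of_nonneg_right h.h3 (abs_nonneg _))
    have := abs_add_le (q τ x - q σ x) (q σ x - q σ x')
    rw [sub_add_sub_cancel] at this
    rw [hD]; linarith
  have e3 : |NN w y τ x - NN w y σ x'| ≤ K ^ 2 * D := by
    have : NN w y τ x - NN w y σ x' = (y - w) * (q τ x - q σ x') := by simp only [NN]; ring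
    rw [this, abs_mul]
    calc |y - w| * |q τ x - q σ x'| ≤ K * (K * D) := by
          have := h.abs_sub_le; gcongr
      _ = _ := by ring
  have e4 : Gm w y τ x - Gm w y σ x' = (y - w) * ((p τ x - p σ x') * (NN w y τ x)⁻¹
      + p σ x' * ((NN w y σ x' - NN w y τ x) * ((NN w y τ x)⁻¹ * (NN w y σ x')⁻¹))) := by
    simp only [Gm]; field_simp; ring
  rw [e4, abs_mul]
  have e5 : |(p τ x - p σ x') * (NN w y τ x)⁻¹
      + p σ x' * ((NN w y σ x' - NN w y τ x) * ((NN w y τ x)⁻¹ * (NN w y σ x')⁻¹))| ≤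
      K ^ 2 * D + K ^ 5 * D := by
    refine (abs_add_le _ _).trans (add_le_add ?_ ?_)
    · rw [abs_mul, abs_of_pos (inv_pos.2 hN)]
      calc _ ≤ (K * D) * K := by gcongr
        _ = _ := by ring
    · rw [abs_mul, abs_mul, abs_mul, abs_of_pos (inv_pos.2 hN), abs_of_pos (inv_pos.2 hN'),
        abs_of_nonneg (p_nonneg _ _), abs_sub_comm (NN w y σ x')]
      have := (p_le h.eps hσ x').trans h.h3
      have := p_nonneg σ x'
      calc _ ≤ K * (K ^ 2 * D * (K * K)) := by gcongr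
        _ = _ := by ring
  calc _ ≤ K * (K ^ 2 * D + K ^ 5 * D) := mul_le_mul h.abs_sub_le e5 (abs_nonneg _) hK0.le
    _ ≤ K * (K ^ 5 * D + K ^ 5 * D) := by
        have : K ^ 2 ≤ K ^ 5 := pow_le_pow_right₀ hK (by norm_num)
        gcongr
    _ = _ := by ring

lemma Bd.Gm_sq_lip {τ σ : ℝ≥0} (hτ : ε ≤ τ) (hσ : ε ≤ σ) (x x' : ℝ) :
    |Gm w y τ x ^ 2 - Gm w y σ x' ^ 2| ≤ 4 * K ^ 9 * (|(τ:ℝ) - σ| + |x - x'|) := by
  have e1 := h.Gm_lip hτ hσ x x'
  have e2 := h.Gm_le hτ x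
  have e3 := h.Gm_le hσ x'
  have : Gm w y τ x ^ 2 - Gm w y σ x' ^ 2 =
    (Gm w y τ x - Gm w y σ x') * (Gm w y τ x + Gm w y σ x') := by ring
  rw [this, abs_mul]
  have e4 : |Gm w y τ x + Gm w y σ x'| ≤ 2 * K ^ 3 := (abs_add_le _ _).trans (by linarith)
  have hK0 := h.Kpos
  calc _ ≤ (2 * K ^ 6 * (|(τ:ℝ) - σ| + |x - x'|)) * (2 * K ^ 3) := by gcongr
    _ = _ := by ring

end

variable {Ω : Type*} {mΩ : MeasurableSpace Ω} {P : Measure Ω} [IsProbabilityMeasure P]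
  {W : ℝ≥0 → Ω → ℝ}

/-- The log expansion along a grid, in expectation. -/
lemma grid_expansion (hWm : ∀ t, Measurable (W t)) (hW : IsPreBrownianReal W P)
    {w y : ℝ} {a b c : ℝ≥0} {K : ℝ} (hcb : c ≤ b) (h : Bd w y (b - c) K) (hbK : (b:ℝ) ≤ K)
    {v : ℕ → ℝ≥0} (hv : Monotone v) (hav : a ≤ v 0) (hvc : ∀ j, v j ≤ c)
    {η : ℝ≥0} (hη : ∀ j, v (j+1) - v j ≤ η) (n : ℕ) :
    ∫⁻ ω, ‖1 / 2 * Real.log (NN w y (b - v n) (W (v n) ω - W a ω))
        - 1 / 2 * Real.log (NN w y (b - v 0) (W (v 0) ω - W a ω))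
        - ∑ j ∈ Finset.range n, 1 / 2 * Gm w y (b - v j) (W (v j) ω - W a ω) *
            (W (v (j+1)) ω - W (v j) ω)
        + ∑ j ∈ Finset.range n, 1 / 4 * Gm w y (b - v j) (W (v j) ω - W a ω) ^ 2 *
            ((v (j+1) - v j : ℝ≥0) : ℝ)‖ₑ ∂P ≤
      ENNReal.ofReal ((3 / 2 * K ^ 6 * √(c4 * K) + 31 / 2 * K ^ 18 * c6) * √(η:ℝ)) := by
  have hK0 := h.Kpos
  have hK1 := h.one_le
  set δ : ℕ → ℝ≥0 := fun j => v (j+1) - v j with hδ
  set τ : ℕ → ℝ≥0 := fun j => b - v (j+1) with hτ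
  have hτδ : ∀ j, τ j + δ j = b - v j := by
    intro j
    simp only [hτ, hδ]
    exact tsub_add_tsub_cancel ((hvc _).trans hcb) (hv (Nat.le_succ j))
  have hετ : ∀ j, b - c ≤ τ j := fun j => tsub_le_tsub_left (hvc _) _
  have hδK : ∀ j, (δ j : ℝ) ≤ K := by
    intro j
    have : δ j ≤ b := tsub_le_self.trans ((hvc _).trans hcb)
    exact le_trans (by exact_mod_cast this) hbK
  set fm : ℕ → ℝ → ℝ → ℝ := fun j x u => mst w y (τ j) (δ j) x u with hfm
  set fr : ℕ → Ω → ℝ := fun j ω => rst w y (τ j) (δ j) (W (v j) ω - W a ω)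
    (W (v (j+1)) ω - W (v j) ω) with hfr
  have hident : ∀ ω, 1 / 2 * Real.log (NN w y (b - v n) (W (v n) ω - W a ω))
        - 1 / 2 * Real.log (NN w y (b - v 0) (W (v 0) ω - W a ω))
        - ∑ j ∈ Finset.range n, 1 / 2 * Gm w y (b - v j) (W (v j) ω - W a ω) *
            (W (v (j+1)) ω - W (v j) ω)
        + ∑ j ∈ Finset.range n, 1 / 4 * Gm w y (b - v j) (W (v j) ω - W a ω) ^ 2 *
            (δ j : ℝ)
      = 1 / 2 * Sm W a v fm n ω + 1 / 2 * ∑ j ∈ Finset.range n, fr j ω := by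
    intro ω
    have htel : Real.log (NN w y (b - v n) (W (v n) ω - W a ω))
        - Real.log (NN w y (b - v 0) (W (v 0) ω - W a ω)) =
        ∑ j ∈ Finset.range n, (Real.log (NN w y (b - v (j+1)) (W (v (j+1)) ω - W a ω))
          - Real.log (NN w y (b - v j) (W (v j) ω - W a ω))) :=
      (Finset.sum_range_sub (fun j => Real.log (NN w y (b - v j) (W (v j) ω - W a ω))) n).symm
    have hterm : ∀ j, Real.log (NN w y (b - v (j+1)) (W (v (j+1)) ω - W a ω))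
          - Real.log (NN w y (b - v j) (W (v j) ω - W a ω)) =
        Gm w y (b - v j) (W (v j) ω - W a ω) * (W (v (j+1)) ω - W (v j) ω)
          - 1 / 2 * Gm w y (b - v j) (W (v j) ω - W a ω) ^ 2 * (δ j : ℝ)
          + fm j (W (v j) ω - W a ω) (W (v (j+1)) ω - W (v j) ω) + fr j ω := by
      intro j
      simp only [hfm, hfr, rst, hτδ]
      have e1 : W (v j) ω - W a ω + (W (v (j+1)) ω - W (v j) ω) = W (v (j+1)) ω - W a ω := by ring
      rw [e1]
      simp only [hτ]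
      ring
    have h3 : 1 / 2 * Real.log (NN w y (b - v n) (W (v n) ω - W a ω))
        - 1 / 2 * Real.log (NN w y (b - v 0) (W (v 0) ω - W a ω)) =
        1 / 2 * ∑ j ∈ Finset.range n, (Gm w y (b - v j) (W (v j) ω - W a ω) * (W (v (j+1)) ω - W (v j) ω)
          - 1 / 2 * Gm w y (b - v j) (W (v j) ω - W a ω) ^ 2 * (δ j : ℝ)
          + fm j (W (v j) ω - W a ω) (W (v (j+1)) ω - W (v j) ω) + fr j ω) := by
      rw [← mul_sub, htel]
      congr 1
      exact Finset.sum_congr rfl fun j _ => hterm j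
    rw [h3, Sm]
    have e0 : ∀ j, 1 / 2 * Gm w y (b - v j) (W (v j) ω - W a ω) * (W (v (j+1)) ω - W (v j) ω)
      = 1 / 2 * (Gm w y (b - v j) (W (v j) ω - W a ω) * (W (v (j+1)) ω - W (v j) ω)) :=
      fun j => by ring
    have e2 : ∀ j, 1 / 4 * Gm w y (b - v j) (W (v j) ω - W a ω) ^ 2 * (δ j : ℝ) =
      1 / 2 * (1 / 2 * Gm w y (b - v j) (W (v j) ω - W a ω) ^ 2 * (δ j : ℝ)) := fun j => by ring
    simp_rw [e0, e2]
    rw [← Finset.mul_sum, ← Finset.mul_sum, ← mul_sub, ← mul_add, ← mul_add,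
      ← Finset.sum_sub_distrib, ← Finset.sum_add_distrib, ← Finset.sum_add_distrib]
    congr 1
    refine Finset.sum_congr rfl fun j _ => ?_
    ring
  refine (le_of_eq (lintegral_congr fun ω => congrArg enorm (hident ω))).trans ?_
  have hmC : ∀ j x u, |fm j x u| ≤ 3 * K ^ 6 * (u ^ 2 + (v (j+1) - v j : ℝ≥0)) := fun j x u =>
    h.m_le (hετ j) (hδK j) x u
  have hmm : ∀ j, Measurable (Function.uncurry (fm j)) := fun j => measurable_mst _ _ _ _
  have hmean : ∀ j x, ∫ u, fm j x u ∂(gaussianReal 0 (v (j+1) - v j)) = 0 := fun j x =>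
    h.integral_m x
  have hS2 := Sm_sq_le hWm hW hv hav hmm hmC hmean n
  have hSL := memLp_Sm hWm hW hv hmm hmC n (a := a)
  have hsumδ : ∑ j ∈ Finset.range n, (δ j : ℝ) ≤ K := by
    have e1 : ∀ j, (δ j : ℝ) = (v (j+1) : ℝ) - v j := fun j => NNReal.coe_sub (hv (Nat.le_succ j))
    simp_rw [e1]
    rw [Finset.sum_range_sub (fun j => (v j : ℝ))]
    have e2 : (v n : ℝ) ≤ b := by exact_mod_cast (hvc n).trans hcb
    have e3 : (0:ℝ) ≤ v 0 := (v 0).2
    linarith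
  have hηR : ∀ j, (δ j : ℝ) ≤ η := fun j => by exact_mod_cast hη j
  -- martingale part
  have hpart1 : ∫ ω, |Sm W a v fm n ω| ∂P ≤ 3 * K ^ 6 * √(c4 * K) * √(η:ℝ) := by
    have hsq : (∫ ω, |Sm W a v fm n ω| ∂P) ^ 2 ≤ ∫ ω, (Sm W a v fm n ω) ^ 2 ∂P := by
      have hv0 := variance_nonneg (|Sm W a v fm n|) P
      rw [variance_eq_sub hSL.abs] at hv0
      have e1 : ∫ ω, (|Sm W a v fm n| ^ 2) ω ∂P = ∫ ω, (Sm W a v fm n ω) ^ 2 ∂P :=
        integral_congr_ae (ae_of_all _ fun ω => by simp [sq_abs])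
      rw [← e1]
      exact sub_nonneg.1 hv0
    have hb : ∑ j ∈ Finset.range n, (3 * K ^ 6) ^ 2 * (c4 * ((v (j+1) - v j : ℝ≥0) : ℝ) ^ 2) ≤
        (3 * K ^ 6 * √(c4 * K) * √(η:ℝ)) ^ 2 := by
      have e1 : ∀ j ∈ Finset.range n, (3 * K ^ 6) ^ 2 * (c4 * ((v (j+1) - v j : ℝ≥0) : ℝ) ^ 2) ≤
          (3 * K ^ 6) ^ 2 * (c4 * η) * (δ j : ℝ) := by
        intro j _
        have : ((v (j+1) - v j : ℝ≥0) : ℝ) ^ 2 ≤ η * (δ j : ℝ) := by
          rw [pow_two]
          exact mul_le_mul_of_nonneg_right (hηR j) (δ j).2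
        calc _ ≤ (3 * K ^ 6) ^ 2 * (c4 * (η * (δ j : ℝ))) := by
              have := c4_nonneg
              gcongr
          _ = _ := by ring
      refine (Finset.sum_le_sum e1).trans ?_
      rw [← Finset.mul_sum]
      have hc := c4_nonneg
      calc _ ≤ (3 * K ^ 6) ^ 2 * (c4 * η) * K := by gcongr
        _ = _ := by
          have e5 := Real.sq_sqrt (show 0 ≤ c4 * K by positivity)
          have e6 := Real.sq_sqrt (show (0:ℝ) ≤ η from η.2)
          rw [mul_pow (3 * K ^ 6 * √(c4 * K)), mul_pow (3 * K ^ 6), e5, e6]; ring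
    have hfin := hsq.trans (hS2.trans hb)
    have h0 : 0 ≤ ∫ ω, |Sm W a v fm n ω| ∂P := integral_nonneg fun _ => abs_nonneg _
    exact (pow_le_pow_iff_left₀ h0 (by positivity) (by norm_num)).1 hfin
  -- remainder part
  have hfrm : ∀ j, Measurable (fr j) := fun j =>
    (measurable_rst w y (τ j) (δ j)).comp
      (f := fun ω => (W (v j) ω - W a ω, W (v (j+1)) ω - W (v j) ω))
      (((hWm _).sub (hWm _)).prodMk ((hWm _).sub (hWm _)))
  have hfrb : ∀ j, ∀ᵐ ω ∂P, |fr j ω| ≤ 31 * K ^ 17 * Bf (δ j) (W (v (j+1)) ω - W (v j) ω) := by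
    intro j
    refine ae_of_all _ fun ω => h.rst_le' (hετ j) (hδK j) _ _ ?_
    intro h0
    have : v (j+1) = v j := le_antisymm (tsub_eq_zero_iff_le.1 h0) (hv (Nat.le_succ j))
    rw [this]; ring
  have hfrbi : ∀ j, Integrable (fun ω => 31 * K ^ 17 * Bf (δ j) (W (v (j+1)) ω - W (v j) ω)) P :=
    fun j => (integrable_incr hW (hv (Nat.le_succ j)) (integrable_Bf (δ j))).const_mul _
  have hfri : ∀ j, Integrable (fr j) P := fun j =>
    (hfrbi j).mono' (hfrm j).aestronglyMeasurable (by simpa [Real.norm_eq_abs] using hfrb j)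
  have hfrE : ∀ j, ∫ ω, |fr j ω| ∂P ≤ 31 * K ^ 17 * c6 * √(η:ℝ) * (δ j : ℝ) := by
    intro j
    calc ∫ ω, |fr j ω| ∂P ≤ ∫ ω, 31 * K ^ 17 * Bf (δ j) (W (v (j+1)) ω - W (v j) ω) ∂P :=
          integral_mono_ae (hfri j).abs (hfrbi j) (hfrb j)
      _ = 31 * K ^ 17 * ((δ j : ℝ) * √(δ j : ℝ) * c6) := by
          rw [integral_const_mul, integral_incr hW (hv (Nat.le_succ j)) (measurable_Bf (δ j))]
          rw [integral_Bf]
      _ ≤ 31 * K ^ 17 * ((δ j : ℝ) * √(η : ℝ) * c6) := by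
          have := c6_nonneg
          have := Real.sqrt_le_sqrt (hηR j)
          gcongr
      _ = _ := by ring
  have hpart2 : ∫ ω, |∑ j ∈ Finset.range n, fr j ω| ∂P ≤ 31 * K ^ 18 * c6 * √(η:ℝ) := by
    calc ∫ ω, |∑ j ∈ Finset.range n, fr j ω| ∂P ≤ ∫ ω, ∑ j ∈ Finset.range n, |fr j ω| ∂P := by
          refine integral_mono (integrable_finsetSum _ fun j _ => hfri j).abs
            (integrable_finsetSum _ fun j _ => (hfri j).abs) fun ω => ?_
          exact Finset.abs_sum_le_sum_abs _ _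
      _ = ∑ j ∈ Finset.range n, ∫ ω, |fr j ω| ∂P := integral_finsetSum _ fun j _ => (hfri j).abs
      _ ≤ ∑ j ∈ Finset.range n, 31 * K ^ 17 * c6 * √(η:ℝ) * (δ j : ℝ) :=
          Finset.sum_le_sum fun j _ => hfrE j
      _ = 31 * K ^ 17 * c6 * √(η:ℝ) * ∑ j ∈ Finset.range n, (δ j : ℝ) := by rw [Finset.mul_sum]
      _ ≤ 31 * K ^ 17 * c6 * √(η:ℝ) * K := by
          have := c6_nonneg
          gcongr
      _ = _ := by ring
  have hSi : Integrable (Sm W a v fm n) P := hSL.integrable (by norm_num)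
  have hRi : Integrable (fun ω => ∑ j ∈ Finset.range n, fr j ω) P :=
    integrable_finsetSum _ fun j _ => hfri j
  have hTi : Integrable (fun ω => 1 / 2 * Sm W a v fm n ω + 1 / 2 * ∑ j ∈ Finset.range n, fr j ω) P :=
    (hSi.const_mul _).add (hRi.const_mul _)
  rw [← ofReal_integral_norm_eq_lintegral_enorm hTi]
  refine ENNReal.ofReal_le_ofReal ?_
  calc ∫ ω, |1 / 2 * Sm W a v fm n ω + 1 / 2 * ∑ j ∈ Finset.range n, fr j ω| ∂P
      ≤ ∫ ω, (1 / 2 * |Sm W a v fm n ω| + 1 / 2 * |∑ j ∈ Finset.range n, fr j ω|) ∂P := by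
        refine integral_mono ((hSi.const_mul _).add (hRi.const_mul _)).abs
          ((hSi.abs.const_mul _).add (hRi.abs.const_mul _)) fun ω => ?_
        refine (abs_add_le _ _).trans (le_of_eq ?_)
        rw [abs_mul, abs_mul, abs_of_pos (by norm_num : (0:ℝ) < 1 / 2)]
    _ = 1 / 2 * ∫ ω, |Sm W a v fm n ω| ∂P + 1 / 2 * ∫ ω, |∑ j ∈ Finset.range n, fr j ω| ∂P := by
        have := integral_add (hSi.abs.const_mul (1/2)) (hRi.abs.const_mul (1/2))
        rw [← integral_const_mul, ← integral_const_mul]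
        exact this
    _ ≤ 1 / 2 * (3 * K ^ 6 * √(c4 * K) * √(η:ℝ)) + 1 / 2 * (31 * K ^ 18 * c6 * √(η:ℝ)) := by
        gcongr
    _ = _ := by ring

end Pool.Agent.Helper95.BSDE
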