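import Mathlib
import Pool.Agent.Helper95.BSDEStage
import Pool.Agent.Helper95.BSDEDefs

set_option autoImplicit false
set_option linter.unusedSectionVars false

open MeasureTheory ProbabilityTheory Filter Topology Set
open scoped NNReal ENNReal

namespace Pool.Agent.Helper95.BSDE

universe u

variable {Ω : Type u} {mΩ : MeasurableSpace Ω} {P : Measure Ω} [IsProbabilityMeasure P]
  {W : ℝ≥0 → Ω → ℝ}

lemma lint_sq (hW : IsPreBrownianReal W P) {u s η : ℝ≥0} (hus : u ≤ s) (hη : s - u ≤ η)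
    (hη1 : η ≤ 1) :
    ∫⁻ ω, ENNReal.ofReal ((|(s:ℝ) - u| + |W s ω - W u ω|) ^ 2) ∂P ≤ ENNReal.ofReal (4 * η) := by
  have e0 : |(s:ℝ) - u| = ((s - u : ℝ≥0) : ℝ) := by
    rw [NNReal.coe_sub hus, abs_of_nonneg]
    exact sub_nonneg.2 hus
  have hη' : ((s - u : ℝ≥0) : ℝ) ≤ η := by exact_mod_cast hη
  have hη1' : (η:ℝ) ≤ 1 := by exact_mod_cast hη1
  set d : ℝ := ((s - u : ℝ≥0) : ℝ) with hd
  have hd0 : 0 ≤ d := (s - u).2
  have hint : Integrable (fun x : ℝ => 2 * d ^ 2 + 2 * x ^ 2) (gaussianReal 0 (s - u)) :=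
    (integrable_const _).add ((integrable_pow_gaussian _ 2).const_mul 2)
  have h1 : ∀ ω, ENNReal.ofReal ((|(s:ℝ) - u| + |W s ω - W u ω|) ^ 2) ≤
      ENNReal.ofReal (2 * d ^ 2 + 2 * (W s ω - W u ω) ^ 2) := by
    intro ω
    refine ENNReal.ofReal_le_ofReal ?_
    rw [e0]
    have := sq_abs (W s ω - W u ω)
    nlinarith [sq_nonneg (d - |W s ω - W u ω|)]
  refine (lintegral_mono h1).trans ?_
  rw [← ofReal_integral_eq_lintegral_ofReal (integrable_incr hW hus hint)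
    (ae_of_all _ fun ω => by positivity)]
  refine ENNReal.ofReal_le_ofReal ?_
  rw [integral_incr hW hus (F := fun x => 2 * d ^ 2 + 2 * x ^ 2) (by fun_prop)]
  rw [integral_add (integrable_const _) ((integrable_pow_gaussian _ 2).const_mul 2),
    integral_const_mul 2 (fun x : ℝ => x ^ 2), integral_sq_gaussian]
  simp only [integral_const, probReal_univ, smul_eq_mul, one_mul]
  nlinarith

lemma lint_one (hW : IsPreBrownianReal W P) {u s η : ℝ≥0} (hus : u ≤ s) (hη : s - u ≤ η)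
    (hη0 : 0 < η) (hη1 : η ≤ 1) :
    ∫⁻ ω, ENNReal.ofReal (|(s:ℝ) - u| + |W s ω - W u ω|) ∂P ≤ ENNReal.ofReal (3 * √(η:ℝ)) := by
  have hη0' : (0:ℝ) < η := by exact_mod_cast hη0
  have hs0 : 0 < √(η:ℝ) := Real.sqrt_pos.2 hη0'
  have h1 : ∀ ω, ENNReal.ofReal (|(s:ℝ) - u| + |W s ω - W u ω|) ≤
      ENNReal.ofReal ((2 * √(η:ℝ))⁻¹) * ENNReal.ofReal ((|(s:ℝ) - u| + |W s ω - W u ω|) ^ 2)
        + ENNReal.ofReal (√(η:ℝ) / 2) := by
    intro ω
    rw [← ENNReal.ofReal_mul (by positivity), ← ENNReal.ofReal_add (by positivity) (by positivity)]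
    refine ENNReal.ofReal_le_ofReal ?_
    set x := |(s:ℝ) - u| + |W s ω - W u ω|
    have : (2 * √(η:ℝ))⁻¹ * x ^ 2 + √(η:ℝ) / 2 - x = (2 * √(η:ℝ))⁻¹ * (x - √(η:ℝ)) ^ 2 := by
      field_simp; ring
    have h2 : 0 ≤ (2 * √(η:ℝ))⁻¹ * (x - √(η:ℝ)) ^ 2 := by positivity
    linarith
  refine (lintegral_mono h1).trans ?_
  rw [lintegral_add_right _ measurable_const, lintegral_const_mul' _ _ ENNReal.ofReal_ne_top]
  simp only [lintegral_const, measure_univ, mul_one]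
  calc _ ≤ ENNReal.ofReal ((2 * √(η:ℝ))⁻¹) * ENNReal.ofReal (4 * η) + ENNReal.ofReal (√(η:ℝ) / 2) := by
        gcongr
        exact lint_sq hW hus hη hη1
    _ = ENNReal.ofReal ((2 * √(η:ℝ))⁻¹ * (4 * η) + √(η:ℝ) / 2) := by
        rw [← ENNReal.ofReal_mul (by positivity), ← ENNReal.ofReal_add (by positivity) (by positivity)]
    _ ≤ _ := by
        refine ENNReal.ofReal_le_ofReal ?_
        have hss : √(η:ℝ) * √(η:ℝ) = η := Real.mul_self_sqrt hη0'.le
        have : (2 * √(η:ℝ))⁻¹ * (4 * η) = 2 * √(η:ℝ) := by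
          rw [inv_mul_eq_iff_eq_mul₀ (by positivity)]
          linarith
        rw [this]; linarith

lemma measurable_path (hWm : ∀ t, Measurable (W t)) (hWc : ∀ ω, Continuous fun t => W t ω) :
    Measurable (fun z : ℝ × Ω => W z.1.toNNReal z.2) := by
  have h := measurable_uncurry_of_continuous_of_measurable (u := W) hWc hWm
  exact h.comp (f := fun z : ℝ × Ω => (z.1.toNNReal, z.2))
    ((measurable_real_toNNReal.comp measurable_fst).prodMk measurable_snd)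

lemma fub_gen (hWm : ∀ t, Measurable (W t)) (hWc : ∀ ω, Continuous fun t => W t ω)
    {u u' : ℝ≥0} {F : ℝ → ℝ} (hF : Measurable F) {C : ℝ}
    (h : ∀ s : ℝ≥0, u ≤ s → s ≤ u' →
      ∫⁻ ω, ENNReal.ofReal (F (|(s:ℝ) - u| + |W s ω - W u ω|)) ∂P ≤ ENNReal.ofReal C) :
    ∫⁻ ω, (∫⁻ s in Ioc (u:ℝ) u', ENNReal.ofReal (F (|s - u| + |W s.toNNReal ω - W u ω|))) ∂P ≤
      ENNReal.ofReal C * ENNReal.ofReal (u' - u) := by
  have hm : Measurable (fun z : Ω × ℝ => ENNReal.ofReal (F (|z.2 - u| + |W z.2.toNNReal z.1 - W u z.1|))) := by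
    have h1 := (measurable_path hWm hWc).comp (f := fun z : Ω × ℝ => (z.2, z.1)) measurable_swap
    have h2 : Measurable (fun z : Ω × ℝ => W u z.1) := (hWm u).comp measurable_fst
    simp only [Function.comp_def] at h1
    have h3 : Measurable (fun z : Ω × ℝ => |W z.2.toNNReal z.1 - W u z.1|) :=
      measurable_norm.comp (h1.sub h2)
    have h4 : Measurable (fun z : Ω × ℝ => |z.2 - u|) :=
      measurable_norm.comp (measurable_snd.sub measurable_const)
    exact ENNReal.measurable_ofReal.comp (hF.comp (h4.add h3))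
  rw [lintegral_lintegral_swap hm.aemeasurable]
  calc _ ≤ ∫⁻ s in Ioc (u:ℝ) u', ENNReal.ofReal C := by
        refine setLIntegral_mono measurable_const fun s hs => ?_
        have hs0 : 0 ≤ s := u.2.trans hs.1.le
        have h1 := h s.toNNReal (by rw [← NNReal.coe_le_coe, Real.coe_toNNReal _ hs0]; exact hs.1.le)
          (by rw [← NNReal.coe_le_coe, Real.coe_toNNReal _ hs0]; exact hs.2)
        rw [Real.coe_toNNReal _ hs0] at h1
        exact h1
    _ = _ := by rw [setLIntegral_const, Real.volume_Ioc]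

lemma fub_sq (hWm : ∀ t, Measurable (W t)) (hWc : ∀ ω, Continuous fun t => W t ω)
    (hW : IsPreBrownianReal W P) {u u' η : ℝ≥0} (hη : u' - u ≤ η) (hη1 : η ≤ 1) :
    ∫⁻ ω, (∫⁻ s in Ioc (u:ℝ) u', ENNReal.ofReal ((|s - u| + |W s.toNNReal ω - W u ω|) ^ 2)) ∂P ≤
      ENNReal.ofReal (4 * η) * ENNReal.ofReal (u' - u) :=
  fub_gen hWm hWc (F := fun x => x ^ 2) (by fun_prop) fun _ h1 h2 =>
    lint_sq hW h1 ((tsub_le_tsub_right h2 _).trans hη) hη1

lemma fub_one (hWm : ∀ t, Measurable (W t)) (hWc : ∀ ω, Continuous fun t => W t ω)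
    (hW : IsPreBrownianReal W P) {u u' η : ℝ≥0} (hη : u' - u ≤ η) (hη0 : 0 < η) (hη1 : η ≤ 1) :
    ∫⁻ ω, (∫⁻ s in Ioc (u:ℝ) u', ENNReal.ofReal (|s - u| + |W s.toNNReal ω - W u ω|)) ∂P ≤
      ENNReal.ofReal (3 * √(η:ℝ)) * ENNReal.ofReal (u' - u) :=
  fub_gen hWm hWc (F := fun x => x) (by fun_prop) fun _ h1 h2 =>
    lint_one hW h1 ((tsub_le_tsub_right h2 _).trans hη) hη0 hη1

end Pool.Agent.Helper95.BSDE
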