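import Mathlib
import Pool.Agent.Helper95.BSDEFub

set_option autoImplicit false
set_option linter.unusedSectionVars false

open MeasureTheory ProbabilityTheory Filter Topology Set
open scoped NNReal ENNReal

namespace Pool.Agent.Helper95.BSDE

universe u

variable {Ω : Type u} {mΩ : MeasurableSpace Ω} {P : Measure Ω} [IsProbabilityMeasure P]
  {W : ℝ≥0 → Ω → ℝ}

/-- increment of `W` over the stage `[a, b]` -/
noncomputable def stX (W : ℝ≥0 → Ω → ℝ) (a b t : ℝ≥0) (ω : Ω) : ℝ :=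
  W (min t b) ω - W (min t a) ω

/-- increment of the log of the martingale over the stage `[a, b]` -/
noncomputable def stL (w y : ℝ) (W : ℝ≥0 → Ω → ℝ) (a b t : ℝ≥0) (ω : Ω) : ℝ :=
  1 / 2 * Real.log (NN w y (b - t) (stX W a b t ω)) - 1 / 2 * Real.log ((w + y) / 2)

/-- integrand in the stage `[a, b]` -/
noncomputable def stZ (w y : ℝ) (W : ℝ≥0 → Ω → ℝ) (a b t : ℝ≥0) (ω : Ω) : ℝ :=
  if a < t then 1 / 2 * Gm w y (b - t) (stX W a b t ω) else 0

/-- simple process approximating the integrand -/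
noncomputable def grd (w y : ℝ) (W : ℝ≥0 → Ω → ℝ) (a b : ℝ≥0) (u : ℕ → ℝ≥0) (n : ℕ) :
    List (Elem Ω) :=
  (List.range n).map fun j =>
    ⟨u j, u (j + 1), fun ω => 1 / 2 * Gm w y (b - u j) (W (u j) ω - W a ω)⟩

lemma sum_map_range (f : ℕ → ℝ) (n : ℕ) : ((List.range n).map f).sum = ∑ j ∈ Finset.range n, f j := by
  induction n with
  | zero => simp
  | succ n ih => rw [List.range_succ, List.map_append, List.sum_append, Finset.sum_range_succ, ih]; simp

lemma sval_grd (w y : ℝ) (a b : ℝ≥0) (u : ℕ → ℝ≥0) (n : ℕ) (t : ℝ≥0) (ω : Ω) :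
    sval (grd w y W a b u n) t ω = ∑ j ∈ Finset.range n,
      if u j < t ∧ t ≤ u (j + 1) then 1 / 2 * Gm w y (b - u j) (W (u j) ω - W a ω) else 0 := by
  rw [sval, grd, List.map_map, ← sum_map_range]
  rfl

lemma sint_grd (w y : ℝ) (a b : ℝ≥0) (u : ℕ → ℝ≥0) (n : ℕ) (t : ℝ≥0) (ω : Ω) :
    sint W (grd w y W a b u n) t ω = ∑ j ∈ Finset.range n,
      1 / 2 * Gm w y (b - u j) (W (u j) ω - W a ω) *
        (W (min (u (j + 1)) t) ω - W (min (u j) t) ω) := by
  rw [sint, grd, List.map_map, ← sum_map_range]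
  rfl

lemma stX_mid {a b t : ℝ≥0} (h1 : a ≤ t) (h2 : t ≤ b) (ω : Ω) :
    stX W a b t ω = W t ω - W a ω := by
  rw [stX, min_eq_left h2, min_eq_right h1]

lemma stL_le {w y : ℝ} {a b t : ℝ≥0} (hab : a < b) (h : t ≤ a) (ω : Ω) :
    stL w y W a b t ω = 0 := by
  rw [stL, stX, min_eq_left h, min_eq_left (h.trans hab.le), sub_self, NN, q_zero_right]
  · have : w + (y - w) * (1 / 2) = (w + y) / 2 := by ring
    rw [this]; ring
  · exact (tsub_pos_of_lt (h.trans_lt hab)).ne'

lemma stL_mid {w y : ℝ} {a b t : ℝ≥0} (h1 : a ≤ t) (h2 : t ≤ b) (ω : Ω) :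
    stL w y W a b t ω = 1 / 2 * Real.log (NN w y (b - t) (W t ω - W a ω))
      - 1 / 2 * Real.log ((w + y) / 2) := by
  rw [stL, stX_mid h1 h2]

lemma measurable_stX (hWm : ∀ t, Measurable (W t)) (a b t : ℝ≥0) : Measurable (stX W a b t) :=
  (hWm _).sub (hWm _)

lemma measurable_stXu (hWm : ∀ t, Measurable (W t)) (hWc : ∀ ω, Continuous fun t => W t ω)
    (a b : ℝ≥0) : Measurable (fun z : ℝ≥0 × Ω => stX W a b z.1 z.2) := by
  have h := measurable_uncurry_of_continuous_of_measurable (u := W) hWc hWm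
  have h1 := h.comp (f := fun z : ℝ≥0 × Ω => (min z.1 b, z.2))
    ((measurable_fst.min measurable_const).prodMk measurable_snd)
  have h2 := h.comp (f := fun z : ℝ≥0 × Ω => (min z.1 a, z.2))
    ((measurable_fst.min measurable_const).prodMk measurable_snd)
  exact h1.sub h2

lemma measurable_stZu (hWm : ∀ t, Measurable (W t)) (hWc : ∀ ω, Continuous fun t => W t ω)
    (w y : ℝ) (a b : ℝ≥0) : Measurable (fun z : ℝ≥0 × Ω => stZ w y W a b z.1 z.2) := by
  have h := measurable_stXu hWm hWc a b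
  have h2 : Measurable (fun z : ℝ≥0 × Ω => 1 / 2 * Gm w y (b - z.1) (stX W a b z.1 z.2)) := by
    refine measurable_const.mul ((measurable_Gm_uncurry w y).comp
      (f := fun z : ℝ≥0 × Ω => (b - z.1, stX W a b z.1 z.2)) ?_)
    exact (measurable_const.sub measurable_fst).prodMk h
  exact Measurable.ite (measurableSet_lt measurable_const measurable_fst) h2 measurable_const

lemma measurable_stZr (hWm : ∀ t, Measurable (W t)) (hWc : ∀ ω, Continuous fun t => W t ω)
    (w y : ℝ) (a b : ℝ≥0) : Measurable (fun z : ℝ × Ω => stZ w y W a b z.1.toNNReal z.2) :=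
  (measurable_stZu hWm hWc w y a b).comp (f := fun z : ℝ × Ω => (z.1.toNNReal, z.2))
    ((measurable_real_toNNReal.comp measurable_fst).prodMk measurable_snd)

lemma measurable_stLu (hWm : ∀ t, Measurable (W t)) (hWc : ∀ ω, Continuous fun t => W t ω)
    (w y : ℝ) (a b : ℝ≥0) : Measurable (fun z : ℝ≥0 × Ω => stL w y W a b z.1 z.2) := by
  have h := measurable_stXu hWm hWc a b
  have h2 : Measurable (fun z : ℝ≥0 × Ω => NN w y (b - z.1) (stX W a b z.1 z.2)) :=
    (measurable_NN_uncurry w y).comp (f := fun z : ℝ≥0 × Ω => (b - z.1, stX W a b z.1 z.2))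
      ((measurable_const.sub measurable_fst).prodMk h)
  exact (measurable_const.mul (Real.measurable_log.comp h2)).sub measurable_const

/-- the clipped grid -/
noncomputable def clip (a t : ℝ≥0) (u : ℕ → ℝ≥0) (j : ℕ) : ℝ≥0 := max a (min (u j) t)

lemma clip_mono {a t : ℝ≥0} {u : ℕ → ℝ≥0} (hu : Monotone u) : Monotone (clip a t u) :=
  fun _ _ h => max_le_max le_rfl (min_le_min (hu h) le_rfl)

lemma clip_zero {a t : ℝ≥0} {u : ℕ → ℝ≥0} (hu : u 0 = a) : clip a t u 0 = a := by
  rw [clip, hu]; exact max_eq_left (min_le_left _ _)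

lemma clip_step {a t : ℝ≥0} {u : ℕ → ℝ≥0} {η : ℝ≥0} (hη : ∀ j, u (j+1) - u j ≤ η) (j : ℕ) :
    clip a t u (j+1) - clip a t u j ≤ η := by
  rw [tsub_le_iff_right, clip, clip]
  have h := tsub_le_iff_right.1 (hη j)
  refine max_le ((le_max_left _ _).trans le_add_self) ?_
  rcases le_total (u j) t with h1 | h1
  · rw [min_eq_left h1]
    exact (min_le_left _ _).trans (h.trans (add_le_add le_rfl (le_max_right _ _)))
  · rw [min_eq_right h1]
    exact (min_le_right _ _).trans ((le_max_right _ _).trans le_add_self)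

lemma sint_clip (w y : ℝ) {a b : ℝ≥0} {u : ℕ → ℝ≥0} (hu : Monotone u) (hu0 : u 0 = a) (n : ℕ)
    (t : ℝ≥0) (ω : Ω) :
    sint W (grd w y W a b u n) t ω = ∑ j ∈ Finset.range n,
      1 / 2 * Gm w y (b - clip a t u j) (W (clip a t u j) ω - W a ω) *
        (W (clip a t u (j + 1)) ω - W (clip a t u j) ω) := by
  rw [sint_grd]
  refine Finset.sum_congr rfl fun j _ => ?_
  have haj : a ≤ u j := hu0 ▸ hu (Nat.zero_le j)
  rcases le_or_gt t (u j) with h | h
  · have h1 : min (u j) t = t := min_eq_right h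
    have h2 : min (u (j+1)) t = t := min_eq_right (h.trans (hu (Nat.le_succ j)))
    simp only [clip, h1, h2, sub_self, mul_zero]
  · have h1 : min (u j) t = u j := min_eq_left h.le
    have h2 : clip a t u j = u j := by rw [clip, h1]; exact max_eq_right haj
    have h3 : clip a t u (j+1) = min (u (j+1)) t := by
      rw [clip]
      refine max_eq_right (le_min (haj.trans (hu (Nat.le_succ j))) (haj.trans h.le))
    rw [h1, h2, h3]

lemma clip_n {a t : ℝ≥0} {u : ℕ → ℝ≥0} (n : ℕ) : clip a t u n = max a (min t (u n)) := by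
  rw [clip, min_comm]

lemma NN_start {w y : ℝ} {a b : ℝ≥0} (hab : a < b) (ω : Ω) :
    NN w y (b - a) (W a ω - W a ω) = (w + y) / 2 := by
  rw [sub_self, NN, q_zero_right]
  · ring
  · exact (tsub_pos_of_lt hab).ne'

lemma stL_clip {w y : ℝ} {a b c : ℝ≥0} (hcb : c < b) {u : ℕ → ℝ≥0}
    (hu0 : u 0 = a) (huc : ∀ j, u j ≤ c) (n : ℕ) (t : ℝ≥0) (ω : Ω) :
    stL w y W a b (min t (u n)) ω =
      1 / 2 * Real.log (NN w y (b - clip a t u n) (W (clip a t u n) ω - W a ω))
      - 1 / 2 * Real.log (NN w y (b - clip a t u 0) (W (clip a t u 0) ω - W a ω)) := by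
  have hab : a < b := (hu0 ▸ huc 0).trans_lt hcb
  rw [clip_zero hu0, NN_start hab, clip_n]
  rcases le_total (min t (u n)) a with h | h
  · rw [max_eq_left h, NN_start hab, stL_le hab h, sub_self]
  · rw [max_eq_right h, stL_mid h ((min_le_right _ _).trans ((huc n).trans hcb.le))]

lemma stZ_zero_int {w y : ℝ} {a b t : ℝ≥0} (h : t ≤ a) (ω : Ω) :
    ∫ s in (0:ℝ)..t, stZ w y W a b s.toNNReal ω ^ 2 = 0 := by
  refine intervalIntegral.integral_zero_ae (ae_of_all _ fun s hs => ?_)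
  rw [uIoc_of_le (NNReal.coe_nonneg t)] at hs
  have : ¬ a < s.toNNReal := by
    rw [not_lt]
    exact (Real.toNNReal_le_iff_le_coe.2 hs.2).trans h
  simp [stZ, this]

lemma stZ_eq {w y : ℝ} {a b s : ℝ≥0} (h1 : a < s) (h2 : s ≤ b) (ω : Ω) :
    stZ w y W a b s ω = 1 / 2 * Gm w y (b - s) (W s ω - W a ω) := by
  rw [stZ, if_pos h1, stX_mid h1.le h2]

lemma stZ_sq_le {w y : ℝ} {a b c : ℝ≥0} {K : ℝ} (h : Bd w y (b - c) K) {s : ℝ≥0} (hs : s ≤ c)
    (ω : Ω) : stZ w y W a b s ω ^ 2 ≤ K ^ 6 := by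
  have hK := h.one_le
  have hK0 := h.Kpos
  rw [stZ]
  split_ifs with h1
  · have h2 := h.Gm_le (tsub_le_tsub_left hs b) (stX W a b s ω)
    have h3 : Gm w y (b - s) (stX W a b s ω) ^ 2 ≤ (K ^ 3) ^ 2 := by
      rw [← sq_abs]; gcongr
    nlinarith [sq_nonneg (Gm w y (b - s) (stX W a b s ω))]
  · simp only [ne_eq, OfNat.ofNat_ne_zero, not_false_eq_true, zero_pow]
    positivity

lemma stZ_intervalIntegrable (hWm : ∀ t, Measurable (W t)) (hWc : ∀ ω, Continuous fun t => W t ω)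
    {w y : ℝ} {a b c : ℝ≥0} {K : ℝ} (h : Bd w y (b - c) K) (ω : Ω) {x z : ℝ}
    (hx : x ∈ Icc (0:ℝ) c) (hz : z ∈ Icc (0:ℝ) c) :
    IntervalIntegrable (fun s : ℝ => stZ w y W a b s.toNNReal ω ^ 2) volume x z := by
  rw [intervalIntegrable_iff]
  refine Measure.integrableOn_of_bounded (M := K ^ 6) (by simp) ?_ ?_
  · have h1 := (measurable_stZr hWm hWc w y a b).comp (f := fun s : ℝ => (s, ω)) (by fun_prop)
    exact (h1.pow_const 2).aestronglyMeasurable
  · refine (ae_restrict_iff' measurableSet_uIoc).2 (ae_of_all _ fun s hs => ?_)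
    rw [Real.norm_eq_abs, abs_of_nonneg (sq_nonneg _)]
    refine stZ_sq_le h ?_ ω
    rw [Real.toNNReal_le_iff_le_coe]
    rw [mem_uIoc] at hs
    rcases hs with hs | hs
    · exact hs.2.trans hz.2
    · exact hs.2.trans hx.2

lemma stZ_clip (hWm : ∀ t, Measurable (W t)) (hWc : ∀ ω, Continuous fun t => W t ω)
    {w y : ℝ} {a b c : ℝ≥0} {K : ℝ} (hcb : c < b) (h : Bd w y (b - c) K)
    {u : ℕ → ℝ≥0} (hu0 : u 0 = a) (huc : ∀ j, u j ≤ c) (n : ℕ)
    (t : ℝ≥0) (ω : Ω) :
    ∫ s in (0:ℝ)..(min t (u n) : ℝ≥0), stZ w y W a b s.toNNReal ω ^ 2 =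
      ∫ s in (clip a t u 0 : ℝ)..(clip a t u n : ℝ),
        1 / 4 * Gm w y (b - s.toNNReal) (W s.toNNReal ω - W a ω) ^ 2 := by
  have hac : a ≤ c := hu0 ▸ huc 0
  rw [clip_zero hu0, clip_n]
  rcases le_total (min t (u n)) a with h' | h'
  · rw [max_eq_left h', stZ_zero_int h', intervalIntegral.integral_same]
  · have hmc : min t (u n) ≤ c := (min_le_right _ _).trans (huc n)
    rw [max_eq_right h', ← intervalIntegral.integral_add_adjacent_intervals (b := (a:ℝ))
      (stZ_intervalIntegrable hWm hWc h ω ⟨le_rfl, NNReal.coe_nonneg c⟩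
        ⟨NNReal.coe_nonneg a, by exact_mod_cast hac⟩)
      (stZ_intervalIntegrable hWm hWc h ω ⟨NNReal.coe_nonneg a, by exact_mod_cast hac⟩
        ⟨NNReal.coe_nonneg _, by exact_mod_cast hmc⟩),
      stZ_zero_int le_rfl, zero_add]
    refine intervalIntegral.integral_congr_ae (ae_of_all _ fun s hs => ?_)
    rw [uIoc_of_le (by exact_mod_cast h')] at hs
    have h1 : a < s.toNNReal := by
      rw [Real.lt_toNNReal_iff_coe_lt]
      exact hs.1
    have h2 : s.toNNReal ≤ b := by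
      rw [Real.toNNReal_le_iff_le_coe]
      refine hs.2.trans ?_
      exact_mod_cast hmc.trans hcb.le
    rw [stZ_eq h1 h2]
    ring

/-- constant in the error bounds -/
noncomputable def Cst (K : ℝ) : ℝ := 3 / 2 * K ^ 6 * √(c4 * K) + 31 / 2 * K ^ 18 * c6 + 3 * K ^ 10

lemma stage_err1 (hWm : ∀ t, Measurable (W t)) (hWc : ∀ ω, Continuous fun t => W t ω)
    (hW : IsPreBrownianReal W P)
    {w y : ℝ} {a b c : ℝ≥0} {K : ℝ} (hcb : c < b) (h : Bd w y (b - c) K) (hbK : (b:ℝ) ≤ K)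
    {u : ℕ → ℝ≥0} (hu : Monotone u) (hu0 : u 0 = a) (huc : ∀ j, u j ≤ c)
    {η : ℝ≥0} (hη0 : 0 < η) (hη1 : η ≤ 1) (hη : ∀ j, u (j+1) - u j ≤ η) (n : ℕ) (t : ℝ≥0) :
    ∫⁻ ω, ‖stL w y W a b (min t (u n)) ω
      + (∫ s in (0:ℝ)..(min t (u n) : ℝ≥0), stZ w y W a b s.toNNReal ω ^ 2)
      - sint W (grd w y W a b u n) t ω‖ₑ ∂P ≤ ENNReal.ofReal (Cst K * √(η:ℝ)) := by
  have hK0 := h.Kpos
  have hK1 := h.one_le
  have hac : a ≤ c := hu0 ▸ huc 0
  have hab : a < b := hac.trans_lt hcb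
  set v := clip a t u with hvdef
  have hv : Monotone v := clip_mono hu
  have hv0 : v 0 = a := clip_zero hu0
  have hvc : ∀ j, v j ≤ c := fun j => max_le hac ((min_le_left _ _).trans (huc j))
  have hvη : ∀ j, v (j+1) - v j ≤ η := clip_step hη
  have hmain := grid_expansion hWm hW hcb.le h hbK hv hv0.ge hvc hvη n
  set G : Ω → ℝ → ℝ := fun ω s => 1 / 4 * Gm w y (b - s.toNNReal) (W s.toNNReal ω - W a ω) ^ 2
    with hG
  have hGm : ∀ ω, Measurable (G ω) := by
    intro ω
    have h1 := (measurable_path hWm hWc).comp (f := fun s : ℝ => (s, ω)) (by fun_prop)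
    simp only [Function.comp_def] at h1
    refine measurable_const.mul (Measurable.pow_const ?_ 2)
    exact (measurable_Gm_uncurry w y).comp
      (f := fun s : ℝ => (b - s.toNNReal, W s.toNNReal ω - W a ω))
      ((measurable_const.sub measurable_real_toNNReal).prodMk (h1.sub measurable_const))
  have hGb : ∀ ω (s : ℝ), s ≤ c → |G ω s| ≤ K ^ 6 := by
    intro ω s hs
    have h2 := h.Gm_le (tsub_le_tsub_left (Real.toNNReal_le_iff_le_coe.2 hs) b)
      (W s.toNNReal ω - W a ω)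
    have h3 : Gm w y (b - s.toNNReal) (W s.toNNReal ω - W a ω) ^ 2 ≤ (K ^ 3) ^ 2 := by
      rw [← sq_abs]; gcongr
    rw [hG, abs_of_nonneg (by positivity)]
    simp only
    nlinarith [sq_nonneg (Gm w y (b - s.toNNReal) (W s.toNNReal ω - W a ω))]
  have hGi : ∀ ω (x z : ℝ), x ≤ c → z ≤ c → IntervalIntegrable (G ω) volume x z := by
    intro ω x z hx hz
    rw [intervalIntegrable_iff]
    refine Measure.integrableOn_of_bounded (M := K ^ 6) (by simp) (hGm ω).aestronglyMeasurable ?_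
    refine (ae_restrict_iff' measurableSet_uIoc).2 (ae_of_all _ fun s hs => hGb ω s ?_)
    rw [mem_uIoc] at hs
    rcases hs with hs | hs
    · exact hs.2.trans hz
    · exact hs.2.trans hx
  have hvcR : ∀ j, (v j : ℝ) ≤ c := fun j => by exact_mod_cast hvc j
  -- the Riemann sum error
  set R : Ω → ℝ := fun ω => ∑ j ∈ Finset.range n,
    ∫ s in (v j : ℝ)..(v (j+1) : ℝ), (G ω (v j) - G ω s) with hR
  have hGv : ∀ ω j, G ω (v j) = 1 / 4 * Gm w y (b - v j) (W (v j) ω - W a ω) ^ 2 := by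
    intro ω j
    simp only [hG, Real.toNNReal_coe]
  have hdec : ∀ ω, stL w y W a b (min t (u n)) ω
      + (∫ s in (0:ℝ)..(min t (u n) : ℝ≥0), stZ w y W a b s.toNNReal ω ^ 2)
      - sint W (grd w y W a b u n) t ω =
      (1 / 2 * Real.log (NN w y (b - v n) (W (v n) ω - W a ω))
        - 1 / 2 * Real.log (NN w y (b - v 0) (W (v 0) ω - W a ω))
        - ∑ j ∈ Finset.range n, 1 / 2 * Gm w y (b - v j) (W (v j) ω - W a ω) *
            (W (v (j+1)) ω - W (v j) ω)
        + ∑ j ∈ Finset.range n, 1 / 4 * Gm w y (b - v j) (W (v j) ω - W a ω) ^ 2 *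
            ((v (j+1) - v j : ℝ≥0) : ℝ)) + (- R ω) := by
    intro ω
    have e1 : R ω = (∑ j ∈ Finset.range n, 1 / 4 * Gm w y (b - v j) (W (v j) ω - W a ω) ^ 2 *
            ((v (j+1) - v j : ℝ≥0) : ℝ)) - ∫ s in (v 0 : ℝ)..(v n : ℝ), G ω s := by
      rw [← intervalIntegral.sum_integral_adjacent_intervals (a := fun j => (v j : ℝ))
        (fun k _ => hGi ω _ _ (hvcR k) (hvcR (k+1))), hR]
      simp only
      rw [← Finset.sum_sub_distrib]
      refine Finset.sum_congr rfl fun j _ => ?_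
      rw [intervalIntegral.integral_sub intervalIntegrable_const (hGi ω _ _ (hvcR j) (hvcR (j+1))),
        intervalIntegral.integral_const, hGv, smul_eq_mul, NNReal.coe_sub (hv (Nat.le_succ j))]
      ring
    rw [e1, stL_clip hcb hu0 huc n t ω, stZ_clip hWm hWc hcb h hu0 huc n t ω, sint_clip w y hu hu0]
    ring
  have hRb : ∀ ω, ‖R ω‖ₑ ≤ ∑ j ∈ Finset.range n, ENNReal.ofReal (K ^ 9) *
      ∫⁻ s in Ioc (v j : ℝ) (v (j+1)), ENNReal.ofReal (|s - v j| + |W s.toNNReal ω - W (v j) ω|) := by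
    intro ω
    refine (enorm_sum_le _ _).trans (Finset.sum_le_sum fun j _ => ?_)
    rw [intervalIntegral.integral_of_le (by exact_mod_cast hv (Nat.le_succ j))]
    refine (enorm_integral_le_lintegral_enorm _).trans ?_
    rw [← lintegral_const_mul' _ _ ENNReal.ofReal_ne_top]
    refine setLIntegral_mono_ae' measurableSet_Ioc (ae_of_all _ fun s hs => ?_)
    rw [← ENNReal.ofReal_mul (by positivity), ← ofReal_norm]
    refine ENNReal.ofReal_le_ofReal ?_
    have hs0 : 0 ≤ s := (NNReal.coe_nonneg _).trans hs.1.le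
    have hsc : s.toNNReal ≤ c := Real.toNNReal_le_iff_le_coe.2 (hs.2.trans (hvcR _))
    have h5 := h.Gm_sq_lip (tsub_le_tsub_left (hvc j) b) (tsub_le_tsub_left hsc b)
      (W (v j) ω - W a ω) (W s.toNNReal ω - W a ω)
    have e2 : |((b - v j : ℝ≥0) : ℝ) - ((b - s.toNNReal : ℝ≥0) : ℝ)| = |s - v j| := by
      rw [NNReal.coe_sub ((hvc j).trans hcb.le), NNReal.coe_sub (hsc.trans hcb.le),
        Real.coe_toNNReal _ hs0]
      congr 1; ring
    have e3 : |W (v j) ω - W a ω - (W s.toNNReal ω - W a ω)| = |W s.toNNReal ω - W (v j) ω| := by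
      rw [abs_sub_comm]; congr 1; ring
    rw [e2, e3] at h5
    rw [hGv, Real.norm_eq_abs]
    simp only [hG]
    rw [← mul_sub, abs_mul, abs_of_pos (by norm_num : (0:ℝ) < 1 / 4)]
    linarith
  have hRE : ∫⁻ ω, ‖R ω‖ₑ ∂P ≤ ENNReal.ofReal (3 * K ^ 10 * √(η:ℝ)) := by
    have hmj : ∀ j, Measurable (fun ω => ∫⁻ s in Ioc (v j : ℝ) (v (j+1)),
        ENNReal.ofReal (|s - v j| + |W s.toNNReal ω - W (v j) ω|)) := by
      intro j
      have h1 := (measurable_path hWm hWc).comp (f := fun z : Ω × ℝ => (z.2, z.1)) measurable_swap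
      have h2 : Measurable (fun z : Ω × ℝ => W (v j) z.1) := (hWm (v j)).comp measurable_fst
      simp only [Function.comp_def] at h1
      have h3 : Measurable (fun z : Ω × ℝ => |W z.2.toNNReal z.1 - W (v j) z.1|) :=
        measurable_norm.comp (h1.sub h2)
      have h4 : Measurable (fun z : Ω × ℝ => |z.2 - v j|) :=
        measurable_norm.comp (measurable_snd.sub measurable_const)
      exact (ENNReal.measurable_ofReal.comp (h4.add h3)).lintegral_prod_right'
    calc ∫⁻ ω, ‖R ω‖ₑ ∂P ≤ ∫⁻ ω, (∑ j ∈ Finset.range n, ENNReal.ofReal (K ^ 9) *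
          ∫⁻ s in Ioc (v j : ℝ) (v (j+1)),
            ENNReal.ofReal (|s - v j| + |W s.toNNReal ω - W (v j) ω|)) ∂P := lintegral_mono hRb
      _ = ∑ j ∈ Finset.range n, ENNReal.ofReal (K ^ 9) * ∫⁻ ω, (∫⁻ s in Ioc (v j : ℝ) (v (j+1)),
            ENNReal.ofReal (|s - v j| + |W s.toNNReal ω - W (v j) ω|)) ∂P := by
          rw [lintegral_finsetSum _ fun j _ => (hmj j).const_mul _]
          refine Finset.sum_congr rfl fun j _ => ?_
          rw [lintegral_const_mul' _ _ ENNReal.ofReal_ne_top]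
      _ ≤ ∑ j ∈ Finset.range n, ENNReal.ofReal (K ^ 9) *
            (ENNReal.ofReal (3 * √(η:ℝ)) * ENNReal.ofReal (v (j+1) - v j)) := by
          gcongr with j _
          exact fub_one hWm hWc hW (hvη j) hη0 hη1
      _ = ENNReal.ofReal (∑ j ∈ Finset.range n, K ^ 9 * (3 * √(η:ℝ) * (v (j+1) - v j))) := by
          have hnn : ∀ j, (0:ℝ) ≤ v (j+1) - v j := fun j =>
            sub_nonneg.2 (by exact_mod_cast hv (Nat.le_succ j))
          rw [ENNReal.ofReal_sum_of_nonneg fun j _ => by have := hnn j; positivity]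
          refine Finset.sum_congr rfl fun j _ => ?_
          rw [ENNReal.ofReal_mul (p := K ^ 9) (by positivity),
            ENNReal.ofReal_mul (p := 3 * √(η:ℝ)) (by positivity)]
      _ ≤ _ := by
          refine ENNReal.ofReal_le_ofReal ?_
          rw [← Finset.mul_sum, ← Finset.mul_sum, Finset.sum_range_sub (fun j => (v j : ℝ))]
          have e2 : (v n : ℝ) - v 0 ≤ K := by
            have e2 : (v n : ℝ) ≤ b := by exact_mod_cast (hvc n).trans hcb.le
            have e3 : (0:ℝ) ≤ v 0 := NNReal.coe_nonneg _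
            linarith
          calc K ^ 9 * (3 * √(η:ℝ) * ((v n : ℝ) - v 0)) ≤ K ^ 9 * (3 * √(η:ℝ) * K) := by gcongr
            _ = _ := by ring
  calc _ ≤ ∫⁻ ω, (‖1 / 2 * Real.log (NN w y (b - v n) (W (v n) ω - W a ω))
        - 1 / 2 * Real.log (NN w y (b - v 0) (W (v 0) ω - W a ω))
        - ∑ j ∈ Finset.range n, 1 / 2 * Gm w y (b - v j) (W (v j) ω - W a ω) *
            (W (v (j+1)) ω - W (v j) ω)
        + ∑ j ∈ Finset.range n, 1 / 4 * Gm w y (b - v j) (W (v j) ω - W a ω) ^ 2 *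
            ((v (j+1) - v j : ℝ≥0) : ℝ)‖ₑ + ‖R ω‖ₑ) ∂P := by
        refine lintegral_mono fun ω => ?_
        simp only
        rw [hdec ω]
        refine (enorm_add_le _ _).trans ?_
        rw [enorm_neg]
    _ ≤ ENNReal.ofReal ((3 / 2 * K ^ 6 * √(c4 * K) + 31 / 2 * K ^ 18 * c6) * √(η:ℝ)) +
        ENNReal.ofReal (3 * K ^ 10 * √(η:ℝ)) := by
        rw [lintegral_add_left']
        · exact add_le_add hmain hRE
        · refine Measurable.aemeasurable ?_
          have hN : Measurable (fun ω => Real.log (NN w y (b - v n) (W (v n) ω - W a ω))) :=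
            Real.measurable_log.comp ((measurable_NN w y _).comp ((hWm _).sub (hWm _)))
          have hN0 : Measurable (fun ω => Real.log (NN w y (b - v 0) (W (v 0) ω - W a ω))) :=
            Real.measurable_log.comp ((measurable_NN w y _).comp ((hWm _).sub (hWm _)))
          have hGj : ∀ j, Measurable (fun ω => Gm w y (b - v j) (W (v j) ω - W a ω)) := fun j =>
            (measurable_Gm w y _).comp ((hWm _).sub (hWm _))
          refine Measurable.enorm ?_
          refine (((hN.const_mul _).sub (hN0.const_mul _)).sub ?_).add ?_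
          · exact Finset.measurable_sum _ fun j _ =>
              ((hGj j).const_mul _).mul ((hWm _).sub (hWm _))
          · exact Finset.measurable_sum _ fun j _ =>
              (((hGj j).pow_const 2).const_mul _).mul measurable_const
    _ = _ := by
        have := c6_nonneg
        rw [← ENNReal.ofReal_add (by positivity) (by positivity), Cst]
        congr 1; ring

end Pool.Agent.Helper95.BSDE
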