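import Mathlib
import Pool.Agent.Helper95.BSDEErr

set_option autoImplicit false
set_option linter.unusedSectionVars false

open MeasureTheory ProbabilityTheory Filter Topology Set
open scoped NNReal ENNReal

namespace Pool.Agent.Helper95.BSDE

universe u

variable {Ω : Type u} {mΩ : MeasurableSpace Ω} {P : Measure Ω} [IsProbabilityMeasure P]
  {W : ℝ≥0 → Ω → ℝ}

/-- integrand stopped at `c` -/
noncomputable def stZc (w y : ℝ) (W : ℝ≥0 → Ω → ℝ) (a b c t : ℝ≥0) (ω : Ω) : ℝ :=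
  if t ≤ c then stZ w y W a b t ω else 0

lemma exists_cell {u : ℕ → ℝ≥0} {n : ℕ} {s : ℝ≥0} (h1 : u 0 < s) (h2 : s ≤ u n) :
    ∃ j < n, u j < s ∧ s ≤ u (j + 1) := by
  classical
  have hex : ∃ m, s ≤ u m := ⟨n, h2⟩
  set m := Nat.find hex with hm
  have hsp : s ≤ u m := Nat.find_spec hex
  have hm0 : m ≠ 0 := by
    intro h
    rw [h] at hsp
    exact absurd h1 (not_lt.2 hsp)
  have hmn : m ≤ n := Nat.find_min' hex h2
  refine ⟨m - 1, by omega, ?_, ?_⟩
  · have := Nat.find_min hex (m := m - 1) (by omega)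
    exact not_le.1 this
  · rw [Nat.sub_add_cancel (by omega)]; exact hsp

lemma cell_unique {u : ℕ → ℝ≥0} (hu : Monotone u) {s : ℝ≥0} {i j : ℕ}
    (hi : u i < s ∧ s ≤ u (i + 1)) (hj : u j < s ∧ s ≤ u (j + 1)) : i = j := by
  rcases lt_trichotomy i j with h | h | h
  · exact absurd (hi.2.trans (hu h)) (not_le.2 hj.1)
  · exact h
  · exact absurd (hj.2.trans (hu h)) (not_le.2 hi.1)

lemma stage_pt {w y : ℝ} {a b c : ℝ≥0} {K : ℝ} (hcb : c < b) (h : Bd w y (b - c) K)
    {u : ℕ → ℝ≥0} (hu : Monotone u) (hu0 : u 0 = a) {n : ℕ} (hun : u n = c) {s : ℝ≥0} (ω : Ω) :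
    (sval (grd w y W a b u n) s ω - stZc w y W a b c s ω) ^ 2 ≤
      ∑ j ∈ Finset.range n, if u j < s ∧ s ≤ u (j + 1) then
        K ^ 12 * (|(s:ℝ) - u j| + |W s ω - W (u j) ω|) ^ 2 else 0 := by
  have hK0 := h.Kpos
  rw [sval_grd, stZc]
  rcases le_or_gt s a with hsa | hsa
  · have e1 : ∀ j, ¬ (u j < s ∧ s ≤ u (j+1)) := by
      intro j hj
      have : a ≤ u j := hu0 ▸ hu (Nat.zero_le j)
      exact absurd (hsa.trans this) (not_le.2 hj.1)
    have e2 : stZ w y W a b s ω = 0 := by rw [stZ, if_neg (not_lt.2 hsa)]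
    simp only [e1, if_false, Finset.sum_const_zero, e2, ite_self]
    norm_num
  · rcases le_or_gt s c with hsc | hsc
    · obtain ⟨j, hjn, hj⟩ := exists_cell (u := u) (n := n) (hu0 ▸ hsa) (hun ▸ hsc)
      have e1 : ∀ i ∈ Finset.range n, i ≠ j → ¬ (u i < s ∧ s ≤ u (i+1)) :=
        fun i _ hij hi => hij (cell_unique hu hi hj)
      rw [Finset.sum_eq_single j (fun i hi hij => if_neg (e1 i hi hij))
        (fun hj' => absurd (Finset.mem_range.2 hjn) hj')]
      rw [Finset.sum_eq_single j (fun i hi hij => if_neg (e1 i hi hij))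
        (fun hj' => absurd (Finset.mem_range.2 hjn) hj')]
      rw [if_pos hj, if_pos hj, if_pos hsc, stZ_eq hsa (hsc.trans hcb.le)]
      have hjc : u j ≤ c := hj.1.le.trans hsc
      have h5 := h.Gm_lip (tsub_le_tsub_left hjc b) (tsub_le_tsub_left hsc b)
        (W (u j) ω - W a ω) (W s ω - W a ω)
      have e2 : |((b - u j : ℝ≥0) : ℝ) - ((b - s : ℝ≥0) : ℝ)| = |(s:ℝ) - u j| := by
        rw [NNReal.coe_sub (hjc.trans hcb.le), NNReal.coe_sub (hsc.trans hcb.le)]
        congr 1; ring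
      have e3 : |W (u j) ω - W a ω - (W s ω - W a ω)| = |W s ω - W (u j) ω| := by
        rw [abs_sub_comm]; congr 1; ring
      rw [e2, e3] at h5
      have e4 : 1 / 2 * Gm w y (b - u j) (W (u j) ω - W a ω) - 1 / 2 * Gm w y (b - s) (W s ω - W a ω)
        = 1 / 2 * (Gm w y (b - u j) (W (u j) ω - W a ω) - Gm w y (b - s) (W s ω - W a ω)) := by ring
      rw [e4, mul_pow, ← sq_abs (Gm w y (b - u j) (W (u j) ω - W a ω) - _)]
      have h6 : |Gm w y (b - u j) (W (u j) ω - W a ω) - Gm w y (b - s) (W s ω - W a ω)| ^ 2 ≤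
        (2 * K ^ 6 * (|(s:ℝ) - u j| + |W s ω - W (u j) ω|)) ^ 2 := by gcongr
      calc _ ≤ (1 / 2) ^ 2 * (2 * K ^ 6 * (|(s:ℝ) - u j| + |W s ω - W (u j) ω|)) ^ 2 := by gcongr
        _ = _ := by ring
    · have e1 : ∀ j ∈ Finset.range n, ¬ (u j < s ∧ s ≤ u (j+1)) := by
        intro j hj hj2
        have : u (j+1) ≤ c := hun ▸ hu (Finset.mem_range.1 hj)
        exact absurd (hj2.2.trans this) (not_le.2 hsc)
      rw [Finset.sum_eq_zero (fun j hj => if_neg (e1 j hj)),
        Finset.sum_eq_zero (fun j hj => if_neg (e1 j hj)), if_neg (not_le.2 hsc)]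
      norm_num

lemma stage_err2 (hWm : ∀ t, Measurable (W t)) (hWc : ∀ ω, Continuous fun t => W t ω)
    (hW : IsPreBrownianReal W P)
    {w y : ℝ} {a b c : ℝ≥0} {K : ℝ} (hcb : c < b) (h : Bd w y (b - c) K) (hbK : (b:ℝ) ≤ K)
    {u : ℕ → ℝ≥0} (hu : Monotone u) (hu0 : u 0 = a) {n : ℕ} (hun : u n = c)
    {η : ℝ≥0} (hη1 : η ≤ 1) (hη : ∀ j, u (j+1) - u j ≤ η) (R : ℝ) :
    ∫⁻ ω, (∫⁻ s in Ioc (0:ℝ) R, ENNReal.ofReal ((sval (grd w y W a b u n) s.toNNReal ω
      - stZc w y W a b c s.toNNReal ω) ^ 2)) ∂P ≤ ENNReal.ofReal (4 * K ^ 13 * η) := by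
  have hK0 := h.Kpos
  have hmj : ∀ j, Measurable (fun z : Ω × ℝ => ENNReal.ofReal (K ^ 12 * (|z.2 - u j| + |W z.2.toNNReal z.1 - W (u j) z.1|) ^ 2)) := by
    intro j
    have h1 := (measurable_path hWm hWc).comp (f := fun z : Ω × ℝ => (z.2, z.1)) measurable_swap
    have h2 : Measurable (fun z : Ω × ℝ => W (u j) z.1) := (hWm (u j)).comp measurable_fst
    simp only [Function.comp_def] at h1
    have h3 : Measurable (fun z : Ω × ℝ => |W z.2.toNNReal z.1 - W (u j) z.1|) :=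
      measurable_norm.comp (h1.sub h2)
    have h4 : Measurable (fun z : Ω × ℝ => |z.2 - u j|) :=
      measurable_norm.comp (measurable_snd.sub measurable_const)
    exact ENNReal.measurable_ofReal.comp (((h4.add h3).pow_const 2).const_mul _)
  have hpt : ∀ ω, ∀ s ∈ Ioc (0:ℝ) R, ENNReal.ofReal ((sval (grd w y W a b u n) s.toNNReal ω
      - stZc w y W a b c s.toNNReal ω) ^ 2) ≤ ∑ j ∈ Finset.range n,
      (Ioc (u j : ℝ) (u (j+1))).indicator (fun s => ENNReal.ofReal
        (K ^ 12 * (|s - u j| + |W s.toNNReal ω - W (u j) ω|) ^ 2)) s := by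
    intro ω s hs
    have h1 := ENNReal.ofReal_le_ofReal (stage_pt (W := W) hcb h hu hu0 hun (s := s.toNNReal) ω)
    refine h1.trans (le_of_eq ?_)
    rw [ENNReal.ofReal_sum_of_nonneg fun j _ => by split_ifs <;> positivity]
    refine Finset.sum_congr rfl fun j _ => ?_
    rw [indicator_apply]
    have e1 : (u j < s.toNNReal ∧ s.toNNReal ≤ u (j+1)) ↔ s ∈ Ioc (u j : ℝ) (u (j+1)) := by
      rw [Real.lt_toNNReal_iff_coe_lt, Real.toNNReal_le_iff_le_coe]; rfl
    by_cases h2 : s ∈ Ioc (u j : ℝ) (u (j+1))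
    · rw [if_pos (e1.2 h2), if_pos h2, Real.coe_toNNReal _ hs.1.le]
    · rw [if_neg (fun h3 => h2 (e1.1 h3)), if_neg h2, ENNReal.ofReal_zero]
  have hmi : ∀ j, Measurable (fun ω => ∫⁻ s in Ioc (u j : ℝ) (u (j+1)), ENNReal.ofReal
        (K ^ 12 * (|s - u j| + |W s.toNNReal ω - W (u j) ω|) ^ 2)) :=
    fun j => (hmj j).lintegral_prod_right'
  calc _ ≤ ∫⁻ ω, (∑ j ∈ Finset.range n, ∫⁻ s in Ioc (u j : ℝ) (u (j+1)), ENNReal.ofReal
        (K ^ 12 * (|s - u j| + |W s.toNNReal ω - W (u j) ω|) ^ 2)) ∂P := by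
        refine lintegral_mono fun ω => ?_
        refine (setLIntegral_mono' measurableSet_Ioc (hpt ω)).trans ?_
        refine (setLIntegral_le_lintegral _ _).trans ?_
        rw [lintegral_finsetSum _ fun j _ => ?_]
        · refine Finset.sum_le_sum fun j _ => ?_
          rw [lintegral_indicator measurableSet_Ioc]
        · exact ((hmj j).comp (f := fun s : ℝ => (ω, s)) (by fun_prop)).indicator measurableSet_Ioc
    _ = ∑ j ∈ Finset.range n, ENNReal.ofReal (K ^ 12) * ∫⁻ ω, (∫⁻ s in Ioc (u j : ℝ) (u (j+1)),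
          ENNReal.ofReal ((|s - u j| + |W s.toNNReal ω - W (u j) ω|) ^ 2)) ∂P := by
        rw [lintegral_finsetSum _ fun j _ => hmi j]
        refine Finset.sum_congr rfl fun j _ => ?_
        rw [← lintegral_const_mul' _ _ ENNReal.ofReal_ne_top]
        refine lintegral_congr fun ω => ?_
        rw [← lintegral_const_mul' _ _ ENNReal.ofReal_ne_top]
        refine lintegral_congr fun s => ?_
        rw [← ENNReal.ofReal_mul (by positivity)]
    _ ≤ ∑ j ∈ Finset.range n, ENNReal.ofReal (K ^ 12) *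
          (ENNReal.ofReal (4 * η) * ENNReal.ofReal (u (j+1) - u j)) := by
        gcongr with j _
        exact fub_sq hWm hWc hW (hη j) hη1
    _ = ENNReal.ofReal (∑ j ∈ Finset.range n, K ^ 12 * (4 * η * (u (j+1) - u j))) := by
          have hnn : ∀ j, (0:ℝ) ≤ u (j+1) - u j := fun j =>
            sub_nonneg.2 (by exact_mod_cast hu (Nat.le_succ j))
          rw [ENNReal.ofReal_sum_of_nonneg fun j _ => by have := hnn j; positivity]
          refine Finset.sum_congr rfl fun j _ => ?_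
          rw [ENNReal.ofReal_mul (p := K ^ 12) (by positivity),
            ENNReal.ofReal_mul (p := 4 * (η:ℝ)) (by positivity)]
    _ ≤ _ := by
          refine ENNReal.ofReal_le_ofReal ?_
          rw [← Finset.mul_sum, ← Finset.mul_sum, Finset.sum_range_sub (fun j => (u j : ℝ)), hun]
          have e2 : (c : ℝ) - u 0 ≤ K := by
            have e2 : (c : ℝ) ≤ b := by exact_mod_cast hcb.le
            have e3 : (0:ℝ) ≤ u 0 := NNReal.coe_nonneg _
            linarith
          calc K ^ 12 * (4 * η * ((c : ℝ) - u 0)) ≤ K ^ 12 * (4 * η * K) := by gcongr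
            _ = _ := by ring

end Pool.Agent.Helper95.BSDE
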