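import Mathlib
import Pool.Agent.Helper95.BSDEErr2

set_option autoImplicit false
set_option linter.unusedSectionVars false

open MeasureTheory ProbabilityTheory Filter Topology Set
open scoped NNReal ENNReal

namespace Pool.Agent.Helper95.BSDE

universe u

lemma exists_Bd {w y : ℝ} {ε : ℝ≥0} (hw : 0 < w) (hy : 0 < y) (hε : 0 < ε) (R : ℝ) :
    ∃ K, R ≤ K ∧ Bd w y ε K := by
  set A := (√(2 * Real.pi * ε))⁻¹ * (1 + 1 / (ε:ℝ)) with hA
  set B := (√(2 * Real.pi * ε))⁻¹ * (3 / (2 * (ε:ℝ))) with hB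
  have hε' : (0:ℝ) < ε := hε
  have hA0 : 0 ≤ A := by positivity
  have hB0 : 0 ≤ B := by positivity
  have hw' : 0 < 1 / w := by positivity
  have hy' : 0 < 1 / y := by positivity
  have hR := le_abs_self R
  have hR0 := abs_nonneg R
  refine ⟨1 + |R| + A + B + w + y + 1 / w + 1 / y, by linarith, ?_⟩
  constructor
  · linarith
  · exact hε
  · linarith
  · linarith
  · rw [one_div_le (by linarith) hw]; linarith
  · linarith
  · rw [one_div_le (by linarith) hy]; linarith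
  · linarith

/-- uniform grid -/
noncomputable def ugrid (a c : ℝ≥0) (n : ℕ) (j : ℕ) : ℝ≥0 := a + (min j n : ℕ) * ((c - a) / n)

lemma ugrid_mono (a c : ℝ≥0) (n : ℕ) : Monotone (ugrid a c n) := by
  intro i j hij
  unfold ugrid
  gcongr

lemma ugrid_zero (a c : ℝ≥0) (n : ℕ) : ugrid a c n 0 = a := by simp [ugrid]

lemma ugrid_n {a c : ℝ≥0} (hac : a ≤ c) {n : ℕ} (hn : n ≠ 0) : ugrid a c n n = c := by
  rw [ugrid, min_self, mul_div_cancel₀ _ (by exact_mod_cast hn)]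
  exact add_tsub_cancel_of_le hac

lemma ugrid_le {a c : ℝ≥0} (hac : a ≤ c) {n : ℕ} (hn : n ≠ 0) (j : ℕ) : ugrid a c n j ≤ c := by
  rcases le_total j n with h | h
  · exact (ugrid_mono a c n h).trans (ugrid_n hac hn).le
  · have : ugrid a c n j = ugrid a c n n := by rw [ugrid, ugrid, min_eq_right h, min_self]
    rw [this, ugrid_n hac hn]

lemma ugrid_step (a c : ℝ≥0) (n : ℕ) (j : ℕ) :
    ugrid a c n (j+1) - ugrid a c n j ≤ (c - a) / n := by
  rw [tsub_le_iff_right, ugrid, ugrid]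
  have h : ((min (j+1) n : ℕ) : ℝ≥0) ≤ 1 + (min j n : ℕ) := by
    have : min (j+1) n ≤ 1 + min j n := by omega
    exact_mod_cast this
  calc a + ((min (j+1) n : ℕ) : ℝ≥0) * ((c - a) / n) ≤ a + (1 + (min j n : ℕ)) * ((c - a) / n) := by
        gcongr
    _ = _ := by ring

variable {Ω : Type u} {mΩ : MeasurableSpace Ω} {P : Measure Ω} [IsProbabilityMeasure P]
  {W : ℝ≥0 → Ω → ℝ} {𝓕 : Filtration ℝ≥0 mΩ}

lemma stage_approx (hWa : ∀ t, Measurable[𝓕 t] (W t)) (hWc : ∀ ω, Continuous fun t => W t ω)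
    (hW : IsPreBrownianReal W P)
    {w y : ℝ} {a b c : ℝ≥0} (hw : 0 < w) (hy : 0 < y) (hac : a ≤ c) (hcb : c < b)
    {ε : ℝ} (hε : 0 < ε) :
    ∃ l : List (Elem Ω), (∀ e ∈ l, a ≤ e.s ∧ e.Adm 𝓕) ∧
      (∀ t, ∫⁻ ω, ‖stL w y W a b (min t c) ω
        + (∫ s in (0:ℝ)..(min t c : ℝ≥0), stZ w y W a b s.toNNReal ω ^ 2)
        - sint W l t ω‖ₑ ∂P ≤ ENNReal.ofReal ε) ∧
      (∀ R : ℝ, ∫⁻ ω, (∫⁻ s in Ioc (0:ℝ) R, ENNReal.ofReal ((sval l s.toNNReal ω
        - stZc w y W a b c s.toNNReal ω) ^ 2)) ∂P ≤ ENNReal.ofReal ε) := by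
  have hWm : ∀ t, Measurable (W t) := fun t => (hWa t).mono (𝓕.le t) le_rfl
  obtain ⟨K, hbK, hBd⟩ := exists_Bd hw hy (tsub_pos_of_lt hcb) (b:ℝ)
  have hK0 := hBd.Kpos
  have hK1 := hBd.one_le
  have hc4 := c4_nonneg
  have hc6 := c6_nonneg
  have hC0 : 0 ≤ Cst K := by rw [Cst]; positivity
  set D : ℝ := Cst K + 4 * K ^ 13 + 1 with hD
  have hD0 : 0 < D := by positivity
  -- choose η
  set ηr : ℝ := min 1 ((ε / D) ^ 2) with hηr
  have hηr0 : 0 < ηr := lt_min one_pos (by positivity)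
  have hηr1 : ηr ≤ 1 := min_le_left _ _
  have hsq : √ηr ≤ ε / D := by
    rw [Real.sqrt_le_left (by positivity)]
    exact min_le_right _ _
  have hηs : ηr ≤ √ηr := by
    have h1 : √ηr ≤ 1 := by rw [Real.sqrt_le_one]; exact hηr1
    have h2 := Real.mul_self_sqrt hηr0.le
    nlinarith [Real.sqrt_nonneg ηr]
  set η : ℝ≥0 := ηr.toNNReal with hη
  have hηc : (η:ℝ) = ηr := Real.coe_toNNReal _ hηr0.le
  have hη0 : 0 < η := Real.toNNReal_pos.2 hηr0
  have hη1 : η ≤ 1 := Real.toNNReal_le_one.2 hηr1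
  obtain ⟨n, hn⟩ := exists_nat_gt ((c - a) / η)
  have hnpos : (0:ℝ≥0) < n := lt_of_le_of_lt (zero_le) hn
  have hn0 : n ≠ 0 := by
    intro h; rw [h] at hnpos; simp at hnpos
  have hstep : ∀ j, ugrid a c n (j+1) - ugrid a c n j ≤ η := by
    intro j
    refine (ugrid_step a c n j).trans ?_
    rw [div_le_iff₀ hnpos, mul_comm, ← div_le_iff₀ hη0]
    exact hn.le
  refine ⟨grd w y W a b (ugrid a c n) n, ?_, ?_, ?_⟩
  · intro e he
    rw [grd, List.mem_map] at he
    obtain ⟨j, hj, rfl⟩ := he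
    have haj : a ≤ ugrid a c n j := by
      have := ugrid_mono a c n (Nat.zero_le j)
      rwa [ugrid_zero] at this
    refine ⟨haj, ugrid_mono a c n (Nat.le_succ j), ?_, K ^ 3, ?_⟩
    · have h1 : Measurable[𝓕 (ugrid a c n j)] (W (ugrid a c n j)) := hWa _
      have h2 : Measurable[𝓕 (ugrid a c n j)] (W a) := (hWa a).mono (𝓕.mono haj) le_rfl
      exact ((measurable_Gm w y _).comp (h1.sub h2)).const_mul _
    · intro ω
      have := hBd.Gm_le (tsub_le_tsub_left (ugrid_le hac hn0 j) b) (W (ugrid a c n j) ω - W a ω)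
      simp only
      rw [abs_mul, abs_of_pos (by norm_num : (0:ℝ) < 1 / 2)]
      have h0 := abs_nonneg (Gm w y (b - ugrid a c n j) (W (ugrid a c n j) ω - W a ω))
      linarith
  · intro t
    have := stage_err1 hWm hWc hW hcb hBd hbK (ugrid_mono a c n) (ugrid_zero a c n)
      (ugrid_le hac hn0) hη0 hη1 hstep n t
    rw [ugrid_n hac hn0] at this
    refine this.trans (ENNReal.ofReal_le_ofReal ?_)
    rw [hηc]
    calc Cst K * √ηr ≤ D * (ε / D) := by
          have h4 : 0 ≤ 4 * K ^ 13 + 1 := by positivity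
          gcongr
          linarith
      _ = ε := by field_simp
  · intro R
    have := stage_err2 hWm hWc hW hcb hBd hbK (ugrid_mono a c n) (ugrid_zero a c n)
      (ugrid_n hac hn0) hη1 hstep R
    refine this.trans (ENNReal.ofReal_le_ofReal ?_)
    rw [hηc]
    calc 4 * K ^ 13 * ηr ≤ D * (ε / D) := by
          gcongr
          · linarith
          · exact hηs.trans hsq
      _ = ε := by field_simp

end Pool.Agent.Helper95.BSDE
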