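import Mathlib
import Pool.Agent.Helper95.BSDEApprox

set_option autoImplicit false
set_option linter.unusedSectionVars false

open MeasureTheory ProbabilityTheory Filter Topology Set
open scoped NNReal ENNReal

namespace Pool.Agent.Helper95.BSDE

universe u

lemma continuousAt_of_lip {f : ℝ≥0 → ℝ → ℝ} {τ : ℝ≥0} {x : ℝ} {C : ℝ} (hτ : τ ≠ 0)
    (h : ∀ σ, τ / 2 ≤ σ → ∀ x', |f σ x' - f τ x| ≤ C * (|(σ:ℝ) - τ| + |x' - x|)) :
    ContinuousAt (fun z : ℝ≥0 × ℝ => f z.1 z.2) (τ, x) := by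
  have hpos : τ / 2 < τ := NNReal.half_lt_self hτ
  rw [ContinuousAt, tendsto_iff_norm_sub_tendsto_zero]
  have hev : ∀ᶠ z : ℝ≥0 × ℝ in 𝓝 (τ, x), τ / 2 ≤ z.1 := by
    have : ∀ᶠ s in 𝓝 τ, τ / 2 ≤ s := (eventually_gt_nhds hpos).mono fun s hs => le_of_lt hs
    exact (continuous_fst.tendsto (τ, x)).eventually this
  refine squeeze_zero' (Eventually.of_forall fun _ => norm_nonneg _)
    (hev.mono fun z hz => h z.1 hz z.2) ?_
  have hc : Continuous (fun z : ℝ≥0 × ℝ => C * (|(z.1:ℝ) - τ| + |z.2 - x|)) := by fun_prop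
  have := hc.tendsto (τ, x)
  simpa using this

lemma continuousAt_q_pos {τ : ℝ≥0} (hτ : τ ≠ 0) (x : ℝ) :
    ContinuousAt (fun z : ℝ≥0 × ℝ => q z.1 z.2) (τ, x) := by
  set ε := τ / 2 with hε
  have hpos : ε < τ := NNReal.half_lt_self hτ
  have hε0 : 0 < ε := half_pos (pos_iff_ne_zero.2 hτ)
  set C := (√(2 * Real.pi * ε))⁻¹ * (1 + 1 / (ε:ℝ)) with hC
  have hε' : (0:ℝ) < ε := hε0
  have h1 : (√(2 * Real.pi * ε))⁻¹ ≤ C := by
    have h0 : 0 ≤ (√(2 * Real.pi * ε))⁻¹ := by positivity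
    have : (1:ℝ) ≤ 1 + 1 / ε := by have : 0 < 1 / (ε:ℝ) := by positivity
                                   linarith
    nlinarith
  refine continuousAt_of_lip (C := C) hτ fun σ hσ x' => ?_
  have a1 := q_lip_time hε0 hσ hpos.le x'
  have a2 := (q_lip_space hε0 hpos.le x' x).trans (mul_le_mul_of_nonneg_right h1 (abs_nonneg _))
  have := abs_add_le (q σ x' - q τ x') (q τ x' - q τ x)
  rw [sub_add_sub_cancel] at this
  rw [mul_add]
  linarith

lemma continuousAt_p_pos {τ : ℝ≥0} (hτ : τ ≠ 0) (x : ℝ) :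
    ContinuousAt (fun z : ℝ≥0 × ℝ => p z.1 z.2) (τ, x) := by
  set ε := τ / 2 with hε
  have hpos : ε < τ := NNReal.half_lt_self hτ
  have hε0 : 0 < ε := half_pos (pos_iff_ne_zero.2 hτ)
  set C1 := (√(2 * Real.pi * ε))⁻¹ * (1 + 1 / (ε:ℝ)) with hC1
  set C2 := (√(2 * Real.pi * ε))⁻¹ * (3 / (2 * (ε:ℝ))) with hC2
  have hε' : (0:ℝ) < ε := hε0
  have h1 : 0 ≤ C1 := by positivity
  have h2 : 0 ≤ C2 := by positivity
  refine continuousAt_of_lip (C := C1 + C2) hτ fun σ hσ x' => ?_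
  have a1 := p_lip_time hε0 hσ hpos.le x'
  have a2 := p_lip_space hε0 hpos.le x' x
  have := abs_add_le (p σ x' - p τ x') (p τ x' - p τ x)
  rw [sub_add_sub_cancel] at this
  have h3 : 0 ≤ C1 * |(σ:ℝ) - τ| := by positivity
  have h4 : 0 ≤ C2 * |x' - x| := by positivity
  nlinarith

lemma tendsto_sq_ratio {x : ℝ} (hx : x ≠ 0) :
    Tendsto (fun z : ℝ≥0 × ℝ => (z.1:ℝ) / z.2 ^ 2) (𝓝 (0, x)) (𝓝 0) := by
  have h1 : ContinuousAt (fun z : ℝ≥0 × ℝ => (z.1:ℝ) / z.2 ^ 2) ((0:ℝ≥0), x) := by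
    refine ContinuousAt.div (by fun_prop) (by fun_prop) ?_
    simpa using hx
  have h2 : Tendsto (fun z : ℝ≥0 × ℝ => (z.1:ℝ) / z.2 ^ 2) (𝓝 ((0:ℝ≥0), x))
    (𝓝 (((0:ℝ≥0):ℝ) / x ^ 2)) := h1
  simpa using h2

lemma continuousAt_q_zero {x : ℝ} (hx : x ≠ 0) :
    ContinuousAt (fun z : ℝ≥0 × ℝ => q z.1 z.2) (0, x) := by
  rw [ContinuousAt, tendsto_iff_norm_sub_tendsto_zero]
  refine squeeze_zero' (Eventually.of_forall fun _ => norm_nonneg _) ?_ (tendsto_sq_ratio hx)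
  rcases lt_or_gt_of_ne hx with h | h
  · have hev : ∀ᶠ z : ℝ≥0 × ℝ in 𝓝 (0, x), z.2 < 0 :=
      (continuous_snd.tendsto ((0:ℝ≥0), x)).eventually (eventually_lt_nhds h)
    refine hev.mono fun z hz => ?_
    have h0 : q 0 x = 0 := by rw [q_zero_var, if_neg (not_le.2 h)]
    simp only [h0, sub_zero, Real.norm_eq_abs, abs_of_nonneg (q_nonneg _ _)]
    exact q_le_of_neg _ hz
  · have hev : ∀ᶠ z : ℝ≥0 × ℝ in 𝓝 (0, x), 0 < z.2 :=
      (continuous_snd.tendsto ((0:ℝ≥0), x)).eventually (eventually_gt_nhds h)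
    refine hev.mono fun z hz => ?_
    have h0 : q 0 x = 1 := by rw [q_zero_var, if_pos h.le]
    have h1 := q_le_one z.1 z.2
    simp only [h0, Real.norm_eq_abs]
    rw [abs_sub_comm, abs_of_nonneg (by linarith)]
    exact one_sub_q_le _ hz

lemma continuousAt_p_zero {x : ℝ} (hx : x ≠ 0) :
    ContinuousAt (fun z : ℝ≥0 × ℝ => p z.1 z.2) (0, x) := by
  rw [ContinuousAt, tendsto_iff_norm_sub_tendsto_zero]
  have hev : ∀ᶠ z : ℝ≥0 × ℝ in 𝓝 (0, x), z.2 ≠ 0 :=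
    (continuous_snd.tendsto ((0:ℝ≥0), x)).eventually (isOpen_ne.mem_nhds hx)
  have hlim : Tendsto (fun z : ℝ≥0 × ℝ => 2 * √(z.1:ℝ) / z.2 ^ 2) (𝓝 (0, x)) (𝓝 0) := by
    have h1 : ContinuousAt (fun z : ℝ≥0 × ℝ => 2 * √(z.1:ℝ) / z.2 ^ 2) ((0:ℝ≥0), x) := by
      refine ContinuousAt.div (by fun_prop) (by fun_prop) ?_
      simpa using hx
    have h2 : Tendsto (fun z : ℝ≥0 × ℝ => 2 * √(z.1:ℝ) / z.2 ^ 2) (𝓝 ((0:ℝ≥0), x))
      (𝓝 (2 * √(((0:ℝ≥0):ℝ)) / x ^ 2)) := h1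
    simpa using h2
  refine squeeze_zero' (Eventually.of_forall fun _ => norm_nonneg _) ?_ hlim
  refine hev.mono fun z hz => ?_
  simp only [p_zero, sub_zero, Real.norm_eq_abs, abs_of_nonneg (p_nonneg _ _)]
  have : 0 < z.2 ^ 2 := by positivity
  rw [le_div_iff₀ this]
  exact p_mul_sq_le _ _

lemma continuousAt_q {τ : ℝ≥0} {x : ℝ} (h : τ ≠ 0 ∨ x ≠ 0) :
    ContinuousAt (fun z : ℝ≥0 × ℝ => q z.1 z.2) (τ, x) := by
  rcases eq_or_ne τ 0 with rfl | hτ
  · exact continuousAt_q_zero (h.resolve_left (by simp))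
  · exact continuousAt_q_pos hτ x

lemma continuousAt_p {τ : ℝ≥0} {x : ℝ} (h : τ ≠ 0 ∨ x ≠ 0) :
    ContinuousAt (fun z : ℝ≥0 × ℝ => p z.1 z.2) (τ, x) := by
  rcases eq_or_ne τ 0 with rfl | hτ
  · exact continuousAt_p_zero (h.resolve_left (by simp))
  · exact continuousAt_p_pos hτ x

lemma NN_pos' {w y : ℝ} (hw : 0 < w) (hy : 0 < y) (τ : ℝ≥0) (x : ℝ) : 0 < NN w y τ x := by
  have h1 := q_nonneg τ x
  have h2 := q_le_one τ x
  have : NN w y τ x = (1 - q τ x) * w + q τ x * y := by rw [NN]; ring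
  rw [this]
  rcases eq_or_lt_of_le h1 with h | h
  · rw [← h]; simpa using hw
  · have : 0 ≤ (1 - q τ x) * w := mul_nonneg (by linarith) hw.le
    have := mul_pos h hy
    linarith

lemma NN_le_max {w y : ℝ} (τ : ℝ≥0) (x : ℝ) : NN w y τ x ≤ max w y := by
  have h1 := q_nonneg τ x
  have h2 := q_le_one τ x
  have : NN w y τ x = (1 - q τ x) * w + q τ x * y := by rw [NN]; ring
  rw [this]
  nlinarith [le_max_left w y, le_max_right w y]

lemma min_le_NN {w y : ℝ} (τ : ℝ≥0) (x : ℝ) : min w y ≤ NN w y τ x := by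
  have h1 := q_nonneg τ x
  have h2 := q_le_one τ x
  have : NN w y τ x = (1 - q τ x) * w + q τ x * y := by rw [NN]; ring
  rw [this]
  nlinarith [min_le_left w y, min_le_right w y]

variable {Ω : Type u} {W : ℝ≥0 → Ω → ℝ}

lemma continuous_stX (hWc : ∀ ω, Continuous fun t => W t ω) (a b : ℝ≥0) (ω : Ω) :
    Continuous (fun t => stX W a b t ω) :=
  ((hWc ω).comp (continuous_id.min continuous_const)).sub
    ((hWc ω).comp (continuous_id.min continuous_const))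

lemma stX_ge {a b t : ℝ≥0} (hab : a ≤ b) (h : b ≤ t) (ω : Ω) : stX W a b t ω = W b ω - W a ω := by
  rw [stX, min_eq_right h, min_eq_right (hab.trans h)]

lemma st_ne {a b : ℝ≥0} (hab : a ≤ b) {ω : Ω} (hne : W b ω ≠ W a ω) (t : ℝ≥0) :
    b - t ≠ 0 ∨ stX W a b t ω ≠ 0 := by
  rcases lt_or_ge t b with h | h
  · left; exact (tsub_pos_of_lt h).ne'
  · right; rw [stX_ge hab h]; exact sub_ne_zero.2 hne

lemma continuous_stq (hWc : ∀ ω, Continuous fun t => W t ω) {a b : ℝ≥0} (hab : a ≤ b) {ω : Ω}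
    (hne : W b ω ≠ W a ω) : Continuous (fun t => q (b - t) (stX W a b t ω)) := by
  rw [continuous_iff_continuousAt]
  intro t
  have h1 := continuousAt_q (st_ne hab hne t)
  have h2 : Continuous (fun t : ℝ≥0 => (b - t, stX W a b t ω)) :=
    (continuous_const.sub continuous_id).prodMk (continuous_stX hWc a b ω)
  exact ContinuousAt.comp (f := fun t : ℝ≥0 => (b - t, stX W a b t ω))
    (g := fun z : ℝ≥0 × ℝ => q z.1 z.2) h1 h2.continuousAt

lemma continuous_stp (hWc : ∀ ω, Continuous fun t => W t ω) {a b : ℝ≥0} (hab : a ≤ b) {ω : Ω}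
    (hne : W b ω ≠ W a ω) : Continuous (fun t => p (b - t) (stX W a b t ω)) := by
  rw [continuous_iff_continuousAt]
  intro t
  have h1 := continuousAt_p (st_ne hab hne t)
  have h2 : Continuous (fun t : ℝ≥0 => (b - t, stX W a b t ω)) :=
    (continuous_const.sub continuous_id).prodMk (continuous_stX hWc a b ω)
  exact ContinuousAt.comp (f := fun t : ℝ≥0 => (b - t, stX W a b t ω))
    (g := fun z : ℝ≥0 × ℝ => p z.1 z.2) h1 h2.continuousAt

lemma continuous_stN (hWc : ∀ ω, Continuous fun t => W t ω) (w y : ℝ) {a b : ℝ≥0} (hab : a ≤ b)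
    {ω : Ω} (hne : W b ω ≠ W a ω) : Continuous (fun t => NN w y (b - t) (stX W a b t ω)) :=
  continuous_const.add (continuous_const.mul (continuous_stq hWc hab hne))

lemma continuous_stL (hWc : ∀ ω, Continuous fun t => W t ω) {w y : ℝ} (hw : 0 < w) (hy : 0 < y)
    {a b : ℝ≥0} (hab : a ≤ b)
    {ω : Ω} (hne : W b ω ≠ W a ω) : Continuous (fun t => stL w y W a b t ω) := by
  unfold stL
  refine (continuous_const.mul (Continuous.log (continuous_stN hWc w y hab hne) ?_)).sub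
    continuous_const
  exact fun t => (NN_pos' hw hy _ _).ne'

lemma continuous_stG (hWc : ∀ ω, Continuous fun t => W t ω) {w y : ℝ} (hw : 0 < w) (hy : 0 < y)
    {a b : ℝ≥0} (hab : a ≤ b)
    {ω : Ω} (hne : W b ω ≠ W a ω) : Continuous (fun t => Gm w y (b - t) (stX W a b t ω)) := by
  unfold Gm
  refine (continuous_const.mul (continuous_stp hWc hab hne)).div (continuous_stN hWc w y hab hne) ?_
  exact fun t => (NN_pos' hw hy _ _).ne'

lemma stZ_ge {w y : ℝ} {a b t : ℝ≥0} (h : b ≤ t) (ω : Ω) : stZ w y W a b t ω = 0 := by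
  rw [stZ]
  split_ifs
  · rw [tsub_eq_zero_of_le h, Gm, p_zero]; simp
  · rfl

lemma stZ_lea {w y : ℝ} {a b t : ℝ≥0} (h : t ≤ a) (ω : Ω) : stZ w y W a b t ω = 0 := by
  rw [stZ, if_neg (not_lt.2 h)]

lemma stL_ge {w y : ℝ} {a b t : ℝ≥0} (hab : a ≤ b) (h : b ≤ t) (ω : Ω) :
    stL w y W a b t ω = stL w y W a b b ω := by
  rw [stL, stL, stX_ge hab h, stX_ge hab le_rfl, tsub_eq_zero_of_le h, tsub_self]

/-- pathwise bound of the integrand on compacts -/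
lemma stZ_bdd (hWc : ∀ ω, Continuous fun t => W t ω) {w y : ℝ} (hw : 0 < w) (hy : 0 < y)
    {a b : ℝ≥0} (hab : a ≤ b) {ω : Ω} (hne : W b ω ≠ W a ω) :
    ∃ C : ℝ, 0 ≤ C ∧ ∀ t, |stZ w y W a b t ω| ≤ C := by
  have hc := continuous_stG hWc hw hy hab hne
  obtain ⟨C, hC⟩ := (isCompact_Icc (a := (0:ℝ≥0)) (b := b)).exists_bound_of_continuousOn
    hc.continuousOn
  refine ⟨max C 0, le_max_right _ _, fun t => ?_⟩
  rcases le_total b t with h | h
  · rw [stZ_ge h]; simp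
  · rw [stZ]
    split_ifs
    · have h1 := hC t ⟨zero_le, h⟩
      rw [Real.norm_eq_abs] at h1
      rw [abs_mul, abs_of_pos (by norm_num : (0:ℝ) < 1 / 2)]
      have h2 := abs_nonneg (Gm w y (b - t) (stX W a b t ω))
      have h3 := le_max_left C 0
      linarith
    · simp

end Pool.Agent.Helper95.BSDE
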