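import Mathlib
import Pool.Agent.Helper95.BSDEPath

set_option autoImplicit false
set_option linter.unusedSectionVars false

open MeasureTheory ProbabilityTheory Filter Topology Set
open scoped NNReal ENNReal

namespace Pool.Agent.Helper95.BSDE

universe u

variable {Ω : Type u} {mΩ : MeasurableSpace Ω} {P : Measure Ω}
  {W : ℝ≥0 → Ω → ℝ} {𝓕 : Filtration ℝ≥0 mΩ}

lemma prog_stopped (hWa : ∀ t, Measurable[𝓕 t] (W t)) (hWc : ∀ ω, Continuous fun t => W t ω)
    (b : ℝ≥0) : IsProgressive 𝓕 (fun t ω => W (min t b) ω) := by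
  have h1 : StronglyAdapted 𝓕 (fun t ω => W (min t b) ω) := fun t =>
    ((hWa (min t b)).mono (𝓕.mono (min_le_left _ _)) le_rfl).stronglyMeasurable
  exact (h1.isStronglyProgressive_of_continuous
    fun ω => (hWc ω).comp (continuous_id.min continuous_const)).isProgressive

lemma prog_stX (hWa : ∀ t, Measurable[𝓕 t] (W t)) (hWc : ∀ ω, Continuous fun t => W t ω)
    (a b : ℝ≥0) : IsProgressive 𝓕 (stX W a b) := fun t =>
  (prog_stopped hWa hWc b t).sub (prog_stopped hWa hWc a t)

lemma prog_comp {F : ℝ≥0 × ℝ → ℝ} (hF : Measurable F) {X : ℝ≥0 → Ω → ℝ} (hX : IsProgressive 𝓕 X) :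
    IsProgressive 𝓕 (fun t ω => F (t, X t ω)) := by
  intro t
  refine hF.comp (Measurable.prodMk ?_ (hX t))
  exact measurable_subtype_coe.comp (@measurable_fst _ _ _ (𝓕 t))

lemma prog_stL (hWa : ∀ t, Measurable[𝓕 t] (W t)) (hWc : ∀ ω, Continuous fun t => W t ω)
    (w y : ℝ) (a b : ℝ≥0) : IsProgressive 𝓕 (stL w y W a b) := by
  have h := measurable_NN_uncurry w y
  have h2 : Measurable (fun z : ℝ≥0 × ℝ => 1 / 2 * Real.log (NN w y (b - z.1) z.2)
      - 1 / 2 * Real.log ((w + y) / 2)) := by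
    have h3 : Measurable (fun z : ℝ≥0 × ℝ => NN w y (b - z.1) z.2) :=
      h.comp (f := fun z : ℝ≥0 × ℝ => (b - z.1, z.2))
        ((measurable_const.sub measurable_fst).prodMk measurable_snd)
    exact (measurable_const.mul (Real.measurable_log.comp h3)).sub measurable_const
  exact prog_comp h2 (prog_stX hWa hWc a b)

lemma prog_stZ (hWa : ∀ t, Measurable[𝓕 t] (W t)) (hWc : ∀ ω, Continuous fun t => W t ω)
    (w y : ℝ) (a b : ℝ≥0) : IsProgressive 𝓕 (stZ w y W a b) := by
  have h := measurable_Gm_uncurry w y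
  have h2 : Measurable (fun z : ℝ≥0 × ℝ => if a < z.1 then 1 / 2 * Gm w y (b - z.1) z.2 else 0) := by
    have h3 : Measurable (fun z : ℝ≥0 × ℝ => 1 / 2 * Gm w y (b - z.1) z.2) :=
      measurable_const.mul (h.comp (f := fun z : ℝ≥0 × ℝ => (b - z.1, z.2))
        ((measurable_const.sub measurable_fst).prodMk measurable_snd))
    exact Measurable.ite (measurableSet_lt measurable_const measurable_fst) h3 measurable_const
  exact prog_comp h2 (prog_stX hWa hWc a b)

lemma prog_alpha_mul {α : Ω → ℝ} {a : ℝ≥0} (hα : Measurable[𝓕 a] α) {F : ℝ≥0 → Ω → ℝ}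
    (hF : IsProgressive 𝓕 F) (h0 : ∀ t ≤ a, ∀ ω, F t ω = 0) :
    IsProgressive 𝓕 (fun t ω => α ω * F t ω) := by
  intro t
  rcases le_total t a with h | h
  · have : (fun p : Iic t × Ω => α p.2 * F p.1 p.2) = fun _ => 0 := by
      ext p
      rw [h0 _ (le_trans p.1.2 h), mul_zero]
    rw [this]
    exact measurable_const
  · refine Measurable.mul ?_ (hF t)
    exact (hα.mono (𝓕.mono h) le_rfl).comp (@measurable_snd _ _ _ (𝓕 t))

/-- the integral of a progressive process is adapted -/
lemma adapted_integral {H : ℝ≥0 → Ω → ℝ} (hH : IsProgressive 𝓕 H) (t : ℝ≥0) :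
    Measurable[𝓕 t] (fun ω => ∫ s in (0:ℝ)..t, H s.toNNReal ω ^ 2) := by
  let _ : MeasurableSpace Ω := 𝓕 t
  have h1 : Measurable (fun z : Ω × ℝ => H (min z.2.toNNReal t) z.1) := by
    have h2 : Measurable (fun z : Ω × ℝ => ((⟨min z.2.toNNReal t, mem_Iic.2 (min_le_right _ _)⟩ : Iic t), z.1)) := by
      refine Measurable.prodMk ?_ measurable_fst
      exact Measurable.subtype_mk ((measurable_real_toNNReal.comp measurable_snd).min measurable_const)
    exact (hH t).comp h2
  have h3 : StronglyMeasurable (fun z : Ω × ℝ => H (min z.2.toNNReal t) z.1 ^ 2) :=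
    (h1.pow_const 2).stronglyMeasurable
  have h4 := (h3.integral_prod_right' (ν := volume.restrict (Ioc (0:ℝ) t))).measurable
  convert! h4 using 1
  ext ω
  rw [intervalIntegral.integral_of_le (NNReal.coe_nonneg t)]
  refine setIntegral_congr_fun measurableSet_Ioc fun s hs => ?_
  have : min s.toNNReal t = s.toNNReal := min_eq_left (Real.toNNReal_le_iff_le_coe.2 hs.2)
  simp only [this]

lemma prog_jm {H : ℝ≥0 → Ω → ℝ} (hH : IsProgressive 𝓕 H) :
    Measurable (fun z : ℝ≥0 × Ω => H z.1 z.2) := by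
  -- limit of stopped processes
  have h1 : ∀ n : ℕ, Measurable (fun z : ℝ≥0 × Ω => H (min z.1 n) z.2) := by
    intro n
    have h2 : Measurable (fun z : ℝ≥0 × Ω => ((⟨min z.1 n, mem_Iic.2 (min_le_right _ _)⟩ : Iic (n:ℝ≥0)), z.2)) := by
      refine Measurable.prodMk ?_ measurable_snd
      exact Measurable.subtype_mk (measurable_fst.min measurable_const)
    have h3 : Measurable (fun p : Iic (n:ℝ≥0) × Ω => H p.1 p.2) := by
      refine (hH n).mono ?_ le_rfl
      exact sup_le_sup le_rfl (MeasurableSpace.comap_mono (𝓕.le _))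
    exact h3.comp h2
  refine measurable_of_tendsto_metrizable h1 ?_
  rw [tendsto_pi_nhds]
  intro z
  obtain ⟨N, hN⟩ := exists_nat_ge z.1
  refine tendsto_const_nhds.congr' ?_
  filter_upwards [eventually_ge_atTop N] with n hn
  have : z.1 ≤ n := hN.trans (by exact_mod_cast hn)
  rw [min_eq_left this]

end Pool.Agent.Helper95.BSDE
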