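import Mathlib
import Pool.Agent.Helper95.BSDEProg

set_option autoImplicit false
set_option linter.unusedSectionVars false

open MeasureTheory ProbabilityTheory Filter Topology Set
open scoped NNReal ENNReal

namespace Pool.Agent.Helper95.BSDE

universe u

variable {Ω : Type u} {mΩ : MeasurableSpace Ω} {P : Measure Ω} [IsProbabilityMeasure P]
  {W : ℝ≥0 → Ω → ℝ} {𝓕 : Filtration ℝ≥0 mΩ}

/-- convergence in measure from a bound by `U n → 0` in `L¹` plus `V n → 0` a.s. -/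
lemma tim_of_le {f : ℕ → Ω → ℝ} {g : Ω → ℝ} {U V : ℕ → Ω → ℝ≥0∞}
    (hU : ∀ n, Measurable (U n)) (hU0 : Tendsto (fun n => ∫⁻ ω, U n ω ∂P) atTop (𝓝 0))
    (hV : ∀ n, Measurable (V n)) (hV0 : ∀ ω, Tendsto (fun n => V n ω) atTop (𝓝 0))
    (h : ∀ n ω, ‖f n ω - g ω‖ₑ ≤ U n ω + V n ω) : TendstoInMeasure P f atTop g := by
  rw [tendstoInMeasure_iff_enorm]
  intro ε hε hε'
  set ε' := min ε 1 with hε'def
  have h0 : ε' ≠ 0 := (lt_min hε one_pos).ne'
  have h1 : ε' ≠ ∞ := ne_top_of_le_ne_top ENNReal.one_ne_top (min_le_right _ _)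
  have hV1 : Tendsto (fun n => ∫⁻ ω, min (V n ω) 1 ∂P) atTop (𝓝 0) := by
    have := tendsto_lintegral_of_dominated_convergence (μ := P)
      (F := fun n ω => min (V n ω) 1) (f := fun _ => 0) (fun _ => 1)
      (fun n => (hV n).min measurable_const) (fun n => ae_of_all _ fun ω => min_le_right _ _)
      (by simp) (ae_of_all _ fun ω => by
        have := (hV0 ω).min (tendsto_const_nhds (x := (1:ℝ≥0∞)))
        simpa using this)
    simpa using this
  have hbound : ∀ n, P {x | ε ≤ ‖f n x - g x‖ₑ} ≤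
      (∫⁻ ω, U n ω ∂P + ∫⁻ ω, min (V n ω) 1 ∂P) / ε' := by
    intro n
    rw [← lintegral_add_left (hU n)]
    refine le_trans (measure_mono fun ω hω => ?_)
      (meas_ge_le_lintegral_div ((hU n).add ((hV n).min measurable_const)).aemeasurable h0 h1)
    have h2 : ε ≤ ‖f n ω - g ω‖ₑ := hω
    change ε' ≤ U n ω + min (V n ω) 1
    rcases le_total (V n ω) 1 with h3 | h3
    · rw [min_eq_left h3]
      exact (min_le_left _ _).trans (h2.trans (h n ω))
    · rw [min_eq_right h3]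
      exact (min_le_right _ _).trans le_add_self
  have hlim : Tendsto (fun n => (∫⁻ ω, U n ω ∂P + ∫⁻ ω, min (V n ω) 1 ∂P) / ε') atTop (𝓝 0) := by
    have := ENNReal.Tendsto.div_const (hU0.add hV1) (b := ε') (Or.inr h0)
    simpa using this
  exact tendsto_of_tendsto_of_tendsto_of_le_of_le tendsto_const_nhds hlim (fun _ => zero_le)
    hbound

/-- hypotheses for a sequence of stages driven by `W` -/
structure Sys (𝓕 : Filtration ℝ≥0 mΩ) (P : Measure Ω) (W : ℝ≥0 → Ω → ℝ) (a b : ℕ → ℝ≥0)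
    (w y : ℕ → ℝ) (α : ℕ → Ω → ℝ) : Prop where
  adap : ∀ t, Measurable[𝓕 t] (W t)
  cont : ∀ ω, Continuous fun t => W t ω
  bm : IsPreBrownianReal W P
  hab : ∀ j, a j < b j
  hba : ∀ j, b j ≤ a (j + 1)
  hw : ∀ j, 0 < w j
  hy : ∀ j, 0 < y j
  h01 : ∀ j ω, α j ω = 0 ∨ α j ω = 1
  hαm : ∀ j, Measurable[𝓕 (a j)] (α j)
  hfin : ∀ ω, ∃ m, ∀ j, m ≤ j → α j ω = 0
  hne : ∀ j ω, α j ω = 1 → W (b j) ω ≠ W (a j) ω

section
variable {a b : ℕ → ℝ≥0} {w y : ℕ → ℝ} {α : ℕ → Ω → ℝ}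

/-- sum of the stage integrands -/
noncomputable def Zs (W : ℝ≥0 → Ω → ℝ) (a b : ℕ → ℝ≥0) (w y : ℕ → ℝ) (α : ℕ → Ω → ℝ)
    (t : ℝ≥0) (ω : Ω) : ℝ := ∑' j, α j ω * stZ (w j) (y j) W (a j) (b j) t ω

/-- sum of the stage log increments -/
noncomputable def Ls (W : ℝ≥0 → Ω → ℝ) (a b : ℕ → ℝ≥0) (w y : ℕ → ℝ) (α : ℕ → Ω → ℝ)
    (t : ℝ≥0) (ω : Ω) : ℝ := ∑' j, α j ω * stL (w j) (y j) W (a j) (b j) t ω

/-- the martingale part -/
noncomputable def Ms (W : ℝ≥0 → Ω → ℝ) (a b : ℕ → ℝ≥0) (w y : ℕ → ℝ) (α : ℕ → Ω → ℝ)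
    (t : ℝ≥0) (ω : Ω) : ℝ :=
  Ls W a b w y α t ω + ∫ s in (0:ℝ)..t, Zs W a b w y α s.toNNReal ω ^ 2

variable (S : Sys 𝓕 P W a b w y α)
include S

lemma Sys.amono : Monotone a := monotone_nat_of_le_succ fun j => (S.hab j).le.trans (S.hba j)

lemma Sys.ba {i j : ℕ} (h : i < j) : b i ≤ a j := (S.hba i).trans (S.amono h)

lemma Sys.Wm (t : ℝ≥0) : Measurable (W t) := (S.adap t).mono (𝓕.le t) le_rfl

lemma Sys.αmeas (j : ℕ) : Measurable (α j) := (S.hαm j).mono (𝓕.le _) le_rfl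

lemma Sys.Zs_eq {ω : Ω} {m : ℕ} (hm : ∀ j, m ≤ j → α j ω = 0) (t : ℝ≥0) :
    Zs W a b w y α t ω = ∑ j ∈ Finset.range m, α j ω * stZ (w j) (y j) W (a j) (b j) t ω :=
  tsum_eq_sum fun j hj => by rw [hm j (by simpa using hj), zero_mul]

lemma Sys.Ls_eq {ω : Ω} {m : ℕ} (hm : ∀ j, m ≤ j → α j ω = 0) (t : ℝ≥0) :
    Ls W a b w y α t ω = ∑ j ∈ Finset.range m, α j ω * stL (w j) (y j) W (a j) (b j) t ω :=
  tsum_eq_sum fun j hj => by rw [hm j (by simpa using hj), zero_mul]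

lemma Sys.cross {i j : ℕ} (hij : i < j) (t : ℝ≥0) (ω : Ω) :
    stZ (w i) (y i) W (a i) (b i) t ω * stZ (w j) (y j) W (a j) (b j) t ω = 0 := by
  rcases le_total (b i) t with h | h
  · rw [stZ_ge h, zero_mul]
  · rw [stZ_lea (h.trans (S.ba hij)), mul_zero]

lemma Sys.sq_sum (m : ℕ) (t : ℝ≥0) (ω : Ω) :
    (∑ j ∈ Finset.range m, α j ω * stZ (w j) (y j) W (a j) (b j) t ω) ^ 2 =
      ∑ j ∈ Finset.range m, (α j ω * stZ (w j) (y j) W (a j) (b j) t ω) ^ 2 := by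
  induction m with
  | zero => simp
  | succ m ih =>
    rw [Finset.sum_range_succ, Finset.sum_range_succ, add_sq, ih]
    have : (∑ j ∈ Finset.range m, α j ω * stZ (w j) (y j) W (a j) (b j) t ω) *
        (α m ω * stZ (w m) (y m) W (a m) (b m) t ω) = 0 := by
      rw [Finset.sum_mul]
      refine Finset.sum_eq_zero fun i hi => ?_
      have := S.cross (Finset.mem_range.1 hi) t ω
      calc _ = α i ω * α m ω * (stZ (w i) (y i) W (a i) (b i) t ω *
            stZ (w m) (y m) W (a m) (b m) t ω) := by ring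
        _ = 0 := by rw [this, mul_zero]
    linear_combination 2 * this

lemma Sys.αsq (j : ℕ) (ω : Ω) : α j ω ^ 2 = α j ω := by
  rcases S.h01 j ω with h | h <;> rw [h] <;> norm_num

lemma Sys.Zs_sq {ω : Ω} {m : ℕ} (hm : ∀ j, m ≤ j → α j ω = 0) (t : ℝ≥0) :
    Zs W a b w y α t ω ^ 2 =
      ∑ j ∈ Finset.range m, α j ω * stZ (w j) (y j) W (a j) (b j) t ω ^ 2 := by
  rw [S.Zs_eq hm, S.sq_sum]
  refine Finset.sum_congr rfl fun j _ => ?_
  rw [mul_pow, S.αsq]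

lemma Sys.stZ_bdd' (j : ℕ) (ω : Ω) :
    ∃ C : ℝ, 0 ≤ C ∧ ∀ t, |α j ω * stZ (w j) (y j) W (a j) (b j) t ω| ≤ C := by
  rcases S.h01 j ω with h | h
  · exact ⟨0, le_rfl, fun t => by rw [h]; simp⟩
  · obtain ⟨C, hC0, hC⟩ := stZ_bdd S.cont (S.hw j) (S.hy j) (S.hab j).le (S.hne j ω h)
    exact ⟨C, hC0, fun t => by rw [h, one_mul]; exact hC t⟩

lemma Sys.Zs_bdd (ω : Ω) : ∃ C : ℝ, 0 ≤ C ∧ ∀ t, |Zs W a b w y α t ω| ≤ C := by
  obtain ⟨m, hm⟩ := S.hfin ω
  choose C hC0 hC using fun j => S.stZ_bdd' j ω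
  refine ⟨∑ j ∈ Finset.range m, C j, Finset.sum_nonneg fun j _ => hC0 j, fun t => ?_⟩
  rw [S.Zs_eq hm]
  exact (Finset.abs_sum_le_sum_abs _ _).trans (Finset.sum_le_sum fun j _ => hC j t)

lemma Sys.prog_aZ (j : ℕ) :
    IsProgressive 𝓕 (fun t ω => α j ω * stZ (w j) (y j) W (a j) (b j) t ω) :=
  prog_alpha_mul (S.hαm j) (prog_stZ S.adap S.cont _ _ _ _) fun _ ht _ => stZ_lea ht _

lemma Sys.prog_aL (j : ℕ) :
    IsProgressive 𝓕 (fun t ω => α j ω * stL (w j) (y j) W (a j) (b j) t ω) :=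
  prog_alpha_mul (S.hαm j) (prog_stL S.adap S.cont _ _ _ _) fun _ ht _ => stL_le (S.hab j) ht _

lemma Sys.prog_Zs : IsProgressive 𝓕 (Zs W a b w y α) := by
  refine IsStronglyProgressive.isProgressive ?_
  refine isStronglyProgressive_of_tendsto
    (U := fun n t ω => ∑ j ∈ Finset.range n, α j ω * stZ (w j) (y j) W (a j) (b j) t ω) ?_ ?_
  · exact fun n => (IsProgressive.finsetSum fun j _ => S.prog_aZ j).isStronglyProgressive
  · rw [tendsto_pi_nhds]; intro t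
    rw [tendsto_pi_nhds]; intro ω
    obtain ⟨m, hm⟩ := S.hfin ω
    refine tendsto_const_nhds.congr' ?_
    filter_upwards [eventually_ge_atTop m] with n hn
    exact S.Zs_eq (fun j hj => hm j (hn.trans hj)) t

lemma Sys.prog_Ls : IsProgressive 𝓕 (Ls W a b w y α) := by
  refine IsStronglyProgressive.isProgressive ?_
  refine isStronglyProgressive_of_tendsto
    (U := fun n t ω => ∑ j ∈ Finset.range n, α j ω * stL (w j) (y j) W (a j) (b j) t ω) ?_ ?_
  · exact fun n => (IsProgressive.finsetSum fun j _ => S.prog_aL j).isStronglyProgressive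
  · rw [tendsto_pi_nhds]; intro t
    rw [tendsto_pi_nhds]; intro ω
    obtain ⟨m, hm⟩ := S.hfin ω
    refine tendsto_const_nhds.congr' ?_
    filter_upwards [eventually_ge_atTop m] with n hn
    exact S.Ls_eq (fun j hj => hm j (hn.trans hj)) t

lemma Sys.cont_aL (j : ℕ) (ω : Ω) :
    Continuous (fun t => α j ω * stL (w j) (y j) W (a j) (b j) t ω) := by
  rcases S.h01 j ω with h | h
  · simp only [h, zero_mul]; exact continuous_const
  · simp only [h, one_mul]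
    exact continuous_stL S.cont (S.hw j) (S.hy j) (S.hab j).le (S.hne j ω h)

lemma Sys.cont_Ls (ω : Ω) : Continuous (fun t => Ls W a b w y α t ω) := by
  obtain ⟨m, hm⟩ := S.hfin ω
  simp only [S.Ls_eq hm]
  exact continuous_finsetSum _ fun j _ => S.cont_aL j ω

lemma Sys.meas_Zs (ω : Ω) : Measurable (fun s : ℝ => Zs W a b w y α s.toNNReal ω) :=
  (prog_jm S.prog_Zs).comp (f := fun s : ℝ => (s.toNNReal, ω)) (by fun_prop)

lemma Sys.Zs_ii (ω : Ω) (x z : ℝ) :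
    IntervalIntegrable (fun s : ℝ => Zs W a b w y α s.toNNReal ω ^ 2) volume x z := by
  obtain ⟨C, hC0, hC⟩ := S.Zs_bdd ω
  rw [intervalIntegrable_iff]
  refine Measure.integrableOn_of_bounded (M := C ^ 2) (by simp)
    ((S.meas_Zs ω).pow_const 2).aestronglyMeasurable (ae_of_all _ fun s => ?_)
  rw [Real.norm_eq_abs, abs_of_nonneg (sq_nonneg _), ← sq_abs]
  have := hC s.toNNReal
  gcongr

lemma Sys.cont_int (ω : Ω) :
    Continuous (fun t : ℝ≥0 => ∫ s in (0:ℝ)..t, Zs W a b w y α s.toNNReal ω ^ 2) :=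
  (intervalIntegral.continuous_primitive (S.Zs_ii ω) 0).comp NNReal.continuous_coe

lemma Sys.cont_Ms (ω : Ω) : Continuous (fun t => Ms W a b w y α t ω) :=
  (S.cont_Ls ω).add (S.cont_int ω)

lemma Sys.prog_Ms : IsProgressive 𝓕 (Ms W a b w y α) := by
  have h1 : StronglyAdapted 𝓕
      (fun (t : ℝ≥0) ω => ∫ s in (0:ℝ)..t, Zs W a b w y α s.toNNReal ω ^ 2) :=
    fun t => (adapted_integral S.prog_Zs t).stronglyMeasurable
  have h2 := (h1.isStronglyProgressive_of_continuous S.cont_int).isProgressive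
  exact fun t => (S.prog_Ls t).add (h2 t)

end

end Pool.Agent.Helper95.BSDE
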