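import Mathlib
import Pool.Agent.Helper95.BSDEIto

set_option autoImplicit false
set_option linter.unusedSectionVars false

open MeasureTheory ProbabilityTheory Filter Topology Set
open scoped NNReal ENNReal

namespace Pool.Agent.Helper95.BSDE

universe u

variable {Ω : Type u} {mΩ : MeasurableSpace Ω} {P : Measure Ω} [IsProbabilityMeasure P]
  {W : ℝ≥0 → Ω → ℝ} {𝓕 : Filtration ℝ≥0 mΩ}

/-- truncation points -/
noncomputable def cn (a b : ℝ≥0) (n : ℕ) : ℝ≥0 := b - (b - a) / (n + 1)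

lemma le_cn {a b : ℝ≥0} (hab : a < b) (n : ℕ) : a ≤ cn a b n := by
  rw [cn]
  refine le_tsub_of_add_le_right ?_
  calc a + (b - a) / (n + 1) ≤ a + (b - a) := by
        gcongr
        exact div_le_self (zero_le) (by simp)
    _ = b := add_tsub_cancel_of_le hab.le

lemma cn_lt {a b : ℝ≥0} (hab : a < b) (n : ℕ) : cn a b n < b := by
  rw [cn]
  refine tsub_lt_self (lt_of_le_of_lt (zero_le) hab) ?_
  exact div_pos (tsub_pos_of_lt hab) (by positivity)

lemma tendsto_cn (a b : ℝ≥0) : Tendsto (cn a b) atTop (𝓝 b) := by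
  have h1 : Tendsto (fun n : ℕ => (b - a) / ((n:ℝ≥0) + 1)) atTop (𝓝 0) := by
    have h2 : Tendsto (fun n : ℕ => ((1:ℝ≥0) / ((n:ℝ≥0) + 1))) atTop (𝓝 0) :=
      tendsto_one_div_add_atTop_nhds_zero_nat
    have h3 := h2.const_mul (b - a)
    rw [mul_zero] at h3
    refine h3.congr fun n => ?_
    rw [mul_one_div]
  have h4 := (tendsto_const_nhds (x := b)).sub h1
  rw [tsub_zero] at h4
  exact h4

lemma sval_append (l l' : List (Elem Ω)) (t : ℝ≥0) (ω : Ω) :
    sval (l ++ l') t ω = sval l t ω + sval l' t ω := by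
  simp [sval]

lemma sint_append (l l' : List (Elem Ω)) (t : ℝ≥0) (ω : Ω) :
    sint W (l ++ l') t ω = sint W l t ω + sint W l' t ω := by
  simp [sint]

/-- scaling of a simple process by a random variable -/
noncomputable def scl (α : Ω → ℝ) (l : List (Elem Ω)) : List (Elem Ω) :=
  l.map fun e => ⟨e.s, e.r, fun ω => α ω * e.η ω⟩

lemma sval_scl (α : Ω → ℝ) (l : List (Elem Ω)) (t : ℝ≥0) (ω : Ω) :
    sval (scl α l) t ω = α ω * sval l t ω := by
  rw [sval, scl, List.map_map, sval, ← List.sum_map_mul_left]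
  congr 1
  refine List.map_congr_left fun e _ => ?_
  simp only [Function.comp, Elem.val]
  split_ifs <;> simp

lemma sint_scl (α : Ω → ℝ) (l : List (Elem Ω)) (t : ℝ≥0) (ω : Ω) :
    sint W (scl α l) t ω = α ω * sint W l t ω := by
  rw [sint, scl, List.map_map, sint, ← List.sum_map_mul_left]
  congr 1
  refine List.map_congr_left fun e _ => ?_
  simp only [Function.comp, Elem.int]
  ring

lemma scl_adm {α : Ω → ℝ} {l : List (Elem Ω)} {a : ℝ≥0} (hα : Measurable[𝓕 a] α)
    (h01 : ∀ ω, α ω = 0 ∨ α ω = 1)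
    (hl : ∀ e ∈ l, a ≤ e.s ∧ e.Adm 𝓕) : ∀ e ∈ scl α l, e.Adm 𝓕 := by
  intro e he
  rw [scl, List.mem_map] at he
  obtain ⟨e', he', rfl⟩ := he
  obtain ⟨h1, h2, h3, C, hC⟩ := hl e' he'
  refine ⟨h2, (hα.mono (𝓕.mono h1) le_rfl).mul h3, C, fun ω => ?_⟩
  simp only [abs_mul]
  have h4 : |α ω| ≤ 1 := by
    rcases h01 ω with h | h <;> rw [h] <;> norm_num
  calc |α ω| * |e'.η ω| ≤ 1 * |e'.η ω| := by gcongr
    _ ≤ C := by rw [one_mul]; exact hC ω

/-- concatenation of the first `n` lists -/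
def catS (f : ℕ → List (Elem Ω)) : ℕ → List (Elem Ω)
  | 0 => []
  | n + 1 => catS f n ++ f n

lemma sval_catS (f : ℕ → List (Elem Ω)) (n : ℕ) (t : ℝ≥0) (ω : Ω) :
    sval (catS f n) t ω = ∑ j ∈ Finset.range n, sval (f j) t ω := by
  induction n with
  | zero => simp [catS, sval]
  | succ n ih => rw [catS, sval_append, ih, Finset.sum_range_succ]

lemma sint_catS (f : ℕ → List (Elem Ω)) (n : ℕ) (t : ℝ≥0) (ω : Ω) :
    sint W (catS f n) t ω = ∑ j ∈ Finset.range n, sint W (f j) t ω := by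
  induction n with
  | zero => simp [catS, sint]
  | succ n ih => rw [catS, sint_append, ih, Finset.sum_range_succ]

lemma catS_adm {f : ℕ → List (Elem Ω)} (hf : ∀ j, ∀ e ∈ f j, e.Adm 𝓕) (n : ℕ) :
    ∀ e ∈ catS f n, e.Adm 𝓕 := by
  induction n with
  | zero => intro e he; simp [catS] at he
  | succ n ih =>
    intro e he
    rw [catS, List.mem_append] at he
    exact he.elim (ih e) (hf n e)

lemma measurable_sval {l : List (Elem Ω)} (hl : ∀ e ∈ l, e.Adm 𝓕) :
    Measurable (fun z : ℝ≥0 × Ω => sval l z.1 z.2) := by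
  induction l with
  | nil => simp only [sval, List.map_nil, List.sum_nil]; exact measurable_const
  | cons e l ih =>
    have h1 := ih fun e' he' => hl e' (List.mem_cons_of_mem _ he')
    have h2 := hl e (List.mem_cons_self)
    have h3 : Measurable e.η := h2.2.1.mono (𝓕.le _) le_rfl
    have h4 : Measurable (fun z : ℝ≥0 × Ω => e.val z.1 z.2) := by
      have hs : MeasurableSet {z : ℝ≥0 × Ω | e.s < z.1 ∧ z.1 ≤ e.r} := by
        have h6 : MeasurableSet (Prod.fst ⁻¹' (Ioc e.s e.r) : Set (ℝ≥0 × Ω)) :=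
          measurable_fst measurableSet_Ioc
        exact h6
      exact Measurable.ite hs (h3.comp measurable_snd) measurable_const
    have h5 : (fun z : ℝ≥0 × Ω => sval (e :: l) z.1 z.2) =
        fun z => e.val z.1 z.2 + sval l z.1 z.2 := by
      ext z; simp [sval]
    rw [h5]
    exact h4.add h1

lemma measurable_svalr {l : List (Elem Ω)} (hl : ∀ e ∈ l, e.Adm 𝓕) :
    Measurable (fun z : Ω × ℝ => sval l z.2.toNNReal z.1) :=
  (measurable_sval hl).comp (f := fun z : Ω × ℝ => (z.2.toNNReal, z.1))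
    ((measurable_real_toNNReal.comp measurable_snd).prodMk measurable_fst)

lemma measurable_sint (hWm : ∀ t, Measurable (W t)) {l : List (Elem Ω)}
    (hl : ∀ e ∈ l, e.Adm 𝓕) (t : ℝ≥0) : Measurable (sint W l t) := by
  induction l with
  | nil =>
    have : sint W ([] : List (Elem Ω)) t = fun _ => 0 := by ext ω; simp [sint]
    rw [this]; exact measurable_const
  | cons e l ih =>
    have h1 := ih fun e' he' => hl e' (List.mem_cons_of_mem _ he')
    have h2 := hl e (List.mem_cons_self)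
    have h3 : Measurable e.η := h2.2.1.mono (𝓕.le _) le_rfl
    have h5 : sint W (e :: l) t = fun ω => e.η ω * (W (min e.r t) ω - W (min e.s t) ω) + sint W l t ω := by
      ext ω; simp [sint, Elem.int]
    rw [h5]
    exact (h3.mul ((hWm _).sub (hWm _))).add h1

section
variable {a b : ℕ → ℝ≥0} {w y : ℕ → ℝ} {α : ℕ → Ω → ℝ}

/-- truncated target at stage `j` -/
noncomputable def trM (W : ℝ≥0 → Ω → ℝ) (a b : ℝ≥0) (w y : ℝ) (c t : ℝ≥0) (ω : Ω) : ℝ :=
  stL w y W a b (min t c) ω
        + ∫ s in (0:ℝ)..(min t c : ℝ≥0), stZ w y W a b s.toNNReal ω ^ 2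

variable (S : Sys 𝓕 P W a b w y α)
include S

lemma Sys.stZ_ii {j : ℕ} {ω : Ω} (h : α j ω = 1) (x z : ℝ) :
    IntervalIntegrable (fun s : ℝ => stZ (w j) (y j) W (a j) (b j) s.toNNReal ω ^ 2) volume x z := by
  obtain ⟨C, hC0, hC⟩ := stZ_bdd S.cont (S.hw j) (S.hy j) (S.hab j).le (S.hne j ω h)
  rw [intervalIntegrable_iff]
  have hm := (measurable_stZr S.Wm S.cont (w j) (y j) (a j) (b j)).comp
    (f := fun s : ℝ => (s, ω)) (by fun_prop)
  refine Measure.integrableOn_of_bounded (M := C ^ 2) (by simp)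
    (hm.pow_const 2).aestronglyMeasurable (ae_of_all _ fun s => ?_)
  rw [Real.norm_eq_abs, abs_of_nonneg (sq_nonneg _), ← sq_abs]
  have := hC s.toNNReal
  gcongr

lemma Sys.stZ_ii' (j : ℕ) (ω : Ω) (x z : ℝ) :
    IntervalIntegrable (fun s : ℝ => α j ω * stZ (w j) (y j) W (a j) (b j) s.toNNReal ω ^ 2)
      volume x z := by
  rcases S.h01 j ω with h | h
  · simp only [h, zero_mul]; exact intervalIntegrable_const
  · simp only [h, one_mul]; exact S.stZ_ii h x z

lemma Sys.Ms_eq {ω : Ω} {m : ℕ} (hm : ∀ j, m ≤ j → α j ω = 0) (t : ℝ≥0) :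
    Ms W a b w y α t ω =
      ∑ j ∈ Finset.range m, α j ω * trM W (a j) (b j) (w j) (y j) (b j) t ω := by
  rw [Ms, S.Ls_eq hm]
  simp_rw [S.Zs_sq hm]
  rw [intervalIntegral.integral_finsetSum fun j _ => S.stZ_ii' j ω _ _, ← Finset.sum_add_distrib]
  refine Finset.sum_congr rfl fun j _ => ?_
  rw [intervalIntegral.integral_const_mul, ← mul_add, trM]
  rcases S.h01 j ω with h | h
  · rw [h, zero_mul, zero_mul]
  congr 1
  rcases le_total t (b j) with h' | h'
  · rw [min_eq_left h']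
  · rw [min_eq_right h', stL_ge (S.hab j).le h',
      ← intervalIntegral.integral_add_adjacent_intervals (S.stZ_ii h 0 (b j)) (S.stZ_ii h (b j) t)]
    have : ∫ s in ((b j:ℝ≥0):ℝ)..t, stZ (w j) (y j) W (a j) (b j) s.toNNReal ω ^ 2 = 0 := by
      refine intervalIntegral.integral_zero_ae (ae_of_all _ fun s hs => ?_)
      rw [uIoc_of_le (by exact_mod_cast h')] at hs
      rw [stZ_ge ((Real.le_toNNReal_iff_coe_le ((NNReal.coe_nonneg _).trans hs.1.le)).2 hs.1.le)]
      norm_num
    rw [this, add_zero]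

lemma Sys.tendsto_trM {j : ℕ} {ω : Ω} (h : α j ω = 1) (t : ℝ≥0) :
    Tendsto (fun n => trM W (a j) (b j) (w j) (y j) (cn (a j) (b j) n) t ω) atTop
      (𝓝 (trM W (a j) (b j) (w j) (y j) (b j) t ω)) := by
  have h1 : Continuous (fun s : ℝ≥0 => stL (w j) (y j) W (a j) (b j) s ω
        + ∫ s in (0:ℝ)..s, stZ (w j) (y j) W (a j) (b j) s.toNNReal ω ^ 2) :=
    (continuous_stL S.cont (S.hw j) (S.hy j) (S.hab j).le (S.hne j ω h)).add
      ((intervalIntegral.continuous_primitive (S.stZ_ii h) 0).comp NNReal.continuous_coe)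
  have h2 : Tendsto (fun n => min t (cn (a j) (b j) n)) atTop (𝓝 (min t (b j))) :=
    tendsto_const_nhds.min (tendsto_cn _ _)
  exact (h1.tendsto _).comp h2

lemma Sys.tendsto_sum_trM (t : ℝ≥0) (ω : Ω) :
    Tendsto (fun n => ∑ j ∈ Finset.range n,
      α j ω * trM W (a j) (b j) (w j) (y j) (cn (a j) (b j) n) t ω) atTop
      (𝓝 (Ms W a b w y α t ω)) := by
  obtain ⟨m, hm⟩ := S.hfin ω
  rw [S.Ms_eq hm]
  have h1 : Tendsto (fun n => ∑ j ∈ Finset.range m,
      α j ω * trM W (a j) (b j) (w j) (y j) (cn (a j) (b j) n) t ω) atTop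
      (𝓝 (∑ j ∈ Finset.range m, α j ω * trM W (a j) (b j) (w j) (y j) (b j) t ω)) := by
    refine tendsto_finsetSum _ fun j _ => ?_
    rcases S.h01 j ω with h | h
    · simp only [h, zero_mul]; exact tendsto_const_nhds
    · simp only [h, one_mul]; exact S.tendsto_trM h t
  refine h1.congr' ?_
  filter_upwards [eventually_ge_atTop m] with n hn
  refine Finset.sum_subset (Finset.range_mono hn) fun j _ hj => ?_
  rw [hm j (by simpa using hj), zero_mul]

/-- pointwise convergence of the truncated integrands -/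
lemma Sys.tendsto_Zc (t : ℝ≥0) (ω : Ω) :
    Tendsto (fun n => ∑ j ∈ Finset.range n,
      α j ω * stZc (w j) (y j) W (a j) (b j) (cn (a j) (b j) n) t ω) atTop
      (𝓝 (Zs W a b w y α t ω)) := by
  obtain ⟨m, hm⟩ := S.hfin ω
  rw [S.Zs_eq hm]
  have h1 : Tendsto (fun n => ∑ j ∈ Finset.range m,
      α j ω * stZc (w j) (y j) W (a j) (b j) (cn (a j) (b j) n) t ω) atTop
      (𝓝 (∑ j ∈ Finset.range m, α j ω * stZ (w j) (y j) W (a j) (b j) t ω)) := by
    refine tendsto_finsetSum _ fun j _ => Tendsto.const_mul _ ?_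
    rcases lt_or_ge t (b j) with h | h
    · refine tendsto_const_nhds.congr' ?_
      filter_upwards [(tendsto_cn (a j) (b j)).eventually (lt_mem_nhds h)] with n hn
      rw [stZc, if_pos hn.le]
    · rw [stZ_ge h]
      refine tendsto_const_nhds.congr fun n => ?_
      rw [stZc, stZ_ge h, ite_self]
  refine h1.congr' ?_
  filter_upwards [eventually_ge_atTop m] with n hn
  refine Finset.sum_subset (Finset.range_mono hn) fun j _ hj => ?_
  rw [hm j (by simpa using hj), zero_mul]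

lemma Sys.Zc_bdd (ω : Ω) : ∃ C : ℝ, 0 ≤ C ∧ ∀ n t, |∑ j ∈ Finset.range n,
      α j ω * stZc (w j) (y j) W (a j) (b j) (cn (a j) (b j) n) t ω| ≤ C := by
  obtain ⟨m, hm⟩ := S.hfin ω
  choose C hC0 hC using fun j => S.stZ_bdd' j ω
  refine ⟨∑ j ∈ Finset.range m, C j, Finset.sum_nonneg fun j _ => hC0 j, fun n t => ?_⟩
  refine (Finset.abs_sum_le_sum_abs _ _).trans ?_
  calc ∑ j ∈ Finset.range n, |α j ω * stZc (w j) (y j) W (a j) (b j) (cn (a j) (b j) n) t ω|
      ≤ ∑ j ∈ Finset.range (max n m),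
        |α j ω * stZc (w j) (y j) W (a j) (b j) (cn (a j) (b j) n) t ω| :=
        Finset.sum_le_sum_of_subset_of_nonneg (Finset.range_mono (le_max_left _ _))
          fun j _ _ => abs_nonneg _
    _ = ∑ j ∈ Finset.range m,
        |α j ω * stZc (w j) (y j) W (a j) (b j) (cn (a j) (b j) n) t ω| := by
        symm
        refine Finset.sum_subset (Finset.range_mono (le_max_right _ _)) fun j _ hj => ?_
        rw [hm j (by simpa using hj), zero_mul, abs_zero]
    _ ≤ _ := by
        refine Finset.sum_le_sum fun j _ => ?_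
        rw [stZc]
        split_ifs
        · exact hC j t
        · rw [mul_zero, abs_zero]; exact hC0 j

end

end Pool.Agent.Helper95.BSDE
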