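import Mathlib
import Pool.Agent.Helper95.BSDEIto2

set_option autoImplicit false
set_option linter.unusedSectionVars false

open MeasureTheory ProbabilityTheory Filter Topology Set
open scoped NNReal ENNReal

namespace Pool.Agent.Helper95.BSDE

universe u

variable {Ω : Type u} {mΩ : MeasurableSpace Ω} {P : Measure Ω} [IsProbabilityMeasure P]
  {W : ℝ≥0 → Ω → ℝ} {𝓕 : Filtration ℝ≥0 mΩ}

lemma tendsto_aux (C : ℝ) :
    Tendsto (fun n : ℕ => ENNReal.ofReal (C * (1 / ((n:ℝ) + 1)))) atTop (𝓝 0) := by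
  have h1 : Tendsto (fun n : ℕ => C * (1 / ((n:ℝ) + 1))) atTop (𝓝 0) := by
    simpa using (tendsto_one_div_add_atTop_nhds_zero_nat (𝕜 := ℝ)).const_mul C
  simpa using (ENNReal.tendsto_ofReal h1)

section
variable {a b : ℕ → ℝ≥0} {w y : ℕ → ℝ} {α : ℕ → Ω → ℝ}
variable (S : Sys 𝓕 P W a b w y α)
include S

lemma Sys.meas_trM (j : ℕ) (c t : ℝ≥0) :
    Measurable (trM W (a j) (b j) (w j) (y j) c t) := by
  have h1 : Measurable (fun ω => stL (w j) (y j) W (a j) (b j) (min t c) ω) :=
    (measurable_stLu S.Wm S.cont (w j) (y j) (a j) (b j)).comp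
      (f := fun ω => (min t c, ω)) (by fun_prop)
  have h2 := (adapted_integral (prog_stZ S.adap S.cont (w j) (y j) (a j) (b j)) (min t c)).mono
    (𝓕.le _) le_rfl
  exact h1.add h2

lemma Sys.meas_Zsr : Measurable (fun z : Ω × ℝ => Zs W a b w y α z.2.toNNReal z.1) :=
  (prog_jm S.prog_Zs).comp (f := fun z : Ω × ℝ => (z.2.toNNReal, z.1))
    ((measurable_real_toNNReal.comp measurable_snd).prodMk measurable_fst)

lemma Sys.meas_Zc (j : ℕ) (c : ℝ≥0) : Measurable (fun z : Ω × ℝ =>
    stZc (w j) (y j) W (a j) (b j) c z.2.toNNReal z.1) := by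
  have h1 : Measurable (fun z : ℝ≥0 × Ω => stZc (w j) (y j) W (a j) (b j) c z.1 z.2) := by
    have hs : MeasurableSet {z : ℝ≥0 × Ω | z.1 ≤ c} := by
      have h6 : MeasurableSet (Prod.fst ⁻¹' (Iic c) : Set (ℝ≥0 × Ω)) :=
        measurable_fst measurableSet_Iic
      exact h6
    exact Measurable.ite hs (measurable_stZu S.Wm S.cont (w j) (y j) (a j) (b j)) measurable_const
  exact h1.comp (f := fun z : Ω × ℝ => (z.2.toNNReal, z.1))
    ((measurable_real_toNNReal.comp measurable_snd).prodMk measurable_fst)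

theorem Sys.isIto (T : ℝ≥0) :
    IsItoIntegral 𝓕 P W T (Zs W a b w y α) (Ms W a b w y α) := by
  classical
  have hε : ∀ n : ℕ, (0:ℝ) < 1 / ((n:ℝ) + 1) ^ 3 := fun n => by positivity
  choose l hl1 hl2 hl3 using fun (j n : ℕ) => stage_approx S.adap S.cont S.bm (S.hw j) (S.hy j)
    (le_cn (S.hab j) n) (cn_lt (S.hab j) n) (hε n)
  set Sn : ℕ → List (Elem Ω) := fun n => catS (fun j => scl (α j) (l j n)) n with hSn
  have hadm : ∀ n, ∀ e ∈ Sn n, e.Adm 𝓕 := fun n =>
    catS_adm (fun j => scl_adm (S.hαm j) (S.h01 j) (hl1 j n)) n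
  have hadl : ∀ j n, ∀ e ∈ l j n, e.Adm 𝓕 := fun j n e he => (hl1 j n e he).2
  have hα1 : ∀ j ω, |α j ω| ≤ 1 := by
    intro j ω
    rcases S.h01 j ω with h | h <;> rw [h] <;> norm_num
  refine ⟨S.prog_Zs, ae_of_all _ fun ω => S.Zs_ii ω _ _, S.prog_Ms,
    ae_of_all _ fun ω => (S.cont_Ms ω).continuousOn, Sn, hadm, ?_, ?_⟩
  · set D : ℕ → ℕ → Ω → ℝ → ℝ := fun n j ω s => sval (l j n) s.toNNReal ω
      - stZc (w j) (y j) W (a j) (b j) (cn (a j) (b j) n) s.toNNReal ω with hD
    set Q : ℕ → Ω → ℝ → ℝ := fun n ω s => Zs W a b w y α s.toNNReal ω -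
      ∑ j ∈ Finset.range n,
        α j ω * stZc (w j) (y j) W (a j) (b j) (cn (a j) (b j) n) s.toNNReal ω with hQ
    have hDm : ∀ n j, Measurable (fun z : Ω × ℝ => D n j z.1 z.2) := fun n j =>
      (measurable_svalr (hadl j n)).sub (S.meas_Zc j _)
    have hQm : ∀ n, Measurable (fun z : Ω × ℝ => Q n z.1 z.2) := fun n =>
      S.meas_Zsr.sub (Finset.measurable_sum _ fun j _ =>
        ((S.αmeas j).comp measurable_fst).mul (S.meas_Zc j _))
    have hDi : ∀ n j, Measurable (fun ω => ∫⁻ s in Ioc (0:ℝ) T, ENNReal.ofReal (D n j ω s ^ 2)) :=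
      fun n j => (ENNReal.measurable_ofReal.comp ((hDm n j).pow_const 2)).lintegral_prod_right'
    have hQi : ∀ n, Measurable (fun ω => ∫⁻ s in Ioc (0:ℝ) T, ENNReal.ofReal (2 * Q n ω s ^ 2)) :=
      fun n => (ENNReal.measurable_ofReal.comp
        (((hQm n).pow_const 2).const_mul 2)).lintegral_prod_right'
    refine tim_of_le
      (U := fun n ω => ∑ j ∈ Finset.range n, ENNReal.ofReal (2 * n) *
        ∫⁻ s in Ioc (0:ℝ) T, ENNReal.ofReal (D n j ω s ^ 2))
      (V := fun n ω => ∫⁻ s in Ioc (0:ℝ) T, ENNReal.ofReal (2 * Q n ω s ^ 2)) ?_ ?_ hQi ?_ ?_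
    · exact fun n => Finset.measurable_sum _ fun j _ => (hDi n j).const_mul _
    · have hb : ∀ n : ℕ, ∫⁻ ω, (∑ j ∈ Finset.range n, ENNReal.ofReal (2 * n) *
          ∫⁻ s in Ioc (0:ℝ) T, ENNReal.ofReal (D n j ω s ^ 2)) ∂P ≤
          ENNReal.ofReal (2 * (1 / ((n:ℝ) + 1))) := by
        intro n
        rw [lintegral_finsetSum _ fun j _ => (hDi n j).const_mul _]
        calc ∑ j ∈ Finset.range n, ∫⁻ ω, ENNReal.ofReal (2 * n) *
              (∫⁻ s in Ioc (0:ℝ) T, ENNReal.ofReal (D n j ω s ^ 2)) ∂P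
            ≤ ∑ j ∈ Finset.range n, ENNReal.ofReal (2 * n) * ENNReal.ofReal (1 / ((n:ℝ) + 1) ^ 3) := by
              refine Finset.sum_le_sum fun j _ => ?_
              rw [lintegral_const_mul' _ _ ENNReal.ofReal_ne_top]
              gcongr
              exact hl3 j n T
          _ = ENNReal.ofReal (n * (2 * n * (1 / ((n:ℝ) + 1) ^ 3))) := by
              rw [Finset.sum_const, Finset.card_range, nsmul_eq_mul,
                ← ENNReal.ofReal_mul (by positivity), ENNReal.ofReal_mul (p := (n:ℝ)) (by positivity),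
                ENNReal.ofReal_natCast]
          _ ≤ _ := by
              refine ENNReal.ofReal_le_ofReal ?_
              have h1 : (0:ℝ) < (n:ℝ) + 1 := by positivity
              have h2 : (n:ℝ) * (2 * n * (1 / ((n:ℝ) + 1) ^ 3)) = 2 * ((n:ℝ) ^ 2 / ((n:ℝ) + 1) ^ 3) := by
                ring
              rw [h2]
              gcongr 2 * ?_
              rw [div_le_div_iff₀ (by positivity) h1]
              nlinarith [sq_nonneg (n:ℝ)]
      exact tendsto_of_tendsto_of_tendsto_of_le_of_le tendsto_const_nhds (tendsto_aux 2)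
        (fun _ => zero_le) hb
    · intro ω
      obtain ⟨C, hC0, hC⟩ := S.Zs_bdd ω
      obtain ⟨C', hC0', hC'⟩ := S.Zc_bdd ω
      have h1 : ∀ n s, |Q n ω s| ≤ C + C' := fun n s =>
        (abs_sub _ _).trans (add_le_add (hC _) (hC' _ _))
      have h2 := tendsto_lintegral_of_dominated_convergence (μ := volume.restrict (Ioc (0:ℝ) T))
        (F := fun n s => ENNReal.ofReal (2 * Q n ω s ^ 2)) (f := fun _ => 0)
        (fun _ => ENNReal.ofReal (2 * (C + C') ^ 2))
        (fun n => ENNReal.measurable_ofReal.comp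
          ((((hQm n).comp (f := fun s : ℝ => (ω, s)) (by fun_prop)).pow_const 2).const_mul 2))
        (fun n => ae_of_all _ fun s => by
          refine ENNReal.ofReal_le_ofReal ?_
          have h3 := h1 n s
          rw [← sq_abs]
          gcongr)
        (by
          rw [setLIntegral_const, Real.volume_Ioc]
          exact ENNReal.mul_ne_top ENNReal.ofReal_ne_top ENNReal.ofReal_ne_top)
        (ae_of_all _ fun s => by
          have h3 := (tendsto_const_nhds (x := Zs W a b w y α s.toNNReal ω)).sub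
            (S.tendsto_Zc s.toNNReal ω)
          rw [sub_self] at h3
          have h4 := (h3.pow 2).const_mul 2
          have h5 := ENNReal.tendsto_ofReal h4
          simpa using h5)
      simpa using h2
    · intro n ω
      rw [sub_zero, intervalIntegral.integral_of_le (NNReal.coe_nonneg T)]
      refine (enorm_integral_le_lintegral_enorm _).trans ?_
      have hpt : ∀ s : ℝ, ‖(sval (Sn n) s.toNNReal ω - Zs W a b w y α s.toNNReal ω) ^ 2‖ₑ ≤
          (∑ j ∈ Finset.range n, ENNReal.ofReal (2 * n) * ENNReal.ofReal (D n j ω s ^ 2)) +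
          ENNReal.ofReal (2 * Q n ω s ^ 2) := by
        intro s
        have e1 : sval (Sn n) s.toNNReal ω - Zs W a b w y α s.toNNReal ω =
            ∑ j ∈ Finset.range n, α j ω * D n j ω s - Q n ω s := by
          simp only [hSn, hD, hQ, sval_catS, sval_scl, mul_sub, Finset.sum_sub_distrib]
          ring
        have e2 : (sval (Sn n) s.toNNReal ω - Zs W a b w y α s.toNNReal ω) ^ 2 ≤
            (∑ j ∈ Finset.range n, 2 * n * D n j ω s ^ 2) + 2 * Q n ω s ^ 2 := by
          rw [e1]
          have e3 := sq_sum_le_card_mul_sum_sq (s := Finset.range n) (f := fun j => α j ω * D n j ω s)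
          rw [Finset.card_range] at e3
          have e4 : ∑ j ∈ Finset.range n, (α j ω * D n j ω s) ^ 2 ≤
              ∑ j ∈ Finset.range n, D n j ω s ^ 2 := by
            refine Finset.sum_le_sum fun j _ => ?_
            rw [mul_pow, S.αsq]
            have := (abs_le.1 (hα1 j ω)).2
            nlinarith [sq_nonneg (D n j ω s)]
          have e5 : ∑ j ∈ Finset.range n, 2 * (n:ℝ) * D n j ω s ^ 2 =
              2 * (n * ∑ j ∈ Finset.range n, D n j ω s ^ 2) := by
            rw [← Finset.mul_sum]; ring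
          rw [e5]
          have e6 : (n:ℝ) * ∑ j ∈ Finset.range n, (α j ω * D n j ω s) ^ 2 ≤
              n * ∑ j ∈ Finset.range n, D n j ω s ^ 2 := by gcongr
          nlinarith [sq_nonneg ((∑ j ∈ Finset.range n, α j ω * D n j ω s) + Q n ω s)]
        rw [← ofReal_norm, Real.norm_eq_abs, abs_of_nonneg (sq_nonneg _)]
        refine (ENNReal.ofReal_le_ofReal e2).trans ?_
        rw [ENNReal.ofReal_add (Finset.sum_nonneg fun j _ => by positivity) (by positivity),
          ENNReal.ofReal_sum_of_nonneg fun j _ => by positivity]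
        gcongr with j _
        rw [ENNReal.ofReal_mul (by positivity)]
      refine (lintegral_mono hpt).trans ?_
      have hDs : ∀ j, Measurable (fun s => ENNReal.ofReal (D n j ω s ^ 2)) := fun j =>
        ENNReal.measurable_ofReal.comp
          (((hDm n j).comp (f := fun s : ℝ => (ω, s)) (by fun_prop)).pow_const 2)
      rw [lintegral_add_left (Finset.measurable_sum _ fun j _ => (hDs j).const_mul _),
        lintegral_finsetSum _ fun j _ => (hDs j).const_mul _]
      gcongr with j _
      rw [lintegral_const_mul' _ _ ENNReal.ofReal_ne_top]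
  · intro t _
    refine tim_of_le
      (U := fun n ω => ∑ j ∈ Finset.range n,
        ‖trM W (a j) (b j) (w j) (y j) (cn (a j) (b j) n) t ω - sint W (l j n) t ω‖ₑ)
      (V := fun n ω => ‖Ms W a b w y α t ω - ∑ j ∈ Finset.range n,
        α j ω * trM W (a j) (b j) (w j) (y j) (cn (a j) (b j) n) t ω‖ₑ) ?_ ?_ ?_ ?_ ?_
    · exact fun n => Finset.measurable_sum _ fun j _ =>
        ((S.meas_trM j _ t).sub (measurable_sint S.Wm (hadl j n) t)).enorm
    · have hb : ∀ n : ℕ, ∫⁻ ω, (∑ j ∈ Finset.range n,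
          ‖trM W (a j) (b j) (w j) (y j) (cn (a j) (b j) n) t ω - sint W (l j n) t ω‖ₑ) ∂P ≤
          ENNReal.ofReal (1 * (1 / ((n:ℝ) + 1))) := by
        intro n
        have hmj : ∀ j, Measurable (fun ω =>
            ‖trM W (a j) (b j) (w j) (y j) (cn (a j) (b j) n) t ω - sint W (l j n) t ω‖ₑ) :=
          fun j => ((S.meas_trM j _ t).sub (measurable_sint S.Wm (hadl j n) t)).enorm
        rw [lintegral_finsetSum _ fun j _ => hmj j]
        calc _ ≤ ∑ j ∈ Finset.range n, ENNReal.ofReal (1 / ((n:ℝ) + 1) ^ 3) := by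
              refine Finset.sum_le_sum fun j _ => ?_
              exact hl2 j n t
          _ = ENNReal.ofReal (n * (1 / ((n:ℝ) + 1) ^ 3)) := by
              rw [Finset.sum_const, Finset.card_range, nsmul_eq_mul,
                ENNReal.ofReal_mul (p := (n:ℝ)) (by positivity), ENNReal.ofReal_natCast]
          _ ≤ _ := by
              refine ENNReal.ofReal_le_ofReal ?_
              have h1 : (0:ℝ) < (n:ℝ) + 1 := by positivity
              rw [one_mul, mul_one_div, div_le_div_iff₀ (by positivity) h1]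
              nlinarith [sq_nonneg (n:ℝ), pow_nonneg (Nat.cast_nonneg n : (0:ℝ) ≤ n) 3]
      exact tendsto_of_tendsto_of_tendsto_of_le_of_le tendsto_const_nhds (tendsto_aux 1)
        (fun _ => zero_le) hb
    · intro n
      refine Measurable.enorm (Measurable.sub ?_ ?_)
      · exact (prog_jm S.prog_Ms).comp (f := fun ω => (t, ω)) (by fun_prop)
      · exact Finset.measurable_sum _ fun j _ => (S.αmeas j).mul (S.meas_trM j _ t)
    · intro ω
      have h3 := (tendsto_const_nhds (x := Ms W a b w y α t ω)).sub (S.tendsto_sum_trM t ω)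
      rw [sub_self] at h3
      have h4 := h3.enorm
      simpa using h4
    · intro n ω
      have e1 : sint W (Sn n) t ω - Ms W a b w y α t ω =
          (∑ j ∈ Finset.range n, α j ω * (sint W (l j n) t ω -
            trM W (a j) (b j) (w j) (y j) (cn (a j) (b j) n) t ω))
          - (Ms W a b w y α t ω - ∑ j ∈ Finset.range n,
            α j ω * trM W (a j) (b j) (w j) (y j) (cn (a j) (b j) n) t ω) := by
        simp only [hSn, sint_catS, sint_scl, mul_sub, Finset.sum_sub_distrib]
        ring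
      rw [e1]
      refine (enorm_sub_le).trans (add_le_add ?_ le_rfl)
      refine (enorm_sum_le _ _).trans (Finset.sum_le_sum fun j _ => ?_)
      rw [enorm_mul, ← enorm_neg (sint W (l j n) t ω - _), neg_sub]
      calc ‖α j ω‖ₑ * _ ≤ 1 * _ := by
            gcongr
            rw [← ofReal_norm, ← ENNReal.ofReal_one]
            exact ENNReal.ofReal_le_ofReal (hα1 j ω)
        _ = _ := one_mul _

end

end Pool.Agent.Helper95.BSDE
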