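import Mathlib
import Pool.Agent.Helper95.BSDEIto3

set_option autoImplicit false
set_option linter.unusedSectionVars false

open MeasureTheory ProbabilityTheory Filter Topology Set
open scoped NNReal ENNReal

namespace Pool.Agent.Helper95.BSDE

/-- the absorption levels -/
noncomputable def wk (k : ℕ) : ℝ := 1 / (100 * (((k:ℝ) + 1) * ((k:ℝ) + 2)))

lemma wk_pos (k : ℕ) : 0 < wk k := by rw [wk]; positivity

lemma wk_eq (k : ℕ) : wk k = 1 / 100 * (1 / ((k:ℝ) + 1) - 1 / ((k:ℝ) + 2)) := by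
  rw [wk]; field_simp; ring

lemma wk_le (k : ℕ) : wk k ≤ 1 / 200 := by
  have h : (0:ℝ) ≤ k := Nat.cast_nonneg k
  rw [wk]
  apply one_div_le_one_div_of_le (by norm_num)
  nlinarith

/-- the continuation levels, started from `y₀` -/
noncomputable def ys (y₀ : ℝ) : ℕ → ℝ
  | 0 => y₀
  | k + 1 => 2 / ys y₀ k - wk (k + 1)

lemma ys_inv {y₀ : ℝ} (h1 : 2 ≤ y₀) (h2 : y₀ ≤ 5 / 2) (m : ℕ) :
    |ys y₀ (2 * m) - y₀| ≤ 1 / 20 * (1 / 2 - 1 / ((2 * m : ℕ) + 2)) := by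
  induction m with
  | zero => simp [ys]
  | succ m ih =>
    set k := 2 * m with hk
    have hk2 : 2 * (m + 1) = k + 2 := by omega
    rw [hk2]
    have hw1 := wk_pos (k + 1)
    have hw2 := wk_pos (k + 2)
    have hw1' := wk_le (k + 1)
    have hw2' := wk_le (k + 2)
    have e1 : 1 / 20 * (1 / 2 - 1 / (((k + 2 : ℕ) : ℝ) + 2)) =
        1 / 20 * (1 / 2 - 1 / ((k : ℝ) + 2)) + 5 * (wk (k + 1) + wk (k + 2)) := by
      rw [wk_eq, wk_eq]
      push_cast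
      ring
    rw [e1]
    set δ := 1 / 20 * (1 / 2 - 1 / ((k : ℝ) + 2)) with hδ
    have hδ1 : δ ≤ 1 / 40 := by
      have : (0:ℝ) ≤ 1 / ((k:ℝ) + 2) := by positivity
      rw [hδ]; linarith
    have ih' := abs_le.1 ih
    set Y := ys y₀ k with hY
    have hYl : 39 / 20 ≤ Y := by linarith [ih'.1]
    have hYu : Y ≤ 13 / 5 := by linarith [ih'.2]
    have hY0 : 0 < Y := by linarith
    have e2 : ys y₀ (k + 2) = 2 / (2 / Y - wk (k + 1)) - wk (k + 2) := rfl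
    set w1 := wk (k + 1)
    set w2 := wk (k + 2)
    set D := 2 / Y - w1 with hD
    have hDl : 3 / 4 ≤ D := by
      have : 2 / (13 / 5) ≤ 2 / Y := by gcongr
      rw [hD]; linarith
    have hD0 : 0 < D := by linarith
    have e3 : 2 / D - Y = Y * w1 / D := by
      rw [eq_div_iff hD0.ne', sub_mul, div_mul_cancel₀ _ hD0.ne']
      have : Y * (2 / Y) = 2 := by field_simp
      rw [hD, mul_sub, this]
      ring
    have e4 : Y * w1 / D ≤ 4 * w1 := by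
      rw [div_le_iff₀ hD0]
      nlinarith
    have e5 : 0 ≤ Y * w1 / D := by positivity
    rw [e2, abs_le]
    constructor
    · linarith [ih'.1]
    · linarith [ih'.2]

lemma ys_bound {y₀ : ℝ} (h1 : 2 ≤ y₀) (h2 : y₀ ≤ 5 / 2) (k : ℕ) :
    2 / 3 ≤ ys y₀ k ∧ ys y₀ k ≤ 3 := by
  have hev : ∀ m, 39 / 20 ≤ ys y₀ (2 * m) ∧ ys y₀ (2 * m) ≤ 13 / 5 := by
    intro m
    have ih' := abs_le.1 (ys_inv h1 h2 m)
    have hδ1 : 1 / 20 * (1 / 2 - 1 / (((2 * m : ℕ) : ℝ) + 2)) ≤ 1 / 40 := by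
      have : (0:ℝ) ≤ 1 / (((2 * m : ℕ) : ℝ) + 2) := by positivity
      linarith
    constructor <;> linarith [ih'.1, ih'.2]
  obtain ⟨m, hm | hm⟩ := Nat.even_or_odd' k
  · rw [hm]
    obtain ⟨h3, h4⟩ := hev m
    constructor <;> linarith
  · rw [hm]
    obtain ⟨h3, h4⟩ := hev m
    have e2 : ys y₀ (2 * m + 1) = 2 / ys y₀ (2 * m) - wk (2 * m + 1) := rfl
    have hw1 := wk_pos (2 * m + 1)
    have hw1' := wk_le (2 * m + 1)
    have h5 : 0 < ys y₀ (2 * m) := by linarith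
    have h6 : 2 / (13 / 5) ≤ 2 / ys y₀ (2 * m) := by gcongr
    have h7 : 2 / ys y₀ (2 * m) ≤ 2 / (39 / 20) := by gcongr
    rw [e2]
    constructor <;> linarith

lemma ys_pos {y₀ : ℝ} (h1 : 2 ≤ y₀) (h2 : y₀ ≤ 5 / 2) (k : ℕ) : 0 < ys y₀ k := by
  linarith [(ys_bound h1 h2 k).1]

/-- starting level of stage `k` -/
noncomputable def xs (y₀ : ℝ) (k : ℕ) : ℝ := (wk k + ys y₀ k) / 2

lemma xs_succ {y₀ : ℝ} (k : ℕ) : xs y₀ (k + 1) = 1 / ys y₀ k := by
  have : ys y₀ (k + 1) = 2 / ys y₀ k - wk (k + 1) := rfl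
  rw [xs, this]; ring

/-- the time grid -/
noncomputable def tk (T : ℝ≥0) (k : ℕ) : ℝ≥0 := T * ((k : ℝ≥0) / (k + 1))

lemma tk_zero (T : ℝ≥0) : tk T 0 = 0 := by simp [tk]

lemma tk_lt {T : ℝ≥0} (hT : 0 < T) (k : ℕ) : tk T k < tk T (k + 1) := by
  rw [tk, tk]
  refine mul_lt_mul_of_pos_left ?_ hT
  rw [div_lt_div_iff₀ (by positivity) (by positivity)]
  push_cast
  have : (k:ℝ≥0) * (k + 1 + 1) + 1 = (k + 1) * (k + 1) := by ring
  rw [← this]
  exact lt_add_one _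

lemma tk_le (T : ℝ≥0) (k : ℕ) : tk T k ≤ T := by
  rw [tk]
  calc T * ((k : ℝ≥0) / (k + 1)) ≤ T * 1 := by
        gcongr
        rw [div_le_one (by positivity)]
        exact le_add_of_nonneg_right zero_le_one
    _ = T := mul_one T

lemma tk_mono {T : ℝ≥0} (hT : 0 < T) : StrictMono (tk T) := strictMono_nat_of_lt_succ (tk_lt hT)

/-- which Brownian motion drives stage `k` -/
def par (k : ℕ) : Fin 2 := if k % 2 = 0 then 0 else 1

lemma par_even (j : ℕ) : par (2 * j) = 0 := by simp [par]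

lemma par_odd (j : ℕ) : par (2 * j + 1) = 1 := by simp [par, Nat.add_mod]

end Pool.Agent.Helper95.BSDE
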