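import Mathlib
import Pool.Agent.Helper95.BSDESeq

set_option autoImplicit false
set_option linter.unusedSectionVars false

open MeasureTheory ProbabilityTheory Filter Topology Set
open scoped NNReal ENNReal

namespace Pool.Agent.Helper95.BSDE

universe u

variable {Ω : Type u} {mΩ : MeasurableSpace Ω} {P : Measure Ω} [IsProbabilityMeasure P]
  {B : Fin 2 → ℝ≥0 → Ω → ℝ} {𝓕 : Filtration ℝ≥0 mΩ} {T : ℝ≥0}

/-- hypotheses on the driving pair -/
structure Glob (𝓕 : Filtration ℝ≥0 mΩ) (P : Measure Ω) (B : Fin 2 → ℝ≥0 → Ω → ℝ) : Prop where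
  adap : ∀ i t, Measurable[𝓕 t] (B i t)
  cont : ∀ i ω, Continuous fun t => B i t ω
  bm : ∀ i, IsPreBrownianReal (B i) P
  null : ∀ A, MeasurableSet A → P A = 0 → MeasurableSet[𝓕 0] A

/-- increment of the driving Brownian motion in stage `k` -/
noncomputable def inc (B : Fin 2 → ℝ≥0 → Ω → ℝ) (T : ℝ≥0) (k : ℕ) (ω : Ω) : ℝ :=
  B (par k) (tk T (k + 1)) ω - B (par k) (tk T k) ω

/-- good event -/
def Gd (B : Fin 2 → ℝ≥0 → Ω → ℝ) (T : ℝ≥0) : Set Ω :=
  {ω | (∀ k, inc B T k ω ≠ 0) ∧ ∃ k, inc B T k ω < 0}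

/-- alive events -/
def Al (B : Fin 2 → ℝ≥0 → Ω → ℝ) (T : ℝ≥0) : ℕ → Set Ω
  | 0 => Gd B T
  | k + 1 => Al B T k ∩ {ω | 0 < inc B T k ω}

/-- alive indicators -/
noncomputable def al (B : Fin 2 → ℝ≥0 → Ω → ℝ) (T : ℝ≥0) (k : ℕ) (ω : Ω) : ℝ :=
  (Al B T k).indicator (fun _ => 1) ω

lemma al_01 (k : ℕ) (ω : Ω) : al B T k ω = 0 ∨ al B T k ω = 1 := by
  classical
  rw [al, indicator_apply]; split_ifs <;> simp

lemma al_eq_one {k : ℕ} {ω : Ω} : al B T k ω = 1 ↔ ω ∈ Al B T k := by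
  classical
  rw [al, indicator_apply]; split_ifs with h <;> simp [h]

lemma al_eq_zero {k : ℕ} {ω : Ω} : al B T k ω = 0 ↔ ω ∉ Al B T k := by
  classical
  rw [al, indicator_apply]; split_ifs with h <;> simp [h]

lemma Al_anti {i j : ℕ} (h : i ≤ j) : Al B T j ⊆ Al B T i := by
  induction h with
  | refl => exact subset_rfl
  | step _ ih => exact inter_subset_left.trans ih

lemma Al_good {k : ℕ} : Al B T k ⊆ Gd B T := Al_anti (Nat.zero_le k)

lemma Al_pos {j k : ℕ} (h : j < k) {ω : Ω} (hω : ω ∈ Al B T k) : 0 < inc B T j ω :=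
  (Al_anti h hω).2

lemma Al_fin (ω : Ω) : ∃ m, ∀ j, m ≤ j → ω ∉ Al B T j := by
  by_cases h : ω ∈ Gd B T
  · obtain ⟨_, k, hk⟩ := h
    exact ⟨k + 1, fun j hj hω => absurd (Al_pos (Nat.lt_of_succ_le hj) hω) (not_lt.2 hk.le)⟩
  · exact ⟨0, fun j _ hω => h (Al_good hω)⟩

lemma gauss_pos_half {v : ℝ≥0} (hv : v ≠ 0) : gaussianReal 0 v (Ioi 0) = 1 / 2 := by
  have h1 := q_zero_right v hv
  rw [q, measureReal_def] at h1
  have h2 : gaussianReal 0 v (Iic 0) = 1 / 2 := by
    rw [← ENNReal.ofReal_toReal (measure_ne_top (gaussianReal 0 v) (Iic 0)), h1]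
    rw [ENNReal.ofReal_div_of_pos (by norm_num)]; simp
  rw [← compl_Iic, prob_compl_eq_one_sub measurableSet_Iic, h2]
  simp

variable (G : Glob 𝓕 P B)
include G

lemma Glob.meas (i : Fin 2) (t : ℝ≥0) : Measurable (B i t) := (G.adap i t).mono (𝓕.le _) le_rfl

lemma Glob.meas_inc (k : ℕ) : Measurable (inc B T k) := (G.meas _ _).sub (G.meas _ _)

lemma Glob.adap_inc (hT : 0 < T) (k : ℕ) : Measurable[𝓕 (tk T (k + 1))] (inc B T k) :=
  (G.adap _ _).sub ((G.adap _ _).mono (𝓕.mono (tk_lt hT k).le) le_rfl)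

lemma Glob.prob_inc_zero (hT : 0 < T) (k : ℕ) : P {ω | inc B T k ω = 0} = 0 := by
  have h1 := hasLaw_incr (G.bm (par k)) (tk_lt hT k).le
  have h2 : tk T (k+1) - tk T k ≠ 0 := (tsub_pos_of_lt (tk_lt hT k)).ne'
  have h3 : P ((fun ω => B (par k) (tk T (k+1)) ω - B (par k) (tk T k) ω) ⁻¹' {0}) = 0 := by
    rw [← Measure.map_apply_of_aemeasurable h1.aemeasurable (measurableSet_singleton 0), h1.map_eq]
    have := nullSingletonClass_gaussianReal (μ := 0) h2
    exact measure_singleton 0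
  exact h3

/-- all even stages below `2 m` have positive increments -/
def Ev (B : Fin 2 → ℝ≥0 → Ω → ℝ) (T : ℝ≥0) (m : ℕ) : Set Ω := {ω | ∀ i < m, 0 < inc B T (2 * i) ω}

lemma Glob.prob_Ev (hT : 0 < T) (m : ℕ) : P (Ev B T m) = (1 / 2) ^ m := by
  induction m with
  | zero =>
    have : Ev B T 0 = univ := by ext ω; simp [Ev]
    rw [this]; simp
  | succ m ih =>
    have hmono := (tk_mono hT).monotone
    have h := (G.bm 0).indepFun_shift (tk T (2 * m))
    set t := tk T (2 * m) with ht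
    have hle1 : ∀ i : Fin m, tk T (2 * i + 1) ≤ t := fun i => hmono (by have := i.2; omega)
    have hle0 : ∀ i : Fin m, tk T (2 * i) ≤ t := fun i => hmono (by have := i.2; omega)
    let A : Set ((Iic t) → ℝ) :=
      {g | ∀ i : Fin m, 0 < g ⟨tk T (2 * i + 1), hle1 i⟩ - g ⟨tk T (2 * i), hle0 i⟩}
    have hA : MeasurableSet A := by
      have : A = ⋂ i : Fin m,
          {g : (Iic t) → ℝ | 0 < g ⟨tk T (2 * i + 1), hle1 i⟩ - g ⟨tk T (2 * i), hle0 i⟩} := by
        ext g; simp [A]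
      rw [this]
      refine MeasurableSet.iInter fun i => measurableSet_lt measurable_const ?_
      exact (measurable_pi_apply _).sub (measurable_pi_apply _)
    let C : Set (ℝ≥0 → ℝ) := {g | 0 < g (tk T (2 * m + 1) - t)}
    have hC : MeasurableSet C := measurableSet_lt measurable_const (measurable_pi_apply _)
    have h2 := h.measure_inter_preimage_eq_mul C A hC hA
    have eA : (fun ω (s : Iic t) => B 0 s ω) ⁻¹' A = Ev B T m := by
      ext ω
      simp only [A, Ev, mem_preimage, mem_ofPred_eq, inc, par_even]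
      constructor
      · intro h3 i hi; exact h3 ⟨i, hi⟩
      · intro h3 i; exact h3 i i.2
    have eC : (fun ω s => B 0 (t + s) ω - B 0 t ω) ⁻¹' C = {ω | 0 < inc B T (2 * m) ω} := by
      ext ω
      simp only [C, mem_preimage, mem_ofPred_eq, inc, par_even]
      rw [add_tsub_cancel_of_le (tk_lt hT (2 * m)).le]
    rw [eA, eC] at h2
    have e3 : Ev B T (m + 1) = {ω | 0 < inc B T (2 * m) ω} ∩ Ev B T m := by
      ext ω
      simp only [Ev, mem_ofPred_eq, mem_inter_iff]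
      constructor
      · intro h3; exact ⟨h3 m (Nat.lt_succ_self m), fun i hi => h3 i (hi.trans (Nat.lt_succ_self m))⟩
      · rintro ⟨h3, h4⟩ i hi
        rcases Nat.lt_succ_iff_lt_or_eq.1 hi with h5 | h5
        · exact h4 i h5
        · rw [h5]; exact h3
    have e4 : P {ω | 0 < inc B T (2 * m) ω} = 1 / 2 := by
      have h1 := hasLaw_incr (G.bm (par (2 * m))) (tk_lt hT (2 * m)).le
      have h2 : tk T (2 * m+1) - tk T (2 * m) ≠ 0 := (tsub_pos_of_lt (tk_lt hT (2 * m))).ne'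
      have h3 : P ((fun ω => B (par (2 * m)) (tk T (2 * m+1)) ω
          - B (par (2 * m)) (tk T (2 * m)) ω) ⁻¹' (Ioi 0)) = 1 / 2 := by
        rw [← Measure.map_apply_of_aemeasurable h1.aemeasurable measurableSet_Ioi, h1.map_eq]
        exact gauss_pos_half h2
      exact h3
    rw [e3, h2, e4, ih, pow_succ, mul_comm]

lemma Glob.prob_Al (hT : 0 < T) (k : ℕ) : P (Al B T k) ≤ (1 / 2) ^ ((k + 1) / 2) := by
  rw [← G.prob_Ev hT ((k + 1) / 2)]
  refine measure_mono fun ω hω i hi => ?_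
  exact Al_pos (by omega) hω

lemma Glob.meas_Gd (_hT : 0 < T) : MeasurableSet (Gd B T) := by
  have h1 : MeasurableSet {ω | ∀ k, inc B T k ω ≠ 0} := by
    have : {ω | ∀ k, inc B T k ω ≠ 0} = ⋂ k, (inc B T k ⁻¹' {0})ᶜ := by ext ω; simp
    rw [this]
    exact MeasurableSet.iInter fun k => (G.meas_inc k (measurableSet_singleton 0)).compl
  have h2 : MeasurableSet {ω | ∃ k, inc B T k ω < 0} := by
    have : {ω | ∃ k, inc B T k ω < 0} = ⋃ k, {ω | inc B T k ω < 0} := by ext ω; simp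
    rw [this]
    exact MeasurableSet.iUnion fun k => measurableSet_lt (G.meas_inc k) measurable_const
  exact h1.inter h2

lemma Glob.prob_Gd (hT : 0 < T) : P (Gd B T)ᶜ = 0 := by
  have hsub : (Gd B T)ᶜ ⊆ (⋃ k, {ω | inc B T k ω = 0}) ∪ ⋂ m, Ev B T m := by
    intro ω hω
    by_cases h : ∃ k, inc B T k ω = 0
    · left; simpa using h
    · right
      have h' : ∀ k, inc B T k ω ≠ 0 := by simpa using h
      have h2 : ∀ k, 0 ≤ inc B T k ω := by
        intro k
        by_contra hk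
        exact hω ⟨h', k, not_le.1 hk⟩
      simp only [mem_iInter]
      exact fun m i _ => lt_of_le_of_ne (h2 _) (Ne.symm (h' _))
  refine measure_mono_null hsub (measure_union_null ?_ ?_)
  · exact measure_iUnion_null fun k => G.prob_inc_zero hT k
  · have h1 : ∀ m : ℕ, P (⋂ m, Ev B T m) ≤ (1 / 2) ^ m := fun m => by
      rw [← G.prob_Ev hT m]; exact measure_mono (iInter_subset _ m)
    have h2 : Tendsto (fun m : ℕ => ((1:ℝ≥0∞) / 2) ^ m) atTop (𝓝 0) :=
      ENNReal.tendsto_pow_atTop_nhds_zero_of_lt_one (by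
        rw [one_div]; exact ENNReal.inv_lt_one.2 (by norm_num))
    exact le_antisymm (ge_of_tendsto' h2 h1) (zero_le)

lemma Glob.ae_Gd (hT : 0 < T) : ∀ᵐ ω ∂P, ω ∈ Gd B T := G.prob_Gd hT

lemma Glob.adap_Al (hT : 0 < T) (k : ℕ) : MeasurableSet[𝓕 (tk T k)] (Al B T k) := by
  induction k with
  | zero =>
    have h1 := G.null _ (G.meas_Gd hT).compl (G.prob_Gd hT)
    have h2 : MeasurableSet[𝓕 (tk T 0)] (Gd B T)ᶜ := 𝓕.mono (zero_le) _ h1
    have h3 := h2.compl
    rw [compl_compl] at h3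
    exact h3
  | succ k ih =>
    have h1 : MeasurableSet[𝓕 (tk T (k+1))] (Al B T k) := 𝓕.mono (tk_lt hT k).le _ ih
    have h2 : MeasurableSet[𝓕 (tk T (k+1))] {ω | 0 < inc B T k ω} :=
      measurableSet_lt measurable_const (G.adap_inc hT k)
    exact h1.inter h2

lemma Glob.adap_al (hT : 0 < T) (k : ℕ) : Measurable[𝓕 (tk T k)] (al B T k) :=
  Measurable.indicator measurable_const (G.adap_Al hT k)

/-- the two systems of stages -/
lemma Glob.sys (hT : 0 < T) {y₀ : ℝ} (h1 : 2 ≤ y₀) (h2 : y₀ ≤ 5 / 2) (i : ℕ) (r : Fin 2)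
    (hr : ∀ j, par (2 * j + i) = r) :
    Sys 𝓕 P (B r) (fun j => tk T (2 * j + i)) (fun j => tk T (2 * j + i + 1))
      (fun j => wk (2 * j + i)) (fun j => ys y₀ (2 * j + i)) (fun j => al B T (2 * j + i)) where
  adap := G.adap r
  cont := G.cont r
  bm := G.bm r
  hab j := tk_lt hT _
  hba j := (tk_mono hT).monotone (by omega)
  hw j := wk_pos _
  hy j := ys_pos h1 h2 _
  h01 j ω := al_01 _ ω
  hαm j := G.adap_al hT _
  hfin ω := by
    obtain ⟨m, hm⟩ := Al_fin (B := B) (T := T) ω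
    exact ⟨m, fun j hj => al_eq_zero.2 (hm _ (by omega))⟩
  hne j ω hω := by
    have h3 := (Al_good (al_eq_one.1 hω)).1 (2 * j + i)
    rw [inc, hr] at h3
    exact sub_ne_zero.1 h3

end Pool.Agent.Helper95.BSDE
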