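import Mathlib
import Pool.Agent.Helper95.BSDEAlive

set_option autoImplicit false
set_option linter.unusedSectionVars false

open MeasureTheory ProbabilityTheory Filter Topology Set
open scoped NNReal ENNReal

namespace Pool.Agent.Helper95.BSDE

universe u

variable {Ω : Type u} {mΩ : MeasurableSpace Ω} {P : Measure Ω} [IsProbabilityMeasure P]
  {B : Fin 2 → ℝ≥0 → Ω → ℝ} {𝓕 : Filtration ℝ≥0 mΩ} {T : ℝ≥0}

/-- integrand built from the stages of parity `i`, driven by `B r` -/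
noncomputable def Zb (B : Fin 2 → ℝ≥0 → Ω → ℝ) (T : ℝ≥0) (y₀ : ℝ) (r : Fin 2) (i : ℕ) :
    ℝ≥0 → Ω → ℝ :=
  Zs (B r) (fun j => tk T (2 * j + i)) (fun j => tk T (2 * j + i + 1))
      (fun j => wk (2 * j + i)) (fun j => ys y₀ (2 * j + i)) (fun j => al B T (2 * j + i))

/-- log increments from the stages of parity `i` -/
noncomputable def Lb (B : Fin 2 → ℝ≥0 → Ω → ℝ) (T : ℝ≥0) (y₀ : ℝ) (r : Fin 2) (i : ℕ) :
    ℝ≥0 → Ω → ℝ :=
  Ls (B r) (fun j => tk T (2 * j + i)) (fun j => tk T (2 * j + i + 1))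
      (fun j => wk (2 * j + i)) (fun j => ys y₀ (2 * j + i)) (fun j => al B T (2 * j + i))

/-- martingale part from the stages of parity `i` -/
noncomputable def Mb (B : Fin 2 → ℝ≥0 → Ω → ℝ) (T : ℝ≥0) (y₀ : ℝ) (r : Fin 2) (i : ℕ) :
    ℝ≥0 → Ω → ℝ :=
  Ms (B r) (fun j => tk T (2 * j + i)) (fun j => tk T (2 * j + i + 1))
      (fun j => wk (2 * j + i)) (fun j => ys y₀ (2 * j + i)) (fun j => al B T (2 * j + i))

/-- the first component of the solution -/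
noncomputable def Yp (B : Fin 2 → ℝ≥0 → Ω → ℝ) (T : ℝ≥0) (y₀ : ℝ) (t : ℝ≥0) (ω : Ω) : ℝ :=
  1 / 2 * Real.log (xs y₀ 0) + Lb B T y₀ 0 0 t ω - Lb B T y₀ 1 1 t ω

/-- log increment in stage `k` -/
noncomputable def ell (B : Fin 2 → ℝ≥0 → Ω → ℝ) (T : ℝ≥0) (y₀ : ℝ) (k : ℕ) (t : ℝ≥0) (ω : Ω) : ℝ :=
  stL (wk k) (ys y₀ k) (B (par k)) (tk T k) (tk T (k + 1)) t ω

/-- partial sums -/
noncomputable def Rn (B : Fin 2 → ℝ≥0 → Ω → ℝ) (T : ℝ≥0) (y₀ : ℝ) (n : ℕ) (t : ℝ≥0) (ω : Ω) : ℝ :=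
  1 / 2 * Real.log (xs y₀ 0) + ∑ k ∈ Finset.range n, (-1) ^ k * (al B T k ω * ell B T y₀ k t ω)

lemma sum_even_odd (f : ℕ → ℝ) (m : ℕ) :
    ∑ k ∈ Finset.range (2 * m), (-1) ^ k * f k =
      ∑ j ∈ Finset.range m, f (2 * j) - ∑ j ∈ Finset.range m, f (2 * j + 1) := by
  induction m with
  | zero => simp
  | succ m ih =>
    rw [show 2 * (m + 1) = 2 * m + 1 + 1 by ring, Finset.sum_range_succ, Finset.sum_range_succ, ih,
      Finset.sum_range_succ, Finset.sum_range_succ]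
    have h1 : (-1:ℝ) ^ (2 * m) = 1 := by rw [pow_mul]; norm_num
    have h2 : (-1:ℝ) ^ (2 * m + 1) = -1 := by rw [pow_succ, h1]; norm_num
    rw [h1, h2]; ring

lemma Yp_eq_Rn {y₀ : ℝ} {ω : Ω} {κ : ℕ} (hκ : ∀ j, κ < j → ω ∉ Al B T j) (t : ℝ≥0) :
    Yp B T y₀ t ω = Rn B T y₀ (κ + 1) t ω := by
  have h0 : ∀ j, κ + 1 ≤ j → al B T j ω = 0 := fun j hj => al_eq_zero.2 (hκ j hj)
  have e1 : Lb B T y₀ 0 0 t ω =
      ∑ j ∈ Finset.range (κ + 1), al B T (2 * j) ω * ell B T y₀ (2 * j) t ω := by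
    rw [Lb, Ls, tsum_eq_sum (s := Finset.range (κ + 1))]
    · refine Finset.sum_congr rfl fun j _ => ?_
      simp only [add_zero, ell, par_even]
    · intro j hj
      rw [h0 _ (by have : κ + 1 ≤ j := by simpa using hj
                   omega), zero_mul]
  have e2 : Lb B T y₀ 1 1 t ω =
      ∑ j ∈ Finset.range (κ + 1), al B T (2 * j + 1) ω * ell B T y₀ (2 * j + 1) t ω := by
    rw [Lb, Ls, tsum_eq_sum (s := Finset.range (κ + 1))]
    · refine Finset.sum_congr rfl fun j _ => ?_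
      simp only [ell, par_odd]
    · intro j hj
      rw [h0 _ (by have : κ + 1 ≤ j := by simpa using hj
                   omega), zero_mul]
  rw [Yp, e1, e2, Rn]
  have e3 : ∑ k ∈ Finset.range (κ + 1), (-1) ^ k * (al B T k ω * ell B T y₀ k t ω) =
      ∑ k ∈ Finset.range (2 * (κ + 1)), (-1) ^ k * (al B T k ω * ell B T y₀ k t ω) := by
    refine Finset.sum_subset (Finset.range_mono (by omega)) fun j _ hj => ?_
    rw [h0 j (by simpa using hj)]; ring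
  rw [e3, sum_even_odd (fun k => al B T k ω * ell B T y₀ k t ω)]
  ring

lemma Yp_off {y₀ : ℝ} {ω : Ω} (hω : ω ∉ Gd B T) (t : ℝ≥0) :
    Yp B T y₀ t ω = 1 / 2 * Real.log (xs y₀ 0) := by
  have h0 : ∀ j, al B T j ω = 0 := fun j => al_eq_zero.2 fun h => hω (Al_good h)
  rw [Yp, Lb, Lb, Ls, Ls]
  simp [h0]

lemma exists_kappa {ω : Ω} (hω : ω ∈ Gd B T) :
    ∃ κ, ω ∈ Al B T κ ∧ ∀ j, κ < j → ω ∉ Al B T j := by
  classical
  have hex : ∃ m, ω ∉ Al B T m := by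
    obtain ⟨m, hm⟩ := Al_fin (B := B) (T := T) ω
    exact ⟨m, hm m le_rfl⟩
  set m := Nat.find hex with hmdef
  have hm : ω ∉ Al B T m := Nat.find_spec hex
  have hm0 : m ≠ 0 := by
    intro h; rw [h] at hm; exact hm hω
  refine ⟨m - 1, ?_, fun j hj h => hm (Al_anti (by omega) h)⟩
  have := Nat.find_min hex (m := m - 1) (by omega)
  exact not_not.1 this

lemma ell_le {y₀ : ℝ} (hT : 0 < T) {k : ℕ} {t : ℝ≥0} (h : t ≤ tk T k) (ω : Ω) :
    ell B T y₀ k t ω = 0 := stL_le (tk_lt hT k) h ω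

lemma ell_pos {y₀ : ℝ} (hT : 0 < T) {k : ℕ} {t : ℝ≥0} (h : tk T (k + 1) ≤ t) {ω : Ω}
    (hi : 0 < inc B T k ω) :
    ell B T y₀ k t ω = 1 / 2 * Real.log (ys y₀ k) - 1 / 2 * Real.log (xs y₀ k) := by
  rw [ell, stL, stX_ge (tk_lt hT k).le h, tsub_eq_zero_of_le h, NN, q_zero_var]
  have hi' : 0 ≤ B (par k) (tk T (k + 1)) ω - B (par k) (tk T k) ω := hi.le
  rw [if_pos hi', xs]
  congr 3; ring

lemma ell_neg {y₀ : ℝ} (hT : 0 < T) {k : ℕ} {t : ℝ≥0} (h : tk T (k + 1) ≤ t) {ω : Ω}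
    (hi : inc B T k ω < 0) :
    ell B T y₀ k t ω = 1 / 2 * Real.log (wk k) - 1 / 2 * Real.log (xs y₀ k) := by
  rw [ell, stL, stX_ge (tk_lt hT k).le h, tsub_eq_zero_of_le h, NN, q_zero_var]
  have hi' : ¬ 0 ≤ B (par k) (tk T (k + 1)) ω - B (par k) (tk T k) ω := not_le.2 hi
  rw [if_neg hi', xs]
  congr 3; ring

lemma Rn_succ {y₀ : ℝ} (n : ℕ) (t : ℝ≥0) {ω : Ω} (hω : ω ∈ Al B T n) :
    Rn B T y₀ (n + 1) t ω = Rn B T y₀ n t ω + (-1) ^ n * ell B T y₀ n t ω := by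
  rw [Rn, Rn, Finset.sum_range_succ, al_eq_one.2 hω]; ring

lemma Rn_alive {y₀ : ℝ} (hT : 0 < T) (n : ℕ) {t : ℝ≥0} (ht : tk T n ≤ t) {ω : Ω}
    (hω : ω ∈ Al B T n) :
    Rn B T y₀ n t ω = (-1) ^ n * (1 / 2 * Real.log (xs y₀ n)) := by
  induction n with
  | zero => simp [Rn]
  | succ n ih =>
    have h1 := ih ((tk_lt hT n).le.trans ht) (Al_anti (Nat.le_succ n) hω)
    rw [Rn_succ n t (Al_anti (Nat.le_succ n) hω), h1, ell_pos hT ht (Al_pos (Nat.lt_succ_self n) hω),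
      xs_succ, one_div (ys y₀ n), Real.log_inv, pow_succ]
    ring

lemma Rn_rep {y₀ : ℝ} (hT : 0 < T) (n : ℕ) (t : ℝ≥0) {ω : Ω} (hω : ω ∈ Al B T n) :
    ∃ k, ω ∈ Al B T k ∧ Rn B T y₀ (n + 1) t ω = (-1) ^ k * (1 / 2 * Real.log
      (NN (wk k) (ys y₀ k) (tk T (k + 1) - t) (stX (B (par k)) (tk T k) (tk T (k + 1)) t ω))) := by
  have key : ∀ n, ω ∈ Al B T n → tk T n ≤ t →
      Rn B T y₀ (n + 1) t ω = (-1) ^ n * (1 / 2 * Real.log
      (NN (wk n) (ys y₀ n) (tk T (n + 1) - t) (stX (B (par n)) (tk T n) (tk T (n + 1)) t ω))) := by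
    intro n hn ht
    rw [Rn_succ n t hn, Rn_alive hT n ht hn, ell, stL, xs]
    ring
  induction n with
  | zero =>
    refine ⟨0, hω, key 0 hω ?_⟩
    rw [tk_zero]; exact zero_le
  | succ n ih =>
    rcases le_total (tk T (n + 1)) t with h | h
    · exact ⟨n + 1, hω, key _ hω h⟩
    · obtain ⟨k, hk, hk2⟩ := ih (Al_anti (Nat.le_succ n) hω)
      refine ⟨k, hk, ?_⟩
      rw [Rn_succ (n + 1) t hω, ell_le hT h, mul_zero, add_zero, hk2]

lemma Yp_T {y₀ : ℝ} (hT : 0 < T) {ω : Ω} (hω : ω ∈ Gd B T) {κ : ℕ} (h1 : ω ∈ Al B T κ)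
    (h2 : ∀ j, κ < j → ω ∉ Al B T j) :
    Yp B T y₀ T ω = (-1) ^ κ * (1 / 2 * Real.log (wk κ)) := by
  have hneg : inc B T κ ω < 0 := by
    have h3 := h2 (κ + 1) (Nat.lt_succ_self κ)
    have h4 : ¬ 0 < inc B T κ ω := fun h => h3 ⟨h1, h⟩
    exact lt_of_le_of_ne (not_lt.1 h4) (hω.1 κ)
  rw [Yp_eq_Rn h2, Rn_succ κ T h1, Rn_alive hT κ (tk_le T κ) h1, ell_neg hT (tk_le T _) hneg]
  ring

lemma Yp_bound {y₀ : ℝ} (hy1 : 2 ≤ y₀) (hy2 : y₀ ≤ 5 / 2) (hT : 0 < T) {ω : Ω} (hω : ω ∈ Gd B T)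
    (t : ℝ≥0) :
    ∃ k, ω ∈ Al B T k ∧ |Yp B T y₀ t ω| ≤ 1 / 2 * Real.log (3 / wk k) := by
  obtain ⟨κ, h1, h2⟩ := exists_kappa hω
  obtain ⟨k, hk, hk2⟩ := Rn_rep (y₀ := y₀) hT κ t h1
  refine ⟨k, hk, ?_⟩
  rw [Yp_eq_Rn h2, hk2, abs_mul, abs_pow, abs_neg, abs_one, one_pow, one_mul, abs_mul,
    abs_of_pos (by norm_num : (0:ℝ) < 1 / 2)]
  have hw := wk_pos k
  have hw' := wk_le k
  have hy := ys_bound hy1 hy2 k
  set N := NN (wk k) (ys y₀ k) (tk T (k + 1) - t) (stX (B (par k)) (tk T k) (tk T (k + 1)) t ω)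
  have hN1 : wk k ≤ N := by
    have := min_le_NN (w := wk k) (y := ys y₀ k) (tk T (k + 1) - t)
      (stX (B (par k)) (tk T k) (tk T (k + 1)) t ω)
    rwa [min_eq_left (by linarith [hy.1])] at this
  have hN2 : N ≤ 3 := by
    have := NN_le_max (w := wk k) (y := ys y₀ k) (tk T (k + 1) - t)
      (stX (B (par k)) (tk T k) (tk T (k + 1)) t ω)
    refine this.trans (max_le ?_ hy.2)
    linarith
  have hN0 : 0 < N := hw.trans_le hN1
  gcongr 1 / 2 * ?_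
  rw [Real.log_div (by norm_num) hw.ne', abs_le]
  have h3 : 0 ≤ Real.log 3 := Real.log_nonneg (by norm_num)
  have h4 : Real.log N ≤ Real.log 3 := Real.log_le_log hN0 hN2
  have h5 : Real.log (wk k) ≤ Real.log N := Real.log_le_log hw hN1
  have h6 : Real.log (wk k) ≤ 0 := Real.log_nonpos hw.le (by linarith)
  constructor <;> linarith

end Pool.Agent.Helper95.BSDE
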