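import Mathlib
import Pool.Agent.Helper95.BSDEFinal

set_option autoImplicit false
set_option linter.unusedSectionVars false

open MeasureTheory ProbabilityTheory Filter Topology Set
open scoped NNReal ENNReal

namespace Pool.Agent.Helper95.BSDE

universe u

variable {Ω : Type u} {mΩ : MeasurableSpace Ω} {P : Measure Ω} [IsProbabilityMeasure P]
  {B : Fin 2 → ℝ≥0 → Ω → ℝ} {𝓕 : Filtration ℝ≥0 mΩ} {T : ℝ≥0}

lemma classD_of_le {X : ℝ≥0 → Ω → ℝ} (hX : Measurable (fun z : ℝ≥0 × Ω => X z.1 z.2)) {g : Ω → ℝ}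
    (hg : MemLp g 1 P) (h : ∀ᵐ ω ∂P, ∀ t, |X t ω| ≤ g ω) : ClassD 𝓕 P T X := by
  have hτm : ∀ τ : {τ : Ω → ℝ≥0 // (∀ t, MeasurableSet[𝓕 t] {ω | τ ω ≤ t}) ∧ ∀ ω, τ ω ≤ T},
      Measurable τ.1 := fun τ => measurable_of_Iic fun t => 𝓕.le t _ (τ.2.1 t)
  have hle : ∀ (τ : {τ : Ω → ℝ≥0 // (∀ t, MeasurableSet[𝓕 t] {ω | τ ω ≤ t}) ∧ ∀ ω, τ ω ≤ T})
      (s : Set Ω), eLpNorm (s.indicator fun ω => X (τ.1 ω) ω) 1 P ≤ eLpNorm (s.indicator g) 1 P := by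
    intro τ s
    refine eLpNorm_mono_ae ?_
    filter_upwards [h] with ω hω
    by_cases hs : ω ∈ s
    · rw [indicator_of_mem hs, indicator_of_mem hs, Real.norm_eq_abs, Real.norm_eq_abs]
      exact (hω _).trans (le_abs_self _)
    · rw [indicator_of_notMem hs, indicator_of_notMem hs]
  refine ⟨fun τ => ?_, ?_, ?_⟩
  · exact (hX.comp (f := fun ω => (τ.1 ω, ω)) ((hτm τ).prodMk measurable_id)).aestronglyMeasurable
  · intro ε hε
    obtain ⟨δ, hδ, hδ2⟩ := hg.eLpNorm_indicator_le le_rfl (by norm_num) hε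
    exact ⟨δ, hδ, fun τ s hs hμ => (hle τ s).trans (hδ2 s hs hμ)⟩
  · refine ⟨(eLpNorm g 1 P).toNNReal, fun τ => ?_⟩
    rw [ENNReal.coe_toNNReal hg.eLpNorm_lt_top.ne]
    have := hle τ univ
    simpa using this

/-- coefficients of the dominating variable -/
noncomputable def ck (μ : ℝ) (k : ℕ) : ℝ := Real.exp (μ * (1 / 2 * Real.log (3 / wk k)))

/-- the dominating variable -/
noncomputable def gE (B : Fin 2 → ℝ≥0 → Ω → ℝ) (T : ℝ≥0) (μ : ℝ) (ω : Ω) : ℝ≥0∞ :=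
  ∑' k, (Al B T k).indicator (fun _ => ENNReal.ofReal (ck μ k)) ω

lemma ck_le {μ : ℝ} (hμ : 0 < μ) {m : ℕ} (hm : μ ≤ m) (k : ℕ) :
    ck μ k ≤ 300 ^ m * ((k:ℝ) + 2) ^ (2 * m) := by
  have hk : (0:ℝ) ≤ k := Nat.cast_nonneg k
  have h1 : 3 / wk k = 300 * (((k:ℝ) + 1) * ((k:ℝ) + 2)) := by
    rw [wk]; field_simp; norm_num
  have h2 : (1:ℝ) ≤ 300 * (((k:ℝ) + 1) * ((k:ℝ) + 2)) := by nlinarith
  have h3 : 0 ≤ Real.log (3 / wk k) := by rw [h1]; exact Real.log_nonneg h2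
  have h4 : μ * (1 / 2 * Real.log (3 / wk k)) ≤ m * Real.log (3 / wk k) := by
    have : μ * (1 / 2 * Real.log (3 / wk k)) = μ * Real.log (3 / wk k) / 2 := by ring
    rw [this]
    have h5 : 0 ≤ μ * Real.log (3 / wk k) := by positivity
    have h6 : μ * Real.log (3 / wk k) ≤ m * Real.log (3 / wk k) := by gcongr
    linarith
  calc ck μ k ≤ Real.exp (m * Real.log (3 / wk k)) := Real.exp_le_exp.2 h4
    _ = (3 / wk k) ^ m := by
        rw [Real.exp_nat_mul, Real.exp_log]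
        rw [h1]; positivity
    _ = (300 * (((k:ℝ) + 1) * ((k:ℝ) + 2))) ^ m := by rw [h1]
    _ ≤ (300 * (((k:ℝ) + 2) * ((k:ℝ) + 2))) ^ m := by gcongr; linarith
    _ = _ := by rw [mul_pow, ← pow_two, ← pow_mul]

lemma summable_aux (m : ℕ) :
    Summable (fun k : ℕ => (300:ℝ) ^ m * ((k:ℝ) + 2) ^ (2 * m) * (√(1 / 2)) ^ k) := by
  have hr : √((1:ℝ) / 2) < 1 := by
    rw [Real.sqrt_lt' one_pos]; norm_num
  have hr0 : 0 < √((1:ℝ) / 2) := by positivity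
  have h1 : Summable (fun n : ℕ => ((n:ℝ) ^ (2 * m) * (√(1 / 2)) ^ n : ℝ)) :=
    summable_pow_mul_geometric_of_norm_lt_one (R := ℝ) (2 * m) (by
      rw [Real.norm_eq_abs, abs_of_pos hr0]; exact hr)
  have h2 := (summable_nat_add_iff 2).2 h1
  have h3 := h2.mul_left ((300:ℝ) ^ m * (√(1 / 2)) ^ (-2:ℤ))
  refine h3.congr fun k => ?_
  push_cast
  rw [pow_add (√((1:ℝ) / 2)) k 2]
  have : √((1:ℝ) / 2) ^ (-2:ℤ) * √(1 / 2) ^ 2 = 1 := by
    rw [zpow_neg, zpow_ofNat]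
    exact inv_mul_cancel₀ (by positivity)
  calc (300:ℝ) ^ m * √(1 / 2) ^ (-2:ℤ) * (((k:ℝ) + 2) ^ (2 * m) * (√(1 / 2) ^ k * √(1 / 2) ^ 2))
      = 300 ^ m * (((k:ℝ) + 2) ^ (2 * m) * √(1 / 2) ^ k) * (√((1:ℝ) / 2) ^ (-2:ℤ) * √(1 / 2) ^ 2) := by
        ring
    _ = _ := by rw [this]; ring

lemma half_pow_le (k : ℕ) : ((1:ℝ) / 2) ^ ((k + 1) / 2) ≤ (√(1 / 2)) ^ k := by
  have h1 : ((1:ℝ) / 2) = (√(1 / 2)) ^ 2 := (Real.sq_sqrt (by norm_num)).symm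
  calc ((1:ℝ) / 2) ^ ((k + 1) / 2) = (√(1 / 2)) ^ (2 * ((k + 1) / 2)) := by
        rw [pow_mul, ← h1]
    _ ≤ (√(1 / 2)) ^ k := by
        refine pow_le_pow_of_le_one (by positivity) ?_ (by omega)
        rw [Real.sqrt_le_one]; norm_num

lemma meas_gE (G : Glob 𝓕 P B) (hT : 0 < T) (μ : ℝ) : Measurable (gE B T μ) := by
  refine Measurable.tsum fun k => ?_
  exact Measurable.indicator measurable_const (𝓕.le _ _ (G.adap_Al hT k))

lemma lint_gE (G : Glob 𝓕 P B) (hT : 0 < T) {μ : ℝ} (hμ : 0 < μ) :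
    ∫⁻ ω, gE B T μ ω ∂P ≠ ∞ := by
  obtain ⟨m, hm⟩ := exists_nat_ge μ
  have hAm : ∀ k, MeasurableSet (Al B T k) := fun k => 𝓕.le _ _ (G.adap_Al hT k)
  unfold gE
  rw [lintegral_tsum fun k => (Measurable.indicator measurable_const (hAm k)).aemeasurable]
  have h1 : ∀ k, ∫⁻ ω, (Al B T k).indicator (fun _ => ENNReal.ofReal (ck μ k)) ω ∂P ≤
      ENNReal.ofReal ((300:ℝ) ^ m * ((k:ℝ) + 2) ^ (2 * m) * (√(1 / 2)) ^ k) := by
    intro k
    rw [lintegral_indicator (hAm k), setLIntegral_const]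
    have h2 : P (Al B T k) ≤ ENNReal.ofReal ((√(1 / 2)) ^ k) := by
      refine (G.prob_Al hT k).trans ?_
      have h3 := ENNReal.ofReal_le_ofReal (half_pow_le k)
      rw [ENNReal.ofReal_pow (by norm_num)] at h3
      have h4 : ENNReal.ofReal (1 / 2) = 1 / 2 := by
        rw [ENNReal.ofReal_div_of_pos (by norm_num)]; simp
      rwa [h4] at h3
    calc ENNReal.ofReal (ck μ k) * P (Al B T k)
        ≤ ENNReal.ofReal (300 ^ m * ((k:ℝ) + 2) ^ (2 * m)) * ENNReal.ofReal ((√(1 / 2)) ^ k) := by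
          gcongr
          exact ck_le hμ hm k
      _ = _ := by rw [← ENNReal.ofReal_mul (by positivity)]
  refine ne_top_of_le_ne_top ?_ (ENNReal.tsum_le_tsum h1)
  rw [← ENNReal.ofReal_tsum_of_nonneg (fun k => by positivity) (summable_aux m)]
  exact ENNReal.ofReal_ne_top

/-- real dominating variable -/
noncomputable def gR (B : Fin 2 → ℝ≥0 → Ω → ℝ) (T : ℝ≥0) (μ : ℝ) (ω : Ω) : ℝ :=
  (gE B T μ ω).toReal

lemma memLp_gR (G : Glob 𝓕 P B) (hT : 0 < T) {μ : ℝ} (hμ : 0 < μ) : MemLp (gR B T μ) 1 P := by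
  rw [memLp_one_iff_integrable]
  exact integrable_toReal_of_lintegral_ne_top (meas_gE G hT μ).aemeasurable (lint_gE G hT hμ)

lemma exp_le_gR (G : Glob 𝓕 P B) (hT : 0 < T) {μ : ℝ} (hμ : 0 < μ) {y₀ : ℝ} (hy1 : 2 ≤ y₀)
    (hy2 : y₀ ≤ 5 / 2) : ∀ᵐ ω ∂P, ∀ t, |Real.exp (μ * |Yp B T y₀ t ω|)| ≤ gR B T μ ω := by
  filter_upwards [G.ae_Gd hT, ae_lt_top (meas_gE G hT μ) (lint_gE G hT hμ)] with ω h1 h2 t
  obtain ⟨k, hk, hk2⟩ := Yp_bound hy1 hy2 hT h1 t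
  rw [abs_of_pos (Real.exp_pos _)]
  have h3 : Real.exp (μ * |Yp B T y₀ t ω|) ≤ ck μ k := by
    rw [ck]; gcongr
  refine h3.trans ?_
  rw [gR, ← ENNReal.ofReal_le_iff_le_toReal h2.ne]
  refine le_trans ?_ (ENNReal.le_tsum k)
  rw [indicator_of_mem hk]

lemma IsItoIntegral.neg {W : ℝ≥0 → Ω → ℝ} {H M : ℝ≥0 → Ω → ℝ}
    (h : IsItoIntegral 𝓕 P W T H M) :
    IsItoIntegral 𝓕 P W T (fun t ω => - H t ω) (fun t ω => - M t ω) := by
  obtain ⟨S, hS1, hS2, hS3⟩ := h.approx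
  refine ⟨fun t => (h.progH t).neg, ?_, fun t => (h.progM t).neg, ?_,
    fun n => scl (fun _ => -1) (S n), ?_, ?_, ?_⟩
  · simpa only [neg_sq] using h.sq_int
  · filter_upwards [h.cont] with ω hω
    exact hω.neg
  · intro n e he
    change e ∈ scl (fun _ => -1) (S n) at he
    rw [scl, List.mem_map] at he
    obtain ⟨e', he', rfl⟩ := he
    obtain ⟨h2, h3, C, hC⟩ := hS1 n e' he'
    refine ⟨h2, measurable_const.mul h3, C, fun ω => ?_⟩
    simpa using hC ω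
  · refine hS2.congr_left fun n => ae_of_all _ fun ω => ?_
    refine intervalIntegral.integral_congr fun s _ => ?_
    simp only [sval_scl]
    ring
  · intro t ht
    have h1 := hS3 t ht
    rw [tendstoInMeasure_iff_enorm] at h1 ⊢
    intro ε hε hε'
    refine (h1 ε hε hε').congr fun n => ?_
    congr 1
    ext ω
    simp only [mem_ofPred_eq, sint_scl]
    rw [← enorm_neg (sint W (S n) t ω - M t ω)]
    have : -(sint W (S n) t ω - M t ω) = -1 * sint W (S n) t ω - -M t ω := by ring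
    rw [this]

/-- the second component of the solution -/
noncomputable def Zp (B : Fin 2 → ℝ≥0 → Ω → ℝ) (T : ℝ≥0) (y₀ : ℝ) (i : Fin 2) (t : ℝ≥0) (ω : Ω) :
    ℝ := if i = 0 then Zb B T y₀ 0 0 t ω else - Zb B T y₀ 1 1 t ω

theorem solution (G : Glob 𝓕 P B) (hT : 0 < T) {y₀ : ℝ} (hy1 : 2 ≤ y₀) (hy2 : y₀ ≤ 5 / 2)
    {ξ : Ω → ℝ} (hξ : ∀ᵐ ω ∂P, Yp B T y₀ T ω = ξ ω) :
    IsSolution 𝓕 P B T ξ (Yp B T y₀) (Zp B T y₀) := by
  have S0 := G.sys hT hy1 hy2 0 0 (fun j => par_even j)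
  have S1 := G.sys hT hy1 hy2 1 1 (fun j => par_odd j)
  have hprogZ : ∀ i, IsProgressive 𝓕 (Zp B T y₀ i) := by
    intro i t
    fin_cases i
    · exact S0.prog_Zs t
    · exact (S1.prog_Zs t).neg
  have hii : ∀ i ω (x z : ℝ),
      IntervalIntegrable (fun s : ℝ => Zp B T y₀ i s.toNNReal ω ^ 2) volume x z := by
    intro i ω x z
    fin_cases i
    · exact S0.Zs_ii ω x z
    · have := S1.Zs_ii ω x z
      simp only [Zp, Fin.mk_one, one_ne_zero, if_false, neg_sq]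
      exact this
  refine ⟨?_, ?_, hprogZ, fun i => ae_of_all _ fun ω => hii i ω _ _, ?_⟩
  · intro t
    exact (measurable_const.add (S0.prog_Ls t)).sub (S1.prog_Ls t)
  · exact ae_of_all _ fun ω =>
      ((continuous_const.add (S0.cont_Ls ω)).sub (S1.cont_Ls ω)).continuousOn
  · refine ⟨fun i t ω => if i = 0 then Mb B T y₀ 0 0 t ω else - Mb B T y₀ 1 1 t ω, ?_, ?_⟩
    · intro i
      fin_cases i
      · exact S0.isIto T
      · exact (S1.isIto T).neg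
    · filter_upwards [hξ] with ω hω t ht
      have hM0 : ∀ t, Mb B T y₀ 0 0 t ω =
          Lb B T y₀ 0 0 t ω + ∫ s in (0:ℝ)..t, Zb B T y₀ 0 0 s.toNNReal ω ^ 2 := fun t => rfl
      have hM1 : ∀ t, Mb B T y₀ 1 1 t ω =
          Lb B T y₀ 1 1 t ω + ∫ s in (0:ℝ)..t, Zb B T y₀ 1 1 s.toNNReal ω ^ 2 := fun t => rfl
      have hi0 : ∀ x z : ℝ,
          IntervalIntegrable (fun s : ℝ => Zb B T y₀ 0 0 s.toNNReal ω ^ 2) volume x z :=
        fun x z => S0.Zs_ii ω x z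
      have hi1 : ∀ x z : ℝ,
          IntervalIntegrable (fun s : ℝ => Zb B T y₀ 1 1 s.toNNReal ω ^ 2) volume x z :=
        fun x z => S1.Zs_ii ω x z
      have e0 : (∫ s in (0:ℝ)..T, Zb B T y₀ 0 0 s.toNNReal ω ^ 2) =
          (∫ s in (0:ℝ)..t, Zb B T y₀ 0 0 s.toNNReal ω ^ 2) +
          ∫ s in (t:ℝ)..T, Zb B T y₀ 0 0 s.toNNReal ω ^ 2 :=
        (intervalIntegral.integral_add_adjacent_intervals (hi0 _ _) (hi0 _ _)).symm
      have e1 : (∫ s in (0:ℝ)..T, Zb B T y₀ 1 1 s.toNNReal ω ^ 2) =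
          (∫ s in (0:ℝ)..t, Zb B T y₀ 1 1 s.toNNReal ω ^ 2) +
          ∫ s in (t:ℝ)..T, Zb B T y₀ 1 1 s.toNNReal ω ^ 2 :=
        (intervalIntegral.integral_add_adjacent_intervals (hi1 _ _) (hi1 _ _)).symm
      have e2 : (∫ s in (t:ℝ)..T, (Zp B T y₀ 0 s.toNNReal ω ^ 2 - Zp B T y₀ 1 s.toNNReal ω ^ 2)) =
          (∫ s in (t:ℝ)..T, Zb B T y₀ 0 0 s.toNNReal ω ^ 2) -
          ∫ s in (t:ℝ)..T, Zb B T y₀ 1 1 s.toNNReal ω ^ 2 := by
        rw [← intervalIntegral.integral_sub (hi0 _ _) (hi1 _ _)]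
        refine intervalIntegral.integral_congr fun s _ => ?_
        simp only [Zp, if_true, one_ne_zero, if_false, neg_sq]
      rw [e2]
      have hYt : Yp B T y₀ t ω = 1 / 2 * Real.log (xs y₀ 0) + Lb B T y₀ 0 0 t ω
        - Lb B T y₀ 1 1 t ω := rfl
      have hYT : Yp B T y₀ T ω = 1 / 2 * Real.log (xs y₀ 0) + Lb B T y₀ 0 0 T ω
        - Lb B T y₀ 1 1 T ω := rfl
      simp only [if_true, one_ne_zero, if_false]
      rw [← hω, hM0, hM0, hM1, hM1, e0, e1, hYt, hYT]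
      ring

lemma Yp_zero (hT : 0 < T) {y₀ : ℝ} (ω : Ω) :
    Yp B T y₀ 0 ω = 1 / 2 * Real.log (xs y₀ 0) := by
  have h1 : ∀ r i, Lb B T y₀ r i 0 ω = 0 := by
    intro r i
    rw [Lb, Ls]
    have : ∀ j, al B T (2 * j + i) ω * stL (wk (2 * j + i)) (ys y₀ (2 * j + i)) (B r)
        (tk T (2 * j + i)) (tk T (2 * j + i + 1)) 0 ω = 0 := by
      intro j
      rw [stL_le (tk_lt hT _) (zero_le), mul_zero]
    simp [this]
  rw [Yp, h1, h1]; ring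

end Pool.Agent.Helper95.BSDE
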