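import Mathlib
import Pool.Agent.Helper95.BSDEDom

set_option autoImplicit false
set_option linter.unusedSectionVars false

open MeasureTheory ProbabilityTheory Filter Topology Set
open scoped NNReal ENNReal

namespace Pool.Agent.Helper95.BSDE

universe u

variable {Ω : Type u} {mΩ : MeasurableSpace Ω} {P : Measure Ω} [IsProbabilityMeasure P]
  {B : Fin 2 → ℝ≥0 → Ω → ℝ}

lemma aug_null (hBm : ∀ i t, Measurable (B i t)) {A : Set Ω} (hA : MeasurableSet A) (hA0 : P A = 0)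
    (t : ℝ≥0) : MeasurableSet[augFiltration B P hBm t] A := by
  have h1 : MeasurableSet[MeasurableSpace.generateFrom {A | MeasurableSet[mΩ] A ∧ P A = 0}] A :=
    MeasurableSpace.measurableSet_generateFrom ⟨hA, hA0⟩
  exact (le_sup_right : _ ≤ (⨆ (i : Fin 2) (s : ℝ≥0) (_ : s ≤ t),
    MeasurableSpace.comap (B i s) inferInstance) ⊔
    MeasurableSpace.generateFrom {A | MeasurableSet[mΩ] A ∧ P A = 0}) _ h1

lemma aug_adap (hBm : ∀ i t, Measurable (B i t)) (i : Fin 2) (t : ℝ≥0) :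
    Measurable[augFiltration B P hBm t] (B i t) := by
  have h1 : MeasurableSpace.comap (B i t) inferInstance ≤ augFiltration B P hBm t := by
    refine le_trans ?_ (le_sup_left : _ ≤ (⨆ (i : Fin 2) (s : ℝ≥0) (_ : s ≤ t),
      MeasurableSpace.comap (B i s) inferInstance) ⊔
      MeasurableSpace.generateFrom {A | MeasurableSet[mΩ] A ∧ P A = 0})
    exact le_iSup_of_le i (le_iSup_of_le t (le_iSup_of_le le_rfl le_rfl))
  exact (comap_measurable (B i t)).mono h1 le_rfl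

/-- modification with all paths continuous -/
noncomputable def Bmod (B : Fin 2 → ℝ≥0 → Ω → ℝ) (N : Set Ω) (i : Fin 2) (t : ℝ≥0) : Ω → ℝ :=
  Nᶜ.indicator (B i t)

lemma exists_null (hB : IsBM2 B P) :
    ∃ N : Set Ω, MeasurableSet N ∧ P N = 0 ∧ ∀ ω ∉ N, ∀ i, Continuous fun t => B i t ω := by
  have h1 : ∀ᵐ ω ∂P, ∀ i, Continuous fun t => B i t ω := ae_all_iff.2 fun i => (hB.bm i).cont
  refine ⟨toMeasurable P {ω | ¬ ∀ i, Continuous fun t => B i t ω}, measurableSet_toMeasurable _ _,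
    ?_, ?_⟩
  · rw [measure_toMeasurable]; exact h1
  · intro ω hω
    by_contra h
    exact hω (subset_toMeasurable _ _ h)

lemma Bmod_off {N : Set Ω} {ω : Ω} (hω : ω ∉ N) (i : Fin 2) (t : ℝ≥0) : Bmod B N i t ω = B i t ω :=
  indicator_of_mem (show ω ∈ Nᶜ from hω) _

lemma glob_mod (hB : IsBM2 B P) {N : Set Ω} (hN : MeasurableSet N) (hN0 : P N = 0)
    (hNc : ∀ ω ∉ N, ∀ i, Continuous fun t => B i t ω) :
    Glob (augFiltration B P hB.meas) P (Bmod B N) where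
  adap i t := (aug_adap hB.meas i t).indicator (aug_null hB.meas hN hN0 t).compl
  cont i ω := by
    by_cases h : ω ∈ N
    · have : (fun t => Bmod B N i t ω) = fun _ => 0 := by
        ext t
        exact indicator_of_notMem (by simpa using h) _
      rw [this]; exact continuous_const
    · have : (fun t => Bmod B N i t ω) = fun t => B i t ω := by
        ext t; exact Bmod_off h i t
      rw [this]; exact hNc ω h i
  bm i := by
    refine (hB.bm i).toIsPreBrownianReal.congr fun t => ?_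
    have : ∀ᵐ ω ∂P, ω ∉ N := measure_eq_zero_iff_ae_notMem.1 hN0
    filter_upwards [this] with ω hω
    exact (Bmod_off hω i t).symm
  null A hA hA0 := aug_null hB.meas hA hA0 0

lemma sint_congr {W W' : ℝ≥0 → Ω → ℝ} {ω : Ω} (h : ∀ t, W t ω = W' t ω) (l : List (Elem Ω))
    (t : ℝ≥0) : sint W l t ω = sint W' l t ω := by
  rw [sint, sint]
  congr 1
  refine List.map_congr_left fun e _ => ?_
  simp only [Elem.int, h]

lemma IsItoIntegral.congrW {𝓕 : Filtration ℝ≥0 mΩ} {T : ℝ≥0} {W W' : ℝ≥0 → Ω → ℝ}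
    {H M : ℝ≥0 → Ω → ℝ} (hI : IsItoIntegral 𝓕 P W T H M) (h : ∀ᵐ ω ∂P, ∀ t, W t ω = W' t ω) :
    IsItoIntegral 𝓕 P W' T H M := by
  obtain ⟨S, hS1, hS2, hS3⟩ := hI.approx
  refine ⟨hI.progH, hI.sq_int, hI.progM, hI.cont, S, hS1, hS2, fun t ht => ?_⟩
  refine (hS3 t ht).congr_left fun n => ?_
  filter_upwards [h] with ω hω
  exact sint_congr hω _ _

lemma IsSolution.congrB {𝓕 : Filtration ℝ≥0 mΩ} {T : ℝ≥0} {B B' : Fin 2 → ℝ≥0 → Ω → ℝ} {ξ : Ω → ℝ}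
    {Y : ℝ≥0 → Ω → ℝ} {Z : Fin 2 → ℝ≥0 → Ω → ℝ} (hS : IsSolution 𝓕 P B T ξ Y Z)
    (h : ∀ i, ∀ᵐ ω ∂P, ∀ t, B i t ω = B' i t ω) : IsSolution 𝓕 P B' T ξ Y Z := by
  obtain ⟨M, hM1, hM2⟩ := hS.eqn
  exact ⟨hS.progY, hS.contY, hS.progZ, hS.sqZ, M, fun i => (hM1 i).congrW (h i), hM2⟩

/-- main theorem -/
theorem main (hB : IsBM2 B P) {T : ℝ≥0} (hT : 0 < T) :
    ∃ (ξ : Ω → ℝ) (Y Y' : ℝ≥0 → Ω → ℝ) (Z Z' : Fin 2 → ℝ≥0 → Ω → ℝ),
      Measurable[augFiltration B P hB.meas T] ξ ∧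
      (∀ μ : ℝ, 0 < μ → Integrable (fun ω => Real.exp (μ * |ξ ω|)) P) ∧
      IsSolution (augFiltration B P hB.meas) P B T ξ Y Z ∧
      IsSolution (augFiltration B P hB.meas) P B T ξ Y' Z' ∧
      (∀ μ : ℝ, 0 < μ →
        ClassD (augFiltration B P hB.meas) P T (fun t ω => Real.exp (μ * |Y t ω|))) ∧
      (∀ μ : ℝ, 0 < μ →
        ClassD (augFiltration B P hB.meas) P T (fun t ω => Real.exp (μ * |Y' t ω|))) ∧
      ∃ r r' : ℝ, r ≠ r' ∧ (∀ ω, Y 0 ω = r) ∧ (∀ ω, Y' 0 ω = r') := by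
  obtain ⟨N, hN, hN0, hNc⟩ := exists_null hB
  set 𝓕 := augFiltration B P hB.meas with h𝓕
  set C := Bmod B N with hC
  have G : Glob 𝓕 P C := glob_mod hB hN hN0 hNc
  have hNae : ∀ᵐ ω ∂P, ω ∉ N := measure_eq_zero_iff_ae_notMem.1 hN0
  have hCB : ∀ i, ∀ᵐ ω ∂P, ∀ t, C i t ω = B i t ω := by
    intro i
    filter_upwards [hNae] with ω hω t
    exact Bmod_off hω i t
  have hy1 : (2:ℝ) ≤ 2 := le_rfl
  have hy2 : (2:ℝ) ≤ 5 / 2 := by norm_num
  have hy3 : (5 / 2:ℝ) ≤ 5 / 2 := le_rfl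
  have hprog : ∀ y₀ : ℝ, 2 ≤ y₀ → y₀ ≤ 5 / 2 → IsProgressive 𝓕 (Yp C T y₀) := fun y₀ h1 h2 =>
    (solution G hT h1 h2 (ξ := Yp C T y₀ T) (ae_of_all _ fun _ => rfl)).progY
  have hjm : ∀ y₀ : ℝ, 2 ≤ y₀ → y₀ ≤ 5 / 2 → ∀ μ : ℝ,
      Measurable (fun z : ℝ≥0 × Ω => Real.exp (μ * |Yp C T y₀ z.1 z.2|)) := by
    intro y₀ h1 h2 μ
    exact Real.measurable_exp.comp (measurable_const.mul
      (measurable_norm.comp (prog_jm (hprog y₀ h1 h2))))
  have hT2 : ∀ᵐ ω ∂P, Yp C T (5 / 2) T ω = Yp C T 2 T ω := by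
    filter_upwards [G.ae_Gd hT] with ω hω
    obtain ⟨κ, h1, h2⟩ := exists_kappa hω
    rw [Yp_T hT hω h1 h2, Yp_T hT hω h1 h2]
  refine ⟨Yp C T 2 T, Yp C T 2, Yp C T (5 / 2), Zp C T 2, Zp C T (5 / 2), ?_, ?_, ?_, ?_, ?_, ?_,
    ?_⟩
  · exact (hprog 2 hy1 hy2).adapted T
  · intro μ hμ
    have hg := memLp_one_iff_integrable.1 (memLp_gR G hT hμ)
    refine hg.mono' ((hjm 2 hy1 hy2 μ).comp (f := fun ω => (T, ω)) (by fun_prop)).aestronglyMeasurable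
      ?_
    filter_upwards [exp_le_gR G hT hμ hy1 hy2] with ω hω
    exact hω T
  · exact (solution G hT hy1 hy2 (ae_of_all _ fun _ => rfl)).congrB hCB
  · exact (solution G hT hy2 hy3 hT2).congrB hCB
  · intro μ hμ
    exact classD_of_le (hjm 2 hy1 hy2 μ) (memLp_gR G hT hμ) (exp_le_gR G hT hμ hy1 hy2)
  · intro μ hμ
    exact classD_of_le (hjm (5 / 2) hy2 hy3 μ) (memLp_gR G hT hμ) (exp_le_gR G hT hμ hy2 hy3)
  · refine ⟨1 / 2 * Real.log (xs 2 0), 1 / 2 * Real.log (xs (5 / 2) 0), ?_, Yp_zero hT, Yp_zero hT⟩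
    have hw := wk_pos 0
    have h1 : xs 2 0 < xs (5 / 2) 0 := by
      simp only [xs, ys]; linarith
    have h0 : 0 < xs 2 0 := by simp only [xs, ys]; linarith
    have := Real.log_lt_log h0 h1
    linarith

end Pool.Agent.Helper95.BSDE
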