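import Mathlib

set_option autoImplicit false

open Filter Topology Matrix

namespace Pool.Agent.Helper95.Cutoff

section Defs

variable {V : Type} [Fintype V] [DecidableEq V]

/-- Total variation distance between two functions (probability vectors) on a finite set. -/
noncomputable def tvDist (μ ν : V → ℝ) : ℝ := (1 / 2) * ∑ x, |μ x - ν x|

/-- `d(t) = max_x ‖P^t(x,·) - π‖_TV`. -/
noncomputable def dTV (P : Matrix V V ℝ) (π : V → ℝ) (t : ℕ) : ℝ :=
  ⨆ x : V, tvDist (fun y => (P ^ t) x y) π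

/-- `T_mix(ε) = min {t ≥ 0 : d(t) ≤ ε}`. -/
noncomputable def tMix (P : Matrix V V ℝ) (π : V → ℝ) (ε : ℝ) : ℕ :=
  sInf {t : ℕ | dTV P π t ≤ ε}

/-- The second largest eigenvalue of `P`: the largest (real) eigenvalue of `P` other than the
trivial eigenvalue `1` (which is simple when `P` is irreducible). -/
noncomputable def lambda2 (P : Matrix V V ℝ) : ℝ :=
  sSup {μ : ℝ | μ ≠ 1 ∧ ∃ f : V → ℝ, f ≠ 0 ∧ P *ᵥ f = μ • f}

/-- The relaxation time `T_rel = 1 / (1 - λ₂)`. -/
noncomputable def tRel (P : Matrix V V ℝ) : ℝ := 1 / (1 - lambda2 P)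

end Defs

/-- Transition matrix of the lazy simple random walk on `Cay(G,S)`: stay put with probability
`1/2`, otherwise move from `x` to `x + s` with `s` uniform in `S`. -/
noncomputable def lazyWalk {G : Type} [AddCommGroup G] [DecidableEq G] (S : Finset G) :
    Matrix G G ℝ :=
  fun x y => (1 / 2) * (if y = x then 1 else 0) +
    (1 / 2) * (if y - x ∈ S then 1 / (S.card : ℝ) else 0)

/-- The uniform distribution. -/
noncomputable def unif (G : Type) [Fintype G] : G → ℝ := fun _ => 1 / (Fintype.card G : ℝ)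

/-- Product condition: `T_mix(1/4) / T_rel → ∞`. -/
def ProductCondition {V : ℕ → Type} [∀ n, Fintype (V n)] [∀ n, DecidableEq (V n)]
    (P : ∀ n, Matrix (V n) (V n) ℝ) (π : ∀ n, V n → ℝ) : Prop :=
  Tendsto (fun n => (tMix (P n) (π n) (1 / 4) : ℝ) / tRel (P n)) atTop atTop

/-- Cutoff in total variation: `T_mix(ε) / T_mix(1 - ε) → 1` for every fixed `0 < ε < 1/2`. -/
def HasCutoff {V : ℕ → Type} [∀ n, Fintype (V n)] [∀ n, DecidableEq (V n)]
    (P : ∀ n, Matrix (V n) (V n) ℝ) (π : ∀ n, V n → ℝ) : Prop :=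
  ∀ ε : ℝ, 0 < ε → ε < 1 / 2 →
    Tendsto (fun n => (tMix (P n) (π n) ε : ℝ) / (tMix (P n) (π n) (1 - ε) : ℝ)) atTop (𝓝 1)

end Pool.Agent.Helper95.Cutoff
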