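import Mathlib
import Pool.Agent.Helper95.CutoffDefs

set_option autoImplicit false
set_option linter.unusedSectionVars false

open Filter Topology Matrix

namespace Pool.Agent.Helper95.Cutoff

section General

variable {V : Type} [Fintype V] [DecidableEq V]

lemma nonneg_pow {M : Matrix V V ℝ} (h : ∀ x y, 0 ≤ M x y) (t : ℕ) : ∀ x y, 0 ≤ (M ^ t) x y := by
  induction t with
  | zero => intro x y; simp only [pow_zero, Matrix.one_apply]; split_ifs <;> norm_num
  | succ t ih =>
    intro x y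
    rw [pow_succ, Matrix.mul_apply]
    exact Finset.sum_nonneg fun z _ => mul_nonneg (ih x z) (h z y)

lemma rowSum_pow {M : Matrix V V ℝ} {ρ : ℝ} (h : ∀ x, ∑ y, M x y = ρ) (t : ℕ) :
    ∀ x, ∑ y, (M ^ t) x y = ρ ^ t := by
  induction t with
  | zero => intro x; simp [Matrix.one_apply]
  | succ t ih =>
    intro x
    simp_rw [pow_succ, Matrix.mul_apply]
    rw [Finset.sum_comm]
    simp_rw [← Finset.mul_sum, h, ← Finset.sum_mul, ih]

omit [DecidableEq V] in
/-- `L¹` bound for rows of a product. -/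
lemma rowAbs_mul_le {M N : Matrix V V ℝ} {a b : ℝ} (hM : ∀ x, ∑ y, |M x y| ≤ a)
    (hN : ∀ x, ∑ y, |N x y| ≤ b) (hb : 0 ≤ b) : ∀ x, ∑ y, |(M * N) x y| ≤ a * b := by
  intro x
  calc ∑ y, |(M * N) x y| ≤ ∑ y, ∑ z, |M x z| * |N z y| := by
        refine Finset.sum_le_sum fun y _ => ?_
        rw [Matrix.mul_apply]
        refine (Finset.abs_sum_le_sum_abs _ _).trans (le_of_eq ?_)
        simp [abs_mul]
    _ = ∑ z, |M x z| * ∑ y, |N z y| := by
        rw [Finset.sum_comm]
        simp_rw [Finset.mul_sum]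
    _ ≤ ∑ z, |M x z| * b := Finset.sum_le_sum fun z _ =>
        mul_le_mul_of_nonneg_left (hN z) (abs_nonneg _)
    _ = (∑ z, |M x z|) * b := by rw [Finset.sum_mul]
    _ ≤ a * b := mul_le_mul_of_nonneg_right (hM x) hb

/-- TV lower bound through an event. -/
lemma tvDist_ge (μ ν : V → ℝ) (h : ∑ x, μ x = ∑ x, ν x) (A : Finset V) :
    ∑ x ∈ A, μ x - ∑ x ∈ A, ν x ≤ tvDist μ ν := by
  classical
  have h1 : ∑ x ∈ A, (μ x - ν x) = - ∑ x ∈ Aᶜ, (μ x - ν x) := by
    have := Finset.sum_add_sum_compl A (fun x => μ x - ν x)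
    rw [Finset.sum_sub_distrib (s := Finset.univ), h, sub_self] at this
    linarith
  have h2 : ∑ x ∈ A, (μ x - ν x) ≤ ∑ x ∈ A, |μ x - ν x| :=
    Finset.sum_le_sum fun x _ => le_abs_self _
  have h3 : - ∑ x ∈ Aᶜ, (μ x - ν x) ≤ ∑ x ∈ Aᶜ, |μ x - ν x| := by
    rw [← Finset.sum_neg_distrib]
    exact Finset.sum_le_sum fun x _ => neg_le_abs _
  have h4 := Finset.sum_add_sum_compl A (fun x => |μ x - ν x|)
  rw [← Finset.sum_sub_distrib, tvDist, ← h4]
  linarith

lemma le_dTV (P : Matrix V V ℝ) (π : V → ℝ) (t : ℕ) (x : V) :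
    tvDist (fun y => (P ^ t) x y) π ≤ dTV P π t :=
  le_ciSup (f := fun x : V => tvDist (fun y => (P ^ t) x y) π) (Set.finite_range _).bddAbove x

lemma pow_le_pow_entry {M P : Matrix V V ℝ} (h0 : ∀ x y, 0 ≤ M x y) (h1 : ∀ x y, M x y ≤ P x y)
    (t : ℕ) : ∀ x y, (M ^ t) x y ≤ (P ^ t) x y := by
  induction t with
  | zero => intro x y; simp
  | succ t ih =>
    intro x y
    rw [pow_succ, pow_succ, Matrix.mul_apply, Matrix.mul_apply]
    refine Finset.sum_le_sum fun z _ => ?_
    refine mul_le_mul (ih x z) (h1 z y) (h0 z y) ?_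
    exact nonneg_pow (fun a b => (h0 a b).trans (h1 a b)) t x z

end General

section Product

variable {Q H : Type} [AddCommGroup Q] [AddCommGroup H] [Fintype Q] [Fintype H]
  [DecidableEq Q] [DecidableEq H]

/-- The generating set `(S0 × (H ∖ 0)) ∪ ((Q ∖ 0) × {0})` of `Q × H`. -/
def genSet (S0 : Finset Q) : Finset (Q × H) :=
  S0 ×ˢ (Finset.univ.erase (0 : H)) ∪ (Finset.univ.erase (0 : Q)) ×ˢ {0}

lemma mem_genSet (S0 : Finset Q) (g : Q × H) :
    g ∈ genSet S0 ↔ (g.1 ∈ S0 ∧ g.2 ≠ 0) ∨ (g.1 ≠ 0 ∧ g.2 = 0) := by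
  simp only [genSet, Finset.mem_union, Finset.mem_product, Finset.mem_erase, Finset.mem_univ,
    and_true, Finset.mem_singleton]

lemma genSet_disjoint (S0 : Finset Q) :
    Disjoint (S0 ×ˢ (Finset.univ.erase (0 : H))) ((Finset.univ.erase (0 : Q)) ×ˢ {(0 : H)}) := by
  rw [Finset.disjoint_left]
  rintro ⟨a, b⟩ h1 h2
  simp only [Finset.mem_product, Finset.mem_erase, Finset.mem_univ,
    and_true, Finset.mem_singleton] at h1 h2
  exact h1.2 h2.2

lemma card_genSet (S0 : Finset Q) :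
    ((genSet S0 : Finset (Q × H)).card : ℝ)
      = S0.card * ((Fintype.card H : ℝ) - 1) + ((Fintype.card Q : ℝ) - 1) := by
  rw [genSet, Finset.card_union_of_disjoint (genSet_disjoint S0)]
  simp only [Finset.card_product, Finset.card_singleton, mul_one, Nat.cast_add, Nat.cast_mul]
  rw [Finset.card_erase_of_mem (Finset.mem_univ _), Finset.card_erase_of_mem (Finset.mem_univ _),
    Finset.card_univ, Finset.card_univ]
  rw [Nat.cast_sub Fintype.card_pos, Nat.cast_sub Fintype.card_pos]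
  simp

/-- Averaging over the `Q`-coordinate. -/
noncomputable def Bm : Matrix (Q × H) (Q × H) ℝ :=
  fun x y => if y.2 = x.2 then 1 / (Fintype.card Q : ℝ) else 0

/-- Unnormalised type-1 kernel. -/
noncomputable def Am (S0 : Finset Q) : Matrix (Q × H) (Q × H) ℝ :=
  fun x y => if y.1 - x.1 ∈ S0 ∧ y.2 ≠ x.2 then 1 else 0

/-- The uniform kernel. -/
noncomputable def Um : Matrix (Q × H) (Q × H) ℝ :=
  fun _ _ => 1 / (Fintype.card (Q × H) : ℝ)

lemma walk_eq (S0 : Finset Q) (s : ℝ)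
    (hs : s = ((genSet S0 : Finset (Q × H)).card : ℝ)) :
    lazyWalk (genSet S0 : Finset (Q × H)) =
      (1 / 2 - 1 / (2 * s)) • (1 : Matrix (Q × H) (Q × H) ℝ) + (1 / (2 * s)) • Am S0
        + ((Fintype.card Q : ℝ) / (2 * s)) • Bm := by
  have hQ : (Fintype.card Q : ℝ) ≠ 0 := by
    have : 0 < Fintype.card Q := Fintype.card_pos
    positivity
  ext x y
  simp only [lazyWalk, ← hs, Matrix.add_apply, Matrix.smul_apply, smul_eq_mul, Am, Bm,
    mem_genSet, Prod.fst_sub, Prod.snd_sub, sub_ne_zero, sub_eq_zero, Matrix.one_apply]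
  by_cases hxy : y = x
  · subst hxy
    simp
    field_simp
    ring_nf
  · have hxy' : ¬ x = y := fun h => hxy h.symm
    by_cases h2 : y.2 = x.2
    · have h1 : y.1 ≠ x.1 := fun h => hxy (Prod.ext h h2)
      simp [hxy, hxy', h1, h2]
      field_simp
    · by_cases h1 : y.1 - x.1 ∈ S0
      · simp [hxy, hxy', h1, h2]
        field_simp
      · simp [hxy, hxy', h1, h2]

lemma sum_ite_sub_mem (S0 : Finset Q) (x : Q) (a : ℝ) :
    ∑ y : Q, (if y - x ∈ S0 then a else 0) = S0.card * a := by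
  rw [← Equiv.sum_comp (Equiv.addRight x) (fun y => if y - x ∈ S0 then a else (0:ℝ))]
  simp [Finset.sum_ite_mem]

lemma sum_ite_sub_mem' (S0 : Finset Q) (x : Q) (a : ℝ) :
    ∑ y : Q, (if x - y ∈ S0 then a else 0) = S0.card * a := by
  rw [← Equiv.sum_comp (Equiv.subLeft x) (fun y => if x - y ∈ S0 then a else (0:ℝ))]
  simp [Finset.sum_ite_mem]

lemma Am_rowSum (S0 : Finset Q) (x : Q × H) :
    ∑ y, Am S0 x y = S0.card * ((Fintype.card H : ℝ) - 1) := by
  simp only [Am]
  rw [Fintype.sum_prod_type_right]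
  have : ∀ y2 : H, ∑ y1 : Q, (if y1 - x.1 ∈ S0 ∧ y2 ≠ x.2 then (1:ℝ) else 0)
      = if y2 ≠ x.2 then (S0.card : ℝ) else 0 := by
    intro y2
    by_cases h : y2 = x.2
    · simp [h]
    · simp only [h, ne_eq, not_false_eq_true, and_true, if_true]
      rw [sum_ite_sub_mem]; ring
  simp_rw [this]
  rw [← Finset.sum_filter, Finset.sum_const]
  have : (Finset.univ.filter fun a : H => a ≠ x.2) = Finset.univ.erase x.2 := by
    ext; simp
  rw [this, Finset.card_erase_of_mem (Finset.mem_univ _), Finset.card_univ, nsmul_eq_mul,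
    Nat.cast_sub Fintype.card_pos]
  push_cast; ring

lemma BA (S0 : Finset Q) :
    (Bm : Matrix (Q × H) (Q × H) ℝ) * Am S0 =
      ((S0.card : ℝ) * Fintype.card H) • Um - (S0.card : ℝ) • Bm := by
  have hQ : (Fintype.card Q : ℝ) ≠ 0 := by
    have : 0 < Fintype.card Q := Fintype.card_pos
    positivity
  have hH : (Fintype.card H : ℝ) ≠ 0 := by
    have : 0 < Fintype.card H := Fintype.card_pos
    positivity
  ext x y
  rw [Matrix.mul_apply]
  simp only [Bm, Am, Um, Matrix.sub_apply, Matrix.smul_apply, smul_eq_mul]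
  rw [Fintype.sum_prod_type_right]
  have : ∀ z2 : H, ∑ z1 : Q, (if z2 = x.2 then 1 / (Fintype.card Q : ℝ) else 0) *
      (if y.1 - z1 ∈ S0 ∧ y.2 ≠ z2 then (1:ℝ) else 0)
      = if z2 = x.2 then (if y.2 ≠ x.2 then (S0.card : ℝ) / Fintype.card Q else 0) else 0 := by
    intro z2
    by_cases h : z2 = x.2
    · subst h
      by_cases h' : y.2 = x.2
      · simp [h']
      · simp only [h', ne_eq, not_false_eq_true, and_true, if_true]
        rw [← Finset.mul_sum, sum_ite_sub_mem']; field_simp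
    · simp [h]
  simp_rw [this]
  rw [Finset.sum_ite_eq' Finset.univ x.2]
  simp only [Finset.mem_univ, if_true, Fintype.card_prod, Nat.cast_mul]
  by_cases h' : y.2 = x.2
  · simp [h']; field_simp; simp
  · simp [h']; field_simp

lemma AB (S0 : Finset Q) :
    Am S0 * (Bm : Matrix (Q × H) (Q × H) ℝ)  =
      ((S0.card : ℝ) * Fintype.card H) • Um - (S0.card : ℝ) • Bm := by
  have hQ : (Fintype.card Q : ℝ) ≠ 0 := by
    have : 0 < Fintype.card Q := Fintype.card_pos
    positivity
  have hH : (Fintype.card H : ℝ) ≠ 0 := by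
    have : 0 < Fintype.card H := Fintype.card_pos
    positivity
  ext x y
  rw [Matrix.mul_apply]
  simp only [Bm, Am, Um, Matrix.sub_apply, Matrix.smul_apply, smul_eq_mul]
  rw [Fintype.sum_prod_type_right]
  have : ∀ z2 : H, ∑ z1 : Q, (if z1 - x.1 ∈ S0 ∧ z2 ≠ x.2 then (1:ℝ) else 0) *
      (if y.2 = z2 then 1 / (Fintype.card Q : ℝ) else 0)
      = if z2 = y.2 then (if y.2 ≠ x.2 then (S0.card : ℝ) / Fintype.card Q else 0) else 0 := by
    intro z2
    by_cases h : z2 = y.2
    · subst h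
      by_cases h' : y.2 = x.2
      · simp [h']
      · simp only [h', ne_eq, not_false_eq_true, and_true, if_true]
        rw [← Finset.sum_mul, sum_ite_sub_mem]; field_simp
    · have h'' : ¬ y.2 = z2 := fun e => h e.symm
      simp [h, h'']
  simp_rw [this]
  rw [Finset.sum_ite_eq' Finset.univ y.2]
  simp only [Finset.mem_univ, if_true, Fintype.card_prod, Nat.cast_mul]
  by_cases h' : y.2 = x.2
  · simp [h']; field_simp; simp
  · simp [h']; field_simp

lemma BB : (Bm : Matrix (Q × H) (Q × H) ℝ) * Bm = Bm := by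
  have hQ : (Fintype.card Q : ℝ) ≠ 0 := by
    have : 0 < Fintype.card Q := Fintype.card_pos
    positivity
  ext x y
  rw [Matrix.mul_apply]
  simp only [Bm]
  rw [Fintype.sum_prod_type_right]
  have : ∀ z2 : H, ∑ z1 : Q, (if z2 = x.2 then 1 / (Fintype.card Q : ℝ) else 0) *
      (if y.2 = z2 then 1 / (Fintype.card Q : ℝ) else 0)
      = if z2 = x.2 then (if y.2 = x.2 then 1 / (Fintype.card Q : ℝ) else 0) else 0 := by
    intro z2
    by_cases h : z2 = x.2
    · subst h
      by_cases h' : y.2 = x.2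
      · simp [h', hQ]
      · simp [h']
    · simp [h]
  simp_rw [this]
  rw [Finset.sum_ite_eq' Finset.univ x.2]
  simp

lemma Bm_rowSum (x : Q × H) : ∑ y, (Bm : Matrix (Q × H) (Q × H) ℝ) x y = 1 := by
  have hQ : (Fintype.card Q : ℝ) ≠ 0 := by
    have : 0 < Fintype.card Q := Fintype.card_pos
    positivity
  simp only [Bm]
  rw [Fintype.sum_prod_type]
  simp [hQ]

lemma Um_rowSum (x : Q × H) : ∑ y, (Um : Matrix (Q × H) (Q × H) ℝ) x y = 1 := by
  have hQ : (Fintype.card Q : ℝ) ≠ 0 := by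
    have : 0 < Fintype.card Q := Fintype.card_pos
    positivity
  have hH : (Fintype.card H : ℝ) ≠ 0 := by
    have : 0 < Fintype.card H := Fintype.card_pos
    positivity
  simp only [Um, Finset.sum_const, Finset.card_univ, nsmul_eq_mul, Fintype.card_prod, Nat.cast_mul]
  field_simp


lemma UX (X : Matrix (Q × H) (Q × H) ℝ) (c : ℝ) (h : ∀ y, ∑ x, X x y = c) :
    (Um : Matrix (Q × H) (Q × H) ℝ) * X = c • Um := by
  ext x y
  rw [Matrix.mul_apply]
  simp only [Um, Matrix.smul_apply, smul_eq_mul]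
  rw [← Finset.mul_sum, h]
  ring

lemma Am_colSum (S0 : Finset Q) (y : Q × H) :
    ∑ x, Am S0 x y = S0.card * ((Fintype.card H : ℝ) - 1) := by
  simp only [Am]
  rw [Fintype.sum_prod_type_right]
  have : ∀ x2 : H, ∑ x1 : Q, (if y.1 - x1 ∈ S0 ∧ y.2 ≠ x2 then (1:ℝ) else 0)
      = if x2 ≠ y.2 then (S0.card : ℝ) else 0 := by
    intro x2
    by_cases h : x2 = y.2
    · simp [h]
    · have h' : ¬ y.2 = x2 := fun e => h e.symm
      simp only [h, h', ne_eq, not_false_eq_true, and_true, if_true]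
      rw [sum_ite_sub_mem']; ring
  simp_rw [this]
  rw [← Finset.sum_filter, Finset.sum_const]
  have : (Finset.univ.filter fun a : H => a ≠ y.2) = Finset.univ.erase y.2 := by
    ext; simp
  rw [this, Finset.card_erase_of_mem (Finset.mem_univ _), Finset.card_univ, nsmul_eq_mul,
    Nat.cast_sub Fintype.card_pos]
  push_cast; ring

lemma Bm_colSum (y : Q × H) : ∑ x, (Bm : Matrix (Q × H) (Q × H) ℝ) x y = 1 := by
  have hQ : (Fintype.card Q : ℝ) ≠ 0 := by
    have : 0 < Fintype.card Q := Fintype.card_pos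
    positivity
  simp only [Bm]
  rw [Fintype.sum_prod_type]
  simp [hQ]

/-- Key algebraic identity for powers of the walk. -/
lemma pow_identity (S0 : Finset Q) (s q h k β : ℝ)
    (hs : s = ((genSet S0 : Finset (Q × H)).card : ℝ)) (hs0 : 0 < s)
    (hq : q = Fintype.card Q) (hh : h = Fintype.card H) (hk : k = S0.card)
    (hβ : β = q / (2 * s)) (t : ℕ) :
    lazyWalk (genSet S0 : Finset (Q × H)) ^ t =
      ((1 / 2 - 1 / (2 * s)) • (1 : Matrix (Q × H) (Q × H) ℝ) + (1 / (2 * s)) • Am S0) ^ t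
          * (1 - Bm)
        + (1 - k * h / (2 * s)) ^ t • (Bm - Um) + Um := by
  set P := lazyWalk (genSet S0 : Finset (Q × H)) with hP
  set M := ((1 / 2 - 1 / (2 * s)) • (1 : Matrix (Q × H) (Q × H) ℝ) + (1 / (2 * s)) • Am S0)
    with hM
  have hcard : s = k * (h - 1) + (q - 1) := by rw [hs, hk, hq, hh, card_genSet]
  have hPM : P = M + β • Bm := by
    rw [hP, walk_eq S0 s hs, hβ, hq]
  have hBM : (Bm : Matrix (Q × H) (Q × H) ℝ) * M = M * Bm := by
    rw [hM, Matrix.mul_add, Matrix.add_mul, Matrix.mul_smul, Matrix.mul_smul, Matrix.smul_mul,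
      Matrix.smul_mul, BA, AB, Matrix.mul_one, Matrix.one_mul]
  have hBP : (Bm : Matrix (Q × H) (Q × H) ℝ) * P =
      (1 - k * h / (2 * s)) • Bm + (k * h / (2 * s)) • Um := by
    rw [hPM, Matrix.mul_add, Matrix.mul_smul, BB, hM, Matrix.mul_add, Matrix.mul_smul,
      Matrix.mul_smul, BA, Matrix.mul_one, ← hk, ← hh, smul_sub, smul_smul, smul_smul]
    have e1 : (1 - k * h / (2 * s)) = (1 / 2 - 1 / (2 * s)) - 1 / (2 * s) * k + β := by
      rw [hβ]; field_simp; rw [hcard]; ring
    have e2 : k * h / (2 * s) = 1 / (2 * s) * (k * h) := by ring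
    rw [e1, e2]
    module
  have hUP : (Um : Matrix (Q × H) (Q × H) ℝ) * P = Um := by
    rw [UX P 1, one_smul]
    intro y
    rw [hPM, hM]
    simp only [Matrix.add_apply, Matrix.smul_apply, smul_eq_mul, Finset.sum_add_distrib,
      ← Finset.mul_sum, Am_colSum, Bm_colSum, Matrix.one_apply]
    simp only [Finset.sum_ite_eq', Finset.mem_univ, if_true, ← hk, ← hh]
    rw [hβ]; field_simp; rw [hcard]; ring
  have h1B : ∀ t : ℕ, (1 - Bm) * P ^ t = M ^ t * (1 - (Bm : Matrix (Q × H) (Q × H) ℝ)) := by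
    intro t
    induction t with
    | zero => simp
    | succ t ih =>
      rw [pow_succ, ← Matrix.mul_assoc, ih, Matrix.mul_assoc]
      have : (1 - Bm) * P = M * (1 - (Bm : Matrix (Q × H) (Q × H) ℝ)) := by
        rw [hPM, Matrix.mul_add, Matrix.sub_mul, Matrix.sub_mul, Matrix.one_mul, Matrix.mul_smul,
          Matrix.mul_smul, BB, Matrix.one_mul, hBM, Matrix.mul_sub, Matrix.mul_one]
        abel
      rw [this, ← Matrix.mul_assoc, ← pow_succ]
  have h2B : ∀ t : ℕ, (Bm : Matrix (Q × H) (Q × H) ℝ) * P ^ t =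
      (1 - k * h / (2 * s)) ^ t • (Bm - Um) + Um := by
    intro t
    induction t with
    | zero => simp
    | succ t ih =>
      rw [pow_succ, ← Matrix.mul_assoc, ih, Matrix.add_mul, Matrix.smul_mul, Matrix.sub_mul, hBP,
        hUP, pow_succ]
      have : (1 - k * h / (2 * s)) • (Bm : Matrix (Q × H) (Q × H) ℝ) + (k * h / (2 * s)) • Um - Um
          = (1 - k * h / (2 * s)) • (Bm - Um) := by
        rw [smul_sub, sub_smul, sub_smul, one_smul, one_smul]; abel
      rw [this, smul_smul]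
  have := h1B t
  rw [Matrix.sub_mul, Matrix.one_mul, h2B t, sub_eq_iff_eq_add] at this
  rw [this]
  abel

/-- Upper bound for the distance to stationarity. -/
lemma dTV_le (S0 : Finset Q) (s q h k : ℝ)
    (hs : s = ((genSet S0 : Finset (Q × H)).card : ℝ)) (hs0 : 1 ≤ s)
    (hq : q = Fintype.card Q) (hh : h = Fintype.card H) (hk : k = S0.card)
    (hc : k * h ≤ 2 * s) (t : ℕ) :
    dTV (lazyWalk (genSet S0 : Finset (Q × H))) (unif (Q × H)) t ≤
      (1 - q / (2 * s)) ^ t + (1 - k * h / (2 * s)) ^ t := by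
  have hcard : s = k * (h - 1) + (q - 1) := by rw [hs, hk, hq, hh, card_genSet]
  have hspos : 0 < s := by linarith
  set M := ((1 / 2 - 1 / (2 * s)) • (1 : Matrix (Q × H) (Q × H) ℝ) + (1 / (2 * s)) • Am S0)
    with hM
  have hMnn : ∀ x y, 0 ≤ M x y := by
    intro x y
    simp only [hM, Matrix.add_apply, Matrix.smul_apply, smul_eq_mul, Matrix.one_apply, Am]
    have h1 : 0 ≤ 1 / 2 - 1 / (2 * s) := by
      rw [sub_nonneg, div_le_div_iff₀ (by positivity) (by norm_num)]; linarith
    have h2 : 0 ≤ 1 / (2 * s) := by positivity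
    refine add_nonneg (mul_nonneg h1 ?_) (mul_nonneg h2 ?_) <;> split_ifs <;> norm_num
  have hMrow : ∀ x, ∑ y, M x y = 1 - q / (2 * s) := by
    intro x
    simp only [hM, Matrix.add_apply, Matrix.smul_apply, smul_eq_mul, Finset.sum_add_distrib,
      ← Finset.mul_sum, Am_rowSum, Matrix.one_apply]
    simp only [Finset.sum_ite_eq, Finset.mem_univ, if_true, ← hk, ← hh]
    field_simp; rw [hcard]; ring
  refine ciSup_le fun x => ?_
  have hMt : ∀ x, ∑ y, |(M ^ t) x y| ≤ (1 - q / (2 * s)) ^ t := by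
    intro x
    rw [← rowSum_pow hMrow t x]
    exact le_of_eq (Finset.sum_congr rfl fun y _ => abs_of_nonneg (nonneg_pow hMnn t x y))
  have hBnn : ∀ x y, 0 ≤ (Bm : Matrix (Q × H) (Q × H) ℝ) x y := by
    intro x y; simp only [Bm]; split_ifs <;> positivity
  have hUnn : ∀ x y, 0 ≤ (Um : Matrix (Q × H) (Q × H) ℝ) x y := by
    intro x y; simp only [Um]; positivity
  have h1B : ∀ x, ∑ y, |(1 - Bm : Matrix (Q × H) (Q × H) ℝ) x y| ≤ 2 := by
    intro x
    calc ∑ y, |(1 - Bm : Matrix (Q × H) (Q × H) ℝ) x y|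
        ≤ ∑ y, ((1 : Matrix (Q × H) (Q × H) ℝ) x y + Bm x y) := by
          refine Finset.sum_le_sum fun y _ => ?_
          rw [Matrix.sub_apply]
          refine (abs_sub _ _).trans (le_of_eq ?_)
          rw [abs_of_nonneg (hBnn x y), abs_of_nonneg]
          rw [Matrix.one_apply]; split_ifs <;> norm_num
      _ = 2 := by
          rw [Finset.sum_add_distrib, Bm_rowSum]
          simp [Matrix.one_apply]; norm_num
  have hBU : ∀ x, ∑ y, |(Bm - Um : Matrix (Q × H) (Q × H) ℝ) x y| ≤ 2 := by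
    intro x
    calc ∑ y, |(Bm - Um : Matrix (Q × H) (Q × H) ℝ) x y|
        ≤ ∑ y, ((Bm : Matrix (Q × H) (Q × H) ℝ) x y + Um x y) := by
          refine Finset.sum_le_sum fun y _ => ?_
          rw [Matrix.sub_apply]
          refine (abs_sub _ _).trans (le_of_eq ?_)
          rw [abs_of_nonneg (hBnn x y), abs_of_nonneg (hUnn x y)]
      _ = 2 := by
          rw [Finset.sum_add_distrib, Bm_rowSum, Um_rowSum]; norm_num
  have hprod := rowAbs_mul_le hMt h1B (by norm_num) x
  have hcnn : 0 ≤ 1 - k * h / (2 * s) := by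
    rw [sub_nonneg, div_le_one (by positivity)]; exact hc
  rw [tvDist]
  have key : ∀ y, (lazyWalk (genSet S0 : Finset (Q × H)) ^ t) x y - unif (Q × H) y =
      (M ^ t * (1 - Bm) : Matrix (Q × H) (Q × H) ℝ) x y + (1 - k * h / (2 * s)) ^ t * (Bm - Um : Matrix (Q × H) (Q × H) ℝ) x y := by
    intro y
    rw [pow_identity S0 s q h k (q / (2 * s)) hs hspos hq hh hk rfl t]
    simp only [Matrix.add_apply, Matrix.smul_apply, smul_eq_mul, unif, Um]
    ring
  simp_rw [key]
  calc (1 / 2) * ∑ y, |(M ^ t * (1 - Bm) : Matrix (Q × H) (Q × H) ℝ) x y +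
        (1 - k * h / (2 * s)) ^ t * (Bm - Um : Matrix (Q × H) (Q × H) ℝ) x y|
      ≤ (1 / 2) * (∑ y, |(M ^ t * (1 - Bm) : Matrix (Q × H) (Q × H) ℝ) x y| +
        (1 - k * h / (2 * s)) ^ t * ∑ y, |(Bm - Um : Matrix (Q × H) (Q × H) ℝ) x y|) := by
        refine mul_le_mul_of_nonneg_left ?_ (by norm_num)
        rw [Finset.mul_sum, ← Finset.sum_add_distrib]
        refine Finset.sum_le_sum fun y _ => ?_
        refine (abs_add_le _ _).trans (le_of_eq ?_)
        rw [abs_mul, abs_of_nonneg (pow_nonneg hcnn t)]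
    _ ≤ (1 / 2) * ((1 - q / (2 * s)) ^ t * 2 + (1 - k * h / (2 * s)) ^ t * 2) := by
        refine mul_le_mul_of_nonneg_left ?_ (by norm_num)
        exact add_le_add hprod (mul_le_mul_of_nonneg_left (hBU x) (pow_nonneg hcnn t))
    _ = _ := by ring


open Pointwise in
/-- Points of `Q` reachable with at most `t` steps from `S0`. -/
def reach (S0 : Finset Q) : ℕ → Finset Q
  | 0 => {0}
  | t + 1 => reach S0 t + insert 0 S0

lemma card_reach (S0 : Finset Q) (t : ℕ) : (reach S0 t).card ≤ (S0.card + 1) ^ t := by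
  classical
  induction t with
  | zero => simp [reach]
  | succ t ih =>
    rw [reach, pow_succ]
    refine Finset.card_add_le.trans ?_
    exact Nat.mul_le_mul ih (Finset.card_insert_le _ _)

/-- Lower bound for the distance to stationarity. -/
lemma le_dTV_walk (S0 : Finset Q) (h0 : (0 : Q) ∉ S0) (s q k : ℝ)
    (hs : s = ((genSet S0 : Finset (Q × H)).card : ℝ)) (hs0 : 1 ≤ s)
    (hq : q = Fintype.card Q) (hk : k = S0.card) (hqs : q ≤ 2 * s) (t : ℕ) :
    (1 - q / (2 * s)) ^ t - (k + 1) ^ t / q ≤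
      dTV (lazyWalk (genSet S0 : Finset (Q × H))) (unif (Q × H)) t := by
  classical
  obtain ⟨h, hh⟩ : ∃ h : ℝ, h = Fintype.card H := ⟨_, rfl⟩
  have hcard : s = k * (h - 1) + (q - 1) := by rw [hs, hk, hq, hh, card_genSet]
  have hspos : 0 < s := by linarith
  have hqpos : 0 < q := by rw [hq]; exact_mod_cast Fintype.card_pos
  have hhpos : 0 < h := by rw [hh]; exact_mod_cast Fintype.card_pos
  have hk0 : 0 ≤ k := by rw [hk]; positivity
  set P := lazyWalk (genSet S0 : Finset (Q × H)) with hP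
  set M : Matrix (Q × H) (Q × H) ℝ := fun x y =>
    (1 / 2) * (if y = x then 1 else 0) + (1 / 2) * (if y.1 - x.1 ∈ S0 then 1 / s else 0) with hM
  have hMnn : ∀ x y, 0 ≤ M x y := by
    intro x y
    simp only [hM]
    refine add_nonneg ?_ ?_ <;> split_ifs <;> positivity
  have hMP : ∀ x y, M x y ≤ P x y := by
    intro x y
    simp only [hM, hP, lazyWalk, ← hs]
    refine add_le_add le_rfl (mul_le_mul_of_nonneg_left ?_ (by norm_num))
    by_cases h1 : y.1 - x.1 ∈ S0
    · have : y - x ∈ (genSet S0 : Finset (Q × H)) := by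
        rw [mem_genSet]
        by_cases h2 : (y - x).2 = 0
        · right
          refine ⟨?_, h2⟩
          intro h3
          apply h0
          rw [← h3]; exact h1
        · left; exact ⟨h1, h2⟩
      simp [h1, this]
    · simp only [h1, if_false]
      split_ifs <;> positivity
  have hMrow : ∀ x, ∑ y, M x y = 1 / 2 + k * h / (2 * s) := by
    intro x
    simp only [hM, Finset.sum_add_distrib, ← Finset.mul_sum]
    congr 1
    · simp
    · rw [Fintype.sum_prod_type_right]
      simp_rw [sum_ite_sub_mem]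
      rw [Finset.sum_const, Finset.card_univ, nsmul_eq_mul, ← hh, ← hk]
      field_simp
  have hsupp : ∀ (t : ℕ) (y : Q × H), y.1 ∉ reach S0 t → (M ^ t) 0 y = 0 := by
    intro t
    induction t with
    | zero =>
      intro y hy
      rw [pow_zero, Matrix.one_apply, if_neg]
      rintro rfl
      simp [reach] at hy
    | succ t ih =>
      intro y hy
      rw [pow_succ, Matrix.mul_apply]
      refine Finset.sum_eq_zero fun z _ => ?_
      by_cases hz : z.1 ∈ reach S0 t
      · have : M z y = 0 := by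
          simp only [hM]
          have h1 : ¬ y = z := by
            rintro rfl
            apply hy
            rw [reach]
            have := Finset.add_mem_add hz (Finset.mem_insert_self (0 : Q) S0)
            rwa [add_zero] at this
          have h2 : y.1 - z.1 ∉ S0 := by
            intro h2
            apply hy
            rw [reach]
            have := Finset.add_mem_add hz (Finset.mem_insert_of_mem (b := (0 : Q)) h2)
            rwa [add_sub_cancel] at this
          simp [h1, h2]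
        rw [this, mul_zero]
      · rw [ih z hz, zero_mul]
  have hProw : ∀ x, ∑ y, P x y = 1 := by
    intro x
    rw [hP, walk_eq S0 s hs]
    simp only [Matrix.add_apply, Matrix.smul_apply, smul_eq_mul, Finset.sum_add_distrib,
      ← Finset.mul_sum, Am_rowSum, Bm_rowSum, Matrix.one_apply]
    simp only [Finset.sum_ite_eq, Finset.mem_univ, if_true, ← hk, ← hh, ← hq]
    field_simp; rw [hcard]; ring
  set A : Finset (Q × H) := reach S0 t ×ˢ Finset.univ with hA
  have hU : ∑ x, unif (Q × H) x = 1 := by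
    have := Um_rowSum (0 : Q × H)
    simpa [Um, unif] using this
  have htot : ∑ y, (P ^ t) 0 y = ∑ x, unif (Q × H) x := by
    rw [rowSum_pow hProw t 0, one_pow, hU]
  have hTV := tvDist_ge (fun y => (P ^ t) 0 y) (unif (Q × H)) htot A
  have hPA : (1 - q / (2 * s)) ^ t ≤ ∑ y ∈ A, (P ^ t) 0 y := by
    calc (1 - q / (2 * s)) ^ t ≤ (1 / 2 + k * h / (2 * s)) ^ t := by
          refine pow_le_pow_left₀ ?_ ?_ t
          · rw [sub_nonneg, div_le_one (by positivity)]; exact hqs
          · have : k * h = s + k + 1 - q := by rw [hcard]; ring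
            rw [this]
            have e : 1 / 2 + (s + k + 1 - q) / (2 * s) = 1 - q / (2 * s) + (k + 1) / (2 * s) := by
              field_simp; ring
            rw [e]
            have : 0 ≤ (k + 1) / (2 * s) := by positivity
            linarith
      _ = ∑ y, (M ^ t) 0 y := (rowSum_pow hMrow t 0).symm
      _ = ∑ y ∈ A, (M ^ t) 0 y := by
          symm
          apply Finset.sum_subset (Finset.subset_univ _)
          intro y _ hy
          apply hsupp
          intro hy'
          apply hy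
          rw [hA, Finset.mem_product]
          exact ⟨hy', Finset.mem_univ _⟩
      _ ≤ ∑ y ∈ A, (P ^ t) 0 y := Finset.sum_le_sum fun y _ => pow_le_pow_entry hMnn hMP t 0 y
  have hπA : ∑ y ∈ A, unif (Q × H) y ≤ (k + 1) ^ t / q := by
    simp only [unif, Finset.sum_const, nsmul_eq_mul, hA, Finset.card_product, Finset.card_univ,
      Fintype.card_prod, Nat.cast_mul, ← hq, ← hh]
    have hc : ((reach S0 t).card : ℝ) ≤ (k + 1) ^ t := by
      rw [hk]; exact_mod_cast card_reach S0 t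
    calc ((reach S0 t).card : ℝ) * h * (1 / (q * h)) = ((reach S0 t).card : ℝ) / q := by
          field_simp
      _ ≤ _ := by gcongr
  linarith [le_dTV P (unif (Q × H)) t 0]


/-- Spectral bound: every eigenvalue of the walk other than `1` is at most `3/4`, as soon as the
set `S0` is `1/2`-biased. -/
lemma eigen_le (S0 : Finset Q) (s q h k : ℝ)
    (hs : s = ((genSet S0 : Finset (Q × H)).card : ℝ)) (hs0 : 1 ≤ s)
    (hq : q = Fintype.card Q) (hh : h = Fintype.card H) (hk : k = S0.card)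
    (hbig : k + q ≤ s / 2)
    (hbias : ∀ ψ : AddChar Q ℂ, ψ ≠ 1 → (∑ x ∈ S0, ψ x).re ≤ k / 2)
    (μ : ℝ) (hμ : μ ≠ 1) (f : Q × H → ℝ) (hf : f ≠ 0)
    (hev : lazyWalk (genSet S0 : Finset (Q × H)) *ᵥ f = μ • f) : μ ≤ 3 / 4 := by
  classical
  have hcard : s = k * (h - 1) + (q - 1) := by rw [hs, hk, hq, hh, card_genSet]
  have hspos : 0 < s := by linarith
  have hqpos : 1 ≤ q := by rw [hq]; exact_mod_cast Fintype.card_pos
  have hhpos : 1 ≤ h := by rw [hh]; exact_mod_cast Fintype.card_pos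
  have hk0 : 0 ≤ k := by rw [hk]; positivity
  set S : Finset (Q × H) := genSet S0 with hS
  -- pairing with a character
  have hpair : ∀ χ : AddChar (Q × H) ℂ,
      (μ : ℂ) * ∑ x, (f x : ℂ) * χ x =
        (1 / 2 + (1 / (2 * s) : ℝ) * ∑ g ∈ S, χ (-g)) * ∑ x, (f x : ℂ) * χ x := by
    intro χ
    have h1 : ∀ x, (μ : ℂ) * (f x : ℂ) = ∑ y, ((lazyWalk S x y : ℝ) : ℂ) * (f y : ℂ) := by
      intro x
      have := congrFun hev x
      simp only [Matrix.mulVec, dotProduct, Pi.smul_apply, smul_eq_mul] at this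
      rw [← Complex.ofReal_mul, ← this]
      push_cast
      rfl
    have h2 : ∀ y, ∑ x, ((lazyWalk S x y : ℝ) : ℂ) * χ x =
        (1 / 2 + (1 / (2 * s) : ℝ) * ∑ g ∈ S, χ (-g)) * χ y := by
      intro y
      have e1 : ∀ x, ((lazyWalk S x y : ℝ) : ℂ) * χ x =
          (1 / 2) * (if y = x then χ x else 0) +
            (1 / (2 * s) : ℝ) * (if y - x ∈ S then χ x else 0) := by
        intro x
        simp only [lazyWalk, ← hs]
        split_ifs <;> push_cast <;> ring
      simp_rw [e1]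
      rw [Finset.sum_add_distrib, ← Finset.mul_sum, ← Finset.mul_sum]
      rw [Finset.sum_ite_eq]
      simp only [Finset.mem_univ, if_true]
      have e2 : ∑ x, (if y - x ∈ S then χ x else 0) = (∑ g ∈ S, χ (-g)) * χ y := by
        rw [← Equiv.sum_comp (Equiv.subLeft y) (fun x => if y - x ∈ S then χ x else 0)]
        simp only [Equiv.subLeft_apply, sub_sub_cancel]
        rw [Finset.sum_mul, ← Finset.sum_filter]
        simp only [Finset.filter_mem_eq_inter, Finset.univ_inter]
        refine Finset.sum_congr rfl fun g _ => ?_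
        rw [← AddChar.map_add_eq_mul]; congr 1; abel
      rw [e2]; ring
    rw [Finset.mul_sum]
    calc ∑ x, (μ : ℂ) * ((f x : ℂ) * χ x)
        = ∑ x, ∑ y, ((lazyWalk S x y : ℝ) : ℂ) * (f y : ℂ) * χ x := by
          refine Finset.sum_congr rfl fun x _ => ?_
          rw [← mul_assoc, h1 x, Finset.sum_mul]
      _ = ∑ y, (f y : ℂ) * ∑ x, ((lazyWalk S x y : ℝ) : ℂ) * χ x := by
          rw [Finset.sum_comm]
          refine Finset.sum_congr rfl fun y _ => ?_
          rw [Finset.mul_sum]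
          refine Finset.sum_congr rfl fun x _ => ?_
          ring
      _ = ∑ y, (1 / 2 + (1 / (2 * s) : ℝ) * ∑ g ∈ S, χ (-g)) * ((f y : ℂ) * χ y) := by
          refine Finset.sum_congr rfl fun y _ => ?_
          rw [h2]
          ring
      _ = _ := by rw [← Finset.mul_sum]
  -- some character sees `f`
  obtain ⟨χ, hχ⟩ : ∃ χ : AddChar (Q × H) ℂ, ∑ x, (f x : ℂ) * χ x ≠ 0 := by
    by_contra hcon
    push Not at hcon
    apply hf
    ext y
    have h3 : ∑ χ : AddChar (Q × H) ℂ, ∑ x, (f x : ℂ) * χ (x - y) = 0 := by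
      refine Finset.sum_eq_zero fun χ _ => ?_
      have : ∀ x, (f x : ℂ) * χ (x - y) = (f x : ℂ) * χ x * χ (-y) := by
        intro x; rw [sub_eq_add_neg, AddChar.map_add_eq_mul]; ring
      simp_rw [this]
      rw [← Finset.sum_mul, hcon χ, zero_mul]
    rw [Finset.sum_comm] at h3
    simp_rw [← Finset.mul_sum, AddChar.sum_apply_eq_ite, sub_eq_zero] at h3
    simp only [mul_ite, mul_zero, Finset.sum_ite_eq', Finset.mem_univ, if_true] at h3
    rcases mul_eq_zero.1 h3 with h4 | h4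
    · exact_mod_cast h4
    · exfalso
      have : (0 : ℕ) < Fintype.card (Q × H) := Fintype.card_pos
      have h5 : (Fintype.card (Q × H) : ℂ) ≠ 0 := by exact_mod_cast this.ne'
      exact h5 h4
  have hμχ := mul_right_cancel₀ hχ (hpair χ)
  set ψ : AddChar (Q × H) ℂ := χ⁻¹ with hψ
  have hψχ : ∀ g, χ (-g) = ψ g := fun g => rfl
  simp_rw [hψχ] at hμχ
  have hμre : μ = 1 / 2 + 1 / (2 * s) * (∑ g ∈ S, ψ g).re := by
    have := congrArg Complex.re hμχ
    simp only [Complex.ofReal_re, Complex.add_re, Complex.mul_re, Complex.ofReal_im, zero_mul,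
      sub_zero] at this
    rw [this]
    norm_num
  set ψQ : AddChar Q ℂ := ψ.compAddMonoidHom (AddMonoidHom.inl Q H) with hψQ
  set ψH : AddChar H ℂ := ψ.compAddMonoidHom (AddMonoidHom.inr Q H) with hψH
  have hsplit : ∀ a b, ψ (a, b) = ψQ a * ψH b := by
    intro a b
    have : (a, b) = AddMonoidHom.inl Q H a + AddMonoidHom.inr Q H b := by simp
    rw [this, AddChar.map_add_eq_mul]
    rfl
  have hsumS : ∑ g ∈ S, ψ g = (∑ a ∈ S0, ψQ a) * (∑ b, ψH b - 1) + (∑ a, ψQ a - 1) := by
    rw [hS, genSet, Finset.sum_union (genSet_disjoint S0), Finset.sum_product, Finset.sum_product]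
    congr 1
    · simp_rw [hsplit, ← Finset.mul_sum]
      rw [← Finset.sum_mul]
      congr 1
      rw [← Finset.add_sum_erase Finset.univ ψH (Finset.mem_univ 0)]
      simp
    · simp only [Finset.sum_singleton, hsplit, AddChar.map_zero_eq_one, mul_one]
      rw [← Finset.add_sum_erase Finset.univ ψQ (Finset.mem_univ 0)]
      simp
  have hnorm : ∀ a, ‖ψQ a‖ ≤ 1 := fun a => le_of_eq (by simp)
  have hS0le : ‖∑ a ∈ S0, ψQ a‖ ≤ k := by
    refine (norm_sum_le _ _).trans ?_
    rw [hk]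
    refine (Finset.sum_le_sum fun a _ => hnorm a).trans ?_
    simp
  have hsumre : (∑ g ∈ S, ψ g).re ≤ s / 2 := by
    by_cases hH : ψH = 0
    · by_cases hQ : ψQ = 0
      · -- trivial character: then `μ = 1`
        exfalso
        apply hμ
        have h6 : ∑ b, ψH b = (h : ℂ) := by
          rw [hH, hh]; simp
        have h7 : ∑ b, ψQ b = (q : ℂ) := by
          rw [hQ, hq]; simp
        have h8 : ∑ a ∈ S0, ψQ a = (k : ℂ) := by
          rw [hQ, hk]; simp
        rw [h6, h7, h8] at hsumS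
        rw [hμre, hsumS]
        have : ((k : ℂ) * ((h : ℂ) - 1) + ((q : ℂ) - 1)).re = s := by
          rw [hcard]
          have : ((k : ℂ) * ((h : ℂ) - 1) + ((q : ℂ) - 1)) = ((k * (h - 1) + (q - 1) : ℝ) : ℂ) := by
            push_cast; ring
          rw [this, Complex.ofReal_re]
        rw [this]; field_simp; norm_num
      · have h6 : ∑ b, ψH b = (h : ℂ) := by
          rw [hH, hh]; simp
        have h7 : ∑ b, ψQ b = 0 := AddChar.sum_eq_zero_of_ne_one hQ
        rw [hsumS, h6, h7]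
        have h9 : ((∑ a ∈ S0, ψQ a) * ((h : ℂ) - 1) + (0 - 1)).re =
            (∑ a ∈ S0, ψQ a).re * (h - 1) - 1 := by
          have : ((h : ℂ) - 1) = ((h - 1 : ℝ) : ℂ) := by push_cast; ring
          rw [this]
          simp only [Complex.add_re, Complex.mul_re, Complex.ofReal_re, Complex.ofReal_im,
            mul_zero, sub_zero, Complex.sub_re, Complex.zero_re, Complex.one_re]
          ring
        rw [h9]
        have h10 := hbias ψQ hQ
        have h11 : (∑ a ∈ S0, ψQ a).re * (h - 1) ≤ k / 2 * (h - 1) :=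
          mul_le_mul_of_nonneg_right h10 (by linarith)
        nlinarith
    · have h6 : ∑ b, ψH b = 0 := AddChar.sum_eq_zero_of_ne_one hH
      have h7 : (∑ b, ψQ b - 1).re ≤ q - 1 := by
        rw [Complex.sub_re, Complex.one_re]
        have : (∑ b, ψQ b).re ≤ q := by
          refine (Complex.re_le_norm _).trans ((norm_sum_le _ _).trans ?_)
          rw [hq]
          refine (Finset.sum_le_sum fun a _ => hnorm a).trans ?_
          simp
        linarith
      rw [hsumS, h6]
      have h8 : ((∑ a ∈ S0, ψQ a) * (0 - 1)).re ≤ k := by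
        rw [zero_sub, mul_neg, mul_one, Complex.neg_re]
        have := (Complex.abs_re_le_norm (∑ a ∈ S0, ψQ a)).trans hS0le
        linarith [neg_abs_le (∑ a ∈ S0, ψQ a).re]
      rw [Complex.add_re]
      exact (add_le_add h8 h7).trans (by linarith)
  rw [hμre]
  have : 1 / (2 * s) * (∑ g ∈ S, ψ g).re ≤ 1 / (2 * s) * (s / 2) :=
    mul_le_mul_of_nonneg_left hsumre (by positivity)
  have h2 : 1 / (2 * s) * (s / 2) = 1 / 4 := by field_simp; norm_num
  linarith

end Product

section ReedSolomon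

variable (p r : ℕ) [Fact p.Prime]

/-- The moment-curve vector `(1, x, …, x^{r+1})`. -/
def rsVec (x : ZMod p) : Fin (r + 2) → ZMod p := fun i => x ^ (i : ℕ)

/-- The set `{c (1, x, …, x^{r+1}) : c ≠ 0, x}`. -/
def rsSet : Finset (Fin (r + 2) → ZMod p) :=
  ((Finset.univ.erase (0 : ZMod p)) ×ˢ Finset.univ).image (fun cx => cx.1 • rsVec p r cx.2)

lemma rs_inj : Function.Injective
    (fun cx : {c : ZMod p // c ≠ 0} × ZMod p => (cx.1 : ZMod p) • rsVec p r cx.2) := by
  rintro ⟨⟨c, hc⟩, x⟩ ⟨⟨d, hd⟩, y⟩ h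
  have h0 := congrFun h 0
  have h1 := congrFun h 1
  simp [rsVec] at h0 h1
  subst h0
  have := mul_left_cancel₀ hc h1
  subst this
  rfl

lemma rs_injOn : Set.InjOn (fun cx : ZMod p × ZMod p => cx.1 • rsVec p r cx.2)
    ((Finset.univ.erase (0 : ZMod p)) ×ˢ Finset.univ : Finset (ZMod p × ZMod p)) := by
  rintro ⟨c, x⟩ hc ⟨d, y⟩ hd h
  simp only [Finset.coe_product, Finset.coe_erase, Finset.coe_univ, Set.mem_prod, Set.mem_sdiff,
    Set.mem_univ, true_and, and_true, Set.mem_singleton_iff] at hc hd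
  have := @rs_inj p r _ (⟨c, hc⟩, x) (⟨d, hd⟩, y) h
  simpa using this

lemma card_rsSet : (rsSet p r).card = (p - 1) * p := by
  rw [rsSet, Finset.card_image_of_injOn (rs_injOn p r), Finset.card_product,
    Finset.card_erase_of_mem (Finset.mem_univ _), Finset.card_univ, ZMod.card]

lemma zero_notMem_rsSet : (0 : Fin (r + 2) → ZMod p) ∉ rsSet p r := by
  intro h
  rw [rsSet, Finset.mem_image] at h
  obtain ⟨⟨c, x⟩, hc, h⟩ := h
  have h0 := congrFun h 0
  simp [rsVec] at h0 hc
  exact hc h0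

lemma neg_mem_rsSet (s : Fin (r + 2) → ZMod p) (h : s ∈ rsSet p r) : -s ∈ rsSet p r := by
  rw [rsSet, Finset.mem_image] at h ⊢
  obtain ⟨⟨c, x⟩, hc, h⟩ := h
  refine ⟨⟨-c, x⟩, ?_, ?_⟩
  · simpa using hc
  · rw [← h]; simp

omit [Fact p.Prime] in
lemma addChar_map_sum {A ι : Type} [AddCommGroup A] (ψ : AddChar A ℂ) (t : Finset ι) (g : ι → A)
    (h : ∀ i ∈ t, ψ (g i) = 1) : ψ (∑ i ∈ t, g i) = 1 := by
  classical
  induction t using Finset.induction_on with
  | empty => simp
  | insert a t ha ih =>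
    rw [Finset.sum_insert ha, AddChar.map_add_eq_mul, h a (Finset.mem_insert_self a t),
      ih fun i hi => h i (Finset.mem_insert_of_mem hi), one_mul]

/-- A character trivial on `r + 2` distinct lines of the moment curve is trivial. -/
lemma trivial_of_card (ψ : AddChar (Fin (r + 2) → ZMod p) ℂ) (T : Finset (ZMod p))
    (hT : ∀ x ∈ T, ∀ c : ZMod p, ψ (c • rsVec p r x) = 1) (hc : r + 2 ≤ T.card) : ψ = 1 := by
  obtain ⟨e⟩ : Nonempty (Fin (r + 2) ↪ T) :=
    Function.Embedding.nonempty_of_card_le (by simpa using hc)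
  set v : Fin (r + 2) → ZMod p := fun i => (e i : ZMod p) with hv
  have hinj : Function.Injective v := fun i j h => e.injective (Subtype.ext h)
  have hdet : IsUnit (Matrix.vandermonde v).det :=
    isUnit_iff_ne_zero.2 (Matrix.det_vandermonde_ne_zero_iff.2 hinj)
  ext q
  have hq : q = (q ᵥ* (Matrix.vandermonde v)⁻¹) ᵥ* (Matrix.vandermonde v) := by
    rw [Matrix.vecMul_vecMul, Matrix.nonsing_inv_mul _ hdet, Matrix.vecMul_one]
  rw [Matrix.vecMul_eq_sum] at hq
  have hrow : ∀ i, (Matrix.vandermonde v) i = rsVec p r (v i) := by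
    intro i; ext j; simp [Matrix.vandermonde_apply, rsVec]
  rw [hq, AddChar.one_apply]
  refine addChar_map_sum ψ _ _ fun i _ => ?_
  rw [hrow]
  exact hT _ (e i).2 _

lemma rs_bias (hp : 2 * r + 1 ≤ p) (ψ : AddChar (Fin (r + 2) → ZMod p) ℂ) (hψ : ψ ≠ 1) :
    (∑ x ∈ rsSet p r, ψ x).re ≤ ((rsSet p r).card : ℝ) / 2 := by
  classical
  have hp1 : 1 ≤ p := (Fact.out : p.Prime).one_lt.le
  set T : Finset (ZMod p) := Finset.univ.filter fun x => ∀ c : ZMod p, ψ (c • rsVec p r x) = 1
    with hT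
  have hTcard : T.card ≤ r + 1 := by
    by_contra hcon
    push Not at hcon
    apply hψ
    refine trivial_of_card p r ψ T ?_ hcon
    intro x hx
    rw [hT, Finset.mem_filter] at hx
    exact hx.2
  have hsum : ∑ x ∈ rsSet p r, ψ x = ∑ x : ZMod p, (if x ∈ T then ((p : ℂ) - 1) else -1) := by
    rw [rsSet, Finset.sum_image (rs_injOn p r), Finset.sum_product_right]
    refine Finset.sum_congr rfl fun x _ => ?_
    have h1 : ∑ c ∈ Finset.univ.erase (0 : ZMod p), ψ (c • rsVec p r x) =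
        ∑ c : ZMod p, ψ (c • rsVec p r x) - 1 := by
      rw [← Finset.add_sum_erase Finset.univ (fun c : ZMod p => ψ (c • rsVec p r x))
        (Finset.mem_univ 0)]
      simp
    rw [h1]
    set φ : AddChar (ZMod p) ℂ := ψ.compAddMonoidHom
      (LinearMap.toSpanSingleton (ZMod p) (Fin (r + 2) → ZMod p) (rsVec p r x)).toAddMonoidHom
      with hφ
    have hφa : ∀ c, φ c = ψ (c • rsVec p r x) := fun c => rfl
    by_cases hx : x ∈ T
    · rw [if_pos hx]
      rw [hT, Finset.mem_filter] at hx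
      simp [hx.2]
    · rw [if_neg hx]
      have hφ1 : φ ≠ 0 := by
        intro h
        apply hx
        rw [hT, Finset.mem_filter]
        refine ⟨Finset.mem_univ _, fun c => ?_⟩
        rw [← hφa, h]; rfl
      have := AddChar.sum_eq_zero_of_ne_one hφ1
      simp_rw [hφa] at this
      rw [this]; ring
  rw [hsum, card_rsSet, Finset.sum_ite]
  simp only [Finset.sum_const, nsmul_eq_mul]
  have e1 : (Finset.univ.filter fun x => x ∈ T) = T := by ext; simp
  have e2 : (Finset.univ.filter fun x => x ∉ T) = Tᶜ := by ext; simp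
  rw [e1, e2, Finset.card_compl, ZMod.card]
  have hTp : T.card ≤ p := by
    have := Finset.card_le_univ T
    rwa [ZMod.card] at this
  rw [Nat.cast_sub hTp]
  have e3 : ((T.card : ℂ) * ((p : ℂ) - 1) + ((p : ℂ) - (T.card : ℂ)) * (-1)) =
      (((T.card : ℝ) * ((p : ℝ) - 1) + ((p : ℝ) - (T.card : ℝ)) * (-1) : ℝ) : ℂ) := by
    push_cast; ring
  rw [e3, Complex.ofReal_re, Nat.cast_mul, Nat.cast_sub hp1]
  have h1 : (T.card : ℝ) ≤ r + 1 := by exact_mod_cast hTcard
  have h2 : 2 * (r : ℝ) + 1 ≤ p := by exact_mod_cast hp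
  have h3 : (0 : ℝ) ≤ p := by positivity
  push_cast
  nlinarith

end ReedSolomon

section Final

variable {Q H : Type} [AddCommGroup Q] [AddCommGroup H] [Fintype Q] [Fintype H]
  [DecidableEq Q] [DecidableEq H]

lemma genSet_neg (S0 : Finset Q) (h : ∀ x ∈ S0, -x ∈ S0) :
    ∀ g ∈ (genSet S0 : Finset (Q × H)), -g ∈ (genSet S0 : Finset (Q × H)) := by
  intro g hg
  rw [mem_genSet] at hg ⊢
  rcases hg with ⟨h1, h2⟩ | ⟨h1, h2⟩
  · left; exact ⟨h _ h1, by simpa using h2⟩
  · right; exact ⟨by simpa using h1, by simpa using h2⟩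

lemma genSet_zero (S0 : Finset Q) : (0 : Q × H) ∉ genSet S0 := by
  rw [mem_genSet]; simp

lemma genSet_closure (S0 : Finset Q) (hne : S0.Nonempty) :
    AddSubgroup.closure ((genSet S0 : Finset (Q × H)) : Set (Q × H)) = ⊤ := by
  obtain ⟨a, ha⟩ := hne
  rw [eq_top_iff]
  rintro ⟨x, y⟩ -
  have hQ : ∀ z : Q, ((z, 0) : Q × H) ∈
      AddSubgroup.closure ((genSet S0 : Finset (Q × H)) : Set (Q × H)) := by
    intro z
    by_cases hz : z = 0
    · subst hz; exact AddSubgroup.zero_mem _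
    · apply AddSubgroup.subset_closure
      rw [Finset.mem_coe, mem_genSet]
      right; exact ⟨hz, rfl⟩
  have hH : ∀ w : H, ((0, w) : Q × H) ∈
      AddSubgroup.closure ((genSet S0 : Finset (Q × H)) : Set (Q × H)) := by
    intro w
    by_cases hw : w = 0
    · subst hw; exact AddSubgroup.zero_mem _
    · have h1 : ((a, w) : Q × H) ∈
          AddSubgroup.closure ((genSet S0 : Finset (Q × H)) : Set (Q × H)) := by
        apply AddSubgroup.subset_closure
        rw [Finset.mem_coe, mem_genSet]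
        left; exact ⟨ha, hw⟩
      have := AddSubgroup.sub_mem _ h1 (hQ a)
      simpa using this
  have := AddSubgroup.add_mem _ (hQ x) (hH y)
  simpa using this

/-- All the quantitative information about one walk of the family. -/
lemma walk_bounds (S0 : Finset Q) (h0 : (0 : Q) ∉ S0) (s q h k L : ℝ)
    (hs : s = ((genSet S0 : Finset (Q × H)).card : ℝ))
    (hq : q = Fintype.card Q) (hh : h = Fintype.card H) (hk : k = S0.card)
    (hL : 40 ≤ L) (hkq : k + 1 ≤ q) (hkh1 : L * q ≤ 2 * (k * h)) (hkh2 : k * h ≤ L * q)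
    (hpow : ∀ t : ℕ, (t : ℝ) ≤ L + 1 → (k + 1) ^ t / q ≤ 1 / 8)
    (hbias : ∀ ψ : AddChar Q ℂ, ψ ≠ 1 → (∑ x ∈ S0, ψ x).re ≤ k / 2) :
    (L / 8 ≤ (tMix (lazyWalk (genSet S0 : Finset (Q × H))) (unif (Q × H)) (1 / 4) : ℝ) /
        tRel (lazyWalk (genSet S0 : Finset (Q × H)))) ∧
    (21 / 20 ≤ (tMix (lazyWalk (genSet S0 : Finset (Q × H))) (unif (Q × H)) (1 / 4) : ℝ) /
        (tMix (lazyWalk (genSet S0 : Finset (Q × H))) (unif (Q × H)) (1 - 1 / 4) : ℝ)) := by
  have hcard : s = k * (h - 1) + (q - 1) := by rw [hs, hk, hq, hh, card_genSet]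
  have hqpos : 1 ≤ q := by rw [hq]; exact_mod_cast Fintype.card_pos
  have hk0 : 0 ≤ k := by rw [hk]; positivity
  have hsge : k * h ≤ s := by rw [hcard]; linarith
  have hsle : s ≤ (L + 1) * q := by rw [hcard]; nlinarith
  have hs2 : s ≤ 2 * (k * h) := by rw [hcard]; nlinarith
  have hs1 : 1 ≤ s := by nlinarith
  have hbig : k + q ≤ s / 2 := by nlinarith
  set P := lazyWalk (genSet S0 : Finset (Q × H)) with hP
  set d := dTV P (unif (Q × H)) with hd
  set Λ := s / q with hΛ
  have hΛ1 : L / 2 ≤ Λ := by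
    rw [hΛ, div_le_div_iff₀ (by norm_num) (by linarith)]; nlinarith
  have hΛ2 : Λ ≤ L + 1 := by
    rw [hΛ, div_le_iff₀ (by linarith)]; exact hsle
  have hΛ20 : 20 ≤ Λ := by linarith
  have hβ : q / (2 * s) = 1 / (2 * Λ) := by
    rw [hΛ]; field_simp
  have hβ1 : 1 / (2 * Λ) ≤ 1 := by
    rw [div_le_one (by positivity)]; linarith
  have hup : ∀ t, d t ≤ (1 - 1 / (2 * Λ)) ^ t + (3 / 4) ^ t := by
    intro t
    refine (dTV_le S0 s q h k hs hs1 hq hh hk (by linarith) t).trans ?_
    rw [hβ]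
    have h1 : 0 ≤ 1 - k * h / (2 * s) := by
      rw [sub_nonneg, div_le_one (by positivity)]; linarith
    have h2 : 1 - k * h / (2 * s) ≤ 3 / 4 := by
      rw [sub_le_comm, le_div_iff₀ (by positivity)]; linarith
    have := pow_le_pow_left₀ h1 h2 t
    linarith
  have hlow : ∀ t : ℕ, (t : ℝ) ≤ Λ → 3 / 8 ≤ d t := by
    intro t ht
    have h1 := le_dTV_walk (H := H) S0 h0 s q k hs hs1 hq hk (by linarith) t
    rw [hβ] at h1
    have h2 := hpow t (ht.trans hΛ2)
    have h3 : 1 + (t : ℝ) * (-(1 / (2 * Λ))) ≤ (1 + (-(1 / (2 * Λ)))) ^ t :=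
      one_add_mul_le_pow (by linarith) t
    have h4 : (t : ℝ) * (1 / (2 * Λ)) ≤ 1 / 2 := by
      rw [mul_one_div, div_le_div_iff₀ (by positivity) (by norm_num)]; linarith
    rw [← sub_eq_add_neg] at h3
    linarith
  have hlow0 : 7 / 8 ≤ d 0 := by
    have h1 := le_dTV_walk (H := H) S0 h0 s q k hs hs1 hq hk (by linarith) 0
    have h2 := hpow 0 (by push_cast; linarith)
    simp only [pow_zero] at h1 h2
    linarith
  -- an explicit time with small distance
  have htend : ∀ ε : ℝ, 0 < ε → ({t : ℕ | d t ≤ ε}).Nonempty := by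
    intro ε hε
    have hlim : Tendsto (fun t : ℕ => (1 - 1 / (2 * Λ)) ^ t + (3 / 4 : ℝ) ^ t) atTop
        (𝓝 (0 + 0)) := by
      refine Tendsto.add (tendsto_pow_atTop_nhds_zero_of_lt_one (by linarith) ?_)
        (tendsto_pow_atTop_nhds_zero_of_lt_one (by norm_num) (by norm_num))
      have : 0 < 1 / (2 * Λ) := by positivity
      linarith
    rw [add_zero] at hlim
    obtain ⟨t, ht⟩ := (hlim.eventually (gt_mem_nhds hε)).exists
    exact ⟨t, (hup t).trans ht.le⟩
  have hT14 : Λ < (tMix P (unif (Q × H)) (1 / 4) : ℝ) := by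
    have hmem := Nat.sInf_mem (htend (1 / 4) (by norm_num))
    by_contra hcon
    push Not at hcon
    have := hlow _ hcon
    change dTV P (unif (Q × H)) (tMix P (unif (Q × H)) (1 / 4)) ≤ 1 / 4 at hmem
    linarith
  have hT34 : (tMix P (unif (Q × H)) (1 - 1 / 4) : ℝ) ≤ 9 / 10 * Λ + 1 := by
    have hexp : Real.exp (-(9 / 20)) ≤ 13 / 20 := by
      rw [Real.exp_neg, inv_le_comm₀ (Real.exp_pos _) (by norm_num)]
      have := Real.quadratic_le_exp_of_nonneg (x := 9 / 20) (by norm_num)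
      norm_num at this ⊢
      linarith
    set t0 := ⌈9 / 10 * Λ⌉₊ with ht0
    have ht0' : 9 / 10 * Λ ≤ (t0 : ℝ) := Nat.le_ceil _
    have ht0'' : (t0 : ℝ) < 9 / 10 * Λ + 1 := Nat.ceil_lt_add_one (by positivity)
    have h1 : (1 - 1 / (2 * Λ)) ^ t0 ≤ Real.exp (-(9 / 20)) := by
      calc (1 - 1 / (2 * Λ)) ^ t0 ≤ (Real.exp (-(1 / (2 * Λ)))) ^ t0 := by
            refine pow_le_pow_left₀ (by linarith) ?_ t0
            have := Real.add_one_le_exp (-(1 / (2 * Λ)))
            linarith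
        _ = Real.exp (t0 * (-(1 / (2 * Λ)))) := by rw [← Real.exp_nat_mul]
        _ ≤ Real.exp (-(9 / 20)) := by
            apply Real.exp_le_exp.2
            have : 9 / 20 ≤ (t0 : ℝ) * (1 / (2 * Λ)) := by
              rw [mul_one_div, div_le_div_iff₀ (by norm_num) (by positivity)]; linarith
            linarith
    have h2 : (3 / 4 : ℝ) ^ t0 ≤ (3 / 4) ^ 9 := by
      apply pow_le_pow_of_le_one (by norm_num) (by norm_num)
      have : (9 : ℝ) ≤ t0 := by linarith
      exact_mod_cast this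
    have h3 : d t0 ≤ 1 - 1 / 4 := by
      refine (hup t0).trans ?_
      have : (3 / 4 : ℝ) ^ 9 ≤ 1 / 10 := by norm_num
      linarith
    have h4 : tMix P (unif (Q × H)) (1 - 1 / 4) ≤ t0 := Nat.sInf_le h3
    have h5 : (tMix P (unif (Q × H)) (1 - 1 / 4) : ℝ) ≤ t0 := by exact_mod_cast h4
    linarith
  have hT34pos : (0 : ℝ) < (tMix P (unif (Q × H)) (1 - 1 / 4) : ℝ) := by
    have hmem := Nat.sInf_mem (htend (1 - 1 / 4) (by norm_num))
    have : tMix P (unif (Q × H)) (1 - 1 / 4) ≠ 0 := by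
      intro h
      change d (tMix P (unif (Q × H)) (1 - 1 / 4)) ≤ 1 - 1 / 4 at hmem
      rw [h] at hmem
      linarith
    exact_mod_cast Nat.pos_of_ne_zero this
  have hlam : lambda2 P ≤ 3 / 4 := by
    refine Real.sSup_le ?_ (by norm_num)
    rintro μ ⟨hμ, f, hf, hev⟩
    exact eigen_le S0 s q h k hs hs1 hq hh hk hbig hbias μ hμ f hf hev
  constructor
  · rw [tRel, div_div_eq_mul_div, div_one]
    have h1 : L / 8 ≤ Λ * (1 / 4) := by linarith
    refine h1.trans ?_
    exact mul_le_mul hT14.le (by linarith) (by norm_num) (Nat.cast_nonneg _)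
  · rw [le_div_iff₀ hT34pos]
    nlinarith

/-- The prime used at index `n`. -/
noncomputable def pr (n : ℕ) : ℕ := (Nat.exists_infinite_primes (8 * (n + 40) + 1)).choose

lemma pr_ge (n : ℕ) : 8 * (n + 40) + 1 ≤ pr n :=
  (Nat.exists_infinite_primes (8 * (n + 40) + 1)).choose_spec.1

instance pr_prime (n : ℕ) : Fact (pr n).Prime :=
  ⟨(Nat.exists_infinite_primes (8 * (n + 40) + 1)).choose_spec.2⟩

/-- The modulus of the second factor at index `n`. -/
noncomputable def md (n : ℕ) : ℕ := (n + 40) * pr n ^ (4 * (n + 40))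

instance md_ne (n : ℕ) : NeZero (md n) := ⟨by
  have := (pr_prime n).out.pos
  unfold md; positivity⟩

lemma md_cast (n : ℕ) : (md n : ℝ) = ((n : ℝ) + 40) * (pr n : ℝ) ^ (4 * (n + 40)) := by
  generalize h : 4 * (n + 40) = e
  simp only [md, h, Nat.cast_mul, Nat.cast_pow, Nat.cast_add, Nat.cast_ofNat]

lemma bounds_n (n : ℕ) :
    (((n : ℝ) + 40) / 8 ≤
      (tMix (lazyWalk (genSet (rsSet (pr n) (4 * (n + 40))) :
          Finset ((Fin (4 * (n + 40) + 2) → ZMod (pr n)) × ZMod (md n))))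
        (unif ((Fin (4 * (n + 40) + 2) → ZMod (pr n)) × ZMod (md n))) (1 / 4) : ℝ) /
        tRel (lazyWalk (genSet (rsSet (pr n) (4 * (n + 40))) :
          Finset ((Fin (4 * (n + 40) + 2) → ZMod (pr n)) × ZMod (md n))))) ∧
    (21 / 20 ≤ (tMix (lazyWalk (genSet (rsSet (pr n) (4 * (n + 40))) :
          Finset ((Fin (4 * (n + 40) + 2) → ZMod (pr n)) × ZMod (md n))))
        (unif ((Fin (4 * (n + 40) + 2) → ZMod (pr n)) × ZMod (md n))) (1 / 4) : ℝ) /
        (tMix (lazyWalk (genSet (rsSet (pr n) (4 * (n + 40))) :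
          Finset ((Fin (4 * (n + 40) + 2) → ZMod (pr n)) × ZMod (md n))))
        (unif ((Fin (4 * (n + 40) + 2) → ZMod (pr n)) × ZMod (md n))) (1 - 1 / 4) : ℝ)) := by
  set p := pr n with hp
  set r := 4 * (n + 40) with hr
  have hpge : 8 * (n + 40) + 1 ≤ p := pr_ge n
  have hp1 : 1 ≤ p := by omega
  have hp2 : (2 : ℝ) ≤ p := by
    have : 2 ≤ p := by omega
    exact_mod_cast this
  have hcardQ : (Fintype.card (Fin (r + 2) → ZMod p) : ℝ) = (p : ℝ) ^ (r + 2) := by
    rw [Fintype.card_fun, Fintype.card_fin, ZMod.card, Nat.cast_pow]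
  have hcardH : (Fintype.card (ZMod (md n)) : ℝ) = ((n : ℝ) + 40) * (p : ℝ) ^ r := by
    rw [ZMod.card]
    exact md_cast n
  have hk : ((rsSet p r).card : ℝ) = ((p : ℝ) - 1) * p := by
    rw [card_rsSet, Nat.cast_mul, Nat.cast_sub hp1]; simp
  have hpr0 : (0 : ℝ) < (p : ℝ) ^ r := by positivity
  have hkp : ((rsSet p r).card : ℝ) + 1 ≤ (p : ℝ) ^ 2 := by
    rw [hk]
    have : (p : ℝ) ^ 2 = ((p : ℝ) - 1) * p + p := by ring
    rw [this]
    linarith only [hp2]
  refine walk_bounds (rsSet p r) (zero_notMem_rsSet p r) _ _ _ _ ((n : ℝ) + 40) rfl rfl rfl rfl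
    (by have : (0 : ℝ) ≤ n := Nat.cast_nonneg n
        linarith) ?_ ?_ ?_ ?_ ?_
  · rw [hcardQ]
    refine hkp.trans ?_
    exact pow_le_pow_right₀ (by linarith) (by omega)
  · rw [hcardQ, hcardH, hk]
    have h1 : 2 * (((p : ℝ) - 1) * p * (((n : ℝ) + 40) * (p : ℝ) ^ r)) =
        ((n : ℝ) + 40) * ((2 * (p - 1)) * (p * (p : ℝ) ^ r)) := by ring
    have h2 : ((n : ℝ) + 40) * (p : ℝ) ^ (r + 2) = ((n : ℝ) + 40) * (p * (p * (p : ℝ) ^ r)) := by
      ring
    rw [h1, h2]
    refine mul_le_mul_of_nonneg_left (mul_le_mul_of_nonneg_right ?_ (by positivity))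
      (by positivity)
    linarith
  · rw [hcardQ, hcardH, hk]
    have h1 : (((p : ℝ) - 1) * p * (((n : ℝ) + 40) * (p : ℝ) ^ r)) =
        ((n : ℝ) + 40) * ((p - 1) * (p * (p : ℝ) ^ r)) := by ring
    have h2 : ((n : ℝ) + 40) * (p : ℝ) ^ (r + 2) = ((n : ℝ) + 40) * (p * (p * (p : ℝ) ^ r)) := by
      ring
    rw [h1, h2]
    refine mul_le_mul_of_nonneg_left (mul_le_mul_of_nonneg_right ?_ (by positivity))
      (by positivity)
    linarith
  · intro t ht
    have ht' : t ≤ n + 40 + 1 := by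
      have : (t : ℝ) ≤ ((n + 40 + 1 : ℕ) : ℝ) := by push_cast; linarith
      exact_mod_cast this
    rw [hcardQ, div_le_iff₀ (by positivity)]
    calc ((rsSet p r).card + 1 : ℝ) ^ t ≤ ((p : ℝ) ^ 2) ^ t :=
          pow_le_pow_left₀ (by positivity) hkp t
      _ = (p : ℝ) ^ (2 * t) := by rw [pow_mul]
      _ ≤ (p : ℝ) ^ (r - 1) := pow_le_pow_right₀ (by linarith) (by omega)
      _ = (1 / 8) * ((2 : ℝ) ^ 3 * (p : ℝ) ^ (r - 1)) := by ring
      _ ≤ (1 / 8) * ((p : ℝ) ^ 3 * (p : ℝ) ^ (r - 1)) := by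
          refine mul_le_mul_of_nonneg_left (mul_le_mul_of_nonneg_right ?_ (by positivity))
            (by norm_num)
          exact pow_le_pow_left₀ (by norm_num) hp2 3
      _ = 1 / 8 * (p : ℝ) ^ (r + 2) := by
          rw [← pow_add]; congr 2; omega
  · intro ψ hψ
    exact rs_bias p r (by omega) ψ hψ

end Final

end Pool.Agent.Helper95.Cutoff
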