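import Pool.Agent.Helper95.DomPers

/-!
Lower bounds for the probability that the functionals stay nonnegative on a block of unit length.
-/

namespace Pool.Agent.Helper95.Dom

open MeasureTheory ProbabilityTheory Filter
open scoped Topology

theorem find_cell (τ : ℕ → ℕ) {n t : ℕ} (hn : 1 ≤ n) (h0 : τ 0 ≤ t) (h1 : t ≤ τ n) :
    ∃ i < n, τ i ≤ t ∧ t ≤ τ (i + 1) := by
  induction n, hn using Nat.le_induction with
  | base => exact ⟨0, by norm_num, h0, h1⟩
  | succ k hk ih =>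
    rcases le_or_gt t (τ k) with h | h
    · obtain ⟨i, h2, h3, h4⟩ := ih h
      exact ⟨i, by omega, h3, h4⟩
    · exact ⟨k, by omega, h.le, h1⟩

theorem NS_dep (t T : ℕ) (ω ω' : Om) (h : ∀ s ∈ Finset.Ioc t T, ω s = ω' s) :
    NS t T ω = NS t T ω' := by
  unfold NS
  exact Finset.sum_congr rfl fun s hs => xs_dep s ω ω' (h s hs)

theorem NS_mono (t T : ℕ) (ω ω' : Om) (h : ∀ s ∈ Finset.Ioc t T, xs s ω ≤ xs s ω') :
    NS t T ω ≤ NS t T ω' := by
  unfold NS
  exact Finset.sum_le_sum fun s hs => h s hs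

theorem cellA {a : ℝ} (ha : 0 < a) {t0 t1 : ℕ} (h01 : t0 ≤ t1) (hta : a ≤ t0) {H : ℝ}
    (hH : (t1 : ℝ) - t0 ≤ H) {y : ℝ} (hy : 0 < y) :
    (PA a).real {ω | ∃ t, t0 ≤ t ∧ t ≤ t1 ∧ y ≤ |NS t t1 ω|}
      ≤ H * (6 * Real.exp (-(t0 / a))) / y ^ 2 := by
  refine (kolm ha t1 t0 h01 hy).trans ?_
  apply div_le_div_of_nonneg_right _ (by positivity)
  calc ∑ s ∈ Finset.Ioc t0 t1, vv (mu a) s
      ≤ ∑ s ∈ Finset.Ioc t0 t1, 6 * Real.exp (-(t0 / a)) := by
        apply Finset.sum_le_sum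
        intro s hs
        simp only [Finset.mem_Ioc] at hs
        have h1 : (t0 : ℝ) ≤ s := by exact_mod_cast hs.1.le
        refine (vv_le_six ha (hta.trans h1)).trans ?_
        apply mul_le_mul_of_nonneg_left _ (by norm_num)
        apply Real.exp_le_exp.2
        apply neg_le_neg
        exact div_le_div_of_nonneg_right h1 ha.le
    _ = ((t1 : ℝ) - t0) * (6 * Real.exp (-(t0 / a))) := by
        rw [Finset.sum_const, Nat.card_Ioc, nsmul_eq_mul, Nat.cast_sub h01]
    _ ≤ _ := mul_le_mul_of_nonneg_right hH (by positivity)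

theorem cellB {a : ℝ} (ha : 0 < a) {t0 t1 : ℕ} (h01 : t0 ≤ t1) (ht0 : 1 ≤ t0) {H : ℝ}
    (hH : (t1 : ℝ) - t0 ≤ H) {y : ℝ} (hy : 0 < y) :
    (PA a).real {ω | ∃ t, t0 ≤ t ∧ t ≤ t1 ∧ y ≤ |NS t t1 ω|}
      ≤ H * (2 * a ^ 2 / (t0 : ℝ) ^ 2) / y ^ 2 := by
  have ht0' : (0 : ℝ) < t0 := by exact_mod_cast ht0
  refine (kolm ha t1 t0 h01 hy).trans ?_
  apply div_le_div_of_nonneg_right _ (by positivity)
  calc ∑ s ∈ Finset.Ioc t0 t1, vv (mu a) s
      ≤ ∑ s ∈ Finset.Ioc t0 t1, 2 * a ^ 2 / (t0 : ℝ) ^ 2 := by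
        apply Finset.sum_le_sum
        intro s hs
        simp only [Finset.mem_Ioc] at hs
        have h1 : (t0 : ℝ) ≤ s := by exact_mod_cast hs.1.le
        refine (vv_le ha s).trans ?_
        apply div_le_div_of_nonneg_left (by positivity) (by positivity)
        exact pow_le_pow_left₀ ht0'.le h1 2
    _ = ((t1 : ℝ) - t0) * (2 * a ^ 2 / (t0 : ℝ) ^ 2) := by
        rw [Finset.sum_const, Nat.card_Ioc, nsmul_eq_mul, Nat.cast_sub h01]
    _ ≤ _ := mul_le_mul_of_nonneg_right hH (by positivity)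

/-- block event for the large parts. -/
def blkA (a u : ℝ) (S l : ℕ) : Set Om :=
  {ω | ∀ t, ⌊a * u⌋₊ ≤ t → t ≤ ⌊a * (u + l)⌋₊ → 0 ≤ DA S t ω}

/-- block event for the small parts. -/
def blkB (u : ℝ) (T l : ℕ) : Set Om :=
  {ω | ∀ t, ⌊Real.exp u⌋₊ ≤ t → t ≤ ⌊Real.exp (u + l)⌋₊ → 0 ≤ GB T t ω}

theorem tA_zero (a u : ℝ) (m : ℕ) : tA a u m 0 = ⌊a * u⌋₊ := by simp [tA]

theorem tA_last {m : ℕ} (hm : 1 ≤ m) (a u : ℝ) (l : ℕ) : tA a u m (l * m) = ⌊a * (u + l)⌋₊ := by
  unfold tA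
  congr 3
  have : (m : ℝ) ≠ 0 := by positivity
  push_cast
  field_simp

theorem tB_zero (u : ℝ) (m : ℕ) : tB u m 0 = ⌊Real.exp u⌋₊ := by simp [tB]

theorem tB_last {m : ℕ} (hm : 1 ≤ m) (u : ℝ) (l : ℕ) : tB u m (l * m) = ⌊Real.exp (u + l)⌋₊ := by
  unfold tB
  congr 3
  have : (m : ℝ) ≠ 0 := by positivity
  push_cast
  field_simp

theorem bA_anti {a : ℝ} (ha : 0 < a) {t t' : ℕ} (h : t ≤ t') : bA a t' ≤ bA a t := by
  unfold bA
  apply mul_le_mul_of_nonneg_left _ (by positivity)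
  apply Real.exp_le_exp.2
  apply neg_le_neg
  apply div_le_div_of_nonneg_right _ (by positivity)
  exact_mod_cast h

theorem bB_mono {a : ℝ} (ha : 0 < a) {t t' : ℕ} (h : t ≤ t') : bB a t ≤ bB a t' := by
  unfold bB
  apply mul_le_mul_of_nonneg_left _ (by positivity)
  apply Real.sqrt_le_sqrt
  exact_mod_cast h

theorem exp_two_lt : Real.exp 2 < 7.4 := by
  have h1 := Real.exp_one_lt_d9
  have h2 : Real.exp 2 = Real.exp 1 * Real.exp 1 := by rw [← Real.exp_add]; norm_num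
  rw [h2]
  have h3 := Real.exp_pos 1
  nlinarith

theorem blkA_ge {a u x : ℝ} {S m l : ℕ} (hm : 1 ≤ m) (hl : 1 ≤ l) (hma : (m : ℝ) ≤ a) (hu : 2 ≤ u)
    (hS : ⌊a * (u + l)⌋₊ ≤ S) (hx : 0 < x) :
    (PA a).real (meshA a u S m l x) - 400 * l / (x ^ 2 * m ^ 2) ≤ (PA a).real (blkA a u S l) := by
  have hm1 : (1 : ℝ) ≤ m := by exact_mod_cast hm
  have hm0 : (0 : ℝ) < m := by linarith
  have ha1 : 1 ≤ a := hm1.trans hma
  have ha : 0 < a := by linarith
  set H := 2 * a / m with hH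
  have hH0 : 0 < H := by positivity
  set τ : ℕ → ℕ := fun i => tA a u m i with hτ
  set y : ℕ → ℝ := fun i => x * bA a (τ (i + 1)) / (2 * H) with hy
  have hy0 : ∀ i, 0 < y i := fun i => by
    have := bA_pos ha (τ (i + 1))
    simp only [hy]; positivity
  set bad : ℕ → Set Om := fun i => {ω | ∃ t, τ i ≤ t ∧ t ≤ τ (i + 1) ∧ y i ≤ |NS t (τ (i + 1)) ω|}
    with hbad
  have hmono : ∀ i, τ i ≤ τ (i + 1) := fun i => tA_mono ha m (Nat.le_succ i)
  have hgap : ∀ i, ((τ (i + 1) : ℕ) : ℝ) - τ i ≤ H := by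
    intro i
    have h1 := (tA_bounds ha (by linarith : (0 : ℝ) ≤ u) m (i + 1)).2
    have h2 := (tA_bounds ha (by linarith : (0 : ℝ) ≤ u) m i).1
    have h3 : a * (u + ((i + 1 : ℕ) : ℝ) / m) - (a * (u + (i : ℝ) / m) - 1) = a / m + 1 := by
      push_cast
      field_simp
      ring
    have h4 : (1 : ℝ) ≤ a / m := by rw [le_div_iff₀ hm0]; linarith
    have h5 : H = a / m + a / m := by rw [hH]; ring
    simp only [hτ]
    linarith
  have hlow : ∀ i, a ≤ (τ i : ℝ) := by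
    intro i
    have h2 := (tA_bounds ha (by linarith : (0 : ℝ) ≤ u) m i).1
    have h3 : a * 2 ≤ a * (u + (i : ℝ) / m) := by
      apply mul_le_mul_of_nonneg_left _ ha.le
      have : (0 : ℝ) ≤ (i : ℝ) / m := by positivity
      linarith
    simp only [hτ]
    linarith
  have hbadP : ∀ i, (PA a).real (bad i) ≤ 400 / (x ^ 2 * m ^ 3) := by
    intro i
    refine (cellA ha (hmono i) (hlow i) (hgap i) (hy0 i)).trans ?_
    have h1 : (y i) ^ 2 = x ^ 2 * (4 * a ^ 3 * Real.exp (-(τ (i + 1) / a))) / (4 * H ^ 2) := by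
      simp only [hy]
      rw [div_pow, mul_pow, mul_pow]
      have : bA a (τ (i + 1)) ^ 2 = 4 * a ^ 3 * Real.exp (-(τ (i + 1) / a)) := by
        rw [sq, bA_mul ha]
        congr 2
        field_simp
        ring
      rw [this]
      ring
    rw [h1]
    have h2 : Real.exp (-((τ i : ℝ) / a)) ≤ 7.4 * Real.exp (-((τ (i + 1) : ℝ) / a)) := by
      have h3 : Real.exp (-((τ i : ℝ) / a)) = Real.exp (((τ (i + 1) : ℝ) - τ i) / a)
          * Real.exp (-((τ (i + 1) : ℝ) / a)) := by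
        rw [← Real.exp_add]
        congr 1
        ring
      rw [h3]
      apply mul_le_mul_of_nonneg_right _ (Real.exp_pos _).le
      refine le_trans (Real.exp_le_exp.2 ?_) exp_two_lt.le
      rw [div_le_iff₀ ha]
      refine (hgap i).trans ?_
      rw [hH, div_le_iff₀ hm0]
      nlinarith
    set E := Real.exp (-((τ (i + 1) : ℝ) / a)) with hE
    have hE0 : 0 < E := Real.exp_pos _
    calc H * (6 * Real.exp (-((τ i : ℝ) / a))) / (x ^ 2 * (4 * a ^ 3 * E) / (4 * H ^ 2))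
        ≤ H * (6 * (7.4 * E)) / (x ^ 2 * (4 * a ^ 3 * E) / (4 * H ^ 2)) := by
          apply div_le_div_of_nonneg_right _ (by positivity)
          apply mul_le_mul_of_nonneg_left _ hH0.le
          linarith
      _ = 44.4 * (H / a) ^ 3 / x ^ 2 := by field_simp; norm_num
      _ = 355.2 / (x ^ 2 * m ^ 3) := by
          rw [hH]
          field_simp
          norm_num
      _ ≤ _ := by
          apply div_le_div_of_nonneg_right _ (by positivity)
          norm_num
  have hsub : meshA a u S m l x ⊆ blkA a u S l ∪ ⋃ i ∈ Finset.range (l * m), bad i := by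
    intro ω hω
    by_contra hcon
    rw [Set.mem_union, not_or] at hcon
    obtain ⟨c1, c2⟩ := hcon
    apply c1
    intro t ht0 ht1
    rw [← tA_zero a u m] at ht0
    rw [← tA_last hm] at ht1
    obtain ⟨i, hi, h1, h2⟩ := find_cell τ (Nat.mul_pos hl hm) ht0 ht1
    have hnb : ω ∉ bad i := by
      intro h
      apply c2
      rw [Set.mem_iUnion₂]
      exact ⟨i, Finset.mem_range.2 hi, h⟩
    have hnb' : ∀ t, τ i ≤ t → t ≤ τ (i + 1) → |NS t (τ (i + 1)) ω| ≤ y i := by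
      intro t h3 h4
      by_contra h5
      push Not at h5
      exact hnb ⟨t, h3, h4, h5.le⟩
    have hSi : τ (i + 1) ≤ S := by
      refine le_trans ?_ hS
      rw [← tA_last hm]
      exact tA_mono ha m (by omega)
    have hI := interp (fun t => DA S t ω) (fun t => RR t (τ (i + 1)) ω) (NS (τ (i + 1)) S ω)
      (t0 := τ i) (t1 := τ (i + 1)) (fun t _ h4 => DA_split h4 hSi ω) t h1 h2
    have hR1 := RR_bound (hy0 i).le ω hnb' t h1 h2
    have hR2 := RR_bound (hy0 i).le ω hnb' (τ i) le_rfl (h1.trans h2)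
    have hHy : (((τ (i + 1) : ℕ) : ℝ) - τ i) * y i ≤ x * bA a (τ (i + 1)) / 2 := by
      calc (((τ (i + 1) : ℕ) : ℝ) - τ i) * y i ≤ H * y i :=
            mul_le_mul_of_nonneg_right (hgap i) (hy0 i).le
        _ = x * bA a (τ (i + 1)) / 2 := by simp only [hy]; field_simp
    have hm1' : x * bA a (τ (i + 1)) ≤ min (DA S (τ i) ω) (DA S (τ (i + 1)) ω) := by
      apply le_min
      · refine le_trans ?_ (hω i (by omega))
        exact mul_le_mul_of_nonneg_left (bA_anti ha (hmono i)) hx.le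
      · exact hω (i + 1) (by omega)
    linarith
  have h1 : (PA a).real (meshA a u S m l x) ≤ (PA a).real (blkA a u S l)
      + ∑ i ∈ Finset.range (l * m), (PA a).real (bad i) := by
    refine (measureReal_mono hsub (measure_ne_top _ _)).trans ?_
    refine (measureReal_union_le _ _).trans ?_
    apply add_le_add le_rfl
    exact measureReal_biUnion_finset_le _ _
  have h2 : ∑ i ∈ Finset.range (l * m), (PA a).real (bad i) ≤ 400 * l / (x ^ 2 * m ^ 2) := by
    calc ∑ i ∈ Finset.range (l * m), (PA a).real (bad i)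
        ≤ ∑ i ∈ Finset.range (l * m), 400 / (x ^ 2 * m ^ 3) := Finset.sum_le_sum fun i _ => hbadP i
      _ = 400 * l / (x ^ 2 * m ^ 2) := by
          rw [Finset.sum_const, Finset.card_range, nsmul_eq_mul]
          push_cast
          field_simp
  linarith

theorem exp_le_two {x : ℝ} (h0 : 0 ≤ x) (h1 : x ≤ 1) : Real.exp x ≤ 1 + 2 * x := by
  have h := Real.abs_exp_sub_one_sub_id_le (x := x) (by rw [abs_of_nonneg h0]; exact h1)
  have h2 := (abs_le.1 h).2
  nlinarith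

theorem blkB_ge {a u x : ℝ} {T m l : ℕ} (ha : 0 < a) (hm : 1 ≤ m) (hl : 1 ≤ l)
    (hu : 2 * (m : ℝ) + 1 ≤ Real.exp u) (hT : ⌊Real.exp (u + l)⌋₊ ≤ T) (hx : 0 < x) :
    (PA a).real (meshB a u T m l x) - 400 * l / (x ^ 2 * m ^ 2) ≤ (PA a).real (blkB u T l) := by
  have hm1 : (1 : ℝ) ≤ m := by exact_mod_cast hm
  have hm0 : (0 : ℝ) < m := by linarith
  set τ : ℕ → ℕ := fun i => tB u m i with hτ
  have hmono : ∀ i, τ i ≤ τ (i + 1) := fun i => tB_mono u m (Nat.le_succ i)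
  have hlow : ∀ i, 2 * (m : ℝ) ≤ (τ i : ℝ) := by
    intro i
    have h2 := (tB_bounds u m i).1
    have h3 : Real.exp u ≤ Real.exp (u + (i : ℝ) / m) := by
      apply Real.exp_le_exp.2
      have : (0 : ℝ) ≤ (i : ℝ) / m := by positivity
      linarith
    simp only [hτ]
    linarith
  have hpos : ∀ i, (0 : ℝ) < τ i := fun i => by linarith [hlow i]
  have hone : ∀ i, 1 ≤ τ i := fun i => by exact_mod_cast (hpos i)
  set H : ℕ → ℝ := fun i => 4 * τ i / m with hH
  have hH0 : ∀ i, 0 < H i := fun i => by have := hpos i; simp only [hH]; positivity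
  set y : ℕ → ℝ := fun i => x * bB a (τ i) / (2 * H i) with hy
  have hy0 : ∀ i, 0 < y i := fun i => by
    have := bB_pos ha (hone i)
    have := hH0 i
    simp only [hy]; positivity
  set bad : ℕ → Set Om := fun i => {ω | ∃ t, τ i ≤ t ∧ t ≤ τ (i + 1) ∧ y i ≤ |NS t (τ (i + 1)) ω|}
    with hbad
  have hgap : ∀ i, ((τ (i + 1) : ℕ) : ℝ) - τ i ≤ H i := by
    intro i
    have h1 := (tB_bounds u m (i + 1)).2
    have h2 := (tB_bounds u m i).1
    have h3 : Real.exp (u + ((i + 1 : ℕ) : ℝ) / m) = Real.exp (u + (i : ℝ) / m)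
        * Real.exp (1 / (m : ℝ)) := by
      rw [← Real.exp_add]
      congr 1
      push_cast
      ring
    have h4 : Real.exp (1 / (m : ℝ)) ≤ 1 + 2 * (1 / (m : ℝ)) :=
      exp_le_two (by positivity) (by rw [div_le_one hm0]; exact hm1)
    have h5 := hlow i
    have h6 : (1 : ℝ) / m ≤ 1 := by rw [div_le_one hm0]; exact hm1
    have h7 : (1 : ℝ) / m * τ i ≥ 2 := by
      rw [ge_iff_le, div_mul_eq_mul_div, one_mul, le_div_iff₀ hm0]
      exact h5
    have h8 : H i = 4 * ((1 : ℝ) / m * τ i) := by simp only [hH]; ring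
    have h9 : Real.exp (u + (i : ℝ) / m) * Real.exp (1 / (m : ℝ))
        ≤ ((τ i : ℝ) + 1) * (1 + 2 * (1 / (m : ℝ))) := by
      apply mul_le_mul _ h4 (Real.exp_pos _).le (by positivity)
      simp only [hτ]
      linarith
    simp only [hτ] at h7 h8 h9 ⊢
    rw [h8]
    rw [h3] at h1
    nlinarith
  have hbadP : ∀ i, (PA a).real (bad i) ≤ 400 / (x ^ 2 * m ^ 3) := by
    intro i
    refine (cellB ha (hmono i) (hone i) (hgap i) (hy0 i)).trans ?_
    have hp := hpos i
    have h1 : (y i) ^ 2 = x ^ 2 * (4 * a ^ 2 * τ i) / (4 * H i ^ 2) := by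
      simp only [hy]
      rw [div_pow, mul_pow, mul_pow]
      have : bB a (τ i) ^ 2 = 4 * a ^ 2 * τ i := by
        unfold bB
        rw [mul_pow, Real.sq_sqrt hp.le]
        ring
      rw [this]
      ring
    rw [h1]
    simp only [hH]
    have h2 : 4 * (τ i : ℝ) / m * (2 * a ^ 2 / (τ i : ℝ) ^ 2)
        / (x ^ 2 * (4 * a ^ 2 * τ i) / (4 * (4 * (τ i : ℝ) / m) ^ 2)) = 128 / (x ^ 2 * m ^ 3) := by
      field_simp
      norm_num
    rw [h2]
    apply div_le_div_of_nonneg_right _ (by positivity)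
    norm_num
  have hsub : meshB a u T m l x ⊆ blkB u T l ∪ ⋃ i ∈ Finset.range (l * m), bad i := by
    intro ω hω
    by_contra hcon
    rw [Set.mem_union, not_or] at hcon
    obtain ⟨c1, c2⟩ := hcon
    apply c1
    intro t ht0 ht1
    rw [← tB_zero u m] at ht0
    rw [← tB_last hm] at ht1
    obtain ⟨i, hi, h1, h2⟩ := find_cell τ (Nat.mul_pos hl hm) ht0 ht1
    have hnb : ω ∉ bad i := by
      intro h
      apply c2
      rw [Set.mem_iUnion₂]
      exact ⟨i, Finset.mem_range.2 hi, h⟩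
    have hnb' : ∀ t, τ i ≤ t → t ≤ τ (i + 1) → |NS t (τ (i + 1)) ω| ≤ y i := by
      intro t h3 h4
      by_contra h5
      push Not at h5
      exact hnb ⟨t, h3, h4, h5.le⟩
    have hSi : τ (i + 1) ≤ T := by
      refine le_trans ?_ hT
      rw [← tB_last hm]
      exact tB_mono u m (by omega)
    have hI := interp (fun t => GB T t ω) (fun t => -RR t (τ (i + 1)) ω) (-NS (τ (i + 1)) T ω)
      (t0 := τ i) (t1 := τ (i + 1)) (fun t _ h4 => by rw [GB_split h4 hSi ω]; ring) t h1 h2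
    have hR1 := RR_bound (hy0 i).le ω hnb' t h1 h2
    have hR2 := RR_bound (hy0 i).le ω hnb' (τ i) le_rfl (h1.trans h2)
    have hHy : (((τ (i + 1) : ℕ) : ℝ) - τ i) * y i ≤ x * bB a (τ i) / 2 := by
      calc (((τ (i + 1) : ℕ) : ℝ) - τ i) * y i ≤ H i * y i :=
            mul_le_mul_of_nonneg_right (hgap i) (hy0 i).le
        _ = x * bB a (τ i) / 2 := by
            have := (hH0 i).ne'
            simp only [hy]; field_simp
    have hm1' : x * bB a (τ i) ≤ min (GB T (τ i) ω) (GB T (τ (i + 1)) ω) := by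
      apply le_min
      · exact hω i (by omega)
      · refine le_trans ?_ (hω (i + 1) (by omega))
        exact mul_le_mul_of_nonneg_left (bB_mono ha (hmono i)) hx.le
    simp only [abs_neg] at hI
    linarith
  have h1 : (PA a).real (meshB a u T m l x) ≤ (PA a).real (blkB u T l)
      + ∑ i ∈ Finset.range (l * m), (PA a).real (bad i) := by
    refine (measureReal_mono hsub (measure_ne_top _ _)).trans ?_
    refine (measureReal_union_le _ _).trans ?_
    apply add_le_add le_rfl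
    exact measureReal_biUnion_finset_le _ _
  have h2 : ∑ i ∈ Finset.range (l * m), (PA a).real (bad i) ≤ 400 * l / (x ^ 2 * m ^ 2) := by
    calc ∑ i ∈ Finset.range (l * m), (PA a).real (bad i)
        ≤ ∑ i ∈ Finset.range (l * m), 400 / (x ^ 2 * m ^ 3) := Finset.sum_le_sum fun i _ => hbadP i
      _ = 400 * l / (x ^ 2 * m ^ 2) := by
          rw [Finset.sum_const, Finset.card_range, nsmul_eq_mul]
          push_cast
          field_simp
  linarith

theorem pers_le {m : ℕ} (hm : 1 ≤ m) (l : ℕ) : pers l ≤ persGrid m l := by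
  have h := ciInf_le (f := fun m : ℕ => persGrid (m + 1) l)
    ⟨0, by rintro x ⟨m, rfl⟩; exact gam_nonneg _ _ _⟩ (m - 1)
  rwa [Nat.sub_add_cancel hm] at h

theorem exists_small (l : ℕ) {x δ : ℝ} (hx : 0 < x) (hδ : 0 < δ) : ∃ m : ℕ, 1 ≤ m ∧
    400 * (l : ℝ) / (x ^ 2 * m ^ 2) < δ := by
  obtain ⟨m, hm⟩ := exists_nat_gt (400 * (l : ℝ) / (x ^ 2 * δ) + 1)
  have h0 : (0 : ℝ) ≤ 400 * (l : ℝ) / (x ^ 2 * δ) := by positivity
  have hm1 : (1 : ℝ) < m := by linarith
  refine ⟨m, by exact_mod_cast hm1.le, ?_⟩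
  rw [div_lt_iff₀ (by positivity)]
  have h1 : 400 * (l : ℝ) / (x ^ 2 * δ) < m := by linarith
  rw [div_lt_iff₀ (by positivity)] at h1
  have h2 : (m : ℝ) ≤ (m : ℝ) ^ 2 := by nlinarith
  have h3 := mul_le_mul_of_nonneg_right h2 (by positivity : 0 ≤ x ^ 2 * δ)
  nlinarith

theorem blkA_lower {l : ℕ} (hl : 1 ≤ l) {p : ℝ} (hp : p < pers l) : ∃ K0 : ℝ, 1 ≤ K0 ∧
    ∀ (a u : ℝ) (S : ℕ), K0 ≤ u → K0 ≤ a * Real.exp (-(u + l)) → K0 ≤ S / a - (u + l) →
      p ≤ (PA a).real (blkA a u S l) := by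
  set p' := (p + pers l) / 2 with hp'
  obtain ⟨x, hx, h1⟩ := gam_cont hl (p := p') (q := pers l) (by rw [hp']; linarith)
  set δ := (p' - p) / 2 with hδ
  have hδ0 : 0 < δ := by rw [hδ, hp']; linarith
  obtain ⟨m, hm, h2⟩ := exists_small l (x := x / 2) (δ := δ) (by linarith) hδ0
  obtain ⟨K1, hK1, h3⟩ := meshA_lower m l (x := x / 2) (x' := x) (by linarith) hδ0
  refine ⟨max (max K1 2) m, le_trans hK1 ((le_max_left _ _).trans (le_max_left _ _)), ?_⟩
  intro a u S hu hau hS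
  have hK1' : K1 ≤ max (max K1 2) (m : ℝ) := (le_max_left _ _).trans (le_max_left _ _)
  have hK2' : 2 ≤ max (max K1 2) (m : ℝ) := (le_max_right _ _).trans (le_max_left _ _)
  have hK3' : (m : ℝ) ≤ max (max K1 2) (m : ℝ) := le_max_right _ _
  have hl0 : (0 : ℝ) ≤ l := Nat.cast_nonneg l
  have he : Real.exp (-(u + l)) ≤ Real.exp (-u) := Real.exp_le_exp.2 (by linarith)
  have he1 : Real.exp (-(u + l)) ≤ 1 := Real.exp_le_one_iff.2 (by linarith)
  have he0 := Real.exp_pos (-(u + l))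
  have ha : 0 < a := by
    by_contra hcon
    push Not at hcon
    have := mul_nonpos_of_nonpos_of_nonneg hcon he0.le
    linarith
  have h4 := h3 a u S (by linarith) (by
    have := mul_le_mul_of_nonneg_left he ha.le
    linarith) (by linarith)
  have h5 := h1 m hm (pers_le hm l)
  have h6 := blkA_ge (a := a) (u := u) (x := x / 2) (S := S) hm hl (by nlinarith) (by linarith) (by
    have h7 : a * (u + l) ≤ S := by
      have : u + l ≤ S / a := by linarith
      rw [le_div_iff₀ ha] at this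
      linarith
    exact_mod_cast (Nat.floor_le (mul_nonneg ha.le (by linarith) : (0 : ℝ) ≤ a * (u + l))).trans h7) (by linarith)
  linarith

theorem blkB_lower {l : ℕ} (hl : 1 ≤ l) {p : ℝ} (hp : p < pers l) : ∃ K0 : ℝ, 1 ≤ K0 ∧
    ∀ (a u : ℝ) (T : ℕ), K0 ≤ u → K0 ≤ T * Real.exp (-(u + l)) → (T : ℝ) ≤ a →
      p ≤ (PA a).real (blkB u T l) := by
  set p' := (p + pers l) / 2 with hp'
  obtain ⟨x, hx, h1⟩ := gam_cont hl (p := p') (q := pers l) (by rw [hp']; linarith)
  set δ := (p' - p) / 2 with hδ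
  have hδ0 : 0 < δ := by rw [hδ, hp']; linarith
  obtain ⟨m, hm, h2⟩ := exists_small l (x := x / 2) (δ := δ) (by linarith) hδ0
  obtain ⟨K1, hK1, h3⟩ := meshB_lower m l (x := x / 2) (x' := x) (by linarith) hδ0
  refine ⟨max K1 (2 * m + 1), le_trans hK1 (le_max_left _ _), ?_⟩
  intro a u T hu hau hT
  have hK1' : K1 ≤ max K1 (2 * (m : ℝ) + 1) := le_max_left _ _
  have hK3' : 2 * (m : ℝ) + 1 ≤ max K1 (2 * (m : ℝ) + 1) := le_max_right _ _
  have hl0 : (0 : ℝ) ≤ l := Nat.cast_nonneg l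
  have he : Real.exp (-(u + l)) ≤ Real.exp (-u) := Real.exp_le_exp.2 (by linarith)
  have he1 : Real.exp (-(u + l)) ≤ 1 := Real.exp_le_one_iff.2 (by linarith)
  have he0 := Real.exp_pos (-(u + l))
  have hT0 : (0 : ℝ) ≤ T := Nat.cast_nonneg T
  have ha : 0 < a := by
    refine lt_of_lt_of_le ?_ hT
    nlinarith
  have h4 := h3 a u T (by linarith) (by
    have := mul_le_mul_of_nonneg_left he hT0
    linarith) hT
  have h5 := h1 m hm (pers_le hm l)
  have h6 := blkB_ge (a := a) (u := u) (x := x / 2) (T := T) ha hm hl (by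
      have := Real.add_one_le_exp u
      linarith) (by
    have h7 : Real.exp (u + l) ≤ T := by
      have h8 : 1 ≤ T * Real.exp (-(u + l)) := by linarith
      rw [Real.exp_neg, ← div_eq_mul_inv, le_div_iff₀ (Real.exp_pos _)] at h8
      linarith
    exact_mod_cast (Nat.floor_le (Real.exp_pos _).le).trans h7) (by linarith)
  linarith

end Pool.Agent.Helper95.Dom
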