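import Pool.Agent.Helper95.DomMax

/-!
Characteristic functions and moment generating functions of linear sums; a central limit theorem.
-/

namespace Pool.Agent.Helper95.Dom

open MeasureTheory ProbabilityTheory Filter Complex
open scoped Topology

/-- variance of the difference. -/
noncomputable def vv (μ : ℕ → ℝ) (s : ℕ) : ℝ := 2 * (μ s * (1 + μ s))

theorem pair_cexp {m : ℝ} (hm : 0 ≤ m) (t : ℝ) :
    ∫ p : ℕ × ℕ, Complex.exp ((t * ((p.1 : ℝ) - (p.2 : ℝ)) : ℝ) * I) ∂((geo m).prod (geo m))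
      = ((1 / (1 + 2 * (m * (1 + m)) * (1 - Real.cos t)) : ℝ) : ℂ) := by
  have h1 : (fun p : ℕ × ℕ => Complex.exp ((t * ((p.1 : ℝ) - (p.2 : ℝ)) : ℝ) * I))
      = fun p => Complex.exp ((t : ℂ) * (p.1 : ℂ) * I) * Complex.exp (((-t : ℝ) : ℂ) * (p.2 : ℂ) * I) := by
    funext p
    rw [← Complex.exp_add]
    congr 1
    push_cast
    ring
  rw [h1]
  have h2 := integral_prod_mul (μ := geo m) (ν := geo m)
    (fun k : ℕ => Complex.exp ((t : ℂ) * (k : ℂ) * I))
    (fun k : ℕ => Complex.exp (((-t : ℝ) : ℂ) * (k : ℂ) * I))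
  rw [h2]
  have e1 := integral_cexp hm t
  have e2 := integral_cexp hm (-t)
  have e1' : ∫ k : ℕ, Complex.exp ((t : ℂ) * (k : ℂ) * I) ∂geo m
      = 1 / (1 + m - m * Complex.exp (t * I)) := by
    rw [← e1]
  have e2' : ∫ k : ℕ, Complex.exp (((-t : ℝ) : ℂ) * (k : ℂ) * I) ∂geo m
      = 1 / (1 + m - m * Complex.exp ((-t : ℝ) * I)) := by
    rw [← e2]
  rw [e1', e2', div_mul_div_comm, one_mul]
  push_cast
  congr 1
  have hc : Complex.exp (t * I) = Real.cos t + Real.sin t * I := by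
    rw [Complex.exp_mul_I, ← Complex.ofReal_cos, ← Complex.ofReal_sin]
  have hc2 : Complex.exp (-t * I) = Real.cos t - Real.sin t * I := by
    have : (-t * I : ℂ) = ((-t : ℝ) : ℂ) * I := by push_cast; ring
    rw [this, Complex.exp_mul_I, ← Complex.ofReal_cos, ← Complex.ofReal_sin, Real.cos_neg,
      Real.sin_neg]
    push_cast
    ring
  rw [hc, hc2]
  have hs : (Real.sin t : ℂ) ^ 2 = 1 - (Real.cos t : ℂ) ^ 2 := by
    have := Real.sin_sq_add_cos_sq t
    have h3 : ((Real.sin t ^ 2 + Real.cos t ^ 2 : ℝ) : ℂ) = 1 := by rw [this]; simp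
    push_cast at h3 ⊢
    linear_combination h3
  have hI : (I : ℂ) ^ 2 = -1 := Complex.I_sq
  push_cast at hs ⊢
  have : (1 + (m : ℂ) - m * (Complex.cos t + Complex.sin t * I))
      * (1 + m - m * (Complex.cos t - Complex.sin t * I))
      = (1 + m - m * Complex.cos t) ^ 2 - m ^ 2 * Complex.sin t ^ 2 * I ^ 2 := by ring
  rw [this, hI, hs]
  ring

theorem pair_rexp {m : ℝ} (hm : 0 ≤ m) (t : ℝ)
    (ht : 2 * (m * (1 + m)) * (Real.cosh t - 1) < 1) :
    Integrable (fun p : ℕ × ℕ => Real.exp (t * ((p.1 : ℝ) - (p.2 : ℝ)))) ((geo m).prod (geo m)) ∧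
    ∫ p : ℕ × ℕ, Real.exp (t * ((p.1 : ℝ) - (p.2 : ℝ))) ∂((geo m).prod (geo m))
      = 1 / (1 - 2 * (m * (1 + m)) * (Real.cosh t - 1)) := by
  have hprod : (1 + m - m * Real.exp t) * (1 + m - m * Real.exp (-t))
      = 1 - 2 * (m * (1 + m)) * (Real.cosh t - 1) := by
    rw [Real.cosh_eq]
    have : Real.exp t * Real.exp (-t) = 1 := by rw [← Real.exp_add]; simp
    linear_combination m ^ 2 * this
  have hpos : 0 < (1 + m - m * Real.exp t) * (1 + m - m * Real.exp (-t)) := by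
    rw [hprod]; linarith
  have hb : 0 < 1 + m - m * Real.exp t ∧ 0 < 1 + m - m * Real.exp (-t) := by
    rcases le_total 0 t with h | h
    · have h1 : Real.exp (-t) ≤ 1 := Real.exp_le_one_iff.2 (by linarith)
      have h2 : 0 < 1 + m - m * Real.exp (-t) := by nlinarith
      exact ⟨(pos_iff_pos_of_mul_pos hpos).2 h2, h2⟩
    · have h1 : Real.exp t ≤ 1 := Real.exp_le_one_iff.2 h
      have h2 : 0 < 1 + m - m * Real.exp t := by nlinarith
      exact ⟨h2, (pos_iff_pos_of_mul_pos hpos).1 h2⟩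
  have ha : m * Real.exp t < 1 + m := by linarith [hb.1]
  have hb' : m * Real.exp (-t) < 1 + m := by linarith [hb.2]
  have h1 : (fun p : ℕ × ℕ => Real.exp (t * ((p.1 : ℝ) - (p.2 : ℝ))))
      = fun p => Real.exp (t * (p.1 : ℝ)) * Real.exp (-t * (p.2 : ℝ)) := by
    funext p
    rw [← Real.exp_add]
    congr 1
    ring
  constructor
  · rw [h1]
    exact (integrable_rexp hm t ha).mul_prod (integrable_rexp hm (-t) hb')
  · rw [h1]
    have h2 := integral_prod_mul (μ := geo m) (ν := geo m)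
      (fun k : ℕ => Real.exp (t * (k : ℝ))) (fun k : ℕ => Real.exp (-t * (k : ℝ)))
    rw [h2, integral_rexp hm t ha, integral_rexp hm (-t) hb', div_mul_div_comm, one_mul, hprod]

section

variable {μ : ℕ → ℝ} (hμ : ∀ s, 0 ≤ μ s)

include hμ

theorem vv_nonneg (s : ℕ) : 0 ≤ vv μ s := by
  unfold vv
  have := hμ s
  positivity

theorem cexp_lin (I' : Finset ℕ) (a : ℕ → ℝ) :
    ∫ ω, Complex.exp ((∑ s ∈ I', a s * xs s ω : ℝ) * I) ∂PP μ μ
      = ((∏ s ∈ I', 1 / (1 + vv μ s * (1 - Real.cos (a s))) : ℝ) : ℂ) := by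
  have h1 : (fun ω : Om => Complex.exp ((∑ s ∈ I', a s * xs s ω : ℝ) * I))
      = fun ω => ∏ s ∈ I', (fun (s : ℕ) (p : ℕ × ℕ) =>
        Complex.exp ((a s * ((p.1 : ℝ) - (p.2 : ℝ)) : ℝ) * I)) s (ω s) := by
    funext ω
    rw [← Complex.exp_sum]
    congr 1
    simp only [xs, ma, mb]
    push_cast
    rw [Finset.sum_mul]
  rw [h1]
  refine (prod_formula μ μ I' (fun (s : ℕ) (p : ℕ × ℕ) =>
        Complex.exp ((a s * ((p.1 : ℝ) - (p.2 : ℝ)) : ℝ) * I))).trans ?_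
  rw [Complex.ofReal_prod]
  apply Finset.prod_congr rfl
  intro s _
  rw [pair_cexp (hμ s)]
  rfl

theorem rexp_lin (I' : Finset ℕ) (a : ℕ → ℝ)
    (ha : ∀ s ∈ I', vv μ s * (Real.cosh (a s) - 1) < 1) :
    ∫ ω, Real.exp (∑ s ∈ I', a s * xs s ω) ∂PP μ μ
      = ∏ s ∈ I', 1 / (1 - vv μ s * (Real.cosh (a s) - 1)) := by
  have h1 : (fun ω : Om => Real.exp (∑ s ∈ I', a s * xs s ω))
      = fun ω => ∏ s ∈ I', (fun (s : ℕ) (p : ℕ × ℕ) =>
        Real.exp (a s * ((p.1 : ℝ) - (p.2 : ℝ)))) s (ω s) := by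
    funext ω
    rw [← Real.exp_sum]
    rfl
  rw [h1]
  refine (prod_formula μ μ I' (fun (s : ℕ) (p : ℕ × ℕ) =>
        Real.exp (a s * ((p.1 : ℝ) - (p.2 : ℝ))))).trans ?_
  apply Finset.prod_congr rfl
  intro s hs
  exact (pair_rexp (hμ s) (a s) (ha s hs)).2

theorem rexp_lin_int (I' : Finset ℕ) (a : ℕ → ℝ)
    (ha : ∀ s ∈ I', vv μ s * (Real.cosh (a s) - 1) < 1) :
    Integrable (fun ω => Real.exp (∑ s ∈ I', a s * xs s ω)) (PP μ μ) := by
  by_contra h
  have h1 := rexp_lin hμ I' a ha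
  rw [integral_undef h] at h1
  have h2 : 0 < ∏ s ∈ I', 1 / (1 - vv μ s * (Real.cosh (a s) - 1)) := by
    apply Finset.prod_pos
    intro s hs
    have := ha s hs
    exact one_div_pos.2 (by linarith)
  linarith

omit hμ in
theorem inv_one_sub_le {w : ℝ} (h0 : 0 ≤ w) (h1 : w ≤ 1 / 2) : 1 / (1 - w) ≤ Real.exp (2 * w) := by
  rw [div_le_iff₀ (by linarith)]
  have := Real.add_one_le_exp (2 * w)
  have h2 : 1 ≤ (2 * w + 1) * (1 - w) := by nlinarith
  exact h2.trans (mul_le_mul_of_nonneg_right this (by linarith))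

theorem rexp_lin_le (I' : Finset ℕ) (a : ℕ → ℝ)
    (ha : ∀ s ∈ I', vv μ s * (Real.cosh (a s) - 1) ≤ 1 / 2) :
    ∫ ω, Real.exp (∑ s ∈ I', a s * xs s ω) ∂PP μ μ
      ≤ Real.exp (2 * ∑ s ∈ I', vv μ s * (Real.cosh (a s) - 1)) := by
  rw [rexp_lin hμ I' a (fun s hs => lt_of_le_of_lt (ha s hs) (by norm_num)), Finset.mul_sum,
    Real.exp_sum]
  apply Finset.prod_le_prod
  · intro s hs
    have := ha s hs
    exact one_div_nonneg.2 (by linarith)
  · intro s hs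
    exact inv_one_sub_le (mul_nonneg (vv_nonneg hμ s) (by linarith [Real.one_le_cosh (a s)]))
      (ha s hs)

end

/-! ### elementary estimates -/

theorem abs_cos_sub (x : ℝ) : |Real.cos x - (1 - x ^ 2 / 2)| ≤ x ^ 4 / 2 := by
  rcases le_total |x| 1 with h | h
  · have h1 := Real.cos_bound h
    have h2 : |x| ^ 4 = x ^ 4 := by
      rw [← abs_pow, abs_of_nonneg (by positivity)]
    rw [h2] at h1
    have h3 : 0 ≤ x ^ 4 := by positivity
    linarith
  · have h1 := Real.one_sub_sq_div_two_le_cos (x := x)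
    have h2 := Real.cos_le_one x
    rw [abs_of_nonneg (by linarith)]
    have h3 : 1 ≤ x ^ 2 := by
      rw [← sq_abs]; nlinarith
    nlinarith

theorem phi_est {v a : ℝ} (hv : 0 ≤ v) :
    |1 / (1 + v * (1 - Real.cos a)) - Real.exp (-(v * a ^ 2) / 2)| ≤ (v ^ 2 + v) * a ^ 4 := by
  set w := v * (1 - Real.cos a) with hw
  have hc := Real.cos_le_one a
  have hc2 := Real.one_sub_sq_div_two_le_cos (x := a)
  have hw0 : 0 ≤ w := mul_nonneg hv (by linarith)
  have hw1 : w ≤ v * (a ^ 2 / 2) := mul_le_mul_of_nonneg_left (by linarith) hv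
  have e1 : |1 / (1 + w) - Real.exp (-w)| ≤ w ^ 2 := by
    have h1 : Real.exp (-w) ≤ 1 / (1 + w) := by
      rw [Real.exp_neg, one_div]
      apply inv_anti₀ (by linarith)
      linarith [Real.add_one_le_exp w]
    have h2 : 1 - w ≤ Real.exp (-w) := by linarith [Real.add_one_le_exp (-w)]
    rw [abs_of_nonneg (by linarith)]
    have h3 : 1 / (1 + w) ≤ 1 - w + w ^ 2 := by
      rw [div_le_iff₀ (by linarith)]
      nlinarith [mul_nonneg hw0 (mul_nonneg hw0 hw0)]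
    linarith
  have e2 : |Real.exp (-w) - Real.exp (-(v * a ^ 2) / 2)| ≤ v * (a ^ 4 / 2) := by
    have h1 : w ≤ v * a ^ 2 / 2 := by linarith
    have h2 : Real.exp (-(v * a ^ 2) / 2) ≤ Real.exp (-w) := Real.exp_le_exp.2 (by linarith)
    rw [abs_of_nonneg (by linarith)]
    have h3 : Real.exp (-(v * a ^ 2) / 2) = Real.exp (-w) * Real.exp (-(v * a ^ 2 / 2 - w)) := by
      rw [← Real.exp_add]; congr 1; ring
    have h4 : 1 - (v * a ^ 2 / 2 - w) ≤ Real.exp (-(v * a ^ 2 / 2 - w)) := by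
      linarith [Real.add_one_le_exp (-(v * a ^ 2 / 2 - w))]
    have h5 : Real.exp (-w) ≤ 1 := Real.exp_le_one_iff.2 (by linarith)
    have h6 : v * a ^ 2 / 2 - w ≤ v * (a ^ 4 / 2) := by
      have := (abs_le.1 (abs_cos_sub a)).2
      have h7 : v * a ^ 2 / 2 - w = v * (Real.cos a - (1 - a ^ 2 / 2)) := by rw [hw]; ring
      rw [h7]
      exact mul_le_mul_of_nonneg_left this hv
    rw [h3]
    have h8 : 0 ≤ Real.exp (-w) := (Real.exp_pos _).le
    nlinarith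
  have e3 : w ^ 2 ≤ v ^ 2 * a ^ 4 := by
    have : w ^ 2 ≤ (v * (a ^ 2 / 2)) ^ 2 := pow_le_pow_left₀ hw0 hw1 2
    nlinarith [mul_nonneg (sq_nonneg v) (by positivity : 0 ≤ a ^ 4)]
  calc |1 / (1 + w) - Real.exp (-(v * a ^ 2) / 2)|
      ≤ |1 / (1 + w) - Real.exp (-w)| + |Real.exp (-w) - Real.exp (-(v * a ^ 2) / 2)| :=
        abs_sub_le _ _ _
    _ ≤ w ^ 2 + v * (a ^ 4 / 2) := add_le_add e1 e2
    _ ≤ v ^ 2 * a ^ 4 + v * (a ^ 4 / 2) := by linarith
    _ ≤ (v ^ 2 + v) * a ^ 4 := by nlinarith [mul_nonneg hv (by positivity : 0 ≤ a ^ 4)]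

theorem abs_prod_sub_prod_le {ι : Type*} (T : Finset ι) (a b : ι → ℝ)
    (ha : ∀ i ∈ T, 0 ≤ a i ∧ a i ≤ 1) (hb : ∀ i ∈ T, 0 ≤ b i ∧ b i ≤ 1) :
    |∏ i ∈ T, a i - ∏ i ∈ T, b i| ≤ ∑ i ∈ T, |a i - b i| := by
  classical
  induction T using Finset.induction_on with
  | empty => simp
  | insert x T hx ih =>
    rw [Finset.prod_insert hx, Finset.prod_insert hx, Finset.sum_insert hx]
    have ih' := ih (fun i hi => ha i (Finset.mem_insert_of_mem hi))
      (fun i hi => hb i (Finset.mem_insert_of_mem hi))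
    have hax := ha x (Finset.mem_insert_self x T)
    have hbx := hb x (Finset.mem_insert_self x T)
    have pa : 0 ≤ ∏ i ∈ T, a i := Finset.prod_nonneg fun i hi => (ha i (Finset.mem_insert_of_mem hi)).1
    have pa1 : ∏ i ∈ T, a i ≤ 1 := Finset.prod_le_one
      (fun i hi => (ha i (Finset.mem_insert_of_mem hi)).1)
      (fun i hi => (ha i (Finset.mem_insert_of_mem hi)).2)
    have e : a x * ∏ i ∈ T, a i - b x * ∏ i ∈ T, b i
        = (a x - b x) * ∏ i ∈ T, a i + b x * (∏ i ∈ T, a i - ∏ i ∈ T, b i) := by ring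
    rw [e]
    refine (abs_add_le _ _).trans ?_
    rw [abs_mul, abs_mul, abs_of_nonneg pa, abs_of_nonneg hbx.1]
    have h1 : |a x - b x| * ∏ i ∈ T, a i ≤ |a x - b x| :=
      mul_le_of_le_one_right (abs_nonneg _) pa1
    have h2 : b x * |∏ i ∈ T, a i - ∏ i ∈ T, b i| ≤ |∏ i ∈ T, a i - ∏ i ∈ T, b i| :=
      mul_le_of_le_one_left (abs_nonneg _) hbx.2
    linarith

theorem prod_phi_est {ι : Type*} (T : Finset ι) (v a : ι → ℝ) (hv : ∀ i ∈ T, 0 ≤ v i) :
    |∏ i ∈ T, 1 / (1 + v i * (1 - Real.cos (a i))) - Real.exp (-(∑ i ∈ T, v i * a i ^ 2) / 2)|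
      ≤ ∑ i ∈ T, (v i ^ 2 + v i) * a i ^ 4 := by
  have h1 : Real.exp (-(∑ i ∈ T, v i * a i ^ 2) / 2) = ∏ i ∈ T, Real.exp (-(v i * a i ^ 2) / 2) := by
    rw [← Real.exp_sum]
    congr 1
    rw [← Finset.sum_neg_distrib, Finset.sum_div]
  rw [h1]
  refine (abs_prod_sub_prod_le T _ _ ?_ ?_).trans ?_
  · intro i hi
    have h2 : 0 ≤ v i * (1 - Real.cos (a i)) :=
      mul_nonneg (hv i hi) (by linarith [Real.cos_le_one (a i)])
    refine ⟨one_div_nonneg.2 (by linarith), ?_⟩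
    rw [div_le_one (by linarith)]
    linarith
  · intro i hi
    refine ⟨(Real.exp_pos _).le, Real.exp_le_one_iff.2 ?_⟩
    have := mul_nonneg (hv i hi) (sq_nonneg (a i))
    linarith
  · exact Finset.sum_le_sum fun i hi => phi_est (hv i hi)

end Pool.Agent.Helper95.Dom
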