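import Pool.Agent.Helper95.DomTheta

/-!
Polynomial lower bounds for the probability that the functionals stay nonnegative.
-/

namespace Pool.Agent.Helper95.Dom

open MeasureTheory ProbabilityTheory Filter
open scoped Topology

theorem zero_prob {a : ℝ} (ha : 0 < a) {s : ℕ} (hs : 1 ≤ s) :
    1 - Real.exp (-(s / a)) ≤ (PA a).real {ω | 0 ≤ xs s ω} := by
  have h1 : (PA a).real {ω | (ω s).2 = 0} = 1 - Real.exp (-(s / a)) := by
    have h2 : {ω : Om | (ω s).2 = 0} = (fun ω : Om => (ω s).2) ⁻¹' {0} := by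
      ext ω; simp
    rw [h2]
    unfold PA
    rw [← map_measureReal_apply (meas_snd s) (measurableSet_singleton 0), map_mb, Measure.real,
      geo_singleton, ENNReal.toReal_ofReal (gw_nonneg _ _), gw_eq (mu_nonneg ha s)]
    have hs' : (0 : ℝ) < s := by exact_mod_cast hs
    have h3 := exp_sub_pos (div_pos hs' ha)
    have h4 := (Real.exp_pos ((s : ℝ) / a)).ne'
    unfold mu
    rw [Real.exp_neg]
    simp only [pow_zero, mul_one]
    field_simp
    ring
  rw [← h1]
  apply measureReal_mono _ (measure_ne_top _ _)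
  intro ω hω
  have h2 : (ω s).2 = 0 := hω
  show 0 ≤ xs s ω
  unfold xs ma mb
  rw [h2]
  simp

theorem one_sub_ge {z : ℝ} (h0 : 0 ≤ z) (h1 : z ≤ 1 / 2) : Real.exp (-(2 * z)) ≤ 1 - z := by
  have h := Real.one_sub_le_exp_neg (2 * z)
  have h2 := inv_one_sub_le h0 h1
  have h3 : 0 < 1 - z := by linarith
  rw [Real.exp_neg]
  rw [one_div] at h2
  calc (Real.exp (2 * z))⁻¹ ≤ ((1 - z)⁻¹)⁻¹ := inv_anti₀ (by positivity) h2
    _ = 1 - z := inv_inv _

theorem top_prob {a : ℝ} (ha : 1 ≤ a) (t0 S : ℕ) (hta : a ≤ t0) :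
    Real.exp (-(4 * a * Real.exp (-(t0 / a))))
      ≤ (PA a).real (⋂ s ∈ Finset.Ioc t0 S, {ω | 0 ≤ xs s ω}) := by
  have hpos : 0 < a := by linarith
  have h1 := harris_biInter (mu a) (mu a) (I := Finset.Ioc t0 S) (Finset.Ioc t0 S)
    (fun s => {ω | 0 ≤ xs s ω}) (fun s hs ω hω ω' h => le_trans hω (h s hs))
  refine le_trans ?_ h1
  calc Real.exp (-(4 * a * Real.exp (-(t0 / a))))
      ≤ Real.exp (∑ s ∈ Finset.Ioc t0 S, -(2 * Real.exp (-(s / a)))) := by
        apply Real.exp_le_exp.2
        rw [Finset.sum_neg_distrib]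
        apply neg_le_neg
        rw [← Finset.mul_sum]
        have h2 : ∑ s ∈ Finset.Ioc t0 S, Real.exp (-((s : ℝ) / a))
            ≤ Real.exp (-(t0 / a)) * a * 2 := by
          have h3 : ∑ s ∈ Finset.Ioc t0 S, Real.exp (-((s : ℝ) / a))
              ≤ Real.exp (-(t0 / a)) * ∑ k ∈ Finset.Icc 1 (S - t0), Real.exp (-((k : ℝ) / a)) := by
            rw [Finset.mul_sum]
            have h4 : Finset.Ioc t0 S = (Finset.Icc 1 (S - t0)).image (fun k => t0 + k) := by
              ext s
              simp only [Finset.mem_Ioc, Finset.mem_image, Finset.mem_Icc]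
              constructor
              · intro h
                exact ⟨s - t0, by omega, by omega⟩
              · rintro ⟨k, hk, rfl⟩
                omega
            rw [h4, Finset.sum_image (by intro x _ y _ h; simpa using h)]
            apply le_of_eq
            apply Finset.sum_congr rfl
            intro k _
            rw [← Real.exp_add]
            congr 1
            push_cast
            ring
          refine h3.trans ?_
          have h5 := sum_exp_le ha (Finset.Icc 1 (S - t0))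
          have h6 := mul_le_mul_of_nonneg_left h5 (Real.exp_pos (-((t0 : ℝ) / a))).le
          refine h6.trans ?_
          have h7 := Real.exp_pos (-((t0 : ℝ) / a))
          nlinarith
        linarith
    _ = ∏ s ∈ Finset.Ioc t0 S, Real.exp (-(2 * Real.exp (-(s / a)))) := by rw [Real.exp_sum]
    _ ≤ ∏ s ∈ Finset.Ioc t0 S, (PP (mu a) (mu a)).real {ω | 0 ≤ xs s ω} := by
        apply Finset.prod_le_prod
        · intro s _; exact (Real.exp_pos _).le
        · intro s hs
          simp only [Finset.mem_Ioc] at hs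
          have h2 : 1 ≤ s := by omega
          refine le_trans ?_ (zero_prob hpos h2)
          apply one_sub_ge (Real.exp_pos _).le
          have h3 : (1 : ℝ) ≤ (s : ℝ) / a := by
            rw [le_div_iff₀ hpos, one_mul]
            refine hta.trans ?_
            exact_mod_cast hs.1.le
          have h4 : Real.exp (-((s : ℝ) / a)) ≤ Real.exp (-1) := Real.exp_le_exp.2 (by linarith)
          have h5 := Real.exp_neg_one_lt_d9
          norm_num at h5
          linarith

theorem blkA_inc {a u : ℝ} {S l : ℕ} : Inc (Finset.Icc 1 S) (blkA a u S l) := by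
  intro ω hω ω' h t h1 h2
  refine (hω t h1 h2).trans (DA_mono S _ ω ω' fun s hs => h s ?_)
  simp only [Finset.mem_Ioc, Finset.mem_Icc] at hs ⊢
  omega

theorem blkB_inc {u : ℝ} {T l : ℕ} : Inc (Finset.Icc 1 T) (blkB u T l) := by
  intro ω hω ω' h t h1 h2
  exact (hω t h1 h2).trans (GB_mono T _ ω ω' h)

theorem DA_top {S t0 t : ℕ} (h : t0 ≤ t) (ω : Om) (hω : ∀ s ∈ Finset.Ioc t0 S, 0 ≤ xs s ω) :
    0 ≤ DA S t ω := by
  unfold DA
  apply Finset.sum_nonneg
  intro s hs
  simp only [Finset.mem_Icc] at hs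
  rcases le_or_gt s t with h1 | h1
  · have : s - t = 0 := by omega
    rw [this]; simp
  · exact mul_nonneg (Nat.cast_nonneg _) (hω s (by simp only [Finset.mem_Ioc]; omega))

/-- Lower bound for the large parts. -/
theorem hi_lower {δ : ℝ} (hδ : 0 < δ) : ∃ b0 c a0 : ℝ, 1 ≤ b0 ∧ 0 < c ∧ 1 ≤ a0 ∧
    ∀ (a : ℝ) (S : ℕ), a0 ≤ a → b0 + Real.log a ≤ S / a →
      c * Real.exp (-((theta + δ) * Real.log a))
        ≤ (PA a).real {ω | ∀ t, ⌊a * b0⌋₊ ≤ t → 0 ≤ DA S t ω} := by
  obtain ⟨l, hl1, hl2⟩ := ((pers_ge_exp hδ).and (eventually_ge_atTop 1)).exists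
  obtain ⟨K0, hK0, hblk⟩ := blkA_lower hl2 hl1
  set p := Real.exp (-((theta + δ) * l)) with hp
  have hl0 : (1 : ℝ) ≤ l := by exact_mod_cast hl2
  refine ⟨K0 + 1, Real.exp (-(4 * (K0 * Real.exp (l + 1)))), max 1 (K0 * Real.exp (K0 + 1)),
    by linarith, Real.exp_pos _, le_max_left _ _, ?_⟩
  intro a S ha hS
  have ha1 : 1 ≤ a := (le_max_left _ _).trans ha
  have hpos : 0 < a := by linarith
  have haK : K0 * Real.exp (K0 + 1) ≤ a := (le_max_right _ _).trans ha
  have hlogK : K0 + 1 ≤ Real.log (a / K0) := by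
    rw [Real.le_log_iff_exp_le (by positivity), le_div_iff₀ (by linarith)]
    linarith
  have hlogle : Real.log (a / K0) ≤ Real.log a := by
    apply Real.log_le_log (by positivity)
    exact div_le_self hpos.le hK0
  set B := ⌊(Real.log (a / K0) - (K0 + 1)) / l⌋₊ with hB
  have hB0 : 0 ≤ (Real.log (a / K0) - (K0 + 1)) / l := by
    apply div_nonneg (by linarith) (by linarith)
  have hB1 : (B : ℝ) * l ≤ Real.log (a / K0) - (K0 + 1) := by
    have := Nat.floor_le hB0
    rw [le_div_iff₀ (by linarith)] at this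
    exact this
  have hB2 : Real.log (a / K0) - (K0 + 1) < ((B : ℝ) + 1) * l := by
    have := Nat.lt_floor_add_one ((Real.log (a / K0) - (K0 + 1)) / l)
    rw [div_lt_iff₀ (by linarith)] at this
    exact this
  set u : ℕ → ℝ := fun j => K0 + 1 + j * l with hu
  set top := ⌊a * (K0 + 1 + B * l)⌋₊ with htop
  -- probability of blocks
  have hblk' : ∀ j < B, p ≤ (PA a).real (blkA a (u j) S l) := by
    intro j hj
    have hj' : (j : ℝ) + 1 ≤ B := by exact_mod_cast hj
    have h1 : u j + l ≤ Real.log (a / K0) := by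
      simp only [hu]
      nlinarith
    apply hblk
    · simp only [hu]
      have : (0 : ℝ) ≤ j * l := by positivity
      linarith
    · have h2 : Real.exp (-(Real.log (a / K0))) ≤ Real.exp (-(u j + l)) :=
        Real.exp_le_exp.2 (by linarith)
      rw [Real.exp_neg, Real.exp_log (by positivity)] at h2
      have h3 := mul_le_mul_of_nonneg_left h2 hpos.le
      have h4 : a * (a / K0)⁻¹ = K0 := by field_simp
      linarith
    · linarith
  have htopP : Real.exp (-(4 * (K0 * Real.exp (l + 1))))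
      ≤ (PA a).real (⋂ s ∈ Finset.Ioc top S, {ω | 0 ≤ xs s ω}) := by
    have h1 : a * (K0 + 1 + B * l) - 1 < top := by
      have := Nat.lt_floor_add_one (a * (K0 + 1 + B * l))
      linarith
    have hBl : (0 : ℝ) ≤ B * l := by positivity
    have h2 : a ≤ (top : ℝ) := by nlinarith
    refine le_trans (Real.exp_le_exp.2 ?_) (top_prob ha1 top S h2)
    apply neg_le_neg
    have h3 : Real.log (a / K0) - l - 1 ≤ (top : ℝ) / a := by
      rw [le_div_iff₀ hpos]
      nlinarith
    have h4 : Real.exp (-((top : ℝ) / a)) ≤ Real.exp (-(Real.log (a / K0)) + (l + 1)) :=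
      Real.exp_le_exp.2 (by linarith)
    rw [Real.exp_add, Real.exp_neg (Real.log (a / K0)), Real.exp_log (by positivity)] at h4
    have h5 := mul_le_mul_of_nonneg_left h4 hpos.le
    have h6 : a * ((a / K0)⁻¹ * Real.exp (l + 1)) = K0 * Real.exp (l + 1) := by field_simp
    linarith
  -- Harris
  have hH := harris_biInter (mu a) (mu a) (I := Finset.Icc 1 S) (Finset.range B)
    (fun j => blkA a (u j) S l) (fun j _ => blkA_inc)
  have hH2 := harris (mu a) (mu a) (I := Finset.Icc 1 S)
    (A := ⋂ s ∈ Finset.Ioc top S, {ω | 0 ≤ xs s ω}) (B := ⋂ j ∈ Finset.range B, blkA a (u j) S l)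
    (by
      intro ω hω ω' h
      simp only [Set.mem_iInter, Set.mem_ofPred_eq] at hω ⊢
      intro s hs
      refine (hω s hs).trans (h s ?_)
      simp only [Finset.mem_Ioc, Finset.mem_Icc] at hs ⊢
      omega)
    (by
      intro ω hω ω' h
      simp only [Set.mem_iInter] at hω ⊢
      intro j hj
      exact blkA_inc ω (hω j hj) ω' h)
  have hprod : p ^ B ≤ ∏ j ∈ Finset.range B, (PP (mu a) (mu a)).real (blkA a (u j) S l) := by
    calc p ^ B = ∏ j ∈ Finset.range B, p := by simp
      _ ≤ _ := Finset.prod_le_prod (fun _ _ => (Real.exp_pos _).le)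
          (fun j hj => hblk' j (Finset.mem_range.1 hj))
  have hpB : Real.exp (-((theta + δ) * Real.log a)) ≤ p ^ B := by
    rw [hp, ← Real.exp_nat_mul]
    apply Real.exp_le_exp.2
    have h1 : (B : ℝ) * l ≤ Real.log a := by linarith
    have h2 : 0 ≤ theta + δ := by linarith [theta_nonneg]
    nlinarith
  have hsub : (⋂ s ∈ Finset.Ioc top S, {ω | 0 ≤ xs s ω}) ∩ (⋂ j ∈ Finset.range B, blkA a (u j) S l)
      ⊆ {ω | ∀ t, ⌊a * (K0 + 1)⌋₊ ≤ t → 0 ≤ DA S t ω} := by
    rintro ω ⟨w1, w2⟩ t ht
    simp only [Set.mem_iInter, Set.mem_ofPred_eq] at w1 w2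
    rcases le_or_gt top t with h | h
    · exact DA_top h ω w1
    · -- find the block
      have h0 : 1 ≤ B := by
        by_contra hcon
        have : B = 0 := by omega
        rw [htop, this] at h
        simp only [Nat.cast_zero, zero_mul, add_zero] at h
        omega
      obtain ⟨j, hj, h1, h2⟩ := find_cell (fun j => ⌊a * (K0 + 1 + j * l)⌋₊) (n := B) (t := t) h0
        (by simpa using ht) h.le
      refine w2 j (Finset.mem_range.2 hj) t h1 ?_
      have : a * (u j + l) = a * (K0 + 1 + ((j + 1 : ℕ) : ℝ) * l) := by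
        simp only [hu]
        push_cast
        ring
      rw [this]
      exact h2
  have hmain : (PA a).real ((⋂ s ∈ Finset.Ioc top S, {ω | 0 ≤ xs s ω})
      ∩ (⋂ j ∈ Finset.range B, blkA a (u j) S l))
      ≤ (PA a).real {ω | ∀ t, ⌊a * (K0 + 1)⌋₊ ≤ t → 0 ≤ DA S t ω} :=
    measureReal_mono hsub (measure_ne_top _ _)
  refine le_trans ?_ hmain
  refine le_trans ?_ hH2
  exact mul_le_mul htopP (hpB.trans (hprod.trans hH)) (Real.exp_pos _).le measureReal_nonneg

theorem GB_zero (T : ℕ) (ω : Om) : GB T 0 ω = 0 := by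
  unfold GB
  apply Finset.sum_eq_zero
  intro s _
  simp

theorem GB_succ {T t : ℕ} (h : t < T) (ω : Om) : GB T (t + 1) ω = GB T t ω + NS t T ω := by
  have h1 := GB_split (T := T) (t := t) (t1 := t + 1) (Nat.le_succ t) h ω
  have h2 : RR t (t + 1) ω = xs (t + 1) ω := by
    unfold RR
    have : Finset.Ioc t (t + 1) = {t + 1} := by ext s; simp only [Finset.mem_Ioc, Finset.mem_singleton]; omega
    rw [this, Finset.sum_singleton]
    simp
  have h3 : NS t T ω = NS (t + 1) T ω + xs (t + 1) ω := by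
    unfold NS
    rw [← Finset.sum_Ioc_consecutive _ (Nat.le_succ t) h]
    have : Finset.Ioc t (t + 1) = {t + 1} := by ext s; simp only [Finset.mem_Ioc, Finset.mem_singleton]; omega
    rw [this, Finset.sum_singleton]
    ring
  rw [h2] at h1
  push_cast at h1
  linarith

theorem GB_bottom {T t0 t : ℕ} (h : t ≤ t0) (h0 : t0 ≤ T) (ω : Om)
    (hω : ∀ i < t0, 0 ≤ NS i T ω) : 0 ≤ GB T t ω := by
  induction t with
  | zero => rw [GB_zero]
  | succ n ih =>
    rw [GB_succ (by omega)]
    have := ih (by omega)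
    have := hω n (by omega)
    linarith

/-- Lower bound for the small parts. -/
theorem lo_lower {δ : ℝ} (hδ : 0 < δ) : ∃ κ c T0 : ℝ, 0 < κ ∧ 0 < c ∧ 1 ≤ T0 ∧
    ∀ (a : ℝ) (T : ℕ), T0 ≤ T → (T : ℝ) ≤ a →
      c * Real.exp (-((theta + δ) * Real.log T))
        ≤ (PA a).real {ω | ∀ t : ℕ, (t : ℝ) ≤ κ * T → 0 ≤ GB T t ω} := by
  obtain ⟨l, hl1, hl2⟩ := ((pers_ge_exp hδ).and (eventually_ge_atTop 1)).exists
  obtain ⟨K0, hK0, hblk⟩ := blkB_lower hl2 hl1
  set p := Real.exp (-((theta + δ) * l)) with hp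
  have hl0 : (1 : ℝ) ≤ l := by exact_mod_cast hl2
  set t0 := ⌊Real.exp K0⌋₊ with ht0
  refine ⟨1 / (K0 * Real.exp l), (1 / 2) ^ t0, K0 * Real.exp K0,
    by positivity, by positivity, by
      have := Real.one_le_exp (show 0 ≤ K0 by linarith)
      nlinarith, ?_⟩
  intro a T hT hTa
  have hKe : 0 < K0 * Real.exp K0 := by positivity
  have hT0 : (0 : ℝ) < T := by linarith
  have hpos : 0 < a := by linarith
  have hlogK : K0 ≤ Real.log (T / K0) := by
    rw [Real.le_log_iff_exp_le (by positivity), le_div_iff₀ (by linarith)]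
    linarith
  have hlogle : Real.log (T / K0) ≤ Real.log T := by
    apply Real.log_le_log (by positivity)
    exact div_le_self hT0.le hK0
  set B := ⌊(Real.log (T / K0) - K0) / l⌋₊ with hB
  have hB0 : 0 ≤ (Real.log (T / K0) - K0) / l := by
    apply div_nonneg (by linarith) (by linarith)
  have hB1 : (B : ℝ) * l ≤ Real.log (T / K0) - K0 := by
    have := Nat.floor_le hB0
    rw [le_div_iff₀ (by linarith)] at this
    exact this
  have hB2 : Real.log (T / K0) - K0 < ((B : ℝ) + 1) * l := by
    have := Nat.lt_floor_add_one ((Real.log (T / K0) - K0) / l)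
    rw [div_lt_iff₀ (by linarith)] at this
    exact this
  set u : ℕ → ℝ := fun j => K0 + j * l with hu
  have ht0T : t0 ≤ T := by
    have h1 : (t0 : ℝ) ≤ Real.exp K0 := Nat.floor_le (Real.exp_pos _).le
    have h2 : Real.exp K0 ≤ K0 * Real.exp K0 := by
      have := Real.exp_pos K0
      nlinarith
    exact_mod_cast h1.trans (h2.trans hT)
  -- probability of blocks
  have hblk' : ∀ j < B, p ≤ (PA a).real (blkB (u j) T l) := by
    intro j hj
    have hj' : (j : ℝ) + 1 ≤ B := by exact_mod_cast hj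
    have h1 : u j + l ≤ Real.log (T / K0) := by
      simp only [hu]
      nlinarith
    apply hblk
    · simp only [hu]
      have : (0 : ℝ) ≤ j * l := by positivity
      linarith
    · have h2 : Real.exp (-(Real.log (T / K0))) ≤ Real.exp (-(u j + l)) :=
        Real.exp_le_exp.2 (by linarith)
      rw [Real.exp_neg, Real.exp_log (by positivity)] at h2
      have h3 := mul_le_mul_of_nonneg_left h2 hT0.le
      have h4 : (T : ℝ) * ((T : ℝ) / K0)⁻¹ = K0 := by field_simp
      linarith
    · exact hTa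
  have hbotP : (1 / 2 : ℝ) ^ t0
      ≤ (PA a).real (⋂ i ∈ Finset.range t0, {ω | 0 ≤ NS i T ω}) := by
    have h1 := harris_biInter (mu a) (mu a) (I := Finset.Icc 1 T) (Finset.range t0)
      (fun i => {ω | 0 ≤ NS i T ω}) (fun i _ ω hω ω' h => le_trans hω (NS_mono i T ω ω' fun s hs =>
        h s (by simp only [Finset.mem_Ioc, Finset.mem_Icc] at hs ⊢; omega)))
    refine le_trans ?_ h1
    calc (1 / 2 : ℝ) ^ t0 = ∏ i ∈ Finset.range t0, (1 / 2 : ℝ) := by simp
      _ ≤ _ := by
        apply Finset.prod_le_prod (fun _ _ => by norm_num)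
        intro i _
        apply half_le (Finset.Ioc i T) (NS i T) (NS_dep i T)
        intro ω
        unfold NS
        rw [← Finset.sum_neg_distrib]
        exact Finset.sum_congr rfl fun s _ => xs_swp s ω
  -- Harris
  have hH := harris_biInter (mu a) (mu a) (I := Finset.Icc 1 T) (Finset.range B)
    (fun j => blkB (u j) T l) (fun j _ => blkB_inc)
  have hH2 := harris (mu a) (mu a) (I := Finset.Icc 1 T)
    (A := ⋂ i ∈ Finset.range t0, {ω | 0 ≤ NS i T ω}) (B := ⋂ j ∈ Finset.range B, blkB (u j) T l)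
    (by
      intro ω hω ω' h
      simp only [Set.mem_iInter, Set.mem_ofPred_eq] at hω ⊢
      intro s hs
      refine (hω s hs).trans (NS_mono s T ω ω' fun s' hs' => h s' ?_)
      simp only [Finset.mem_Ioc, Finset.mem_Icc] at hs' ⊢
      omega)
    (by
      intro ω hω ω' h
      simp only [Set.mem_iInter] at hω ⊢
      intro j hj
      exact blkB_inc ω (hω j hj) ω' h)
  have hprod : p ^ B ≤ ∏ j ∈ Finset.range B, (PP (mu a) (mu a)).real (blkB (u j) T l) := by
    calc p ^ B = ∏ j ∈ Finset.range B, p := by simp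
      _ ≤ _ := Finset.prod_le_prod (fun _ _ => (Real.exp_pos _).le)
          (fun j hj => hblk' j (Finset.mem_range.1 hj))
  have hpB : Real.exp (-((theta + δ) * Real.log T)) ≤ p ^ B := by
    rw [hp, ← Real.exp_nat_mul]
    apply Real.exp_le_exp.2
    have h1 : (B : ℝ) * l ≤ Real.log T := by linarith
    have h2 : 0 ≤ theta + δ := by linarith [theta_nonneg]
    nlinarith
  have hsub : (⋂ i ∈ Finset.range t0, {ω | 0 ≤ NS i T ω}) ∩ (⋂ j ∈ Finset.range B, blkB (u j) T l)
      ⊆ {ω | ∀ t : ℕ, (t : ℝ) ≤ 1 / (K0 * Real.exp l) * T → 0 ≤ GB T t ω} := by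
    rintro ω ⟨w1, w2⟩ t ht
    simp only [Set.mem_iInter, Set.mem_ofPred_eq] at w1 w2
    rcases le_or_gt t t0 with h | h
    · exact GB_bottom h ht0T ω fun i hi => w1 i (Finset.mem_range.2 hi)
    · -- find the block
      have h3 : t ≤ ⌊Real.exp (K0 + B * l)⌋₊ := by
        rw [Nat.le_floor_iff (Real.exp_pos _).le]
        refine ht.trans ?_
        have h4 : Real.log (T / K0) - l ≤ K0 + B * l := by nlinarith
        have h5 := Real.exp_le_exp.2 h4
        rw [Real.exp_sub, Real.exp_log (by positivity)] at h5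
        refine le_trans (le_of_eq ?_) h5
        field_simp
      have h0 : 1 ≤ B := by
        by_contra hcon
        have : B = 0 := by omega
        rw [this] at h3
        simp only [Nat.cast_zero, zero_mul, add_zero] at h3
        omega
      obtain ⟨j, hj, h1, h2⟩ := find_cell (fun j => ⌊Real.exp (K0 + j * l)⌋₊) (n := B) (t := t) h0
        (by simpa using h.le) h3
      refine w2 j (Finset.mem_range.2 hj) t h1 ?_
      have : u j + l = K0 + ((j + 1 : ℕ) : ℝ) * l := by
        simp only [hu]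
        push_cast
        ring
      rw [this]
      exact h2
  have hmain : (PA a).real ((⋂ i ∈ Finset.range t0, {ω | 0 ≤ NS i T ω})
      ∩ (⋂ j ∈ Finset.range B, blkB (u j) T l))
      ≤ (PA a).real {ω | ∀ t : ℕ, (t : ℝ) ≤ 1 / (K0 * Real.exp l) * T → 0 ≤ GB T t ω} :=
    measureReal_mono hsub (measure_ne_top _ _)
  refine le_trans ?_ hmain
  refine le_trans ?_ hH2
  exact mul_le_mul hbotP (hpB.trans (hprod.trans hH)) (Real.exp_pos _).le measureReal_nonneg

end Pool.Agent.Helper95.Dom
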