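import Pool.Agent.Helper95.DomKol
import Pool.Agent.Helper95.DomTail3
import Pool.Agent.Helper95.DomLow

/-!
The event for the large parts in the lower bound.
-/

namespace Pool.Agent.Helper95.Dom

open MeasureTheory ProbabilityTheory Filter
open scoped Topology ENNReal

/-- a uniform lower bound for the probability that `N_T` is of order `√N`. -/
theorem push_prob {b lam : ℝ} (hb : 2 ≤ b) (hlam : 0 ≤ lam) : ∃ c a0 : ℝ, 0 < c ∧ 1 ≤ a0 ∧
    ∀ (a : ℝ) (N T S : ℕ), a0 ≤ a → a ≤ N → (N : ℝ) ≤ a + 1 → 2 * a ≤ T → (T : ℝ) ≤ b * a →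
      T + N ≤ S → c ≤ (PA a).real {ω | lam * √N ≤ NS T S ω} := by
  set h : ℝ := lam + 8 with hh
  have hh0 : 0 < h := by rw [hh]; linarith
  refine ⟨1 / 4 * Real.exp (-(2 * h ^ 2 * Real.exp (b + 2))),
    max 1 (4 * h ^ 2 * Real.exp (b + 2)), by positivity, le_max_left _ _, ?_⟩
  intro a N T S ha haN hNa hT hT' hTS
  have ha1 : 1 ≤ a := (le_max_left _ _).trans ha
  have hbig : 4 * h ^ 2 * Real.exp (b + 2) ≤ a := (le_max_right _ _).trans ha
  have hpos : 0 < a := by linarith
  have hN0 : (0 : ℝ) < N := by linarith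
  have hsN : 0 < √(N : ℝ) := Real.sqrt_pos.2 hN0
  have hsN2 : √(N : ℝ) ^ 2 = N := Real.sq_sqrt hN0.le
  have hee : Real.exp (b + 2) * Real.exp (-(b + 2)) = 1 := by rw [← Real.exp_add]; simp
  have he0 := Real.exp_pos (-(b + 2))
  have heb : 1 ≤ Real.exp (b + 2) := Real.one_le_exp (by linarith)
  set η : ℝ := h / √(N : ℝ) with hη
  have hη0 : 0 < η := by positivity
  have hη2 : η ^ 2 = h ^ 2 / N := by rw [hη, div_pow, hsN2]
  have hη2' : η ^ 2 ≤ Real.exp (-(b + 2)) / 4 := by
    rw [hη2, div_le_iff₀ hN0]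
    have h1 : 4 * h ^ 2 * Real.exp (b + 2) ≤ N := by linarith
    have h2 := mul_le_mul_of_nonneg_right h1 he0.le
    have h3 : 4 * h ^ 2 * Real.exp (b + 2) * Real.exp (-(b + 2)) = 4 * h ^ 2 := by
      rw [mul_assoc, hee, mul_one]
    rw [h3] at h2
    linarith
  have hη1 : η ≤ 1 / 2 := by
    have h1 : Real.exp (-(b + 2)) ≤ 1 := Real.exp_le_one_iff.2 (by linarith)
    nlinarith
  set I := Finset.Ioc T (T + N) with hI
  set ν : ℕ → ℝ := fun s => mu a s + if s ∈ I then η else 0 with hν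
  have hν0 : ∀ s, 0 ≤ ν s := by
    intro s
    have := mu_nonneg hpos s
    simp only [hν]
    split_ifs <;> linarith
  have hmu0 : ∀ s, 0 ≤ mu a s := mu_nonneg hpos
  have hmul : ∀ s ∈ I, Real.exp (-(b + 2)) ≤ mu a s := by
    intro s hs
    rw [hI, Finset.mem_Ioc] at hs
    refine le_trans ?_ (mu_exp_le hpos (by omega))
    apply Real.exp_le_exp.2
    have h1 : (s : ℝ) ≤ T + N := by exact_mod_cast hs.2
    have h2 : (s : ℝ) / a ≤ b + 2 := by rw [div_le_iff₀ hpos]; linarith
    linarith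
  have hxx : 0 < 8 * √(N : ℝ) := by positivity
  have B := kolm_gen hν0 hmu0 (fun _ => 1) (fun _ => -1) (show T ≤ S by omega) hxx
  have hS1 : ∑ s ∈ Finset.Ioc T S, (2 * (1 : ℝ) ^ 2 * (ν s * (1 + ν s))
        + 2 * (-1 : ℝ) ^ 2 * (mu a s * (1 + mu a s))) ≤ 32 * (N : ℝ) := by
    calc _ ≤ ∑ s ∈ Finset.Ioc T S, (12 * Real.exp (-((s : ℝ) / a)) + if s ∈ I then (4 : ℝ) else 0) := by
          apply Finset.sum_le_sum
          intro s hs
          rw [Finset.mem_Ioc] at hs
          have h0 : (T : ℝ) ≤ s := by exact_mod_cast hs.1.le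
          have h1 := vv_le_six hpos (by linarith : a ≤ s)
          unfold vv at h1
          have h2 := mu_small' hpos (by linarith : 2 * a ≤ s)
          have h3 := hmu0 s
          simp only [hν]
          split_ifs
          · nlinarith
          · have : mu a s + 0 = mu a s := by ring
            rw [this]
            nlinarith
      _ = 12 * ∑ s ∈ Finset.Ioc T S, Real.exp (-((s : ℝ) / a))
          + ∑ s ∈ Finset.Ioc T S, (if s ∈ I then (4 : ℝ) else 0) := by
          rw [Finset.sum_add_distrib, Finset.mul_sum]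
      _ ≤ 12 * (1 + a) + 4 * N := by
          apply add_le_add
          · apply mul_le_mul_of_nonneg_left _ (by norm_num)
            refine (sum_exp_Ioc ha1 T S).trans ?_
            have : Real.exp (-((T : ℝ) / a)) ≤ 1 := Real.exp_le_one_iff.2 (by
              have : 0 ≤ (T : ℝ) / a := by positivity
              linarith)
            nlinarith
          · rw [Finset.sum_ite_mem, Finset.inter_eq_right.2 (Finset.Ioc_subset_Ioc_right hTS),
              Finset.sum_const, Nat.card_Ioc, nsmul_eq_mul]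
            have : T + N - T = N := by omega
            rw [this]
            linarith
      _ ≤ 32 * N := by linarith
  have B2 := B.trans (div_le_div_of_nonneg_right hS1 (by positivity))
  have hval : 32 * (N : ℝ) / (8 * √(N : ℝ)) ^ 2 = 1 / 2 := by
    rw [mul_pow, hsN2]; field_simp; norm_num
  rw [hval] at B2
  set E : Set Om := {ω | lam * √(N : ℝ) ≤ NS T S ω} with hE
  have hEdep : ∀ ω ω' : Om, (∀ s ∈ Finset.Ioc T S, ω s = ω' s) → (ω ∈ E ↔ ω' ∈ E) := by
    intro ω ω' h
    simp only [hE, Set.mem_ofPred_eq, NS_dep T S ω ω' h]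
  have hEm : MeasurableSet E := measSet_of_dep _ hEdep
  have hcover : Eᶜ ⊆ {ω | ∃ t, T ≤ t ∧ t ≤ S ∧ 8 * √(N : ℝ)
      ≤ |∑ s ∈ Finset.Ioc t S, (1 * (ma s ω - ν s) + -1 * (mb s ω - mu a s))|} := by
    intro ω hω
    refine ⟨T, le_rfl, by omega, ?_⟩
    have h1 : NS T S ω < lam * √(N : ℝ) := not_le.1 hω
    have h2 : ∑ s ∈ Finset.Ioc T S, (1 * (ma s ω - ν s) + -1 * (mb s ω - mu a s))
        = NS T S ω - N * η := by
      have h3 : ∑ s ∈ Finset.Ioc T S, (if s ∈ I then η else 0) = N * η := by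
        rw [Finset.sum_ite_mem, Finset.inter_eq_right.2 (Finset.Ioc_subset_Ioc_right hTS),
          Finset.sum_const, Nat.card_Ioc, nsmul_eq_mul]
        have : T + N - T = N := by omega
        rw [this]
      rw [← h3]
      unfold NS
      rw [← Finset.sum_sub_distrib]
      apply Finset.sum_congr rfl
      intro s _
      simp only [hν, xs]
      ring
    have h4 : (N : ℝ) * η = h * √(N : ℝ) := by
      rw [hη]
      field_simp
      rw [hsN2]
    rw [h2, h4, hh]
    rw [le_abs]
    right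
    linarith
  have hcompl := (measureReal_mono (μ := PP ν (mu a)) hcover (measure_ne_top _ _)).trans B2
  have hhalf : 1 / 2 ≤ (PP ν (mu a)).real E := by
    have := probReal_add_probReal_compl (μ := PP ν (mu a)) hEm
    linarith
  have hdiff : ∀ s ∈ I, ν s - mu a s = η := by
    intro s hs
    simp only [hν, if_pos hs]
    ring
  have htilt := tilt (mu a) (mu a) ν (mu a) I (Finset.Ioc T S) hEdep
    (fun s hs => by
      have h1 := hmul s hs
      exact ⟨by linarith, by linarith, hν0 s, hmu0 s⟩)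
    (fun s hs => by simp only [hν, if_neg hs, add_zero, and_self])
    (fun s hs => by
      have h1 := hmul s hs
      have h2 := hmu0 s
      rw [hdiff s hs, sub_self]
      constructor <;> nlinarith)
    (X := 2 * h ^ 2 * Real.exp (b + 2)) (by
      calc ∑ s ∈ I, 2 * ((ν s - mu a s) ^ 2 / (mu a s * (1 + mu a s))
            + (mu a s - mu a s) ^ 2 / (mu a s * (1 + mu a s)))
          ≤ ∑ s ∈ I, 2 * (η ^ 2 * Real.exp (b + 2)) := by
            apply Finset.sum_le_sum
            intro s hs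
            rw [hdiff s hs, sub_self]
            have h1 := hmul s hs
            have h2 := hmu0 s
            have h3 : η ^ 2 / (mu a s * (1 + mu a s)) ≤ η ^ 2 * Real.exp (b + 2) := by
              have h4 : mu a s ≤ mu a s * (1 + mu a s) := by nlinarith
              rw [div_le_iff₀ (by linarith)]
              calc η ^ 2 = η ^ 2 * (Real.exp (b + 2) * Real.exp (-(b + 2))) := by rw [hee, mul_one]
                _ ≤ η ^ 2 * (Real.exp (b + 2) * (mu a s * (1 + mu a s))) := by
                    apply mul_le_mul_of_nonneg_left _ (sq_nonneg _)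
                    exact mul_le_mul_of_nonneg_left (h1.trans h4) (Real.exp_pos _).le
                _ = _ := by ring
            have h5 : (0 : ℝ) ^ 2 / (mu a s * (1 + mu a s)) = 0 := by simp
            rw [h5]
            linarith
        _ = N * (2 * (η ^ 2 * Real.exp (b + 2))) := by
            rw [Finset.sum_const, hI, Nat.card_Ioc, nsmul_eq_mul]
            have : T + N - T = N := by omega
            rw [this]
        _ = 2 * h ^ 2 * Real.exp (b + 2) := by
            rw [hη2]; field_simp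
        _ ≤ _ := le_rfl)
  have h4 : (1 / 2 : ℝ) ^ 2 ≤ ((PP ν (mu a)).real E) ^ 2 := pow_le_pow_left₀ (by norm_num) hhalf 2
  have h5 := h4.trans htilt
  show 1 / 4 * Real.exp (-(2 * h ^ 2 * Real.exp (b + 2))) ≤ (PP (mu a) (mu a)).real E
  rw [Real.exp_neg, ← div_eq_mul_inv, div_le_iff₀ (Real.exp_pos _)]
  linarith

/-- the event for the large parts. -/
def Hev (a lam k : ℝ) (N T S : ℕ) : Set Om :=
  {ω | (∀ t, T ≤ t → 0 ≤ DA S t ω) ∧ lam * √N ≤ NS T S ω
    ∧ |∑ s ∈ Finset.Ioc T S, (ma s ω - mu a s)| < k * √(Real.log a) * √a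
    ∧ |∑ s ∈ Finset.Ioc T S, (mb s ω - mu a s)| < k * √(Real.log a) * √a
    ∧ |∑ s ∈ Finset.Ioc T S, (s : ℝ) * (ma s ω - mu a s)| < k * √(Real.log a) * (a * √a)
    ∧ |∑ s ∈ Finset.Ioc T S, (s : ℝ) * (mb s ω - mu a s)| < k * √(Real.log a) * (a * √a)}

theorem hi_event {δ k : ℝ} (hδ : 0 < δ) (hk : 0 < k) : ∃ b : ℝ, 10 ≤ b ∧ ∀ lam : ℝ, 0 ≤ lam →
    ∃ c a0 : ℝ, 0 < c ∧ 1 ≤ a0 ∧ ∀ (a : ℝ) (N S : ℕ), a0 ≤ a → a ≤ N → (N : ℝ) ≤ a + 1 →
      a ^ 2 ≤ 6 * (S : ℝ) →
      c * Real.exp (-((theta + δ) * Real.log a)) ≤ (PA a).real (Hev a lam k N ⌊a * b⌋₊ S) := by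
  obtain ⟨b0, cA, aA, hb0, hcA, haA, HA⟩ := hi_lower hδ
  set K' : ℝ := theta + δ + 1 with hK'
  have hK'0 : 0 < K' := by have := theta_nonneg; rw [hK']; linarith
  set v0 : ℝ := k ^ 2 / (480 * K') with hv0
  have hv00 : 0 < v0 := by positivity
  -- choose b
  set b : ℝ := max (max b0 10) (1 - 4 * Real.log v0) with hb
  have hbb0 : b0 ≤ b := (le_max_left _ _).trans (le_max_left _ _)
  have hb10 : 10 ≤ b := (le_max_right _ _).trans (le_max_left _ _)
  have hbv : 1 - 4 * Real.log v0 ≤ b := le_max_right _ _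
  refine ⟨b, hb10, fun lam hlam => ?_⟩
  obtain ⟨cB, aB, hcB, haB, HB⟩ := push_prob (b := b) (by linarith) hlam
  obtain ⟨a1, ha1, T1⟩ := tail_one_log (k := k) (v0 := v0) (K' := K') hk hv00 (by
    have h1 : k ^ 2 / (480 * v0) = K' := by rw [hv0]; field_simp
    rw [← h1]
    apply div_le_div_of_nonneg_left (by positivity) (by positivity)
    linarith)
  obtain ⟨a2, ha2, T2⟩ := tail_high_log (k := k) (v0 := v0) (K' := K') hk hv00 (by
    have h1 : k ^ 2 / (480 * v0) = K' := by rw [hv0]; field_simp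
    rw [h1])
  obtain ⟨a3, ha3, L3⟩ := exists_log_le (show (0 : ℝ) < 1 / 4 by norm_num)
  refine ⟨cA * cB / 2, max (max (max aA aB) (max a1 a2)) (max (max a3 (100 * (b + 2))) (16 / (cA * cB))),
    by positivity, haA.trans ((le_max_left _ _).trans ((le_max_left _ _).trans (le_max_left _ _))), ?_⟩
  intro a N S ha haN hNa hS
  simp only [max_le_iff] at ha
  obtain ⟨⟨⟨hA1, hA2⟩, hA3, hA4⟩, ⟨hA5, hA6⟩, hA7⟩ := ha
  have ha1' : 1 ≤ a := haA.trans hA1
  have hpos : 0 < a := by linarith
  have hlog : 0 ≤ Real.log a := Real.log_nonneg ha1'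
  have hlog2 := L3 a hA5
  have hSa : a / 6 ≤ (S : ℝ) / a := by
    rw [le_div_iff₀ hpos]; nlinarith
  set T : ℕ := ⌊a * b⌋₊ with hT
  have hab0 : 0 ≤ a * b := by positivity
  have hTle : (T : ℝ) ≤ a * b := Nat.floor_le hab0
  have hTgt : a * b < T + 1 := Nat.lt_floor_add_one _
  have hTa : a * (b - 1) ≤ T := by nlinarith
  -- the two increasing events
  set A : Set Om := {ω | ∀ t, T ≤ t → 0 ≤ DA S t ω} with hAdef
  set B : Set Om := {ω | lam * √(N : ℝ) ≤ NS T S ω} with hBdef
  have incA : Inc (Finset.Icc 1 S) A := by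
    intro ω hω ω' hh t ht
    refine (hω t ht).trans (DA_mono S t ω ω' fun s hs => hh s ?_)
    rw [Finset.mem_Ioc] at hs
    rw [Finset.mem_Icc]
    omega
  have incB : Inc (Finset.Icc 1 S) B := by
    intro ω hω ω' hh
    have h1 : lam * √(N : ℝ) ≤ NS T S ω := hω
    refine h1.trans (NS_mono T S ω ω' fun s hs => hh s ?_)
    rw [Finset.mem_Ioc] at hs
    rw [Finset.mem_Icc]
    omega
  have hPA : cA * Real.exp (-((theta + δ) * Real.log a)) ≤ (PA a).real A := by
    refine (HA a S hA1 ?_).trans (measureReal_mono ?_ (measure_ne_top _ _))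
    · refine le_trans ?_ hSa
      have h1 : Real.log a ≤ a / 16 := by
        have : ((1 : ℝ) / 4) ^ 2 * a = a / 16 := by ring
        linarith
      linarith
    · intro ω hω t ht
      apply hω t
      refine le_trans (Nat.floor_le_floor ?_) ht
      exact mul_le_mul_of_nonneg_left hbb0 hpos.le
  have hPB : cB ≤ (PA a).real B := by
    apply HB a N T S hA2 haN hNa
    · nlinarith
    · linarith
    · have h1 : (T : ℝ) + N ≤ S := by
        have h2 : (T : ℝ) + N ≤ a * b + (a + 1) := by linarith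
        have h3 : a * b + (a + 1) ≤ a * (b + 2) := by nlinarith
        have h4 : a * (b + 2) ≤ a * (a / 100) := mul_le_mul_of_nonneg_left (by linarith) hpos.le
        nlinarith
      exact_mod_cast h1
  have hAB : cA * cB * Real.exp (-((theta + δ) * Real.log a)) ≤ (PA a).real (A ∩ B) := by
    have h1 := harris (mu a) (mu a) incA incB
    have h2 : (PA a).real A * (PA a).real B ≤ (PA a).real (A ∩ B) := h1
    refine le_trans ?_ h2
    calc cA * cB * Real.exp (-((theta + δ) * Real.log a))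
        = cA * Real.exp (-((theta + δ) * Real.log a)) * cB := by ring
      _ ≤ _ := mul_le_mul hPA hPB hcB.le measureReal_nonneg
  -- the tails
  have hTa1 : a ≤ T + 1 := by nlinarith
  have hexp1 : Real.exp (-((T : ℝ) / (4 * a))) ≤ v0 := by
    rw [← Real.exp_log hv00]
    apply Real.exp_le_exp.2
    have h1 : (b - 1) / 4 ≤ (T : ℝ) / (4 * a) := by
      rw [div_le_div_iff₀ (by norm_num) (by positivity)]
      nlinarith
    linarith
  have hexp2 : Real.exp (-((T : ℝ) / a)) ≤ v0 := by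
    refine le_trans (Real.exp_le_exp.2 ?_) hexp1
    have h1 : (T : ℝ) / (4 * a) ≤ (T : ℝ) / a :=
      div_le_div_of_nonneg_left (Nat.cast_nonneg _) hpos (by linarith)
    linarith
  have t1 := T1 a T S hA3 hTa1 hexp2
  have t2 := t1
  rw [← swp_ma_one a (Finset.Ioc T S)] at t2
  have t3 := T2 a T S hA4 hTa1 hexp1
  have t4 := t3
  rw [← swp_ma a (Finset.Ioc T S) (fun s => (s : ℝ))] at t4
  have hcover : A ∩ B ⊆ Hev a lam k N T S ∪ (({ω | k * √(Real.log a) * √a ≤ |∑ s ∈ Finset.Ioc T S, (ma s ω - mu a s)|}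
      ∪ {ω | k * √(Real.log a) * √a ≤ |∑ s ∈ Finset.Ioc T S, (mb s ω - mu a s)|})
      ∪ ({ω | k * √(Real.log a) * (a * √a) ≤ |∑ s ∈ Finset.Ioc T S, (s : ℝ) * (ma s ω - mu a s)|}
      ∪ {ω | k * √(Real.log a) * (a * √a) ≤ |∑ s ∈ Finset.Ioc T S, (s : ℝ) * (mb s ω - mu a s)|})) := by
    intro ω hω
    by_contra hcon
    simp only [Set.mem_union, not_or] at hcon
    obtain ⟨c0, ⟨c1, c2⟩, c3, c4⟩ := hcon
    exact c0 ⟨hω.1, hω.2, not_le.1 c1, not_le.1 c2, not_le.1 c3, not_le.1 c4⟩
  have h1 := (measureReal_mono (μ := PA a) hcover (measure_ne_top _ _)).trans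
    ((measureReal_union_le _ _).trans (add_le_add_right ((measureReal_union_le _ _).trans
      (add_le_add (measureReal_union_le _ _) (measureReal_union_le _ _))) _))
  have h2 : Real.exp (-(K' * Real.log a)) = Real.exp (-((theta + δ) * Real.log a)) / a := by
    have : -(K' * Real.log a) = -((theta + δ) * Real.log a) - Real.log a := by rw [hK']; ring
    rw [this, Real.exp_sub, Real.exp_log hpos]
  rw [h2] at t1 t2 t3 t4
  set e := Real.exp (-((theta + δ) * Real.log a)) with he
  have he0 : 0 < e := Real.exp_pos _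
  have h3 : e / a ≤ cA * cB / 16 * e := by
    rw [div_le_iff₀ hpos]
    have h4 : 1 ≤ cA * cB / 16 * a := by
      rw [div_le_iff₀ (by positivity)] at hA7
      linarith
    nlinarith
  linarith

end Pool.Agent.Helper95.Dom
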