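import Pool.Agent.Helper95.DomKol
import Pool.Agent.Helper95.DomTail3
import Pool.Agent.Helper95.DomLow

/-!
The event for the small parts in the lower bound.
-/

namespace Pool.Agent.Helper95.Dom

open MeasureTheory ProbabilityTheory Filter
open scoped Topology ENNReal

theorem GBs_swp (T t : ℕ) (ω : Om) : GB T t (swp ω) = -GB T t ω := by
  unfold GB
  rw [← Finset.sum_neg_distrib]
  apply Finset.sum_congr rfl
  intro s _
  rw [xs_swp]
  ring

theorem GB_dep (T t : ℕ) (ω ω' : Om) (h : ∀ s ∈ Finset.Icc 1 T, ω s = ω' s) :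
    GB T t ω = GB T t ω' := by
  unfold GB
  apply Finset.sum_congr rfl
  intro s hs
  have : xs s ω = xs s ω' := by unfold xs ma mb; rw [h s hs]
  rw [this]

/-- `GB` is not too negative near the top. -/
theorem GB_mid {e κ k : ℝ} (he : 0 < e) (he1 : e ≤ 1) (hκ : 0 < κ) (hk : 0 < k) :
    ∃ a0 : ℝ, 1 ≤ a0 ∧ ∀ (a : ℝ) (N : ℕ), a0 ≤ a → a ≤ N →
      1 / 2 ≤ (PA a).real {ω | ∀ t : ℕ, κ * ⌊e * a⌋₊ < t → t ≤ ⌊e * a⌋₊ →
        -(t * (k * √(Real.log a) * √N)) ≤ GB ⌊e * a⌋₊ t ω} := by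
  -- the size of Λ² needed
  set M : ℝ := 256 / (κ ^ 3 * k ^ 2 * e) + 256 / (κ ^ 2 * k ^ 2 * e) with hM
  have hM0 : 0 < M := by positivity
  refine ⟨max (max 1 (2 / e)) (Real.exp M), (le_max_left _ _).trans (le_max_left _ _), ?_⟩
  intro a N ha haN
  simp only [max_le_iff] at ha
  obtain ⟨⟨ha1, ha2⟩, ha3⟩ := ha
  have hpos : 0 < a := by linarith
  have hN0 : (0 : ℝ) < N := by linarith
  have hlogM : M ≤ Real.log a := (Real.le_log_iff_exp_le hpos).2 ha3
  have hlog : 0 < Real.log a := by linarith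
  set Λ := √(Real.log a) with hΛ
  have hΛ2 : Λ ^ 2 = Real.log a := Real.sq_sqrt hlog.le
  have hΛ0 : 0 < Λ := Real.sqrt_pos.2 hlog
  have hsN : 0 < √(N : ℝ) := Real.sqrt_pos.2 hN0
  have hsN2 : √(N : ℝ) ^ 2 = N := Real.sq_sqrt hN0.le
  have hea : 2 ≤ e * a := by
    rw [div_le_iff₀ he] at ha2; linarith
  set T : ℕ := ⌊e * a⌋₊ with hT
  have hTle : (T : ℝ) ≤ e * a := Nat.floor_le (by positivity)
  have hTgt : e * a < T + 1 := Nat.lt_floor_add_one _
  have hThalf : e * a / 2 ≤ T := by linarith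
  have hT1 : (1 : ℝ) ≤ T := by linarith
  have hT0 : (0 : ℝ) < T := by linarith
  have hT1' : 1 ≤ T := by exact_mod_cast hT1
  set u : ℝ := k * Λ * √(N : ℝ) with hu
  have hu0 : 0 < u := by positivity
  have hu2 : u ^ 2 = k ^ 2 * Real.log a * N := by rw [hu, mul_pow, mul_pow, hΛ2, hsN2]
  set t0 : ℕ := ⌊κ * T⌋₊ + 1 with ht0
  have ht0κ : κ * T < t0 := by
    have := Nat.lt_floor_add_one (κ * T)
    rw [ht0]; push_cast; exact this
  -- if κ T ≥ T the statement is trivial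
  rcases le_or_gt T t0 with htriv | hmain
  · have huniv : {ω : Om | ∀ t : ℕ, κ * T < t → t ≤ T → -(t * u) ≤ GB T t ω}
        ⊇ {ω : Om | -(T * u) ≤ GB T T ω} := by
      intro ω hω t ht ht'
      have h1 : t0 ≤ t := by
        rw [ht0, Nat.add_one_le_iff, Nat.floor_lt (by positivity)]
        exact ht
      have h2 : t = T := by omega
      rw [h2]
      exact hω
    refine le_trans ?_ (measureReal_mono huniv (measure_ne_top _ _))
    have h1 := half_le (a := a) (Finset.Icc 1 T) (GB T T) (GB_dep T T) (GBs_swp T T)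
    refine h1.trans (measureReal_mono ?_ (measure_ne_top _ _))
    intro ω hω
    have h2 : 0 ≤ GB T T ω := hω
    have h3 : 0 ≤ (T : ℝ) * u := by positivity
    show -(T * u) ≤ GB T T ω
    linarith
  -- main case
  have ht00 : (0 : ℝ) < t0 := by rw [ht0]; positivity
  set y : ℝ := κ * u / 2 with hy
  have hy0 : 0 < y := by positivity
  set z : ℝ := κ * T * u / 2 with hz
  have hz0 : 0 < z := by positivity
  have B1 := kolm hpos T t0 hmain.le hy0
  have B1' : (∑ s ∈ Finset.Ioc t0 T, vv (mu a) s) / y ^ 2 ≤ 1 / 4 := by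
    have h1 : ∑ s ∈ Finset.Ioc t0 T, vv (mu a) s ≤ 2 * a ^ 2 * (1 / (κ * T)) := by
      calc _ ≤ ∑ s ∈ Finset.Ioc t0 T, 2 * a ^ 2 * (1 / (s : ℝ) ^ 2) := by
            apply Finset.sum_le_sum
            intro s _
            refine (vv_le hpos s).trans (le_of_eq ?_)
            ring
        _ = 2 * a ^ 2 * ∑ s ∈ Finset.Ioc t0 T, 1 / (s : ℝ) ^ 2 := by rw [Finset.mul_sum]
        _ ≤ 2 * a ^ 2 * (1 / (t0 : ℝ) - 1 / (T : ℝ)) :=
            mul_le_mul_of_nonneg_left (sum_inv_sq_le (by omega) hmain.le) (by positivity)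
        _ ≤ 2 * a ^ 2 * (1 / (κ * T)) := by
            apply mul_le_mul_of_nonneg_left _ (by positivity)
            have h1 : 1 / (t0 : ℝ) ≤ 1 / (κ * T) := one_div_le_one_div_of_le (by positivity) ht0κ.le
            have h2 : 0 ≤ 1 / (T : ℝ) := by positivity
            linarith
    rw [div_le_iff₀ (by positivity)]
    refine h1.trans ?_
    have h2 : y ^ 2 = κ ^ 2 * (k ^ 2 * Real.log a * N) / 4 := by
      rw [hy, div_pow, mul_pow, hu2]; norm_num
    rw [h2]
    have h3 : 256 / (κ ^ 3 * k ^ 2 * e) ≤ Real.log a := by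
      have : 0 < 256 / (κ ^ 2 * k ^ 2 * e) := by positivity
      linarith
    rw [div_le_iff₀ (by positivity)] at h3
    rw [mul_one_div, div_le_iff₀ (by positivity)]
    -- 2 a² ≤ (1/4) * (κ² k² log a N / 4) * (κ T)
    have h4 : a ^ 2 ≤ 2 / e * (N * T) := by
      have h5 : a * (e * a / 2) ≤ N * T := mul_le_mul haN hThalf (by positivity) hN0.le
      rw [div_mul_eq_mul_div, le_div_iff₀ he]
      nlinarith
    have h6 : 2 * (2 / e * (N * T)) ≤ 1 / 4 * (κ ^ 2 * (k ^ 2 * Real.log a * N) / 4) * (κ * T) := by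
      have h7 : 0 ≤ (N : ℝ) * T := by positivity
      have h8 : 4 / e ≤ κ ^ 3 * k ^ 2 * Real.log a / 16 := by
        rw [div_le_iff₀ he]
        nlinarith
      calc 2 * (2 / e * (N * T)) = 4 / e * (N * T) := by ring
        _ ≤ κ ^ 3 * k ^ 2 * Real.log a / 16 * (N * T) := mul_le_mul_of_nonneg_right h8 h7
        _ = _ := by ring
    linarith
  have hmu0 : ∀ s, 0 ≤ mu a s := mu_nonneg hpos
  have B2 := kolm_gen hmu0 hmu0 (fun s => (s : ℝ)) (fun s => -(s : ℝ)) (Nat.zero_le T) hz0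
  have B2' : (∑ s ∈ Finset.Ioc 0 T, (2 * ((s : ℝ)) ^ 2 * (mu a s * (1 + mu a s))
        + 2 * (-(s : ℝ)) ^ 2 * (mu a s * (1 + mu a s)))) / z ^ 2 ≤ 1 / 4 := by
    have h1 : ∑ s ∈ Finset.Ioc 0 T, (2 * ((s : ℝ)) ^ 2 * (mu a s * (1 + mu a s))
        + 2 * (-(s : ℝ)) ^ 2 * (mu a s * (1 + mu a s))) ≤ 4 * a ^ 2 * T := by
      calc _ ≤ ∑ s ∈ Finset.Ioc 0 T, 4 * a ^ 2 := by
            apply Finset.sum_le_sum
            intro s hs
            rw [Finset.mem_Ioc] at hs
            have hs0 : (0 : ℝ) < s := by exact_mod_cast hs.1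
            have h2 := vv_le hpos s
            unfold vv at h2
            rw [le_div_iff₀ (by positivity)] at h2
            rw [neg_sq]
            linarith
        _ = 4 * a ^ 2 * T := by
            rw [Finset.sum_const, Nat.card_Ioc, nsmul_eq_mul, Nat.sub_zero]; ring
    rw [div_le_iff₀ (by positivity)]
    refine h1.trans ?_
    have h2 : z ^ 2 = κ ^ 2 * (T : ℝ) ^ 2 * (k ^ 2 * Real.log a * N) / 4 := by
      rw [hz, div_pow, mul_pow, mul_pow, hu2]; norm_num
    rw [h2]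
    have h3 : 256 / (κ ^ 2 * k ^ 2 * e) ≤ Real.log a := by
      have : 0 < 256 / (κ ^ 3 * k ^ 2 * e) := by positivity
      linarith
    rw [div_le_iff₀ (by positivity)] at h3
    have h4 : a ^ 2 ≤ 2 / e * (N * T) := by
      have h5 : a * (e * a / 2) ≤ N * T := mul_le_mul haN hThalf (by positivity) hN0.le
      rw [div_mul_eq_mul_div, le_div_iff₀ he]
      nlinarith
    have h6 : 4 * (2 / e * (N * T)) * T
        ≤ 1 / 4 * (κ ^ 2 * (T : ℝ) ^ 2 * (k ^ 2 * Real.log a * N) / 4) := by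
      have h7 : 0 ≤ (N : ℝ) * T * T := by positivity
      have h8 : 8 / e ≤ κ ^ 2 * k ^ 2 * Real.log a / 16 := by
        rw [div_le_iff₀ he]
        nlinarith
      calc 4 * (2 / e * (N * T)) * T = 8 / e * (N * T * T) := by ring
        _ ≤ κ ^ 2 * k ^ 2 * Real.log a / 16 * (N * T * T) := mul_le_mul_of_nonneg_right h8 h7
        _ = _ := by ring
    have h9 : 4 * a ^ 2 * T ≤ 4 * (2 / e * (N * T)) * T := by
      have := mul_le_mul_of_nonneg_right h4 hT0.le
      linarith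
    linarith
  have B1'' := B1.trans B1'
  have B2'' := B2.trans B2'
  set E : Set Om := {ω | ∀ t : ℕ, κ * T < t → t ≤ T → -(t * u) ≤ GB T t ω} with hE
  have hEm : MeasurableSet E := by
    apply measSet_of_dep (Finset.Icc 1 T)
    intro ω ω' h
    simp only [hE, Set.mem_ofPred_eq, GB_dep T _ ω ω' h]
  have hcover : Eᶜ ⊆ {ω | ∃ t, t0 ≤ t ∧ t ≤ T ∧ y ≤ |NS t T ω|}
      ∪ {ω | ∃ t, 0 ≤ t ∧ t ≤ T ∧ z ≤ |∑ s ∈ Finset.Ioc t T,
        ((s : ℝ) * (ma s ω - mu a s) + -(s : ℝ) * (mb s ω - mu a s))|} := by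
    intro ω hω
    by_contra hcon
    simp only [Set.mem_union, Set.mem_ofPred_eq, not_or, not_exists, not_and, not_le] at hcon
    obtain ⟨c1, c2⟩ := hcon
    apply hω
    intro t ht ht'
    have h1 : t0 ≤ t := by
      rw [ht0, Nat.add_one_le_iff, Nat.floor_lt (by positivity)]
      exact ht
    have h2 : GB T T ω = ∑ s ∈ Finset.Ioc 0 T,
        ((s : ℝ) * (ma s ω - mu a s) + -(s : ℝ) * (mb s ω - mu a s)) := by
      unfold GB
      rw [Icc_eq_Ioc]
      apply Finset.sum_congr rfl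
      intro s hs
      rw [Finset.mem_Ioc] at hs
      rw [min_eq_left hs.2]
      unfold xs
      ring
    have h3 := c2 0 le_rfl (Nat.zero_le _)
    rw [← h2] at h3
    have h4 := GB_split ht' le_rfl ω
    have h5 : NS T T ω = 0 := by unfold NS; simp
    rw [h5, mul_zero, sub_zero] at h4
    have h6 := RR_bound hy0.le ω (fun i hi hi' => (c1 i hi hi').le) t h1 ht'
    have h7 : ((T : ℝ) - t0) * y ≤ T * y := mul_le_mul_of_nonneg_right (by linarith) hy0.le
    have h8 : (T : ℝ) * y + z = κ * T * u := by rw [hy, hz]; ring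
    have h9 : κ * T * u ≤ t * u := mul_le_mul_of_nonneg_right ht.le hu0.le
    have h10 := (abs_lt.1 h3).1
    have h11 := (abs_le.1 h6).2
    rw [h4]
    linarith
  have h1 := (measureReal_mono (μ := PA a) hcover (measure_ne_top _ _)).trans
    (measureReal_union_le _ _)
  have h2 : (PA a).real Eᶜ ≤ 1 / 2 := by
    have B2''' : (PA a).real {ω | ∃ t, 0 ≤ t ∧ t ≤ T ∧ z ≤ |∑ s ∈ Finset.Ioc t T,
        ((s : ℝ) * (ma s ω - mu a s) + -(s : ℝ) * (mb s ω - mu a s))|} ≤ 1 / 4 := B2''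
    linarith
  have h3 := probReal_add_probReal_compl (μ := PA a) hEm
  linarith

/-- the event for the small parts. -/
def Lev (a k : ℝ) (N T : ℕ) : Set Om :=
  {ω | (∀ t : ℕ, t ≤ T → GB T t ω ≤ t * (k * √(Real.log a) * √N))
    ∧ |∑ s ∈ Finset.Icc 1 T, (s : ℝ) * (ma s ω - mu a s)| < k * √(Real.log a) * (a * √a)
    ∧ |∑ s ∈ Finset.Icc 1 T, (s : ℝ) * (mb s ω - mu a s)| < k * √(Real.log a) * (a * √a)}

theorem lo_event {δ k : ℝ} (hδ : 0 < δ) (hk : 0 < k) : ∃ e : ℝ, 0 < e ∧ e ≤ 1 ∧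
    ∃ c a0 : ℝ, 0 < c ∧ 1 ≤ a0 ∧ ∀ (a : ℝ) (N : ℕ), a0 ≤ a → a ≤ N →
      c * Real.exp (-((theta + δ) * Real.log a)) ≤ (PA a).real (Lev a k N ⌊e * a⌋₊) := by
  obtain ⟨κ, cA, T0, hκ, hcA, hT0, HA⟩ := lo_lower hδ
  set K' : ℝ := theta + δ + 1 with hK'
  have hθ := theta_nonneg
  have hK'0 : 0 < K' := by rw [hK']; linarith
  set e : ℝ := min 1 (k ^ 2 / (8 * K')) with he
  have he0 : 0 < e := lt_min one_pos (by positivity)
  have he1 : e ≤ 1 := min_le_left _ _
  have hev : e ≤ k ^ 2 / (8 * K') := min_le_right _ _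
  refine ⟨e, he0, he1, ?_⟩
  obtain ⟨aB, haB, HB⟩ := GB_mid he0 he1 hκ hk
  obtain ⟨a1, ha1, T1⟩ := tail_low_log (k := k) (e := e) (K' := K') hk he0 he1 (by
    rw [le_div_iff₀ (by positivity)]
    rw [le_div_iff₀ (by positivity)] at hev
    linarith)
  refine ⟨cA / 4, max (max aB a1) (max ((T0 + 1) / e) (16 / cA)), by positivity,
    haB.trans ((le_max_left _ _).trans (le_max_left _ _)), ?_⟩
  intro a N ha haN
  simp only [max_le_iff] at ha
  obtain ⟨⟨hA1, hA2⟩, hA3, hA4⟩ := ha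
  have ha1' : 1 ≤ a := haB.trans hA1
  have hpos : 0 < a := by linarith
  have hlog : 0 ≤ Real.log a := Real.log_nonneg ha1'
  set T : ℕ := ⌊e * a⌋₊ with hT
  have hTle : (T : ℝ) ≤ e * a := Nat.floor_le (by positivity)
  have hTgt : e * a < T + 1 := Nat.lt_floor_add_one _
  have hTT0 : T0 ≤ T := by
    rw [div_le_iff₀ he0] at hA3
    linarith
  have hTa : (T : ℝ) ≤ a := hTle.trans (by nlinarith)
  have hTpos : (0 : ℝ) < T := by linarith
  set u : ℝ := k * √(Real.log a) * √(N : ℝ) with hu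
  have hu0 : 0 ≤ u := by positivity
  set A : Set Om := {ω | ∀ t : ℕ, (t : ℝ) ≤ κ * T → 0 ≤ GB T t ω} with hAdef
  set B : Set Om := {ω | ∀ t : ℕ, κ * T < t → t ≤ T → -(t * u) ≤ GB T t ω} with hBdef
  have incA : Inc (Finset.Icc 1 T) A := by
    intro ω hω ω' hh t ht
    exact (hω t ht).trans (GB_mono T t ω ω' hh)
  have incB : Inc (Finset.Icc 1 T) B := by
    intro ω hω ω' hh t ht ht'
    exact (hω t ht ht').trans (GB_mono T t ω ω' hh)
  have hPA : cA * Real.exp (-((theta + δ) * Real.log a)) ≤ (PA a).real A := by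
    refine le_trans ?_ (HA a T hTT0 hTa)
    apply mul_le_mul_of_nonneg_left _ hcA.le
    apply Real.exp_le_exp.2
    have h1 := Real.log_le_log hTpos hTa
    have h2 : 0 ≤ theta + δ := by linarith
    nlinarith
  have hPB : 1 / 2 ≤ (PA a).real B := HB a N hA1 haN
  have hAB : cA / 2 * Real.exp (-((theta + δ) * Real.log a)) ≤ (PA a).real (A ∩ B) := by
    have h2 : (PA a).real A * (PA a).real B ≤ (PA a).real (A ∩ B) :=
      harris (mu a) (mu a) incA incB
    refine le_trans ?_ h2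
    calc cA / 2 * Real.exp (-((theta + δ) * Real.log a))
        = cA * Real.exp (-((theta + δ) * Real.log a)) * (1 / 2) := by ring
      _ ≤ _ := mul_le_mul hPA hPB (by norm_num) measureReal_nonneg
  have hswp : (PA a).real (swp ⁻¹' (A ∩ B)) = (PA a).real (A ∩ B) :=
    swp_real (mu a) ((incA.inter incB).meas)
  rw [← hswp] at hAB
  have t1 := T1 a T hA2 hTle
  have t2 := t1
  rw [← swp_ma a (Finset.Icc 1 T) (fun s => (s : ℝ))] at t2
  have hcover : swp ⁻¹' (A ∩ B) ⊆ Lev a k N T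
      ∪ ({ω | k * √(Real.log a) * (a * √a) ≤ |∑ s ∈ Finset.Icc 1 T, (s : ℝ) * (ma s ω - mu a s)|}
      ∪ {ω | k * √(Real.log a) * (a * √a) ≤ |∑ s ∈ Finset.Icc 1 T, (s : ℝ) * (mb s ω - mu a s)|}) := by
    intro ω hω
    by_contra hcon
    simp only [Set.mem_union, not_or] at hcon
    obtain ⟨c0, c3, c4⟩ := hcon
    refine c0 ⟨fun t ht => ?_, not_le.1 c3, not_le.1 c4⟩
    rcases le_or_gt (t : ℝ) (κ * T) with h | h
    · have h1 := hω.1 t h
      rw [GBs_swp] at h1
      have h2 : 0 ≤ (t : ℝ) * u := by positivity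
      linarith
    · have h1 := hω.2 t h ht
      rw [GBs_swp] at h1
      linarith
  have h1 := (measureReal_mono (μ := PA a) hcover (measure_ne_top _ _)).trans
    ((measureReal_union_le _ _).trans (add_le_add_right (measureReal_union_le _ _) _))
  have h2 : Real.exp (-(K' * Real.log a)) = Real.exp (-((theta + δ) * Real.log a)) / a := by
    have : -(K' * Real.log a) = -((theta + δ) * Real.log a) - Real.log a := by rw [hK']; ring
    rw [this, Real.exp_sub, Real.exp_log hpos]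
  rw [h2] at t1 t2
  set ee := Real.exp (-((theta + δ) * Real.log a)) with hee
  have he0' : 0 < ee := Real.exp_pos _
  have h3 : ee / a ≤ cA / 16 * ee := by
    rw [div_le_iff₀ hpos]
    have h4 : 1 ≤ cA / 16 * a := by
      rw [div_le_iff₀ hcA] at hA4
      linarith
    nlinarith
  linarith

end Pool.Agent.Helper95.Dom
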