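import Pool.Agent.Helper95.DomFF
import Pool.Agent.Helper95.DomHiEv
import Pool.Agent.Helper95.DomLoEv
import Pool.Agent.Helper95.DomVerify
import Pool.Agent.Helper95.DomW
import Pool.Agent.Helper95.DomN

/-!
The events of the lower bound imply comparability.
-/

namespace Pool.Agent.Helper95.Dom

open MeasureTheory ProbabilityTheory Filter
open scoped Topology ENNReal

/-- the outer region. -/
def outI (n TA TB : ℕ) : Finset ℕ := Finset.Icc 1 TB ∪ Finset.Ioc TA n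

theorem sum_outI {M : Type*} [AddCommMonoid M] {n TA TB : ℕ} (h : TB ≤ TA) (f : ℕ → M) :
    ∑ s ∈ outI n TA TB, f s = ∑ s ∈ Finset.Icc 1 TB, f s + ∑ s ∈ Finset.Ioc TA n, f s := by
  unfold outI
  rw [Finset.sum_union]
  rw [Finset.disjoint_left]
  intro s hs hs'
  rw [Finset.mem_Icc] at hs
  rw [Finset.mem_Ioc] at hs'
  omega

theorem sum_midI {M : Type*} [AddCommMonoid M] {N TA TB : ℕ} (f : ℕ → M) :
    ∑ s ∈ midI N TA TB, f s = ∑ s ∈ Finset.Ioc TB N, f s + ∑ s ∈ Finset.Ioc (2 * N) TA, f s := by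
  unfold midI
  rw [Finset.sum_union]
  rw [Finset.disjoint_left]
  intro s hs hs'
  rw [Finset.mem_Ioc] at hs hs'
  omega

theorem sum_parts {M : Type*} [AddCommMonoid M] {n N TA TB : ℕ} (h1 : TB ≤ N) (h2 : 4 * N ≤ TA)
    (h3 : TA ≤ n) (f : ℕ → M) :
    ∑ s ∈ Finset.Icc 1 n, f s = (∑ s ∈ outI n TA TB, f s + ∑ s ∈ midI N TA TB, f s)
      + ∑ s ∈ Finset.Ioc N (2 * N), f s := by
  rw [sum_outI (by omega), sum_midI, Icc_eq_Ioc, Icc_eq_Ioc,
    ← Finset.sum_Ioc_consecutive f (Nat.zero_le TB) (by omega : TB ≤ n),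
    ← Finset.sum_Ioc_consecutive f h1 (by omega : N ≤ n),
    ← Finset.sum_Ioc_consecutive f (by omega : N ≤ 2 * N) (by omega : 2 * N ≤ n),
    ← Finset.sum_Ioc_consecutive f (by omega : 2 * N ≤ TA) h3]
  abel

theorem waR_cast (I : Finset ℕ) (ω : Om) : ((wa I ω : ℕ) : ℝ) = ∑ s ∈ I, (s : ℝ) * ma s ω := by
  unfold wa ma; push_cast; rfl

theorem wbR_cast (I : Finset ℕ) (ω : Om) : ((wb I ω : ℕ) : ℝ) = ∑ s ∈ I, (s : ℝ) * mb s ω := by
  unfold wb mb; push_cast; rfl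

theorem wa_centered (a : ℝ) (I : Finset ℕ) (ω : Om) :
    ∑ s ∈ I, (s : ℝ) * (ma s ω - mu a s) = (wa I ω : ℝ) - EX a I := by
  rw [waR_cast]
  unfold EX
  rw [← Finset.sum_sub_distrib]
  apply Finset.sum_congr rfl
  intro s _
  ring

theorem wb_centered (a : ℝ) (I : Finset ℕ) (ω : Om) :
    ∑ s ∈ I, (s : ℝ) * (mb s ω - mu a s) = (wb I ω : ℝ) - EX a I := by
  rw [wbR_cast]
  unfold EX
  rw [← Finset.sum_sub_distrib]
  apply Finset.sum_congr rfl
  intro s _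
  ring

theorem out_small {a k Λ : ℝ} {n N TA TB : ℕ} {I : Finset ℕ} (_hI : I = outI n TA TB)
    (hTT : TB ≤ TA) (hk : 0 ≤ k) (hΛ : 0 ≤ Λ) (ha : 0 ≤ a) (haN : a ≤ N) {f : ℕ → ℝ}
    (h1 : |∑ s ∈ Finset.Ioc TA n, f s| < k * Λ * (a * √a))
    (h2 : |∑ s ∈ Finset.Icc 1 TB, f s| < k * Λ * (a * √a)) :
    |∑ s ∈ outI n TA TB, f s| ≤ 2 * (k * Λ) * (N * √N) := by
  rw [sum_outI hTT]
  refine (abs_add_le _ _).trans ?_
  have h3 : a * √a ≤ N * √N := mul_le_mul haN (Real.sqrt_le_sqrt haN) (Real.sqrt_nonneg _) (ha.trans haN)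
  have h4 := mul_le_mul_of_nonneg_left h3 (mul_nonneg hk hΛ)
  linarith

theorem contain {a k C1 lam0 : ℝ} {n N TA TB K1 : ℕ} (ha : 1 ≤ a) (haN : a ≤ N) (hk : 0 < k)
    (hTB : TB ≤ N) (hTA : 4 * N ≤ TA) (hn : TA ≤ n) (hC1 : 0 ≤ C1)
    (hK1 : 2 * K1 * N ≤ n)
    (hbig : 2 * C1 + 2 * lam0 ≤ 77 * (k * √(Real.log a))) (ω : Om)
    (hH : ω ∈ Hev a C1 k N TA n) (hL : ω ∈ Lev a k N TB)
    {g y y' : ℝ} (hg : g = 40 * (k * √(Real.log a)) / √N)
    (hy : y = (wa (outI n TA TB) ω : ℝ) - EX a (outI n TA TB))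
    (hy' : y' = (wb (outI n TA TB) ω : ℝ) - EX a (outI n TA TB))
    (hM : ω ∈ Mev a N TA TB (al N g y) (be N g y) (al N (-g) y') (be N (-g) y') (C1 * √N)
      (C1 * (N * √N)))
    (hF1 : ω ∈ Fev1 a N K1 lam0 ((n : ℝ) - K1 * N
      - ((wa (outI n TA TB) ω + wa (midI N TA TB) ω : ℕ) : ℝ) - EX a (Finset.Ioc N (2 * N))))
    (hF2 : ω ∈ Fev2 a N K1 lam0 ((n : ℝ) - 2 * K1 * N
      - ((wb (outI n TA TB) ω + wb (midI N TA TB) ω : ℕ) : ℝ) - EX a (Finset.Ioc N (2 * N)))) :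
    ω ∈ Qev n (n - 2 * K1 * N) (2 * K1 * N) := by
  have hpos : 0 < a := by linarith
  have hN0 : (0 : ℝ) < N := by linarith
  have hN1 : 1 ≤ N := by exact_mod_cast hN0
  have hsN : 0 < √(N : ℝ) := Real.sqrt_pos.2 hN0
  have hsN2 : √(N : ℝ) ^ 2 = N := Real.sq_sqrt hN0.le
  set Λ := √(Real.log a) with hΛ
  have hΛ0 : 0 ≤ Λ := Real.sqrt_nonneg _
  have hkΛ : 0 ≤ k * Λ := by positivity
  have hg0 : 0 ≤ g := by rw [hg]; positivity
  have hgN : g * N = 40 * (k * Λ) * √N := by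
    rw [hg]
    field_simp
    rw [hsN2]
  have hgN2 : g / 20 * (N : ℝ) ^ 2 = 2 * (k * Λ) * (N * √N) := by
    have : g / 20 * (N : ℝ) ^ 2 = g * N * N / 20 := by ring
    rw [this, hgN]
    ring
  obtain ⟨H1, H2, H3, H4, H5, H6⟩ := hH
  obtain ⟨L1, L2, L3⟩ := hL
  obtain ⟨M1, M2, M3, M4⟩ := hM
  obtain ⟨F1, F2, F3⟩ := hF1
  obtain ⟨G1, G2, G3⟩ := hF2
  -- sizes of y, y'
  have hyb : |y| ≤ g / 20 * (N : ℝ) ^ 2 := by
    rw [hy, ← wa_centered, hgN2]
    exact out_small rfl (by omega) hk.le hΛ0 hpos.le haN H5 L2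
  have hyb' : |y'| ≤ g / 20 * (N : ℝ) ^ 2 := by
    rw [hy', ← wb_centered, hgN2]
    exact out_small rfl (by omega) hk.le hΛ0 hpos.le haN H6 L3
  set A : ℝ := al N g y - al N (-g) y' with hA
  have hA4 : 4 * g ≤ A := al_diff hN1 hg0 hyb hyb'
  have hA0 : 0 ≤ A := by linarith
  have hB : be N g y - be N (-g) y' = -(2 * g) - A := by
    unfold be; rw [hA]; ring
  -- the values of N_t
  have hNSn : ∀ t, t ≤ TA → NS t n ω = NS t TA ω + NS TA n ω := fun t ht =>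
    NS_split ht hn ω
  have hfl : ∀ t, 2 * N ≤ t → t ≤ TA →
      |NS t TA ω - ∑ s ∈ Finset.Ioc t TA, drift N A (-(2 * g) - A) s| ≤ C1 * √N := by
    intro t ht ht'
    have h1 := M1 t ht ht'
    have h2 : ∑ s ∈ Finset.Ioc t TA, (xs s ω - (drift N (al N g y) (be N g y) s
        - drift N (al N (-g) y') (be N (-g) y') s))
        = NS t TA ω - ∑ s ∈ Finset.Ioc t TA, drift N A (-(2 * g) - A) s := by
      unfold NS
      rw [← Finset.sum_sub_distrib]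
      apply Finset.sum_congr rfl
      intro s _
      rw [drift_sub, ← hA, hB]
    rw [h2] at h1
    exact h1
  have hNSTA : NS TA n ω ≤ 2 * (k * Λ) * √N := by
    have h1 : NS TA n ω = ∑ s ∈ Finset.Ioc TA n, (ma s ω - mu a s)
        - ∑ s ∈ Finset.Ioc TA n, (mb s ω - mu a s) := by
      unfold NS
      rw [← Finset.sum_sub_distrib]
      apply Finset.sum_congr rfl
      intro s _
      unfold xs
      ring
    have h2 := (abs_lt.1 H3).2
    have h3 := (abs_lt.1 H4).1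
    have h4 : k * Λ * √a ≤ k * Λ * √N := mul_le_mul_of_nonneg_left (Real.sqrt_le_sqrt haN) hkΛ
    rw [h1]
    linarith
  have c23 : ∀ t : ℕ, 2 * N ≤ t → t ≤ 3 * N → (0 : ℝ) ≤ 3 * N - t ∧ (3 * N - t : ℝ) ≤ N := by
    intro t ht ht'
    have h1 : (2 * N : ℝ) ≤ t := by exact_mod_cast ht
    have h2 : (t : ℝ) ≤ 3 * N := by exact_mod_cast ht'
    constructor <;> linarith
  -- apply the deterministic lemma
  have hver := verify (S := n) (N := N) (TA := TA) (TB := TB) (A := A) (g := g)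
    (y := k * Λ * √N) ω (by omega) hTA hn hA4 hA0 hg0 H1
  have q2 : ∀ t, 3 * N ≤ t → t ≤ TA → 0 ≤ NS t n ω := by
    intro t ht ht'
    rw [hNSn t ht']
    have h1 := (abs_le.1 (hfl t (by omega) ht')).1
    have h2 : 0 ≤ ∑ s ∈ Finset.Ioc t TA, drift N A (-(2 * g) - A) s := by
      rcases le_or_gt (4 * N) t with h | h
      · rw [sum_drift_top _ _ h]
      · rw [sum_drift_34 _ _ ht h.le hTA]
        have h3 : (t : ℝ) ≤ 4 * N := by exact_mod_cast h.le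
        exact mul_nonneg (by linarith) hA0
    linarith
  have q3 : ∀ t, 3 * N ≤ t → t ≤ 4 * N → A * (4 * N - t) ≤ NS t n ω := by
    intro t ht ht'
    rw [hNSn t (by omega)]
    have h1 := (abs_le.1 (hfl t (by omega) (by omega))).1
    rw [sum_drift_34 _ _ ht ht' hTA] at h1
    linarith
  have q4 : ∀ t, 2 * N ≤ t → t ≤ 3 * N → -(2 * g * N) ≤ NS t n ω := by
    intro t ht ht'
    rw [hNSn t (by omega)]
    have h1 := (abs_le.1 (hfl t ht (by omega))).1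
    rw [sum_drift_23 _ _ ht ht' hTA] at h1
    obtain ⟨h2, h3⟩ := c23 t ht ht'
    have h4 := mul_le_mul_of_nonneg_right h3 hA0
    have h5 := mul_le_mul_of_nonneg_right h3 hg0
    nlinarith
  have q2N : NS (2 * N) n ω ≤ 2 * (k * Λ) * √N + C1 * √N - 80 * (k * Λ) * √N := by
    rw [hNSn (2 * N) (by omega)]
    have h1 := (abs_le.1 (hfl (2 * N) le_rfl (by omega))).2
    rw [sum_drift_23 _ _ le_rfl (by omega) hTA] at h1
    have h2 : (3 * (N : ℝ) - ((2 * N : ℕ) : ℝ)) * (-(2 * g) - A) + N * A = -(2 * (g * N)) := by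
      push_cast; ring
    rw [h2, hgN] at h1
    linarith
  have hFb : ∀ t, N ≤ t → t ≤ 2 * N → NS t (2 * N) ω ≤ 2 * lam0 * √N := by
    intro t ht ht'
    have h1 : NS t (2 * N) ω = ∑ s ∈ Finset.Ioc t (2 * N), (ma s ω - mu a s)
        - ∑ s ∈ Finset.Ioc t (2 * N), (mb s ω - mu a s) := by
      unfold NS
      rw [← Finset.sum_sub_distrib]
      apply Finset.sum_congr rfl
      intro s _
      unfold xs
      ring
    have h2 := (abs_le.1 (F3 t ht ht')).2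
    have h3 := (abs_le.1 (G3 t ht ht')).1
    rw [h1]
    linarith
  have hneg : ∀ t, TB ≤ t → t ≤ 2 * N → NS t n ω ≤ -(k * Λ * √N) := by
    intro t ht ht'
    have hb := mul_le_mul_of_nonneg_right hbig hsN.le
    rcases le_or_gt N t with h | h
    · rw [NS_split ht' (by omega : 2 * N ≤ n) ω]
      have h1 := hFb t h ht'
      have h2 : 0 ≤ C1 * √(N : ℝ) := by positivity
      linarith
    · rw [NS_split h.le (by omega : N ≤ n) ω, NS_split (by omega : N ≤ 2 * N) (by omega : 2 * N ≤ n) ω]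
      have h1 := hFb N le_rfl (by omega)
      have h2 := (abs_le.1 (M2 t ht h.le)).2
      linarith
  have hkN : 0 ≤ k * Λ * √(N : ℝ) := by positivity
  -- totals
  have htotA : ((wa (Finset.Icc 1 n) ω : ℕ) : ℝ)
      = ((wa (outI n TA TB) ω + wa (midI N TA TB) ω : ℕ) : ℝ)
        + ((wa (Finset.Ioc N (2 * N)) ω : ℕ) : ℝ) := by
    have := sum_parts hTB hTA hn (fun s => s * (ω s).1)
    rw [← Nat.cast_add]
    congr 1
  have htotB : ((wb (Finset.Icc 1 n) ω : ℕ) : ℝ)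
      = ((wb (outI n TA TB) ω + wb (midI N TA TB) ω : ℕ) : ℝ)
        + ((wb (Finset.Ioc N (2 * N)) ω : ℕ) : ℝ) := by
    have := sum_parts hTB hTA hn (fun s => s * (ω s).2)
    rw [← Nat.cast_add]
    congr 1
  rw [wa_centered] at F1 F2
  rw [wb_centered] at G1 G2
  have a1 : (n : ℝ) - K1 * N ≤ ((wa (Finset.Icc 1 n) ω : ℕ) : ℝ) := by rw [htotA]; linarith
  have a2 : ((wa (Finset.Icc 1 n) ω : ℕ) : ℝ) ≤ n := by rw [htotA]; linarith
  have b1 : (n : ℝ) - 2 * K1 * N ≤ ((wb (Finset.Icc 1 n) ω : ℕ) : ℝ) := by rw [htotB]; linarith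
  have b2 : ((wb (Finset.Icc 1 n) ω : ℕ) : ℝ) ≤ n - K1 * N := by rw [htotB]; linarith
  have hcast : ((n - 2 * K1 * N : ℕ) : ℝ) = (n : ℝ) - 2 * K1 * N := by
    rw [Nat.cast_sub hK1]; push_cast; ring
  have hK0 : (0 : ℝ) ≤ K1 * N := by positivity
  have hD0 : 0 ≤ DA n 0 ω := by
    rw [DA_eq_At, At_cf1, At_cf2]; linarith
  have hall := hver q2 q3 q4 (fun t ht ht' => (hneg t ht ht').trans (by linarith))
    (hneg TB le_rfl (by omega)) hD0 (fun t ht => by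
      have := L1 t ht
      exact this)
  refine ⟨?_, ?_, ?_, ?_, fun t _ => hall t⟩
  · have : ((n - 2 * K1 * N : ℕ) : ℝ) ≤ ((wa (Finset.Icc 1 n) ω : ℕ) : ℝ) := by
      rw [hcast]; linarith
    exact_mod_cast this
  · have : ((wa (Finset.Icc 1 n) ω : ℕ) : ℝ) ≤ ((n - 2 * K1 * N + 2 * K1 * N : ℕ) : ℝ) := by
      rw [Nat.sub_add_cancel hK1]; exact a2
    exact_mod_cast this
  · have : ((wb (Finset.Icc 1 n) ω : ℕ) : ℝ) ≤ ((wa (Finset.Icc 1 n) ω : ℕ) : ℝ) := by linarith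
    exact_mod_cast this
  · have : ((wa (Finset.Icc 1 n) ω : ℕ) : ℝ)
        ≤ ((wb (Finset.Icc 1 n) ω + 2 * K1 * N : ℕ) : ℝ) := by
      push_cast; linarith
    exact_mod_cast this

end Pool.Agent.Helper95.Dom
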