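import Pool.Agent.Helper95.DomPar

/-!
Covariance asymptotics for the large parts.
-/

namespace Pool.Agent.Helper95.Dom

open MeasureTheory ProbabilityTheory Filter
open scoped Topology

theorem pow_exp_le (p : ℕ) {x : ℝ} (hx : 0 ≤ x) : x ^ p * Real.exp (-x) ≤ (p.factorial : ℝ) := by
  have h := Real.pow_div_factorial_le_exp x hx p
  have hp : (0 : ℝ) < (p.factorial : ℝ) := by exact_mod_cast p.factorial_pos
  rw [div_le_iff₀ hp] at h
  have h2 := mul_le_mul_of_nonneg_right h (Real.exp_pos (-x)).le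
  refine h2.trans (le_of_eq ?_)
  have : Real.exp x * Real.exp (-x) = 1 := by rw [← Real.exp_add]; simp
  linear_combination (p.factorial : ℝ) * this

theorem sum_exp_le {a : ℝ} (ha : 1 ≤ a) (T : Finset ℕ) :
    ∑ k ∈ T, Real.exp (-((k : ℝ) / a)) ≤ 1 + a := by
  have hpos : 0 < a := by linarith
  set r := Real.exp (-(1 / a)) with hr
  have hr1 : r < 1 := by
    rw [hr, Real.exp_lt_one_iff]
    have : 0 < 1 / a := by positivity
    linarith
  have h1 : ∀ k : ℕ, Real.exp (-((k : ℝ) / a)) = r ^ k := by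
    intro k
    rw [hr, ← Real.exp_nat_mul]
    congr 1
    ring
  simp_rw [h1]
  have hr0 : 0 ≤ r := (Real.exp_pos _).le
  have := (summable_geometric_of_lt_one hr0 hr1).sum_le_tsum T (fun k _ => pow_nonneg hr0 k)
  refine this.trans ?_
  rw [tsum_geometric_of_lt_one hr0 hr1]
  have h3 : 1 / (1 + a) ≤ 1 - r := by
    have h4 : r ≤ 1 / (1 + 1 / a) := by
      rw [hr, Real.exp_neg, ← one_div]
      apply one_div_le_one_div_of_le (by positivity)
      have := Real.add_one_le_exp (1 / a)
      linarith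
    have h5 : 1 / (1 + 1 / a) = 1 - 1 / (1 + a) := by
      field_simp
      ring
    linarith
  have h6 : 0 < 1 / (1 + a) := by positivity
  rw [← one_div]
  calc 1 / (1 - r) ≤ 1 / (1 / (1 + a)) := one_div_le_one_div_of_le h6 h3
    _ = 1 + a := by rw [one_div_one_div]

theorem sum_pow_exp_le (p : ℕ) {a : ℝ} (ha : 1 ≤ a) (T : Finset ℕ) :
    ∑ k ∈ T, (k : ℝ) ^ p * Real.exp (-((k : ℝ) / a)) ≤ (p.factorial : ℝ) * (2 * a) ^ p * (3 * a) := by
  have hpos : 0 < a := by linarith
  have h1 : ∀ k : ℕ, (k : ℝ) ^ p * Real.exp (-((k : ℝ) / a))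
      ≤ (p.factorial : ℝ) * (2 * a) ^ p * Real.exp (-((k : ℝ) / (2 * a))) := by
    intro k
    have h2 := pow_exp_le p (x := (k : ℝ) / (2 * a)) (by positivity)
    have h3 : Real.exp (-((k : ℝ) / a)) = Real.exp (-((k : ℝ) / (2 * a)))
        * Real.exp (-((k : ℝ) / (2 * a))) := by
      rw [← Real.exp_add]
      congr 1
      field_simp
      ring
    have h4 : (k : ℝ) ^ p = (2 * a) ^ p * ((k : ℝ) / (2 * a)) ^ p := by
      rw [← mul_pow]
      congr 1
      field_simp
    rw [h3, h4]
    calc (2 * a) ^ p * ((k : ℝ) / (2 * a)) ^ p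
          * (Real.exp (-((k : ℝ) / (2 * a))) * Real.exp (-((k : ℝ) / (2 * a))))
        = (((k : ℝ) / (2 * a)) ^ p * Real.exp (-((k : ℝ) / (2 * a))))
          * ((2 * a) ^ p * Real.exp (-((k : ℝ) / (2 * a)))) := by ring
      _ ≤ (p.factorial : ℝ) * ((2 * a) ^ p * Real.exp (-((k : ℝ) / (2 * a)))) :=
          mul_le_mul_of_nonneg_right h2 (by positivity)
      _ = _ := by ring
  calc ∑ k ∈ T, (k : ℝ) ^ p * Real.exp (-((k : ℝ) / a))
      ≤ ∑ k ∈ T, (p.factorial : ℝ) * (2 * a) ^ p * Real.exp (-((k : ℝ) / (2 * a))) :=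
        Finset.sum_le_sum fun k _ => h1 k
    _ = (p.factorial : ℝ) * (2 * a) ^ p * ∑ k ∈ T, Real.exp (-((k : ℝ) / (2 * a))) := by
        rw [Finset.mul_sum]
    _ ≤ (p.factorial : ℝ) * (2 * a) ^ p * (1 + 2 * a) := by
        apply mul_le_mul_of_nonneg_left _ (by positivity)
        exact sum_exp_le (by linarith) T
    _ ≤ _ := by
        apply mul_le_mul_of_nonneg_left _ (by positivity)
        linarith

/-- truncated moment sums. -/
noncomputable def Am (p : ℕ) (a : ℝ) (K : ℕ) : ℝ :=
  ∑ k ∈ Finset.Icc 1 K, (k : ℝ) ^ p * Real.exp (-((k : ℝ) / a))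

theorem Am_tail (p : ℕ) {a : ℝ} (ha : 1 ≤ a) (K : ℕ) {L : ℝ} (hp : 1 ≤ p)
    (h : HasSum (fun k : ℕ => (k : ℝ) ^ p * Real.exp (-((k : ℝ) / a))) L) :
    Am p a K ≤ L ∧ L - Real.exp (-(K / (2 * a))) * ((p.factorial : ℝ) * (4 * a) ^ p * (6 * a))
      ≤ Am p a K := by
  have hpos : 0 < a := by linarith
  have hnn : ∀ k : ℕ, 0 ≤ (k : ℝ) ^ p * Real.exp (-((k : ℝ) / a)) := fun k => by positivity
  constructor
  · exact sum_le_hasSum _ (fun k _ => hnn k) h
  · have key : L ≤ Am p a K
        + Real.exp (-(K / (2 * a))) * ((p.factorial : ℝ) * (4 * a) ^ p * (6 * a)) := by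
      apply le_of_tendsto' h
      intro T
      have h1 : ∑ k ∈ T, (k : ℝ) ^ p * Real.exp (-((k : ℝ) / a))
          ≤ ∑ k ∈ Finset.Icc 1 K ∪ T.filter (K < ·), (k : ℝ) ^ p * Real.exp (-((k : ℝ) / a)) := by
        have h2 : ∑ k ∈ T, (k : ℝ) ^ p * Real.exp (-((k : ℝ) / a))
            = ∑ k ∈ T.filter (1 ≤ ·), (k : ℝ) ^ p * Real.exp (-((k : ℝ) / a)) := by
          rw [Finset.sum_filter]
          apply Finset.sum_congr rfl
          intro k _
          split_ifs with hk
          · rfl
          · have : k = 0 := by omega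
            subst this
            have hp0 : p ≠ 0 := by omega
            simp [hp0]
        rw [h2]
        apply Finset.sum_le_sum_of_subset_of_nonneg
        · intro k hk
          simp only [Finset.mem_filter, Finset.mem_union, Finset.mem_Icc] at hk ⊢
          rcases le_or_gt k K with h | h
          · exact Or.inl ⟨hk.2, h⟩
          · exact Or.inr ⟨hk.1, h⟩
        · intro k _ _
          exact hnn k
      refine h1.trans ?_
      have hdisj : Disjoint (Finset.Icc 1 K) (T.filter (K < ·)) := by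
        rw [Finset.disjoint_left]
        intro k hk hk2
        simp only [Finset.mem_filter, Finset.mem_Icc] at hk hk2
        omega
      rw [Finset.sum_union hdisj]
      apply add_le_add le_rfl
      calc ∑ k ∈ T.filter (K < ·), (k : ℝ) ^ p * Real.exp (-((k : ℝ) / a))
          ≤ ∑ k ∈ T.filter (K < ·), Real.exp (-(K / (2 * a)))
              * ((k : ℝ) ^ p * Real.exp (-((k : ℝ) / (2 * a)))) := by
            apply Finset.sum_le_sum
            intro k hk
            simp only [Finset.mem_filter] at hk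
            have hk2 : (K : ℝ) ≤ k := by exact_mod_cast hk.2.le
            have h3 : Real.exp (-((k : ℝ) / a)) = Real.exp (-((k : ℝ) / (2 * a)))
                * Real.exp (-((k : ℝ) / (2 * a))) := by
              rw [← Real.exp_add]
              congr 1
              field_simp
              ring
            have h4 : Real.exp (-((k : ℝ) / (2 * a))) ≤ Real.exp (-(K / (2 * a))) := by
              apply Real.exp_le_exp.2
              apply neg_le_neg
              exact div_le_div_of_nonneg_right hk2 (by positivity)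
            rw [h3]
            calc (k : ℝ) ^ p * (Real.exp (-((k : ℝ) / (2 * a))) * Real.exp (-((k : ℝ) / (2 * a))))
                = Real.exp (-((k : ℝ) / (2 * a)))
                  * ((k : ℝ) ^ p * Real.exp (-((k : ℝ) / (2 * a)))) := by ring
              _ ≤ _ := mul_le_mul_of_nonneg_right h4 (by positivity)
        _ = Real.exp (-(K / (2 * a))) * ∑ k ∈ T.filter (K < ·),
              (k : ℝ) ^ p * Real.exp (-((k : ℝ) / (2 * a))) := by rw [Finset.mul_sum]
        _ ≤ _ := by
            apply mul_le_mul_of_nonneg_left _ (Real.exp_pos _).le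
            refine (sum_pow_exp_le p (a := 2 * a) (by linarith) _).trans (le_of_eq ?_)
            ring
    linarith

theorem ratio_mu {a : ℝ} (ha : 0 < a) : mu a 1 / (1 + mu a 1) = Real.exp (-(1 / a)) := by
  unfold mu
  have h := exp_sub_pos (show (0 : ℝ) < 1 / a by positivity)
  have h2 := (Real.exp_pos (1 / a)).ne'
  rw [Real.exp_neg]
  push_cast
  field_simp
  ring

theorem gw_mu {a : ℝ} (ha : 0 < a) (k : ℕ) :
    gw (mu a 1) k = (1 + mu a 1)⁻¹ * Real.exp (-((k : ℝ) / a)) := by
  rw [gw_eq (mu_nonneg ha 1), ratio_mu ha, ← Real.exp_nat_mul]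
  congr 2
  ring

theorem hasSum_A1 {a : ℝ} (ha : 0 < a) :
    HasSum (fun k : ℕ => (k : ℝ) ^ 1 * Real.exp (-((k : ℝ) / a))) ((1 + mu a 1) * mu a 1) := by
  have h := (hasSum_mean (mu_nonneg ha 1)).mul_left (1 + mu a 1)
  have hne : (1 + mu a 1) ≠ 0 := by have := mu_nonneg ha 1; positivity
  refine h.congr_fun ?_ |>.congr_fun (fun _ => rfl)
  intro k
  rw [gw_mu ha]
  field_simp

theorem hasSum_A2 {a : ℝ} (ha : 0 < a) :
    HasSum (fun k : ℕ => (k : ℝ) ^ 2 * Real.exp (-((k : ℝ) / a)))
      ((1 + mu a 1) * (2 * mu a 1 ^ 2 + mu a 1)) := by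
  have h := (hasSum_second (mu_nonneg ha 1)).mul_left (1 + mu a 1)
  have hne : (1 + mu a 1) ≠ 0 := by have := mu_nonneg ha 1; positivity
  refine h.congr_fun ?_ |>.congr_fun (fun _ => rfl)
  intro k
  rw [gw_mu ha]
  field_simp

theorem mu_one_le {a : ℝ} (ha : 0 < a) : mu a 1 ≤ a := by
  unfold mu
  have h1 : 1 / a ≤ Real.exp ((1 : ℕ) / a) - 1 := by
    have := Real.add_one_le_exp (1 / a)
    push_cast
    linarith
  calc (Real.exp ((1 : ℕ) / a) - 1)⁻¹ ≤ (1 / a)⁻¹ := inv_anti₀ (by positivity) h1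
    _ = a := by simp

theorem mu_one_ge {a : ℝ} (ha : 0 < a) : a - 1 ≤ mu a 1 := by
  unfold mu
  have hx := exp_sub_pos (show (0 : ℝ) < 1 / a by positivity)
  have h2 : Real.exp (1 / a) - 1 ≤ (1 / a) * Real.exp (1 / a) := by
    have h2 := Real.add_one_le_exp (-(1 / a))
    have h3 : Real.exp (-(1 / a)) * Real.exp (1 / a) = 1 := by rw [← Real.exp_add]; simp
    have h5 := mul_le_mul_of_nonneg_right h2 (Real.exp_pos (1 / a)).le
    nlinarith
  push_cast
  have h4 : (Real.exp (1 / a) - 1)⁻¹ = Real.exp (1 / a) * (Real.exp (1 / a) - 1)⁻¹ - 1 := by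
    field_simp
    ring
  rw [h4]
  have h5 : a ≤ Real.exp (1 / a) * (Real.exp (1 / a) - 1)⁻¹ := by
    rw [← div_eq_mul_inv, le_div_iff₀ hx]
    calc a * (Real.exp (1 / a) - 1) ≤ a * ((1 / a) * Real.exp (1 / a)) :=
          mul_le_mul_of_nonneg_left h2 ha.le
      _ = Real.exp (1 / a) := by field_simp
  linarith

section
variable {a : ℕ → ℝ} {K : ℕ → ℕ}

theorem one_div_tendsto (ha : Tendsto a atTop atTop) : Tendsto (fun n => 1 / a n) atTop (𝓝 0) := by
  have h := tendsto_inv_atTop_zero.comp ha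
  refine h.congr fun n => ?_
  simp [Function.comp]

theorem mu_one_div_tendsto (ha : Tendsto a atTop atTop) :
    Tendsto (fun n => mu (a n) 1 / a n) atTop (𝓝 1) := by
  have h1 : Tendsto (fun n => 1 - 1 / a n) atTop (𝓝 1) := by
    have : Tendsto (fun n => 1 / a n) atTop (𝓝 0) := one_div_tendsto ha
    simpa using (tendsto_const_nhds (x := (1 : ℝ))).sub this
  apply tendsto_of_tendsto_of_tendsto_of_le_of_le' h1 tendsto_const_nhds
  · filter_upwards [ha.eventually_gt_atTop 0] with n hn
    rw [le_div_iff₀ hn]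
    have := mu_one_ge hn
    have h2 : (1 - 1 / a n) * a n = a n - 1 := by field_simp
    linarith
  · filter_upwards [ha.eventually_gt_atTop 0] with n hn
    rw [div_le_one hn]
    exact mu_one_le hn

theorem tail_tendsto (ha : Tendsto a atTop atTop)
    (hK : Tendsto (fun n => (K n : ℝ) / a n) atTop atTop) (C : ℝ) :
    Tendsto (fun n => Real.exp (-(K n / (2 * a n))) * C) atTop (𝓝 0) := by
  have h1 : Tendsto (fun n => (K n : ℝ) / (2 * a n)) atTop atTop := by
    have : (fun n => (K n : ℝ) / (2 * a n)) = fun n => (1 / 2) * ((K n : ℝ) / a n) := by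
      funext n; ring
    rw [this]
    exact hK.const_mul_atTop (by norm_num)
  have h2 := Real.tendsto_exp_atBot.comp (tendsto_neg_atTop_atBot.comp h1)
  simpa using h2.mul_const C

theorem A1_tendsto (ha : Tendsto a atTop atTop)
    (hK : Tendsto (fun n => (K n : ℝ) / a n) atTop atTop) :
    Tendsto (fun n => Am 1 (a n) (K n) / (a n) ^ 2) atTop (𝓝 1) := by
  have hm := mu_one_div_tendsto ha
  have hinv : Tendsto (fun n => 1 / a n) atTop (𝓝 0) := one_div_tendsto ha
  have hU : Tendsto (fun n => (1 / a n + mu (a n) 1 / a n) * (mu (a n) 1 / a n)) atTop (𝓝 1) := by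
    simpa using (hinv.add hm).mul hm
  have hL : Tendsto (fun n => (1 / a n + mu (a n) 1 / a n) * (mu (a n) 1 / a n)
      - Real.exp (-(K n / (2 * a n))) * 24) atTop (𝓝 1) := by
    simpa using hU.sub (tail_tendsto ha hK 24)
  apply tendsto_of_tendsto_of_tendsto_of_le_of_le' hL hU
  · filter_upwards [ha.eventually_ge_atTop 1] with n hn
    have hpos : 0 < a n := by linarith
    have h := (Am_tail 1 hn (K n) le_rfl (hasSum_A1 hpos)).2
    rw [le_div_iff₀ (by positivity)]
    refine le_trans (le_of_eq ?_) h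
    simp only [Nat.factorial_one]
    field_simp
    ring
  · filter_upwards [ha.eventually_ge_atTop 1] with n hn
    have hpos : 0 < a n := by linarith
    have h := (Am_tail 1 hn (K n) le_rfl (hasSum_A1 hpos)).1
    rw [div_le_iff₀ (by positivity)]
    refine h.trans (le_of_eq ?_)
    field_simp

theorem A2_tendsto (ha : Tendsto a atTop atTop)
    (hK : Tendsto (fun n => (K n : ℝ) / a n) atTop atTop) :
    Tendsto (fun n => Am 2 (a n) (K n) / (a n) ^ 3) atTop (𝓝 2) := by
  have hm := mu_one_div_tendsto ha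
  have hinv : Tendsto (fun n => 1 / a n) atTop (𝓝 0) := one_div_tendsto ha
  have hU : Tendsto (fun n => (1 / a n + mu (a n) 1 / a n)
      * (2 * (mu (a n) 1 / a n) ^ 2 + (1 / a n) * (mu (a n) 1 / a n))) atTop (𝓝 2) := by
    have := (hinv.add hm).mul (((hm.pow 2).const_mul 2).add (hinv.mul hm))
    simpa using this
  have hL : Tendsto (fun n => (1 / a n + mu (a n) 1 / a n)
      * (2 * (mu (a n) 1 / a n) ^ 2 + (1 / a n) * (mu (a n) 1 / a n))
      - Real.exp (-(K n / (2 * a n))) * 192) atTop (𝓝 2) := by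
    simpa using hU.sub (tail_tendsto ha hK 192)
  apply tendsto_of_tendsto_of_tendsto_of_le_of_le' hL hU
  · filter_upwards [ha.eventually_ge_atTop 1] with n hn
    have hpos : 0 < a n := by linarith
    have h := (Am_tail 2 hn (K n) (by norm_num) (hasSum_A2 hpos)).2
    rw [le_div_iff₀ (by positivity)]
    refine le_trans (le_of_eq ?_) h
    simp only [Nat.factorial_two]
    push_cast
    field_simp
    ring
  · filter_upwards [ha.eventually_ge_atTop 1] with n hn
    have hpos : 0 < a n := by linarith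
    have h := (Am_tail 2 hn (K n) (by norm_num) (hasSum_A2 hpos)).1
    rw [div_le_iff₀ (by positivity)]
    refine h.trans (le_of_eq ?_)
    field_simp

end

/-- normalisation at `t` for the large parts. -/
noncomputable def bA (a : ℝ) (t : ℕ) : ℝ := 2 * a * √a * Real.exp (-(t / (2 * a)))

theorem bA_pos {a : ℝ} (ha : 0 < a) (t : ℕ) : 0 < bA a t := by
  unfold bA
  have := Real.sqrt_pos.2 ha
  positivity

theorem bA_mul {a : ℝ} (ha : 0 < a) (t t' : ℕ) :
    bA a t * bA a t' = 4 * a ^ 3 * Real.exp (-((t + t') / (2 * a))) := by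
  unfold bA
  have h1 : √a * √a = a := Real.mul_self_sqrt ha.le
  have h2 : Real.exp (-(((t : ℝ) + t') / (2 * a))) = Real.exp (-(t / (2 * a)))
      * Real.exp (-(t' / (2 * a))) := by
    rw [← Real.exp_add]
    congr 1
    ring
  rw [h2]
  linear_combination (4 * a ^ 2 * Real.exp (-(t / (2 * a))) * Real.exp (-(t' / (2 * a)))) * h1

/-- covariance of the normalised sums. -/
noncomputable def cvA (a : ℝ) (S t t' : ℕ) : ℝ :=
  ∑ s ∈ Finset.Icc 1 S, vv (mu a) s * (((s - t : ℕ) : ℝ) / bA a t * (((s - t' : ℕ) : ℝ) / bA a t'))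

theorem cvA_comm (a : ℝ) (S t t' : ℕ) : cvA a S t t' = cvA a S t' t := by
  unfold cvA
  apply Finset.sum_congr rfl
  intro s _
  ring

theorem sum_shift_le (S t' : ℕ) (f : ℕ → ℝ) (hf : ∀ s, s ≤ t' → f s = 0) :
    ∑ s ∈ Finset.Icc 1 S, f s = ∑ k ∈ Finset.Icc 1 (S - t'), f (t' + k) := by
  symm
  have h1 : ∑ k ∈ Finset.Icc 1 (S - t'), f (t' + k)
      = ∑ s ∈ (Finset.Icc 1 (S - t')).image (fun k => t' + k), f s := by
    rw [Finset.sum_image]
    intro x _ y _ h
    simpa using h
  rw [h1]
  apply Finset.sum_subset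
  · intro s hs
    simp only [Finset.mem_image, Finset.mem_Icc] at hs ⊢
    omega
  · intro s hs hs2
    apply hf
    simp only [Finset.mem_image, Finset.mem_Icc, not_exists, not_and] at hs hs2
    by_contra hcon
    exact hs2 (s - t') (by omega) (by omega)

theorem cvA_eq {a : ℝ} (S t t' : ℕ) (htt : t ≤ t') :
    cvA a S t t' = ∑ k ∈ Finset.Icc 1 (S - t'), vv (mu a) (t' + k)
      * ((k : ℝ) * ((k : ℝ) + ((t' : ℝ) - t))) / (bA a t * bA a t') := by
  unfold cvA
  rw [sum_shift_le S t']
  · apply Finset.sum_congr rfl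
    intro k _
    have h1 : t' + k - t' = k := by omega
    have h2 : ((t' + k - t : ℕ) : ℝ) = (k : ℝ) + ((t' : ℝ) - t) := by
      rw [Nat.cast_sub (by omega)]
      push_cast
      ring
    rw [h1, h2, div_mul_div_comm]
    ring
  · intro s hs
    have : s - t' = 0 := by omega
    rw [this]
    simp

theorem cvA_bounds {a : ℝ} (ha : 0 < a) (S t t' : ℕ) (htt : t ≤ t') (ht' : 1 ≤ t') :
    (1 / 2) * Real.exp (-(((t' : ℝ) - t) / (2 * a)))
        * (Am 2 a (S - t') / a ^ 3 + ((t' : ℝ) - t) / a * (Am 1 a (S - t') / a ^ 2)) ≤ cvA a S t t'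
    ∧ cvA a S t t' ≤ (1 / 2) * Real.exp (-(((t' : ℝ) - t) / (2 * a)))
        * (Am 2 a (S - t') / a ^ 3 + ((t' : ℝ) - t) / a * (Am 1 a (S - t') / a ^ 2))
          / (1 - Real.exp (-(t' / a))) ^ 2 := by
  have hΔ : (0 : ℝ) ≤ (t' : ℝ) - t := by
    have : (t : ℝ) ≤ t' := by exact_mod_cast htt
    linarith
  have hbb := bA_mul ha t t'
  have hbpos : 0 < bA a t * bA a t' := mul_pos (bA_pos ha t) (bA_pos ha t')
  have ht'' : (0 : ℝ) < t' := by exact_mod_cast ht'
  have key : (1 / 2) * Real.exp (-(((t' : ℝ) - t) / (2 * a)))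
        * (Am 2 a (S - t') / a ^ 3 + ((t' : ℝ) - t) / a * (Am 1 a (S - t') / a ^ 2))
      = ∑ k ∈ Finset.Icc 1 (S - t'), (2 * Real.exp (-(((t' + k : ℕ) : ℝ) / a)))
      * ((k : ℝ) * ((k : ℝ) + ((t' : ℝ) - t))) / (bA a t * bA a t') := by
    have e1 : ∀ k : ℕ, (2 * Real.exp (-(((t' + k : ℕ) : ℝ) / a)))
        * ((k : ℝ) * ((k : ℝ) + ((t' : ℝ) - t))) / (bA a t * bA a t')
        = (1 / 2) * Real.exp (-(((t' : ℝ) - t) / (2 * a)))
          * ((k : ℝ) ^ 2 * Real.exp (-((k : ℝ) / a)) / a ^ 3
            + ((t' : ℝ) - t) / a * ((k : ℝ) ^ 1 * Real.exp (-((k : ℝ) / a)) / a ^ 2)) := by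
      intro k
      rw [hbb]
      have e2 : Real.exp (-(((t' + k : ℕ) : ℝ) / a)) = Real.exp (-(((t' : ℝ) - t) / (2 * a)))
          * Real.exp (-((k : ℝ) / a)) * Real.exp (-(((t : ℝ) + t') / (2 * a))) := by
        rw [← Real.exp_add, ← Real.exp_add]
        congr 1
        push_cast
        field_simp
        ring
      rw [e2]
      have e3 := (Real.exp_pos (-(((t : ℝ) + t') / (2 * a)))).ne'
      field_simp
      ring
    rw [Finset.sum_congr rfl fun k _ => e1 k, ← Finset.mul_sum, Finset.sum_add_distrib,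
      ← Finset.mul_sum]
    simp only [Am, Finset.sum_div]
  constructor
  · rw [key, cvA_eq S t t' htt]
    apply Finset.sum_le_sum
    intro k hk
    apply div_le_div_of_nonneg_right _ hbpos.le
    apply mul_le_mul_of_nonneg_right _ (by positivity)
    exact vv_ge' ha (by omega)
  · rw [key, cvA_eq S t t' htt, Finset.sum_div]
    apply Finset.sum_le_sum
    intro k hk
    have h1 := vv_le' ha (s := t' + k) (u := t' / a) (by positivity) (by
      rw [div_mul_cancel₀ _ ha.ne']
      push_cast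
      linarith [(Nat.cast_nonneg k : (0 : ℝ) ≤ k)])
    rw [div_right_comm]
    apply div_le_div_of_nonneg_right _ hbpos.le
    rw [mul_div_right_comm]
    apply mul_le_mul_of_nonneg_right h1 (by positivity)

theorem cvA_tendsto {a : ℕ → ℝ} {S t t' : ℕ → ℕ} {τ : ℝ} (ha : Tendsto a atTop atTop)
    (htt : ∀ n, t n ≤ t' n)
    (hd : Tendsto (fun n => ((t' n : ℝ) - t n) / a n) atTop (𝓝 τ))
    (ht : Tendsto (fun n => (t' n : ℝ) / a n) atTop atTop)
    (hS : Tendsto (fun n => ((S n - t' n : ℕ) : ℝ) / a n) atTop atTop) :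
    Tendsto (fun n => cvA (a n) (S n) (t n) (t' n)) atTop
      (𝓝 ((1 + τ / 2) * Real.exp (-(τ / 2)))) := by
  have hA1 := A1_tendsto ha hS
  have hA2 := A2_tendsto ha hS
  have he : Tendsto (fun n => Real.exp (-(((t' n : ℝ) - t n) / (2 * a n)))) atTop
      (𝓝 (Real.exp (-(τ / 2)))) := by
    apply (Real.continuous_exp.tendsto _).comp
    have : (fun n => -(((t' n : ℝ) - t n) / (2 * a n))) = fun n => -((((t' n : ℝ) - t n) / a n) / 2) := by
      funext n
      ring
    rw [this]
    exact (hd.div_const 2).neg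
  have hL : Tendsto (fun n => (1 / 2) * Real.exp (-(((t' n : ℝ) - t n) / (2 * a n)))
        * (Am 2 (a n) (S n - t' n) / a n ^ 3
          + ((t' n : ℝ) - t n) / a n * (Am 1 (a n) (S n - t' n) / a n ^ 2))) atTop
      (𝓝 ((1 + τ / 2) * Real.exp (-(τ / 2)))) := by
    have := (he.const_mul (1 / 2)).mul (hA2.add (hd.mul hA1))
    convert this using 2
    ring
  have hden : Tendsto (fun n => (1 - Real.exp (-(t' n / a n))) ^ 2) atTop (𝓝 1) := by
    have h2 := Real.tendsto_exp_atBot.comp (tendsto_neg_atTop_atBot.comp ht)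
    have h3 := ((tendsto_const_nhds (x := (1 : ℝ))).sub h2).pow 2
    simpa using h3
  have hU := hL.div hden one_ne_zero
  rw [div_one] at hU
  apply tendsto_of_tendsto_of_tendsto_of_le_of_le' hL hU
  · filter_upwards [ha.eventually_gt_atTop 0, ht.eventually_gt_atTop 0] with n hn hn2
    have h1 : 1 ≤ t' n := by
      by_contra hcon
      have : t' n = 0 := by omega
      rw [this] at hn2
      simp at hn2
    exact (cvA_bounds hn (S n) (t n) (t' n) (htt n) h1).1
  · filter_upwards [ha.eventually_gt_atTop 0, ht.eventually_gt_atTop 0] with n hn hn2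
    have h1 : 1 ≤ t' n := by
      by_contra hcon
      have : t' n = 0 := by omega
      rw [this] at hn2
      simp at hn2
    exact (cvA_bounds hn (S n) (t n) (t' n) (htt n) h1).2

/-- fourth order term. -/
theorem qrA_le {a : ℝ} (ha : 1 ≤ a) (S t : ℕ) (ht : a ≤ t) :
    ∑ s ∈ Finset.Icc 1 S, ((vv (mu a) s) ^ 2 + vv (mu a) s) * (((s - t : ℕ) : ℝ) / bA a t) ^ 4
      ≤ 3024 / (a * Real.exp (-(t / a))) := by
  have hpos : 0 < a := by linarith
  have hb2 : bA a t ^ 2 = 4 * a ^ 3 * Real.exp (-(t / a)) := by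
    rw [sq, bA_mul hpos]
    congr 2
    field_simp
    ring
  have hb : bA a t ^ 4 = 16 * a ^ 6 * (Real.exp (-(t / a))) ^ 2 := by
    have : bA a t ^ 4 = (bA a t ^ 2) ^ 2 := by ring
    rw [this, hb2]
    ring
  have hbpos := bA_pos hpos t
  set e := Real.exp (-(t / a)) with he
  have he0 : 0 < e := Real.exp_pos _
  rw [sum_shift_le S t]
  · calc ∑ k ∈ Finset.Icc 1 (S - t), ((vv (mu a) (t + k)) ^ 2 + vv (mu a) (t + k))
          * (((t + k - t : ℕ) : ℝ) / bA a t) ^ 4
        ≤ ∑ k ∈ Finset.Icc 1 (S - t), (42 * e / (16 * a ^ 6 * e ^ 2))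
            * ((k : ℝ) ^ 4 * Real.exp (-((k : ℝ) / a))) := by
          apply Finset.sum_le_sum
          intro k _
          have h1 : t + k - t = k := by omega
          have hk0 : (0 : ℝ) ≤ k := Nat.cast_nonneg k
          have h2 := vv_le_six hpos (s := t + k) (by push_cast; linarith)
          have h3 : Real.exp (-(((t + k : ℕ) : ℝ) / a)) = e * Real.exp (-((k : ℝ) / a)) := by
            rw [he, ← Real.exp_add]
            congr 1
            push_cast
            ring
          have h4 : Real.exp (-(((t + k : ℕ) : ℝ) / a)) ≤ 1 := by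
            rw [Real.exp_le_one_iff]
            have : 0 ≤ ((t + k : ℕ) : ℝ) / a := by positivity
            linarith
          have h5 : 0 ≤ vv (mu a) (t + k) := vv_nonneg (mu_nonneg hpos) _
          have h6 : (vv (mu a) (t + k)) ^ 2 + vv (mu a) (t + k)
              ≤ 42 * Real.exp (-(((t + k : ℕ) : ℝ) / a)) := by nlinarith
          rw [h1, div_pow, hb]
          calc ((vv (mu a) (t + k)) ^ 2 + vv (mu a) (t + k)) * ((k : ℝ) ^ 4 / (16 * a ^ 6 * e ^ 2))
              ≤ (42 * Real.exp (-(((t + k : ℕ) : ℝ) / a))) * ((k : ℝ) ^ 4 / (16 * a ^ 6 * e ^ 2)) :=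
                mul_le_mul_of_nonneg_right h6 (by positivity)
            _ = _ := by rw [h3]; ring
      _ = (42 * e / (16 * a ^ 6 * e ^ 2)) * ∑ k ∈ Finset.Icc 1 (S - t),
            ((k : ℝ) ^ 4 * Real.exp (-((k : ℝ) / a))) := by rw [Finset.mul_sum]
      _ ≤ (42 * e / (16 * a ^ 6 * e ^ 2)) * (((4 : ℕ).factorial : ℝ) * (2 * a) ^ 4 * (3 * a)) :=
          mul_le_mul_of_nonneg_left (sum_pow_exp_le 4 ha _) (by positivity)
      _ = _ := by
          have : ((4 : ℕ).factorial : ℝ) = 24 := by norm_num [Nat.factorial]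
          rw [this]
          field_simp
          norm_num
  · intro s hs
    have : s - t = 0 := by omega
    rw [this]
    simp

/-- the times of the mesh for the large parts. -/
noncomputable def tA (a u : ℝ) (m i : ℕ) : ℕ := ⌊a * (u + i / m)⌋₊

theorem tA_bounds {a u : ℝ} (ha : 0 < a) (hu : 0 ≤ u) (m i : ℕ) :
    a * (u + i / m) - 1 < tA a u m i ∧ (tA a u m i : ℝ) ≤ a * (u + i / m) := by
  have h0 : 0 ≤ a * (u + i / m) := by positivity
  exact ⟨by have := Nat.lt_floor_add_one (a * (u + i / m)); unfold tA; linarith, Nat.floor_le h0⟩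

theorem tA_mono {a u : ℝ} (ha : 0 < a) (m : ℕ) {i j : ℕ} (hij : i ≤ j) :
    tA a u m i ≤ tA a u m j := by
  unfold tA
  apply Nat.floor_le_floor
  apply mul_le_mul_of_nonneg_left _ ha.le
  have : (i : ℝ) ≤ j := by exact_mod_cast hij
  have : (i : ℝ) / m ≤ j / m := div_le_div_of_nonneg_right this (Nat.cast_nonneg m)
  linarith

section
variable {a u : ℕ → ℝ} {S : ℕ → ℕ} (ha : Tendsto a atTop atTop) (hu : Tendsto u atTop atTop)
include ha hu

theorem tA_div (m i : ℕ) : Tendsto (fun n => (tA (a n) (u n) m i : ℝ) / a n - u n) atTop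
    (𝓝 ((i : ℝ) / m)) := by
  have hinv : Tendsto (fun n => 1 / a n) atTop (𝓝 0) := one_div_tendsto ha
  have hL : Tendsto (fun n => (i : ℝ) / m - 1 / a n) atTop (𝓝 ((i : ℝ) / m)) := by
    simpa using (tendsto_const_nhds (x := (i : ℝ) / m)).sub hinv
  apply tendsto_of_tendsto_of_tendsto_of_le_of_le' hL tendsto_const_nhds
  · filter_upwards [ha.eventually_gt_atTop 0, hu.eventually_ge_atTop 0] with n hn hn2
    have h := (tA_bounds hn hn2 m i).1
    have h2 : u n + (i : ℝ) / m - 1 / a n ≤ (tA (a n) (u n) m i : ℝ) / a n := by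
      rw [le_div_iff₀ hn]
      have : (u n + (i : ℝ) / m - 1 / a n) * a n = a n * (u n + i / m) - 1 := by
        field_simp
      linarith
    linarith
  · filter_upwards [ha.eventually_gt_atTop 0, hu.eventually_ge_atTop 0] with n hn hn2
    have h := (tA_bounds hn hn2 m i).2
    have h2 : (tA (a n) (u n) m i : ℝ) / a n ≤ u n + (i : ℝ) / m := by
      rw [div_le_iff₀ hn]
      linarith
    linarith

theorem cltA {m l : ℕ} (hau : Tendsto (fun n => a n * Real.exp (-(u n))) atTop atTop)
    (hS : Tendsto (fun n => (S n : ℝ) / a n - u n) atTop atTop) :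
    (covGrid m l).PosSemidef ∧
    Tendsto (fun n => Zlaw (mu (a n)) (Finset.Icc 1 (S n))
      (fun (i : Fin (l * m + 1)) s => ((s - tA (a n) (u n) m i : ℕ) : ℝ) / bA (a n) (tA (a n) (u n) m i)))
      atTop (𝓝 (Glaw (covGrid m l))) := by
  have hpos : ∀ᶠ n in atTop, 0 < a n := ha.eventually_gt_atTop 0
  -- replace a by a positive sequence
  have key : ∀ a' : ℕ → ℝ, (∀ n, 0 < a' n) → (∀ᶠ n in atTop, a' n = a n) →
      (covGrid m l).PosSemidef ∧
      Tendsto (fun n => Zlaw (mu (a' n)) (Finset.Icc 1 (S n))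
      (fun (i : Fin (l * m + 1)) s => ((s - tA (a' n) (u n) m i : ℕ) : ℝ)
        / bA (a' n) (tA (a' n) (u n) m i)))
      atTop (𝓝 (Glaw (covGrid m l))) := by
    intro a' ha'0 ha'
    have ha2 : Tendsto a' atTop atTop := ha.congr' (ha'.mono fun n h => h.symm)
    have hau2 : Tendsto (fun n => a' n * Real.exp (-(u n))) atTop atTop :=
      hau.congr' (ha'.mono fun n h => by simp only [h])
    have hS2 : Tendsto (fun n => (S n : ℝ) / a' n - u n) atTop atTop :=
      hS.congr' (ha'.mono fun n h => by simp only [h])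
    have hd := tA_div ha2 hu m
    have ht : ∀ i, Tendsto (fun n => (tA (a' n) (u n) m i : ℝ) / a' n) atTop atTop := by
      intro i
      have := hu.atTop_add (hd i)
      refine this.congr fun n => ?_
      ring
    have hS3 : ∀ i, Tendsto (fun n => ((S n - tA (a' n) (u n) m i : ℕ) : ℝ) / a' n) atTop atTop := by
      intro i
      have h1 := hS2.atTop_add (hd i).neg
      apply tendsto_atTop_mono' _ _ h1
      filter_upwards with n
      have h2 : (S n : ℝ) ≤ ((S n - tA (a' n) (u n) m i : ℕ) : ℝ) + tA (a' n) (u n) m i := by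
        have : S n ≤ (S n - tA (a' n) (u n) m i) + tA (a' n) (u n) m i := by omega
        exact_mod_cast this
      have h3 : (S n : ℝ) / a' n ≤ ((S n - tA (a' n) (u n) m i : ℕ) : ℝ) / a' n
          + (tA (a' n) (u n) m i : ℝ) / a' n := by
        rw [← add_div]
        exact div_le_div_of_nonneg_right h2 (ha'0 n).le
      linarith
    have hcov : ∀ i j : ℕ, i ≤ j → Tendsto (fun n => cvA (a' n) (S n) (tA (a' n) (u n) m i)
        (tA (a' n) (u n) m j)) atTop (𝓝 (rho (((i : ℝ) - j) / m))) := by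
      intro i j hij
      have hij' : (i : ℝ) ≤ j := by exact_mod_cast hij
      have h1 := cvA_tendsto (τ := ((j : ℝ) / m - i / m)) ha2
        (fun n => tA_mono (ha'0 n) m hij) (S := S) (t := fun n => tA (a' n) (u n) m i)
        (t' := fun n => tA (a' n) (u n) m j) ?_ (ht j) (hS3 j)
      · convert h1 using 2
        unfold rho
        have : |((i : ℝ) - j) / m| = (j : ℝ) / m - i / m := by
          rw [abs_div, abs_of_nonpos (by linarith), abs_of_nonneg (Nat.cast_nonneg m)]
          ring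
        rw [this]
      · have := (hd j).sub (hd i)
        refine this.congr fun n => ?_
        ring
    apply clt (fun n => mu (a' n)) (fun n s => mu_nonneg (ha'0 n) s)
    · intro i j
      show Tendsto (fun n => cvA (a' n) (S n) (tA (a' n) (u n) m i) (tA (a' n) (u n) m j)) atTop _
      simp only [covGrid, Matrix.of_apply]
      rcases le_total (i : ℕ) (j : ℕ) with h | h
      · exact hcov i j h
      · have h1 := hcov j i h
        simp_rw [cvA_comm _ _ (tA _ _ m j) (tA _ _ m i)] at h1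
        convert h1 using 2
        unfold rho
        have : |((i : ℝ) - j) / m| = |((j : ℝ) - i) / m| := by
          rw [abs_div, abs_div, abs_sub_comm]
        rw [this]
    · intro i
      have hbig : Tendsto (fun n => a' n * Real.exp (-((tA (a' n) (u n) m i : ℝ) / a' n))) atTop
          atTop := by
        have h1 : Tendsto (fun n => Real.exp (-((tA (a' n) (u n) m i : ℝ) / a' n - u n))) atTop
            (𝓝 (Real.exp (-((i : ℕ) / m)))) := (Real.continuous_exp.tendsto _).comp (hd i).neg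
        have h2 := hau2.atTop_mul_pos (Real.exp_pos _) h1
        refine h2.congr fun n => ?_
        rw [mul_assoc, ← Real.exp_add]
        congr 2
        ring
      apply squeeze_zero' (g := fun n => 3024 / (a' n * Real.exp (-((tA (a' n) (u n) m i : ℝ) / a' n))))
      · filter_upwards with n
        apply Finset.sum_nonneg
        intro s _
        have := vv_nonneg (mu_nonneg (ha'0 n)) s
        have h4 : (((s - tA (a' n) (u n) m i : ℕ) : ℝ) / bA (a' n) (tA (a' n) (u n) m i)) ^ 4
          = ((((s - tA (a' n) (u n) m i : ℕ) : ℝ) / bA (a' n) (tA (a' n) (u n) m i)) ^ 2) ^ 2 := by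
            ring
        rw [h4]
        positivity
      · filter_upwards [ha2.eventually_ge_atTop 1, (ht i).eventually_ge_atTop 1] with n hn hn2
        apply qrA_le hn
        rwa [le_div_iff₀ (ha'0 n), one_mul] at hn2
      · exact hbig.const_div_atTop _
  have h := key (fun n => if 0 < a n then a n else 1)
    (fun n => by split_ifs with h; exact h; exact one_pos)
    (hpos.mono fun n h => by simp [h])
  refine ⟨h.1, h.2.congr' ?_⟩
  filter_upwards [hpos] with n hn
  simp [hn]

end

theorem covGrid_psd (m l : ℕ) : (covGrid m l).PosSemidef := by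
  have h := cltA (m := m) (l := l) (a := fun n : ℕ => Real.exp ((n : ℝ))) (u := fun n : ℕ => (n : ℝ) / 2)
    (S := fun n : ℕ => ⌈Real.exp (n : ℝ) * n⌉₊) ?_ ?_ ?_ ?_
  · exact h.1
  · exact Real.tendsto_exp_atTop.comp tendsto_natCast_atTop_atTop
  · exact tendsto_natCast_atTop_atTop.atTop_div_const (by norm_num)
  · have : (fun n : ℕ => Real.exp (n : ℝ) * Real.exp (-((n : ℝ) / 2)))
        = fun n : ℕ => Real.exp ((n : ℝ) / 2) := by
      funext n
      rw [← Real.exp_add]
      congr 1
      ring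
    rw [this]
    exact Real.tendsto_exp_atTop.comp (tendsto_natCast_atTop_atTop.atTop_div_const (by norm_num))
  · have h1 : Tendsto (fun n : ℕ => (n : ℝ) / 2) atTop atTop :=
      tendsto_natCast_atTop_atTop.atTop_div_const (by norm_num)
    apply tendsto_atTop_mono _ h1
    intro n
    have h2 := Nat.le_ceil (Real.exp (n : ℝ) * n)
    have h3 : (n : ℝ) ≤ (⌈Real.exp (n : ℝ) * n⌉₊ : ℝ) / Real.exp (n : ℝ) := by
      rw [le_div_iff₀ (Real.exp_pos _)]
      linarith
    linarith

end Pool.Agent.Helper95.Dom
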