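import Pool.Agent.Helper95.DomCovA

/-!
Covariance asymptotics for the small parts.
-/

namespace Pool.Agent.Helper95.Dom

open MeasureTheory ProbabilityTheory Filter
open scoped Topology

theorem sum_inv_le {t t' : ℕ} (ht : 1 ≤ t) (htt : t ≤ t') :
    ∑ s ∈ Finset.Ioc t t', 1 / (s : ℝ) ≤ Real.log ((t' : ℝ) / t) := by
  induction t', htt using Nat.le_induction with
  | base =>
    have : (t : ℝ) ≠ 0 := by positivity
    simp [this]
  | succ n hn ih =>
    have hn0 : (0 : ℝ) < n := by exact_mod_cast (by omega : 0 < n)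
    have ht0 : (0 : ℝ) < t := by exact_mod_cast (by omega : 0 < t)
    rw [Finset.sum_Ioc_succ_top (by omega : t ≤ n)]
    have h1 : 1 / (((n + 1 : ℕ) : ℕ) : ℝ) ≤ Real.log (((n + 1 : ℕ) : ℝ) / n) := by
      have h2 := Real.log_le_sub_one_of_pos (show (0 : ℝ) < n / ((n + 1 : ℕ) : ℝ) by positivity)
      have h3 : Real.log ((n : ℝ) / ((n + 1 : ℕ) : ℝ)) = -Real.log (((n + 1 : ℕ) : ℝ) / n) := by
        rw [← Real.log_inv, inv_div]
      rw [h3] at h2
      have h4 : (n : ℝ) / ((n + 1 : ℕ) : ℝ) - 1 = -(1 / (((n + 1 : ℕ) : ℕ) : ℝ)) := by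
        push_cast
        field_simp
        ring
      rw [h4] at h2
      linarith
    have h5 : Real.log (((n + 1 : ℕ) : ℝ) / t) = Real.log ((n : ℝ) / t)
        + Real.log (((n + 1 : ℕ) : ℝ) / n) := by
      rw [← Real.log_mul (by positivity) (by positivity)]
      congr 1
      field_simp
    rw [h5]
    exact add_le_add ih h1

theorem le_sum_inv {t t' : ℕ} (htt : t ≤ t') :
    Real.log (((t' : ℝ) + 1) / (t + 1)) ≤ ∑ s ∈ Finset.Ioc t t', 1 / (s : ℝ) := by
  induction t', htt using Nat.le_induction with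
  | base =>
    have : (t : ℝ) + 1 ≠ 0 := by positivity
    simp [this]
  | succ n hn ih =>
    rw [Finset.sum_Ioc_succ_top (by omega : t ≤ n)]
    have h1 : Real.log ((((n + 1 : ℕ) : ℝ) + 1) / ((n : ℝ) + 1)) ≤ 1 / (((n + 1 : ℕ) : ℕ) : ℝ) := by
      have h2 := Real.log_le_sub_one_of_pos
        (show (0 : ℝ) < (((n + 1 : ℕ) : ℝ) + 1) / ((n : ℝ) + 1) by positivity)
      refine h2.trans (le_of_eq ?_)
      push_cast
      field_simp
      ring
    have h5 : Real.log ((((n + 1 : ℕ) : ℝ) + 1) / (t + 1)) = Real.log (((n : ℝ) + 1) / (t + 1))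
        + Real.log ((((n + 1 : ℕ) : ℝ) + 1) / ((n : ℝ) + 1)) := by
      rw [← Real.log_mul (by positivity) (by positivity)]
      congr 1
      field_simp
    rw [h5]
    exact add_le_add ih h1

theorem sum_inv_sq_le {t t' : ℕ} (ht : 1 ≤ t) (htt : t ≤ t') :
    ∑ s ∈ Finset.Ioc t t', 1 / (s : ℝ) ^ 2 ≤ 1 / (t : ℝ) - 1 / (t' : ℝ) := by
  induction t', htt using Nat.le_induction with
  | base => simp
  | succ n hn ih =>
    have hn0 : (0 : ℝ) < n := by exact_mod_cast (by omega : 0 < n)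
    rw [Finset.sum_Ioc_succ_top (by omega : t ≤ n)]
    have h1 : 1 / (((n + 1 : ℕ) : ℕ) : ℝ) ^ 2 ≤ 1 / (n : ℝ) - 1 / ((n + 1 : ℕ) : ℝ) := by
      push_cast
      rw [div_sub_div _ _ (by positivity) (by positivity), div_le_div_iff₀ (by positivity)
        (by positivity)]
      nlinarith
    linarith

theorem le_sum_inv_sq {t t' : ℕ} (htt : t ≤ t') :
    1 / ((t : ℝ) + 1) - 1 / ((t' : ℝ) + 1) ≤ ∑ s ∈ Finset.Ioc t t', 1 / (s : ℝ) ^ 2 := by
  induction t', htt using Nat.le_induction with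
  | base => simp
  | succ n hn ih =>
    rw [Finset.sum_Ioc_succ_top (by omega : t ≤ n)]
    have h1 : 1 / ((n : ℝ) + 1) - 1 / (((n + 1 : ℕ) : ℝ) + 1) ≤ 1 / (((n + 1 : ℕ) : ℕ) : ℝ) ^ 2 := by
      push_cast
      rw [div_sub_div _ _ (by positivity) (by positivity), div_le_div_iff₀ (by positivity)
        (by positivity)]
      nlinarith
    linarith

/-- normalisation for the small parts. -/
noncomputable def bB (a : ℝ) (t : ℕ) : ℝ := 2 * a * √t

theorem bB_pos {a : ℝ} (ha : 0 < a) {t : ℕ} (ht : 1 ≤ t) : 0 < bB a t := by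
  unfold bB
  have : (0 : ℝ) < t := by exact_mod_cast ht
  have := Real.sqrt_pos.2 this
  positivity

/-- covariance of the normalised sums. -/
noncomputable def cvB (a : ℝ) (T t t' : ℕ) : ℝ :=
  ∑ s ∈ Finset.Icc 1 T, vv (mu a) s * (((min s t : ℕ) : ℝ) / bB a t * (((min s t' : ℕ) : ℝ) / bB a t'))

theorem cvB_comm (a : ℝ) (T t t' : ℕ) : cvB a T t t' = cvB a T t' t := by
  unfold cvB
  apply Finset.sum_congr rfl
  intro s _
  ring

theorem Icc_eq_Ioc (T : ℕ) : Finset.Icc 1 T = Finset.Ioc 0 T := by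
  ext s; simp only [Finset.mem_Icc, Finset.mem_Ioc]; omega

theorem cvB_eq {a : ℝ} {T t t' : ℕ} (htt : t ≤ t') (hT : t' ≤ T) :
    cvB a T t t' = (∑ s ∈ Finset.Ioc 0 t, vv (mu a) s * (s : ℝ) ^ 2
      + t * ∑ s ∈ Finset.Ioc t t', vv (mu a) s * (s : ℝ)
      + t * t' * ∑ s ∈ Finset.Ioc t' T, vv (mu a) s) / (bB a t * bB a t') := by
  unfold cvB
  rw [Icc_eq_Ioc, ← Finset.sum_Ioc_consecutive _ (Nat.zero_le t') hT,
    ← Finset.sum_Ioc_consecutive _ (Nat.zero_le t) htt]
  rw [add_div, add_div]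
  congr 1
  · congr 1
    · rw [Finset.sum_div]
      apply Finset.sum_congr rfl
      intro s hs
      simp only [Finset.mem_Ioc] at hs
      rw [min_eq_left hs.2, min_eq_left (by omega)]
      ring
    · rw [Finset.mul_sum, Finset.sum_div]
      apply Finset.sum_congr rfl
      intro s hs
      simp only [Finset.mem_Ioc] at hs
      rw [min_eq_right hs.1.le, min_eq_left hs.2]
      ring
  · rw [Finset.mul_sum, Finset.sum_div]
    apply Finset.sum_congr rfl
    intro s hs
    simp only [Finset.mem_Ioc] at hs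
    rw [min_eq_right (by omega), min_eq_right hs.1.le]
    ring

theorem cvB_upper {a : ℝ} (ha : 0 < a) {T t t' : ℕ} (ht : 1 ≤ t) (htt : t ≤ t') (hT : t' ≤ T) :
    cvB a T t t' ≤ (2 + Real.log ((t' : ℝ) / t)) * (√(t / t') / 2) := by
  have ht0 : (0 : ℝ) < t := by exact_mod_cast ht
  have ht'0 : (0 : ℝ) < t' := by exact_mod_cast (by omega : 0 < t')
  have hb : 0 < bB a t * bB a t' := mul_pos (bB_pos ha ht) (bB_pos ha (by omega))
  rw [cvB_eq htt hT]
  have h1 : ∑ s ∈ Finset.Ioc 0 t, vv (mu a) s * (s : ℝ) ^ 2 ≤ 2 * a ^ 2 * t := by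
    calc ∑ s ∈ Finset.Ioc 0 t, vv (mu a) s * (s : ℝ) ^ 2
        ≤ ∑ s ∈ Finset.Ioc 0 t, 2 * a ^ 2 := by
          apply Finset.sum_le_sum
          intro s hs
          simp only [Finset.mem_Ioc] at hs
          have hs0 : (0 : ℝ) < s := by exact_mod_cast hs.1
          have := vv_le ha s
          calc vv (mu a) s * (s : ℝ) ^ 2 ≤ 2 * a ^ 2 / (s : ℝ) ^ 2 * (s : ℝ) ^ 2 :=
                mul_le_mul_of_nonneg_right this (by positivity)
            _ = 2 * a ^ 2 := by field_simp
      _ = _ := by simp; ring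
  have h2 : ∑ s ∈ Finset.Ioc t t', vv (mu a) s * (s : ℝ) ≤ 2 * a ^ 2 * Real.log ((t' : ℝ) / t) := by
    calc ∑ s ∈ Finset.Ioc t t', vv (mu a) s * (s : ℝ)
        ≤ ∑ s ∈ Finset.Ioc t t', 2 * a ^ 2 * (1 / (s : ℝ)) := by
          apply Finset.sum_le_sum
          intro s hs
          simp only [Finset.mem_Ioc] at hs
          have hs0 : (0 : ℝ) < s := by exact_mod_cast (by omega : 0 < s)
          have := vv_le ha s
          calc vv (mu a) s * (s : ℝ) ≤ 2 * a ^ 2 / (s : ℝ) ^ 2 * (s : ℝ) :=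
                mul_le_mul_of_nonneg_right this (by positivity)
            _ = _ := by field_simp
      _ = 2 * a ^ 2 * ∑ s ∈ Finset.Ioc t t', (1 / (s : ℝ)) := by rw [Finset.mul_sum]
      _ ≤ _ := mul_le_mul_of_nonneg_left (sum_inv_le ht htt) (by positivity)
  have h3 : ∑ s ∈ Finset.Ioc t' T, vv (mu a) s ≤ 2 * a ^ 2 / t' := by
    calc ∑ s ∈ Finset.Ioc t' T, vv (mu a) s
        ≤ ∑ s ∈ Finset.Ioc t' T, 2 * a ^ 2 * (1 / (s : ℝ) ^ 2) := by
          apply Finset.sum_le_sum
          intro s hs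
          have := vv_le ha s
          rwa [mul_one_div]
      _ = 2 * a ^ 2 * ∑ s ∈ Finset.Ioc t' T, (1 / (s : ℝ) ^ 2) := by rw [Finset.mul_sum]
      _ ≤ 2 * a ^ 2 * (1 / (t' : ℝ) - 1 / (T : ℝ)) :=
          mul_le_mul_of_nonneg_left (sum_inv_sq_le (by omega) hT) (by positivity)
      _ ≤ 2 * a ^ 2 * (1 / (t' : ℝ)) := by
          apply mul_le_mul_of_nonneg_left _ (by positivity)
          have : (0 : ℝ) ≤ 1 / T := by positivity
          linarith
      _ = _ := by ring
  rw [div_le_iff₀ hb]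
  have e1 : (2 + Real.log ((t' : ℝ) / t)) * (√(t / t') / 2) * (bB a t * bB a t')
      = 2 * a ^ 2 * t * (2 + Real.log ((t' : ℝ) / t)) := by
    unfold bB
    rw [Real.sqrt_div ht0.le]
    have e2 : √(t : ℝ) * √(t : ℝ) = t := Real.mul_self_sqrt ht0.le
    have e3 := (Real.sqrt_pos.2 ht'0).ne'
    field_simp
    have e4 : √(t : ℝ) ^ 2 = t := by rw [sq]; exact e2
    rw [e4]
    ring
  rw [e1]
  have h4 := mul_le_mul_of_nonneg_left h2 ht0.le
  have h5 := mul_le_mul_of_nonneg_left h3 (by positivity : (0 : ℝ) ≤ t * t')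
  have h6 : (t : ℝ) * t' * (2 * a ^ 2 / t') = 2 * a ^ 2 * t := by field_simp
  rw [h6] at h5
  calc _ ≤ 2 * a ^ 2 * t + t * (2 * a ^ 2 * Real.log ((t' : ℝ) / t)) + 2 * a ^ 2 * t :=
        add_le_add (add_le_add h1 h4) h5
    _ = _ := by ring

theorem cvB_lower {a : ℝ} (ha : 0 < a) {T T' t t' : ℕ} (ht : 1 ≤ t) (htt : t ≤ t') (hT : t' ≤ T')
    (hT' : T' ≤ T) :
    Real.exp (-(T' / a)) * ((1 + Real.log (((t' : ℝ) + 1) / (t + 1))
      + t' * (1 / ((t' : ℝ) + 1) - 1 / ((T' : ℝ) + 1))) * (√(t / t') / 2)) ≤ cvB a T t t' := by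
  have ht0 : (0 : ℝ) < t := by exact_mod_cast ht
  have ht'0 : (0 : ℝ) < t' := by exact_mod_cast (by omega : 0 < t')
  have hb : 0 < bB a t * bB a t' := mul_pos (bB_pos ha ht) (bB_pos ha (by omega))
  set e := Real.exp (-((T' : ℝ) / a)) with he
  have he0 : 0 < e := Real.exp_pos _
  have hv : ∀ s ∈ Finset.Ioc 0 T', e * (2 * a ^ 2 / (s : ℝ) ^ 2) ≤ vv (mu a) s := by
    intro s hs
    simp only [Finset.mem_Ioc] at hs
    refine le_trans ?_ (vv_ge ha s)
    rw [mul_comm]
    apply mul_le_mul_of_nonneg_left _ (by positivity)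
    rw [he]
    apply Real.exp_le_exp.2
    apply neg_le_neg
    apply div_le_div_of_nonneg_right _ ha.le
    exact_mod_cast hs.2
  have h0 : cvB a T' t t' ≤ cvB a T t t' := by
    unfold cvB
    apply Finset.sum_le_sum_of_subset_of_nonneg
    · intro s hs
      simp only [Finset.mem_Icc] at hs ⊢
      omega
    · intro s _ _
      have h1 := vv_nonneg (mu_nonneg ha) s
      have h2 := bB_pos ha ht
      have h3 := bB_pos ha (show 1 ≤ t' by omega)
      positivity
  refine le_trans ?_ h0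
  rw [cvB_eq htt hT]
  have h1 : e * (2 * a ^ 2 * t) ≤ ∑ s ∈ Finset.Ioc 0 t, vv (mu a) s * (s : ℝ) ^ 2 := by
    calc e * (2 * a ^ 2 * t) = ∑ s ∈ Finset.Ioc 0 t, e * (2 * a ^ 2) := by simp; ring
      _ ≤ ∑ s ∈ Finset.Ioc 0 t, vv (mu a) s * (s : ℝ) ^ 2 := by
          apply Finset.sum_le_sum
          intro s hs
          simp only [Finset.mem_Ioc] at hs
          have hs0 : (0 : ℝ) < s := by exact_mod_cast hs.1
          have := hv s (by simp only [Finset.mem_Ioc]; omega)
          calc e * (2 * a ^ 2) = e * (2 * a ^ 2 / (s : ℝ) ^ 2) * (s : ℝ) ^ 2 := by field_simp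
            _ ≤ _ := mul_le_mul_of_nonneg_right this (by positivity)
  have h2 : e * (2 * a ^ 2 * Real.log (((t' : ℝ) + 1) / (t + 1)))
      ≤ ∑ s ∈ Finset.Ioc t t', vv (mu a) s * (s : ℝ) := by
    calc e * (2 * a ^ 2 * Real.log (((t' : ℝ) + 1) / (t + 1)))
        ≤ e * (2 * a ^ 2 * ∑ s ∈ Finset.Ioc t t', (1 / (s : ℝ))) := by
          apply mul_le_mul_of_nonneg_left _ he0.le
          exact mul_le_mul_of_nonneg_left (le_sum_inv htt) (by positivity)
      _ = ∑ s ∈ Finset.Ioc t t', e * (2 * a ^ 2 * (1 / (s : ℝ))) := by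
          rw [Finset.mul_sum, Finset.mul_sum]
      _ ≤ _ := by
          apply Finset.sum_le_sum
          intro s hs
          simp only [Finset.mem_Ioc] at hs
          have hs0 : (0 : ℝ) < s := by exact_mod_cast (by omega : 0 < s)
          have := hv s (by simp only [Finset.mem_Ioc]; omega)
          calc e * (2 * a ^ 2 * (1 / (s : ℝ))) = e * (2 * a ^ 2 / (s : ℝ) ^ 2) * (s : ℝ) := by
                field_simp
            _ ≤ _ := mul_le_mul_of_nonneg_right this (by positivity)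
  have h3 : e * (2 * a ^ 2 * (1 / ((t' : ℝ) + 1) - 1 / ((T' : ℝ) + 1)))
      ≤ ∑ s ∈ Finset.Ioc t' T', vv (mu a) s := by
    calc e * (2 * a ^ 2 * (1 / ((t' : ℝ) + 1) - 1 / ((T' : ℝ) + 1)))
        ≤ e * (2 * a ^ 2 * ∑ s ∈ Finset.Ioc t' T', (1 / (s : ℝ) ^ 2)) := by
          apply mul_le_mul_of_nonneg_left _ he0.le
          exact mul_le_mul_of_nonneg_left (le_sum_inv_sq hT) (by positivity)
      _ = ∑ s ∈ Finset.Ioc t' T', e * (2 * a ^ 2 * (1 / (s : ℝ) ^ 2)) := by
          rw [Finset.mul_sum, Finset.mul_sum]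
      _ ≤ _ := by
          apply Finset.sum_le_sum
          intro s hs
          simp only [Finset.mem_Ioc] at hs
          have := hv s (by simp only [Finset.mem_Ioc]; omega)
          rwa [mul_one_div]
  rw [le_div_iff₀ hb]
  have e1 : ∀ X : ℝ, e * (X * (√(t / t') / 2)) * (bB a t * bB a t') = e * (2 * a ^ 2 * t) * X := by
    intro X
    unfold bB
    rw [Real.sqrt_div ht0.le]
    have e2 : √(t : ℝ) * √(t : ℝ) = t := Real.mul_self_sqrt ht0.le
    have e3 := (Real.sqrt_pos.2 ht'0).ne'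
    field_simp
    have e4 : √(t : ℝ) ^ 2 = t := by rw [sq]; exact e2
    rw [e4]
  rw [e1]
  have h4 := mul_le_mul_of_nonneg_left h2 ht0.le
  have h5 := mul_le_mul_of_nonneg_left h3 (by positivity : (0 : ℝ) ≤ t * t')
  calc _ = e * (2 * a ^ 2 * t) + t * (e * (2 * a ^ 2 * Real.log (((t' : ℝ) + 1) / (t + 1))))
        + t * t' * (e * (2 * a ^ 2 * (1 / ((t' : ℝ) + 1) - 1 / ((T' : ℝ) + 1)))) := by ring
    _ ≤ _ := add_le_add (add_le_add h1 h4) h5

theorem qrB_le {a : ℝ} (ha : 1 ≤ a) {T t : ℕ} (ht : 1 ≤ t) (htT : t ≤ T) (hT : (T : ℝ) ≤ a) :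
    ∑ s ∈ Finset.Icc 1 T, ((vv (mu a) s) ^ 2 + vv (mu a) s) * (((min s t : ℕ) : ℝ) / bB a t) ^ 4
      ≤ 1 / (t : ℝ) := by
  have hpos : 0 < a := by linarith
  have ht0 : (0 : ℝ) < t := by exact_mod_cast ht
  have hb : bB a t ^ 4 = 16 * a ^ 4 * (t : ℝ) ^ 2 := by
    unfold bB
    have : √(t : ℝ) ^ 4 = (t : ℝ) ^ 2 := by
      have h : √(t : ℝ) ^ 4 = (√(t : ℝ) ^ 2) ^ 2 := by ring
      rw [h, Real.sq_sqrt ht0.le]
    rw [mul_pow, mul_pow, this]
    ring
  have hv : ∀ s ∈ Finset.Icc 1 T, (vv (mu a) s) ^ 2 + vv (mu a) s ≤ 6 * a ^ 4 / (s : ℝ) ^ 4 := by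
    intro s hs
    simp only [Finset.mem_Icc] at hs
    have hs0 : (0 : ℝ) < s := by exact_mod_cast hs.1
    have hsa : (s : ℝ) ≤ a := le_trans (by exact_mod_cast hs.2) hT
    have h1 := vv_le hpos s
    have h2 := vv_nonneg (mu_nonneg hpos) s
    have h3 : (1 : ℝ) ≤ a ^ 2 / (s : ℝ) ^ 2 := by
      rw [le_div_iff₀ (by positivity), one_mul]
      exact pow_le_pow_left₀ hs0.le hsa 2
    set X := a ^ 2 / (s : ℝ) ^ 2 with hX
    have h4 : 2 * a ^ 2 / (s : ℝ) ^ 2 = 2 * X := by rw [hX]; ring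
    have h5 : 6 * a ^ 4 / (s : ℝ) ^ 4 = 6 * X ^ 2 := by rw [hX]; ring
    rw [h4] at h1
    rw [h5]
    nlinarith
  have hb0 := bB_pos hpos ht
  have htt : ∑ s ∈ Finset.Icc 1 T, ((vv (mu a) s) ^ 2 + vv (mu a) s)
      * (((min s t : ℕ) : ℝ) / bB a t) ^ 4
      ≤ ∑ s ∈ Finset.Icc 1 T, (6 * a ^ 4 / (s : ℝ) ^ 4) * (((min s t : ℕ) : ℝ) ^ 4
        / (16 * a ^ 4 * (t : ℝ) ^ 2)) := by
    apply Finset.sum_le_sum
    intro s hs
    rw [div_pow, hb]
    exact mul_le_mul_of_nonneg_right (hv s hs) (by positivity)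
  refine htt.trans ?_
  rw [Icc_eq_Ioc, ← Finset.sum_Ioc_consecutive _ (Nat.zero_le t) htT]
  have h1 : ∑ s ∈ Finset.Ioc 0 t, (6 * a ^ 4 / (s : ℝ) ^ 4) * (((min s t : ℕ) : ℝ) ^ 4
        / (16 * a ^ 4 * (t : ℝ) ^ 2)) ≤ 3 / 8 * (1 / (t : ℝ)) := by
    calc _ = ∑ s ∈ Finset.Ioc 0 t, (3 / 8) * (1 / (t : ℝ) ^ 2) := by
          apply Finset.sum_congr rfl
          intro s hs
          simp only [Finset.mem_Ioc] at hs
          have hs0 : (0 : ℝ) < s := by exact_mod_cast hs.1
          rw [min_eq_left hs.2]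
          field_simp
          norm_num
      _ = 3 / 8 * (1 / (t : ℝ)) := by simp; field_simp
      _ ≤ _ := le_rfl
  have h2 : ∑ s ∈ Finset.Ioc t T, (6 * a ^ 4 / (s : ℝ) ^ 4) * (((min s t : ℕ) : ℝ) ^ 4
        / (16 * a ^ 4 * (t : ℝ) ^ 2)) ≤ 3 / 8 * (1 / (t : ℝ)) := by
    calc _ ≤ ∑ s ∈ Finset.Ioc t T, (3 / 8) * (1 / (s : ℝ) ^ 2) := by
          apply Finset.sum_le_sum
          intro s hs
          simp only [Finset.mem_Ioc] at hs
          have hs0 : (0 : ℝ) < s := by exact_mod_cast (by omega : 0 < s)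
          have hts : (t : ℝ) ≤ s := by exact_mod_cast hs.1.le
          rw [min_eq_right hs.1.le]
          have e1 : (6 * a ^ 4 / (s : ℝ) ^ 4) * ((t : ℝ) ^ 4 / (16 * a ^ 4 * (t : ℝ) ^ 2))
              = 3 / 8 * ((t : ℝ) ^ 2 / (s : ℝ) ^ 4) := by
            field_simp
            norm_num
          rw [e1]
          apply mul_le_mul_of_nonneg_left _ (by norm_num)
          rw [div_le_div_iff₀ (by positivity) (by positivity)]
          have : (t : ℝ) ^ 2 ≤ (s : ℝ) ^ 2 := pow_le_pow_left₀ ht0.le hts 2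
          nlinarith [sq_nonneg (s : ℝ)]
      _ = 3 / 8 * ∑ s ∈ Finset.Ioc t T, (1 / (s : ℝ) ^ 2) := by rw [Finset.mul_sum]
      _ ≤ 3 / 8 * (1 / (t : ℝ) - 1 / (T : ℝ)) :=
          mul_le_mul_of_nonneg_left (sum_inv_sq_le ht htT) (by norm_num)
      _ ≤ 3 / 8 * (1 / (t : ℝ)) := by
          apply mul_le_mul_of_nonneg_left _ (by norm_num)
          have : (0 : ℝ) ≤ 1 / T := by positivity
          linarith
  have h3 : (0 : ℝ) ≤ 1 / (t : ℝ) := by positivity
  linarith

theorem cvB_tendsto {a : ℕ → ℝ} {T t t' : ℕ → ℕ} {τ : ℝ} (ha : ∀ n, 0 < a n)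
    (hTa : ∀ n, (T n : ℝ) ≤ a n) (htt : ∀ n, t n ≤ t' n)
    (ht : Tendsto (fun n => (t n : ℝ)) atTop atTop)
    (hd : Tendsto (fun n => (t' n : ℝ) / t n) atTop (𝓝 (Real.exp τ)))
    (hT : Tendsto (fun n => (T n : ℝ) / t' n) atTop atTop) :
    Tendsto (fun n => cvB (a n) (T n) (t n) (t' n)) atTop
      (𝓝 ((1 + τ / 2) * Real.exp (-(τ / 2)))) := by
  have ht' : Tendsto (fun n => (t' n : ℝ)) atTop atTop :=
    tendsto_atTop_mono (fun n => by exact_mod_cast htt n) ht
  -- the square root term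
  have hsq : Tendsto (fun n => √((t n : ℝ) / t' n) / 2) atTop (𝓝 (Real.exp (-(τ / 2)) / 2)) := by
    have h1 : Tendsto (fun n => ((t' n : ℝ) / t n)⁻¹) atTop (𝓝 (Real.exp τ)⁻¹) :=
      hd.inv₀ (Real.exp_pos _).ne'
    have h2 := (Real.continuous_sqrt.tendsto _).comp h1
    have h3 : √((Real.exp τ)⁻¹) = Real.exp (-(τ / 2)) := by
      rw [← Real.exp_neg, Real.sqrt_eq_iff_mul_self_eq (Real.exp_pos _).le (Real.exp_pos _).le,
        ← Real.exp_add]
      congr 1
      ring
    rw [h3] at h2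
    refine (h2.congr fun n => ?_).div_const 2
    simp only [Function.comp, inv_div]
  have hlog : Tendsto (fun n => Real.log ((t' n : ℝ) / t n)) atTop (𝓝 τ) := by
    have h1 := (Real.continuousAt_log (Real.exp_pos τ).ne').tendsto.comp hd
    rwa [Real.log_exp] at h1
  have hU : Tendsto (fun n => (2 + Real.log ((t' n : ℝ) / t n)) * (√((t n : ℝ) / t' n) / 2)) atTop
      (𝓝 ((1 + τ / 2) * Real.exp (-(τ / 2)))) := by
    have := (hlog.const_add 2).mul hsq
    convert this using 2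
    ring
  -- intermediate cutoff
  set T' : ℕ → ℕ := fun n => ⌊√((t' n : ℝ) * T n)⌋₊ with hT'
  have hinvT : Tendsto (fun n => (t' n : ℝ) / T n) atTop (𝓝 0) := by
    have := tendsto_inv_atTop_zero.comp hT
    refine this.congr fun n => ?_
    simp [Function.comp]
  have hT'up : Tendsto (fun n => (T' n : ℝ) / a n) atTop (𝓝 0) := by
    have h1 : Tendsto (fun n => √((t' n : ℝ) / T n)) atTop (𝓝 0) := by
      have := (Real.continuous_sqrt.tendsto _).comp hinvT
      rw [Real.sqrt_zero] at this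
      exact this
    apply squeeze_zero' (g := fun n => √((t' n : ℝ) / T n))
    · filter_upwards with n
      have := ha n
      positivity
    · filter_upwards [hT.eventually_gt_atTop 0] with n hn
      have hTn : (0 : ℝ) < T n := by
        by_contra hcon
        have : (T n : ℝ) = 0 := le_antisymm (not_lt.1 hcon) (Nat.cast_nonneg _)
        rw [this] at hn
        simp at hn
      calc (T' n : ℝ) / a n ≤ √((t' n : ℝ) * T n) / a n := by
            apply div_le_div_of_nonneg_right _ (ha n).le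
            exact Nat.floor_le (Real.sqrt_nonneg _)
        _ ≤ √((t' n : ℝ) * T n) / T n :=
            div_le_div_of_nonneg_left (Real.sqrt_nonneg _) hTn (hTa n)
        _ = √((t' n : ℝ) / T n) := by
            have e1 : (t' n : ℝ) * T n = (t' n : ℝ) / T n * (T n) ^ 2 := by field_simp
            rw [e1, Real.sqrt_mul (by positivity), Real.sqrt_sq hTn.le]
            field_simp
    · exact h1
  have hratio : Tendsto (fun n => √((T n : ℝ) / t' n)) atTop atTop :=
    Real.tendsto_sqrt_atTop.comp hT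
  have hT'low : Tendsto (fun n => (T' n : ℝ) / t' n) atTop atTop := by
    have h1 : Tendsto (fun n => √((T n : ℝ) / t' n) - 1) atTop atTop :=
      tendsto_atTop_add_const_right _ _ hratio
    apply tendsto_atTop_mono' _ _ h1
    filter_upwards [ht'.eventually_ge_atTop 1] with n hn
    have hn0 : (0 : ℝ) < t' n := by linarith
    have h2 := Nat.lt_floor_add_one (√((t' n : ℝ) * T n))
    rw [le_div_iff₀ hn0]
    have e1 : (t' n : ℝ) * T n = (T n : ℝ) / t' n * (t' n) ^ 2 := by field_simp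
    have e2 : √((t' n : ℝ) * T n) = √((T n : ℝ) / t' n) * t' n := by
      rw [e1, Real.sqrt_mul (by positivity), Real.sqrt_sq hn0.le]
    rw [e2] at h2
    have h3 : (T' n : ℝ) = ((⌊√((t' n : ℝ) * T n)⌋₊ : ℕ) : ℝ) := rfl
    rw [h3, e2]
    nlinarith
  have hinv : ∀ f : ℕ → ℝ, Tendsto f atTop atTop → Tendsto (fun n => 1 / f n) atTop (𝓝 0) :=
    fun f hf => one_div_tendsto hf
  have hL : Tendsto (fun n => Real.exp (-(T' n / a n)) * ((1 + Real.log (((t' n : ℝ) + 1) / (t n + 1))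
      + t' n * (1 / ((t' n : ℝ) + 1) - 1 / ((T' n : ℝ) + 1))) * (√(t n / t' n) / 2))) atTop
      (𝓝 ((1 + τ / 2) * Real.exp (-(τ / 2)))) := by
    have e1 : Tendsto (fun n => Real.exp (-(T' n / a n))) atTop (𝓝 1) := by
      have := (Real.continuous_exp.tendsto _).comp hT'up.neg
      rw [neg_zero, Real.exp_zero] at this
      exact this
    have e2 : Tendsto (fun n => Real.log (((t' n : ℝ) + 1) / (t n + 1))) atTop (𝓝 τ) := by
      have h1 : Tendsto (fun n => ((t' n : ℝ) + 1) / (t n + 1)) atTop (𝓝 (Real.exp τ)) := by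
        have h2 : Tendsto (fun n => ((t' n : ℝ) / t n + 1 / t n) / (1 + 1 / t n)) atTop
            (𝓝 (Real.exp τ)) := by
          have := (hd.add (hinv _ ht)).div ((hinv _ ht).const_add 1) (by norm_num)
          rw [add_zero, add_zero, div_one] at this
          exact this
        refine h2.congr' ?_
        filter_upwards [ht.eventually_ge_atTop 1] with n hn
        have hn0 : (0 : ℝ) < t n := by linarith
        field_simp
      have h3 := (Real.continuousAt_log (Real.exp_pos τ).ne').tendsto.comp h1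
      rwa [Real.log_exp] at h3
    have e3 : Tendsto (fun n => (t' n : ℝ) * (1 / ((t' n : ℝ) + 1) - 1 / ((T' n : ℝ) + 1))) atTop
        (𝓝 1) := by
      have h1 : Tendsto (fun n => 1 / (1 + 1 / (t' n : ℝ)) - 1 / ((T' n : ℝ) / t' n + 1 / t' n)) atTop
          (𝓝 1) := by
        have h2 : Tendsto (fun n => 1 / (1 + 1 / (t' n : ℝ))) atTop (𝓝 1) := by
          have := ((hinv _ ht').const_add 1).inv₀ (by norm_num)
          simpa using this
        have h3 := hinv _ (hT'low.atTop_add (hinv _ ht'))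
        simpa using h2.sub h3
      refine h1.congr' ?_
      filter_upwards [ht'.eventually_ge_atTop 1] with n hn
      have hn0 : (0 : ℝ) < t' n := by linarith
      have hT0 : (0 : ℝ) ≤ T' n := Nat.cast_nonneg _
      have hne : ((T' n : ℝ) + 1) ≠ 0 := by positivity
      field_simp
    have := e1.mul (((e2.const_add 1).add e3).mul hsq)
    convert this using 2
    ring
  apply tendsto_of_tendsto_of_tendsto_of_le_of_le' hL hU
  · filter_upwards [ht.eventually_ge_atTop 1, hT'low.eventually_ge_atTop 1, ht'.eventually_ge_atTop 1,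
      hT.eventually_ge_atTop 1] with n h1 h2 h3 h4
    have h3' : (0 : ℝ) < t' n := by linarith
    have h5 : t' n ≤ T' n := by
      rw [le_div_iff₀ h3', one_mul] at h2
      exact_mod_cast h2
    have h6 : T' n ≤ T n := by
      rw [le_div_iff₀ h3', one_mul] at h4
      have : √((t' n : ℝ) * T n) ≤ T n := by
        apply Real.sqrt_le_left (Nat.cast_nonneg _) |>.2
        nlinarith
      have h7 : ((T' n : ℕ) : ℝ) ≤ T n := (Nat.floor_le (Real.sqrt_nonneg _)).trans this
      exact_mod_cast h7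
    exact cvB_lower (ha n) (by exact_mod_cast h1) (htt n) h5 h6
  · filter_upwards [ht.eventually_ge_atTop 1, ht'.eventually_ge_atTop 1,
      hT.eventually_ge_atTop 1] with n h1 h3 h4
    have h3' : (0 : ℝ) < t' n := by linarith
    rw [le_div_iff₀ h3', one_mul] at h4
    exact cvB_upper (ha n) (by exact_mod_cast h1) (htt n) (by exact_mod_cast h4)

/-- the times of the mesh for the small parts. -/
noncomputable def tB (u : ℝ) (m i : ℕ) : ℕ := ⌊Real.exp (u + i / m)⌋₊

theorem tB_bounds (u : ℝ) (m i : ℕ) :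
    Real.exp (u + i / m) - 1 < tB u m i ∧ (tB u m i : ℝ) ≤ Real.exp (u + i / m) :=
  ⟨by have := Nat.lt_floor_add_one (Real.exp (u + i / m)); unfold tB; linarith,
    Nat.floor_le (Real.exp_pos _).le⟩

theorem tB_mono (u : ℝ) (m : ℕ) {i j : ℕ} (hij : i ≤ j) : tB u m i ≤ tB u m j := by
  unfold tB
  apply Nat.floor_le_floor
  apply Real.exp_le_exp.2
  have : (i : ℝ) ≤ j := by exact_mod_cast hij
  have : (i : ℝ) / m ≤ j / m := div_le_div_of_nonneg_right this (Nat.cast_nonneg m)
  linarith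

section
variable {a u : ℕ → ℝ} {T : ℕ → ℕ} (hu : Tendsto u atTop atTop)
include hu

theorem tB_div (m i : ℕ) : Tendsto (fun n => (tB (u n) m i : ℝ) / Real.exp (u n)) atTop
    (𝓝 (Real.exp ((i : ℝ) / m))) := by
  have he : Tendsto (fun n => Real.exp (u n)) atTop atTop := Real.tendsto_exp_atTop.comp hu
  have hinv : Tendsto (fun n => 1 / Real.exp (u n)) atTop (𝓝 0) := one_div_tendsto he
  have hL : Tendsto (fun n => Real.exp ((i : ℝ) / m) - 1 / Real.exp (u n)) atTop
      (𝓝 (Real.exp ((i : ℝ) / m))) := by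
    simpa using (tendsto_const_nhds (x := Real.exp ((i : ℝ) / m))).sub hinv
  apply tendsto_of_tendsto_of_tendsto_of_le_of_le hL tendsto_const_nhds
  · intro n
    have h := (tB_bounds (u n) m i).1
    dsimp only
    rw [le_div_iff₀ (Real.exp_pos _), sub_mul, ← Real.exp_add, add_comm]
    rw [one_div, inv_mul_cancel₀ (Real.exp_pos _).ne']
    exact h.le
  · intro n
    have h := (tB_bounds (u n) m i).2
    dsimp only
    rw [div_le_iff₀ (Real.exp_pos _), ← Real.exp_add, add_comm]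
    exact h

theorem cltB {m l : ℕ} (hTa : ∀ᶠ n in atTop, (T n : ℝ) ≤ a n)
    (hT : Tendsto (fun n => (T n : ℝ) * Real.exp (-(u n))) atTop atTop) :
    Tendsto (fun n => Zlaw (mu (a n)) (Finset.Icc 1 (T n))
      (fun (i : Fin (l * m + 1)) s => ((min s (tB (u n) m i) : ℕ) : ℝ) / bB (a n) (tB (u n) m i)))
      atTop (𝓝 (Glaw (covGrid m l))) := by
  have he : Tendsto (fun n => Real.exp (u n)) atTop atTop := Real.tendsto_exp_atTop.comp hu
  have hTbig : Tendsto (fun n => (T n : ℝ)) atTop atTop := by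
    apply tendsto_atTop_mono' _ _ hT
    filter_upwards [hu.eventually_ge_atTop 0] with n hn
    have : Real.exp (-(u n)) ≤ 1 := Real.exp_le_one_iff.2 (by linarith)
    have h0 : (0 : ℝ) ≤ T n := Nat.cast_nonneg _
    nlinarith
  -- replace a by a good sequence
  have key : ∀ a' : ℕ → ℝ, (∀ n, 0 < a' n) → (∀ n, (T n : ℝ) ≤ a' n) → (∀ᶠ n in atTop, a' n = a n) →
      Tendsto (fun n => Zlaw (mu (a' n)) (Finset.Icc 1 (T n))
      (fun (i : Fin (l * m + 1)) s => ((min s (tB (u n) m i) : ℕ) : ℝ) / bB (a' n) (tB (u n) m i)))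
      atTop (𝓝 (Glaw (covGrid m l))) := by
    intro a' ha'0 hTa' ha'
    have hd := tB_div hu m
    have ht : ∀ i, Tendsto (fun n => (tB (u n) m i : ℝ)) atTop atTop := by
      intro i
      have := he.atTop_mul_pos (Real.exp_pos _) (hd i)
      refine this.congr fun n => ?_
      have := (Real.exp_pos (u n)).ne'
      field_simp
    have hTt : ∀ i, Tendsto (fun n => (T n : ℝ) / (tB (u n) m i : ℝ)) atTop atTop := by
      intro i
      have h1 := hT.atTop_mul_pos (inv_pos.2 (Real.exp_pos _)) ((hd i).inv₀ (Real.exp_pos _).ne')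
      refine h1.congr fun n => ?_
      rw [Real.exp_neg]
      have := (Real.exp_pos (u n)).ne'
      field_simp
    have hcov : ∀ i j : ℕ, i ≤ j → Tendsto (fun n => cvB (a' n) (T n) (tB (u n) m i)
        (tB (u n) m j)) atTop (𝓝 (rho (((i : ℝ) - j) / m))) := by
      intro i j hij
      have hij' : (i : ℝ) ≤ j := by exact_mod_cast hij
      have h1 := cvB_tendsto (τ := ((j : ℝ) / m - i / m)) ha'0 hTa'
        (fun n => tB_mono (u n) m hij) (ht i) ?_ (hTt j)
      · convert h1 using 2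
        unfold rho
        have : |((i : ℝ) - j) / m| = (j : ℝ) / m - i / m := by
          rw [abs_div, abs_of_nonpos (by linarith), abs_of_nonneg (Nat.cast_nonneg m)]
          ring
        rw [this]
      · have h2 := (hd j).div (hd i) (Real.exp_pos _).ne'
        rw [← Real.exp_sub] at h2
        refine h2.congr fun n => ?_
        have := (Real.exp_pos (u n)).ne'
        simp only [Pi.div_apply]
        field_simp
    refine (clt (fun n => mu (a' n)) (fun n s => mu_nonneg (ha'0 n) s) (fun n => Finset.Icc 1 (T n))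
      _ (covGrid m l) ?_ ?_).2
    · intro i j
      show Tendsto (fun n => cvB (a' n) (T n) (tB (u n) m i) (tB (u n) m j)) atTop _
      simp only [covGrid, Matrix.of_apply]
      rcases le_total (i : ℕ) (j : ℕ) with h | h
      · exact hcov i j h
      · have h1 := hcov j i h
        simp_rw [cvB_comm _ _ (tB _ m j) (tB _ m i)] at h1
        convert h1 using 2
        unfold rho
        have : |((i : ℝ) - j) / m| = |((j : ℝ) - i) / m| := by
          rw [abs_div, abs_div, abs_sub_comm]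
        rw [this]
    · intro i
      apply squeeze_zero' (g := fun n => 1 / (tB (u n) m i : ℝ))
      · filter_upwards with n
        apply Finset.sum_nonneg
        intro s _
        have := vv_nonneg (mu_nonneg (ha'0 n)) s
        have h4 : (((min s (tB (u n) m i) : ℕ) : ℝ) / bB (a' n) (tB (u n) m i)) ^ 4
          = ((((min s (tB (u n) m i) : ℕ) : ℝ) / bB (a' n) (tB (u n) m i)) ^ 2) ^ 2 := by
            ring
        rw [h4]
        positivity
      · filter_upwards [(ht i).eventually_ge_atTop 1, (hTt i).eventually_ge_atTop 1,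
          hTbig.eventually_ge_atTop 1] with n h1 h2 h3
        have h1' : (0 : ℝ) < tB (u n) m i := by linarith
        rw [le_div_iff₀ h1', one_mul] at h2
        exact qrB_le (h3.trans (hTa' n)) (by exact_mod_cast h1) (by exact_mod_cast h2) (hTa' n)
      · exact one_div_tendsto (ht i)
  have h := key (fun n => if (T n : ℝ) ≤ a n ∧ 0 < a n then a n else (T n : ℝ) + 1)
    (fun n => by split_ifs with h; exact h.2; positivity)
    (fun n => by split_ifs with h; exact h.1; linarith)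
    (by
      filter_upwards [hTa, hTbig.eventually_gt_atTop 0] with n h1 h2
      rw [if_pos ⟨h1, h2.trans_le h1⟩])
  refine h.congr' ?_
  filter_upwards [hTa, hTbig.eventually_gt_atTop 0] with n h1 h2
  rw [if_pos ⟨h1, h2.trans_le h1⟩]

end

end Pool.Agent.Helper95.Dom
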