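import Pool.Agent.Helper95.DomSys

/-!
A decoupling lemma.
-/

namespace Pool.Agent.Helper95.Dom

open MeasureTheory ProbabilityTheory Filter
open scoped Topology ENNReal

theorem lint_prod (μ μ' : ℕ → ℝ) (T : Finset ℕ) (own : ℕ → Finset ℕ)
    (hd : ∀ i ∈ T, ∀ j ∈ T, i ≠ j → Disjoint (own i) (own j))
    (g : ℕ → Om → ℝ≥0∞) (hg : ∀ i ∈ T, ∀ ω ω' : Om, (∀ s ∈ own i, ω s = ω' s) → g i ω = g i ω') :
    ∫⁻ ω, ∏ i ∈ T, g i ω ∂PP μ μ' = ∏ i ∈ T, ∫⁻ ω, g i ω ∂PP μ μ' := by
  classical
  induction T using Finset.induction_on with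
  | empty => simp
  | insert b T hb ih =>
    have ih' := ih (fun i hi j hj => hd i (Finset.mem_insert_of_mem hi) j (Finset.mem_insert_of_mem hj))
      (fun i hi => hg i (Finset.mem_insert_of_mem hi))
    rw [Finset.prod_insert hb, ← ih']
    simp_rw [Finset.prod_insert hb]
    have hgb := hg b (Finset.mem_insert_self b T)
    have hgT : ∀ ω ω' : Om, (∀ s ∈ T.biUnion own, ω s = ω' s) → (∏ i ∈ T, g i ω) = ∏ i ∈ T, g i ω' := by
      intro ω ω' h
      apply Finset.prod_congr rfl
      intro i hi
      apply hg i (Finset.mem_insert_of_mem hi)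
      intro s hs
      exact h s (Finset.mem_biUnion.2 ⟨i, hi, hs⟩)
    have hdis : Disjoint (own b) (T.biUnion own) := by
      rw [Finset.disjoint_biUnion_right]
      intro i hi
      apply hd b (Finset.mem_insert_self b T) i (Finset.mem_insert_of_mem hi)
      rintro rfl
      exact hb hi
    have hind := indep_of_dep μ μ' (own b) (T.biUnion own) hdis (f := g b)
      (g := fun ω => ∏ i ∈ T, g i ω) hgb hgT
    exact lintegral_mul_eq_lintegral_mul_lintegral_of_indepFun (meas_of_dep _ hgb)
      (meas_of_dep _ hgT) hind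

theorem decouple (μ μ' : ℕ → ℝ) (B : ℕ) (own : ℕ → Finset ℕ)
    (hd : ∀ i < B, ∀ j < B, i ≠ j → Disjoint (own i) (own j))
    (E F : ℕ → Set Om) (ζ : ℕ → Om → ℝ) (w : ℕ → ℕ → ℝ) {ε κ α wb p : ℝ}
    (hF : ∀ j < B, ∀ ω ω' : Om, (∀ s ∈ own j, ω s = ω' s) → (ω ∈ F j ↔ ω' ∈ F j))
    (hζ : ∀ j < B, ∀ ω ω' : Om, (∀ s ∈ own j, ω s = ω' s) → ζ j ω = ζ j ω')
    (hζ0 : ∀ j < B, ∀ ω, 0 ≤ ζ j ω)
    (hw0 : ∀ i < B, ∀ j < B, 0 ≤ w i j) (hw : ∀ i < B, ∑ j ∈ Finset.range B, w i j ≤ wb)
    (hE : ∀ j < B, E j ⊆ F j ∪ {ω | ε ≤ ∑ i ∈ Finset.range B, w i j * ζ i ω})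
    (hp : ∀ j < B, (PP μ μ').real (F j) ≤ p)
    (hexp : ∀ i < B, ∫⁻ ω, ENNReal.ofReal (Real.exp (2 * α * ζ i ω)) ∂PP μ μ' ≤ 3)
    (hκ : 0 < κ) (hwb : 0 < wb) (hα : 0 < α) (h1 : κ * wb ≤ α) (h2 : Real.exp (-(κ * ε)) ≤ p)
    (h3 : Real.exp (-(α / (κ * wb))) ≤ p) :
    (PP μ μ').real (⋂ j ∈ Finset.range B, E j) ≤ (12 * p) ^ B := by
  classical
  have hp0 : 0 < p := (Real.exp_pos _).trans_le h2
  set P := PP μ μ' with hP
  -- the sum of weights
  let W : Finset ℕ → ℕ → ℝ := fun J i => ∑ j ∈ J, w i j
  have hW0 : ∀ J ⊆ Finset.range B, ∀ i < B, 0 ≤ W J i := by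
    intro J hJ i hi
    apply Finset.sum_nonneg
    intro j hj
    exact hw0 i hi j (Finset.mem_range.1 (hJ hj))
  have hW1 : ∀ J ⊆ Finset.range B, ∀ i < B, W J i ≤ wb := by
    intro J hJ i hi
    refine le_trans ?_ (hw i hi)
    apply Finset.sum_le_sum_of_subset_of_nonneg hJ
    intro j hj _
    exact hw0 i hi j (Finset.mem_range.1 hj)
  -- integrands
  let f : Finset ℕ → ℕ → Om → ℝ := fun J i ω =>
    if i ∈ J then p * Real.exp (κ * (W J i * ζ i ω))
    else (F i).indicator (fun ω => Real.exp (κ * (W J i * ζ i ω))) ω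
  let A : Finset ℕ → Set Om := fun J => {ω | (∀ j < B, j ∉ J → ω ∈ F j) ∧
    ∀ j ∈ J, ε ≤ ∑ i ∈ Finset.range B, w i j * ζ i ω}
  have hcover : (⋂ j ∈ Finset.range B, E j) ⊆ ⋃ J ∈ (Finset.range B).powerset, A J := by
    intro ω hω
    simp only [Set.mem_iInter] at hω
    rw [Set.mem_iUnion₂]
    refine ⟨(Finset.range B).filter (fun j => ω ∉ F j), Finset.mem_powerset.2 (Finset.filter_subset _ _),
      ?_, ?_⟩
    · intro j hj hj2
      by_contra hcon
      exact hj2 (Finset.mem_filter.2 ⟨Finset.mem_range.2 hj, hcon⟩)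
    · intro j hj
      rw [Finset.mem_filter] at hj
      rcases hE j (Finset.mem_range.1 hj.1) (hω j hj.1) with h | h
      · exact absurd h hj.2
      · exact h
  have hf0 : ∀ J ω i, 0 ≤ f J i ω := by
    intro J ω i
    simp only [f]
    split_ifs
    · positivity
    · exact Set.indicator_nonneg (fun _ _ => (Real.exp_pos _).le) _
  have hA1 : ∀ J ⊆ Finset.range B, ∀ ω ∈ A J, 1 ≤ ∏ i ∈ Finset.range B, f J i ω := by
    intro J hJ ω hω
    have e1 : ∀ i ∈ Finset.range B, f J i ω
        = (if i ∈ J then p else 1) * Real.exp (κ * (W J i * ζ i ω)) := by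
      intro i hi
      simp only [f]
      split_ifs with h
      · rfl
      · rw [Set.indicator_of_mem (hω.1 i (Finset.mem_range.1 hi) h), one_mul]
    rw [Finset.prod_congr rfl e1, Finset.prod_mul_distrib, ← Real.exp_sum, Finset.prod_ite,
      Finset.prod_const_one, mul_one, Finset.prod_const]
    have e2 : (Finset.range B).filter (fun i => i ∈ J) = J := by
      ext i
      simp only [Finset.mem_filter]
      exact ⟨fun h => h.2, fun h => ⟨hJ h, h⟩⟩
    rw [e2]
    have e3 : ∑ i ∈ Finset.range B, κ * (W J i * ζ i ω)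
        = κ * ∑ j ∈ J, ∑ i ∈ Finset.range B, w i j * ζ i ω := by
      rw [← Finset.mul_sum, Finset.sum_comm]
      congr 1
      apply Finset.sum_congr rfl
      intro i _
      simp only [W]
      rw [Finset.sum_mul]
    rw [e3]
    have e4 : (J.card : ℝ) * ε ≤ ∑ j ∈ J, ∑ i ∈ Finset.range B, w i j * ζ i ω := by
      have := Finset.sum_le_sum hω.2
      rw [Finset.sum_const, nsmul_eq_mul] at this
      exact this
    have e5 : Real.exp (κ * ((J.card : ℝ) * ε)) ≤ Real.exp (κ * ∑ j ∈ J, ∑ i ∈ Finset.range B,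
        w i j * ζ i ω) := Real.exp_le_exp.2 (mul_le_mul_of_nonneg_left e4 hκ.le)
    calc (1 : ℝ) = (Real.exp (-(κ * ε))) ^ J.card * Real.exp (κ * ((J.card : ℝ) * ε)) := by
          rw [← Real.exp_nat_mul, ← Real.exp_add]
          symm
          rw [Real.exp_eq_one_iff]
          ring
      _ ≤ p ^ J.card * Real.exp (κ * ∑ j ∈ J, ∑ i ∈ Finset.range B, w i j * ζ i ω) := by
          apply mul_le_mul _ e5 (Real.exp_pos _).le (by positivity)
          exact pow_le_pow_left₀ (Real.exp_pos _).le h2 _
  -- expectation of a factor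
  have hfac : ∀ J ⊆ Finset.range B, ∀ i < B, ∫⁻ ω, ENNReal.ofReal (f J i ω) ∂P
      ≤ ENNReal.ofReal (6 * p) := by
    intro J hJ i hi
    have hWi0 := hW0 J hJ i hi
    have hWi1 := hW1 J hJ i hi
    have hκW : κ * W J i ≤ α := (mul_le_mul_of_nonneg_left hWi1 hκ.le).trans h1
    by_cases hiJ : i ∈ J
    · calc ∫⁻ ω, ENNReal.ofReal (f J i ω) ∂P
          ≤ ∫⁻ ω, ENNReal.ofReal p * ENNReal.ofReal (Real.exp (2 * α * ζ i ω)) ∂P := by
            apply lintegral_mono
            intro ω
            simp only [f, if_pos hiJ]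
            rw [← ENNReal.ofReal_mul hp0.le]
            apply ENNReal.ofReal_le_ofReal
            apply mul_le_mul_of_nonneg_left _ hp0.le
            apply Real.exp_le_exp.2
            have := hζ0 i hi ω
            nlinarith
        _ = ENNReal.ofReal p * ∫⁻ ω, ENNReal.ofReal (Real.exp (2 * α * ζ i ω)) ∂P := by
            rw [lintegral_const_mul']
            exact ENNReal.ofReal_ne_top
        _ ≤ ENNReal.ofReal p * 3 := by gcongr; exact hexp i hi
        _ ≤ ENNReal.ofReal (6 * p) := by
            have : (3 : ℝ≥0∞) = ENNReal.ofReal 3 := by norm_num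
            rw [this, ← ENNReal.ofReal_mul hp0.le]
            apply ENNReal.ofReal_le_ofReal
            linarith
    · have hm : MeasurableSet (F i) := measSet_of_dep _ (hF i hi)
      calc ∫⁻ ω, ENNReal.ofReal (f J i ω) ∂P
          ≤ ∫⁻ ω, ((F i).indicator (fun _ => ENNReal.ofReal 3) ω
              + ENNReal.ofReal p * ENNReal.ofReal (Real.exp (2 * α * ζ i ω))) ∂P := by
            apply lintegral_mono
            intro ω
            simp only [f, if_neg hiJ]
            by_cases hω : ω ∈ F i
            · rw [Set.indicator_of_mem hω, Set.indicator_of_mem hω, ← ENNReal.ofReal_mul hp0.le,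
                ← ENNReal.ofReal_add (by norm_num) (by positivity)]
              apply ENNReal.ofReal_le_ofReal
              have hz := hζ0 i hi ω
              rcases le_or_gt (κ * wb * ζ i ω) 1 with h | h
              · have h4 : Real.exp (κ * (W J i * ζ i ω)) ≤ Real.exp 1 := by
                  apply Real.exp_le_exp.2
                  refine le_trans ?_ h
                  have := mul_le_mul_of_nonneg_right hWi1 hz
                  nlinarith
                have h5 := Real.exp_one_lt_d9
                have h6 : 0 ≤ p * Real.exp (2 * α * ζ i ω) := by positivity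
                linarith
              · have h4 : Real.exp (κ * (W J i * ζ i ω)) ≤ p * Real.exp (2 * α * ζ i ω) := by
                  have h5 : κ * (W J i * ζ i ω) ≤ α * ζ i ω := by
                    have := mul_le_mul_of_nonneg_right hκW hz
                    nlinarith
                  have h6 : α / (κ * wb) ≤ α * ζ i ω := by
                    rw [div_le_iff₀ (by positivity)]
                    nlinarith
                  calc Real.exp (κ * (W J i * ζ i ω)) ≤ Real.exp (-(α / (κ * wb)) + 2 * α * ζ i ω) :=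
                        Real.exp_le_exp.2 (by linarith)
                    _ = Real.exp (-(α / (κ * wb))) * Real.exp (2 * α * ζ i ω) := Real.exp_add _ _
                    _ ≤ _ := mul_le_mul_of_nonneg_right h3 (Real.exp_pos _).le
                linarith
            · rw [Set.indicator_of_notMem hω]
              simp
        _ = ENNReal.ofReal 3 * P (F i)
              + ENNReal.ofReal p * ∫⁻ ω, ENNReal.ofReal (Real.exp (2 * α * ζ i ω)) ∂P := by
            rw [lintegral_add_left (measurable_const.indicator hm), lintegral_indicator_const hm,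
              lintegral_const_mul']
            exact ENNReal.ofReal_ne_top
        _ ≤ ENNReal.ofReal 3 * ENNReal.ofReal p + ENNReal.ofReal p * 3 := by
            gcongr
            · rw [← ofReal_measureReal]
              exact ENNReal.ofReal_le_ofReal (hp i hi)
            · exact hexp i hi
        _ = ENNReal.ofReal (6 * p) := by
            have : (3 : ℝ≥0∞) = ENNReal.ofReal 3 := by norm_num
            rw [this, ← ENNReal.ofReal_mul hp0.le, ← ENNReal.ofReal_mul (by norm_num),
              ← ENNReal.ofReal_add (by positivity) (by positivity)]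
            congr 1
            ring
  have hfdep : ∀ J, ∀ i ∈ Finset.range B, ∀ ω ω' : Om, (∀ s ∈ own i, ω s = ω' s) →
      ENNReal.ofReal (f J i ω) = ENNReal.ofReal (f J i ω') := by
    intro J i hi ω ω' h
    have hi' := Finset.mem_range.1 hi
    simp only [f]
    rw [hζ i hi' ω ω' h]
    congr 2
    by_cases hω : ω ∈ F i
    · rw [Set.indicator_of_mem hω, Set.indicator_of_mem ((hF i hi' ω ω' h).1 hω), hζ i hi' ω ω' h]
    · rw [Set.indicator_of_notMem hω, Set.indicator_of_notMem (fun h' => hω ((hF i hi' ω ω' h).2 h'))]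
  have hAJ : ∀ J ⊆ Finset.range B, P (A J) ≤ ENNReal.ofReal (6 * p) ^ B := by
    intro J hJ
    have hAm : MeasurableSet (A J) := by
      apply measSet_of_dep ((Finset.range B).biUnion own)
      have key : ∀ ω ω' : Om, (∀ s ∈ (Finset.range B).biUnion own, ω s = ω' s) → ω ∈ A J → ω' ∈ A J := by
        intro ω ω' h hω
        have h' : ∀ i < B, ∀ s ∈ own i, ω s = ω' s := fun i hi s hs =>
          h s (Finset.mem_biUnion.2 ⟨i, Finset.mem_range.2 hi, hs⟩)
        refine ⟨fun j hj hj2 => (hF j hj ω ω' (h' j hj)).1 (hω.1 j hj hj2), fun j hj => ?_⟩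
        have h4 := hω.2 j hj
        refine h4.trans (le_of_eq ?_)
        apply Finset.sum_congr rfl
        intro i hi
        rw [hζ i (Finset.mem_range.1 hi) ω ω' (h' i (Finset.mem_range.1 hi))]
      intro ω ω' h
      exact ⟨key ω ω' h, key ω' ω fun s hs => (h s hs).symm⟩
    calc P (A J) = ∫⁻ ω, (A J).indicator 1 ω ∂P := (lintegral_indicator_one hAm).symm
      _ ≤ ∫⁻ ω, ∏ i ∈ Finset.range B, ENNReal.ofReal (f J i ω) ∂P := by
          apply lintegral_mono
          intro ω
          by_cases hω : ω ∈ A J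
          · simp only [Set.indicator_of_mem hω, Pi.one_apply]
            rw [← ENNReal.ofReal_prod_of_nonneg (fun i _ => hf0 J ω i), ← ENNReal.ofReal_one]
            exact ENNReal.ofReal_le_ofReal (hA1 J hJ ω hω)
          · simp only [Set.indicator_of_notMem hω]
            simp
      _ = ∏ i ∈ Finset.range B, ∫⁻ ω, ENNReal.ofReal (f J i ω) ∂P := by
          apply lint_prod μ μ' (Finset.range B) own
          · intro i hi j hj hij
            exact hd i (Finset.mem_range.1 hi) j (Finset.mem_range.1 hj) hij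
          · exact hfdep J
      _ ≤ ∏ i ∈ Finset.range B, ENNReal.ofReal (6 * p) := by
          apply Finset.prod_le_prod'
          intro i hi
          exact hfac J hJ i (Finset.mem_range.1 hi)
      _ = _ := by simp
  have hfin : P (⋂ j ∈ Finset.range B, E j) ≤ ENNReal.ofReal ((12 * p) ^ B) := by
    calc P (⋂ j ∈ Finset.range B, E j) ≤ P (⋃ J ∈ (Finset.range B).powerset, A J) :=
          measure_mono hcover
      _ ≤ ∑ J ∈ (Finset.range B).powerset, P (A J) := measure_biUnion_finset_le _ _
      _ ≤ ∑ J ∈ (Finset.range B).powerset, ENNReal.ofReal (6 * p) ^ B :=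
          Finset.sum_le_sum fun J hJ => hAJ J (Finset.mem_powerset.1 hJ)
      _ = ENNReal.ofReal ((12 * p) ^ B) := by
          rw [Finset.sum_const, Finset.card_powerset, Finset.card_range, nsmul_eq_mul,
            ENNReal.ofReal_pow (by positivity)]
          push_cast
          rw [← mul_pow]
          congr 1
          have : (2 : ℝ≥0∞) = ENNReal.ofReal 2 := by norm_num
          rw [this, ← ENNReal.ofReal_mul (by norm_num)]
          congr 1
          ring
  have := ENNReal.toReal_mono ENNReal.ofReal_ne_top hfin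
  rwa [ENNReal.toReal_ofReal (by positivity)] at this

end Pool.Agent.Helper95.Dom
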