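import Pool.Agent.Helper95.DomExp

/-!
A decoupling lemma, second form.
-/

namespace Pool.Agent.Helper95.Dom

open MeasureTheory ProbabilityTheory Filter
open scoped Topology ENNReal

theorem decouple2 (μ μ' : ℕ → ℝ) (B : ℕ) (own : ℕ → Finset ℕ)
    (hd : ∀ i < B, ∀ j < B, i ≠ j → Disjoint (own i) (own j))
    (E E' F : ℕ → Set Om) (ζ : ℕ → Om → ℝ) (w : ℕ → ℕ → ℝ) {ε κ wb p : ℝ}
    (hF : ∀ j < B, ∀ ω ω' : Om, (∀ s ∈ own j, ω s = ω' s) → (ω ∈ F j ↔ ω' ∈ F j))
    (hζ : ∀ j < B, ∀ ω ω' : Om, (∀ s ∈ own j, ω s = ω' s) → ζ j ω = ζ j ω')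
    (hζ0 : ∀ j < B, ∀ ω, 0 ≤ ζ j ω)
    (hw0 : ∀ i < B, ∀ j < B, 0 ≤ w i j) (hwd : ∀ j < B, w j j = 0)
    (hw : ∀ i < B, ∑ j ∈ Finset.range B, w i j ≤ wb)
    (hw' : ∀ j < B, ∑ i ∈ Finset.range B, w i j ≤ wb)
    (hE : ∀ j < B, E j ⊆ F j ∪ {ω | ε ≤ ∑ i ∈ Finset.range B, w i j * ζ i ω})
    (hE' : ∀ j < B, F j ∩ {ω | ∑ i ∈ Finset.range B, w i j * ζ i ω < ε} ⊆ E' j)
    (hp : ∀ j < B, (PP μ μ').real (E' j) ≤ p / 2)
    (hexp : ∀ i < B, ∫⁻ ω, ENNReal.ofReal (Real.exp (1 / 80 * ζ i ω)) ∂PP μ μ' ≤ 3)
    (hκ : 0 < κ) (hwb : 0 < wb) (hε : 0 < ε) (hmk : 480 * wb ≤ ε) (h1 : κ * wb ≤ 1 / 160)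
    (h2 : Real.exp (-(κ * ε)) ≤ p)
    (h3 : Real.exp (-(1 / 160 / (κ * wb))) ≤ p) :
    (PP μ μ').real (⋂ j ∈ Finset.range B, E j) ≤ (12 * p) ^ B := by
  classical
  have hp0 : 0 < p := (Real.exp_pos _).trans_le h2
  apply decouple μ μ' B own hd E F ζ w (κ := κ) (α := 1 / 160) (wb := wb) (ε := ε) hF hζ hζ0 hw0 hw hE
    _ _ hκ hwb (by norm_num) h1 h2 h3
  · -- the probability of `F j`
    intro j hj
    set G : Set Om := {ω | ∑ i ∈ Finset.range B, w i j * ζ i ω < ε} with hG
    have hdepG : ∀ ω ω' : Om, (∀ s ∈ ((Finset.range B).erase j).biUnion own, ω s = ω' s) →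
        ∑ i ∈ Finset.range B, w i j * ζ i ω = ∑ i ∈ Finset.range B, w i j * ζ i ω' := by
      intro ω ω' h
      apply Finset.sum_congr rfl
      intro i hi
      rcases eq_or_ne i j with rfl | hij
      · rw [hwd i hj]; simp
      · rw [hζ i (Finset.mem_range.1 hi) ω ω' fun s hs =>
          h s (Finset.mem_biUnion.2 ⟨i, Finset.mem_erase.2 ⟨hij, hi⟩, hs⟩)]
    have hdis : Disjoint (own j) (((Finset.range B).erase j).biUnion own) := by
      rw [Finset.disjoint_biUnion_right]
      intro i hi
      rw [Finset.mem_erase, Finset.mem_range] at hi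
      exact hd j hj i hi.2 (Ne.symm hi.1)
    have hind := indep_sets μ μ' (own j) _ hdis (A := F j) (B := G) (hF j hj) (by
      intro ω ω' h
      simp only [hG, Set.mem_ofPred_eq]
      rw [hdepG ω ω' h])
    have mG : MeasurableSet G := measSet_of_dep _ (by
      intro ω ω' h
      simp only [hG, Set.mem_ofPred_eq]
      rw [hdepG ω ω' h])
    have hPG : 1 / 2 ≤ (PP μ μ').real G := by
      have hc : (PP μ μ').real Gᶜ ≤ 1 / 2 := by
        have hGc : Gᶜ = {ω | ENNReal.ofReal ε
            ≤ ENNReal.ofReal (∑ i ∈ Finset.range B, w i j * ζ i ω)} := by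
          ext ω
          simp only [hG, Set.mem_compl_iff, Set.mem_ofPred_eq, not_lt]
          rw [ENNReal.ofReal_le_ofReal_iff]
          apply Finset.sum_nonneg
          intro i hi
          exact mul_nonneg (hw0 i (Finset.mem_range.1 hi) j hj) (hζ0 i (Finset.mem_range.1 hi) ω)
        have hmk1 := mul_meas_ge_le_lintegral₀ (μ := PP μ μ')
          (f := fun ω => ENNReal.ofReal (∑ i ∈ Finset.range B, w i j * ζ i ω))
          (by
            apply Measurable.aemeasurable
            apply meas_of_dep (((Finset.range B).erase j).biUnion own)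
            intro ω ω' h
            rw [hdepG ω ω' h]) (ENNReal.ofReal ε)
        have hint : ∫⁻ ω, ENNReal.ofReal (∑ i ∈ Finset.range B, w i j * ζ i ω) ∂PP μ μ'
            ≤ ENNReal.ofReal (ε / 2) := by
          calc ∫⁻ ω, ENNReal.ofReal (∑ i ∈ Finset.range B, w i j * ζ i ω) ∂PP μ μ'
              = ∫⁻ ω, ∑ i ∈ Finset.range B, ENNReal.ofReal (w i j * ζ i ω) ∂PP μ μ' := by
                apply lintegral_congr
                intro ω
                rw [ENNReal.ofReal_sum_of_nonneg]
                intro i hi
                exact mul_nonneg (hw0 i (Finset.mem_range.1 hi) j hj)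
                  (hζ0 i (Finset.mem_range.1 hi) ω)
            _ = ∑ i ∈ Finset.range B, ∫⁻ ω, ENNReal.ofReal (w i j * ζ i ω) ∂PP μ μ' := by
                rw [lintegral_finsetSum' _ fun i hi => ?_]
                apply Measurable.aemeasurable
                apply meas_of_dep (own i)
                intro ω ω' h
                rw [hζ i (Finset.mem_range.1 hi) ω ω' h]
            _ ≤ ∑ i ∈ Finset.range B, ENNReal.ofReal (240 * w i j) := by
                apply Finset.sum_le_sum
                intro i hi
                have hi' := Finset.mem_range.1 hi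
                calc ∫⁻ ω, ENNReal.ofReal (w i j * ζ i ω) ∂PP μ μ'
                    ≤ ∫⁻ ω, ENNReal.ofReal (80 * w i j) * ENNReal.ofReal (Real.exp (1 / 80 * ζ i ω))
                        ∂PP μ μ' := by
                      apply lintegral_mono
                      intro ω
                      have hw1 := hw0 i hi' j hj
                      dsimp only
                      rw [← ENNReal.ofReal_mul (by positivity)]
                      apply ENNReal.ofReal_le_ofReal
                      have h4 := Real.add_one_le_exp (1 / 80 * ζ i ω)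
                      calc w i j * ζ i ω = 80 * w i j * (1 / 80 * ζ i ω) := by ring
                        _ ≤ 80 * w i j * Real.exp (1 / 80 * ζ i ω) :=
                            mul_le_mul_of_nonneg_left (by linarith) (by positivity)
                  _ = ENNReal.ofReal (80 * w i j)
                      * ∫⁻ ω, ENNReal.ofReal (Real.exp (1 / 80 * ζ i ω)) ∂PP μ μ' := by
                      rw [lintegral_const_mul' _ _ ENNReal.ofReal_ne_top]
                  _ ≤ ENNReal.ofReal (80 * w i j) * 3 := by gcongr; exact hexp i hi'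
                  _ = ENNReal.ofReal (240 * w i j) := by
                      have hw1 := hw0 i hi' j hj
                      have : (3 : ℝ≥0∞) = ENNReal.ofReal 3 := by norm_num
                      rw [this, ← ENNReal.ofReal_mul (by positivity)]
                      congr 1
                      ring
            _ = ENNReal.ofReal (∑ i ∈ Finset.range B, 240 * w i j) := by
                rw [ENNReal.ofReal_sum_of_nonneg]
                intro i hi
                have := hw0 i (Finset.mem_range.1 hi) j hj
                positivity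
            _ ≤ _ := by
                apply ENNReal.ofReal_le_ofReal
                rw [← Finset.mul_sum]
                have := hw' j hj
                linarith
        rw [hGc]
        have h5 : ENNReal.ofReal ε * (PP μ μ') {ω | ENNReal.ofReal ε
            ≤ ENNReal.ofReal (∑ i ∈ Finset.range B, w i j * ζ i ω)} ≤ ENNReal.ofReal (ε / 2) :=
          hmk1.trans hint
        have h6 := ENNReal.toReal_mono ENNReal.ofReal_ne_top h5
        rw [ENNReal.toReal_mul, ENNReal.toReal_ofReal hε.le, ENNReal.toReal_ofReal (by linarith)] at h6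
        have h7 : ε * (PP μ μ').real {ω | ENNReal.ofReal ε
            ≤ ENNReal.ofReal (∑ i ∈ Finset.range B, w i j * ζ i ω)} ≤ ε / 2 := h6
        by_contra hcon
        push Not at hcon
        have := mul_lt_mul_of_pos_left hcon hε
        linarith
      rw [probReal_compl_eq_one_sub mG] at hc
      linarith
    have h4 : (PP μ μ').real (F j ∩ G) ≤ p / 2 :=
      (measureReal_mono (hE' j hj) (measure_ne_top _ _)).trans (hp j hj)
    rw [hind] at h4
    have h5 : (0 : ℝ) ≤ (PP μ μ').real (F j) := measureReal_nonneg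
    nlinarith
  · intro i hi
    have : (2 : ℝ) * (1 / 160) = 1 / 80 := by norm_num
    rw [this]
    exact hexp i hi

/-- telescoping over consecutive intervals. -/
theorem sum_blocks (e : ℕ → ℕ) (he : Monotone e) (f : ℕ → ℝ) {j B : ℕ} (h : j ≤ B) :
    ∑ s ∈ Finset.Ioc (e j) (e B), f s = ∑ i ∈ Finset.Ico j B, ∑ s ∈ Finset.Ioc (e i) (e (i + 1)), f s := by
  induction B, h using Nat.le_induction with
  | base => simp
  | succ n hn ih =>
    rw [← Finset.sum_Ioc_consecutive _ (he hn) (he (Nat.le_succ n)), ih,
      Finset.sum_Ico_succ_top hn]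

theorem blocks_disjoint (e : ℕ → ℕ) (he : Monotone e) {i j : ℕ} (h : i ≠ j) :
    Disjoint (Finset.Ioc (e i) (e (i + 1))) (Finset.Ioc (e j) (e (j + 1))) := by
  rw [Finset.disjoint_left]
  intro s hs hs'
  simp only [Finset.mem_Ioc] at hs hs'
  rcases lt_or_gt_of_ne h with h1 | h1
  · have := he (show i + 1 ≤ j by omega)
    omega
  · have := he (show j + 1 ≤ i by omega)
    omega

/-- geometric sums of the weights. -/
theorem weight_sum {r C : ℝ} (hr0 : 0 ≤ r) (hr : r ≤ 1 / 2) (hC : 0 ≤ C) (B i : ℕ)
    (g : ℕ → ℝ) (hg : ∀ j, g j ≤ C * (if j < i then r ^ (i - j - 1) else 0)) :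
    ∑ j ∈ Finset.range B, g j ≤ 2 * C := by
  calc ∑ j ∈ Finset.range B, g j
      ≤ ∑ j ∈ Finset.range B, C * (if j < i then r ^ (i - j - 1) else 0) :=
        Finset.sum_le_sum fun j _ => hg j
    _ = C * ∑ j ∈ (Finset.range B).filter (· < i), r ^ (i - j - 1) := by
        rw [← Finset.mul_sum, Finset.sum_filter]
    _ ≤ C * ∑ j ∈ Finset.range i, r ^ (i - 1 - j) := by
        apply mul_le_mul_of_nonneg_left _ hC
        calc ∑ j ∈ (Finset.range B).filter (· < i), r ^ (i - j - 1)
            ≤ ∑ j ∈ Finset.range i, r ^ (i - j - 1) := by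
              apply Finset.sum_le_sum_of_subset_of_nonneg
              · intro j hj
                simp only [Finset.mem_filter, Finset.mem_range] at hj ⊢
                exact hj.2
              · intro j _ _
                positivity
          _ = _ := by
              apply Finset.sum_congr rfl
              intro j hj
              congr 1
              omega
    _ = C * ∑ k ∈ Finset.range i, r ^ k := by
        rw [Finset.sum_range_reflect (fun k => r ^ k) i]
    _ ≤ C * 2 := by
        apply mul_le_mul_of_nonneg_left _ hC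
        have h1 : r < 1 := by linarith
        have h2 := (summable_geometric_of_lt_one hr0 h1).sum_le_tsum (Finset.range i)
          (fun k _ => pow_nonneg hr0 k)
        rw [tsum_geometric_of_lt_one hr0 h1] at h2
        refine h2.trans ?_
        calc (1 - r)⁻¹ ≤ (1 / 2 : ℝ)⁻¹ := inv_anti₀ (by norm_num) (by linarith)
          _ = 2 := by norm_num
    _ = 2 * C := by ring

theorem weight_sum' {r C : ℝ} (hr0 : 0 ≤ r) (hr : r ≤ 1 / 2) (hC : 0 ≤ C) (B j : ℕ)
    (g : ℕ → ℝ) (hg : ∀ i, g i ≤ C * (if j < i then r ^ (i - j - 1) else 0)) :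
    ∑ i ∈ Finset.range B, g i ≤ 2 * C := by
  calc ∑ i ∈ Finset.range B, g i
      ≤ ∑ i ∈ Finset.range B, C * (if j < i then r ^ (i - j - 1) else 0) :=
        Finset.sum_le_sum fun i _ => hg i
    _ = C * ∑ i ∈ (Finset.range B).filter (j < ·), r ^ (i - j - 1) := by
        rw [← Finset.mul_sum, Finset.sum_filter]
    _ ≤ C * ∑ k ∈ Finset.range B, r ^ k := by
        apply mul_le_mul_of_nonneg_left _ hC
        rw [← Finset.sum_image (f := fun k => r ^ k) (g := fun i => i - j - 1)]
        · apply Finset.sum_le_sum_of_subset_of_nonneg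
          · intro k hk
            simp only [Finset.mem_image, Finset.mem_filter, Finset.mem_range] at hk ⊢
            obtain ⟨i, hi, rfl⟩ := hk
            omega
          · intro k _ _
            positivity
        · intro x hx y hy h
          simp only [Finset.coe_filter, Set.mem_ofPred_eq] at hx hy
          dsimp only at h
          omega
    _ ≤ C * 2 := by
        apply mul_le_mul_of_nonneg_left _ hC
        have h1 : r < 1 := by linarith
        have h2 := (summable_geometric_of_lt_one hr0 h1).sum_le_tsum (Finset.range B)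
          (fun k _ => pow_nonneg hr0 k)
        rw [tsum_geometric_of_lt_one hr0 h1] at h2
        refine h2.trans ?_
        calc (1 - r)⁻¹ ≤ (1 / 2 : ℝ)⁻¹ := inv_anti₀ (by norm_num) (by linarith)
          _ = 2 := by norm_num
    _ = 2 * C := by ring

end Pool.Agent.Helper95.Dom
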