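import Mathlib

/-!
Comparability in the dominance order of two random partitions: definitions.
-/

namespace Pool.Agent.Helper95.Dom

open MeasureTheory ProbabilityTheory Filter

/-- `Dominates l m`: the partition `m` is below `l` in the dominance order, i.e. for every `k` the
sum of the `k` largest parts of `m` is at most the sum of the `k` largest parts of `l`. -/
def Dominates {n : ℕ} (l m : n.Partition) : Prop :=
  ∀ k : ℕ, ((m.parts.sort (· ≥ ·)).take k).sum ≤ ((l.parts.sort (· ≥ ·)).take k).sum

/-- The number of pairs of partitions of `n` that are comparable in the dominance order. -/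
noncomputable def comparablePairs (n : ℕ) : ℕ :=
  Nat.card {p : n.Partition × n.Partition // Dominates p.1 p.2 ∨ Dominates p.2 p.1}

/-- `r n`: the probability that two independent uniform partitions of `n` are comparable. -/
noncomputable def r (n : ℕ) : ℝ :=
  (comparablePairs n : ℝ) / (Nat.card n.Partition : ℝ) ^ 2

/-- The correlation function `(1 + |t|/2) e^{-|t|/2}`. -/
noncomputable def rho (t : ℝ) : ℝ := (1 + |t| / 2) * Real.exp (-(|t| / 2))

/-- The covariance matrix of the centred stationary Gaussian process with correlation function
`rho`, on the grid `0, 1/m, 2/m, …, l` (which has `l * m + 1` points). -/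
noncomputable def covGrid (m l : ℕ) : Matrix (Fin (l * m + 1)) (Fin (l * m + 1)) ℝ :=
  Matrix.of fun i j => rho (((i : ℝ) - (j : ℝ)) / (m : ℝ))

/-- The probability that this Gaussian process is nonnegative at all points of the grid. -/
noncomputable def persGrid (m l : ℕ) : ℝ :=
  (multivariateGaussian 0 (covGrid m l)).real {x | ∀ i, 0 ≤ x i}

/-- The persistence probability of the Gaussian process on `[0, l]`: the infimum over all grids. -/
noncomputable def pers (l : ℕ) : ℝ := ⨅ m : ℕ, persGrid (m + 1) l

end Pool.Agent.Helper95.Dom
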