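import Pool.Agent.Helper95.DomDec
import Pool.Agent.Helper95.DomBlock

/-!
Exponential moments of the block sums.
-/

namespace Pool.Agent.Helper95.Dom

open MeasureTheory ProbabilityTheory Filter
open scoped Topology ENNReal

theorem cosh_sub_one_le (x : ℝ) : Real.cosh x - 1 ≤ x ^ 2 / 2 * Real.exp |x| := by
  have key : ∀ y : ℝ, 0 ≤ y → Real.cosh y - 1 ≤ y ^ 2 / 2 * Real.exp y := by
    intro y hy
    have h1 : Real.cosh y = 1 + 2 * Real.sinh (y / 2) ^ 2 := by
      have := Real.cosh_two_mul (y / 2)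
      have h2 := Real.cosh_sq (y / 2)
      rw [h2] at this
      have h3 : 2 * (y / 2) = y := by ring
      rw [h3] at this
      linarith
    have h2 : Real.sinh (y / 2) ≤ (y / 2) * Real.exp (y / 2) := by
      rw [Real.sinh_eq]
      have h3 := Real.add_one_le_exp (-y)
      have h4 : Real.exp (-y) * Real.exp (y / 2) = Real.exp (-(y / 2)) := by
        rw [← Real.exp_add]; congr 1; ring
      have h5 := mul_le_mul_of_nonneg_right h3 (Real.exp_pos (y / 2)).le
      nlinarith
    have h3 : 0 ≤ Real.sinh (y / 2) := Real.sinh_nonneg_iff.2 (by linarith)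
    have h4 : Real.sinh (y / 2) ^ 2 ≤ ((y / 2) * Real.exp (y / 2)) ^ 2 := pow_le_pow_left₀ h3 h2 2
    have h5 : Real.exp (y / 2) ^ 2 = Real.exp y := by
      rw [sq, ← Real.exp_add]; congr 1; ring
    rw [mul_pow, h5] at h4
    rw [h1]
    nlinarith
  have h := key |x| (abs_nonneg x)
  rwa [Real.cosh_abs, sq_abs] at h

theorem exp_moment {a : ℝ} (ha : 0 < a) (I : Finset ℕ) (c d : ℕ → ℝ) (β : ℝ)
    (hc : ∑ s ∈ I, vv (mu a) s * (Real.cosh (2 * β * c s) - 1) ≤ 1 / 8)
    (hd : ∑ s ∈ I, vv (mu a) s * (Real.cosh (2 * β * d s) - 1) ≤ 1 / 8) :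
    ∫⁻ ω, ENNReal.ofReal (Real.exp (β * (|∑ s ∈ I, c s * xs s ω| + |∑ s ∈ I, d s * xs s ω|))) ∂PA a
      ≤ 3 := by
  have hμ : ∀ s, 0 ≤ mu a s := mu_nonneg ha
  have key : ∀ e : ℕ → ℝ, ∑ s ∈ I, vv (mu a) s * (Real.cosh (2 * β * e s) - 1) ≤ 1 / 8 →
      ∀ σ : ℝ, |σ| = 1 → ∫⁻ ω, ENNReal.ofReal (Real.exp (2 * β * (σ * ∑ s ∈ I, e s * xs s ω))) ∂PA a
        ≤ ENNReal.ofReal (Real.exp (1 / 4)) := by
    intro e he σ hσ
    have h0 : ∀ s, Real.cosh (σ * (2 * β * e s)) = Real.cosh (2 * β * e s) := by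
      intro s
      rw [← Real.cosh_abs (σ * (2 * β * e s)), abs_mul, hσ, one_mul, Real.cosh_abs]
    have hnn : ∀ s ∈ I, 0 ≤ vv (mu a) s * (Real.cosh (2 * β * e s) - 1) := fun s _ =>
      mul_nonneg (vv_nonneg hμ s) (by linarith [Real.one_le_cosh (2 * β * e s)])
    have h1 : ∀ s ∈ I, vv (mu a) s * (Real.cosh (σ * (2 * β * e s)) - 1) ≤ 1 / 2 := by
      intro s hs
      rw [h0]
      have := Finset.single_le_sum hnn hs
      linarith
    have h2 := rexp_lin_le hμ I (fun s => σ * (2 * β * e s)) h1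
    have h3 := rexp_lin_int hμ I (fun s => σ * (2 * β * e s))
      (fun s hs => lt_of_le_of_lt (h1 s hs) (by norm_num))
    have h4 : ∀ ω : Om, 2 * β * (σ * ∑ s ∈ I, e s * xs s ω) = ∑ s ∈ I, σ * (2 * β * e s) * xs s ω := by
      intro ω
      rw [Finset.mul_sum, Finset.mul_sum]
      apply Finset.sum_congr rfl
      intro s _
      ring
    simp_rw [h4]
    unfold PA
    rw [← ofReal_integral_eq_lintegral_ofReal h3 (Filter.Eventually.of_forall fun ω =>
      (Real.exp_pos _).le)]
    apply ENNReal.ofReal_le_ofReal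
    refine h2.trans (Real.exp_le_exp.2 ?_)
    simp_rw [h0]
    linarith
  have hpt : ∀ Y V : ℝ, Real.exp (β * (|Y| + |V|)) ≤ 1 / 2 * (Real.exp (2 * β * (1 * Y))
      + Real.exp (2 * β * ((-1) * Y)) + Real.exp (2 * β * (1 * V)) + Real.exp (2 * β * ((-1) * V))) := by
    intro Y V
    have h1 : ∀ X : ℝ, Real.exp (2 * β * |X|) ≤ Real.exp (2 * β * (1 * X))
        + Real.exp (2 * β * ((-1) * X)) := by
      intro X
      rcases abs_cases X with ⟨h, _⟩ | ⟨h, _⟩
      · rw [h, one_mul]
        linarith [Real.exp_pos (2 * β * (-1 * X))]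
      · rw [h]
        have : -1 * X = -X := by ring
        rw [this]
        linarith [Real.exp_pos (2 * β * (1 * X))]
    have h2 : Real.exp (β * (|Y| + |V|)) = Real.exp (β * |Y|) * Real.exp (β * |V|) := by
      rw [← Real.exp_add]; congr 1; ring
    have h3 : ∀ X : ℝ, Real.exp (2 * β * |X|) = Real.exp (β * |X|) ^ 2 := by
      intro X
      rw [sq, ← Real.exp_add]; congr 1; ring
    have h4 := h1 Y
    have h5 := h1 V
    rw [h3] at h4 h5
    rw [h2]
    nlinarith [sq_nonneg (Real.exp (β * |Y|) - Real.exp (β * |V|))]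
  set Y : Om → ℝ := fun ω => ∑ s ∈ I, c s * xs s ω with hY
  set V : Om → ℝ := fun ω => ∑ s ∈ I, d s * xs s ω with hV
  have mY : Measurable Y := Finset.measurable_sum _ fun s _ => (meas_xs s).const_mul _
  have mV : Measurable V := Finset.measurable_sum _ fun s _ => (meas_xs s).const_mul _
  calc ∫⁻ ω, ENNReal.ofReal (Real.exp (β * (|Y ω| + |V ω|))) ∂PA a
      ≤ ∫⁻ ω, ENNReal.ofReal (1 / 2) * (ENNReal.ofReal (Real.exp (2 * β * (1 * Y ω)))
      + ENNReal.ofReal (Real.exp (2 * β * ((-1) * Y ω))) + ENNReal.ofReal (Real.exp (2 * β * (1 * V ω)))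
      + ENNReal.ofReal (Real.exp (2 * β * ((-1) * V ω)))) ∂PA a := by
        apply lintegral_mono
        intro ω
        dsimp only
        rw [← ENNReal.ofReal_add (by positivity) (by positivity),
          ← ENNReal.ofReal_add (by positivity) (by positivity),
          ← ENNReal.ofReal_add (by positivity) (by positivity), ← ENNReal.ofReal_mul (by norm_num)]
        exact ENNReal.ofReal_le_ofReal (hpt (Y ω) (V ω))
    _ = ENNReal.ofReal (1 / 2) * (∫⁻ ω, ENNReal.ofReal (Real.exp (2 * β * (1 * Y ω))) ∂PA a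
      + ∫⁻ ω, ENNReal.ofReal (Real.exp (2 * β * ((-1) * Y ω))) ∂PA a
      + ∫⁻ ω, ENNReal.ofReal (Real.exp (2 * β * (1 * V ω))) ∂PA a
      + ∫⁻ ω, ENNReal.ofReal (Real.exp (2 * β * ((-1) * V ω))) ∂PA a) := by
        rw [lintegral_const_mul' _ _ ENNReal.ofReal_ne_top]
        rw [lintegral_add_left (by fun_prop), lintegral_add_left (by fun_prop),
          lintegral_add_left (by fun_prop)]
    _ ≤ ENNReal.ofReal (1 / 2) * (ENNReal.ofReal (Real.exp (1 / 4)) + ENNReal.ofReal (Real.exp (1 / 4))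
      + ENNReal.ofReal (Real.exp (1 / 4)) + ENNReal.ofReal (Real.exp (1 / 4))) := by
        gcongr
        · exact key c hc 1 (by simp)
        · exact key c hc (-1) (by simp)
        · exact key d hd 1 (by simp)
        · exact key d hd (-1) (by simp)
    _ ≤ 3 := by
        rw [← ENNReal.ofReal_add (by positivity) (by positivity),
          ← ENNReal.ofReal_add (by positivity) (by positivity),
          ← ENNReal.ofReal_add (by positivity) (by positivity), ← ENNReal.ofReal_mul (by norm_num)]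
        have h3 : (3 : ℝ≥0∞) = ENNReal.ofReal 3 := by norm_num
        rw [h3]
        apply ENNReal.ofReal_le_ofReal
        have h4 : Real.exp (1 / 4) ≤ 3 / 2 := by
          have := exp_le_two (x := 1 / 4) (by norm_num) (by norm_num)
          linarith
        linarith

/-- exponential moments, large parts. -/
theorem exp_momentA {a : ℝ} (ha : 1 ≤ a) {t0 R : ℕ} (hta : a ≤ t0)
    (hae : 1 ≤ a * Real.exp (-(t0 / a))) :
    ∫⁻ ω, ENNReal.ofReal (Real.exp (1 / 80 * (|∑ s ∈ Finset.Ioc t0 R,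
      (((s : ℝ) - t0) / bA a t0) * xs s ω| + |∑ s ∈ Finset.Ioc t0 R, (a / bA a t0) * xs s ω|))) ∂PA a
      ≤ 3 := by
  have hpos : 0 < a := by linarith
  have hb := bA_pos hpos t0
  have hb2 : bA a t0 ^ 2 = 4 * a ^ 3 * Real.exp (-(t0 / a)) := by
    rw [sq, bA_mul hpos]
    congr 2
    field_simp
    ring
  have hb1 : 2 * a * (1 / 40) ≤ bA a t0 := by
    have h1 : (2 * a) ^ 2 ≤ bA a t0 ^ 2 := by
      rw [hb2]
      nlinarith [sq_nonneg a]
    have h2 := (sq_le_sq₀ (by linarith) hb.le).1 h1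
    linarith
  set e := Real.exp (-((t0 : ℝ) / a)) with he
  have he0 : 0 < e := Real.exp_pos _
  have hvv : ∀ s ∈ Finset.Ioc t0 R, vv (mu a) s ≤ 6 * e * Real.exp (-(((s - t0 : ℕ) : ℝ) / a)) := by
    intro s hs
    simp only [Finset.mem_Ioc] at hs
    have h1 : (t0 : ℝ) ≤ s := by exact_mod_cast hs.1.le
    refine (vv_le_six hpos (hta.trans h1)).trans (le_of_eq ?_)
    rw [he, mul_assoc, ← Real.exp_add]
    congr 2
    rw [Nat.cast_sub hs.1.le]
    ring
  have hshift : ∀ f : ℕ → ℝ, ∑ s ∈ Finset.Ioc t0 R, f (s - t0) = ∑ k ∈ Finset.Icc 1 (R - t0), f k := by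
    intro f
    have h4 : Finset.Ioc t0 R = (Finset.Icc 1 (R - t0)).image (fun k => t0 + k) := by
      ext s
      simp only [Finset.mem_Ioc, Finset.mem_image, Finset.mem_Icc]
      constructor
      · intro h
        exact ⟨s - t0, by omega, by omega⟩
      · rintro ⟨k, hk, rfl⟩
        omega
    rw [h4, Finset.sum_image (by intro x _ y _ h; simpa using h)]
    apply Finset.sum_congr rfl
    intro k _
    congr 1
    omega
  apply exp_moment hpos _ _ _ _
  · calc ∑ s ∈ Finset.Ioc t0 R, vv (mu a) s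
          * (Real.cosh (2 * (1 / 80) * (((s : ℝ) - t0) / bA a t0)) - 1)
        ≤ ∑ s ∈ Finset.Ioc t0 R, (fun k : ℕ => 6 * e * (1 / (3200 * bA a t0 ^ 2))
            * ((k : ℝ) ^ 2 * Real.exp (-((k : ℝ) / (2 * a))))) (s - t0) := by
          apply Finset.sum_le_sum
          intro s hs
          have h1 := hvv s hs
          simp only [Finset.mem_Ioc] at hs
          have h2 : (s : ℝ) - t0 = ((s - t0 : ℕ) : ℝ) := by rw [Nat.cast_sub hs.1.le]
          rw [h2]
          set k := s - t0 with hk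
          have hk0 : (0 : ℝ) ≤ k := Nat.cast_nonneg k
          have h3 := cosh_sub_one_le (2 * (1 / 80) * ((k : ℝ) / bA a t0))
          have h4 : |2 * (1 / 80) * ((k : ℝ) / bA a t0)| ≤ (k : ℝ) / (2 * a) := by
            rw [abs_of_nonneg (by positivity)]
            have h5 : 2 * (1 / 80) * ((k : ℝ) / bA a t0) = (k : ℝ) * ((1 / 40) / bA a t0) := by ring
            have h6 : (k : ℝ) / (2 * a) = (k : ℝ) * (1 / (2 * a)) := by ring
            rw [h5, h6]
            apply mul_le_mul_of_nonneg_left _ hk0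
            rw [div_le_div_iff₀ hb (by positivity)]
            linarith
          have h5 : Real.cosh (2 * (1 / 80) * ((k : ℝ) / bA a t0)) - 1
              ≤ (2 * (1 / 80) * ((k : ℝ) / bA a t0)) ^ 2 / 2 * Real.exp ((k : ℝ) / (2 * a)) :=
            h3.trans (mul_le_mul_of_nonneg_left (Real.exp_le_exp.2 h4) (by positivity))
          have h6 : 0 ≤ Real.cosh (2 * (1 / 80) * ((k : ℝ) / bA a t0)) - 1 := by
            linarith [Real.one_le_cosh (2 * (1 / 80) * ((k : ℝ) / bA a t0))]
          calc vv (mu a) s * (Real.cosh (2 * (1 / 80) * ((k : ℝ) / bA a t0)) - 1)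
              ≤ (6 * e * Real.exp (-((k : ℝ) / a))) * ((2 * (1 / 80) * ((k : ℝ) / bA a t0)) ^ 2 / 2
                * Real.exp ((k : ℝ) / (2 * a))) := mul_le_mul h1 h5 h6 (by positivity)
            _ = 6 * e * (1 / (3200 * bA a t0 ^ 2)) * ((k : ℝ) ^ 2 * (Real.exp (-((k : ℝ) / a))
                * Real.exp ((k : ℝ) / (2 * a)))) := by field_simp; ring
            _ = _ := by
                rw [← Real.exp_add]
                congr 3
                field_simp
                ring
      _ = 6 * e * (1 / (3200 * bA a t0 ^ 2)) * ∑ k ∈ Finset.Icc 1 (R - t0),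
            (k : ℝ) ^ 2 * Real.exp (-((k : ℝ) / (2 * a))) := by
          refine (hshift (fun k : ℕ => 6 * e * (1 / (3200 * bA a t0 ^ 2))
            * ((k : ℝ) ^ 2 * Real.exp (-((k : ℝ) / (2 * a)))))).trans ?_
          rw [Finset.mul_sum]
      _ ≤ 6 * e * (1 / (3200 * bA a t0 ^ 2))
            * (((2 : ℕ).factorial : ℝ) * (2 * (2 * a)) ^ 2 * (3 * (2 * a))) :=
          mul_le_mul_of_nonneg_left (sum_pow_exp_le 2 (by linarith) _) (by positivity)
      _ = 9 / 100 := by
          rw [hb2]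
          simp only [Nat.factorial_two]
          push_cast
          field_simp
          norm_num
      _ ≤ 1 / 8 := by norm_num
  · calc ∑ s ∈ Finset.Ioc t0 R, vv (mu a) s * (Real.cosh (2 * (1 / 80) * (a / bA a t0)) - 1)
        ≤ ∑ s ∈ Finset.Ioc t0 R, (fun k : ℕ => 6 * e * (a ^ 2 / (1600 * bA a t0 ^ 2))
            * (Real.exp (-((k : ℝ) / a)))) (s - t0) := by
          apply Finset.sum_le_sum
          intro s hs
          have h1 := hvv s hs
          have h3 := cosh_sub_one_le (2 * (1 / 80) * (a / bA a t0))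
          have h4 : |2 * (1 / 80) * (a / bA a t0)| ≤ 1 / 2 := by
            rw [abs_of_nonneg (by positivity)]
            have h5 : 2 * (1 / 80) * (a / bA a t0) = (a / 40) / bA a t0 := by ring
            rw [h5, div_le_iff₀ hb]
            linarith
          have h5 : Real.exp |2 * (1 / 80) * (a / bA a t0)| ≤ 2 :=
            (Real.exp_le_exp.2 h4).trans ((exp_le_two (by norm_num) (by norm_num)).trans (by norm_num))
          have h6 : 0 ≤ Real.cosh (2 * (1 / 80) * (a / bA a t0)) - 1 := by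
            linarith [Real.one_le_cosh (2 * (1 / 80) * (a / bA a t0))]
          have h7 : Real.cosh (2 * (1 / 80) * (a / bA a t0)) - 1
              ≤ (2 * (1 / 80) * (a / bA a t0)) ^ 2 / 2 * 2 :=
            h3.trans (mul_le_mul_of_nonneg_left h5 (by positivity))
          calc vv (mu a) s * (Real.cosh (2 * (1 / 80) * (a / bA a t0)) - 1)
              ≤ (6 * e * Real.exp (-(((s - t0 : ℕ) : ℝ) / a)))
                * ((2 * (1 / 80) * (a / bA a t0)) ^ 2 / 2 * 2) := mul_le_mul h1 h7 h6 (by positivity)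
            _ = _ := by field_simp; norm_num
      _ = 6 * e * (a ^ 2 / (1600 * bA a t0 ^ 2)) * ∑ k ∈ Finset.Icc 1 (R - t0),
            Real.exp (-((k : ℝ) / a)) := by
          refine (hshift (fun k : ℕ => 6 * e * (a ^ 2 / (1600 * bA a t0 ^ 2))
            * (Real.exp (-((k : ℝ) / a))))).trans ?_
          rw [Finset.mul_sum]
      _ ≤ 6 * e * (a ^ 2 / (1600 * bA a t0 ^ 2)) * (2 * a) := by
          apply mul_le_mul_of_nonneg_left _ (by positivity)
          refine (sum_exp_le ha _).trans ?_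
          linarith
      _ = 3 / 1600 := by
          rw [hb2]
          field_simp
          norm_num
      _ ≤ 1 / 8 := by norm_num

/-- exponential moments, small parts. -/
theorem exp_momentB {a : ℝ} (ha : 1 ≤ a) {L R : ℕ} (hR1 : 1 ≤ R) (hR : (R : ℝ) ≤ a) :
    ∫⁻ ω, ENNReal.ofReal (Real.exp (1 / 80 * (|∑ s ∈ Finset.Ioc L R,
      ((s : ℝ) / (a * √R)) * xs s ω| + |∑ s ∈ Finset.Ioc L R, (√L / a) * xs s ω|))) ∂PA a
      ≤ 3 := by
  have hpos : 0 < a := by linarith
  have hR0 : (0 : ℝ) < R := by exact_mod_cast hR1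
  have hsR : √(R : ℝ) ^ 2 = R := Real.sq_sqrt hR0.le
  have hsR0 : 0 < √(R : ℝ) := Real.sqrt_pos.2 hR0
  have hsL : √(L : ℝ) ^ 2 = L := Real.sq_sqrt (Nat.cast_nonneg L)
  have hsRa : √(R : ℝ) ≤ a := by
    rw [Real.sqrt_le_left (by linarith)]
    nlinarith
  apply exp_moment hpos _ _ _ _
  · calc ∑ s ∈ Finset.Ioc L R, vv (mu a) s * (Real.cosh (2 * (1 / 80) * ((s : ℝ) / (a * √R))) - 1)
        ≤ ∑ s ∈ Finset.Ioc L R, 1 / (800 * (R : ℝ)) := by
          apply Finset.sum_le_sum
          intro s hs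
          simp only [Finset.mem_Ioc] at hs
          have hs0 : (0 : ℝ) < s := by exact_mod_cast (by omega : 0 < s)
          have hsR' : (s : ℝ) ≤ R := by exact_mod_cast hs.2
          have h1 := vv_le hpos s
          have h3 := cosh_sub_one_le (2 * (1 / 80) * ((s : ℝ) / (a * √R)))
          have h4 : |2 * (1 / 80) * ((s : ℝ) / (a * √R))| ≤ 1 / 2 := by
            rw [abs_of_nonneg (by positivity)]
            have h5 : (s : ℝ) / (a * √R) ≤ 1 := by
              rw [div_le_one (by positivity)]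
              calc (s : ℝ) ≤ R := hsR'
                _ = √(R : ℝ) * √R := by rw [← sq]; exact hsR.symm
                _ ≤ a * √R := mul_le_mul_of_nonneg_right hsRa hsR0.le
            linarith
          have h5 : Real.exp |2 * (1 / 80) * ((s : ℝ) / (a * √R))| ≤ 2 :=
            (Real.exp_le_exp.2 h4).trans ((exp_le_two (by norm_num) (by norm_num)).trans (by norm_num))
          have h6 : 0 ≤ Real.cosh (2 * (1 / 80) * ((s : ℝ) / (a * √R))) - 1 := by
            linarith [Real.one_le_cosh (2 * (1 / 80) * ((s : ℝ) / (a * √R)))]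
          have h7 : Real.cosh (2 * (1 / 80) * ((s : ℝ) / (a * √R))) - 1
              ≤ (2 * (1 / 80) * ((s : ℝ) / (a * √R))) ^ 2 / 2 * 2 :=
            h3.trans (mul_le_mul_of_nonneg_left h5 (by positivity))
          calc vv (mu a) s * (Real.cosh (2 * (1 / 80) * ((s : ℝ) / (a * √R))) - 1)
              ≤ (2 * a ^ 2 / (s : ℝ) ^ 2) * ((2 * (1 / 80) * ((s : ℝ) / (a * √R))) ^ 2 / 2 * 2) :=
                mul_le_mul h1 h7 h6 (by positivity)
            _ = 1 / (800 * √(R : ℝ) ^ 2) := by field_simp; norm_num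
            _ = _ := by rw [hsR]
      _ ≤ R * (1 / (800 * (R : ℝ))) := by
          rw [Finset.sum_const, Nat.card_Ioc, nsmul_eq_mul]
          apply mul_le_mul_of_nonneg_right _ (by positivity)
          exact_mod_cast Nat.sub_le R L
      _ = 1 / 800 := by field_simp
      _ ≤ 1 / 8 := by norm_num
  · rcases Nat.eq_zero_or_pos L with rfl | hL
    · simp
    rcases le_or_gt R L with hRL | hRL
    · rw [Finset.Ioc_eq_empty (by omega)]
      simp
    have hL0 : (0 : ℝ) < L := by exact_mod_cast hL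
    have hLR : (L : ℝ) ≤ R := by exact_mod_cast hRL.le
    have hsL0 : 0 ≤ √(L : ℝ) := Real.sqrt_nonneg _
    have hsLR : √(L : ℝ) ≤ a := (Real.sqrt_le_sqrt hLR).trans hsRa
    calc ∑ s ∈ Finset.Ioc L R, vv (mu a) s * (Real.cosh (2 * (1 / 80) * (√(L : ℝ) / a)) - 1)
        ≤ ∑ s ∈ Finset.Ioc L R, (L : ℝ) / 800 * (1 / (s : ℝ) ^ 2) := by
          apply Finset.sum_le_sum
          intro s hs
          simp only [Finset.mem_Ioc] at hs
          have hs0 : (0 : ℝ) < s := by exact_mod_cast (by omega : 0 < s)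
          have h1 := vv_le hpos s
          have h3 := cosh_sub_one_le (2 * (1 / 80) * (√(L : ℝ) / a))
          have h4 : |2 * (1 / 80) * (√(L : ℝ) / a)| ≤ 1 / 2 := by
            rw [abs_of_nonneg (by positivity)]
            have h5 : √(L : ℝ) / a ≤ 1 := by
              rw [div_le_one (by positivity)]
              exact hsLR
            linarith
          have h5 : Real.exp |2 * (1 / 80) * (√(L : ℝ) / a)| ≤ 2 :=
            (Real.exp_le_exp.2 h4).trans ((exp_le_two (by norm_num) (by norm_num)).trans (by norm_num))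
          have h6 : 0 ≤ Real.cosh (2 * (1 / 80) * (√(L : ℝ) / a)) - 1 := by
            linarith [Real.one_le_cosh (2 * (1 / 80) * (√(L : ℝ) / a))]
          have h7 : Real.cosh (2 * (1 / 80) * (√(L : ℝ) / a)) - 1
              ≤ (2 * (1 / 80) * (√(L : ℝ) / a)) ^ 2 / 2 * 2 :=
            h3.trans (mul_le_mul_of_nonneg_left h5 (by positivity))
          calc vv (mu a) s * (Real.cosh (2 * (1 / 80) * (√(L : ℝ) / a)) - 1)
              ≤ (2 * a ^ 2 / (s : ℝ) ^ 2) * ((2 * (1 / 80) * (√(L : ℝ) / a)) ^ 2 / 2 * 2) :=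
                mul_le_mul h1 h7 h6 (by positivity)
            _ = √(L : ℝ) ^ 2 / 800 * (1 / (s : ℝ) ^ 2) := by field_simp; norm_num
            _ = _ := by rw [hsL]
      _ = (L : ℝ) / 800 * ∑ s ∈ Finset.Ioc L R, (1 / (s : ℝ) ^ 2) := by rw [Finset.mul_sum]
      _ ≤ (L : ℝ) / 800 * (1 / (L : ℝ) - 1 / (R : ℝ)) :=
          mul_le_mul_of_nonneg_left (sum_inv_sq_le hL hRL.le) (by positivity)
      _ ≤ (L : ℝ) / 800 * (1 / (L : ℝ)) := by
          apply mul_le_mul_of_nonneg_left _ (by positivity)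
          have : (0 : ℝ) ≤ 1 / R := by positivity
          linarith
      _ = 1 / 800 := by field_simp
      _ ≤ 1 / 8 := by norm_num

end Pool.Agent.Helper95.Dom
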