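import Pool.Agent.Helper95.DomMid
import Pool.Agent.Helper95.DomInd
import Pool.Agent.Helper76.DomF

/-!
Windows for both coordinates on the block `(N, 2N]`, and sums of the drift.
-/

namespace Pool.Agent.Helper95.Dom

open MeasureTheory ProbabilityTheory Filter
open scoped Topology ENNReal

/-- window event for the first coordinates. -/
def Fev1 (a : ℝ) (N K1 : ℕ) (lam0 y : ℝ) : Set Om :=
  {ω | y ≤ ∑ s ∈ Finset.Ioc N (2 * N), (s : ℝ) * (ma s ω - mu a s)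
    ∧ ∑ s ∈ Finset.Ioc N (2 * N), (s : ℝ) * (ma s ω - mu a s) ≤ y + K1 * N
    ∧ ∀ t, N ≤ t → t ≤ 2 * N → |∑ s ∈ Finset.Ioc t (2 * N), (ma s ω - mu a s)| ≤ lam0 * √N}

/-- window event for the second coordinates. -/
def Fev2 (a : ℝ) (N K1 : ℕ) (lam0 y : ℝ) : Set Om :=
  {ω | y ≤ ∑ s ∈ Finset.Ioc N (2 * N), (s : ℝ) * (mb s ω - mu a s)
    ∧ ∑ s ∈ Finset.Ioc N (2 * N), (s : ℝ) * (mb s ω - mu a s) ≤ y + K1 * N
    ∧ ∀ t, N ≤ t → t ≤ 2 * N → |∑ s ∈ Finset.Ioc t (2 * N), (mb s ω - mu a s)| ≤ lam0 * √N}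

theorem Fev2_eq (a : ℝ) (N K1 : ℕ) (lam0 y : ℝ) :
    Fev2 a N K1 lam0 y = swp ⁻¹' (Fev1 a N K1 lam0 y) := rfl

theorem sum_fst_congr {I J : Finset ℕ} (hIJ : I ⊆ J) (f : ℕ → ℕ → ℝ) {ω ω' : Om}
    (h : ∀ s ∈ J, (ω s).1 = (ω' s).1) :
    ∑ s ∈ I, f s (ω s).1 = ∑ s ∈ I, f s (ω' s).1 :=
  Finset.sum_congr rfl fun s hs => by rw [h s (hIJ hs)]

theorem Fev1_dep (a : ℝ) (N K1 : ℕ) (lam0 y : ℝ) (ω ω' : Om)
    (h : ∀ s ∈ Finset.Ioc N (2 * N), (ω s).1 = (ω' s).1) :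
    ω ∈ Fev1 a N K1 lam0 y ↔ ω' ∈ Fev1 a N K1 lam0 y := by
  have e1 : ∑ s ∈ Finset.Ioc N (2 * N), (s : ℝ) * (ma s ω - mu a s)
      = ∑ s ∈ Finset.Ioc N (2 * N), (s : ℝ) * (ma s ω' - mu a s) :=
    sum_fst_congr (Finset.Subset.refl _) (fun s k => (s : ℝ) * ((k : ℝ) - mu a s)) h
  have e2 : ∀ t, N ≤ t → ∑ s ∈ Finset.Ioc t (2 * N), (ma s ω - mu a s)
      = ∑ s ∈ Finset.Ioc t (2 * N), (ma s ω' - mu a s) := fun t ht =>
    sum_fst_congr (Finset.Ioc_subset_Ioc_left ht) (fun s k => (k : ℝ) - mu a s) h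
  unfold Fev1
  simp only [Set.mem_ofPred_eq]
  rw [e1]
  constructor
  · rintro ⟨h1, h2, h3⟩
    exact ⟨h1, h2, fun t ht ht' => by rw [← e2 t ht]; exact h3 t ht ht'⟩
  · rintro ⟨h1, h2, h3⟩
    exact ⟨h1, h2, fun t ht ht' => by rw [e2 t ht]; exact h3 t ht ht'⟩

theorem Fev2_dep (a : ℝ) (N K1 : ℕ) (lam0 y : ℝ) (ω ω' : Om)
    (h : ∀ s ∈ Finset.Ioc N (2 * N), (ω s).2 = (ω' s).2) :
    ω ∈ Fev2 a N K1 lam0 y ↔ ω' ∈ Fev2 a N K1 lam0 y :=
  Fev1_dep a N K1 lam0 y (swp ω) (swp ω') h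

theorem F_both (C' : ℝ) : ∃ (K1 : ℕ) (c lam0 a0 : ℝ), 1 ≤ K1 ∧ 0 < c ∧ 0 < lam0 ∧ 1 ≤ a0 ∧
    ∀ (a : ℝ) (N : ℕ), a0 ≤ a → a ≤ N → (N : ℝ) ≤ a + 1 → ∀ y y' : ℝ, |y| ≤ C' * (N * √N) →
      |y'| ≤ C' * (N * √N) →
      c / N ≤ (PA a).real (Fev1 a N K1 lam0 y ∩ Fev2 a N K1 lam0 y') := by
  obtain ⟨K1, c, lam0, a0, hK1, hc, hlam, ha0, H⟩ := F_local C'
  refine ⟨K1, c ^ 2, lam0, a0, hK1, by positivity, hlam, ha0, ?_⟩
  intro a N ha haN hNa y y' hy hy'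
  have hN0 : (0 : ℝ) < N := by linarith
  have hsN : 0 < √(N : ℝ) := Real.sqrt_pos.2 hN0
  have hsN2 : √(N : ℝ) ^ 2 = N := Real.sq_sqrt hN0.le
  have h1 := H a N ha haN hNa y hy
  have h2 := H a N ha haN hNa y' hy'
  have hind : (PA a).real (Fev1 a N K1 lam0 y ∩ Fev2 a N K1 lam0 y')
      = (PA a).real (Fev1 a N K1 lam0 y) * (PA a).real (Fev2 a N K1 lam0 y') :=
    indep_sets_fs (mu a) (mu a) (Finset.Ioc N (2 * N)) (Finset.Ioc N (2 * N))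
      (Fev1_dep a N K1 lam0 y) (Fev2_dep a N K1 lam0 y')
  have hm : MeasurableSet (Fev1 a N K1 lam0 y') :=
    measSet_of_dep (Finset.Ioc N (2 * N)) fun ω ω' h =>
      Fev1_dep a N K1 lam0 y' ω ω' fun s hs => by rw [h s hs]
  have hsw : (PA a).real (Fev2 a N K1 lam0 y') = (PA a).real (Fev1 a N K1 lam0 y') := by
    rw [Fev2_eq]
    exact swp_real (mu a) hm
  have h3 : c / √(N : ℝ) * (c / √(N : ℝ)) = c ^ 2 / N := by
    rw [div_mul_div_comm, ← sq, ← sq, hsN2]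
  rw [hind, hsw, ← h3]
  exact mul_le_mul h1 h2 (by positivity) measureReal_nonneg

/-! ### sums of the drift -/

theorem sum_drift_top {N TA t : ℕ} (A B : ℝ) (ht : 4 * N ≤ t) :
    ∑ s ∈ Finset.Ioc t TA, drift N A B s = 0 := by
  apply Finset.sum_eq_zero
  intro s hs
  rw [Finset.mem_Ioc] at hs
  apply drift_out
  rw [Finset.mem_Ioc]
  omega

theorem sum_drift_34 {N TA t : ℕ} (A B : ℝ) (ht : 3 * N ≤ t) (ht' : t ≤ 4 * N) (hTA : 4 * N ≤ TA) :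
    ∑ s ∈ Finset.Ioc t TA, drift N A B s = (4 * N - t) * A := by
  rw [← Finset.sum_Ioc_consecutive _ ht' hTA, sum_drift_top A B le_rfl, add_zero]
  have : ∑ s ∈ Finset.Ioc t (4 * N), drift N A B s = ∑ s ∈ Finset.Ioc t (4 * N), A := by
    apply Finset.sum_congr rfl
    intro s hs
    rw [Finset.mem_Ioc] at hs
    unfold drift
    rw [if_pos (by rw [Finset.mem_Ioc]; omega)]
  rw [this, Finset.sum_const, Nat.card_Ioc, nsmul_eq_mul, Nat.cast_sub ht']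
  push_cast
  ring

theorem sum_drift_23 {N TA t : ℕ} (A B : ℝ) (ht : 2 * N ≤ t) (ht' : t ≤ 3 * N) (hTA : 4 * N ≤ TA) :
    ∑ s ∈ Finset.Ioc t TA, drift N A B s = (3 * N - t) * B + N * A := by
  rw [← Finset.sum_Ioc_consecutive _ ht' (by omega : 3 * N ≤ TA),
    sum_drift_34 A B le_rfl (by omega) hTA]
  have : ∑ s ∈ Finset.Ioc t (3 * N), drift N A B s = ∑ s ∈ Finset.Ioc t (3 * N), B := by
    apply Finset.sum_congr rfl
    intro s hs
    rw [Finset.mem_Ioc] at hs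
    unfold drift
    rw [if_neg (by rw [Finset.mem_Ioc]; omega), if_pos (by rw [Finset.mem_Ioc]; omega)]
  rw [this, Finset.sum_const, Nat.card_Ioc, nsmul_eq_mul, Nat.cast_sub ht']
  push_cast
  ring

/-- `∑_{2N < s ≤ 3N} s`. -/
noncomputable def S2 (N : ℕ) : ℝ := 5 / 2 * (N : ℝ) ^ 2 + N / 2

theorem sum_id_Ioc (M k : ℕ) : ∑ s ∈ Finset.Ioc M (M + k), (s : ℝ) = k * M + k * (k + 1) / 2 := by
  induction k with
  | zero => simp
  | succ k ih =>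
    rw [← add_assoc, Finset.sum_Ioc_succ_top (by omega), ih]
    push_cast
    ring

theorem sum_S2 (N : ℕ) : ∑ s ∈ Finset.Ioc (2 * N) (3 * N), (s : ℝ) = S2 N := by
  have h : 3 * N = 2 * N + N := by ring
  rw [h, sum_id_Ioc]
  unfold S2
  push_cast
  ring

theorem sum_S3 (N : ℕ) : ∑ s ∈ Finset.Ioc (3 * N) (4 * N), (s : ℝ) = S2 N + (N : ℝ) ^ 2 := by
  have h : 4 * N = 3 * N + N := by ring
  rw [h, sum_id_Ioc]
  unfold S2
  push_cast
  ring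

/-- drift on `(3N, 4N]`. -/
noncomputable def al (N : ℕ) (g y : ℝ) : ℝ := (g * S2 N - y) / (N : ℝ) ^ 2

/-- drift on `(2N, 3N]`. -/
noncomputable def be (N : ℕ) (g y : ℝ) : ℝ := -g - al N g y

theorem sum_drift_weighted {N TA TB : ℕ} (hN : 1 ≤ N) (hTA : 4 * N ≤ TA) (g y : ℝ) :
    ∑ s ∈ midI N TA TB, (s : ℝ) * drift N (al N g y) (be N g y) s = -y := by
  have hN0 : (0 : ℝ) < N := by exact_mod_cast hN
  unfold midI
  rw [Finset.sum_union (by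
    rw [Finset.disjoint_left]
    intro s hs hs'
    rw [Finset.mem_Ioc] at hs hs'
    omega)]
  have h1 : ∑ s ∈ Finset.Ioc TB N, (s : ℝ) * drift N (al N g y) (be N g y) s = 0 := by
    apply Finset.sum_eq_zero
    intro s hs
    rw [Finset.mem_Ioc] at hs
    rw [drift_out (by rw [Finset.mem_Ioc]; omega), mul_zero]
  rw [h1, zero_add, ← Finset.sum_Ioc_consecutive _ (by omega : 2 * N ≤ 3 * N) (by omega : 3 * N ≤ TA),
    ← Finset.sum_Ioc_consecutive _ (by omega : 3 * N ≤ 4 * N) hTA]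
  have h2 : ∑ s ∈ Finset.Ioc (4 * N) TA, (s : ℝ) * drift N (al N g y) (be N g y) s = 0 := by
    apply Finset.sum_eq_zero
    intro s hs
    rw [Finset.mem_Ioc] at hs
    rw [drift_out (by rw [Finset.mem_Ioc]; omega), mul_zero]
  have h3 : ∑ s ∈ Finset.Ioc (3 * N) (4 * N), (s : ℝ) * drift N (al N g y) (be N g y) s
      = (S2 N + (N : ℝ) ^ 2) * al N g y := by
    rw [← sum_S3, Finset.sum_mul]
    apply Finset.sum_congr rfl
    intro s hs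
    unfold drift
    rw [if_pos hs]
  have h4 : ∑ s ∈ Finset.Ioc (2 * N) (3 * N), (s : ℝ) * drift N (al N g y) (be N g y) s
      = S2 N * be N g y := by
    rw [← sum_S2, Finset.sum_mul]
    apply Finset.sum_congr rfl
    intro s hs
    rw [Finset.mem_Ioc] at hs
    unfold drift
    rw [if_neg (by rw [Finset.mem_Ioc]; omega), if_pos (by rw [Finset.mem_Ioc]; omega)]
  rw [h2, h3, h4]
  unfold be al
  field_simp
  ring

theorem drift_sub (N : ℕ) (α β α' β' : ℝ) (s : ℕ) :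
    drift N α β s - drift N α' β' s = drift N (α - α') (β - β') s := by
  unfold drift
  split_ifs <;> ring

/-- bounds on the drifts. -/
theorem al_bounds {N : ℕ} (hN : 1 ≤ N) {g y : ℝ} (hy : |y| ≤ |g| / 20 * (N : ℝ) ^ 2) :
    |al N g y| ≤ 5 * |g| ∧ |be N g y| ≤ 5 * |g| := by
  have hN0 : (1 : ℝ) ≤ N := by exact_mod_cast hN
  have h1 : |al N g y| ≤ 3.05 * |g| := by
    unfold al
    rw [abs_div, abs_of_pos (show (0 : ℝ) < (N : ℝ) ^ 2 by positivity), div_le_iff₀ (by positivity)]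
    refine (abs_sub _ _).trans ?_
    rw [abs_mul]
    have h2 : |S2 N| ≤ 3 * (N : ℝ) ^ 2 := by
      unfold S2
      rw [abs_of_nonneg (by positivity)]
      nlinarith
    have h3 := mul_le_mul_of_nonneg_left h2 (abs_nonneg g)
    norm_num
    linarith
  have h2 : |be N g y| ≤ |g| + |al N g y| := by
    unfold be
    refine (abs_sub _ _).trans ?_
    rw [abs_neg]
  have h3 := abs_nonneg g
  norm_num at h1
  constructor <;> linarith

theorem al_diff {N : ℕ} (hN : 1 ≤ N) {g y y' : ℝ} (hg : 0 ≤ g) (hy : |y| ≤ g / 20 * (N : ℝ) ^ 2)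
    (hy' : |y'| ≤ g / 20 * (N : ℝ) ^ 2) : 4 * g ≤ al N g y - al N (-g) y' := by
  have hN0 : (1 : ℝ) ≤ N := by exact_mod_cast hN
  unfold al
  rw [← sub_div, le_div_iff₀ (by positivity)]
  have h1 := (abs_le.1 hy).2
  have h2 := (abs_le.1 hy').1
  unfold S2
  have h3 : 0 ≤ g * (N : ℝ) ^ 2 := by positivity
  have h4 : 0 ≤ g * (N : ℝ) := by positivity
  nlinarith

end Pool.Agent.Helper95.Dom
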