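import Pool.Agent.Helper95.DomLowFin
import Pool.Agent.Helper54.DomPos
import Pool.Agent.Helper76.DomG3

/-!
Assembly.
-/

namespace Pool.Agent.Helper95.Dom

open MeasureTheory ProbabilityTheory Filter
open scoped Topology ENNReal

/-- from two-sided polynomial bounds to the limit. -/
theorem log_limit {f : ℕ → ℝ} {β : ℝ}
    (hlow : ∀ δ : ℝ, 0 < δ → ∃ (c : ℝ) (n0 : ℕ), 0 < c ∧ ∀ n : ℕ, n0 ≤ n →
      c * Real.exp (-((β + δ) * Real.log n)) ≤ f n)
    (hup : ∀ δ : ℝ, 0 < δ → ∃ (C : ℝ) (n0 : ℕ), 0 < C ∧ ∀ n : ℕ, n0 ≤ n →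
      f n ≤ C * Real.exp (-((β - δ) * Real.log n))) :
    Tendsto (fun n : ℕ => Real.log (f n) / Real.log n) atTop (𝓝 (-β)) := by
  have hlogt : Tendsto (fun n : ℕ => Real.log (n : ℝ)) atTop atTop :=
    Real.tendsto_log_atTop.comp tendsto_natCast_atTop_atTop
  rw [Metric.tendsto_atTop]
  intro ε hε
  obtain ⟨c, n1, hc, h1⟩ := hlow (ε / 2) (by positivity)
  obtain ⟨C, n2, hC, h2⟩ := hup (ε / 2) (by positivity)
  obtain ⟨n3, h3⟩ := eventually_atTop.1 (hlogt.eventually_ge_atTop
    (max 1 (2 * (|Real.log c| + |Real.log C| + 1) / ε)))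
  refine ⟨max (max n1 n2) n3, fun n hn => ?_⟩
  simp only [max_le_iff] at hn
  obtain ⟨⟨hn1, hn2⟩, hn3⟩ := hn
  have h4 := h3 n hn3
  rw [max_le_iff] at h4
  have hL : 0 < Real.log n := by linarith [h4.1]
  have h5 : 2 * (|Real.log c| + |Real.log C| + 1) / ε ≤ Real.log n := h4.2
  rw [div_le_iff₀ hε] at h5
  have hlo := h1 n hn1
  have hup' := h2 n hn2
  have hf0 : 0 < f n := lt_of_lt_of_le (by positivity) hlo
  have hlo' := Real.log_le_log (by positivity) hlo
  have hup'' := Real.log_le_log hf0 hup'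
  rw [Real.log_mul hc.ne' (Real.exp_pos _).ne', Real.log_exp] at hlo'
  rw [Real.log_mul hC.ne' (Real.exp_pos _).ne', Real.log_exp] at hup''
  rw [Real.dist_eq, abs_lt, sub_neg_eq_add]
  have hdiv : Real.log (f n) / Real.log n + β = (Real.log (f n) + β * Real.log n) / Real.log n := by
    field_simp
  rw [hdiv]
  have a1 := neg_abs_le (Real.log c)
  have a2 := le_abs_self (Real.log C)
  have a3 := abs_nonneg (Real.log c)
  have a4 := abs_nonneg (Real.log C)
  constructor
  · rw [lt_div_iff₀ hL]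
    nlinarith
  · rw [div_lt_iff₀ hL]
    nlinarith

/-- The comparability probability decays with the exponent `theta`. -/
theorem r_exponent : Tendsto (fun n : ℕ => Real.log (r n) / Real.log n) atTop (𝓝 (-theta)) :=
  log_limit (fun _ hδ => lower_final hδ) (fun _ hδ => upper_final hδ)

end Pool.Agent.Helper95.Dom
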