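import Pool.Agent.Helper95.DomLevy
import Pool.Agent.Helper95.DomDefs

/-!
Gaussian orthant probabilities: the effect of a small shift of the level.
-/

namespace Pool.Agent.Helper95.Dom

open MeasureTheory ProbabilityTheory Filter
open scoped Topology RealInnerProductSpace ENNReal NNReal

/-- rank one matrix. -/
noncomputable def rk {k : ℕ} (φ : Fin k → ℝ) : Matrix (Fin k) (Fin k) ℝ :=
  Matrix.of fun i j => φ i * φ j

theorem gauss_decomp {k : ℕ} (K : Matrix (Fin k) (Fin k) ℝ) (hK : K.PosSemidef) (φ : Fin k → ℝ)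
    (hK' : (K - rk φ).PosSemidef) :
    multivariateGaussian 0 K
      = ((gaussianReal 0 1).prod (multivariateGaussian 0 (K - rk φ))).map
        (fun p => p.1 • (WithLp.toLp 2 φ : EuclideanSpace ℝ (Fin k)) + p.2) := by
  have mF : Measurable (fun p : ℝ × EuclideanSpace ℝ (Fin k) =>
      p.1 • (WithLp.toLp 2 φ : EuclideanSpace ℝ (Fin k)) + p.2) := by fun_prop
  have : IsProbabilityMeasure (((gaussianReal 0 1).prod (multivariateGaussian 0 (K - rk φ))).map
        (fun p => p.1 • (WithLp.toLp 2 φ : EuclideanSpace ℝ (Fin k)) + p.2)) :=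
    Measure.isProbabilityMeasure_map mF.aemeasurable
  apply Measure.ext_of_charFun
  funext u
  rw [charFun_multivariateGaussian hK, charFun_apply, integral_map mF.aemeasurable (by fun_prop)]
  have h1 : ∀ p : ℝ × EuclideanSpace ℝ (Fin k),
      Complex.exp (⟪p.1 • (WithLp.toLp 2 φ : EuclideanSpace ℝ (Fin k)) + p.2, u⟫ * Complex.I)
      = Complex.exp (⟪(WithLp.toLp 2 φ : EuclideanSpace ℝ (Fin k)), u⟫ * p.1 * Complex.I)
        * Complex.exp (⟪p.2, u⟫ * Complex.I) := by
    intro p
    rw [← Complex.exp_add]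
    congr 1
    rw [inner_add_left, inner_smul_left]
    push_cast
    simp
    ring
  simp_rw [h1]
  rw [integral_prod_mul (μ := gaussianReal 0 1) (ν := multivariateGaussian 0 (K - rk φ))
    (fun x : ℝ => Complex.exp (⟪(WithLp.toLp 2 φ : EuclideanSpace ℝ (Fin k)), u⟫ * x * Complex.I))
    (fun y => Complex.exp (⟪y, u⟫ * Complex.I))]
  have h2 : ∫ x : ℝ, Complex.exp (⟪(WithLp.toLp 2 φ : EuclideanSpace ℝ (Fin k)), u⟫ * x * Complex.I)
      ∂(gaussianReal 0 1) = charFun (gaussianReal 0 1)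
        (⟪(WithLp.toLp 2 φ : EuclideanSpace ℝ (Fin k)), u⟫) := by
    rw [charFun_apply_real]
  have h3 : ∫ y, Complex.exp (⟪y, u⟫ * Complex.I) ∂(multivariateGaussian 0 (K - rk φ))
      = charFun (multivariateGaussian 0 (K - rk φ)) u := by
    rw [charFun_apply]
  rw [h2, h3, charFun_multivariateGaussian hK', charFun_gaussianReal, ← Complex.exp_add]
  congr 1
  have h4 : (⟪(WithLp.toLp 2 φ : EuclideanSpace ℝ (Fin k)), u⟫ : ℝ) = ∑ i, φ i * u i := by
    rw [PiLp.inner_apply]
    apply Finset.sum_congr rfl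
    intro i _
    simp only [RCLike.inner_apply, conj_trivial]
    ring
  have h5 : u.ofLp ⬝ᵥ (K - rk φ).mulVec u.ofLp
      = u.ofLp ⬝ᵥ K.mulVec u.ofLp - (∑ i, φ i * u i) ^ 2 := by
    rw [Matrix.sub_mulVec, dotProduct_sub]
    congr 1
    simp only [dotProduct, Matrix.mulVec, rk, Matrix.of_apply]
    rw [sq, Finset.sum_mul_sum]
    apply Finset.sum_congr rfl
    intro i _
    rw [Finset.mul_sum]
    apply Finset.sum_congr rfl
    intro j _
    ring
  rw [h5, h4]
  simp only [inner_zero_right]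
  push_cast
  ring

theorem gauss_density (h : ℝ) : gaussianReal h 1
    = (gaussianReal 0 1).withDensity (fun x => ENNReal.ofReal (Real.exp (h * x - h ^ 2 / 2))) := by
  rw [gaussianReal_of_var_ne_zero _ one_ne_zero, gaussianReal_of_var_ne_zero _ one_ne_zero]
  rw [← withDensity_mul _ (measurable_gaussianPDF 0 1) (by fun_prop)]
  congr 1
  funext x
  simp only [Pi.mul_apply]
  unfold gaussianPDF
  rw [← ENNReal.ofReal_mul (gaussianPDFReal_nonneg _ _ _)]
  congr 1
  unfold gaussianPDFReal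
  rw [mul_assoc (√(2 * Real.pi * ((1 : ℝ≥0) : ℝ)))⁻¹ (Real.exp _) (Real.exp _), ← Real.exp_add]
  congr 2
  simp
  ring

theorem lint_exp (h q : ℝ) : ∫⁻ x, ENNReal.ofReal (Real.exp (q * (h * x - h ^ 2 / 2)))
    ∂(gaussianReal 0 1) = ENNReal.ofReal (Real.exp (h ^ 2 * (q ^ 2 - q) / 2)) := by
  have h1 : ∀ x : ℝ, ENNReal.ofReal (Real.exp (q * (h * x - h ^ 2 / 2)))
      = ENNReal.ofReal (Real.exp (h ^ 2 * (q ^ 2 - q) / 2))
        * ENNReal.ofReal (Real.exp ((q * h) * x - (q * h) ^ 2 / 2)) := by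
    intro x
    rw [← ENNReal.ofReal_mul (Real.exp_pos _).le, ← Real.exp_add]
    congr 2
    ring
  simp_rw [h1]
  rw [lintegral_const_mul _ (by fun_prop)]
  have h2 : ∫⁻ x, ENNReal.ofReal (Real.exp ((q * h) * x - (q * h) ^ 2 / 2)) ∂(gaussianReal 0 1)
      = 1 := by
    have := gauss_density (q * h)
    have h3 : (gaussianReal (q * h) 1) Set.univ = 1 := measure_univ
    rw [this, withDensity_apply _ MeasurableSet.univ, Measure.restrict_univ] at h3
    exact h3
  rw [h2, mul_one]

/-- shift of the level for a Gaussian vector. -/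
theorem gauss_shift {k : ℕ} (K : Matrix (Fin k) (Fin k) ℝ) (hK : K.PosSemidef) (φ : Fin k → ℝ)
    (hK' : (K - rk φ).PosSemidef) (a ε h θ : ℝ) (hh : ∀ i, ε ≤ h * φ i) (h0 : 0 < θ) (h1 : θ < 1) :
    (multivariateGaussian 0 K).real {x | ∀ i, a - ε ≤ x i}
      ≤ ((multivariateGaussian 0 K).real {x | ∀ i, a ≤ x i}) ^ θ
        * Real.exp (h ^ 2 * θ / (2 * (1 - θ))) := by
  set ν := multivariateGaussian 0 (K - rk φ) with hν
  set F : ℝ × EuclideanSpace ℝ (Fin k) → EuclideanSpace ℝ (Fin k) := fun p =>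
      p.1 • (WithLp.toLp 2 φ : EuclideanSpace ℝ (Fin k)) + p.2 with hF
  have mF : Measurable F := by rw [hF]; fun_prop
  have mset : ∀ c : ℝ, MeasurableSet {x : EuclideanSpace ℝ (Fin k) | ∀ i, c ≤ x i} := by
    intro c
    have : {x : EuclideanSpace ℝ (Fin k) | ∀ i, c ≤ x i} = ⋂ i, {x | c ≤ x i} := by
      ext x; simp
    rw [this]
    apply MeasurableSet.iInter
    intro i
    exact measurableSet_le measurable_const (by fun_prop)
  have e0 : ∀ c : ℝ, (multivariateGaussian 0 K) {x | ∀ i, c ≤ x i}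
      = ((gaussianReal 0 1).prod ν) (F ⁻¹' {x | ∀ i, c ≤ x i}) := by
    intro c
    rw [gauss_decomp K hK φ hK', Measure.map_apply mF (mset c)]
  set A := F ⁻¹' {x | ∀ i, a ≤ x i} with hA
  have mA : MeasurableSet A := mF (mset a)
  have step1 : (multivariateGaussian 0 K) {x | ∀ i, a - ε ≤ x i}
      ≤ ((gaussianReal 0 1).prod ν) ((fun p => (p.1 + h, p.2)) ⁻¹' A) := by
    rw [e0]
    apply measure_mono
    intro p hp
    simp only [Set.mem_preimage, Set.mem_ofPred_eq, hA, hF] at hp ⊢
    intro i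
    have h2 := hp i
    simp only [PiLp.add_apply, PiLp.smul_apply, smul_eq_mul] at h2 ⊢
    have h3 := hh i
    nlinarith
  have step2 : ((gaussianReal 0 1).prod ν) ((fun p => (p.1 + h, p.2)) ⁻¹' A)
      = ∫⁻ p, A.indicator 1 p * ENNReal.ofReal (Real.exp (h * p.1 - h ^ 2 / 2))
        ∂((gaussianReal 0 1).prod ν) := by
    have m1 : Measurable (fun p : ℝ × EuclideanSpace ℝ (Fin k) => (p.1 + h, p.2)) := by fun_prop
    rw [← Measure.map_apply m1 mA]
    have h3 : ((gaussianReal 0 1).prod ν).map (fun p => (p.1 + h, p.2))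
        = (gaussianReal h 1).prod ν := by
      have h4 := Measure.map_prod_map (gaussianReal 0 1) ν (f := fun x : ℝ => x + h)
        (g := fun y => y) (by fun_prop) (by fun_prop)
      rw [gaussianReal_map_add_const, zero_add] at h4
      simp only [Measure.map_id'] at h4
      rw [h4]
      rfl
    rw [h3, gauss_density h, prod_withDensity_left (by fun_prop), withDensity_apply _ mA,
      ← lintegral_indicator mA]
    congr 1
    funext p
    by_cases hp : p ∈ A
    · simp [hp]
    · simp [hp]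
  have hpq : Real.HolderConjugate (1 / θ) (1 / (1 - θ)) := by
    rw [Real.holderConjugate_iff]
    refine ⟨?_, ?_⟩
    · rw [lt_div_iff₀ h0]; linarith
    · simp
  have step3 := ENNReal.lintegral_mul_le_Lp_mul_Lq ((gaussianReal 0 1).prod ν) hpq
    (f := A.indicator 1) (g := fun p => ENNReal.ofReal (Real.exp (h * p.1 - h ^ 2 / 2)))
    (measurable_one.indicator mA).aemeasurable (by fun_prop)
  have e1 : ∫⁻ p, (A.indicator 1 p : ℝ≥0∞) ^ (1 / θ) ∂((gaussianReal 0 1).prod ν)
      = ((gaussianReal 0 1).prod ν) A := by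
    have : ∀ p, (A.indicator 1 p : ℝ≥0∞) ^ (1 / θ) = A.indicator 1 p := by
      intro p
      by_cases hp : p ∈ A
      · simp [hp]
      · simp [hp, h0]
    simp_rw [this]
    rw [lintegral_indicator_one mA]
  have e2 : ∫⁻ p : ℝ × EuclideanSpace ℝ (Fin k),
      (ENNReal.ofReal (Real.exp (h * p.1 - h ^ 2 / 2))) ^ (1 / (1 - θ))
        ∂((gaussianReal 0 1).prod ν)
      = ENNReal.ofReal (Real.exp (h ^ 2 * ((1 / (1 - θ)) ^ 2 - (1 / (1 - θ))) / 2)) := by
    rw [← lint_exp h (1 / (1 - θ))]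
    rw [lintegral_prod _ (by fun_prop)]
    apply lintegral_congr
    intro x
    simp only [lintegral_const, measure_univ, mul_one]
    rw [ENNReal.ofReal_rpow_of_pos (Real.exp_pos _), ← Real.exp_mul]
    congr 2
    ring
  rw [e1, e2] at step3
  have fin : (multivariateGaussian 0 K) {x | ∀ i, a - ε ≤ x i}
      ≤ ((multivariateGaussian 0 K) {x | ∀ i, a ≤ x i}) ^ θ
        * ENNReal.ofReal (Real.exp (h ^ 2 * θ / (2 * (1 - θ)))) := by
    rw [e0 a]
    refine step1.trans ?_
    rw [step2]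
    refine (le_of_eq ?_).trans (step3.trans (le_of_eq ?_))
    · rfl
    · congr 1
      · rw [one_div_one_div]
      · rw [ENNReal.ofReal_rpow_of_pos (Real.exp_pos _), ← Real.exp_mul]
        congr 2
        have : (1 - θ) ≠ 0 := by linarith
        field_simp
        ring
  have := ENNReal.toReal_mono (ENNReal.mul_ne_top
    (ENNReal.rpow_ne_top_of_nonneg h0.le (measure_ne_top _ _)) ENNReal.ofReal_ne_top) fin
  rw [ENNReal.toReal_mul, ← ENNReal.toReal_rpow, ENNReal.toReal_ofReal (Real.exp_pos _).le] at this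
  exact this

theorem psd_sub_rk {k : ℕ} (K : Matrix (Fin k) (Fin k) ℝ) (hK : K.PosSemidef)
    (s : ℝ) (hs : s = ∑ i, ∑ j, K i j) (hs0 : 0 < s) :
    (K - rk fun i => (∑ j, K i j) / √s).PosSemidef := by
  have hsymm : ∀ i j, K j i = K i j := by
    intro i j
    have := congrFun (congrFun hK.1 i) j
    rwa [Matrix.conjTranspose_apply, star_trivial] at this
  apply Matrix.PosSemidef.of_dotProduct_mulVec_nonneg
  · ext i j
    rw [Matrix.conjTranspose_apply, star_trivial]
    simp only [Matrix.sub_apply, rk, Matrix.of_apply]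
    rw [hsymm]
    ring
  · intro u
    set c := (∑ i, u i * ∑ j, K i j) / s with hc
    have h1 := hK.dotProduct_mulVec_nonneg (fun i => u i - c)
    have h2 : star (fun i => u i - c) ⬝ᵥ K.mulVec (fun i => u i - c)
        = (∑ i, ∑ j, u i * u j * K i j) - 2 * c * (∑ i, u i * ∑ j, K i j) + c ^ 2 * s := by
      simp only [dotProduct, Matrix.mulVec, Pi.star_apply, star_trivial]
      have e1 : ∑ i, (u i - c) * ∑ j, K i j * (u j - c)
          = ∑ i, ∑ j, (u i * u j * K i j - c * (u i * K i j) - c * (u j * K i j) + c ^ 2 * K i j) := by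
        apply Finset.sum_congr rfl
        intro i _
        rw [Finset.mul_sum]
        apply Finset.sum_congr rfl
        intro j _
        ring
      rw [e1]
      simp only [Finset.sum_add_distrib, Finset.sum_sub_distrib]
      have e2 : ∑ i, ∑ j, c * (u j * K i j) = ∑ i, ∑ j, c * (u i * K i j) := by
        rw [Finset.sum_comm]
        apply Finset.sum_congr rfl
        intro i _
        apply Finset.sum_congr rfl
        intro j _
        rw [hsymm]
      rw [e2, hs]
      simp only [Finset.mul_sum]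
      have e3 : ∑ i, ∑ j, 2 * c * (u i * K i j)
          = ∑ i, ∑ j, c * (u i * K i j) + ∑ i, ∑ j, c * (u i * K i j) := by
        rw [← Finset.sum_add_distrib]
        apply Finset.sum_congr rfl
        intro i _
        rw [← Finset.sum_add_distrib]
        apply Finset.sum_congr rfl
        intro j _
        ring
      rw [e3]
      ring
    rw [h2] at h1
    have h3 : star u ⬝ᵥ (K - rk fun i => (∑ j, K i j) / √s).mulVec u
        = (∑ i, ∑ j, u i * u j * K i j) - (∑ i, u i * ∑ j, K i j) ^ 2 / s := by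
      have hsq : √s * √s = s := Real.mul_self_sqrt hs0.le
      have hne : √s ≠ 0 := (Real.sqrt_pos.2 hs0).ne'
      simp only [dotProduct, Matrix.mulVec, Pi.star_apply, star_trivial, Matrix.sub_apply, rk,
        Matrix.of_apply]
      have e1 : (∑ i, u i * ∑ j, K i j) ^ 2 / s
          = ∑ i, ∑ j, u i * u j * ((∑ l, K i l) / √s * ((∑ l, K j l) / √s)) := by
        rw [sq, Finset.sum_mul_sum, Finset.sum_div]
        apply Finset.sum_congr rfl
        intro i _
        rw [Finset.sum_div]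
        apply Finset.sum_congr rfl
        intro j _
        rw [div_mul_div_comm, hsq]
        ring
      rw [e1, ← Finset.sum_sub_distrib]
      apply Finset.sum_congr rfl
      intro i _
      rw [Finset.mul_sum, ← Finset.sum_sub_distrib]
      apply Finset.sum_congr rfl
      intro j _
      ring
    rw [h3]
    have h4 : (∑ i, u i * ∑ j, K i j) ^ 2 / s
        = 2 * c * (∑ i, u i * ∑ j, K i j) - c ^ 2 * s := by
      rw [hc]
      field_simp
      ring
    rw [h4]
    linarith

theorem rho_nonneg (t : ℝ) : 0 ≤ rho t := by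
  unfold rho
  positivity

theorem rho_ge_half {t : ℝ} (ht : |t| ≤ 1) : 1 / 2 ≤ rho t := by
  unfold rho
  have h1 : Real.exp (-(1 / 2)) ≤ Real.exp (-(|t| / 2)) := Real.exp_le_exp.2 (by linarith)
  have h2 : (1 / 2 : ℝ) ≤ Real.exp (-(1 / 2)) := by
    have := Real.add_one_le_exp (-(1 / 2) : ℝ)
    linarith
  have h3 : 0 ≤ |t| := abs_nonneg t
  nlinarith [Real.exp_pos (-(|t| / 2))]

theorem rho_le (t : ℝ) : rho t ≤ 2 * Real.exp (-(|t| / 4)) := by
  unfold rho
  have h1 : 1 + |t| / 2 ≤ 2 * Real.exp (|t| / 4) := by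
    have := Real.add_one_le_exp (|t| / 4)
    linarith [abs_nonneg t]
  calc (1 + |t| / 2) * Real.exp (-(|t| / 2))
      ≤ 2 * Real.exp (|t| / 4) * Real.exp (-(|t| / 2)) :=
        mul_le_mul_of_nonneg_right h1 (Real.exp_pos _).le
    _ = 2 * Real.exp (-(|t| / 4)) := by
        rw [mul_assoc, ← Real.exp_add]
        congr 2
        ring

theorem geom_two_sided (r : ℝ) (h0 : 0 ≤ r) (h1 : r < 1) (n i : ℕ) :
    ∑ j ∈ Finset.range n, r ^ (Nat.dist i j) ≤ 2 / (1 - r) := by
  have hfin : ∀ T : Finset ℕ, ∑ k ∈ T, r ^ k ≤ 1 / (1 - r) := by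
    intro T
    have := (summable_geometric_of_lt_one h0 h1).sum_le_tsum T (fun k _ => pow_nonneg h0 k)
    rwa [tsum_geometric_of_lt_one h0 h1, ← one_div] at this
  have hsub : Finset.range n ⊆ (Finset.range n).filter (· ≤ i) ∪ (Finset.range n).filter (i ≤ ·) := by
    intro j hj
    simp only [Finset.mem_union, Finset.mem_filter]
    rcases le_total j i with h | h
    · exact Or.inl ⟨hj, h⟩
    · exact Or.inr ⟨hj, h⟩
  have key : ∀ (T : Finset ℕ), Set.InjOn (Nat.dist i) T →
      ∑ j ∈ T, r ^ (Nat.dist i j) ≤ 1 / (1 - r) := by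
    intro T hT
    rw [← Finset.sum_image (f := fun k => r ^ k) (g := fun j => Nat.dist i j) hT]
    exact hfin _
  have a1 : ∑ j ∈ (Finset.range n).filter (· ≤ i), r ^ (Nat.dist i j) ≤ 1 / (1 - r) := by
    apply key
    intro x hx y hy hxy
    simp only [Finset.coe_filter, Set.mem_ofPred_eq] at hx hy
    unfold Nat.dist at hxy
    omega
  have a2 : ∑ j ∈ (Finset.range n).filter (i ≤ ·), r ^ (Nat.dist i j) ≤ 1 / (1 - r) := by
    apply key
    intro x hx y hy hxy
    simp only [Finset.coe_filter, Set.mem_ofPred_eq] at hx hy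
    unfold Nat.dist at hxy
    omega
  calc ∑ j ∈ Finset.range n, r ^ (Nat.dist i j)
      ≤ ∑ j ∈ (Finset.range n).filter (· ≤ i) ∪ (Finset.range n).filter (i ≤ ·),
          r ^ (Nat.dist i j) :=
        Finset.sum_le_sum_of_subset_of_nonneg hsub fun _ _ _ => pow_nonneg h0 _
    _ ≤ ∑ j ∈ (Finset.range n).filter (· ≤ i), r ^ (Nat.dist i j)
        + ∑ j ∈ (Finset.range n).filter (i ≤ ·), r ^ (Nat.dist i j) := by
        rw [← Finset.sum_union_inter]
        exact le_add_of_nonneg_right (Finset.sum_nonneg fun _ _ => pow_nonneg h0 _)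
    _ ≤ 2 / (1 - r) := by
        have : 2 / (1 - r) = 1 / (1 - r) + 1 / (1 - r) := by ring
        rw [this]
        exact add_le_add a1 a2

theorem row_upper {m l : ℕ} (hm : 1 ≤ m) (i : Fin (l * m + 1)) :
    ∑ j, covGrid m l i j ≤ 20 * m := by
  have hm' : (1 : ℝ) ≤ m := by exact_mod_cast hm
  have hmpos : (0 : ℝ) < m := by linarith
  set r := Real.exp (-(1 / (4 * (m : ℝ)))) with hr
  have hr0 : 0 ≤ r := (Real.exp_pos _).le
  have hr1 : r < 1 := by
    rw [hr, Real.exp_lt_one_iff]
    have : 0 < 1 / (4 * (m : ℝ)) := by positivity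
    linarith
  have h1 : ∀ j : Fin (l * m + 1), covGrid m l i j ≤ 2 * r ^ (Nat.dist i j) := by
    intro j
    simp only [covGrid, Matrix.of_apply]
    refine (rho_le _).trans (le_of_eq ?_)
    rw [hr, ← Real.exp_nat_mul]
    congr 2
    have h2 : ((Nat.dist (i : ℕ) (j : ℕ) : ℕ) : ℝ) = |(i : ℝ) - (j : ℝ)| := by
      unfold Nat.dist
      rcases le_total (i : ℕ) (j : ℕ) with h | h
      · have h' : ((i : ℕ) : ℝ) ≤ ((j : ℕ) : ℝ) := by exact_mod_cast h
        rw [Nat.sub_eq_zero_of_le h, zero_add, Nat.cast_sub h, abs_of_nonpos (by linarith)]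
        ring
      · have h' : ((j : ℕ) : ℝ) ≤ ((i : ℕ) : ℝ) := by exact_mod_cast h
        rw [Nat.sub_eq_zero_of_le h, add_zero, Nat.cast_sub h, abs_of_nonneg (by linarith)]
    rw [h2, abs_div, abs_of_pos hmpos]
    field_simp
  calc ∑ j, covGrid m l i j ≤ ∑ j : Fin (l * m + 1), 2 * r ^ (Nat.dist i j) :=
        Finset.sum_le_sum fun j _ => h1 j
    _ = 2 * ∑ j ∈ Finset.range (l * m + 1), r ^ (Nat.dist i j) := by
        rw [← Finset.mul_sum, Finset.sum_range]
    _ ≤ 2 * (2 / (1 - r)) := by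
        apply mul_le_mul_of_nonneg_left (geom_two_sided r hr0 hr1 _ _) (by norm_num)
    _ ≤ 20 * m := by
        have h3 : 1 / (1 + 4 * (m : ℝ)) ≤ 1 - r := by
          have h4 : r ≤ 1 / (1 + 1 / (4 * (m : ℝ))) := by
            rw [hr, Real.exp_neg, ← one_div]
            apply one_div_le_one_div_of_le (by positivity)
            have := Real.add_one_le_exp (1 / (4 * (m : ℝ)))
            linarith
          have h5 : 1 / (1 + 1 / (4 * (m : ℝ))) = 1 - 1 / (1 + 4 * (m : ℝ)) := by
            field_simp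
            ring
          linarith
        have h6 : 0 < 1 / (1 + 4 * (m : ℝ)) := by positivity
        calc 2 * (2 / (1 - r)) = 4 * (1 / (1 - r)) := by ring
          _ ≤ 4 * (1 / (1 / (1 + 4 * (m : ℝ)))) := by
              apply mul_le_mul_of_nonneg_left _ (by norm_num)
              exact one_div_le_one_div_of_le h6 h3
          _ = 4 * (1 + 4 * m) := by rw [one_div_one_div]
          _ ≤ 20 * m := by linarith

theorem row_lower {m l : ℕ} (hm : 1 ≤ m) (hl : 1 ≤ l) (i : Fin (l * m + 1)) :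
    (m : ℝ) / 2 ≤ ∑ j, covGrid m l i j := by
  have hm' : (1 : ℝ) ≤ m := by exact_mod_cast hm
  have hmpos : (0 : ℝ) < m := by linarith
  have hlm : m ≤ l * m := Nat.le_mul_of_pos_left m hl
  have hi := i.2
  set f : ℕ → ℝ := fun j => rho (((i : ℝ) - (j : ℝ)) / (m : ℝ)) with hf
  have h0 : ∑ j, covGrid m l i j = ∑ j ∈ Finset.range (l * m + 1), f j := by
    rw [Finset.sum_range]
    rfl
  rw [h0]
  set a := (i : ℕ) - m with ha
  have hsub : Finset.Ico a (a + m) ⊆ Finset.range (l * m + 1) := by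
    intro j hj
    simp only [Finset.mem_Ico] at hj
    simp only [Finset.mem_range]
    omega
  calc (m : ℝ) / 2 = ∑ j ∈ Finset.Ico a (a + m), (1 / 2 : ℝ) := by
        rw [Finset.sum_const, Nat.card_Ico]
        simp
        ring
    _ ≤ ∑ j ∈ Finset.Ico a (a + m), f j := by
        apply Finset.sum_le_sum
        intro j hj
        simp only [Finset.mem_Ico] at hj
        apply rho_ge_half
        rw [abs_div, abs_of_pos hmpos, div_le_one hmpos, abs_le]
        constructor
        · have : j ≤ (i : ℕ) + m := by omega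
          have : (j : ℝ) ≤ (i : ℝ) + m := by exact_mod_cast this
          linarith
        · have : (i : ℕ) ≤ j + m := by omega
          have : (i : ℝ) ≤ (j : ℝ) + m := by exact_mod_cast this
          linarith
    _ ≤ _ := Finset.sum_le_sum_of_subset_of_nonneg hsub fun _ _ _ => rho_nonneg _

/-- orthant probability at level `a`. -/
noncomputable def gam (m l : ℕ) (a : ℝ) : ℝ :=
  (multivariateGaussian 0 (covGrid m l)).real {x | ∀ i, a ≤ x i}

theorem gam_zero (m l : ℕ) : gam m l 0 = persGrid m l := rfl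

theorem gam_shift {m l : ℕ} (hm : 1 ≤ m) (hl : 1 ≤ l) (hK : (covGrid m l).PosSemidef)
    (a ε θ : ℝ) (hε : 0 ≤ ε) (h0 : 0 < θ) (h1 : θ < 1) :
    gam m l (a - ε) ≤ (gam m l a) ^ θ * Real.exp (80 * l * ε ^ 2 * θ / (1 - θ)) := by
  have hm' : (1 : ℝ) ≤ m := by exact_mod_cast hm
  have hmpos : (0 : ℝ) < m := by linarith
  have hl' : (1 : ℝ) ≤ l := by exact_mod_cast hl
  set s := ∑ i, ∑ j, covGrid m l i j with hs
  have hs0 : 0 < s := by
    rw [hs]
    apply Finset.sum_pos _ ⟨0, Finset.mem_univ _⟩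
    intro i _
    have := row_lower hm hl i
    linarith
  have hs1 : s ≤ 40 * l * m ^ 2 := by
    calc s ≤ ∑ _i : Fin (l * m + 1), 20 * (m : ℝ) := Finset.sum_le_sum fun i _ => row_upper hm i
      _ = (l * m + 1) * (20 * m) := by simp
      _ ≤ 40 * l * m ^ 2 := by nlinarith [mul_le_mul hl' hm' (by norm_num) (by linarith)]
  set φ : Fin (l * m + 1) → ℝ := fun i => (∑ j, covGrid m l i j) / √s with hφ
  have hφ1 : ∀ i, 1 / √(160 * (l : ℝ)) ≤ φ i := by
    intro i
    have e1 : √s ≤ √(160 * (l : ℝ)) * (m / 2) := by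
      apply Real.sqrt_le_left (by positivity) |>.2
      · rw [mul_pow, Real.sq_sqrt (by positivity)]
        refine hs1.trans (le_of_eq ?_)
        ring
    have e2 : 0 < √s := Real.sqrt_pos.2 hs0
    have e3 : 0 < √(160 * (l : ℝ)) := Real.sqrt_pos.2 (by positivity)
    rw [hφ]
    dsimp only
    rw [div_le_div_iff₀ e3 e2, one_mul]
    refine e1.trans ?_
    rw [mul_comm]
    exact mul_le_mul_of_nonneg_right (row_lower hm hl i) e3.le
  have e3 : 0 < √(160 * (l : ℝ)) := Real.sqrt_pos.2 (by positivity)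
  have key := gauss_shift (covGrid m l) hK φ (psd_sub_rk _ hK s rfl hs0) a ε (ε * √(160 * (l : ℝ)))
    θ ?_ h0 h1
  · unfold gam
    refine key.trans (le_of_eq ?_)
    congr 2
    rw [mul_pow, Real.sq_sqrt (by positivity)]
    have : (1 - θ) ≠ 0 := by linarith
    field_simp
    ring
  · intro i
    have h2 := mul_le_mul_of_nonneg_left (hφ1 i) (mul_nonneg hε e3.le)
    rw [mul_assoc, mul_one_div_cancel e3.ne', mul_one] at h2
    exact h2

end Pool.Agent.Helper95.Dom
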