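import Mathlib

/-!
Geometric distributions, parametrised by their mean.
-/

namespace Pool.Agent.Helper95.Dom

open MeasureTheory ProbabilityTheory Filter Complex

/-- weights of the geometric law with mean `max μ 0`. -/
noncomputable def gw (μ : ℝ) (k : ℕ) : ℝ := (1 + max μ 0)⁻¹ * (max μ 0 / (1 + max μ 0)) ^ k

theorem gw_nonneg (μ : ℝ) (k : ℕ) : 0 ≤ gw μ k := by
  unfold gw
  have : 0 ≤ max μ 0 := le_max_right _ _
  positivity

theorem gw_eq {μ : ℝ} (hμ : 0 ≤ μ) (k : ℕ) : gw μ k = (1 + μ)⁻¹ * (μ / (1 + μ)) ^ k := by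
  unfold gw
  rw [max_eq_left hμ]

theorem ratio_lt {μ : ℝ} (hμ : 0 ≤ μ) : μ / (1 + μ) < 1 := by
  rw [div_lt_one (by linarith)]; linarith

theorem ratio_nonneg {μ : ℝ} (hμ : 0 ≤ μ) : 0 ≤ μ / (1 + μ) := by positivity

theorem gw_hasSum (μ : ℝ) : HasSum (gw μ) 1 := by
  have h0 : 0 ≤ max μ 0 := le_max_right _ _
  have h1 := (hasSum_geometric_of_lt_one (ratio_nonneg h0) (ratio_lt h0)).mul_left (1 + max μ 0)⁻¹
  have h2 : (1 + max μ 0)⁻¹ * (1 - max μ 0 / (1 + max μ 0))⁻¹ = 1 := by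
    have : (1 + max μ 0) ≠ 0 := by positivity
    field_simp
    simp
  rw [h2] at h1
  exact h1

/-- geometric law. -/
noncomputable def geo (μ : ℝ) : Measure ℕ :=
  Measure.sum (fun k => ENNReal.ofReal (gw μ k) • Measure.dirac k)

instance (μ : ℝ) : IsProbabilityMeasure (geo μ) :=
  (gw_hasSum μ).isProbabilityMeasure_sum_dirac (gw_nonneg μ)

theorem geo_singleton (μ : ℝ) (k : ℕ) : geo μ {k} = ENNReal.ofReal (gw μ k) := by
  unfold geo
  rw [Measure.sum_smul_dirac_singleton]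

section Integral

variable {E : Type*} [NormedAddCommGroup E] {f : ℕ → E}

theorem integrable_geo_iff (μ : ℝ) :
    Integrable f (geo μ) ↔ Summable (fun n => gw μ n * ‖f n‖) := by
  unfold geo
  rw [integrable_sum_dirac_iff (by simp)]
  congrm Summable (fun n => ?_ * _)
  rw [ENNReal.toReal_ofReal (gw_nonneg μ n)]

variable [NormedSpace ℝ E]

theorem integral_geo [FiniteDimensional ℝ E] (μ : ℝ) (f : ℕ → E) :
    ∫ n, f n ∂geo μ = ∑' n : ℕ, (gw μ n) • f n := by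
  unfold geo
  rw [integral_sum_dirac (by simp)]
  congr with n
  rw [ENNReal.toReal_ofReal (gw_nonneg μ n)]

end Integral

/-! ### moments -/

theorem hasSum_mean {μ : ℝ} (hμ : 0 ≤ μ) : HasSum (fun k : ℕ => gw μ k * (k : ℝ)) μ := by
  have ha := ratio_lt hμ
  have ha0 := ratio_nonneg hμ
  have h := hasSum_coe_mul_geometric_of_norm_lt_one (𝕜 := ℝ) (r := μ / (1 + μ))
    (by rw [Real.norm_eq_abs, abs_of_nonneg ha0]; exact ha)
  have h1 := h.mul_left (1 + μ)⁻¹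
  have h2 : (1 + μ)⁻¹ * (μ / (1 + μ) / (1 - μ / (1 + μ)) ^ 2) = μ := by
    have : (1 + μ) ≠ 0 := by positivity
    field_simp
    simp
  rw [h2] at h1
  refine h1.congr_fun ?_ |>.congr_fun (fun _ => rfl)
  intro k
  rw [gw_eq hμ]; ring

theorem one_sub_ratio {μ : ℝ} (hμ : 0 ≤ μ) : 1 - μ / (1 + μ) = (1 + μ)⁻¹ := by
  have : (1 + μ) ≠ 0 := by positivity
  field_simp
  ring

theorem hasSum_second {μ : ℝ} (hμ : 0 ≤ μ) :
    HasSum (fun k : ℕ => gw μ k * (k : ℝ) ^ 2) (2 * μ ^ 2 + μ) := by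
  have ha := ratio_lt hμ
  have ha0 := ratio_nonneg hμ
  have hn : ‖μ / (1 + μ)‖ < 1 := by rw [Real.norm_eq_abs, abs_of_nonneg ha0]; exact ha
  have h := hasSum_choose_mul_geometric_of_norm_lt_one (𝕜 := ℝ) 2 (r := μ / (1 + μ)) hn
  have h1 := h.mul_left (2 * (1 + μ)⁻¹)
  have h2 := (gw_hasSum μ)
  have h3 := hasSum_mean hμ
  have h4 := (h1.sub (h3.mul_left 3)).sub (h2.mul_left 2)
  have h5 : 2 * (1 + μ)⁻¹ * (1 / (1 - μ / (1 + μ)) ^ (2 + 1)) - 3 * μ - 2 * 1 = 2 * μ ^ 2 + μ := by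
    have : (1 + μ) ≠ 0 := by positivity
    rw [one_sub_ratio hμ, inv_pow, one_div, inv_inv]
    field_simp
    ring
  rw [h5] at h4
  refine h4.congr_fun ?_ |>.congr_fun (fun _ => rfl)
  intro k
  rw [gw_eq hμ]
  have hc : ((Nat.choose (k + 2) 2 : ℕ) : ℝ) = ((k : ℝ) + 1) * ((k : ℝ) + 2) / 2 := by
    rw [Nat.cast_choose_two]
    push_cast
    ring
  rw [hc]
  ring

/-! ### generating functions -/

theorem hasSum_gen {μ : ℝ} (hμ : 0 ≤ μ) (z : ℂ) (hz : ‖z‖ * μ < 1 + μ) :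
    HasSum (fun k : ℕ => (gw μ k : ℂ) * z ^ k) (1 / (1 + μ - μ * z)) := by
  have h1 : ‖(μ / (1 + μ) : ℂ) * z‖ < 1 := by
    rw [norm_mul]
    have : (μ / (1 + μ) : ℂ) = ((μ / (1 + μ) : ℝ) : ℂ) := by push_cast; ring
    rw [this, Complex.norm_real, Real.norm_eq_abs, abs_of_nonneg (ratio_nonneg hμ)]
    rw [div_mul_eq_mul_div, div_lt_one (by linarith)]
    linarith [mul_comm μ ‖z‖]
  have h := (hasSum_geometric_of_norm_lt_one h1).mul_left ((1 + μ : ℂ)⁻¹)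
  have hne : (1 + μ : ℂ) ≠ 0 := by
    have : ((1 + μ : ℝ) : ℂ) ≠ 0 := by
      rw [Complex.ofReal_ne_zero]; positivity
    push_cast at this
    exact this
  have h2 : (1 + μ : ℂ)⁻¹ * (1 - μ / (1 + μ) * z)⁻¹ = 1 / (1 + μ - μ * z) := by
    rw [← mul_inv, one_div]
    congr 1
    field_simp
  rw [h2] at h
  refine h.congr_fun ?_ |>.congr_fun (fun _ => rfl)
  intro k
  rw [gw_eq hμ]
  push_cast
  rw [mul_pow, mul_assoc]

theorem integrable_pow {μ : ℝ} (hμ : 0 ≤ μ) (z : ℂ) (hz : ‖z‖ * μ < 1 + μ) :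
    Integrable (fun k : ℕ => z ^ k) (geo μ) := by
  rw [integrable_geo_iff]
  have h := (hasSum_gen hμ ((‖z‖ : ℝ) : ℂ) (by simpa using hz)).summable.norm
  refine h.congr ?_
  intro k
  rw [norm_mul, norm_pow, Complex.norm_real, Complex.norm_real, Real.norm_eq_abs,
    abs_of_nonneg (gw_nonneg μ k), norm_norm, norm_pow]

theorem integral_pow {μ : ℝ} (hμ : 0 ≤ μ) (z : ℂ) (hz : ‖z‖ * μ < 1 + μ) :
    ∫ k : ℕ, z ^ k ∂geo μ = 1 / (1 + μ - μ * z) := by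
  rw [integral_geo]
  have h := (hasSum_gen hμ z hz).tsum_eq
  rw [← h]
  apply tsum_congr
  intro k
  rw [Complex.real_smul]

theorem integral_cexp {μ : ℝ} (hμ : 0 ≤ μ) (t : ℝ) :
    ∫ k : ℕ, Complex.exp (t * k * I) ∂geo μ = 1 / (1 + μ - μ * Complex.exp (t * I)) := by
  rw [← integral_pow hμ (Complex.exp (t * I)) (by
    rw [Complex.norm_exp_ofReal_mul_I]; linarith)]
  congr 1
  funext k
  rw [← Complex.exp_nat_mul]
  congr 1
  ring

theorem integrable_rexp {μ : ℝ} (hμ : 0 ≤ μ) (t : ℝ) (ht : μ * Real.exp t < 1 + μ) :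
    Integrable (fun k : ℕ => Real.exp (t * k)) (geo μ) := by
  have h := (integrable_pow hμ ((Real.exp t : ℝ) : ℂ) (by
    rw [Complex.norm_real, Real.norm_eq_abs, abs_of_pos (Real.exp_pos _)]; linarith)).norm
  refine h.congr (Eventually.of_forall fun k => ?_)
  show ‖((Real.exp t : ℝ) : ℂ) ^ k‖ = _
  rw [norm_pow, Complex.norm_real, Real.norm_eq_abs, abs_of_pos (Real.exp_pos _), ← Real.exp_nat_mul,
    mul_comm]

theorem integral_rexp {μ : ℝ} (hμ : 0 ≤ μ) (t : ℝ) (ht : μ * Real.exp t < 1 + μ) :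
    ∫ k : ℕ, Real.exp (t * k) ∂geo μ = 1 / (1 + μ - μ * Real.exp t) := by
  have h := integral_pow hμ ((Real.exp t : ℝ) : ℂ) (by
    rw [Complex.norm_real, Real.norm_eq_abs, abs_of_pos (Real.exp_pos _)]; linarith)
  have h2 : ∫ k : ℕ, ((Real.exp t : ℝ) : ℂ) ^ k ∂geo μ
      = ((∫ k : ℕ, Real.exp (t * k) ∂geo μ : ℝ) : ℂ) := by
    rw [← integral_complex_ofReal]
    congr 1
    funext k
    rw [mul_comm, Real.exp_nat_mul]
    push_cast
    ring
  rw [h2] at h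
  have h3 : (1 / (1 + μ - μ * ((Real.exp t : ℝ) : ℂ)) : ℂ)
      = ((1 / (1 + μ - μ * Real.exp t) : ℝ) : ℂ) := by push_cast; ring
  rw [h3] at h
  exact_mod_cast h

/-! ### mean and variance -/

theorem integrable_id' {μ : ℝ} (hμ : 0 ≤ μ) : Integrable (fun k : ℕ => (k : ℝ)) (geo μ) := by
  rw [integrable_geo_iff]
  refine (hasSum_mean hμ).summable.congr ?_
  intro k
  rw [Real.norm_eq_abs, abs_of_nonneg (Nat.cast_nonneg k)]

theorem integrable_sq {μ : ℝ} (hμ : 0 ≤ μ) : Integrable (fun k : ℕ => (k : ℝ) ^ 2) (geo μ) := by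
  rw [integrable_geo_iff]
  refine (hasSum_second hμ).summable.congr ?_
  intro k
  rw [Real.norm_eq_abs, abs_of_nonneg (by positivity)]

theorem integral_mean {μ : ℝ} (hμ : 0 ≤ μ) : ∫ k : ℕ, (k : ℝ) ∂geo μ = μ := by
  rw [integral_geo]
  exact (hasSum_mean hμ).tsum_eq

theorem integral_sq {μ : ℝ} (hμ : 0 ≤ μ) : ∫ k : ℕ, (k : ℝ) ^ 2 ∂geo μ = 2 * μ ^ 2 + μ := by
  rw [integral_geo]
  exact (hasSum_second hμ).tsum_eq

theorem integral_var {μ : ℝ} (hμ : 0 ≤ μ) :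
    ∫ k : ℕ, ((k : ℝ) - μ) ^ 2 ∂geo μ = μ * (1 + μ) := by
  have h1 : (fun k : ℕ => ((k : ℝ) - μ) ^ 2)
      = fun k : ℕ => ((k : ℝ) ^ 2 - 2 * μ * (k : ℝ)) + μ ^ 2 := by
    funext k; ring
  have e0 : Integrable (fun k : ℕ => 2 * μ * (k : ℝ)) (geo μ) := (integrable_id' hμ).const_mul _
  have e1 : Integrable (fun k : ℕ => (k : ℝ) ^ 2 - 2 * μ * (k : ℝ)) (geo μ) :=
    (integrable_sq hμ).sub e0
  rw [h1, integral_add e1 (integrable_const _), integral_sub (integrable_sq hμ) e0,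
    integral_const_mul, integral_sq hμ, integral_mean hμ]
  simp
  ring

theorem memLp_two {μ : ℝ} (hμ : 0 ≤ μ) : MemLp (fun k : ℕ => (k : ℝ)) 2 (geo μ) := by
  rw [memLp_two_iff_integrable_sq (by fun_prop)]
  exact integrable_sq hμ

end Pool.Agent.Helper95.Dom
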