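import Pool.Agent.Helper95.DomSys

/-!
The Harris (FKG) inequality for product measures.
-/

namespace Pool.Agent.Helper95.Dom

open MeasureTheory ProbabilityTheory Filter

theorem integrable_bdd {α : Type*} [MeasurableSpace α] [Countable α] [MeasurableSingletonClass α]
    (ν : Measure α) [IsProbabilityMeasure ν] (f : α → ℝ) (C : ℝ) (hC : ∀ x, |f x| ≤ C) :
    Integrable f ν := by
  refine Integrable.of_bound (measurable_of_countable f).aestronglyMeasurable C ?_
  exact Eventually.of_forall fun x => by rw [Real.norm_eq_abs]; exact hC x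

theorem cheb {α : Type*} [MeasurableSpace α] [Countable α] [MeasurableSingletonClass α]
    (ν : Measure α) [IsProbabilityMeasure ν] (F G : α → ℝ) (C : ℝ)
    (hF : ∀ x, |F x| ≤ C) (hG : ∀ x, |G x| ≤ C)
    (h : ∀ x y, 0 ≤ (F x - F y) * (G x - G y)) :
    (∫ x, F x ∂ν) * (∫ x, G x ∂ν) ≤ ∫ x, F x * G x ∂ν := by
  have iF := integrable_bdd ν F C hF
  have iG := integrable_bdd ν G C hG
  have iFG := integrable_bdd ν (fun x => F x * G x) (C * C) (fun x => by
    rw [abs_mul]
    exact mul_le_mul (hF x) (hG x) (abs_nonneg _) (le_trans (abs_nonneg _) (hF x)))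
  have h1 : ∀ x, 0 ≤ F x * G x - F x * (∫ y, G y ∂ν) - G x * (∫ y, F y ∂ν)
      + ∫ y, F y * G y ∂ν := by
    intro x
    have h2 : 0 ≤ ∫ y, (F x - F y) * (G x - G y) ∂ν := integral_nonneg (fun y => h x y)
    have h3 : (fun y => (F x - F y) * (G x - G y))
        = fun y => ((F x * G x - F x * G y) - G x * F y) + F y * G y := by
      funext y; ring
    have e1 : Integrable (fun y => F x * G x - F x * G y) ν :=
      (integrable_const _).sub (iG.const_mul _)
    have e2 : Integrable (fun y => G x * F y) ν := iF.const_mul _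
    have e3 : Integrable (fun y => (F x * G x - F x * G y) - G x * F y) ν := e1.sub e2
    have c1 : ∫ y, F x * G y ∂ν = F x * ∫ y, G y ∂ν := integral_const_mul _ _
    have c2 : ∫ y, G x * F y ∂ν = G x * ∫ y, F y ∂ν := integral_const_mul _ _
    rw [h3, integral_add e3 iFG, integral_sub e1 e2, integral_sub (integrable_const _)
      (iG.const_mul _), c1, c2] at h2
    simpa using h2
  have h4 : 0 ≤ ∫ x, (F x * G x - F x * (∫ y, G y ∂ν) - G x * (∫ y, F y ∂ν)
      + ∫ y, F y * G y ∂ν) ∂ν := integral_nonneg h1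
  have e1 : Integrable (fun x => F x * (∫ y, G y ∂ν)) ν := iF.mul_const _
  have e2 : Integrable (fun x => G x * (∫ y, F y ∂ν)) ν := iG.mul_const _
  have e3 : Integrable (fun x => F x * G x - F x * (∫ y, G y ∂ν)) ν := iFG.sub e1
  have e4 : Integrable (fun x => F x * G x - F x * (∫ y, G y ∂ν) - G x * (∫ y, F y ∂ν)) ν :=
    e3.sub e2
  rw [integral_add e4 (integrable_const _), integral_sub e3 e2, integral_sub iFG e1,
    integral_mul_const, integral_mul_const] at h4
  simp only [integral_const, probReal_univ, smul_eq_mul, one_mul] at h4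
  nlinarith [h4]

theorem harris_fin (n : ℕ) (ν : Fin n → Measure ℤ) [∀ i, IsProbabilityMeasure (ν i)]
    (f g : (Fin n → ℤ) → ℝ) (hf : Monotone f) (hg : Monotone g) (C : ℝ)
    (bf : ∀ x, |f x| ≤ C) (bg : ∀ x, |g x| ≤ C) :
    (∫ x, f x ∂Measure.pi ν) * (∫ x, g x ∂Measure.pi ν) ≤ ∫ x, f x * g x ∂Measure.pi ν := by
  induction n with
  | zero =>
    have h0 : ∀ h : (Fin 0 → ℤ) → ℝ, ∫ x, h x ∂Measure.pi ν = h (fun i => i.elim0) := by
      intro h
      have : h = fun _ => h (fun i => i.elim0) := by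
        funext x
        congr 1
        funext i
        exact i.elim0
      rw [this]
      simp
    rw [h0, h0, h0]
  | succ n ih =>
    have mp := measurePreserving_piFinSuccAbove ν 0
    have key : ∀ h : (Fin (n + 1) → ℤ) → ℝ, (∀ x, |h x| ≤ C ∨ |h x| ≤ C * C) →
        ∫ x, h x ∂Measure.pi ν
          = ∫ y, ∫ z, h (Fin.cons y z) ∂(Measure.pi fun j => ν (Fin.succ j)) ∂(ν 0) := by
      intro h hb
      have h1 := mp.symm.integral_comp' (g := h)
      rw [← h1]
      have e1 : ∀ (x : ℤ) (y : Fin n → ℤ),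
          (MeasurableEquiv.piFinSuccAbove (fun _ : Fin (n + 1) => ℤ) 0).symm (x, y)
            = Fin.cons x y := by
        intro x y
        exact Fin.insertNth_zero' x y
      have e2 : (fun j => ν (Fin.succAbove 0 j)) = fun j => ν (Fin.succ j) := by
        funext j
        rw [Fin.zero_succAbove]
      rw [integral_prod]
      · simp only [e1]
        rw [e2]
      · apply integrable_bdd _ _ (max C (C * C))
        intro x
        rcases hb ((MeasurableEquiv.piFinSuccAbove (fun _ => ℤ) 0).symm x) with h2 | h2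
        · exact h2.trans (le_max_left _ _)
        · exact h2.trans (le_max_right _ _)
    have hC : ∀ x, |f x * g x| ≤ C * C := by
      intro x
      rw [abs_mul]
      exact mul_le_mul (bf x) (bg x) (abs_nonneg _) (le_trans (abs_nonneg _) (bf x))
    rw [key f (fun x => Or.inl (bf x)), key g (fun x => Or.inl (bg x)),
      key (fun x => f x * g x) (fun x => Or.inr (hC x))]
    set π := Measure.pi fun j : Fin n => ν (Fin.succ j) with hπ
    have ih' := fun y : ℤ => ih (fun j => ν (Fin.succ j)) (fun z => f (Fin.cons y z))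
      (fun z => g (Fin.cons y z))
      (fun a b hab => hf (by
        intro i
        refine Fin.cases ?_ (fun j => ?_) i
        · simp
        · simpa using hab j))
      (fun a b hab => hg (by
        intro i
        refine Fin.cases ?_ (fun j => ?_) i
        · simp
        · simpa using hab j))
      (fun x => bf _) (fun x => bg _)
    have bF : ∀ (h : (Fin (n + 1) → ℤ) → ℝ) (D : ℝ), (∀ x, |h x| ≤ D) →
        ∀ y, |∫ z, h (Fin.cons y z) ∂π| ≤ D := by
      intro h D hD y
      have := norm_integral_le_of_norm_le_const (μ := π) (f := fun z => h (Fin.cons y z)) (C := D)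
        (Eventually.of_forall fun z => by rw [Real.norm_eq_abs]; exact hD _)
      rw [Real.norm_eq_abs] at this
      simpa using this
    have mF : ∀ (h : (Fin (n + 1) → ℤ) → ℝ), Monotone h → (∀ x, |h x| ≤ C) →
        Monotone (fun y : ℤ => ∫ z, h (Fin.cons y z) ∂π) := by
      intro h hm hb y y' hy
      apply integral_mono (integrable_bdd π _ C fun z => hb _) (integrable_bdd π _ C fun z => hb _)
      intro z
      apply hm
      intro i
      refine Fin.cases ?_ (fun j => ?_) i
      · simpa using hy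
      · simp
    have h5 := cheb (ν 0) (fun y => ∫ z, f (Fin.cons y z) ∂π) (fun y => ∫ z, g (Fin.cons y z) ∂π) C
      (bF f C bf) (bF g C bg) (by
        intro x y
        have m1 := mF f hf bf
        have m2 := mF g hg bg
        rcases le_total x y with h | h
        · exact mul_nonneg_of_nonpos_of_nonpos (sub_nonpos.2 (m1 h)) (sub_nonpos.2 (m2 h))
        · exact mul_nonneg (sub_nonneg.2 (m1 h)) (sub_nonneg.2 (m2 h)))
    refine h5.trans ?_
    apply integral_mono
    · apply integrable_bdd _ _ (C * C)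
      intro y
      rw [abs_mul]
      exact mul_le_mul (bF f C bf y) (bF g C bg y) (abs_nonneg _)
        (le_trans (abs_nonneg _) (bF f C bf y))
    · apply integrable_bdd _ _ (C * C)
      exact bF (fun x => f x * g x) (C * C) hC
    · intro y
      exact ih' y

theorem harris_pi {ι : Type*} [Fintype ι] (ν : ι → Measure ℤ) [∀ i, IsProbabilityMeasure (ν i)]
    (f g : (ι → ℤ) → ℝ) (hf : Monotone f) (hg : Monotone g) (C : ℝ)
    (bf : ∀ x, |f x| ≤ C) (bg : ∀ x, |g x| ≤ C) :
    (∫ x, f x ∂Measure.pi ν) * (∫ x, g x ∂Measure.pi ν) ≤ ∫ x, f x * g x ∂Measure.pi ν := by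
  classical
  let e := (Fintype.equivFin ι).symm
  have mp := measurePreserving_piCongrLeft ν e
  have key : ∀ h : (ι → ℤ) → ℝ, ∫ x, h x ∂Measure.pi ν
      = ∫ y, h (MeasurableEquiv.piCongrLeft (fun _ => ℤ) e y) ∂(Measure.pi fun i => ν (e i)) := by
    intro h
    exact (mp.integral_comp' (g := h)).symm
  rw [key f, key g, key (fun x => f x * g x)]
  have mono : Monotone (fun y : (Fin (Fintype.card ι)) → ℤ =>
      (MeasurableEquiv.piCongrLeft (fun _ => ℤ) e y : ι → ℤ)) := by
    intro a b hab i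
    obtain ⟨j, rfl⟩ := e.surjective i
    have h1 : ∀ y : Fin (Fintype.card ι) → ℤ,
        (MeasurableEquiv.piCongrLeft (fun _ : ι => ℤ) e y) (e j) = y j := by
      intro y
      exact Equiv.piCongrLeft_apply_apply (P := fun _ : ι => ℤ) e y j
    dsimp only
    rw [h1, h1]
    exact hab j
  exact harris_fin _ (fun i => ν (e i)) _ _ (hf.comp mono) (hg.comp mono) C (fun _ => bf _)
    (fun _ => bg _)

/-- integer difference. -/
def xz (s : ℕ) (ω : Om) : ℤ := ((ω s).1 : ℤ) - ((ω s).2 : ℤ)

theorem xs_eq (s : ℕ) (ω : Om) : xs s ω = (xz s ω : ℝ) := by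
  unfold xs xz ma mb
  push_cast
  ring

theorem xs_le_iff (s : ℕ) (ω ω' : Om) : xs s ω ≤ xs s ω' ↔ xz s ω ≤ xz s ω' := by
  rw [xs_eq, xs_eq, Int.cast_le]

/-- an event that is increasing in the differences `x_s`, `s ∈ I`, and depends only on them. -/
def Inc (I : Finset ℕ) (A : Set Om) : Prop :=
  ∀ ω ∈ A, ∀ ω', (∀ s ∈ I, xs s ω ≤ xs s ω') → ω' ∈ A

theorem Inc.dep {I : Finset ℕ} {A : Set Om} (h : Inc I A) (ω ω' : Om)
    (hh : ∀ s ∈ I, ω s = ω' s) : ω ∈ A ↔ ω' ∈ A := by
  have h1 : ∀ s ∈ I, xs s ω = xs s ω' := by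
    intro s hs
    unfold xs ma mb
    rw [hh s hs]
  exact ⟨fun ha => h ω ha ω' fun s hs => (h1 s hs).le, fun ha => h ω' ha ω fun s hs => (h1 s hs).ge⟩

theorem Inc.meas {I : Finset ℕ} {A : Set Om} (h : Inc I A) : MeasurableSet A :=
  measSet_of_dep I h.dep

theorem Inc.mono {I J : Finset ℕ} (hIJ : I ⊆ J) {A : Set Om} (h : Inc I A) : Inc J A :=
  fun ω hω ω' hh => h ω hω ω' fun s hs => hh s (hIJ hs)

theorem Inc.inter {I : Finset ℕ} {A B : Set Om} (hA : Inc I A) (hB : Inc I B) : Inc I (A ∩ B) :=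
  fun ω hω ω' hh => ⟨hA ω hω.1 ω' hh, hB ω hω.2 ω' hh⟩

theorem harris (μ μ' : ℕ → ℝ) {I : Finset ℕ} {A B : Set Om} (hA : Inc I A) (hB : Inc I B) :
    (PP μ μ').real A * (PP μ μ').real B ≤ (PP μ μ').real (A ∩ B) := by
  classical
  -- the law of the differences
  have hind : iIndepFun (fun (i : ↥I) ω => xz i ω) (PP μ μ') := by
    have h1 := (indep_coord μ μ').comp (fun _ (p : ℕ × ℕ) => ((p.1 : ℤ) - (p.2 : ℤ) : ℤ))
      (fun _ => measurable_of_countable _)
    exact h1.precomp (g := fun i : ↥I => (i : ℕ)) Subtype.val_injective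
  have mx : ∀ i : ↥I, Measurable (xz i) := by
    intro i
    have : xz i = (fun p : ℕ × ℕ => ((p.1 : ℤ) - (p.2 : ℤ) : ℤ)) ∘ (fun ω : Om => ω i) := rfl
    rw [this]
    exact (measurable_of_countable _).comp (measurable_pi_apply _)
  have hmap := hind.map_fun_eq_pi_map (fun i => (mx i).aemeasurable)
  have hpm : ∀ i : ↥I, IsProbabilityMeasure ((PP μ μ').map (xz i)) := fun i =>
    Measure.isProbabilityMeasure_map (mx i).aemeasurable
  -- represent events
  have rep : ∀ D : Set Om, Inc I D → ∃ f : (↥I → ℤ) → ℝ, Monotone f ∧ (∀ x, |f x| ≤ 1) ∧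
      (∀ ω, f (fun i => xz i ω) = D.indicator (fun _ => (1 : ℝ)) ω) := by
    intro D hD
    refine ⟨fun y => if ∃ ω ∈ D, ∀ i : ↥I, xz i ω ≤ y i then 1 else 0, ?_, ?_, ?_⟩
    · intro a b hab
      dsimp only
      by_cases h : ∃ ω ∈ D, ∀ i : ↥I, xz i ω ≤ a i
      · obtain ⟨ω, h1, h2⟩ := h
        rw [if_pos ⟨ω, h1, h2⟩, if_pos ⟨ω, h1, fun i => (h2 i).trans (hab i)⟩]
      · rw [if_neg h]
        split_ifs <;> norm_num
    · intro x
      dsimp only
      split_ifs <;> simp
    · intro ω
      dsimp only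
      by_cases hω : ω ∈ D
      · rw [if_pos ⟨ω, hω, fun i => le_rfl⟩, Set.indicator_of_mem hω]
      · rw [if_neg, Set.indicator_of_notMem hω]
        rintro ⟨ω', h1, h2⟩
        exact hω (hD ω' h1 ω fun s hs => (xs_le_iff s ω' ω).2 (h2 ⟨s, hs⟩))
  obtain ⟨f, f1, f2, f3⟩ := rep A hA
  obtain ⟨g, g1, g2, g3⟩ := rep B hB
  have h := harris_pi (fun i : ↥I => (PP μ μ').map (xz i)) f g f1 g1 1 f2 g2
  rw [← hmap] at h
  have mmap : Measurable (fun ω (i : ↥I) => xz i ω) := measurable_pi_lambda _ mx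
  rw [integral_map mmap.aemeasurable (measurable_of_countable _).aestronglyMeasurable,
    integral_map mmap.aemeasurable (measurable_of_countable _).aestronglyMeasurable,
    integral_map mmap.aemeasurable (measurable_of_countable _).aestronglyMeasurable] at h
  simp only [f3, g3] at h
  have hAB : (fun ω : Om => A.indicator (fun _ => (1 : ℝ)) ω * B.indicator (fun _ => (1 : ℝ)) ω)
      = (A ∩ B).indicator (fun _ => (1 : ℝ)) := by
    funext ω
    by_cases ha : ω ∈ A <;> by_cases hb : ω ∈ B <;> simp [ha, hb]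
  rw [hAB] at h
  rw [integral_indicator_const _ hA.meas, integral_indicator_const _ hB.meas,
    integral_indicator_const _ (hA.inter hB).meas] at h
  simpa using h

theorem harris_biInter (μ μ' : ℕ → ℝ) {I : Finset ℕ} {ι : Type*} (T : Finset ι) (A : ι → Set Om)
    (hA : ∀ i ∈ T, Inc I (A i)) :
    ∏ i ∈ T, (PP μ μ').real (A i) ≤ (PP μ μ').real (⋂ i ∈ T, A i) := by
  classical
  have key : Inc I (⋂ i ∈ T, A i) ∧
      ∏ i ∈ T, (PP μ μ').real (A i) ≤ (PP μ μ').real (⋂ i ∈ T, A i) := by
    induction T using Finset.induction_on with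
    | empty =>
      refine ⟨fun ω _ ω' _ => by simp, by simp⟩
    | insert a T ha ih =>
      have ih' := ih (fun i hi => hA i (Finset.mem_insert_of_mem hi))
      have hAa := hA a (Finset.mem_insert_self a T)
      rw [Finset.set_biInter_insert, Finset.prod_insert ha]
      refine ⟨hAa.inter ih'.1, ?_⟩
      refine le_trans ?_ (harris μ μ' hAa ih'.1)
      exact mul_le_mul_of_nonneg_left ih'.2 measureReal_nonneg
  exact key.2

end Pool.Agent.Helper95.Dom
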