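import Pool.Agent.Helper95.DomClt

/-!
A multivariate central limit theorem for linear sums.
-/

namespace Pool.Agent.Helper95.Dom

open MeasureTheory ProbabilityTheory Filter Complex
open scoped Topology RealInnerProductSpace

/-- vector of linear sums. -/
noncomputable def Zvec {k : ℕ} (I' : Finset ℕ) (c : Fin k → ℕ → ℝ) (ω : Om) :
    EuclideanSpace ℝ (Fin k) :=
  WithLp.toLp 2 (fun i => ∑ s ∈ I', c i s * xs s ω)

theorem Zvec_apply {k : ℕ} (I' : Finset ℕ) (c : Fin k → ℕ → ℝ) (ω : Om) (i : Fin k) :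
    Zvec I' c ω i = ∑ s ∈ I', c i s * xs s ω := rfl

theorem xs_dep (s : ℕ) (ω ω' : Om) (h : ω s = ω' s) : xs s ω = xs s ω' := by
  unfold xs ma mb; rw [h]

theorem meas_Zvec {k : ℕ} (I' : Finset ℕ) (c : Fin k → ℕ → ℝ) : Measurable (Zvec I' c) := by
  apply meas_of_dep I'
  intro ω ω' h
  unfold Zvec
  congr 1
  funext i
  exact Finset.sum_congr rfl fun s hs => by rw [xs_dep s ω ω' (h s hs)]

/-- law of the vector. -/
noncomputable def Zlaw {k : ℕ} (μ : ℕ → ℝ) (I' : Finset ℕ) (c : Fin k → ℕ → ℝ) :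
    ProbabilityMeasure (EuclideanSpace ℝ (Fin k)) :=
  ⟨(PP μ μ).map (Zvec I' c), Measure.isProbabilityMeasure_map (meas_Zvec I' c).aemeasurable⟩

/-- the centred Gaussian law with covariance `K`. -/
noncomputable def Glaw {k : ℕ} (K : Matrix (Fin k) (Fin k) ℝ) :
    ProbabilityMeasure (EuclideanSpace ℝ (Fin k)) :=
  ⟨multivariateGaussian 0 K, inferInstance⟩

theorem Glaw_coe {k : ℕ} (K : Matrix (Fin k) (Fin k) ℝ) :
    (Glaw K : Measure (EuclideanSpace ℝ (Fin k))) = multivariateGaussian 0 K := rfl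

theorem charFun_Zlaw {k : ℕ} {μ : ℕ → ℝ} (hμ : ∀ s, 0 ≤ μ s) (I' : Finset ℕ)
    (c : Fin k → ℕ → ℝ) (u : EuclideanSpace ℝ (Fin k)) :
    charFun (Zlaw μ I' c : Measure (EuclideanSpace ℝ (Fin k))) u
      = ((∏ s ∈ I', 1 / (1 + vv μ s * (1 - Real.cos (∑ i, u i * c i s))) : ℝ) : ℂ) := by
  rw [charFun_apply]
  show ∫ x, Complex.exp (⟪x, u⟫ * I) ∂((PP μ μ).map (Zvec I' c)) = _
  rw [integral_map (meas_Zvec I' c).aemeasurable (by fun_prop)]
  rw [← cexp_lin hμ I' (fun s => ∑ i, u i * c i s)]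
  congr 1
  funext ω
  congr 2
  rw [PiLp.inner_apply]
  simp only [Zvec_apply, RCLike.inner_apply, conj_trivial]
  congr 1
  simp only [Finset.mul_sum, Finset.sum_mul]
  rw [Finset.sum_comm]
  apply Finset.sum_congr rfl
  intro s _
  apply Finset.sum_congr rfl
  intro i _
  ring

theorem quad_expand {k : ℕ} (I' : Finset ℕ) (v : ℕ → ℝ) (c : Fin k → ℕ → ℝ) (u : Fin k → ℝ) :
    ∑ s ∈ I', v s * (∑ i, u i * c i s) ^ 2
      = ∑ i, ∑ j, u i * u j * ∑ s ∈ I', v s * (c i s * c j s) := by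
  have h1 : ∀ s, v s * (∑ i, u i * c i s) ^ 2
      = ∑ i, ∑ j, u i * u j * (v s * (c i s * c j s)) := by
    intro s
    rw [sq, Finset.sum_mul_sum, Finset.mul_sum]
    apply Finset.sum_congr rfl
    intro i _
    rw [Finset.mul_sum]
    apply Finset.sum_congr rfl
    intro j _
    ring
  simp_rw [h1]
  rw [Finset.sum_comm]
  apply Finset.sum_congr rfl
  intro i _
  rw [Finset.sum_comm]
  apply Finset.sum_congr rfl
  intro j _
  rw [Finset.mul_sum]

theorem quart_bound {k : ℕ} (c u : Fin k → ℝ) :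
    (∑ i, u i * c i) ^ 4 ≤ (∑ i, u i ^ 2) ^ 2 * (k * ∑ i, c i ^ 4) := by
  have h1 : (∑ i, u i * c i) ^ 2 ≤ (∑ i, u i ^ 2) * (∑ i, c i ^ 2) :=
    Finset.sum_mul_sq_le_sq_mul_sq _ _ _
  have h2 : (∑ i, c i ^ 2) ^ 2 ≤ k * ∑ i, c i ^ 4 := by
    have := sq_sum_le_card_mul_sum_sq (s := (Finset.univ : Finset (Fin k))) (f := fun i => c i ^ 2)
    simp only [Finset.card_univ, Fintype.card_fin] at this
    refine this.trans (le_of_eq ?_)
    congr 1
    apply Finset.sum_congr rfl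
    intro i _
    ring
  have h3 : (∑ i, u i * c i) ^ 4 = ((∑ i, u i * c i) ^ 2) ^ 2 := by ring
  rw [h3]
  have h4 : ((∑ i, u i * c i) ^ 2) ^ 2 ≤ ((∑ i, u i ^ 2) * (∑ i, c i ^ 2)) ^ 2 :=
    pow_le_pow_left₀ (sq_nonneg _) h1 2
  refine h4.trans ?_
  rw [mul_pow]
  exact mul_le_mul_of_nonneg_left h2 (sq_nonneg _)

theorem clt {k : ℕ} (μ : ℕ → ℕ → ℝ) (hμ : ∀ n s, 0 ≤ μ n s) (J : ℕ → Finset ℕ)
    (c : ℕ → Fin k → ℕ → ℝ) (K : Matrix (Fin k) (Fin k) ℝ)
    (H1 : ∀ i j, Tendsto (fun n => ∑ s ∈ J n, vv (μ n) s * (c n i s * c n j s)) atTop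
      (𝓝 (K i j)))
    (H2 : ∀ i, Tendsto (fun n => ∑ s ∈ J n, ((vv (μ n) s) ^ 2 + vv (μ n) s) * (c n i s) ^ 4) atTop
      (𝓝 0)) :
    K.PosSemidef ∧
    Tendsto (fun n => Zlaw (μ n) (J n) (c n)) atTop (𝓝 (Glaw K)) := by
  have hquad : ∀ u : Fin k → ℝ, Tendsto (fun n => ∑ s ∈ J n, vv (μ n) s * (∑ i, u i * c n i s) ^ 2)
      atTop (𝓝 (∑ i, ∑ j, u i * u j * K i j)) := by
    intro u
    simp_rw [quad_expand]
    apply tendsto_finsetSum
    intro i _
    apply tendsto_finsetSum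
    intro j _
    exact (H1 i j).const_mul _
  have hK : K.PosSemidef := by
    apply Matrix.PosSemidef.of_dotProduct_mulVec_nonneg
    · ext i j
      rw [Matrix.conjTranspose_apply, star_trivial]
      have h1 := H1 i j
      have h2 := H1 j i
      have h3 : (fun n => ∑ s ∈ J n, vv (μ n) s * (c n j s * c n i s))
          = fun n => ∑ s ∈ J n, vv (μ n) s * (c n i s * c n j s) := by
        funext n
        apply Finset.sum_congr rfl
        intro s _
        ring
      rw [h3] at h2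
      exact tendsto_nhds_unique h2 h1
    · intro u
      have h1 : star u ⬝ᵥ K.mulVec u = ∑ i, ∑ j, u i * u j * K i j := by
        simp only [dotProduct, Matrix.mulVec, Pi.star_apply, star_trivial]
        apply Finset.sum_congr rfl
        intro i _
        rw [Finset.mul_sum]
        apply Finset.sum_congr rfl
        intro j _
        ring
      rw [h1]
      apply ge_of_tendsto' (hquad u)
      intro n
      apply Finset.sum_nonneg
      intro s _
      exact mul_nonneg (vv_nonneg (hμ n) s) (sq_nonneg _)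
  refine ⟨hK, ?_⟩
  apply ProbabilityMeasure.tendsto_of_tendsto_charFun
  intro u
  have e1 : charFun (Glaw K : Measure (EuclideanSpace ℝ (Fin k))) u
      = ((Real.exp (-(∑ i, ∑ j, u i * u j * K i j) / 2) : ℝ) : ℂ) := by
    rw [Glaw_coe, charFun_multivariateGaussian hK]
    have h1 : (u.ofLp ⬝ᵥ K.mulVec u.ofLp) = ∑ i, ∑ j, u i * u j * K i j := by
      simp only [dotProduct, Matrix.mulVec]
      apply Finset.sum_congr rfl
      intro i _
      rw [Finset.mul_sum]
      apply Finset.sum_congr rfl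
      intro j _
      ring
    rw [h1, inner_zero_right]
    push_cast
    congr 1
    ring
  rw [e1]
  simp_rw [charFun_Zlaw (hμ _)]
  apply (Complex.continuous_ofReal.tendsto _).comp
  -- real statement
  have hB : Tendsto (fun n => Real.exp (-(∑ s ∈ J n, vv (μ n) s * (∑ i, u i * c n i s) ^ 2) / 2))
      atTop (𝓝 (Real.exp (-(∑ i, ∑ j, u i * u j * K i j) / 2))) := by
    apply (Real.continuous_exp.tendsto _).comp
    exact ((hquad u).neg).div_const 2
  have hD : Tendsto (fun n => ∏ s ∈ J n, 1 / (1 + vv (μ n) s * (1 - Real.cos (∑ i, u i * c n i s)))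
      - Real.exp (-(∑ s ∈ J n, vv (μ n) s * (∑ i, u i * c n i s) ^ 2) / 2)) atTop (𝓝 0) := by
    apply squeeze_zero_norm (a := fun n => (∑ i, u i ^ 2) ^ 2 * (k * ∑ i, ∑ s ∈ J n,
      ((vv (μ n) s) ^ 2 + vv (μ n) s) * (c n i s) ^ 4))
    · intro n
      rw [Real.norm_eq_abs]
      refine (prod_phi_est (J n) (vv (μ n)) (fun s => ∑ i, u i * c n i s)
        (fun s _ => vv_nonneg (hμ n) s)).trans ?_
      rw [Finset.sum_comm, Finset.mul_sum, Finset.mul_sum]
      apply Finset.sum_le_sum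
      intro s _
      have h1 := quart_bound (fun i => c n i s) (fun i => u i)
      have h2 : 0 ≤ (vv (μ n) s) ^ 2 + vv (μ n) s := by
        have := vv_nonneg (hμ n) s
        positivity
      calc ((vv (μ n) s) ^ 2 + vv (μ n) s) * (∑ i, u i * c n i s) ^ 4
          ≤ ((vv (μ n) s) ^ 2 + vv (μ n) s) * ((∑ i, u i ^ 2) ^ 2 * (k * ∑ i, c n i s ^ 4)) :=
            mul_le_mul_of_nonneg_left h1 h2
        _ = (∑ i, u i ^ 2) ^ 2 * (k * ∑ i, ((vv (μ n) s) ^ 2 + vv (μ n) s) * (c n i s) ^ 4) := by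
            rw [← Finset.mul_sum]; ring
    · have h1 : Tendsto (fun n => ∑ i, ∑ s ∈ J n,
          ((vv (μ n) s) ^ 2 + vv (μ n) s) * (c n i s) ^ 4) atTop (𝓝 (∑ i : Fin k, (0 : ℝ))) :=
        tendsto_finsetSum _ fun i _ => H2 i
      have h2 := (h1.const_mul (k : ℝ)).const_mul ((∑ i, u i ^ 2) ^ 2)
      simpa using h2
  have := hD.add hB
  simpa using this

/-- upper bound for closed sets. -/
theorem closed_le {k : ℕ} {ρ : ℕ → ProbabilityMeasure (EuclideanSpace ℝ (Fin k))}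
    {ρ0 : ProbabilityMeasure (EuclideanSpace ℝ (Fin k))} (h : Tendsto ρ atTop (𝓝 ρ0))
    {F : Set (EuclideanSpace ℝ (Fin k))} (hF : IsClosed F) {η : ℝ} (hη : 0 < η) :
    ∀ᶠ n in atTop, (ρ n : Measure (EuclideanSpace ℝ (Fin k))).real F
      ≤ (ρ0 : Measure (EuclideanSpace ℝ (Fin k))).real F + η := by
  have h1 := ProbabilityMeasure.limsup_measure_closed_le_of_tendsto h hF
  have h2 : limsup (fun n => (ρ n : Measure (EuclideanSpace ℝ (Fin k))) F) atTop
      < (ρ0 : Measure (EuclideanSpace ℝ (Fin k))) F + ENNReal.ofReal η := by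
    refine lt_of_le_of_lt h1 ?_
    exact ENNReal.lt_add_right (measure_ne_top _ _) (by simpa using hη)
  have h3 := eventually_lt_of_limsup_lt h2
  filter_upwards [h3] with n hn
  have h4 := ENNReal.toReal_mono (ENNReal.add_ne_top.2 ⟨measure_ne_top _ _, ENNReal.ofReal_ne_top⟩)
    hn.le
  rw [ENNReal.toReal_add (measure_ne_top _ _) ENNReal.ofReal_ne_top,
    ENNReal.toReal_ofReal hη.le] at h4
  exact h4

/-- lower bound for open sets. -/
theorem open_ge {k : ℕ} {ρ : ℕ → ProbabilityMeasure (EuclideanSpace ℝ (Fin k))}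
    {ρ0 : ProbabilityMeasure (EuclideanSpace ℝ (Fin k))} (h : Tendsto ρ atTop (𝓝 ρ0))
    {G : Set (EuclideanSpace ℝ (Fin k))} (hG : IsOpen G) {η : ℝ} (hη : 0 < η) :
    ∀ᶠ n in atTop, (ρ0 : Measure (EuclideanSpace ℝ (Fin k))).real G - η
      ≤ (ρ n : Measure (EuclideanSpace ℝ (Fin k))).real G := by
  have h1 := closed_le h hG.isClosed_compl hη
  filter_upwards [h1] with n hn
  rw [probReal_compl_eq_one_sub hG.measurableSet, probReal_compl_eq_one_sub hG.measurableSet] at hn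
  linarith

end Pool.Agent.Helper95.Dom
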