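import Pool.Agent.Helper95.DomContain

/-!
The lower bound for the probability of the relaxed comparability event.
-/

namespace Pool.Agent.Helper95.Dom

open MeasureTheory ProbabilityTheory Filter
open scoped Topology ENNReal

theorem Hev_dep (a lam k : ℝ) (N T S : ℕ) (ω ω' : Om) (h : ∀ s ∈ Finset.Ioc T S, ω s = ω' s) :
    ω ∈ Hev a lam k N T S ↔ ω' ∈ Hev a lam k N T S := by
  have e1 : ∀ t, T ≤ t → DA S t ω = DA S t ω' := fun t ht =>
    DA_dep S t ω ω' fun s hs => h s (Finset.Ioc_subset_Ioc_left ht hs)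
  have e2 : NS T S ω = NS T S ω' := NS_dep T S ω ω' h
  have e3 : ∀ c : ℕ → ℝ, ∑ s ∈ Finset.Ioc T S, c s * (ma s ω - mu a s)
      = ∑ s ∈ Finset.Ioc T S, c s * (ma s ω' - mu a s) := fun c =>
    Finset.sum_congr rfl fun s hs => by unfold ma; rw [h s hs]
  have e4 : ∀ c : ℕ → ℝ, ∑ s ∈ Finset.Ioc T S, c s * (mb s ω - mu a s)
      = ∑ s ∈ Finset.Ioc T S, c s * (mb s ω' - mu a s) := fun c =>
    Finset.sum_congr rfl fun s hs => by unfold mb; rw [h s hs]
  have e5 := e3 (fun _ => 1)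
  have e6 := e4 (fun _ => 1)
  simp only [one_mul] at e5 e6
  unfold Hev
  simp only [Set.mem_ofPred_eq]
  rw [e2, e5, e6, e3 (fun s => (s : ℝ)), e4 (fun s => (s : ℝ))]
  constructor
  · rintro ⟨h1, h2⟩
    exact ⟨fun t ht => by rw [← e1 t ht]; exact h1 t ht, h2⟩
  · rintro ⟨h1, h2⟩
    exact ⟨fun t ht => by rw [e1 t ht]; exact h1 t ht, h2⟩

theorem Lev_dep (a k : ℝ) (N T : ℕ) (ω ω' : Om) (h : ∀ s ∈ Finset.Icc 1 T, ω s = ω' s) :
    ω ∈ Lev a k N T ↔ ω' ∈ Lev a k N T := by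
  have e1 : ∀ t, GB T t ω = GB T t ω' := fun t => GB_dep T t ω ω' h
  have e3 : ∑ s ∈ Finset.Icc 1 T, (s : ℝ) * (ma s ω - mu a s)
      = ∑ s ∈ Finset.Icc 1 T, (s : ℝ) * (ma s ω' - mu a s) :=
    Finset.sum_congr rfl fun s hs => by unfold ma; rw [h s hs]
  have e4 : ∑ s ∈ Finset.Icc 1 T, (s : ℝ) * (mb s ω - mu a s)
      = ∑ s ∈ Finset.Icc 1 T, (s : ℝ) * (mb s ω' - mu a s) :=
    Finset.sum_congr rfl fun s hs => by unfold mb; rw [h s hs]
  unfold Lev
  simp only [Set.mem_ofPred_eq]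
  rw [e3, e4]
  constructor
  · rintro ⟨h1, h2⟩
    exact ⟨fun t ht => by rw [← e1 t]; exact h1 t ht, h2⟩
  · rintro ⟨h1, h2⟩
    exact ⟨fun t ht => by rw [e1 t]; exact h1 t ht, h2⟩

theorem EX_parts {a : ℝ} {n N TA TB : ℕ} (h1 : TB ≤ N) (h2 : 4 * N ≤ TA) (h3 : TA ≤ n) :
    EX a (Finset.Icc 1 n) = (EX a (outI n TA TB) + EX a (midI N TA TB))
      + EX a (Finset.Ioc N (2 * N)) := sum_parts h1 h2 h3 _

/-- sums over the middle block under the event. -/
theorem mid_value {a : ℝ} {N TA TB : ℕ} (hN : 1 ≤ N) (hTA : 4 * N ≤ TA) {g y x2 : ℝ} {I : ℕ}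
    {f : ℕ → ℝ} (hI : ∑ s ∈ midI N TA TB, (s : ℝ) * (f s - mu a s) = (I : ℝ) - EX a (midI N TA TB))
    (h : |∑ s ∈ midI N TA TB, (s : ℝ) * (f s - mu a s - drift N (al N g y) (be N g y) s)| ≤ x2) :
    |(I : ℝ) - EX a (midI N TA TB) + y| ≤ x2 := by
  have h1 : ∑ s ∈ midI N TA TB, (s : ℝ) * (f s - mu a s - drift N (al N g y) (be N g y) s)
      = (I : ℝ) - EX a (midI N TA TB) + y := by
    have h2 := sum_drift_weighted (TB := TB) hN hTA g y
    have h3 : ∑ s ∈ midI N TA TB, (s : ℝ) * (f s - mu a s - drift N (al N g y) (be N g y) s)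
        = ∑ s ∈ midI N TA TB, (s : ℝ) * (f s - mu a s)
          - ∑ s ∈ midI N TA TB, (s : ℝ) * drift N (al N g y) (be N g y) s := by
      rw [← Finset.sum_sub_distrib]
      apply Finset.sum_congr rfl
      intro s _
      ring
    rw [h3, h2, hI]
    ring
  rw [← h1]
  exact h

private theorem lc_1 {T e a N : ℝ} (h : T ≤ e * a) (he : e ≤ 1) (ha : 0 < a) (haN : a ≤ N) :
    T ≤ N := by
  nlinarith

private theorem lc_2 {a b N : ℝ} (ha : 1 ≤ a) (hb : 10 ≤ b) (hN : N ≤ a + 1) :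
    4 * N ≤ a * b := by
  nlinarith

private theorem lc_3 {T a b N : ℝ} (h : T ≤ a * b) (haN : a ≤ N) (hb : 10 ≤ b) : T ≤ b * N := by
  nlinarith

private theorem lc_4 {a n : ℝ} (h : a ^ 2 ≤ 6 * n) : a * (a / 6) ≤ n := by
  nlinarith

private theorem lc_5 {K N a : ℝ} (hK : 1 ≤ K) (h : N ≤ 2 * a) : 2 * K * N ≤ 4 * K * a := by
  nlinarith

private theorem lc_6 {K a N : ℝ} (hK : 1 ≤ K) (h : 24 * K + 4 * K ^ 2 ≤ a) (haN : a ≤ N) :
    (2 * K) ^ 2 ≤ N := by
  nlinarith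

private theorem lc_7 {K N r : ℝ} (hN : 0 < N) (h : 2 * K ≤ r) : 2 * K * N ≤ N * r := by
  nlinarith

theorem lower_core {δ k : ℝ} (hδ : 0 < δ) (hk : 0 < k) : ∃ (K1 : ℕ) (c a0 : ℝ), 1 ≤ K1 ∧ 0 < c ∧
    1 ≤ a0 ∧ ∀ (a : ℝ) (N n : ℕ), a0 ≤ a → a ≤ N → (N : ℝ) ≤ a + 1 →
      EX a (Finset.Icc 1 n) = n → a ^ 2 ≤ 6 * (n : ℝ) → 2 * K1 * N ≤ n ∧ 2 * N ≤ n ∧
      c / N * Real.exp (-((2 * (theta + δ) + 320000 * Real.exp 8 * k ^ 2) * Real.log a))
        ≤ (PA a).real (Qev n (n - 2 * K1 * N) (2 * K1 * N)) := by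
  obtain ⟨b, hb10, HH⟩ := hi_event hδ hk
  obtain ⟨e, he0, he1, cL, aL, hcL, haL, HL⟩ := lo_event hδ hk
  obtain ⟨C1, hC1, HM⟩ := mid_prob (b' := b) (e1 := e / 2) (by linarith) (by positivity)
  obtain ⟨cH, aH, hcH, haH, HH'⟩ := HH C1 (by linarith)
  obtain ⟨K1, cF, lam0, aF, hK1, hcF, hlam0, haF, HF⟩ := F_both (C1 + 1)
  obtain ⟨aS, haS, HS⟩ := exists_sqrt_log_le (show 0 < Real.exp (-8) / (200 * k) by positivity)
  refine ⟨K1, cH * cL * (1 / 4 * cF), max (max (max aL aH) (max aF aS))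
    (max (max (Real.exp (((2 * C1 + 2 * lam0) / (77 * k)) ^ 2)) (2 / e))
      (max (6 * b) (24 * K1 + 4 * K1 ^ 2))), hK1, by positivity,
    haL.trans ((le_max_left _ _).trans ((le_max_left _ _).trans (le_max_left _ _))), ?_⟩
  intro a N n ha haN hNa hEX hn6
  simp only [max_le_iff] at ha
  obtain ⟨⟨⟨hA1, hA2⟩, hA3, hA4⟩, ⟨hA5, hA6⟩, hA7, hA8⟩ := ha
  have ha1 : 1 ≤ a := haL.trans hA1
  have hpos : 0 < a := by linarith
  have hN0 : (0 : ℝ) < N := by linarith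
  have hN1 : 1 ≤ N := by exact_mod_cast hN0
  have hsN : 0 < √(N : ℝ) := Real.sqrt_pos.2 hN0
  have hsN2 : √(N : ℝ) ^ 2 = N := Real.sq_sqrt hN0.le
  have hlog0 : 0 ≤ Real.log a := Real.log_nonneg ha1
  have hK1' : (1 : ℝ) ≤ K1 := by exact_mod_cast hK1
  set Λ := √(Real.log a) with hΛ
  have hΛ2 : Λ ^ 2 = Real.log a := Real.sq_sqrt hlog0
  have hΛ0 : 0 ≤ Λ := Real.sqrt_nonneg _
  have hbig : 2 * C1 + 2 * lam0 ≤ 77 * (k * Λ) := by
    have h1 : ((2 * C1 + 2 * lam0) / (77 * k)) ^ 2 ≤ Real.log a :=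
      (Real.le_log_iff_exp_le hpos).2 hA5
    have h2 : (2 * C1 + 2 * lam0) / (77 * k) ≤ Λ := Real.le_sqrt_of_sq_le h1
    rw [div_le_iff₀ (by positivity)] at h2
    linarith
  set TA : ℕ := ⌊a * b⌋₊ with hTAdef
  set TB : ℕ := ⌊e * a⌋₊ with hTBdef
  have hTAle : (TA : ℝ) ≤ a * b := Nat.floor_le (by positivity)
  have hTBle : (TB : ℝ) ≤ e * a := Nat.floor_le (by positivity)
  have hTBgt : e * a < TB + 1 := Nat.lt_floor_add_one _
  have hea : 2 ≤ e * a := by rw [div_le_iff₀ he0] at hA6; linarith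
  have hTB1r : (1 : ℝ) ≤ TB := by linarith
  have hTB1 : 1 ≤ TB := by exact_mod_cast hTB1r
  have hTBN : TB ≤ N := by
    have : (TB : ℝ) ≤ N := lc_1 hTBle (by linarith) hpos haN
    exact_mod_cast this
  have hTBe : e / 2 * a ≤ TB := by linarith
  have h4N : 4 * N ≤ TA := by
    apply Nat.le_floor
    push_cast
    exact lc_2 ha1 hb10 hNa
  have hTAb : (TA : ℝ) ≤ b * N := lc_3 hTAle haN hb10
  have hna : a * (a / 6) ≤ (n : ℝ) := lc_4 hn6
  have hTAn : TA ≤ n := by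
    have h1 : a * b ≤ a * (a / 6) := mul_le_mul_of_nonneg_left (by linarith) hpos.le
    have : (TA : ℝ) ≤ n := by linarith
    exact_mod_cast this
  have hK1sq : (0 : ℝ) ≤ (K1 : ℝ) ^ 2 := by positivity
  have hKN : 2 * K1 * N ≤ n := by
    have h1 : (24 * K1 : ℝ) ≤ a := by linarith
    have h2 : (2 * K1 * N : ℝ) ≤ 4 * K1 * a := by
      have : (N : ℝ) ≤ 2 * a := by linarith
      exact lc_5 hK1' this
    have h3 : a * (4 * K1) ≤ a * (a / 6) := mul_le_mul_of_nonneg_left (by linarith) hpos.le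
    have : ((2 * K1 * N : ℕ) : ℝ) ≤ n := by push_cast; linarith
    exact_mod_cast this
  refine ⟨hKN, by omega, ?_⟩
  have h2K1 : 2 * (K1 : ℝ) ≤ √(N : ℝ) := by
    apply Real.le_sqrt_of_sq_le
    exact lc_6 hK1' hA8 haN
  set g : ℝ := 40 * (k * Λ) / √(N : ℝ) with hg
  have hg0 : 0 ≤ g := by positivity
  have hgabs : |g| = g := abs_of_nonneg hg0
  have hg5 : 5 * g ≤ Real.exp (-8) := by
    have h1 : 5 * g = 200 * k * Λ / √(N : ℝ) := by rw [hg]; ring
    rw [h1, div_le_iff₀ hsN]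
    have h2 := HS a hA4
    have h3 : Λ ≤ Real.exp (-8) / (200 * k) * √(N : ℝ) :=
      h2.trans (mul_le_mul_of_nonneg_left (Real.sqrt_le_sqrt haN) (by positivity))
    have h4 := mul_le_mul_of_nonneg_left h3 (show 0 ≤ 200 * k by positivity)
    refine h4.trans (le_of_eq ?_)
    field_simp
  have hgN2 : g / 20 * (N : ℝ) ^ 2 = 2 * (k * Λ) * (N * √N) := by
    have h1 : g * √(N : ℝ) = 40 * (k * Λ) := by rw [hg]; field_simp
    have h2 : g / 20 * (N : ℝ) ^ 2 = g * √(N : ℝ) * (√(N : ℝ)) * N / 20 := by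
      have : (N : ℝ) ^ 2 = √(N : ℝ) * √(N : ℝ) * N := by rw [← sq, hsN2]; ring
      rw [this]; ring
    rw [h2, h1]
    ring
  have hNη : (N : ℝ) * (5 * g) ^ 2 = 40000 * k ^ 2 * Real.log a := by
    rw [hg, ← hΛ2]
    have : (5 * (40 * (k * Λ) / √(N : ℝ))) ^ 2 = 40000 * k ^ 2 * Λ ^ 2 / N := by
      rw [mul_pow, div_pow, hsN2]; ring
    rw [this]
    field_simp
  -- the three levels
  set E1 : Set Om := Hev a C1 k N TA n ∩ Lev a k N TB with hE1
  have hE1dep : ∀ ω ω' : Om, (∀ s ∈ outI n TA TB, ω s = ω' s) → (ω ∈ E1 ↔ ω' ∈ E1) := by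
    intro ω ω' h
    rw [hE1, Set.mem_inter_iff, Set.mem_inter_iff,
      Hev_dep a C1 k N TA n ω ω' (fun s hs => h s (Finset.mem_union_right _ hs)),
      Lev_dep a k N TB ω ω' (fun s hs => h s (Finset.mem_union_left _ hs))]
  have hPE1 : cH * cL * Real.exp (-(2 * (theta + δ) * Real.log a)) ≤ (PA a).real E1 := by
    have h1 : (PA a).real E1 = (PA a).real (Hev a C1 k N TA n) * (PA a).real (Lev a k N TB) := by
      apply indep_sets (mu a) (mu a) (Finset.Ioc TA n) (Finset.Icc 1 TB) _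
        (Hev_dep a C1 k N TA n) (Lev_dep a k N TB)
      rw [Finset.disjoint_left]
      intro s hs hs'
      rw [Finset.mem_Ioc] at hs
      rw [Finset.mem_Icc] at hs'
      omega
    rw [h1]
    have h2 := HH' a N n hA2 haN hNa hn6
    have h3 := HL a N hA1 haN
    calc cH * cL * Real.exp (-(2 * (theta + δ) * Real.log a))
        = (cH * Real.exp (-((theta + δ) * Real.log a)))
          * (cL * Real.exp (-((theta + δ) * Real.log a))) := by
          have : Real.exp (-(2 * (theta + δ) * Real.log a))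
              = Real.exp (-((theta + δ) * Real.log a)) * Real.exp (-((theta + δ) * Real.log a)) := by
            rw [← Real.exp_add]; congr 1; ring
          rw [this]; ring
      _ ≤ _ := mul_le_mul h2 h3 (by positivity) measureReal_nonneg
  let yy : ℕ → ℝ := fun p => (p : ℝ) - EX a (outI n TA TB)
  let Mp : ℕ × ℕ → Set Om := fun p => Mev a N TA TB (al N g (yy p.1)) (be N g (yy p.1))
    (al N (-g) (yy p.2)) (be N (-g) (yy p.2)) (C1 * √N) (C1 * (N * √N))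
  let FF : ℕ × ℕ → ℕ × ℕ → Set Om := fun p q =>
    Fev1 a N K1 lam0 ((n : ℝ) - K1 * N - ((p.1 + q.1 : ℕ) : ℝ) - EX a (Finset.Ioc N (2 * N)))
    ∩ Fev2 a N K1 lam0 ((n : ℝ) - 2 * K1 * N - ((p.2 + q.2 : ℕ) : ℝ) - EX a (Finset.Ioc N (2 * N)))
  have hFFdep : ∀ p q, ∀ ω ω' : Om, (∀ s ∈ Finset.Ioc N (2 * N), ω s = ω' s) →
      (ω ∈ FF p q ↔ ω' ∈ FF p q) := by
    intro p q ω ω' h
    show _ ∧ _ ↔ _ ∧ _
    rw [Fev1_dep a N K1 lam0 _ ω ω' (fun s hs => by rw [h s hs]),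
      Fev2_dep a N K1 lam0 _ ω ω' (fun s hs => by rw [h s hs])]
  set c2 : ℝ := 1 / 4 * Real.exp (-(8 * Real.exp 8 * N * (5 * g) ^ 2)) * (cF / N) with hc2
  have hc20 : 0 ≤ c2 := by positivity
  have hinner : ∀ ω ∈ E1, c2 ≤ (PA a).real
      ((fun p : ℕ × ℕ => {ω' : Om | ω' ∈ Mp p
        ∧ ω' ∈ FF p (wa (midI N TA TB) ω', wb (midI N TA TB) ω')})
        (wa (outI n TA TB) ω, wb (outI n TA TB) ω)) := by
    intro ω hω
    set p : ℕ × ℕ := (wa (outI n TA TB) ω, wb (outI n TA TB) ω) with hp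
    obtain ⟨⟨H1, H2, H3, H4, H5, H6⟩, L1, L2, L3⟩ := hω
    have hyb : |yy p.1| ≤ g / 20 * (N : ℝ) ^ 2 := by
      show |(wa (outI n TA TB) ω : ℝ) - EX a (outI n TA TB)| ≤ _
      rw [← wa_centered, hgN2]
      exact out_small rfl (by omega) hk.le hΛ0 hpos.le haN H5 L2
    have hyb' : |yy p.2| ≤ g / 20 * (N : ℝ) ^ 2 := by
      show |(wb (outI n TA TB) ω : ℝ) - EX a (outI n TA TB)| ≤ _
      rw [← wb_centered, hgN2]
      exact out_small rfl (by omega) hk.le hΛ0 hpos.le haN H6 L3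
    have hal := al_bounds (g := g) (y := yy p.1) hN1 (by rw [hgabs]; exact hyb)
    have hal' := al_bounds (g := -g) (y := yy p.2) hN1 (by rw [abs_neg, hgabs]; exact hyb')
    rw [hgabs] at hal
    rw [abs_neg, hgabs] at hal'
    have hPM : 1 / 4 * Real.exp (-(8 * Real.exp 8 * N * (5 * g) ^ 2)) ≤ (PA a).real (Mp p) :=
      HM a (5 * g) N TA TB _ _ _ _ ha1 haN hNa hTB1 hTBe hTBN h4N hTAb (by linarith) hg5
        hal.1 hal.2 hal'.1 hal'.2
    have hkey := le_sum_values (mu a) (mu a) (midI N TA TB) (Finset.Ioc N (2 * N)) (by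
        rw [Finset.disjoint_left]
        intro s hs hs'
        unfold midI at hs
        rw [Finset.mem_union, Finset.mem_Ioc, Finset.mem_Ioc] at hs
        rw [Finset.mem_Ioc] at hs'
        omega)
      (fun ω' => (wa (midI N TA TB) ω', wb (midI N TA TB) ω'))
      (fun ω1 ω2 h => by rw [wa_dep _ ω1 ω2 h, wb_dep _ ω1 ω2 h])
      (E := Mp p) (fun ω1 ω2 h => Mev_dep a _ _ _ _ _ _ ω1 ω2 h)
      (FF p) (hFFdep p) (c := cF / N) (by positivity) (by
        intro ω' hω'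
        obtain ⟨-, -, M3, M4⟩ := hω'
        have hv1 := mid_value hN1 h4N (wa_centered a (midI N TA TB) ω') M3
        have hv2 := mid_value hN1 h4N (wb_centered a (midI N TA TB) ω') M4
        have hEXn := EX_parts (a := a) hTBN h4N hTAn
        rw [hEX] at hEXn
        have hNsN : 0 ≤ (N : ℝ) * √N := by positivity
        have hKN2 : 2 * (K1 : ℝ) * N ≤ N * √N := lc_7 hN0 h2K1
        have hKN0 : 0 ≤ (K1 : ℝ) * N := by positivity
        apply HF a N hA3 haN hNa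
        · have h1 : (n : ℝ) - K1 * N - ((p.1 + wa (midI N TA TB) ω' : ℕ) : ℝ)
              - EX a (Finset.Ioc N (2 * N))
              = -(K1 * N) - ((wa (midI N TA TB) ω' : ℝ) - EX a (midI N TA TB) + yy p.1) := by
            show _ = -(K1 * N : ℝ) - ((wa (midI N TA TB) ω' : ℝ) - EX a (midI N TA TB)
              + ((p.1 : ℝ) - EX a (outI n TA TB)))
            rw [hEXn]; push_cast; ring
          show |(n : ℝ) - K1 * N - ((p.1 + wa (midI N TA TB) ω' : ℕ) : ℝ)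
              - EX a (Finset.Ioc N (2 * N))| ≤ _
          rw [h1]
          refine (abs_sub _ _).trans ?_
          rw [abs_neg, abs_of_nonneg hKN0]
          linarith
        · have h1 : (n : ℝ) - 2 * K1 * N - ((p.2 + wb (midI N TA TB) ω' : ℕ) : ℝ)
              - EX a (Finset.Ioc N (2 * N))
              = -(2 * K1 * N) - ((wb (midI N TA TB) ω' : ℝ) - EX a (midI N TA TB) + yy p.2) := by
            show _ = -(2 * K1 * N : ℝ) - ((wb (midI N TA TB) ω' : ℝ) - EX a (midI N TA TB)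
              + ((p.2 : ℝ) - EX a (outI n TA TB)))
            rw [hEXn]; push_cast; ring
          show |(n : ℝ) - 2 * K1 * N - ((p.2 + wb (midI N TA TB) ω' : ℕ) : ℝ)
              - EX a (Finset.Ioc N (2 * N))| ≤ _
          rw [h1]
          refine (abs_sub _ _).trans ?_
          rw [abs_neg, abs_of_nonneg (by positivity)]
          linarith)
    refine le_trans ?_ hkey
    exact mul_le_mul_of_nonneg_right hPM (by positivity)
  have houter := le_sum_values (mu a) (mu a) (outI n TA TB) (midI N TA TB ∪ Finset.Ioc N (2 * N)) (by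
      rw [Finset.disjoint_left]
      intro s hs hs'
      unfold outI at hs
      unfold midI at hs'
      rw [Finset.mem_union, Finset.mem_Icc, Finset.mem_Ioc] at hs
      rw [Finset.mem_union, Finset.mem_union, Finset.mem_Ioc, Finset.mem_Ioc, Finset.mem_Ioc] at hs'
      omega)
    (fun ω' => (wa (outI n TA TB) ω', wb (outI n TA TB) ω'))
    (fun ω1 ω2 h => by rw [wa_dep _ ω1 ω2 h, wb_dep _ ω1 ω2 h])
    (E := E1) hE1dep
    (fun p : ℕ × ℕ => {ω' : Om | ω' ∈ Mp p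
        ∧ ω' ∈ FF p (wa (midI N TA TB) ω', wb (midI N TA TB) ω')})
    (by
      intro p ω1 ω2 h
      have h1 : ∀ s ∈ midI N TA TB, ω1 s = ω2 s := fun s hs => h s (Finset.mem_union_left _ hs)
      have h2 : ∀ s ∈ Finset.Ioc N (2 * N), ω1 s = ω2 s := fun s hs =>
        h s (Finset.mem_union_right _ hs)
      show _ ∧ _ ↔ _ ∧ _
      rw [wa_dep _ ω1 ω2 h1, wb_dep _ ω1 ω2 h1, hFFdep p _ ω1 ω2 h2]
      rw [show (ω1 ∈ Mp p ↔ ω2 ∈ Mp p) from Mev_dep a _ _ _ _ _ _ ω1 ω2 h1])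
    hc20 hinner
  have hsub : {ω | ω ∈ E1 ∧ ω ∈ (fun p : ℕ × ℕ => {ω' : Om | ω' ∈ Mp p
        ∧ ω' ∈ FF p (wa (midI N TA TB) ω', wb (midI N TA TB) ω')})
        (wa (outI n TA TB) ω, wb (outI n TA TB) ω)}
      ⊆ Qev n (n - 2 * K1 * N) (2 * K1 * N) := by
    rintro ω ⟨⟨hH, hL⟩, hM, hF⟩
    exact contain ha1 haN hk hTBN h4N hTAn (by linarith) hKN hbig ω hH hL hg rfl rfl hM hF.1 hF.2
  have hfin := houter.trans (measureReal_mono hsub (measure_ne_top _ _))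
  refine le_trans ?_ hfin
  have hexp : Real.exp (-((2 * (theta + δ) + 320000 * Real.exp 8 * k ^ 2) * Real.log a))
      = Real.exp (-(2 * (theta + δ) * Real.log a))
        * Real.exp (-(8 * Real.exp 8 * N * (5 * g) ^ 2)) := by
    rw [← Real.exp_add]
    congr 1
    have : 8 * Real.exp 8 * N * (5 * g) ^ 2 = 8 * Real.exp 8 * (40000 * k ^ 2 * Real.log a) := by
      rw [← hNη]; ring
    rw [this]
    ring
  rw [hexp, hc2]
  have h5 := mul_le_mul_of_nonneg_right hPE1 hc20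
  rw [hc2] at h5
  refine le_trans (le_of_eq ?_) h5
  ring

end Pool.Agent.Helper95.Dom
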