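import Pool.Agent.Helper95.DomLowCore
import Pool.Agent.Helper76.DomG1

/-!
The lower bound for the probability of comparability.
-/

namespace Pool.Agent.Helper95.Dom

open MeasureTheory ProbabilityTheory Filter
open scoped Topology ENNReal

theorem lower_final {δ : ℝ} (hδ : 0 < δ) : ∃ (c : ℝ) (n0 : ℕ), 0 < c ∧ ∀ n : ℕ, n0 ≤ n →
    c * Real.exp (-((theta + δ) * Real.log n)) ≤ r n := by
  have hθ := theta_nonneg
  set k : ℝ := √(δ / (640000 * Real.exp 8)) with hk
  have hk0 : 0 < k := Real.sqrt_pos.2 (by positivity)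
  have hk2 : 320000 * Real.exp 8 * k ^ 2 = δ / 2 := by
    rw [hk, Real.sq_sqrt (by positivity)]
    field_simp
    norm_num
  obtain ⟨K1, c, a0, hK1, hc, ha0, HL⟩ := lower_core (δ := δ / 4) (k := k) (by positivity) hk0
  obtain ⟨C, hC, HW⟩ := W_upper (2 * K1)
  refine ⟨c * Real.exp (-(20 * K1)) / C ^ 2 * Real.exp (-((theta + δ) * Real.log 6)),
    max 6 (⌈3 * a0 ^ 2⌉₊), by positivity, ?_⟩
  intro n hn
  have hn6 : 6 ≤ n := (le_max_left _ _).trans hn
  have hn3 : 3 * a0 ^ 2 ≤ (n : ℝ) := by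
    have h1 : ⌈3 * a0 ^ 2⌉₊ ≤ n := (le_max_right _ _).trans hn
    exact (Nat.le_ceil _).trans (by exact_mod_cast h1)
  obtain ⟨a, ha1, hna, han, hEX⟩ := exists_a hn6
  have haa0 : a0 ≤ a := by
    have h1 : a0 ^ 2 ≤ a ^ 2 := by linarith
    exact (sq_le_sq₀ (by linarith) (by linarith)).1 h1
  have hpos : 0 < a := by linarith
  set N : ℕ := ⌈a⌉₊ with hN
  have haN : a ≤ N := Nat.le_ceil a
  have hNa : (N : ℝ) ≤ a + 1 := (Nat.ceil_lt_add_one hpos.le).le
  have hN0 : (0 : ℝ) < N := by linarith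
  have hsN : 0 < √(N : ℝ) := Real.sqrt_pos.2 hN0
  have hsN2 : √(N : ℝ) ^ 2 = N := Real.sq_sqrt hN0.le
  obtain ⟨h1, h2, h3⟩ := HL a N n haa0 haN hNa hEX han
  have h4 := r_lower hpos (S := n) (n := n) (W := 2 * K1 * N) (by omega) le_rfl h1
  have h5 := HW a N n n ha1 haN hNa h2
  set p := (PA a).real {ω | n ≤ wa (Finset.Icc 1 n) ω ∧ wa (Finset.Icc 1 n) ω ≤ n + 2 * K1 * N}
    with hp
  have hp0 : 0 ≤ p := measureReal_nonneg
  have h6 : p ^ 2 ≤ C ^ 2 / N := by
    calc p ^ 2 ≤ (C / √N) ^ 2 := pow_le_pow_left₀ hp0 h5 2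
      _ = C ^ 2 / N := by rw [div_pow, hsN2]
  have hr0 : 0 ≤ r n := by unfold r; positivity
  have h7 : Real.exp (5 * ((2 * K1 * N : ℕ) : ℝ) / a) ≤ Real.exp (20 * K1) := by
    apply Real.exp_le_exp.2
    rw [div_le_iff₀ hpos]
    push_cast
    have : (N : ℝ) ≤ 2 * a := by linarith
    have hK : (0 : ℝ) ≤ K1 := Nat.cast_nonneg _
    nlinarith
  have h8 : (PA a).real (Qev n (n - 2 * K1 * N) (2 * K1 * N))
      ≤ Real.exp (20 * K1) * (r n * (C ^ 2 / N)) := by
    refine h4.trans (mul_le_mul h7 (mul_le_mul_of_nonneg_left h6 hr0) (by positivity) (by positivity))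
  have h9 := h3.trans h8
  set E : ℝ := 2 * (theta + δ / 4) + 320000 * Real.exp 8 * k ^ 2 with hE
  have hE2 : E = 2 * (theta + δ / 2) := by rw [hE, hk2]; ring
  -- compare the exponentials
  have hn0 : (0 : ℝ) < n := by exact_mod_cast (by omega : 0 < n)
  have hloga : 2 * Real.log a ≤ Real.log 6 + Real.log n := by
    have h10 : Real.log (a ^ 2) ≤ Real.log (6 * n) := Real.log_le_log (by positivity) han
    rw [Real.log_pow, Real.log_mul (by norm_num) hn0.ne'] at h10
    exact_mod_cast h10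
  have hlogn : 0 ≤ Real.log n := Real.log_nonneg (by exact_mod_cast (by omega : 1 ≤ n))
  have hlog6 : 0 ≤ Real.log 6 := Real.log_nonneg (by norm_num)
  have hexp : Real.exp (-((theta + δ) * Real.log 6)) * Real.exp (-((theta + δ) * Real.log n))
      ≤ Real.exp (-(E * Real.log a)) := by
    rw [← Real.exp_add]
    apply Real.exp_le_exp.2
    rw [hE2]
    have h11 : (theta + δ / 2) * (2 * Real.log a) ≤ (theta + δ / 2) * (Real.log 6 + Real.log n) :=
      mul_le_mul_of_nonneg_left hloga (by linarith)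
    have h12 : (theta + δ / 2) * (Real.log 6 + Real.log n)
        ≤ (theta + δ) * (Real.log 6 + Real.log n) :=
      mul_le_mul_of_nonneg_right (by linarith) (by linarith)
    linarith
  have h13 : c / N * (Real.exp (-((theta + δ) * Real.log 6)) * Real.exp (-((theta + δ) * Real.log n)))
      ≤ Real.exp (20 * K1) * (r n * (C ^ 2 / N)) :=
    (mul_le_mul_of_nonneg_left hexp (by positivity)).trans h9
  have h14 : Real.exp (-(20 * (K1 : ℝ))) * Real.exp (20 * (K1 : ℝ)) = 1 := by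
    rw [← Real.exp_add]; simp
  have h15 := mul_le_mul_of_nonneg_left h13 (show 0 ≤ N / C ^ 2 * Real.exp (-(20 * (K1 : ℝ))) by positivity)
  have h16 : N / C ^ 2 * Real.exp (-(20 * (K1 : ℝ))) * (Real.exp (20 * K1) * (r n * (C ^ 2 / N)))
      = r n := by
    calc _ = (Real.exp (-(20 * (K1 : ℝ))) * Real.exp (20 * (K1 : ℝ))) * (N / C ^ 2 * (r n * (C ^ 2 / N))) := by
          ring
      _ = r n := by rw [h14]; field_simp
  rw [h16] at h15
  refine le_trans (le_of_eq ?_) h15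
  field_simp

end Pool.Agent.Helper95.Dom
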