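import Pool.Agent.Helper95.DomHarris

/-!
The Hájek–Rényi maximal inequality for reversed partial sums.
-/

namespace Pool.Agent.Helper95.Dom

open MeasureTheory ProbabilityTheory Filter

section

variable (μ μ' : ℕ → ℝ) (y : ℕ → ℕ × ℕ → ℝ) (T : ℕ)

/-- reversed partial sum. -/
def rS (y : ℕ → ℕ × ℕ → ℝ) (T t : ℕ) (ω : Om) : ℝ := ∑ s ∈ Finset.Ioc t T, y s (ω s)

theorem rS_succ {t : ℕ} (h : t < T) (ω : Om) :
    rS y T t ω = rS y T (t + 1) ω + y (t + 1) (ω (t + 1)) := by
  unfold rS
  have : Finset.Ioc t T = insert (t + 1) (Finset.Ioc (t + 1) T) := by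
    ext s
    simp only [Finset.mem_Ioc, Finset.mem_insert]
    omega
  rw [this, Finset.sum_insert (by simp), add_comm]

theorem rS_dep (t : ℕ) (ω ω' : Om) (h : ∀ s ∈ Finset.Ioc t T, ω s = ω' s) :
    rS y T t ω = rS y T t ω' := by
  unfold rS
  exact Finset.sum_congr rfl fun s hs => by rw [h s hs]

theorem meas_y (s : ℕ) : Measurable (fun ω : Om => y s (ω s)) :=
  (measurable_of_countable (y s)).comp (measurable_pi_apply s)

theorem meas_rS (t : ℕ) : Measurable (rS y T t) :=
  meas_of_dep (Finset.Ioc t T) (rS_dep y T t)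

theorem memLp_rS (t0 : ℕ) (h2 : ∀ s ∈ Finset.Ioc t0 T, MemLp (fun ω => y s (ω s)) 2 (PP μ μ'))
    (t : ℕ) (ht : t0 ≤ t) : MemLp (rS y T t) 2 (PP μ μ') := by
  unfold rS
  apply memLp_finsetSum
  intro s hs
  apply h2
  simp only [Finset.mem_Ioc] at hs ⊢
  omega

theorem hajek (w c : ℕ → ℝ) (t0 : ℕ) (hT : t0 ≤ T)
    (h2 : ∀ s ∈ Finset.Ioc t0 T, MemLp (fun ω => y s (ω s)) 2 (PP μ μ'))
    (h0 : ∀ s ∈ Finset.Ioc t0 T, ∫ ω, y s (ω s) ∂PP μ μ' = 0)
    (hw : ∀ s ∈ Finset.Ioc t0 T, ∫ ω, (y s (ω s)) ^ 2 ∂PP μ μ' ≤ w s)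
    (hc0 : ∀ t, 0 ≤ c t) (hc : Monotone c) :
    (PP μ μ').real {ω | ∃ t, t0 ≤ t ∧ t ≤ T ∧ 1 ≤ c t * (rS y T t ω) ^ 2}
      ≤ ∑ s ∈ Finset.Ioc t0 T, c (s - 1) * w s := by
  classical
  set P := PP μ μ' with hP
  let A : ℕ → Set Om := fun t => {ω | ∀ u, t ≤ u → u ≤ T → c u * (rS y T u ω) ^ 2 < 1}
  have Adep : ∀ t (ω ω' : Om), (∀ s ∈ Finset.Ioc t T, ω s = ω' s) → (ω ∈ A t ↔ ω' ∈ A t) := by
    intro t ω ω' h
    simp only [A, Set.mem_ofPred_eq]
    have h1 : ∀ u, t ≤ u → rS y T u ω = rS y T u ω' := by
      intro u hu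
      apply rS_dep
      intro s hs
      apply h
      simp only [Finset.mem_Ioc] at hs ⊢
      omega
    constructor
    · intro hh u hu hu2
      rw [← h1 u hu]; exact hh u hu hu2
    · intro hh u hu hu2
      rw [h1 u hu]; exact hh u hu hu2
  have Am : ∀ t, MeasurableSet (A t) := fun t => measSet_of_dep _ (Adep t)
  have main : ∀ k, k ≤ T - t0 → P.real (A (T - k))ᶜ
      + ∫ ω in A (T - k), c (T - k) * (rS y T (T - k) ω) ^ 2 ∂P
      ≤ ∑ s ∈ Finset.Ioc (T - k) T, c (s - 1) * w s := by
    intro k
    induction k with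
    | zero =>
      intro _
      have hS : ∀ ω, rS y T T ω = 0 := by intro ω; simp [rS]
      have hA : A T = Set.univ := by
        ext ω
        simp only [A, Set.mem_ofPred_eq, Set.mem_univ, iff_true]
        intro u h1 h2
        have : u = T := le_antisymm h2 h1
        rw [this, hS]; norm_num
      simp [hS, hA]
    | succ k ih =>
      intro hk
      have ih' := ih (by omega)
      set t := T - (k + 1) with ht
      have ht1 : T - k = t + 1 := by omega
      have htT : t < T := by omega
      have ht0 : t0 ≤ t := by omega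
      rw [ht1] at ih'
      have hs_mem : t + 1 ∈ Finset.Ioc t0 T := by
        simp only [Finset.mem_Ioc]; omega
      have m1 := memLp_rS μ μ' y T t0 h2 (t + 1) (by omega)
      have m2 := memLp_rS μ μ' y T t0 h2 t ht0
      have my := h2 (t + 1) hs_mem
      have i1 : Integrable (fun ω => (rS y T (t + 1) ω) ^ 2) P := m1.integrable_sq
      have i2 : Integrable (fun ω => (rS y T t ω) ^ 2) P := m2.integrable_sq
      have iy : Integrable (fun ω => (y (t + 1) (ω (t + 1))) ^ 2) P := my.integrable_sq
      have ixy : Integrable (fun ω => rS y T (t + 1) ω * y (t + 1) (ω (t + 1))) P :=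
        m1.integrable_mul my
      -- the two independence identities
      have hdisj : Disjoint (Finset.Ioc (t + 1) T) {t + 1} := by
        rw [Finset.disjoint_singleton_right]
        simp
      have ind1 : ∫ ω, ((A (t + 1)).indicator (fun ω => rS y T (t + 1) ω) ω)
          * y (t + 1) (ω (t + 1)) ∂P = 0 := by
        have h := indep_of_dep μ μ' (Finset.Ioc (t + 1) T) {t + 1} hdisj
          (f := (A (t + 1)).indicator (fun ω => rS y T (t + 1) ω))
          (g := fun ω => y (t + 1) (ω (t + 1)))
          (by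
            intro ω ω' hh
            by_cases hω : ω ∈ A (t + 1)
            · rw [Set.indicator_of_mem hω, Set.indicator_of_mem ((Adep _ ω ω' hh).1 hω)]
              exact rS_dep y T _ ω ω' hh
            · rw [Set.indicator_of_notMem hω,
                Set.indicator_of_notMem (fun h' => hω ((Adep _ ω ω' hh).2 h'))])
          (by
            intro ω ω' hh
            rw [hh (t + 1) (Finset.mem_singleton_self _)])
        rw [h.integral_fun_mul_eq_mul_integral
          ((meas_rS y T (t + 1)).indicator (Am _)).aestronglyMeasurable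
          (meas_y y (t + 1)).aestronglyMeasurable, h0 _ hs_mem, mul_zero]
      have ind2 : ∫ ω, ((A (t + 1)).indicator (fun _ => (1 : ℝ)) ω)
          * (y (t + 1) (ω (t + 1))) ^ 2 ∂P ≤ w (t + 1) := by
        refine le_trans ?_ (hw _ hs_mem)
        apply integral_mono_of_nonneg
        · exact Eventually.of_forall fun ω => mul_nonneg (Set.indicator_nonneg (fun _ _ => zero_le_one) _)
            (sq_nonneg _)
        · exact iy
        · refine Eventually.of_forall fun ω => ?_
          dsimp only
          by_cases hω : ω ∈ A (t + 1)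
          · rw [Set.indicator_of_mem hω, one_mul]
          · rw [Set.indicator_of_notMem hω, zero_mul]; exact sq_nonneg _
      -- expansion
      have exp1 : ∫ ω in A (t + 1), (rS y T t ω) ^ 2 ∂P
          ≤ ∫ ω in A (t + 1), (rS y T (t + 1) ω) ^ 2 ∂P + w (t + 1) := by
        have e1 : ∫ ω in A (t + 1), (rS y T t ω) ^ 2 ∂P
            = ∫ ω, ((A (t + 1)).indicator (fun ω => (rS y T (t + 1) ω) ^ 2) ω
              + 2 * (((A (t + 1)).indicator (fun ω => rS y T (t + 1) ω) ω)
          * y (t + 1) (ω (t + 1)))) + ((A (t + 1)).indicator (fun _ => (1 : ℝ)) ω)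
          * (y (t + 1) (ω (t + 1))) ^ 2 ∂P := by
          rw [← integral_indicator (Am _)]
          congr 1
          funext ω
          by_cases hω : ω ∈ A (t + 1)
          · simp only [Set.indicator_of_mem hω]
            rw [rS_succ y T htT]
            ring
          · simp only [Set.indicator_of_notMem hω]
            ring
        rw [e1]
        have j1 : Integrable (fun ω => (A (t + 1)).indicator (fun ω => (rS y T (t + 1) ω) ^ 2) ω) P :=
          i1.indicator (Am _)
        have j2 : Integrable (fun ω => ((A (t + 1)).indicator (fun ω => rS y T (t + 1) ω) ω)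
          * y (t + 1) (ω (t + 1))) P := by
          have : (fun ω => ((A (t + 1)).indicator (fun ω => rS y T (t + 1) ω) ω)
              * y (t + 1) (ω (t + 1))) = (A (t + 1)).indicator
                (fun ω => rS y T (t + 1) ω * y (t + 1) (ω (t + 1))) := by
            funext ω
            by_cases hω : ω ∈ A (t + 1)
            · simp only [Set.indicator_of_mem hω]
            · simp only [Set.indicator_of_notMem hω, zero_mul]
          rw [this]
          exact ixy.indicator (Am _)
        have j3 : Integrable (fun ω => ((A (t + 1)).indicator (fun _ => (1 : ℝ)) ω)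
          * (y (t + 1) (ω (t + 1))) ^ 2) P := by
          have : (fun ω => ((A (t + 1)).indicator (fun _ => (1 : ℝ)) ω)
              * (y (t + 1) (ω (t + 1))) ^ 2) = (A (t + 1)).indicator
                (fun ω => (y (t + 1) (ω (t + 1))) ^ 2) := by
            funext ω
            by_cases hω : ω ∈ A (t + 1)
            · simp only [Set.indicator_of_mem hω, one_mul]
            · simp only [Set.indicator_of_notMem hω, zero_mul]
          rw [this]
          exact iy.indicator (Am _)
        have j2' : Integrable (fun ω => 2 * (((A (t + 1)).indicator (fun ω => rS y T (t + 1) ω) ω)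
          * y (t + 1) (ω (t + 1)))) P := j2.const_mul 2
        have j12i : Integrable (fun ω => (A (t + 1)).indicator (fun ω => (rS y T (t + 1) ω) ^ 2) ω
              + 2 * (((A (t + 1)).indicator (fun ω => rS y T (t + 1) ω) ω)
          * y (t + 1) (ω (t + 1)))) P := j1.add j2'
        rw [integral_add j12i j3]
        have j12 := integral_add j1 j2'
        have k2 : ∫ ω, 2 * (((A (t + 1)).indicator (fun ω => rS y T (t + 1) ω) ω)
          * y (t + 1) (ω (t + 1))) ∂P = 0 := by
          rw [integral_const_mul, ind1, mul_zero]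
        rw [j12, k2, integral_indicator (Am _)]
        linarith
      -- splitting A (t+1)
      have Asub : A t ⊆ A (t + 1) := by
        intro ω h u hu hu2
        exact h u (by omega) hu2
      have Adiff : ∀ ω ∈ A (t + 1) \ A t, 1 ≤ c t * (rS y T t ω) ^ 2 := by
        rintro ω ⟨h1, h2'⟩
        by_contra hcon
        push Not at hcon
        apply h2'
        intro u hu hu2
        rcases Nat.eq_or_lt_of_le hu with h | h
        · rw [← h]; exact hcon
        · exact h1 u h hu2
      have ci2 : Integrable (fun ω => c t * (rS y T t ω) ^ 2) P := i2.const_mul _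
      have split1 : ∫ ω in A (t + 1), c t * (rS y T t ω) ^ 2 ∂P
          = ∫ ω in A t, c t * (rS y T t ω) ^ 2 ∂P
            + ∫ ω in A (t + 1) \ A t, c t * (rS y T t ω) ^ 2 ∂P := by
        rw [← setIntegral_union Set.disjoint_sdiff_right ((Am _).diff (Am _)) ci2.integrableOn
          ci2.integrableOn, Set.union_sdiff_cancel Asub]
      have low1 : P.real (A (t + 1) \ A t) ≤ ∫ ω in A (t + 1) \ A t, c t * (rS y T t ω) ^ 2 ∂P := by
        have : P.real (A (t + 1) \ A t) = ∫ ω in A (t + 1) \ A t, (1 : ℝ) ∂P := by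
          simp
        rw [this]
        apply setIntegral_mono_on (integrable_const _).integrableOn ci2.integrableOn
          ((Am _).diff (Am _))
        intro ω hω
        exact Adiff ω hω
      have comp1 : P.real (A t)ᶜ = P.real (A (t + 1))ᶜ + P.real (A (t + 1) \ A t) := by
        rw [measureReal_compl (Am _), measureReal_compl (Am _), measureReal_sdiff Asub (Am _)]
        ring
      have hct : c t ≤ c (t + 1) := hc (by omega)
      have hsum : ∑ s ∈ Finset.Ioc t T, c (s - 1) * w s
          = ∑ s ∈ Finset.Ioc (t + 1) T, c (s - 1) * w s + c t * w (t + 1) := by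
        have : Finset.Ioc t T = insert (t + 1) (Finset.Ioc (t + 1) T) := by
          ext s
          simp only [Finset.mem_Ioc, Finset.mem_insert]
          omega
        rw [this, Finset.sum_insert (by simp), add_comm]
        simp
      rw [hsum, comp1]
      have n1 : 0 ≤ ∫ ω in A (t + 1), (rS y T (t + 1) ω) ^ 2 ∂P :=
        integral_nonneg fun ω => sq_nonneg _
      have q1 : ∫ ω in A (t + 1), c t * (rS y T t ω) ^ 2 ∂P
          = c t * ∫ ω in A (t + 1), (rS y T t ω) ^ 2 ∂P := integral_const_mul _ _
      have q2 : ∫ ω in A (t + 1), c (t + 1) * (rS y T (t + 1) ω) ^ 2 ∂P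
          = c (t + 1) * ∫ ω in A (t + 1), (rS y T (t + 1) ω) ^ 2 ∂P := integral_const_mul _ _
      rw [q2] at ih'
      rw [q1] at split1
      have r1 : c t * ∫ ω in A (t + 1), (rS y T t ω) ^ 2 ∂P
          ≤ c (t + 1) * (∫ ω in A (t + 1), (rS y T (t + 1) ω) ^ 2 ∂P) + c t * w (t + 1) := by
        calc c t * ∫ ω in A (t + 1), (rS y T t ω) ^ 2 ∂P
            ≤ c t * (∫ ω in A (t + 1), (rS y T (t + 1) ω) ^ 2 ∂P + w (t + 1)) :=
              mul_le_mul_of_nonneg_left exp1 (hc0 t)
          _ = c t * (∫ ω in A (t + 1), (rS y T (t + 1) ω) ^ 2 ∂P) + c t * w (t + 1) := by ring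
          _ ≤ _ := by
            have := mul_le_mul_of_nonneg_right hct n1
            linarith
      linarith
  have hfin := main (T - t0) le_rfl
  have htt : T - (T - t0) = t0 := by omega
  rw [htt] at hfin
  have hset : {ω | ∃ t, t0 ≤ t ∧ t ≤ T ∧ 1 ≤ c t * (rS y T t ω) ^ 2} = (A t0)ᶜ := by
    ext ω
    simp only [A, Set.mem_ofPred_eq, Set.mem_compl_iff, not_forall, not_lt, exists_prop]
  rw [hset]
  have n2 : 0 ≤ ∫ ω in A t0, c t0 * (rS y T t0 ω) ^ 2 ∂P :=
    integral_nonneg fun ω => mul_nonneg (hc0 _) (sq_nonneg _)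
  linarith

end

end Pool.Agent.Helper95.Dom
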