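import Pool.Agent.Helper95.DomCovB

/-!
Probabilities of mesh events, uniformly.
-/

namespace Pool.Agent.Helper95.Dom

open MeasureTheory ProbabilityTheory Filter
open scoped Topology

/-- the functional for the large parts. -/
def DA (S t : ℕ) (ω : Om) : ℝ := ∑ s ∈ Finset.Icc 1 S, ((s - t : ℕ) : ℝ) * xs s ω

/-- the functional for the small parts. -/
def GB (T t : ℕ) (ω : Om) : ℝ := ∑ s ∈ Finset.Icc 1 T, ((min s t : ℕ) : ℝ) * xs s ω

/-- the law for the parameter `a`. -/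
noncomputable def PA (a : ℝ) : Measure Om := PP (mu a) (mu a)

instance (a : ℝ) : IsProbabilityMeasure (PA a) := by unfold PA; infer_instance

/-- mesh event for the large parts. -/
def meshA (a u : ℝ) (S m l : ℕ) (x : ℝ) : Set Om :=
  {ω | ∀ i ≤ l * m, x * bA a (tA a u m i) ≤ DA S (tA a u m i) ω}

/-- mesh event for the small parts. -/
def meshB (a u : ℝ) (T m l : ℕ) (x : ℝ) : Set Om :=
  {ω | ∀ i ≤ l * m, x * bB a (tB u m i) ≤ GB T (tB u m i) ω}

theorem measurableSet_level {k : ℕ} (c : ℝ) :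
    MeasurableSet {x : EuclideanSpace ℝ (Fin k) | ∀ i, c ≤ x i} := by
  have : {x : EuclideanSpace ℝ (Fin k) | ∀ i, c ≤ x i} = ⋂ i, {x | c ≤ x i} := by
    ext x; simp
  rw [this]
  apply MeasurableSet.iInter
  intro i
  exact measurableSet_le measurable_const (by fun_prop)

theorem isClosed_level {k : ℕ} (c : ℝ) :
    IsClosed {x : EuclideanSpace ℝ (Fin k) | ∀ i, c ≤ x i} := by
  have : {x : EuclideanSpace ℝ (Fin k) | ∀ i, c ≤ x i} = ⋂ i, {x | c ≤ x i} := by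
    ext x; simp
  rw [this]
  apply isClosed_iInter
  intro i
  exact isClosed_le continuous_const (by fun_prop)

theorem isOpen_level {k : ℕ} (c : ℝ) :
    IsOpen {x : EuclideanSpace ℝ (Fin k) | ∀ i, c < x i} := by
  have : {x : EuclideanSpace ℝ (Fin k) | ∀ i, c < x i} = ⋂ i, {x | c < x i} := by
    ext x; simp
  rw [this]
  apply isOpen_iInter_of_finite
  intro i
  exact isOpen_lt continuous_const (by fun_prop)

theorem zlaw_eq {k : ℕ} (a : ℝ) (I' : Finset ℕ) (c : Fin k → ℕ → ℝ)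
    (A : Set (EuclideanSpace ℝ (Fin k))) (hA : MeasurableSet A) :
    (Zlaw (mu a) I' c : Measure (EuclideanSpace ℝ (Fin k))).real A
      = (PA a).real (Zvec I' c ⁻¹' A) := by
  show ((PP (mu a) (mu a)).map (Zvec I' c)).real A = _
  rw [map_measureReal_apply (meas_Zvec I' c) hA]
  rfl

theorem zlaw_meshA {a u : ℝ} (ha : 0 < a) (S m l : ℕ) (x : ℝ) :
    (Zlaw (mu a) (Finset.Icc 1 S) (fun (i : Fin (l * m + 1)) s => ((s - tA a u m i : ℕ) : ℝ)
      / bA a (tA a u m i)) : Measure (EuclideanSpace ℝ (Fin (l * m + 1)))).real {z | ∀ i, x ≤ z i} = (PA a).real (meshA a u S m l x) := by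
  rw [zlaw_eq _ _ _ _ (measurableSet_level x)]
  congr 1
  ext ω
  simp only [Set.mem_preimage, Set.mem_ofPred_eq, meshA, Zvec_apply]
  have key : ∀ i : ℕ, (x ≤ ∑ s ∈ Finset.Icc 1 S, ((s - tA a u m i : ℕ) : ℝ) / bA a (tA a u m i)
      * xs s ω) ↔ x * bA a (tA a u m i) ≤ DA S (tA a u m i) ω := by
    intro i
    have hb := bA_pos ha (tA a u m i)
    rw [← le_div_iff₀ hb, DA, Finset.sum_div]
    have : ∀ s, ((s - tA a u m i : ℕ) : ℝ) / bA a (tA a u m i) * xs s ω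
        = ((s - tA a u m i : ℕ) : ℝ) * xs s ω / bA a (tA a u m i) := by
      intro s; ring
    simp_rw [this]
  constructor
  · intro h i hi
    exact (key i).1 (h ⟨i, by omega⟩)
  · intro h i
    exact (key i).2 (h i (by omega))

theorem zlaw_meshB {a u : ℝ} (ha : 0 < a) (hu : 0 ≤ u) (T m l : ℕ) (x : ℝ) :
    (Zlaw (mu a) (Finset.Icc 1 T) (fun (i : Fin (l * m + 1)) s => ((min s (tB u m i) : ℕ) : ℝ)
      / bB a (tB u m i)) : Measure (EuclideanSpace ℝ (Fin (l * m + 1)))).real {z | ∀ i, x ≤ z i} = (PA a).real (meshB a u T m l x) := by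
  rw [zlaw_eq _ _ _ _ (measurableSet_level x)]
  congr 1
  ext ω
  simp only [Set.mem_preimage, Set.mem_ofPred_eq, meshB, Zvec_apply]
  have key : ∀ i : ℕ, (x ≤ ∑ s ∈ Finset.Icc 1 T, ((min s (tB u m i) : ℕ) : ℝ) / bB a (tB u m i)
      * xs s ω) ↔ x * bB a (tB u m i) ≤ GB T (tB u m i) ω := by
    intro i
    have h1 : 1 ≤ tB u m i := by
      unfold tB
      rw [Nat.one_le_floor_iff]
      apply Real.one_le_exp
      positivity
    have hb := bB_pos ha h1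
    rw [← le_div_iff₀ hb, GB, Finset.sum_div]
    have : ∀ s, ((min s (tB u m i) : ℕ) : ℝ) / bB a (tB u m i) * xs s ω
        = ((min s (tB u m i) : ℕ) : ℝ) * xs s ω / bB a (tB u m i) := by
      intro s; ring
    simp_rw [this]
  constructor
  · intro h i hi
    exact (key i).1 (h ⟨i, by omega⟩)
  · intro h i
    exact (key i).2 (h i (by omega))

theorem seq_facts {a u : ℕ → ℝ} (h1 : ∀ n : ℕ, (n : ℝ) ≤ u n)
    (h2 : ∀ n : ℕ, (n : ℝ) ≤ a n * Real.exp (-(u n))) :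
    Tendsto u atTop atTop ∧ Tendsto (fun n => a n * Real.exp (-(u n))) atTop atTop
      ∧ Tendsto a atTop atTop := by
  have t1 : Tendsto u atTop atTop := tendsto_atTop_mono h1 tendsto_natCast_atTop_atTop
  have t2 : Tendsto (fun n => a n * Real.exp (-(u n))) atTop atTop :=
    tendsto_atTop_mono h2 tendsto_natCast_atTop_atTop
  refine ⟨t1, t2, ?_⟩
  apply tendsto_atTop_mono _ tendsto_natCast_atTop_atTop
  intro n
  have h3 := h2 n
  have h4 : 0 ≤ u n := le_trans (Nat.cast_nonneg n) (h1 n)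
  have h5 : Real.exp (-(u n)) ≤ 1 := Real.exp_le_one_iff.2 (by linarith)
  have h6 := Real.exp_pos (-(u n))
  have h7 : 0 ≤ a n := by
    by_contra hcon
    push Not at hcon
    have := mul_neg_of_neg_of_pos hcon h6
    have : (0 : ℝ) ≤ n := Nat.cast_nonneg n
    linarith
  nlinarith

theorem meshA_upper (m l : ℕ) (x : ℝ) {η : ℝ} (hη : 0 < η) : ∃ K0 : ℝ, 1 ≤ K0 ∧
    ∀ (a u : ℝ) (S : ℕ), K0 ≤ u → K0 ≤ a * Real.exp (-u) → K0 ≤ S / a - u →
      (PA a).real (meshA a u S m l x) ≤ gam m l x + η := by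
  by_contra hcon
  push Not at hcon
  have h : ∀ n : ℕ, ∃ (a u : ℝ) (S : ℕ), (n : ℝ) + 1 ≤ u ∧ (n : ℝ) + 1 ≤ a * Real.exp (-u)
      ∧ (n : ℝ) + 1 ≤ S / a - u ∧ gam m l x + η < (PA a).real (meshA a u S m l x) := by
    intro n
    obtain ⟨a, u, S, h1, h2, h3, h4⟩ := hcon (n + 1) (by have := Nat.cast_nonneg (α := ℝ) n; linarith)
    exact ⟨a, u, S, h1, h2, h3, h4⟩
  choose a u S h1 h2 h3 h4 using h
  have hn1 : ∀ n : ℕ, (n : ℝ) ≤ u n := fun n => by linarith [h1 n]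
  have hn2 : ∀ n : ℕ, (n : ℝ) ≤ a n * Real.exp (-(u n)) := fun n => by linarith [h2 n]
  obtain ⟨t1, t2, t3⟩ := seq_facts hn1 hn2
  have t4 : Tendsto (fun n => (S n : ℝ) / a n - u n) atTop atTop :=
    tendsto_atTop_mono (fun n => by linarith [h3 n]) tendsto_natCast_atTop_atTop
  have hc := (cltA t3 t1 (m := m) (l := l) t2 t4).2
  have h5 := closed_le hc (isClosed_level x) hη
  obtain ⟨n, h6, h7⟩ := (h5.and (t3.eventually_gt_atTop 0)).exists
  have h8 := h4 n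
  rw [← zlaw_meshA h7] at h8
  rw [Glaw_coe] at h6
  have h9 : gam m l x = (multivariateGaussian 0 (covGrid m l)).real {z | ∀ i, x ≤ z i} := rfl
  rw [h9] at h8
  linarith

theorem meshA_lower (m l : ℕ) {x x' : ℝ} (hx : x < x') {η : ℝ} (hη : 0 < η) : ∃ K0 : ℝ, 1 ≤ K0 ∧
    ∀ (a u : ℝ) (S : ℕ), K0 ≤ u → K0 ≤ a * Real.exp (-u) → K0 ≤ S / a - u →
      gam m l x' - η ≤ (PA a).real (meshA a u S m l x) := by
  by_contra hcon
  push Not at hcon
  have h : ∀ n : ℕ, ∃ (a u : ℝ) (S : ℕ), (n : ℝ) + 1 ≤ u ∧ (n : ℝ) + 1 ≤ a * Real.exp (-u)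
      ∧ (n : ℝ) + 1 ≤ S / a - u ∧ (PA a).real (meshA a u S m l x) < gam m l x' - η := by
    intro n
    obtain ⟨a, u, S, h1, h2, h3, h4⟩ := hcon (n + 1) (by have := Nat.cast_nonneg (α := ℝ) n; linarith)
    exact ⟨a, u, S, h1, h2, h3, h4⟩
  choose a u S h1 h2 h3 h4 using h
  have hn1 : ∀ n : ℕ, (n : ℝ) ≤ u n := fun n => by linarith [h1 n]
  have hn2 : ∀ n : ℕ, (n : ℝ) ≤ a n * Real.exp (-(u n)) := fun n => by linarith [h2 n]
  obtain ⟨t1, t2, t3⟩ := seq_facts hn1 hn2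
  have t4 : Tendsto (fun n => (S n : ℝ) / a n - u n) atTop atTop :=
    tendsto_atTop_mono (fun n => by linarith [h3 n]) tendsto_natCast_atTop_atTop
  have hc := (cltA t3 t1 (m := m) (l := l) t2 t4).2
  have h5 := open_ge hc (isOpen_level x) hη
  obtain ⟨n, h6, h7⟩ := (h5.and (t3.eventually_gt_atTop 0)).exists
  have h8 := h4 n
  rw [← zlaw_meshA h7] at h8
  rw [Glaw_coe] at h6
  have h9 : gam m l x' ≤ (multivariateGaussian 0 (covGrid m l)).real {z | ∀ i, x < z i} := by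
    unfold gam
    apply measureReal_mono _ (measure_ne_top _ _)
    intro z hz i
    exact lt_of_lt_of_le hx (hz i)
  have h10 : (Zlaw (mu (a n)) (Finset.Icc 1 (S n)) (fun (i : Fin (l * m + 1)) s =>
      ((s - tA (a n) (u n) m i : ℕ) : ℝ) / bA (a n) (tA (a n) (u n) m i)) : Measure (EuclideanSpace ℝ (Fin (l * m + 1)))).real
        {z | ∀ i, x < z i} ≤ (Zlaw (mu (a n)) (Finset.Icc 1 (S n)) (fun (i : Fin (l * m + 1)) s =>
      ((s - tA (a n) (u n) m i : ℕ) : ℝ) / bA (a n) (tA (a n) (u n) m i)) : Measure (EuclideanSpace ℝ (Fin (l * m + 1)))).real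
        {z | ∀ i, x ≤ z i} := by
    apply measureReal_mono _ (measure_ne_top _ _)
    intro z hz i
    exact (hz i).le
  linarith

theorem meshB_upper (m l : ℕ) (x : ℝ) {η : ℝ} (hη : 0 < η) : ∃ K0 : ℝ, 1 ≤ K0 ∧
    ∀ (a u : ℝ) (T : ℕ), K0 ≤ u → K0 ≤ T * Real.exp (-u) → (T : ℝ) ≤ a →
      (PA a).real (meshB a u T m l x) ≤ gam m l x + η := by
  by_contra hcon
  push Not at hcon
  have h : ∀ n : ℕ, ∃ (a u : ℝ) (T : ℕ), (n : ℝ) + 1 ≤ u ∧ (n : ℝ) + 1 ≤ T * Real.exp (-u)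
      ∧ (T : ℝ) ≤ a ∧ gam m l x + η < (PA a).real (meshB a u T m l x) := by
    intro n
    obtain ⟨a, u, S, h1, h2, h3, h4⟩ := hcon (n + 1) (by have := Nat.cast_nonneg (α := ℝ) n; linarith)
    exact ⟨a, u, S, h1, h2, h3, h4⟩
  choose a u T h1 h2 h3 h4 using h
  have hn1 : ∀ n : ℕ, (n : ℝ) ≤ u n := fun n => by linarith [h1 n]
  have hn2 : ∀ n : ℕ, (n : ℝ) ≤ T n * Real.exp (-(u n)) := fun n => by linarith [h2 n]
  obtain ⟨t1, t2, t3⟩ := seq_facts (a := fun n => (T n : ℝ)) hn1 hn2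
  have hc := cltB t1 (m := m) (l := l) (Filter.Eventually.of_forall h3) t2
  have h5 := closed_le hc (isClosed_level x) hη
  obtain ⟨n, h6, h7⟩ := (h5.and (t3.eventually_gt_atTop 0)).exists
  have h8 := h4 n
  rw [← zlaw_meshB (h7.trans_le (h3 n)) (le_trans (Nat.cast_nonneg n) (hn1 n))] at h8
  rw [Glaw_coe] at h6
  have h9 : gam m l x = (multivariateGaussian 0 (covGrid m l)).real {z | ∀ i, x ≤ z i} := rfl
  rw [h9] at h8
  linarith

theorem meshB_lower (m l : ℕ) {x x' : ℝ} (hx : x < x') {η : ℝ} (hη : 0 < η) : ∃ K0 : ℝ, 1 ≤ K0 ∧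
    ∀ (a u : ℝ) (T : ℕ), K0 ≤ u → K0 ≤ T * Real.exp (-u) → (T : ℝ) ≤ a →
      gam m l x' - η ≤ (PA a).real (meshB a u T m l x) := by
  by_contra hcon
  push Not at hcon
  have h : ∀ n : ℕ, ∃ (a u : ℝ) (T : ℕ), (n : ℝ) + 1 ≤ u ∧ (n : ℝ) + 1 ≤ T * Real.exp (-u)
      ∧ (T : ℝ) ≤ a ∧ (PA a).real (meshB a u T m l x) < gam m l x' - η := by
    intro n
    obtain ⟨a, u, S, h1, h2, h3, h4⟩ := hcon (n + 1) (by have := Nat.cast_nonneg (α := ℝ) n; linarith)
    exact ⟨a, u, S, h1, h2, h3, h4⟩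
  choose a u T h1 h2 h3 h4 using h
  have hn1 : ∀ n : ℕ, (n : ℝ) ≤ u n := fun n => by linarith [h1 n]
  have hn2 : ∀ n : ℕ, (n : ℝ) ≤ T n * Real.exp (-(u n)) := fun n => by linarith [h2 n]
  obtain ⟨t1, t2, t3⟩ := seq_facts (a := fun n => (T n : ℝ)) hn1 hn2
  have hc := cltB t1 (m := m) (l := l) (Filter.Eventually.of_forall h3) t2
  have h5 := open_ge hc (isOpen_level x) hη
  obtain ⟨n, h6, h7⟩ := (h5.and (t3.eventually_gt_atTop 0)).exists
  have h8 := h4 n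
  rw [← zlaw_meshB (h7.trans_le (h3 n)) (le_trans (Nat.cast_nonneg n) (hn1 n))] at h8
  rw [Glaw_coe] at h6
  have h9 : gam m l x' ≤ (multivariateGaussian 0 (covGrid m l)).real {z | ∀ i, x < z i} := by
    unfold gam
    apply measureReal_mono _ (measure_ne_top _ _)
    intro z hz i
    exact lt_of_lt_of_le hx (hz i)
  have h10 : (Zlaw (mu (a n)) (Finset.Icc 1 (T n)) (fun (i : Fin (l * m + 1)) s =>
      ((min s (tB (u n) m i) : ℕ) : ℝ) / bB (a n) (tB (u n) m i)) : Measure (EuclideanSpace ℝ (Fin (l * m + 1)))).real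
        {z | ∀ i, x < z i} ≤ (Zlaw (mu (a n)) (Finset.Icc 1 (T n)) (fun (i : Fin (l * m + 1)) s =>
      ((min s (tB (u n) m i) : ℕ) : ℝ) / bB (a n) (tB (u n) m i)) : Measure (EuclideanSpace ℝ (Fin (l * m + 1)))).real
        {z | ∀ i, x ≤ z i} := by
    apply measureReal_mono _ (measure_ne_top _ _)
    intro z hz i
    exact (hz i).le
  linarith

end Pool.Agent.Helper95.Dom
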