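import Pool.Agent.Helper95.DomKol

/-!
The middle region: the tilted law.
-/

namespace Pool.Agent.Helper95.Dom

open MeasureTheory ProbabilityTheory Filter
open scoped Topology ENNReal

/-- drift on the blocks `(3N, 4N]` and `(2N, 3N]`. -/
noncomputable def drift (N : ℕ) (α β : ℝ) (s : ℕ) : ℝ :=
  if s ∈ Finset.Ioc (3 * N) (4 * N) then α
  else if s ∈ Finset.Ioc (2 * N) (3 * N) then β else 0

theorem drift_abs {N : ℕ} {α β η : ℝ} (hη : 0 ≤ η) (hα : |α| ≤ η) (hβ : |β| ≤ η) (s : ℕ) :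
    |drift N α β s| ≤ η := by
  unfold drift
  split_ifs
  · exact hα
  · exact hβ
  · simpa using hη

theorem drift_out {N : ℕ} {α β : ℝ} {s : ℕ} (hs : s ∉ Finset.Ioc (2 * N) (4 * N)) :
    drift N α β s = 0 := by
  rw [Finset.mem_Ioc] at hs
  unfold drift
  rw [if_neg (by rw [Finset.mem_Ioc]; omega), if_neg (by rw [Finset.mem_Ioc]; omega)]

/-- the middle region. -/
def midI (N TA TB : ℕ) : Finset ℕ := Finset.Ioc TB N ∪ Finset.Ioc (2 * N) TA

/-- the event in the middle region. -/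
def Mev (a : ℝ) (N TA TB : ℕ) (α β α' β' x1 x2 : ℝ) : Set Om :=
  {ω | (∀ t, 2 * N ≤ t → t ≤ TA →
      |∑ s ∈ Finset.Ioc t TA, (xs s ω - (drift N α β s - drift N α' β' s))| ≤ x1)
    ∧ (∀ t, TB ≤ t → t ≤ N → |NS t N ω| ≤ x1)
    ∧ |∑ s ∈ midI N TA TB, (s : ℝ) * (ma s ω - mu a s - drift N α β s)| ≤ x2
    ∧ |∑ s ∈ midI N TA TB, (s : ℝ) * (mb s ω - mu a s - drift N α' β' s)| ≤ x2}

theorem xs_congr {s : ℕ} {ω ω' : Om} (h : ω s = ω' s) : xs s ω = xs s ω' := by
  unfold xs ma mb; rw [h]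

theorem Mev_dep (a : ℝ) {N TA TB : ℕ} (α β α' β' x1 x2 : ℝ) (ω ω' : Om)
    (h : ∀ s ∈ midI N TA TB, ω s = ω' s) :
    ω ∈ Mev a N TA TB α β α' β' x1 x2 ↔ ω' ∈ Mev a N TA TB α β α' β' x1 x2 := by
  have e1 : ∀ t, 2 * N ≤ t → ∑ s ∈ Finset.Ioc t TA, (xs s ω - (drift N α β s - drift N α' β' s))
      = ∑ s ∈ Finset.Ioc t TA, (xs s ω' - (drift N α β s - drift N α' β' s)) := by
    intro t ht
    apply Finset.sum_congr rfl
    intro s hs
    rw [xs_congr (h s _)]
    unfold midI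
    rw [Finset.mem_union, Finset.mem_Ioc, Finset.mem_Ioc]
    rw [Finset.mem_Ioc] at hs
    omega
  have e2 : ∀ t, TB ≤ t → NS t N ω = NS t N ω' := by
    intro t ht
    apply Finset.sum_congr rfl
    intro s hs
    rw [xs_congr (h s _)]
    unfold midI
    rw [Finset.mem_union, Finset.mem_Ioc, Finset.mem_Ioc]
    rw [Finset.mem_Ioc] at hs
    omega
  have e3 : ∑ s ∈ midI N TA TB, (s : ℝ) * (ma s ω - mu a s - drift N α β s)
      = ∑ s ∈ midI N TA TB, (s : ℝ) * (ma s ω' - mu a s - drift N α β s) := by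
    apply Finset.sum_congr rfl
    intro s hs
    unfold ma
    rw [h s hs]
  have e4 : ∑ s ∈ midI N TA TB, (s : ℝ) * (mb s ω - mu a s - drift N α' β' s)
      = ∑ s ∈ midI N TA TB, (s : ℝ) * (mb s ω' - mu a s - drift N α' β' s) := by
    apply Finset.sum_congr rfl
    intro s hs
    unfold mb
    rw [h s hs]
  unfold Mev
  simp only [Set.mem_ofPred_eq]
  rw [e3, e4]
  constructor
  · rintro ⟨h1, h2, h3, h4⟩
    exact ⟨fun t ht ht' => by rw [← e1 t ht]; exact h1 t ht ht',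
      fun t ht ht' => by rw [← e2 t ht]; exact h2 t ht ht', h3, h4⟩
  · rintro ⟨h1, h2, h3, h4⟩
    exact ⟨fun t ht ht' => by rw [e1 t ht]; exact h1 t ht ht',
      fun t ht ht' => by rw [e2 t ht]; exact h2 t ht ht', h3, h4⟩

theorem mu_small {a : ℝ} (ha : 0 < a) {s : ℕ} (hs : 2 * a ≤ s) : mu a s ≤ 0.3 := by
  have h1 := mu_le_exp ha (by linarith : a ≤ s)
  have h2 : (2 : ℝ) ≤ (s : ℝ) / a := by rwa [le_div_iff₀ ha]
  have h3 : Real.exp (-((s : ℝ) / a)) ≤ Real.exp (-2) := Real.exp_le_exp.2 (by linarith)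
  have h4 : Real.exp (-2) ≤ 0.15 := by
    have h5 : Real.exp (-2) = Real.exp (-1) * Real.exp (-1) := by rw [← Real.exp_add]; norm_num
    have h6 : Real.exp (-1) < 0.3678794412 := Real.exp_neg_one_lt_d9
    have h7 := Real.exp_pos (-1)
    rw [h5]
    norm_num at h6 ⊢
    nlinarith
  norm_num at h1 h4 ⊢
  linarith

private theorem mid_l1 {x y : ℝ} (hx : 0 ≤ x) (hx1 : x ≤ 1) (hy : 0 ≤ y) (hy1 : y ≤ 1) :
    2 * (1 : ℝ) ^ 2 * (x * (1 + x)) + 2 * (-1 : ℝ) ^ 2 * (y * (1 + y)) ≤ 8 := by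
  nlinarith

private theorem mid_l2 {x : ℝ} (hx : 0 ≤ x) (hx1 : x ≤ 1) : x * (1 + x) ≤ 2 := by
  nlinarith

private theorem mid_l3 {s m a T : ℝ} (h4 : 2 * m * s ^ 2 ≤ 2 * a ^ 2) (h5 : a ^ 2 ≤ T ^ 2) :
    2 * s ^ 2 * m ≤ 6 * T ^ 2 := by
  nlinarith [sq_nonneg T]

private theorem mid_l4 {c : ℝ} (h : 1 ≤ c) : c ≤ c ^ 2 := by
  nlinarith

private theorem mid_l5 {m : ℝ} (h : 0 ≤ m) : m ≤ m * (1 + m) := by
  nlinarith

private theorem mid_l6 {x e : ℝ} (h0 : 0 ≤ x) (hx : x ≤ e) (he : e ≤ 1 / 2) (he0 : 0 < e) :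
    x ^ 2 ≤ e / 2 := by
  nlinarith

theorem mid_prob {b' e1 : ℝ} (hb : 4 ≤ b') (he : 0 < e1) : ∃ C1 : ℝ, 1 ≤ C1 ∧
    ∀ (a η : ℝ) (N TA TB : ℕ) (α β α' β' : ℝ), 1 ≤ a → a ≤ N → (N : ℝ) ≤ a + 1 → 1 ≤ TB →
      e1 * a ≤ TB → TB ≤ N → 4 * N ≤ TA → (TA : ℝ) ≤ b' * N → 0 ≤ η → η ≤ Real.exp (-8) →
      |α| ≤ η → |β| ≤ η → |α'| ≤ η → |β'| ≤ η →
      1 / 4 * Real.exp (-(8 * Real.exp 8 * N * η ^ 2))
        ≤ (PA a).real (Mev a N TA TB α β α' β' (C1 * √N) (C1 * (N * √N))) := by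
  refine ⟨1 + 2 * (8 * b' + 4 / e1 + 12 * b' ^ 3), ?_, ?_⟩
  · have : 0 < 4 / e1 := by positivity
    have : 0 ≤ b' ^ 3 := by positivity
    linarith
  intro a η N TA TB α β α' β' ha haN hNa hTB1 hTB hTBN hTA hTA' hη hη8 hα hβ hα' hβ'
  set C1 := 1 + 2 * (8 * b' + 4 / e1 + 12 * b' ^ 3) with hC1
  have hpos : 0 < a := by linarith
  have hN0 : (0 : ℝ) < N := by linarith
  have hN1 : (1 : ℝ) ≤ N := by linarith
  have hsN : 0 < √(N : ℝ) := Real.sqrt_pos.2 hN0
  have hsN2 : √(N : ℝ) ^ 2 = N := Real.sq_sqrt hN0.le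
  have he0 : 0 < 4 / e1 := by positivity
  have hb3 : 0 ≤ b' ^ 3 := by positivity
  have hC0 : 0 < C1 := by rw [hC1]; positivity
  have hTB0 : (0 : ℝ) < TB := by exact_mod_cast hTB1
  set x1 := C1 * √(N : ℝ) with hx1
  set x2 := C1 * ((N : ℝ) * √(N : ℝ)) with hx2
  have hx10 : 0 < x1 := by positivity
  have hx20 : 0 < x2 := by positivity
  have hx1s : x1 ^ 2 = C1 ^ 2 * N := by rw [hx1, mul_pow, hsN2]
  have hx2s : x2 ^ 2 = C1 ^ 2 * (N : ℝ) ^ 3 := by rw [hx2, mul_pow, mul_pow, hsN2]; ring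
  -- the tilted means
  set ν : ℕ → ℝ := fun s => mu a s + drift N α β s with hν
  set ν' : ℕ → ℝ := fun s => mu a s + drift N α' β' s with hν'
  have hd : ∀ s, |drift N α β s| ≤ η := drift_abs hη hα hβ
  have hd' : ∀ s, |drift N α' β' s| ≤ η := drift_abs hη hα' hβ'
  have hmu8 : ∀ s ∈ Finset.Ioc (2 * N) (4 * N), Real.exp (-8) ≤ mu a s := by
    intro s hs
    rw [Finset.mem_Ioc] at hs
    refine le_trans ?_ (mu_exp_le hpos (by omega))
    apply Real.exp_le_exp.2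
    have h1 : (s : ℝ) ≤ 4 * N := by exact_mod_cast hs.2
    have h2 : (s : ℝ) / a ≤ 8 := by rw [div_le_iff₀ hpos]; linarith
    linarith
  have hν0 : ∀ s, 0 ≤ ν s := by
    intro s
    by_cases hs : s ∈ Finset.Ioc (2 * N) (4 * N)
    · have h1 := hmu8 s hs
      have h2 := (abs_le.1 (hd s)).1
      simp only [hν]
      linarith
    · simp only [hν, drift_out hs, add_zero]
      exact mu_nonneg hpos s
  have hν'0 : ∀ s, 0 ≤ ν' s := by
    intro s
    by_cases hs : s ∈ Finset.Ioc (2 * N) (4 * N)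
    · have h1 := hmu8 s hs
      have h2 := (abs_le.1 (hd' s)).1
      simp only [hν']
      linarith
    · simp only [hν', drift_out hs, add_zero]
      exact mu_nonneg hpos s
  have he8 : Real.exp (-8) ≤ 0.7 := by
    have h1 : Real.exp (-8) ≤ Real.exp (-1) := Real.exp_le_exp.2 (by norm_num)
    have h2 : Real.exp (-1) < 0.3678794412 := Real.exp_neg_one_lt_d9
    norm_num at h2 ⊢
    linarith
  have hνbig : ∀ s : ℕ, 2 * N < s → ν s ≤ 1 ∧ ν' s ≤ 1 := by
    intro s hs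
    have h0 : (2 * N : ℝ) ≤ s := by exact_mod_cast hs.le
    have h1 := mu_small hpos (by linarith : 2 * a ≤ s)
    have h2 := (abs_le.1 (hd s)).2
    have h3 := (abs_le.1 (hd' s)).2
    norm_num at h1 he8
    constructor
    · show mu a s + drift N α β s ≤ 1
      linarith
    · show mu a s + drift N α' β' s ≤ 1
      linarith
  have hνlow : ∀ s : ℕ, s ≤ 2 * N → ν s = mu a s ∧ ν' s = mu a s := by
    intro s hs
    have h1 : s ∉ Finset.Ioc (2 * N) (4 * N) := by rw [Finset.mem_Ioc]; omega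
    simp only [hν, hν', drift_out h1, add_zero, and_self]
  -- the event
  set E := Mev a N TA TB α β α' β' x1 x2 with hE
  have hEdep : ∀ ω ω' : Om, (∀ s ∈ midI N TA TB, ω s = ω' s) → (ω ∈ E ↔ ω' ∈ E) :=
    fun ω ω' h => Mev_dep a α β α' β' x1 x2 ω ω' h
  have hEm : MeasurableSet E := measSet_of_dep _ hEdep
  -- first term
  have B1 := kolm_gen hν0 hν'0 (fun _ => 1) (fun _ => -1) (show 2 * N ≤ TA by omega) hx10
  have B2 := kolm_gen hν0 hν'0 (fun _ => 1) (fun _ => -1) hTBN hx10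
  have B3 := kolm_gen hν0 hν'0 (fun s => if s ∈ midI N TA TB then (s : ℝ) else 0) (fun _ => 0)
    (show TB ≤ TA by omega) hx20
  have B4 := kolm_gen hν0 hν'0 (fun _ => 0) (fun s => if s ∈ midI N TA TB then (s : ℝ) else 0)
    (show TB ≤ TA by omega) hx20
  have hTA0 : (N : ℝ) ≤ TA := by
    have : N ≤ TA := by omega
    exact_mod_cast this
  have S1 : ∑ s ∈ Finset.Ioc (2 * N) TA, (2 * (1 : ℝ) ^ 2 * (ν s * (1 + ν s))
        + 2 * (-1 : ℝ) ^ 2 * (ν' s * (1 + ν' s))) ≤ 8 * b' * N := by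
    calc _ ≤ ∑ s ∈ Finset.Ioc (2 * N) TA, (8 : ℝ) := by
          apply Finset.sum_le_sum
          intro s hs
          rw [Finset.mem_Ioc] at hs
          have h1 := hνbig s hs.1
          have h2 := hν0 s
          have h3 := hν'0 s
          exact mid_l1 h2 h1.1 h3 h1.2
      _ = ((TA - 2 * N : ℕ) : ℝ) * 8 := by rw [Finset.sum_const, Nat.card_Ioc, nsmul_eq_mul]
      _ ≤ TA * 8 := by
          apply mul_le_mul_of_nonneg_right _ (by norm_num)
          exact_mod_cast Nat.sub_le _ _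
      _ ≤ 8 * b' * N := by linarith
  have S2 : ∑ s ∈ Finset.Ioc TB N, (2 * (1 : ℝ) ^ 2 * (ν s * (1 + ν s))
        + 2 * (-1 : ℝ) ^ 2 * (ν' s * (1 + ν' s))) ≤ 4 / e1 * N := by
    calc _ ≤ ∑ s ∈ Finset.Ioc TB N, 4 * a ^ 2 * (1 / (s : ℝ) ^ 2) := by
          apply Finset.sum_le_sum
          intro s hs
          rw [Finset.mem_Ioc] at hs
          have h1 := hνlow s (by omega)
          have h2 := vv_le hpos s
          rw [h1.1, h1.2]
          unfold vv at h2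
          have h3 : 4 * a ^ 2 * (1 / (s : ℝ) ^ 2) = 2 * (2 * a ^ 2 / (s : ℝ) ^ 2) := by ring
          rw [h3]
          linarith
      _ = 4 * a ^ 2 * ∑ s ∈ Finset.Ioc TB N, 1 / (s : ℝ) ^ 2 := by rw [Finset.mul_sum]
      _ ≤ 4 * a ^ 2 * (1 / (TB : ℝ) - 1 / (N : ℝ)) :=
          mul_le_mul_of_nonneg_left (sum_inv_sq_le hTB1 hTBN) (by positivity)
      _ ≤ 4 * a ^ 2 * (1 / (e1 * a)) := by
          apply mul_le_mul_of_nonneg_left _ (by positivity)
          have h1 : 1 / (TB : ℝ) ≤ 1 / (e1 * a) := one_div_le_one_div_of_le (by positivity) hTB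
          have h2 : 0 ≤ 1 / (N : ℝ) := by positivity
          linarith
      _ = 4 / e1 * a := by field_simp
      _ ≤ 4 / e1 * N := mul_le_mul_of_nonneg_left haN he0.le
  have hterm : ∀ ν0 : ℕ → ℝ, (∀ s, 0 ≤ ν0 s) → (∀ s : ℕ, 2 * N < s → ν0 s ≤ 1) →
      (∀ s : ℕ, s ≤ 2 * N → ν0 s = mu a s) → ∀ s ∈ Finset.Ioc TB TA,
      2 * (if s ∈ midI N TA TB then (s : ℝ) else 0) ^ 2 * (ν0 s * (1 + ν0 s)) ≤ 6 * (TA : ℝ) ^ 2 := by
    intro ν0 h0 h1 h2 s hs
    rw [Finset.mem_Ioc] at hs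
    have hsT : (s : ℝ) ≤ TA := by exact_mod_cast hs.2
    have hs1 : (0 : ℝ) < s := by exact_mod_cast (by omega : 0 < s)
    by_cases hm : s ∈ midI N TA TB
    · rw [if_pos hm]
      rcases le_or_gt s (2 * N) with h3 | h3
      · rw [h2 s h3]
        have h4 := vv_le hpos s
        unfold vv at h4
        rw [le_div_iff₀ (by positivity)] at h4
        have h5 : a ^ 2 ≤ (TA : ℝ) ^ 2 := pow_le_pow_left₀ hpos.le (haN.trans hTA0) 2
        exact mid_l3 h4 h5
      · have h4 := h1 s h3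
        have h5 := h0 s
        have h6 : (s : ℝ) ^ 2 ≤ (TA : ℝ) ^ 2 := pow_le_pow_left₀ hs1.le hsT 2
        have h7 : ν0 s * (1 + ν0 s) ≤ 2 := mid_l2 h5 h4
        have h8 : 0 ≤ ν0 s * (1 + ν0 s) := by positivity
        calc 2 * (s : ℝ) ^ 2 * (ν0 s * (1 + ν0 s)) ≤ 2 * (TA : ℝ) ^ 2 * 2 := by
              apply mul_le_mul _ h7 h8 (by positivity)
              linarith
          _ ≤ _ := by
              have h9 := sq_nonneg (TA : ℝ)
              linarith
    · rw [if_neg hm]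
      simp only [ne_eq, OfNat.ofNat_ne_zero, not_false_eq_true, zero_pow, mul_zero, zero_mul]
      positivity
  have S3gen : ∀ f : ℕ → ℝ, (∀ s ∈ Finset.Ioc TB TA, f s ≤ 6 * (TA : ℝ) ^ 2) →
      ∑ s ∈ Finset.Ioc TB TA, f s ≤ 6 * b' ^ 3 * (N : ℝ) ^ 3 := by
    intro f hf
    calc ∑ s ∈ Finset.Ioc TB TA, f s ≤ ∑ s ∈ Finset.Ioc TB TA, 6 * (TA : ℝ) ^ 2 :=
          Finset.sum_le_sum hf
      _ = ((TA - TB : ℕ) : ℝ) * (6 * (TA : ℝ) ^ 2) := by
          rw [Finset.sum_const, Nat.card_Ioc, nsmul_eq_mul]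
      _ ≤ TA * (6 * (TA : ℝ) ^ 2) := by
          apply mul_le_mul_of_nonneg_right _ (by positivity)
          exact_mod_cast Nat.sub_le _ _
      _ = 6 * (TA : ℝ) ^ 3 := by ring
      _ ≤ 6 * (b' * N) ^ 3 := by
          apply mul_le_mul_of_nonneg_left _ (by norm_num)
          exact pow_le_pow_left₀ (Nat.cast_nonneg _) hTA' 3
      _ = _ := by ring
  have S3 := S3gen (fun s => 2 * (if s ∈ midI N TA TB then (s : ℝ) else 0) ^ 2 * (ν s * (1 + ν s))
        + 2 * (0 : ℝ) ^ 2 * (ν' s * (1 + ν' s))) (fun s hs => by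
      have := hterm ν hν0 (fun s h => (hνbig s h).1) (fun s h => (hνlow s h).1) s hs
      simp only [ne_eq, OfNat.ofNat_ne_zero, not_false_eq_true, zero_pow, mul_zero, zero_mul, add_zero]
      simpa using this)
  have S4 := S3gen (fun s => 2 * (0 : ℝ) ^ 2 * (ν s * (1 + ν s))
        + 2 * (if s ∈ midI N TA TB then (s : ℝ) else 0) ^ 2 * (ν' s * (1 + ν' s))) (fun s hs => by
      have := hterm ν' hν'0 (fun s h => (hνbig s h).2) (fun s h => (hνlow s h).2) s hs
      simp only [ne_eq, OfNat.ofNat_ne_zero, not_false_eq_true, zero_pow, mul_zero, zero_mul, zero_add]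
      simpa using this)
  have D1 := B1.trans (div_le_div_of_nonneg_right S1 (by positivity))
  have D2 := B2.trans (div_le_div_of_nonneg_right S2 (by positivity))
  have D3 := B3.trans (div_le_div_of_nonneg_right S3 (by positivity))
  have D4 := B4.trans (div_le_div_of_nonneg_right S4 (by positivity))
  have hmidsub : midI N TA TB ⊆ Finset.Ioc TB TA := by
    unfold midI
    intro s hs
    rw [Finset.mem_union, Finset.mem_Ioc, Finset.mem_Ioc] at hs
    rw [Finset.mem_Ioc]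
    omega
  have hsum : ∀ f : ℕ → ℝ, ∑ s ∈ Finset.Ioc TB TA, (if s ∈ midI N TA TB then (s : ℝ) else 0) * f s
      = ∑ s ∈ midI N TA TB, (s : ℝ) * f s := by
    intro f
    have : ∀ s ∈ Finset.Ioc TB TA, (if s ∈ midI N TA TB then (s : ℝ) else 0) * f s
        = if s ∈ midI N TA TB then (s : ℝ) * f s else 0 := by
      intro s _
      split_ifs <;> simp
    rw [Finset.sum_congr rfl this, Finset.sum_ite_mem, Finset.inter_eq_right.2 hmidsub]
  have hcover : Eᶜ ⊆ ({ω | ∃ t, 2 * N ≤ t ∧ t ≤ TA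
      ∧ x1 ≤ |∑ s ∈ Finset.Ioc t TA, (1 * (ma s ω - ν s) + -1 * (mb s ω - ν' s))|}
      ∪ {ω | ∃ t, TB ≤ t ∧ t ≤ N
      ∧ x1 ≤ |∑ s ∈ Finset.Ioc t N, (1 * (ma s ω - ν s) + -1 * (mb s ω - ν' s))|})
      ∪ ({ω | ∃ t, TB ≤ t ∧ t ≤ TA ∧ x2 ≤ |∑ s ∈ Finset.Ioc t TA,
        ((if s ∈ midI N TA TB then (s : ℝ) else 0) * (ma s ω - ν s) + 0 * (mb s ω - ν' s))|}
      ∪ {ω | ∃ t, TB ≤ t ∧ t ≤ TA ∧ x2 ≤ |∑ s ∈ Finset.Ioc t TA,
        (0 * (ma s ω - ν s) + (if s ∈ midI N TA TB then (s : ℝ) else 0) * (mb s ω - ν' s))|}) := by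
    intro ω hω
    by_contra hcon
    simp only [Set.mem_union, Set.mem_ofPred_eq, not_or, not_exists, not_and, not_le] at hcon
    obtain ⟨⟨c1, c2⟩, c3, c4⟩ := hcon
    apply hω
    refine ⟨fun t ht ht' => ?_, fun t ht ht' => ?_, ?_, ?_⟩
    · refine le_trans (le_of_eq ?_) (c1 t ht ht').le
      congr 1
      apply Finset.sum_congr rfl
      intro s _
      simp only [hν, hν', xs]
      ring
    · refine le_trans (le_of_eq ?_) (c2 t ht ht').le
      congr 1
      unfold NS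
      apply Finset.sum_congr rfl
      intro s hs
      rw [Finset.mem_Ioc] at hs
      have h1 := hνlow s (by omega)
      rw [h1.1, h1.2]
      unfold xs
      ring
    · refine le_trans (le_of_eq ?_) (c3 TB le_rfl (by omega)).le
      congr 1
      simp only [zero_mul, add_zero]
      rw [hsum]
      apply Finset.sum_congr rfl
      intro s _
      simp only [hν]
      ring
    · refine le_trans (le_of_eq ?_) (c4 TB le_rfl (by omega)).le
      congr 1
      simp only [zero_mul, zero_add]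
      rw [hsum]
      apply Finset.sum_congr rfl
      intro s _
      simp only [hν']
      ring
  have hcompl : (PP ν ν').real Eᶜ ≤ 1 / 2 := by
    refine (measureReal_mono hcover (measure_ne_top _ _)).trans ?_
    refine (measureReal_union_le _ _).trans ?_
    refine (add_le_add (measureReal_union_le _ _) (measureReal_union_le _ _)).trans ?_
    refine (add_le_add (add_le_add D1 D2) (add_le_add D3 D4)).trans ?_
    rw [hx1s, hx2s]
    have e1' : 8 * b' * N / (C1 ^ 2 * N) = 8 * b' / C1 ^ 2 := by field_simp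
    have e2' : 4 / e1 * N / (C1 ^ 2 * N) = 4 / e1 / C1 ^ 2 := by field_simp
    have e3' : 6 * b' ^ 3 * (N : ℝ) ^ 3 / (C1 ^ 2 * (N : ℝ) ^ 3) = 6 * b' ^ 3 / C1 ^ 2 := by
      field_simp
    rw [e1', e2', e3']
    have e4' : 8 * b' / C1 ^ 2 + 4 / e1 / C1 ^ 2 + (6 * b' ^ 3 / C1 ^ 2 + 6 * b' ^ 3 / C1 ^ 2)
        = (8 * b' + 4 / e1 + 12 * b' ^ 3) / C1 ^ 2 := by ring
    rw [e4', div_le_iff₀ (by positivity)]
    have h1 : 1 ≤ C1 := by rw [hC1]; linarith
    have h2 : C1 ≤ C1 ^ 2 := mid_l4 h1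
    have h3 : 2 * (8 * b' + 4 / e1 + 12 * b' ^ 3) ≤ C1 := by rw [hC1]; linarith
    linarith
  have hhalf : 1 / 2 ≤ (PP ν ν').real E := by
    have := probReal_add_probReal_compl (μ := PP ν ν') hEm
    linarith
  -- tilting
  have hexp8 : Real.exp 8 * Real.exp (-8) = 1 := by rw [← Real.exp_add]; simp
  have hsmall : ∀ s ∈ Finset.Ioc (2 * N) (4 * N), ∀ z : ℝ, |z| ≤ η →
      z ^ 2 ≤ mu a s * (1 + mu a s) / 2 ∧ z ^ 2 / (mu a s * (1 + mu a s)) ≤ η ^ 2 * Real.exp 8 := by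
    intro s hs z hz
    have h1 := hmu8 s hs
    have h2 : z ^ 2 ≤ η ^ 2 := by rw [← sq_abs z]; exact pow_le_pow_left₀ (abs_nonneg _) hz 2
    have h0 := Real.exp_pos (-8 : ℝ)
    have h4 : mu a s ≤ mu a s * (1 + mu a s) := mid_l5 (mu_nonneg hpos s)
    constructor
    · have h3 : η ^ 2 ≤ Real.exp (-8) / 2 := by
        have h5 : Real.exp (-8) ≤ 1 / 2 := by
          have h6 : Real.exp (-8) ≤ Real.exp (-1) := Real.exp_le_exp.2 (by norm_num)
          have h7 : Real.exp (-1) < 0.3678794412 := Real.exp_neg_one_lt_d9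
          norm_num at h7 ⊢
          linarith
        exact mid_l6 hη hη8 h5 h0
      linarith
    · rw [div_le_iff₀ (by linarith)]
      calc z ^ 2 ≤ η ^ 2 * (Real.exp 8 * Real.exp (-8)) := by rw [hexp8, mul_one]; exact h2
        _ ≤ η ^ 2 * (Real.exp 8 * (mu a s * (1 + mu a s))) := by
            apply mul_le_mul_of_nonneg_left _ (sq_nonneg _)
            exact mul_le_mul_of_nonneg_left (h1.trans h4) (Real.exp_pos _).le
        _ = _ := by ring
  have htilt := tilt (mu a) (mu a) ν ν' (Finset.Ioc (2 * N) (4 * N)) (midI N TA TB) hEdep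
    (fun s hs => by
      have h1 := hmu8 s hs
      have h0 := Real.exp_pos (-8 : ℝ)
      exact ⟨by linarith, by linarith, hν0 s, hν'0 s⟩)
    (fun s hs => by simp only [hν, hν', drift_out hs, add_zero, and_self])
    (fun s hs => by
      have h1 : ν s - mu a s = drift N α β s := by simp only [hν]; ring
      have h2 : ν' s - mu a s = drift N α' β' s := by simp only [hν']; ring
      rw [h1, h2]
      exact ⟨(hsmall s hs _ (hd s)).1, (hsmall s hs _ (hd' s)).1⟩)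
    (X := 8 * Real.exp 8 * N * η ^ 2) (by
      calc ∑ s ∈ Finset.Ioc (2 * N) (4 * N), 2 * ((ν s - mu a s) ^ 2 / (mu a s * (1 + mu a s))
            + (ν' s - mu a s) ^ 2 / (mu a s * (1 + mu a s)))
          ≤ ∑ s ∈ Finset.Ioc (2 * N) (4 * N), 4 * (η ^ 2 * Real.exp 8) := by
            apply Finset.sum_le_sum
            intro s hs
            have h1 : ν s - mu a s = drift N α β s := by simp only [hν]; ring
            have h2 : ν' s - mu a s = drift N α' β' s := by simp only [hν']; ring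
            rw [h1, h2]
            have h3 := (hsmall s hs _ (hd s)).2
            have h4 := (hsmall s hs _ (hd' s)).2
            linarith
        _ = ((4 * N - 2 * N : ℕ) : ℝ) * (4 * (η ^ 2 * Real.exp 8)) := by
            rw [Finset.sum_const, Nat.card_Ioc, nsmul_eq_mul]
        _ = 8 * Real.exp 8 * N * η ^ 2 := by
            have : 4 * N - 2 * N = 2 * N := by omega
            rw [this]
            push_cast
            ring
        _ ≤ _ := le_rfl)
  have h4 : (1 / 2 : ℝ) ^ 2 ≤ ((PP ν ν').real E) ^ 2 := pow_le_pow_left₀ (by norm_num) hhalf 2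
  have h5 := h4.trans htilt
  show 1 / 4 * Real.exp (-(8 * Real.exp 8 * N * η ^ 2)) ≤ (PP (mu a) (mu a)).real E
  rw [Real.exp_neg, ← div_eq_mul_inv, div_le_iff₀ (Real.exp_pos _)]
  linarith

end Pool.Agent.Helper95.Dom
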