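import Pool.Agent.Helper95.DomGauss

/-!
The parameters of the geometric variables.
-/

namespace Pool.Agent.Helper95.Dom

open MeasureTheory ProbabilityTheory Filter
open scoped Topology

/-- mean of the multiplicity of the part `s` at parameter `a`. -/
noncomputable def mu (a : ℝ) (s : ℕ) : ℝ := (Real.exp (s / a) - 1)⁻¹

theorem mu_zero (a : ℝ) : mu a 0 = 0 := by simp [mu]

theorem mu_nonneg {a : ℝ} (ha : 0 < a) (s : ℕ) : 0 ≤ mu a s := by
  unfold mu
  apply inv_nonneg.2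
  have : 0 ≤ (s : ℝ) / a := by positivity
  have := Real.one_le_exp this
  linarith

theorem exp_sub_pos {x : ℝ} (hx : 0 < x) : 0 < Real.exp x - 1 := by
  have := Real.add_one_lt_exp hx.ne'
  linarith

theorem vv_mu {a : ℝ} (ha : 0 < a) {s : ℕ} (hs : 1 ≤ s) :
    vv (mu a) s = 2 * (Real.exp (s / a) / (Real.exp (s / a) - 1) ^ 2) := by
  have hs' : (0 : ℝ) < s := by exact_mod_cast hs
  have h := exp_sub_pos (div_pos hs' ha)
  unfold vv mu
  field_simp
  ring

theorem vv_le {a : ℝ} (ha : 0 < a) (s : ℕ) : vv (mu a) s ≤ 2 * a ^ 2 / (s : ℝ) ^ 2 := by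
  rcases Nat.eq_zero_or_pos s with rfl | hs
  · simp [vv, mu_zero]
  have hs' : (0 : ℝ) < s := by exact_mod_cast hs
  rw [vv_mu ha hs]
  set x := (s : ℝ) / a with hx
  have hx0 : 0 < x := div_pos hs' ha
  have h1 : x * Real.exp (x / 2) ≤ Real.exp x - 1 := by
    have h2 := (Real.self_le_sinh_iff (x := x / 2)).2 (by positivity)
    rw [Real.sinh_eq] at h2
    have h3 : Real.exp (x / 2) * Real.exp (x / 2) = Real.exp x := by
      rw [← Real.exp_add]; congr 1; ring
    have h4 : Real.exp (-(x / 2)) * Real.exp (x / 2) = 1 := by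
      rw [← Real.exp_add]; simp
    have h5 := mul_le_mul_of_nonneg_right h2 (Real.exp_pos (x / 2)).le
    nlinarith
  have h6 := exp_sub_pos hx0
  have h7 : x ^ 2 * Real.exp x ≤ (Real.exp x - 1) ^ 2 := by
    have h3 : Real.exp (x / 2) ^ 2 = Real.exp x := by
      rw [sq, ← Real.exp_add]; congr 1; ring
    calc x ^ 2 * Real.exp x = (x * Real.exp (x / 2)) ^ 2 := by rw [mul_pow, h3]
      _ ≤ _ := pow_le_pow_left₀ (by positivity) h1 2
  have h8 : 2 * a ^ 2 / (s : ℝ) ^ 2 = 2 * (1 / x ^ 2) := by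
    rw [hx]; field_simp
  rw [h8]
  apply mul_le_mul_of_nonneg_left _ (by norm_num)
  rw [div_le_div_iff₀ (by positivity) (by positivity)]
  linarith

theorem vv_ge {a : ℝ} (ha : 0 < a) (s : ℕ) :
    2 * a ^ 2 / (s : ℝ) ^ 2 * Real.exp (-(s / a)) ≤ vv (mu a) s := by
  rcases Nat.eq_zero_or_pos s with rfl | hs
  · simp [vv, mu_zero]
  have hs' : (0 : ℝ) < s := by exact_mod_cast hs
  rw [vv_mu ha hs]
  set x := (s : ℝ) / a with hx
  have hx0 : 0 < x := div_pos hs' ha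
  have h6 := exp_sub_pos hx0
  have h1 : Real.exp x - 1 ≤ x * Real.exp x := by
    have h2 := Real.add_one_le_exp (-x)
    have h3 : Real.exp (-x) * Real.exp x = 1 := by rw [← Real.exp_add]; simp
    have h5 := mul_le_mul_of_nonneg_right h2 (Real.exp_pos x).le
    nlinarith
  have h8 : 2 * a ^ 2 / (s : ℝ) ^ 2 = 2 * (1 / x ^ 2) := by
    rw [hx]; field_simp
  rw [h8, mul_assoc]
  apply mul_le_mul_of_nonneg_left _ (by norm_num)
  have h9 : 1 / x ^ 2 * Real.exp (-x) = Real.exp x / (x * Real.exp x) ^ 2 := by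
    rw [Real.exp_neg]
    have := (Real.exp_pos x).ne'
    field_simp
  rw [h9]
  apply div_le_div_of_nonneg_left (Real.exp_pos x).le (by positivity)
  exact pow_le_pow_left₀ h6.le h1 2

theorem vv_eq' {a : ℝ} (ha : 0 < a) {s : ℕ} (hs : 1 ≤ s) :
    vv (mu a) s = 2 * Real.exp (-(s / a)) / (1 - Real.exp (-(s / a))) ^ 2 := by
  have hs' : (0 : ℝ) < s := by exact_mod_cast hs
  rw [vv_mu ha hs]
  set x := (s : ℝ) / a with hx
  have hx0 : 0 < x := div_pos hs' ha
  have h6 := exp_sub_pos hx0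
  have h7 := (Real.exp_pos x).ne'
  have h8 : 1 - Real.exp (-x) = (Real.exp x - 1) / Real.exp x := by
    rw [Real.exp_neg]; field_simp
  rw [h8, Real.exp_neg]
  field_simp

theorem vv_ge' {a : ℝ} (ha : 0 < a) {s : ℕ} (hs : 1 ≤ s) :
    2 * Real.exp (-(s / a)) ≤ vv (mu a) s := by
  have hs' : (0 : ℝ) < s := by exact_mod_cast hs
  rw [vv_eq' ha hs]
  have hx0 : 0 < (s : ℝ) / a := div_pos hs' ha
  have h1 : Real.exp (-((s : ℝ) / a)) < 1 := Real.exp_lt_one_iff.2 (by linarith) 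
  have h2 := Real.exp_pos (-((s : ℝ) / a))
  rw [le_div_iff₀ (by nlinarith)]
  have : (1 - Real.exp (-((s : ℝ) / a))) ^ 2 ≤ 1 := by nlinarith
  nlinarith

theorem vv_le' {a : ℝ} (ha : 0 < a) {s : ℕ} {u : ℝ} (hu : 0 < u) (hs : u * a ≤ s) :
    vv (mu a) s ≤ 2 * Real.exp (-(s / a)) / (1 - Real.exp (-u)) ^ 2 := by
  have hua : 0 < u * a := by positivity
  have hs' : (0 : ℝ) < s := by linarith
  have hs1 : 1 ≤ s := by exact_mod_cast hs'
  rw [vv_eq' ha hs1]
  have h1 : u ≤ (s : ℝ) / a := by rwa [le_div_iff₀ ha]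
  have h2 : Real.exp (-((s : ℝ) / a)) ≤ Real.exp (-u) := Real.exp_le_exp.2 (by linarith)
  have h3 : Real.exp (-u) < 1 := Real.exp_lt_one_iff.2 (by linarith)
  apply div_le_div_of_nonneg_left (by positivity) (by nlinarith)
  nlinarith

/-- crude bound for `s ≥ a`. -/
theorem vv_le_six {a : ℝ} (ha : 0 < a) {s : ℕ} (hs : a ≤ s) :
    vv (mu a) s ≤ 6 * Real.exp (-(s / a)) := by
  have h := vv_le' ha (u := 1) one_pos (by linarith : (1 : ℝ) * a ≤ s)
  refine h.trans ?_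
  rw [div_le_iff₀]
  · have h1 : Real.exp (-1) < 0.3678794412 := Real.exp_neg_one_lt_d9
    have h2 := Real.exp_pos (-((s : ℝ) / a))
    have h3 : (0.6 : ℝ) ≤ 1 - Real.exp (-1) := by norm_num at h1 ⊢; linarith
    have h4 : (1 / 3 : ℝ) ≤ (1 - Real.exp (-1)) ^ 2 := by nlinarith
    nlinarith
  · have h1 : Real.exp (-1) < 1 := Real.exp_lt_one_iff.2 (by norm_num)
    nlinarith

end Pool.Agent.Helper95.Dom
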