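import Pool.Agent.Helper95.DomSym

/-!
Continuity, positivity and supermultiplicativity of the persistence probabilities.
-/

namespace Pool.Agent.Helper95.Dom

open MeasureTheory ProbabilityTheory Filter
open scoped Topology

theorem gam_nonneg (m l : ℕ) (x : ℝ) : 0 ≤ gam m l x := measureReal_nonneg

theorem gam_le_one (m l : ℕ) (x : ℝ) : gam m l x ≤ 1 := measureReal_le_one

theorem gam_anti (m l : ℕ) {x y : ℝ} (h : x ≤ y) : gam m l y ≤ gam m l x := by
  unfold gam
  apply measureReal_mono _ (measure_ne_top _ _)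
  intro z hz i
  exact h.trans (hz i)

theorem gam_neg_tendsto (m l : ℕ) : Tendsto (fun n : ℕ => gam m l (-(n : ℝ))) atTop (𝓝 1) := by
  have h1 : Tendsto (fun n : ℕ => (multivariateGaussian 0 (covGrid m l))
      {x : EuclideanSpace ℝ (Fin (l * m + 1)) | ∀ i, -(n : ℝ) ≤ x i}) atTop
      (𝓝 ((multivariateGaussian 0 (covGrid m l)) (⋃ n : ℕ,
        {x : EuclideanSpace ℝ (Fin (l * m + 1)) | ∀ i, -(n : ℝ) ≤ x i}))) := by
    apply tendsto_measure_iUnion_atTop
    intro n k hnk x hx i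
    have h2 : (n : ℝ) ≤ k := by exact_mod_cast hnk
    have := hx i
    show -(k : ℝ) ≤ x i
    linarith
  have h2 : (⋃ n : ℕ, {x : EuclideanSpace ℝ (Fin (l * m + 1)) | ∀ i, -(n : ℝ) ≤ x i})
      = Set.univ := by
    rw [Set.eq_univ_iff_forall]
    intro x
    rw [Set.mem_iUnion]
    obtain ⟨n, hn⟩ := exists_nat_ge (∑ i, |x i|)
    refine ⟨n, fun i => ?_⟩
    have h3 : |x i| ≤ ∑ j, |x j| :=
      Finset.single_le_sum (f := fun j => |x j|) (fun j _ => abs_nonneg _) (Finset.mem_univ i)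
    have h4 := neg_abs_le (x i)
    linarith
  rw [h2, measure_univ] at h1
  have h3 := (ENNReal.tendsto_toReal (by simp)).comp h1
  rw [ENNReal.toReal_one] at h3
  exact h3

theorem gam_pos {m l : ℕ} (hm : 1 ≤ m) (hl : 1 ≤ l) (x : ℝ) : 0 < gam m l x := by
  have h1 := (gam_neg_tendsto m l).eventually_const_lt (show (1 / 2 : ℝ) < 1 by norm_num)
  obtain ⟨n, hn, hn2⟩ := (h1.and (eventually_ge_atTop ⌈-x⌉₊)).exists
  have h2 : 0 ≤ x + n := by
    have h3 := Nat.le_ceil (-x)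
    have h4 : ((⌈-x⌉₊ : ℕ) : ℝ) ≤ n := by exact_mod_cast hn2
    linarith
  have h3 := gam_shift hm hl (covGrid_psd m l) x (x + n) (1 / 2) h2 (by norm_num) (by norm_num)
  have h4 : x - (x + n) = -(n : ℝ) := by ring
  rw [h4] at h3
  rcases (gam_nonneg m l x).lt_or_eq with h | h
  · exact h
  · rw [← h] at h3
    have h5 : (0 : ℝ) ^ (1 / 2 : ℝ) = 0 := Real.zero_rpow (by norm_num)
    rw [h5] at h3
    linarith

theorem gam_cont {l : ℕ} (hl : 1 ≤ l) {p q : ℝ} (hpq : p < q) :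
    ∃ x : ℝ, 0 < x ∧ ∀ m : ℕ, 1 ≤ m → q ≤ gam m l 0 → p < gam m l x := by
  rcases le_or_gt q 0 with hq | hq
  · exact ⟨1, one_pos, fun m hm _ => by linarith [gam_nonneg m l 1]⟩
  set p' := max p (q / 2) with hp'
  have h0 : 0 < p' := lt_of_lt_of_le (by linarith) (le_max_right _ _)
  have h1 : p' < q := max_lt hpq (by linarith)
  -- choose θ
  have c1 : Tendsto (fun θ : ℝ => p' ^ θ) (𝓝 1) (𝓝 (p' ^ (1 : ℝ))) :=
    (Real.continuousAt_const_rpow h0.ne').tendsto
  rw [Real.rpow_one] at c1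
  have c2 : ∀ᶠ θ in 𝓝 (1 : ℝ), p' ^ θ < (p' + q) / 2 := c1.eventually_lt_const (by linarith)
  have c3 : ∀ᶠ θ in 𝓝[<] (1 : ℝ), p' ^ θ < (p' + q) / 2 := c2.filter_mono nhdsWithin_le_nhds
  have c4 : ∀ᶠ θ in 𝓝[<] (1 : ℝ), θ ∈ Set.Ioo (0 : ℝ) 1 :=
    Ioo_mem_nhdsLT (by norm_num)
  obtain ⟨θ, h2, h3⟩ := (c3.and c4).exists
  -- choose x
  have c5 : Tendsto (fun x : ℝ => p' ^ θ * Real.exp (80 * l * x ^ 2 * θ / (1 - θ))) (𝓝 0)
      (𝓝 (p' ^ θ * Real.exp (80 * l * 0 ^ 2 * θ / (1 - θ)))) := by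
    apply Continuous.tendsto
    fun_prop
  have c6 : p' ^ θ * Real.exp (80 * l * 0 ^ 2 * θ / (1 - θ)) < q := by
    simp
    linarith
  have c7 := (c5.eventually_lt_const c6).filter_mono (nhdsWithin_le_nhds (s := Set.Ioi 0))
  obtain ⟨x, h4, h5⟩ := (c7.and self_mem_nhdsWithin).exists
  refine ⟨x, h5, fun m hm hqm => ?_⟩
  by_contra hcon
  push Not at hcon
  have h5' : 0 < x := h5
  have h6 := gam_shift hm hl (covGrid_psd m l) x x θ h5'.le h3.1 h3.2
  rw [sub_self] at h6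
  have h7 : (gam m l x) ^ θ ≤ p' ^ θ :=
    Real.rpow_le_rpow (gam_nonneg _ _ _) (hcon.trans (le_max_left _ _)) h3.1.le
  have h8 := mul_le_mul_of_nonneg_right h7 (Real.exp_pos (80 * l * x ^ 2 * θ / (1 - θ))).le
  linarith

theorem DA_dep (S t : ℕ) (ω ω' : Om) (h : ∀ s ∈ Finset.Ioc t S, ω s = ω' s) :
    DA S t ω = DA S t ω' := by
  unfold DA
  apply Finset.sum_congr rfl
  intro s hs
  simp only [Finset.mem_Icc] at hs
  rcases le_or_gt s t with h1 | h1
  · have : s - t = 0 := by omega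
    rw [this]; simp
  · rw [xs_dep s ω ω' (h s (by simp only [Finset.mem_Ioc]; omega))]

theorem DA_mono (S t : ℕ) (ω ω' : Om) (h : ∀ s ∈ Finset.Ioc t S, xs s ω ≤ xs s ω') :
    DA S t ω ≤ DA S t ω' := by
  unfold DA
  apply Finset.sum_le_sum
  intro s hs
  simp only [Finset.mem_Icc] at hs
  rcases le_or_gt s t with h1 | h1
  · have : s - t = 0 := by omega
    rw [this]; simp
  · exact mul_le_mul_of_nonneg_left (h s (by simp only [Finset.mem_Ioc]; omega)) (Nat.cast_nonneg _)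

theorem GB_mono (T t : ℕ) (ω ω' : Om) (h : ∀ s ∈ Finset.Icc 1 T, xs s ω ≤ xs s ω') :
    GB T t ω ≤ GB T t ω' := by
  unfold GB
  apply Finset.sum_le_sum
  intro s hs
  exact mul_le_mul_of_nonneg_left (h s hs) (Nat.cast_nonneg _)

theorem meshA_inc (a u : ℝ) (S m l : ℕ) (x : ℝ) : Inc (Finset.Icc 1 S) (meshA a u S m l x) := by
  intro ω hω ω' h i hi
  refine (hω i hi).trans (DA_mono S _ ω ω' fun s hs => h s ?_)
  simp only [Finset.mem_Ioc, Finset.mem_Icc] at hs ⊢
  omega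

theorem tA_add {m : ℕ} (hm : 1 ≤ m) (a u : ℝ) (l i : ℕ) :
    tA a (u + l) m i = tA a u m (l * m + i) := by
  unfold tA
  congr 2
  have : (m : ℝ) ≠ 0 := by positivity
  push_cast
  field_simp
  ring

theorem tB_add {m : ℕ} (hm : 1 ≤ m) (u : ℝ) (l i : ℕ) :
    tB (u + l) m i = tB u m (l * m + i) := by
  unfold tB
  congr 2
  have : (m : ℝ) ≠ 0 := by positivity
  push_cast
  field_simp
  ring

/-- good parameters exist for every bound. -/
theorem exists_params (K0 : ℝ) (hK : 1 ≤ K0) (l : ℕ) : ∃ (a u : ℝ) (S : ℕ), 0 < a ∧ K0 ≤ u ∧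
    K0 ≤ a * Real.exp (-(u + l)) ∧ K0 + l ≤ S / a - u := by
  refine ⟨K0 * Real.exp (K0 + l), K0, ⌈(K0 * Real.exp (K0 + l)) * (2 * K0 + l)⌉₊, by positivity, le_rfl,
    ?_, ?_⟩
  · rw [mul_assoc, ← Real.exp_add]
    simp
  · have h1 := Nat.le_ceil ((K0 * Real.exp (K0 + l)) * (2 * K0 + l))
    have h2 : 2 * K0 + l ≤ (⌈(K0 * Real.exp (K0 + l)) * (2 * K0 + l)⌉₊ : ℝ)
        / (K0 * Real.exp (K0 + l)) := by
      rw [le_div_iff₀ (by positivity)]
      linarith
    linarith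

theorem persGrid_super {m : ℕ} (hm : 1 ≤ m) {l l' : ℕ} (hl : 1 ≤ l) (hl' : 1 ≤ l') :
    persGrid m l * persGrid m l' ≤ persGrid m (l + l') := by
  -- first with a level `x > 0`
  have step : ∀ x : ℝ, 0 < x → gam m l x * gam m l' x ≤ gam m (l + l') 0 := by
    intro x hx
    apply le_of_forall_pos_le_add
    intro η hη
    set δ := min (η / 3) 1 with hδ
    have hδ0 : 0 < δ := lt_min (by linarith) one_pos
    have hδ1 : δ ≤ 1 := min_le_right _ _
    have hδ2 : δ ≤ η / 3 := min_le_left _ _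
    obtain ⟨K1, hK1, h1⟩ := meshA_upper m (l + l') 0 hδ0
    obtain ⟨K2, hK2, h2⟩ := meshA_lower m l hx hδ0
    obtain ⟨K3, hK3, h3⟩ := meshA_lower m l' hx hδ0
    set K := max K1 (max K2 K3) with hKdef
    have hKa : K1 ≤ K := le_max_left _ _
    have hKb : K2 ≤ K := (le_max_left _ _).trans (le_max_right _ _)
    have hKc : K3 ≤ K := (le_max_right _ _).trans (le_max_right _ _)
    obtain ⟨a, u, S, ha, hu, hau, hS⟩ := exists_params K (by linarith) l
    have hl0 : (0 : ℝ) ≤ l := Nat.cast_nonneg l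
    have hau' : K ≤ a * Real.exp (-u) := by
      refine hau.trans ?_
      apply mul_le_mul_of_nonneg_left _ ha.le
      apply Real.exp_le_exp.2
      linarith
    have e1 := h1 a u S (by linarith) (by linarith) (by linarith)
    have e2 := h2 a u S (by linarith) (by linarith) (by linarith)
    have e3 := h3 a (u + l) S (by linarith) (by linarith) (by linarith)
    have e4 := harris (mu a) (mu a) (meshA_inc a u S m l 0) (meshA_inc a (u + l) S m l' 0)
    have e5 : meshA a u S m l 0 ∩ meshA a (u + l) S m l' 0 ⊆ meshA a u S m (l + l') 0 := by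
      rintro ω ⟨w1, w2⟩ i hi
      rcases le_or_gt i (l * m) with h | h
      · exact w1 i h
      · obtain ⟨j, rfl⟩ := Nat.exists_eq_add_of_le h.le
        rw [← tA_add hm]
        apply w2
        rw [add_mul] at hi
        omega
    have e6 : (PA a).real (meshA a u S m l 0 ∩ meshA a (u + l) S m l' 0)
        ≤ (PA a).real (meshA a u S m (l + l') 0) := measureReal_mono e5 (measure_ne_top _ _)
    have e7 : (PA a).real (meshA a u S m l 0) * (PA a).real (meshA a (u + l) S m l' 0)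
        ≤ gam m (l + l') 0 + δ := e4.trans (e6.trans e1)
    have g1 := gam_nonneg m l x
    have g2 := gam_nonneg m l' x
    have g3 := gam_le_one m l x
    have g4 := gam_le_one m l' x
    have p1 : (0 : ℝ) ≤ (PA a).real (meshA a u S m l 0) := measureReal_nonneg
    have p2 : (0 : ℝ) ≤ (PA a).real (meshA a (u + l) S m l' 0) := measureReal_nonneg
    have p3 : (PA a).real (meshA a (u + l) S m l' 0) ≤ 1 := measureReal_le_one
    have p4 : (PA a).real (meshA a u S m l 0) ≤ 1 := measureReal_le_one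
    have f1 : gam m l x ≤ (PA a).real (meshA a u S m l 0) + δ := by linarith
    have f2 : gam m l' x ≤ (PA a).real (meshA a (u + l) S m l' 0) + δ := by linarith
    have f3 : gam m l x * gam m l' x
        ≤ (PA a).real (meshA a u S m l 0) * (PA a).real (meshA a (u + l) S m l' 0) + 2 * δ := by
      calc gam m l x * gam m l' x ≤ ((PA a).real (meshA a u S m l 0) + δ) * gam m l' x :=
            mul_le_mul_of_nonneg_right f1 g2
        _ = (PA a).real (meshA a u S m l 0) * gam m l' x + δ * gam m l' x := by ring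
        _ ≤ (PA a).real (meshA a u S m l 0) * ((PA a).real (meshA a (u + l) S m l' 0) + δ)
            + δ * 1 := by
            apply add_le_add
            · exact mul_le_mul_of_nonneg_left f2 p1
            · exact mul_le_mul_of_nonneg_left g4 hδ0.le
        _ ≤ _ := by nlinarith
    linarith
  apply le_of_forall_lt
  intro c hc
  -- choose levels
  rcases le_or_gt 0 c with hc0 | hc0
  · have hA := gam_pos hm hl 0
    have hB := gam_pos hm hl' 0
    rw [← gam_zero, ← gam_zero] at hc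
    -- split the gap
    have c1 : Tendsto (fun δ : ℝ => (gam m l 0 - δ) * (gam m l' 0 - δ)) (𝓝 0)
        (𝓝 ((gam m l 0 - 0) * (gam m l' 0 - 0))) := by
      apply Continuous.tendsto
      fun_prop
    rw [sub_zero, sub_zero] at c1
    have c2 : ∀ᶠ δ in 𝓝[>] (0 : ℝ), c < (gam m l 0 - δ) * (gam m l' 0 - δ) :=
      (c1.eventually_const_lt hc).filter_mono nhdsWithin_le_nhds
    have c3 : ∀ᶠ δ in 𝓝[>] (0 : ℝ), δ < min (gam m l 0) (gam m l' 0) :=
      (eventually_lt_nhds (lt_min hA hB)).filter_mono nhdsWithin_le_nhds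
    obtain ⟨δ, ⟨h1, h2⟩, h3⟩ := ((c2.and c3).and self_mem_nhdsWithin).exists
    have h3' : 0 < δ := h3
    obtain ⟨x1, hx1, g1⟩ := gam_cont hl (p := gam m l 0 - δ) (q := gam m l 0) (by linarith)
    obtain ⟨x2, hx2, g2⟩ := gam_cont hl' (p := gam m l' 0 - δ) (q := gam m l' 0) (by linarith)
    have g1' := g1 m hm le_rfl
    have g2' := g2 m hm le_rfl
    have g3 := gam_anti m l (min_le_left x1 x2)
    have g4 := gam_anti m l' (min_le_right x1 x2)
    have s := step (min x1 x2) (lt_min hx1 hx2)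
    rw [← gam_zero]
    have b1 : 0 < gam m l 0 - δ := by linarith [h2.trans_le (min_le_left _ _)]
    have b2 : 0 < gam m l' 0 - δ := by linarith [h2.trans_le (min_le_right _ _)]
    calc c < (gam m l 0 - δ) * (gam m l' 0 - δ) := h1
      _ ≤ gam m l (min x1 x2) * gam m l' (min x1 x2) :=
          mul_le_mul (by linarith) (by linarith) b2.le (gam_nonneg _ _ _)
      _ ≤ _ := s
  · exact lt_of_lt_of_le hc0 (gam_nonneg _ _ _)

/-- `R t t₁ = ∑_{t < s ≤ t₁} (s - t) x_s`. -/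
def RR (t t1 : ℕ) (ω : Om) : ℝ := ∑ s ∈ Finset.Ioc t t1, ((s - t : ℕ) : ℝ) * xs s ω

theorem RR_eq (t t1 : ℕ) (ω : Om) : RR t t1 ω = ∑ i ∈ Finset.Ico t t1, NS i t1 ω := by
  unfold RR NS
  rw [Finset.sum_comm' (s := Finset.Ico t t1) (t := fun i => Finset.Ioc i t1)
    (t' := Finset.Ioc t t1) (s' := fun s => Finset.Ico t s)]
  · apply Finset.sum_congr rfl
    intro s _
    rw [Finset.sum_const, Nat.card_Ico, nsmul_eq_mul]
  · intro i s
    simp only [Finset.mem_Ico, Finset.mem_Ioc]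
    omega

theorem RR_bound {t0 t1 : ℕ} {y : ℝ} (hy : 0 ≤ y) (ω : Om)
    (h : ∀ t, t0 ≤ t → t ≤ t1 → |NS t t1 ω| ≤ y) (t : ℕ) (ht : t0 ≤ t) (ht1 : t ≤ t1) :
    |RR t t1 ω| ≤ ((t1 : ℝ) - t0) * y := by
  rw [RR_eq]
  calc |∑ i ∈ Finset.Ico t t1, NS i t1 ω| ≤ ∑ i ∈ Finset.Ico t t1, |NS i t1 ω| :=
        Finset.abs_sum_le_sum_abs _ _
    _ ≤ ∑ i ∈ Finset.Ico t t1, y := by
        apply Finset.sum_le_sum
        intro i hi
        simp only [Finset.mem_Ico] at hi
        exact h i (by omega) (by omega)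
    _ = ((t1 - t : ℕ) : ℝ) * y := by rw [Finset.sum_const, Nat.card_Ico, nsmul_eq_mul]
    _ ≤ _ := by
        apply mul_le_mul_of_nonneg_right _ hy
        rw [Nat.cast_sub ht1]
        have : (t0 : ℝ) ≤ t := by exact_mod_cast ht
        linarith

theorem DA_split {S t t1 : ℕ} (h1 : t ≤ t1) (h2 : t1 ≤ S) (ω : Om) :
    DA S t ω = DA S t1 ω + ((t1 : ℝ) - t) * NS t1 S ω + RR t t1 ω := by
  have e0 : ∀ t, DA S t ω = ∑ s ∈ Finset.Ioc t S, ((s - t : ℕ) : ℝ) * xs s ω := by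
    intro t
    unfold DA
    symm
    apply Finset.sum_subset
    · intro s hs
      simp only [Finset.mem_Ioc, Finset.mem_Icc] at hs ⊢
      omega
    · intro s hs hs2
      simp only [Finset.mem_Ioc, Finset.mem_Icc] at hs hs2
      have : s - t = 0 := by omega
      rw [this]; simp
  rw [e0, e0]
  unfold NS RR
  rw [← Finset.sum_Ioc_consecutive _ h1 h2, Finset.mul_sum, ← Finset.sum_add_distrib, add_comm]
  congr 1
  apply Finset.sum_congr rfl
  intro s hs
  simp only [Finset.mem_Ioc] at hs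
  rw [Nat.cast_sub (by omega), Nat.cast_sub (by omega)]
  ring

theorem GB_split {T t t1 : ℕ} (h1 : t ≤ t1) (h2 : t1 ≤ T) (ω : Om) :
    GB T t ω = GB T t1 ω - ((t1 : ℝ) - t) * NS t1 T ω - RR t t1 ω := by
  have key : GB T t1 ω - GB T t ω = ((t1 : ℝ) - t) * NS t1 T ω + RR t t1 ω := by
    unfold GB NS RR
    rw [← Finset.sum_sub_distrib, Icc_eq_Ioc, ← Finset.sum_Ioc_consecutive _ (Nat.zero_le t)
      (h1.trans h2), ← Finset.sum_Ioc_consecutive _ h1 h2]
    have z1 : ∑ s ∈ Finset.Ioc 0 t, (((min s t1 : ℕ) : ℝ) * xs s ω - ((min s t : ℕ) : ℝ) * xs s ω)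
        = 0 := by
      apply Finset.sum_eq_zero
      intro s hs
      simp only [Finset.mem_Ioc] at hs
      rw [min_eq_left (by omega : s ≤ t1), min_eq_left hs.2, sub_self]
    have z2 : ∑ s ∈ Finset.Ioc t t1, (((min s t1 : ℕ) : ℝ) * xs s ω - ((min s t : ℕ) : ℝ) * xs s ω)
        = ∑ s ∈ Finset.Ioc t t1, ((s - t : ℕ) : ℝ) * xs s ω := by
      apply Finset.sum_congr rfl
      intro s hs
      simp only [Finset.mem_Ioc] at hs
      rw [min_eq_left (by omega : s ≤ t1), min_eq_right (by omega : t ≤ s), Nat.cast_sub (by omega)]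
      ring
    have z3 : ∑ s ∈ Finset.Ioc t1 T, (((min s t1 : ℕ) : ℝ) * xs s ω - ((min s t : ℕ) : ℝ) * xs s ω)
        = ((t1 : ℝ) - t) * ∑ s ∈ Finset.Ioc t1 T, xs s ω := by
      rw [Finset.mul_sum]
      apply Finset.sum_congr rfl
      intro s hs
      simp only [Finset.mem_Ioc] at hs
      rw [min_eq_right (by omega : t1 ≤ s), min_eq_right (by omega : t ≤ s)]
      ring
    rw [z1, z2, z3]
    ring
  linarith

/-- interpolation. -/
theorem interp (f R : ℕ → ℝ) (N : ℝ) {t0 t1 : ℕ}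
    (h : ∀ t, t0 ≤ t → t ≤ t1 → f t = f t1 + ((t1 : ℝ) - t) * N + R t) (t : ℕ) (h0 : t0 ≤ t)
    (h1 : t ≤ t1) : min (f t0) (f t1) - |R t| - |R t0| ≤ f t := by
  rcases Nat.eq_or_lt_of_le (h0.trans h1) with he | he
  · have : t = t1 := by omega
    rw [this]
    have := min_le_right (f t0) (f t1)
    linarith [abs_nonneg (R t1), abs_nonneg (R t0)]
  have hpos : (0 : ℝ) < (t1 : ℝ) - t0 := by
    have : (t0 : ℝ) < t1 := by exact_mod_cast he
    linarith
  set θ := ((t1 : ℝ) - t) / ((t1 : ℝ) - t0) with hθ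
  have e0 := h t0 le_rfl (h0.trans h1)
  have e1 := h t h0 h1
  have hθ0 : 0 ≤ θ := by
    apply div_nonneg _ hpos.le
    have : (t : ℝ) ≤ t1 := by exact_mod_cast h1
    linarith
  have hθ1 : θ ≤ 1 := by
    rw [hθ, div_le_one hpos]
    have : (t0 : ℝ) ≤ t := by exact_mod_cast h0
    linarith
  have e2 : θ * ((t1 : ℝ) - t0) = (t1 : ℝ) - t := by
    rw [hθ]; field_simp
  have e3 : f t = (1 - θ) * f t1 + θ * f t0 - θ * R t0 + R t := by
    rw [e1, ← e2]
    have : θ * f t0 = θ * (f t1 + ((t1 : ℝ) - t0) * N + R t0) := by rw [← e0]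
    rw [this]
    ring
  have m0 := min_le_left (f t0) (f t1)
  have m1 := min_le_right (f t0) (f t1)
  have a1 : min (f t0) (f t1) ≤ (1 - θ) * f t1 + θ * f t0 := by nlinarith
  have a2 : -|R t| ≤ R t := neg_abs_le _
  have a3 : θ * R t0 ≤ |R t0| := by
    calc θ * R t0 ≤ θ * |R t0| := mul_le_mul_of_nonneg_left (le_abs_self _) hθ0
      _ ≤ 1 * |R t0| := mul_le_mul_of_nonneg_right hθ1 (abs_nonneg _)
      _ = _ := one_mul _
  linarith

end Pool.Agent.Helper95.Dom
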