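import Pool.Agent.Helper95.DomMesh
import Pool.Agent.Helper95.DomMax

/-!
Symmetry and the maximal inequality for the differences.
-/

namespace Pool.Agent.Helper95.Dom

open MeasureTheory ProbabilityTheory Filter
open scoped Topology

/-- exchange the two coordinates. -/
def swp (ω : Om) : Om := fun s => ((ω s).2, (ω s).1)

theorem meas_swp : Measurable swp := by
  unfold swp
  apply measurable_pi_lambda
  intro s
  exact measurable_swap.comp (measurable_pi_apply s)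

theorem xs_swp (s : ℕ) (ω : Om) : xs s (swp ω) = -xs s ω := by
  unfold xs ma mb swp
  ring

theorem map_swp (μ : ℕ → ℝ) : (PP μ μ).map swp = PP μ μ := by
  unfold PP
  apply Measure.eq_infinitePi
  intro I t ht
  rw [Measure.map_apply meas_swp]
  · have : swp ⁻¹' (Set.pi I t) = Set.pi I (fun s => Prod.swap ⁻¹' (t s)) := by
      ext ω
      simp only [Set.mem_preimage, Set.mem_pi, swp]
      rfl
    rw [this, Measure.infinitePi_pi]
    · apply Finset.prod_congr rfl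
      intro s hs
      have h1 : ((geo (μ s)).prod (geo (μ s))).map Prod.swap = (geo (μ s)).prod (geo (μ s)) :=
        Measure.prod_swap
      conv_rhs => rw [← h1]
      rw [Measure.map_apply measurable_swap (ht s)]
    · intro s hs
      exact measurable_swap (ht s)
  · exact MeasurableSet.pi (Finset.countable_toSet I) (fun s _ => ht s)

theorem swp_real (μ : ℕ → ℝ) {A : Set Om} (hA : MeasurableSet A) :
    (PP μ μ).real (swp ⁻¹' A) = (PP μ μ).real A := by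
  conv_rhs => rw [← map_swp μ]
  rw [map_measureReal_apply meas_swp hA]

theorem memLp_xs {μ μ' : ℕ → ℝ} (s : ℕ) (h : 0 ≤ μ s) (h' : 0 ≤ μ' s) :
    MemLp (xs s) 2 (PP μ μ') := (memLp_ma s h).sub (memLp_mb s h')

theorem integral_xs {μ μ' : ℕ → ℝ} (s : ℕ) (h : 0 ≤ μ s) (h' : 0 ≤ μ' s) :
    ∫ ω, xs s ω ∂PP μ μ' = μ s - μ' s := by
  unfold xs
  rw [integral_sub ((memLp_ma s h).integrable (by norm_num)) ((memLp_mb s h').integrable (by norm_num)),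
    integral_ma s h, integral_mb s h']

theorem integral_xs_sq {μ : ℕ → ℝ} (s : ℕ) (h : 0 ≤ μ s) :
    ∫ ω, (xs s ω) ^ 2 ∂PP μ μ = vv μ s := by
  have h1 := integral_eval μ μ s (fun p : ℕ × ℕ => ((p.1 : ℝ) - (p.2 : ℝ)) ^ 2)
    (measurable_of_countable _).stronglyMeasurable
  have h2 : (fun ω : Om => (fun p : ℕ × ℕ => ((p.1 : ℝ) - (p.2 : ℝ)) ^ 2) (ω s))
      = fun ω => (xs s ω) ^ 2 := rfl
  rw [h2] at h1
  rw [h1]
  have i1 : Integrable (fun p : ℕ × ℕ => (p.1 : ℝ) ^ 2) ((geo (μ s)).prod (geo (μ s))) := by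
    have := (integrable_sq h).mul_prod (integrable_const (1 : ℝ)) (μ := geo (μ s)) (ν := geo (μ s))
    simpa using this
  have i2 : Integrable (fun p : ℕ × ℕ => (p.2 : ℝ) ^ 2) ((geo (μ s)).prod (geo (μ s))) := by
    have := (integrable_const (1 : ℝ)).mul_prod (integrable_sq h) (μ := geo (μ s)) (ν := geo (μ s))
    simpa using this
  have i3 : Integrable (fun p : ℕ × ℕ => (p.1 : ℝ) * (p.2 : ℝ)) ((geo (μ s)).prod (geo (μ s))) :=
    (integrable_id' h).mul_prod (integrable_id' h)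
  have e1 : ∫ p : ℕ × ℕ, (p.1 : ℝ) ^ 2 ∂((geo (μ s)).prod (geo (μ s))) = 2 * μ s ^ 2 + μ s := by
    have := integral_prod_mul (μ := geo (μ s)) (ν := geo (μ s)) (fun k : ℕ => (k : ℝ) ^ 2)
      (fun _ => (1 : ℝ))
    simp only [mul_one, integral_const, probReal_univ, smul_eq_mul] at this
    rw [this, integral_sq h]
  have e2 : ∫ p : ℕ × ℕ, (p.2 : ℝ) ^ 2 ∂((geo (μ s)).prod (geo (μ s))) = 2 * μ s ^ 2 + μ s := by
    have := integral_prod_mul (μ := geo (μ s)) (ν := geo (μ s)) (fun _ => (1 : ℝ))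
      (fun k : ℕ => (k : ℝ) ^ 2)
    simp only [one_mul, integral_const, probReal_univ, smul_eq_mul] at this
    rw [this, integral_sq h]
  have e3 : ∫ p : ℕ × ℕ, (p.1 : ℝ) * (p.2 : ℝ) ∂((geo (μ s)).prod (geo (μ s))) = μ s * μ s := by
    rw [integral_prod_mul (μ := geo (μ s)) (ν := geo (μ s)) (fun k : ℕ => (k : ℝ))
      (fun k : ℕ => (k : ℝ)), integral_mean h]
  have h3 : (fun p : ℕ × ℕ => ((p.1 : ℝ) - (p.2 : ℝ)) ^ 2)
      = fun p => (p.1 : ℝ) ^ 2 - 2 * ((p.1 : ℝ) * (p.2 : ℝ)) + (p.2 : ℝ) ^ 2 := by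
    funext p; ring
  have h4 : ∫ p : ℕ × ℕ, ((p.1 : ℝ) ^ 2 - 2 * ((p.1 : ℝ) * (p.2 : ℝ)) + (p.2 : ℝ) ^ 2)
      ∂((geo (μ s)).prod (geo (μ s)))
      = ∫ p : ℕ × ℕ, ((p.1 : ℝ) ^ 2 - 2 * ((p.1 : ℝ) * (p.2 : ℝ))) ∂((geo (μ s)).prod (geo (μ s)))
        + ∫ p : ℕ × ℕ, (p.2 : ℝ) ^ 2 ∂((geo (μ s)).prod (geo (μ s))) :=
    integral_add (i1.sub (i3.const_mul 2)) i2
  have h5 : ∫ p : ℕ × ℕ, ((p.1 : ℝ) ^ 2 - 2 * ((p.1 : ℝ) * (p.2 : ℝ)))
      ∂((geo (μ s)).prod (geo (μ s)))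
      = ∫ p : ℕ × ℕ, (p.1 : ℝ) ^ 2 ∂((geo (μ s)).prod (geo (μ s)))
        - ∫ p : ℕ × ℕ, 2 * ((p.1 : ℝ) * (p.2 : ℝ)) ∂((geo (μ s)).prod (geo (μ s))) :=
    integral_sub i1 (i3.const_mul 2)
  rw [h3, h4, h5, integral_const_mul, e1, e2, e3]
  unfold vv
  ring

/-- partial sums of the differences. -/
def NS (t T : ℕ) (ω : Om) : ℝ := ∑ s ∈ Finset.Ioc t T, xs s ω

theorem NS_eq (t T : ℕ) : NS t T = rS (fun _ p => (p.1 : ℝ) - (p.2 : ℝ)) T t := rfl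

/-- Kolmogorov's inequality with a monotone weight. -/
theorem hajek_xs {a : ℝ} (ha : 0 < a) (T t0 : ℕ) (hT : t0 ≤ T) (c : ℕ → ℝ) (hc0 : ∀ t, 0 ≤ c t)
    (hc : Monotone c) :
    (PA a).real {ω | ∃ t, t0 ≤ t ∧ t ≤ T ∧ 1 ≤ c t * (NS t T ω) ^ 2}
      ≤ ∑ s ∈ Finset.Ioc t0 T, c (s - 1) * vv (mu a) s := by
  have h := hajek (mu a) (mu a) (fun _ p => (p.1 : ℝ) - (p.2 : ℝ)) T (vv (mu a)) c t0 hT
    (fun s _ => memLp_xs s (mu_nonneg ha s) (mu_nonneg ha s))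
    (fun s _ => by
      have := integral_xs (μ := mu a) (μ' := mu a) s (mu_nonneg ha s) (mu_nonneg ha s)
      rw [sub_self] at this
      exact this)
    (fun s _ => (integral_xs_sq (μ := mu a) s (mu_nonneg ha s)).le) hc0 hc
  exact h

theorem kolm {a : ℝ} (ha : 0 < a) (T t0 : ℕ) (hT : t0 ≤ T) {x : ℝ} (hx : 0 < x) :
    (PA a).real {ω | ∃ t, t0 ≤ t ∧ t ≤ T ∧ x ≤ |NS t T ω|}
      ≤ (∑ s ∈ Finset.Ioc t0 T, vv (mu a) s) / x ^ 2 := by
  have h := hajek_xs ha T t0 hT (fun _ => 1 / x ^ 2) (fun _ => by positivity) (fun _ _ _ => le_rfl)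
  have h1 : {ω | ∃ t, t0 ≤ t ∧ t ≤ T ∧ x ≤ |NS t T ω|}
      = {ω | ∃ t, t0 ≤ t ∧ t ≤ T ∧ 1 ≤ 1 / x ^ 2 * (NS t T ω) ^ 2} := by
    ext ω
    have key : ∀ t, x ≤ |NS t T ω| ↔ 1 ≤ 1 / x ^ 2 * (NS t T ω) ^ 2 := by
      intro t
      rw [one_div, inv_mul_eq_div, one_le_div (by positivity), ← sq_abs (NS t T ω)]
      exact (sq_le_sq₀ hx.le (abs_nonneg _)).symm
    simp only [Set.mem_ofPred_eq, key]
  rw [h1]
  refine h.trans (le_of_eq ?_)
  rw [← Finset.mul_sum]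
  ring

/-- `P(N ≥ 0) ≥ 1/2` for every antisymmetric function. -/
theorem half_le {a : ℝ} (I : Finset ℕ) (f : Om → ℝ)
    (hf : ∀ ω ω' : Om, (∀ s ∈ I, ω s = ω' s) → f ω = f ω') (hs : ∀ ω, f (swp ω) = -f ω) :
    1 / 2 ≤ (PA a).real {ω | 0 ≤ f ω} := by
  have m1 : Measurable f := meas_of_dep I hf
  have mA : MeasurableSet {ω | 0 ≤ f ω} := measurableSet_le measurable_const m1
  have h1 := swp_real (mu a) mA
  have h2 : swp ⁻¹' {ω | 0 ≤ f ω} = {ω | f ω ≤ 0} := by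
    ext ω
    simp [hs]
  rw [h2] at h1
  have h3 : (1 : ℝ) ≤ (PP (mu a) (mu a)).real {ω | 0 ≤ f ω} + (PP (mu a) (mu a)).real {ω | f ω ≤ 0} := by
    have h4 : ({ω | 0 ≤ f ω} : Set Om) ∪ {ω | f ω ≤ 0} = Set.univ := by
      ext ω
      simp [le_total]
    have h5 := measureReal_union_le (μ := PP (mu a) (mu a)) {ω | 0 ≤ f ω} {ω | f ω ≤ 0}
    rw [h4, probReal_univ] at h5
    exact h5
  show 1 / 2 ≤ (PP (mu a) (mu a)).real {ω | 0 ≤ f ω}
  linarith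

end Pool.Agent.Helper95.Dom
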