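import Pool.Agent.Helper95.DomGeo

/-!
The product space of pairs of geometric variables.
-/

namespace Pool.Agent.Helper95.Dom

open MeasureTheory ProbabilityTheory Filter

/-- sample space. -/
abbrev Om := ℕ → ℕ × ℕ

/-- product law: at `s` the pair has law `geo (μ s) ⊗ geo (μ' s)`. -/
noncomputable def PP (μ μ' : ℕ → ℝ) : Measure Om :=
  Measure.infinitePi (fun s => (geo (μ s)).prod (geo (μ' s)))

instance (μ μ' : ℕ → ℝ) : IsProbabilityMeasure (PP μ μ') := by
  unfold PP; infer_instance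

theorem meas_of_dep {β : Type*} [MeasurableSpace β] (I : Finset ℕ) {f : Om → β}
    (h : ∀ ω ω' : Om, (∀ s ∈ I, ω s = ω' s) → f ω = f ω') : Measurable f := by
  classical
  let g : (↥I → ℕ × ℕ) → β := fun y => f (fun s => if hs : s ∈ I then y ⟨s, hs⟩ else (0, 0))
  have hfg : f = g ∘ I.restrict := by
    funext ω
    apply h
    intro s hs
    simp [hs, Finset.restrict]
  rw [hfg]
  exact (measurable_of_countable g).comp (Finset.measurable_restrict I)

theorem measSet_of_dep (I : Finset ℕ) {A : Set Om}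
    (h : ∀ ω ω' : Om, (∀ s ∈ I, ω s = ω' s) → (ω ∈ A ↔ ω' ∈ A)) : MeasurableSet A := by
  have : Measurable (fun ω => (ω ∈ A : Prop)) :=
    meas_of_dep I (fun ω ω' hh => propext (h ω ω' hh))
  exact measurableSet_setOfPred.2 this

theorem indep_coord (μ μ' : ℕ → ℝ) : iIndepFun (fun s (ω : Om) => ω s) (PP μ μ') := by
  unfold PP
  exact iIndepFun_infinitePi (X := fun _ x => x) (fun _ => measurable_id)

theorem indep_of_dep (μ μ' : ℕ → ℝ) {β γ : Type*} [MeasurableSpace β] [MeasurableSpace γ]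
    (I J : Finset ℕ) (hIJ : Disjoint I J) {f : Om → β} {g : Om → γ}
    (hf : ∀ ω ω' : Om, (∀ s ∈ I, ω s = ω' s) → f ω = f ω')
    (hg : ∀ ω ω' : Om, (∀ s ∈ J, ω s = ω' s) → g ω = g ω') :
    IndepFun f g (PP μ μ') := by
  classical
  let f1 : (↥I → ℕ × ℕ) → β := fun y => f (fun s => if hs : s ∈ I then y ⟨s, hs⟩ else (0, 0))
  have hf1 : f = f1 ∘ (fun ω (i : I) => ω i) := by
    funext ω
    apply hf
    intro s hs
    simp [hs]
  let g1 : (↥J → ℕ × ℕ) → γ := fun y => g (fun s => if hs : s ∈ J then y ⟨s, hs⟩ else (0, 0))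
  have hg1 : g = g1 ∘ (fun ω (i : J) => ω i) := by
    funext ω
    apply hg
    intro s hs
    simp [hs]
  have h := (indep_coord μ μ').indepFun_finset I J hIJ (fun s => measurable_pi_apply s)
  rw [hf1, hg1]
  exact h.comp (measurable_of_countable f1) (measurable_of_countable g1)

theorem indep_sets (μ μ' : ℕ → ℝ) (I J : Finset ℕ) (hIJ : Disjoint I J) {A B : Set Om}
    (hA : ∀ ω ω' : Om, (∀ s ∈ I, ω s = ω' s) → (ω ∈ A ↔ ω' ∈ A))
    (hB : ∀ ω ω' : Om, (∀ s ∈ J, ω s = ω' s) → (ω ∈ B ↔ ω' ∈ B)) :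
    (PP μ μ').real (A ∩ B) = (PP μ μ').real A * (PP μ μ').real B := by
  have h := indep_of_dep μ μ' I J hIJ (f := fun ω => (ω ∈ A : Prop)) (g := fun ω => (ω ∈ B : Prop))
    (fun ω ω' hh => propext (hA ω ω' hh)) (fun ω ω' hh => propext (hB ω ω' hh))
  have h2 := h.measure_inter_preimage_eq_mul {True} {True} (measurableSet_singleton _)
    (measurableSet_singleton _)
  have e1 : (fun ω => (ω ∈ A : Prop)) ⁻¹' {True} = A := by ext ω; simp
  have e2 : (fun ω => (ω ∈ B : Prop)) ⁻¹' {True} = B := by ext ω; simp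
  rw [e1, e2] at h2
  simp only [Measure.real, h2, ENNReal.toReal_mul]

theorem prod_formula {𝕜 : Type*} [RCLike 𝕜] (μ μ' : ℕ → ℝ) (I : Finset ℕ)
    (f : ℕ → ℕ × ℕ → 𝕜) :
    ∫ ω, ∏ s ∈ I, f s (ω s) ∂PP μ μ' = ∏ s ∈ I, ∫ p, f s p ∂((geo (μ s)).prod (geo (μ' s))) := by
  have h1 : (fun ω : Om => ∏ s ∈ I, f s (ω s))
      = fun ω => (fun y : (↥I → ℕ × ℕ) => ∏ s : ↥I, f s (y s)) (I.restrict ω) := by
    funext ω
    rw [← Finset.prod_coe_sort I]
    rfl
  rw [h1]
  unfold PP
  refine (integral_restrict_infinitePi (μ := fun s => (geo (μ s)).prod (geo (μ' s))) (s := I)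
    (f := fun y : (↥I → ℕ × ℕ) => ∏ s : ↥I, f s (y s))
    (measurable_of_countable _).aestronglyMeasurable).trans ?_
  rw [integral_fintype_prod_eq_prod (μ := fun s : ↥I => (geo (μ s)).prod (geo (μ' s)))
      (f := fun (s : ↥I) p => f s p)]
  exact Finset.prod_coe_sort I (fun s => ∫ p, f s p ∂((geo (μ s)).prod (geo (μ' s))))

theorem map_eval (μ μ' : ℕ → ℝ) (s : ℕ) :
    (PP μ μ').map (fun ω => ω s) = (geo (μ s)).prod (geo (μ' s)) := by
  unfold PP
  exact Measure.infinitePi_map_eval _ s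

theorem integral_eval {E : Type*} [NormedAddCommGroup E] [NormedSpace ℝ E] (μ μ' : ℕ → ℝ) (s : ℕ)
    (f : ℕ × ℕ → E) (hf : StronglyMeasurable f) :
    ∫ ω, f (ω s) ∂PP μ μ' = ∫ p, f p ∂((geo (μ s)).prod (geo (μ' s))) := by
  rw [← map_eval μ μ' s, integral_map (measurable_pi_apply s).aemeasurable hf.aestronglyMeasurable]

/-- first coordinate, as a real. -/
def ma (s : ℕ) (ω : Om) : ℝ := ((ω s).1 : ℝ)

/-- second coordinate, as a real. -/
def mb (s : ℕ) (ω : Om) : ℝ := ((ω s).2 : ℝ)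

/-- difference. -/
def xs (s : ℕ) (ω : Om) : ℝ := ma s ω - mb s ω

theorem map_ma (μ μ' : ℕ → ℝ) (s : ℕ) :
    (PP μ μ').map (fun ω => (ω s).1) = geo (μ s) := by
  have h : (fun ω : Om => (ω s).1) = Prod.fst ∘ (fun ω : Om => ω s) := rfl
  rw [h, ← Measure.map_map measurable_fst (measurable_pi_apply s), map_eval, Measure.map_fst_prod]
  simp

theorem map_mb (μ μ' : ℕ → ℝ) (s : ℕ) :
    (PP μ μ').map (fun ω => (ω s).2) = geo (μ' s) := by
  have h : (fun ω : Om => (ω s).2) = Prod.snd ∘ (fun ω : Om => ω s) := rfl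
  rw [h, ← Measure.map_map measurable_snd (measurable_pi_apply s), map_eval, Measure.map_snd_prod]
  simp

theorem meas_fst (s : ℕ) : Measurable (fun ω : Om => (ω s).1) :=
  measurable_fst.comp (measurable_pi_apply s)

theorem meas_snd (s : ℕ) : Measurable (fun ω : Om => (ω s).2) :=
  measurable_snd.comp (measurable_pi_apply s)

theorem meas_ma (s : ℕ) : Measurable (ma s) :=
  (measurable_of_countable (fun k : ℕ => (k : ℝ))).comp (meas_fst s)

theorem meas_mb (s : ℕ) : Measurable (mb s) :=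
  (measurable_of_countable (fun k : ℕ => (k : ℝ))).comp (meas_snd s)

theorem meas_xs (s : ℕ) : Measurable (xs s) := (meas_ma s).sub (meas_mb s)

theorem memLp_ma {μ μ' : ℕ → ℝ} (s : ℕ) (h : 0 ≤ μ s) : MemLp (ma s) 2 (PP μ μ') := by
  have h1 := memLp_two h
  rw [← map_ma μ μ' s, memLp_map_measure_iff (measurable_of_countable _).aestronglyMeasurable
    (meas_fst s).aemeasurable] at h1
  exact h1

theorem memLp_mb {μ μ' : ℕ → ℝ} (s : ℕ) (h : 0 ≤ μ' s) : MemLp (mb s) 2 (PP μ μ') := by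
  have h1 := memLp_two h
  rw [← map_mb μ μ' s, memLp_map_measure_iff (measurable_of_countable _).aestronglyMeasurable
    (meas_snd s).aemeasurable] at h1
  exact h1

theorem integral_ma {μ μ' : ℕ → ℝ} (s : ℕ) (h : 0 ≤ μ s) : ∫ ω, ma s ω ∂PP μ μ' = μ s := by
  have h1 := integral_mean h
  rw [← map_ma μ μ' s, integral_map (meas_fst s).aemeasurable
    (measurable_of_countable _).aestronglyMeasurable] at h1
  exact h1

theorem integral_mb {μ μ' : ℕ → ℝ} (s : ℕ) (h : 0 ≤ μ' s) : ∫ ω, mb s ω ∂PP μ μ' = μ' s := by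
  have h1 := integral_mean h
  rw [← map_mb μ μ' s, integral_map (meas_snd s).aemeasurable
    (measurable_of_countable _).aestronglyMeasurable] at h1
  exact h1

theorem var_ma {μ μ' : ℕ → ℝ} (s : ℕ) (h : 0 ≤ μ s) :
    Var[ma s; PP μ μ'] = μ s * (1 + μ s) := by
  rw [variance_eq_integral (memLp_ma s h).aemeasurable, integral_ma s h]
  have h1 := integral_var h
  rw [← map_ma μ μ' s, integral_map (meas_fst s).aemeasurable
    (measurable_of_countable _).aestronglyMeasurable] at h1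
  exact h1

theorem var_mb {μ μ' : ℕ → ℝ} (s : ℕ) (h : 0 ≤ μ' s) :
    Var[mb s; PP μ μ'] = μ' s * (1 + μ' s) := by
  rw [variance_eq_integral (memLp_mb s h).aemeasurable, integral_mb s h]
  have h1 := integral_var h
  rw [← map_mb μ μ' s, integral_map (meas_snd s).aemeasurable
    (measurable_of_countable _).aestronglyMeasurable] at h1
  exact h1

end Pool.Agent.Helper95.Dom
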