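import Pool.Agent.Helper95.DomTilt

/-!
Exponential tail bounds for weighted sums of centred geometric variables.
-/

namespace Pool.Agent.Helper95.Dom

open MeasureTheory ProbabilityTheory Filter
open scoped Topology ENNReal

theorem exp_sub_one_abs (t : ℝ) : |Real.exp t - 1| ≤ |t| * Real.exp |t| := by
  rcases le_or_gt 0 t with h | h
  · rw [abs_of_nonneg h, abs_of_nonneg (by linarith [Real.one_le_exp h])]
    have h2 := Real.add_one_le_exp (-t)
    have h3 : Real.exp (-t) * Real.exp t = 1 := by rw [← Real.exp_add]; simp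
    have h5 := mul_le_mul_of_nonneg_right h2 (Real.exp_pos t).le
    nlinarith
  · have h1 : Real.exp t ≤ 1 := Real.exp_le_one_iff.2 h.le
    rw [abs_of_nonpos (by linarith), abs_of_neg h]
    have h2 := Real.add_one_le_exp t
    have h3 := Real.one_le_exp (show 0 ≤ -t by linarith)
    nlinarith

theorem exp_second (t : ℝ) : Real.exp t - 1 - t ≤ t ^ 2 * Real.exp |t| := by
  have h1 : Real.exp t - 1 ≤ t * Real.exp t := by
    have h2 := Real.add_one_le_exp (-t)
    have h3 : Real.exp (-t) * Real.exp t = 1 := by rw [← Real.exp_add]; simp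
    have h5 := mul_le_mul_of_nonneg_right h2 (Real.exp_pos t).le
    nlinarith
  have h2 : t * (Real.exp t - 1) ≤ |t| * |Real.exp t - 1| := by
    rw [← abs_mul]; exact le_abs_self _
  have h3 := mul_le_mul_of_nonneg_left (exp_sub_one_abs t) (abs_nonneg t)
  have h4 : |t| * (|t| * Real.exp |t|) = t ^ 2 * Real.exp |t| := by
    rw [← mul_assoc, ← sq, sq_abs]
  nlinarith

theorem inv_le_exp_sq {z : ℝ} (hz : |z| ≤ 1 / 2) : 1 / (1 - z) ≤ Real.exp (z + z ^ 2) := by
  have hz1 := (abs_le.1 hz).1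
  have hz2 := (abs_le.1 hz).2
  rw [div_le_iff₀ (by linarith)]
  rcases le_or_gt 0 z with h | h
  · have h1 := Real.quadratic_le_exp_of_nonneg (show 0 ≤ z + z ^ 2 by positivity)
    have h2 : 1 ≤ (1 + (z + z ^ 2) + (z + z ^ 2) ^ 2 / 2) * (1 - z) := by
      have h3 : (1 + (z + z ^ 2) + (z + z ^ 2) ^ 2 / 2) * (1 - z) - 1
          = z ^ 2 * ((1 - z - z ^ 2 - z ^ 3) / 2) := by ring
      have h4 : 0 ≤ 1 - z - z ^ 2 - z ^ 3 := by nlinarith [mul_nonneg h h, mul_nonneg h (mul_nonneg h h)]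
      have h5 : 0 ≤ z ^ 2 * ((1 - z - z ^ 2 - z ^ 3) / 2) := by positivity
      linarith
    exact h2.trans (mul_le_mul_of_nonneg_right h1 (by linarith))
  · have h1 := Real.add_one_le_exp (z + z ^ 2)
    have h2 : 1 ≤ (z + z ^ 2 + 1) * (1 - z) := by nlinarith [mul_pos (neg_pos.2 h) (mul_pos (neg_pos.2 h) (neg_pos.2 h))]
    exact h2.trans (mul_le_mul_of_nonneg_right h1 (by linarith))

theorem mgf_centered {m : ℝ} (hm : 0 ≤ m) (t : ℝ) (ht : m * (Real.exp |t| - 1) ≤ 1 / 2) :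
    Integrable (fun k : ℕ => Real.exp (t * (k - m))) (geo m) ∧
    ∫ k : ℕ, Real.exp (t * (k - m)) ∂geo m ≤ Real.exp (m * (1 + m) * t ^ 2 * Real.exp (2 * |t|)) := by
  have hzabs : |m * (Real.exp t - 1)| ≤ 1 / 2 := by
    rw [abs_mul, abs_of_nonneg hm]
    refine le_trans (mul_le_mul_of_nonneg_left ?_ hm) ht
    rcases le_or_gt 0 t with h | h
    · rw [abs_of_nonneg h, abs_of_nonneg (by linarith [Real.one_le_exp h])]
    · have h1 : Real.exp t ≤ 1 := Real.exp_le_one_iff.2 h.le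
      rw [abs_of_nonpos (by linarith), abs_of_neg h]
      have h2 : Real.exp t * Real.exp (-t) = 1 := by rw [← Real.exp_add]; simp
      nlinarith [sq_nonneg (Real.exp t - Real.exp (-t)), Real.exp_pos t, Real.exp_pos (-t),
        sq_nonneg (Real.exp t - 1), sq_nonneg (Real.exp (-t) - 1)]
  have hz2 := (abs_le.1 hzabs).2
  have h1 : m * Real.exp t < 1 + m := by nlinarith
  have hfun : (fun k : ℕ => Real.exp (t * (k - m))) = fun k : ℕ => Real.exp (-(t * m)) * Real.exp (t * k) := by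
    funext k
    rw [← Real.exp_add]
    congr 1
    ring
  refine ⟨?_, ?_⟩
  · rw [hfun]
    exact (integrable_rexp hm t h1).const_mul _
  · rw [hfun, integral_const_mul, integral_rexp hm t h1]
    have h2 : 1 + m - m * Real.exp t = 1 - m * (Real.exp t - 1) := by ring
    rw [h2]
    calc Real.exp (-(t * m)) * (1 / (1 - m * (Real.exp t - 1)))
        ≤ Real.exp (-(t * m)) * Real.exp (m * (Real.exp t - 1) + (m * (Real.exp t - 1)) ^ 2) :=
          mul_le_mul_of_nonneg_left (inv_le_exp_sq hzabs) (Real.exp_pos _).le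
      _ = Real.exp (m * (Real.exp t - 1 - t) + m ^ 2 * (Real.exp t - 1) ^ 2) := by
          rw [← Real.exp_add]
          congr 1
          ring
      _ ≤ _ := by
          apply Real.exp_le_exp.2
          have h3 := mul_le_mul_of_nonneg_left (exp_second t) hm
          have h4 : (Real.exp t - 1) ^ 2 ≤ t ^ 2 * Real.exp (2 * |t|) := by
            have h5 := pow_le_pow_left₀ (abs_nonneg _) (exp_sub_one_abs t) 2
            rw [sq_abs, mul_pow, sq_abs, ← Real.exp_nat_mul] at h5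
            exact_mod_cast h5
          have h6 := mul_le_mul_of_nonneg_left h4 (sq_nonneg m)
          have h7 : Real.exp |t| ≤ Real.exp (2 * |t|) := Real.exp_le_exp.2 (by linarith [abs_nonneg t])
          have h8 := mul_le_mul_of_nonneg_left h7 (mul_nonneg hm (sq_nonneg t))
          nlinarith

theorem tail_ma {μ μ' : ℕ → ℝ} (hμ : ∀ s, 0 ≤ μ s) (I : Finset ℕ) (c : ℕ → ℝ) {θ x V : ℝ}
    (h1 : ∀ s ∈ I, μ s * (Real.exp |θ * c s| - 1) ≤ 1 / 2)
    (hV : ∑ s ∈ I, μ s * (1 + μ s) * (θ * c s) ^ 2 * Real.exp (2 * |θ * c s|) ≤ V) (hθ : 0 ≤ θ) :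
    (PP μ μ').real {ω | x ≤ ∑ s ∈ I, c s * (ma s ω - μ s)} ≤ Real.exp (-(θ * x) + V) := by
  set f : ℕ → ℕ × ℕ → ℝ := fun s p => Real.exp (θ * c s * ((p.1 : ℝ) - μ s)) with hf
  have hprod := prod_formula (𝕜 := ℝ) μ μ' I f
  have hfac : ∀ s ∈ I, ∫ p, f s p ∂((geo (μ s)).prod (geo (μ' s)))
      ≤ Real.exp (μ s * (1 + μ s) * (θ * c s) ^ 2 * Real.exp (2 * |θ * c s|)) := by
    intro s hs
    have h2 := (mgf_centered (hμ s) (θ * c s) (h1 s hs)).2
    have h3 : ∫ p, f s p ∂((geo (μ s)).prod (geo (μ' s)))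
        = ∫ k : ℕ, Real.exp (θ * c s * (k - μ s)) ∂geo (μ s) := by
      have := integral_prod_mul (μ := geo (μ s)) (ν := geo (μ' s))
        (fun k : ℕ => Real.exp (θ * c s * (k - μ s))) (fun _ => (1 : ℝ))
      simp only [mul_one, integral_const, probReal_univ, smul_eq_mul] at this
      exact this
    rw [h3]
    exact h2
  have hfac0 : ∀ s ∈ I, 0 < ∫ p, f s p ∂((geo (μ s)).prod (geo (μ' s))) := by
    intro s hs
    have h2 := (mgf_centered (hμ s) (θ * c s) (h1 s hs)).1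
    have h3 : ∫ p, f s p ∂((geo (μ s)).prod (geo (μ' s)))
        = ∫ k : ℕ, Real.exp (θ * c s * (k - μ s)) ∂geo (μ s) := by
      have := integral_prod_mul (μ := geo (μ s)) (ν := geo (μ' s))
        (fun k : ℕ => Real.exp (θ * c s * (k - μ s))) (fun _ => (1 : ℝ))
      simp only [mul_one, integral_const, probReal_univ, smul_eq_mul] at this
      exact this
    rw [h3]
    exact integral_exp_pos h2
  have hexp : ∀ ω : Om, ∏ s ∈ I, f s (ω s) = Real.exp (θ * ∑ s ∈ I, c s * (ma s ω - μ s)) := by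
    intro ω
    simp only [hf]
    rw [← Real.exp_sum, Finset.mul_sum]
    congr 1
    apply Finset.sum_congr rfl
    intro s _
    unfold ma
    ring
  simp_rw [hexp] at hprod
  have hint : Integrable (fun ω => Real.exp (θ * ∑ s ∈ I, c s * (ma s ω - μ s))) (PP μ μ') := by
    by_contra hcon
    rw [integral_undef hcon] at hprod
    have := Finset.prod_pos hfac0
    linarith
  have hle : ∫ ω, Real.exp (θ * ∑ s ∈ I, c s * (ma s ω - μ s)) ∂PP μ μ' ≤ Real.exp V := by
    rw [hprod]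
    refine (Finset.prod_le_prod (fun s hs => (hfac0 s hs).le) hfac).trans ?_
    rw [← Real.exp_sum]
    exact Real.exp_le_exp.2 hV
  have hmk := mul_meas_ge_le_integral_of_nonneg (μ := PP μ μ')
    (f := fun ω => Real.exp (θ * ∑ s ∈ I, c s * (ma s ω - μ s)))
    (Filter.Eventually.of_forall fun ω => (Real.exp_pos _).le) hint (Real.exp (θ * x))
  have hsub : {ω | x ≤ ∑ s ∈ I, c s * (ma s ω - μ s)}
      ⊆ {ω | Real.exp (θ * x) ≤ Real.exp (θ * ∑ s ∈ I, c s * (ma s ω - μ s))} := by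
    intro ω hω
    exact Real.exp_le_exp.2 (mul_le_mul_of_nonneg_left hω hθ)
  have h3 : (PP μ μ').real {ω | x ≤ ∑ s ∈ I, c s * (ma s ω - μ s)}
      ≤ (PP μ μ').real {ω | Real.exp (θ * x) ≤ Real.exp (θ * ∑ s ∈ I, c s * (ma s ω - μ s))} :=
    measureReal_mono hsub (measure_ne_top _ _)
  have h4 : Real.exp (θ * x) * (PP μ μ').real {ω | x ≤ ∑ s ∈ I, c s * (ma s ω - μ s)} ≤ Real.exp V :=
    (mul_le_mul_of_nonneg_left h3 (Real.exp_pos _).le).trans (hmk.trans hle)
  rw [Real.exp_add, Real.exp_neg, ← div_eq_inv_mul, le_div_iff₀ (Real.exp_pos _)]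
  linarith

/-- two-sided version. -/
theorem tail_ma_abs {μ μ' : ℕ → ℝ} (hμ : ∀ s, 0 ≤ μ s) (I : Finset ℕ) (c : ℕ → ℝ) {θ x V : ℝ}
    (h1 : ∀ s ∈ I, μ s * (Real.exp |θ * c s| - 1) ≤ 1 / 2)
    (hV : ∑ s ∈ I, μ s * (1 + μ s) * (θ * c s) ^ 2 * Real.exp (2 * |θ * c s|) ≤ V) (hθ : 0 ≤ θ) :
    (PP μ μ').real {ω | x ≤ |∑ s ∈ I, c s * (ma s ω - μ s)|} ≤ 2 * Real.exp (-(θ * x) + V) := by
  have hA := tail_ma (μ' := μ') hμ I c (x := x) h1 hV hθ
  have hB := tail_ma (μ' := μ') hμ I (fun s => -c s) (θ := θ) (x := x) (V := V) (by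
      intro s hs
      have := h1 s hs
      rw [mul_neg, abs_neg]
      exact this) (by
      refine le_trans (le_of_eq ?_) hV
      apply Finset.sum_congr rfl
      intro s _
      rw [mul_neg, abs_neg, neg_sq]) hθ
  have hsub : {ω | x ≤ |∑ s ∈ I, c s * (ma s ω - μ s)|}
      ⊆ {ω | x ≤ ∑ s ∈ I, c s * (ma s ω - μ s)} ∪ {ω | x ≤ ∑ s ∈ I, -c s * (ma s ω - μ s)} := by
    intro ω hω
    have hω' : x ≤ |∑ s ∈ I, c s * (ma s ω - μ s)| := hω
    rcases le_abs.1 hω' with h | h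
    · exact Or.inl h
    · right
      show x ≤ ∑ s ∈ I, -c s * (ma s ω - μ s)
      refine h.trans (le_of_eq ?_)
      rw [← Finset.sum_neg_distrib]
      apply Finset.sum_congr rfl
      intro s _
      ring
  have h3 := (measureReal_mono (μ := PP μ μ') hsub (measure_ne_top _ _)).trans
    (measureReal_union_le _ _)
  linarith

end Pool.Agent.Helper95.Dom
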