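import Pool.Agent.Helper95.DomTail

/-!
Specialised exponential tail bounds.
-/

namespace Pool.Agent.Helper95.Dom

open MeasureTheory ProbabilityTheory Filter
open scoped Topology ENNReal

theorem mu_pos {a : ℝ} (ha : 0 < a) {s : ℕ} (hs : 1 ≤ s) : 0 < mu a s := by
  have hs' : (0 : ℝ) < s := by exact_mod_cast hs
  unfold mu
  exact inv_pos.2 (exp_sub_pos (div_pos hs' ha))

theorem mu_le_div {a : ℝ} (ha : 0 < a) {s : ℕ} (hs : 1 ≤ s) : mu a s ≤ a / s := by
  have hs' : (0 : ℝ) < s := by exact_mod_cast hs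
  unfold mu
  have h1 : (s : ℝ) / a ≤ Real.exp (s / a) - 1 := by
    have := Real.add_one_le_exp ((s : ℝ) / a)
    linarith
  calc (Real.exp (s / a) - 1)⁻¹ ≤ ((s : ℝ) / a)⁻¹ := inv_anti₀ (by positivity) h1
    _ = a / s := inv_div _ _

theorem mu_le_exp {a : ℝ} (ha : 0 < a) {s : ℕ} (hs : a ≤ s) :
    mu a s ≤ 1.6 * Real.exp (-(s / a)) := by
  have hs' : (0 : ℝ) < s := by linarith
  have h1 : (1 : ℝ) ≤ (s : ℝ) / a := by rwa [one_le_div ha]
  unfold mu
  set z := (s : ℝ) / a with hz
  have h2 : Real.exp (-z) ≤ Real.exp (-1) := Real.exp_le_exp.2 (by linarith)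
  have h3 : Real.exp (-1) < 0.3678794412 := Real.exp_neg_one_lt_d9
  have h4 : Real.exp (-z) * Real.exp z = 1 := by rw [← Real.exp_add]; simp
  have h5 := exp_sub_pos (show 0 < z by linarith)
  rw [inv_le_iff_one_le_mul₀ h5]
  have h6 : (1.6 * Real.exp (-z)) * (Real.exp z - 1) = 1.6 * (1 - Real.exp (-z)) := by
    linear_combination 1.6 * h4
  rw [h6]
  norm_num at h3 ⊢
  linarith

theorem mu_exp_le {a : ℝ} (ha : 0 < a) {s : ℕ} (hs : 1 ≤ s) : Real.exp (-(s / a)) ≤ mu a s := by
  have hs' : (0 : ℝ) < s := by exact_mod_cast hs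
  unfold mu
  have h5 := exp_sub_pos (div_pos hs' ha)
  rw [Real.exp_neg]
  exact inv_anti₀ h5 (by linarith)

theorem exp_sub_one_le' {x : ℝ} (h : 0 ≤ x) : Real.exp x - 1 ≤ x * Real.exp x := by
  have h1 := exp_sub_one_abs x
  rw [abs_of_nonneg h, abs_of_nonneg (by linarith [Real.one_le_exp h])] at h1
  exact h1

theorem exp_quarter : Real.exp (1 / 4) ≤ 1.285 := by
  have h := Real.exp_bound' (x := 1 / 4) (by norm_num) (by norm_num) (n := 3) (by norm_num)
  refine h.trans ?_
  norm_num [Finset.sum_range_succ, Nat.factorial]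

theorem tail_low {a : ℝ} (ha : 1 ≤ a) {T : ℕ} (hT : (T : ℝ) ≤ a) {θ : ℝ} (hθ : 0 ≤ θ)
    (hθa : 4 * (θ * a) ≤ 1) (x : ℝ) :
    (PA a).real {ω | x ≤ |∑ s ∈ Finset.Icc 1 T, (s : ℝ) * (ma s ω - mu a s)|}
      ≤ 2 * Real.exp (-(θ * x) + 2 * θ ^ 2 * a ^ 2 * T) := by
  have hpos : 0 < a := by linarith
  have hq := exp_quarter
  have hq2 : Real.exp (1 / 2) ≤ 2 := by
    have : Real.exp (1 / 2) = Real.exp (1 / 4) * Real.exp (1 / 4) := by
      rw [← Real.exp_add]; norm_num
    rw [this]
    have := Real.exp_pos (1 / 4)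
    nlinarith
  apply tail_ma_abs (mu_nonneg hpos) (Finset.Icc 1 T) (fun s => (s : ℝ)) _ _ hθ
  · intro s hs
    rw [Finset.mem_Icc] at hs
    have hs0 : (0 : ℝ) < s := by exact_mod_cast hs.1
    have hsT : (s : ℝ) ≤ a := le_trans (by exact_mod_cast hs.2) hT
    have h0 : 0 ≤ θ * s := by positivity
    rw [abs_of_nonneg h0]
    have h1 : θ * s ≤ 1 / 4 := by nlinarith
    have h2 := exp_sub_one_le' h0
    have h3 : Real.exp (θ * s) ≤ 1.285 := (Real.exp_le_exp.2 h1).trans hq
    have h4 : Real.exp (θ * s) - 1 ≤ 1.285 * (θ * s) := by nlinarith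
    have h5 := mu_le_div hpos hs.1
    have h6 := mu_nonneg hpos s
    calc mu a s * (Real.exp (θ * s) - 1) ≤ mu a s * (1.285 * (θ * s)) :=
          mul_le_mul_of_nonneg_left h4 h6
      _ ≤ a / s * (1.285 * (θ * s)) := mul_le_mul_of_nonneg_right h5 (by positivity)
      _ = 1.285 * (θ * a) := by field_simp
      _ ≤ 1 / 2 := by norm_num at *; linarith
  · calc ∑ s ∈ Finset.Icc 1 T, mu a s * (1 + mu a s) * (θ * s) ^ 2 * Real.exp (2 * |θ * s|)
        ≤ ∑ s ∈ Finset.Icc 1 T, 2 * θ ^ 2 * a ^ 2 := by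
          apply Finset.sum_le_sum
          intro s hs
          rw [Finset.mem_Icc] at hs
          have hs0 : (0 : ℝ) < s := by exact_mod_cast hs.1
          have hsT : (s : ℝ) ≤ a := le_trans (by exact_mod_cast hs.2) hT
          have h0 : 0 ≤ θ * s := by positivity
          rw [abs_of_nonneg h0]
          have h1 : θ * s ≤ 1 / 4 := by nlinarith
          have h2 : Real.exp (2 * (θ * s)) ≤ 2 := (Real.exp_le_exp.2 (by linarith)).trans hq2
          have h3 := vv_le hpos s
          unfold vv at h3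
          have h4 : mu a s * (1 + mu a s) * (θ * s) ^ 2 ≤ θ ^ 2 * a ^ 2 := by
            have h5 : mu a s * (1 + mu a s) ≤ a ^ 2 / (s : ℝ) ^ 2 := by
              rw [mul_div_assoc] at h3; linarith
            calc mu a s * (1 + mu a s) * (θ * s) ^ 2 ≤ a ^ 2 / (s : ℝ) ^ 2 * (θ * s) ^ 2 :=
                  mul_le_mul_of_nonneg_right h5 (sq_nonneg _)
              _ = θ ^ 2 * a ^ 2 := by field_simp
          have h6 : 0 ≤ mu a s * (1 + mu a s) * (θ * s) ^ 2 := by
            have := mu_nonneg hpos s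
            positivity
          nlinarith [Real.exp_pos (2 * (θ * s))]
      _ = 2 * θ ^ 2 * a ^ 2 * T := by
          rw [Finset.sum_const, Nat.card_Icc, nsmul_eq_mul]
          simp only [Nat.add_sub_cancel]
          ring

theorem sum_exp_Ioc {a : ℝ} (ha : 1 ≤ a) (T S : ℕ) :
    ∑ s ∈ Finset.Ioc T S, Real.exp (-((s : ℝ) / a)) ≤ Real.exp (-(T / a)) * (1 + a) := by
  have hpos : 0 < a := by linarith
  have h1 : ∑ s ∈ Finset.Ioc T S, Real.exp (-((s : ℝ) / a))
      = ∑ k ∈ (Finset.Ioc T S).image (fun s => s - T), Real.exp (-(T / a)) * Real.exp (-((k : ℝ) / a)) := by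
    rw [Finset.sum_image]
    · apply Finset.sum_congr rfl
      intro s hs
      rw [Finset.mem_Ioc] at hs
      rw [← Real.exp_add]
      congr 1
      push_cast [Nat.cast_sub hs.1.le]
      ring
    · intro x hx y hy h
      simp only [Finset.coe_Ioc, Set.mem_Ioc] at hx hy
      simp only at h
      omega
  rw [h1, ← Finset.mul_sum]
  exact mul_le_mul_of_nonneg_left (sum_exp_le ha _) (Real.exp_pos _).le

theorem tail_high_one {a : ℝ} (ha : 1 ≤ a) {T S : ℕ} (hT : a ≤ T + 1) {θ : ℝ} (hθ : 0 ≤ θ)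
    (hθa : 8 * θ ≤ 1) (x : ℝ) :
    (PA a).real {ω | x ≤ |∑ s ∈ Finset.Ioc T S, (ma s ω - mu a s)|}
      ≤ 2 * Real.exp (-(θ * x) + 8 * θ ^ 2 * a * Real.exp (-(T / a))) := by
  have hpos : 0 < a := by linarith
  have hq := exp_quarter
  have hsa : ∀ s ∈ Finset.Ioc T S, a ≤ (s : ℝ) := by
    intro s hs
    rw [Finset.mem_Ioc] at hs
    have : (T : ℝ) + 1 ≤ s := by exact_mod_cast hs.1
    linarith
  have key := tail_ma_abs (μ' := mu a) (mu_nonneg hpos) (Finset.Ioc T S) (fun _ => (1 : ℝ)) (θ := θ)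
    (x := x) (V := 8 * θ ^ 2 * a * Real.exp (-(T / a))) (by
      intro s hs
      have h1 := mu_le_exp hpos (hsa s hs)
      have h1' : (1 : ℝ) ≤ (s : ℝ) / a := by rw [one_le_div hpos]; exact hsa s hs
      have h2 : Real.exp (-((s : ℝ) / a)) ≤ Real.exp (-1) := Real.exp_le_exp.2 (by linarith)
      have h3 : Real.exp (-1) < 0.3678794412 := Real.exp_neg_one_lt_d9
      have h0 : 0 ≤ θ * 1 := by positivity
      rw [abs_of_nonneg h0, mul_one]
      have h4 := exp_sub_one_le' hθ
      have h5 : Real.exp θ ≤ 1.285 := (Real.exp_le_exp.2 (by linarith)).trans hq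
      have h6 : Real.exp θ - 1 ≤ 1 / 4 := by nlinarith
      have h7 : mu a s ≤ 1 := by norm_num at h3 h1 ⊢; linarith
      have h8 := mu_nonneg hpos s
      nlinarith [Real.one_le_exp hθ]) (by
      calc ∑ s ∈ Finset.Ioc T S, mu a s * (1 + mu a s) * (θ * 1) ^ 2 * Real.exp (2 * |θ * 1|)
          ≤ ∑ s ∈ Finset.Ioc T S, 4 * θ ^ 2 * Real.exp (-((s : ℝ) / a)) := by
            apply Finset.sum_le_sum
            intro s hs
            have h0 : 0 ≤ θ * 1 := by positivity
            rw [abs_of_nonneg h0, mul_one]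
            have h2 : Real.exp (2 * θ) ≤ 1.285 := (Real.exp_le_exp.2 (by linarith)).trans hq
            have h3 := vv_le_six hpos (hsa s hs)
            unfold vv at h3
            have h4 : mu a s * (1 + mu a s) ≤ 3 * Real.exp (-((s : ℝ) / a)) := by linarith
            have h5 : 0 ≤ mu a s * (1 + mu a s) := by
              have := mu_nonneg hpos s
              positivity
            calc mu a s * (1 + mu a s) * θ ^ 2 * Real.exp (2 * θ)
                ≤ 3 * Real.exp (-((s : ℝ) / a)) * θ ^ 2 * 1.285 := by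
                  apply mul_le_mul _ h2 (Real.exp_pos _).le (by positivity)
                  exact mul_le_mul_of_nonneg_right h4 (sq_nonneg _)
              _ ≤ 4 * θ ^ 2 * Real.exp (-((s : ℝ) / a)) := by
                  have : 0 ≤ θ ^ 2 * Real.exp (-((s : ℝ) / a)) := by positivity
                  nlinarith
        _ = 4 * θ ^ 2 * ∑ s ∈ Finset.Ioc T S, Real.exp (-((s : ℝ) / a)) := by rw [Finset.mul_sum]
        _ ≤ 4 * θ ^ 2 * (Real.exp (-(T / a)) * (1 + a)) :=
            mul_le_mul_of_nonneg_left (sum_exp_Ioc ha T S) (by positivity)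
        _ ≤ 8 * θ ^ 2 * a * Real.exp (-(T / a)) := by
            have : 0 ≤ θ ^ 2 * Real.exp (-((T : ℝ) / a)) := by positivity
            nlinarith) hθ
  simp only [one_mul] at key
  exact key

theorem tail_high {a : ℝ} (ha : 1 ≤ a) {T S : ℕ} (hT : a ≤ T + 1) {θ : ℝ} (hθ : 0 ≤ θ)
    (hθa : 8 * (θ * a) ≤ 1) (x : ℝ) :
    (PA a).real {ω | x ≤ |∑ s ∈ Finset.Ioc T S, (s : ℝ) * (ma s ω - mu a s)|}
      ≤ 2 * Real.exp (-(θ * x) + 120 * θ ^ 2 * a ^ 3 * Real.exp (-(T / (4 * a)))) := by
  have hpos : 0 < a := by linarith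
  have hsa : ∀ s ∈ Finset.Ioc T S, a ≤ (s : ℝ) := by
    intro s hs
    rw [Finset.mem_Ioc] at hs
    have : (T : ℝ) + 1 ≤ s := by exact_mod_cast hs.1
    linarith
  apply tail_ma_abs (mu_nonneg hpos) (Finset.Ioc T S) (fun s => (s : ℝ)) _ _ hθ
  · intro s hs
    have hs1 := hsa s hs
    have hs0 : (0 : ℝ) < s := by linarith
    have h1 := mu_le_exp hpos hs1
    have h0 : 0 ≤ θ * s := by positivity
    rw [abs_of_nonneg h0]
    set z := (s : ℝ) / a with hz
    have hz0 : 0 ≤ z := by positivity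
    have h2 : θ * s ≤ z / 8 := by
      have : (s : ℝ) = z * a := by rw [hz]; field_simp
      rw [this]
      nlinarith
    have h3 := exp_sub_one_le' h0
    have h4 : Real.exp (θ * s) ≤ Real.exp (z / 8) := Real.exp_le_exp.2 h2
    have h5 : Real.exp (θ * s) - 1 ≤ z / 8 * Real.exp (z / 8) :=
      h3.trans (mul_le_mul h2 h4 (Real.exp_pos _).le (by positivity))
    have h6 := pow_exp_le 1 (x := 7 * z / 8) (by positivity)
    have h7 : Real.exp (-z) * Real.exp (z / 8) = Real.exp (-(7 * z / 8)) := by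
      rw [← Real.exp_add]; congr 1; ring
    have h8 := mu_nonneg hpos s
    calc mu a s * (Real.exp (θ * s) - 1) ≤ mu a s * (z / 8 * Real.exp (z / 8)) :=
          mul_le_mul_of_nonneg_left h5 h8
      _ ≤ 1.6 * Real.exp (-z) * (z / 8 * Real.exp (z / 8)) :=
          mul_le_mul_of_nonneg_right h1 (by positivity)
      _ = 1.6 / 7 * ((7 * z / 8) ^ 1 * Real.exp (-(7 * z / 8))) := by
          rw [← h7]; ring
      _ ≤ 1.6 / 7 * ((Nat.factorial 1 : ℕ) : ℝ) := mul_le_mul_of_nonneg_left h6 (by norm_num)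
      _ ≤ 1 / 2 := by norm_num
  · calc ∑ s ∈ Finset.Ioc T S, mu a s * (1 + mu a s) * (θ * s) ^ 2 * Real.exp (2 * |θ * s|)
        ≤ ∑ s ∈ Finset.Ioc T S, 24 * θ ^ 2 * a ^ 2 * Real.exp (-((s : ℝ) / (4 * a))) := by
          apply Finset.sum_le_sum
          intro s hs
          have hs1 := hsa s hs
          have hs0 : (0 : ℝ) < s := by linarith
          have h0 : 0 ≤ θ * s := by positivity
          rw [abs_of_nonneg h0]
          set z := (s : ℝ) / a with hz
          have hz0 : 0 ≤ z := by positivity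
          have h2 : 2 * (θ * s) ≤ z / 4 := by
            have : (s : ℝ) = z * a := by rw [hz]; field_simp
            rw [this]
            nlinarith
          have h3 : Real.exp (2 * (θ * s)) ≤ Real.exp (z / 4) := Real.exp_le_exp.2 h2
          have h4 := vv_le_six hpos hs1
          unfold vv at h4
          have h5 : mu a s * (1 + mu a s) ≤ 3 * Real.exp (-z) := by linarith
          have h6 : 0 ≤ mu a s * (1 + mu a s) := by
            have := mu_nonneg hpos s
            positivity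
          have h7 := pow_exp_le 2 (x := z / 2) (by positivity)
          have h8 : (s : ℝ) / (4 * a) = z / 4 := by rw [hz]; field_simp
          have h9 : Real.exp (-z) * Real.exp (z / 4) = Real.exp (-(z / 2)) * Real.exp (-(z / 4)) := by
            rw [← Real.exp_add, ← Real.exp_add]; congr 1; ring
          have h10 : (s : ℝ) = z * a := by rw [hz]; field_simp
          rw [h8]
          calc mu a s * (1 + mu a s) * (θ * s) ^ 2 * Real.exp (2 * (θ * s))
              ≤ 3 * Real.exp (-z) * (θ * s) ^ 2 * Real.exp (z / 4) := by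
                apply mul_le_mul _ h3 (Real.exp_pos _).le (by positivity)
                exact mul_le_mul_of_nonneg_right h5 (sq_nonneg _)
            _ = 12 * θ ^ 2 * a ^ 2 * ((z / 2) ^ 2 * Real.exp (-(z / 2))) * Real.exp (-(z / 4)) := by
                rw [h10]
                linear_combination (3 * (θ * (z * a)) ^ 2) * h9
            _ ≤ 12 * θ ^ 2 * a ^ 2 * ((Nat.factorial 2 : ℕ) : ℝ) * Real.exp (-(z / 4)) := by
                apply mul_le_mul_of_nonneg_right _ (Real.exp_pos _).le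
                exact mul_le_mul_of_nonneg_left h7 (by positivity)
            _ = 24 * θ ^ 2 * a ^ 2 * Real.exp (-(z / 4)) := by
                norm_num [Nat.factorial]; ring
      _ = 24 * θ ^ 2 * a ^ 2 * ∑ s ∈ Finset.Ioc T S, Real.exp (-((s : ℝ) / (4 * a))) := by
          rw [Finset.mul_sum]
      _ ≤ 24 * θ ^ 2 * a ^ 2 * (Real.exp (-(T / (4 * a))) * (1 + 4 * a)) :=
          mul_le_mul_of_nonneg_left (sum_exp_Ioc (by linarith) T S) (by positivity)
      _ ≤ 120 * θ ^ 2 * a ^ 3 * Real.exp (-(T / (4 * a))) := by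
          have : 0 ≤ θ ^ 2 * a ^ 2 * Real.exp (-((T : ℝ) / (4 * a))) := by positivity
          nlinarith

end Pool.Agent.Helper95.Dom
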