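import Pool.Agent.Helper95.DomInd
import Pool.Agent.Helper95.DomDec

/-!
Change of measure.
-/

namespace Pool.Agent.Helper95.Dom

open MeasureTheory ProbabilityTheory Filter
open scoped Topology ENNReal

/-- likelihood ratio. -/
noncomputable def lr (m n : ℝ) (k : ℕ) : ℝ := gw n k / gw m k

theorem gw_pos {m : ℝ} (hm : 0 < m) (k : ℕ) : 0 < gw m k := by
  rw [gw_eq hm.le]
  positivity

theorem lr_nonneg (m n : ℝ) (k : ℕ) : 0 ≤ lr m n k := div_nonneg (gw_nonneg _ _) (gw_nonneg _ _)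

theorem chi_hasSum {m n : ℝ} (hm : 0 < m) (hn : 0 ≤ n) (h : (n - m) ^ 2 < m * (1 + m)) :
    HasSum (fun k => lr m n k ^ 2 * gw m k) (1 / (1 - (n - m) ^ 2 / (m * (1 + m)))) := by
  have h1 : ∀ k, lr m n k ^ 2 * gw m k = (1 + m) / (1 + n) ^ 2
      * (n ^ 2 * (1 + m) / ((1 + n) ^ 2 * m)) ^ k := by
    intro k
    unfold lr
    rw [gw_eq hm.le, gw_eq hn]
    have hx : n ^ 2 * (1 + m) / ((1 + n) ^ 2 * m) = (n / (1 + n)) ^ 2 / (m / (1 + m)) := by
      field_simp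
    rw [hx]
    have hx0 : 0 < m / (1 + m) := by positivity
    set x := m / (1 + m) with hxd
    set y := n / (1 + n) with hyd
    have hxk : x ^ k ≠ 0 := by positivity
    rw [div_pow (y ^ 2), ← pow_mul, mul_comm 2 k, pow_mul]
    field_simp
  have h2 : n ^ 2 * (1 + m) / ((1 + n) ^ 2 * m) < 1 := by
    rw [div_lt_one (by positivity)]
    nlinarith
  have h3 : 0 ≤ n ^ 2 * (1 + m) / ((1 + n) ^ 2 * m) := by positivity
  have h4 := (hasSum_geometric_of_lt_one h3 h2).mul_left ((1 + m) / (1 + n) ^ 2)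
  have h5 : (1 + m) / (1 + n) ^ 2 * (1 - n ^ 2 * (1 + m) / ((1 + n) ^ 2 * m))⁻¹
      = 1 / (1 - (n - m) ^ 2 / (m * (1 + m))) := by
    have hd1 : (1 + n) ^ 2 * m - n ^ 2 * (1 + m) ≠ 0 := by
      have : (1 + n) ^ 2 * m - n ^ 2 * (1 + m) = m * (1 + m) - (n - m) ^ 2 := by ring
      rw [this]
      linarith
    have hd2 : m * (1 + m) - (n - m) ^ 2 ≠ 0 := by linarith
    have e1 : 1 - n ^ 2 * (1 + m) / ((1 + n) ^ 2 * m)
        = ((1 + n) ^ 2 * m - n ^ 2 * (1 + m)) / ((1 + n) ^ 2 * m) := by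
      field_simp
    have e2 : 1 - (n - m) ^ 2 / (m * (1 + m)) = (m * (1 + m) - (n - m) ^ 2) / (m * (1 + m)) := by
      field_simp
    rw [e1, e2, inv_div, one_div, inv_div]
    rw [div_mul_div_comm, div_eq_div_iff (by positivity) hd2]
    ring
  rw [h5] at h4
  exact h4.congr_fun h1 |>.congr_fun (fun _ => rfl)

theorem chi_lint {m n : ℝ} (hm : 0 < m) (hn : 0 ≤ n) (h : (n - m) ^ 2 ≤ m * (1 + m) / 2) :
    ∫⁻ k, ENNReal.ofReal (lr m n k) ^ 2 ∂geo m
      ≤ ENNReal.ofReal (Real.exp (2 * ((n - m) ^ 2 / (m * (1 + m))))) := by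
  have h0 : (n - m) ^ 2 < m * (1 + m) := by nlinarith [mul_pos hm (by linarith : (0 : ℝ) < 1 + m)]
  have h1 := chi_hasSum hm hn h0
  rw [lintegral_countable']
  have h2 : ∀ k : ℕ, ENNReal.ofReal (lr m n k) ^ 2 * (geo m) {k}
      = ENNReal.ofReal (lr m n k ^ 2 * gw m k) := by
    intro k
    rw [geo_singleton, ← ENNReal.ofReal_pow (lr_nonneg _ _ _), ← ENNReal.ofReal_mul (by positivity)]
  simp_rw [h2]
  rw [← ENNReal.ofReal_tsum_of_nonneg (fun k => mul_nonneg (sq_nonneg _) (gw_nonneg _ _)) h1.summable,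
    h1.tsum_eq]
  apply ENNReal.ofReal_le_ofReal
  apply inv_one_sub_le (by positivity)
  rw [div_le_iff₀ (by positivity)]
  linarith

theorem map_restrict (μ μ' : ℕ → ℝ) (K : Finset ℕ) :
    (PP μ μ').map K.restrict = Measure.pi (fun s : ↥K => (geo (μ s)).prod (geo (μ' s))) := by
  unfold PP
  exact Measure.infinitePi_map_restrict _

/-- Change of measure: a lower bound through the chi square distance. -/
theorem tilt (μ μ' ν ν' : ℕ → ℝ) (I J : Finset ℕ) {E : Set Om}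
    (hE : ∀ ω ω' : Om, (∀ s ∈ J, ω s = ω' s) → (ω ∈ E ↔ ω' ∈ E))
    (h0 : ∀ s ∈ I, 0 < μ s ∧ 0 < μ' s ∧ 0 ≤ ν s ∧ 0 ≤ ν' s)
    (h1 : ∀ s, s ∉ I → ν s = μ s ∧ ν' s = μ' s)
    (h2 : ∀ s ∈ I, (ν s - μ s) ^ 2 ≤ μ s * (1 + μ s) / 2 ∧ (ν' s - μ' s) ^ 2 ≤ μ' s * (1 + μ' s) / 2)
    {X : ℝ} (hX : ∑ s ∈ I, 2 * ((ν s - μ s) ^ 2 / (μ s * (1 + μ s))
      + (ν' s - μ' s) ^ 2 / (μ' s * (1 + μ' s))) ≤ X) :
    ((PP ν ν').real E) ^ 2 ≤ Real.exp X * (PP μ μ').real E := by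
  classical
  set K := I ∪ J with hK
  let g : ℕ → ℕ × ℕ → ℝ≥0∞ := fun s p => ENNReal.ofReal (lr (μ s) (ν s) p.1 * lr (μ' s) (ν' s) p.2)
  let D : (↥K → ℕ × ℕ) → ℝ≥0∞ := fun y => ∏ s : ↥K, if s.1 ∈ I then g s (y s) else 1
  have mE : MeasurableSet E := measSet_of_dep J hE
  let E' : Set (↥K → ℕ × ℕ) := {y | (fun s => if hs : s ∈ K then y ⟨s, hs⟩ else (0, 0)) ∈ E}
  have hEE : E = K.restrict ⁻¹' E' := by
    ext ω
    simp only [Set.mem_preimage, E', Set.mem_ofPred_eq]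
    apply hE
    intro s hs
    have hs' : s ∈ K := Finset.mem_union_right _ hs
    simp [hs', Finset.restrict]
  have mE' : MeasurableSet E' := MeasurableSet.of_discrete
  have mR : Measurable (K.restrict : Om → (↥K → ℕ × ℕ)) := Finset.measurable_restrict K
  -- equality of measures
  have hM : (PP ν ν').map K.restrict = ((PP μ μ').map K.restrict).withDensity D := by
    apply Measure.ext_of_singleton
    intro y
    rw [withDensity_apply _ (measurableSet_singleton y), lintegral_singleton, map_restrict,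
      map_restrict, Measure.pi_singleton, Measure.pi_singleton]
    simp only [D]
    rw [← Finset.prod_mul_distrib]
    apply Finset.prod_congr rfl
    intro s _
    have e1 : ({y s} : Set (ℕ × ℕ)) = {(y s).1} ×ˢ {(y s).2} := by
      rw [Set.singleton_prod_singleton]
    rw [e1, Measure.prod_prod, Measure.prod_prod, geo_singleton, geo_singleton, geo_singleton,
      geo_singleton]
    split_ifs with hs
    · obtain ⟨p1, p2, _, _⟩ := h0 s.1 hs
      simp only [g]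
      rw [← ENNReal.ofReal_mul (gw_nonneg _ _), ← ENNReal.ofReal_mul (gw_nonneg _ _),
        ← ENNReal.ofReal_mul (mul_nonneg (lr_nonneg _ _ _) (lr_nonneg _ _ _))]
      congr 1
      unfold lr
      have q1 := (gw_pos p1 (y s).1).ne'
      have q2 := (gw_pos p2 (y s).2).ne'
      field_simp
    · rw [(h1 s.1 hs).1, (h1 s.1 hs).2, one_mul]
  have hD : ∀ ω : Om, D (K.restrict ω) = ∏ s ∈ I, g s (ω s) := by
    intro ω
    simp only [D, Finset.restrict]
    rw [Finset.prod_coe_sort K (fun s => if s ∈ I then g s (ω s) else 1), Finset.prod_ite_mem]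
    congr 1
    rw [Finset.inter_eq_right]
    exact Finset.subset_union_left
  have step1 : (PP ν ν') E = ∫⁻ ω, E.indicator 1 ω * ∏ s ∈ I, g s (ω s) ∂PP μ μ' := by
    rw [hEE, ← Measure.map_apply mR mE', hM, withDensity_apply _ mE',
      setLIntegral_map mE' (measurable_of_countable _) mR]
    rw [← lintegral_indicator (mR mE')]
    apply lintegral_congr
    intro ω
    by_cases hω : ω ∈ K.restrict ⁻¹' E'
    · rw [Set.indicator_of_mem hω, Set.indicator_of_mem hω, hD]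
      simp
    · rw [Set.indicator_of_notMem hω, Set.indicator_of_notMem hω]
      simp
  have hgm : Measurable (fun ω : Om => ∏ s ∈ I, g s (ω s)) :=
    meas_of_dep I (fun ω ω' h => Finset.prod_congr rfl fun s hs => by rw [h s hs])
  have step2 := ENNReal.lintegral_mul_le_Lp_mul_Lq (PP μ μ') Real.HolderConjugate.two_two
    (f := E.indicator 1) (g := fun ω => ∏ s ∈ I, g s (ω s))
    (measurable_one.indicator mE).aemeasurable hgm.aemeasurable
  have e1 : ∫⁻ ω, (E.indicator 1 ω : ℝ≥0∞) ^ (2 : ℝ) ∂PP μ μ' = (PP μ μ') E := by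
    have : ∀ ω, (E.indicator 1 ω : ℝ≥0∞) ^ (2 : ℝ) = E.indicator 1 ω := by
      intro ω
      by_cases hp : ω ∈ E
      · simp [hp]
      · simp [hp]
    simp_rw [this]
    rw [lintegral_indicator_one mE]
  have e2 : ∫⁻ ω, (∏ s ∈ I, g s (ω s)) ^ (2 : ℝ) ∂PP μ μ' ≤ ENNReal.ofReal (Real.exp X) := by
    have h3 : ∀ ω : Om, (∏ s ∈ I, g s (ω s)) ^ (2 : ℝ) = ∏ s ∈ I, (g s (ω s)) ^ 2 := by
      intro ω
      rw [ENNReal.rpow_two, Finset.prod_pow]
    simp_rw [h3]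
    rw [lint_prod μ μ' I (fun s => {s}) (fun i _ j _ hij => by simpa using hij)
      (fun s ω => (g s (ω s)) ^ 2) (fun i _ ω ω' h => by rw [h i (Finset.mem_singleton_self i)])]
    have h4 : ∀ s ∈ I, ∫⁻ ω, (g s (ω s)) ^ 2 ∂PP μ μ' ≤ ENNReal.ofReal (Real.exp (2 *
        ((ν s - μ s) ^ 2 / (μ s * (1 + μ s)) + (ν' s - μ' s) ^ 2 / (μ' s * (1 + μ' s))))) := by
      intro s hs
      obtain ⟨p1, p2, p3, p4⟩ := h0 s hs
      have e3 : ∫⁻ ω, (g s (ω s)) ^ 2 ∂PP μ μ'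
          = ∫⁻ p, (g s p) ^ 2 ∂((geo (μ s)).prod (geo (μ' s))) := by
        rw [← map_eval μ μ' s, lintegral_map (measurable_of_countable _) (measurable_pi_apply s)]
      rw [e3]
      have e4 : ∀ p : ℕ × ℕ, (g s p) ^ 2 = ENNReal.ofReal (lr (μ s) (ν s) p.1) ^ 2
          * ENNReal.ofReal (lr (μ' s) (ν' s) p.2) ^ 2 := by
        intro p
        simp only [g]
        rw [ENNReal.ofReal_mul (lr_nonneg _ _ _), mul_pow]
      simp_rw [e4]
      have e5 := lintegral_prod_mul (μ := geo (μ s)) (ν := geo (μ' s))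
        (f := fun k => ENNReal.ofReal (lr (μ s) (ν s) k) ^ 2)
        (g := fun k => ENNReal.ofReal (lr (μ' s) (ν' s) k) ^ 2)
        (measurable_of_countable _).aemeasurable (measurable_of_countable _).aemeasurable
      rw [e5]
      calc (∫⁻ k, ENNReal.ofReal (lr (μ s) (ν s) k) ^ 2 ∂geo (μ s))
            * (∫⁻ k, ENNReal.ofReal (lr (μ' s) (ν' s) k) ^ 2 ∂geo (μ' s))
          ≤ ENNReal.ofReal (Real.exp (2 * ((ν s - μ s) ^ 2 / (μ s * (1 + μ s)))))
            * ENNReal.ofReal (Real.exp (2 * ((ν' s - μ' s) ^ 2 / (μ' s * (1 + μ' s))))) :=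
            mul_le_mul' (chi_lint p1 p3 (h2 s hs).1) (chi_lint p2 p4 (h2 s hs).2)
        _ = _ := by
            rw [← ENNReal.ofReal_mul (Real.exp_pos _).le, ← Real.exp_add]
            congr 2
            ring
    calc ∏ s ∈ I, ∫⁻ ω, (g s (ω s)) ^ 2 ∂PP μ μ'
        ≤ ∏ s ∈ I, ENNReal.ofReal (Real.exp (2 *
        ((ν s - μ s) ^ 2 / (μ s * (1 + μ s)) + (ν' s - μ' s) ^ 2 / (μ' s * (1 + μ' s))))) :=
          Finset.prod_le_prod' h4
      _ = ENNReal.ofReal (Real.exp (∑ s ∈ I, 2 *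
        ((ν s - μ s) ^ 2 / (μ s * (1 + μ s)) + (ν' s - μ' s) ^ 2 / (μ' s * (1 + μ' s))))) := by
          rw [Real.exp_sum, ENNReal.ofReal_prod_of_nonneg fun s _ => (Real.exp_pos _).le]
      _ ≤ _ := ENNReal.ofReal_le_ofReal (Real.exp_le_exp.2 hX)
  rw [e1] at step2
  have step3 : (PP ν ν') E ≤ (PP μ μ') E ^ (1 / (2 : ℝ)) * (ENNReal.ofReal (Real.exp X)) ^ (1 / (2 : ℝ)) := by
    rw [step1]
    refine step2.trans ?_
    gcongr
  have step4 : (PP ν ν') E ^ 2 ≤ (PP μ μ') E * ENNReal.ofReal (Real.exp X) := by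
    have h5 := pow_le_pow_left' step3 2
    have h6 : ∀ x : ℝ≥0∞, (x ^ (1 / (2 : ℝ))) ^ 2 = x := by
      intro x
      rw [← ENNReal.rpow_natCast, ← ENNReal.rpow_mul]
      norm_num
    rw [mul_pow, h6, h6] at h5
    exact h5
  have step5 := ENNReal.toReal_mono (ENNReal.mul_ne_top (measure_ne_top _ _) ENNReal.ofReal_ne_top)
    step4
  rw [ENNReal.toReal_pow, ENNReal.toReal_mul, ENNReal.toReal_ofReal (Real.exp_pos _).le] at step5
  show ((PP ν ν') E).toReal ^ 2 ≤ Real.exp X * ((PP μ μ') E).toReal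
  linarith

end Pool.Agent.Helper95.Dom
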