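import Pool.Agent.Helper95.DomDec2

/-!
Upper bound for the probability that the functional of the large parts stays nonnegative.
-/

namespace Pool.Agent.Helper95.Dom

open MeasureTheory ProbabilityTheory Filter
open scoped Topology ENNReal

theorem DA_Ioc (S t : ℕ) (ω : Om) : DA S t ω = ∑ s ∈ Finset.Ioc t S, ((s : ℝ) - t) * xs s ω := by
  have e0 : DA S t ω = ∑ s ∈ Finset.Ioc t S, ((s - t : ℕ) : ℝ) * xs s ω := by
    unfold DA
    symm
    apply Finset.sum_subset
    · intro s hs
      simp only [Finset.mem_Ioc, Finset.mem_Icc] at hs ⊢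
      omega
    · intro s hs hs2
      simp only [Finset.mem_Ioc, Finset.mem_Icc] at hs hs2
      have : s - t = 0 := by omega
      rw [this]; simp
  rw [e0]
  apply Finset.sum_congr rfl
  intro s hs
  simp only [Finset.mem_Ioc] at hs
  rw [Nat.cast_sub hs.1.le]

theorem bA_ratio (a : ℝ) (t t' : ℕ) :
    bA a t' = bA a t * Real.exp (-(((t' : ℝ) - t) / (2 * a))) := by
  unfold bA
  have h : Real.exp (-((t' : ℝ) / (2 * a))) = Real.exp (-((t : ℝ) / (2 * a)))
      * Real.exp (-(((t' : ℝ) - t) / (2 * a))) := by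
    rw [← Real.exp_add]
    congr 1
    ring
  rw [h]
  ring

theorem exp_quarter_le : Real.exp (1 / 4) ≤ 3 / 2 := by
  have := exp_le_two (x := 1 / 4) (by norm_num) (by norm_num)
  linarith

theorem blockA_bound {a : ℝ} (ha : 0 < a) {t e R : ℕ} (hte : t ≤ e) {X : ℝ}
    (hX : X - 1 ≤ ((e : ℝ) - t) / a) (ω : Om) :
    |∑ s ∈ Finset.Ioc e R, ((s : ℝ) - t) * xs s ω| ≤ bA a t * (6 * Real.exp (-(X / 4))
      * (|∑ s ∈ Finset.Ioc e R, (((s : ℝ) - e) / bA a e) * xs s ω|
        + |∑ s ∈ Finset.Ioc e R, (a / bA a e) * xs s ω|)) := by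
  have hb := bA_pos ha e
  have hbt := bA_pos ha t
  set Y := ∑ s ∈ Finset.Ioc e R, (((s : ℝ) - e) / bA a e) * xs s ω with hY
  set V := ∑ s ∈ Finset.Ioc e R, (a / bA a e) * xs s ω with hV
  set x := ((e : ℝ) - t) / a with hx
  have hx0 : 0 ≤ x := by
    apply div_nonneg _ ha.le
    have : (t : ℝ) ≤ e := by exact_mod_cast hte
    linarith
  have e1 : ∑ s ∈ Finset.Ioc e R, ((s : ℝ) - t) * xs s ω = bA a e * Y + bA a e * x * V := by
    rw [hY, hV, Finset.mul_sum, Finset.mul_sum, ← Finset.sum_add_distrib]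
    apply Finset.sum_congr rfl
    intro s _
    rw [hx]
    field_simp
    ring
  rw [e1]
  have h1 : |bA a e * Y + bA a e * x * V| ≤ bA a e * ((1 + x) * (|Y| + |V|)) := by
    calc |bA a e * Y + bA a e * x * V| ≤ |bA a e * Y| + |bA a e * x * V| := abs_add_le _ _
      _ = bA a e * |Y| + bA a e * x * |V| := by
          rw [abs_mul, abs_mul, abs_of_pos hb, abs_of_nonneg (mul_nonneg hb.le hx0)]
      _ ≤ _ := by
          have h2 : 0 ≤ bA a e * |V| := by positivity
          have h3 : 0 ≤ bA a e * (x * |Y|) := by positivity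
          nlinarith
  refine h1.trans ?_
  rw [bA_ratio a t e, mul_assoc (bA a t), ← mul_assoc (Real.exp _) (1 + x)]
  apply mul_le_mul_of_nonneg_left _ hbt.le
  apply mul_le_mul_of_nonneg_right _ (by positivity)
  have h2 : ((e : ℝ) - t) / (2 * a) = x / 2 := by rw [hx]; ring
  rw [h2]
  have h3 : 1 + x ≤ 4 * Real.exp (x / 4) := by
    have := Real.add_one_le_exp (x / 4)
    linarith
  calc Real.exp (-(x / 2)) * (1 + x) ≤ Real.exp (-(x / 2)) * (4 * Real.exp (x / 4)) :=
        mul_le_mul_of_nonneg_left h3 (Real.exp_pos _).le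
    _ = 4 * Real.exp (-(x / 4)) := by
        rw [mul_left_comm, ← Real.exp_add]
        congr 2
        ring
    _ ≤ 4 * Real.exp (1 / 4 + -(X / 4)) := by
        apply mul_le_mul_of_nonneg_left _ (by norm_num)
        apply Real.exp_le_exp.2
        linarith
    _ ≤ 6 * Real.exp (-(X / 4)) := by
        rw [Real.exp_add]
        have := exp_quarter_le
        have h4 := Real.exp_pos (-(X / 4))
        nlinarith

theorem upA_core {a u0 M ε κ p : ℝ} {S B l m : ℕ} (ha : 1 ≤ a) (hu0 : 2 ≤ u0) (hm : 1 ≤ m)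
    (hM : 0 ≤ M) (hlam : 4 ≤ (l : ℝ) + M)
    (hae : ∀ j < B, 1 ≤ a * Real.exp (-(u0 + j * ((l : ℝ) + M))))
    (hS : ⌊a * (u0 + B * ((l : ℝ) + M))⌋₊ ≤ S)
    (hmesh : ∀ j < B, (PA a).real (meshA a (u0 + j * ((l : ℝ) + M)) S m l (-(3 * ε))) ≤ p / 2)
    (hε : 0 < ε) (hκ : 0 < κ) (hmk : 480 * (12 * Real.exp (-(M / 4))) ≤ ε)
    (h1 : κ * (12 * Real.exp (-(M / 4))) ≤ 1 / 160) (h2 : Real.exp (-(κ * ε)) ≤ p)
    (h3 : Real.exp (-(1 / 160 / (κ * (12 * Real.exp (-(M / 4)))))) ≤ p) :
    (PA a).real (⋂ j ∈ Finset.range B, meshA a (u0 + j * ((l : ℝ) + M)) S m l (-ε))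
      ≤ (12 * p) ^ B := by
  have hpos : 0 < a := by linarith
  set lam := (l : ℝ) + M with hlamdef
  have hm0 : (0 : ℝ) < m := by exact_mod_cast hm
  have hl0 : (0 : ℝ) ≤ l := Nat.cast_nonneg l
  have hllam : (l : ℝ) ≤ lam := by rw [hlamdef]; linarith
  set u : ℕ → ℝ := fun j => u0 + j * lam with hu
  have hu2 : ∀ j, 2 ≤ u j := fun j => by
    have : (0 : ℝ) ≤ j * lam := by positivity
    simp only [hu]; linarith
  have humono : ∀ {i j : ℕ}, i ≤ j → u i ≤ u j := by
    intro i j hij
    simp only [hu]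
    have : (i : ℝ) ≤ j := by exact_mod_cast hij
    nlinarith
  set e : ℕ → ℕ := fun j => if j < B then ⌊a * u j⌋₊ else S with he
  have hemono : Monotone e := by
    intro i j hij
    simp only [he]
    by_cases hj : j < B
    · rw [if_pos (lt_of_le_of_lt hij hj), if_pos hj]
      apply Nat.floor_le_floor
      exact mul_le_mul_of_nonneg_left (humono hij) hpos.le
    · rw [if_neg hj]
      by_cases hi : i < B
      · rw [if_pos hi]
        refine le_trans (Nat.floor_le_floor ?_) hS
        exact mul_le_mul_of_nonneg_left (humono hi.le) hpos.le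
      · rw [if_neg hi]
  have heB : e B = S := by simp [he]
  have helt : ∀ j < B, e j = ⌊a * u j⌋₊ := fun j hj => by simp [he, hj]
  have hfl : ∀ j, (⌊a * u j⌋₊ : ℝ) ≤ a * u j ∧ a * u j - 1 < ⌊a * u j⌋₊ := by
    intro j
    have h0 : 0 ≤ a * u j := mul_nonneg hpos.le (by linarith [hu2 j])
    exact ⟨Nat.floor_le h0, by have := Nat.lt_floor_add_one (a * u j); linarith⟩
  -- the times of block `j`
  have ht_low : ∀ j i, ⌊a * u j⌋₊ ≤ tA a (u j) m i := by
    intro j i
    rw [← tA_zero a (u j) m]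
    exact tA_mono hpos m (Nat.zero_le i)
  have ht_up : ∀ j, ∀ i ≤ l * m, (tA a (u j) m i : ℝ) ≤ a * (u j + l) := by
    intro j i hi
    refine (tA_bounds hpos (by linarith [hu2 j]) m i).2.trans ?_
    apply mul_le_mul_of_nonneg_left _ hpos.le
    have : (i : ℝ) / m ≤ l := by
      rw [div_le_iff₀ hm0]
      exact_mod_cast hi
    linarith
  have ht_next : ∀ j < B, ∀ i ≤ l * m, tA a (u j) m i ≤ e (j + 1) := by
    intro j hj i hi
    have h4 : tA a (u j) m i ≤ ⌊a * u (j + 1)⌋₊ := by
      rw [Nat.le_floor_iff (mul_nonneg hpos.le (by linarith [hu2 (j + 1)]))]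
      refine (ht_up j i hi).trans ?_
      apply mul_le_mul_of_nonneg_left _ hpos.le
      simp only [hu]
      push_cast
      linarith
    by_cases hj2 : j + 1 < B
    · rw [helt _ hj2]; exact h4
    · have : j + 1 = B := by omega
      rw [this, heB]
      rw [this] at h4
      exact h4.trans hS
  set ζ : ℕ → Om → ℝ := fun i ω =>
    |∑ s ∈ Finset.Ioc (e i) (e (i + 1)), (((s : ℝ) - e i) / bA a (e i)) * xs s ω|
      + |∑ s ∈ Finset.Ioc (e i) (e (i + 1)), (a / bA a (e i)) * xs s ω| with hζ
  set w : ℕ → ℕ → ℝ := fun i j => if j < i then 6 * Real.exp (-((M + ((i : ℝ) - j - 1) * lam) / 4))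
    else 0 with hw
  set F : ℕ → Set Om := fun j => {ω | ∀ i ≤ l * m, -(2 * ε) * bA a (tA a (u j) m i)
    ≤ DA (e (j + 1)) (tA a (u j) m i) ω} with hF
  -- key estimate
  have key : ∀ j < B, ∀ i ≤ l * m, ∀ ω, |DA S (tA a (u j) m i) ω - DA (e (j + 1)) (tA a (u j) m i) ω|
      ≤ bA a (tA a (u j) m i) * ∑ k ∈ Finset.range B, w k j * ζ k ω := by
    intro j hj i hi ω
    set t := tA a (u j) m i with ht
    have hb := bA_pos hpos t
    have h4 : DA S t ω - DA (e (j + 1)) t ω = ∑ k ∈ Finset.Ico (j + 1) B,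
        ∑ s ∈ Finset.Ioc (e k) (e (k + 1)), ((s : ℝ) - t) * xs s ω := by
      rw [← sum_blocks e hemono _ (by omega : j + 1 ≤ B), heB, DA_Ioc, DA_Ioc,
        ← Finset.sum_Ioc_consecutive _ (ht_next j hj i hi) (heB ▸ hemono (by omega : j + 1 ≤ B))]
      ring
    rw [h4]
    refine (Finset.abs_sum_le_sum_abs _ _).trans ?_
    rw [Finset.mul_sum]
    calc ∑ k ∈ Finset.Ico (j + 1) B, |∑ s ∈ Finset.Ioc (e k) (e (k + 1)), ((s : ℝ) - t) * xs s ω|
        ≤ ∑ k ∈ Finset.Ico (j + 1) B, bA a t * (w k j * ζ k ω) := by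
          apply Finset.sum_le_sum
          intro k hk
          rw [Finset.mem_Ico] at hk
          have hjk : j < k := by omega
          have hk1 : (j : ℝ) + 1 ≤ k := by exact_mod_cast hk.1
          have htk : t ≤ e k := (ht_next j hj i hi).trans (hemono hk.1)
          have hX : (M + ((k : ℝ) - j - 1) * lam) - 1 ≤ ((e k : ℝ) - t) / a := by
            rw [le_div_iff₀ hpos, helt k hk.2]
            have h5 := (hfl k).2
            have h6 := ht_up j i hi
            have h7 : a * u k - a * (u j + l) = (M + ((k : ℝ) - j - 1) * lam) * a := by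
              simp only [hu]
              rw [hlamdef]
              ring
            have h8 : (t : ℝ) ≤ a * (u j + l) := h6
            nlinarith
          have h9 := blockA_bound hpos htk hX ω (R := e (k + 1))
          refine h9.trans (le_of_eq ?_)
          simp only [hw, hζ, if_pos hjk]
      _ ≤ ∑ k ∈ Finset.range B, bA a t * (w k j * ζ k ω) := by
          apply Finset.sum_le_sum_of_subset_of_nonneg
          · intro k hk
            rw [Finset.mem_Ico] at hk
            exact Finset.mem_range.2 hk.2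
          · intro k _ _
            apply mul_nonneg hb.le
            apply mul_nonneg
            · simp only [hw]
              split_ifs <;> positivity
            · simp only [hζ]
              positivity
  -- weights
  have hr0 : 0 ≤ Real.exp (-(lam / 4)) := (Real.exp_pos _).le
  have hr : Real.exp (-(lam / 4)) ≤ 1 / 2 := by
    have h4 : Real.exp (-(lam / 4)) ≤ Real.exp (-1) := Real.exp_le_exp.2 (by linarith)
    have h5 := Real.exp_neg_one_lt_d9
    norm_num at h5
    linarith
  have hwform : ∀ i j, w i j ≤ 6 * Real.exp (-(M / 4))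
      * (if j < i then (Real.exp (-(lam / 4))) ^ (i - j - 1) else 0) := by
    intro i j
    simp only [hw]
    by_cases hij : j < i
    · rw [if_pos hij, if_pos hij, mul_assoc, ← Real.exp_nat_mul, ← Real.exp_add]
      apply le_of_eq
      congr 2
      rw [Nat.cast_sub (by omega), Nat.cast_sub (by omega)]
      push_cast
      ring
    · rw [if_neg hij, if_neg hij, mul_zero]
  have hfin := decouple2 (mu a) (mu a) B (fun i => Finset.Ioc (e i) (e (i + 1)))
    (fun i _ j _ hij => blocks_disjoint e hemono hij)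
    (fun j => meshA a (u j) S m l (-ε)) (fun j => meshA a (u j) S m l (-(3 * ε))) F ζ w
    (ε := ε) (κ := κ) (wb := 12 * Real.exp (-(M / 4))) (p := p) ?_ ?_ ?_ ?_ ?_ ?_ ?_ ?_ ?_ ?_ ?_ hκ
    (by positivity) hε hmk h1 h2 h3
  · exact hfin
  · intro j hj ω ω' h
    simp only [hF, Set.mem_ofPred_eq]
    have h4 : ∀ i, DA (e (j + 1)) (tA a (u j) m i) ω = DA (e (j + 1)) (tA a (u j) m i) ω' := by
      intro i
      apply DA_dep
      intro s hs
      apply h
      simp only [Finset.mem_Ioc] at hs ⊢
      have := ht_low j i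
      rw [helt j hj]
      omega
    simp_rw [h4]
  · intro j _ ω ω' h
    simp only [hζ]
    congr 2
    · exact Finset.sum_congr rfl fun s hs => by rw [xs_dep s ω ω' (h s hs)]
    · exact Finset.sum_congr rfl fun s hs => by rw [xs_dep s ω ω' (h s hs)]
  · intro j _ ω
    simp only [hζ]
    positivity
  · intro i _ j _
    simp only [hw]
    split_ifs <;> positivity
  · intro j _
    simp [hw]
  · intro i _
    have := weight_sum hr0 hr (by positivity : 0 ≤ 6 * Real.exp (-(M / 4))) B i (fun j => w i j)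
      (fun j => hwform i j)
    linarith
  · intro j _
    have := weight_sum' hr0 hr (by positivity : 0 ≤ 6 * Real.exp (-(M / 4))) B j (fun i => w i j)
      (fun i => hwform i j)
    linarith
  · intro j hj ω hω
    by_cases hcase : ε ≤ ∑ i ∈ Finset.range B, w i j * ζ i ω
    · exact Or.inr hcase
    · left
      push Not at hcase
      intro i hi
      have h4 := key j hj i hi ω
      have h5 := hω i hi
      have hb := bA_pos hpos (tA a (u j) m i)
      have h6 := (abs_le.1 h4).2
      have h7 := mul_lt_mul_of_pos_left hcase hb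
      linarith
  · rintro j hj ω ⟨hω1, hω2⟩ i hi
    have hω2' : ∑ i ∈ Finset.range B, w i j * ζ i ω < ε := hω2
    have h4 := key j hj i hi ω
    have h5 := hω1 i hi
    have hb := bA_pos hpos (tA a (u j) m i)
    have h6 := (abs_le.1 h4).1
    have h7 := mul_lt_mul_of_pos_left hω2' hb
    linarith
  · intro j hj
    exact hmesh j hj
  · intro i hi
    have h4 := exp_momentA ha (t0 := e i) (R := e (i + 1)) ?_ ?_
    · exact h4
    · rw [helt i hi]
      have h5 := (hfl i).2
      have h6 := hu2 i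
      nlinarith
    · rw [helt i hi]
      refine (hae i hi).trans ?_
      apply mul_le_mul_of_nonneg_left _ hpos.le
      apply Real.exp_le_exp.2
      apply neg_le_neg
      rw [div_le_iff₀ hpos]
      have h5 := (hfl i).1
      simp only [hu] at h5 ⊢
      linarith

end Pool.Agent.Helper95.Dom
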