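import Pool.Agent.Helper95.DomUpA

/-!
Upper bound for the probability that the functional of the small parts stays nonnegative.
-/

namespace Pool.Agent.Helper95.Dom

open MeasureTheory ProbabilityTheory Filter
open scoped Topology ENNReal

theorem sqrt_le_exp {x y : ℝ} (h : x ≤ Real.exp y) : √x ≤ Real.exp (y / 2) := by
  rw [Real.sqrt_le_left (Real.exp_pos _).le]
  refine h.trans (le_of_eq ?_)
  rw [sq, ← Real.exp_add]
  congr 1
  ring

theorem blockB_left {a : ℝ} (ha : 0 < a) {t L R : ℕ} (hRt : R ≤ t) (hR : 1 ≤ R) {X : ℝ}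
    (hX : (R : ℝ) / t ≤ 2 * Real.exp (-X)) (ω : Om) :
    |∑ s ∈ Finset.Ioc L R, ((min s t : ℕ) : ℝ) * xs s ω| ≤ bB a t * (Real.exp (-(X / 2))
      * (|∑ s ∈ Finset.Ioc L R, ((s : ℝ) / (a * √R)) * xs s ω|
        + |∑ s ∈ Finset.Ioc L R, (√L / a) * xs s ω|)) := by
  have hR0 : (0 : ℝ) < R := by exact_mod_cast hR
  have ht0 : (0 : ℝ) < t := by exact_mod_cast (by omega : 0 < t)
  have hsR := Real.sqrt_pos.2 hR0
  have hst := Real.sqrt_pos.2 ht0
  set Y := ∑ s ∈ Finset.Ioc L R, ((s : ℝ) / (a * √R)) * xs s ω with hY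
  set V := ∑ s ∈ Finset.Ioc L R, (√L / a) * xs s ω with hV
  have e1 : ∑ s ∈ Finset.Ioc L R, ((min s t : ℕ) : ℝ) * xs s ω = a * √R * Y := by
    rw [hY, Finset.mul_sum]
    apply Finset.sum_congr rfl
    intro s hs
    simp only [Finset.mem_Ioc] at hs
    rw [min_eq_left (by omega)]
    field_simp
  rw [e1, abs_mul, abs_of_pos (by positivity : 0 < a * √(R : ℝ))]
  have h1 : √(R : ℝ) ≤ 2 * √t * Real.exp (-(X / 2)) := by
    rw [Real.sqrt_le_left (by positivity)]
    rw [div_le_iff₀ ht0] at hX
    have h2 : Real.exp (-(X / 2)) ^ 2 = Real.exp (-X) := by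
      rw [sq, ← Real.exp_add]; congr 1; ring
    have h3 : (2 * √(t : ℝ) * Real.exp (-(X / 2))) ^ 2 = 4 * t * Real.exp (-X) := by
      rw [mul_pow, mul_pow, Real.sq_sqrt ht0.le, h2]
      ring
    rw [h3]
    have h4 : 0 < Real.exp (-X) * t := by positivity
    linarith
  calc a * √R * |Y| ≤ a * (2 * √t * Real.exp (-(X / 2))) * |Y| := by
        apply mul_le_mul_of_nonneg_right _ (abs_nonneg _)
        exact mul_le_mul_of_nonneg_left h1 ha.le
    _ = bB a t * (Real.exp (-(X / 2)) * |Y|) := by unfold bB; ring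
    _ ≤ _ := by
        apply mul_le_mul_of_nonneg_left _ (by unfold bB; positivity)
        apply mul_le_mul_of_nonneg_left _ (Real.exp_pos _).le
        linarith [abs_nonneg V]

theorem blockB_right {a : ℝ} (ha : 0 < a) {t L R : ℕ} (htL : t ≤ L) (ht : 1 ≤ t) {X : ℝ}
    (hX : (t : ℝ) / L ≤ 2 * Real.exp (-X)) (ω : Om) :
    |∑ s ∈ Finset.Ioc L R, ((min s t : ℕ) : ℝ) * xs s ω| ≤ bB a t * (Real.exp (-(X / 2))
      * (|∑ s ∈ Finset.Ioc L R, ((s : ℝ) / (a * √R)) * xs s ω|
        + |∑ s ∈ Finset.Ioc L R, (√L / a) * xs s ω|)) := by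
  have ht0 : (0 : ℝ) < t := by exact_mod_cast ht
  have hL0 : (0 : ℝ) < L := by exact_mod_cast (by omega : 0 < L)
  have hsL := Real.sqrt_pos.2 hL0
  have hst := Real.sqrt_pos.2 ht0
  set Y := ∑ s ∈ Finset.Ioc L R, ((s : ℝ) / (a * √R)) * xs s ω with hY
  set V := ∑ s ∈ Finset.Ioc L R, (√L / a) * xs s ω with hV
  have e1 : ∑ s ∈ Finset.Ioc L R, ((min s t : ℕ) : ℝ) * xs s ω = (t * a / √L) * V := by
    rw [hV, Finset.mul_sum]
    apply Finset.sum_congr rfl
    intro s hs
    simp only [Finset.mem_Ioc] at hs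
    rw [min_eq_right (by omega)]
    field_simp
  rw [e1, abs_mul, abs_of_pos (by positivity : 0 < t * a / √(L : ℝ))]
  have h1 : √(t : ℝ) / √L ≤ 2 * Real.exp (-(X / 2)) := by
    rw [← Real.sqrt_div ht0.le, Real.sqrt_le_left (by positivity)]
    have h2 : Real.exp (-(X / 2)) ^ 2 = Real.exp (-X) := by
      rw [sq, ← Real.exp_add]; congr 1; ring
    rw [mul_pow, h2]
    have := Real.exp_pos (-X)
    linarith
  have h2 : (t : ℝ) * a / √L = a * √t * (√(t : ℝ) / √L) := by
    have := Real.mul_self_sqrt ht0.le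
    field_simp
    rw [sq, this]
  rw [h2]
  calc a * √t * (√(t : ℝ) / √L) * |V| ≤ a * √t * (2 * Real.exp (-(X / 2))) * |V| := by
        apply mul_le_mul_of_nonneg_right _ (abs_nonneg _)
        exact mul_le_mul_of_nonneg_left h1 (by positivity)
    _ = bB a t * (Real.exp (-(X / 2)) * |V|) := by unfold bB; ring
    _ ≤ _ := by
        apply mul_le_mul_of_nonneg_left _ (by unfold bB; positivity)
        apply mul_le_mul_of_nonneg_left _ (Real.exp_pos _).le
        linarith [abs_nonneg Y]

theorem upB_core {a u0 M ε κ p : ℝ} {T B l m : ℕ} (ha : 1 ≤ a) (hT : (T : ℝ) ≤ a) (hu0 : 1 ≤ u0)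
    (hm : 1 ≤ m) (hl : 1 ≤ l)
    (hM : 0 ≤ M) (hlam : 4 ≤ (l : ℝ) + 2 * M)
    (hTB : ⌊Real.exp (u0 + B * ((l : ℝ) + 2 * M))⌋₊ ≤ T)
    (hmesh : ∀ j < B, (PA a).real (meshB a (u0 + j * ((l : ℝ) + 2 * M)) T m l (-(3 * ε))) ≤ p / 2)
    (hε : 0 < ε) (hκ : 0 < κ) (hmk : 480 * (12 * Real.exp (-(M / 4))) ≤ ε)
    (h1 : κ * (12 * Real.exp (-(M / 4))) ≤ 1 / 160) (h2 : Real.exp (-(κ * ε)) ≤ p)
    (h3 : Real.exp (-(1 / 160 / (κ * (12 * Real.exp (-(M / 4)))))) ≤ p) :
    (PA a).real (⋂ j ∈ Finset.range B, meshB a (u0 + j * ((l : ℝ) + 2 * M)) T m l (-ε))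
      ≤ (12 * p) ^ B := by
  have hpos : 0 < a := by linarith
  set lam := (l : ℝ) + 2 * M with hlamdef
  have hm0 : (0 : ℝ) < m := by exact_mod_cast hm
  have hl0 : (1 : ℝ) ≤ l := by exact_mod_cast hl
  have hllam : (l : ℝ) + M ≤ lam := by rw [hlamdef]; linarith
  set u : ℕ → ℝ := fun j => u0 + j * lam with hu
  have hu1 : ∀ j, 1 ≤ u j := fun j => by
    have : (0 : ℝ) ≤ j * lam := by positivity
    simp only [hu]; linarith
  have hu1' : ∀ j, 1 ≤ j → 1 ≤ u j - M := fun j hj => by
    have : (1 : ℝ) ≤ j := by exact_mod_cast hj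
    simp only [hu]
    nlinarith
  have humono : ∀ {i j : ℕ}, i ≤ j → u i ≤ u j := by
    intro i j hij
    simp only [hu]
    have : (i : ℝ) ≤ j := by exact_mod_cast hij
    nlinarith
  have hexpbig : ∀ x : ℝ, 1 ≤ x → Real.exp x / 2 ≤ (⌊Real.exp x⌋₊ : ℝ) := by
    intro x hx
    have h4 := Nat.lt_floor_add_one (Real.exp x)
    have h5 := Real.add_one_le_exp x
    linarith
  set e : ℕ → ℕ := fun j => if j = 0 then 0 else if j < B then ⌊Real.exp (u j - M)⌋₊ else T with he
  have he0 : e 0 = 0 := by simp [he]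
  have helt : ∀ j, 1 ≤ j → j < B → e j = ⌊Real.exp (u j - M)⌋₊ := fun j h4 h5 => by
    simp only [he]
    rw [if_neg (by omega), if_pos h5]
  have hege : ∀ j, 1 ≤ j → B ≤ j → e j = T := fun j h4 h5 => by
    simp only [he]
    rw [if_neg (by omega), if_neg (by omega)]
  have hfloorT : ∀ j ≤ B, ⌊Real.exp (u j)⌋₊ ≤ T := by
    intro j hj
    refine le_trans (Nat.floor_le_floor ?_) hTB
    exact Real.exp_le_exp.2 (humono hj)
  have hemono : Monotone e := by
    intro i j hij
    rcases Nat.eq_zero_or_pos i with rfl | hi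
    · rw [he0]; exact Nat.zero_le _
    by_cases hj : j < B
    · rw [helt i hi (by omega), helt j (by omega) hj]
      apply Nat.floor_le_floor
      apply Real.exp_le_exp.2
      linarith [humono hij]
    · rw [hege j (by omega) (by omega)]
      by_cases hi2 : i < B
      · rw [helt i hi hi2]
        refine le_trans (Nat.floor_le_floor ?_) (hfloorT i hi2.le)
        apply Real.exp_le_exp.2
        linarith
      · rw [hege i hi (by omega)]
  -- the times of block `j`
  have ht_low : ∀ j i, ⌊Real.exp (u j)⌋₊ ≤ tB (u j) m i := by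
    intro j i
    rw [← tB_zero (u j) m]
    exact tB_mono _ m (Nat.zero_le i)
  have ht_up : ∀ j, ∀ i ≤ l * m, (tB (u j) m i : ℝ) ≤ Real.exp (u j + l) := by
    intro j i hi
    refine (tB_bounds (u j) m i).2.trans ?_
    apply Real.exp_le_exp.2
    have : (i : ℝ) / m ≤ l := by
      rw [div_le_iff₀ hm0]
      exact_mod_cast hi
    linarith
  have ht_one : ∀ j i, 1 ≤ tB (u j) m i := by
    intro j i
    refine le_trans ?_ (ht_low j i)
    rw [Nat.one_le_floor_iff]
    exact Real.one_le_exp (by linarith [hu1 j])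
  have ht_prev : ∀ j < B, ∀ i, e j ≤ tB (u j) m i := by
    intro j hj i
    rcases Nat.eq_zero_or_pos j with rfl | hj0
    · rw [he0]; exact Nat.zero_le _
    · rw [helt j hj0 hj]
      refine le_trans (Nat.floor_le_floor ?_) (ht_low j i)
      apply Real.exp_le_exp.2
      linarith
  have ht_next : ∀ j, j + 1 < B → ∀ i ≤ l * m, tB (u j) m i ≤ e (j + 1) := by
    intro j hj i hi
    rw [helt (j + 1) (by omega) hj, Nat.le_floor_iff (Real.exp_pos _).le]
    refine (ht_up j i hi).trans ?_
    apply Real.exp_le_exp.2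
    simp only [hu]
    push_cast
    rw [hlamdef]
    linarith
  set ζ : ℕ → Om → ℝ := fun i ω =>
    |∑ s ∈ Finset.Ioc (e i) (e (i + 1)), ((s : ℝ) / (a * √(e (i + 1) : ℝ))) * xs s ω|
      + |∑ s ∈ Finset.Ioc (e i) (e (i + 1)), (√(e i : ℝ) / a) * xs s ω| with hζ
  set w : ℕ → ℕ → ℝ := fun i j => (if j < i then Real.exp (-((M + ((i : ℝ) - j - 1) * lam) / 2))
    else 0) + (if i < j then Real.exp (-((M + ((j : ℝ) - i - 1) * lam) / 2)) else 0) with hw
  set g : ℕ → ℕ → Om → ℝ := fun j t ω => ∑ s ∈ Finset.Ioc (e j) (e (j + 1)),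
    ((min s t : ℕ) : ℝ) * xs s ω with hg
  set F : ℕ → Set Om := fun j => {ω | ∀ i ≤ l * m, -(2 * ε) * bB a (tB (u j) m i)
    ≤ g j (tB (u j) m i) ω} with hF
  have hζ0 : ∀ k ω, 0 ≤ ζ k ω := fun k ω => by simp only [hζ]; positivity
  have hw0 : ∀ k j, 0 ≤ w k j := fun k j => by
    simp only [hw]
    split_ifs <;> positivity
  -- key estimate
  have key : ∀ j < B, ∀ i ≤ l * m, ∀ ω, |GB T (tB (u j) m i) ω - g j (tB (u j) m i) ω|
      ≤ bB a (tB (u j) m i) * ∑ k ∈ Finset.range B, w k j * ζ k ω := by
    intro j hj i hi ω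
    set t := tB (u j) m i with ht
    have hb := bB_pos hpos (ht_one j i)
    have ht1 : (1 : ℝ) ≤ t := by exact_mod_cast ht_one j i
    have h4 : GB T t ω = ∑ k ∈ Finset.range B, g k t ω := by
      have heB : e B = T := hege B (by omega) le_rfl
      unfold GB
      rw [Icc_eq_Ioc, ← he0, ← heB, sum_blocks e hemono _ (Nat.zero_le B), Finset.range_eq_Ico]
    have h5 : GB T t ω - g j t ω = ∑ k ∈ (Finset.range B).erase j, g k t ω := by
      rw [h4, ← Finset.add_sum_erase _ _ (Finset.mem_range.2 hj)]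
      ring
    rw [h5]
    refine (Finset.abs_sum_le_sum_abs _ _).trans ?_
    rw [Finset.mul_sum]
    calc ∑ k ∈ (Finset.range B).erase j, |g k t ω|
        ≤ ∑ k ∈ (Finset.range B).erase j, bB a t * (w k j * ζ k ω) := by
          apply Finset.sum_le_sum
          intro k hk
          rw [Finset.mem_erase, Finset.mem_range] at hk
          rcases lt_or_gt_of_ne hk.1 with hkj | hjk
          · -- k < j
            have hk1 : (k : ℝ) + 1 ≤ j := by exact_mod_cast hkj
            have hRt : e (k + 1) ≤ t := (hemono (show k + 1 ≤ j by omega)).trans (ht_prev j hj i)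
            have hR1 : 1 ≤ e (k + 1) := by
              rw [helt (k + 1) (by omega) (by omega), Nat.one_le_floor_iff]
              exact Real.one_le_exp (by linarith [hu1' (k + 1) (by omega)])
            have hX : (e (k + 1) : ℝ) / t ≤ 2 * Real.exp (-(M + ((j : ℝ) - k - 1) * lam)) := by
              rw [div_le_iff₀ (by linarith)]
              have h6 : (e (k + 1) : ℝ) ≤ Real.exp (u (k + 1) - M) := by
                rw [helt (k + 1) (by omega) (by omega)]
                exact Nat.floor_le (Real.exp_pos _).le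
              have h7 : Real.exp (u j) / 2 ≤ t := by
                refine (hexpbig (u j) (hu1 j)).trans ?_
                exact_mod_cast ht_low j i
              have h8 : Real.exp (u (k + 1) - M) = Real.exp (-(M + ((j : ℝ) - k - 1) * lam))
                  * Real.exp (u j) := by
                rw [← Real.exp_add]
                congr 1
                simp only [hu]
                push_cast
                ring
              have h9 := Real.exp_pos (-(M + ((j : ℝ) - k - 1) * lam))
              rw [h8] at h6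
              nlinarith
            have h10 := blockB_left hpos (L := e k) hRt hR1 hX ω
            have hwk : w k j = Real.exp (-((M + ((j : ℝ) - k - 1) * lam) / 2)) := by
              simp only [hw]
              rw [if_neg (by omega), if_pos hkj, zero_add]
            rw [hwk]
            exact h10
          · -- j < k
            have hk1 : (j : ℝ) + 1 ≤ k := by exact_mod_cast hjk
            have htL : t ≤ e k := (ht_next j (by omega) i hi).trans (hemono (show j + 1 ≤ k by omega))
            have hX : (t : ℝ) / e k ≤ 2 * Real.exp (-(M + ((k : ℝ) - j - 1) * lam)) := by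
              have h7 : Real.exp (u k - M) / 2 ≤ (e k : ℝ) := by
                rw [helt k (by omega) hk.2]
                exact hexpbig (u k - M) (hu1' k (by omega))
              have h0 : (0 : ℝ) < e k := lt_of_lt_of_le (by positivity) h7
              rw [div_le_iff₀ h0]
              have h6 := ht_up j i hi
              have h8 : Real.exp (u j + l) = Real.exp (-(M + ((k : ℝ) - j - 1) * lam))
                  * Real.exp (u k - M) := by
                rw [← Real.exp_add]
                congr 1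
                simp only [hu]
                rw [hlamdef]
                ring
              have h9 := Real.exp_pos (-(M + ((k : ℝ) - j - 1) * lam))
              rw [h8] at h6
              have h6' : (t : ℝ) ≤ Real.exp (-(M + ((k : ℝ) - j - 1) * lam)) * Real.exp (u k - M) := h6
              nlinarith
            have h10 := blockB_right hpos (R := e (k + 1)) htL (ht_one j i) hX ω
            have hwk : w k j = Real.exp (-((M + ((k : ℝ) - j - 1) * lam) / 2)) := by
              simp only [hw]
              rw [if_pos hjk, if_neg (by omega), add_zero]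
            rw [hwk]
            exact h10
      _ ≤ ∑ k ∈ Finset.range B, bB a t * (w k j * ζ k ω) := by
          apply Finset.sum_le_sum_of_subset_of_nonneg (Finset.erase_subset _ _)
          intro k _ _
          exact mul_nonneg hb.le (mul_nonneg (hw0 k j) (hζ0 k ω))
  -- weights
  have hr0 : 0 ≤ Real.exp (-(lam / 2)) := (Real.exp_pos _).le
  have hr : Real.exp (-(lam / 2)) ≤ 1 / 2 := by
    have h4 : Real.exp (-(lam / 2)) ≤ Real.exp (-1) := Real.exp_le_exp.2 (by linarith)
    have h5 := Real.exp_neg_one_lt_d9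
    norm_num at h5
    linarith
  have hform : ∀ i j : ℕ, (if j < i then Real.exp (-((M + ((i : ℝ) - j - 1) * lam) / 2)) else 0)
      ≤ Real.exp (-(M / 2)) * (if j < i then (Real.exp (-(lam / 2))) ^ (i - j - 1) else 0) := by
    intro i j
    by_cases hij : j < i
    · rw [if_pos hij, if_pos hij, ← Real.exp_nat_mul, ← Real.exp_add]
      apply le_of_eq
      congr 1
      rw [Nat.cast_sub (by omega), Nat.cast_sub (by omega)]
      push_cast
      ring
    · rw [if_neg hij, if_neg hij, mul_zero]
  have hMM : 4 * Real.exp (-(M / 2)) ≤ 12 * Real.exp (-(M / 4)) := by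
    have h4 : Real.exp (-(M / 2)) ≤ Real.exp (-(M / 4)) := Real.exp_le_exp.2 (by linarith)
    have h5 := Real.exp_pos (-(M / 4))
    linarith
  have hfin := decouple2 (mu a) (mu a) B (fun i => Finset.Ioc (e i) (e (i + 1)))
    (fun i _ j _ hij => blocks_disjoint e hemono hij)
    (fun j => meshB a (u j) T m l (-ε)) (fun j => meshB a (u j) T m l (-(3 * ε))) F ζ w
    (ε := ε) (κ := κ) (wb := 12 * Real.exp (-(M / 4))) (p := p) ?_ ?_ ?_ ?_ ?_ ?_ ?_ ?_ ?_ ?_ ?_ hκ
    (by positivity) hε hmk h1 h2 h3
  · exact hfin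
  · intro j _ ω ω' h
    simp only [hF, Set.mem_ofPred_eq]
    have h4 : ∀ t, g j t ω = g j t ω' := by
      intro t
      simp only [hg]
      exact Finset.sum_congr rfl fun s hs => by rw [xs_dep s ω ω' (h s hs)]
    simp_rw [h4]
  · intro j _ ω ω' h
    simp only [hζ]
    congr 2
    · exact Finset.sum_congr rfl fun s hs => by rw [xs_dep s ω ω' (h s hs)]
    · exact Finset.sum_congr rfl fun s hs => by rw [xs_dep s ω ω' (h s hs)]
  · intro j _ ω
    exact hζ0 j ω
  · intro i _ j _
    exact hw0 i j
  · intro j _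
    simp [hw]
  · intro i _
    have h4 := weight_sum hr0 hr (Real.exp_pos (-(M / 2))).le B i _ (fun j => hform i j)
    have h5 := weight_sum' hr0 hr (Real.exp_pos (-(M / 2))).le B i _ (fun j => hform j i)
    simp only [hw, Finset.sum_add_distrib]
    linarith
  · intro j _
    have h4 := weight_sum hr0 hr (Real.exp_pos (-(M / 2))).le B j _ (fun i => hform j i)
    have h5 := weight_sum' hr0 hr (Real.exp_pos (-(M / 2))).le B j _ (fun i => hform i j)
    simp only [hw, Finset.sum_add_distrib]
    linarith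
  · intro j hj ω hω
    by_cases hcase : ε ≤ ∑ i ∈ Finset.range B, w i j * ζ i ω
    · exact Or.inr hcase
    · left
      push Not at hcase
      intro i hi
      have h4 := key j hj i hi ω
      have h5 := hω i hi
      have hb := bB_pos hpos (ht_one j i)
      have h6 := (abs_le.1 h4).2
      have h7 := mul_lt_mul_of_pos_left hcase hb
      linarith
  · rintro j hj ω ⟨hω1, hω2⟩ i hi
    have hω2' : ∑ i ∈ Finset.range B, w i j * ζ i ω < ε := hω2
    have h4 := key j hj i hi ω
    have h5 := hω1 i hi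
    have hb := bB_pos hpos (ht_one j i)
    have h6 := (abs_le.1 h4).1
    have h7 := mul_lt_mul_of_pos_left hω2' hb
    linarith
  · intro j hj
    exact hmesh j hj
  · intro i hi
    have hR1 : 1 ≤ e (i + 1) := by
      by_cases h4 : i + 1 < B
      · rw [helt (i + 1) (by omega) h4, Nat.one_le_floor_iff]
        exact Real.one_le_exp (by linarith [hu1' (i + 1) (by omega)])
      · rw [hege (i + 1) (by omega) (by omega)]
        refine le_trans ?_ (hfloorT 0 (Nat.zero_le B))
        rw [Nat.one_le_floor_iff]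
        exact Real.one_le_exp (by linarith [hu1 0])
    have hRa : (e (i + 1) : ℝ) ≤ a := by
      refine le_trans ?_ hT
      have h4 := hemono (show i + 1 ≤ B by omega)
      rw [hege B (by omega) le_rfl] at h4
      exact_mod_cast h4
    exact exp_momentB ha hR1 hRa

end Pool.Agent.Helper95.Dom
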