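import Mathlib

set_option autoImplicit false

open Finset

namespace Pool.Agent.Helper95.FPP

section general
variable {V : Type*} [Fintype V] [DecidableEq V] (G : SimpleGraph V) [DecidableRel G.Adj]

/-- configurations: `true` stands for the value `a`, `false` for the value `b` -/
abbrev Cfg : Type _ := G.edgeSet → Bool

/-- passage time of an edge -/
noncomputable def wt (a b : ℝ) (ω : Cfg G) (e : Sym2 V) : ℝ :=
  open Classical in if h : e ∈ G.edgeSet then (if ω ⟨e, h⟩ then a else b) else 0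

/-- passage time of a walk -/
noncomputable def time (a b : ℝ) (ω : Cfg G) {s t : V} (γ : G.Walk s t) : ℝ :=
  (γ.edges.map (wt G a b ω)).sum

/-- minimal passage time over the paths from `s` to `t` -/
noncomputable def fpt (a b : ℝ) (s t : V) (ω : Cfg G) : ℝ := ⨅ γ : G.Path s t, time G a b ω γ.1

/-- geodesics -/
def IsGeod (a b : ℝ) (s t : V) (ω : Cfg G) (γ : G.Path s t) : Prop :=
  time G a b ω γ.1 = fpt G a b s t ω

/-- the edge is essential: every geodesic passes through it -/
def Ess (a b : ℝ) (s t : V) (j : G.edgeSet) : Set (Cfg G) :=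
  {ω | ∀ γ : G.Path s t, IsGeod G a b s t ω γ → j.1 ∈ γ.1.edges}

/-- the edge is semi-essential: at least one geodesic passes through it -/
def SemiEss (a b : ℝ) (s t : V) (j : G.edgeSet) : Set (Cfg G) :=
  {ω | ∃ γ : G.Path s t, IsGeod G a b s t ω γ ∧ j.1 ∈ γ.1.edges}

/-- change of the minimal passage time when the coordinate `j` goes from `a` to `b` -/
noncomputable def dif (a b : ℝ) (s t : V) (j : G.edgeSet) (ω : Cfg G) : ℝ :=
  fpt G a b s t (Function.update ω j false) - fpt G a b s t (Function.update ω j true)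

/-- the edge is influential -/
def Infl (a b : ℝ) (s t : V) (j : G.edgeSet) : Set (Cfg G) := {ω | dif G a b s t j ω ≠ 0}

/-- the edge is very influential -/
def VeryInfl (a b : ℝ) (s t : V) (j : G.edgeSet) : Set (Cfg G) := {ω | dif G a b s t j ω = b - a}

/-- product probability: each coordinate is `true` (value `a`) with probability `p` -/
noncomputable def Pr (p : ℝ) (S : Set (Cfg G)) : ℝ :=
  open Classical in ∑ ω : Cfg G, if ω ∈ S then ∏ e : G.edgeSet, (if ω e then p else 1 - p) else 0

/-- the three inequalities with the constant `C` -/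
def Comparable (a b p : ℝ) (s t : V) (j : G.edgeSet) (C : ℝ) : Prop :=
  Pr G p (Infl G a b s t j) ≤ C * Pr G p (VeryInfl G a b s t j) ∧
  Pr G p (SemiEss G a b s t j) ≤ C * Pr G p (Ess G a b s t j) ∧
  Pr G p (SemiEss G a b s t j) ≤ C * Pr G p (VeryInfl G a b s t j)

end general

/-- the points of `ℤ^d` in the box `[-2n,2n]^d` -/
abbrev Vx (d n : ℕ) : Type := Fin d → ↥(Finset.Icc (-(2 * (n:ℤ))) (2 * (n:ℤ)))

/-- `ℓ¹` distance -/
def dist1 {d n : ℕ} (x y : Vx d n) : ℤ := ∑ i, |(x i : ℤ) - (y i : ℤ)|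

/-- the nearest-neighbour graph on the box -/
def box (d n : ℕ) : SimpleGraph (Vx d n) where
  Adj x y := dist1 x y = 1
  symm := ⟨fun x y h => by
    have : dist1 y x = dist1 x y := Finset.sum_congr rfl fun i _ => abs_sub_comm _ _
    rw [this]; exact h⟩
  loopless := ⟨fun x h => by
    have : dist1 x x = 0 := Finset.sum_eq_zero fun i _ => by simp
    rw [this] at h; exact absurd h (by norm_num)⟩

instance (d n : ℕ) : DecidableRel (box d n).Adj := fun x y =>
  inferInstanceAs (Decidable (dist1 x y = 1))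

/-- the point with integer coordinates `x`, for `x` in the box -/
def pt {d : ℕ} (n : ℕ) (x : Fin d → ℤ) (h : ∀ i, |x i| ≤ 2 * (n:ℤ)) : Vx d n :=
  fun i => ⟨x i, Finset.mem_Icc.2 (abs_le.1 (h i))⟩

/-- the origin -/
def org (d n : ℕ) : Vx d n := pt n (fun _ => 0) (fun i => by simp)

/-- the target `n v`, for `‖v‖_∞ ≤ 2` -/
def tgt {d : ℕ} (n : ℕ) (v : Fin d → ℤ) (hv : ∀ i, |v i| ≤ 2) : Vx d n :=
  pt n (fun i => (n:ℤ) * v i) (fun i => by
    rw [abs_mul, Nat.abs_cast, mul_comm]
    exact mul_le_mul_of_nonneg_right (hv i) (Int.natCast_nonneg n))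

/-- the edge of the box joining the neighbouring lattice points `y` and `z` -/
def edg {d : ℕ} (n : ℕ) (y z : Fin d → ℤ) (hy : ∀ i, |y i| ≤ 2 * (n:ℤ)) (hz : ∀ i, |z i| ≤ 2 * (n:ℤ))
    (h : ∑ i, |y i - z i| = 1) : (box d n).edgeSet := ⟨s(pt n y hy, pt n z hz), h⟩

end Pool.Agent.Helper95.FPP
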