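import Mathlib
import Pool.Agent.Helper95.FPPDefs

set_option autoImplicit false
set_option linter.unusedSectionVars false

open Finset

namespace Pool.Agent.Helper95.FPP

variable {V : Type*} [Fintype V] [DecidableEq V] {G : SimpleGraph V} [DecidableRel G.Adj]
  {a b p : ℝ} {ω : Cfg G} {s t u : V}

lemma wt_mem (e : Sym2 V) (h : e ∈ G.edgeSet) : wt G a b ω e = if ω ⟨e, h⟩ then a else b := by
  rw [wt, dif_pos h]

lemma wt_ge (hab : a ≤ b) {e : Sym2 V} (h : e ∈ G.edgeSet) : a ≤ wt G a b ω e := by
  rw [wt_mem e h]; split_ifs <;> linarith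

lemma wt_le (hab : a ≤ b) {e : Sym2 V} (h : e ∈ G.edgeSet) : wt G a b ω e ≤ b := by
  rw [wt_mem e h]; split_ifs <;> linarith

@[simp] lemma time_nil : time G a b ω (SimpleGraph.Walk.nil : G.Walk s s) = 0 := by simp [time]

@[simp] lemma time_cons (h : G.Adj s u) (w : G.Walk u t) :
    time G a b ω (SimpleGraph.Walk.cons h w) = wt G a b ω s(s, u) + time G a b ω w := by
  simp [time]

lemma time_append (w : G.Walk s u) (w' : G.Walk u t) :
    time G a b ω (w.append w') = time G a b ω w + time G a b ω w' := by
  simp [time]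

lemma time_ge_length (hab : a ≤ b) (w : G.Walk s t) : a * w.length ≤ time G a b ω w := by
  induction w with
  | nil => simp
  | cons h w ih =>
    rw [time_cons, SimpleGraph.Walk.length_cons]
    have := wt_ge (ω := ω) hab ((SimpleGraph.mem_edgeSet G).2 h)
    push_cast
    linarith

lemma time_le_of_forall {c : ℝ} (w : G.Walk s t) (h : ∀ e ∈ w.edges, wt G a b ω e ≤ c) :
    time G a b ω w ≤ c * w.length := by
  induction w with
  | nil => simp
  | cons hh w ih =>
    rw [time_cons, SimpleGraph.Walk.length_cons]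
    have h1 := h _ (by rw [SimpleGraph.Walk.edges_cons]; exact List.mem_cons_self)
    have h2 := ih fun e he => h e (by rw [SimpleGraph.Walk.edges_cons]; exact List.mem_cons_of_mem _ he)
    push_cast
    linarith

/-- potential bound -/
lemma time_ge_potential {φ : V → ℝ} (w : G.Walk s t)
    (h : ∀ x y, s(x, y) ∈ w.edges → φ y - φ x ≤ wt G a b ω s(x, y)) :
    φ t - φ s ≤ time G a b ω w := by
  induction w with
  | nil => simp
  | cons hh w ih =>
    rw [time_cons]
    have h1 := h _ _ (by rw [SimpleGraph.Walk.edges_cons]; exact List.mem_cons_self)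
    have h2 := ih fun x y he => h x y (by rw [SimpleGraph.Walk.edges_cons]; exact List.mem_cons_of_mem _ he)
    linarith

lemma time_bypass (hab : a ≤ b) (w : G.Walk s t) :
    time G a b ω w.bypass + a * ((w.length : ℝ) - w.bypass.length) ≤ time G a b ω w := by
  have h1 := w.edges_bypass_sublist_edges
  have key : ∀ (l l' : List (Sym2 V)), l.Sublist l' → (∀ e ∈ l', e ∈ G.edgeSet) →
      (l.map (wt G a b ω)).sum + a * ((l'.length : ℝ) - l.length) ≤ (l'.map (wt G a b ω)).sum := by
    intro l l' hl
    induction hl with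
    | slnil => simp
    | cons e _ ih =>
      intro hm
      have h2 := ih fun e' he' => hm e' (List.mem_cons_of_mem _ he')
      have h3 := wt_ge (ω := ω) hab (hm e List.mem_cons_self)
      simp only [List.map_cons, List.sum_cons, List.length_cons]
      push_cast
      linarith
    | cons_cons e _ ih =>
      intro hm
      have h2 := ih fun e' he' => hm e' (List.mem_cons_of_mem _ he')
      simp only [List.map_cons, List.sum_cons, List.length_cons]
      push_cast
      linarith
  have h4 := key _ _ h1 (fun e he => w.edges_subset_edgeSet he)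
  rw [SimpleGraph.Walk.length_edges, SimpleGraph.Walk.length_edges] at h4
  exact h4

lemma bdd_below (hab : a ≤ b) (h0 : 0 ≤ a) :
    BddBelow (Set.range fun γ : G.Path s t => time G a b ω γ.1) :=
  ⟨0, by
    rintro _ ⟨γ, rfl⟩
    exact le_trans (by positivity) (time_ge_length hab γ.1)⟩

lemma fpt_le (hab : a ≤ b) (h0 : 0 ≤ a) (w : G.Walk s t) : fpt G a b s t ω ≤ time G a b ω w := by
  have h1 : fpt G a b s t ω ≤ time G a b ω w.bypass :=
    ciInf_le (bdd_below hab h0) (⟨w.bypass, w.bypass_isPath⟩ : G.Path s t)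
  have h2 := time_bypass (ω := ω) hab w
  have h3 : (w.bypass.length : ℝ) ≤ w.length := by exact_mod_cast w.length_bypass_le_length
  have h4 : 0 ≤ a * ((w.length : ℝ) - w.bypass.length) := mul_nonneg h0 (by linarith)
  linarith

lemma exists_geod (w : G.Walk s t) : ∃ γ : G.Path s t, IsGeod G a b s t ω γ := by
  have hne : Nonempty (G.Path s t) := ⟨⟨w.bypass, w.bypass_isPath⟩⟩
  obtain ⟨γ, hγ⟩ := exists_eq_ciInf_of_finite (f := fun γ : G.Path s t => time G a b ω γ.1)
  exact ⟨γ, hγ⟩

/-- an optimal walk is a path -/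
lemma isPath_of_opt (hab : a ≤ b) (h0 : 0 < a) (w : G.Walk s t)
    (h : time G a b ω w ≤ fpt G a b s t ω) : w.IsPath := by
  have h1 : fpt G a b s t ω ≤ time G a b ω w.bypass :=
    ciInf_le (bdd_below hab h0.le) (⟨w.bypass, w.bypass_isPath⟩ : G.Path s t)
  have h2 := time_bypass (ω := ω) hab w
  have h3 : (w.length : ℝ) ≤ w.bypass.length := by
    by_contra hc
    push Not at hc
    have : 0 < a * ((w.length : ℝ) - w.bypass.length) := mul_pos h0 (by linarith)
    linarith
  have h4 := w.bypass_eq_self_of_length_le_length_bypass (by exact_mod_cast h3)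
  rw [← h4]
  exact w.bypass_isPath

/-- the edge `j` is semi-essential when an optimal walk passes through it -/
lemma mem_semiEss (hab : a ≤ b) (h0 : 0 < a) {j : G.edgeSet} (w : G.Walk s t)
    (h : time G a b ω w ≤ fpt G a b s t ω) (hj : j.1 ∈ w.edges) : ω ∈ SemiEss G a b s t j := by
  refine ⟨⟨w, isPath_of_opt hab h0 w h⟩, ?_, hj⟩
  exact le_antisymm h (fpt_le hab h0.le w)

lemma wt_update_ne {j : G.edgeSet} {x : Bool} {e : Sym2 V} (he : e ≠ j.1) :
    wt G a b (Function.update ω j x) e = wt G a b ω e := by
  unfold wt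
  split_ifs with h1 h2 h3 h3
  · rfl
  · exfalso
    rw [Function.update_of_ne (fun h => he (congrArg Subtype.val h))] at h2
    exact h3 h2
  · exfalso
    rw [Function.update_of_ne (fun h => he (congrArg Subtype.val h))] at h2
    exact h2 h3
  · rfl
  · rfl

lemma wt_update_self {j : G.edgeSet} {x : Bool} :
    wt G a b (Function.update ω j x) j.1 = if x then a else b := by
  rw [wt_mem _ j.2]
  simp

lemma wt_update_le (hab : a ≤ b) {j : G.edgeSet} {e : Sym2 V} :
    wt G a b (Function.update ω j false) e ≤ wt G a b (Function.update ω j true) e + (b - a) := by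
  by_cases he : e = j.1
  · rw [he, wt_update_self, wt_update_self]
    simp
  · rw [wt_update_ne he, wt_update_ne he]
    linarith

lemma time_update_notMem {j : G.edgeSet} {x : Bool} (w : G.Walk s t) (h : j.1 ∉ w.edges) :
    time G a b (Function.update ω j x) w = time G a b ω w := by
  unfold time
  congr 1
  refine List.map_congr_left fun e he => wt_update_ne ?_
  rintro rfl
  exact h he

lemma time_update_path {j : G.edgeSet} (w : G.Walk s t) (hw : w.IsPath) (h : j.1 ∈ w.edges) :
    time G a b (Function.update ω j false) w = time G a b (Function.update ω j true) w + (b - a) := by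
  have h1 := hw.isTrail.edges_nodup
  unfold time
  generalize w.edges = l at h h1
  induction l with
  | nil => simp at h
  | cons e l ih =>
    rw [List.nodup_cons] at h1
    simp only [List.map_cons, List.sum_cons]
    rcases List.mem_cons.1 h with h2 | h2
    · have h3 : (l.map (wt G a b (Function.update ω j false))) =
          l.map (wt G a b (Function.update ω j true)) := by
        refine List.map_congr_left fun e' he' => ?_
        have : e' ≠ j.1 := by
          rintro rfl
          exact h1.1 (h2 ▸ he')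
        rw [wt_update_ne this, wt_update_ne this]
      rw [h3, ← h2, wt_update_self, wt_update_self]
      simp only [Bool.false_eq_true, if_false, if_true]
      ring
    · have h3 : e ≠ j.1 := by
        rintro rfl
        exact h1.1 h2
      rw [ih h2 h1.2, wt_update_ne h3, wt_update_ne h3]
      ring

/-- very influential edges are semi-essential when set to `b` -/
lemma veryInfl_of (hab : a < b) (h0 : 0 < a) {j : G.edgeSet}
    (h : Function.update ω j false ∈ SemiEss G a b s t j) : ω ∈ VeryInfl G a b s t j := by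
  obtain ⟨γ, hγ, hj⟩ := h
  have h1 := time_update_path (a := a) (b := b) (ω := ω) γ.1 γ.2 hj
  have h2 : fpt G a b s t (Function.update ω j true) ≤ time G a b (Function.update ω j true) γ.1 :=
    fpt_le hab.le h0.le γ.1
  have h3 : fpt G a b s t (Function.update ω j false) ≤
      fpt G a b s t (Function.update ω j true) + (b - a) := by
    obtain ⟨γ', hγ'⟩ := exists_geod (a := a) (b := b) (ω := Function.update ω j true) γ.1
    by_cases hj' : j.1 ∈ γ'.1.edges
    · rw [← hγ', ← time_update_path γ'.1 γ'.2 hj']
      exact fpt_le hab.le h0.le γ'.1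
    · have h4 : time G a b (Function.update ω j false) γ'.1 =
          time G a b (Function.update ω j true) γ'.1 := by
        rw [time_update_notMem _ hj', time_update_notMem _ hj']
      have h5 := fpt_le (ω := Function.update ω j false) hab.le h0.le γ'.1
      rw [h4, hγ'] at h5
      linarith
  have h6 : fpt G a b s t (Function.update ω j false) =
      time G a b (Function.update ω j false) γ.1 := hγ.symm
  show dif G a b s t j ω = b - a
  rw [dif]
  linarith

/-- very influential edges lie on an optimal path in the configuration with `ω_j = b` -/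
lemma veryInfl_to (hab : a < b) (h0 : 0 < a) {j : G.edgeSet} (hne : Nonempty (G.Path s t))
    (h : ω ∈ VeryInfl G a b s t j) : ∃ γ : G.Path s t, j.1 ∈ γ.1.edges ∧
      time G a b (Function.update ω j false) γ.1 = fpt G a b s t (Function.update ω j false) := by
  obtain ⟨γ0⟩ := hne
  obtain ⟨γ, hγ⟩ := exists_geod (a := a) (b := b) (ω := Function.update ω j true) γ0.1
  have h' : fpt G a b s t (Function.update ω j false) -
      fpt G a b s t (Function.update ω j true) = b - a := h
  have hγ' : time G a b (Function.update ω j true) γ.1 =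
      fpt G a b s t (Function.update ω j true) := hγ
  by_cases hj : j.1 ∈ γ.1.edges
  · refine ⟨γ, hj, ?_⟩
    rw [time_update_path γ.1 γ.2 hj, hγ']
    linarith
  · exfalso
    have h1 : time G a b (Function.update ω j false) γ.1 =
        time G a b (Function.update ω j true) γ.1 := by
      rw [time_update_notMem _ hj, time_update_notMem _ hj]
    have h2 := fpt_le (ω := Function.update ω j false) hab.le h0.le γ.1
    rw [h1, hγ'] at h2
    linarith

lemma Pr_nonneg (hp : 0 ≤ p) (hp1 : p ≤ 1) (S : Set (Cfg G)) : 0 ≤ Pr G p S := by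
  unfold Pr
  refine sum_nonneg fun ω _ => ?_
  split_ifs
  · refine prod_nonneg fun e _ => ?_
    split_ifs <;> linarith
  · exact le_rfl

lemma Pr_empty : Pr G p ∅ = 0 := by
  unfold Pr
  simp

lemma Pr_mono (hp : 0 ≤ p) (hp1 : p ≤ 1) {S S' : Set (Cfg G)} (h : S ⊆ S') :
    Pr G p S ≤ Pr G p S' := by
  unfold Pr
  refine sum_le_sum fun ω _ => ?_
  have h1 : 0 ≤ ∏ e : G.edgeSet, (if ω e then p else 1 - p) := prod_nonneg fun e _ => by
    split_ifs <;> linarith
  split_ifs with h2 h3
  · exact le_rfl
  · exact absurd (h h2) h3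
  · exact h1
  · exact le_rfl

lemma Pr_pos (hp : 0 < p) (hp1 : p < 1) {S : Set (Cfg G)} (h : ω ∈ S) : 0 < Pr G p S := by
  classical
  have h1 : ∀ ω : Cfg G, 0 < ∏ e : G.edgeSet, (if ω e then p else 1 - p) := fun ω =>
    prod_pos fun e _ => by split_ifs <;> linarith
  unfold Pr
  refine lt_of_lt_of_le (h1 ω) ?_
  have h2 := single_le_sum (s := univ) (f := fun ω : Cfg G =>
    if ω ∈ S then ∏ e : G.edgeSet, (if ω e then p else 1 - p) else 0)
    (fun ω _ => by split_ifs; exacts [(h1 ω).le, le_rfl]) (mem_univ ω)
  simp only [h, if_true] at h2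
  convert h2

lemma Pr_univ : Pr G p Set.univ = 1 := by
  unfold Pr
  simp only [Set.mem_univ, if_true]
  have h := (Fintype.piFinset_univ (α := G.edgeSet) (β := fun _ => Bool))
  have h2 := Finset.prod_univ_sum (fun _ : G.edgeSet => (univ : Finset Bool))
    (fun (_ : G.edgeSet) (x : Bool) => if x then p else 1 - p)
  rw [Fintype.piFinset_univ] at h2
  rw [← h2]
  simp

lemma Pr_le_one (hp : 0 ≤ p) (hp1 : p ≤ 1) (S : Set (Cfg G)) : Pr G p S ≤ 1 := by
  rw [← Pr_univ (G := G) (p := p)]
  exact Pr_mono hp hp1 (Set.subset_univ S)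

/-- weight of a configuration -/
noncomputable def mass (p : ℝ) (ω : Cfg G) : ℝ := ∏ e : G.edgeSet, (if ω e then p else 1 - p)

lemma Pr_eq (S : Set (Cfg G)) [DecidablePred (· ∈ S)] :
    Pr G p S = ∑ ω : Cfg G, if ω ∈ S then mass p ω else 0 := by
  unfold Pr mass
  refine sum_congr rfl fun ω _ => ?_
  congr

lemma one_edge (hp : 0 ≤ p) (hp1 : p ≤ 1) (S : Set (Cfg G)) (e0 : G.edgeSet) :
    min p (1 - p) * Pr G p {ω | ∃ x, Function.update ω e0 x ∈ S} ≤ Pr G p S := by
  classical
  set m := min p (1 - p) with hm
  set S' : Set (Cfg G) := {ω | ∃ x, Function.update ω e0 x ∈ S} with hS'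
  set fl : Cfg G → Cfg G := fun ω => Function.update ω e0 (!ω e0) with hfl
  have hinv : Function.Involutive fl := by
    intro ω
    simp [hfl]
  set ν : Cfg G → ℝ := fun ω => ∏ e ∈ univ.erase e0, (if ω e then p else 1 - p) with hν
  have hν0 : ∀ ω, 0 ≤ ν ω := fun ω => prod_nonneg fun e _ => by split_ifs <;> linarith
  have hmass : ∀ ω : Cfg G, mass p ω = (if ω e0 then p else 1 - p) * ν ω := by
    intro ω
    rw [mass, ← mul_prod_erase univ _ (mem_univ e0)]
  have hνfl : ∀ ω, ν (fl ω) = ν ω := by
    intro ω
    refine prod_congr rfl fun e he => ?_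
    have : e ≠ e0 := (mem_erase.1 he).1
    simp only [hfl]
    rw [Function.update_of_ne this]
  have hle : ∀ ω : Cfg G, m * ν ω ≤ mass p ω := by
    intro ω
    rw [hmass]
    refine mul_le_mul_of_nonneg_right ?_ (hν0 ω)
    split_ifs
    · exact min_le_left _ _
    · exact min_le_right _ _
  have hsum : ∀ ω : Cfg G, mass p ω + mass p (fl ω) = ν ω := by
    intro ω
    rw [hmass, hmass, hνfl]
    have : (fl ω) e0 = !ω e0 := by simp [hfl]
    rw [this]
    cases ω e0 <;> simp <;> ring
  have hmem : ∀ ω, ω ∈ S' ↔ ω ∈ S ∨ fl ω ∈ S := by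
    intro ω
    constructor
    · rintro ⟨x, hx⟩
      by_cases h : x = ω e0
      · left
        rwa [h, Function.update_eq_self] at hx
      · right
        have : x = !ω e0 := by
          cases x <;> cases h' : ω e0 <;> simp_all
        rwa [this] at hx
    · rintro (h | h)
      · exact ⟨ω e0, by rwa [Function.update_eq_self]⟩
      · exact ⟨!ω e0, h⟩
  have hS'fl : ∀ ω, fl ω ∈ S' ↔ ω ∈ S' := by
    intro ω
    rw [hmem, hmem, hinv ω, or_comm]
  rw [Pr_eq, Pr_eq]
  have e1 : ∑ ω : Cfg G, (if ω ∈ S' then mass p ω else 0) =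
      ∑ ω : Cfg G, (if ω ∈ S' then mass p (fl ω) else 0) := by
    rw [← Equiv.sum_comp hinv.toPerm (fun ω : Cfg G => if ω ∈ S' then mass p ω else 0)]
    refine sum_congr rfl fun ω _ => ?_
    simp only [Function.Involutive.coe_toPerm, hS'fl]
  have e2 : ∑ ω : Cfg G, (if ω ∈ S then mass p ω else 0) =
      ∑ ω : Cfg G, (if fl ω ∈ S then mass p (fl ω) else 0) := by
    rw [← Equiv.sum_comp hinv.toPerm (fun ω : Cfg G => if ω ∈ S then mass p ω else 0)]
    rfl
  have e3 : m * (∑ ω : Cfg G, (if ω ∈ S' then mass p ω else 0) +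
      ∑ ω : Cfg G, (if ω ∈ S' then mass p (fl ω) else 0)) ≤
      ∑ ω : Cfg G, (if ω ∈ S then mass p ω else 0) +
      ∑ ω : Cfg G, (if fl ω ∈ S then mass p (fl ω) else 0) := by
    rw [← sum_add_distrib, ← sum_add_distrib, mul_sum]
    refine sum_le_sum fun ω _ => ?_
    have g1 := hle ω
    have g2 := hle (fl ω)
    rw [hνfl] at g2
    have g3 := hsum ω
    have m1 : 0 ≤ mass p ω := prod_nonneg fun e _ => by split_ifs <;> linarith
    have m2 : 0 ≤ mass p (fl ω) := prod_nonneg fun e _ => by split_ifs <;> linarith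
    by_cases h : ω ∈ S'
    · rw [if_pos h, if_pos h, g3]
      rcases (hmem ω).1 h with h1 | h1
      · rw [if_pos h1]
        split_ifs <;> linarith
      · rw [if_pos h1]
        split_ifs <;> linarith
    · rw [if_neg h, if_neg h]
      split_ifs <;> linarith
  rw [← e1, ← e2] at e3
  linarith

lemma Pr_local (hp : 0 ≤ p) (hp1 : p ≤ 1) (F : Finset G.edgeSet) (S : Set (Cfg G))
    (h : ∀ ω : Cfg G, ∃ ω' ∈ S, ∀ e, e ∉ F → ω' e = ω e) :
    min p (1 - p) ^ F.card ≤ Pr G p S := by
  classical
  have hm : 0 ≤ min p (1 - p) := le_min hp (by linarith)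
  induction F using Finset.induction_on generalizing S with
  | empty =>
    have : S = Set.univ := by
      refine Set.eq_univ_of_forall fun ω => ?_
      obtain ⟨ω', h1, h2⟩ := h ω
      have : ω' = ω := funext fun e => h2 e (by simp)
      rwa [← this]
    rw [this, Pr_univ]; simp
  | insert e0 F he0 ih =>
    have h1 := ih {ω | ∃ x, Function.update ω e0 x ∈ S} (fun ω => by
      obtain ⟨ω', h1, h2⟩ := h ω
      refine ⟨Function.update ω' e0 (ω e0), ⟨ω' e0, ?_⟩, fun e he => ?_⟩
      · simpa using h1
      · by_cases h3 : e = e0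
        · subst h3; simp
        · rw [Function.update_of_ne h3]
          exact h2 e (by simp [h3, he]))
    have h2 := one_edge hp hp1 S e0
    rw [card_insert_of_notMem he0, pow_succ, mul_comm]
    exact (mul_le_mul_of_nonneg_left h1 hm).trans h2

end Pool.Agent.Helper95.FPP
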