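import Mathlib
import Pool.Agent.Helper95.FPPWalk

set_option autoImplicit false
set_option linter.unusedSectionVars false

open Finset

namespace Pool.Agent.Helper95.FPP

variable {d n : ℕ}

lemma dist1_self (x : Vx d n) : dist1 x x = 0 := sum_eq_zero fun _ _ => by simp

lemma dist1_comm (x y : Vx d n) : dist1 x y = dist1 y x := sum_congr rfl fun _ _ => abs_sub_comm _ _

lemma dist1_nonneg (x y : Vx d n) : 0 ≤ dist1 x y := sum_nonneg fun i _ => abs_nonneg _

lemma dist1_triangle (x y z : Vx d n) : dist1 x z ≤ dist1 x y + dist1 y z := by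
  rw [dist1, dist1, dist1, ← sum_add_distrib]
  exact sum_le_sum fun i _ => abs_sub_le _ _ _

lemma dist1_eq_zero {x y : Vx d n} (h : dist1 x y = 0) : x = y := by
  rw [dist1, sum_eq_zero_iff_of_nonneg fun i _ => abs_nonneg _] at h
  funext i
  have := h i (mem_univ i)
  rw [abs_eq_zero, sub_eq_zero] at this
  exact Subtype.ext this

/-- coordinatewise betweenness -/
def Btw (x u y : Vx d n) : Prop :=
  ∀ i, ((x i : ℤ) ≤ u i ∧ (u i : ℤ) ≤ y i) ∨ ((y i : ℤ) ≤ u i ∧ (u i : ℤ) ≤ x i)

lemma Btw.left (x y : Vx d n) : Btw x x y := fun i => by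
  rcases le_total (x i : ℤ) (y i : ℤ) with h | h
  · left; exact ⟨le_rfl, h⟩
  · right; exact ⟨h, le_rfl⟩

lemma Btw.dist {x u y : Vx d n} (h : Btw x u y) : dist1 x u + dist1 u y = dist1 x y := by
  rw [dist1, dist1, dist1, ← sum_add_distrib]
  refine sum_congr rfl fun i _ => ?_
  rcases h i with h | h
  · rw [abs_of_nonpos (by linarith [h.1]), abs_of_nonpos (by linarith [h.2]),
      abs_of_nonpos (by linarith [h.1, h.2])]
    ring
  · rw [abs_of_nonneg (by linarith [h.2]), abs_of_nonneg (by linarith [h.1]),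
      abs_of_nonneg (by linarith [h.1, h.2])]
    ring

lemma dist1_update_left (x y : Vx d n) (i : Fin d) (c : ↥(Finset.Icc (-(2 * (n:ℤ))) (2 * (n:ℤ)))) :
    dist1 (Function.update x i c) y = dist1 x y - |(x i : ℤ) - y i| + |(c : ℤ) - y i| := by
  rw [dist1, dist1, ← add_sum_erase univ _ (mem_univ i), ← add_sum_erase univ _ (mem_univ i)]
  rw [Function.update_self]
  have : ∑ k ∈ univ.erase i, |((Function.update x i c k : ↥(Finset.Icc (-(2 * (n:ℤ))) (2 * (n:ℤ)))) : ℤ) - y k| =
      ∑ k ∈ univ.erase i, |(x k : ℤ) - y k| := by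
    refine sum_congr rfl fun k hk => ?_
    rw [Function.update_of_ne (mem_erase.1 hk).1]
  rw [this]; ring

lemma mono_walk (N : ℕ) : ∀ x y : Vx d n, dist1 x y = N → ∃ W : (box d n).Walk x y, W.length = N ∧
    (∀ u ∈ W.support, Btw x u y) ∧
    (∀ u ∈ W.support, ∃ W' : (box d n).Walk x u, W'.edges ⊆ W.edges ∧ (W'.length : ℤ) = dist1 x u) := by
  induction N with
  | zero =>
    intro x y h
    have := dist1_eq_zero (by simpa using h)
    subst this
    refine ⟨SimpleGraph.Walk.nil, rfl, ?_, ?_⟩
    · intro u hu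
      rw [SimpleGraph.Walk.support_nil, List.mem_singleton] at hu
      subst hu
      exact Btw.left _ _
    · intro u hu
      rw [SimpleGraph.Walk.support_nil, List.mem_singleton] at hu
      subst hu
      exact ⟨SimpleGraph.Walk.nil, by simp, by simp [dist1_self]⟩
  | succ N ih =>
    intro x y h
    have hne : x ≠ y := by
      rintro rfl
      rw [dist1_self] at h
      have : (0:ℤ) < ((N + 1 : ℕ) : ℤ) := by positivity
      omega
    obtain ⟨i, hi⟩ := Function.ne_iff.1 hne
    have hi' : (x i : ℤ) ≠ y i := fun hc => hi (Subtype.ext hc)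
    have hxi := mem_Icc.1 (x i).2
    have hyi := mem_Icc.1 (y i).2
    -- the next point
    obtain ⟨c, hc⟩ : ∃ c : ↥(Finset.Icc (-(2 * (n:ℤ))) (2 * (n:ℤ))),
        ((x i : ℤ) < y i ∧ (c : ℤ) = x i + 1) ∨ ((y i : ℤ) < x i ∧ (c : ℤ) = x i - 1) := by
      rcases lt_or_gt_of_ne hi' with h1 | h1
      · exact ⟨⟨x i + 1, mem_Icc.2 ⟨by omega, by omega⟩⟩, Or.inl ⟨h1, rfl⟩⟩
      · exact ⟨⟨x i - 1, mem_Icc.2 ⟨by omega, by omega⟩⟩, Or.inr ⟨h1, rfl⟩⟩
    set x' := Function.update x i c with hx'
    have hadj : (box d n).Adj x x' := by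
      show dist1 x x' = 1
      rw [dist1_comm, hx', dist1_update_left, dist1_self, sub_self, abs_zero]
      rcases hc with h1 | h1
      · rw [h1.2]; simp
      · rw [h1.2]; simp
    have hd : dist1 x' y = N := by
      rw [hx', dist1_update_left, h]
      push_cast
      rcases hc with h1 | h1
      · rw [h1.2, abs_of_neg (by linarith [h1.1]), abs_of_nonpos (by linarith [h1.1])]
        ring
      · rw [h1.2, abs_of_pos (by linarith [h1.1]), abs_of_nonneg (by linarith [h1.1])]
        ring
    obtain ⟨W, hW1, hW2, hW3⟩ := ih x' y hd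
    have hbt : ∀ u, Btw x' u y → Btw x u y ∧ dist1 x u = dist1 x' u + 1 := by
      intro u hu
      have h2 : Btw x u y := by
        intro k
        by_cases hk : k = i
        · subst hk
          have := hu k
          rw [hx', Function.update_self] at this
          omega
        · have := hu k
          rwa [hx', Function.update_of_ne hk] at this
      refine ⟨h2, ?_⟩
      rw [hx', dist1_update_left]
      have h3 := hu i
      rw [hx', Function.update_self] at h3
      rcases hc with h1 | h1
      · rw [h1.2] at h3 ⊢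
        have h4 : (x i : ℤ) + 1 ≤ u i := by omega
        rw [abs_of_neg (by linarith), abs_of_nonpos (by linarith)]
        ring
      · rw [h1.2] at h3 ⊢
        have h4 : (u i : ℤ) ≤ x i - 1 := by omega
        rw [abs_of_pos (by linarith), abs_of_nonneg (by linarith)]
        ring
    refine ⟨SimpleGraph.Walk.cons hadj W, by rw [SimpleGraph.Walk.length_cons, hW1], ?_, ?_⟩
    · intro u hu
      rw [SimpleGraph.Walk.support_cons, List.mem_cons] at hu
      rcases hu with rfl | hu
      · exact Btw.left _ _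
      · exact (hbt u (hW2 u hu)).1
    · intro u hu
      rw [SimpleGraph.Walk.support_cons, List.mem_cons] at hu
      rcases hu with rfl | hu
      · exact ⟨SimpleGraph.Walk.nil, by simp, by simp [dist1_self]⟩
      · obtain ⟨W', hW'1, hW'2⟩ := hW3 u hu
        refine ⟨SimpleGraph.Walk.cons hadj W', ?_, ?_⟩
        · rw [SimpleGraph.Walk.edges_cons, SimpleGraph.Walk.edges_cons]
          exact List.cons_subset_cons _ hW'1
        · rw [SimpleGraph.Walk.length_cons, (hbt u (hW2 u hu)).2]
          push_cast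
          rw [hW'2]

lemma mono_walk' (x y : Vx d n) : ∃ W : (box d n).Walk x y, (W.length : ℤ) = dist1 x y ∧
    (∀ u ∈ W.support, Btw x u y) ∧
    (∀ u ∈ W.support, ∃ W' : (box d n).Walk x u, W'.edges ⊆ W.edges ∧ (W'.length : ℤ) = dist1 x u) := by
  obtain ⟨N, hN⟩ := Int.eq_ofNat_of_zero_le (dist1_nonneg x y)
  obtain ⟨W, h1, h2, h3⟩ := mono_walk N x y hN
  exact ⟨W, by rw [h1, hN], h2, h3⟩

lemma length_ge (x y : Vx d n) (w : (box d n).Walk x y) : dist1 x y ≤ w.length := by
  induction w with
  | nil => simp [dist1_self]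
  | cons h w ih =>
    rename_i x z y
    rw [SimpleGraph.Walk.length_cons]
    have h1 : dist1 x z = 1 := h
    have h2 := dist1_triangle x z y
    push_cast
    linarith

lemma length_ge_via (x y : Vx d n) (w : (box d n).Walk x y) {u : Vx d n} (hu : u ∈ w.support) :
    dist1 x u + dist1 u y ≤ w.length := by
  have h1 := congrArg SimpleGraph.Walk.length (w.take_spec hu)
  rw [SimpleGraph.Walk.length_append] at h1
  have h2 := length_ge _ _ (w.takeUntil u hu)
  have h3 := length_ge _ _ (w.dropUntil u hu)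
  rw [← h1]
  push_cast
  linarith

end Pool.Agent.Helper95.FPP
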