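import Mathlib
import Pool.Agent.Helper95.FPPBox

set_option autoImplicit false
set_option linter.unusedSectionVars false

open Finset

namespace Pool.Agent.Helper95.FPP

section gen
variable {V : Type*} [Fintype V] [DecidableEq V] {G : SimpleGraph V} [DecidableRel G.Adj]
  {a b p : ℝ} {ω : Cfg G} {s t u : V}

lemma time_ge_one (hab : a ≤ b) (w : G.Walk s t) {e : Sym2 V} (he : e ∈ w.edges)
    (hb : wt G a b ω e = b) : a * w.length + (b - a) ≤ time G a b ω w := by
  induction w with
  | nil => simp at he
  | cons h w ih =>
    rw [time_cons, SimpleGraph.Walk.length_cons]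
    rw [SimpleGraph.Walk.edges_cons, List.mem_cons] at he
    push_cast
    rcases he with he | he
    · rw [← he, hb]
      have := time_ge_length (ω := ω) hab w
      linarith
    · have h1 := ih he
      have h2 := wt_ge (ω := ω) hab ((SimpleGraph.mem_edgeSet G).2 h)
      linarith

lemma time_ge_cross (hab : a ≤ b) (S : Set V) (w : G.Walk s t) (hs : s ∈ S) (ht : t ∉ S)
    (h : ∀ x y, G.Adj x y → x ∈ S → y ∉ S → wt G a b ω s(x, y) = b) :
    a * w.length + (b - a) ≤ time G a b ω w := by
  induction w with
  | nil => exact absurd hs ht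
  | cons hh w ih =>
    rename_i x z y
    rw [time_cons, SimpleGraph.Walk.length_cons]
    push_cast
    by_cases hz : z ∈ S
    · have h1 := ih hz ht
      have h2 := wt_ge (ω := ω) hab ((SimpleGraph.mem_edgeSet G).2 hh)
      linarith
    · have h1 := h _ _ hh hs hz
      have := time_ge_length (ω := ω) hab w
      linarith

/-- the configuration equal to `a` exactly on the given list of edges -/
noncomputable def cfgOf (l : List (Sym2 V)) : Cfg G := fun e => decide (e.1 ∈ l)

lemma wt_cfgOf (l : List (Sym2 V)) (e : Sym2 V) (h : e ∈ G.edgeSet) :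
    wt G a b (cfgOf l : Cfg G) e = if e ∈ l then a else b := by
  rw [wt_mem e h]
  simp [cfgOf]

end gen

variable {d n : ℕ} {a b p : ℝ}

/-- failure of comparability at an extremal edge -/
theorem key_fail (ha : 0 < a) (hab : a < b) (hp : 0 < p) (hp1 : p < 1) (v : Fin d → ℤ)
    (hv : ∀ i, |v i| ≤ 2) (k : Fin d) (hk : v k = 0) {h D : ℕ} (hh : 1 ≤ h) (hhn : h ≤ 2 * n)
    (hD : (D : ℤ) = n * ∑ i, |v i|) (hD1 : 1 ≤ D)
    (h1 : (b - a) * ((D:ℝ) - 1) < 2 * a * h) (h2 : 2 * a * h ≤ (b - a) * D) :
    ∃ j : (box d n).edgeSet, ∀ C : ℝ,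
      ¬ Comparable (box d n) a b p (org d n) (tgt n v hv) j C := by
  set o := org d n with ho
  set t := tgt n v hv with ht
  have hoi : ∀ i, (o i : ℤ) = 0 := fun i => rfl
  have hti : ∀ i, (t i : ℤ) = n * v i := fun i => rfl
  set c : ↥(Finset.Icc (-(2 * (n:ℤ))) (2 * (n:ℤ))) := ⟨(h:ℤ), mem_Icc.2 ⟨by omega, by omega⟩⟩ with hc
  have hcv : (c : ℤ) = h := rfl
  set P := Function.update o k c with hP
  set Q := Function.update t k c with hQ
  have hPk : (P k : ℤ) = h := by rw [hP, Function.update_self]
  have hQk : (Q k : ℤ) = h := by rw [hQ, Function.update_self]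
  have hPi : ∀ i, i ≠ k → (P i : ℤ) = 0 := fun i hi => by rw [hP, Function.update_of_ne hi]; rfl
  have hQi : ∀ i, i ≠ k → (Q i : ℤ) = n * v i := fun i hi => by
    rw [hQ, Function.update_of_ne hi]; rfl
  have htk : (t k : ℤ) = 0 := by rw [hti, hk, mul_zero]
  have hot : dist1 o t = D := by
    rw [hD, dist1, mul_sum]
    refine sum_congr rfl fun i _ => ?_
    rw [hoi, hti, zero_sub, abs_neg, abs_mul, Nat.abs_cast]
  have hoP : dist1 o P = h := by
    rw [dist1_comm, hP, dist1_update_left, dist1_self, sub_self, abs_zero, hoi, hcv, sub_zero]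
    simp
  have hQt : dist1 Q t = h := by
    rw [hQ, dist1_update_left, dist1_self, sub_self, abs_zero, htk, hcv, sub_zero]
    simp
  have hPQ : dist1 P Q = D := by
    rw [hP, dist1_update_left]
    have e1 : dist1 o Q = D + h := by
      rw [dist1_comm, hQ, dist1_update_left, dist1_comm, hot, hoi, htk, hcv]
      simp
    rw [e1, hoi, hQk, hcv]
    simp
  obtain ⟨W0, a1, a2, -⟩ := mono_walk' o P
  obtain ⟨W, b1, b2, -⟩ := mono_walk' P Q
  obtain ⟨W3, c1, c2, -⟩ := mono_walk' Q t
  rw [hoP] at a1
  rw [hPQ] at b1
  rw [hQt] at c1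
  have a1' : W0.length = h := by exact_mod_cast a1
  have b1' : W.length = D := by exact_mod_cast b1
  have c1' : W3.length = h := by exact_mod_cast c1
  have hPQne : P ≠ Q := by
    intro hc
    rw [hc, dist1_self] at hPQ
    omega
  obtain ⟨p', hadj, W', hW⟩ := SimpleGraph.Walk.exists_eq_cons_of_ne hPQne W
  have hj0 : s(P, p') ∈ (box d n).edgeSet := hadj
  set j : (box d n).edgeSet := ⟨s(P, p'), hj0⟩ with hj
  set U := W0.append (W.append W3) with hU
  have hUe : U.edges = W0.edges ++ (W.edges ++ W3.edges) := by
    rw [hU, SimpleGraph.Walk.edges_append, SimpleGraph.Walk.edges_append]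
  have hUl : U.length = D + 2 * h := by
    rw [hU, SimpleGraph.Walk.length_append, SimpleGraph.Walk.length_append, a1', b1', c1']
    ring
  have hWe : W.edges = s(P, p') :: W'.edges := by rw [hW, SimpleGraph.Walk.edges_cons]
  have hW'l : W'.length + 1 = D := by
    rw [← b1', hW, SimpleGraph.Walk.length_cons]
  have hjU : j.1 ∈ U.edges := by
    rw [hUe, hWe]
    simp [hj]
  set ωU : Cfg (box d n) := cfgOf U.edges with hωU
  have hjt : ωU j = true := by
    rw [hωU]
    simp only [cfgOf, hjU, decide_true]
  have hupd : Function.update ωU j true = ωU := by rw [← hjt, Function.update_eq_self]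
  have hDh : ((U.length : ℕ) : ℝ) = D + 2 * h := by rw [hUl]; push_cast; ring
  have hUtime : time (box d n) a b ωU U ≤ a * (D + 2 * h) := by
    rw [← hDh]
    refine time_le_of_forall U fun e he => ?_
    rw [hωU, wt_cfgOf _ _ (U.edges_subset_edgeSet he), if_pos he]
  -- support facts
  have s0 : ∀ x ∈ W0.support, ∀ i, i ≠ k → (x i : ℤ) = 0 := by
    intro x hx i hi
    have := a2 x hx i
    rw [hoi, hPi i hi] at this
    omega
  have sW : ∀ x ∈ W.support, (x k : ℤ) = h := by
    intro x hx
    have := b2 x hx k
    rw [hPk, hQk] at this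
    omega
  have s3 : ∀ x ∈ W3.support, ∀ i, i ≠ k → (x i : ℤ) = n * v i := by
    intro x hx i hi
    have := c2 x hx i
    rw [hti, hQi i hi] at this
    omega
  -- length of walks reaching the height `h`
  have hlen : ∀ (w : (box d n).Walk o t) (x : Vx d n), x ∈ w.support → (h:ℤ) ≤ x k →
      D + 2 * h ≤ w.length := by
    intro w x hx hxk
    have e1 := length_ge_via o t w hx
    have e2 : (D:ℤ) + 2 * h ≤ dist1 o x + dist1 x t := by
      have e3 : dist1 o x + dist1 x t = ∑ i, (|(o i : ℤ) - x i| + |(x i : ℤ) - t i|) := by
        rw [dist1, dist1, ← sum_add_distrib]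
      have e4 : (D:ℤ) = ∑ i, |(o i : ℤ) - t i| := hot.symm
      rw [e3, e4, ← add_sum_erase univ _ (mem_univ k), ← add_sum_erase univ (fun i =>
        (|(o i : ℤ) - x i| + |(x i : ℤ) - t i|)) (mem_univ k)]
      have e5 : ∑ i ∈ univ.erase k, |(o i : ℤ) - t i| ≤
          ∑ i ∈ univ.erase k, (|(o i : ℤ) - x i| + |(x i : ℤ) - t i|) :=
        sum_le_sum fun i _ => abs_sub_le _ _ _
      rw [hoi, htk]
      simp only [zero_sub, sub_zero, abs_neg, abs_zero]
      have e6 : |(x k : ℤ)| = x k := abs_of_nonneg (by omega)
      rw [e6]
      omega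
    have : ((D + 2 * h : ℕ) : ℤ) ≤ w.length := by push_cast; linarith
    exact_mod_cast this
  -- walks below the height `h`
  have hlow : ∀ (ω : Cfg (box d n)), (∀ e : (box d n).edgeSet, e.1 ∉ U.edges → ω e = false) →
      ∀ w : (box d n).Walk o t, (∀ x ∈ w.support, (x k : ℤ) < h) →
      b * D ≤ time (box d n) a b ω w := by
    intro ω hω w hw
    set φ : Vx d n → ℝ := fun x => b * ((∑ i ∈ univ.erase k, |(x i : ℤ)| : ℤ) : ℝ) with hφ
    have e1 : φ t - φ o = b * D := by
      have e2 : (∑ i ∈ univ.erase k, |(t i : ℤ)| : ℤ) = D := by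
        rw [← hot, dist1, ← add_sum_erase univ _ (mem_univ k), hoi, htk]
        simp [hoi]
      have e3 : (∑ i ∈ univ.erase k, |(o i : ℤ)| : ℤ) = 0 := by simp [hoi]
      simp only [hφ]
      rw [e2, e3]
      push_cast; ring
    rw [← e1]
    refine time_ge_potential w fun x y he => ?_
    have hx := w.fst_mem_support_of_mem_edges he
    have hy := w.snd_mem_support_of_mem_edges he
    have hxy : (box d n).Adj x y := w.edges_subset_edgeSet he
    have hwt := wt_mem (a := a) (b := b) (ω := ω) s(x, y) hxy
    by_cases hin : s(x, y) ∈ U.edges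
    · have e4 : φ y - φ x = 0 := by
        rw [hUe, List.mem_append, List.mem_append] at hin
        rcases hin with h3 | h3 | h3
        · have x0 := s0 x (W0.fst_mem_support_of_mem_edges h3)
          have y0 := s0 y (W0.snd_mem_support_of_mem_edges h3)
          have : (∑ i ∈ univ.erase k, |(y i : ℤ)| : ℤ) = ∑ i ∈ univ.erase k, |(x i : ℤ)| :=
            sum_congr rfl fun i hi => by rw [x0 i (mem_erase.1 hi).1, y0 i (mem_erase.1 hi).1]
          simp only [hφ, this, sub_self]
        · exfalso
          have := sW x (W.fst_mem_support_of_mem_edges h3)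
          have := hw x hx
          omega
        · have x0 := s3 x (W3.fst_mem_support_of_mem_edges h3)
          have y0 := s3 y (W3.snd_mem_support_of_mem_edges h3)
          have : (∑ i ∈ univ.erase k, |(y i : ℤ)| : ℤ) = ∑ i ∈ univ.erase k, |(x i : ℤ)| :=
            sum_congr rfl fun i hi => by rw [x0 i (mem_erase.1 hi).1, y0 i (mem_erase.1 hi).1]
          simp only [hφ, this, sub_self]
      rw [e4]
      exact ha.le.trans (wt_ge hab.le hxy)
    · rw [hwt, hω ⟨_, hxy⟩ hin]
      simp only [Bool.false_eq_true, if_false, hφ]
      rw [← mul_sub]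
      have e5 : ((∑ i ∈ univ.erase k, |(y i : ℤ)| : ℤ) : ℝ) - ((∑ i ∈ univ.erase k, |(x i : ℤ)| : ℤ) : ℝ)
          ≤ 1 := by
        have e6 : (∑ i ∈ univ.erase k, |(y i : ℤ)|) - ∑ i ∈ univ.erase k, |(x i : ℤ)| ≤ 1 := by
          rw [← sum_sub_distrib]
          have e7 : dist1 y x = 1 := by rw [dist1_comm]; exact hxy
          rw [← e7, dist1]
          calc ∑ i ∈ univ.erase k, (|(y i : ℤ)| - |(x i : ℤ)|)
              ≤ ∑ i ∈ univ.erase k, |(y i : ℤ) - x i| :=
                sum_le_sum fun i _ => abs_sub_abs_le_abs_sub _ _
            _ ≤ _ := sum_le_sum_of_subset_of_nonneg (erase_subset _ _) fun i _ _ => abs_nonneg _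
        exact_mod_cast e6
      calc b * _ ≤ b * 1 := by
            refine mul_le_mul_of_nonneg_left e5 (by linarith)
        _ = b := mul_one b
  have hh0 : (0:ℝ) < h := by exact_mod_cast hh
  have hDr : (1:ℝ) ≤ D := by exact_mod_cast hD1
  -- direct path
  obtain ⟨Wd, d1, d2, -⟩ := mono_walk' o t
  rw [hot] at d1
  have d1' : ((Wd.length : ℕ) : ℝ) = D := by exact_mod_cast d1
  have hdirect : ∀ ω : Cfg (box d n), time (box d n) a b ω Wd ≤ b * D := by
    intro ω
    rw [← d1']
    exact time_le_of_forall Wd fun e he => wt_le hab.le (Wd.edges_subset_edgeSet he)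
  refine ⟨j, fun C hC => ?_⟩
  obtain ⟨hC1, hC2, hC3⟩ := hC
  rcases lt_or_eq_of_le h2 with h2' | h2'
  · -- influential but never very influential
    have hV : VeryInfl (box d n) a b o t j = ∅ := by
      rw [Set.eq_empty_iff_forall_notMem]
      intro ω hω
      obtain ⟨γ, g1, g2⟩ := veryInfl_to hab ha ⟨⟨U.bypass, U.bypass_isPath⟩⟩ hω
      have g3 : P ∈ γ.1.support := γ.1.fst_mem_support_of_mem_edges g1
      have g4 := hlen γ.1 P g3 (by rw [hPk])
      have g5 : wt (box d n) a b (Function.update ω j false) j.1 = b := by
        rw [wt_update_self]; simp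
      have g6 := time_ge_one (ω := Function.update ω j false) hab.le γ.1 g1 g5
      have g7 := fpt_le (ω := Function.update ω j false) hab.le ha.le Wd
      have g8 := hdirect (Function.update ω j false)
      have g9 : a * ((D:ℝ) + 2 * h) ≤ a * γ.1.length := by
        have : ((D + 2 * h : ℕ) : ℝ) ≤ γ.1.length := by exact_mod_cast g4
        push_cast at this
        gcongr
      nlinarith
    have hI : ωU ∈ Infl (box d n) a b o t j := by
      show dif (box d n) a b o t j ωU ≠ 0
      rw [dif, hupd]
      have q1 : fpt (box d n) a b o t ωU ≤ a * (D + 2 * h) :=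
        (fpt_le hab.le ha.le U).trans hUtime
      have q2 : a * (D + 2 * h) < fpt (box d n) a b o t (Function.update ωU j false) := by
        obtain ⟨γ, hγ⟩ := exists_geod (a := a) (b := b) (ω := Function.update ωU j false) U
        rw [← hγ]
        by_cases hhi : ∃ x ∈ γ.1.support, (h:ℤ) ≤ x k
        · obtain ⟨x, hx, hxk⟩ := hhi
          have q3 := hlen γ.1 x hx hxk
          have q4 : a * γ.1.length + (b - a) ≤
              time (box d n) a b (Function.update ωU j false) γ.1 := by
            refine time_ge_cross hab.le {x | x ∈ W0.support} γ.1 W0.start_mem_support ?_ ?_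
            · intro hc3
              have hc4 : t ∈ W0.support := hc3
              have : (D:ℤ) = 0 := by
                rw [← hot, dist1]
                refine sum_eq_zero fun i _ => ?_
                by_cases hi : i = k
                · rw [hi, hoi, htk]; simp
                · rw [hoi, s0 t hc4 i hi]; simp
              omega
            · intro x y hxy hx0 hy0
              have hx0' : x ∈ W0.support := hx0
              have hy0' : y ∉ W0.support := hy0
              by_cases hje : s(x, y) = j.1
              · rw [hje, wt_update_self]; simp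
              · rw [wt_update_ne hje, hωU, wt_cfgOf _ _ hxy, if_neg]
                rw [hUe, hWe, List.mem_append, List.mem_append, List.mem_cons]
                rintro (h3 | (h3 | h3) | h3)
                · exact hy0' (W0.snd_mem_support_of_mem_edges h3)
                · exact hje h3
                · have hxW' := W'.fst_mem_support_of_mem_edges h3
                  have hxW : x ∈ W.support := by
                    rw [hW, SimpleGraph.Walk.support_cons]
                    exact List.mem_cons_of_mem _ hxW'
                  have hxP : x = P := by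
                    funext i
                    refine Subtype.ext ?_
                    by_cases hi : i = k
                    · rw [hi, sW x hxW, hPk]
                    · rw [s0 x hx0' i hi, hPi i hi]
                  have g1 := length_ge_via p' Q W' hxW'
                  rw [hxP, hPQ] at g1
                  have g2 := dist1_nonneg p' P
                  omega
                · have hx3 := W3.fst_mem_support_of_mem_edges h3
                  have : (D:ℤ) = 0 := by
                    rw [← hot, dist1]
                    refine sum_eq_zero fun i _ => ?_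
                    by_cases hi : i = k
                    · rw [hi, hoi, htk]; simp
                    · rw [hoi, hti, ← s3 x hx3 i hi, s0 x hx0' i hi]; simp
                  omega
          have q5 : a * ((D:ℝ) + 2 * h) ≤ a * γ.1.length := by
            have : ((D + 2 * h : ℕ) : ℝ) ≤ γ.1.length := by exact_mod_cast q3
            push_cast at this
            gcongr
          linarith
        · push Not at hhi
          have q6 := hlow (Function.update ωU j false) (fun e he => by
            have hne : e ≠ j := by
              rintro rfl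
              exact he hjU
            rw [Function.update_of_ne hne, hωU]
            simp only [cfgOf, he, decide_false]) γ.1 hhi
          nlinarith
      intro hc5
      linarith
    have r1 := Pr_pos hp hp1 hI
    rw [hV, Pr_empty, mul_zero] at hC1
    linarith
  · -- semi-essential but never essential
    have hE : Ess (box d n) a b o t j = ∅ := by
      rw [Set.eq_empty_iff_forall_notMem]
      intro ω hω
      obtain ⟨γ, hγ⟩ := exists_geod (a := a) (b := b) (ω := ω) U
      have g1 := hω γ hγ
      have g3 : P ∈ γ.1.support := γ.1.fst_mem_support_of_mem_edges g1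
      have g4 := hlen γ.1 P g3 (by rw [hPk])
      have g5 := time_ge_length (ω := ω) hab.le γ.1
      have g9 : a * ((D:ℝ) + 2 * h) ≤ a * γ.1.length := by
        have : ((D + 2 * h : ℕ) : ℝ) ≤ γ.1.length := by exact_mod_cast g4
        push_cast at this
        gcongr
      have g6 : time (box d n) a b ω Wd ≤ fpt (box d n) a b o t ω := by
        rw [← hγ]
        have := hdirect ω
        nlinarith
      have g7 := isPath_of_opt hab.le ha Wd g6
      have g8 := hω ⟨Wd, g7⟩ (le_antisymm g6 (fpt_le hab.le ha.le Wd))
      have g10 : P ∈ Wd.support := Wd.fst_mem_support_of_mem_edges g8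
      have g11 := d2 P g10 k
      rw [hPk, hoi, htk] at g11
      omega
    have hS : ωU ∈ SemiEss (box d n) a b o t j := by
      refine mem_semiEss hab.le ha U ?_ hjU
      refine hUtime.trans ?_
      obtain ⟨γ, hγ⟩ := exists_geod (a := a) (b := b) (ω := ωU) U
      rw [← hγ]
      by_cases hhi : ∃ x ∈ γ.1.support, (h:ℤ) ≤ x k
      · obtain ⟨x, hx, hxk⟩ := hhi
        have q3 := hlen γ.1 x hx hxk
        have q4 := time_ge_length (ω := ωU) hab.le γ.1
        have q5 : a * ((D:ℝ) + 2 * h) ≤ a * γ.1.length := by
          have : ((D + 2 * h : ℕ) : ℝ) ≤ γ.1.length := by exact_mod_cast q3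
          push_cast at this
          gcongr
        linarith
      · push Not at hhi
        have q6 := hlow ωU (fun e he => by
          rw [hωU]
          simp only [cfgOf, he, decide_false]) γ.1 hhi
        nlinarith
    have r1 := Pr_pos hp hp1 hS
    rw [hE, Pr_empty, mul_zero] at hC2
    linarith

end Pool.Agent.Helper95.FPP
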