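import Mathlib
import Pool.Agent.Helper95.FPPUnif

set_option autoImplicit false
set_option linter.unusedSectionVars false

open Finset

namespace Pool.Agent.Helper95.FPP

lemma dio_one (θ : ℝ) (hθ : 0 < θ) (L : ℕ) (hL : 1 ≤ L) :
    ∃ h n : ℕ, 1 ≤ h ∧ h * θ ≤ n ∧ (n:ℝ) - h * θ < 1 / L := by
  have hL0 : (0:ℝ) < L := by exact_mod_cast hL
  obtain ⟨j, k, hk0, -, hjk⟩ := Real.exists_int_int_abs_mul_sub_le θ (n := L) (by omega)
  have hk0' : (0:ℝ) < k := by exact_mod_cast hk0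
  have hlt : 1 / ((L:ℝ) + 1) < 1 / L := one_div_lt_one_div_of_lt hL0 (by linarith)
  rw [abs_le] at hjk
  push_cast at hjk
  obtain ⟨k', hk'⟩ := Int.eq_ofNat_of_zero_le hk0.le
  have hkk : (k:ℝ) = k' := by rw [hk']; simp
  have hk'1 : 1 ≤ k' := by omega
  rcases le_or_gt ((k:ℝ) * θ) j with h | h
  · have hj0 : (0:ℝ) < j := lt_of_lt_of_le (by positivity) h
    have hj0' : 0 < j := by exact_mod_cast hj0
    obtain ⟨j', hj'⟩ := Int.eq_ofNat_of_zero_le hj0'.le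
    have hjj : (j:ℝ) = j' := by rw [hj']; simp
    refine ⟨k', j', hk'1, ?_, ?_⟩
    · rw [← hkk, ← hjj]; exact h
    · rw [← hkk, ← hjj]
      linarith [hjk.1]
  · set τ := (k:ℝ) * θ - j with hτ
    have hτ0 : 0 < τ := by rw [hτ]; linarith
    have hτ1 : τ ≤ 1 / ((L:ℝ) + 1) := hjk.2
    have hτlt : τ < 1 := by
      refine lt_of_le_of_lt hτ1 ?_
      rw [div_lt_one (by positivity)]
      linarith
    set q := ⌊1 / τ⌋₊ with hq
    have hq1 : (q:ℝ) ≤ 1 / τ := Nat.floor_le (by positivity)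
    have hq2 : 1 / τ < q + 1 := Nat.lt_floor_add_one _
    have hq3 : (q:ℝ) * τ ≤ 1 := by
      rw [le_div_iff₀ hτ0] at hq1; exact hq1
    have hq4 : 1 < ((q:ℝ) + 1) * τ := by
      rw [div_lt_iff₀ hτ0] at hq2; exact hq2
    have hq5 : 1 ≤ q := by
      by_contra hc
      have : q = 0 := by omega
      rw [this] at hq4
      push_cast at hq4
      linarith
    have hq5' : (1:ℝ) ≤ q := by exact_mod_cast hq5
    -- the integer `q j + 1`
    have hn0 : (0:ℝ) < (q:ℝ) * j + 1 := by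
      have : (q:ℝ) * j = q * (k * θ) - q * τ := by rw [hτ]; ring
      have h2 : 0 < (q:ℝ) * (k * θ) := by positivity
      linarith
    have hn0' : 0 < (q:ℤ) * j + 1 := by exact_mod_cast hn0
    obtain ⟨m, hm⟩ := Int.eq_ofNat_of_zero_le hn0'.le
    have hmm : (m:ℝ) = (q:ℝ) * j + 1 := by
      have : (((q:ℤ) * j + 1 : ℤ) : ℝ) = ((m : ℤ) : ℝ) := by rw [hm]
      push_cast at this
      linarith
    refine ⟨q * k', m, ?_, ?_, ?_⟩
    · exact Nat.one_le_iff_ne_zero.2 (Nat.mul_ne_zero (by omega) (by omega))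
    · rw [hmm]; push_cast; rw [← hkk]
      have : (q:ℝ) * j = q * (k * θ) - q * τ := by rw [hτ]; ring
      nlinarith
    · rw [hmm]; push_cast; rw [← hkk]
      have : (q:ℝ) * j = q * (k * θ) - q * τ := by rw [hτ]; ring
      have e1 : (q:ℝ) * j + 1 - q * k * θ = 1 - q * τ := by rw [this]; ring
      rw [e1]
      have : 1 - (q:ℝ) * τ < τ := by linarith
      linarith

lemma dio (θ : ℝ) (hθ : 0 < θ) (L : ℕ) (hL : 1 ≤ L) (N : ℕ) :
    ∃ h n : ℕ, 1 ≤ h ∧ N ≤ h ∧ h * θ ≤ n ∧ (n:ℝ) - h * θ < 1 / L := by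
  obtain ⟨h, n, h1, h2, h3⟩ := dio_one ((N + 1 : ℕ) * θ) (by positivity) L hL
  refine ⟨h * (N + 1), n, ?_, ?_, ?_, ?_⟩
  · exact Nat.one_le_iff_ne_zero.2 (Nat.mul_ne_zero (by omega) (by omega))
  · calc N ≤ 1 * (N + 1) := by omega
      _ ≤ h * (N + 1) := Nat.mul_le_mul_right _ h1
  · push_cast at h2 ⊢
    linarith
  · push_cast at h3 ⊢
    have e : (h:ℝ) * (N + 1) * θ = h * ((N + 1) * θ) := by ring
    rw [e]; exact h3

variable {d : ℕ} {a b p : ℝ}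

theorem fails_far (ha : 0 < a) (hab : a < b) (hp : 0 < p) (hp1 : p < 1) (v : Fin d → ℤ)
    (hv : ∀ i, |v i| ≤ 2) (hv0 : v ≠ 0) (hk : ∃ k, v k = 0)
    (hL : ((∑ i, |v i| : ℤ) : ℝ) * (b - a) ≤ 4 * a) (N : ℕ) :
    ∃ n : ℕ, 1 ≤ n ∧ N ≤ n ∧ ∃ j : (box d n).edgeSet, ∀ C : ℝ,
      ¬ Comparable (box d n) a b p (org d n) (tgt n v hv) j C := by
  obtain ⟨k, hk⟩ := hk
  have hba : 0 < b - a := by linarith
  have hL1 : 1 ≤ ∑ i, |v i| := by
    obtain ⟨i, hi⟩ := Function.ne_iff.1 hv0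
    have h1 : 1 ≤ |v i| := Int.one_le_abs hi
    exact h1.trans (single_le_sum (f := fun i => |v i|) (fun i _ => abs_nonneg _) (mem_univ i))
  obtain ⟨L, hLL⟩ := Int.eq_ofNat_of_zero_le (by omega : 0 ≤ ∑ i, |v i|)
  have hL1' : 1 ≤ L := by omega
  have hL0 : (0:ℝ) < L := by exact_mod_cast hL1'
  rw [hLL] at hL
  push_cast at hL
  set θ := 2 * a / ((b - a) * L) with hθ
  have hθ0 : 0 < θ := by positivity
  have hθ1 : 1 / 2 ≤ θ := by
    rw [hθ, div_le_div_iff₀ (by norm_num) (by positivity)]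
    linarith
  obtain ⟨h, n, h1, h2, h3, h4⟩ := dio θ hθ0 L hL1' (2 * N)
  have hθe : θ * ((b - a) * L) = 2 * a := by rw [hθ]; field_simp
  have hh1 : (1:ℝ) ≤ h := by exact_mod_cast h1
  have hhn : (h:ℝ) ≤ 2 * n := by nlinarith
  have hhn' : h ≤ 2 * n := by exact_mod_cast hhn
  have hn1 : 1 ≤ n := by omega
  have hnN : N ≤ n := by omega
  refine ⟨n, hn1, hnN, ?_⟩
  refine key_fail (D := n * L) ha hab hp hp1 v hv k hk h1 hhn' ?_ ?_ ?_ ?_
  · rw [hLL]; push_cast; rfl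
  · exact Nat.one_le_iff_ne_zero.2 (Nat.mul_ne_zero (by omega) (by omega))
  · push_cast
    have e1 : (n:ℝ) * L - 1 < h * θ * L := by
      have : ((n:ℝ) - h * θ) * L < 1 := by rwa [lt_div_iff₀ hL0] at h4
      linarith
    calc (b - a) * ((n:ℝ) * L - 1) < (b - a) * (h * θ * L) := by gcongr
      _ = h * (θ * ((b - a) * L)) := by ring
      _ = 2 * a * h := by rw [hθe]; ring
  · push_cast
    calc 2 * a * h = h * (θ * ((b - a) * L)) := by rw [hθe]; ring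
      _ = (b - a) * ((h * θ) * L) := by ring
      _ ≤ (b - a) * (n * L) := by gcongr

theorem fails_unit (ha : 0 < a) (hab : a < b) (hp : 0 < p) (hp1 : p < 1) (v : Fin d → ℤ)
    (hv : ∀ i, |v i| ≤ 2) (hk : ∃ k, v k = 0) (hL : ∑ i, |v i| = 1) :
    ∃ n : ℕ, 1 ≤ n ∧ ∃ j : (box d n).edgeSet, ∀ C : ℝ,
      ¬ Comparable (box d n) a b p (org d n) (tgt n v hv) j C := by
  obtain ⟨k, hk⟩ := hk
  have hba : 0 < b - a := by linarith
  set n := ⌈2 * a / (b - a)⌉₊ with hn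
  have hq : 0 < 2 * a / (b - a) := by positivity
  have h1 : 2 * a / (b - a) ≤ n := Nat.le_ceil _
  have h2 : (n:ℝ) < 2 * a / (b - a) + 1 := Nat.ceil_lt_add_one hq.le
  have h3 : 2 * a ≤ (b - a) * n := by
    rw [div_le_iff₀ hba] at h1; linarith
  have h4 : (b - a) * ((n:ℝ) - 1) < 2 * a := by
    have : (n:ℝ) - 1 < 2 * a / (b - a) := by linarith
    rw [lt_div_iff₀ hba] at this; linarith
  have hn1 : 1 ≤ n := Nat.one_le_iff_ne_zero.2 (by
    rw [hn]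
    exact (Nat.ceil_pos.2 hq).ne')
  refine ⟨n, hn1, ?_⟩
  refine key_fail (D := n) (h := 1) ha hab hp hp1 v hv k hk le_rfl (by omega) ?_ hn1 ?_ ?_
  · rw [hL, mul_one]
  · push_cast; linarith
  · push_cast; linarith

end Pool.Agent.Helper95.FPP
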