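import Mathlib
import Pool.Agent.Helper95.FPPBox

set_option autoImplicit false
set_option linter.unusedSectionVars false

open Finset

namespace Pool.Agent.Helper95.FPP

section gen
variable {V : Type*} [Fintype V] [DecidableEq V] {G : SimpleGraph V} [DecidableRel G.Adj]
  {a b p : ℝ}

/-- first visit to the set `S` -/
lemma first_hit {ω : Cfg G} {φ : V → ℝ} (S : Set V)
    (h : ∀ x y, G.Adj x y → x ∉ S → φ y - φ x ≤ wt G a b ω s(x, y)) {s t : V} (γ : G.Walk s t)
    (hs : s ∉ S) (hv : ∃ u ∈ γ.support, u ∈ S) :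
    ∃ u ∈ S, ∃ γ' : G.Walk u t, φ u - φ s + time G a b ω γ' ≤ time G a b ω γ := by
  induction γ with
  | nil =>
    obtain ⟨u, hu, huS⟩ := hv
    rw [SimpleGraph.Walk.support_nil, List.mem_singleton] at hu
    rw [hu] at huS
    exact absurd huS hs
  | cons hh w ih =>
    rename_i x z y
    rw [time_cons]
    have h1 := h _ _ hh hs
    by_cases hz : z ∈ S
    · exact ⟨z, hz, w, by linarith⟩
    · obtain ⟨u, hu, huS⟩ := hv
      rw [SimpleGraph.Walk.support_cons, List.mem_cons] at hu
      have hu' : u ∈ w.support := by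
        rcases hu with hu | hu
        · rw [hu] at huS; exact absurd huS hs
        · exact hu
      obtain ⟨u', hu'S, γ', hγ'⟩ := ih hz ⟨u, hu', huS⟩
      exact ⟨u', hu'S, γ', by linarith⟩

/-- last exit from the set `Λ` -/
lemma last_exit (hab : a ≤ b) (h0 : 0 ≤ a) {ω ωb : Cfg G} {φ : V → ℝ} (S Λ : Set V)
    (h : ∀ x y, G.Adj x y → x ∉ S → φ y - φ x ≤ wt G a b ω s(x, y))
    (hw : ∀ x y, G.Adj x y → ¬ (x ∈ Λ ∧ y ∈ Λ) → wt G a b ω s(x, y) = wt G a b ωb s(x, y))
    {s t : V} (γ : G.Walk s t) (ht : t ∉ Λ) (hv : ∀ u ∈ γ.support, u ∉ S) :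
    ((∀ u ∈ γ.support, u ∉ Λ) ∧ time G a b ω γ = time G a b ωb γ) ∨
    ∃ x ∈ Λ, (∃ y, y ∉ Λ ∧ G.Adj x y) ∧ φ x - φ s + fpt G a b x t ωb ≤ time G a b ω γ := by
  induction γ with
  | nil =>
    left
    refine ⟨fun u hu => ?_, by simp⟩
    rw [SimpleGraph.Walk.support_nil, List.mem_singleton] at hu
    rw [hu]; exact ht
  | cons hh w ih =>
    rename_i x z y
    have hx : x ∉ S := hv x (by rw [SimpleGraph.Walk.support_cons]; exact List.mem_cons_self)
    have h1 := h _ _ hh hx
    rcases ih ht (fun u hu => hv u (by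
      rw [SimpleGraph.Walk.support_cons]; exact List.mem_cons_of_mem _ hu)) with ⟨h2, h3⟩ | h2
    · have hz : z ∉ Λ := h2 z w.start_mem_support
      have h4 : time G a b ω (SimpleGraph.Walk.cons hh w) =
          time G a b ωb (SimpleGraph.Walk.cons hh w) := by
        rw [time_cons, time_cons, h3, hw x z hh (fun hc => hz hc.2)]
      by_cases hxΛ : x ∈ Λ
      · right
        refine ⟨x, hxΛ, ⟨z, hz, hh⟩, ?_⟩
        rw [h4, sub_self, zero_add]
        exact fpt_le hab h0 _
      · left
        refine ⟨fun u hu => ?_, h4⟩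
        rw [SimpleGraph.Walk.support_cons, List.mem_cons] at hu
        rcases hu with rfl | hu
        · exact hxΛ
        · exact h2 u hu
    · obtain ⟨x', h5, h6, h7⟩ := h2
      right
      refine ⟨x', h5, h6, ?_⟩
      rw [time_cons]
      linarith

lemma time_mono {ω ω' : Cfg G} {s t : V} (w : G.Walk s t)
    (h : ∀ e ∈ w.edges, wt G a b ω e ≤ wt G a b ω' e) : time G a b ω w ≤ time G a b ω' w := by
  induction w with
  | nil => simp
  | cons hh w ih =>
    rw [time_cons, time_cons]
    have h1 := h _ (by rw [SimpleGraph.Walk.edges_cons]; exact List.mem_cons_self)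
    have h2 := ih fun e he => h e (by rw [SimpleGraph.Walk.edges_cons]; exact List.mem_cons_of_mem _ he)
    linarith

end gen

variable {d n : ℕ} {a b p : ℝ}

/-- `ℓ¹` norm -/
def nm (x : Vx d n) : ℤ := ∑ i, |(x i : ℤ)|

lemma nm_eq (x : Vx d n) : dist1 (org d n) x = nm x := by
  refine sum_congr rfl fun i _ => ?_
  have : ((org d n) i : ℤ) = 0 := rfl
  rw [this, zero_sub, abs_neg]

lemma nm_nonneg (x : Vx d n) : 0 ≤ nm x := sum_nonneg fun _ _ => abs_nonneg _

lemma nm_coord (x : Vx d n) (i : Fin d) : |(x i : ℤ)| ≤ nm x :=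
  single_le_sum (f := fun i => |(x i : ℤ)|) (fun _ _ => abs_nonneg _) (mem_univ i)

lemma nm_adj {x y : Vx d n} (h : (box d n).Adj x y) : nm y ≤ nm x + 1 := by
  have h1 : dist1 x y = 1 := h
  have h2 := dist1_triangle (org d n) x y
  rw [nm_eq, nm_eq, h1] at h2
  exact h2

lemma nm_split (x : Vx d n) (i : Fin d) :
    nm x = |(x i : ℤ)| + ∑ k ∈ univ.erase i, |(x k : ℤ)| :=
  (add_sum_erase univ (fun k => |(x k : ℤ)|) (mem_univ i)).symm

lemma dist1_split (x y : Vx d n) (i : Fin d) :
    dist1 x y = |(x i : ℤ) - y i| + ∑ k ∈ univ.erase i, |(x k : ℤ) - y k| :=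
  (add_sum_erase univ (fun k => |(x k : ℤ) - y k|) (mem_univ i)).symm

/-- the cube of radius `R` -/
def cube (R : ℕ) : Set (Vx d n) := {x | ∀ i, |(x i : ℤ)| ≤ R}

/-- potential -/
noncomputable def pot (a b : ℝ) (r R : ℕ) (x : Vx d n) : ℝ :=
  a * nm x + (b - a) * max 0 (min (nm x : ℝ) R - r)

lemma pot_step_b (ha : 0 ≤ a) (hab : a ≤ b) {r R : ℕ} {x y : Vx d n} (h : (box d n).Adj x y) :
    pot a b r R y - pot a b r R x ≤ b := by
  have h1 : (nm y : ℝ) ≤ nm x + 1 := by exact_mod_cast nm_adj h
  have h2 : max 0 (min (nm y : ℝ) R - r) ≤ max 0 (min (nm x : ℝ) R - r) + 1 := by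
    rcases le_total (nm y : ℝ) R with h3 | h3 <;> rcases le_total (nm x : ℝ) R with h4 | h4
    · rw [min_eq_left h3, min_eq_left h4]
      refine max_le ?_ ?_
      · linarith [le_max_left (0:ℝ) (nm x - r)]
      · linarith [le_max_right (0:ℝ) (nm x - r)]
    · rw [min_eq_left h3, min_eq_right h4]
      refine max_le ?_ ?_
      · linarith [le_max_left (0:ℝ) (R - r)]
      · linarith [le_max_right (0:ℝ) (R - r)]
    · rw [min_eq_right h3, min_eq_left h4]
      refine max_le ?_ ?_
      · linarith [le_max_left (0:ℝ) (nm x - r)]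
      · linarith [le_max_right (0:ℝ) (nm x - r)]
    · rw [min_eq_right h3, min_eq_right h4]
      linarith
  unfold pot
  have h5 : a * (nm y : ℝ) ≤ a * (nm x + 1) := by gcongr
  have h6 : (b - a) * max 0 (min (nm y : ℝ) R - r) ≤ (b - a) * (max 0 (min (nm x : ℝ) R - r) + 1) := by
    refine mul_le_mul_of_nonneg_left h2 (by linarith)
  linarith

lemma pot_step_small (ha : 0 ≤ a) {r R : ℕ} {x y : Vx d n} (h : (box d n).Adj x y)
    (hx : nm x ≤ r) (hy : nm y ≤ r) : pot a b r R y - pot a b r R x ≤ a := by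
  have h1 : (nm y : ℝ) ≤ nm x + 1 := by exact_mod_cast nm_adj h
  have hx' : (nm x : ℝ) ≤ r := by exact_mod_cast hx
  have hy' : (nm y : ℝ) ≤ r := by exact_mod_cast hy
  have e1 : max 0 (min (nm y : ℝ) R - r) = 0 := max_eq_left (by
    have := min_le_left (nm y : ℝ) R
    linarith)
  have e2 : max 0 (min (nm x : ℝ) R - r) = 0 := max_eq_left (by
    have := min_le_left (nm x : ℝ) R
    linarith)
  unfold pot
  rw [e1, e2]
  have h5 : a * (nm y : ℝ) ≤ a * (nm x + 1) := by gcongr
  linarith

lemma pot_step_large (ha : 0 ≤ a) {r R : ℕ} {x y : Vx d n} (h : (box d n).Adj x y)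
    (hx : (R:ℤ) ≤ nm x) (hy : (R:ℤ) ≤ nm y) : pot a b r R y - pot a b r R x ≤ a := by
  have h1 : (nm y : ℝ) ≤ nm x + 1 := by exact_mod_cast nm_adj h
  have hx' : (R:ℝ) ≤ nm x := by exact_mod_cast hx
  have hy' : (R:ℝ) ≤ nm y := by exact_mod_cast hy
  unfold pot
  rw [min_eq_right hx', min_eq_right hy']
  have h5 : a * (nm y : ℝ) ≤ a * (nm x + 1) := by gcongr
  linarith

lemma not_cube_nm {R : ℕ} {x : Vx d n} (h : x ∉ cube (d := d) (n := n) R) : (R:ℤ) + 1 ≤ nm x := by
  simp only [cube, Set.mem_ofPred_eq, not_forall, not_le] at h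
  obtain ⟨i, hi⟩ := h
  have := nm_coord x i
  omega

/-- the deterministic core: every configuration can be changed inside a fixed cube so that the
fixed edge becomes very influential -/
lemma core (ha : 0 < a) (hab : a < b) (hd : 2 ≤ d) {r M R : ℕ}
    (hM : (a + b) * ((r:ℝ) + 1) ≤ (b - a) * M) (hR1 : M + r + 1 ≤ R)
    (hR2 : a * (2 * M + 4 * ((r:ℝ) + 1)) + (b - a) * (r + 1) ≤ (b - a) * R) (hn : R ≤ 2 * n)
    {t : Vx d n} (ht : t ∉ cube (d := d) (n := n) R) {y z : Vx d n} (hyz : (box d n).Adj y z)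
    (hy : nm y = r) (hz : nm z = r + 1) (ω : Cfg (box d n)) :
    ∃ ω' ∈ VeryInfl (box d n) a b (org d n) t ⟨s(y, z), hyz⟩,
      ∀ e : (box d n).edgeSet, ¬ (∀ x ∈ e.1, x ∈ cube (d := d) (n := n) R) → ω' e = ω e := by
  classical
  set o := org d n with ho
  have hoi : ∀ i, (o i : ℤ) = 0 := fun i => rfl
  set Λ : Set (Vx d n) := cube R with hΛ
  set j : (box d n).edgeSet := ⟨s(y, z), hyz⟩ with hj
  have hba : 0 < b - a := by linarith
  have hMr : r + 1 ≤ M := by
    have h1 : (b - a) * ((r:ℝ) + 1) ≤ (b - a) * M := by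
      refine le_trans ?_ hM
      have : (0:ℝ) ≤ (r:ℝ) + 1 := by positivity
      nlinarith
    have h2 : (r:ℝ) + 1 ≤ M := le_of_mul_le_mul_left h1 hba
    exact_mod_cast h2
  -- configuration with all inside edges equal to `b`
  set ωb : Cfg (box d n) := fun e => if ∀ x ∈ e.1, x ∈ Λ then false else ω e with hωb
  -- the boundary of the cube
  set bd : Finset (Vx d n) := univ.filter fun x => x ∈ Λ ∧ ∃ i, |(x i : ℤ)| = R with hbd
  have hd0 : 0 < d := by omega
  have hbdne : bd.Nonempty := by
    refine ⟨Function.update o ⟨0, hd0⟩ ⟨(R:ℤ), mem_Icc.2 ⟨by omega, by omega⟩⟩, ?_⟩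
    rw [hbd, mem_filter]
    refine ⟨mem_univ _, ?_, ⟨⟨0, hd0⟩, ?_⟩⟩
    · intro i
      by_cases hi : i = ⟨0, hd0⟩
      · rw [hi, Function.update_self]
        simp
      · rw [Function.update_of_ne hi, hoi]
        simp
    · rw [Function.update_self]
      simp
  obtain ⟨xs, hxs, hmin⟩ := exists_min_image bd
    (fun x => a * (nm x : ℝ) + fpt (box d n) a b x t ωb) hbdne
  obtain ⟨-, hxsΛ, ks, hks⟩ := mem_filter.1 hxs
  -- a direction different from `ks`
  obtain ⟨i, hi⟩ : ∃ i : Fin d, i ≠ ks := by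
    by_cases h0 : ks = ⟨0, by omega⟩
    · exact ⟨⟨1, by omega⟩, by rw [h0]; simp⟩
    · exact ⟨⟨0, by omega⟩, Ne.symm h0⟩
  have hzi : |(z i : ℤ)| ≤ r + 1 := by
    have := nm_coord z i
    omega
  obtain ⟨c, hc0⟩ : ∃ c : ↥(Finset.Icc (-(2 * (n:ℤ))) (2 * (n:ℤ))),
      (0 ≤ (z i : ℤ) ∧ (c : ℤ) = z i + M) ∨ ((z i : ℤ) < 0 ∧ (c : ℤ) = z i - M) := by
    rw [abs_le] at hzi
    rcases le_or_gt 0 (z i : ℤ) with h0 | h0
    · exact ⟨⟨z i + M, mem_Icc.2 ⟨by omega, by omega⟩⟩, Or.inl ⟨h0, rfl⟩⟩
    · exact ⟨⟨z i - M, mem_Icc.2 ⟨by omega, by omega⟩⟩, Or.inr ⟨h0, rfl⟩⟩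
  have hc1 : |(c : ℤ)| = |(z i : ℤ)| + M := by
    rcases hc0 with ⟨h0, h1⟩ | ⟨h0, h1⟩
    · rw [h1, abs_of_nonneg (by omega), abs_of_nonneg h0]
    · rw [h1, abs_of_nonpos (by omega), abs_of_neg h0]
      ring
  have hc2 : |(z i : ℤ) - c| = M := by
    rcases hc0 with ⟨h0, h1⟩ | ⟨h0, h1⟩
    · rw [h1, sub_add_cancel_left, abs_neg, Nat.abs_cast]
    · rw [h1, sub_sub_cancel, Nat.abs_cast]
  set m := Function.update z i c with hm
  set m' := Function.update xs i c with hm'
  have hmi : (m i : ℤ) = c := by rw [hm, Function.update_self]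
  have hm'i : (m' i : ℤ) = c := by rw [hm', Function.update_self]
  have hmk : ∀ k, k ≠ i → (m k : ℤ) = z k := fun k hk => by rw [hm, Function.update_of_ne hk]
  have hm'k : ∀ k, k ≠ i → (m' k : ℤ) = xs k := fun k hk => by rw [hm', Function.update_of_ne hk]
  have hcM : |(c : ℤ)| ≤ M + r + 1 := by omega
  obtain ⟨W1, a1, a2, -⟩ := mono_walk' o y
  obtain ⟨W2, b1, b2, b3⟩ := mono_walk' z m
  obtain ⟨W3, c1, c2', c3⟩ := mono_walk' m m'
  obtain ⟨W4, d1, d2, d3⟩ := mono_walk' m' xs
  rw [nm_eq, hy] at a1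
  have hzm : dist1 z m = M := by
    rw [dist1_comm, hm, dist1_update_left, dist1_self, sub_self, abs_zero, abs_sub_comm, hc2]
    ring
  rw [hzm] at b1
  have a1' : W1.length = r := by exact_mod_cast a1
  have b1' : W2.length = M := by exact_mod_cast b1
  -- geometry of the four pieces
  have g1 : ∀ u ∈ W1.support, nm u ≤ r := by
    intro u hu
    have h1 := (a2 u hu).dist
    rw [nm_eq, nm_eq, hy] at h1
    have := dist1_nonneg u y
    omega
  have g2 : ∀ u ∈ W2.support, nm u = r + 1 + dist1 z u ∧ u ∈ Λ := by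
    intro u hu
    have hb := b2 u hu
    have hk : ∀ k, k ≠ i → (u k : ℤ) = z k := by
      intro k hk
      have := hb k
      rw [hmk k hk] at this
      omega
    have hui : |(u i : ℤ)| = |(z i : ℤ)| + |(z i : ℤ) - u i| := by
      have h1 := hb i
      rw [hmi] at h1
      rcases hc0 with ⟨h0, hcc⟩ | ⟨h0, hcc⟩
      · rw [hcc] at h1
        have h5 : (z i : ℤ) ≤ u i := by omega
        rw [abs_of_nonneg (by omega), abs_of_nonneg h0, abs_of_nonpos (by omega)]
        ring
      · rw [hcc] at h1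
        have h5 : (u i : ℤ) ≤ z i := by omega
        rw [abs_of_nonpos (by omega), abs_of_neg h0, abs_of_nonneg (by omega)]
        ring
    have hd1 : dist1 z u = |(z i : ℤ) - u i| := by
      rw [dist1_split z u i]
      have : ∑ k ∈ univ.erase i, |(z k : ℤ) - u k| = 0 := sum_eq_zero fun k hk' => by
        rw [hk k (mem_erase.1 hk').1]; simp
      rw [this, add_zero]
    have hnm : nm u = nm z + dist1 z u := by
      rw [nm_split u i, nm_split z i, hui, hd1]
      have : ∑ k ∈ univ.erase i, |(u k : ℤ)| = ∑ k ∈ univ.erase i, |(z k : ℤ)| :=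
        sum_congr rfl fun k hk' => by rw [hk k (mem_erase.1 hk').1]
      rw [this]; ring
    refine ⟨by rw [hnm, hz], fun k => ?_⟩
    by_cases hki : k = i
    · rw [hki]
      have h1 := hb i
      rw [hmi] at h1
      have h2 : |(u i : ℤ)| ≤ max |(z i : ℤ)| |(c : ℤ)| := by
        rcases h1 with h1 | h1
        · exact (abs_le_max_abs_abs h1.1 h1.2)
        · rw [max_comm]; exact (abs_le_max_abs_abs h1.1 h1.2)
      refine h2.trans (max_le ?_ ?_) <;> omega
    · rw [hk k hki]
      have := nm_coord z k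
      omega
  have g3 : ∀ u ∈ W3.support, dist1 m u ≤ nm u - M + (r + 1) ∧ (M:ℤ) ≤ nm u ∧ u ∈ Λ := by
    intro u hu
    have hb := c2' u hu
    have hui : (u i : ℤ) = c := by
      have := hb i
      rw [hmi, hm'i] at this
      omega
    have e1 : dist1 m u = ∑ k ∈ univ.erase i, |(z k : ℤ) - u k| := by
      rw [dist1_split m u i, hmi, hui, sub_self, abs_zero, zero_add]
      exact sum_congr rfl fun k hk' => by rw [hmk k (mem_erase.1 hk').1]
    have e2 : ∑ k ∈ univ.erase i, |(z k : ℤ) - u k| ≤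
        ∑ k ∈ univ.erase i, |(z k : ℤ)| + ∑ k ∈ univ.erase i, |(u k : ℤ)| := by
      rw [← sum_add_distrib]
      exact sum_le_sum fun k _ => abs_sub _ _
    have e3 := nm_split u i
    have e4 := nm_split z i
    rw [hui, hc1] at e3
    have e5 := abs_nonneg (z i : ℤ)
    have e6 : 0 ≤ ∑ k ∈ univ.erase i, |(u k : ℤ)| := sum_nonneg fun _ _ => abs_nonneg _
    refine ⟨by omega, by omega, fun k => ?_⟩
    by_cases hki : k = i
    · rw [hki, hui]; omega
    · have h1 := hb k
      rw [hmk k hki, hm'k k hki] at h1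
      have h2 : |(u k : ℤ)| ≤ max |(z k : ℤ)| |(xs k : ℤ)| := by
        rcases h1 with h1 | h1
        · exact (abs_le_max_abs_abs h1.1 h1.2)
        · rw [max_comm]; exact (abs_le_max_abs_abs h1.1 h1.2)
      have h3 := nm_coord z k
      have h4 := hxsΛ k
      refine h2.trans (max_le ?_ h4)
      omega
  have g4 : ∀ u ∈ W4.support, dist1 m' u ≤ |(c : ℤ)| + |(u i : ℤ)| ∧
      nm m' = |(c:ℤ)| + (nm u - |(u i : ℤ)|) ∧ (R:ℤ) ≤ nm u ∧ u ∈ Λ := by
    intro u hu
    have hb := d2 u hu
    have hk : ∀ k, k ≠ i → (u k : ℤ) = xs k := by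
      intro k hk
      have := hb k
      rw [hm'k k hk] at this
      omega
    have e1 : dist1 m' u = |(c : ℤ) - u i| := by
      rw [dist1_split m' u i, hm'i]
      have : ∑ k ∈ univ.erase i, |(m' k : ℤ) - u k| = 0 := sum_eq_zero fun k hk' => by
        rw [hk k (mem_erase.1 hk').1, hm'k k (mem_erase.1 hk').1]; simp
      rw [this, add_zero]
    have e2 : ∑ k ∈ univ.erase i, |(m' k : ℤ)| = ∑ k ∈ univ.erase i, |(u k : ℤ)| :=
      sum_congr rfl fun k hk' => by rw [hk k (mem_erase.1 hk').1, hm'k k (mem_erase.1 hk').1]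
    refine ⟨by rw [e1]; exact abs_sub _ _, ?_, ?_, fun k => ?_⟩
    · rw [nm_split m' i, nm_split u i, hm'i, e2]; ring
    · have := nm_coord u ks
      rw [hk ks (Ne.symm hi), hks] at this
      exact this
    · by_cases hki : k = i
      · rw [hki]
        have h1 := hb i
        rw [hm'i] at h1
        have h2 : |(u i : ℤ)| ≤ max |(c : ℤ)| |(xs i : ℤ)| := by
          rcases h1 with h1 | h1
          · exact (abs_le_max_abs_abs h1.1 h1.2)
          · rw [max_comm]; exact (abs_le_max_abs_abs h1.1 h1.2)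
        refine h2.trans (max_le ?_ (hxsΛ i))
        omega
      · rw [hk k hki]; exact hxsΛ k
  -- the set of vertices after the edge
  set S : Set (Vx d n) := {u | u ∈ W2.support ∨ u ∈ W3.support ∨ u ∈ W4.support} with hS
  have hSnm : ∀ u ∈ S, (r:ℤ) + 1 ≤ nm u ∧ u ∈ Λ := by
    rintro u (hu | hu | hu)
    · have h1 := g2 u hu
      have := dist1_nonneg z u
      exact ⟨by omega, h1.2⟩
    · have h1 := g3 u hu
      exact ⟨by omega, h1.2.2⟩
    · have h1 := g4 u hu
      exact ⟨by omega, h1.2.2.2⟩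
  have hyS : y ∉ S := fun h => by
    have := (hSnm y h).1
    omega
  set A : List (Sym2 (Vx d n)) := W1.edges ++ (W2.edges ++ (W3.edges ++ W4.edges)) with hA
  have hyΛ : ∀ u ∈ W1.support, u ∈ Λ := by
    intro u hu k
    have h1 := g1 u hu
    have h2 := nm_coord u k
    omega
  -- edges of the pieces
  have hAin : ∀ x' y', s(x', y') ∈ A → x' ∈ Λ ∧ y' ∈ Λ ∧ s(x', y') ≠ j.1 ∧
      ((nm x' ≤ r ∧ nm y' ≤ r) ∨ (x' ∈ S ∧ y' ∈ S)) := by
    intro x' y' h
    rw [hA, List.mem_append, List.mem_append, List.mem_append] at h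
    rcases h with h | h | h | h
    · have hx := W1.fst_mem_support_of_mem_edges h
      have hy' := W1.snd_mem_support_of_mem_edges h
      refine ⟨hyΛ _ hx, hyΛ _ hy', ?_, Or.inl ⟨g1 _ hx, g1 _ hy'⟩⟩
      intro hc
      have : z ∈ W1.support := by
        rw [hc] at h
        exact W1.snd_mem_support_of_mem_edges h
      have := g1 z this
      omega
    · have hx := W2.fst_mem_support_of_mem_edges h
      have hy' := W2.snd_mem_support_of_mem_edges h
      refine ⟨(g2 _ hx).2, (g2 _ hy').2, ?_, Or.inr ⟨Or.inl hx, Or.inl hy'⟩⟩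
      intro hc
      rw [hc] at h
      exact hyS (Or.inl (W2.fst_mem_support_of_mem_edges h))
    · have hx := W3.fst_mem_support_of_mem_edges h
      have hy' := W3.snd_mem_support_of_mem_edges h
      refine ⟨(g3 _ hx).2.2, (g3 _ hy').2.2, ?_, Or.inr ⟨Or.inr (Or.inl hx), Or.inr (Or.inl hy')⟩⟩
      intro hc
      rw [hc] at h
      exact hyS (Or.inr (Or.inl (W3.fst_mem_support_of_mem_edges h)))
    · have hx := W4.fst_mem_support_of_mem_edges h
      have hy' := W4.snd_mem_support_of_mem_edges h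
      refine ⟨(g4 _ hx).2.2.2, (g4 _ hy').2.2.2, ?_, Or.inr ⟨Or.inr (Or.inr hx), Or.inr (Or.inr hy')⟩⟩
      intro hc
      rw [hc] at h
      exact hyS (Or.inr (Or.inr (W4.fst_mem_support_of_mem_edges h)))
  -- the new configuration
  set ω' : Cfg (box d n) := fun e => if ∀ x ∈ e.1, x ∈ Λ then decide (e.1 ∈ A) else ω e with hω'
  have hjA : j.1 ∉ A := fun h => (hAin y z h).2.2.1 rfl
  have hyΛ' : y ∈ Λ := hyΛ y W1.end_mem_support
  have hzS : z ∈ S := Or.inl W2.start_mem_support
  have hzΛ : z ∈ Λ := (hSnm z hzS).2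
  have wA : ∀ e ∈ A, wt (box d n) a b ω' e = a := by
    intro e
    induction e using Sym2.ind with
    | _ x' y' =>
      intro he
      have he' : s(x', y') ∈ (box d n).edgeSet := by
        rw [hA, List.mem_append, List.mem_append, List.mem_append] at he
        rcases he with h | h | h | h
        · exact W1.edges_subset_edgeSet h
        · exact W2.edges_subset_edgeSet h
        · exact W3.edges_subset_edgeSet h
        · exact W4.edges_subset_edgeSet h
      obtain ⟨h1, h2, -, -⟩ := hAin x' y' he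
      rw [wt_mem _ he']
      have : ∀ x ∈ s(x', y'), x ∈ Λ := by
        intro x hx
        rcases Sym2.mem_iff.1 hx with rfl | rfl
        · exact h1
        · exact h2
      have e1 : ω' ⟨s(x', y'), he'⟩ = decide (s(x', y') ∈ A) := if_pos this
      rw [e1]
      simp [he]
  have wout : ∀ x' y', (box d n).Adj x' y' → ¬ (x' ∈ Λ ∧ y' ∈ Λ) →
      wt (box d n) a b ω' s(x', y') = wt (box d n) a b ωb s(x', y') := by
    intro x' y' hadj hnot
    have : ¬ ∀ x ∈ s(x', y'), x ∈ Λ := fun h =>
      hnot ⟨h x' (Sym2.mem_mk_left _ _), h y' (Sym2.mem_mk_right _ _)⟩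
    rw [wt_mem _ ((SimpleGraph.mem_edgeSet _).2 hadj), wt_mem _ ((SimpleGraph.mem_edgeSet _).2 hadj)]
    simp only [hω', hωb, this, if_false]
  have wle : ∀ e ∈ (box d n).edgeSet, wt (box d n) a b ω' e ≤ wt (box d n) a b ωb e := by
    intro e he
    rw [wt_mem _ he, wt_mem _ he]
    by_cases hin : ∀ x ∈ e, x ∈ Λ
    · have e1 : ωb ⟨e, he⟩ = false := if_pos hin
      rw [e1]
      simp only [Bool.false_eq_true, if_false]
      split_ifs <;> linarith
    · have e1 : ωb ⟨e, he⟩ = ω ⟨e, he⟩ := if_neg hin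
      have e2 : ω' ⟨e, he⟩ = ω ⟨e, he⟩ := if_neg hin
      rw [e1, e2]
  have hωj : ω' j = false := by
    have : ∀ x ∈ j.1, x ∈ Λ := by
      intro x hx
      rcases Sym2.mem_iff.1 hx with rfl | rfl
      · exact hyΛ'
      · exact hzΛ
    have e1 : ω' j = decide (j.1 ∈ A) := if_pos this
    rw [e1]
    simp [hjA]
  have hwj : wt (box d n) a b ω' s(y, z) = b := by
    rw [wt_mem _ j.2]
    have : ω' ⟨s(y, z), j.2⟩ = false := hωj
    rw [this]; simp
  -- potential inequality
  set φ : Vx d n → ℝ := pot a b r R with hφ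
  have hpot : ∀ x' y', (box d n).Adj x' y' → x' ∉ S → φ y' - φ x' ≤ wt (box d n) a b ω' s(x', y') := by
    intro x' y' hadj hxS
    have he := (SimpleGraph.mem_edgeSet _).2 hadj
    by_cases hin : x' ∈ Λ ∧ y' ∈ Λ
    · by_cases hAe : s(x', y') ∈ A
      · obtain ⟨-, -, -, h4⟩ := hAin x' y' hAe
        rcases h4 with h4 | h4
        · rw [wA _ hAe]
          exact pot_step_small ha.le hadj h4.1 h4.2
        · exact absurd h4.1 hxS
      · have : wt (box d n) a b ω' s(x', y') = b := by
          rw [wt_mem _ he]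
          have hall : ∀ x ∈ s(x', y'), x ∈ Λ := by
            intro x hx
            rcases Sym2.mem_iff.1 hx with rfl | rfl
            · exact hin.1
            · exact hin.2
          have e1 : ω' ⟨s(x', y'), he⟩ = decide (s(x', y') ∈ A) := if_pos hall
          rw [e1]
          simp [hAe]
        rw [this]
        exact pot_step_b ha.le hab.le hadj
    · refine le_trans ?_ (wt_ge hab.le he)
      have h5 : (R:ℤ) ≤ nm x' ∧ (R:ℤ) ≤ nm y' := by
        rw [not_and_or] at hin
        rcases hin with h6 | h6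
        · have h7 := not_cube_nm h6
          have h8 := nm_adj hadj.symm
          constructor <;> omega
        · have h7 := not_cube_nm h6
          have h8 := nm_adj hadj
          constructor <;> omega
      exact pot_step_large ha.le hadj h5.1 h5.2
  have hφo : φ o = 0 := by
    have : nm o = 0 := by rw [← nm_eq, dist1_self]
    simp only [hφ, pot, this, Int.cast_zero, mul_zero, zero_add]
    have h1 : max 0 (min (0:ℝ) R - r) = 0 := max_eq_left (by
      have := min_le_left (0:ℝ) R
      have h2 : (0:ℝ) ≤ r := by positivity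
      linarith)
    rw [h1, mul_zero]
  have hRr : (r:ℝ) + 1 ≤ R := by
    have : r + 1 ≤ R := by omega
    exact_mod_cast this
  have hφS : ∀ u ∈ S, ∀ L : ℝ, a * (L - nm u) + (b - a) * (r + 1) ≤ (b - a) * min (nm u : ℝ) R →
      a * L + (b - a) ≤ φ u := by
    intro u hu L hL
    have h1 := (hSnm u hu).1
    have h1' : (r:ℝ) + 1 ≤ nm u := by exact_mod_cast h1
    have h2 : (r:ℝ) + 1 ≤ min (nm u : ℝ) R := le_min h1' hRr
    simp only [hφ, pot]
    rw [max_eq_right (by linarith)]
    nlinarith
  -- walks to the vertices of `S` through the edge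
  have hyzW : ∀ (u : Vx d n) (w : (box d n).Walk z u), (∀ e ∈ w.edges, e ∈ A) →
      ∃ W : (box d n).Walk o u, j.1 ∈ W.edges ∧
        time (box d n) a b ω' W ≤ a * ((r:ℝ) + 1 + w.length) + (b - a) := by
    intro u w hw
    refine ⟨W1.append (SimpleGraph.Walk.cons hyz w), ?_, ?_⟩
    · rw [SimpleGraph.Walk.edges_append, SimpleGraph.Walk.edges_cons]
      simp [hj]
    · rw [time_append, time_cons, hwj]
      have h1 : time (box d n) a b ω' W1 ≤ a * W1.length :=
        time_le_of_forall W1 fun e he => (wA e (by rw [hA]; simp [he])).le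
      have h2 : time (box d n) a b ω' w ≤ a * w.length :=
        time_le_of_forall w fun e he => (wA e (hw e he)).le
      rw [a1'] at h1
      linarith
  have hMreal : (a + b) * ((r:ℝ) + 1) ≤ (b - a) * M := hM
  have hfin : ∀ u ∈ S, ∃ W : (box d n).Walk o u, j.1 ∈ W.edges ∧ time (box d n) a b ω' W ≤ φ u := by
    rintro u (hu | hu | hu)
    · obtain ⟨w, hw1, hw2⟩ := b3 u hu
      obtain ⟨W, h1, h2⟩ := hyzW u w (fun e he => by rw [hA]; simp [hw1 he])
      refine ⟨W, h1, h2.trans (hφS u (Or.inl hu) _ ?_)⟩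
      have h3 := (g2 u hu).1
      rw [← hw2] at h3
      have h3' : (nm u : ℝ) = r + 1 + w.length := by exact_mod_cast h3
      have h4 : (r:ℝ) + 1 ≤ min (nm u : ℝ) R := le_min (by
        rw [h3']
        have : (0:ℝ) ≤ w.length := by positivity
        linarith) hRr
      rw [← h3', sub_self, mul_zero, zero_add]
      gcongr
    · obtain ⟨w, hw1, hw2⟩ := c3 u hu
      obtain ⟨W, h1, h2⟩ := hyzW u (W2.append w) (fun e he => by
        rw [SimpleGraph.Walk.edges_append, List.mem_append] at he
        rw [hA]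
        rcases he with he | he
        · simp [he]
        · simp [hw1 he])
      refine ⟨W, h1, h2.trans (hφS u (Or.inr (Or.inl hu)) _ ?_)⟩
      have h3 := (g3 u hu).1
      rw [← hw2] at h3
      have h3' : (w.length : ℝ) ≤ nm u - M + (r + 1) := by exact_mod_cast h3
      have h5 : (M:ℝ) ≤ nm u := by exact_mod_cast (g3 u hu).2.1
      have hMR : (M:ℝ) ≤ R := by
        have : M ≤ R := by omega
        exact_mod_cast this
      have h4 : (M:ℝ) ≤ min (nm u : ℝ) R := le_min h5 hMR
      rw [SimpleGraph.Walk.length_append, b1']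
      push_cast
      have h6 : (b - a) * (M:ℝ) ≤ (b - a) * min (nm u : ℝ) R := by gcongr
      have h7 : a * ((r:ℝ) + 1 + (M + w.length) - nm u) ≤ a * (2 * (r + 1)) := by
        gcongr
        linarith
      nlinarith
    · obtain ⟨w, hw1, hw2⟩ := d3 u hu
      obtain ⟨W, h1, h2⟩ := hyzW u (W2.append (W3.append w)) (fun e he => by
        rw [SimpleGraph.Walk.edges_append, SimpleGraph.Walk.edges_append, List.mem_append,
          List.mem_append] at he
        rw [hA]
        rcases he with he | he | he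
        · simp [he]
        · simp [he]
        · simp [hw1 he])
      refine ⟨W, h1, h2.trans (hφS u (Or.inr (Or.inr hu)) _ ?_)⟩
      obtain ⟨q1, q2, q3, -⟩ := g4 u hu
      have q4 := (g3 m' W3.end_mem_support).1
      rw [← hw2] at q1
      rw [← c1] at q4
      have q5 : (W3.length : ℤ) + w.length ≤ nm u + M + 3 * (r + 1) := by omega
      have q5' : (W3.length : ℝ) + w.length ≤ nm u + M + 3 * (r + 1) := by exact_mod_cast q5
      have q3' : (R:ℝ) ≤ nm u := by exact_mod_cast q3
      rw [min_eq_right q3', SimpleGraph.Walk.length_append, SimpleGraph.Walk.length_append, b1']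
      push_cast
      have h7 : a * ((r:ℝ) + 1 + (M + (W3.length + w.length)) - nm u) ≤
          a * (2 * M + 4 * ((r:ℝ) + 1)) := by
        gcongr
        linarith
      linarith
  have hSemi : ω' ∈ SemiEss (box d n) a b o t j := by
    obtain ⟨w0⟩ : Nonempty ((box d n).Walk o t) := by
      obtain ⟨w, -, -, -⟩ := mono_walk' o t
      exact ⟨w⟩
    obtain ⟨γ, hγ⟩ := exists_geod (a := a) (b := b) (ω := ω') w0
    have hoS : o ∉ S := fun h => by
      have h1 := (hSnm o h).1
      have : nm o = 0 := by rw [← nm_eq, dist1_self]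
      omega
    by_cases hvis : ∃ u ∈ γ.1.support, u ∈ S
    · obtain ⟨u, hu, γ', h1⟩ := first_hit S hpot γ.1 hoS hvis
      obtain ⟨W, h2, h3⟩ := hfin u hu
      refine mem_semiEss hab.le ha (W.append γ') ?_ ?_
      · rw [time_append, ← hγ]
        rw [hφo] at h1
        linarith
      · rw [SimpleGraph.Walk.edges_append, List.mem_append]
        exact Or.inl h2
    · push Not at hvis
      rcases last_exit hab.le ha.le S Λ hpot wout γ.1 ht hvis with ⟨h1, -⟩ | ⟨x, hx1, ⟨y', hy1, hy2⟩, hx2⟩
      · exfalso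
        refine h1 o γ.1.start_mem_support ?_
        intro k
        rw [hoi]; simp
      · have hxbd : x ∈ bd := by
          rw [hbd, mem_filter]
          refine ⟨mem_univ _, hx1, ?_⟩
          have h3 : ∃ k, (R:ℤ) < |(y' k : ℤ)| := by
            by_contra hc
            push Not at hc
            exact hy1 hc
          obtain ⟨k, hk⟩ := h3
          refine ⟨k, ?_⟩
          have h4 := hx1 k
          have h5 : |(x k : ℤ) - y' k| ≤ 1 := by
            have h6 : dist1 x y' = 1 := hy2
            rw [← h6]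
            exact single_le_sum (f := fun k => |(x k : ℤ) - y' k|) (fun _ _ => abs_nonneg _) (mem_univ k)
          have h7 := abs_sub_abs_le_abs_sub (y' k : ℤ) (x k)
          rw [abs_sub_comm] at h7
          omega
        have h8 := hmin x hxbd
        have hnx : (R:ℝ) ≤ nm x := by
          obtain ⟨-, -, k, hk⟩ := mem_filter.1 hxbd
          have h9 := nm_coord x k
          rw [hk] at h9
          exact_mod_cast h9
        have hφx : φ x = a * nm x + (b - a) * (R - r) := by
          simp only [hφ, pot]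
          rw [min_eq_right hnx, max_eq_right (by linarith)]
        -- the comparison walk
        obtain ⟨w1⟩ : Nonempty ((box d n).Walk xs t) := by
          obtain ⟨w, -, -, -⟩ := mono_walk' xs t
          exact ⟨w⟩
        obtain ⟨γb, hγb⟩ := exists_geod (a := a) (b := b) (ω := ωb) w1
        obtain ⟨W, h10, h11⟩ := hyzW xs (W2.append (W3.append W4)) (fun e he => by
          rw [SimpleGraph.Walk.edges_append, SimpleGraph.Walk.edges_append, List.mem_append,
            List.mem_append] at he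
          rw [hA]
          rcases he with he | he | he
          · simp [he]
          · simp [he]
          · simp [he])
        refine mem_semiEss hab.le ha (W.append γb.1) ?_ ?_
        · rw [time_append, ← hγ]
          have h12 : time (box d n) a b ω' γb.1 ≤ time (box d n) a b ωb γb.1 :=
            time_mono γb.1 fun e he => wle e (γb.1.edges_subset_edgeSet he)
          have h13 : time (box d n) a b ωb γb.1 = fpt (box d n) a b xs t ωb := hγb
          obtain ⟨q1, q2, q3, -⟩ := g4 xs W4.end_mem_support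
          have q4 := (g3 m' W3.end_mem_support).1
          rw [← d1] at q1
          rw [← c1] at q4
          have q5 : (W3.length : ℤ) + W4.length ≤ nm xs + M + 3 * (r + 1) := by omega
          have q5' : (W3.length : ℝ) + W4.length ≤ nm xs + M + 3 * (r + 1) := by exact_mod_cast q5
          rw [SimpleGraph.Walk.length_append, SimpleGraph.Walk.length_append, b1'] at h11
          push_cast at h11
          have h14 : a * ((r:ℝ) + 1 + (M + (W3.length + W4.length))) ≤
              a * (nm xs + 2 * M + 4 * ((r:ℝ) + 1)) :=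
            mul_le_mul_of_nonneg_left (by linarith) ha.le
          rw [hφo] at hx2
          rw [hφx] at hx2
          nlinarith
        · rw [SimpleGraph.Walk.edges_append, List.mem_append]
          exact Or.inl h10
  refine ⟨ω', ?_, ?_⟩
  · refine veryInfl_of hab ha ?_
    have : Function.update ω' j false = ω' := by rw [← hωj, Function.update_eq_self]
    rw [this]
    exact hSemi
  · intro e he
    simp only [hω', he, if_false]

end Pool.Agent.Helper95.FPP
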