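import Mathlib
import Pool.Agent.Helper95.FPPLocal

set_option autoImplicit false
set_option linter.unusedSectionVars false

open Finset

namespace Pool.Agent.Helper95.FPP

section gen
variable {V : Type*} [Fintype V] [DecidableEq V] {G : SimpleGraph V} [DecidableRel G.Adj]
  {a b p : ℝ} {ω : Cfg G} {s t : V}

lemma infl_to (hab : a < b) (h0 : 0 < a) {j : G.edgeSet} (h : ω ∈ Infl G a b s t j) :
    Function.update ω j true ∈ Ess G a b s t j := by
  intro γ hγ
  by_contra hj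
  have h1 : time G a b (Function.update ω j false) γ.1 = time G a b (Function.update ω j true) γ.1 := by
    rw [time_update_notMem _ hj, time_update_notMem _ hj]
  have h2 := fpt_le (ω := Function.update ω j false) hab.le h0.le γ.1
  rw [h1, hγ] at h2
  obtain ⟨γ', hγ'⟩ := exists_geod (a := a) (b := b) (ω := Function.update ω j false) γ.1
  have h3 : time G a b (Function.update ω j true) γ'.1 ≤
      time G a b (Function.update ω j false) γ'.1 := by
    refine time_mono γ'.1 fun e _ => ?_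
    by_cases he : e = j.1
    · rw [he, wt_update_self, wt_update_self]
      simp [hab.le]
    · rw [wt_update_ne he, wt_update_ne he]
  have h4 := fpt_le (ω := Function.update ω j true) hab.le h0.le γ'.1
  have h5 : fpt G a b s t (Function.update ω j true) ≤ fpt G a b s t (Function.update ω j false) := by
    rw [← hγ']; exact h4.trans h3
  exact h (by rw [dif]; linarith)

lemma comparable_of (hab : a < b) (h0 : 0 < a) (hp : 0 < p) (hp1 : p < 1) {j : G.edgeSet} {c : ℝ}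
    (hc : 0 < c) (h : c ≤ Pr G p (VeryInfl G a b s t j)) :
    Comparable G a b p s t j (1 / (min p (1 - p) * c)) := by
  set m := min p (1 - p) with hm
  have hm0 : 0 < m := lt_min hp (by linarith)
  have hm1 : m ≤ 1 := (min_le_left _ _).trans hp1.le
  have hVI : VeryInfl G a b s t j ⊆ Infl G a b s t j := by
    intro ω hω
    have h1 : dif G a b s t j ω = b - a := hω
    show dif G a b s t j ω ≠ 0
    rw [h1]
    exact (sub_pos.2 hab).ne'
  have h2 : c ≤ Pr G p (Infl G a b s t j) := h.trans (Pr_mono hp.le hp1.le hVI)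
  have h3 : m * c ≤ Pr G p (Ess G a b s t j) := by
    have h4 := one_edge (G := G) hp.le hp1.le (Ess G a b s t j) j
    have h5 : Pr G p (Infl G a b s t j) ≤
        Pr G p {ω | ∃ x, Function.update ω j x ∈ Ess G a b s t j} :=
      Pr_mono hp.le hp1.le fun ω hω => ⟨true, infl_to hab h0 hω⟩
    calc m * c ≤ m * Pr G p (Infl G a b s t j) := by gcongr
      _ ≤ m * Pr G p {ω | ∃ x, Function.update ω j x ∈ Ess G a b s t j} := by gcongr
      _ ≤ _ := h4
  have hmc : 0 < m * c := mul_pos hm0 hc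
  have h6 : m * c ≤ c := mul_le_of_le_one_left hc.le hm1
  have key : ∀ x y : ℝ, x ≤ 1 → m * c ≤ y → x ≤ 1 / (m * c) * y := by
    intro x y hx hy
    calc x ≤ 1 := hx
      _ = 1 / (m * c) * (m * c) := by field_simp
      _ ≤ 1 / (m * c) * y := by gcongr
  exact ⟨key _ _ (Pr_le_one hp.le hp1.le _) (h6.trans h), key _ _ (Pr_le_one hp.le hp1.le _) h3,
    key _ _ (Pr_le_one hp.le hp1.le _) (h6.trans h)⟩

end gen

variable {d : ℕ} {a b p : ℝ}

lemma nm_pt (n : ℕ) (x : Fin d → ℤ) (h : ∀ i, |x i| ≤ 2 * (n:ℤ)) : nm (pt n x h) = ∑ i, |x i| := rfl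

/-- fixed edge, ordered endpoints -/
lemma fixed_aux (ha : 0 < a) (hab : a < b) (hp : 0 < p) (hp1 : p < 1) (hd : 2 ≤ d)
    (v : Fin d → ℤ) (hv : ∀ i, |v i| ≤ 2) (hv0 : v ≠ 0) (y z : Fin d → ℤ)
    (hyz : ∑ i, |y i - z i| = 1) (hord : ∑ i, |z i| = ∑ i, |y i| + 1) :
    ∃ n0 : ℕ, ∃ c : ℝ, 0 < c ∧ ∀ n : ℕ, n0 ≤ n → ∃ (hy : ∀ i, |y i| ≤ 2 * (n:ℤ))
      (hz : ∀ i, |z i| ≤ 2 * (n:ℤ)),
      c ≤ Pr (box d n) p (VeryInfl (box d n) a b (org d n) (tgt n v hv) (edg n y z hy hz hyz)) := by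
  classical
  obtain ⟨r, hr⟩ := Int.eq_ofNat_of_zero_le (sum_nonneg fun i _ => abs_nonneg (y i) :
    0 ≤ ∑ i, |y i|)
  have hba : 0 < b - a := by linarith
  set M := ⌈(a + b) * ((r:ℝ) + 1) / (b - a)⌉₊ with hM
  have hM1 : (a + b) * ((r:ℝ) + 1) ≤ (b - a) * M := by
    have := Nat.le_ceil ((a + b) * ((r:ℝ) + 1) / (b - a))
    rw [div_le_iff₀ hba] at this
    linarith
  set R0 := ⌈(a * (2 * M + 4 * ((r:ℝ) + 1)) + (b - a) * (r + 1)) / (b - a)⌉₊ with hR0
  have hR01 : a * (2 * M + 4 * ((r:ℝ) + 1)) + (b - a) * (r + 1) ≤ (b - a) * R0 := by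
    have := Nat.le_ceil ((a * (2 * M + 4 * ((r:ℝ) + 1)) + (b - a) * (r + 1)) / (b - a))
    rw [div_le_iff₀ hba] at this
    linarith
  set R := R0 + M + r + 1 with hR
  have hR1 : M + r + 1 ≤ R := by omega
  have hR2 : a * (2 * M + 4 * ((r:ℝ) + 1)) + (b - a) * (r + 1) ≤ (b - a) * R := by
    refine hR01.trans ?_
    have : (R0:ℝ) ≤ R := by
      have : R0 ≤ R := by omega
      exact_mod_cast this
    gcongr
  set m := min p (1 - p) with hm
  have hm0 : 0 < m := lt_min hp (by linarith)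
  have hm1 : m ≤ 1 := (min_le_left _ _).trans hp1.le
  set K := ((Fintype.piFinset fun _ : Fin d => Icc (-(R:ℤ)) R).sym2).card with hK
  refine ⟨R + 1, m ^ K, by positivity, fun n hn => ?_⟩
  have hyb : ∀ i, |y i| ≤ 2 * (n:ℤ) := fun i => by
    have := single_le_sum (f := fun i => |y i|) (fun _ _ => abs_nonneg _) (mem_univ i)
    omega
  have hzb : ∀ i, |z i| ≤ 2 * (n:ℤ) := fun i => by
    have := single_le_sum (f := fun i => |z i|) (fun _ _ => abs_nonneg _) (mem_univ i)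
    omega
  refine ⟨hyb, hzb, ?_⟩
  have ht : tgt n v hv ∉ cube (d := d) (n := n) R := by
    intro h
    obtain ⟨i, hi⟩ := Function.ne_iff.1 hv0
    have h1 : 1 ≤ |v i| := Int.one_le_abs hi
    have h2 := h i
    have h3 : ((tgt n v hv) i : ℤ) = n * v i := rfl
    rw [h3, abs_mul, Nat.abs_cast] at h2
    have h4 : (n:ℤ) * 1 ≤ n * |v i| := mul_le_mul_of_nonneg_left h1 (by positivity)
    omega
  have hcore := core (n := n) (t := tgt n v hv) (y := pt n y hyb) (z := pt n z hzb) ha hab hd hM1 hR1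
    hR2 (by omega) ht hyz (by rw [nm_pt, hr]) (by rw [nm_pt, hord, hr])
  set F : Finset (box d n).edgeSet := univ.filter fun e => ∀ x ∈ e.1, x ∈ cube (d := d) (n := n) R
    with hF
  have hFK : F.card ≤ K := by
    refine card_le_card_of_injOn (fun e => Sym2.map (fun (x : Vx d n) (i : Fin d) => (x i : ℤ)) e.1)
      ?_ ?_
    · intro e he
      have he' := (mem_filter.1 (mem_coe.1 he)).2
      rw [mem_coe, mem_sym2_iff]
      intro w hw
      obtain ⟨x, hx, rfl⟩ := Sym2.mem_map.1 hw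
      rw [Fintype.mem_piFinset]
      intro i
      rw [mem_Icc, ← abs_le]
      exact he' x hx i
    · intro e _ e' _ hee
      have hinj : Function.Injective fun (x : Vx d n) (i : Fin d) => (x i : ℤ) := by
        intro x x' hx
        funext i
        exact Subtype.ext (congrFun hx i)
      exact Subtype.ext (Sym2.map.injective hinj hee)
  have h5 := Pr_local hp.le hp1.le F
    (VeryInfl (box d n) a b (org d n) (tgt n v hv) (edg n y z hyb hzb hyz)) (fun ω => by
      obtain ⟨ω', h6, h7⟩ := hcore ω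
      refine ⟨ω', h6, fun e he => h7 e fun h8 => he ?_⟩
      rw [hF, mem_filter]
      exact ⟨mem_univ _, h8⟩)
  refine le_trans ?_ h5
  exact pow_le_pow_of_le_one hm0.le hm1 hFK

lemma norm_step {y z : Fin d → ℤ} (hyz : ∑ i, |y i - z i| = 1) :
    ∑ i, |z i| = ∑ i, |y i| + 1 ∨ ∑ i, |y i| = ∑ i, |z i| + 1 := by
  have h1 : ∑ i, |z i| - ∑ i, |y i| ≤ 1 := by
    rw [← sum_sub_distrib, ← hyz]
    exact sum_le_sum fun i _ => by rw [abs_sub_comm]; exact abs_sub_abs_le_abs_sub _ _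
  have h2 : ∑ i, |y i| - ∑ i, |z i| ≤ 1 := by
    rw [← sum_sub_distrib, ← hyz]
    exact sum_le_sum fun i _ => abs_sub_abs_le_abs_sub _ _
  have h3 : (∑ i, |z i| + ∑ i, |y i|) % 2 = 1 := by
    have h4 : (∑ i, |z i| + ∑ i, |y i| - ∑ i, |y i - z i|) % 2 = 0 := by
      rw [← sum_add_distrib, ← sum_sub_distrib]
      have h5 : (2:ℤ) ∣ ∑ i, (|z i| + |y i| - |y i - z i|) := by
        refine dvd_sum fun i _ => ?_
        rcases abs_cases (z i) with h | h <;> rcases abs_cases (y i) with h' | h' <;>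
          rcases abs_cases (y i - z i) with h'' | h'' <;> omega
      exact Int.emod_eq_zero_of_dvd h5
    rw [hyz] at h4
    omega
  omega

theorem fixed_edge (ha : 0 < a) (hab : a < b) (hp : 0 < p) (hp1 : p < 1) (hd : 2 ≤ d)
    (v : Fin d → ℤ) (hv : ∀ i, |v i| ≤ 2) (hv0 : v ≠ 0) (y z : Fin d → ℤ)
    (hyz : ∑ i, |y i - z i| = 1) :
    ∃ n0 : ℕ, ∃ C : ℝ, ∀ n : ℕ, n0 ≤ n → ∃ (hy : ∀ i, |y i| ≤ 2 * (n:ℤ))
      (hz : ∀ i, |z i| ≤ 2 * (n:ℤ)),
      Comparable (box d n) a b p (org d n) (tgt n v hv) (edg n y z hy hz hyz) C := by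
  rcases norm_step hyz with h | h
  · obtain ⟨n0, c, hc, h1⟩ := fixed_aux ha hab hp hp1 hd v hv hv0 y z hyz h
    refine ⟨n0, 1 / (min p (1 - p) * c), fun n hn => ?_⟩
    obtain ⟨hy, hz, h2⟩ := h1 n hn
    exact ⟨hy, hz, comparable_of hab ha hp hp1 hc h2⟩
  · have hzy : ∑ i, |z i - y i| = 1 := by
      rw [← hyz]; exact sum_congr rfl fun i _ => abs_sub_comm _ _
    obtain ⟨n0, c, hc, h1⟩ := fixed_aux ha hab hp hp1 hd v hv hv0 z y hzy h
    refine ⟨n0, 1 / (min p (1 - p) * c), fun n hn => ?_⟩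
    obtain ⟨hz, hy, h2⟩ := h1 n hn
    have he : edg n y z hy hz hyz = edg n z y hz hy hzy := Subtype.ext Sym2.eq_swap
    refine ⟨hy, hz, ?_⟩
    rw [he]
    exact comparable_of hab ha hp hp1 hc h2

end Pool.Agent.Helper95.FPP
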