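import Mathlib

set_option autoImplicit false
set_option linter.unusedSectionVars false

open Finset

namespace Pool.Agent.Helper95.Poly

variable {Γ : Type*} [AddCommGroup Γ] {ι : Type*} [Fintype ι] [Nonempty ι]

/-- transition operator of the walk with uniform steps `σ e` -/
noncomputable def Pop (σ : ι → Γ) (u : Γ → ℝ) (x : Γ) : ℝ := (∑ e, u (x + σ e)) / Fintype.card ι

/-- average over the next step of a functional of the past `L` (latest first) and the present `x` -/
noncomputable def Av (σ : ι → Γ) (F : List Γ → Γ → ℝ) (L : List Γ) (x : Γ) : ℝ :=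
  (∑ e, F (x :: L) (x + σ e)) / Fintype.card ι

/-- expectation of a functional of the `n`-step walk from `0` -/
noncomputable def EE (σ : ι → Γ) (n : ℕ) (F : List Γ → Γ → ℝ) : ℝ := ((Av σ)^[n] F) [] 0

/-- past and present of the walk with the steps `s` -/
def path (σ : ι → Γ) : (n : ℕ) → (Fin n → ι) → List Γ × Γ
  | 0, _ => ([], 0)
  | n + 1, s => ((path σ n (Fin.init s)).2 :: (path σ n (Fin.init s)).1,
      (path σ n (Fin.init s)).2 + σ (s (Fin.last n)))

variable (σ : ι → Γ)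

lemma card_pos' : (0:ℝ) < Fintype.card ι := by exact_mod_cast Fintype.card_pos

lemma sum_snoc {n : ℕ} (f : (Fin (n + 1) → ι) → ℝ) :
    ∑ s : Fin (n + 1) → ι, f s = ∑ s : Fin n → ι, ∑ e : ι, f (Fin.snoc s e) := by
  rw [← (Fin.snocEquiv fun _ => ι).sum_comp, Fintype.sum_prod_type_right]
  rfl

lemma EE_eq (n : ℕ) (F : List Γ → Γ → ℝ) :
    EE σ n F = (∑ s : Fin n → ι, F (path σ n s).1 (path σ n s).2) / (Fintype.card ι : ℝ) ^ n := by
  induction n generalizing F with
  | zero => simp [EE, path]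
  | succ n ih =>
    have h1 : EE σ (n + 1) F = EE σ n (Av σ F) := by
      rw [EE, Function.iterate_succ_apply, EE]
    rw [h1, ih, sum_snoc]
    simp only [path, Fin.init_snoc, Fin.snoc_last, Av]
    rw [← Finset.sum_div, div_div, pow_succ, mul_comm (Fintype.card ι : ℝ)]

lemma path_length (n : ℕ) (s : Fin n → ι) : (path σ n s).1.length = n := by
  induction n with
  | zero => rfl
  | succ n ih => simp [path, ih]

lemma EE_mono {n : ℕ} {F G : List Γ → Γ → ℝ} (h : ∀ L x, L.length = n → F L x ≤ G L x) :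
    EE σ n F ≤ EE σ n G := by
  rw [EE_eq, EE_eq]
  gcongr with s _
  exact h _ _ (path_length σ n s)

lemma EE_congr {n : ℕ} {F G : List Γ → Γ → ℝ} (h : ∀ L x, L.length = n → F L x = G L x) :
    EE σ n F = EE σ n G :=
  le_antisymm (EE_mono σ fun L x hL => (h L x hL).le) (EE_mono σ fun L x hL => (h L x hL).ge)

lemma EE_const (n : ℕ) (c : ℝ) : EE σ n (fun _ _ => c) = c := by
  rw [EE_eq]
  simp only [sum_const, card_univ, Fintype.card_fun, Fintype.card_fin, nsmul_eq_mul]
  push_cast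
  have := card_pos' (ι := ι)
  field_simp

lemma EE_add (n : ℕ) (F G : List Γ → Γ → ℝ) :
    EE σ n (fun L x => F L x + G L x) = EE σ n F + EE σ n G := by
  rw [EE_eq, EE_eq, EE_eq, sum_add_distrib, add_div]

lemma EE_sub (n : ℕ) (F G : List Γ → Γ → ℝ) :
    EE σ n (fun L x => F L x - G L x) = EE σ n F - EE σ n G := by
  rw [EE_eq, EE_eq, EE_eq, sum_sub_distrib, sub_div]

lemma EE_mul (n : ℕ) (c : ℝ) (F : List Γ → Γ → ℝ) :
    EE σ n (fun L x => c * F L x) = c * EE σ n F := by
  rw [EE_eq, EE_eq, ← mul_sum, mul_div_assoc]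

lemma EE_sum {κ : Type*} (S : Finset κ) (n : ℕ) (F : κ → List Γ → Γ → ℝ) :
    EE σ n (fun L x => ∑ i ∈ S, F i L x) = ∑ i ∈ S, EE σ n (F i) := by
  simp_rw [EE_eq]
  rw [← Finset.sum_div, Finset.sum_comm]

lemma EE_nonneg {n : ℕ} {F : List Γ → Γ → ℝ} (h : ∀ L x, L.length = n → 0 ≤ F L x) :
    0 ≤ EE σ n F := by
  have := EE_mono σ (F := fun _ _ => 0) (G := F) (n := n) h
  rwa [EE_const] at this

lemma Av_mono {F G : List Γ → Γ → ℝ} {L : List Γ} {x : Γ}
    (h : ∀ e, F (x :: L) (x + σ e) ≤ G (x :: L) (x + σ e)) : Av σ F L x ≤ Av σ G L x := by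
  rw [Av, Av]
  gcongr with e _
  exact h e

lemma EE_succ (n : ℕ) (F : List Γ → Γ → ℝ) : EE σ (n + 1) F = EE σ n (Av σ F) := by
  rw [EE, Function.iterate_succ_apply, EE]

/-- supermartingale bound -/
lemma EE_super {n : ℕ} {F : List Γ → Γ → ℝ} (h : ∀ L x, L.length < n → Av σ F L x ≤ F L x) :
    EE σ n F ≤ F [] 0 := by
  have key : ∀ k ≤ n, EE σ k F ≤ F [] 0 := by
    intro k hk
    induction k with
    | zero => rfl
    | succ k ih =>
      rw [EE_succ]
      refine le_trans (EE_mono σ fun L x hL => h L x (by omega)) (ih (by omega))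
  exact key n le_rfl

/-- Markov property in the form of iterating operators -/
lemma EE_add_time (m b : ℕ) (F : List Γ → Γ → ℝ) : EE σ (b + m) F = EE σ b ((Av σ)^[m] F) := by
  rw [EE, Function.iterate_add_apply, EE]

lemma Pop_mono {u v : Γ → ℝ} (h : ∀ x, u x ≤ v x) (x : Γ) : Pop σ u x ≤ Pop σ v x := by
  rw [Pop, Pop]; gcongr with e _; exact h _

lemma Pop_const (c : ℝ) (x : Γ) : Pop σ (fun _ => c) x = c := by
  rw [Pop]
  simp only [sum_const, card_univ, nsmul_eq_mul]
  have := card_pos' (ι := ι)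
  field_simp

lemma Pop_add (u v : Γ → ℝ) (x : Γ) : Pop σ (fun y => u y + v y) x = Pop σ u x + Pop σ v x := by
  rw [Pop, Pop, Pop, sum_add_distrib, add_div]

lemma Pop_sub (u v : Γ → ℝ) (x : Γ) : Pop σ (fun y => u y - v y) x = Pop σ u x - Pop σ v x := by
  rw [Pop, Pop, Pop, sum_sub_distrib, sub_div]

lemma Pop_mul (c : ℝ) (u : Γ → ℝ) (x : Γ) : Pop σ (fun y => c * u y) x = c * Pop σ u x := by
  rw [Pop, Pop, ← mul_sum, mul_div_assoc]

lemma Pop_sum {κ : Type*} (S : Finset κ) (u : κ → Γ → ℝ) (x : Γ) :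
    Pop σ (fun y => ∑ i ∈ S, u i y) x = ∑ i ∈ S, Pop σ (u i) x := by
  simp_rw [Pop]
  rw [← Finset.sum_div, Finset.sum_comm]

lemma Pop_nonneg {u : Γ → ℝ} (h : ∀ x, 0 ≤ u x) (x : Γ) : 0 ≤ Pop σ u x := by
  rw [Pop]
  exact div_nonneg (sum_nonneg fun e _ => h _) card_pos'.le

/-- Feynman–Kac operator -/
noncomputable def FK (f u : Γ → ℝ) (x : Γ) : ℝ := Real.exp (f x) * Pop σ u x

lemma FK_mono (f : Γ → ℝ) {u v : Γ → ℝ} (h : ∀ x, u x ≤ v x) (x : Γ) : FK σ f u x ≤ FK σ f v x := by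
  rw [FK, FK]; gcongr; exact Pop_mono σ h x

lemma FK_mul (f : Γ → ℝ) (c : ℝ) (u : Γ → ℝ) (x : Γ) :
    FK σ f (fun y => c * u y) x = c * FK σ f u x := by
  rw [FK, FK, Pop_mul]; ring

lemma FK_nonneg (f : Γ → ℝ) {u : Γ → ℝ} (h : ∀ x, 0 ≤ u x) (x : Γ) : 0 ≤ FK σ f u x :=
  mul_nonneg (Real.exp_pos _).le (Pop_nonneg σ h x)

lemma FK_iter_nonneg (f : Γ → ℝ) {u : Γ → ℝ} (h : ∀ x, 0 ≤ u x) (n : ℕ) (x : Γ) :
    0 ≤ ((FK σ f)^[n] u) x := by
  induction n generalizing x with
  | zero => exact h x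
  | succ n ih => rw [Function.iterate_succ_apply']; exact FK_nonneg σ f ih x

lemma FK_iter_mono (f : Γ → ℝ) {u v : Γ → ℝ} (h : ∀ x, u x ≤ v x) (n : ℕ) (x : Γ) :
    ((FK σ f)^[n] u) x ≤ ((FK σ f)^[n] v) x := by
  induction n generalizing x with
  | zero => exact h x
  | succ n ih =>
    rw [Function.iterate_succ_apply', Function.iterate_succ_apply']; exact FK_mono σ f ih x

lemma FK_iter_mul (f : Γ → ℝ) (c : ℝ) (u : Γ → ℝ) (n : ℕ) (x : Γ) :
    ((FK σ f)^[n] (fun y => c * u y)) x = c * ((FK σ f)^[n] u) x := by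
  induction n generalizing x with
  | zero => rfl
  | succ n ih =>
    rw [Function.iterate_succ_apply', Function.iterate_succ_apply']
    have : (FK σ f)^[n] (fun y => c * u y) = fun y => c * ((FK σ f)^[n] u) y := funext ih
    rw [this, FK_mul]

/-- sum of `f` over a list -/
def lsum (f : Γ → ℝ) (L : List Γ) : ℝ := (L.map f).sum

@[simp] lemma lsum_nil (f : Γ → ℝ) : lsum f [] = 0 := rfl

@[simp] lemma lsum_cons (f : Γ → ℝ) (x : Γ) (L : List Γ) : lsum f (x :: L) = f x + lsum f L := by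
  simp [lsum]

lemma lsum_mono {f g : Γ → ℝ} {L : List Γ} (h : ∀ x ∈ L, f x ≤ g x) : lsum f L ≤ lsum g L := by
  induction L with
  | nil => simp
  | cons x L ih =>
    rw [lsum_cons, lsum_cons]
    exact add_le_add (h x (List.mem_cons_self)) (ih fun y hy => h y (List.mem_cons_of_mem _ hy))

lemma lsum_nonneg {f : Γ → ℝ} {L : List Γ} (h : ∀ x ∈ L, 0 ≤ f x) : 0 ≤ lsum f L := by
  induction L with
  | nil => simp
  | cons x L ih =>
    rw [lsum_cons]
    exact add_nonneg (h x (List.mem_cons_self)) (ih fun y hy => h y (List.mem_cons_of_mem _ hy))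

lemma lsum_const (c : ℝ) (L : List Γ) : lsum (fun _ => c) L = L.length * c := by
  induction L with
  | nil => simp
  | cons x L ih => rw [lsum_cons, ih, List.length_cons]; push_cast; ring

lemma lsum_le_length {f : Γ → ℝ} {L : List Γ} {c : ℝ} (h : ∀ x ∈ L, f x ≤ c) :
    lsum f L ≤ L.length * c := (lsum_mono h).trans (lsum_const c L).le

lemma lsum_mul (c : ℝ) (f : Γ → ℝ) (L : List Γ) : lsum (fun x => c * f x) L = c * lsum f L := by
  induction L with
  | nil => simp
  | cons x L ih => rw [lsum_cons, lsum_cons, ih]; ring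

lemma lsum_add (f g : Γ → ℝ) (L : List Γ) : lsum (fun x => f x + g x) L = lsum f L + lsum g L := by
  induction L with
  | nil => simp
  | cons x L ih => rw [lsum_cons, lsum_cons, lsum_cons, ih]; ring

lemma lsum_sub (f g : Γ → ℝ) (L : List Γ) : lsum (fun x => f x - g x) L = lsum f L - lsum g L := by
  induction L with
  | nil => simp
  | cons x L ih => rw [lsum_cons, lsum_cons, lsum_cons, ih]; ring

lemma lsum_sum {κ : Type*} (S : Finset κ) (f : κ → Γ → ℝ) (L : List Γ) :
    lsum (fun x => ∑ i ∈ S, f i x) L = ∑ i ∈ S, lsum (f i) L := by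
  induction L with
  | nil => simp
  | cons x L ih => rw [lsum_cons, ih, ← sum_add_distrib]; simp

lemma lsum_append (f : Γ → ℝ) (L M : List Γ) : lsum f (L ++ M) = lsum f L + lsum f M := by
  simp [lsum]

/-- Feynman–Kac formula with the potential acting on the latest positions only -/
lemma Av_iter_FK (f u : Γ → ℝ) (m k : ℕ) (L : List Γ) (x : Γ) :
    ((Av σ)^[m] (fun L x => Real.exp (lsum f (L.take (k + m))) * u x)) L x =
      Real.exp (lsum f (L.take k)) * ((FK σ f)^[m] u) x := by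
  induction m generalizing k u L x with
  | zero => rfl
  | succ m ih =>
    rw [Function.iterate_succ_apply]
    have h1 : Av σ (fun L x => Real.exp (lsum f (L.take (k + (m + 1)))) * u x) =
        fun L x => Real.exp (lsum f (L.take (k + m))) * FK σ f u x := by
      funext L x
      rw [Av, FK, Pop]
      have : k + (m + 1) = (k + m) + 1 := by ring
      rw [this]
      simp only [List.take_succ_cons, lsum_cons]
      rw [← mul_sum, Real.exp_add]
      ring
    rw [h1, ih]
    rfl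

lemma EE_FK (f u : Γ → ℝ) (n : ℕ) :
    EE σ n (fun L x => Real.exp (lsum f L) * u x) = ((FK σ f)^[n] u) 0 := by
  have h := Av_iter_FK σ f u n 0 [] 0
  simp only [Nat.zero_add, List.take_nil, lsum_nil, Real.exp_zero, one_mul] at h
  rw [← h]
  refine EE_congr σ fun L x hL => ?_
  rw [List.take_of_length_le hL.le]

lemma EE_exp (f : Γ → ℝ) (n : ℕ) :
    EE σ n (fun L x => Real.exp (lsum f (x :: L))) =
      ((FK σ f)^[n] (fun y => Real.exp (f y))) 0 := by
  rw [← EE_FK]
  refine EE_congr σ fun L x _ => ?_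
  rw [lsum_cons, Real.exp_add, mul_comm]

end Pool.Agent.Helper95.Poly
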