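import Mathlib
import Pool.Agent.Helper95.PolyA

set_option autoImplicit false
set_option linter.unusedSectionVars false

open Finset Filter

namespace Pool.Agent.Helper95.Poly

variable {Γ : Type*} [AddCommGroup Γ] [DecidableEq Γ] {ι : Type*} [Fintype ι] [Nonempty ι]

/-- sum of `κ` over pairs (later minus earlier) of the list -/
def psum (κ : Γ → ℝ) : List Γ → ℝ
  | [] => 0
  | y :: L => psum κ L + lsum (fun z => κ (y - z)) L

/-- Kronecker delta -/
def dl (z : Γ) : ℝ := if z = 0 then 1 else 0

lemma dl_nonneg (z : Γ) : 0 ≤ dl z := by unfold dl; split_ifs <;> norm_num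

lemma dl_le_one (z : Γ) : dl z ≤ 1 := by unfold dl; split_ifs <;> norm_num

@[simp] lemma dl_zero : dl (0 : Γ) = 1 := if_pos rfl

lemma dl_neg (z : Γ) : dl (-z) = dl z := by unfold dl; simp

@[simp] lemma psum_nil (κ : Γ → ℝ) : psum κ [] = 0 := rfl

@[simp] lemma psum_cons (κ : Γ → ℝ) (y : Γ) (L : List Γ) :
    psum κ (y :: L) = psum κ L + lsum (fun z => κ (y - z)) L := rfl

lemma psum_nonneg {κ : Γ → ℝ} (h : ∀ z, 0 ≤ κ z) (L : List Γ) : 0 ≤ psum κ L := by
  induction L with
  | nil => simp
  | cons y L ih => rw [psum_cons]; exact add_nonneg ih (lsum_nonneg fun z _ => h _)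

lemma psum_mono {κ κ' : Γ → ℝ} (h : ∀ z, κ z ≤ κ' z) (L : List Γ) : psum κ L ≤ psum κ' L := by
  induction L with
  | nil => simp
  | cons y L ih =>
    rw [psum_cons, psum_cons]; exact add_le_add ih (lsum_mono fun z _ => h _)

lemma psum_le {κ : Γ → ℝ} {c : ℝ} (hc : 0 ≤ c) (h : ∀ z, κ z ≤ c) (L : List Γ) :
    psum κ L ≤ c * (L.length : ℝ) ^ 2 / 2 := by
  induction L with
  | nil => simp
  | cons y L ih =>
    rw [psum_cons, List.length_cons]
    have h1 : lsum (fun z => κ (y - z)) L ≤ L.length * c := lsum_le_length fun z _ => h _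
    push_cast
    nlinarith

/-- number of self-intersections of a walk of length `n` is at most `n²` -/
lemma psum_dl_le (L : List Γ) (x : Γ) {n : ℕ} (hn : 1 ≤ n) (hL : L.length = n) :
    psum dl (x :: L) ≤ (n:ℝ) ^ 2 := by
  have h1 : ∀ L : List Γ, psum dl L ≤ (L.length : ℝ) * (L.length - 1) / 2 := by
    intro L
    induction L with
    | nil => simp
    | cons y L ih =>
      rw [psum_cons, List.length_cons]
      have h1 : lsum (fun z => dl (y - z)) L ≤ L.length * 1 := lsum_le_length fun z _ => dl_le_one _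
      push_cast
      nlinarith
  refine (h1 _).trans ?_
  rw [List.length_cons, hL]
  have : (1:ℝ) ≤ n := by exact_mod_cast hn
  push_cast
  nlinarith

/-- full double sum -/
def dsum (κ : Γ → ℝ) (L : List Γ) : ℝ := lsum (fun y => lsum (fun z => κ (y - z)) L) L

lemma dsum_eq {κ : Γ → ℝ} (h : ∀ z, κ (-z) = κ z) (L : List Γ) :
    dsum κ L = 2 * psum κ L + L.length * κ 0 := by
  induction L with
  | nil => simp [dsum]
  | cons y L ih =>
    rw [dsum] at ih ⊢
    simp only [lsum_cons, psum_cons, sub_self, List.length_cons]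
    rw [lsum_add, ih]
    have : lsum (fun z => κ (z - y)) L = lsum (fun z => κ (y - z)) L := by
      congr 1
      funext z
      rw [← h, neg_sub]
    rw [this]
    push_cast; ring

/-- number of visits to `y` -/
def cnt (L : List Γ) (y : Γ) : ℝ := lsum (fun z => dl (z - y)) L

lemma cnt_nonneg (L : List Γ) (y : Γ) : 0 ≤ cnt L y := lsum_nonneg fun _ _ => dl_nonneg _

lemma lsum_lsum_comm (F : Γ → Γ → ℝ) (L M : List Γ) :
    lsum (fun y => lsum (fun z => F y z) M) L = lsum (fun z => lsum (fun y => F y z) L) M := by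
  induction L with
  | nil => simp only [lsum_nil]; rw [lsum_const]; simp
  | cons y L ih => simp only [lsum_cons]; rw [ih, lsum_add]

lemma lsum_eq_sum {f : Γ → ℝ} {B : Finset Γ} (h : ∀ y, y ∉ B → f y = 0) (L : List Γ) :
    lsum f L = ∑ y ∈ B, f y * cnt L y := by
  induction L with
  | nil => simp [cnt]
  | cons x L ih =>
    rw [lsum_cons, ih]
    simp only [cnt, lsum_cons, mul_add]
    rw [sum_add_distrib]
    congr 1
    by_cases hx : x ∈ B
    · rw [sum_eq_single x]
      · simp
      · intro y _ hne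
        rw [dl, if_neg (sub_ne_zero.2 hne.symm), mul_zero]
      · intro h'; exact absurd hx h'
    · rw [h x hx]
      symm
      refine sum_eq_zero fun y hy => ?_
      have hne : x ≠ y := fun h' => hx (h' ▸ hy)
      rw [dl, if_neg (sub_ne_zero.2 hne), mul_zero]

lemma sum_cnt_sq_le (B : Finset Γ) (L : List Γ) : ∑ y ∈ B, cnt L y ^ 2 ≤ dsum dl L := by
  have h1 : ∀ y, cnt L y ^ 2 = lsum (fun z => lsum (fun z' => dl (z - y) * dl (z' - y)) L) L := by
    intro y
    rw [sq, cnt, ← lsum_mul]
    congr 1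
    funext z
    rw [mul_comm, ← lsum_mul]
  simp_rw [h1]
  rw [← lsum_sum, dsum]
  refine lsum_mono fun z _ => ?_
  rw [← lsum_sum]
  refine lsum_mono fun z' _ => ?_
  by_cases h : z = z'
  · subst h
    rw [sub_self, dl_zero]
    calc ∑ y ∈ B, dl (z - y) * dl (z - y) ≤ ∑ y ∈ B, if z = y then (1:ℝ) else 0 := by
          refine sum_le_sum fun y _ => ?_
          rw [dl]
          by_cases h : z = y
          · subst h; simp
          · rw [if_neg (sub_ne_zero.2 h), if_neg h]; simp
      _ ≤ 1 := by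
          rw [sum_ite_eq]
          split_ifs <;> norm_num
  · rw [sum_eq_zero]
    · exact dl_nonneg _
    · intro y _
      by_cases h1 : z = y
      · have h2 : z' ≠ y := fun h' => h (h1.trans h'.symm)
        rw [dl, dl, if_neg (sub_ne_zero.2 h2), mul_zero]
      · rw [dl, if_neg (sub_ne_zero.2 h1), zero_mul]

/-- Young's inequality for the occupation field -/
lemma young_occ {f : Γ → ℝ} {B : Finset Γ} (h : ∀ y, y ∉ B → f y = 0) {a : ℝ} (ha : 0 < a)
    (L : List Γ) : lsum f L ≤ (∑ y ∈ B, f y ^ 2) / (2 * a) + a / 2 * dsum dl L := by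
  rw [lsum_eq_sum h, Finset.sum_div]
  calc ∑ y ∈ B, f y * cnt L y ≤ ∑ y ∈ B, (f y ^ 2 / (2 * a) + a / 2 * cnt L y ^ 2) := by
        refine sum_le_sum fun y _ => ?_
        have h1 : f y ^ 2 / (2 * a) + a / 2 * cnt L y ^ 2 - f y * cnt L y =
            (f y - a * cnt L y) ^ 2 / (2 * a) := by field_simp; ring
        have h2 : 0 ≤ (f y - a * cnt L y) ^ 2 / (2 * a) := by positivity
        linarith
    _ = ∑ y ∈ B, f y ^ 2 / (2 * a) + a / 2 * ∑ y ∈ B, cnt L y ^ 2 := by
        rw [sum_add_distrib, ← mul_sum]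
    _ ≤ _ := by
        gcongr
        exact sum_cnt_sq_le B L

/-- sub-exponential growth of the partition function with attraction `γ / n` -/
def Sub (σ : ι → Γ) (γ : ℝ) : Prop := ∀ c : ℝ, 1 < c → ∀ᶠ n : ℕ in atTop,
  EE σ n (fun L x => Real.exp (γ / n * psum dl (x :: L))) ≤ c ^ n

lemma top_range {σ : ι → Γ} {γ lam δ : ℝ} (hS : Sub σ γ) (h0 : 0 ≤ lam) (h : lam < γ)
    (hδ : 0 < δ) :
    ∃ M : ℝ, ∀ n : ℕ, 1 ≤ n → EE σ n (fun L x => Real.exp (lam / n * psum dl (x :: L)) *
      (if δ * (n:ℝ) ^ 2 ≤ psum dl (x :: L) then 1 else 0)) ≤ M := by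
  have hc : 1 < Real.exp ((γ - lam) * δ) := Real.one_lt_exp_iff.2 (mul_pos (by linarith) hδ)
  obtain ⟨N, hN⟩ := eventually_atTop.1 (hS _ hc)
  refine ⟨max 1 (Real.exp (lam * N)), fun n hn => ?_⟩
  have hn' : (1:ℝ) ≤ n := by exact_mod_cast hn
  have hn0 : (0:ℝ) < n := by linarith
  rcases Nat.lt_or_ge n N with hlt | hge
  · refine le_trans ?_ (le_max_right _ _)
    rw [← EE_const σ n (Real.exp (lam * N))]
    refine EE_mono σ fun L x hL => ?_
    have h1 := psum_dl_le L x hn hL
    have h2 : Real.exp (lam / n * psum dl (x :: L)) ≤ Real.exp (lam * N) := by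
      refine Real.exp_le_exp.2 ?_
      calc lam / n * psum dl (x :: L) ≤ lam / n * (n:ℝ) ^ 2 := by gcongr
        _ = lam * n := by field_simp
        _ ≤ lam * N := by
            have : (n:ℝ) ≤ N := by exact_mod_cast hlt.le
            gcongr
    split_ifs
    · rw [mul_one]; exact h2
    · rw [mul_zero]; exact (Real.exp_pos _).le
  · refine le_trans ?_ (le_max_left _ _)
    have h3 : ∀ (L : List Γ) (x : Γ), Real.exp (lam / n * psum dl (x :: L)) *
        (if δ * (n:ℝ) ^ 2 ≤ psum dl (x :: L) then 1 else 0) ≤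
        Real.exp (-((γ - lam) * δ * n)) * Real.exp (γ / n * psum dl (x :: L)) := by
      intro L x
      split_ifs with hI
      · rw [mul_one, ← Real.exp_add]
        refine Real.exp_le_exp.2 ?_
        have h4 : (γ - lam) * δ * n ≤ (γ - lam) / n * psum dl (x :: L) := by
          calc (γ - lam) * δ * n = (γ - lam) / n * (δ * (n:ℝ) ^ 2) := by field_simp
            _ ≤ _ := by
                have : 0 ≤ (γ - lam) / n := div_nonneg (by linarith) hn0.le
                gcongr
        have h5 : (γ - lam) / n * psum dl (x :: L) =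
            γ / n * psum dl (x :: L) - lam / n * psum dl (x :: L) := by ring
        linarith
      · rw [mul_zero]; positivity
    calc _ ≤ EE σ n (fun L x => Real.exp (-((γ - lam) * δ * n)) *
          Real.exp (γ / n * psum dl (x :: L))) := EE_mono σ fun L x _ => h3 L x
      _ = Real.exp (-((γ - lam) * δ * n)) *
          EE σ n (fun L x => Real.exp (γ / n * psum dl (x :: L))) := EE_mul σ n _ _
      _ ≤ Real.exp (-((γ - lam) * δ * n)) * Real.exp ((γ - lam) * δ) ^ n := by
          gcongr; exact hN n hge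
      _ = 1 := by
          rw [← Real.exp_nat_mul, ← Real.exp_add]
          have : -((γ - lam) * δ * n) + n * ((γ - lam) * δ) = 0 := by ring
          rw [this, Real.exp_zero]

end Pool.Agent.Helper95.Poly
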