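import Mathlib
import Pool.Agent.Helper95.PolyPair

set_option autoImplicit false
set_option linter.unusedSectionVars false

open Finset Filter

namespace Pool.Agent.Helper95.Poly

variable {Γ : Type*} [AddCommGroup Γ] [DecidableEq Γ] {ι : Type*} [Fintype ι] [Nonempty ι]
  (σ : ι → Γ)

lemma Pop_iter_const (c : ℝ) (k : ℕ) (x : Γ) : ((Pop σ)^[k] fun _ => c) x = c := by
  induction k generalizing x with
  | zero => rfl
  | succ k ih =>
    rw [Function.iterate_succ_apply']
    have : (Pop σ)^[k] (fun _ => c) = fun _ => c := funext ih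
    rw [this, Pop_const]

lemma Pop_iter_mono {u v : Γ → ℝ} (h : ∀ x, u x ≤ v x) (k : ℕ) (x : Γ) :
    ((Pop σ)^[k] u) x ≤ ((Pop σ)^[k] v) x := by
  induction k generalizing x with
  | zero => exact h x
  | succ k ih =>
    rw [Function.iterate_succ_apply', Function.iterate_succ_apply']; exact Pop_mono σ ih x

lemma Pop_iter_nonneg {u : Γ → ℝ} (h : ∀ x, 0 ≤ u x) (k : ℕ) (x : Γ) :
    0 ≤ ((Pop σ)^[k] u) x := by
  have := Pop_iter_mono σ h k x
  rwa [Pop_iter_const] at this

lemma Pop_iter_add (u v : Γ → ℝ) (k : ℕ) (x : Γ) :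
    ((Pop σ)^[k] fun y => u y + v y) x = ((Pop σ)^[k] u) x + ((Pop σ)^[k] v) x := by
  induction k generalizing x with
  | zero => rfl
  | succ k ih =>
    rw [Function.iterate_succ_apply', Function.iterate_succ_apply', Function.iterate_succ_apply']
    have : (Pop σ)^[k] (fun y => u y + v y) = fun y => ((Pop σ)^[k] u) y + ((Pop σ)^[k] v) y :=
      funext ih
    rw [this, Pop_add]

lemma Pop_iter_mul (c : ℝ) (u : Γ → ℝ) (k : ℕ) (x : Γ) :
    ((Pop σ)^[k] fun y => c * u y) x = c * ((Pop σ)^[k] u) x := by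
  induction k generalizing x with
  | zero => rfl
  | succ k ih =>
    rw [Function.iterate_succ_apply', Function.iterate_succ_apply']
    have : (Pop σ)^[k] (fun y => c * u y) = fun y => c * ((Pop σ)^[k] u) y := funext ih
    rw [this, Pop_mul]

lemma Pop_shift (u : Γ → ℝ) (z x : Γ) : Pop σ (fun y => u (y - z)) x = Pop σ u (x - z) := by
  rw [Pop, Pop]
  congr 1
  refine sum_congr rfl fun e _ => ?_
  congr 1; abel

lemma Pop_iter_shift (u : Γ → ℝ) (z : Γ) (k : ℕ) (x : Γ) :
    ((Pop σ)^[k] fun y => u (y - z)) x = ((Pop σ)^[k] u) (x - z) := by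
  induction k generalizing x with
  | zero => rfl
  | succ k ih =>
    rw [Function.iterate_succ_apply', Function.iterate_succ_apply']
    have : (Pop σ)^[k] (fun y => u (y - z)) = fun y => ((Pop σ)^[k] u) (y - z) := funext ih
    rw [this, Pop_shift]

lemma Pop_iter_lsum (F : Γ → Γ → ℝ) (L : List Γ) (k : ℕ) (x : Γ) :
    ((Pop σ)^[k] fun y => lsum (fun z => F z y) L) x = lsum (fun z => ((Pop σ)^[k] (F z)) x) L := by
  induction L with
  | nil => simp only [lsum_nil]; exact Pop_iter_const σ 0 k x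
  | cons z L ih => simp only [lsum_cons]; rw [Pop_iter_add, ih]

/-- truncated Green potential -/
noncomputable def Gk (u : Γ → ℝ) (N : ℕ) (x : Γ) : ℝ := ∑ k ∈ range N, ((Pop σ)^[k + 1] u) x

lemma Gk_nonneg {u : Γ → ℝ} (h : ∀ x, 0 ≤ u x) (N : ℕ) (x : Γ) : 0 ≤ Gk σ u N x :=
  sum_nonneg fun _ _ => Pop_iter_nonneg σ h _ x

lemma Gk_succ (u : Γ → ℝ) (N : ℕ) (x : Γ) :
    Gk σ u (N + 1) x = Pop σ (fun y => u y + Gk σ u N y) x := by
  rw [Pop_add]
  unfold Gk
  rw [sum_range_succ', add_comm, Pop_sum]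
  congr 1
  refine sum_congr rfl fun k _ => ?_
  rw [Function.iterate_succ_apply']

/-- one-step Khasminskii inequality -/
lemma khas_step {V : Γ → ℝ} (hV : ∀ x, 0 ≤ V x) (hV1 : ∀ x, V x ≤ 1 / 10) {N : ℕ}
    (hG : ∀ x, Gk σ V N x ≤ 1 / 4) (x : Γ) :
    Pop σ (fun y => Real.exp (V y) * (1 + 2 * Gk σ V N y)) x ≤ 1 + 2 * Gk σ V (N + 1) x := by
  calc Pop σ (fun y => Real.exp (V y) * (1 + 2 * Gk σ V N y)) x
      ≤ Pop σ (fun y => 1 + 2 * (V y + Gk σ V N y)) x := by
        refine Pop_mono σ (fun y => ?_) x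
        have h1 : Real.exp (V y) ≤ 1 + (11/10) * V y := by
          have h2 := Real.abs_exp_sub_one_sub_id_le (x := V y)
            (by rw [abs_of_nonneg (hV y)]; linarith [hV1 y])
          have h3 := (abs_le.1 h2).2
          nlinarith [hV y, hV1 y]
        have h4 := Gk_nonneg σ hV N y
        have h5 := hG y
        have h6 := hV y
        nlinarith
    _ = _ := by
        rw [Pop_add, Pop_const, Pop_mul, Gk_succ]

/-- truncated potential -/
noncomputable def Vt (θ n ε : ℝ) (L : List Γ) (y : Γ) : ℝ := θ / n * min (cnt L y) (ε * n)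

/-- accumulated truncated potential -/
noncomputable def acc (θ n ε : ℝ) : List Γ → ℝ
  | [] => 0
  | y :: L => acc θ n ε L + Vt θ n ε L y

lemma cnt_cons (x : Γ) (L : List Γ) (y : Γ) : cnt (x :: L) y = dl (x - y) + cnt L y := by
  rw [cnt, lsum_cons]; rfl

lemma Vt_nonneg {θ n ε : ℝ} (hθ : 0 ≤ θ) (hn : 0 < n) (hε : 0 ≤ ε) (L : List Γ) (y : Γ) :
    0 ≤ Vt θ n ε L y :=
  mul_nonneg (div_nonneg hθ hn.le) (le_min (cnt_nonneg L y) (mul_nonneg hε hn.le))

lemma Vt_le {θ n ε : ℝ} (hθ : 0 ≤ θ) (hn : 0 < n) (L : List Γ) (y : Γ) :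
    Vt θ n ε L y ≤ θ * ε := by
  calc Vt θ n ε L y ≤ θ / n * (ε * n) := by
        rw [Vt]
        exact mul_le_mul_of_nonneg_left (min_le_right _ _) (div_nonneg hθ hn.le)
    _ = θ * ε := by field_simp

lemma Vt_le_cnt {θ n ε : ℝ} (hθ : 0 ≤ θ) (hn : 0 < n) (L : List Γ) (y : Γ) :
    Vt θ n ε L y ≤ θ / n * cnt L y :=
  mul_le_mul_of_nonneg_left (min_le_left _ _) (div_nonneg hθ hn.le)

lemma Vt_cons {θ n ε : ℝ} (hθ : 0 ≤ θ) (hn : 0 < n) (x : Γ) (L : List Γ) (y : Γ) :
    Vt θ n ε (x :: L) y ≤ Vt θ n ε L y + θ / n * dl (y - x) := by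
  rw [Vt, Vt, ← mul_add]
  refine mul_le_mul_of_nonneg_left ?_ (div_nonneg hθ hn.le)
  rw [cnt_cons, ← dl_neg, neg_sub]
  have h := dl_nonneg (y - x)
  rcases le_total (cnt L y) (ε * n) with h1 | h1
  · rw [min_eq_left h1]
    refine (min_le_left _ _).trans ?_
    linarith
  · rw [min_eq_right h1]
    refine (min_le_right _ _).trans ?_
    linarith

lemma Gk_mono {u v : Γ → ℝ} (h : ∀ x, u x ≤ v x) (N : ℕ) (x : Γ) : Gk σ u N x ≤ Gk σ v N x :=
  sum_le_sum fun _ _ => Pop_iter_mono σ h _ x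

lemma Gk_add (u v : Γ → ℝ) (N : ℕ) (x : Γ) :
    Gk σ (fun y => u y + v y) N x = Gk σ u N x + Gk σ v N x := by
  unfold Gk; rw [← sum_add_distrib]; exact sum_congr rfl fun k _ => Pop_iter_add σ _ _ _ _

lemma Gk_mul (c : ℝ) (u : Γ → ℝ) (N : ℕ) (x : Γ) :
    Gk σ (fun y => c * u y) N x = c * Gk σ u N x := by
  unfold Gk; rw [mul_sum]; exact sum_congr rfl fun k _ => Pop_iter_mul σ _ _ _ _

variable {π : ℕ → ℝ}

lemma Gk_dl_le (hπ : ∀ k z, ((Pop σ)^[k] dl) z ≤ π k) (hs : Summable π) (N : ℕ) (z : Γ) :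
    Gk σ dl N z ≤ ∑' k, π k := by
  have hπ0 : ∀ k, 0 ≤ π k := fun k =>
    (Pop_iter_nonneg σ dl_nonneg k (0:Γ)).trans (hπ k 0)
  calc Gk σ dl N z ≤ ∑ k ∈ range N, π (k + 1) := sum_le_sum fun k _ => hπ _ _
    _ ≤ ∑ k ∈ range (N + 1), π k := by
        rw [sum_range_succ']
        linarith [hπ0 0]
    _ ≤ _ := hs.sum_le_tsum _ fun k _ => hπ0 k

/-- smallness of the Green potential of the truncated occupation field -/
lemma Gk_Vt_le (hπ : ∀ k z, ((Pop σ)^[k] dl) z ≤ π k) (hs : Summable π) {θ : ℝ} (hθ : 0 ≤ θ) :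
    ∃ ε : ℝ, 0 < ε ∧ θ * ε ≤ 1 / 10 ∧ ∀ n : ℕ, 1 ≤ n → ∀ L : List Γ, L.length ≤ n → ∀ N x,
      Gk σ (Vt θ n ε L) N x ≤ 1 / 4 := by
  have hπ0 : ∀ k, 0 ≤ π k := fun k =>
    (Pop_iter_nonneg σ dl_nonneg k (0:Γ)).trans (hπ k 0)
  have htail := tendsto_sum_nat_add π
  obtain ⟨K, hK⟩ := (htail.eventually_lt_const (show (0:ℝ) < 1 / (8 * (θ + 1)) by positivity)).exists
  refine ⟨1 / (10 * (θ + 1) * (K + 1)), by positivity, ?_, fun n hn L hL N x => ?_⟩
  · rw [mul_one_div, div_le_div_iff₀ (by positivity) (by norm_num)]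
    have : (0:ℝ) ≤ K := by positivity
    nlinarith
  set ε : ℝ := 1 / (10 * (θ + 1) * (K + 1)) with hε
  have hn0 : (0:ℝ) < n := by exact_mod_cast hn
  have hε0 : 0 ≤ ε := by positivity
  have b1 : ∀ k, ((Pop σ)^[k] (Vt θ n ε L)) x ≤ θ * ε := fun k => by
    have := Pop_iter_mono σ (u := Vt θ n ε L) (v := fun _ => θ * ε)
      (fun y => Vt_le hθ hn0 L y) k x
    rwa [Pop_iter_const] at this
  have b2 : ∀ k, ((Pop σ)^[k] (Vt θ n ε L)) x ≤ θ * π k := fun k => by
    calc ((Pop σ)^[k] (Vt θ n ε L)) x ≤ ((Pop σ)^[k] fun y => θ / n * cnt L y) x :=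
          Pop_iter_mono σ (fun y => Vt_le_cnt hθ hn0 L y) k x
      _ = θ / n * lsum (fun z => ((Pop σ)^[k] dl) (x - z)) L := by
          rw [Pop_iter_mul]
          congr 1
          have h1 : (cnt L : Γ → ℝ) = fun y => lsum (fun z => dl (y - z)) L := by
            funext y
            rw [cnt]
            congr 1
            funext z
            rw [← dl_neg, neg_sub]
          rw [h1, Pop_iter_lsum]
          congr 1
          funext z
          rw [Pop_iter_shift]
      _ ≤ θ / n * (L.length * π k) := by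
          gcongr
          exact lsum_le_length fun z _ => hπ k _
      _ ≤ θ / n * (n * π k) := by
          have : (L.length : ℝ) ≤ n := by exact_mod_cast hL
          have := hπ0 k
          gcongr
      _ = _ := by field_simp
  have h1 : ∀ M, Gk σ (Vt θ n ε L) M x ≤ Gk σ (Vt θ n ε L) (K + M) x := fun M => by
    unfold Gk
    refine sum_le_sum_of_subset_of_nonneg (range_mono (by omega)) fun k _ _ => ?_
    exact Pop_iter_nonneg σ (fun y => Vt_nonneg hθ hn0 hε0 L y) _ x
  refine (h1 N).trans ?_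
  unfold Gk
  rw [sum_range_add]
  have p1 : ∑ k ∈ range K, ((Pop σ)^[k + 1] (Vt θ n ε L)) x ≤ 1 / 10 := by
    calc _ ≤ ∑ _k ∈ range K, θ * ε := sum_le_sum fun _ _ => b1 _
      _ = K * (θ * ε) := by rw [sum_const, card_range, nsmul_eq_mul]
      _ ≤ 1 / 10 := by
          rw [hε, mul_one_div, mul_div_assoc', div_le_div_iff₀ (by positivity) (by norm_num)]
          have : (0:ℝ) ≤ K := by positivity
          nlinarith
  have p2 : ∑ k ∈ range N, ((Pop σ)^[K + k + 1] (Vt θ n ε L)) x ≤ 1 / 8 := by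
    calc _ ≤ ∑ k ∈ range N, θ * π (K + k + 1) := sum_le_sum fun k _ => b2 _
      _ = θ * ∑ k ∈ range N, π (K + k + 1) := by rw [mul_sum]
      _ ≤ θ * ∑' k, π (k + K) := by
          gcongr
          calc ∑ k ∈ range N, π (K + k + 1) ≤ ∑ k ∈ range (N + 1), π (k + K) := by
                rw [sum_range_succ']
                have h2 := hπ0 (0 + K)
                have h3 : ∑ k ∈ range N, π (K + k + 1) = ∑ k ∈ range N, π (k + 1 + K) :=
                  sum_congr rfl fun k _ => by congr 1; ring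
                linarith
            _ ≤ _ := ((summable_nat_add_iff K).2 hs).sum_le_tsum _ fun k _ => hπ0 _
      _ ≤ θ * (1 / (8 * (θ + 1))) := by gcongr
      _ ≤ 1 / 8 := by
          rw [mul_one_div, div_le_div_iff₀ (by positivity) (by norm_num)]
          nlinarith
  linarith

/-- exponential moment of the truncated self-interaction for transient walks -/
lemma acc_bound (hπ : ∀ k z, ((Pop σ)^[k] dl) z ≤ π k) (hs : Summable π) {θ ε : ℝ} (hθ : 0 ≤ θ)
    (hε : 0 < ε) (hθε : θ * ε ≤ 1 / 10)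
    (hG : ∀ n : ℕ, 1 ≤ n → ∀ L : List Γ, L.length ≤ n → ∀ N x, Gk σ (Vt θ n ε L) N x ≤ 1 / 4)
    (n : ℕ) (hn : 1 ≤ n) :
    EE σ n (fun L x => Real.exp (acc θ n ε (x :: L))) ≤ Real.exp (2 * θ * ∑' k, π k) := by
  have hn0 : (0:ℝ) < n := by exact_mod_cast hn
  set C : ℝ := 2 * θ * ∑' k, π k with hC
  have hπ0 : ∀ k, 0 ≤ π k := fun k =>
    (Pop_iter_nonneg σ dl_nonneg k (0:Γ)).trans (hπ k 0)
  have hC0 : 0 ≤ C := by
    have : 0 ≤ ∑' k, π k := tsum_nonneg hπ0
    positivity
  have hVn : ∀ (L : List Γ) y, 0 ≤ Vt θ n ε L y := fun L y => Vt_nonneg hθ hn0 hε.le L y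
  set F : List Γ → Γ → ℝ := fun L x => Real.exp (acc θ n ε (x :: L)) *
    (1 + 2 * Gk σ (Vt θ n ε L) (n - L.length) x) * Real.exp (-(C / n * L.length)) with hF
  have hsup : ∀ L x, L.length < n → Av σ F L x ≤ F L x := by
    intro L x hL
    have hstep := khas_step σ (hVn (x :: L)) (fun y => (Vt_le hθ hn0 _ _).trans hθε)
      (N := n - (L.length + 1)) (hG n hn (x :: L) (by simpa using hL) _) x
    have hlen : n - (L.length + 1) + 1 = n - L.length := by omega
    rw [hlen] at hstep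
    have h1 : Av σ F L x = Real.exp (acc θ n ε (x :: L)) *
        Pop σ (fun y => Real.exp (Vt θ n ε (x :: L) y) *
          (1 + 2 * Gk σ (Vt θ n ε (x :: L)) (n - (L.length + 1)) y)) x *
        Real.exp (-(C / n * (L.length + 1))) := by
      have e1 : ∀ e, F (x :: L) (x + σ e) = Real.exp (acc θ n ε (x :: L)) *
          Real.exp (-(C / n * (L.length + 1))) * (Real.exp (Vt θ n ε (x :: L) (x + σ e)) *
          (1 + 2 * Gk σ (Vt θ n ε (x :: L)) (n - (L.length + 1)) (x + σ e))) := by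
        intro e
        rw [hF]
        simp only [List.length_cons]
        rw [acc, Real.exp_add]
        push_cast
        ring
      rw [Av, Pop, sum_congr rfl (fun e _ => e1 e), ← mul_sum]
      ring
    rw [h1]
    have h2 : Gk σ (Vt θ n ε (x :: L)) (n - L.length) x ≤
        Gk σ (Vt θ n ε L) (n - L.length) x + θ / n * ∑' k, π k := by
      calc _ ≤ Gk σ (fun y => Vt θ n ε L y + θ / n * dl (y - x)) (n - L.length) x :=
            Gk_mono σ (fun y => Vt_cons hθ hn0 x L y) _ x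
        _ = Gk σ (Vt θ n ε L) (n - L.length) x + θ / n * Gk σ (fun y => dl (y - x)) (n - L.length) x := by
            rw [Gk_add, Gk_mul]
        _ ≤ _ := by
            gcongr
            calc Gk σ (fun y => dl (y - x)) (n - L.length) x = Gk σ dl (n - L.length) (x - x) := by
                  unfold Gk
                  exact sum_congr rfl fun k _ => Pop_iter_shift σ dl x _ x
              _ ≤ _ := Gk_dl_le σ hπ hs _ _
    have h3 : 0 ≤ Gk σ (Vt θ n ε L) (n - L.length) x := Gk_nonneg σ (hVn L) _ x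
    have h4 : 1 + 2 * Gk σ (Vt θ n ε (x :: L)) (n - L.length) x ≤
        (1 + 2 * Gk σ (Vt θ n ε L) (n - L.length) x) * Real.exp (C / n) := by
      have h5 : 1 + C / n ≤ Real.exp (C / n) := by
        have := Real.add_one_le_exp (C / n); linarith
      have h6 : 2 * (θ / n * ∑' k, π k) = C / n := by rw [hC]; ring
      have h7 : 0 ≤ C / n := div_nonneg hC0 hn0.le
      calc 1 + 2 * Gk σ (Vt θ n ε (x :: L)) (n - L.length) x
          ≤ 1 + 2 * Gk σ (Vt θ n ε L) (n - L.length) x + C / n := by linarith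
        _ ≤ (1 + 2 * Gk σ (Vt θ n ε L) (n - L.length) x) * (1 + C / n) := by nlinarith
        _ ≤ _ := by gcongr
    rw [hF]
    simp only
    have h8 : Real.exp (-(C / n * (L.length + 1))) * Real.exp (C / n) =
        Real.exp (-(C / n * L.length)) := by
      rw [← Real.exp_add]; congr 1; ring
    calc _ ≤ Real.exp (acc θ n ε (x :: L)) *
          ((1 + 2 * Gk σ (Vt θ n ε L) (n - L.length) x) * Real.exp (C / n)) *
          Real.exp (-(C / n * (L.length + 1))) := by
          gcongr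
          exact hstep.trans h4
      _ = _ := by rw [← h8]; ring
  have h9 := EE_super σ hsup
  have h10 : F [] 0 = 1 := by
    rw [hF]
    have hV0 : Vt θ n ε ([] : List Γ) = fun _ => 0 := by
      funext y
      rw [Vt]
      have : cnt ([] : List Γ) y = 0 := rfl
      rw [this, min_eq_left (by positivity), mul_zero]
    have hG0 : Gk σ (fun _ : Γ => (0:ℝ)) n 0 = 0 := by
      unfold Gk
      refine sum_eq_zero fun k _ => ?_
      rw [Pop_iter_const]
    simp only [acc, List.length_nil, Nat.sub_zero, hV0, hG0]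
    norm_num
  rw [h10] at h9
  have h11 : EE σ n (fun L x => Real.exp (acc θ n ε (x :: L))) ≤
      EE σ n (fun L x => Real.exp C * F L x) := by
    refine EE_mono σ fun L x hL => ?_
    rw [hF]
    simp only
    rw [hL]
    have h12 : Real.exp C * Real.exp (-(C / n * n)) = 1 := by
      rw [← Real.exp_add]
      have : C + -(C / n * n) = 0 := by field_simp; ring
      rw [this, Real.exp_zero]
    have h13 : 0 ≤ Gk σ (Vt θ n ε L) (n - n) x := Gk_nonneg σ (hVn L) _ x
    calc Real.exp (acc θ n ε (x :: L)) = Real.exp (acc θ n ε (x :: L)) * 1 *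
          (Real.exp C * Real.exp (-(C / n * n))) := by rw [h12]; ring
      _ ≤ Real.exp (acc θ n ε (x :: L)) * (1 + 2 * Gk σ (Vt θ n ε L) (n - n) x) *
          (Real.exp C * Real.exp (-(C / n * n))) := by
          gcongr
          linarith
      _ = _ := by ring
  rw [EE_mul] at h11
  calc _ ≤ _ := h11
    _ ≤ Real.exp C * 1 := by gcongr
    _ = _ := mul_one _

lemma acc_eq {θ n ε : ℝ} {L : List Γ} (h : ∀ y, cnt L y ≤ ε * n) :
    acc θ n ε L = θ / n * psum dl L := by
  induction L with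
  | nil => simp [acc]
  | cons x L ih =>
    have h1 : ∀ y, cnt L y ≤ ε * n := fun y => by
      have := h y
      rw [cnt_cons] at this
      linarith [dl_nonneg (x - y)]
    rw [acc, ih h1, psum_cons, Vt, min_eq_left (h1 x), mul_add]
    congr 2
    rw [cnt]
    congr 1
    funext z
    rw [← dl_neg, neg_sub]

/-- bounded exponential moments below the collapse scale, for transient walks -/
lemma high_below (hπ : ∀ k z, ((Pop σ)^[k] dl) z ≤ π k) (hs : Summable π) {θ : ℝ} (hθ : 0 ≤ θ) :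
    ∃ δ : ℝ, 0 < δ ∧ ∃ M : ℝ, ∀ n : ℕ, 1 ≤ n →
      EE σ n (fun L x => Real.exp (θ / n * psum dl (x :: L)) *
        (if δ * (n:ℝ) ^ 2 ≤ psum dl (x :: L) then 0 else 1)) ≤ M := by
  obtain ⟨ε, hε, hθε, hG⟩ := Gk_Vt_le σ hπ hs hθ
  refine ⟨ε ^ 2 / 4, by positivity, max (Real.exp (2 * θ * ∑' k, π k)) (Real.exp (θ * (4 / ε ^ 2))),
    fun n hn => ?_⟩
  have hn1 : (1:ℝ) ≤ n := by exact_mod_cast hn
  have hn0 : (0:ℝ) < n := by linarith
  rcases lt_or_ge (n:ℝ) (4 / ε ^ 2) with hlt | hge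
  · refine le_trans ?_ (le_max_right _ _)
    rw [← EE_const σ n (Real.exp (θ * (4 / ε ^ 2)))]
    refine EE_mono σ fun L x hL => ?_
    have h1 := psum_dl_le L x hn hL
    have h2 : Real.exp (θ / n * psum dl (x :: L)) ≤ Real.exp (θ * (4 / ε ^ 2)) := by
      refine Real.exp_le_exp.2 ?_
      calc θ / n * psum dl (x :: L) ≤ θ / n * (n:ℝ) ^ 2 := by gcongr
        _ = θ * n := by field_simp
        _ ≤ _ := by gcongr
    split_ifs
    · rw [mul_zero]; exact (Real.exp_pos _).le
    · rw [mul_one]; exact h2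
  · refine le_trans ?_ (le_max_left _ _)
    refine le_trans ?_ (acc_bound σ hπ hs hθ hε hθε hG n hn)
    refine EE_mono σ fun L x hL => ?_
    split_ifs with h1
    · rw [mul_zero]; exact (Real.exp_pos _).le
    · rw [mul_one]
      push Not at h1
      rw [acc_eq]
      intro y
      have h2 := sum_cnt_sq_le {y} (x :: L)
      rw [sum_singleton, dsum_eq dl_neg, dl_zero, List.length_cons, hL] at h2
      push_cast at h2
      refine abs_le_of_sq_le_sq' ?_ (by positivity) |>.2
      have h3 : 2 * (ε ^ 2 / 4 * (n:ℝ) ^ 2) + (n + 1) ≤ (ε * n) ^ 2 := by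
        have h4 : 4 ≤ ε ^ 2 * n := by
          rw [div_le_iff₀ (by positivity)] at hge
          linarith
        have h5 : 4 * (n:ℝ) ≤ ε ^ 2 * (n:ℝ) ^ 2 := by nlinarith
        nlinarith
      nlinarith

end Pool.Agent.Helper95.Poly
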