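import Mathlib

set_option autoImplicit false
set_option linter.unusedSectionVars false

open Finset

namespace Pool.Agent.Helper95.Poly

/-- transition probabilities of the one-dimensional simple random walk -/
noncomputable def bk : ℕ → ℤ → ℝ
  | 0, u => if u = 0 then 1 else 0
  | k + 1, u => (bk k (u - 1) + bk k (u + 1)) / 2

lemma bk_zero (u : ℤ) : bk 0 u = if u = 0 then 1 else 0 := rfl

lemma bk_succ (k : ℕ) (u : ℤ) : bk (k + 1) u = (bk k (u - 1) + bk k (u + 1)) / 2 := rfl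

lemma bk_nonneg (k : ℕ) (u : ℤ) : 0 ≤ bk k u := by
  induction k generalizing u with
  | zero => rw [bk_zero]; split_ifs <;> norm_num
  | succ k ih => rw [bk_succ]; have := ih (u - 1); have := ih (u + 1); positivity

lemma bk_neg (k : ℕ) (u : ℤ) : bk k (-u) = bk k u := by
  induction k generalizing u with
  | zero => rw [bk_zero, bk_zero]; simp
  | succ k ih =>
    rw [bk_succ, bk_succ, ← ih (-u - 1), ← ih (-u + 1)]
    have h1 : -(-u - 1) = u + 1 := by ring
    have h2 : -(-u + 1) = u - 1 := by ring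
    rw [h1, h2, add_comm]

lemma bk_supp {k : ℕ} {u : ℤ} (h : (k:ℤ) < |u|) : bk k u = 0 := by
  induction k generalizing u with
  | zero =>
    rw [bk_zero, if_neg]
    rintro rfl
    simp at h
  | succ k ih =>
    push_cast at h
    have h1 : (k:ℤ) < |u - 1| := by
      have := abs_sub_abs_le_abs_sub u 1
      rw [abs_one] at this
      linarith
    have h2 : (k:ℤ) < |u + 1| := by
      have := abs_sub_abs_le_abs_sub u (-1)
      rw [abs_neg, abs_one, sub_neg_eq_add] at this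
      linarith
    rw [bk_succ, ih h1, ih h2]; simp

lemma bk_ratio (k : ℕ) (u : ℤ) :
    ((k:ℝ) + 1 + u) * bk k (u + 1) = ((k:ℝ) + 1 - u) * bk k (u - 1) := by
  induction k generalizing u with
  | zero =>
    rw [bk_zero, bk_zero]
    by_cases h1 : u + 1 = 0
    · have h2 : u = -1 := by omega
      subst h2; norm_num
    · by_cases h2 : u - 1 = 0
      · have h3 : u = 1 := by omega
        subst h3; norm_num
      · rw [if_neg h1, if_neg h2]; ring
  | succ k ih =>
    have a1 := ih (u + 1)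
    have a2 := ih (u - 1)
    rw [bk_succ, bk_succ]
    have e1 : u + 1 - 1 = u := by ring
    have e2 : u - 1 + 1 = u := by ring
    rw [e1] at a1 ⊢
    rw [e2] at a2 ⊢
    push_cast at a1 a2 ⊢
    linear_combination (1/2) * a1 + (1/2) * a2

lemma bk_next (k : ℕ) (u : ℤ) :
    ((k:ℝ) + 2 + u) * bk (k + 1) (u + 1) = ((k:ℝ) + 1) * bk k u := by
  have a1 := bk_ratio k (u + 1)
  rw [bk_succ]
  have e1 : u + 1 - 1 = u := by ring
  rw [e1] at a1 ⊢
  push_cast at a1 ⊢
  linear_combination (1/2) * a1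

lemma bk_grad (k : ℕ) (u : ℤ) :
    ((k:ℝ) + 1) * (bk k (u + 1) - bk k (u - 1)) = -2 * u * bk (k + 1) u := by
  have a1 := bk_ratio k u
  rw [bk_succ]
  linear_combination a1

lemma bk_one (k : ℕ) : bk k 1 = bk (k + 1) 0 := by
  rw [bk_succ]
  have h := bk_neg k 1
  norm_num at h ⊢
  rw [h]; ring

lemma bk_two (k : ℕ) : ((k:ℝ) + 2) * bk (k + 2) 0 = ((k:ℝ) + 1) * bk k 0 := by
  have h := bk_next k 0
  have h2 := bk_one (k + 1)
  norm_num at h
  rw [← h, h2]

lemma bk_zero_sq (k : ℕ) : bk k 0 ^ 2 * ((k:ℝ) + 1) ≤ 1 := by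
  induction k using Nat.strong_induction_on with
  | _ k ih =>
    match k with
    | 0 => simp [bk_zero]
    | 1 => rw [bk_succ]; simp [bk_zero]
    | k + 2 =>
      have h1 := ih k (by omega)
      have h2 := bk_two k
      have h3 := bk_nonneg k 0
      have hk : (0:ℝ) < (k:ℝ) + 2 := by positivity
      have h4 : bk (k + 2) 0 = ((k:ℝ) + 1) * bk k 0 / ((k:ℝ) + 2) := by
        rw [eq_div_iff hk.ne', mul_comm]; exact h2
      rw [h4]
      push_cast
      rw [div_pow, mul_pow, div_mul_eq_mul_div, div_le_one (by positivity)]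
      have h5 : ((k:ℝ) + 1) * ((k:ℝ) + 2 + 1) ≤ ((k:ℝ) + 2) ^ 2 := by nlinarith
      calc ((k:ℝ) + 1) ^ 2 * bk k 0 ^ 2 * ((k:ℝ) + 2 + 1)
          = (bk k 0 ^ 2 * ((k:ℝ) + 1)) * (((k:ℝ) + 1) * ((k:ℝ) + 2 + 1)) := by ring
        _ ≤ 1 * ((k:ℝ) + 2) ^ 2 := by gcongr
        _ = _ := one_mul _

lemma bk_unimodal (k : ℕ) {u : ℤ} (hu : 0 ≤ u) : bk k (u + 2) ≤ bk k u := by
  have h := bk_ratio k (u + 1)
  have e1 : u + 1 + 1 = u + 2 := by ring
  have e2 : u + 1 - 1 = u := by ring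
  rw [e1, e2] at h
  push_cast at h
  have hu' : (0:ℝ) ≤ u := by exact_mod_cast hu
  have h1 := bk_nonneg k u
  have hpos : (0:ℝ) < (k:ℝ) + 1 + (u + 1) := by positivity
  by_contra hc
  push Not at hc
  have h2 : ((k:ℝ) + 1 + (u + 1)) * bk k u < ((k:ℝ) + 1 + (u + 1)) * bk k (u + 2) := by gcongr
  rw [h] at h2
  nlinarith

lemma bk_sq (k : ℕ) (u : ℤ) : bk k u ^ 2 * ((k:ℝ) + 1) ≤ 1 := by
  have h0 := bk_zero_sq k
  have h1 : bk k 1 ^ 2 * ((k:ℝ) + 1) ≤ 1 := by
    rw [bk_one]
    have := bk_zero_sq (k + 1)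
    push_cast at this
    nlinarith [sq_nonneg (bk (k + 1) 0)]
  have key : ∀ n : ℕ, bk k n ^ 2 * ((k:ℝ) + 1) ≤ 1 := by
    intro n
    induction n using Nat.strong_induction_on with
    | _ n ih =>
      match n with
      | 0 => simpa using h0
      | 1 => simpa using h1
      | n + 2 =>
        refine le_trans ?_ (ih n (by omega))
        have h3 := bk_unimodal k (u := (n:ℤ)) (by positivity)
        have h4 := bk_nonneg k ((n:ℤ) + 2)
        push_cast
        gcongr
  rcases Int.natAbs_eq u with h | h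
  · rw [h]; exact key _
  · rw [h, bk_neg]; exact key _

lemma bk_le (k : ℕ) (u : ℤ) : bk k u ≤ 1 / Real.sqrt ((k:ℝ) + 1) := by
  have h := bk_sq k u
  have hk : (0:ℝ) < (k:ℝ) + 1 := by positivity
  rw [le_div_iff₀ (Real.sqrt_pos.2 hk)]
  refine abs_le_of_sq_le_sq' ?_ (by norm_num) |>.2
  rw [mul_pow, Real.sq_sqrt hk.le]
  simpa using h

lemma bk_le_one (k : ℕ) (u : ℤ) : bk k u ≤ 1 := by
  have h := bk_sq k u
  have h0 := bk_nonneg k u
  have hk : (0:ℝ) ≤ (k:ℝ) := by positivity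
  nlinarith [sq_nonneg (bk k u)]

lemma cube_step {m y : ℝ} (hm : 0 ≤ m) (hy : 6 * m + 3 ≤ y) :
    m * (y ^ 2 * (y + 3)) ≤ (m + 1) * (y - 1) ^ 3 := by
  have h1 : (m + 1) * (y - 1) ^ 3 - m * (y ^ 2 * (y + 3)) =
      y ^ 2 * (y - (6 * m + 3)) + (m + 1) * (3 * y - 1) := by ring
  have h2 : 0 ≤ y ^ 2 * (y - (6 * m + 3)) := mul_nonneg (sq_nonneg _) (by linarith)
  have h3 : 0 ≤ (m + 1) * (3 * y - 1) := mul_nonneg (by linarith) (by linarith)
  linarith

lemma bk_cube_nat (k n : ℕ) : bk k n * ((n:ℝ) + 1) ^ 3 ≤ 27 * ((k:ℝ) + 1) := by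
  induction k generalizing n with
  | zero =>
    rw [bk_zero]
    by_cases h : (n:ℤ) = 0
    · have h1 : n = 0 := by exact_mod_cast h
      subst h1; norm_num
    · rw [if_neg h]; norm_num
  | succ k ih =>
    have hx : (0:ℝ) < (n:ℝ) + 1 := by positivity
    rcases le_or_gt (((n:ℝ) + 1) ^ 2) (9 * ((k:ℝ) + 1 + 1)) with h | h
    · have h1 := bk_sq (k + 1) (n:ℤ)
      push_cast at h1 ⊢
      have hk : (0:ℝ) < (k:ℝ) + 1 + 1 := by positivity
      refine abs_le_of_sq_le_sq' ?_ (by positivity) |>.2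
      have h2 : (((n:ℝ) + 1) ^ 2) ^ 3 ≤ (9 * ((k:ℝ) + 1 + 1)) ^ 3 := by gcongr
      calc (bk (k + 1) n * ((n:ℝ) + 1) ^ 3) ^ 2 = bk (k + 1) n ^ 2 * (((n:ℝ) + 1) ^ 2) ^ 3 := by ring
        _ ≤ bk (k + 1) n ^ 2 * (9 * ((k:ℝ) + 1 + 1)) ^ 3 := by gcongr
        _ = (bk (k + 1) n ^ 2 * ((k:ℝ) + 1 + 1)) * (729 * ((k:ℝ) + 1 + 1) ^ 2) := by ring
        _ ≤ 1 * (729 * ((k:ℝ) + 1 + 1) ^ 2) := by gcongr
        _ = _ := by ring
    · have hn : 1 ≤ n := by
        by_contra hc
        have : n = 0 := by omega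
        subst this
        have : (0:ℝ) ≤ k := by positivity
        norm_num at h
        linarith
      obtain ⟨m, rfl⟩ : ∃ m, n = m + 1 := ⟨n - 1, by omega⟩
      have h1 := ih m
      have h2 := ih (m + 2)
      rw [bk_succ]
      have e1 : ((m + 1 : ℕ) : ℤ) - 1 = (m:ℤ) := by push_cast; ring
      have e2 : ((m + 1 : ℕ) : ℤ) + 1 = ((m + 2 : ℕ) : ℤ) := by push_cast; ring
      rw [e1, e2]
      push_cast at h h1 h2 ⊢
      set p := bk k (m:ℤ)
      set r := bk k ((m:ℤ) + 2)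
      set x : ℝ := (m:ℝ) + 1 + 1 with hxdef
      have hm0 : (0:ℝ) ≤ m := by positivity
      have hx1 : 0 < x - 1 := by rw [hxdef]; linarith
      have e3 : (m:ℝ) + 1 = x - 1 := by rw [hxdef]; ring
      have e4 : (m:ℝ) + 2 + 1 = x + 1 := by rw [hxdef]; ring
      rw [e3] at h1
      rw [e4] at h2
      have h3 : p ≤ 27 * ((k:ℝ) + 1) / (x - 1) ^ 3 := by
        rw [le_div_iff₀ (by positivity)]; exact h1
      have h4 : r ≤ 27 * ((k:ℝ) + 1) / (x + 1) ^ 3 := by
        rw [le_div_iff₀ (by positivity)]; exact h2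
      have hk0 : (0:ℝ) ≤ k := by positivity
      have h5 := cube_step (m := (k:ℝ) + 1) (y := x ^ 2) (by positivity) (by linarith)
      have hx2 : 0 < x ^ 2 - 1 := by nlinarith
      calc (p + r) / 2 * x ^ 3
          ≤ (27 * ((k:ℝ) + 1) / (x - 1) ^ 3 + 27 * ((k:ℝ) + 1) / (x + 1) ^ 3) / 2 * x ^ 3 := by
            gcongr
        _ = 27 * (((k:ℝ) + 1) * ((x ^ 2) ^ 2 * (x ^ 2 + 3)) / (x ^ 2 - 1) ^ 3) := by
            have e5 : x ^ 2 - 1 = (x - 1) * (x + 1) := by ring
            rw [e5]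
            have : x + 1 ≠ 0 := by positivity
            have : x - 1 ≠ 0 := hx1.ne'
            field_simp
            ring
        _ ≤ 27 * ((k:ℝ) + 1 + 1) := by
            gcongr
            rw [div_le_iff₀ (by positivity)]
            exact h5

lemma bk_cube (k : ℕ) (u : ℤ) : bk k u * (|(u:ℝ)| + 1) ^ 3 ≤ 27 * ((k:ℝ) + 1) := by
  have h := bk_cube_nat k u.natAbs
  have e1 : bk k (u.natAbs : ℤ) = bk k u := by
    rcases Int.natAbs_eq u with h | h
    · rw [← h]
    · conv_rhs => rw [h, bk_neg]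
  have e2 : ((u.natAbs : ℕ) : ℝ) = |(u:ℝ)| := by
    rw [Nat.cast_natAbs, Int.cast_abs]
  rw [e1, e2] at h
  exact h

/-- one-dimensional transition operator -/
noncomputable def P1 {A : Type*} [AddGroupWithOne A] (u : A → ℝ) (x : A) : ℝ :=
  (u (x + 1) + u (x - 1)) / 2

lemma bk_finite (k : ℕ) : (Function.support (bk k)).Finite := by
  refine (Set.finite_Icc (-(k:ℤ)) k).subset fun u hu => ?_
  rw [Function.mem_support] at hu
  by_contra hc
  apply hu
  apply bk_supp
  rw [Set.mem_Icc, ← abs_le] at hc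
  exact not_le.1 hc

lemma bk_summable (k : ℕ) (f : ℤ → ℝ) : Summable fun j => bk k j * f j := by
  refine summable_of_hasFiniteSupport ((bk_finite k).subset ?_)
  intro j hj
  rw [Function.mem_support] at hj ⊢
  exact left_ne_zero_of_mul hj

lemma P1_iter {A : Type*} [AddGroupWithOne A] (k : ℕ) (u : A → ℝ) (x : A) :
    (P1^[k] u) x = ∑' j : ℤ, bk k j * u (x + j) := by
  induction k generalizing x with
  | zero =>
    rw [tsum_eq_single 0]
    · simp [bk_zero]
    · intro j hj; rw [bk_zero, if_neg hj, zero_mul]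
  | succ k ih =>
    rw [Function.iterate_succ_apply', P1, ih, ih]
    have h1 : ∑' j : ℤ, bk k j * u (x + 1 + j) = ∑' j : ℤ, bk k (j - 1) * u (x + j) := by
      rw [← (Equiv.subRight (1:ℤ)).tsum_eq]
      refine tsum_congr fun j => ?_
      simp only [Equiv.subRight_apply]
      have h3 : x + 1 + ((j - 1 : ℤ) : A) = x + (j : A) := by
        rw [add_assoc, ← Int.cast_one, ← Int.cast_add]
        congr 2; ring
      rw [h3]
    have h2 : ∑' j : ℤ, bk k j * u (x - 1 + j) = ∑' j : ℤ, bk k (j + 1) * u (x + j) := by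
      rw [← (Equiv.addRight (1:ℤ)).tsum_eq]
      refine tsum_congr fun j => ?_
      simp only [Equiv.coe_addRight]
      have h3 : x - 1 + ((j + 1 : ℤ) : A) = x + (j : A) := by
        rw [sub_eq_add_neg, add_assoc, ← Int.cast_one, ← Int.cast_neg, ← Int.cast_add]
        congr 2; ring
      rw [h3]
    have s1 : Summable fun j : ℤ => bk k (j - 1) * u (x + j) := by
      refine summable_of_hasFiniteSupport (((bk_finite k).preimage
        ((sub_left_injective (b := (1:ℤ))).injOn)).subset ?_)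
      intro j hj
      rw [Function.mem_support] at hj
      exact left_ne_zero_of_mul hj
    have s2 : Summable fun j : ℤ => bk k (j + 1) * u (x + j) := by
      refine summable_of_hasFiniteSupport (((bk_finite k).preimage
        ((add_left_injective (1:ℤ)).injOn)).subset ?_)
      intro j hj
      rw [Function.mem_support] at hj
      exact left_ne_zero_of_mul hj
    rw [h1, h2, ← s1.tsum_add s2, ← tsum_div_const]
    refine tsum_congr fun j => ?_
    rw [bk_succ]; ring

end Pool.Agent.Helper95.Poly
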