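import Mathlib
import Pool.Agent.Helper95.PolyPair

set_option autoImplicit false
set_option linter.unusedSectionVars false

open Finset Filter

namespace Pool.Agent.Helper95.Poly

variable {Γ : Type*} [AddCommGroup Γ] [DecidableEq Γ] {ι : Type*} [Fintype ι] [Nonempty ι]
  (σ : ι → Γ)

/-- inner product over a finite set -/
def ip (B : Finset Γ) (u v : Γ → ℝ) : ℝ := ∑ x ∈ B, u x * v x

lemma Pop_symm (ν : Equiv.Perm ι) (hν : ∀ e, σ (ν e) = -σ e) (B : Finset Γ) {u v : Γ → ℝ}
    (hu : ∀ y, y ∉ B → u y = 0) (hv : ∀ y, y ∉ B → v y = 0) :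
    ip B u (Pop σ v) = ip B (Pop σ u) v := by
  have hexp : ∀ {g : Γ → ℝ}, (∀ y, y ∉ B → g y = 0) → ∀ z, g z = ∑ y ∈ B, if z = y then g y else 0 := by
    intro g hg z
    rw [sum_ite_eq]
    split_ifs with h
    · rfl
    · exact hg z h
  have h1 : ip B u (Pop σ v) =
      (∑ x ∈ B, ∑ y ∈ B, ∑ e, if x + σ e = y then u x * v y else 0) / Fintype.card ι := by
    rw [ip, Finset.sum_div]
    refine sum_congr rfl fun x _ => ?_
    rw [Pop, sum_comm, mul_div_assoc', mul_sum]
    congr 1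
    refine sum_congr rfl fun e _ => ?_
    rw [hexp hv (x + σ e), mul_sum]
    refine sum_congr rfl fun y _ => ?_
    split_ifs <;> simp
  have h2 : ip B (Pop σ u) v =
      (∑ y ∈ B, ∑ x ∈ B, ∑ e, if y + σ e = x then u x * v y else 0) / Fintype.card ι := by
    rw [ip, Finset.sum_div]
    refine sum_congr rfl fun y _ => ?_
    rw [Pop, sum_comm, div_mul_eq_mul_div, sum_mul]
    congr 1
    refine sum_congr rfl fun e _ => ?_
    rw [hexp hu (y + σ e), sum_mul]
    refine sum_congr rfl fun x _ => ?_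
    split_ifs <;> simp
  rw [h1, h2, sum_comm]
  congr 1
  refine sum_congr rfl fun y _ => sum_congr rfl fun x _ => ?_
  rw [← Equiv.sum_comp ν]
  refine sum_congr rfl fun e _ => ?_
  have : x + σ (ν e) = y ↔ y + σ e = x := by
    rw [hν]
    constructor
    · intro h; rw [← h]; abel
    · intro h; rw [← h]; abel
  simp only [this]

lemma ip_nonneg {B : Finset Γ} {u v : Γ → ℝ} (hu : ∀ x, 0 ≤ u x) (hv : ∀ x, 0 ≤ v x) :
    0 ≤ ip B u v := sum_nonneg fun x _ => mul_nonneg (hu x) (hv x)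

/-- translation of Feynman–Kac -/
lemma FK_shift (f u : Γ → ℝ) (x : Γ) (m : ℕ) (y : Γ) :
    ((FK σ (fun z => f (x + z)))^[m] fun z => u (x + z)) y = ((FK σ f)^[m] u) (x + y) := by
  induction m generalizing y with
  | zero => rfl
  | succ m ih =>
    rw [Function.iterate_succ_apply', Function.iterate_succ_apply', FK, FK, Pop, Pop]
    congr 2
    refine sum_congr rfl fun e _ => ?_
    rw [ih, add_assoc]

lemma Psi_le {γ : ℝ} (hγ : 0 < γ) (B : Finset Γ) {f : Γ → ℝ} (hf : ∀ y, y ∉ B → f y = 0)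
    {m : ℕ} (hm : 1 ≤ m) (x : Γ) :
    ((FK σ f)^[m] fun y => Real.exp (f y)) x ≤
      Real.exp (m * ((∑ y ∈ B, f y ^ 2) / (2 * γ)) + γ) *
        EE σ m (fun L x => Real.exp (γ / m * psum dl (x :: L))) := by
  have hm1 : (1:ℝ) ≤ m := by exact_mod_cast hm
  have hm0 : (0:ℝ) < m := by linarith
  have h1 := FK_shift σ f (fun y => Real.exp (f y)) x m 0
  rw [add_zero] at h1
  rw [← h1, ← EE_exp, ← EE_mul]
  refine EE_mono σ fun L z hL => ?_
  rw [← Real.exp_add]
  refine Real.exp_le_exp.2 ?_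
  set B' : Finset Γ := B.image (fun y => y - x) with hB'
  have hf' : ∀ y, y ∉ B' → f (x + y) = 0 := by
    intro y hy
    refine hf _ fun h => hy ?_
    rw [hB', mem_image]
    exact ⟨x + y, h, by abel⟩
  have h2 := young_occ hf' (show 0 < γ / m by positivity) (z :: L)
  have h3 : ∑ y ∈ B', f (x + y) ^ 2 = ∑ y ∈ B, f y ^ 2 := by
    rw [hB', sum_image (fun a _ b _ h => sub_left_injective h)]
    refine sum_congr rfl fun y _ => ?_
    rw [add_sub_cancel]
  rw [h3, dsum_eq dl_neg, dl_zero, List.length_cons, hL] at h2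
  refine h2.trans ?_
  have h4 : (∑ y ∈ B, f y ^ 2) / (2 * (γ / m)) = m * ((∑ y ∈ B, f y ^ 2) / (2 * γ)) := by
    field_simp
  rw [h4]
  have h5 : γ / m / 2 * (2 * psum dl (z :: L) + ((m + 1 : ℕ) : ℝ) * 1) ≤
      γ / m * psum dl (z :: L) + γ := by
    have h6 : γ / m / 2 * (2 * psum dl (z :: L) + ((m + 1 : ℕ) : ℝ) * 1) =
        γ / m * psum dl (z :: L) + γ * ((m + 1) / (2 * m)) := by
      push_cast; field_simp
    rw [h6]
    have h7 : ((m:ℝ) + 1) / (2 * m) ≤ 1 := by
      rw [div_le_one (by positivity)]; linarith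
    nlinarith
  linarith

lemma growth {r E K : ℝ} (hE : 0 < E)
    (h : ∀ c : ℝ, 1 < c → ∀ᶠ k : ℕ in atTop, r ^ (2 ^ k) ≤ K * (E * c) ^ (2 ^ k)) : r ≤ E := by
  by_contra hc
  push Not at hc
  set c := (1 + r / E) / 2 with hcd
  have h1 : 1 < r / E := by rw [lt_div_iff₀ hE]; linarith
  have hc1 : 1 < c := by rw [hcd]; linarith
  have hc2 : c < r / E := by rw [hcd]; linarith
  have hcE : E * c < r := by
    rw [lt_div_iff₀ hE] at hc2; linarith
  have hcE0 : 0 < E * c := by positivity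
  set q := r / (E * c) with hq
  have hq1 : 1 < q := by rw [hq, one_lt_div hcE0]; exact hcE
  have h2 : ∀ᶠ k : ℕ in atTop, q ^ (2 ^ k) ≤ K := by
    filter_upwards [h c hc1] with k hk
    rw [hq, div_pow, div_le_iff₀ (by positivity)]
    exact hk
  have h3 : Tendsto (fun k : ℕ => q ^ (2 ^ k)) atTop atTop :=
    (tendsto_pow_atTop_atTop_of_one_lt hq1).comp
      (tendsto_pow_atTop_atTop_of_one_lt (r := (2:ℕ)) (by norm_num))
  obtain ⟨k, hk1, hk2⟩ := (h2.and (h3.eventually_gt_atTop K)).exists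
  linarith

/-- functional inequality on `Γ` from sub-exponential growth -/
theorem star {γ : ℝ} (hγ : 0 < γ) (hS : Sub σ γ) (ν : Equiv.Perm ι) (hν : ∀ e, σ (ν e) = -σ e)
    (B : Finset Γ) {f φ : Γ → ℝ} (hf : ∀ y, y ∉ B → f y = 0) (hφ : ∀ y, y ∉ B → φ y = 0)
    (hφ0 : ∀ y, 0 ≤ φ y) :
    ∑ x ∈ B, φ x * (Real.exp (f x / 2) * Pop σ (fun y => Real.exp (f y / 2) * φ y) x) ≤
      Real.exp ((∑ y ∈ B, f y ^ 2) / (2 * γ)) * ∑ x ∈ B, φ x ^ 2 := by
  set w : Γ → ℝ := fun y => Real.exp (f y / 2) with hw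
  have hw0 : ∀ y, 0 < w y := fun y => Real.exp_pos _
  set TB : (Γ → ℝ) → (Γ → ℝ) := fun u x => if x ∈ B then w x * Pop σ (fun y => w y * u y) x else 0
    with hTB
  have hTBs : ∀ u y, y ∉ B → TB u y = 0 := fun u y hy => if_neg hy
  have hvs : ∀ j, ∀ y, y ∉ B → (TB^[j] φ) y = 0 := by
    intro j y hy
    cases j with
    | zero => exact hφ y hy
    | succ j => rw [Function.iterate_succ_apply']; exact hTBs _ y hy
  have hsymm : ∀ u v : Γ → ℝ, (∀ y, y ∉ B → u y = 0) → (∀ y, y ∉ B → v y = 0) →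
      ip B u (TB v) = ip B (TB u) v := by
    intro u v hu hv
    have h1 := Pop_symm σ ν hν B (u := fun y => w y * u y) (v := fun y => w y * v y)
      (fun y hy => by simp only [hu y hy, mul_zero]) (fun y hy => by simp only [hv y hy, mul_zero])
    have h2 : ip B u (TB v) = ip B (fun y => w y * u y) (Pop σ fun y => w y * v y) := by
      refine sum_congr rfl fun x hx => ?_
      simp only [hTB, if_pos hx]; ring
    have h3 : ip B (TB u) v = ip B (Pop σ fun y => w y * u y) (fun y => w y * v y) := by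
      refine sum_congr rfl fun x hx => ?_
      simp only [hTB, if_pos hx]; ring
    rw [h2, h3, h1]
  have hshift : ∀ i j, ip B (TB^[i] φ) (TB^[j] φ) = ip B φ (TB^[i + j] φ) := by
    intro i
    induction i with
    | zero => intro j; rw [Nat.zero_add]; rfl
    | succ i ih =>
      intro j
      rw [Function.iterate_succ_apply', ← hsymm _ _ (hvs i) (hvs j),
        ← Function.iterate_succ_apply' TB j φ, ih]
      have : i + (j + 1) = i + 1 + j := by ring
      rw [this]
  have hsum2 : ∑ x ∈ B, φ x ^ 2 = ip B φ φ := sum_congr rfl fun x _ => sq _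
  have hmain : ∑ x ∈ B, φ x * (Real.exp (f x / 2) * Pop σ (fun y => Real.exp (f y / 2) * φ y) x) =
      ip B φ (TB^[1] φ) := by
    refine sum_congr rfl fun x hx => ?_
    simp only [Function.iterate_one, hTB, if_pos hx, hw]
  rw [hmain, hsum2]
  set N := ip B φ φ with hN
  have hN0 : 0 ≤ N := ip_nonneg hφ0 hφ0
  have hTB0 : ∀ u : Γ → ℝ, (∀ x, 0 ≤ u x) → ∀ x, 0 ≤ TB u x := by
    intro u hu x
    simp only [hTB]
    split_ifs
    · exact mul_nonneg (hw0 x).le (Pop_nonneg σ (fun y => mul_nonneg (hw0 y).le (hu y)) x)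
    · exact le_rfl
  have hv0 : ∀ j x, 0 ≤ (TB^[j] φ) x := by
    intro j
    induction j with
    | zero => exact hφ0
    | succ j ih => rw [Function.iterate_succ_apply']; exact hTB0 _ ih
  set α : ℕ → ℝ := fun j => ip B φ (TB^[j] φ) with hα
  have hα0 : ∀ j, 0 ≤ α j := fun j => ip_nonneg hφ0 (hv0 j)
  rcases hN0.eq_or_lt with hN00 | hNpos
  · have hz : ∀ x ∈ B, φ x = 0 := by
      intro x hx
      have h1 : ∑ x ∈ B, φ x * φ x = 0 := hN00.symm
      have h2 := (sum_eq_zero_iff_of_nonneg fun x _ => mul_nonneg (hφ0 x) (hφ0 x)).1 h1 x hx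
      exact mul_self_eq_zero.1 h2
    rw [← hN00, mul_zero, ip]
    refine le_of_eq (sum_eq_zero fun x hx => ?_)
    rw [hz x hx, zero_mul]
  have hCS : ∀ j, α j ^ 2 ≤ N * α (2 * j) := by
    intro j
    have h1 := sum_mul_sq_le_sq_mul_sq B φ (TB^[j] φ)
    have h2 : ∑ x ∈ B, (TB^[j] φ) x ^ 2 = α (2 * j) := by
      rw [hα]
      simp only
      rw [two_mul, ← hshift]
      exact sum_congr rfl fun x _ => sq _
    rw [hsum2, h2] at h1
    exact h1
  have hpow : ∀ k, (α 1 / N) ^ (2 ^ k) ≤ α (2 ^ k) / N := by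
    intro k
    induction k with
    | zero => simp
    | succ k ih =>
      have h1 := hCS (2 ^ k)
      calc (α 1 / N) ^ (2 ^ (k + 1)) = ((α 1 / N) ^ (2 ^ k)) ^ 2 := by rw [← pow_mul, pow_succ]
        _ ≤ (α (2 ^ k) / N) ^ 2 := by
            have := div_nonneg (hα0 1) hN0
            gcongr
        _ = α (2 ^ k) ^ 2 / N / N := by ring
        _ ≤ N * α (2 * 2 ^ k) / N / N := by gcongr
        _ = α (2 ^ (k + 1)) / N := by
            rw [mul_div_cancel_left₀ _ hNpos.ne', pow_succ, mul_comm]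
  -- upper bound
  set C0 := ∑ x ∈ B, φ x / w x with hC0
  have hC00 : 0 ≤ C0 := sum_nonneg fun x _ => div_nonneg (hφ0 x) (hw0 x).le
  set Ψ : ℕ → Γ → ℝ := fun m => (FK σ f)^[m] fun y => Real.exp (f y) with hΨ
  have hΨ0 : ∀ m x, 0 ≤ Ψ m x := fun m x => FK_iter_nonneg σ f (fun y => (Real.exp_pos _).le) m x
  have hupper : ∀ m x, (TB^[m] φ) x ≤ C0 * (w x)⁻¹ * Ψ m x := by
    intro m
    induction m with
    | zero =>
      intro x
      have h1 : φ x / w x ≤ C0 := by
        by_cases hx : x ∈ B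
        · exact single_le_sum (f := fun x => φ x / w x)
            (fun x _ => div_nonneg (hφ0 x) (hw0 x).le) hx
        · rw [hφ x hx, zero_div]; exact hC00
      have h2 : (w x)⁻¹ * Real.exp (f x) = w x := by
        simp only [hw]
        rw [← Real.exp_neg, ← Real.exp_add]; congr 1; ring
      calc φ x = φ x / w x * w x := by rw [div_mul_cancel₀ _ (hw0 x).ne']
        _ ≤ C0 * w x := by have := hw0 x; gcongr
        _ = C0 * (w x)⁻¹ * Ψ 0 x := by
            simp only [hΨ, Function.iterate_zero, id_eq]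
            rw [mul_assoc, h2]
    | succ m ih =>
      intro x
      rw [Function.iterate_succ_apply']
      simp only [hTB]
      have h3 : (w x)⁻¹ * Real.exp (f x) = w x := by
        simp only [hw]
        rw [← Real.exp_neg, ← Real.exp_add]; congr 1; ring
      have h4 : C0 * (w x)⁻¹ * Ψ (m + 1) x = w x * (C0 * Pop σ (Ψ m) x) := by
        simp only [hΨ]
        rw [Function.iterate_succ_apply', FK]
        conv_rhs => rw [← h3]
        ring
      rw [h4]
      split_ifs
      · have := hw0 x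
        gcongr
        rw [← Pop_mul]
        refine Pop_mono σ (fun y => ?_) x
        calc w y * (TB^[m] φ) y ≤ w y * (C0 * (w y)⁻¹ * Ψ m y) := by
              have := hw0 y
              gcongr
              exact ih y
          _ = C0 * Ψ m y := by
              have := (hw0 y).ne'
              field_simp
      · have h5 := Pop_nonneg σ (hΨ0 m) x
        have := hw0 x
        positivity
  set E := Real.exp ((∑ y ∈ B, f y ^ 2) / (2 * γ)) with hE
  have hE0 : 0 < E := Real.exp_pos _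
  have hαm : ∀ c : ℝ, 1 < c → ∀ᶠ m : ℕ in atTop, α m ≤ C0 ^ 2 * Real.exp γ * (E * c) ^ m := by
    intro c hc
    filter_upwards [hS c hc, eventually_ge_atTop 1] with m hm hm1
    have h1 : ∀ x, Ψ m x ≤ Real.exp γ * (E * c) ^ m := by
      intro x
      refine (Psi_le σ hγ B hf hm1 x).trans ?_
      calc Real.exp (m * ((∑ y ∈ B, f y ^ 2) / (2 * γ)) + γ) * _
          ≤ Real.exp (m * ((∑ y ∈ B, f y ^ 2) / (2 * γ)) + γ) * c ^ m := by gcongr
        _ = _ := by rw [Real.exp_add, Real.exp_nat_mul, mul_pow]; ring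
    calc α m ≤ ∑ x ∈ B, φ x * (C0 * (w x)⁻¹ * (Real.exp γ * (E * c) ^ m)) := by
          refine sum_le_sum fun x _ => ?_
          refine mul_le_mul_of_nonneg_left ?_ (hφ0 x)
          refine (hupper m x).trans ?_
          have := hw0 x
          gcongr
          exact h1 x
      _ = (∑ x ∈ B, φ x / w x) * (C0 * (Real.exp γ * (E * c) ^ m)) := by
          rw [sum_mul]
          refine sum_congr rfl fun x _ => ?_
          rw [div_eq_mul_inv]; ring
      _ = _ := by rw [← hC0]; ring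
  have hfin : α 1 / N ≤ E := by
    refine growth (K := C0 ^ 2 * Real.exp γ / N) hE0 fun c hc => ?_
    have h1 := (tendsto_pow_atTop_atTop_of_one_lt (r := (2:ℕ)) (by norm_num)).eventually (hαm c hc)
    filter_upwards [h1] with k hk
    refine (hpow k).trans ?_
    rw [div_mul_eq_mul_div]
    gcongr
  rw [div_le_iff₀ hNpos] at hfin
  exact hfin

end Pool.Agent.Helper95.Poly
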