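import Mathlib
import Pool.Agent.Helper95.PolyStar
import Pool.Agent.Helper95.PolyOne
import Pool.Agent.Helper95.PolyHigh

set_option autoImplicit false
set_option linter.unusedSectionVars false

open Finset Filter

namespace Pool.Agent.Helper95.Poly

section diag
variable (A : Type*) [AddCommGroupWithOne A]

/-- the four diagonal steps -/
def dg (e : Fin 2 × Bool) : A × A :=
  if e.2 then (1, if e.1 = 0 then 1 else -1) else (-1, if e.1 = 0 then -1 else 1)

variable {A}

lemma Pop_dg (u : A × A → ℝ) (x : A × A) :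
    Pop (dg A) u x = (u (x.1 + 1, x.2 + 1) + u (x.1 + 1, x.2 - 1) + u (x.1 - 1, x.2 + 1) +
      u (x.1 - 1, x.2 - 1)) / 4 := by
  rw [Pop, Fintype.sum_prod_type]
  simp only [Fin.sum_univ_two, Fintype.sum_bool, dg, if_true, Bool.false_eq_true, if_false,
    Fin.isValue, one_ne_zero, Fintype.card_prod, Fintype.card_fin,
    Fintype.card_bool]
  obtain ⟨a, b⟩ := x
  simp only [Prod.mk_add_mk, ← sub_eq_add_neg]
  norm_num
  ring

lemma Pop_dg_prod (u v : A → ℝ) (x : A × A) :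
    Pop (dg A) (fun y => u y.1 * v y.2) x = P1 u x.1 * P1 v x.2 := by
  rw [Pop_dg, P1, P1]; ring

lemma Pop_dg_iter_prod (u v : A → ℝ) (k : ℕ) (x : A × A) :
    ((Pop (dg A))^[k] fun y => u y.1 * v y.2) x = (P1^[k] u) x.1 * (P1^[k] v) x.2 := by
  induction k generalizing x with
  | zero => rfl
  | succ k ih =>
    rw [Function.iterate_succ_apply', Function.iterate_succ_apply', Function.iterate_succ_apply']
    have : (Pop (dg A))^[k] (fun y => u y.1 * v y.2) = fun y => (P1^[k] u) y.1 * (P1^[k] v) y.2 :=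
      funext ih
    rw [this, Pop_dg_prod]

/-- the sign reversal of the steps -/
def dgν : Equiv.Perm (Fin 2 × Bool) where
  toFun e := (e.1, !e.2)
  invFun e := (e.1, !e.2)
  left_inv e := by simp
  right_inv e := by simp

lemma dg_neg (e : Fin 2 × Bool) : dg A (dgν e) = -dg A e := by
  obtain ⟨i, b⟩ := e
  fin_cases i <;> cases b <;> simp [dg, dgν]

end diag

section torus
variable {R : ℕ} [NeZero R]

lemma sum_Ico_zmod (G : ZMod R → ℝ) : ∑ a ∈ Ico (0:ℤ) R, G (a : ZMod R) = ∑ z : ZMod R, G z := by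
  refine sum_nbij' (fun a => (a : ZMod R)) (fun z => (z.val : ℤ)) ?_ ?_ ?_ ?_ ?_
  · intro a _; exact mem_univ _
  · intro z _
    rw [mem_Ico]
    exact ⟨by positivity, by exact_mod_cast ZMod.val_lt z⟩
  · intro a ha
    rw [mem_Ico] at ha
    rw [ZMod.val_intCast, Int.emod_eq_of_lt ha.1 ha.2]
  · intro z _
    simp
  · intro a _; rfl

lemma sum_Ico_zmod_shift (G : ZMod R → ℝ) (w : ZMod R) :
    ∑ a ∈ Ico (0:ℤ) R, G ((a : ZMod R) + w) = ∑ z : ZMod R, G z := by
  rw [sum_Ico_zmod (fun z => G (z + w))]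
  exact Equiv.sum_comp (Equiv.addRight w) G

/-- box in `ℤ²` -/
noncomputable def bx (R : ℕ) : Finset (ℤ × ℤ) := Ico (0:ℤ) R ×ˢ Ico (0:ℤ) R

lemma sum_bx (G : ZMod R × ZMod R → ℝ) (w : ZMod R × ZMod R) :
    ∑ x ∈ bx R, G ((x.1 : ZMod R) + w.1, (x.2 : ZMod R) + w.2) = ∑ z, G z := by
  rw [bx, sum_product, Fintype.sum_prod_type]
  rw [← sum_Ico_zmod_shift (fun a => ∑ b, G (a, b)) w.1]
  refine sum_congr rfl fun a _ => ?_
  exact sum_Ico_zmod_shift (fun b => G ((a : ZMod R) + w.1, b)) w.2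

/-- window function -/
noncomputable def win (R : ℕ) (w : ℤ) (u : ℤ) : ℝ := |Real.sin (Real.pi * (u - w) / R)|

lemma win_periodic (w u q : ℤ) : win R w (u + q * R) = win R w u := by
  rw [win, win]
  have hR : (R:ℝ) ≠ 0 := by exact_mod_cast NeZero.ne R
  have h1 : Real.pi * (((u + q * R : ℤ) : ℝ) - w) / R = Real.pi * (u - w) / R + q * Real.pi := by
    push_cast; field_simp; ring
  rw [h1, Real.sin_add_int_mul_pi]
  rcases Int.even_or_odd q with h | h
  · rw [h.neg_one_zpow, one_mul]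
  · rw [h.neg_one_zpow, neg_one_mul, abs_neg]

/-- window function on the cycle -/
noncomputable def winZ (R : ℕ) (w : ℤ) (z : ZMod R) : ℝ := win R w (z.val)

lemma winZ_cast (w u : ℤ) : winZ R w (u : ZMod R) = win R w u := by
  rw [winZ, ZMod.val_intCast]
  have h1 : u = u % (R:ℤ) + (u / (R:ℤ)) * R := by
    have := Int.emod_add_mul_ediv u R
    linarith [mul_comm (R:ℤ) (u / R)]
  conv_rhs => rw [h1, win_periodic]

lemma win_zero (w : ℤ) : win R w w = 0 := by simp [win]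

lemma win_nonneg (w u : ℤ) : 0 ≤ win R w u := abs_nonneg _

lemma winZ_nonneg (w : ℤ) (z : ZMod R) : 0 ≤ winZ R w z := abs_nonneg _

lemma win_half {r : ℕ} (hr : 0 < r) (u : ℤ) :
    win (2 * r) r u = |Real.cos (Real.pi * u / (2 * r : ℕ))| := by
  rw [win]
  have hr' : (r:ℝ) ≠ 0 := by positivity
  have h1 : Real.pi * ((u:ℝ) - (r:ℤ)) / (2 * r : ℕ) = Real.pi * u / (2 * r : ℕ) - Real.pi / 2 := by
    push_cast; field_simp
  rw [h1, Real.sin_sub_pi_div_two, abs_neg]

lemma win_sq {r : ℕ} (hr : 0 < r) (u : ℤ) : win (2 * r) 0 u ^ 2 + win (2 * r) r u ^ 2 = 1 := by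
  rw [win_half hr, win, sq_abs, sq_abs]
  have h1 : Real.pi * ((u:ℝ) - (0:ℤ)) / (2 * r : ℕ) = Real.pi * u / (2 * r : ℕ) := by push_cast; ring
  rw [h1, Real.sin_sq_add_cos_sq]

lemma win_adj {r : ℕ} (hr : 0 < r) (u u' : ℤ) (h : u' = u + 1 ∨ u' = u - 1) :
    Real.cos (Real.pi / (2 * r : ℕ)) ≤
      win (2 * r) 0 u * win (2 * r) 0 u' + win (2 * r) r u * win (2 * r) r u' := by
  rw [win_half hr, win_half hr, win, win, ← abs_mul, ← abs_mul]
  have h1 : ∀ u : ℤ, Real.pi * ((u:ℝ) - (0:ℤ)) / (2 * r : ℕ) = Real.pi * u / (2 * r : ℕ) := by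
    intro u; push_cast; ring
  rw [h1, h1]
  set p := Real.pi * (u:ℝ) / (2 * r : ℕ) with hp
  set q := Real.pi * (u':ℝ) / (2 * r : ℕ) with hq
  have h2 : Real.cos (q - p) ≤ |Real.sin p * Real.sin q| + |Real.cos p * Real.cos q| := by
    rw [Real.cos_sub]
    have a1 := le_abs_self (Real.sin p * Real.sin q)
    have a2 := le_abs_self (Real.cos p * Real.cos q)
    nlinarith
  refine le_trans (le_of_eq ?_) h2
  rcases h with h | h
  · have : q - p = Real.pi / (2 * r : ℕ) := by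
      rw [hq, hp, h]; push_cast; ring
    rw [this]
  · have : q - p = -(Real.pi / (2 * r : ℕ)) := by
      rw [hq, hp, h]; push_cast; ring
    rw [this, Real.cos_neg]

end torus

end Pool.Agent.Helper95.Poly
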