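import Mathlib
import Pool.Agent.Helper95.PolyTor

set_option autoImplicit false
set_option linter.unusedSectionVars false

open Finset Filter

namespace Pool.Agent.Helper95.Poly

lemma sum_inv_sq_le (M : ℕ) : ∑ n ∈ range M, 1 / ((n:ℝ) + 1) ^ 2 ≤ 2 := by
  have h : ∀ M : ℕ, ∑ n ∈ range (M + 1), 1 / ((n:ℝ) + 1) ^ 2 ≤ 2 - 1 / ((M:ℝ) + 1) := by
    intro M
    induction M with
    | zero => simp; norm_num
    | succ M ih =>
      rw [sum_range_succ]
      push_cast
      have hM : (0:ℝ) ≤ M := by positivity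
      have h1 : 1 / ((M:ℝ) + 1 + 1) ^ 2 ≤ 1 / ((M:ℝ) + 1) - 1 / ((M:ℝ) + 1 + 1) := by
        rw [div_sub_div _ _ (by positivity) (by positivity),
          div_le_div_iff₀ (by positivity) (by positivity)]
        nlinarith
      linarith
  cases M with
  | zero => simp
  | succ M =>
    have := h M
    have h2 : 0 ≤ 1 / ((M:ℝ) + 1) := by positivity
    linarith

lemma sum_range_mul (F : ℕ → ℝ) (M R : ℕ) :
    ∑ j ∈ range (M * R), F j = ∑ n ∈ range M, ∑ c ∈ range R, F (n * R + c) := by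
  induction M with
  | zero => simp
  | succ M ih => rw [Nat.succ_mul, sum_range_add, ih, sum_range_succ]

section
variable {R : ℕ} [NeZero R]

lemma sum_range_zmod (G : ZMod R → ℝ) : ∑ c ∈ range R, G (c : ZMod R) = ∑ z : ZMod R, G z := by
  refine sum_nbij' (fun a => (a : ZMod R)) (fun z => z.val) ?_ ?_ ?_ ?_ ?_
  · intro a _; exact mem_univ _
  · intro z _; exact mem_range.2 (ZMod.val_lt z)
  · intro a ha; exact ZMod.val_cast_of_lt (mem_range.1 ha)
  · intro z _; simp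
  · intro a _; rfl

/-- decay of the kernel in blocks of length `R` -/
lemma bk_block {k : ℕ} (hk : (k:ℝ) + 1 ≤ 2 * (R:ℝ) ^ 2) {j : ℤ} {n : ℕ} (hj : (n:ℝ) * R ≤ |(j:ℝ)|) :
    bk k j ≤ 324 / Real.sqrt ((k:ℝ) + 1) * (1 / ((n:ℝ) + 1) ^ 2) := by
  have hR : (1:ℝ) ≤ R := by exact_mod_cast NeZero.one_le
  set s := Real.sqrt ((k:ℝ) + 1) with hs
  have hs0 : 0 < s := Real.sqrt_pos.2 (by positivity)
  have hs2 : s ^ 2 = (k:ℝ) + 1 := Real.sq_sqrt (by positivity)
  rcases Nat.eq_zero_or_pos n with hn | hn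
  · subst hn
    refine (bk_le k j).trans ?_
    rw [← hs]
    norm_num
    rw [← one_div, div_le_div_iff_of_pos_right hs0]
    norm_num
  · have hn1 : (1:ℝ) ≤ n := by exact_mod_cast hn
    have h1 := bk_cube k j
    have h2 : ((n:ℝ) * R) ^ 3 ≤ (|(j:ℝ)| + 1) ^ 3 := by gcongr; linarith
    have hb := bk_nonneg k j
    have h3 : bk k j * ((n:ℝ) * R) ^ 3 ≤ 27 * s ^ 2 := by
      rw [hs2]
      exact (mul_le_mul_of_nonneg_left h2 hb).trans h1
    have h4 : s ≤ 3 / 2 * R := by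
      refine abs_le_of_sq_le_sq' ?_ (by positivity) |>.2
      rw [hs2]; nlinarith
    have h5 : s ^ 3 ≤ 3 * (R:ℝ) ^ 3 := by
      have : s ^ 2 ≤ 2 * (R:ℝ) ^ 2 := by rw [hs2]; exact hk
      calc s ^ 3 = s ^ 2 * s := by ring
        _ ≤ 2 * (R:ℝ) ^ 2 * (3 / 2 * R) := by gcongr
        _ = _ := by ring
    rw [div_mul_div_comm, mul_one, le_div_iff₀ (by positivity)]
    have h6 : ((n:ℝ) + 1) ^ 2 ≤ 4 * (n:ℝ) ^ 3 := by nlinarith [sq_nonneg ((n:ℝ) - 1)]
    have hR3 : (0:ℝ) < (R:ℝ) ^ 3 := by positivity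
    have h7 : (bk k j * (s * ((n:ℝ) + 1) ^ 2)) * (R:ℝ) ^ 3 ≤ 324 * (R:ℝ) ^ 3 := by
      calc (bk k j * (s * ((n:ℝ) + 1) ^ 2)) * (R:ℝ) ^ 3
          ≤ (bk k j * (s * (4 * (n:ℝ) ^ 3))) * (R:ℝ) ^ 3 := by gcongr
        _ = 4 * s * (bk k j * ((n:ℝ) * R) ^ 3) := by ring
        _ ≤ 4 * s * (27 * s ^ 2) := by gcongr
        _ = 108 * s ^ 3 := by ring
        _ ≤ 108 * (3 * (R:ℝ) ^ 3) := by gcongr
        _ = _ := by ring
    exact le_of_mul_le_mul_right h7 hR3

/-- one-dimensional folded heat kernel bound -/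
lemma fold_one {k : ℕ} (hk : (k:ℝ) + 1 ≤ 2 * (R:ℝ) ^ 2) {u : ZMod R → ℝ} (hu : ∀ z, 0 ≤ u z)
    (z : ZMod R) : (P1^[k] u) z ≤ 1296 / Real.sqrt ((k:ℝ) + 1) * ∑ y, u y := by
  rw [P1_iter]
  have hR : 1 ≤ R := NeZero.one_le
  set s := Real.sqrt ((k:ℝ) + 1) with hs
  have hs0 : 0 < s := Real.sqrt_pos.2 (by positivity)
  have hU : 0 ≤ ∑ y, u y := sum_nonneg fun y _ => hu y
  have s1 : Summable fun n : ℕ => bk k (n:ℤ) * u (z + ((n:ℤ) : ZMod R)) :=
    (bk_summable k fun j => u (z + (j : ZMod R))).comp_injective Nat.cast_injective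
  have hinj : Function.Injective fun n : ℕ => -((n:ℤ) + 1) := fun a b h => by
    simp only at h; omega
  have s2 : Summable fun n : ℕ => bk k (-((n:ℤ) + 1)) * u (z + ((-((n:ℤ) + 1) : ℤ) : ZMod R)) :=
    (bk_summable k fun j => u (z + (j : ZMod R))).comp_injective hinj
  rw [tsum_of_nat_of_neg_add_one (f := fun j : ℤ => bk k j * u (z + (j : ZMod R))) s1 s2]
  have hfin : ∀ n, n ∉ range ((k + 1) * R) → (k:ℤ) < (n:ℤ) := by
    intro n hn
    rw [mem_range, not_lt] at hn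
    have : k + 1 ≤ (k + 1) * R := Nat.le_mul_of_pos_right _ (by omega)
    omega
  have hsum : ∀ n : ℕ, ∑ c ∈ range R, u (z + ((n * R + c : ℕ) : ZMod R)) = ∑ y, u y := by
    intro n
    rw [← Equiv.sum_comp (Equiv.addLeft z) u, ← sum_range_zmod]
    refine sum_congr rfl fun c _ => ?_
    simp
  have hsum2 : ∀ n : ℕ, ∑ c ∈ range R, u (z + ((-(((n * R + c : ℕ) : ℤ) + 1) : ℤ) : ZMod R)) =
      ∑ y, u y := by
    intro n
    rw [← Equiv.sum_comp (Equiv.subLeft (z - 1)) u, ← sum_range_zmod]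
    refine sum_congr rfl fun c _ => ?_
    simp only [Equiv.subLeft_apply]
    congr 1
    push_cast
    simp
    ring
  have h1 : ∑' n : ℕ, bk k (n:ℤ) * u (z + ((n:ℤ) : ZMod R)) ≤ 648 / s * ∑ y, u y := by
    rw [tsum_eq_sum (s := range ((k + 1) * R)) (fun n hn => by
      rw [bk_supp, zero_mul]
      rw [abs_of_nonneg (by positivity)]; exact hfin n hn), sum_range_mul]
    calc _ ≤ ∑ n ∈ range (k + 1), ∑ c ∈ range R,
          324 / s * (1 / ((n:ℝ) + 1) ^ 2) * u (z + ((n * R + c : ℕ) : ZMod R)) := by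
          refine sum_le_sum fun n _ => sum_le_sum fun c _ => ?_
          rw [Int.cast_natCast]
          refine mul_le_mul_of_nonneg_right ?_ (hu _)
          refine bk_block hk ?_
          push_cast
          rw [abs_of_nonneg (by positivity)]
          linarith [(Nat.cast_nonneg c : (0:ℝ) ≤ c)]
      _ = (324 / s * ∑ y, u y) * ∑ n ∈ range (k + 1), 1 / ((n:ℝ) + 1) ^ 2 := by
          rw [mul_sum]
          refine sum_congr rfl fun n _ => ?_
          rw [← mul_sum, hsum n]; ring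
      _ ≤ (324 / s * ∑ y, u y) * 2 := by
          gcongr
          exact sum_inv_sq_le _
      _ = _ := by ring
  have h2 : ∑' n : ℕ, bk k (-((n:ℤ) + 1)) * u (z + ((-((n:ℤ) + 1) : ℤ) : ZMod R)) ≤
      648 / s * ∑ y, u y := by
    rw [tsum_eq_sum (s := range ((k + 1) * R)) (fun n hn => by
      rw [bk_supp, zero_mul]
      rw [abs_neg, abs_of_nonneg (by positivity)]
      have := hfin n hn
      omega), sum_range_mul]
    calc _ ≤ ∑ n ∈ range (k + 1), ∑ c ∈ range R,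
          324 / s * (1 / ((n:ℝ) + 1) ^ 2) * u (z + ((-(((n * R + c : ℕ) : ℤ) + 1) : ℤ) : ZMod R)) := by
          refine sum_le_sum fun n _ => sum_le_sum fun c _ => ?_
          refine mul_le_mul_of_nonneg_right ?_ (hu _)
          refine bk_block hk ?_
          push_cast
          rw [abs_of_nonpos (by
            have h3 : (0:ℝ) ≤ (n:ℝ) * R + c := by positivity
            linarith)]
          linarith [(Nat.cast_nonneg c : (0:ℝ) ≤ c)]
      _ = (324 / s * ∑ y, u y) * ∑ n ∈ range (k + 1), 1 / ((n:ℝ) + 1) ^ 2 := by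
          rw [mul_sum]
          refine sum_congr rfl fun n _ => ?_
          rw [← mul_sum, hsum2 n]; ring
      _ ≤ (324 / s * ∑ y, u y) * 2 := by
          gcongr
          exact sum_inv_sq_le _
      _ = _ := by ring
  have h3 : 1296 / s * ∑ y, u y = 648 / s * ∑ y, u y + 648 / s * ∑ y, u y := by ring
  rw [h3]
  exact add_le_add h1 h2

end

end Pool.Agent.Helper95.Poly
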