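import Mathlib
import Pool.Agent.Helper95.PolyHigh
import Pool.Agent.Helper95.PolyOne

set_option autoImplicit false
set_option linter.unusedSectionVars false

open Finset Filter

namespace Pool.Agent.Helper95.Poly

section
variable {Γ : Type*} [AddCommGroup Γ] {ι : Type*} [Fintype ι] [Nonempty ι] (σ : ι → Γ)

lemma Pop_iter_sum {κ : Type*} (S : Finset κ) (u : κ → Γ → ℝ) (k : ℕ) (x : Γ) :
    ((Pop σ)^[k] fun y => ∑ i ∈ S, u i y) x = ∑ i ∈ S, ((Pop σ)^[k] (u i)) x := by
  induction k generalizing x with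
  | zero => rfl
  | succ k ih =>
    rw [Function.iterate_succ_apply']
    have : (Pop σ)^[k] (fun y => ∑ i ∈ S, u i y) = fun y => ∑ i ∈ S, ((Pop σ)^[k] (u i)) y :=
      funext ih
    rw [this, Pop_sum]
    refine sum_congr rfl fun i _ => ?_
    rw [Function.iterate_succ_apply']

end

variable {d : ℕ}

/-- steps of the simple random walk on `ℤ^d` -/
def sd (d : ℕ) (e : Fin d × Bool) : Fin d → ℤ := Pi.single e.1 (if e.2 then 1 else -1)

/-- product kernel -/
noncomputable def BB (m : Fin d → ℕ) (z : Fin d → ℤ) : ℝ := ∏ i, bk (m i) (z i)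

lemma BB_split (m : Fin d → ℕ) (z : Fin d → ℤ) (i : Fin d) :
    BB m z = bk (m i) (z i) * ∏ j ∈ univ.erase i, bk (m j) (z j) := by
  rw [BB, ← mul_prod_erase univ _ (mem_univ i)]

lemma BB_step (m : Fin d → ℕ) (z : Fin d → ℤ) (i : Fin d) (c : ℤ) :
    BB m (z + Pi.single i c) = bk (m i) (z i + c) * ∏ j ∈ univ.erase i, bk (m j) (z j) := by
  rw [BB_split m _ i]
  congr 1
  · simp
  · refine prod_congr rfl fun j hj => ?_
    rw [Pi.add_apply, Pi.single_eq_of_ne (ne_of_mem_erase hj), add_zero]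

lemma BB_update (m : Fin d → ℕ) (z : Fin d → ℤ) (i : Fin d) :
    BB (Function.update m i (m i + 1)) z =
      bk (m i + 1) (z i) * ∏ j ∈ univ.erase i, bk (m j) (z j) := by
  rw [BB_split _ _ i]
  congr 1
  · simp
  · refine prod_congr rfl fun j hj => ?_
    rw [Function.update_of_ne (ne_of_mem_erase hj)]

lemma Pop_BB [NeZero d] (m : Fin d → ℕ) (z : Fin d → ℤ) :
    Pop (sd d) (BB m) z = (d:ℝ)⁻¹ * ∑ i, BB (Function.update m i (m i + 1)) z := by
  rw [Pop, Fintype.sum_prod_type]
  have h1 : ∀ i : Fin d, ∑ b : Bool, BB m (z + sd d (i, b)) =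
      2 * BB (Function.update m i (m i + 1)) z := by
    intro i
    rw [Fintype.sum_bool, sd, sd, BB_step, BB_step, BB_update, bk_succ]
    simp only [if_true, Bool.false_eq_true, if_false]
    have : z i + -1 = z i - 1 := by ring
    rw [this]; ring
  rw [sum_congr rfl fun i _ => h1 i, ← mul_sum]
  simp only [Fintype.card_prod, Fintype.card_fin, Fintype.card_bool]
  push_cast
  have hd : (d:ℝ) ≠ 0 := by exact_mod_cast NeZero.ne d
  field_simp

/-- operator on the numbers of steps in each direction -/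
noncomputable def Wop (F : (Fin d → ℕ) → ℝ) (m : Fin d → ℕ) : ℝ :=
  (d:ℝ)⁻¹ * ∑ i, F (Function.update m i (m i + 1))

lemma Wop_mono {F G : (Fin d → ℕ) → ℝ} (h : ∀ m, F m ≤ G m) (m : Fin d → ℕ) :
    Wop F m ≤ Wop G m := by
  rw [Wop, Wop]; gcongr with i _; exact h _

lemma Wop_iter_nonneg {F : (Fin d → ℕ) → ℝ} (h : ∀ m, 0 ≤ F m) (k : ℕ) (m : Fin d → ℕ) :
    0 ≤ (Wop^[k] F) m := by
  induction k generalizing m with
  | zero => exact h m
  | succ k ih =>
    rw [Function.iterate_succ_apply', Wop]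
    exact mul_nonneg (by positivity) (sum_nonneg fun i _ => ih _)

lemma Pop_iter_BB [NeZero d] {a : (Fin d → ℕ) → ℝ} (h : ∀ m z, BB m z ≤ a m) (k : ℕ)
    (m : Fin d → ℕ) (z : Fin d → ℤ) : ((Pop (sd d))^[k] (BB m)) z ≤ (Wop^[k] a) m := by
  induction k generalizing m with
  | zero => exact h m z
  | succ k ih =>
    rw [Function.iterate_succ_apply, Function.iterate_succ_apply']
    have h1 : Pop (sd d) (BB m) = fun z => (d:ℝ)⁻¹ * ∑ i, BB (Function.update m i (m i + 1)) z :=
      funext (Pop_BB m)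
    rw [h1, Pop_iter_mul, Pop_iter_sum, Wop]
    gcongr with i _
    exact ih _

lemma BB_zero : (BB (fun _ => 0) : (Fin d → ℤ) → ℝ) = dl := by
  funext z
  rw [BB, dl]
  simp only [bk_zero]
  by_cases h : z = 0
  · rw [if_pos h]; subst h; simp
  · rw [if_neg h]
    obtain ⟨i, hi⟩ : ∃ i, z i ≠ 0 := by
      by_contra hc
      push Not at hc
      exact h (funext hc)
    exact prod_eq_zero (mem_univ i) (if_neg hi)

/-- `(j+1)^{-3/2}` -/
noncomputable def al (j : ℕ) : ℝ := (1 / Real.sqrt ((j:ℝ) + 1)) ^ 3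

noncomputable def ss (j : ℕ) : ℝ := 4 / Real.sqrt ((j:ℝ) + 1)

lemma ss_step (j : ℕ) : al j ≤ ss j - ss (j + 1) := by
  rw [al, ss, ss]
  push_cast
  have hj : (0:ℝ) ≤ j := by positivity
  set p := Real.sqrt ((j:ℝ) + 1) with hp
  set q := Real.sqrt ((j:ℝ) + 1 + 1) with hq
  have hp0 : 0 < p := Real.sqrt_pos.2 (by positivity)
  have hq0 : 0 < q := Real.sqrt_pos.2 (by positivity)
  have hp2 : p ^ 2 = (j:ℝ) + 1 := Real.sq_sqrt (by positivity)
  have hq2 : q ^ 2 = (j:ℝ) + 1 + 1 := Real.sq_sqrt (by positivity)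
  have hpq : p ≤ q := Real.sqrt_le_sqrt (by linarith)
  have h1 : 4 / p - 4 / q = 4 / (p * q * (p + q)) := by
    have : (q - p) * (p + q) = 1 := by nlinarith
    field_simp
    nlinarith
  rw [h1, div_pow, one_pow, div_le_div_iff₀ (by positivity) (by positivity)]
  have h2 : p * q * (p + q) ≤ 4 * p ^ 3 := by
    have h3 : q ^ 2 ≤ 2 * p ^ 2 := by rw [hq2, hp2]; linarith
    have h4 : q * (p + q) ≤ 4 * p ^ 2 := by nlinarith
    nlinarith
  linarith

/-- the walk on `ℤ^d`, `d ≥ 3`, is uniformly transient -/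
lemma high_kernel (hd : 3 ≤ d) [NeZero d] : ∃ π : ℕ → ℝ, Summable π ∧
    ∀ k (z : Fin d → ℤ), ((Pop (sd d))^[k] dl) z ≤ π k := by
  set i0 : Fin d := ⟨0, by omega⟩ with hi0
  set i1 : Fin d := ⟨1, by omega⟩ with hi1
  set i2 : Fin d := ⟨2, by omega⟩ with hi2
  have h01 : i0 ∉ ({i1, i2} : Finset (Fin d)) := by simp [hi0, hi1, hi2]
  have h12 : i1 ∉ ({i2} : Finset (Fin d)) := by simp [hi1, hi2]
  set T : Finset (Fin d) := {i0, i1, i2} with hT
  set a : (Fin d → ℕ) → ℝ := fun m => (1/3) * ∑ i ∈ T, al (m i) with ha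
  set S : (Fin d → ℕ) → ℝ := fun m => (d:ℝ) / 3 * ∑ i ∈ T, ss (m i) with hS
  have hd0 : (0:ℝ) < d := by exact_mod_cast (by omega : 0 < d)
  have hal : ∀ j, 0 ≤ al j := fun j => by unfold al; positivity
  have hss : ∀ j, 0 ≤ ss j := fun j => by unfold ss; positivity
  have ha0 : ∀ m, 0 ≤ a m := fun m => by
    have : 0 ≤ ∑ i ∈ T, al (m i) := sum_nonneg fun i _ => hal _
    simp only [ha]; positivity
  have hBB : ∀ m z, BB m z ≤ a m := by
    intro m z
    have h1 : BB m z ≤ ∏ i ∈ T, bk (m i) (z i) := by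
      rw [BB, ← prod_sdiff (subset_univ T)]
      calc _ ≤ 1 * ∏ i ∈ T, bk (m i) (z i) := by
            have : 0 ≤ ∏ i ∈ T, bk (m i) (z i) := prod_nonneg fun i _ => bk_nonneg _ _
            gcongr
            exact prod_le_one (fun i _ => bk_nonneg _ _) fun i _ => bk_le_one _ _
        _ = _ := one_mul _
    have h2 : ∀ i, bk (m i) (z i) ^ 3 ≤ al (m i) := fun i => by
      rw [al]
      have := bk_nonneg (m i) (z i)
      gcongr
      exact bk_le _ _
    refine h1.trans ?_
    simp only [ha, hT]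
    rw [prod_insert h01, prod_insert h12, prod_singleton, sum_insert h01, sum_insert h12,
      sum_singleton]
    have b0 := h2 i0
    have b1 := h2 i1
    have b2 := h2 i2
    have c0 := bk_nonneg (m i0) (z i0)
    have c1 := bk_nonneg (m i1) (z i1)
    have c2 := bk_nonneg (m i2) (z i2)
    set x := bk (m i0) (z i0)
    set y := bk (m i1) (z i1)
    set w := bk (m i2) (z i2)
    have h3 : 3 * (x * (y * w)) ≤ x ^ 3 + y ^ 3 + w ^ 3 := by
      nlinarith [mul_nonneg (add_nonneg (add_nonneg c0 c1) c2) (sq_nonneg (x - y)),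
        mul_nonneg (add_nonneg (add_nonneg c0 c1) c2) (sq_nonneg (y - w)),
        mul_nonneg (add_nonneg (add_nonneg c0 c1) c2) (sq_nonneg (x - w))]
    linarith
  have hWS : ∀ m, a m + Wop S m ≤ S m := by
    intro m
    have h1 : Wop S m = (1/3) * ∑ i ∈ T, ((d - 1 : ℝ) * ss (m i) + ss (m i + 1)) := by
      rw [Wop]
      simp only [hS]
      rw [← mul_sum, sum_comm]
      have h2 : ∀ i ∈ T, ∑ j : Fin d, ss ((Function.update m j (m j + 1)) i) =
          (d - 1 : ℝ) * ss (m i) + ss (m i + 1) := by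
        intro i _
        rw [← add_sum_erase univ _ (mem_univ i)]
        rw [sum_congr rfl (g := fun _ => ss (m i)) (fun j hj => by
          rw [Function.update_of_ne (ne_of_mem_erase hj).symm])]
        rw [sum_const, card_erase_of_mem (mem_univ i), card_univ, Fintype.card_fin, nsmul_eq_mul,
          Function.update_self]
        rw [Nat.cast_sub (by omega)]
        push_cast; ring
      rw [sum_congr rfl h2]
      field_simp
    rw [h1]
    simp only [ha, hS]
    have e1 : (d:ℝ) / 3 * ∑ i ∈ T, ss (m i) = (1/3) * ∑ i ∈ T, (d:ℝ) * ss (m i) := by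
      rw [← mul_sum]; ring
    rw [← mul_add, ← sum_add_distrib, e1]
    gcongr with i _
    have := ss_step (m i)
    linarith
  have hQ : ∀ K m, ∑ k ∈ range K, (Wop^[k] a) m ≤ S m := by
    intro K
    induction K with
    | zero =>
      intro m
      have : 0 ≤ ∑ i ∈ T, ss (m i) := sum_nonneg fun i _ => hss _
      simp only [sum_range_zero, hS]; positivity
    | succ K ih =>
      intro m
      rw [sum_range_succ']
      refine le_trans (le_of_eq ?_) ((add_le_add_right (Wop_mono ih m) (a m)).trans (hWS m))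
      rw [add_comm]
      simp only [Function.iterate_zero, id_eq]
      congr 1
      rw [Wop, sum_comm, mul_sum]
      refine sum_congr rfl fun k _ => ?_
      rw [Function.iterate_succ_apply', Wop]
  refine ⟨fun k => (Wop^[k] a) (fun _ => 0), ?_, fun k z => ?_⟩
  · exact summable_of_sum_range_le (fun k => Wop_iter_nonneg ha0 k _) fun K => hQ K _
  · rw [← BB_zero]
    exact Pop_iter_BB hBB k _ z

end Pool.Agent.Helper95.Poly
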