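import Mathlib
import Pool.Agent.Helper95.PolyFold
import Pool.Agent.Helper95.PolyKer

set_option autoImplicit false
set_option linter.unusedSectionVars false

open Finset Filter

namespace Pool.Agent.Helper95.Poly

section khas
variable {Γ : Type*} [AddCommGroup Γ] [DecidableEq Γ] {ι : Type*} [Fintype ι] [Nonempty ι]
  (σ : ι → Γ)

lemma khas_block {V : Γ → ℝ} (hV : ∀ x, 0 ≤ V x) (hV1 : ∀ x, V x ≤ 1 / 10) {b : ℕ}
    (hG : ∀ x, Gk σ V b x ≤ 1 / 4) {m : ℕ} (hm : m ≤ b) (x : Γ) :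
    ((FK σ V)^[m] fun _ => 1) x ≤ 2 := by
  have hGm : ∀ m ≤ b, ∀ x, Gk σ V m x ≤ 1 / 4 := fun m hm x => by
    refine le_trans ?_ (hG x)
    exact sum_le_sum_of_subset_of_nonneg (range_mono hm) fun k _ _ =>
      Pop_iter_nonneg σ hV _ x
  have key : ∀ m ≤ b, ∀ x, Pop σ ((FK σ V)^[m] fun _ => 1) x ≤ 1 + 2 * Gk σ V m x := by
    intro m
    induction m with
    | zero => intro _ x; simp [Pop_const, Gk]
    | succ m ih =>
      intro hm x
      rw [Function.iterate_succ_apply']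
      refine le_trans (Pop_mono σ (fun y => ?_) x) (khas_step σ hV hV1 (hGm m (by omega)) x)
      rw [FK]
      gcongr
      exact ih (by omega) y
  cases m with
  | zero => simp
  | succ m =>
    rw [Function.iterate_succ_apply', FK]
    have h1 := key m (by omega) x
    have h2 := hGm m (by omega) x
    have h3 : Real.exp (V x) ≤ 4 / 3 := by
      have h4 : Real.exp (V x) ≤ Real.exp (1 / 10) := Real.exp_le_exp.2 (hV1 x)
      have h5 := Real.exp_bound_div_one_sub_of_interval (x := 1 / 10) (by norm_num) (by norm_num)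
      refine h4.trans (h5.trans (by norm_num))
    have h6 : 0 ≤ Pop σ ((FK σ V)^[m] fun _ => 1) x :=
      Pop_nonneg σ (FK_iter_nonneg σ V (fun _ => zero_le_one) m) x
    calc Real.exp (V x) * Pop σ ((FK σ V)^[m] fun _ => 1) x ≤ 4 / 3 * (1 + 2 * (1 / 4)) := by
          gcongr
          linarith
      _ ≤ 2 := by norm_num

lemma khas_exp {V : Γ → ℝ} (hV : ∀ x, 0 ≤ V x) (hV1 : ∀ x, V x ≤ 1 / 10) {b : ℕ} (hb : 0 < b)
    (hG : ∀ x, Gk σ V b x ≤ 1 / 4) (n : ℕ) :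
    EE σ n (fun L x => Real.exp (lsum V (x :: L))) ≤ 2 ^ ((n + 1) / b + 1) := by
  have hq : ∀ q x, ((FK σ V)^[b * q] fun _ => (1:ℝ)) x ≤ 2 ^ q := by
    intro q
    induction q with
    | zero => intro x; simp
    | succ q ih =>
      intro x
      rw [Nat.mul_succ, add_comm, Function.iterate_add_apply]
      calc _ ≤ ((FK σ V)^[b] fun _ => (2:ℝ) ^ q * 1) x :=
            FK_iter_mono σ V (fun y => by rw [mul_one]; exact ih y) b x
        _ = 2 ^ q * ((FK σ V)^[b] fun _ => (1:ℝ)) x := FK_iter_mul σ V _ _ b x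
        _ ≤ 2 ^ q * 2 := by gcongr; exact khas_block σ hV hV1 hG le_rfl x
        _ = _ := by ring
  have h1 : EE σ n (fun L x => Real.exp (lsum V (x :: L))) = ((FK σ V)^[n + 1] fun _ => (1:ℝ)) 0 := by
    have h0 : (FK σ V fun _ => (1:ℝ)) = fun y => Real.exp (V y) := by
      funext y
      rw [FK, Pop_const, mul_one]
    rw [EE_exp, Function.iterate_succ_apply, h0]
  rw [h1]
  have h2 : n + 1 = (n + 1) % b + b * ((n + 1) / b) := (Nat.mod_add_div _ _).symm
  conv_lhs => rw [h2]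
  rw [Function.iterate_add_apply]
  calc _ ≤ ((FK σ V)^[(n + 1) % b] fun _ => (2:ℝ) ^ ((n + 1) / b) * 1) 0 :=
        FK_iter_mono σ V (fun y => by rw [mul_one]; exact hq _ y) _ _
    _ = 2 ^ ((n + 1) / b) * ((FK σ V)^[(n + 1) % b] fun _ => (1:ℝ)) 0 := FK_iter_mul σ V _ _ _ _
    _ ≤ 2 ^ ((n + 1) / b) * 2 := by
        gcongr
        exact khas_block σ hV hV1 hG (Nat.mod_lt _ hb).le 0
    _ = _ := by ring

end khas

section fold2
variable {R : ℕ} [NeZero R]

/-- two-dimensional folded heat kernel bound -/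
lemma fold_two {k : ℕ} (hk : (k:ℝ) + 1 ≤ 2 * (R:ℝ) ^ 2) {Φ : ZMod R × ZMod R → ℝ}
    (hΦ : ∀ z, 0 ≤ Φ z) (z : ZMod R × ZMod R) :
    ((Pop (dg (ZMod R)))^[k] Φ) z ≤ 1296 ^ 2 / ((k:ℝ) + 1) * ∑ y, Φ y := by
  set s := Real.sqrt ((k:ℝ) + 1) with hs
  have hs0 : 0 < s := Real.sqrt_pos.2 (by positivity)
  have hs2 : s ^ 2 = (k:ℝ) + 1 := Real.sq_sqrt (by positivity)
  have h1 : Φ = fun y => ∑ a : ZMod R, (if y.1 = a then (1:ℝ) else 0) * Φ (a, y.2) := by
    funext y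
    simp
  have h2 : ((Pop (dg (ZMod R)))^[k] Φ) z = ∑ a : ZMod R,
      (P1^[k] fun b => if b = a then (1:ℝ) else 0) z.1 * (P1^[k] fun b => Φ (a, b)) z.2 := by
    conv_lhs => rw [h1]
    rw [Pop_iter_sum]
    refine sum_congr rfl fun a _ => ?_
    exact Pop_dg_iter_prod (fun b => if b = a then (1:ℝ) else 0) (fun b => Φ (a, b)) k z
  rw [h2, Fintype.sum_prod_type, mul_sum]
  refine sum_le_sum fun a _ => ?_
  have h3 := fold_one hk (u := fun b : ZMod R => if b = a then (1:ℝ) else 0)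
    (fun b => by split_ifs <;> norm_num) z.1
  have h4 := fold_one hk (u := fun b : ZMod R => Φ (a, b)) (fun b => hΦ _) z.2
  rw [sum_ite_eq' univ a, if_pos (mem_univ a), mul_one, ← hs] at h3
  rw [← hs] at h4
  have h5 : 0 ≤ (P1^[k] fun b => Φ (a, b)) z.2 := by
    have := Pop_iter_nonneg (dg (ZMod R)) (u := fun y : ZMod R × ZMod R => 1 * Φ (a, y.2))
      (fun y => by rw [one_mul]; exact hΦ _) k z
    rw [Pop_dg_iter_prod (fun _ => (1:ℝ)) (fun b => Φ (a, b)) k z] at this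
    have h6 : (P1^[k] fun _ : ZMod R => (1:ℝ)) z.1 = 1 := by
      have : ∀ k (x : ZMod R), (P1^[k] fun _ : ZMod R => (1:ℝ)) x = 1 := by
        intro k
        induction k with
        | zero => intro x; rfl
        | succ k ih => intro x; rw [Function.iterate_succ_apply', P1, ih, ih]; norm_num
      exact this k _
    rw [h6, one_mul] at this
    exact this
  calc _ ≤ (1296 / s) * (1296 / s * ∑ b, Φ (a, b)) := by gcongr
    _ = _ := by rw [← hs2]; field_simp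

lemma Pop_proj (u : ZMod R × ZMod R → ℝ) (k : ℕ) (x : ℤ × ℤ) :
    ((Pop (dg ℤ))^[k] fun y => u ((y.1 : ZMod R), (y.2 : ZMod R))) x =
      ((Pop (dg (ZMod R)))^[k] u) ((x.1 : ZMod R), (x.2 : ZMod R)) := by
  induction k generalizing x with
  | zero => rfl
  | succ k ih =>
    rw [Function.iterate_succ_apply', Function.iterate_succ_apply', Pop_dg, Pop_dg]
    rw [ih, ih, ih, ih]
    push_cast
    rfl

end fold2

/-- folded dyadic index -/
def idx (a l : ℕ) (y : ℤ × ℤ) : ZMod (2 ^ (a - l)) × ZMod (2 ^ (a - l)) :=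
  (((y.1 / 2 ^ l : ℤ) : ZMod (2 ^ (a - l))), ((y.2 / 2 ^ l : ℤ) : ZMod (2 ^ (a - l))))

/-- indicator of a folded dyadic cube -/
noncomputable def ind (a l : ℕ) (c : ZMod (2 ^ (a - l)) × ZMod (2 ^ (a - l))) (y : ℤ × ℤ) : ℝ :=
  if idx a l y = c then 1 else 0

lemma ind_nonneg (a l : ℕ) (c : ZMod (2 ^ (a - l)) × ZMod (2 ^ (a - l))) (y : ℤ × ℤ) :
    0 ≤ ind a l c y := by unfold ind; split_ifs <;> norm_num

lemma ind_le_one (a l : ℕ) (c : ZMod (2 ^ (a - l)) × ZMod (2 ^ (a - l))) (y : ℤ × ℤ) :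
    ind a l c y ≤ 1 := by unfold ind; split_ifs <;> norm_num

lemma fold_div {a l : ℕ} (hl : l ≤ a) (y : ℤ) :
    ((((y : ZMod (2 ^ a)).val : ℤ) / 2 ^ l : ℤ) : ZMod (2 ^ (a - l))) =
      ((y / 2 ^ l : ℤ) : ZMod (2 ^ (a - l))) := by
  rw [ZMod.val_intCast]
  have h1 : y = y % ((2 ^ a : ℕ) : ℤ) + (2 ^ (a - l) * (y / ((2 ^ a : ℕ) : ℤ))) * 2 ^ l := by
    have h2 := Int.emod_add_mul_ediv y ((2 ^ a : ℕ) : ℤ)
    have h3 : (2:ℤ) ^ a = 2 ^ (a - l) * 2 ^ l := by rw [← pow_add, Nat.sub_add_cancel hl]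
    conv_lhs => rw [← h2]
    push_cast
    rw [h3]; ring
  conv_rhs => rw [h1]
  rw [Int.add_mul_ediv_right _ _ (by positivity)]
  push_cast
  have h4 : ((2:ZMod (2 ^ (a - l))) ^ (a - l)) = 0 := by
    have := ZMod.natCast_self (2 ^ (a - l))
    push_cast at this
    exact this
  rw [h4]; ring

lemma idx_fold {a l : ℕ} (hl : l ≤ a) (y : ℤ × ℤ) :
    idx a l ((((y.1 : ZMod (2 ^ a)).val : ℤ)), (((y.2 : ZMod (2 ^ a)).val : ℤ))) = idx a l y := by
  simp only [idx]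
  rw [fold_div hl, fold_div hl]

lemma count_one {a l : ℕ} (hl : l ≤ a) (c : ZMod (2 ^ (a - l))) :
    ∑ z : ZMod (2 ^ a), (if ((((z.val : ℤ) / 2 ^ l : ℤ)) : ZMod (2 ^ (a - l))) = c then (1:ℝ) else 0)
      ≤ 2 ^ l := by
  rw [sum_boole]
  have h1 : (univ.filter fun z : ZMod (2 ^ a) =>
      ((((z.val : ℤ) / 2 ^ l : ℤ)) : ZMod (2 ^ (a - l))) = c).card ≤ 2 ^ l := by
    calc _ ≤ (Ico (c.val * 2 ^ l) ((c.val + 1) * 2 ^ l)).card := by
          refine card_le_card_of_injOn (fun z => z.val) ?_ ?_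
          · intro z hz
            have hz' := (mem_filter.1 hz).2
            have h2 : z.val / 2 ^ l < 2 ^ (a - l) := by
              rw [Nat.div_lt_iff_lt_mul (by positivity), ← pow_add, Nat.sub_add_cancel hl]
              exact ZMod.val_lt z
            have h3 : z.val / 2 ^ l = c.val := by
              rw [← hz']
              have h4 : (((z.val : ℤ) / 2 ^ l : ℤ)) = ((z.val / 2 ^ l : ℕ) : ℤ) := by push_cast; rfl
              rw [h4, Int.cast_natCast, ZMod.val_cast_of_lt h2]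
            rw [coe_Ico, Set.mem_Ico, ← h3]
            exact ⟨Nat.div_mul_le_self _ _, by
              rw [mul_comm]
              exact Nat.lt_mul_div_succ _ (by positivity)⟩
          · intro z _ z' _ h
            exact ZMod.val_injective _ h
      _ = 2 ^ l := by
          rw [Nat.card_Ico]
          have : (c.val + 1) * 2 ^ l = c.val * 2 ^ l + 2 ^ l := by ring
          rw [this, Nat.add_sub_cancel_left]
  exact_mod_cast h1

lemma ind_hit {a l : ℕ} (hl : l ≤ a) (c : ZMod (2 ^ (a - l)) × ZMod (2 ^ (a - l))) {k : ℕ}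
    (hk : (k:ℝ) + 1 ≤ 2 * ((2 ^ a : ℕ) : ℝ) ^ 2) (x : ℤ × ℤ) :
    ((Pop (dg ℤ))^[k] (ind a l c)) x ≤ min 1 (1296 ^ 2 * 4 ^ l / ((k:ℝ) + 1)) := by
  refine le_min ?_ ?_
  · have := Pop_iter_mono (dg ℤ) (ind_le_one a l c) k x
    rwa [Pop_iter_const] at this
  · set Φ : ZMod (2 ^ a) × ZMod (2 ^ a) → ℝ := fun z => ind a l c ((z.1.val : ℤ), (z.2.val : ℤ))
      with hΦ
    have h1 : ind a l c = fun y => Φ ((y.1 : ZMod (2 ^ a)), (y.2 : ZMod (2 ^ a))) := by
      funext y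
      simp only [hΦ, ind]
      rw [idx_fold hl]
    rw [h1, Pop_proj]
    refine (fold_two hk (fun z => ind_nonneg _ _ _ _) _).trans ?_
    rw [mul_div_right_comm]
    gcongr
    have h2 : ∀ z : ZMod (2 ^ a) × ZMod (2 ^ a), Φ z =
        (if ((((z.1.val : ℤ) / 2 ^ l : ℤ)) : ZMod (2 ^ (a - l))) = c.1 then (1:ℝ) else 0) *
        (if ((((z.2.val : ℤ) / 2 ^ l : ℤ)) : ZMod (2 ^ (a - l))) = c.2 then (1:ℝ) else 0) := by
      intro z
      simp only [hΦ, ind, idx, Prod.ext_iff]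
      generalize ((((z.1.val : ℤ) / 2 ^ l : ℤ)) : ZMod (2 ^ (a - l))) = A
      generalize ((((z.2.val : ℤ) / 2 ^ l : ℤ)) : ZMod (2 ^ (a - l))) = B
      by_cases h3 : A = c.1 <;> by_cases h4 : B = c.2 <;> simp [h3, h4]
    set F : ZMod (2 ^ a) → ℝ := fun z =>
      if ((((z.val : ℤ) / 2 ^ l : ℤ)) : ZMod (2 ^ (a - l))) = c.1 then (1:ℝ) else 0 with hF
    set G : ZMod (2 ^ a) → ℝ := fun z =>
      if ((((z.val : ℤ) / 2 ^ l : ℤ)) : ZMod (2 ^ (a - l))) = c.2 then (1:ℝ) else 0 with hG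
    have h8 : ∑ z, Φ z = (∑ z, F z) * ∑ z, G z := by
      rw [sum_mul_sum, Fintype.sum_prod_type]
      exact sum_congr rfl fun z _ => sum_congr rfl fun z' _ => h2 (z, z')
    rw [h8]
    have h5 : (4:ℝ) ^ l = 2 ^ l * 2 ^ l := by rw [← mul_pow]; norm_num
    rw [h5]
    have h6 : ∑ z, F z ≤ 2 ^ l := count_one hl c.1
    have h7 : ∑ z, G z ≤ 2 ^ l := count_one hl c.2
    have h9 : 0 ≤ ∑ z, G z := sum_nonneg fun z _ => by simp only [hG]; split_ifs <;> norm_num
    gcongr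

/-- harmonic-type sum -/
lemma sum_min_le {C : ℝ} (hC : 0 ≤ C) (l m : ℕ) :
    ∑ k ∈ range (4 ^ (l + m)), min 1 (C * 4 ^ l / ((k:ℝ) + 1)) ≤ 4 ^ l * (1 + 3 * C * m) := by
  induction m with
  | zero =>
    calc _ ≤ ∑ _k ∈ range (4 ^ (l + 0)), (1:ℝ) := sum_le_sum fun k _ => min_le_left _ _
      _ = _ := by simp
  | succ m ih =>
    have h1 : 4 ^ (l + (m + 1)) = 4 ^ (l + m) + 3 * 4 ^ (l + m) := by ring
    rw [h1, sum_range_add]
    have h2 : ∑ k ∈ range (3 * 4 ^ (l + m)), min 1 (C * 4 ^ l / (((4 ^ (l + m) + k : ℕ) : ℝ) + 1)) ≤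
        3 * C * 4 ^ l := by
      calc _ ≤ ∑ _k ∈ range (3 * 4 ^ (l + m)), C * 4 ^ l / 4 ^ (l + m) := by
            refine sum_le_sum fun k _ => (min_le_right _ _).trans ?_
            gcongr
            push_cast
            have : (0:ℝ) ≤ k := by positivity
            linarith
        _ = _ := by
            rw [sum_const, card_range, nsmul_eq_mul]
            push_cast
            field_simp
    push_cast at ih h2 ⊢
    linarith

end Pool.Agent.Helper95.Poly
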