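import Mathlib

set_option autoImplicit false
set_option linter.unusedSectionVars false

open Finset Filter MeasureTheory

namespace Pool.Agent.Helper95.Poly

lemma gauss_int (t : ℝ) : Integrable (fun x : ℝ => Real.exp (t * x - x ^ 2 / 2)) ∧
    ∫ x : ℝ, Real.exp (t * x - x ^ 2 / 2) = Real.sqrt (2 * Real.pi) * Real.exp (t ^ 2 / 2) := by
  have h0 : ∀ x : ℝ, Real.exp (t * x - x ^ 2 / 2) =
      Real.exp (t ^ 2 / 2) * Real.exp (-(1/2) * (x - t) ^ 2) := by
    intro x
    rw [← Real.exp_add]; congr 1; ring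
  have h1 : Integrable (fun x : ℝ => Real.exp (-(1/2) * x ^ 2)) :=
    integrable_exp_neg_mul_sq (by norm_num)
  have h2 : Integrable (fun x : ℝ => Real.exp (-(1/2) * (x - t) ^ 2)) := h1.comp_sub_right t
  constructor
  · simp_rw [h0]
    exact h2.const_mul _
  · simp_rw [h0]
    rw [integral_const_mul]
    have h3 : ∫ x : ℝ, Real.exp (-(1/2) * (x - t) ^ 2) = ∫ x : ℝ, Real.exp (-(1/2) * x ^ 2) :=
      integral_sub_right_eq_self (fun x : ℝ => Real.exp (-(1/2) * x ^ 2)) t
    rw [h3, integral_gaussian]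
    have : Real.pi / (1/2) = 2 * Real.pi := by ring
    rw [this, mul_comm]

/-- linearisation of one Gaussian mode -/
lemma one_mode {Ω : Type*} [Fintype Ω] {w : Ω → ℝ} (G a : Ω → ℝ) {K q c : ℝ}
    (hc : 0 ≤ c) (hcq : c * q < 1)
    (h : ∀ y : ℝ, ∑ ω, w ω * Real.exp (G ω + y * a ω) ≤ K * Real.exp (q / 2 * y ^ 2)) :
    ∑ ω, w ω * Real.exp (G ω + c / 2 * a ω ^ 2) ≤ K * (1 / Real.sqrt (1 - c * q)) := by
  have hs2 : 0 < Real.sqrt (2 * Real.pi) := Real.sqrt_pos.2 (by positivity)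
  have hb : 0 < (1 - c * q) / 2 := by linarith
  have h1 : ∫ x : ℝ, ∑ ω, w ω * Real.exp (G ω) * Real.exp ((Real.sqrt c * a ω) * x - x ^ 2 / 2) =
      Real.sqrt (2 * Real.pi) * ∑ ω, w ω * Real.exp (G ω + c / 2 * a ω ^ 2) := by
    rw [integral_finsetSum _ fun ω _ => (gauss_int _).1.const_mul _, mul_sum]
    refine sum_congr rfl fun ω _ => ?_
    rw [integral_const_mul, (gauss_int _).2, Real.exp_add, mul_pow, Real.sq_sqrt hc]
    have : c * a ω ^ 2 / 2 = c / 2 * a ω ^ 2 := by ring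
    rw [this]; ring
  have h2 : ∫ x : ℝ, K * Real.exp (-((1 - c * q) / 2) * x ^ 2) =
      K * Real.sqrt (Real.pi / ((1 - c * q) / 2)) := by
    rw [integral_const_mul, integral_gaussian]
  have h3 : ∫ x : ℝ, ∑ ω, w ω * Real.exp (G ω) * Real.exp ((Real.sqrt c * a ω) * x - x ^ 2 / 2) ≤
      ∫ x : ℝ, K * Real.exp (-((1 - c * q) / 2) * x ^ 2) := by
    refine integral_mono (integrable_finsetSum _ fun ω _ => (gauss_int _).1.const_mul _)
      ((integrable_exp_neg_mul_sq hb).const_mul _) fun x => ?_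
    have h4 := h (Real.sqrt c * x)
    have h5 : ∑ ω, w ω * Real.exp (G ω) * Real.exp ((Real.sqrt c * a ω) * x - x ^ 2 / 2) =
        (∑ ω, w ω * Real.exp (G ω + Real.sqrt c * x * a ω)) * Real.exp (-(x ^ 2 / 2)) := by
      rw [sum_mul]
      refine sum_congr rfl fun ω _ => ?_
      have e : G ω + Real.sqrt c * x * a ω + -(x ^ 2 / 2) =
          G ω + ((Real.sqrt c * a ω) * x - x ^ 2 / 2) := by ring
      rw [mul_assoc (w ω), mul_assoc (w ω), ← Real.exp_add, ← Real.exp_add, e]
    rw [h5]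
    calc _ ≤ (K * Real.exp (q / 2 * (Real.sqrt c * x) ^ 2)) * Real.exp (-(x ^ 2 / 2)) := by gcongr
      _ = K * Real.exp (-((1 - c * q) / 2) * x ^ 2) := by
          rw [mul_assoc, ← Real.exp_add, mul_pow, Real.sq_sqrt hc]; congr 2; ring
  rw [h1, h2] at h3
  have h6 : Real.sqrt (Real.pi / ((1 - c * q) / 2)) =
      Real.sqrt (2 * Real.pi) * (1 / Real.sqrt (1 - c * q)) := by
    have : Real.pi / ((1 - c * q) / 2) = 2 * Real.pi / (1 - c * q) := by field_simp
    rw [this, Real.sqrt_div (by positivity)]; ring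
  rw [h6] at h3
  have h7 : Real.sqrt (2 * Real.pi) * ∑ ω, w ω * Real.exp (G ω + c / 2 * a ω ^ 2) ≤
      Real.sqrt (2 * Real.pi) * (K * (1 / Real.sqrt (1 - c * q))) := by linarith
  exact le_of_mul_le_mul_left h7 hs2

/-- linearisation of all modes -/
lemma all_modes {Ω I : Type*} [Fintype Ω] [Fintype I] [DecidableEq I] {w : Ω → ℝ} (a : I → Ω → ℝ)
    {K q : ℝ} {c : I → ℝ} (hc : ∀ i, 0 ≤ c i) (hcq : ∀ i, c i * q < 1)
    (h : ∀ y : I → ℝ, ∑ ω, w ω * Real.exp (∑ i, y i * a i ω) ≤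
      K * Real.exp (q / 2 * ∑ i, y i ^ 2)) (S : Finset I) (y : I → ℝ) :
    ∑ ω, w ω * Real.exp (∑ i, if i ∈ S then c i / 2 * a i ω ^ 2 else y i * a i ω) ≤
      K * (∏ i ∈ S, (1 / Real.sqrt (1 - c i * q))) *
        Real.exp (q / 2 * ∑ i, if i ∈ S then 0 else y i ^ 2) := by
  induction S using Finset.induction_on generalizing y with
  | empty => simpa using h y
  | insert j S hj ih =>
    have e1 : ∀ ω, (∑ i, if i ∈ insert j S then c i / 2 * a i ω ^ 2 else y i * a i ω) =
        (∑ i ∈ univ.erase j, if i ∈ S then c i / 2 * a i ω ^ 2 else y i * a i ω) +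
          c j / 2 * a j ω ^ 2 := by
      intro ω
      rw [← sum_erase_add _ _ (mem_univ j), if_pos (mem_insert_self _ _)]
      congr 1
      refine sum_congr rfl fun i hi => ?_
      have hij : i ≠ j := (mem_erase.1 hi).1
      simp [mem_insert, hij]
    have e2 : (∑ i, if i ∈ insert j S then 0 else y i ^ 2) =
        ∑ i ∈ univ.erase j, if i ∈ S then 0 else y i ^ 2 := by
      rw [← sum_erase_add _ _ (mem_univ j), if_pos (mem_insert_self _ _), add_zero]
      refine sum_congr rfl fun i hi => ?_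
      have hij : i ≠ j := (mem_erase.1 hi).1
      simp [mem_insert, hij]
    have h1 := one_mode (w := w)
      (fun ω => ∑ i ∈ univ.erase j, if i ∈ S then c i / 2 * a i ω ^ 2 else y i * a i ω) (a j)
      (K := K * (∏ i ∈ S, (1 / Real.sqrt (1 - c i * q))) *
        Real.exp (q / 2 * ∑ i ∈ univ.erase j, if i ∈ S then 0 else y i ^ 2)) (q := q)
      (hc j) (hcq j) (fun t => by
        have h2 := ih (Function.update y j t)
        have e3 : ∀ ω, (∑ i, if i ∈ S then c i / 2 * a i ω ^ 2 else Function.update y j t i * a i ω) =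
            (∑ i ∈ univ.erase j, if i ∈ S then c i / 2 * a i ω ^ 2 else y i * a i ω) +
              t * a j ω := by
          intro ω
          rw [← sum_erase_add _ _ (mem_univ j), if_neg hj, Function.update_self]
          congr 1
          refine sum_congr rfl fun i hi => ?_
          have hij : i ≠ j := (mem_erase.1 hi).1
          rw [Function.update_of_ne hij]
        have e4 : (∑ i, if i ∈ S then 0 else Function.update y j t i ^ 2) =
            (∑ i ∈ univ.erase j, if i ∈ S then 0 else y i ^ 2) + t ^ 2 := by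
          rw [← sum_erase_add _ _ (mem_univ j), if_neg hj, Function.update_self]
          congr 1
          refine sum_congr rfl fun i hi => ?_
          have hij : i ≠ j := (mem_erase.1 hi).1
          rw [Function.update_of_ne hij]
        simp only [e3] at h2
        rw [e4, mul_add, Real.exp_add] at h2
        linarith)
    simp only [e1]
    rw [e2, prod_insert hj]
    linarith

lemma inv_sqrt_le {u u0 : ℝ} (hu : 0 ≤ u) (hu0 : u ≤ u0) (h1 : u0 < 1) :
    1 / Real.sqrt (1 - u) ≤ Real.exp (u / (1 - u0)) := by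
  have h2 : 0 < 1 - u := by linarith
  have h3 : 1 - u ≤ Real.sqrt (1 - u) := by
    refine Real.le_sqrt_of_sq_le ?_
    nlinarith
  calc 1 / Real.sqrt (1 - u) ≤ 1 / (1 - u) := one_div_le_one_div_of_le h2 h3
    _ = u / (1 - u) + 1 := by field_simp; ring
    _ ≤ Real.exp (u / (1 - u)) := Real.add_one_le_exp _
    _ ≤ _ := by
        refine Real.exp_le_exp.2 ?_
        gcongr

lemma all_modes' {Ω I : Type*} [Fintype Ω] [Fintype I] [DecidableEq I] {w : Ω → ℝ} (a : I → Ω → ℝ)
    {K q u0 : ℝ} {c : I → ℝ} (hK : 0 ≤ K) (hq : 0 ≤ q) (hu : u0 < 1) (hc : ∀ i, 0 ≤ c i)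
    (hcq : ∀ i, c i * q ≤ u0)
    (h : ∀ y : I → ℝ, ∑ ω, w ω * Real.exp (∑ i, y i * a i ω) ≤
      K * Real.exp (q / 2 * ∑ i, y i ^ 2)) :
    ∑ ω, w ω * Real.exp (∑ i, c i / 2 * a i ω ^ 2) ≤
      K * Real.exp ((∑ i, c i) * q / (1 - u0)) := by
  have h1 := all_modes a hc (fun i => lt_of_le_of_lt (hcq i) hu) h univ 0
  simp only [mem_univ, if_true, sum_const_zero, mul_zero, Real.exp_zero, mul_one] at h1
  refine h1.trans ?_
  gcongr
  calc ∏ i, (1 / Real.sqrt (1 - c i * q)) ≤ ∏ i, Real.exp (c i * q / (1 - u0)) := by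
        refine prod_le_prod (fun i _ => by positivity) fun i _ => ?_
        exact inv_sqrt_le (mul_nonneg (hc i) hq) (hcq i) hu
    _ = _ := by rw [← Real.exp_sum, sum_mul, sum_div]

end Pool.Agent.Helper95.Poly
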