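import Mathlib
import Pool.Agent.Helper95.PolyDens

set_option autoImplicit false
set_option linter.unusedSectionVars false

open Finset Filter

namespace Pool.Agent.Helper95.Poly

/-- the numerical constant of the two-dimensional heat kernel bound -/
noncomputable def C2 : ℝ := 1296 ^ 2

lemma C2_pos : 0 < C2 := by unfold C2; norm_num
lemma C2_ge : 1 ≤ C2 := by unfold C2; norm_num

/-- density thresholds -/
noncomputable def Dl (a : ℕ) (U : ℝ) (l : ℕ) : ℝ := 40 * C2 * 4 ^ l * (((a - l : ℕ) : ℝ) + 1) ^ 2 * U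

/-- all folded dyadic cubes have controlled occupation -/
def Good (a : ℕ) (U : ℝ) (M : List (ℤ × ℤ)) : Prop :=
  ∀ l ≤ a, ∀ c, lsum (ind a l c) M ≤ Dl a U l

lemma Good.tail {a : ℕ} {U : ℝ} {y : ℤ × ℤ} {M : List (ℤ × ℤ)} (h : Good a U (y :: M)) :
    Good a U M := fun l hl c => by
  have := h l hl c
  rw [lsum_cons] at this
  linarith [ind_nonneg a l c y]

/-- rate -/
noncomputable def rate (a l : ℕ) : ℝ := 1 / (40 * C2 * 4 ^ l * (((a - l : ℕ) : ℝ) + 1))

lemma rate_pos (a l : ℕ) : 0 < rate a l := by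
  have := C2_pos
  unfold rate; positivity

lemma rate_mul_Dl (a l : ℕ) (U : ℝ) : rate a l * Dl a U l = (((a - l : ℕ) : ℝ) + 1) * U := by
  have := C2_pos
  have h : (0:ℝ) < ((a - l : ℕ) : ℝ) + 1 := by positivity
  unfold rate Dl
  field_simp

lemma Gk_ind_le {a l : ℕ} (hl : l ≤ a) (c : ZMod (2 ^ (a - l)) × ZMod (2 ^ (a - l))) (x : ℤ × ℤ) :
    Gk (dg ℤ) (ind a l c) (4 ^ a) x ≤ 4 * C2 * 4 ^ l * (((a - l : ℕ) : ℝ) + 1) := by
  have hC := C2_ge
  have h1 : Gk (dg ℤ) (ind a l c) (4 ^ a) x ≤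
      ∑ k ∈ range (4 ^ (l + (a - l))), min 1 (C2 * 4 ^ l / ((k:ℝ) + 1)) := by
    rw [Nat.add_sub_cancel' hl]
    refine sum_le_sum fun k hk => ?_
    have hk' : k + 1 ≤ 4 ^ a := mem_range.1 hk
    have hk2 : ((k + 1 : ℕ) : ℝ) + 1 ≤ 2 * ((2 ^ a : ℕ) : ℝ) ^ 2 := by
      have h3 : ((k + 1 : ℕ) : ℝ) ≤ 4 ^ a := by exact_mod_cast hk'
      have h4 : (((2 ^ a : ℕ) : ℝ)) ^ 2 = 4 ^ a := by
        push_cast
        rw [← pow_mul, mul_comm, pow_mul]; norm_num
      have h5 : (1:ℝ) ≤ 4 ^ a := one_le_pow₀ (by norm_num)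
      rw [h4]; linarith
    refine (ind_hit hl c hk2 x).trans ?_
    refine min_le_min le_rfl ?_
    have h6 := C2_pos
    unfold C2
    gcongr
    linarith
  refine h1.trans ((sum_min_le C2_pos.le l (a - l)).trans ?_)
  have h2 : (0:ℝ) ≤ ((a - l : ℕ) : ℝ) := by positivity
  have h3 : (1 + 3 * C2 * ((a - l : ℕ) : ℝ)) ≤ 4 * C2 * (((a - l : ℕ) : ℝ) + 1) := by nlinarith
  calc (4:ℝ) ^ l * (1 + 3 * C2 * ((a - l : ℕ) : ℝ)) ≤ 4 ^ l * (4 * C2 * (((a - l : ℕ) : ℝ) + 1)) := by
        gcongr
    _ = _ := by ring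

lemma ind_exp {a l : ℕ} (hl : l ≤ a) (c : ZMod (2 ^ (a - l)) × ZMod (2 ^ (a - l))) (n : ℕ) :
    EE (dg ℤ) n (fun L x => Real.exp (rate a l * lsum (ind a l c) (x :: L))) ≤
      2 ^ ((n + 1) / 4 ^ a + 1) := by
  have hr := rate_pos a l
  have hC := C2_ge
  have h0 : (0:ℝ) ≤ ((a - l : ℕ) : ℝ) := by positivity
  have h4 : (1:ℝ) ≤ 4 ^ l := one_le_pow₀ (by norm_num)
  have hr1 : rate a l ≤ 1 / 10 := by
    unfold rate
    rw [div_le_div_iff₀ (by positivity) (by norm_num)]
    have : 1 ≤ C2 * 4 ^ l * (((a - l : ℕ) : ℝ) + 1) := by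
      have h5 : 1 ≤ C2 * 4 ^ l := one_le_mul_of_one_le_of_one_le hC h4
      exact one_le_mul_of_one_le_of_one_le h5 (by linarith)
    nlinarith
  have h := khas_exp (dg ℤ) (V := fun y => rate a l * ind a l c y)
    (fun y => mul_nonneg hr.le (ind_nonneg _ _ _ _))
    (fun y => by
      calc rate a l * ind a l c y ≤ 1 / 10 * 1 :=
            mul_le_mul hr1 (ind_le_one _ _ _ _) (ind_nonneg _ _ _ _) (by norm_num)
        _ = 1 / 10 := mul_one _) (b := 4 ^ a) (by positivity)
    (fun x => by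
      rw [Gk_mul]
      calc rate a l * Gk (dg ℤ) (ind a l c) (4 ^ a) x
          ≤ rate a l * (4 * C2 * 4 ^ l * (((a - l : ℕ) : ℝ) + 1)) := by
            gcongr; exact Gk_ind_le hl c x
        _ = 1 / 10 := by
            unfold rate
            field_simp
            norm_num
        _ ≤ 1 / 4 := by norm_num) n
  refine le_trans (le_of_eq (EE_congr _ fun L x _ => ?_)) h
  rw [lsum_mul]

open Classical in
/-- probability of the bad density event -/
lemma bad_le (a : ℕ) {U : ℝ} (hU : 3 ≤ U) (n : ℕ) :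
    EE (dg ℤ) n (fun L x => if Good a U (x :: L) then 0 else 1) ≤
      2 * Real.exp (-U) * 2 ^ ((n + 1) / 4 ^ a + 1) := by
  have h1 : EE (dg ℤ) n (fun L x => if Good a U (x :: L) then 0 else 1) ≤
      EE (dg ℤ) n (fun L x => ∑ l ∈ range (a + 1), ∑ c : ZMod (2 ^ (a - l)) × ZMod (2 ^ (a - l)),
        Real.exp (-((((a - l : ℕ) : ℝ) + 1) * U)) *
          Real.exp (rate a l * lsum (ind a l c) (x :: L))) := by
    refine EE_mono _ fun L x _ => ?_
    split_ifs with hg
    · exact sum_nonneg fun l _ => sum_nonneg fun c _ => by positivity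
    · unfold Good at hg
      push Not at hg
      obtain ⟨l, hl, c, hc⟩ := hg
      have h2 : 1 ≤ Real.exp (-((((a - l : ℕ) : ℝ) + 1) * U)) *
          Real.exp (rate a l * lsum (ind a l c) (x :: L)) := by
        rw [← Real.exp_add, ← rate_mul_Dl]
        refine Real.one_le_exp ?_
        have := mul_le_mul_of_nonneg_left hc.le (rate_pos a l).le
        linarith
      refine h2.trans ?_
      refine le_trans ?_ (single_le_sum (f := fun l => ∑ c : ZMod (2 ^ (a - l)) × ZMod (2 ^ (a - l)),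
        Real.exp (-((((a - l : ℕ) : ℝ) + 1) * U)) *
          Real.exp (rate a l * lsum (ind a l c) (x :: L)))
        (fun l _ => sum_nonneg fun c _ => by positivity) (mem_range.2 (by omega : l < a + 1)))
      exact single_le_sum (f := fun c => Real.exp (-((((a - l : ℕ) : ℝ) + 1) * U)) *
          Real.exp (rate a l * lsum (ind a l c) (x :: L))) (fun c _ => by positivity) (mem_univ c)
  refine h1.trans ?_
  rw [EE_sum]
  set Q : ℝ := 2 ^ ((n + 1) / 4 ^ a + 1) with hQ
  have hQ0 : 0 ≤ Q := by positivity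
  calc _ ≤ ∑ l ∈ range (a + 1), Real.exp (-U) * (1/2) ^ (a - l) * Q := by
        refine sum_le_sum fun l hl => ?_
        have hl' : l ≤ a := by have := mem_range.1 hl; omega
        rw [EE_sum]
        calc _ ≤ ∑ _c : ZMod (2 ^ (a - l)) × ZMod (2 ^ (a - l)),
              Real.exp (-((((a - l : ℕ) : ℝ) + 1) * U)) * Q := by
              refine sum_le_sum fun c _ => ?_
              rw [EE_mul]
              gcongr
              exact ind_exp hl' c n
          _ = 4 ^ (a - l) * (Real.exp (-((((a - l : ℕ) : ℝ) + 1) * U)) * Q) := by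
              rw [sum_const, card_univ, nsmul_eq_mul]
              congr 1
              rw [Fintype.card_prod, ZMod.card]
              push_cast
              rw [← mul_pow]; norm_num
          _ ≤ _ := by
              rw [← mul_assoc]
              refine mul_le_mul_of_nonneg_right ?_ hQ0
              have e1 : Real.exp (-((((a - l : ℕ) : ℝ) + 1) * U)) =
                  Real.exp (-U) * Real.exp (-U) ^ (a - l) := by
                rw [← Real.exp_nat_mul, ← Real.exp_add]; congr 1; ring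
              rw [e1]
              have e2 : Real.exp (-U) ≤ 1 / 8 := by
                have e3 : Real.exp (-U) ≤ Real.exp (-3) := Real.exp_le_exp.2 (by linarith)
                have e4 : Real.exp (-3) ≤ 1 / 8 := by
                  rw [Real.exp_neg, inv_le_comm₀ (Real.exp_pos _) (by norm_num)]
                  have e5 : (2:ℝ) ≤ Real.exp 1 := by
                    have := Real.add_one_le_exp (1:ℝ); linarith
                  have e6 : Real.exp 3 = Real.exp 1 ^ 3 := by
                    rw [← Real.exp_nat_mul]; norm_num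
                  rw [e6]
                  calc ((1:ℝ) / 8)⁻¹ = 2 ^ 3 := by norm_num
                    _ ≤ _ := by gcongr
                linarith
              calc (4:ℝ) ^ (a - l) * (Real.exp (-U) * Real.exp (-U) ^ (a - l))
                  = Real.exp (-U) * (4 * Real.exp (-U)) ^ (a - l) := by rw [mul_pow]; ring
                _ ≤ Real.exp (-U) * (1 / 2) ^ (a - l) := by
                    gcongr
                    linarith
    _ = (Real.exp (-U) * Q) * ∑ l ∈ range (a + 1), (1/2:ℝ) ^ l := by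
        rw [← sum_range_reflect (fun l => (1/2:ℝ) ^ l), mul_sum]
        refine sum_congr rfl fun l _ => ?_
        rw [Nat.add_sub_cancel]; ring
    _ ≤ (Real.exp (-U) * Q) * 2 := by
        gcongr
        have h3 : ∀ m : ℕ, ∑ l ∈ range m, (1/2:ℝ) ^ l ≤ 2 - (1/2) ^ m * 2 + 0 := by
          intro m
          induction m with
          | zero => simp
          | succ m ih => rw [sum_range_succ, pow_succ]; linarith
        have := h3 (a + 1)
        have h4 : (0:ℝ) < (1/2) ^ (a + 1) := by positivity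
        linarith
    _ = _ := by ring

lemma sq_le_geom (m : ℕ) : ((m:ℝ) + 1) ^ 2 ≤ 5 * (3 / 2) ^ m := by
  rcases Nat.lt_or_ge m 4 with h | h
  · interval_cases m <;> norm_num
  · induction m, h using Nat.le_induction with
    | base => norm_num
    | succ m hm ih =>
      have hm' : (4:ℝ) ≤ m := by exact_mod_cast hm
      have h1 : ((m:ℝ) + 1 + 1) ^ 2 ≤ 3 / 2 * ((m:ℝ) + 1) ^ 2 := by nlinarith
      push_cast
      calc ((m:ℝ) + 1 + 1) ^ 2 ≤ 3 / 2 * ((m:ℝ) + 1) ^ 2 := h1
        _ ≤ 3 / 2 * (5 * (3 / 2) ^ m) := by gcongr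
        _ = _ := by rw [pow_succ]; ring

lemma Dl_le (a : ℕ) {U : ℝ} (hU : 0 ≤ U) (l : ℕ) :
    Dl a U l ≤ 200 * C2 * U * (4 ^ l * (3 / 2) ^ (a - l)) := by
  have h := sq_le_geom (a - l)
  have := C2_pos
  unfold Dl
  calc 40 * C2 * 4 ^ l * (((a - l : ℕ) : ℝ) + 1) ^ 2 * U
      ≤ 40 * C2 * 4 ^ l * (5 * (3 / 2) ^ (a - l)) * U := by gcongr
    _ = _ := by ring

end Pool.Agent.Helper95.Poly
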