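import Mathlib
import Pool.Agent.Helper95.PolyGood

set_option autoImplicit false
set_option linter.unusedSectionVars false

open Finset Filter

namespace Pool.Agent.Helper95.Poly

/-- heat kernel of the diagonal walk -/
noncomputable def pk (k : ℕ) (x : ℤ × ℤ) : ℝ := bk k x.1 * bk k x.2

/-- truncated Green function -/
noncomputable def gT (T : ℕ) (x : ℤ × ℤ) : ℝ := ∑ k ∈ range T, pk k x

lemma pk_nonneg (k : ℕ) (x : ℤ × ℤ) : 0 ≤ pk k x := mul_nonneg (bk_nonneg _ _) (bk_nonneg _ _)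

lemma pk_zero : pk 0 = dl := by
  funext x
  rw [pk, dl, bk_zero, bk_zero]
  by_cases h : x = 0
  · subst h; simp
  · rw [if_neg h]
    have : x.1 ≠ 0 ∨ x.2 ≠ 0 := by
      by_contra hc
      push Not at hc
      exact h (Prod.ext hc.1 hc.2)
    rcases this with h1 | h1
    · rw [if_neg h1, zero_mul]
    · rw [if_neg h1, mul_zero]

lemma Pop_pk (k : ℕ) (x : ℤ × ℤ) : Pop (dg ℤ) (pk k) x = pk (k + 1) x := by
  have h := Pop_dg_prod (bk k) (bk k) x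
  have h2 : (fun y : ℤ × ℤ => bk k y.1 * bk k y.2) = pk k := rfl
  rw [h2] at h
  rw [h, P1, P1, pk, bk_succ, bk_succ]
  ring

lemma gT_nonneg (T : ℕ) (x : ℤ × ℤ) : 0 ≤ gT T x := sum_nonneg fun k _ => pk_nonneg k x

lemma Pop_gT (T : ℕ) (x : ℤ × ℤ) : Pop (dg ℤ) (gT T) x = ∑ k ∈ range T, pk (k + 1) x := by
  have : gT T = fun y => ∑ k ∈ range T, pk k y := rfl
  rw [this, Pop_sum]
  exact sum_congr rfl fun k _ => Pop_pk k x

lemma gT_identity (T : ℕ) (x : ℤ × ℤ) : gT T x - Pop (dg ℤ) (gT T) x = dl x - pk T x := by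
  rw [Pop_gT, gT, ← pk_zero]
  have h : ∑ k ∈ range T, pk k x + pk T x = ∑ k ∈ range T, pk (k + 1) x + pk 0 x := by
    rw [← sum_range_succ, sum_range_succ']
  linarith

/-- difference -/
noncomputable def dlt (k : ℕ) (u : ℤ) : ℝ := |bk k (u + 1) - bk k (u - 1)|

lemma dlt_eq (k : ℕ) (u : ℤ) : dlt k u = 2 * |(u:ℝ)| / ((k:ℝ) + 1) * bk (k + 1) u := by
  have h := bk_grad k u
  have hk : (0:ℝ) < (k:ℝ) + 1 := by positivity
  have h2 : bk k (u + 1) - bk k (u - 1) = (-2 * u * bk (k + 1) u) / ((k:ℝ) + 1) := by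
    rw [eq_div_iff hk.ne', mul_comm]; exact h
  rw [dlt, h2, abs_div, abs_of_pos hk, abs_mul, abs_mul, abs_of_nonneg (bk_nonneg _ _)]
  norm_num
  ring

lemma step_bounds (k : ℕ) {u v s : ℤ} (hs : s = 1 ∨ s = -1) {ρ : ℝ} (hρ : 1 ≤ ρ)
    (hu : |(u:ℝ)| ≤ ρ) (h : |(u:ℝ)| = ρ ∨ |(v:ℝ)| = ρ) :
    dlt k u * bk k (v + s) ≤ 2 * ρ / ((k:ℝ) + 1) ^ 2 ∧
    dlt k u * bk k (v + s) ≤ 108 / (ρ ^ 2 * Real.sqrt ((k:ℝ) + 1)) := by
  set q := Real.sqrt ((k:ℝ) + 1) with hq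
  have hk : (0:ℝ) < (k:ℝ) + 1 := by positivity
  have hq0 : 0 < q := Real.sqrt_pos.2 hk
  have hq2 : q ^ 2 = (k:ℝ) + 1 := Real.sq_sqrt hk.le
  have hρ0 : 0 < ρ := by linarith
  have b1 : bk (k + 1) u ≤ 1 / q := by
    refine (bk_le (k + 1) u).trans ?_
    gcongr
    rw [hq]
    refine Real.sqrt_le_sqrt ?_
    push_cast; linarith
  have b2 : bk k (v + s) ≤ 1 / q := bk_le k _
  have b10 := bk_nonneg (k + 1) u
  have b20 := bk_nonneg k (v + s)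
  have hu0 := abs_nonneg (u:ℝ)
  rw [dlt_eq, ← hq2]
  constructor
  · calc 2 * |(u:ℝ)| / q ^ 2 * bk (k + 1) u * bk k (v + s)
        ≤ 2 * ρ / q ^ 2 * (1 / q) * (1 / q) := by gcongr
      _ = 2 * ρ / (q ^ 2) ^ 2 := by field_simp
  · rcases h with h | h
    · have b3 : bk (k + 1) u ≤ 54 * q ^ 2 / ρ ^ 3 := by
        rw [le_div_iff₀ (by positivity)]
        have h1 := bk_cube (k + 1) u
        rw [h] at h1
        push_cast at h1
        calc bk (k + 1) u * ρ ^ 3 ≤ bk (k + 1) u * (ρ + 1) ^ 3 := by gcongr; linarith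
          _ ≤ 27 * ((k:ℝ) + 1 + 1) := h1
          _ ≤ 54 * q ^ 2 := by rw [hq2]; nlinarith [(Nat.cast_nonneg k : (0:ℝ) ≤ k)]
      calc 2 * |(u:ℝ)| / q ^ 2 * bk (k + 1) u * bk k (v + s)
          ≤ 2 * ρ / q ^ 2 * (54 * q ^ 2 / ρ ^ 3) * (1 / q) := by gcongr
        _ = 108 / (ρ ^ 2 * q) := by field_simp; norm_num
    · have b3 : bk k (v + s) ≤ 27 * q ^ 2 / ρ ^ 3 := by
        rw [le_div_iff₀ (by positivity)]
        have h1 := bk_cube k (v + s)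
        have h2 : ρ ≤ |(((v + s : ℤ)) : ℝ)| + 1 := by
          rw [← h]
          push_cast
          have h3 := abs_sub_abs_le_abs_sub (v:ℝ) (-(s:ℝ))
          rw [abs_neg, sub_neg_eq_add] at h3
          have h4 : |(s:ℝ)| = 1 := by rcases hs with h | h <;> rw [h] <;> simp
          linarith
        calc bk k (v + s) * ρ ^ 3 ≤ bk k (v + s) * (|(((v + s : ℤ)) : ℝ)| + 1) ^ 3 := by gcongr
          _ ≤ 27 * ((k:ℝ) + 1) := h1
          _ = 27 * q ^ 2 := by rw [hq2]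
      calc 2 * |(u:ℝ)| / q ^ 2 * bk (k + 1) u * bk k (v + s)
          ≤ 2 * ρ / q ^ 2 * (1 / q) * (27 * q ^ 2 / ρ ^ 3) := by gcongr
        _ = 54 / (ρ ^ 2 * q) := by field_simp; norm_num
        _ ≤ 108 / (ρ ^ 2 * q) := by gcongr; norm_num

lemma diff_le (k : ℕ) {u s s' : ℤ} (hs : s = 1 ∨ s = -1) (hs' : s' = 1 ∨ s' = -1) :
    |bk k (u + s) - bk k (u + s')| ≤ dlt k u := by
  have e : u + -1 = u - 1 := by ring
  rcases hs with rfl | rfl <;> rcases hs' with rfl | rfl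
  · rw [sub_self, abs_zero]; exact abs_nonneg _
  · rw [e]; exact le_rfl
  · rw [e, abs_sub_comm]; exact le_rfl
  · rw [sub_self, abs_zero]; exact abs_nonneg _

lemma pk_diff (k : ℕ) {u v s t s' t' : ℤ} (hs : s = 1 ∨ s = -1) (ht : t = 1 ∨ t = -1)
    (hs' : s' = 1 ∨ s' = -1) (ht' : t' = 1 ∨ t' = -1) {ρ : ℝ} (hρ : 1 ≤ ρ)
    (hu : |(u:ℝ)| ≤ ρ) (hv : |(v:ℝ)| ≤ ρ) (h : |(u:ℝ)| = ρ ∨ |(v:ℝ)| = ρ) :
    |pk k (u + s, v + t) - pk k (u + s', v + t')| ≤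
      min (4 * ρ / ((k:ℝ) + 1) ^ 2) (216 / (ρ ^ 2 * Real.sqrt ((k:ℝ) + 1))) := by
  have h1 := step_bounds k (u := u) (v := v) (s := t) ht hρ hu h
  have h2 := step_bounds k (u := v) (v := u) (s := s') hs' hρ hv h.symm
  have h3 : |pk k (u + s, v + t) - pk k (u + s', v + t')| ≤
      dlt k u * bk k (v + t) + dlt k v * bk k (u + s') := by
    have e : pk k (u + s, v + t) - pk k (u + s', v + t') =
        (bk k (u + s) - bk k (u + s')) * bk k (v + t) +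
        (bk k (v + t) - bk k (v + t')) * bk k (u + s') := by
      simp only [pk]; ring
    rw [e]
    refine (abs_add_le _ _).trans ?_
    rw [abs_mul, abs_mul, abs_of_nonneg (bk_nonneg k (v + t)), abs_of_nonneg (bk_nonneg k (u + s'))]
    have b1 := bk_nonneg k (v + t)
    have b2 := bk_nonneg k (u + s')
    gcongr
    · exact diff_le k hs hs'
    · exact diff_le k ht ht'
  refine h3.trans (le_min ?_ ?_)
  · calc _ ≤ 2 * ρ / ((k:ℝ) + 1) ^ 2 + 2 * ρ / ((k:ℝ) + 1) ^ 2 := add_le_add h1.1 h2.1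
      _ = _ := by ring
  · calc _ ≤ 108 / (ρ ^ 2 * Real.sqrt ((k:ℝ) + 1)) + 108 / (ρ ^ 2 * Real.sqrt ((k:ℝ) + 1)) :=
          add_le_add h1.2 h2.2
      _ = _ := by ring

lemma sum_inv_sqrt (T : ℕ) : ∑ k ∈ range T, 1 / Real.sqrt ((k:ℝ) + 1) ≤ 2 * Real.sqrt T := by
  induction T with
  | zero => simp
  | succ T ih =>
    rw [sum_range_succ]
    push_cast
    set p := Real.sqrt (T:ℝ) with hp
    set q := Real.sqrt ((T:ℝ) + 1) with hq
    have hq0 : 0 < q := Real.sqrt_pos.2 (by positivity)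
    have hp0 : 0 ≤ p := Real.sqrt_nonneg _
    have hp2 : p ^ 2 = T := Real.sq_sqrt (by positivity)
    have hq2 : q ^ 2 = (T:ℝ) + 1 := Real.sq_sqrt (by positivity)
    have h1 : 1 / q ≤ 2 * (q - p) := by
      rw [div_le_iff₀ hq0]
      nlinarith [sq_nonneg (q - p)]
    linarith

lemma sum_inv_sq_tail {N : ℕ} (hN : 1 ≤ N) (m : ℕ) :
    ∑ k ∈ range m, 1 / (((N + k : ℕ) : ℝ) + 1) ^ 2 ≤ 1 / N - 1 / ((N:ℝ) + m) := by
  have hN' : (1:ℝ) ≤ N := by exact_mod_cast hN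
  induction m with
  | zero => simp
  | succ m ih =>
    rw [sum_range_succ]
    push_cast at ih ⊢
    have hm : (0:ℝ) ≤ m := by positivity
    have h1 : 1 / ((N:ℝ) + m + 1) ^ 2 ≤ 1 / ((N:ℝ) + m) - 1 / ((N:ℝ) + (m + 1)) := by
      rw [div_sub_div _ _ (by positivity) (by positivity),
        div_le_div_iff₀ (by positivity) (by positivity)]
      nlinarith
    linarith

lemma sqrt_four_pow (τ : ℕ) : Real.sqrt ((4:ℝ) ^ τ) = 2 ^ τ := by
  have : (4:ℝ) ^ τ = (2 ^ τ) ^ 2 := by rw [← pow_mul, mul_comm, pow_mul]; norm_num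
  rw [this, Real.sqrt_sq (by positivity)]

lemma min_sum_le (τ ρ : ℕ) (hρ : 1 ≤ ρ) :
    ∑ k ∈ range (4 ^ τ), min (4 * (ρ:ℝ) / ((k:ℝ) + 1) ^ 2) (216 / ((ρ:ℝ) ^ 2 * Real.sqrt ((k:ℝ) + 1)))
      ≤ min (436 / (ρ:ℝ)) (432 * 2 ^ τ / (ρ:ℝ) ^ 2) := by
  have hρ' : (1:ℝ) ≤ ρ := by exact_mod_cast hρ
  have hρ0 : (0:ℝ) < ρ := by linarith
  have hA : ∀ T : ℕ, ∑ k ∈ range T, min (4 * (ρ:ℝ) / ((k:ℝ) + 1) ^ 2)
      (216 / ((ρ:ℝ) ^ 2 * Real.sqrt ((k:ℝ) + 1))) ≤ 432 * Real.sqrt T / (ρ:ℝ) ^ 2 := by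
    intro T
    calc _ ≤ ∑ k ∈ range T, 216 / (ρ:ℝ) ^ 2 * (1 / Real.sqrt ((k:ℝ) + 1)) := by
          refine sum_le_sum fun k _ => (min_le_right _ _).trans (le_of_eq ?_)
          rw [div_mul_div_comm, mul_one]
      _ = 216 / (ρ:ℝ) ^ 2 * ∑ k ∈ range T, (1 / Real.sqrt ((k:ℝ) + 1)) := by rw [mul_sum]
      _ ≤ 216 / (ρ:ℝ) ^ 2 * (2 * Real.sqrt T) := by gcongr; exact sum_inv_sqrt T
      _ = _ := by ring
  refine le_min ?_ ?_
  · rcases le_total (4 ^ τ) (ρ ^ 2) with h | h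
    · refine (hA _).trans ?_
      have h1 : Real.sqrt ((4 ^ τ : ℕ) : ℝ) ≤ ρ := by
        rw [← Real.sqrt_sq hρ0.le]
        refine Real.sqrt_le_sqrt ?_
        exact_mod_cast h
      calc 432 * Real.sqrt ((4 ^ τ : ℕ) : ℝ) / (ρ:ℝ) ^ 2 ≤ 432 * (ρ:ℝ) / (ρ:ℝ) ^ 2 := by gcongr
        _ = 432 / (ρ:ℝ) := by field_simp
        _ ≤ _ := by gcongr; norm_num
    · obtain ⟨m, hm⟩ := Nat.exists_eq_add_of_le h
      rw [hm, sum_range_add]
      have h1 := hA (ρ ^ 2)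
      have h2 : Real.sqrt ((ρ ^ 2 : ℕ) : ℝ) = ρ := by
        push_cast; exact Real.sqrt_sq hρ0.le
      rw [h2] at h1
      have h3 : ∑ k ∈ range m, min (4 * (ρ:ℝ) / (((ρ ^ 2 + k : ℕ) : ℝ) + 1) ^ 2)
          (216 / ((ρ:ℝ) ^ 2 * Real.sqrt (((ρ ^ 2 + k : ℕ) : ℝ) + 1))) ≤ 4 / (ρ:ℝ) := by
        calc _ ≤ ∑ k ∈ range m, 4 * (ρ:ℝ) * (1 / (((ρ ^ 2 + k : ℕ) : ℝ) + 1) ^ 2) := by
              refine sum_le_sum fun k _ => (min_le_left _ _).trans (le_of_eq ?_)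
              rw [mul_one_div]
          _ = 4 * (ρ:ℝ) * ∑ k ∈ range m, 1 / (((ρ ^ 2 + k : ℕ) : ℝ) + 1) ^ 2 := by rw [mul_sum]
          _ ≤ 4 * (ρ:ℝ) * (1 / ((ρ ^ 2 : ℕ) : ℝ)) := by
              gcongr
              have h4 := sum_inv_sq_tail (N := ρ ^ 2) (Nat.one_le_pow _ _ (by omega)) m
              have h5 : 0 ≤ 1 / (((ρ ^ 2 : ℕ) : ℝ) + m) := by positivity
              linarith
          _ = 4 / (ρ:ℝ) := by push_cast; field_simp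
      have h6 : 432 * (ρ:ℝ) / (ρ:ℝ) ^ 2 = 432 / (ρ:ℝ) := by field_simp
      rw [h6] at h1
      calc _ ≤ 432 / (ρ:ℝ) + 4 / (ρ:ℝ) := add_le_add h1 h3
        _ = _ := by ring
  · have := hA (4 ^ τ)
    push_cast at this
    rwa [sqrt_four_pow] at this

/-- sup norm on `ℤ²` -/
def rr (x : ℤ × ℤ) : ℕ := max x.1.natAbs x.2.natAbs

/-- explicit bound of the gradient of the truncated Green function -/
noncomputable def KK (τ : ℕ) (x : ℤ × ℤ) : ℝ :=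
  if rr x = 0 then 0 else min (436 / (rr x : ℝ)) (432 * 2 ^ τ / (rr x : ℝ) ^ 2)

lemma KK_nonneg (τ : ℕ) (x : ℤ × ℤ) : 0 ≤ KK τ x := by
  unfold KK; split_ifs
  · exact le_rfl
  · positivity

lemma dg_int (e : Fin 2 × Bool) :
    ((dg ℤ e).1 = 1 ∨ (dg ℤ e).1 = -1) ∧ ((dg ℤ e).2 = 1 ∨ (dg ℤ e).2 = -1) := by
  obtain ⟨i, b⟩ := e
  fin_cases i <;> cases b <;> simp [dg]

lemma gT_diff (τ : ℕ) (x : ℤ × ℤ) (e e' : Fin 2 × Bool) :
    |gT (4 ^ τ) (x + dg ℤ e) - gT (4 ^ τ) (x + dg ℤ e')| ≤ KK τ x := by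
  obtain ⟨h1, h2⟩ := dg_int e
  obtain ⟨h3, h4⟩ := dg_int e'
  unfold KK
  split_ifs with h0
  · have hx1 : x.1 = 0 := by
      have := le_max_left x.1.natAbs x.2.natAbs
      unfold rr at h0; omega
    have hx2 : x.2 = 0 := by
      have := le_max_right x.1.natAbs x.2.natAbs
      unfold rr at h0; omega
    have key : ∀ k {s t : ℤ}, (s = 1 ∨ s = -1) → (t = 1 ∨ t = -1) → pk k (s, t) = bk k 1 * bk k 1 := by
      intro k s t hs ht
      have hn := bk_neg k 1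
      rcases hs with rfl | rfl <;> rcases ht with rfl | rfl <;> simp [pk, hn]
    have e1 : gT (4 ^ τ) (x + dg ℤ e) = gT (4 ^ τ) (x + dg ℤ e') := by
      unfold gT
      refine sum_congr rfl fun k _ => ?_
      have a1 : x + dg ℤ e = ((dg ℤ e).1, (dg ℤ e).2) := by
        ext <;> simp [hx1, hx2]
      have a2 : x + dg ℤ e' = ((dg ℤ e').1, (dg ℤ e').2) := by
        ext <;> simp [hx1, hx2]
      rw [a1, a2, key k h1 h2, key k h3 h4]
    rw [e1, sub_self, abs_zero]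
  · have hρ : 1 ≤ rr x := Nat.one_le_iff_ne_zero.2 h0
    refine le_trans ?_ (min_sum_le τ (rr x) hρ)
    rw [gT, gT, ← sum_sub_distrib]
    refine (abs_sum_le_sum_abs _ _).trans (sum_le_sum fun k _ => ?_)
    have c1 : |(x.1:ℝ)| = (x.1.natAbs : ℝ) := by rw [Nat.cast_natAbs, Int.cast_abs]
    have c2 : |(x.2:ℝ)| = (x.2.natAbs : ℝ) := by rw [Nat.cast_natAbs, Int.cast_abs]
    refine pk_diff k (u := x.1) (v := x.2) h1 h2 h3 h4 (by exact_mod_cast hρ) ?_ ?_ ?_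
    · rw [c1]; exact_mod_cast le_max_left _ _
    · rw [c2]; exact_mod_cast le_max_right _ _
    · rcases max_choice x.1.natAbs x.2.natAbs with h | h
      · left; rw [c1]; unfold rr; rw [h]
      · right; rw [c2]; unfold rr; rw [h]

lemma grad_le (τ : ℕ) (x : ℤ × ℤ) (e : Fin 2 × Bool) :
    |gT (4 ^ τ) (x + dg ℤ e) - Pop (dg ℤ) (gT (4 ^ τ)) x| ≤ KK τ x := by
  have hc : (0:ℝ) < Fintype.card (Fin 2 × Bool) := card_pos'
  have h1 : gT (4 ^ τ) (x + dg ℤ e) - Pop (dg ℤ) (gT (4 ^ τ)) x =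
      (∑ e', (gT (4 ^ τ) (x + dg ℤ e) - gT (4 ^ τ) (x + dg ℤ e'))) / Fintype.card (Fin 2 × Bool) := by
    rw [Pop, sum_sub_distrib, sum_const, card_univ, nsmul_eq_mul, sub_div,
      mul_div_cancel_left₀ _ hc.ne']
  rw [h1, abs_div, abs_of_pos hc, div_le_iff₀ hc]
  refine (abs_sum_le_sum_abs _ _).trans ?_
  calc _ ≤ ∑ _e' : Fin 2 × Bool, KK τ x := sum_le_sum fun e' _ => gT_diff τ x e e'
    _ = _ := by rw [sum_const, card_univ, nsmul_eq_mul, mul_comm]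

end Pool.Agent.Helper95.Poly
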