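import Mathlib
import Pool.Agent.Helper95.PolyGrad

set_option autoImplicit false
set_option linter.unusedSectionVars false

open Finset Filter

namespace Pool.Agent.Helper95.Poly

/-- neighbouring offsets -/
noncomputable def nb : Finset (ℤ × ℤ) := (Icc (-1) 1) ×ˢ (Icc (-1) 1)

lemma card_nb : nb.card = 9 := by
  rw [nb, card_product, Int.card_Icc]
  rfl

/-- shifted index -/
def shf (a l : ℕ) (x ε : ℤ × ℤ) : ZMod (2 ^ (a - l)) × ZMod (2 ^ (a - l)) :=
  (((x.1 / 2 ^ l + ε.1 : ℤ) : ZMod (2 ^ (a - l))), ((x.2 / 2 ^ l + ε.2 : ℤ) : ZMod (2 ^ (a - l))))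

lemma div_diff {x y : ℤ} {N : ℤ} (hN : 0 < N) (h : |x - y| < N) :
    y / N - x / N ∈ Icc (-1:ℤ) 1 := by
  rw [abs_lt] at h
  have h1 := Int.emod_add_mul_ediv x N
  have h2 := Int.emod_add_mul_ediv y N
  have h3 := Int.emod_nonneg x hN.ne'
  have h4 := Int.emod_nonneg y hN.ne'
  have h5 := Int.emod_lt_of_pos x hN
  have h6 := Int.emod_lt_of_pos y hN
  rw [mem_Icc]
  constructor
  · by_contra hc
    push Not at hc
    have : y / N - x / N ≤ -2 := by omega
    nlinarith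
  · by_contra hc
    push Not at hc
    have : 2 ≤ y / N - x / N := by omega
    nlinarith

/-- weight of a dyadic shell -/
noncomputable def wl (τ l : ℕ) : ℝ := min (436 / (2:ℝ) ^ l) (432 * 2 ^ τ / 4 ^ l)

lemma wl_nonneg (τ l : ℕ) : 0 ≤ wl τ l := by unfold wl; positivity

lemma shell_point {a τ : ℕ} (x y : ℤ × ℤ) :
    KK τ (x - y) ≤ ∑ l ∈ range a, wl τ l * ∑ ε ∈ nb, ind a (l + 1) (shf a (l + 1) x ε) y +
      432 * 2 ^ τ / 4 ^ a := by
  have hS : 0 ≤ ∑ l ∈ range a, wl τ l * ∑ ε ∈ nb, ind a (l + 1) (shf a (l + 1) x ε) y :=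
    sum_nonneg fun l _ => mul_nonneg (wl_nonneg _ _) (sum_nonneg fun ε _ => ind_nonneg _ _ _ _)
  have hT : (0:ℝ) ≤ 432 * 2 ^ τ / 4 ^ a := by positivity
  set ρ := rr (x - y) with hρ
  unfold KK
  rw [← hρ]
  split_ifs with h0
  · positivity
  rcases Nat.lt_or_ge ρ (2 ^ a) with h | h
  · set l := Nat.log 2 ρ with hl
    have h1 : 2 ^ l ≤ ρ := Nat.pow_log_le_self 2 h0
    have h2 : ρ < 2 ^ (l + 1) := Nat.lt_pow_succ_log_self (by norm_num) ρ
    have hla : l < a := by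
      by_contra hc
      push Not at hc
      have : 2 ^ a ≤ 2 ^ l := Nat.pow_le_pow_right (by norm_num) hc
      omega
    have h1' : (2:ℝ) ^ l ≤ ρ := by exact_mod_cast h1
    have hw : min (436 / (ρ:ℝ)) (432 * 2 ^ τ / (ρ:ℝ) ^ 2) ≤ wl τ l := by
      unfold wl
      refine min_le_min ?_ ?_
      · gcongr
      · have : (4:ℝ) ^ l = (2 ^ l) ^ 2 := by rw [← pow_mul, mul_comm l, pow_mul]; norm_num
        rw [this]
        gcongr
    have hc1 : |x.1 - y.1| < (2:ℤ) ^ (l + 1) := by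
      have h3 : (x - y).1.natAbs ≤ ρ := le_max_left _ _
      have h4 : ((x - y).1.natAbs : ℤ) < 2 ^ (l + 1) := by exact_mod_cast lt_of_le_of_lt h3 h2
      rwa [Int.natCast_natAbs] at h4
    have hc2 : |x.2 - y.2| < (2:ℤ) ^ (l + 1) := by
      have h3 : (x - y).2.natAbs ≤ ρ := le_max_right _ _
      have h4 : ((x - y).2.natAbs : ℤ) < 2 ^ (l + 1) := by exact_mod_cast lt_of_le_of_lt h3 h2
      rwa [Int.natCast_natAbs] at h4
    have hm1 := div_diff (by positivity) hc1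
    have hm2 := div_diff (by positivity) hc2
    set ε0 : ℤ × ℤ := (y.1 / 2 ^ (l + 1) - x.1 / 2 ^ (l + 1), y.2 / 2 ^ (l + 1) - x.2 / 2 ^ (l + 1))
      with hε0
    have hmem : ε0 ∈ nb := mem_product.2 ⟨hm1, hm2⟩
    have hind : ind a (l + 1) (shf a (l + 1) x ε0) y = 1 := by
      rw [ind, if_pos]
      rw [idx, shf, hε0]
      simp only [add_sub_cancel]
    have hone : 1 ≤ ∑ ε ∈ nb, ind a (l + 1) (shf a (l + 1) x ε) y := by
      rw [← hind]
      exact single_le_sum (f := fun ε => ind a (l + 1) (shf a (l + 1) x ε) y)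
        (fun ε _ => ind_nonneg _ _ _ _) hmem
    have hle : wl τ l * 1 ≤ ∑ l ∈ range a, wl τ l * ∑ ε ∈ nb, ind a (l + 1) (shf a (l + 1) x ε) y := by
      refine le_trans (mul_le_mul_of_nonneg_left hone (wl_nonneg τ l)) ?_
      exact single_le_sum (f := fun l => wl τ l * ∑ ε ∈ nb, ind a (l + 1) (shf a (l + 1) x ε) y)
        (fun l _ => mul_nonneg (wl_nonneg _ _) (sum_nonneg fun ε _ => ind_nonneg _ _ _ _))
        (mem_range.2 hla)
    rw [mul_one] at hle
    linarith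
  · have h' : (2:ℝ) ^ a ≤ ρ := by exact_mod_cast h
    have h3 : min (436 / (ρ:ℝ)) (432 * 2 ^ τ / (ρ:ℝ) ^ 2) ≤ 432 * 2 ^ τ / 4 ^ a := by
      refine (min_le_right _ _).trans ?_
      have : (4:ℝ) ^ a = (2 ^ a) ^ 2 := by rw [← pow_mul, mul_comm a, pow_mul]; norm_num
      rw [this]
      gcongr
    linarith

lemma geo_one (τ : ℕ) : ∑ l ∈ range τ, min ((2:ℝ) ^ l) (2 ^ τ) * (3 / 2) ^ (τ - 1 - l) ≤ 2 * 2 ^ τ := by
  have key : ∀ τ : ℕ, ∑ l ∈ range τ, ((2:ℝ) ^ l) * (3 / 2) ^ (τ - 1 - l) ≤ 2 * 2 ^ τ := by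
    intro τ
    induction τ with
    | zero => simp
    | succ τ ih =>
      rw [sum_range_succ]
      have h1 : ∑ l ∈ range τ, (2:ℝ) ^ l * (3 / 2) ^ (τ + 1 - 1 - l) =
          3 / 2 * ∑ l ∈ range τ, (2:ℝ) ^ l * (3 / 2) ^ (τ - 1 - l) := by
        rw [mul_sum]
        refine sum_congr rfl fun l hl => ?_
        have hl' := mem_range.1 hl
        have : τ + 1 - 1 - l = (τ - 1 - l) + 1 := by omega
        rw [this, pow_succ]; ring
      have h2 : τ + 1 - 1 - τ = 0 := by omega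
      rw [h1, h2, pow_zero, mul_one, pow_succ]
      linarith
  refine le_trans (sum_le_sum fun l _ => ?_) (key τ)
  gcongr
  exact min_le_left _ _

lemma geo_two (τ q : ℕ) : ∑ l ∈ range (τ + q), min ((2:ℝ) ^ l) (2 ^ τ) * (3 / 2) ^ (τ + q - 1 - l) ≤
    4 * 2 ^ τ * (3 / 2) ^ q - 2 * 2 ^ τ := by
  induction q with
  | zero => 
    have := geo_one τ
    simp only [Nat.add_zero, pow_zero, mul_one]
    linarith
  | succ q ih =>
    rw [← add_assoc, sum_range_succ]
    have h1 : ∑ l ∈ range (τ + q), min ((2:ℝ) ^ l) (2 ^ τ) * (3 / 2) ^ (τ + q + 1 - 1 - l) =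
        3 / 2 * ∑ l ∈ range (τ + q), min ((2:ℝ) ^ l) (2 ^ τ) * (3 / 2) ^ (τ + q - 1 - l) := by
      rw [mul_sum]
      refine sum_congr rfl fun l hl => ?_
      have hl' := mem_range.1 hl
      have : τ + q + 1 - 1 - l = (τ + q - 1 - l) + 1 := by omega
      rw [this, pow_succ]; ring
    have h2 : τ + q + 1 - 1 - (τ + q) = 0 := by omega
    have h3 : min ((2:ℝ) ^ (τ + q)) (2 ^ τ) ≤ 2 ^ τ := min_le_right _ _
    rw [h1, h2, pow_zero, mul_one, pow_succ]
    linarith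

/-- the constant of the local part -/
noncomputable def C3 : ℝ := 12556800 * C2

lemma C3_pos : 0 < C3 := by have := C2_pos; unfold C3; positivity

lemma shell_sum {a τ q : ℕ} (ha : a = τ + q) {U : ℝ} (hU : 0 ≤ U) {M : List (ℤ × ℤ)}
    (hM : Good a U M) (x : ℤ × ℤ) :
    lsum (fun y => KK τ (x - y)) M ≤
      C3 * U * (2 ^ a * (3 / 4) ^ q) + M.length * (432 * 2 ^ τ / 4 ^ a) := by
  have h1 : lsum (fun y => KK τ (x - y)) M ≤
      ∑ l ∈ range a, wl τ l * ∑ ε ∈ nb, lsum (ind a (l + 1) (shf a (l + 1) x ε)) M +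
      M.length * (432 * 2 ^ τ / 4 ^ a) := by
    refine (lsum_mono fun y _ => shell_point (a := a) x y).trans (le_of_eq ?_)
    rw [lsum_add, lsum_const, lsum_sum]
    congr 1
    refine sum_congr rfl fun l _ => ?_
    rw [lsum_mul, lsum_sum]
  refine h1.trans ?_
  gcongr
  have hC := C2_pos
  calc ∑ l ∈ range a, wl τ l * ∑ ε ∈ nb, lsum (ind a (l + 1) (shf a (l + 1) x ε)) M
      ≤ ∑ l ∈ range a, 3139200 * C2 * U * (min ((2:ℝ) ^ l) (2 ^ τ) * (3 / 2) ^ (a - 1 - l)) := by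
        refine sum_le_sum fun l hl => ?_
        have hl' := mem_range.1 hl
        have h2 : ∑ ε ∈ nb, lsum (ind a (l + 1) (shf a (l + 1) x ε)) M ≤ 9 * Dl a U (l + 1) := by
          calc _ ≤ ∑ _ε ∈ nb, Dl a U (l + 1) := sum_le_sum fun ε _ => hM (l + 1) (by omega) _
            _ = _ := by rw [sum_const, card_nb, nsmul_eq_mul]; norm_num
        have h3 := Dl_le a hU (l + 1)
        have h4 : a - (l + 1) = a - 1 - l := by omega
        rw [h4] at h3
        have h5 : wl τ l * 4 ^ l ≤ 436 * min ((2:ℝ) ^ l) (2 ^ τ) := by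
          have e4 : (4:ℝ) ^ l = 2 ^ l * 2 ^ l := by rw [← mul_pow]; norm_num
          unfold wl
          rcases le_total ((2:ℝ) ^ l) (2 ^ τ) with h | h
          · rw [min_eq_left h]
            calc _ ≤ 436 / 2 ^ l * (4:ℝ) ^ l := by gcongr; exact min_le_left _ _
              _ = _ := by rw [e4]; field_simp
          · rw [min_eq_right h]
            calc _ ≤ 432 * 2 ^ τ / 4 ^ l * (4:ℝ) ^ l := by gcongr; exact min_le_right _ _
              _ = 432 * 2 ^ τ := by field_simp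
              _ ≤ _ := by gcongr; norm_num
        calc wl τ l * ∑ ε ∈ nb, lsum (ind a (l + 1) (shf a (l + 1) x ε)) M
            ≤ wl τ l * (9 * (200 * C2 * U * (4 ^ (l + 1) * (3 / 2) ^ (a - 1 - l)))) := by
              have := wl_nonneg τ l
              gcongr
              linarith
          _ = 7200 * C2 * U * ((wl τ l * 4 ^ l) * (3 / 2) ^ (a - 1 - l)) := by
              rw [pow_succ]; ring
          _ ≤ 7200 * C2 * U * ((436 * min ((2:ℝ) ^ l) (2 ^ τ)) * (3 / 2) ^ (a - 1 - l)) := by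
              gcongr
          _ = _ := by ring
    _ = 3139200 * C2 * U * ∑ l ∈ range a, (min ((2:ℝ) ^ l) (2 ^ τ) * (3 / 2) ^ (a - 1 - l)) := by
        rw [mul_sum]
    _ ≤ 3139200 * C2 * U * (4 * 2 ^ τ * (3 / 2) ^ q) := by
        gcongr
        have := geo_two τ q
        rw [ha]
        have h6 : (0:ℝ) ≤ 2 * 2 ^ τ := by positivity
        linarith
    _ = C3 * U * (2 ^ a * (3 / 4) ^ q) := by
        have h7 : (2:ℝ) ^ a * (3 / 4) ^ q = 2 ^ τ * (3 / 2) ^ q := by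
          rw [ha, pow_add, mul_assoc, ← mul_pow]; norm_num
        rw [h7, C3]; ring

end Pool.Agent.Helper95.Poly
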