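import Mathlib
import Pool.Agent.Helper95.PolyShell

set_option autoImplicit false
set_option linter.unusedSectionVars false

open Finset Filter

namespace Pool.Agent.Helper95.Poly

section gen
variable {Γ : Type*} [AddCommGroup Γ] [DecidableEq Γ] {ι : Type*} [Fintype ι] [Nonempty ι]
  (σ : ι → Γ)

/-- martingale part of the pair sum -/
noncomputable def MM (g : Γ → ℝ) : List Γ → Γ → ℝ
  | [], _ => 0
  | y :: L, x => MM g L y + lsum (fun z => g (x - z) - Pop σ g (y - z)) (y :: L)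

lemma psum_decomp {g κ : Γ → ℝ} (hg : ∀ x, g x - Pop σ g x = dl x - κ x) (L : List Γ) (x : Γ) :
    psum dl (x :: L) = psum κ (x :: L) + MM σ g L x + L.length * Pop σ g 0 -
      lsum (fun z => Pop σ g (x - z)) L := by
  induction L generalizing x with
  | nil => simp [MM]
  | cons y L ih =>
    rw [psum_cons, psum_cons κ x, ih y, MM]
    have h1 : lsum (fun z => dl (x - z)) (y :: L) = lsum (fun z => κ (x - z)) (y :: L) +
        (lsum (fun z => g (x - z) - Pop σ g (y - z)) (y :: L) +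
        lsum (fun z => Pop σ g (y - z)) (y :: L) - lsum (fun z => Pop σ g (x - z)) (y :: L)) := by
      rw [← lsum_add, ← lsum_sub, ← lsum_add]
      congr 1
      funext z
      have := hg (x - z)
      linarith
    rw [h1, lsum_cons (fun z => Pop σ g (y - z)), sub_self, List.length_cons]
    push_cast
    ring

lemma Av_MM (g : Γ → ℝ) (L : List Γ) (x : Γ) : Av σ (MM σ g) L x = MM σ g L x := by
  have hc : (0:ℝ) < Fintype.card ι := card_pos'
  rw [Av]
  simp only [MM]
  rw [sum_add_distrib, sum_const, card_univ, nsmul_eq_mul, ← lsum_sum, add_div,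
    mul_div_cancel_left₀ _ hc.ne']
  have h1 : lsum (fun z => ∑ e, (g (x + σ e - z) - Pop σ g (x - z))) (x :: L) = 0 := by
    have : (fun z => ∑ e, (g (x + σ e - z) - Pop σ g (x - z))) = fun _ => (0:ℝ) := by
      funext z
      rw [sum_sub_distrib, sum_const, card_univ, nsmul_eq_mul]
      rw [Pop, mul_div_cancel₀ _ hc.ne']
      have : ∀ e, x + σ e - z = x - z + σ e := fun e => by abel
      simp only [this, sub_self]
    rw [this, lsum_const]; simp
  rw [h1]; simp

lemma EE_fix {F : List Γ → Γ → ℝ} (h : ∀ L x, Av σ F L x = F L x) (n : ℕ) : EE σ n F = F [] 0 := by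
  have : Av σ F = F := by funext L x; exact h L x
  induction n with
  | zero => rfl
  | succ n ih => rw [EE_succ, this, ih]

lemma EE_MM (g : Γ → ℝ) (n : ℕ) : EE σ n (MM σ g) = 0 := by
  rw [EE_fix σ (Av_MM σ g)]; rfl

/-- mean of the sum over the past -/
lemma EE_past (φ : Γ → ℝ) (n : ℕ) (j : ℕ) :
    EE σ n (fun L x => lsum (fun z => ((Pop σ)^[j] φ) (x - z)) L) =
      ∑ m ∈ range n, ((Pop σ)^[j + (m + 1)] φ) 0 := by
  induction n generalizing j with
  | zero => simp [EE]
  | succ n ih =>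
    have hc : (0:ℝ) < Fintype.card ι := card_pos'
    rw [EE_succ]
    have h1 : Av σ (fun L x => lsum (fun z => ((Pop σ)^[j] φ) (x - z)) L) =
        fun L x => ((Pop σ)^[j + 1] φ) 0 + lsum (fun z => ((Pop σ)^[j + 1] φ) (x - z)) L := by
      funext L x
      have h2 : Av σ (fun L x => lsum (fun z => ((Pop σ)^[j] φ) (x - z)) L) L x =
          lsum (fun z => ((Pop σ)^[j + 1] φ) (x - z)) (x :: L) := by
        rw [Av, ← lsum_sum, div_eq_mul_inv, mul_comm, ← lsum_mul]
        congr 1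
        funext z
        have h3 : ∀ e, x + σ e - z = x - z + σ e := fun e => by abel
        rw [Function.iterate_succ_apply', Pop, div_eq_mul_inv, mul_comm]
        simp only [h3]
      rw [h2, lsum_cons, sub_self]
    rw [h1, EE_add, EE_const, ih, sum_range_succ', add_comm]
    congr 1
    refine sum_congr rfl fun m _ => ?_
    have h4 : j + 1 + (m + 1) = j + (m + 1 + 1) := by ring
    rw [h4]

lemma cosh_bound {t c : ℝ} (hc : 0 < c) (ht : |t| ≤ c) :
    Real.exp t ≤ Real.cosh c + t / c * Real.sinh c := by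
  rw [abs_le] at ht
  have h1 : t = ((c + t) / (2 * c)) * c + ((c - t) / (2 * c)) * (-c) := by field_simp; ring
  have a1 : 0 ≤ (c + t) / (2 * c) := div_nonneg (by linarith) (by linarith)
  have a2 : 0 ≤ (c - t) / (2 * c) := div_nonneg (by linarith) (by linarith)
  have a3 : (c + t) / (2 * c) + (c - t) / (2 * c) = 1 := by field_simp; ring
  have h2 := convexOn_exp.2 (Set.mem_univ c) (Set.mem_univ (-c)) a1 a2 a3
  simp only [smul_eq_mul] at h2
  rw [← h1] at h2
  refine h2.trans (le_of_eq ?_)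
  rw [Real.cosh_eq, Real.sinh_eq]
  field_simp
  ring

lemma hoeff {D : ι → ℝ} {c : ℝ} (hc : 0 ≤ c) (h0 : ∑ e, D e = 0) (h : ∀ e, |D e| ≤ c) :
    (∑ e, Real.exp (D e)) / Fintype.card ι ≤ Real.exp (c ^ 2 / 2) := by
  have hp : (0:ℝ) < Fintype.card ι := card_pos'
  rcases hc.eq_or_lt with rfl | hc
  · have : ∀ e, D e = 0 := fun e => abs_nonpos_iff.1 (h e)
    simp only [this, Real.exp_zero, sum_const, card_univ, nsmul_eq_mul, mul_one]
    rw [div_self hp.ne']; simp
  · refine le_trans ?_ (Real.cosh_le_exp_half_sq c)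
    rw [div_le_iff₀ hp]
    calc ∑ e, Real.exp (D e) ≤ ∑ e, (Real.cosh c + D e / c * Real.sinh c) :=
          sum_le_sum fun e _ => cosh_bound hc (h e)
      _ = _ := by
          rw [sum_add_distrib, sum_const, card_univ, nsmul_eq_mul, ← sum_mul, ← sum_div, h0]
          ring

/-- accumulated squared bounds -/
noncomputable def QQ (K : Γ → ℝ) : List Γ → ℝ
  | [] => 0
  | y :: L => QQ K L + lsum (fun z => K (y - z)) (y :: L) ^ 2

lemma EE_expMM {g K : Γ → ℝ} (hK0 : ∀ x, 0 ≤ K x)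
    (hK : ∀ x e, |g (x + σ e) - Pop σ g x| ≤ K x) (θ : ℝ) (n : ℕ) :
    EE σ n (fun L x => Real.exp (θ * MM σ g L x - θ ^ 2 / 2 * QQ K L)) ≤ 1 := by
  have hp : (0:ℝ) < Fintype.card ι := card_pos'
  have h := EE_super σ (n := n)
    (F := fun L x => Real.exp (θ * MM σ g L x - θ ^ 2 / 2 * QQ K L)) ?_
  · simpa [MM, QQ] using h
  intro L x _
  rw [Av]
  simp only [MM, QQ]
  set ψ := lsum (fun z => K (x - z)) (x :: L) with hψ
  have hψ0 : 0 ≤ ψ := lsum_nonneg fun z _ => hK0 _
  set D : ι → ℝ := fun e => lsum (fun z => g (x + σ e - z) - Pop σ g (x - z)) (x :: L) with hD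
  have hD0 : ∑ e, θ * D e = 0 := by
    rw [← mul_sum]
    have := Av_MM σ g L x
    rw [Av] at this
    simp only [MM] at this
    rw [sum_add_distrib, sum_const, card_univ, nsmul_eq_mul, add_div,
      mul_div_cancel_left₀ _ hp.ne'] at this
    have h2 : (∑ e, D e) / (Fintype.card ι : ℝ) = 0 := by linarith
    rw [div_eq_zero_iff] at h2
    rcases h2 with h2 | h2
    · rw [h2, mul_zero]
    · exact absurd h2 hp.ne'
  have hDle : ∀ e, |θ * D e| ≤ |θ| * ψ := by
    intro e
    rw [abs_mul]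
    refine mul_le_mul_of_nonneg_left ?_ (abs_nonneg _)
    rw [hD, hψ]
    have habs : ∀ (f K : Γ → ℝ) (M : List Γ), (∀ z, |f z| ≤ K z) → |lsum f M| ≤ lsum K M := by
      intro f K M hf
      rw [abs_le]
      constructor
      · have := lsum_mono (f := fun z => (-1) * K z) (g := f) (L := M)
          fun z _ => by have := (abs_le.1 (hf z)).1; linarith
        rw [lsum_mul] at this; linarith
      · exact lsum_mono fun z _ => (abs_le.1 (hf z)).2
    refine habs _ _ _ fun z => ?_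
    have : x + σ e - z = x - z + σ e := by abel
    rw [this]
    exact hK _ _
  have h1 := hoeff (mul_nonneg (abs_nonneg θ) hψ0) hD0 hDle
  have h2 : (|θ| * ψ) ^ 2 / 2 = θ ^ 2 / 2 * ψ ^ 2 := by rw [mul_pow, sq_abs]; ring
  rw [h2] at h1
  calc (∑ e, Real.exp (θ * (MM σ g L x + D e) - θ ^ 2 / 2 * (QQ K L + ψ ^ 2))) / (Fintype.card ι : ℝ)
      = Real.exp (θ * MM σ g L x - θ ^ 2 / 2 * (QQ K L + ψ ^ 2)) *
        ((∑ e, Real.exp (θ * D e)) / (Fintype.card ι : ℝ)) := by
        rw [mul_div_assoc', mul_sum]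
        congr 1
        refine sum_congr rfl fun e _ => ?_
        rw [← Real.exp_add]; congr 1; ring
    _ ≤ Real.exp (θ * MM σ g L x - θ ^ 2 / 2 * (QQ K L + ψ ^ 2)) *
        Real.exp (θ ^ 2 / 2 * ψ ^ 2) := by gcongr
    _ = _ := by rw [← Real.exp_add]; congr 1; ring

end gen

lemma QQ_le {a : ℕ} {U : ℝ} {τ q : ℕ} (ha : a = τ + q) (hU : 0 ≤ U) {n : ℕ} {M : List (ℤ × ℤ)}
    (hn : M.length ≤ n) (hM : Good a U M) :
    QQ (KK τ) M ≤ M.length * (C3 * U * (2 ^ a * (3 / 4) ^ q) + n * (432 * 2 ^ τ / 4 ^ a)) ^ 2 := by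
  induction M with
  | nil => simp [QQ]
  | cons y M ih =>
    rw [QQ]
    have h1 := ih (by rw [List.length_cons] at hn; omega) hM.tail
    have h2 := shell_sum ha hU hM y
    have h3 : 0 ≤ lsum (fun z => KK τ (y - z)) (y :: M) := lsum_nonneg fun z _ => KK_nonneg _ _
    have h4 : lsum (fun z => KK τ (y - z)) (y :: M) ^ 2 ≤
        (C3 * U * (2 ^ a * (3 / 4) ^ q) + n * (432 * 2 ^ τ / 4 ^ a)) ^ 2 := by
      refine pow_le_pow_left₀ h3 (h2.trans ?_) 2
      gcongr
    rw [List.length_cons] at hn ⊢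
    push_cast
    linarith

open Classical in
/-- tail of the martingale part on the good event -/
lemma mart_tail {a τ q : ℕ} (ha : a = τ + q) {U : ℝ} (hU : 0 ≤ U) {n : ℕ} {θ v B : ℝ}
    (hB : C3 * U * (2 ^ a * (3 / 4) ^ q) + n * (432 * 2 ^ τ / 4 ^ a) ≤ B) (hθ : 0 ≤ θ) :
    EE (dg ℤ) n (fun L x => if Good a U (x :: L) ∧ v ≤ MM (dg ℤ) (gT (4 ^ τ)) L x then 1 else 0) ≤
      Real.exp (-(θ * v) + θ ^ 2 / 2 * (n * B ^ 2)) := by
  have h1 := EE_expMM (dg ℤ) (g := gT (4 ^ τ)) (K := KK τ) (KK_nonneg τ) (grad_le τ) θ n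
  have hC := C3_pos
  calc _ ≤ EE (dg ℤ) n (fun L x => Real.exp (-(θ * v) + θ ^ 2 / 2 * (n * B ^ 2)) *
        Real.exp (θ * MM (dg ℤ) (gT (4 ^ τ)) L x - θ ^ 2 / 2 * QQ (KK τ) L)) := by
        refine EE_mono _ fun L x hL => ?_
        split_ifs with h
        · rw [← Real.exp_add]
          refine Real.one_le_exp ?_
          have h2 := QQ_le ha hU (n := n) hL.le h.1.tail
          have h3 : QQ (KK τ) L ≤ n * B ^ 2 := by
            refine h2.trans ?_
            rw [hL]
            gcongr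
          have h4 : θ * v ≤ θ * MM (dg ℤ) (gT (4 ^ τ)) L x := by
            have := h.2
            gcongr
          have h5 : θ ^ 2 / 2 * QQ (KK τ) L ≤ θ ^ 2 / 2 * (n * B ^ 2) := by gcongr
          linarith
        · positivity
    _ = Real.exp (-(θ * v) + θ ^ 2 / 2 * (n * B ^ 2)) *
        EE (dg ℤ) n (fun L x =>
          Real.exp (θ * MM (dg ℤ) (gT (4 ^ τ)) L x - θ ^ 2 / 2 * QQ (KK τ) L)) := EE_mul _ _ _ _
    _ ≤ Real.exp (-(θ * v) + θ ^ 2 / 2 * (n * B ^ 2)) * 1 := by gcongr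
    _ = _ := mul_one _

end Pool.Agent.Helper95.Poly
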