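import Mathlib
import Pool.Agent.Helper95.PolyTor

set_option autoImplicit false
set_option linter.unusedSectionVars false

open Finset Filter

namespace Pool.Agent.Helper95.Poly

section window
variable {R : ℕ} [NeZero R]

lemma winZ_shift (w a : ℤ) : winZ R w ((a : ZMod R) + (w : ZMod R)) = win R 0 a := by
  rw [← Int.cast_add, winZ_cast, win, win]
  congr 3
  push_cast; ring

lemma win_at_R : win R 0 (R:ℤ) = 0 := by
  have h := win_periodic (R := R) 0 0 1
  rw [one_mul, zero_add, win_zero] at h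
  exact h

/-- product window -/
noncomputable def chi (R : ℕ) (w : ℤ × ℤ) (z : ZMod R × ZMod R) : ℝ :=
  winZ R w.1 z.1 * winZ R w.2 z.2

lemma chi_nonneg (w : ℤ × ℤ) (z : ZMod R × ZMod R) : 0 ≤ chi R w z :=
  mul_nonneg (winZ_nonneg _ _) (winZ_nonneg _ _)

lemma mem_bx {x : ℤ × ℤ} : x ∈ bx R ↔ (0 ≤ x.1 ∧ x.1 < R) ∧ (0 ≤ x.2 ∧ x.2 < R) := by
  rw [bx, mem_product, mem_Ico, mem_Ico]

/-- a step leaving the box: one of the two windows vanishes -/
lemma step_out {a a' : ℤ} (ha : 0 ≤ a ∧ a < R) (h : a' = a + 1 ∨ a' = a - 1)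
    (hout : ¬ (0 ≤ a' ∧ a' < R)) : win R 0 a * win R 0 a' = 0 := by
  rcases h with h | h
  · have : a' = R := by omega
    rw [this, win_at_R, mul_zero]
  · have : a = 0 := by omega
    rw [this, win_zero, zero_mul]

lemma star_window {γ : ℝ} (hγ : 0 < γ) (hS : Sub (dg ℤ) γ) (w : ℤ × ℤ)
    (f φ : ZMod R × ZMod R → ℝ) (hφ : ∀ z, 0 ≤ φ z) :
    ∑ z, (chi R w z * φ z) * (Real.exp (f z / 2) *
      Pop (dg (ZMod R)) (fun y => Real.exp (f y / 2) * (chi R w y * φ y)) z) ≤
      Real.exp ((∑ z, f z ^ 2) / (2 * γ)) * ∑ z, (chi R w z * φ z) ^ 2 := by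
  set zx : ℤ × ℤ → ZMod R × ZMod R := fun x => ((x.1 : ZMod R) + (w.1 : ZMod R),
    (x.2 : ZMod R) + (w.2 : ZMod R)) with hzx
  set φt : ℤ × ℤ → ℝ := fun x => if x ∈ bx R then chi R w (zx x) * φ (zx x) else 0 with hφt
  set ft : ℤ × ℤ → ℝ := fun x => if x ∈ bx R then f (zx x) else 0 with hft
  have hchi : ∀ x, chi R w (zx x) = win R 0 x.1 * win R 0 x.2 := by
    intro x
    simp only [chi, hzx, winZ_shift]
  have h := star (dg ℤ) hγ hS dgν dg_neg (bx R) (f := ft) (φ := φt)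
    (fun y hy => if_neg hy) (fun y hy => if_neg hy) (fun y => by
      simp only [hφt]
      split_ifs
      · exact mul_nonneg (chi_nonneg _ _) (hφ _)
      · exact le_rfl)
  have e1 : ∑ y ∈ bx R, ft y ^ 2 = ∑ z, f z ^ 2 := by
    rw [← sum_bx (fun z => f z ^ 2) ((w.1 : ZMod R), (w.2 : ZMod R))]
    refine sum_congr rfl fun x hx => ?_
    simp only [hft, if_pos hx, hzx]
  have e2 : ∑ x ∈ bx R, φt x ^ 2 = ∑ z, (chi R w z * φ z) ^ 2 := by
    rw [← sum_bx (fun z => (chi R w z * φ z) ^ 2) ((w.1 : ZMod R), (w.2 : ZMod R))]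
    refine sum_congr rfl fun x hx => ?_
    simp only [hφt, if_pos hx, hzx]
  have key : ∀ x ∈ bx R, ∀ a' b' : ℤ, (a' = x.1 + 1 ∨ a' = x.1 - 1) →
      (b' = x.2 + 1 ∨ b' = x.2 - 1) →
      φt x * (Real.exp (ft (a', b') / 2) * φt (a', b')) =
        (chi R w (zx x) * φ (zx x)) * (Real.exp (f (zx (a', b')) / 2) *
          (chi R w (zx (a', b')) * φ (zx (a', b')))) := by
    intro x hx a' b' ha hb
    have hx' := mem_bx.1 hx
    have hx2 : φt x = chi R w (zx x) * φ (zx x) := if_pos hx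
    rw [hx2]
    by_cases hin : ((a', b') : ℤ × ℤ) ∈ bx R
    · have e3 : φt (a', b') = chi R w (zx (a', b')) * φ (zx (a', b')) := if_pos hin
      have e4 : ft (a', b') = f (zx (a', b')) := if_pos hin
      rw [e3, e4]
    · have e3 : φt (a', b') = 0 := if_neg hin
      rw [e3, mul_zero, mul_zero, hchi, hchi]
      rw [mem_bx, not_and_or] at hin
      rcases hin with h1 | h1
      · have h2 := step_out hx'.1 ha h1
        simp only
        calc (0:ℝ) = (win R 0 x.1 * win R 0 a') * (win R 0 x.2 * φ (zx x) *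
              (Real.exp (f (zx (a', b')) / 2) * (win R 0 b' * φ (zx (a', b'))))) := by
              rw [h2, zero_mul]
          _ = _ := by ring
      · have h2 := step_out hx'.2 hb h1
        simp only
        calc (0:ℝ) = (win R 0 x.2 * win R 0 b') * (win R 0 x.1 * φ (zx x) *
              (Real.exp (f (zx (a', b')) / 2) * (win R 0 a' * φ (zx (a', b'))))) := by
              rw [h2, zero_mul]
          _ = _ := by ring
  have e5 : ∑ x ∈ bx R, φt x * (Real.exp (ft x / 2) *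
      Pop (dg ℤ) (fun y => Real.exp (ft y / 2) * φt y) x) =
      ∑ z, (chi R w z * φ z) * (Real.exp (f z / 2) *
      Pop (dg (ZMod R)) (fun y => Real.exp (f y / 2) * (chi R w y * φ y)) z) := by
    rw [← sum_bx (fun z => (chi R w z * φ z) * (Real.exp (f z / 2) *
      Pop (dg (ZMod R)) (fun y => Real.exp (f y / 2) * (chi R w y * φ y)) z))
      ((w.1 : ZMod R), (w.2 : ZMod R))]
    refine sum_congr rfl fun x hx => ?_
    have e6 : ft x = f (zx x) := if_pos hx
    rw [Pop_dg, Pop_dg, e6]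
    have k1 := key x hx _ _ (Or.inl rfl) (Or.inl rfl)
    have k2 := key x hx _ _ (Or.inl rfl) (Or.inr rfl)
    have k3 := key x hx _ _ (Or.inr rfl) (Or.inl rfl)
    have k4 := key x hx _ _ (Or.inr rfl) (Or.inr rfl)
    have z1 : ∀ a b : ℤ, zx (a + 1, b + 1) = ((a : ZMod R) + w.1 + 1, (b : ZMod R) + w.2 + 1) := by
      intro a b; simp only [hzx]; push_cast; congr 1 <;> ring
    have z2 : ∀ a b : ℤ, zx (a + 1, b - 1) = ((a : ZMod R) + w.1 + 1, (b : ZMod R) + w.2 - 1) := by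
      intro a b; simp only [hzx]; push_cast; congr 1 <;> ring
    have z3 : ∀ a b : ℤ, zx (a - 1, b + 1) = ((a : ZMod R) + w.1 - 1, (b : ZMod R) + w.2 + 1) := by
      intro a b; simp only [hzx]; push_cast; congr 1 <;> ring
    have z4 : ∀ a b : ℤ, zx (a - 1, b - 1) = ((a : ZMod R) + w.1 - 1, (b : ZMod R) + w.2 - 1) := by
      intro a b; simp only [hzx]; push_cast; congr 1 <;> ring
    rw [z1] at k1
    rw [z2] at k2
    rw [z3] at k3
    rw [z4] at k4
    have z0 : zx x = ((x.1 : ZMod R) + w.1, (x.2 : ZMod R) + w.2) := rfl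
    rw [z0] at k1 k2 k3 k4 ⊢
    simp only
    linear_combination (Real.exp (f ((x.1 : ZMod R) + w.1, (x.2 : ZMod R) + w.2) / 2) / 4) *
      (k1 + k2 + k3 + k4)
  rw [e1, e2, e5] at h
  exact h

end window

section torus
variable {r : ℕ} [NeZero (2 * r)]

/-- the two offsets -/
def off (r : ℕ) (i : Fin 2) : ℤ := if i = 0 then 0 else r

lemma winZ_sq (hr : 0 < r) (z : ZMod (2 * r)) : ∑ i, winZ (2 * r) (off r i) z ^ 2 = 1 := by
  rw [Fin.sum_univ_two]
  simp only [off, if_true, one_ne_zero, if_false, Fin.isValue]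
  exact win_sq hr _

lemma winZ_adj (hr : 0 < r) (z z' : ZMod (2 * r)) (h : z' = z + 1 ∨ z' = z - 1) :
    Real.cos (Real.pi / (2 * r : ℕ)) ≤
      ∑ i, winZ (2 * r) (off r i) z * winZ (2 * r) (off r i) z' := by
  rw [Fin.sum_univ_two]
  simp only [off, if_true, one_ne_zero, if_false, Fin.isValue]
  have h0 : z = ((z.val : ℤ) : ZMod (2 * r)) := by simp
  obtain ⟨u', hu', hz'⟩ : ∃ u' : ℤ, (u' = z.val + 1 ∨ u' = z.val - 1) ∧ z' = (u' : ZMod (2 * r)) := by
    rcases h with h | h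
    · refine ⟨z.val + 1, Or.inl rfl, ?_⟩
      rw [h]; push_cast; simp
    · refine ⟨z.val - 1, Or.inr rfl, ?_⟩
      rw [h]; push_cast; simp
  rw [hz', winZ_cast, winZ_cast]
  exact win_adj hr _ _ hu'

/-- offsets of the product windows -/
def off2 (r : ℕ) (i : Fin 2 × Fin 2) : ℤ × ℤ := (off r i.1, off r i.2)

lemma chi_mul_sum (z z' : ZMod (2 * r) × ZMod (2 * r)) :
    ∑ i, chi (2 * r) (off2 r i) z * chi (2 * r) (off2 r i) z' =
      (∑ i, winZ (2 * r) (off r i) z.1 * winZ (2 * r) (off r i) z'.1) *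
      ∑ i, winZ (2 * r) (off r i) z.2 * winZ (2 * r) (off r i) z'.2 := by
  rw [Fintype.sum_prod_type, sum_mul_sum]
  refine sum_congr rfl fun i _ => sum_congr rfl fun j _ => ?_
  simp only [chi, off2]; ring

lemma chi_sq_sum (hr : 0 < r) (z : ZMod (2 * r) × ZMod (2 * r)) :
    ∑ i, chi (2 * r) (off2 r i) z ^ 2 = 1 := by
  have h := chi_mul_sum z z
  have e1 := winZ_sq hr z.1
  have e2 := winZ_sq hr z.2
  simp only [sq] at e1 e2 ⊢
  rw [h, e1, e2, one_mul]

/-- functional inequality on the torus -/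
theorem star_torus {γ : ℝ} (hγ : 0 < γ) (hS : Sub (dg ℤ) γ) (hr : 0 < r)
    (f φ : ZMod (2 * r) × ZMod (2 * r) → ℝ) (hφ : ∀ z, 0 ≤ φ z) :
    Real.cos (Real.pi / (2 * r : ℕ)) ^ 2 * ∑ z, φ z * (Real.exp (f z / 2) *
      Pop (dg (ZMod (2 * r))) (fun y => Real.exp (f y / 2) * φ y) z) ≤
      Real.exp ((∑ z, f z ^ 2) / (2 * γ)) * ∑ z, φ z ^ 2 := by
  set c := Real.cos (Real.pi / (2 * r : ℕ)) with hc
  have hc0 : 0 ≤ c := by
    refine Real.cos_nonneg_of_mem_Icc ⟨?_, ?_⟩
    · have : 0 ≤ Real.pi / (2 * r : ℕ) := by positivity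
      linarith [Real.pi_pos]
    · have h2 : (2:ℝ) ≤ (2 * r : ℕ) := by
        push_cast
        have : (1:ℝ) ≤ r := by exact_mod_cast hr
        linarith
      exact div_le_div_of_nonneg_left Real.pi_pos.le (by norm_num) h2
  have h1 : ∑ i : Fin 2 × Fin 2, ∑ z, (chi (2 * r) (off2 r i) z * φ z) * (Real.exp (f z / 2) *
      Pop (dg (ZMod (2 * r))) (fun y => Real.exp (f y / 2) * (chi (2 * r) (off2 r i) y * φ y)) z) ≤
      ∑ i : Fin 2 × Fin 2, Real.exp ((∑ z, f z ^ 2) / (2 * γ)) *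
        ∑ z, (chi (2 * r) (off2 r i) z * φ z) ^ 2 :=
    sum_le_sum fun i _ => star_window hγ hS (off2 r i) f φ hφ
  have h2 : ∑ i : Fin 2 × Fin 2, Real.exp ((∑ z, f z ^ 2) / (2 * γ)) *
        ∑ z, (chi (2 * r) (off2 r i) z * φ z) ^ 2 =
      Real.exp ((∑ z, f z ^ 2) / (2 * γ)) * ∑ z, φ z ^ 2 := by
    rw [← mul_sum, sum_comm]
    congr 1
    refine sum_congr rfl fun z _ => ?_
    have := chi_sq_sum hr z
    calc ∑ i, (chi (2 * r) (off2 r i) z * φ z) ^ 2 = (∑ i, chi (2 * r) (off2 r i) z ^ 2) * φ z ^ 2 := by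
          rw [sum_mul]; exact sum_congr rfl fun i _ => by ring
      _ = _ := by rw [this, one_mul]
  rw [h2] at h1
  refine le_trans ?_ h1
  rw [sum_comm, mul_sum]
  refine sum_le_sum fun z _ => ?_
  have h3 : ∑ i : Fin 2 × Fin 2, (chi (2 * r) (off2 r i) z * φ z) * (Real.exp (f z / 2) *
      Pop (dg (ZMod (2 * r))) (fun y => Real.exp (f y / 2) * (chi (2 * r) (off2 r i) y * φ y)) z) =
      φ z * (Real.exp (f z / 2) * ((∑ e, Real.exp (f (z + dg _ e) / 2) * φ (z + dg _ e) *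
        ∑ i : Fin 2 × Fin 2, chi (2 * r) (off2 r i) z * chi (2 * r) (off2 r i) (z + dg _ e)) /
          (Fintype.card (Fin 2 × Bool) : ℝ))) := by
    have h4 : ∀ i : Fin 2 × Fin 2, (chi (2 * r) (off2 r i) z * φ z) * (Real.exp (f z / 2) *
        Pop (dg (ZMod (2 * r))) (fun y => Real.exp (f y / 2) * (chi (2 * r) (off2 r i) y * φ y)) z) =
        φ z * (Real.exp (f z / 2) * ((∑ e, Real.exp (f (z + dg _ e) / 2) * φ (z + dg _ e) *
          (chi (2 * r) (off2 r i) z * chi (2 * r) (off2 r i) (z + dg _ e))) /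
            (Fintype.card (Fin 2 × Bool) : ℝ))) := by
      intro i
      rw [Pop]
      have h5 : ∑ e, Real.exp (f (z + dg _ e) / 2) * φ (z + dg _ e) *
          (chi (2 * r) (off2 r i) z * chi (2 * r) (off2 r i) (z + dg _ e)) =
          chi (2 * r) (off2 r i) z * ∑ e, Real.exp (f (z + dg _ e) / 2) *
            (chi (2 * r) (off2 r i) (z + dg _ e) * φ (z + dg _ e)) := by
        rw [mul_sum]; exact sum_congr rfl fun e _ => by ring
      rw [h5]; ring
    rw [sum_congr rfl fun i _ => h4 i, ← mul_sum, ← mul_sum, ← Finset.sum_div, sum_comm]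
    congr 3
    refine sum_congr rfl fun e _ => ?_
    rw [← mul_sum]
  rw [h3, Pop]
  have h6 : ∀ e, c ^ 2 ≤
      ∑ i : Fin 2 × Fin 2, chi (2 * r) (off2 r i) z * chi (2 * r) (off2 r i) (z + dg _ e) := by
    intro e
    rw [chi_mul_sum, sq]
    have h7 : (z + dg (ZMod (2 * r)) e).1 = z.1 + 1 ∨ (z + dg (ZMod (2 * r)) e).1 = z.1 - 1 := by
      obtain ⟨i, b⟩ := e
      cases b
      · right; simp [dg, sub_eq_add_neg]
      · left; simp [dg]
    have h8 : (z + dg (ZMod (2 * r)) e).2 = z.2 + 1 ∨ (z + dg (ZMod (2 * r)) e).2 = z.2 - 1 := by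
      obtain ⟨i, b⟩ := e
      fin_cases i <;> cases b <;> simp [dg, sub_eq_add_neg]
    have h9 := winZ_adj hr z.1 _ h7
    have h10 := winZ_adj hr z.2 _ h8
    exact mul_le_mul h9 h10 hc0 (hc0.trans h9)
  calc c ^ 2 * (φ z * (Real.exp (f z / 2) * ((∑ e, Real.exp (f (z + dg _ e) / 2) * φ (z + dg _ e)) /
        (Fintype.card (Fin 2 × Bool) : ℝ))))
      = φ z * (Real.exp (f z / 2) * ((∑ e, Real.exp (f (z + dg _ e) / 2) * φ (z + dg _ e) * c ^ 2) /
        (Fintype.card (Fin 2 × Bool) : ℝ))) := by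
        rw [← sum_mul]; ring
    _ ≤ _ := by
        have := hφ z
        gcongr with e _
        · exact mul_nonneg (Real.exp_pos _).le (hφ _)
        · exact h6 e

end torus

section iter
variable {Γ : Type*} [AddCommGroup Γ] [DecidableEq Γ] [Fintype Γ] {ι : Type*} [Fintype ι]
  [Nonempty ι] (σ : ι → Γ)

lemma abs_Pop_le (u : Γ → ℝ) (x : Γ) : |Pop σ u x| ≤ Pop σ (fun y => |u y|) x := by
  rw [Pop, Pop, abs_div, abs_of_pos (card_pos' (ι := ι))]
  gcongr
  exact abs_sum_le_sum_abs _ _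

/-- from the quadratic form on nonnegative functions to iterates of Feynman–Kac -/
lemma FK_total_le (ν : Equiv.Perm ι) (hν : ∀ e, σ (ν e) = -σ e) (f : Γ → ℝ) {ρ : ℝ} (hρ : 0 < ρ)
    (h : ∀ φ : Γ → ℝ, (∀ z, 0 ≤ φ z) →
      ∑ z, φ z * (Real.exp (f z / 2) * Pop σ (fun y => Real.exp (f y / 2) * φ y) z) ≤
        ρ * ∑ z, φ z ^ 2) (m : ℕ) :
    ∑ z, ((FK σ f)^[m] fun y => Real.exp (f y)) z ≤ ρ ^ m * ∑ z, Real.exp (f z) := by
  set A : (Γ → ℝ) → (Γ → ℝ) := fun u z => Real.exp (f z / 2) *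
    Pop σ (fun y => Real.exp (f y / 2) * u y) z with hA
  have hsymm : ∀ u v : Γ → ℝ, ip univ u (A v) = ip univ (A u) v := by
    intro u v
    have h1 := Pop_symm σ ν hν univ (u := fun y => Real.exp (f y / 2) * u y)
      (v := fun y => Real.exp (f y / 2) * v y) (fun y hy => absurd (mem_univ y) hy)
      (fun y hy => absurd (mem_univ y) hy)
    have h2 : ip univ u (A v) = ip univ (fun y => Real.exp (f y / 2) * u y)
        (Pop σ fun y => Real.exp (f y / 2) * v y) :=
      sum_congr rfl fun x _ => by simp only [hA]; ring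
    have h3 : ip univ (A u) v = ip univ (Pop σ fun y => Real.exp (f y / 2) * u y)
        (fun y => Real.exp (f y / 2) * v y) :=
      sum_congr rfl fun x _ => by simp only [hA]; ring
    rw [h2, h3, h1]
  have hAadd : ∀ u v : Γ → ℝ, A (fun y => u y + v y) = fun y => A u y + A v y := by
    intro u v
    funext z
    simp only [hA]
    rw [← mul_add, ← Pop_add]
    congr 2
    funext y; ring
  have hAmul : ∀ (c : ℝ) (u : Γ → ℝ), A (fun y => c * u y) = fun y => c * A u y := by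
    intro c u
    funext z
    simp only [hA]
    have : (fun y => Real.exp (f y / 2) * (c * u y)) = fun y => c * (Real.exp (f y / 2) * u y) := by
      funext y; ring
    rw [this, Pop_mul]; ring
  have hquad : ∀ u : Γ → ℝ, |ip univ u (A u)| ≤ ρ * ip univ u u := by
    intro u
    have h1 := h (fun z => |u z|) (fun z => abs_nonneg _)
    have h2 : ∑ z, |u z| ^ 2 = ip univ u u := sum_congr rfl fun z _ => by rw [sq_abs, sq]
    rw [h2] at h1
    refine le_trans ?_ h1
    refine (abs_sum_le_sum_abs _ _).trans (sum_le_sum fun z _ => ?_)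
    rw [abs_mul]
    simp only [hA]
    rw [abs_mul, abs_of_pos (Real.exp_pos _)]
    have h3 := abs_Pop_le σ (fun y => Real.exp (f y / 2) * u y) z
    have h4 : (fun y => |Real.exp (f y / 2) * u y|) = fun y => Real.exp (f y / 2) * |u y| := by
      funext y; rw [abs_mul, abs_of_pos (Real.exp_pos _)]
    rw [h4] at h3
    gcongr
  have hnorm : ∀ ψ : Γ → ℝ, ip univ (A ψ) (A ψ) ≤ ρ ^ 2 * ip univ ψ ψ := by
    intro ψ
    set v : Γ → ℝ := fun y => ρ⁻¹ * A ψ y with hv
    have q1 := (abs_le.1 (hquad (fun y => v y + ψ y))).2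
    have q2 := (abs_le.1 (hquad (fun y => v y + (-1) * ψ y))).1
    have hv2 : A v = fun y => ρ⁻¹ * A (A ψ) y := hAmul _ _
    have hm1 : A (fun y => (-1) * ψ y) = fun y => (-1) * A ψ y := hAmul _ _
    rw [hAadd v ψ] at q1
    rw [hAadd v (fun y => (-1) * ψ y), hm1] at q2
    have s1 : ip univ v (A ψ) = ρ⁻¹ * ip univ (A ψ) (A ψ) := by
      rw [ip, ip, mul_sum]; exact sum_congr rfl fun x _ => by simp only [hv]; ring
    have s2 : ip univ ψ (A v) = ρ⁻¹ * ip univ (A ψ) (A ψ) := by rw [hsymm, ← s1]; exact sum_congr rfl fun x _ => mul_comm _ _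
    have s3 : ip univ v v = ρ⁻¹ ^ 2 * ip univ (A ψ) (A ψ) := by
      rw [ip, ip, mul_sum]; exact sum_congr rfl fun x _ => by simp only [hv]; ring
    have t1 : ip univ (fun y => v y + ψ y) (fun y => A v y + A ψ y) =
        ip univ v (A v) + ip univ v (A ψ) + ip univ ψ (A v) + ip univ ψ (A ψ) := by
      simp only [ip]
      rw [← sum_add_distrib, ← sum_add_distrib, ← sum_add_distrib]
      exact sum_congr rfl fun x _ => by ring
    have t2 : ip univ (fun y => v y + (-1) * ψ y) (fun y => A v y + (-1) * A ψ y) =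
        ip univ v (A v) - ip univ v (A ψ) - ip univ ψ (A v) + ip univ ψ (A ψ) := by
      simp only [ip]
      rw [← sum_sub_distrib, ← sum_sub_distrib, ← sum_add_distrib]
      exact sum_congr rfl fun x _ => by ring
    have t3 : ip univ (fun y => v y + ψ y) (fun y => v y + ψ y) =
        ip univ v v + 2 * ip univ v ψ + ip univ ψ ψ := by
      simp only [ip]
      rw [mul_sum, ← sum_add_distrib, ← sum_add_distrib]
      exact sum_congr rfl fun x _ => by ring
    have t4 : ip univ (fun y => v y + (-1) * ψ y) (fun y => v y + (-1) * ψ y) =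
        ip univ v v - 2 * ip univ v ψ + ip univ ψ ψ := by
      simp only [ip]
      rw [mul_sum, ← sum_sub_distrib, ← sum_add_distrib]
      exact sum_congr rfl fun x _ => by ring
    rw [t1, t3] at q1
    rw [t2, t4] at q2
    rw [s1, s2, s3] at q1 q2
    set a := ip univ (A ψ) (A ψ) with ha
    have q3 : 4 * (ρ⁻¹ * a) ≤ 2 * ρ * (ρ⁻¹ ^ 2 * a + ip univ ψ ψ) := by linarith
    have q4 : ρ * (4 * (ρ⁻¹ * a)) = 4 * a := by field_simp
    have q5 : ρ * (2 * ρ * (ρ⁻¹ ^ 2 * a + ip univ ψ ψ)) = 2 * a + 2 * (ρ ^ 2 * ip univ ψ ψ) := by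
      field_simp
    have q6 := mul_le_mul_of_nonneg_left q3 hρ.le
    rw [q4, q5] at q6
    linarith
  have hiter : ∀ (m : ℕ) (ψ : Γ → ℝ), ip univ (A^[m] ψ) (A^[m] ψ) ≤ (ρ ^ m) ^ 2 * ip univ ψ ψ := by
    intro m ψ
    induction m with
    | zero => simp
    | succ m ih =>
      rw [Function.iterate_succ_apply']
      calc _ ≤ ρ ^ 2 * ip univ (A^[m] ψ) (A^[m] ψ) := hnorm _
        _ ≤ ρ ^ 2 * ((ρ ^ m) ^ 2 * ip univ ψ ψ) := by gcongr
        _ = _ := by ring
  set ψ : Γ → ℝ := fun z => Real.exp (f z / 2) with hψ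
  have hrel : ∀ m z, ((FK σ f)^[m] fun y => Real.exp (f y)) z = ψ z * (A^[m] ψ) z := by
    intro m
    induction m with
    | zero =>
      intro z
      simp only [Function.iterate_zero, id_eq, hψ]
      rw [← Real.exp_add]; congr 1; ring
    | succ m ih =>
      intro z
      rw [Function.iterate_succ_apply', Function.iterate_succ_apply', FK]
      have h1 : (FK σ f)^[m] (fun y => Real.exp (f y)) = fun y => ψ y * (A^[m] ψ) y := funext ih
      rw [h1]
      simp only [hA, hψ]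
      rw [← mul_assoc, ← Real.exp_add]
      congr 2; ring
  have hS : ip univ ψ ψ = ∑ z, Real.exp (f z) :=
    sum_congr rfl fun z _ => by simp only [hψ]; rw [← Real.exp_add]; congr 1; ring
  rw [sum_congr rfl fun z _ => hrel m z, ← hS]
  have hcs := sum_mul_sq_le_sq_mul_sq univ ψ (A^[m] ψ)
  have e1 : ∑ i, ψ i ^ 2 = ip univ ψ ψ := sum_congr rfl fun z _ => sq _
  have e2 : ∑ i, (A^[m] ψ) i ^ 2 = ip univ (A^[m] ψ) (A^[m] ψ) := sum_congr rfl fun z _ => sq _
  rw [e1, e2] at hcs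
  have hψ0 : 0 ≤ ip univ ψ ψ := sum_nonneg fun z _ => mul_self_nonneg _
  refine abs_le_of_sq_le_sq' ?_ (by positivity) |>.2
  calc (∑ i, ψ i * (A^[m] ψ) i) ^ 2 ≤ ip univ ψ ψ * ip univ (A^[m] ψ) (A^[m] ψ) := hcs
    _ ≤ ip univ ψ ψ * ((ρ ^ m) ^ 2 * ip univ ψ ψ) := by gcongr; exact hiter m ψ
    _ = _ := by ring

end iter

end Pool.Agent.Helper95.Poly
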