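import Mathlib
import Pool.Agent.Helper95.PolyMart
import Pool.Agent.Helper95.PolyTorStar

set_option autoImplicit false
set_option linter.unusedSectionVars false

open Finset Filter

namespace Pool.Agent.Helper95.Poly

variable {Γ : Type*} [AddCommGroup Γ] [DecidableEq Γ] [Fintype Γ] {ι : Type*} [Fintype ι]
  [Nonempty ι] (σ : ι → Γ)

lemma Pop_iter_symm (ν : Equiv.Perm ι) (hν : ∀ e, σ (ν e) = -σ e) (k : ℕ) (u v : Γ → ℝ) :
    ∑ x, u x * ((Pop σ)^[k] v) x = ∑ x, ((Pop σ)^[k] u) x * v x := by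
  induction k generalizing u v with
  | zero => rfl
  | succ k ih =>
    have h1 := Pop_symm σ ν hν univ (u := u) (v := (Pop σ)^[k] v)
      (fun y hy => absurd (mem_univ y) hy) (fun y hy => absurd (mem_univ y) hy)
    rw [Function.iterate_succ_apply', Function.iterate_succ_apply]
    exact h1.trans (ih (Pop σ u) v)

lemma Pop_total (v : Γ → ℝ) : ∑ x, Pop σ v x = ∑ x, v x := by
  have hc : (0:ℝ) < Fintype.card ι := card_pos'
  simp only [Pop]
  rw [← Finset.sum_div, sum_comm]
  have : ∀ e, ∑ x, v (x + σ e) = ∑ x, v x := fun e => Equiv.sum_comp (Equiv.addRight (σ e)) v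
  simp only [this, sum_const, card_univ, nsmul_eq_mul]
  exact mul_div_cancel_left₀ _ hc.ne'

lemma Pop_contr (u : Γ → ℝ) : ∑ x, Pop σ u x ^ 2 ≤ ∑ x, u x ^ 2 := by
  rw [← Pop_total σ fun x => u x ^ 2]
  refine sum_le_sum fun x _ => ?_
  have hc : (0:ℝ) < Fintype.card ι := card_pos'
  rw [Pop, Pop, div_pow, div_le_div_iff₀ (by positivity) hc]
  have h := sq_sum_le_card_mul_sum_sq (s := (univ : Finset ι)) (f := fun e => u (x + σ e))
  rw [card_univ] at h
  calc (∑ e, u (x + σ e)) ^ 2 * (Fintype.card ι : ℝ)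
      ≤ (Fintype.card ι * ∑ e, u (x + σ e) ^ 2) * (Fintype.card ι : ℝ) := by gcongr
    _ = _ := by ring

lemma Pop_iter_contr (k : ℕ) (u : Γ → ℝ) : ∑ x, ((Pop σ)^[k] u) x ^ 2 ≤ ∑ x, u x ^ 2 := by
  induction k with
  | zero => exact le_rfl
  | succ k ih => rw [Function.iterate_succ_apply']; exact (Pop_contr σ _).trans ih

/-- transition matrix of `k` steps -/
noncomputable def kmat (k : ℕ) : Matrix Γ Γ ℝ := Matrix.of fun x y => ((Pop σ)^[k] dl) (x - y)

lemma kmat_apply (k : ℕ) (x y : Γ) : kmat σ k x y = ((Pop σ)^[k] dl) (x - y) := rfl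

lemma kmat_mulVec (k : ℕ) (u : Γ → ℝ) : (kmat σ k).mulVec u = (Pop σ)^[k] u := by
  funext x
  rw [Matrix.mulVec, dotProduct]
  have h1 : u = fun z => ∑ y, u y * dl (z - y) := by
    funext z
    rw [sum_eq_single z]
    · simp
    · intro y _ hy
      rw [dl, if_neg (sub_ne_zero.2 hy.symm), mul_zero]
    · intro h; exact absurd (mem_univ z) h
  conv_rhs => rw [h1]
  rw [Pop_iter_sum]
  refine sum_congr rfl fun y _ => ?_
  have h2 : ((Pop σ)^[k] fun z => u y * dl (z - y)) x = u y * ((Pop σ)^[k] fun z => dl (z - y)) x :=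
    Pop_iter_mul σ (u y) _ k x
  rw [h2, Pop_iter_shift σ dl y k x, kmat_apply, mul_comm]

lemma kmat_herm (ν : Equiv.Perm ι) (hν : ∀ e, σ (ν e) = -σ e) (k : ℕ) :
    (kmat σ k).IsHermitian := by
  ext x y
  rw [Matrix.conjTranspose_apply, star_trivial]
  have h := Pop_iter_symm σ ν hν k (fun z => dl (z - y)) (fun z => dl (z - x))
  have hs : ∀ (w : Γ → ℝ) (a : Γ), ∑ z, dl (z - a) * w z = w a := by
    intro w a
    rw [sum_eq_single a]
    · simp
    · intro z _ hz
      rw [dl, if_neg (sub_ne_zero.2 hz), zero_mul]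
    · intro h; exact absurd (mem_univ a) h
  rw [hs] at h
  have h2 : ∑ z, ((Pop σ)^[k] fun z => dl (z - y)) z * dl (z - x) =
      ((Pop σ)^[k] fun z => dl (z - y)) x := by
    rw [← hs ((Pop σ)^[k] fun z => dl (z - y)) x]
    exact sum_congr rfl fun z _ => mul_comm _ _
  rw [h2, Pop_iter_shift σ dl x k y, Pop_iter_shift σ dl y k x] at h
  rw [kmat_apply, kmat_apply]
  exact h

lemma spectral (ν : Equiv.Perm ι) (hν : ∀ e, σ (ν e) = -σ e) (k : ℕ) :
    ∃ (e : Γ → Γ → ℝ) (lam : Γ → ℝ), (∀ i j, ∑ x, e i x * e j x = if i = j then 1 else 0) ∧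
      (∀ i, 0 ≤ lam i) ∧ (∀ i, lam i ≤ 1) ∧
      (∑ i, lam i = Fintype.card Γ * ((Pop σ)^[2 * k] dl) 0) ∧
      ∀ u : Γ → ℝ, ∑ x, u x * ((Pop σ)^[2 * k] u) x = ∑ i, lam i * (∑ x, e i x * u x) ^ 2 := by
  set hA := kmat_herm σ ν hν (2 * k) with hAdef
  set e : Γ → Γ → ℝ := fun i => ⇑(hA.eigenvectorBasis i) with he
  set lam := hA.eigenvalues with hlam
  have horth : ∀ i j, ∑ x, e i x * e j x = if i = j then 1 else 0 := by
    intro i j
    have h := (orthonormal_iff_ite.1 hA.eigenvectorBasis.orthonormal) i j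
    rw [← h, PiLp.inner_apply]
    refine sum_congr rfl fun x _ => ?_
    simp only [he, RCLike.inner_apply, conj_trivial]
    rw [mul_comm]
  have heig : ∀ i, (Pop σ)^[2 * k] (e i) = fun x => lam i * e i x := by
    intro i
    have h := hA.mulVec_eigenvectorBasis i
    rw [kmat_mulVec] at h
    rw [h]
    rfl
  have hself : ∀ i, lam i = ∑ x, ((Pop σ)^[k] (e i)) x ^ 2 := by
    intro i
    have h1 : ∑ x, e i x * ((Pop σ)^[2 * k] (e i)) x = lam i := by
      rw [heig]
      have h2 := horth i i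
      rw [if_pos rfl] at h2
      calc ∑ x, e i x * (lam i * e i x) = lam i * ∑ x, e i x * e i x := by
            rw [mul_sum]; exact sum_congr rfl fun x _ => by ring
        _ = _ := by rw [h2, mul_one]
    rw [← h1, two_mul, Function.iterate_add_apply, Pop_iter_symm σ ν hν]
    exact sum_congr rfl fun x _ => by rw [sq]
  refine ⟨e, lam, horth, fun i => ?_, fun i => ?_, ?_, fun u => ?_⟩
  · rw [hself i]; positivity
  · rw [hself i]
    refine (Pop_iter_contr σ k (e i)).trans (le_of_eq ?_)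
    have h2 := horth i i
    rw [if_pos rfl] at h2
    rw [← h2]
    exact sum_congr rfl fun x _ => by rw [sq]
  · have h := hA.trace_eq_sum_eigenvalues
    simp only [RCLike.ofReal_real_eq_id, id] at h
    rw [hlam, ← h, Matrix.trace]
    simp only [Matrix.diag_apply, kmat_apply, sub_self, sum_const, card_univ, nsmul_eq_mul]
  · have h := hA.eigenvectorBasis.sum_inner_mul_inner (WithLp.toLp 2 u)
      (WithLp.toLp 2 ((Pop σ)^[2 * k] u))
    have h1 : inner ℝ (WithLp.toLp 2 u : EuclideanSpace ℝ Γ) (WithLp.toLp 2 ((Pop σ)^[2 * k] u)) =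
        ∑ x, u x * ((Pop σ)^[2 * k] u) x := by
      rw [PiLp.inner_apply]
      refine sum_congr rfl fun x _ => ?_
      simp only [RCLike.inner_apply, conj_trivial]
      rw [mul_comm]
    rw [← h1, ← h]
    refine sum_congr rfl fun i _ => ?_
    have h2 : inner ℝ (WithLp.toLp 2 u : EuclideanSpace ℝ Γ) (hA.eigenvectorBasis i) =
        ∑ x, e i x * u x := by
      rw [PiLp.inner_apply]
      refine sum_congr rfl fun x _ => ?_
      simp only [he, RCLike.inner_apply, conj_trivial]
    have h3 : inner ℝ (hA.eigenvectorBasis i)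
        (WithLp.toLp 2 ((Pop σ)^[2 * k] u) : EuclideanSpace ℝ Γ) = lam i * ∑ x, e i x * u x := by
      rw [PiLp.inner_apply]
      have h4 := Pop_iter_symm σ ν hν (2 * k) (e i) u
      rw [heig] at h4
      rw [mul_sum]
      calc _ = ∑ x, e i x * ((Pop σ)^[2 * k] u) x := by
            refine sum_congr rfl fun x _ => ?_
            simp only [he, RCLike.inner_apply, conj_trivial]
            rw [mul_comm]
        _ = _ := by rw [h4]; exact sum_congr rfl fun x _ => by ring
    rw [h2, h3]; ring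

end Pool.Agent.Helper95.Poly
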