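import Mathlib
import Pool.Agent.Helper95.PolySpec
import Pool.Agent.Helper95.PolyGauss

set_option autoImplicit false
set_option linter.unusedSectionVars false

open Finset Filter

namespace Pool.Agent.Helper95.Poly

section gen
variable {Γ : Type*} [AddCommGroup Γ] [DecidableEq Γ] {ι : Type*} [Fintype ι] [Nonempty ι]
  (σ : ι → Γ)

lemma EE_pos (Φ : Γ → ℝ) (n : ℕ) : EE σ n (fun _ x => Φ x) = ((Pop σ)^[n] Φ) 0 := by
  induction n generalizing Φ with
  | zero => rfl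
  | succ n ih =>
    rw [EE_succ, Function.iterate_succ_apply, ← ih]
    rfl

lemma EE_window (F : Γ → ℝ) (b m : ℕ) :
    EE σ (b + m) (fun L x => Real.exp (lsum F (x :: L.take m))) =
      ((Pop σ)^[b] ((FK σ F)^[m] fun y => Real.exp (F y))) 0 := by
  have h1 : EE σ (b + m) (fun L x => Real.exp (lsum F (x :: L.take m))) =
      EE σ (b + m) (fun L x => Real.exp (lsum F (L.take (0 + m))) * Real.exp (F x)) := by
    refine EE_congr σ fun L x _ => ?_
    rw [lsum_cons, Real.exp_add, mul_comm, Nat.zero_add]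
  rw [h1, EE_add_time, ← EE_pos]
  congr 1
  funext L x
  rw [Av_iter_FK σ F (fun y => Real.exp (F y)) m 0 L x]
  simp

end gen

section proj
variable {R : ℕ} [NeZero R]

/-- projection to the torus -/
def pr (R : ℕ) (y : ℤ × ℤ) : ZMod R × ZMod R := ((y.1 : ZMod R), (y.2 : ZMod R))

lemma pr_sub (x y : ℤ × ℤ) : pr R (x - y) = pr R x - pr R y := by
  simp [pr]

lemma pr_step (x : ℤ × ℤ) (e : Fin 2 × Bool) : pr R (x + dg ℤ e) = pr R x + dg (ZMod R) e := by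
  obtain ⟨i, b⟩ := e
  fin_cases i <;> cases b <;> simp [pr, dg]

lemma Pop_pr (u : ZMod R × ZMod R → ℝ) (k : ℕ) (x : ℤ × ℤ) :
    ((Pop (dg ℤ))^[k] fun y => u (pr R y)) x = ((Pop (dg (ZMod R)))^[k] u) (pr R x) :=
  Pop_proj u k x

lemma FK_pr (f u : ZMod R × ZMod R → ℝ) (k : ℕ) (x : ℤ × ℤ) :
    ((FK (dg ℤ) fun y => f (pr R y))^[k] fun y => u (pr R y)) x =
      ((FK (dg (ZMod R)) f)^[k] u) (pr R x) := by
  induction k generalizing x with
  | zero => rfl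
  | succ k ih =>
    rw [Function.iterate_succ_apply', Function.iterate_succ_apply', FK, FK, Pop, Pop]
    congr 2
    refine sum_congr rfl fun e _ => ?_
    rw [ih, pr_step]

lemma pk_iter (k : ℕ) : pk k = (Pop (dg ℤ))^[k] dl := by
  induction k with
  | zero => exact pk_zero
  | succ k ih =>
    rw [Function.iterate_succ_apply', ← ih]
    funext x
    exact (Pop_pk k x).symm

lemma pk_le_torus (k : ℕ) (z : ℤ × ℤ) : pk k z ≤ ((Pop (dg (ZMod R)))^[k] dl) (pr R z) := by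
  rw [← Pop_pr, pk_iter]
  refine Pop_iter_mono _ (fun y => ?_) k z
  rw [dl]
  split_ifs with h
  · subst h
    have : pr R (0 : ℤ × ℤ) = 0 := by simp [pr]
    rw [this, dl_zero]
  · exact dl_nonneg _

lemma lsum_map (f : ZMod R × ZMod R → ℝ) (M : List (ℤ × ℤ)) :
    lsum f (M.map (pr R)) = lsum (fun y => f (pr R y)) M := by
  induction M with
  | nil => rfl
  | cons y M ih => rw [List.map_cons, lsum_cons, lsum_cons, ih]

lemma psum_map (κ : ZMod R × ZMod R → ℝ) (M : List (ℤ × ℤ)) :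
    psum κ (M.map (pr R)) = psum (fun z => κ (pr R z)) M := by
  induction M with
  | nil => rfl
  | cons y M ih =>
    rw [List.map_cons, psum_cons, psum_cons, ih, lsum_map]
    congr 2
    funext z
    rw [pr_sub]

end proj

section fin
variable {Γ : Type*} [AddCommGroup Γ] [DecidableEq Γ] [Fintype Γ] {ι : Type*} [Fintype ι]
  [Nonempty ι] (σ : ι → Γ)

lemma kern_even (ν : Equiv.Perm ι) (hν : ∀ e, σ (ν e) = -σ e) (k : ℕ) (z : Γ) :
    ((Pop σ)^[k] dl) (-z) = ((Pop σ)^[k] dl) z := by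
  have h := congrFun (congrFun (kmat_herm σ ν hν k) 0) z
  rw [Matrix.conjTranspose_apply, star_trivial, kmat_apply, kmat_apply] at h
  rw [sub_zero, zero_sub] at h
  exact h.symm

lemma psum_le_modes (ν : Equiv.Perm ι) (hν : ∀ e, σ (ν e) = -σ e) (k : ℕ) (M : List Γ) :
    psum ((Pop σ)^[k] dl) M ≤ 1 / 2 * ∑ x, cnt M x * ((Pop σ)^[k] (cnt M)) x := by
  have h1 := dsum_eq (kern_even σ ν hν k) M
  have h2 : 0 ≤ ((Pop σ)^[k] dl) (0:Γ) := Pop_iter_nonneg σ dl_nonneg k 0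
  have h3 : dsum ((Pop σ)^[k] dl) M = ∑ x, cnt M x * ((Pop σ)^[k] (cnt M)) x := by
    have h4 : ∀ y, ((Pop σ)^[k] (cnt M)) y = lsum (fun z => ((Pop σ)^[k] dl) (y - z)) M := by
      intro y
      have h5 : cnt M = fun y => lsum (fun z => dl (y - z)) M := by
        funext y
        rw [cnt]
        congr 1
        funext z
        rw [← dl_neg, neg_sub]
      rw [h5, Pop_iter_lsum]
      congr 1
      funext z
      exact Pop_iter_shift σ dl z k y
    rw [dsum]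
    have h6 := lsum_eq_sum (f := (Pop σ)^[k] (cnt M)) (B := univ)
      (fun y hy => absurd (mem_univ y) hy) M
    have h7 : lsum (fun y => lsum (fun z => ((Pop σ)^[k] dl) (y - z)) M) M =
        lsum ((Pop σ)^[k] (cnt M)) M := by
      congr 1
      funext y
      rw [h4]
    rw [h7, h6]
    exact sum_congr rfl fun x _ => mul_comm _ _
  rw [← h3, h1]
  have : (0:ℝ) ≤ M.length * ((Pop σ)^[k] dl) (0:Γ) := by positivity
  linarith

end fin

lemma cos_bound {R : ℕ} (hR : 4 ≤ R) :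
    1 ≤ Real.cos (Real.pi / R) ^ 2 * Real.exp (30 / (R:ℝ) ^ 2) := by
  have hR' : (4:ℝ) ≤ R := by exact_mod_cast hR
  set x := Real.pi / R with hx
  have hx2 : x ^ 2 ≤ 10 / (R:ℝ) ^ 2 := by
    rw [hx, div_pow]
    gcongr
    have h1 := Real.pi_lt_d2
    have h2 := Real.pi_pos
    nlinarith
  have hx3 : x ^ 2 ≤ 10 / 16 := by
    refine hx2.trans ?_
    gcongr
    nlinarith
  have hc := Real.one_sub_sq_div_two_le_cos (x := x)
  have h1 : 1 - x ^ 2 ≤ Real.cos x ^ 2 := by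
    have : 0 ≤ 1 - x ^ 2 / 2 := by linarith
    nlinarith [sq_nonneg (x ^ 2)]
  have h2 : 3 * x ^ 2 + 1 ≤ Real.exp (30 / (R:ℝ) ^ 2) := by
    refine le_trans ?_ (Real.add_one_le_exp _)
    have : 30 / (R:ℝ) ^ 2 = 3 * (10 / (R:ℝ) ^ 2) := by ring
    linarith
  have h3 : 0 < 1 - x ^ 2 := by linarith
  calc (1:ℝ) ≤ (1 - x ^ 2) * (3 * x ^ 2 + 1) := by nlinarith [sq_nonneg x]
    _ ≤ _ := by gcongr

lemma star_R {γ : ℝ} (hγ : 0 < γ) (hS : Sub (dg ℤ) γ) {r R : ℕ} [NeZero R] (hR : R = 2 * r)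
    (f φ : ZMod R × ZMod R → ℝ) (hφ : ∀ z, 0 ≤ φ z) :
    Real.cos (Real.pi / R) ^ 2 * ∑ z, φ z * (Real.exp (f z / 2) *
      Pop (dg (ZMod R)) (fun y => Real.exp (f y / 2) * φ y) z) ≤
      Real.exp ((∑ z, f z ^ 2) / (2 * γ)) * ∑ z, φ z ^ 2 := by
  subst hR
  have hr : 0 < r := by
    have := NeZero.ne (2 * r)
    omega
  exact star_torus hγ hS hr f φ hφ

/-- exponential moments of linear functionals of the folded occupation field -/
lemma linear_bound {γ γ' : ℝ} (hγ : 0 < γ) (hS : Sub (dg ℤ) γ) (hγ' : 0 < γ') (h : γ' < γ)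
    {r R m n : ℕ} [NeZero R] (hR : R = 2 * r) (hr : 2 ≤ r) (hn : n = R ^ 2 + m)
    (f : ZMod R × ZMod R → ℝ) :
    EE (dg ℤ) n (fun L x => Real.exp (lsum (fun y => f (pr R y)) (x :: L.take m))) ≤
      C2 * Real.exp (1 / (2 * (1 / γ' - 1 / γ))) * Real.exp (30 * n / (R : ℝ) ^ 2) *
        Real.exp (n / γ' / 2 * ∑ z, f z ^ 2) := by
  have hR4 : 4 ≤ R := by omega
  have hR4' : (4:ℝ) ≤ R := by exact_mod_cast hR4
  have hn1 : (1:ℝ) ≤ n := by
    rw [hn]; push_cast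
    have : (0:ℝ) ≤ m := by positivity
    nlinarith
  have hC2 := C2_pos
  set κ := 1 / γ' - 1 / γ with hκ
  have hκ0 : 0 < κ := by
    rw [hκ, sub_pos]
    exact one_div_lt_one_div_of_lt hγ' h
  set N2 := ∑ z, f z ^ 2 with hN2
  have hN20 : 0 ≤ N2 := sum_nonneg fun z _ => sq_nonneg _
  set ρ := Real.exp (N2 / (2 * γ)) * Real.exp (30 / (R:ℝ) ^ 2) with hρ
  have hρ0 : 0 < ρ := by positivity
  have h0 := EE_window (dg ℤ) (fun y => f (pr R y)) (R ^ 2) m
  rw [← hn] at h0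
  rw [h0]
  have h1 : ((FK (dg ℤ) fun y => f (pr R y))^[m] fun y => Real.exp (f (pr R y))) =
      fun y => ((FK (dg (ZMod R)) f)^[m] fun z => Real.exp (f z)) (pr R y) := by
    funext y
    exact FK_pr f (fun z => Real.exp (f z)) m y
  rw [h1, Pop_pr]
  set Φ := (FK (dg (ZMod R)) f)^[m] fun z => Real.exp (f z) with hΦ
  have hΦ0 : ∀ z, 0 ≤ Φ z := FK_iter_nonneg _ f (fun z => (Real.exp_pos _).le) m
  have h2 : ((R ^ 2 : ℕ) : ℝ) + 1 ≤ 2 * (R:ℝ) ^ 2 := by push_cast; nlinarith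
  have h3 := fold_two h2 hΦ0 (pr R 0)
  have h4 : ∑ z, Φ z ≤ ρ ^ m * ∑ z, Real.exp (f z) := by
    refine FK_total_le (dg (ZMod R)) dgν dg_neg f hρ0 (fun φ hφ => ?_) m
    have h5 := star_R hγ hS hR f φ hφ
    have h6 := cos_bound hR4
    set S := ∑ z, φ z * (Real.exp (f z / 2) *
      Pop (dg (ZMod R)) (fun y => Real.exp (f y / 2) * φ y) z) with hSdef
    have hS0 : 0 ≤ S := sum_nonneg fun z _ => mul_nonneg (hφ z) (mul_nonneg (Real.exp_pos _).le
      (Pop_nonneg _ (fun y => mul_nonneg (Real.exp_pos _).le (hφ y)) z))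
    calc S ≤ (Real.cos (Real.pi / R) ^ 2 * Real.exp (30 / (R:ℝ) ^ 2)) * S :=
          le_mul_of_one_le_left hS0 h6
      _ = Real.exp (30 / (R:ℝ) ^ 2) * (Real.cos (Real.pi / R) ^ 2 * S) := by ring
      _ ≤ Real.exp (30 / (R:ℝ) ^ 2) * (Real.exp (N2 / (2 * γ)) * ∑ z, φ z ^ 2) := by gcongr
      _ = _ := by rw [hρ]; ring
  have h7 : ∀ z, Real.exp (f z) ≤ Real.exp (1 / (2 * κ)) * Real.exp (n * κ / 2 * N2) := by
    intro z
    rw [← Real.exp_add]
    refine Real.exp_le_exp.2 ?_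
    have h8 : f z ^ 2 ≤ N2 := single_le_sum (f := fun z => f z ^ 2) (fun z _ => sq_nonneg _) (mem_univ z)
    have h9 : f z ≤ 1 / (2 * κ) + κ / 2 * f z ^ 2 := by
      have : 1 / (2 * κ) + κ / 2 * f z ^ 2 - f z = (1 - κ * f z) ^ 2 / (2 * κ) := by
        field_simp; ring
      have h10 : 0 ≤ (1 - κ * f z) ^ 2 / (2 * κ) := by positivity
      linarith
    have h11 : κ / 2 * f z ^ 2 ≤ n * κ / 2 * N2 := by
      calc κ / 2 * f z ^ 2 ≤ κ / 2 * N2 := by gcongr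
        _ = 1 * (κ / 2 * N2) := by ring
        _ ≤ n * (κ / 2 * N2) := by gcongr
        _ = _ := by ring
    linarith
  have h12 : ∑ z, Real.exp (f z) ≤ (R:ℝ) ^ 2 * (Real.exp (1 / (2 * κ)) * Real.exp (n * κ / 2 * N2)) := by
    calc _ ≤ ∑ _z : ZMod R × ZMod R, (Real.exp (1 / (2 * κ)) * Real.exp (n * κ / 2 * N2)) :=
          sum_le_sum fun z _ => h7 z
      _ = _ := by
          rw [sum_const, card_univ, Fintype.card_prod, ZMod.card, nsmul_eq_mul]
          push_cast; ring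
  have h13 : ρ ^ m ≤ Real.exp (n * (N2 / (2 * γ))) * Real.exp (30 * n / (R:ℝ) ^ 2) := by
    rw [hρ, ← Real.exp_add, ← Real.exp_nat_mul, ← Real.exp_add]
    refine Real.exp_le_exp.2 ?_
    have hmn : (m:ℝ) ≤ n := by
      rw [hn]; push_cast
      nlinarith
    have h14 : 0 ≤ N2 / (2 * γ) + 30 / (R:ℝ) ^ 2 := by positivity
    calc (m:ℝ) * (N2 / (2 * γ) + 30 / (R:ℝ) ^ 2) ≤ n * (N2 / (2 * γ) + 30 / (R:ℝ) ^ 2) := by gcongr
      _ = _ := by ring
  calc _ ≤ 1296 ^ 2 / (((R ^ 2 : ℕ) : ℝ) + 1) * ∑ z, Φ z := h3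
    _ ≤ C2 / (R:ℝ) ^ 2 * ((Real.exp (n * (N2 / (2 * γ))) * Real.exp (30 * n / (R:ℝ) ^ 2)) *
        ((R:ℝ) ^ 2 * (Real.exp (1 / (2 * κ)) * Real.exp (n * κ / 2 * N2)))) := by
        have e1 : 1296 ^ 2 / (((R ^ 2 : ℕ) : ℝ) + 1) ≤ C2 / (R:ℝ) ^ 2 := by
          unfold C2
          push_cast
          gcongr
          linarith
        have e2 : 0 ≤ ∑ z, Φ z := sum_nonneg fun z _ => hΦ0 z
        have e3 : 0 ≤ ∑ z, Real.exp (f z) := sum_nonneg fun z _ => (Real.exp_pos _).le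
        calc _ ≤ C2 / (R:ℝ) ^ 2 * (ρ ^ m * ∑ z, Real.exp (f z)) := by gcongr
          _ ≤ _ := by gcongr
    _ = C2 * Real.exp (1 / (2 * κ)) * Real.exp (30 * n / (R:ℝ) ^ 2) *
        (Real.exp (n * (N2 / (2 * γ))) * Real.exp (n * κ / 2 * N2)) := by
        have : (R:ℝ) ^ 2 ≠ 0 := by positivity
        field_simp
    _ = _ := by
        rw [← Real.exp_add (n * (N2 / (2 * γ)))]
        congr 2
        rw [hκ]
        field_simp
        ring

end Pool.Agent.Helper95.Poly
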