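import Mathlib
import Pool.Agent.Helper95.PolySmooth

set_option autoImplicit false
set_option linter.unusedSectionVars false

open Finset Filter

namespace Pool.Agent.Helper95.Poly

lemma sum_dl {Γ : Type*} [AddCommGroup Γ] [DecidableEq Γ] [Fintype Γ] : ∑ z : Γ, dl z = (1:ℝ) := by
  simp [dl]

lemma norm_comb {Γ I : Type*} [Fintype Γ] [Fintype I] [DecidableEq I] {e : I → Γ → ℝ}
    (horth : ∀ i j, ∑ x, e i x * e j x = if i = j then 1 else 0) (y : I → ℝ) :
    ∑ z, (∑ i, y i * e i z) ^ 2 = ∑ i, y i ^ 2 := by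
  calc ∑ z, (∑ i, y i * e i z) ^ 2 = ∑ z, ∑ i, ∑ j, (y i * y j) * (e i z * e j z) := by
        refine sum_congr rfl fun z _ => ?_
        rw [sq, sum_mul_sum]
        exact sum_congr rfl fun i _ => sum_congr rfl fun j _ => by ring
    _ = ∑ i, ∑ j, (y i * y j) * ∑ z, e i z * e j z := by
        rw [sum_comm]
        refine sum_congr rfl fun i _ => ?_
        rw [sum_comm]
        exact sum_congr rfl fun j _ => by rw [mul_sum]
    _ = _ := by
        refine sum_congr rfl fun i _ => ?_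
        simp only [horth, mul_ite, mul_one, mul_zero, sum_ite_eq, mem_univ, if_true]
        ring

theorem smooth {γ θ : ℝ} (hS : Sub (dg ℤ) γ) (hθ0 : 0 < θ) (hθ : θ < γ) :
    ∃ C5 : ℝ, 0 ≤ C5 ∧ ∀ (r R k m n : ℕ), R = 2 * r → 2 ≤ r → n = R ^ 2 + m →
      2 * k + 1 ≤ 2 * R ^ 2 →
      EE (dg ℤ) n (fun L x => Real.exp (θ / n * psum (pk (2 * k)) (x :: L.take m))) ≤
        Real.exp (C5 * ((R:ℝ) ^ 2 / (2 * k + 1)) + C5) * Real.exp (30 * n / (R:ℝ) ^ 2) := by
  have hγ : 0 < γ := hθ0.trans hθ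
  set γ' := (θ + γ) / 2 with hγ'
  have h1 : θ < γ' := by rw [hγ']; linarith
  have h2 : γ' < γ := by rw [hγ']; linarith
  have h3 : 0 < γ' := hθ0.trans h1
  set u0 := θ / γ' with hu0
  have hu00 : 0 < u0 := div_pos hθ0 h3
  have hu01 : u0 < 1 := (div_lt_one h3).2 h1
  have hC2 := C2_pos
  have hκ0 : 0 < 1 / γ' - 1 / γ := by
    rw [sub_pos]
    exact one_div_lt_one_div_of_lt h3 h2
  have hu2 : 0 < 1 - u0 := by linarith
  refine ⟨u0 * C2 / (1 - u0) + (C2 + 1 / (2 * (1 / γ' - 1 / γ))), by positivity, ?_⟩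
  intro r R k m n hR hr hn hk
  have : NeZero R := ⟨by omega⟩
  have hR4 : (4:ℝ) ≤ R := by
    have : 4 ≤ R := by omega
    exact_mod_cast this
  have hn1 : (1:ℝ) ≤ n := by
    rw [hn]; push_cast
    have : (0:ℝ) ≤ m := by positivity
    nlinarith
  have hn0 : (0:ℝ) < n := by linarith
  obtain ⟨e, lam, horth, hl0, hl1, htr, hquad⟩ := spectral (dg (ZMod R)) dgν dg_neg k
  set a : (ZMod R × ZMod R) → List (ℤ × ℤ) → ℝ := fun i M => lsum (fun y => e i (pr R y)) M with ha
  have hps : ∀ M : List (ℤ × ℤ), θ / n * psum (pk (2 * k)) M ≤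
      ∑ i, θ / n * lam i / 2 * a i M ^ 2 := by
    intro M
    have e1 : psum (pk (2 * k)) M ≤ psum ((Pop (dg (ZMod R)))^[2 * k] dl) (M.map (pr R)) := by
      rw [psum_map]
      exact psum_mono (fun z => pk_le_torus (2 * k) z) M
    have e2 := psum_le_modes (dg (ZMod R)) dgν dg_neg (2 * k) (M.map (pr R))
    rw [hquad] at e2
    have e3 : ∀ i, ∑ x, e i x * cnt (M.map (pr R)) x = a i M := by
      intro i
      rw [ha]
      simp only
      rw [← lsum_map]
      exact (lsum_eq_sum (f := e i) (B := univ) (fun y hy => absurd (mem_univ y) hy) _).symm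
    simp only [e3] at e2
    calc θ / n * psum (pk (2 * k)) M ≤ θ / n * (1 / 2 * ∑ i, lam i * a i M ^ 2) := by
          gcongr
          exact e1.trans e2
      _ = _ := by
          rw [mul_sum, mul_sum]
          exact sum_congr rfl fun i _ => by ring
  have hmodes := all_modes' (Ω := Fin n → Fin 2 × Bool)
    (w := fun _ => 1 / (Fintype.card (Fin 2 × Bool) : ℝ) ^ n)
    (fun (i : ZMod R × ZMod R) (s : Fin n → Fin 2 × Bool) =>
      a i ((path (dg ℤ) n s).2 :: (path (dg ℤ) n s).1.take m))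
    (K := C2 * Real.exp (1 / (2 * (1 / γ' - 1 / γ))) * Real.exp (30 * n / (R : ℝ) ^ 2))
    (q := n / γ') (u0 := u0) (c := fun i => θ / n * lam i) (by positivity) (by positivity) hu01
    (fun i => mul_nonneg (by positivity) (hl0 i))
    (fun i => by
      have := hl1 i
      calc θ / n * lam i * (n / γ') = u0 * lam i := by rw [hu0]; field_simp
        _ ≤ u0 * 1 := by gcongr
        _ = u0 := mul_one _)
    (fun y => by
      have e4 := linear_bound hγ hS h3 h2 hR hr hn (fun z => ∑ i, y i * e i z)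
      rw [norm_comb horth, EE_eq] at e4
      refine le_trans (le_of_eq ?_) e4
      rw [sum_div]
      refine sum_congr rfl fun s _ => ?_
      rw [lsum_sum, one_div, inv_mul_eq_div]
      congr 2
      refine sum_congr rfl fun i _ => ?_
      rw [ha]
      simp only
      rw [lsum_mul])
  have hEE : EE (dg ℤ) n (fun L x => Real.exp (θ / n * psum (pk (2 * k)) (x :: L.take m))) ≤
      ∑ s : Fin n → Fin 2 × Bool, 1 / (Fintype.card (Fin 2 × Bool) : ℝ) ^ n *
        Real.exp (∑ i, θ / n * lam i / 2 *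
          a i ((path (dg ℤ) n s).2 :: (path (dg ℤ) n s).1.take m) ^ 2) := by
    rw [EE_eq, sum_div]
    refine sum_le_sum fun s _ => ?_
    rw [one_div, inv_mul_eq_div]
    gcongr
    exact hps _
  refine hEE.trans (hmodes.trans ?_)
  have hlam : ∑ i, lam i ≤ C2 * ((R:ℝ) ^ 2 / (2 * k + 1)) := by
    rw [htr, Fintype.card_prod, ZMod.card]
    have e5 : (((2 * k : ℕ) : ℝ)) + 1 ≤ 2 * (R:ℝ) ^ 2 := by exact_mod_cast hk
    have e6 := fold_two e5 (Φ := dl) (fun z : ZMod R × ZMod R => dl_nonneg z) 0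
    rw [sum_dl, mul_one] at e6
    push_cast at e6 ⊢
    calc (R:ℝ) * R * ((Pop (dg (ZMod R)))^[2 * k] dl) 0 ≤ (R:ℝ) * R * (1296 ^ 2 / (2 * (k:ℝ) + 1)) := by
          gcongr
      _ = _ := by unfold C2; ring
  have hsum : (∑ i, θ / n * lam i) * (n / γ') / (1 - u0) ≤
      u0 * C2 / (1 - u0) * ((R:ℝ) ^ 2 / (2 * k + 1)) := by
    rw [← mul_sum]
    calc θ / n * (∑ i, lam i) * (n / γ') / (1 - u0) = u0 / (1 - u0) * ∑ i, lam i := by
          rw [hu0]; field_simp
      _ ≤ u0 / (1 - u0) * (C2 * ((R:ℝ) ^ 2 / (2 * k + 1))) := by gcongr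
      _ = _ := by ring
  have hC2e : C2 ≤ Real.exp C2 := by linarith [Real.add_one_le_exp C2]
  have hRk : 0 ≤ (R:ℝ) ^ 2 / (2 * k + 1) := by positivity
  calc C2 * Real.exp (1 / (2 * (1 / γ' - 1 / γ))) * Real.exp (30 * n / (R : ℝ) ^ 2) *
        Real.exp ((∑ i, θ / n * lam i) * (n / γ') / (1 - u0))
      ≤ Real.exp C2 * Real.exp (1 / (2 * (1 / γ' - 1 / γ))) * Real.exp (30 * n / (R : ℝ) ^ 2) *
        Real.exp (u0 * C2 / (1 - u0) * ((R:ℝ) ^ 2 / (2 * k + 1))) := by gcongr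
    _ = Real.exp (u0 * C2 / (1 - u0) * ((R:ℝ) ^ 2 / (2 * k + 1)) +
          (C2 + 1 / (2 * (1 / γ' - 1 / γ)))) * Real.exp (30 * n / (R : ℝ) ^ 2) := by
        rw [Real.exp_add, Real.exp_add]; ring
    _ ≤ _ := by
        refine mul_le_mul_of_nonneg_right (Real.exp_le_exp.2 ?_) (Real.exp_pos _).le
        have g1 : 0 ≤ C2 + 1 / (2 * (1 / γ' - 1 / γ)) := by positivity
        have g2 : 0 ≤ u0 * C2 / (1 - u0) := by positivity
        have g3 := mul_nonneg g1 hRk
        nlinarith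

end Pool.Agent.Helper95.Poly
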