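import Mathlib
import Pool.Agent.Helper95.PolySmooth2

set_option autoImplicit false
set_option linter.unusedSectionVars false

open Finset Filter

namespace Pool.Agent.Helper95.Poly

lemma psum_take_le {Γ : Type*} [AddCommGroup Γ] [DecidableEq Γ] {κ : Γ → ℝ} {c : ℝ} (hc : 0 ≤ c)
    (h : ∀ z, κ z ≤ c) (M : List Γ) (j : ℕ) (hj : j ≤ M.length) :
    psum κ M ≤ psum κ (M.take j) + ((M.length:ℝ) - j) * M.length * c := by
  induction M generalizing j with
  | nil => simp
  | cons y M ih =>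
    cases j with
    | zero =>
      have h1 := psum_le hc h (y :: M)
      simp only [List.take_zero, psum_nil, Nat.cast_zero, sub_zero, zero_add]
      refine h1.trans ?_
      have : 0 ≤ c * ((y :: M).length : ℝ) ^ 2 := by positivity
      nlinarith
    | succ j =>
      rw [List.length_cons] at hj
      have hj' : j ≤ M.length := by omega
      have h1 := ih j hj'
      rw [List.take_succ_cons, psum_cons, psum_cons, List.length_cons]
      have h2 : lsum (fun z => κ (y - z)) M ≤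
          lsum (fun z => κ (y - z)) (M.take j) + ((M.length:ℝ) - j) * c := by
        conv_lhs => rw [← List.take_append_drop j M]
        rw [lsum_append]
        have h3 : lsum (fun z => κ (y - z)) (M.drop j) ≤ (M.drop j).length * c :=
          lsum_le_length fun z _ => h _
        rw [List.length_drop, Nat.cast_sub hj'] at h3
        linarith
      push_cast
      nlinarith

lemma pk_le (k : ℕ) (x : ℤ × ℤ) : pk k x ≤ 1 / ((k:ℝ) + 1) := by
  have h1 := bk_le k x.1
  have h2 := bk_le k x.2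
  have h3 := bk_nonneg k x.2
  have hk : (0:ℝ) < (k:ℝ) + 1 := by positivity
  calc pk k x ≤ (1 / Real.sqrt ((k:ℝ) + 1)) * (1 / Real.sqrt ((k:ℝ) + 1)) := by
        unfold pk; gcongr
    _ = 1 / ((k:ℝ) + 1) := by
        rw [div_mul_div_comm, Real.mul_self_sqrt hk.le, one_mul]

lemma Pop_iter_gT (T j : ℕ) (x : ℤ × ℤ) :
    ((Pop (dg ℤ))^[j] (Pop (dg ℤ) (gT T))) x = ∑ k ∈ range T, pk (k + 1 + j) x := by
  induction j generalizing x with
  | zero => exact Pop_gT T x
  | succ j ih =>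
    rw [Function.iterate_succ_apply']
    have : (Pop (dg ℤ))^[j] (Pop (dg ℤ) (gT T)) = fun x => ∑ k ∈ range T, pk (k + 1 + j) x := funext ih
    rw [this, Pop_sum]
    exact sum_congr rfl fun k _ => Pop_pk _ x

lemma past_le {n T : ℕ} (hT : T ≤ n) :
    EE (dg ℤ) n (fun L x => lsum (fun z => Pop (dg ℤ) (gT T) (x - z)) L) ≤ 2 * n := by
  have h := EE_past (dg ℤ) (Pop (dg ℤ) (gT T)) n 0
  simp only [Function.iterate_zero, id, Nat.zero_add] at h
  rw [h]
  have h1 : ∀ m ∈ range n, ((Pop (dg ℤ))^[m + 1] (Pop (dg ℤ) (gT T))) 0 ≤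
      (1 / Real.sqrt ((m:ℝ) + 1)) * (1 / 2 * ∑ k ∈ range T, 1 / Real.sqrt ((k:ℝ) + 1)) := by
    intro m _
    rw [Pop_iter_gT, mul_sum, mul_sum]
    refine sum_le_sum fun k _ => (pk_le _ _).trans ?_
    set p := Real.sqrt ((m:ℝ) + 1) with hp
    set q := Real.sqrt ((k:ℝ) + 1) with hq
    have hp0 : 0 < p := Real.sqrt_pos.2 (by positivity)
    have hq0 : 0 < q := Real.sqrt_pos.2 (by positivity)
    have hp2 : p ^ 2 = (m:ℝ) + 1 := Real.sq_sqrt (by positivity)
    have hq2 : q ^ 2 = (k:ℝ) + 1 := Real.sq_sqrt (by positivity)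
    have e : 1 / p * (1 / 2 * (1 / q)) = 1 / (2 * p * q) := by field_simp
    rw [e]
    refine one_div_le_one_div_of_le (by positivity) ?_
    push_cast
    nlinarith [sq_nonneg (p - q)]
  refine (sum_le_sum h1).trans ?_
  rw [← sum_mul]
  have h2 := sum_inv_sqrt n
  have h3 := sum_inv_sqrt T
  have h4 : Real.sqrt T ≤ Real.sqrt n := Real.sqrt_le_sqrt (by exact_mod_cast hT)
  have h5 : Real.sqrt n * Real.sqrt n = n := Real.mul_self_sqrt (by positivity)
  have h6 := Real.sqrt_nonneg (n:ℝ)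
  have h7 : 0 ≤ ∑ k ∈ range T, 1 / Real.sqrt ((k:ℝ) + 1) := sum_nonneg fun k _ => by positivity
  calc _ ≤ (2 * Real.sqrt n) * (1 / 2 * (2 * Real.sqrt n)) := by
        gcongr
        linarith
    _ = 2 * (Real.sqrt n * Real.sqrt n) := by ring
    _ = _ := by rw [h5]

/-- mean number of self-intersections -/
noncomputable def mu {Γ : Type*} [AddCommGroup Γ] [DecidableEq Γ] {ι : Type*} [Fintype ι]
    [Nonempty ι] (σ : ι → Γ) (n : ℕ) : ℝ := EE σ n (fun L x => psum dl (x :: L))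

lemma mu_nonneg {Γ : Type*} [AddCommGroup Γ] [DecidableEq Γ] {ι : Type*} [Fintype ι]
    [Nonempty ι] (σ : ι → Γ) (n : ℕ) : 0 ≤ mu σ n := EE_nonneg σ fun _ _ _ => psum_nonneg dl_nonneg _

lemma mu_ge {n T : ℕ} (hT : T ≤ n) : n * Pop (dg ℤ) (gT T) 0 - 2 * n ≤ mu (dg ℤ) n := by
  have h1 : mu (dg ℤ) n = EE (dg ℤ) n (fun L x => psum (pk T) (x :: L) +
      (MM (dg ℤ) (gT T) L x + (n * Pop (dg ℤ) (gT T) 0 -
        lsum (fun z => Pop (dg ℤ) (gT T) (x - z)) L))) := by
    refine EE_congr _ fun L x hL => ?_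
    rw [psum_decomp (dg ℤ) (gT_identity T) L x, hL]
    ring
  rw [h1, EE_add, EE_add, EE_sub, EE_const, EE_MM]
  have h2 : 0 ≤ EE (dg ℤ) n (fun L x => psum (pk T) (x :: L)) :=
    EE_nonneg _ fun _ _ _ => psum_nonneg (pk_nonneg T) _
  have h3 := past_le hT
  linarith

/-- the deviation is at most smooth part plus martingale part plus constant times `n` -/
lemma dev_le {n T m b : ℕ} (hn : n = b + m) (hT : T ≤ n) {L : List (ℤ × ℤ)} (hL : L.length = n)
    (x : ℤ × ℤ) :
    psum dl (x :: L) - mu (dg ℤ) n ≤ psum (pk T) (x :: L.take m) + MM (dg ℤ) (gT T) L x +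
      (b * ((n:ℝ) + 1) * (1 / ((T:ℝ) + 1)) + 2 * n) := by
  have h1 := psum_decomp (dg ℤ) (gT_identity T) L x
  have h2 := mu_ge hT
  have h3 := psum_take_le (κ := pk T) (c := 1 / ((T:ℝ) + 1)) (by positivity) (pk_le T) (x :: L)
    (m + 1) (by rw [List.length_cons]; omega)
  rw [List.take_succ_cons, List.length_cons, hL] at h3
  have h4 : (((n + 1 : ℕ) : ℝ) - ((m + 1 : ℕ) : ℝ)) = b := by
    rw [hn]; push_cast; ring
  rw [h4] at h3
  push_cast at h3
  have h5 : 0 ≤ lsum (fun z => Pop (dg ℤ) (gT T) (x - z)) L :=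
    lsum_nonneg fun z _ => Pop_nonneg _ (gT_nonneg T) _
  rw [hL] at h1
  linarith

end Pool.Agent.Helper95.Poly
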