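import Mathlib
import Pool.Agent.Helper95.PolyDev

set_option autoImplicit false
set_option linter.unusedSectionVars false

open Finset Filter

namespace Pool.Agent.Helper95.Poly

lemma choose_scale {α q s n : ℕ} (hs : 1 ≤ s) (h1 : 4 ^ α ≤ s) (h2 : 4 ^ (q + 2) * s ≤ 4 ^ α * n) :
    ∃ a : ℕ, q + 2 ≤ a ∧ 4 ^ a ≤ n ∧ 4 ^ a * s ≤ 4 ^ α * n ∧ 4 ^ α * n < 4 ^ (a + 1) * s := by
  set N0 := (4 ^ α * n) / s with hN0
  have hpos : 1 ≤ N0 := by
    rw [hN0, Nat.one_le_div_iff (by omega)]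
    refine le_trans ?_ h2
    exact Nat.le_mul_of_pos_left _ (by positivity)
  have e1 : 4 ^ Nat.log 4 N0 ≤ N0 := Nat.pow_log_le_self 4 (by omega)
  have e2 : N0 < 4 ^ (Nat.log 4 N0 + 1) := Nat.lt_pow_succ_log_self (by norm_num) N0
  have e3 : N0 * s ≤ 4 ^ α * n := Nat.div_mul_le_self _ _
  have e4 : 4 ^ α * n < (N0 + 1) * s := by
    rw [hN0, mul_comm _ s]
    exact Nat.lt_mul_div_succ _ (by omega)
  have e5 : 4 ^ Nat.log 4 N0 * s ≤ 4 ^ α * n := le_trans (Nat.mul_le_mul_right s e1) e3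
  have e6 : 4 ^ α * n < 4 ^ (Nat.log 4 N0 + 1) * s :=
    lt_of_lt_of_le e4 (Nat.mul_le_mul_right s e2)
  refine ⟨Nat.log 4 N0, ?_, ?_, e5, e6⟩
  · have e7 : 4 ^ (q + 2) * s < 4 ^ (Nat.log 4 N0 + 1) * s := lt_of_le_of_lt h2 e6
    have e8 : 4 ^ (q + 2) < 4 ^ (Nat.log 4 N0 + 1) := lt_of_mul_lt_mul_right e7 (Nat.zero_le s)
    have e9 := (Nat.pow_lt_pow_iff_right (by norm_num : 1 < 4)).1 e8
    omega
  · have e7 : 4 ^ Nat.log 4 N0 * s ≤ n * s := by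
      refine e5.trans ?_
      rw [mul_comm n s]
      exact Nat.mul_le_mul_right n h1
    exact Nat.le_of_mul_le_mul_right e7 (by omega)

open Classical in
lemma split_ind {θ η : ℝ} (hθ : 0 ≤ θ) {n s a q τ m : ℕ} (ha : a = τ + q) (hn : n = 4 ^ a + m)
    (hs2 : 2 * (4:ℝ) ^ q + 2 ≤ η * s) (U : ℝ) {L : List (ℤ × ℤ)}
    (hL : L.length = n) (x : ℤ × ℤ) :
    (if (s:ℝ) * n ≤ psum dl (x :: L) - mu (dg ℤ) n then (1:ℝ) else 0) ≤
      (Real.exp (-(θ * (1 - 2 * η) * s)) * Real.exp (θ / n * psum (pk (4 ^ τ)) (x :: L.take m)) +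
        (if Good a U (x :: L) ∧ η * s * n ≤ MM (dg ℤ) (gT (4 ^ τ)) L x then 1 else 0)) +
        (if Good a U (x :: L) then 0 else 1) := by
  have p1 : 0 ≤ Real.exp (-(θ * (1 - 2 * η) * s)) *
      Real.exp (θ / n * psum (pk (4 ^ τ)) (x :: L.take m)) := by positivity
  have p2 : (0:ℝ) ≤ (if Good a U (x :: L) ∧ η * s * n ≤ MM (dg ℤ) (gT (4 ^ τ)) L x then 1 else 0) := by
    split_ifs <;> norm_num
  have p3 : (0:ℝ) ≤ (if Good a U (x :: L) then 0 else 1) := by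
    split_ifs <;> norm_num
  by_cases hX : (s:ℝ) * n ≤ psum dl (x :: L) - mu (dg ℤ) n
  · rw [if_pos hX]
    have h4a : 1 ≤ 4 ^ a := Nat.one_le_pow _ _ (by norm_num)
    have hn1 : (1:ℝ) ≤ n := by
      have : 1 ≤ n := by omega
      exact_mod_cast this
    have hn0 : (0:ℝ) < n := by linarith
    have hT : 4 ^ τ ≤ n := by
      have : 4 ^ τ ≤ 4 ^ a := Nat.pow_le_pow_right (by norm_num) (by omega)
      omega
    have hd := dev_le hn hT hL x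
    have hdrop : ((4 ^ a : ℕ) : ℝ) * ((n:ℝ) + 1) * (1 / (((4 ^ τ : ℕ) : ℝ) + 1)) ≤ 2 * 4 ^ q * n := by
      rw [mul_one_div, div_le_iff₀ (by positivity)]
      push_cast
      rw [ha, pow_add]
      have e1 : (n:ℝ) + 1 ≤ 2 * n := by linarith
      calc (4:ℝ) ^ τ * 4 ^ q * ((n:ℝ) + 1) ≤ 4 ^ τ * 4 ^ q * (2 * n) := by gcongr
        _ = 2 * 4 ^ q * n * 4 ^ τ := by ring
        _ ≤ 2 * 4 ^ q * n * (4 ^ τ + 1) := by gcongr; linarith
    have hs3 : (2 * (4:ℝ) ^ q + 2) * n ≤ η * s * n := by gcongr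
    by_cases hJ : (1 - 2 * η) * s * n ≤ psum (pk (4 ^ τ)) (x :: L.take m)
    · have : 1 ≤ Real.exp (-(θ * (1 - 2 * η) * s)) *
          Real.exp (θ / n * psum (pk (4 ^ τ)) (x :: L.take m)) := by
        rw [← Real.exp_add]
        refine Real.one_le_exp ?_
        have e2 : θ / n * ((1 - 2 * η) * s * n) ≤ θ / n * psum (pk (4 ^ τ)) (x :: L.take m) := by
          gcongr
        have e3 : θ / n * ((1 - 2 * η) * s * n) = θ * (1 - 2 * η) * s := by field_simp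
        linarith
      linarith
    · push Not at hJ
      have hM : η * s * n ≤ MM (dg ℤ) (gT (4 ^ τ)) L x := by
        by_contra hc
        push Not at hc
        nlinarith
      by_cases hG : Good a U (x :: L)
      · rw [if_pos ⟨hG, hM⟩]
        linarith
      · rw [if_neg hG]
        linarith
  · rw [if_neg hX]
    linarith

/-- tail bound at a fixed level -/
lemma tail_fixed {θ η lam C5 : ℝ} (hθ : 0 ≤ θ) (hη : 0 < η) (hlam : 0 ≤ lam) (hC5 : 0 ≤ C5)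
    (hsm : ∀ (r R k m n : ℕ), R = 2 * r → 2 ≤ r → n = R ^ 2 + m →
      2 * k + 1 ≤ 2 * R ^ 2 →
      EE (dg ℤ) n (fun L x => Real.exp (θ / n * psum (pk (2 * k)) (x :: L.take m))) ≤
        Real.exp (C5 * ((R:ℝ) ^ 2 / (2 * k + 1)) + C5) * Real.exp (30 * n / (R:ℝ) ^ 2))
    {α q s n : ℕ} (hs : 1 ≤ s) (h1 : 4 ^ α ≤ s) (h2 : 4 ^ (q + 2) * s ≤ 4 ^ α * n)
    (hs2 : 2 * (4:ℝ) ^ q + 2 ≤ η * s) (h3 : 120 ≤ η * 4 ^ α)
    (h4 : ((lam + 3) / η) ^ 2 / 2 *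
      ((2 * (C3 * (lam + 10)) ^ 2 * 4 ^ α + 8 * 432 ^ 2) * (9 / 16) ^ q) ≤ 1) :
    EE (dg ℤ) n (fun L x => if (s:ℝ) * n ≤ psum dl (x :: L) - mu (dg ℤ) n then (1:ℝ) else 0) ≤
      Real.exp (C5 * 4 ^ q + C5) * Real.exp (-((θ * (1 - 2 * η) - η) * s)) +
        5 * Real.exp (-((lam + 2) * s)) := by
  classical
  obtain ⟨a, ha1, ha2, ha3, ha4⟩ := choose_scale hs h1 h2
  obtain ⟨τ, hτ⟩ : ∃ τ, a = τ + q := ⟨a - q, by omega⟩
  have hτ2 : 2 ≤ τ := by omega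
  obtain ⟨τ', hτ'⟩ : ∃ τ', τ = τ' + 1 := ⟨τ - 1, by omega⟩
  obtain ⟨a', ha'⟩ : ∃ a', a = a' + 1 := ⟨a - 1, by omega⟩
  obtain ⟨m, hm⟩ : ∃ m, n = 4 ^ a + m := ⟨n - 4 ^ a, by omega⟩
  have h4a : 1 ≤ 4 ^ a := Nat.one_le_pow _ _ (by norm_num)
  have hn1 : (1:ℝ) ≤ n := by
    have : 1 ≤ n := by omega
    exact_mod_cast this
  have hn0 : (0:ℝ) < n := by linarith
  have hs1 : (1:ℝ) ≤ s := by exact_mod_cast hs
  have hs0 : (0:ℝ) < s := by linarith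
  have hC3 := C3_pos
  -- real forms of the scale relations
  have r3 : (4:ℝ) ^ a * s ≤ 4 ^ α * n := by exact_mod_cast ha3
  have r4 : (4:ℝ) ^ α * n < 4 * 4 ^ a * s := by
    have : ((4 ^ α * n : ℕ) : ℝ) < ((4 ^ (a + 1) * s : ℕ) : ℝ) := by exact_mod_cast ha4
    push_cast at this
    rw [pow_succ] at this
    linarith
  have p4a : (0:ℝ) < 4 ^ a := by positivity
  have p4α : (1:ℝ) ≤ 4 ^ α := one_le_pow₀ (by norm_num)
  have hna : (n:ℝ) / 4 ^ a ≤ 4 * s / 4 ^ α := by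
    rw [div_le_div_iff₀ p4a (by linarith)]
    linarith
  set U := (lam + 10) * s with hU
  have hU0 : 0 ≤ U := by positivity
  have hU3 : 3 ≤ U := by
    rw [hU]; nlinarith
  -- split
  have hsplit : EE (dg ℤ) n (fun L x => if (s:ℝ) * n ≤ psum dl (x :: L) - mu (dg ℤ) n
      then (1:ℝ) else 0) ≤
      (Real.exp (-(θ * (1 - 2 * η) * s)) *
        EE (dg ℤ) n (fun L x => Real.exp (θ / n * psum (pk (4 ^ τ)) (x :: L.take m))) +
        EE (dg ℤ) n (fun L x => if Good a U (x :: L) ∧ η * s * n ≤ MM (dg ℤ) (gT (4 ^ τ)) L x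
          then 1 else 0)) +
        EE (dg ℤ) n (fun L x => if Good a U (x :: L) then 0 else 1) := by
    rw [← EE_mul, ← EE_add, ← EE_add]
    exact EE_mono _ fun L x hL => split_ind hθ hτ hm hs2 U hL x
  -- smooth part
  have hJ : EE (dg ℤ) n (fun L x => Real.exp (θ / n * psum (pk (4 ^ τ)) (x :: L.take m))) ≤
      Real.exp (C5 * 4 ^ q + C5) * Real.exp (η * s) := by
    have e1 : 2 * (2 * 4 ^ τ') = 4 ^ τ := by rw [hτ', pow_succ]; ring
    have e2 : (2 ^ a) ^ 2 = 4 ^ a := by rw [← pow_mul, mul_comm, pow_mul]; norm_num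
    have e3 : 4 ^ τ ≤ 4 ^ a := Nat.pow_le_pow_right (by norm_num) (by omega)
    have h5 := hsm (2 ^ a') (2 ^ a) (2 * 4 ^ τ') m n (by rw [ha', pow_succ]; ring)
      (by
        have : 2 ^ 1 ≤ 2 ^ a' := Nat.pow_le_pow_right (by norm_num) (by omega)
        simpa using this)
      (by rw [e2]; exact hm) (by rw [e2, e1]; omega)
    rw [e1] at h5
    refine h5.trans ?_
    have e4 : (((2 ^ a : ℕ) : ℝ)) ^ 2 = 4 ^ a := by exact_mod_cast e2
    have e5 : (2 * ((2 * 4 ^ τ' : ℕ) : ℝ) + 1) = 4 ^ τ + 1 := by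
      have : ((2 * (2 * 4 ^ τ') : ℕ) : ℝ) = ((4 ^ τ : ℕ) : ℝ) := by rw [e1]
      push_cast at this ⊢
      linarith
    rw [e4, e5]
    gcongr
    · rw [div_le_iff₀ (by positivity), hτ, pow_add]
      calc (4:ℝ) ^ τ * 4 ^ q = 4 ^ q * 4 ^ τ := mul_comm _ _
        _ ≤ 4 ^ q * (4 ^ τ + 1) := by gcongr; linarith
    · calc 30 * (n:ℝ) / 4 ^ a = 30 * (n / 4 ^ a) := by ring
        _ ≤ 30 * (4 * s / 4 ^ α) := by gcongr
        _ = 120 * s / 4 ^ α := by ring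
        _ ≤ η * s := by
            rw [div_le_iff₀ (by linarith)]
            nlinarith
  -- martingale part
  have hMM : EE (dg ℤ) n (fun L x => if Good a U (x :: L) ∧
      η * s * n ≤ MM (dg ℤ) (gT (4 ^ τ)) L x then 1 else 0) ≤ Real.exp (-((lam + 2) * s)) := by
    set B := C3 * U * (2 ^ a * (3 / 4) ^ q) + n * (432 * 2 ^ τ / 4 ^ a) with hB
    have h6 := mart_tail hτ hU0 (n := n) (θ := (lam + 3) / η / n) (v := η * s * n) (B := B) le_rfl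
      (by positivity)
    refine h6.trans (Real.exp_le_exp.2 ?_)
    have e1 : (lam + 3) / η / n * (η * s * n) = (lam + 3) * s := by field_simp
    have e2 : ((lam + 3) / η / n) ^ 2 / 2 * (n * B ^ 2) = ((lam + 3) / η) ^ 2 / 2 * (B ^ 2 / n) := by
      field_simp
    rw [e1, e2]
    have e3 : B ^ 2 / n ≤ (2 * (C3 * (lam + 10)) ^ 2 * 4 ^ α + 8 * 432 ^ 2) * (9 / 16) ^ q * s := by
      have f1 : B ^ 2 ≤ 2 * (C3 * U * (2 ^ a * (3 / 4) ^ q)) ^ 2 +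
          2 * (n * (432 * 2 ^ τ / 4 ^ a)) ^ 2 := by
        rw [hB]
        nlinarith [sq_nonneg (C3 * U * (2 ^ a * (3 / 4) ^ q) - n * (432 * 2 ^ τ / 4 ^ a))]
      have g1 : ((2:ℝ) ^ a) ^ 2 = 4 ^ a := by rw [← pow_mul, mul_comm, pow_mul]; norm_num
      have g2 : ((3/4:ℝ) ^ q) ^ 2 = (9/16) ^ q := by rw [← pow_mul, mul_comm, pow_mul]; norm_num
      have g3 : ((2:ℝ) ^ τ) ^ 2 = 4 ^ τ := by rw [← pow_mul, mul_comm, pow_mul]; norm_num
      have f2 : 2 * (C3 * U * (2 ^ a * (3 / 4) ^ q)) ^ 2 / n ≤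
          2 * (C3 * (lam + 10)) ^ 2 * 4 ^ α * (9 / 16) ^ q * s := by
        have : 2 * (C3 * U * (2 ^ a * (3 / 4) ^ q)) ^ 2 / n =
            2 * (C3 * (lam + 10)) ^ 2 * (9 / 16) ^ q * s * (4 ^ a * s / n) := by
          rw [mul_pow, mul_pow (2 ^ a : ℝ), g1, g2, hU]; ring
        rw [this]
        have f3 : (4:ℝ) ^ a * s / n ≤ 4 ^ α := by
          rw [div_le_iff₀ hn0]; exact r3
        calc _ ≤ 2 * (C3 * (lam + 10)) ^ 2 * (9 / 16) ^ q * s * 4 ^ α := by gcongr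
          _ = _ := by ring
      have f4 : 2 * ((n:ℝ) * (432 * 2 ^ τ / 4 ^ a)) ^ 2 / n ≤ 8 * 432 ^ 2 * (9 / 16) ^ q * s := by
        have : 2 * ((n:ℝ) * (432 * 2 ^ τ / 4 ^ a)) ^ 2 / n = 2 * 432 ^ 2 * (n / 4 ^ a) * (4 ^ τ / 4 ^ a) := by
          rw [← g3]
          field_simp
        rw [this]
        have f5 : (4:ℝ) ^ τ / 4 ^ a ≤ (9 / 16) ^ q := by
          rw [hτ, pow_add, div_mul_eq_div_div, div_self (by positivity)]
          rw [one_div, ← inv_pow]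
          gcongr
          norm_num
        have f6 : (n:ℝ) / 4 ^ a ≤ 4 * s := by
          refine hna.trans ?_
          rw [div_le_iff₀ (by linarith)]
          nlinarith
        calc 2 * 432 ^ 2 * ((n:ℝ) / 4 ^ a) * (4 ^ τ / 4 ^ a)
            ≤ 2 * 432 ^ 2 * (4 * s) * (9 / 16) ^ q := by gcongr
          _ = _ := by ring
      calc B ^ 2 / n ≤ (2 * (C3 * U * (2 ^ a * (3 / 4) ^ q)) ^ 2 +
          2 * (n * (432 * 2 ^ τ / 4 ^ a)) ^ 2) / n := by gcongr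
        _ = 2 * (C3 * U * (2 ^ a * (3 / 4) ^ q)) ^ 2 / n +
          2 * (n * (432 * 2 ^ τ / 4 ^ a)) ^ 2 / n := by rw [add_div]
        _ ≤ _ := by linarith
    have e4 : ((lam + 3) / η) ^ 2 / 2 * (B ^ 2 / n) ≤ s := by
      calc ((lam + 3) / η) ^ 2 / 2 * (B ^ 2 / n) ≤ ((lam + 3) / η) ^ 2 / 2 *
          ((2 * (C3 * (lam + 10)) ^ 2 * 4 ^ α + 8 * 432 ^ 2) * (9 / 16) ^ q * s) := by gcongr
        _ = (((lam + 3) / η) ^ 2 / 2 *
          ((2 * (C3 * (lam + 10)) ^ 2 * 4 ^ α + 8 * 432 ^ 2) * (9 / 16) ^ q)) * s := by ring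
        _ ≤ 1 * s := by gcongr
        _ = s := one_mul _
    linarith
  -- bad part
  have hbad : EE (dg ℤ) n (fun L x => if Good a U (x :: L) then 0 else 1) ≤
      4 * Real.exp (-((lam + 2) * s)) := by
    refine (bad_le a hU3 n).trans ?_
    have e1 : (((n + 1) / 4 ^ a : ℕ) : ℝ) ≤ 8 * s := by
      calc (((n + 1) / 4 ^ a : ℕ) : ℝ) ≤ ((n + 1 : ℕ) : ℝ) / ((4 ^ a : ℕ) : ℝ) := Nat.cast_div_le
        _ = ((n:ℝ) + 1) / 4 ^ a := by push_cast; ring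
        _ ≤ (2 * n) / 4 ^ a := by gcongr; linarith
        _ = 2 * (n / 4 ^ a) := by ring
        _ ≤ 2 * (4 * s / 4 ^ α) := by gcongr
        _ ≤ 2 * (4 * s) := by
            gcongr
            exact div_le_self (by positivity) p4α
        _ = 8 * s := by ring
    have e2 : (2:ℝ) ^ ((n + 1) / 4 ^ a + 1) ≤ 2 * Real.exp (8 * s) := by
      rw [pow_succ, mul_comm]
      gcongr
      calc (2:ℝ) ^ ((n + 1) / 4 ^ a) ≤ Real.exp 1 ^ ((n + 1) / 4 ^ a) := by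
            gcongr
            have := Real.add_one_le_exp (1:ℝ); linarith
        _ = Real.exp ((((n + 1) / 4 ^ a : ℕ) : ℝ)) := by
            rw [← Real.exp_nat_mul, mul_one]
        _ ≤ _ := Real.exp_le_exp.2 e1
    calc 2 * Real.exp (-U) * 2 ^ ((n + 1) / 4 ^ a + 1) ≤
        2 * Real.exp (-U) * (2 * Real.exp (8 * s)) := by gcongr
      _ = 4 * (Real.exp (-U) * Real.exp (8 * s)) := by ring
      _ = 4 * Real.exp (-((lam + 2) * s)) := by
          rw [← Real.exp_add, hU]; congr 2; ring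
  refine hsplit.trans ?_
  have hfin : Real.exp (-(θ * (1 - 2 * η) * s)) *
      EE (dg ℤ) n (fun L x => Real.exp (θ / n * psum (pk (4 ^ τ)) (x :: L.take m))) ≤
      Real.exp (C5 * 4 ^ q + C5) * Real.exp (-((θ * (1 - 2 * η) - η) * s)) := by
    calc _ ≤ Real.exp (-(θ * (1 - 2 * η) * s)) * (Real.exp (C5 * 4 ^ q + C5) * Real.exp (η * s)) := by
          gcongr
      _ = Real.exp (C5 * 4 ^ q + C5) * (Real.exp (-(θ * (1 - 2 * η) * s)) * Real.exp (η * s)) := by ring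
      _ = _ := by rw [← Real.exp_add]; congr 2; ring
  linarith

end Pool.Agent.Helper95.Poly
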