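import Mathlib
import Pool.Agent.Helper95.PolyTail

set_option autoImplicit false
set_option linter.unusedSectionVars false

open Finset Filter

namespace Pool.Agent.Helper95.Poly

/-- exponential of the centred variable by levels -/
lemma level_split {lam X : ℝ} (hlam : 0 ≤ lam) {n s0 : ℕ} (hX : X ≤ n) (P : ℕ → Prop) [DecidablePred P]
    {Y : ℝ} (hY : 0 ≤ Y) (hPY : ∀ s : ℕ, s0 ≤ s → (s:ℝ) ≤ X → ¬ P s → Real.exp (lam * X) ≤ Y) :
    Real.exp (lam * X) ≤ (Real.exp (lam * s0) +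
      ∑ s ∈ range (n + 1), (if s0 ≤ s ∧ P s then
        Real.exp (lam * (s + 1)) * (if (s:ℝ) ≤ X then 1 else 0) else 0)) + Y := by
  have hsum : 0 ≤ ∑ s ∈ range (n + 1), (if s0 ≤ s ∧ P s then
        Real.exp (lam * (s + 1)) * (if (s:ℝ) ≤ X then (1:ℝ) else 0) else 0) := by
    refine sum_nonneg fun s _ => ?_
    split_ifs <;> positivity
  have he := (Real.exp_pos (lam * s0)).le
  rcases lt_or_ge X s0 with h | h
  · have : Real.exp (lam * X) ≤ Real.exp (lam * s0) := by
      refine Real.exp_le_exp.2 ?_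
      gcongr
    linarith
  · have hX0 : 0 ≤ X := le_trans (by positivity) h
    set s := ⌊X⌋₊ with hs
    have h1 : (s:ℝ) ≤ X := Nat.floor_le hX0
    have h2 : X < s + 1 := Nat.lt_floor_add_one X
    have h3 : s0 ≤ s := Nat.le_floor h
    have h4 : s ∈ range (n + 1) := by
      rw [mem_range, Nat.lt_succ_iff]
      have : (s:ℝ) ≤ n := h1.trans hX
      exact_mod_cast this
    by_cases hP : P s
    · have h5 : Real.exp (lam * X) ≤ (if s0 ≤ s ∧ P s then
          Real.exp (lam * (s + 1)) * (if (s:ℝ) ≤ X then (1:ℝ) else 0) else 0) := by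
        rw [if_pos ⟨h3, hP⟩, if_pos h1, mul_one]
        refine Real.exp_le_exp.2 ?_
        gcongr
      have h6 := single_le_sum (f := fun s : ℕ => (if s0 ≤ s ∧ P s then
        Real.exp (lam * (s + 1)) * (if (s:ℝ) ≤ X then (1:ℝ) else 0) else 0))
        (fun s _ => by split_ifs <;> positivity) h4
      linarith
    · have := hPY s h3 h1 hP
      linarith

theorem two_dim {γ lam : ℝ} (hS : Sub (dg ℤ) γ) (h0 : 0 < lam) (h : lam < γ) :
    ∃ M : ℝ, ∀ n : ℕ, 1 ≤ n → EE (dg ℤ) n (fun L x =>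
      Real.exp (lam / n * (psum dl (x :: L) - mu (dg ℤ) n))) ≤ M := by
  set θ := (lam + γ) / 2 with hθ
  have hθ1 : lam < θ := by rw [hθ]; linarith
  have hθ2 : θ < γ := by rw [hθ]; linarith
  have hθ0 : 0 < θ := h0.trans hθ1
  set η := (θ - lam) / (2 * θ + 2) with hη
  have hη0 : 0 < η := div_pos (by linarith) (by linarith)
  have hη1 : (2 * θ + 2) * η = θ - lam := by rw [hη]; field_simp
  have hη2 : η ≤ 1 := by
    rw [hη, div_le_one (by linarith)]
    linarith
  obtain ⟨C5, hC5, hsm⟩ := smooth hS hθ0 hθ2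
  have hC3 := C3_pos
  obtain ⟨α, hα⟩ := pow_unbounded_of_one_lt (120 / η) (by norm_num : (1:ℝ) < 4)
  have h3 : 120 ≤ η * 4 ^ α := by
    have := (div_lt_iff₀ hη0).1 hα
    linarith
  set E1 := ((lam + 3) / η) ^ 2 / 2 * (2 * (C3 * (lam + 10)) ^ 2 * 4 ^ α + 8 * 432 ^ 2) with hE1
  have hE10 : 0 < E1 := by positivity
  obtain ⟨q, hq⟩ := exists_pow_lt_of_lt_one (show 0 < 1 / E1 by positivity)
    (by norm_num : (9/16:ℝ) < 1)
  have h4 : ((lam + 3) / η) ^ 2 / 2 *
      ((2 * (C3 * (lam + 10)) ^ 2 * 4 ^ α + 8 * 432 ^ 2) * (9 / 16) ^ q) ≤ 1 := by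
    rw [← mul_assoc, ← hE1]
    calc E1 * (9/16) ^ q ≤ E1 * (1 / E1) := by gcongr
      _ = 1 := by field_simp
  obtain ⟨s1, hs1⟩ := exists_nat_ge ((2 * (4:ℝ) ^ q + 2) / η)
  set s0 := s1 + 4 ^ α with hs0
  have h4α : 1 ≤ 4 ^ α := Nat.one_le_pow _ _ (by norm_num)
  have hs0b : ∀ s : ℕ, s0 ≤ s → 1 ≤ s ∧ 4 ^ α ≤ s ∧ 2 * (4:ℝ) ^ q + 2 ≤ η * s := by
    intro s hs
    refine ⟨by omega, by omega, ?_⟩
    have h5 : (s1:ℝ) ≤ s := by
      have : s1 ≤ s := by omega
      exact_mod_cast this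
    have h6 := (div_le_iff₀ hη0).1 (hs1.trans h5)
    linarith
  set δ : ℝ := 4 ^ α / 4 ^ (q + 2) with hδ
  have hδ0 : 0 < δ := by positivity
  obtain ⟨Mt, hMt⟩ := top_range hS h0.le h hδ0
  set Cc := Real.exp (C5 * 4 ^ q + C5) + 5 with hCc
  have hCc0 : 0 < Cc := by positivity
  have htail : ∀ s n : ℕ, s0 ≤ s → 4 ^ (q + 2) * s ≤ 4 ^ α * n →
      EE (dg ℤ) n (fun L x => if (s:ℝ) * n ≤ psum dl (x :: L) - mu (dg ℤ) n then (1:ℝ) else 0) ≤
        Cc * Real.exp (-((lam + η) * s)) := by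
    intro s n hs hsn
    obtain ⟨b1, b2, b3⟩ := hs0b s hs
    have h7 := tail_fixed hθ0.le hη0 h0.le hC5 hsm b1 b2 hsn b3 h3 h4
    refine h7.trans ?_
    have hs' : (0:ℝ) ≤ s := by positivity
    have e1 : Real.exp (-((θ * (1 - 2 * η) - η) * s)) ≤ Real.exp (-((lam + η) * s)) := by
      refine Real.exp_le_exp.2 (neg_le_neg ?_)
      have : lam + η ≤ θ * (1 - 2 * η) - η := by linarith
      gcongr
    have e2 : Real.exp (-((lam + 2) * s)) ≤ Real.exp (-((lam + η) * s)) := by
      refine Real.exp_le_exp.2 (neg_le_neg ?_)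
      gcongr
      linarith
    calc _ ≤ Real.exp (C5 * 4 ^ q + C5) * Real.exp (-((lam + η) * s)) +
          5 * Real.exp (-((lam + η) * s)) := by gcongr
      _ = _ := by rw [hCc]; ring
  set G : ℝ := ∑' s : ℕ, Real.exp (-η) ^ s with hG
  have hgeo : ∀ N : ℕ, ∑ s ∈ range N, Real.exp (-η) ^ s ≤ G := by
    intro N
    refine Summable.sum_le_tsum _ (fun s _ => by positivity) ?_
    exact summable_geometric_of_lt_one (Real.exp_pos _).le (Real.exp_lt_one_iff.2 (by linarith))
  refine ⟨(Real.exp (lam * s0) + Cc * Real.exp lam * G) + Mt, fun n hn => ?_⟩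
  have hn0 : (0:ℝ) < n := by exact_mod_cast hn
  have hmu := mu_nonneg (dg ℤ) n
  -- pointwise bound
  have hpt : ∀ (L : List (ℤ × ℤ)) (x : ℤ × ℤ), L.length = n →
      Real.exp (lam / n * (psum dl (x :: L) - mu (dg ℤ) n)) ≤
      (Real.exp (lam * s0) + ∑ s ∈ range (n + 1),
        (if s0 ≤ s ∧ 4 ^ (q + 2) * s ≤ 4 ^ α * n then Real.exp (lam * (s + 1)) else 0) *
          (if (s:ℝ) * n ≤ psum dl (x :: L) - mu (dg ℤ) n then (1:ℝ) else 0)) +
      Real.exp (lam / n * psum dl (x :: L)) *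
        (if δ * (n:ℝ) ^ 2 ≤ psum dl (x :: L) then 1 else 0) := by
    intro L x hL
    set X := (psum dl (x :: L) - mu (dg ℤ) n) / n with hX
    have hXn : X ≤ n := by
      rw [hX, div_le_iff₀ hn0]
      have := psum_dl_le L x hn hL
      nlinarith
    have e0 : lam / n * (psum dl (x :: L) - mu (dg ℤ) n) = lam * X := by
      rw [hX]; ring
    have hXs : ∀ s : ℕ, (s:ℝ) ≤ X ↔ (s:ℝ) * n ≤ psum dl (x :: L) - mu (dg ℤ) n := by
      intro s; rw [hX, le_div_iff₀ hn0]
    have h8 := level_split (lam := lam) (X := X) h0.le (n := n) (s0 := s0) hXn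
      (fun s => 4 ^ (q + 2) * s ≤ 4 ^ α * n)
      (Y := Real.exp (lam / n * psum dl (x :: L)) *
        (if δ * (n:ℝ) ^ 2 ≤ psum dl (x :: L) then 1 else 0))
      (by split_ifs <;> positivity)
      (fun s _ hsX hP => by
        have f1 : δ * (n:ℝ) ^ 2 ≤ psum dl (x :: L) := by
          push Not at hP
          have f2 : ((4 ^ α * n : ℕ) : ℝ) ≤ ((4 ^ (q + 2) * s : ℕ) : ℝ) := by exact_mod_cast hP.le
          push_cast at f2
          have f3 : δ * n ≤ s := by
            rw [hδ, div_mul_eq_mul_div, div_le_iff₀ (by positivity)]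
            linarith
          have f4 := (hXs s).1 hsX
          have f5 : δ * (n:ℝ) ^ 2 ≤ s * n := by
            calc δ * (n:ℝ) ^ 2 = (δ * n) * n := by ring
              _ ≤ s * n := by gcongr
          linarith
        rw [if_pos f1, mul_one, ← e0]
        refine Real.exp_le_exp.2 ?_
        have : 0 ≤ lam / n := by positivity
        nlinarith)
    rw [e0]
    refine h8.trans (le_of_eq ?_)
    congr 2
    refine sum_congr rfl fun s _ => ?_
    simp only [hXs]
    split_ifs <;> simp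
  calc EE (dg ℤ) n (fun L x => Real.exp (lam / n * (psum dl (x :: L) - mu (dg ℤ) n)))
      ≤ EE (dg ℤ) n (fun L x => (Real.exp (lam * s0) + ∑ s ∈ range (n + 1),
        (if s0 ≤ s ∧ 4 ^ (q + 2) * s ≤ 4 ^ α * n then Real.exp (lam * (s + 1)) else 0) *
          (if (s:ℝ) * n ≤ psum dl (x :: L) - mu (dg ℤ) n then (1:ℝ) else 0)) +
      Real.exp (lam / n * psum dl (x :: L)) *
        (if δ * (n:ℝ) ^ 2 ≤ psum dl (x :: L) then 1 else 0)) := EE_mono _ hpt
    _ = (Real.exp (lam * s0) + ∑ s ∈ range (n + 1),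
        (if s0 ≤ s ∧ 4 ^ (q + 2) * s ≤ 4 ^ α * n then Real.exp (lam * (s + 1)) else 0) *
        EE (dg ℤ) n (fun L x =>
          (if (s:ℝ) * n ≤ psum dl (x :: L) - mu (dg ℤ) n then (1:ℝ) else 0))) +
        EE (dg ℤ) n (fun L x => Real.exp (lam / n * psum dl (x :: L)) *
        (if δ * (n:ℝ) ^ 2 ≤ psum dl (x :: L) then 1 else 0)) := by
        rw [EE_add, EE_add, EE_const, EE_sum]
        congr 2
        refine sum_congr rfl fun s _ => ?_
        rw [EE_mul]
    _ ≤ (Real.exp (lam * s0) + Cc * Real.exp lam * G) + Mt := by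
        refine add_le_add (add_le_add le_rfl ?_) (hMt n hn)
        calc _ ≤ ∑ s ∈ range (n + 1), Cc * Real.exp lam * Real.exp (-η) ^ s := by
              refine sum_le_sum fun s _ => ?_
              split_ifs with hc
              · calc _ ≤ Real.exp (lam * (s + 1)) * (Cc * Real.exp (-((lam + η) * s))) := by
                      gcongr
                      exact htail s n hc.1 hc.2
                  _ = Cc * (Real.exp (lam * (s + 1)) * Real.exp (-((lam + η) * s))) := by ring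
                  _ = Cc * (Real.exp lam * Real.exp (-η) ^ s) := by
                      rw [← Real.exp_nat_mul, ← Real.exp_add, ← Real.exp_add]
                      congr 2; ring
                  _ = _ := by ring
              · rw [zero_mul]; positivity
          _ = Cc * Real.exp lam * ∑ s ∈ range (n + 1), Real.exp (-η) ^ s := by rw [mul_sum]
          _ ≤ _ := by gcongr; exact hgeo _

end Pool.Agent.Helper95.Poly
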