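import Mathlib
import Pool.Agent.Helper95.PolyPlane

set_option autoImplicit false
set_option linter.unusedSectionVars false

open Finset Filter

namespace Pool.Agent.Helper95.Poly

variable {Γ : Type*} [AddCommGroup Γ] [DecidableEq Γ] {ι : Type*} [Fintype ι] [Nonempty ι]
  (σ : ι → Γ)

/-- partition function -/
noncomputable def ZZ (n : ℕ) (β : ℝ) : ℝ :=
  EE σ n (fun L x => Real.exp (-(β / n) * psum dl (x :: L)))

/-- centred partition function -/
noncomputable def ZS (n : ℕ) (β : ℝ) : ℝ :=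
  EE σ n (fun L x => Real.exp (-(β / n) * (psum dl (x :: L) - mu σ n)))

/-- parameters with exponential growth -/
def SA : Set ℝ := {β | ∃ c : ℝ, 1 < c ∧ ∃ᶠ n : ℕ in atTop, c < ZZ σ n β ^ ((1:ℝ) / (n:ℝ))}

/-- parameters with bounded centred partition function -/
def SB : Set ℝ := {β | ∃ M : ℝ, ∀ n : ℕ, 1 ≤ n → ZS σ n β ≤ M}

lemma ZZ_pos (n : ℕ) (β : ℝ) : 0 < ZZ σ n β := by
  rw [ZZ, EE_eq]
  have := card_pos' (ι := ι)
  have : 0 < ∑ s : Fin n → ι, Real.exp (-(β / n) * psum dl ((path σ n s).2 :: (path σ n s).1)) :=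
    sum_pos (fun s _ => Real.exp_pos _) univ_nonempty
  positivity

lemma SA_neg {β : ℝ} (h : β ∈ SA σ) : β < 0 := by
  by_contra hc
  push Not at hc
  obtain ⟨c, hc1, hf⟩ := h
  obtain ⟨n, hn⟩ := hf.exists
  have h1 : ZZ σ n β ≤ 1 := by
    rw [ZZ, ← EE_const σ n 1]
    refine EE_mono σ fun L x _ => ?_
    rw [Real.exp_le_one_iff]
    have := psum_nonneg (κ := dl) dl_nonneg (x :: L)
    have h2 : 0 ≤ β / n := by positivity
    nlinarith
  have h3 : ZZ σ n β ^ ((1:ℝ) / (n:ℝ)) ≤ 1 := Real.rpow_le_one (ZZ_pos σ n β).le h1 (by positivity)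
  linarith

lemma zero_mem_SB : (0:ℝ) ∈ SB σ := ⟨1, fun n _ => by
  rw [ZS, ← EE_const σ n 1]
  refine EE_mono σ fun L x _ => ?_
  simp⟩

/-- sub-quadratic mean -/
def Mean0 : Prop := ∀ ε : ℝ, 0 < ε → ∀ᶠ n : ℕ in atTop, mu σ n ≤ ε * (n:ℝ) ^ 2

lemma SB_le {β β' : ℝ} (hA : Mean0 σ) (hβ : β ∈ SB σ) (hβ' : β' ∈ SA σ) : β' ≤ β := by
  by_contra hlt
  push Not at hlt
  have hneg := SA_neg σ hβ'
  obtain ⟨M, hM⟩ := hβ
  obtain ⟨c, hc1, hf⟩ := hβ'
  have hlam : 0 < -β := by linarith
  set ε := Real.log c / (2 * (-β)) with hε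
  have hlogc : 0 < Real.log c := Real.log_pos hc1
  have hε0 : 0 < ε := by positivity
  have hev := hA ε hε0
  have hev2 : ∀ᶠ n : ℕ in atTop, max M 1 < Real.exp (Real.log c / 2) ^ n := by
    have : Tendsto (fun n : ℕ => Real.exp (Real.log c / 2) ^ n) atTop atTop :=
      tendsto_pow_atTop_atTop_of_one_lt (Real.one_lt_exp_iff.2 (by positivity))
    exact this.eventually_gt_atTop _
  obtain ⟨n, hn, h1, h2, h3⟩ := (hf.and_eventually (hev.and (hev2.and (eventually_ge_atTop 1)))).exists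
  have hn0 : (0:ℝ) < n := by exact_mod_cast h3
  have h4 : ZZ σ n β' ≤ c ^ n := by
    have h5 : ZZ σ n β' ≤ EE σ n (fun L x => Real.exp ((-β) / n * mu σ n) *
        Real.exp (-(β / n) * (psum dl (x :: L) - mu σ n))) := by
      refine EE_mono σ fun L x _ => ?_
      rw [← Real.exp_add]
      refine Real.exp_le_exp.2 ?_
      have h6 := psum_nonneg (κ := dl) dl_nonneg (x :: L)
      have h7 : -(β' / n) * psum dl (x :: L) ≤ -(β / n) * psum dl (x :: L) := by
        have : β / n ≤ β' / n := by gcongr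
        nlinarith
      refine h7.trans (le_of_eq ?_)
      ring
    rw [EE_mul] at h5
    have h8 : Real.exp ((-β) / n * mu σ n) ≤ Real.exp (Real.log c / 2) ^ n := by
      rw [← Real.exp_nat_mul]
      refine Real.exp_le_exp.2 ?_
      calc (-β) / n * mu σ n ≤ (-β) / n * (ε * (n:ℝ) ^ 2) := by gcongr
        _ = n * (Real.log c / 2) := by
            have hne : -β ≠ 0 := hlam.ne'
            rw [hε]
            generalize -β = b at hne
            field_simp
    have h9 : EE σ n (fun L x => Real.exp (-(β / n) * (psum dl (x :: L) - mu σ n))) ≤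
        Real.exp (Real.log c / 2) ^ n := ((hM n h3).trans (le_max_left _ _)).trans h2.le
    have h10 : 0 ≤ EE σ n (fun L x => Real.exp (-(β / n) * (psum dl (x :: L) - mu σ n))) :=
      EE_nonneg σ fun _ _ _ => (Real.exp_pos _).le
    calc ZZ σ n β' ≤ _ := h5
      _ ≤ Real.exp (Real.log c / 2) ^ n * Real.exp (Real.log c / 2) ^ n := by gcongr
      _ = c ^ n := by
          rw [← mul_pow, ← Real.exp_add, add_halves, Real.exp_log (by linarith)]
  have h11 : ZZ σ n β' ^ ((1:ℝ) / (n:ℝ)) ≤ c := by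
    calc ZZ σ n β' ^ ((1:ℝ) / (n:ℝ)) ≤ (c ^ n) ^ ((1:ℝ) / (n:ℝ)) :=
          Real.rpow_le_rpow (ZZ_pos σ n β').le h4 (by positivity)
      _ = c := by
          rw [one_div]
          exact Real.pow_rpow_inv_natCast (by linarith) (by omega)
  linarith

/-- bounded centred exponential moments below the threshold -/
def Bdd : Prop := ∀ γ lam : ℝ, Sub σ γ → 0 < lam → lam < γ →
  ∃ M : ℝ, ∀ n : ℕ, 1 ≤ n → EE σ n (fun L x => Real.exp (lam / n * (psum dl (x :: L) - mu σ n))) ≤ M

lemma mem_SB_of_gt {β β'' : ℝ} (hB : Bdd σ) (hβ'' : β'' ∉ SA σ) (h1 : β'' < β) (h2 : β < 0) :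
    β ∈ SB σ := by
  have hS : Sub σ (-β'') := by
    intro c hc
    have h3 : ¬ ∃ᶠ n : ℕ in atTop, c < ZZ σ n β'' ^ ((1:ℝ) / (n:ℝ)) := fun h => hβ'' ⟨c, hc, h⟩
    rw [not_frequently] at h3
    filter_upwards [h3, eventually_ge_atTop 1] with n hn hn1
    push Not at hn
    have h4 : ZZ σ n β'' ≤ c ^ n := by
      have h5 : (ZZ σ n β'' ^ ((1:ℝ) / (n:ℝ))) ^ n ≤ c ^ n :=
        pow_le_pow_left₀ (Real.rpow_nonneg (ZZ_pos σ n β'').le _) hn n
      rwa [one_div, Real.rpow_inv_natCast_pow (ZZ_pos σ n β'').le (by omega)] at h5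
    have h6 : EE σ n (fun L x => Real.exp (-β'' / n * psum dl (x :: L))) = ZZ σ n β'' := by
      rw [ZZ]
      congr 1
      funext L x
      congr 1
      ring
    rw [h6]; exact h4
  obtain ⟨M, hM⟩ := hB (-β'') (-β) hS (by linarith) (by linarith)
  refine ⟨M, fun n hn => ?_⟩
  refine le_trans (le_of_eq ?_) (hM n hn)
  rw [ZS]
  congr 1
  funext L x
  congr 1
  ring

theorem thresholds_eq (hA : Mean0 σ) (hB : Bdd σ) (hne : (SA σ).Nonempty) :
    sSup (SA σ) = sInf (SB σ) := by
  obtain ⟨β0, hβ0⟩ := hne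
  have hbA : BddAbove (SA σ) := ⟨0, fun β hβ => (SA_neg σ hβ).le⟩
  have hbB : BddBelow (SB σ) := ⟨β0, fun β hβ => SB_le σ hA hβ hβ0⟩
  refine le_antisymm ?_ ?_
  · exact le_csInf ⟨0, zero_mem_SB σ⟩ fun β hβ => csSup_le ⟨β0, hβ0⟩ fun β' hβ' => SB_le σ hA hβ hβ'
  · refine le_of_forall_gt_imp_ge_of_dense fun β hβ => ?_
    rcases le_or_gt 0 β with h | h
    · exact (csInf_le hbB (zero_mem_SB σ)).trans h
    · obtain ⟨β'', h1, h2⟩ := exists_between hβ
      exact csInf_le hbB (mem_SB_of_gt σ hB (fun h3 => absurd (le_csSup hbA h3) (not_le.2 h1)) h2 h)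

/-- the list of positions -/
def lst (w : ℕ → Γ) : ℕ → List Γ
  | 0 => []
  | n + 1 => w n :: lst w n

lemma psum_lst (κ : Γ → ℝ) (w : ℕ → Γ) (N : ℕ) :
    psum κ (lst w N) = ∑ j ∈ range N, ∑ i ∈ range j, κ (w j - w i) := by
  have h1 : ∀ (f : Γ → ℝ) (N : ℕ), lsum f (lst w N) = ∑ i ∈ range N, f (w i) := by
    intro f N
    induction N with
    | zero => rfl
    | succ N ih => rw [lst, lsum_cons, ih, sum_range_succ, add_comm]
  induction N with
  | zero => rfl
  | succ N ih => rw [lst, psum_cons, ih, h1, sum_range_succ]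

lemma lst_congr {w w' : ℕ → Γ} {N : ℕ} (h : ∀ i < N, w i = w' i) : lst w N = lst w' N := by
  induction N with
  | zero => rfl
  | succ N ih => rw [lst, lst, h N (by omega), ih fun i hi => h i (by omega)]

/-- position after `p` steps -/
def wpos {n : ℕ} (s : Fin n → ι) (p : ℕ) : Γ := ∑ j : Fin n, if j.val < p then σ (s j) else 0

lemma wpos_init {n : ℕ} (s : Fin (n + 1) → ι) {p : ℕ} (hp : p ≤ n) :
    wpos σ s p = wpos σ (Fin.init s) p := by
  rw [wpos, wpos, Fin.sum_univ_castSucc]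
  have : ¬ ((Fin.last n).val < p) := by rw [Fin.val_last]; omega
  rw [if_neg this, add_zero]
  rfl

lemma path_eq (n : ℕ) (s : Fin n → ι) : path σ n s = (lst (wpos σ s) n, wpos σ s n) := by
  induction n with
  | zero => simp [path, lst, wpos]
  | succ n ih =>
    rw [path, ih (Fin.init s), lst]
    have h1 : lst (wpos σ (Fin.init s)) n = lst (wpos σ s) n :=
      lst_congr fun i hi => (wpos_init σ s (by omega)).symm
    have h2 : wpos σ (Fin.init s) n = wpos σ s n := (wpos_init σ s le_rfl).symm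
    have h3 : wpos σ s (n + 1) = wpos σ s n + σ (s (Fin.last n)) := by
      rw [wpos, wpos, Fin.sum_univ_castSucc, Fin.sum_univ_castSucc]
      have e1 : (Fin.last n).val < n + 1 := by rw [Fin.val_last]; omega
      have e2 : ¬ ((Fin.last n).val < n) := by rw [Fin.val_last]; omega
      rw [if_pos e1, if_neg e2, add_zero]
      congr 1
      refine sum_congr rfl fun j _ => ?_
      have e3 : (Fin.castSucc j).val < n + 1 := by rw [Fin.val_castSucc]; omega
      have e4 : (Fin.castSucc j).val < n := by rw [Fin.val_castSucc]; omega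
      rw [if_pos e3, if_pos e4]
    simp only [h1, h2, h3]

/-- back and forth path -/
def bf (e : ι) (j : ℕ) : Γ := if j % 2 = 0 then 0 else σ e

lemma bf_psum (e : ι) (n : ℕ) : (n:ℝ) * (n - 1) / 4 ≤ psum dl (lst (bf σ e) (n + 1)) := by
  have h1 : ∀ n : ℕ, ((n:ℝ) - 1) / 2 ≤ lsum (fun z => dl (bf σ e n - z)) (lst (bf σ e) n) := by
    intro n
    induction n using Nat.twoStepInduction with
    | zero => simp [lst]; norm_num
    | one =>
      simp only [lst, lsum_cons, lsum_nil]
      have := dl_nonneg (bf σ e 1 - bf σ e 0)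
      norm_num
      exact this
    | more n ih _ =>
      simp only [lst, lsum_cons]
      have e1 : bf σ e (n + 2) = bf σ e n := by
        unfold bf
        rw [Nat.add_mod_right]
      rw [e1, sub_self, dl_zero]
      have e2 := dl_nonneg (bf σ e n - bf σ e (n + 1))
      push_cast
      linarith
  induction n with
  | zero => simp [lst]
  | succ n ih =>
    rw [lst, psum_cons]
    have h2 := h1 (n + 1)
    push_cast at h2 ⊢
    linarith

/-- alternating steps -/
def alt (ν : Equiv.Perm ι) (e : ι) (n : ℕ) (j : Fin n) : ι := if j.val % 2 = 0 then e else ν e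

lemma path_alt (ν : Equiv.Perm ι) (hν : ∀ e, σ (ν e) = -σ e) (e : ι) (n : ℕ) :
    path σ n (alt ν e n) = (lst (bf σ e) n, bf σ e n) := by
  induction n with
  | zero => simp [path, lst, bf]
  | succ n ih =>
    rw [path]
    have h1 : Fin.init (alt ν e (n + 1)) = alt ν e n := by
      funext j
      rfl
    rw [h1, ih, lst]
    have h2 : bf σ e n + σ (alt ν e (n + 1) (Fin.last n)) = bf σ e (n + 1) := by
      unfold bf alt
      rw [Fin.val_last]
      rcases Nat.mod_two_eq_zero_or_one n with h | h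
      · have h3 : (n + 1) % 2 = 1 := by omega
        simp [h, h3]
      · have h3 : (n + 1) % 2 = 0 := by omega
        simp [h, h3, hν]
    simp only [h2]

lemma SA_nonempty (ν : Equiv.Perm ι) (hν : ∀ e, σ (ν e) = -σ e) : (SA σ).Nonempty := by
  obtain ⟨e⟩ := ‹Nonempty ι›
  have : Nonempty ι := ⟨e⟩
  set K : ℝ := 2 * Fintype.card ι with hK
  have hc := card_pos' (ι := ι)
  have hc1 : (1:ℝ) ≤ Fintype.card ι := by exact_mod_cast Fintype.card_pos
  have hK1 : 1 < K := by rw [hK]; linarith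
  have hlog : 0 < Real.log K := Real.log_pos hK1
  refine ⟨-(8 * Real.log K), 3/2, by norm_num, ?_⟩
  refine Eventually.frequently ?_
  filter_upwards [eventually_ge_atTop 2] with n hn
  have hn2 : (2:ℝ) ≤ n := by exact_mod_cast hn
  have hn0 : (0:ℝ) < n := by linarith
  have h1 : (2:ℝ) ^ n ≤ ZZ σ n (-(8 * Real.log K)) := by
    rw [ZZ, EE_eq, le_div_iff₀ (by positivity)]
    have h2 : Real.exp (-(-(8 * Real.log K) / n) *
        psum dl ((path σ n (alt ν e n)).2 :: (path σ n (alt ν e n)).1)) ≤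
        ∑ s : Fin n → ι, Real.exp (-(-(8 * Real.log K) / n) *
          psum dl ((path σ n s).2 :: (path σ n s).1)) :=
      single_le_sum (f := fun s : Fin n → ι => Real.exp (-(-(8 * Real.log K) / n) *
          psum dl ((path σ n s).2 :: (path σ n s).1))) (fun s _ => (Real.exp_pos _).le)
        (mem_univ (alt ν e n))
    refine le_trans ?_ h2
    rw [path_alt σ ν hν e n]
    have h3 := bf_psum σ e n
    have h4 : psum dl ((lst (bf σ e) n, bf σ e n).2 :: (lst (bf σ e) n, bf σ e n).1) =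
        psum dl (lst (bf σ e) (n + 1)) := rfl
    rw [h4, ← mul_pow, ← hK]
    have h5 : K ^ n = Real.exp (n * Real.log K) := by
      rw [Real.exp_nat_mul, Real.exp_log (by linarith)]
    rw [h5]
    refine Real.exp_le_exp.2 ?_
    calc (n:ℝ) * Real.log K ≤ 2 * (n - 1) * Real.log K := by
          gcongr
          linarith
      _ = 8 * Real.log K / n * (n * (n - 1) / 4) := by field_simp; ring
      _ ≤ 8 * Real.log K / n * psum dl (lst (bf σ e) (n + 1)) := by gcongr
      _ = _ := by ring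
  calc (3/2 : ℝ) < 2 := by norm_num
    _ = ((2:ℝ) ^ n) ^ ((1:ℝ) / (n:ℝ)) := by
        rw [one_div]
        exact (Real.pow_rpow_inv_natCast (by norm_num) (by omega)).symm
    _ ≤ _ := Real.rpow_le_rpow (by positivity) h1 (by positivity)

lemma mu_succ (n : ℕ) : mu σ (n + 1) = mu σ n + ∑ m ∈ range (n + 1), ((Pop σ)^[m + 1] dl) 0 := by
  have h1 := EE_past σ dl (n + 1) 0
  simp only [Function.iterate_zero, id, Nat.zero_add] at h1
  have h2 : EE σ (n + 1) (fun L _ => psum dl L) = mu σ n := by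
    rw [EE_succ, mu]
    congr 1
    funext L x
    have hc : (0:ℝ) < Fintype.card ι := card_pos'
    rw [Av, sum_const, card_univ, nsmul_eq_mul, mul_div_cancel_left₀ _ hc.ne']
  rw [← h1, ← h2, ← EE_add, mu]
  rfl

lemma mean0 (h : Tendsto (fun m => ((Pop σ)^[m] dl) 0) atTop (nhds 0)) : Mean0 σ := by
  set p : ℕ → ℝ := fun m => ((Pop σ)^[m + 1] dl) 0 with hp
  have hp0 : ∀ m, 0 ≤ p m := fun m => Pop_iter_nonneg σ dl_nonneg _ _
  have h1 : Tendsto p atTop (nhds 0) := h.comp (tendsto_add_atTop_nat 1)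
  have h2 := h1.cesaro
  have h3 : ∀ n, mu σ n ≤ n * ∑ m ∈ range n, p m := by
    intro n
    induction n with
    | zero => simp [mu, EE]
    | succ n ih =>
      rw [mu_succ]
      have h4 : ∑ m ∈ range n, p m ≤ ∑ m ∈ range (n + 1), p m := by
        rw [sum_range_succ]; linarith [hp0 n]
      have h5 : (n:ℝ) * ∑ m ∈ range n, p m ≤ n * ∑ m ∈ range (n + 1), p m := by gcongr
      push_cast
      linarith
  intro ε hε
  have h6 := h2.eventually (gt_mem_nhds hε)
  filter_upwards [h6, eventually_ge_atTop 1] with n hn hn1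
  have hn0 : (0:ℝ) < n := by exact_mod_cast hn1
  have h7 : ∑ m ∈ range n, p m ≤ ε * n := by
    rw [inv_mul_eq_div, div_lt_iff₀ hn0] at hn
    exact hn.le
  calc mu σ n ≤ n * ∑ m ∈ range n, p m := h3 n
    _ ≤ n * (ε * n) := by gcongr
    _ = _ := by ring

lemma bdd_high {π : ℕ → ℝ} (hπ : ∀ k z, ((Pop σ)^[k] dl) z ≤ π k) (hs : Summable π) : Bdd σ := by
  intro γ lam hS h0 h
  obtain ⟨δ, hδ, M1, hM1⟩ := high_below σ hπ hs h0.le
  obtain ⟨M2, hM2⟩ := top_range hS h0.le h hδ
  refine ⟨M2 + M1, fun n hn => ?_⟩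
  have hn0 : (0:ℝ) < n := by exact_mod_cast hn
  calc _ ≤ EE σ n (fun L x => Real.exp (lam / n * psum dl (x :: L)) *
        (if δ * (n:ℝ) ^ 2 ≤ psum dl (x :: L) then 1 else 0) +
        Real.exp (lam / n * psum dl (x :: L)) *
        (if δ * (n:ℝ) ^ 2 ≤ psum dl (x :: L) then 0 else 1)) := by
        refine EE_mono σ fun L x _ => ?_
        have h1 : Real.exp (lam / n * (psum dl (x :: L) - mu σ n)) ≤
            Real.exp (lam / n * psum dl (x :: L)) := by
          refine Real.exp_le_exp.2 ?_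
          have := mu_nonneg σ n
          gcongr
          linarith
        refine h1.trans (le_of_eq ?_)
        split_ifs <;> simp
    _ ≤ _ := by
        rw [EE_add]
        exact add_le_add (hM2 n hn) (hM1 n hn)

end Pool.Agent.Helper95.Poly
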