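import Mathlib
import Pool.Agent.Helper95.PolyEnd

set_option autoImplicit false
set_option linter.unusedSectionVars false

open Finset Filter

namespace Pool.Agent.Helper95.Poly

section map
variable {Γ : Type*} [AddCommGroup Γ] [DecidableEq Γ] {Γ' : Type*} [AddCommGroup Γ']
  [DecidableEq Γ'] {ι : Type*} [Fintype ι] [Nonempty ι]

lemma path_map {σ : ι → Γ} {σ' : ι → Γ'} (φ : Γ →+ Γ') (h : ∀ e, φ (σ e) = σ' e) (n : ℕ)
    (s : Fin n → ι) : path σ' n s = ((path σ n s).1.map φ, φ (path σ n s).2) := by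
  induction n with
  | zero => simp [path]
  | succ n ih =>
    rw [path, path, ih (Fin.init s)]
    simp [h]

lemma psum_hom (φ : Γ →+ Γ') (hφ : Function.Injective φ) (M : List Γ) :
    psum dl (M.map φ) = psum dl M := by
  have hl : ∀ (y : Γ) (M : List Γ), lsum (fun z => dl (φ y - z)) (M.map φ) =
      lsum (fun z => dl (y - z)) M := by
    intro y M
    induction M with
    | nil => rfl
    | cons z M ih =>
      rw [List.map_cons, lsum_cons, lsum_cons, ih]
      congr 1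
      unfold dl
      rw [← map_sub]
      have : φ (y - z) = 0 ↔ y - z = 0 := by
        rw [← map_zero φ]; exact hφ.eq_iff
      simp only [this]
  induction M with
  | nil => rfl
  | cons y M ih => rw [List.map_cons, psum_cons, psum_cons, ih, hl]

lemma EE_hom {σ : ι → Γ} {σ' : ι → Γ'} (φ : Γ →+ Γ') (hφ : Function.Injective φ)
    (h : ∀ e, φ (σ e) = σ' e) (n : ℕ) (H : ℝ → ℝ) :
    EE σ' n (fun L x => H (psum dl (x :: L))) = EE σ n (fun L x => H (psum dl (x :: L))) := by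
  rw [EE_eq, EE_eq]
  congr 1
  refine sum_congr rfl fun s _ => ?_
  rw [path_map φ h n s]
  simp only
  rw [← List.map_cons, psum_hom φ hφ]

lemma SA_hom {σ : ι → Γ} {σ' : ι → Γ'} (φ : Γ →+ Γ') (hφ : Function.Injective φ)
    (h : ∀ e, φ (σ e) = σ' e) : SA σ' = SA σ := by
  have h1 : ∀ n β, ZZ σ' n β = ZZ σ n β := fun n β =>
    EE_hom φ hφ h n (fun t => Real.exp (-(β / n) * t))
  unfold SA
  simp only [h1]

lemma SB_hom {σ : ι → Γ} {σ' : ι → Γ'} (φ : Γ →+ Γ') (hφ : Function.Injective φ)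
    (h : ∀ e, φ (σ e) = σ' e) : SB σ' = SB σ := by
  have hmu : ∀ n, mu σ' n = mu σ n := fun n => EE_hom φ hφ h n (fun t => t)
  have h1 : ∀ n β, ZS σ' n β = ZS σ n β := fun n β => by
    rw [ZS, ZS, hmu]
    exact EE_hom φ hφ h n (fun t => Real.exp (-(β / n) * (t - mu σ n)))
  unfold SB
  simp only [h1]

end map

/-- sign reversal of the steps of the walk on `ℤ^d` -/
def sdν (d : ℕ) : Equiv.Perm (Fin d × Bool) where
  toFun e := (e.1, !e.2)
  invFun e := (e.1, !e.2)
  left_inv e := by simp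
  right_inv e := by simp

lemma sd_neg (d : ℕ) (e : Fin d × Bool) : sd d (sdν d e) = -sd d e := by
  obtain ⟨i, b⟩ := e
  cases b <;> simp [sd, sdν, Pi.single_neg]

lemma final_high {d : ℕ} (hd : 3 ≤ d) [Nonempty (Fin d × Bool)] :
    sSup (SA (sd d)) = sInf (SB (sd d)) := by
  have : NeZero d := ⟨by omega⟩
  obtain ⟨π, hs, hπ⟩ := high_kernel hd
  refine thresholds_eq (sd d) (mean0 (sd d) ?_) (bdd_high (sd d) hπ hs)
    (SA_nonempty (sd d) (sdν d) (sd_neg d))
  exact squeeze_zero (fun m => Pop_iter_nonneg (sd d) dl_nonneg m 0) (fun m => hπ m 0)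
    hs.tendsto_atTop_zero

/-- the injective homomorphism turning the planar walk by 45 degrees -/
def rot : (Fin 2 → ℤ) →+ ℤ × ℤ where
  toFun x := (x 0 + x 1, x 0 - x 1)
  map_zero' := by simp
  map_add' x y := by
    simp only [Pi.add_apply, Prod.mk_add_mk, Prod.mk.injEq]
    constructor <;> ring

lemma rot_inj : Function.Injective rot := by
  intro x y h
  have h1 : x 0 + x 1 = y 0 + y 1 := congrArg Prod.fst h
  have h2 : x 0 - x 1 = y 0 - y 1 := congrArg Prod.snd h
  funext i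
  fin_cases i
  · show x 0 = y 0
    omega
  · show x 1 = y 1
    omega

lemma rot_step (e : Fin 2 × Bool) : rot (sd 2 e) = dg ℤ e := by
  obtain ⟨i, b⟩ := e
  fin_cases i <;> cases b <;> simp [rot, sd, dg]

lemma final_two [Nonempty (Fin 2 × Bool)] : sSup (SA (sd 2)) = sInf (SB (sd 2)) := by
  rw [← SA_hom rot rot_inj rot_step, ← SB_hom rot rot_inj rot_step]
  refine thresholds_eq (dg ℤ) (mean0 (dg ℤ) ?_) (fun γ lam hS h0 h => two_dim hS h0 h)
    (SA_nonempty (dg ℤ) dgν dg_neg)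
  refine squeeze_zero (fun m => Pop_iter_nonneg (dg ℤ) dl_nonneg m 0) (fun m => ?_)
    tendsto_one_div_add_atTop_nhds_zero_nat
  rw [← pk_iter]
  exact pk_le m 0

lemma final_all {d : ℕ} (hd : 2 ≤ d) [Nonempty (Fin d × Bool)] :
    sSup (SA (sd d)) = sInf (SB (sd d)) := by
  rcases Nat.lt_or_ge d 3 with h | h
  · have : d = 2 := by omega
    subst this
    exact final_two
  · exact final_high h

lemma wpos_sd {d n : ℕ} (s : Fin n → Fin d × Bool) (p : ℕ) :
    (fun k : Fin d => ∑ j : Fin n,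
      (if j.val < p ∧ (s j).1 = k then (if (s j).2 then (1:ℤ) else -1) else 0)) =
      wpos (sd d) s p := by
  funext k
  rw [wpos, Finset.sum_apply]
  refine sum_congr rfl fun j _ => ?_
  by_cases h1 : j.val < p
  · rw [if_pos h1, sd, Pi.single_apply]
    by_cases h2 : (s j).1 = k
    · rw [if_pos ⟨h1, h2⟩, if_pos h2.symm]
    · rw [if_neg (fun h => h2 h.2), if_neg (fun h => h2 h.symm)]
  · rw [if_neg (fun h => h1 h.1), if_neg h1]
    rfl

lemma card_pairs {Γ : Type*} [AddCommGroup Γ] [DecidableEq Γ] (w : ℕ → Γ) (n : ℕ) :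
    (((univ.filter (fun p : Fin (n+1) × Fin (n+1) => p.1 < p.2 ∧ w p.1.val = w p.2.val)).card : ℕ) : ℝ) =
      psum dl (lst w (n + 1)) := by
  rw [psum_lst, card_filter]
  push_cast
  rw [Fintype.sum_prod_type_right]
  rw [← Fin.sum_univ_eq_sum_range (fun j => ∑ i ∈ range j, dl (w j - w i)) (n + 1)]
  refine sum_congr rfl fun j _ => ?_
  have h1 : ∑ i ∈ range j.val, dl (w j.val - w i) =
      ∑ i ∈ range (n + 1), if i < j.val ∧ w i = w j.val then (1:ℝ) else 0 := by
    have hj : j.val < n + 1 := j.isLt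
    have h2 : range j.val = (range (n + 1)).filter (fun i => i < j.val) := by
      ext i
      simp only [mem_range, mem_filter]
      omega
    rw [h2, sum_filter]
    refine sum_congr rfl fun i _ => ?_
    by_cases h3 : i < j.val
    · rw [if_pos h3]
      unfold dl
      by_cases h4 : w i = w j.val
      · rw [if_pos (sub_eq_zero.2 h4.symm), if_pos ⟨h3, h4⟩]
      · rw [if_neg (fun h => h4 (sub_eq_zero.1 h).symm), if_neg (fun h => h4 h.2)]
    · rw [if_neg h3, if_neg (fun h => h3 h.1)]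
  rw [h1, ← Fin.sum_univ_eq_sum_range (fun i => if i < j.val ∧ w i = w j.val then (1:ℝ) else 0) (n + 1)]
  refine sum_congr rfl fun i _ => ?_
  simp only [Fin.lt_def]

/-- the threshold identity in explicit form -/
theorem explicit {d : ℕ} (hd : 2 ≤ d) (I : (n : ℕ) → (Fin n → Fin d × Bool) → ℝ)
    (hI : ∀ (n : ℕ) (s : Fin n → Fin d × Bool),
      I n s = ((Finset.univ.filter (fun p : Fin (n+1) × Fin (n+1) =>
        p.1 < p.2 ∧
        (fun k : Fin d => ∑ j : Fin n,
            (if j.val < p.1.val ∧ (s j).1 = k then (if (s j).2 then (1:ℤ) else -1) else 0)) =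
        (fun k : Fin d => ∑ j : Fin n,
            (if j.val < p.2.val ∧ (s j).1 = k then (if (s j).2 then (1:ℤ) else -1) else 0)))).card : ℝ)) :
  sSup {β : ℝ | ∃ c : ℝ, 1 < c ∧ ∃ᶠ n in atTop,
      c < ((∑ s : Fin n → Fin d × Bool, Real.exp (-(β / (n:ℝ)) * I n s))
              / (2 * (d:ℝ)) ^ n) ^ ((1:ℝ) / (n:ℝ))}
  =
  sInf {β : ℝ | ∃ M : ℝ, ∀ n : ℕ, 1 ≤ n →
      (∑ s : Fin n → Fin d × Bool, Real.exp (-(β / (n:ℝ)) *
          (I n s - (∑ t : Fin n → Fin d × Bool, I n t) / (2 * (d:ℝ)) ^ n)))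
        / (2 * (d:ℝ)) ^ n ≤ M} := by
  have hne : Nonempty (Fin d × Bool) := ⟨(⟨0, by omega⟩, true)⟩
  have hI2 : ∀ (n : ℕ) (s : Fin n → Fin d × Bool),
      I n s = psum dl ((path (sd d) n s).2 :: (path (sd d) n s).1) := by
    intro n s
    rw [hI n s, path_eq]
    have h1 := card_pairs (wpos (sd d) s) n
    rw [lst] at h1
    rw [← h1]
    simp only [wpos_sd]
  have hcard : (2 * (d:ℝ)) = (Fintype.card (Fin d × Bool) : ℝ) := by
    rw [Fintype.card_prod, Fintype.card_fin, Fintype.card_bool]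
    push_cast; ring
  have hmu : ∀ n : ℕ, (∑ t : Fin n → Fin d × Bool, I n t) / (2 * (d:ℝ)) ^ n = mu (sd d) n := by
    intro n
    rw [mu, EE_eq, hcard]
    simp only [hI2]
  have hZ : ∀ (n : ℕ) (β : ℝ), (∑ s : Fin n → Fin d × Bool, Real.exp (-(β / (n:ℝ)) * I n s))
      / (2 * (d:ℝ)) ^ n = ZZ (sd d) n β := by
    intro n β
    rw [ZZ, EE_eq, hcard]
    simp only [hI2]
  have hZS : ∀ (n : ℕ) (β : ℝ), (∑ s : Fin n → Fin d × Bool, Real.exp (-(β / (n:ℝ)) *
      (I n s - (∑ t : Fin n → Fin d × Bool, I n t) / (2 * (d:ℝ)) ^ n)))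
        / (2 * (d:ℝ)) ^ n = ZS (sd d) n β := by
    intro n β
    rw [ZS, EE_eq, hmu, hcard]
    simp only [hI2]
  have h := final_all hd
  simp only [hZ, hZS]
  exact h

end Pool.Agent.Helper95.Poly
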